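import Mathlib

set_option autoImplicit false

namespace H22.Anti

/-- Elements of the lattice. -/
inductive E : Type
  | d0 (j a : ℕ) | d1 (j a : ℕ) | e (j : ℕ) | q1 | q2 | h (n : ℕ) | k (n : ℕ) | top

def le : E → E → Prop
  | .d0 j1 a1, .d0 j2 a2 => j1 ≤ j2 ∧ j1 + a1 ≤ j2 + a2
  | .d0 j1 a1, .d1 j2 a2 => j1 ≤ j2 ∧ j1 + a1 ≤ j2 + a2
  | .d0 j1 _, .e j2 => j1 ≤ j2
  | .d0 j1 _, .q1 => j1 = 0
  | .d0 _ _, .q2 => True
  | .d0 j1 a1, .h j2 => j1 + a1 ≤ j2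
  | .d0 j1 a1, .k j2 => j1 ≤ j2 ∧ j1 + a1 ≤ j2 + 1
  | .d0 _ _, .top => True
  | .d1 _ _, .d0 _ _ => False
  | .d1 j1 a1, .d1 j2 a2 => j1 ≤ j2 ∧ j1 + a1 ≤ j2 + a2
  | .d1 j1 _, .e j2 => j1 ≤ j2
  | .d1 _ _, .q1 => False
  | .d1 _ _, .q2 => True
  | .d1 _ _, .h _ => False
  | .d1 j1 a1, .k j2 => j1 ≤ j2 ∧ j1 + a1 ≤ j2 + 1
  | .d1 _ _, .top => True
  | .e _, .d0 _ _ => False
  | .e _, .d1 _ _ => False
  | .e j1, .e j2 => j1 ≤ j2
  | .e _, .q1 => False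
  | .e _, .q2 => True
  | .e _, .h _ => False
  | .e _, .k _ => False
  | .e _, .top => True
  | .q1, .d0 _ _ => False
  | .q1, .d1 _ _ => False
  | .q1, .e _ => True
  | .q1, .q1 => True
  | .q1, .q2 => True
  | .q1, .h _ => False
  | .q1, .k _ => False
  | .q1, .top => True
  | .q2, .d0 _ _ => False
  | .q2, .d1 _ _ => False
  | .q2, .e _ => False
  | .q2, .q1 => False
  | .q2, .q2 => True
  | .q2, .h _ => False
  | .q2, .k _ => False
  | .q2, .top => True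
  | .h _, .d0 _ _ => False
  | .h _, .d1 _ _ => False
  | .h _, .e _ => False
  | .h _, .q1 => False
  | .h _, .q2 => False
  | .h j1, .h j2 => j1 ≤ j2
  | .h _, .k _ => False
  | .h _, .top => True
  | .k _, .d0 _ _ => False
  | .k _, .d1 _ _ => False
  | .k _, .e _ => False
  | .k _, .q1 => False
  | .k _, .q2 => False
  | .k _, .h _ => False
  | .k j1, .k j2 => j1 ≤ j2
  | .k _, .top => True
  | .top, .d0 _ _ => False
  | .top, .d1 _ _ => False
  | .top, .e _ => False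
  | .top, .q1 => False
  | .top, .q2 => False
  | .top, .h _ => False
  | .top, .k _ => False
  | .top, .top => True

def sup : E → E → E
  | .d0 j1 a1, .d0 j2 a2 => .d0 (max j1 j2) (max (j1 + a1) (j2 + a2) - max j1 j2)
  | .d0 j1 a1, .d1 j2 a2 => .d1 (max j1 j2) (max (j1 + a1) (j2 + a2) - max j1 j2)
  | .d0 j1 _, .e j2 => .e (max j1 j2)
  | .d0 j1 _, .q1 => if j1 = 0 then .q1 else .e j1
  | .d0 _ _, .q2 => .q2
  | .d0 j1 a1, .h j2 => .h (max j2 (j1 + a1))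
  | .d0 j1 a1, .k j2 => .k (max j2 (max j1 (j1 + a1 - 1)))
  | .d0 _ _, .top => .top
  | .d1 j1 a1, .d0 j2 a2 => .d1 (max j2 j1) (max (j2 + a2) (j1 + a1) - max j2 j1)
  | .d1 j1 a1, .d1 j2 a2 => .d1 (max j1 j2) (max (j1 + a1) (j2 + a2) - max j1 j2)
  | .d1 j1 _, .e j2 => .e (max j1 j2)
  | .d1 j1 _, .q1 => .e j1
  | .d1 _ _, .q2 => .q2
  | .d1 _ _, .h _ => .top
  | .d1 j1 a1, .k j2 => .k (max j2 (max j1 (j1 + a1 - 1)))
  | .d1 _ _, .top => .top
  | .e j1, .d0 j2 _ => .e (max j2 j1)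
  | .e j1, .d1 j2 _ => .e (max j2 j1)
  | .e j1, .e j2 => .e (max j1 j2)
  | .e j1, .q1 => .e j1
  | .e _, .q2 => .q2
  | .e _, .h _ => .top
  | .e _, .k _ => .top
  | .e _, .top => .top
  | .q1, .d0 j2 _ => if j2 = 0 then .q1 else .e j2
  | .q1, .d1 j2 _ => .e j2
  | .q1, .e j2 => .e j2
  | .q1, .q1 => .q1
  | .q1, .q2 => .q2
  | .q1, .h _ => .top
  | .q1, .k _ => .top
  | .q1, .top => .top
  | .q2, .d0 _ _ => .q2
  | .q2, .d1 _ _ => .q2
  | .q2, .e _ => .q2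
  | .q2, .q1 => .q2
  | .q2, .q2 => .q2
  | .q2, .h _ => .top
  | .q2, .k _ => .top
  | .q2, .top => .top
  | .h j1, .d0 j2 a2 => .h (max j1 (j2 + a2))
  | .h _, .d1 _ _ => .top
  | .h _, .e _ => .top
  | .h _, .q1 => .top
  | .h _, .q2 => .top
  | .h j1, .h j2 => .h (max j1 j2)
  | .h _, .k _ => .top
  | .h _, .top => .top
  | .k j1, .d0 j2 a2 => .k (max j1 (max j2 (j2 + a2 - 1)))
  | .k j1, .d1 j2 a2 => .k (max j1 (max j2 (j2 + a2 - 1)))
  | .k _, .e _ => .top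
  | .k _, .q1 => .top
  | .k _, .q2 => .top
  | .k _, .h _ => .top
  | .k j1, .k j2 => .k (max j1 j2)
  | .k _, .top => .top
  | .top, .d0 _ _ => .top
  | .top, .d1 _ _ => .top
  | .top, .e _ => .top
  | .top, .q1 => .top
  | .top, .q2 => .top
  | .top, .h _ => .top
  | .top, .k _ => .top
  | .top, .top => .top

def inf : E → E → E
  | .d0 j1 a1, .d0 j2 a2 => .d0 (min j1 j2) (min (j1 + a1) (j2 + a2) - min j1 j2)
  | .d0 j1 a1, .d1 j2 a2 => .d0 (min j1 j2) (min (j1 + a1) (j2 + a2) - min j1 j2)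
  | .d0 j1 a1, .e j2 => .d0 (min j1 j2) (j1 + a1 - min j1 j2)
  | .d0 j1 a1, .q1 => .d0 0 (j1 + a1)
  | .d0 j1 a1, .q2 => .d0 j1 a1
  | .d0 j1 a1, .h j2 => .d0 (min j1 j2) (min (j1 + a1) j2 - min j1 j2)
  | .d0 j1 a1, .k j2 => .d0 (min j1 j2) (min (j1 + a1) (j2 + 1) - min j1 j2)
  | .d0 j1 a1, .top => .d0 j1 a1
  | .d1 j1 a1, .d0 j2 a2 => .d0 (min j2 j1) (min (j2 + a2) (j1 + a1) - min j2 j1)
  | .d1 j1 a1, .d1 j2 a2 => .d1 (min j1 j2) (min (j1 + a1) (j2 + a2) - min j1 j2)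
  | .d1 j1 a1, .e j2 => .d1 (min j1 j2) (j1 + a1 - min j1 j2)
  | .d1 j1 a1, .q1 => .d0 0 (j1 + a1)
  | .d1 j1 a1, .q2 => .d1 j1 a1
  | .d1 j1 a1, .h j2 => .d0 (min j1 j2) (min (j1 + a1) j2 - min j1 j2)
  | .d1 j1 a1, .k j2 => .d1 (min j1 j2) (min (j1 + a1) (j2 + 1) - min j1 j2)
  | .d1 j1 a1, .top => .d1 j1 a1
  | .e j1, .d0 j2 a2 => .d0 (min j2 j1) (j2 + a2 - min j2 j1)
  | .e j1, .d1 j2 a2 => .d1 (min j2 j1) (j2 + a2 - min j2 j1)
  | .e j1, .e j2 => .e (min j1 j2)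
  | .e _, .q1 => .q1
  | .e j1, .q2 => .e j1
  | .e j1, .h j2 => .d0 (min j1 j2) (j2 - min j1 j2)
  | .e j1, .k j2 => .d1 (min j1 j2) (j2 + 1 - min j1 j2)
  | .e j1, .top => .e j1
  | .q1, .d0 j2 a2 => .d0 0 (j2 + a2)
  | .q1, .d1 j2 a2 => .d0 0 (j2 + a2)
  | .q1, .e _ => .q1
  | .q1, .q1 => .q1
  | .q1, .q2 => .q1
  | .q1, .h j2 => .d0 0 j2
  | .q1, .k j2 => .d0 0 (j2 + 1)
  | .q1, .top => .q1
  | .q2, .d0 j2 a2 => .d0 j2 a2
  | .q2, .d1 j2 a2 => .d1 j2 a2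
  | .q2, .e j2 => .e j2
  | .q2, .q1 => .q1
  | .q2, .q2 => .q2
  | .q2, .h j2 => .d0 j2 0
  | .q2, .k j2 => .d1 j2 1
  | .q2, .top => .q2
  | .h j1, .d0 j2 a2 => .d0 (min j2 j1) (min (j2 + a2) j1 - min j2 j1)
  | .h j1, .d1 j2 a2 => .d0 (min j2 j1) (min (j2 + a2) j1 - min j2 j1)
  | .h j1, .e j2 => .d0 (min j2 j1) (j1 - min j2 j1)
  | .h j1, .q1 => .d0 0 j1
  | .h j1, .q2 => .d0 j1 0
  | .h j1, .h j2 => .h (min j1 j2)
  | .h j1, .k j2 => .d0 (min j1 j2) (min j1 (j2 + 1) - min j1 j2)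
  | .h j1, .top => .h j1
  | .k j1, .d0 j2 a2 => .d0 (min j2 j1) (min (j2 + a2) (j1 + 1) - min j2 j1)
  | .k j1, .d1 j2 a2 => .d1 (min j2 j1) (min (j2 + a2) (j1 + 1) - min j2 j1)
  | .k j1, .e j2 => .d1 (min j2 j1) (j1 + 1 - min j2 j1)
  | .k j1, .q1 => .d0 0 (j1 + 1)
  | .k j1, .q2 => .d1 j1 1
  | .k j1, .h j2 => .d0 (min j2 j1) (min j2 (j1 + 1) - min j2 j1)
  | .k j1, .k j2 => .k (min j1 j2)
  | .k j1, .top => .k j1
  | .top, .d0 j2 a2 => .d0 j2 a2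
  | .top, .d1 j2 a2 => .d1 j2 a2
  | .top, .e j2 => .e j2
  | .top, .q1 => .q1
  | .top, .q2 => .q2
  | .top, .h j2 => .h j2
  | .top, .k j2 => .k j2
  | .top, .top => .top

theorem le_refl' (x : E) : le x x := by
  cases x <;> simp [le]

theorem le_antisymm' (x y : E) : le x y → le y x → x = y := by
  cases x <;> cases y <;> simp [le] <;> omega

theorem le_trans' (x y z : E) : le x y → le y z → le x z := by
  cases x <;> cases y <;> cases z <;> simp only [le, imp_self, implies_true, false_imp_iff, true_imp_iff, IsEmpty.forall_iff] <;> omega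

theorem le_sup_left' (x y : E) : le x (sup x y) := by
  cases x <;> cases y <;> simp only [sup] <;> (try split_ifs) <;> simp only [le] <;> omega

theorem le_sup_right' (x y : E) : le y (sup x y) := by
  cases x <;> cases y <;> simp only [sup] <;> (try split_ifs) <;> simp only [le] <;> omega

theorem sup_le' (x y z : E) : le x z → le y z → le (sup x y) z := by
  cases x <;> cases y <;> cases z <;> simp only [sup] <;> (try split_ifs) <;> simp only [le, imp_self, implies_true, false_imp_iff, true_imp_iff, IsEmpty.forall_iff] <;> omega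

theorem inf_le_left' (x y : E) : le (inf x y) x := by
  cases x <;> cases y <;> simp only [inf, le] <;> omega

theorem inf_le_right' (x y : E) : le (inf x y) y := by
  cases x <;> cases y <;> simp only [inf, le] <;> omega

theorem le_inf' (x y z : E) : le x y → le x z → le x (inf y z) := by
  cases x <;> cases y <;> cases z <;> simp only [inf, le, imp_self, implies_true, false_imp_iff, true_imp_iff, IsEmpty.forall_iff] <;> omega

instance : Lattice E where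
  le := le
  le_refl := le_refl'
  le_trans := le_trans'
  le_antisymm := le_antisymm'
  sup := sup
  le_sup_left := le_sup_left'
  le_sup_right := le_sup_right'
  sup_le := sup_le'
  inf := inf
  inf_le_left := inf_le_left'
  inf_le_right := inf_le_right'
  le_inf := le_inf'

theorem sup_def (x y : E) : x ⊔ y = sup x y := rfl
theorem inf_def (x y : E) : x ⊓ y = inf x y := rfl
theorem le_def (x y : E) : x ≤ y ↔ le x y := Iff.rfl

end H22.Anti
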