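import Pool.Agent.H22.Anti1

set_option autoImplicit false

namespace H22.Anti

/-- bounded pieces avoiding `q2`. -/
def PS (m : ℕ) : E → Prop
  | .d0 j a => j ≤ m ∧ j + a ≤ m + 1
  | .d1 j a => j ≤ m ∧ j + a ≤ m + 1
  | .e j => j ≤ m
  | .q1 => True
  | .q2 => False
  | .h n => n ≤ m + 1
  | .k n => n ≤ m
  | .top => True

/-- bounded pieces avoiding `q1`. -/
def PT (m : ℕ) : E → Prop
  | .d0 j a => j + a ≤ m
  | .d1 j a => j ≤ m ∧ j + a ≤ m + 1
  | .e j => j ≤ m
  | .q1 => False
  | .q2 => True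
  | .h n => n ≤ m
  | .k n => n ≤ m
  | .top => True

def sz : E → ℕ
  | .d0 j a => j + a
  | .d1 j a => j + a
  | .e j => j
  | .q1 => 0
  | .q2 => 0
  | .h n => n
  | .k n => n
  | .top => 0

def dec (p : Fin 8 × ℕ × ℕ) : E :=
  ![.d0 p.2.1 p.2.2, .d1 p.2.1 p.2.2, .e p.2.1, .q1, .q2, .h p.2.1, .k p.2.1, .top] p.1

theorem fin_sz (N : ℕ) : {x : E | sz x ≤ N}.Finite := by
  refine Set.Finite.subset (((Set.finite_univ (α := Fin 8)).prod
    ((Set.finite_Iic N).prod (Set.finite_Iic N))).image dec) ?_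
  intro x hx
  simp only [Set.mem_setOf_eq] at hx
  cases x with
  | d0 j a => exact ⟨(0, j, a), by simp only [sz] at hx; simp; omega, rfl⟩
  | d1 j a => exact ⟨(1, j, a), by simp only [sz] at hx; simp; omega, rfl⟩
  | e j => exact ⟨(2, j, 0), by simp only [sz] at hx; simp; omega, rfl⟩
  | q1 => exact ⟨(3, 0, 0), by simp, rfl⟩
  | q2 => exact ⟨(4, 0, 0), by simp, rfl⟩
  | h n => exact ⟨(5, n, 0), by simp only [sz] at hx; simp; omega, rfl⟩
  | k n => exact ⟨(6, n, 0), by simp only [sz] at hx; simp; omega, rfl⟩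
  | top => exact ⟨(7, 0, 0), by simp, rfl⟩

theorem PS_sz (m : ℕ) (x : E) : PS m x → sz x ≤ m + 1 := by
  cases x <;> simp only [PS, sz] <;> omega

theorem PT_sz (m : ℕ) (x : E) : PT m x → sz x ≤ m + 1 := by
  cases x <;> simp only [PT, sz] <;> omega

theorem sz_PS (m : ℕ) (x : E) : x ≠ .q2 → sz x ≤ m → PS m x := by
  cases x <;> simp [PS, sz] <;> omega

theorem sz_PT (m : ℕ) (x : E) : x ≠ .q1 → sz x ≤ m → PT m x := by
  cases x <;> simp [PT, sz] <;> omega

theorem PS_sup (m : ℕ) (x y : E) : PS m x → PS m y → PS m (sup x y) := by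
  cases x <;> cases y <;> simp only [sup] <;> (try split_ifs) <;>
    simp only [PS, imp_self, implies_true, false_imp_iff, true_imp_iff] <;> omega

theorem PS_inf (m : ℕ) (x y : E) : PS m x → PS m y → PS m (inf x y) := by
  cases x <;> cases y <;>
    simp only [inf, PS, imp_self, implies_true, false_imp_iff, true_imp_iff] <;> omega

theorem PT_sup (m : ℕ) (x y : E) : PT m x → PT m y → PT m (sup x y) := by
  cases x <;> cases y <;> simp only [sup] <;> (try split_ifs) <;>
    simp only [PT, imp_self, implies_true, false_imp_iff, true_imp_iff] <;> omega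

theorem PT_inf (m : ℕ) (x y : E) : PT m x → PT m y → PT m (inf x y) := by
  cases x <;> cases y <;>
    simp only [inf, PT, imp_self, implies_true, false_imp_iff, true_imp_iff] <;> omega

theorem finite_gen (A : Set E) (hA : A.Finite) (hac : IsAntichain (· ≤ ·) A) :
    (⋂₀ {S : Set E | A ⊆ S ∧ SupClosed S ∧ InfClosed S}).Finite := by
  obtain ⟨m, hm⟩ := (hA.image sz).bddAbove
  have hm' : ∀ x ∈ A, sz x ≤ m := fun x hx => hm ⟨x, hx, rfl⟩
  by_cases h2 : E.q2 ∈ A
  · have h1 : E.q1 ∉ A := fun h1 => hac h1 h2 (by simp) (by simp [le_def, le])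
    refine Set.Finite.subset (fin_sz (m + 1)) ?_
    intro x hx
    have : x ∈ {y : E | PT m y} := by
      refine hx _ ⟨fun y hy => sz_PT m y (fun h => h1 (h ▸ hy)) (hm' y hy), ?_, ?_⟩
      · intro a ha b hb; exact PT_sup m a b ha hb
      · intro a ha b hb; exact PT_inf m a b ha hb
    exact PT_sz m x this
  · refine Set.Finite.subset (fin_sz (m + 1)) ?_
    intro x hx
    have : x ∈ {y : E | PS m y} := by
      refine hx _ ⟨fun y hy => sz_PS m y (fun h => h2 (h ▸ hy)) (hm' y hy), ?_, ?_⟩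
      · intro a ha b hb; exact PS_sup m a b ha hb
      · intro a ha b hb; exact PS_inf m a b ha hb
    exact PS_sz m x this

instance : Infinite E := Infinite.of_injective E.h (fun _ _ h => by simpa using h)

theorem gen_all (S : Set E) (h1 : E.q1 ∈ S) (h2 : E.q2 ∈ S) (hh : E.h 0 ∈ S) (hk : E.k 0 ∈ S)
    (ht : E.d1 0 0 ∈ S) (hs : SupClosed S) (hi : InfClosed S) (x : E) : x ∈ S := by
  have hH : ∀ n, E.h n ∈ S ∧ E.d0 n 0 ∈ S ∧ E.k n ∈ S ∧ E.d0 0 (n + 1) ∈ S := by
    have step : ∀ n, E.h n ∈ S → E.h n ∈ S ∧ E.d0 n 0 ∈ S ∧ E.k n ∈ S ∧ E.d0 0 (n + 1) ∈ S := by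
      intro n hn
      have a1 : E.d0 n 0 ∈ S := hi h2 hn
      have a2 : E.k n ∈ S := by
        have := hs a1 hk
        rw [sup_def] at this
        simp only [sup] at this
        convert this using 2
        omega
      have a3 : E.d0 0 (n + 1) ∈ S := hi h1 a2
      exact ⟨hn, a1, a2, a3⟩
    intro n
    induction n with
    | zero => exact step 0 hh
    | succ n ih =>
      refine step (n + 1) ?_
      have := hs ih.2.2.2 hh
      rw [sup_def] at this
      simp only [sup] at this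
      convert this using 2
      omega
  have hF : ∀ n, E.d0 0 n ∈ S := by
    intro n
    cases n with
    | zero => exact (hH 0).2.1
    | succ n => exact (hH n).2.2.2
  have hD : ∀ j a, E.d0 j a ∈ S := by
    intro j a
    have := hs (hH j).2.1 (hF (j + a))
    rw [sup_def] at this
    simp only [sup] at this
    convert this using 2 <;> omega
  have hD1 : ∀ j a, E.d1 j a ∈ S := by
    intro j a
    have := hs (hD j a) ht
    rw [sup_def] at this
    simp only [sup] at this
    convert this using 2 <;> omega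
  cases x with
  | d0 j a => exact hD j a
  | d1 j a => exact hD1 j a
  | e j => exact hs (hD1 j 0) h1
  | q1 => exact h1
  | q2 => exact h2
  | h n => exact (hH n).1
  | k n => exact (hH n).2.2.1
  | top => exact hs hh hk

theorem fg : ∃ G : Set E, G.Finite ∧
    ⋂₀ {S : Set E | G ⊆ S ∧ SupClosed S ∧ InfClosed S} = Set.univ := by
  refine ⟨{E.q1, E.q2, E.h 0, E.k 0, E.d1 0 0}, by simp, ?_⟩
  refine Set.eq_univ_of_forall fun x S hS => ?_
  obtain ⟨hG, hs, hi⟩ := hS
  exact gen_all S (hG (by simp)) (hG (by simp)) (hG (by simp)) (hG (by simp)) (hG (by simp)) hs hi x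

end H22.Anti
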