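import Mathlib

set_option autoImplicit false

namespace Pool.Agent.H22.AntiNil

/-- Ten-dimensional space: W (three coordinates) plus the module (scalars, W, dual of W). -/
@[ext] structure Alg : Type where
  w0 : ℚ
  w1 : ℚ
  w2 : ℚ
  s : ℚ
  u0 : ℚ
  u1 : ℚ
  u2 : ℚ
  p0 : ℚ
  p1 : ℚ
  p2 : ℚ

instance : Zero Alg := ⟨⟨0, 0, 0, 0, 0, 0, 0, 0, 0, 0⟩⟩
instance : Add Alg := ⟨fun a b => ⟨a.w0 + b.w0, a.w1 + b.w1, a.w2 + b.w2, a.s + b.s, a.u0 + b.u0,
  a.u1 + b.u1, a.u2 + b.u2, a.p0 + b.p0, a.p1 + b.p1, a.p2 + b.p2⟩⟩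
instance : Neg Alg := ⟨fun a => ⟨-a.w0, -a.w1, -a.w2, -a.s, -a.u0, -a.u1, -a.u2, -a.p0, -a.p1, -a.p2⟩⟩
instance : SMul ℚ Alg := ⟨fun c a => ⟨c * a.w0, c * a.w1, c * a.w2, c * a.s, c * a.u0, c * a.u1,
  c * a.u2, c * a.p0, c * a.p1, c * a.p2⟩⟩
instance : Mul Alg := ⟨fun a b => ⟨0, 0, 0,
  (a.p0 * b.w0 + a.p1 * b.w1 + a.p2 * b.w2) - (b.p0 * a.w0 + b.p1 * a.w1 + b.p2 * a.w2),
  a.s * b.w0 - b.s * a.w0, a.s * b.w1 - b.s * a.w1, a.s * b.w2 - b.s * a.w2,
  (a.u1 * b.w2 - a.u2 * b.w1) - (b.u1 * a.w2 - b.u2 * a.w1),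
  (a.u2 * b.w0 - a.u0 * b.w2) - (b.u2 * a.w0 - b.u0 * a.w2),
  (a.u0 * b.w1 - a.u1 * b.w0) - (b.u0 * a.w1 - b.u1 * a.w0)⟩⟩

theorem zero_def : (0 : Alg) = ⟨0, 0, 0, 0, 0, 0, 0, 0, 0, 0⟩ := rfl
theorem add_def (a b : Alg) : a + b = ⟨a.w0 + b.w0, a.w1 + b.w1, a.w2 + b.w2, a.s + b.s, a.u0 + b.u0,
  a.u1 + b.u1, a.u2 + b.u2, a.p0 + b.p0, a.p1 + b.p1, a.p2 + b.p2⟩ := rfl
theorem neg_def (a : Alg) :
  -a = ⟨-a.w0, -a.w1, -a.w2, -a.s, -a.u0, -a.u1, -a.u2, -a.p0, -a.p1, -a.p2⟩ := rfl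
theorem smul_def (c : ℚ) (a : Alg) : c • a = ⟨c * a.w0, c * a.w1, c * a.w2, c * a.s, c * a.u0,
  c * a.u1, c * a.u2, c * a.p0, c * a.p1, c * a.p2⟩ := rfl
theorem mul_def (a b : Alg) : a * b = ⟨0, 0, 0,
  (a.p0 * b.w0 + a.p1 * b.w1 + a.p2 * b.w2) - (b.p0 * a.w0 + b.p1 * a.w1 + b.p2 * a.w2),
  a.s * b.w0 - b.s * a.w0, a.s * b.w1 - b.s * a.w1, a.s * b.w2 - b.s * a.w2,
  (a.u1 * b.w2 - a.u2 * b.w1) - (b.u1 * a.w2 - b.u2 * a.w1),
  (a.u2 * b.w0 - a.u0 * b.w2) - (b.u2 * a.w0 - b.u0 * a.w2),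
  (a.u0 * b.w1 - a.u1 * b.w0) - (b.u0 * a.w1 - b.u1 * a.w0)⟩ := rfl

instance : AddCommGroup Alg where
  add_assoc a b c := by simp only [add_def]; ext <;> ring
  zero_add a := by simp only [add_def, zero_def]; ext <;> ring
  add_zero a := by simp only [add_def, zero_def]; ext <;> ring
  neg_add_cancel a := by simp only [add_def, zero_def, neg_def]; ext <;> ring
  add_comm a b := by simp only [add_def]; ext <;> ring
  nsmul := nsmulRec
  zsmul := zsmulRec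

instance : Module ℚ Alg where
  one_smul a := by simp only [smul_def]; ext <;> ring
  mul_smul c d a := by simp only [smul_def]; ext <;> ring
  smul_zero c := by simp only [smul_def, zero_def]; ext <;> ring
  smul_add c a b := by simp only [smul_def, add_def]; ext <;> ring
  add_smul c d a := by simp only [smul_def, add_def]; ext <;> ring
  zero_smul a := by simp only [smul_def, zero_def]; ext <;> ring

instance : NonUnitalNonAssocRing Alg where
  left_distrib a b c := by simp only [mul_def, add_def]; ext <;> ring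
  right_distrib a b c := by simp only [mul_def, add_def]; ext <;> ring
  zero_mul a := by simp only [mul_def, zero_def]; ext <;> ring
  mul_zero a := by simp only [mul_def, zero_def]; ext <;> ring

instance : IsScalarTower ℚ Alg Alg where
  smul_assoc c a b := by
    show (c • a) * b = c • (a * b)
    simp only [mul_def, smul_def]; ext <;> ring

instance : SMulCommClass ℚ Alg Alg where
  smul_comm c a b := by
    show c • (a * b) = a * (c • b)
    simp only [mul_def, smul_def]; ext <;> ring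

theorem mul_self_eq (a : Alg) : a * a = 0 := by
  simp only [mul_def, zero_def]; ext <;> ring

theorem anti (a b : Alg) : a * b = - (b * a) := by
  simp only [mul_def, neg_def]; ext <;> ring

/-- The module part. -/
def InM (a : Alg) : Prop := a.w0 = 0 ∧ a.w1 = 0 ∧ a.w2 = 0

theorem inM_mul (a b : Alg) : InM (a * b) := ⟨rfl, rfl, rfl⟩

theorem mul_eq_zero_of_inM {a b : Alg} (ha : InM a) (hb : InM b) : a * b = 0 := by
  obtain ⟨h0, h1, h2⟩ := ha
  obtain ⟨k0, k1, k2⟩ := hb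
  simp only [mul_def, zero_def, h0, h1, h2, k0, k1, k2]; ext <;> ring

/-- Killed by any `k` right multiplications by the two elements. -/
def Lev (x y : Alg) : ℕ → Alg → Prop
  | 0, a => a = 0
  | k + 1, a => Lev x y k (a * x) ∧ Lev x y k (a * y)

theorem Lev.neg (x y : Alg) : ∀ (k : ℕ) (a : Alg), Lev x y k a → Lev x y k (-a)
  | 0, a, h => by simp [Lev] at h ⊢; exact h
  | k + 1, a, h => by
    refine ⟨?_, ?_⟩
    · rw [neg_mul]; exact Lev.neg x y k _ h.1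
    · rw [neg_mul]; exact Lev.neg x y k _ h.2

theorem Lev.zero (x y : Alg) : ∀ (k : ℕ), Lev x y k 0
  | 0 => rfl
  | k + 1 => by
    refine ⟨?_, ?_⟩ <;> rw [zero_mul] <;> exact Lev.zero x y k

theorem five (x y a b c d e m : Alg) (hm : InM m) (ha : a = x ∨ a = y) (hb : b = x ∨ b = y)
    (hc : c = x ∨ c = y) (hd : d = x ∨ d = y) (he : e = x ∨ e = y) :
    m * a * b * c * d * e = 0 := by
  obtain ⟨h0, h1, h2⟩ := hm
  rcases ha with rfl | rfl <;> rcases hb with rfl | rfl <;> rcases hc with rfl | rfl <;>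
    rcases hd with rfl | rfl <;> rcases he with rfl | rfl <;>
    simp only [mul_def, zero_def, h0, h1, h2] <;> ext <;> ring

theorem lev_five (x y m : Alg) (hm : InM m) : Lev x y 5 m := by
  simp only [Lev]
  refine ⟨⟨⟨⟨⟨?_, ?_⟩, ⟨?_, ?_⟩⟩, ⟨⟨?_, ?_⟩, ⟨?_, ?_⟩⟩⟩, ⟨⟨⟨?_, ?_⟩, ⟨?_, ?_⟩⟩, ⟨⟨?_, ?_⟩, ⟨?_, ?_⟩⟩⟩⟩,
    ⟨⟨⟨⟨?_, ?_⟩, ⟨?_, ?_⟩⟩, ⟨⟨?_, ?_⟩, ⟨?_, ?_⟩⟩⟩, ⟨⟨⟨?_, ?_⟩, ⟨?_, ?_⟩⟩, ⟨⟨?_, ?_⟩, ⟨?_, ?_⟩⟩⟩⟩⟩ <;>
  exact five x y _ _ _ _ _ m hm (by simp) (by simp) (by simp) (by simp) (by simp)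

theorem word_lev (x y : Alg) (v : ℕ → Alg) :
    ∀ w : FreeMagma (Fin 2), (v 0 = x) → (v 1 = y) →
      (w.length = 1 ∧ (FreeMagma.lift (fun i : Fin 2 => v i) w = x ∨
          FreeMagma.lift (fun i : Fin 2 => v i) w = y)) ∨
      (2 ≤ w.length ∧ InM (FreeMagma.lift (fun i : Fin 2 => v i) w) ∧
        Lev x y (7 - w.length) (FreeMagma.lift (fun i : Fin 2 => v i) w)) := by
  intro w hx hy
  induction w using FreeMagma.recOnMul with
  | ih1 i =>
    left
    refine ⟨rfl, ?_⟩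
    fin_cases i
    · left; simpa using hx
    · right; simpa using hy
  | ih2 a b iha ihb =>
    right
    have hl : (a * b).length = a.length + b.length := rfl
    rw [map_mul, hl]
    rcases iha with ⟨la, ha⟩ | ⟨la, ma, ha⟩ <;> rcases ihb with ⟨lb, hb⟩ | ⟨lb, mb, hb⟩
    · refine ⟨by omega, inM_mul _ _, ?_⟩
      rw [la, lb]; exact lev_five x y _ (inM_mul _ _)
    · refine ⟨by omega, inM_mul _ _, ?_⟩
      rw [anti]
      apply Lev.neg
      by_cases h7 : 7 ≤ b.length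
      · have : 7 - b.length = 0 := by omega
        rw [this] at hb
        have hb' : FreeMagma.lift (fun i : Fin 2 => v i) b = 0 := hb
        rw [hb', zero_mul]; exact Lev.zero _ _ _
      · have : 7 - b.length = (7 - (a.length + b.length)) + 1 := by omega
        rw [this] at hb
        rcases ha with ha | ha <;> rw [ha]
        · exact hb.1
        · exact hb.2
    · refine ⟨by omega, inM_mul _ _, ?_⟩
      by_cases h7 : 7 ≤ a.length
      · have : 7 - a.length = 0 := by omega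
        rw [this] at ha
        have ha' : FreeMagma.lift (fun i : Fin 2 => v i) a = 0 := ha
        rw [ha', zero_mul]; exact Lev.zero _ _ _
      · have : 7 - a.length = (7 - (a.length + b.length)) + 1 := by omega
        rw [this] at ha
        rcases hb with hb | hb <;> rw [hb]
        · exact ha.1
        · exact ha.2
    · refine ⟨by omega, inM_mul _ _, ?_⟩
      rw [mul_eq_zero_of_inM ma mb]; exact Lev.zero _ _ _

theorem word_zero (v : ℕ → Alg) (w : FreeMagma (Fin 2)) (hw : 7 ≤ w.length) :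
    FreeMagma.lift (fun i : Fin 2 => v i) w = 0 := by
  rcases word_lev (v 0) (v 1) v w rfl rfl with ⟨h, _⟩ | ⟨_, _, h⟩
  · omega
  · have : 7 - w.length = 0 := by omega
    rw [this] at h
    exact h

/-- The four generators. -/
def gen : Fin 4 → Alg :=
  ![⟨1, 0, 0, 0, 0, 0, 0, 0, 0, 0⟩, ⟨0, 1, 0, 0, 0, 0, 0, 0, 0, 0⟩,
    ⟨0, 0, 1, 0, 0, 0, 0, 0, 0, 0⟩, ⟨0, 0, 0, 1, 0, 0, 0, 0, 0, 0⟩]

/-- Long words that do not vanish. -/
def longWord : ℕ → FreeMagma (Fin 4)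
  | 0 => FreeMagma.of 3
  | k + 1 => longWord k * FreeMagma.of 0 * FreeMagma.of 1 * FreeMagma.of 2

theorem longWord_length : ∀ k, k ≤ (longWord k).length
  | 0 => Nat.zero_le _
  | k + 1 => by
    have := longWord_length k
    show k + 1 ≤ (longWord k).length + 1 + 1 + 1
    omega

theorem cyc : gen 3 * gen 0 * gen 1 * gen 2 = gen 3 := by
  simp [mul_def, gen]

theorem longWord_val : ∀ k, FreeMagma.lift gen (longWord k) = gen 3
  | 0 => rfl
  | k + 1 => by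
    show FreeMagma.lift gen (longWord k) * gen 0 * gen 1 * gen 2 = gen 3
    rw [longWord_val k, cyc]

theorem gen3_ne : gen 3 ≠ 0 := by
  intro h
  simp [gen, zero_def] at h

theorem lift_single {A : Type} [NonUnitalNonAssocRing A] [Module ℚ A]
    [IsScalarTower ℚ A A] [SMulCommClass ℚ A A] (v : ℕ → A) (w : FreeMagma (Fin 2)) :
    MonoidAlgebra.liftMagma ℚ (FreeMagma.lift v)
      (MonoidAlgebra.single (FreeMagma.map (fun i : Fin 2 => (i : ℕ)) w) (1 : ℚ)) =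
      FreeMagma.lift (fun i : Fin 2 => v i) w := by
  have h1 : ∀ u : FreeMagma ℕ, MonoidAlgebra.liftMagma ℚ (FreeMagma.lift v)
      (MonoidAlgebra.single u (1 : ℚ)) = FreeMagma.lift v u := by
    intro u
    simp [MonoidAlgebra.liftMagma]
  rw [h1]
  induction w using FreeMagma.recOnMul with
  | ih1 i => rfl
  | ih2 a b iha ihb => rw [map_mul, map_mul, map_mul, iha, ihb]

end Pool.Agent.H22.AntiNil
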