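import Pool.Agent.H22.SupRad

namespace Pool.Agent.H22.GLS

open Function Subgroup FormLat
open scoped commutatorElement

variable {F : Cls} {G H : Type} [Group G] [Group H]

instance lc_normal (N : Subgroup G) [N.Normal] : ∀ k, (N.lowerCentralSeries k).Normal
  | 0 => ‹_›
  | k + 1 => have := lc_normal N k; (inferInstance : ⁅N.lowerCentralSeries k, N⁆.Normal)

theorem lc_le (N : Subgroup G) (k : ℕ) : N.lowerCentralSeries k ≤ N :=
  N.lowerCentralSeries_antitone (Nat.zero_le k)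

def Ek (N : Subgroup G) [N.Normal] (k : ℕ) : Subgroup (G × G) where
  carrier := {x | x.2 ∈ N.lowerCentralSeries k ∧ x.1 * x.2⁻¹ ∈ N.lowerCentralSeries (k + 1)}
  one_mem' := ⟨one_mem _, by simp⟩
  mul_mem' := fun {a b} u v => ⟨mul_mem u.1 v.1, by
    convert mul_mem u.2 (Normal.conj_mem inferInstance _ v.2 a.2) using 1
    simp [mul_assoc]⟩
  inv_mem' := fun {a} u => ⟨inv_mem u.1, by
    convert Normal.conj_mem inferInstance _ (inv_mem u.2) a.2⁻¹ using 1
    simp [mul_assoc]⟩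

theorem lc_Ek (N : Subgroup G) [N.Normal] (k : ℕ) : (Ek N 0).lowerCentralSeries k ≤ Ek N k := by
  induction k with
  | zero => exact le_rfl
  | succ k ih =>
    refine (commutator_mono ih le_rfl).trans (commutator_le.2 ?_)
    rintro ⟨b, w⟩ ⟨u1, u2⟩ ⟨c, n⟩ ⟨v1, v2⟩
    refine ⟨commutator_mem_commutator u1 v1, (QuotientGroup.eq_one_iff _).1 ?_⟩
    let π := QuotientGroup.mk' (N.lowerCentralSeries (k + 1 + 1))
    have k1 : ∀ y ∈ N.lowerCentralSeries (k + 1), ∀ m ∈ N, π y * π m = π m * π y := fun y hy m hm =>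
      commutatorElement_eq_one_iff_mul_comm.1 ((QuotientGroup.eq_one_iff ⁅y, m⁆).2
        (commutator_mem_commutator hy hm))
    have e : ⁅⁅(N.lowerCentralSeries k).map π, N.map π⁆, N.map π⁆ = ⊥ := by
      rw [← map_commutator, ← map_commutator, Subgroup.map_eq_bot_iff, QuotientGroup.ker_mk']
      exact le_rfl
    have k2 := commutatorElement_eq_one_iff_mul_comm.1 ((commutator_commutator_eq_bot_of_rotate
      (by rwa [commutator_comm (N.map π)]) e).le (commutator_mem_commutator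
        (map_commutator N N π ▸ mem_map_of_mem π v2) (mem_map_of_mem π u1)))
    have n1 := lc_le N 1 v2
    have h1 := k1 _ u2 _ (lc_le N k u1)
    have h2 := k1 _ u2 _ (N.mul_mem n1 v1)
    have h3 := k1 _ (commutator_mem_commutator u1 v1) _ n1
    change π (⁅b, c⁆ * ⁅w, n⁆⁻¹) = 1
    have hb : π b = π (b * w⁻¹) * π w := by rw [← map_mul, inv_mul_cancel_right]
    have hc : π c = π (c * n⁻¹) * π n := by rw [← map_mul, inv_mul_cancel_right]
    rw [map_mul, map_inv, map_commutatorElement, hb, hc, mul_inv_eq_one]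
    rw [map_mul π (c * n⁻¹)] at h2
    rw [map_commutatorElement] at h3 ⊢
    generalize π (b * w⁻¹) = y, π (c * n⁻¹) = z, π w = w, π n = n at *
    calc _ = y * w * (z * n) * (y * w)⁻¹ * (z * n)⁻¹ := rfl
      _ = w * (y * (z * n)) * y⁻¹ * w⁻¹ * (z * n)⁻¹ := by rw [h1]; group
      _ = (w * z) * n * w⁻¹ * n⁻¹ * z⁻¹ := by rw [h2]; group
      _ = z * ⁅w, n⁆ * z⁻¹ := by rw [← k2, commutatorElement_def]; group
      _ = _ := by rw [← h3]; group

theorem bbh0 (hF : IsForm F) (c : ℕ) [Finite G] (N U : Subgroup G) [N.Normal]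
    (h : N.lowerCentralSeries c = ⊥) (a : F ↥(N ⊔ U)) : F U := by
  induction c generalizing G with
  | zero => rwa [show N = ⊥ from h, bot_sup_eq] at a
  | succ c ih =>
  let T : Subgroup (G × G × G) := ((QuotientGroup.mk' N).comp (MonoidHom.fst _ _)).eqLocus
      ((QuotientGroup.mk' N).comp ((MonoidHom.fst _ _).comp (MonoidHom.snd _ _))) ⊓
    ((QuotientGroup.mk' N).comp ((MonoidHom.snd _ _).comp (MonoidHom.snd _ _))).eqLocus
      ((QuotientGroup.mk' N).comp ((MonoidHom.fst _ _).comp (MonoidHom.snd _ _)))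
  let p1 : T →* G := (MonoidHom.fst _ _).comp T.subtype
  let p2 : T →* G := ((MonoidHom.fst _ _).comp (MonoidHom.snd _ _)).comp T.subtype
  let p3 : T →* G := ((MonoidHom.snd _ _).comp (MonoidHom.snd _ _)).comp T.subtype
  have t1 : ∀ t : T, (p2 t)⁻¹ * p1 t ∈ N := fun t => QuotientGroup.eq.1 t.2.1.symm
  have t3 : ∀ t : T, (p2 t)⁻¹ * p3 t ∈ N := fun t => QuotientGroup.eq.1 t.2.2.symm
  have nA : ∀ p q : T →* G, (∀ t, (p2 t)⁻¹ * p t ∈ N) →
      (q.ker ⊓ (Ek N 0).comap (p2.prod p)).Normal := fun p q hp => ⟨fun x hx t =>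
    ⟨Normal.conj_mem inferInstance x hx.1 t, by
      simpa using Normal.conj_mem inferInstance _ hx.2.1 (p t), by
      have := Normal.conj_mem inferInstance _ (mul_mem hx.2.2
        (commutator_mem_commutator hx.2.1 (hp t))) (p2 t)
      convert this using 1
      simp [commutatorElement_def, mul_assoc]⟩⟩
  have z : ∀ x ∈ N.lowerCentralSeries c, ∀ n ∈ N, x * n = n * x := fun x hx n hn =>
    commutatorElement_eq_one_iff_mul_comm.1 (h.le (commutator_mem_commutator hx hn))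
  let R : Subgroup T :=
    { carrier := {t | p1 t ∈ N.lowerCentralSeries c ∧ p3 t ∈ N.lowerCentralSeries c ∧
        p2 t = p1 t * p3 t}
      one_mem' := ⟨by simp, by simp, by simp⟩
      mul_mem' := fun {a b} u v => ⟨by simpa using mul_mem u.1 v.1, by simpa using mul_mem u.2.1 v.2.1, by
        simp only [map_mul, u.2.2, v.2.2, mul_assoc]
        rw [← mul_assoc (p3 a), z _ u.2.1 _ (lc_le N c v.1), mul_assoc]⟩
      inv_mem' := fun {a} u => ⟨by simpa using u.1, by simpa using u.2.1, by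
        simp only [map_inv, u.2.2, ← mul_inv_rev]
        rw [z _ u.2.1 _ (lc_le N c u.1)]⟩ }
  have nR : R.Normal := ⟨fun x hx t => ⟨by simpa using Normal.conj_mem inferInstance _ hx.1 (p1 t),
    by simpa using Normal.conj_mem inferInstance _ hx.2.1 (p3 t), by
    have k : ∀ y ∈ N.lowerCentralSeries c, ∀ s, (p2 t)⁻¹ * s ∈ N → s * y * s⁻¹ = p2 t * y * (p2 t)⁻¹ :=
      fun y hy s hs => by
        calc _ = p2 t * ((p2 t)⁻¹ * s * y) * s⁻¹ := by group
          _ = _ := by rw [← z y hy _ hs]; group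
    simp only [map_mul, map_inv, hx.2.2, k _ hx.1 _ (t1 t), k _ hx.2.1 _ (t3 t)]
    group⟩⟩
  have sj := QuotientGroup.mk'_surjective R
  have lA : ∀ p q : T →* G, (∀ t, q t = 1 → p t ∈ N.lowerCentralSeries c → p2 t = p t → t ∈ R) →
      ((q.ker ⊓ (Ek N 0).comap (p2.prod p)).map (QuotientGroup.mk' R)).lowerCentralSeries c = ⊥ :=
    fun p q hp => by
    rw [← map_lowerCentralSeries, Subgroup.map_eq_bot_iff, QuotientGroup.ker_mk']
    intro t ht
    have := lc_Ek N c (lowerCentralSeries_mono c (map_le_iff_le_comap.2 inf_le_right)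
      (map_lowerCentralSeries _ (p2.prod p) c ▸ mem_map_of_mem (p2.prod p) ht))
    exact hp t (lc_le _ c ht).1 this.1 (mul_inv_eq_one.1 (h.le this.2))
  let δ : G →* T := ((MonoidHom.id G).prod ((MonoidHom.id G).prod (MonoidHom.id G))).codRestrict T
    fun _ => ⟨rfl, rfl⟩
  have n1 := (nA p1 p3 t1).map _ sj
  have n3 := (nA p3 p1 t3).map _ sj
  have i : Injective ((QuotientGroup.mk' R).comp δ) := (injective_iff_map_eq_one _).2 fun x hx =>
    left_eq_mul.1 ((QuotientGroup.eq_one_iff (δ x)).1 hx).2.2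
  refine hF.2.1 _ _ ⟨(U.equivMapOfInjective _ i).symm⟩ (ih _ _
    (lA p1 p3 fun t a b c => ⟨b, a ▸ one_mem _, by rw [a, c, mul_one]⟩) (ih _ _
    (lA p3 p1 fun t a b c => ⟨a ▸ one_mem _, b, by rw [a, c, one_mul]⟩) ?_))
  rw [← map_map, ← Subgroup.map_sup, ← Subgroup.map_sup]
  refine surj hF _ (MonoidHom.subgroupMap_surjective _ _) ?_
  set A3 := p1.ker ⊓ (Ek N 0).comap (p2.prod p3)
  set A1 := p3.ker ⊓ (Ek N 0).comap (p2.prod p1)
  have m1 : ∀ n ∈ N, ∃ t ∈ A1, p1 t = n ∧ p2 t = n := fun n hn =>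
    ⟨⟨(n, n, 1), rfl, ((QuotientGroup.eq_one_iff n).2 hn).symm⟩, ⟨rfl, hn, by simp [p1, p2]⟩, rfl, rfl⟩
  have m3 : ∀ n ∈ N, ∃ t ∈ A3, p3 t = n := fun n hn =>
    ⟨⟨(1, n, n), ((QuotientGroup.eq_one_iff n).2 hn).symm, rfl⟩, ⟨rfl, hn, by simp [p3, p2]⟩, rfl⟩
  have fq : ∀ p : T →* G, (∀ g, p (δ g) = g) → A3.map p ≤ N → A1.map p ≤ N →
      (∀ n ∈ N, ∃ t ∈ A3 ⊔ (A1 ⊔ U.map δ), p t = n) →
      Fq F (p.ker.subgroupOf (A3 ⊔ (A1 ⊔ U.map δ))) := fun p h1 h2 h3 h4 => by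
    have e0 : (U.map δ).map p = U := by
      rw [map_map, show p.comp δ = MonoidHom.id G from MonoidHom.ext h1, map_id]
    have e : (A3 ⊔ (A1 ⊔ U.map δ)).map p = N ⊔ U := le_antisymm (by
      rw [Subgroup.map_sup, Subgroup.map_sup, e0]
      exact sup_le (h2.trans le_sup_left) (sup_le_sup_right h3 _)) (sup_le h4
        (e0.ge.trans (map_mono (le_sup_right.trans le_sup_right))))
    exact ⟨_, _, p.subgroupMap _, MonoidHom.subgroupMap_surjective _ _,
      Subgroup.ext fun x => Subtype.ext_iff, e ▸ a⟩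
  have l2 : ∀ (p q : T →* G), (q.ker ⊓ (Ek N 0).comap (p2.prod p)).map p2 ≤ N := by
    rintro p q _ ⟨t, ht, rfl⟩
    simpa using N.mul_mem (lc_le N 1 ht.2.2) ht.2.1
  have l0 : ∀ (q : T →* G) (S : Subgroup T), (q.ker ⊓ S).map q ≤ N := by
    rintro q S _ ⟨t, ht, rfl⟩
    exact ht.1 ▸ N.one_mem
  have l1 : ∀ (p q : T →* G), (q.ker ⊓ (Ek N 0).comap (p2.prod p)).map p ≤ N := by
    rintro p q _ ⟨t, ht, rfl⟩
    exact ht.2.1
  refine (((fq p1 (fun _ => rfl) (l0 _ _) (l1 _ _) fun n hn => (m1 n hn).imp fun t ht =>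
      ⟨mem_sup_right (mem_sup_left ht.1), ht.2.1⟩).inf hF
    (fq p2 (fun _ => rfl) (l2 _ _) (l2 _ _) fun n hn => (m1 n hn).imp fun t ht =>
      ⟨mem_sup_right (mem_sup_left ht.1), ht.2.2⟩)).inf hF
    (fq p3 (fun _ => rfl) (l1 _ _) (l0 _ _) fun n hn => (m3 n hn).imp fun t ht =>
      ⟨mem_sup_left ht.1, ht.2⟩)).of_le hF (MonoidHom.id _) surjective_id fun x hx =>
    Subtype.ext (Subtype.ext (Prod.ext hx.1.1 (Prod.ext hx.1.2 hx.2)))

theorem bbh (hF : IsForm F) (hG : F G) (N U : Subgroup G) [N.Normal] [Group.IsNilpotent N]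
    (t : N ⊔ U = ⊤) : F U := by
  have := hF.1 _ hG
  obtain ⟨c, hc⟩ := (isNilpotent_iff_lowerCentralSeries N).1 inferInstance
  exact bbh0 hF c N U hc (t ▸ hF.2.1 _ _ ⟨topEquiv.symm⟩ hG)

theorem nil_inj (hF : IsForm F) (hG : F G) [Group.IsNilpotent G] (φ : H →* G) (h : Injective φ) :
    F H := hF.2.1 _ _ ⟨(MonoidHom.ofInjective h).symm⟩ (bbh hF hG ⊤ _ (top_sup_eq _))

end Pool.Agent.H22.GLS
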