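import Mathlib

set_option autoImplicit false

namespace Pool.Agent.H22.BaireProd

/-- The group of all permutations of `ℤ_[2] × Fin 3`, to be given the discrete metric. -/
abbrev D : Type := Equiv.Perm (ℤ_[2] × Fin 3)

open Classical in
noncomputable instance : MetricSpace D where
  dist x y := if x = y then 0 else 1
  dist_self x := by simp
  dist_comm x y := by simp only [eq_comm]
  dist_triangle x y z := by
    by_cases h1 : x = z
    · simp only [h1, if_true]; positivity
    · by_cases h2 : x = y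
      · subst h2; simp
      · simp only [h1, h2, if_false]
        have : (0 : ℝ) ≤ if y = z then 0 else 1 := by positivity
        linarith
  eq_of_dist_eq_zero := by
    intro x y h
    by_contra hne
    simp [hne] at h

open Classical in
theorem dist_eq (x y : D) : dist x y = if x = y then 0 else 1 := rfl

theorem eq_of_dist_lt {x y : D} (h : dist x y < 1) : x = y := by
  by_contra hne
  rw [dist_eq, if_neg hne] at h
  exact lt_irrefl _ h

instance : DiscreteTopology D := by
  rw [discreteTopology_iff_isOpen_singleton]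
  intro x
  rw [Metric.isOpen_iff]
  intro y hy
  refine ⟨1, one_pos, fun z hz => ?_⟩
  have := eq_of_dist_lt hz
  rw [this]; exact hy

instance : IsTopologicalGroup D where
  continuous_mul := continuous_of_discreteTopology
  continuous_inv := continuous_of_discreteTopology

instance : CompleteSpace D := by
  refine Metric.complete_of_cauchySeq_tendsto fun u hu => ?_
  obtain ⟨N, hN⟩ := Metric.cauchySeq_iff'.1 hu 1 one_pos
  refine ⟨u N, tendsto_const_nhds.congr' ?_⟩
  filter_upwards [Filter.eventually_ge_atTop N] with n hn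
  exact (eq_of_dist_lt (hN n hn)).symm

/-- The group: 2-adic integers times the discrete permutation group. -/
abbrev G : Type := Multiplicative ℤ_[2] × D

/-- Translation of the first coordinate. -/
noncomputable def tr (x : ℤ_[2]) : D := (Equiv.prodCongr (Equiv.addRight x) (Equiv.refl (Fin 3)) :
  Equiv.Perm (ℤ_[2] × Fin 3))

theorem tr_add (x y : ℤ_[2]) : tr (x + y) = tr x * tr y := by
  apply Equiv.ext
  rintro ⟨a, i⟩
  show (a + (x + y), i) = (a + y + x, i)
  congr 1; ring

theorem tr_zero : tr 0 = 1 := by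
  apply Equiv.ext
  rintro ⟨a, i⟩
  show (a + 0, i) = (a, i)
  rw [add_zero]

theorem tr_neg (x : ℤ_[2]) : tr (-x) = (tr x)⁻¹ := by
  rw [eq_inv_iff_mul_eq_one, ← tr_add, neg_add_cancel, tr_zero]

open Classical in
noncomputable def f : D := Equiv.swap ((0 : ℤ_[2]), (0 : Fin 3)) (0, 1)
open Classical in
noncomputable def g : D := Equiv.swap ((0 : ℤ_[2]), (1 : Fin 3)) (0, 2)

open Classical in
theorem conj_g (x : ℤ_[2]) : tr x * g * (tr x)⁻¹ = (Equiv.swap (x, (1 : Fin 3)) (x, 2) :
    Equiv.Perm (ℤ_[2] × Fin 3)) := by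
  have h := Equiv.swap_apply_apply (tr x : Equiv.Perm (ℤ_[2] × Fin 3)) ((0 : ℤ_[2]), (1 : Fin 3)) (0, 2)
  have h1 : (tr x : Equiv.Perm (ℤ_[2] × Fin 3)) ((0 : ℤ_[2]), (1 : Fin 3)) = (x, 1) := by
    show (0 + x, (1 : Fin 3)) = (x, 1)
    rw [zero_add]
  have h2 : (tr x : Equiv.Perm (ℤ_[2] × Fin 3)) ((0 : ℤ_[2]), (2 : Fin 3)) = (x, 2) := by
    show (0 + x, (2 : Fin 3)) = (x, 2)
    rw [zero_add]
  rw [h1, h2] at h
  exact h.symm

theorem comm_of_ne (x : ℤ_[2]) (hx : x ≠ 0) :
    f * (tr x * g * (tr x)⁻¹) = (tr x * g * (tr x)⁻¹) * f := by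
  classical
  rw [conj_g]
  have : Equiv.Perm.Disjoint (Equiv.swap ((0 : ℤ_[2]), (0 : Fin 3)) (0, 1))
      (Equiv.swap (x, (1 : Fin 3)) (x, 2)) := by
    rintro ⟨a, i⟩
    by_cases ha : a = 0
    · right
      subst ha
      apply Equiv.swap_apply_of_ne_of_ne <;> simp [Ne.symm hx]
    · left
      apply Equiv.swap_apply_of_ne_of_ne <;> simp [ha]
  exact this.commute.eq

theorem fg_ne : f * g ≠ g * f := by
  classical
  intro h
  have h1 := congrArg (fun e : Equiv.Perm (ℤ_[2] × Fin 3) => e ((0 : ℤ_[2]), (0 : Fin 3))) h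
  have h2 : (f * g : Equiv.Perm (ℤ_[2] × Fin 3)) ((0 : ℤ_[2]), (0 : Fin 3)) = (0, 1) := by
    show f (g ((0 : ℤ_[2]), (0 : Fin 3))) = (0, 1)
    have : (g : Equiv.Perm (ℤ_[2] × Fin 3)) ((0 : ℤ_[2]), (0 : Fin 3)) = (0, 0) := by
      apply Equiv.swap_apply_of_ne_of_ne <;> simp
    rw [this]
    exact Equiv.swap_apply_left _ _
  have h3 : (g * f : Equiv.Perm (ℤ_[2] × Fin 3)) ((0 : ℤ_[2]), (0 : Fin 3)) = (0, 2) := by
    show g (f ((0 : ℤ_[2]), (0 : Fin 3))) = (0, 2)
    have : (f : Equiv.Perm (ℤ_[2] × Fin 3)) ((0 : ℤ_[2]), (0 : Fin 3)) = (0, 1) :=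
      Equiv.swap_apply_left _ _
    rw [this]
    exact Equiv.swap_apply_left _ _
  have h4 : ((0 : ℤ_[2]), (1 : Fin 3)) = (0, 2) := h2.symm.trans (h1.trans h3)
  simp at h4

/-- The homomorphism `(x, d) ↦ (1, c * tr (± x) * c⁻¹)`. -/
noncomputable def hom (c : D) (s : ℤ_[2]) : G →* G where
  toFun p := (1, c * tr (s * Multiplicative.toAdd p.1) * c⁻¹)
  map_one' := by
    show ((1 : Multiplicative ℤ_[2]), c * tr (s * 0) * c⁻¹) = 1
    rw [mul_zero, tr_zero, mul_one, mul_inv_cancel]; rfl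
  map_mul' p q := by
    show ((1 : Multiplicative ℤ_[2]), c * tr (s * (Multiplicative.toAdd p.1 + Multiplicative.toAdd q.1)) * c⁻¹) = _
    rw [mul_add, tr_add, Prod.mk_mul_mk, one_mul]
    congr 1
    group

noncomputable def U : Fin 4 → G →* G :=
  ![hom f 1, hom (f * g) (-1), hom (f * g * f⁻¹) 1, hom (f * g * f⁻¹ * g⁻¹) (-1)]

noncomputable def d : D := (f * g * f⁻¹ * g⁻¹)⁻¹

theorem d_ne : d ≠ 1 := by
  intro h
  apply fg_ne
  have h1 : f * g * f⁻¹ * g⁻¹ = 1 := inv_eq_one.1 h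
  calc f * g = (f * g * f⁻¹ * g⁻¹) * (g * f) := by group
    _ = g * f := by rw [h1, one_mul]

open Classical in
theorem prod_eq (p : G) : (List.ofFn (fun i => U i p)).prod =
    (1, if Multiplicative.toAdd p.1 = 0 then 1 else d) := by
  have h : (List.ofFn (fun i => U i p)).prod = hom f 1 p * (hom (f * g) (-1) p *
      (hom (f * g * f⁻¹) 1 p * hom (f * g * f⁻¹ * g⁻¹) (-1) p)) := by
    simp [U, List.ofFn_succ]
  rw [h]
  set x := Multiplicative.toAdd p.1 with hx
  show ((1 : Multiplicative ℤ_[2]), f * tr (1 * x) * f⁻¹) *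
    (((1 : Multiplicative ℤ_[2]), (f * g) * tr (-1 * x) * (f * g)⁻¹) *
    (((1 : Multiplicative ℤ_[2]), (f * g * f⁻¹) * tr (1 * x) * (f * g * f⁻¹)⁻¹) *
    ((1 : Multiplicative ℤ_[2]), (f * g * f⁻¹ * g⁻¹) * tr (-1 * x) * (f * g * f⁻¹ * g⁻¹)⁻¹))) = _
  simp only [Prod.mk_mul_mk, one_mul, neg_mul, tr_neg]
  congr 1
  by_cases h0 : x = 0
  · rw [if_pos h0, h0, tr_zero]; group
  · rw [if_neg h0]
    have hc := comm_of_ne x h0
    calc f * tr x * f⁻¹ * (f * g * (tr x)⁻¹ * (f * g)⁻¹ * (f * g * f⁻¹ * tr x * (f * g * f⁻¹)⁻¹ *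
          (f * g * f⁻¹ * g⁻¹ * (tr x)⁻¹ * (f * g * f⁻¹ * g⁻¹)⁻¹)))
        = (f * (tr x * g * (tr x)⁻¹)) * f⁻¹ * (tr x * g * (tr x)⁻¹)⁻¹ * d := by
          unfold d; group
      _ = d := by rw [hc]; group

open Classical in
noncomputable def approx (k : ℕ) (p : G) : G :=
  (1, if Multiplicative.toAdd p.1 ∈ Metric.ball (0 : ℤ_[2]) (1 / ((k : ℝ) + 1)) then 1 else d)

theorem approx_cont (k : ℕ) : Continuous (approx k) := by
  classical
  refine continuous_const.prodMk ?_
  have hcl : IsClopen (Metric.ball (0 : ℤ_[2]) (1 / ((k : ℝ) + 1))) :=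
    IsUltrametricDist.isClopen_ball _ _
  have hc : Continuous (fun p : G => Multiplicative.toAdd p.1) :=
    continuous_toAdd.comp continuous_fst
  have hcl2 := hcl.preimage hc
  refine Continuous.if ?_ continuous_const continuous_const
  intro a ha
  exfalso
  have : frontier {p : G | Multiplicative.toAdd p.1 ∈ Metric.ball (0 : ℤ_[2]) (1 / ((k : ℝ) + 1))}
      = ∅ := hcl2.frontier_eq
  rw [this] at ha
  exact ha

open Classical in
theorem approx_tendsto (p : G) : Filter.Tendsto (fun k => approx k p) Filter.atTop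
    (nhds (1, if Multiplicative.toAdd p.1 = 0 then 1 else d)) := by
  refine tendsto_const_nhds.congr' ?_
  by_cases h0 : Multiplicative.toAdd p.1 = 0
  · refine Filter.Eventually.of_forall fun k => ?_
    have : Multiplicative.toAdd p.1 ∈ Metric.ball (0 : ℤ_[2]) (1 / ((k : ℝ) + 1)) := by
      rw [h0]; exact Metric.mem_ball_self (by positivity)
    simp only [approx, if_pos h0, if_pos this]
  · have hpos : 0 < dist (Multiplicative.toAdd p.1) 0 := dist_pos.2 h0
    have := (tendsto_one_div_add_atTop_nhds_zero_nat (𝕜 := ℝ)).eventually (gt_mem_nhds hpos)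
    filter_upwards [this] with k hk
    have h : Multiplicative.toAdd p.1 ∉ Metric.ball (0 : ℤ_[2]) (1 / ((k : ℝ) + 1)) := by
      rw [Metric.mem_ball]; exact not_lt.2 hk.le
    simp only [approx, if_neg h0, if_neg h]

open Classical in
theorem not_cont : ¬ Continuous (fun p : G =>
    ((1, if Multiplicative.toAdd p.1 = 0 then 1 else d) : G)) := by
  intro h
  have h1 : Continuous (fun x : ℤ_[2] => (if x = 0 then 1 else d : D)) := by
    have h2 : Continuous (fun x : ℤ_[2] => ((Multiplicative.ofAdd x, 1) : G)) :=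
      continuous_ofAdd.prodMk continuous_const
    exact continuous_snd.comp (h.comp h2)
  have h3 : IsOpen ((fun x : ℤ_[2] => (if x = 0 then 1 else d : D)) ⁻¹' {1}) :=
    (isOpen_discrete _).preimage h1
  have h4 : ((fun x : ℤ_[2] => (if x = 0 then 1 else d : D)) ⁻¹' {1}) = {0} := by
    ext x
    by_cases hx : x = 0
    · simp [hx]
    · simp [hx, d_ne]
  rw [h4, Metric.isOpen_singleton_iff] at h3
  obtain ⟨ε, hε, hb⟩ := h3
  obtain ⟨k, hk⟩ := PadicInt.exists_pow_neg_lt 2 hε
  have h5 := hb ((2 : ℤ_[2]) ^ k) (by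
    rw [dist_zero_right]
    have := @PadicInt.norm_p_pow 2 _ k
    simp only [Nat.cast_ofNat] at this hk
    rw [this]; exact hk)
  exact pow_ne_zero k two_ne_zero h5

end Pool.Agent.H22.BaireProd
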