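import Mathlib
import Pool.Prelude.Def_F_6038d89f

set_option autoImplicit false

namespace Pool.Agent.H22.OStar

open N5f09da3c

inductive NS {G : Type*} [Group G] (h : G) : G → Prop
  | conj (y : G) : NS h (y * h * y⁻¹)
  | mul {a b : G} : NS h a → NS h b → NS h (a * b)

theorem NS.inv {G : Type*} [Group G] {h a : G} (ha : NS h⁻¹ a) : NS h a⁻¹ := by
  induction ha with
  | conj y =>
    have : (y * h⁻¹ * y⁻¹)⁻¹ = y * h * y⁻¹ := by group
    rw [this]; exact NS.conj y
  | mul _ _ iha ihb => rw [mul_inv_rev]; exact ihb.mul iha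

theorem NS.conj' {G : Type*} [Group G] {h a : G} (ha : NS h a) (z : G) : NS h (z * a * z⁻¹) := by
  induction ha with
  | conj y =>
    have : z * (y * h * y⁻¹) * z⁻¹ = (z * y) * h * (z * y)⁻¹ := by group
    rw [this]; exact NS.conj _
  | @mul a b _ _ iha ihb =>
    have : z * (a * b) * z⁻¹ = (z * a * z⁻¹) * (z * b * z⁻¹) := by group
    rw [this]; exact iha.mul ihb

theorem pro_of {G : Type*} [Group G] (h1 : ∀ g : G, g ≠ 1 → ¬ NS g 1)
    (h2 : ∀ P : Set G, (∀ a ∈ P, ∀ b ∈ P, a * b ∈ P) → (∀ a ∈ P, ∀ y, y * a * y⁻¹ ∈ P) →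
      ∀ g a b : G, g ≠ 1 → NS g a → NS g b → a⁻¹ ∈ P → b ∈ P → (1 : G) ∈ P) :
    ProOrderable G := by
  intro r hr ⟨hl, hrr⟩
  let C : Set (Set G) :=
    {P | (∀ a ∈ P, ∀ b ∈ P, a * b ∈ P) ∧ (∀ a ∈ P, ∀ y, y * a * y⁻¹ ∈ P) ∧ (1 : G) ∉ P}
  have h0 : {x | r 1 x ∧ x ≠ 1} ∈ C := by
    refine ⟨fun a ha b hb => ⟨?_, fun h => ?_⟩, fun a ha y => ⟨?_, fun h => ha.2 ?_⟩,
      fun h => h.2 rfl⟩
    · have := hl a _ _ hb.1
      rw [mul_one] at this
      exact hr.trans _ _ _ ha.1 this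
    · have := hl a _ _ hb.1
      rw [mul_one, h] at this
      exact ha.2 (hr.antisymm _ _ this ha.1)
    · simpa using hrr y⁻¹ _ _ (hl y _ _ ha.1)
    · have : a = y⁻¹ * (y * a * y⁻¹) * y := by group
      rw [this, h]; group
  obtain ⟨M, hM0, hM⟩ := zorn_subset_nonempty C (by
    intro c hc hch hne
    refine ⟨⋃₀ c, ⟨?_, ?_, ?_⟩, fun s hs => Set.subset_sUnion_of_mem hs⟩
    · rintro a ⟨s, hs, ha⟩ b ⟨t, ht, hb⟩
      rcases hch.total hs ht with h | h
      · exact ⟨t, ht, (hc ht).1 a (h ha) b hb⟩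
      · exact ⟨s, hs, (hc hs).1 a ha b (h hb)⟩
    · rintro a ⟨s, hs, ha⟩ y
      exact ⟨s, hs, (hc hs).2.1 a ha y⟩
    · rintro ⟨s, hs, ha⟩
      exact (hc hs).2.2 ha) _ h0
  obtain ⟨hmul, hconj, hone⟩ := hM.prop
  have key : ∀ g : G, g ≠ 1 → g ∉ M → ∃ a, NS g a ∧ a⁻¹ ∈ M := by
    intro g hg hgM
    by_contra hne
    push Not at hne
    let M' : Set G := {x | ∃ p a, (p ∈ M ∨ p = 1) ∧ (NS g a ∨ a = 1) ∧ (p ∈ M ∨ NS g a) ∧ x = p * a}
    have hM' : M' ∈ C := by
      refine ⟨?_, ?_, ?_⟩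
      · rintro _ ⟨p, a, hp, ha, hpa, rfl⟩ _ ⟨p', a', hp', ha', -, rfl⟩
        have e1 : p * (a * p' * a⁻¹) ∈ M ∨ p * (a * p' * a⁻¹) = 1 ∧ p = 1 := by
          rcases hp with hp | rfl <;> rcases hp' with hp' | rfl
          · exact Or.inl (hmul _ hp _ (hconj _ hp' _))
          · exact Or.inl (by simpa using hp)
          · exact Or.inl (by simpa using hconj _ hp' a)
          · exact Or.inr (by simp)
        have e2 : NS g (a * a') ∨ a * a' = 1 ∧ a = 1 := by
          rcases ha with ha | rfl <;> rcases ha' with ha' | rfl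
          · exact Or.inl (ha.mul ha')
          · exact Or.inl (by simpa using ha)
          · exact Or.inl (by simpa using ha')
          · exact Or.inr (by simp)
        refine ⟨p * (a * p' * a⁻¹), a * a', e1.imp id And.left, e2.imp id And.left, ?_, by group⟩
        rcases e1 with e1 | ⟨_, rfl⟩
        · exact Or.inl e1
        rcases e2 with e2 | ⟨_, rfl⟩
        · exact Or.inr e2
        exact (hpa.elim hone (h1 g hg)).elim
      · rintro _ ⟨p, a, hp, ha, hpa, rfl⟩ y
        refine ⟨y * p * y⁻¹, y * a * y⁻¹, hp.imp (hconj p · y) (by rintro rfl; simp),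
          ha.imp (·.conj' y) (by rintro rfl; simp), hpa.imp (hconj p · y) (·.conj' y), by group⟩
      · rintro ⟨p, a, hp, ha, hpa, h⟩
        rcases ha with ha | rfl
        · rcases hp with hp | rfl
          · exact hne a ha ((eq_inv_of_mul_eq_one_left h.symm) ▸ hp)
          · rw [one_mul] at h
            exact h1 g hg (h ▸ ha)
        · rw [mul_one] at h
          subst h
          exact hpa.elim hone (h1 g hg)
    have hsub : M ⊆ M' := fun p hp => ⟨p, 1, Or.inl hp, Or.inr rfl, Or.inl hp, (mul_one p).symm⟩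
    have hg' : NS g g := by simpa using NS.conj (h := g) 1
    exact hgM (hM.le_of_ge hM' hsub ⟨1, g, Or.inr rfl, Or.inl hg', Or.inr hg', (one_mul g).symm⟩)
  have tot : ∀ g : G, g ≠ 1 → g ∈ M ∨ g⁻¹ ∈ M := by
    intro g hg
    by_contra h
    push Not at h
    obtain ⟨a, ha, ha'⟩ := key g hg h.1
    obtain ⟨b, hb, hb'⟩ := key g⁻¹ (inv_ne_one.2 hg) h.2
    exact hone (h2 M hmul hconj g a b⁻¹ hg ha hb.inv ha' hb')
  refine ⟨fun x y => x = y ∨ x⁻¹ * y ∈ M, ?_, ⟨?_, ?_⟩, ?_⟩
  · refine { refl := fun _ => Or.inl rfl, trans := ?_, antisymm := ?_, total := ?_ }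
    · rintro a b c (rfl | h) (rfl | h')
      · exact Or.inl rfl
      · exact Or.inr h'
      · exact Or.inr h
      · exact Or.inr (by simpa [mul_assoc] using hmul _ h _ h')
    · rintro a b (rfl | h) (h' | h')
      · rfl
      · rfl
      · exact h'.symm
      · exact absurd (by simpa [mul_assoc] using hmul _ h _ h') hone
    · intro a b
      by_cases h : a = b
      · exact Or.inl (Or.inl h)
      · rcases tot (a⁻¹ * b) (fun h' => h (inv_mul_eq_one.1 h')) with h' | h'
        · exact Or.inl (Or.inr h')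
        · exact Or.inr (Or.inr (by simpa using h'))
  · rintro g a b (rfl | h)
    · exact Or.inl rfl
    · exact Or.inr (by simpa [mul_assoc] using h)
  · rintro g a b (rfl | h)
    · exact Or.inl rfl
    · exact Or.inr (by simpa [mul_assoc] using hconj _ h g⁻¹)
  · intro x y h
    by_cases hxy : x = y
    · exact Or.inl hxy
    · refine Or.inr (hM0 ⟨?_, fun h' => hxy (inv_mul_eq_one.1 h')⟩)
      simpa using hl x⁻¹ _ _ h

theorem pro_equiv {G H : Type*} [Group G] [Group H] (e : G ≃* H) (h : ProOrderable G) :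
    ProOrderable H := by
  intro r hr ⟨hl, hrr⟩
  obtain ⟨s, hs, ⟨sl, sr⟩, hrs⟩ := h (fun a b => r (e a) (e b))
    { refl := fun _ => hr.refl _, trans := fun _ _ _ => hr.trans _ _ _,
      antisymm := fun _ _ h h' => e.injective (hr.antisymm _ _ h h') }
    ⟨fun g a b h => by simpa using hl (e g) _ _ h, fun g a b h => by simpa using hrr (e g) _ _ h⟩
  refine ⟨fun a b => s (e.symm a) (e.symm b),
    { refl := fun _ => hs.refl _, trans := fun _ _ _ => hs.trans _ _ _,
      antisymm := fun _ _ h h' => e.symm.injective (hs.antisymm _ _ h h'),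
      total := fun _ _ => hs.total _ _ },
    ⟨fun g a b h => by simpa using sl (e.symm g) _ _ h,
      fun g a b h => by simpa using sr (e.symm g) _ _ h⟩, fun x y h => hrs _ _ (by simpa using h)⟩

end Pool.Agent.H22.OStar
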