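import Mathlib
import Pool.Agent.H22.OStar1

set_option autoImplicit false

namespace Pool.Agent.H22.Blud

open Pool.Agent.H22.OStar Finset

variable {R V L : Type*} [CommRing R] [CommGroup V] [AddCommGroup L] [Module R L]

inductive SK (e : V →* R) : ℕ → R → Prop
  | one (r : V) : SK e 1 (e r)
  | step {k : ℕ} {σ : R} (r : V) : SK e k σ → SK e (k + 1) (σ + e r)

variable {e : V →* R} {Γ : Submodule R (L × R)}

theorem SK.pos {k : ℕ} {σ : R} (h : SK e k σ) : 0 < k := by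
  induction h <;> omega

theorem SK.add {k l : ℕ} {σ τ : R} (h : SK e k σ) (h' : SK e l τ) : SK e (k + l) (σ + τ) := by
  induction h' with
  | one r => exact h.step r
  | step r _ ih => rw [← add_assoc, ← add_assoc]; exact ih.step r

theorem SK.mul {k : ℕ} {σ : R} (h : SK e k σ) (u : V) : SK e k (e u * σ) := by
  induction h with
  | one r => rw [← map_mul]; exact SK.one _
  | step r _ ih => rw [mul_add, ← map_mul]; exact ih.step _

theorem SK.mul' {k l : ℕ} {σ τ : R} (h : SK e k σ) (h' : SK e l τ) : SK e (l * k) (τ * σ) := by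
  induction h' with
  | one r => rw [one_mul]; exact h.mul r
  | step r _ ih => rw [add_mul, add_mul, one_mul]; exact ih.add (h.mul r)

def gs (e : V →* R) (v : V) (k : ℕ) : R := ∑ i ∈ range k, e v ^ i

theorem gs_add (v : V) (k l : ℕ) : gs e v (k + l) = gs e v k + e v ^ k * gs e v l := by
  simp [gs, sum_range_add, mul_sum, pow_add]

theorem gs_one (v : V) : gs e v 1 = 1 := by simp [gs]

theorem gs_mul (v : V) (k l : ℕ) : gs e v (k * l) = gs e v k * gs e (v ^ k) l := by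
  induction l with
  | zero => simp [gs]
  | succ l ih => rw [mul_add, mul_one, gs_add, ih, gs_add, gs_one, map_pow, ← pow_mul]; ring

theorem gs_sub (v : V) (k : ℕ) : gs e v k * (e v - 1) = e v ^ k - 1 := geom_sum_mul _ _

theorem gs_SK (v : V) {k : ℕ} (hk : 0 < k) : SK e k (gs e v k) := by
  obtain ⟨k, rfl⟩ := Nat.exists_eq_add_one_of_ne_zero hk.ne'
  induction k with
  | zero => rw [zero_add, gs_one, ← map_one e]; exact SK.one _
  | succ k ih => rw [gs_add, gs_one, mul_one, ← map_pow]; exact (ih k.succ_pos).step _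

theorem mem_of {m m' : L} {p p' : R} (h : (m, p) ∈ Γ) (h1 : m = m') (h2 : p = p') :
    (m', p') ∈ Γ := h1 ▸ h2 ▸ h

theorem cmb {m m' : L} {p p' : R} (h : (m, p) ∈ Γ) (h' : (m', p') ∈ Γ) (a b : R) :
    (a • m + b • m', a * p + b * p') ∈ Γ := Γ.add_mem (Γ.smul_mem a h) (Γ.smul_mem b h')

structure Dat (e : V →* R) (Γ : Submodule R (L × R)) : Prop where
  tf : ∀ (v : V) (n : ℕ), 0 < n → v ^ n = 1 → v = 1
  dv : ∀ (v : V) (n : ℕ), 0 < n → ∃ w, w ^ n = v
  bij : ∀ k σ, SK e k σ → Function.Bijective fun m : L => σ • m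
  sat : ∀ k σ, SK e k σ → ∀ m p, (σ • m, σ * p) ∈ Γ → (m, p) ∈ Γ
  sur : ∀ v, ∃ m, (m, e v - 1) ∈ Γ

@[ext] structure DD (e : V →* R) (Γ : Submodule R (L × R)) where
  m : L
  v : V
  h : (m, e v - 1) ∈ Γ

theorem ee (v : V) : e v⁻¹ * e v = 1 := by rw [← map_mul, inv_mul_cancel, map_one]

instance : Mul (DD e Γ) := ⟨fun a b => ⟨a.m + e a.v • b.m, a.v * b.v,
  mem_of (cmb a.h b.h 1 (e a.v)) (by rw [one_smul]) (by rw [map_mul]; ring)⟩⟩
instance : One (DD e Γ) := ⟨⟨0, 1, mem_of (m := 0) (p := 0) Γ.zero_mem rfl (by simp)⟩⟩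
instance : Inv (DD e Γ) := ⟨fun a => ⟨-(e a.v⁻¹ • a.m), a.v⁻¹,
  mem_of (cmb a.h a.h (-e a.v⁻¹) 0) (by simp) (by linear_combination -ee (e := e) a.v)⟩⟩

theorem mul_m (a b : DD e Γ) : (a * b).m = a.m + e a.v • b.m := rfl
theorem mul_v (a b : DD e Γ) : (a * b).v = a.v * b.v := rfl
theorem one_m : (1 : DD e Γ).m = 0 := rfl
theorem one_v : (1 : DD e Γ).v = 1 := rfl
theorem inv_m (a : DD e Γ) : a⁻¹.m = -(e a.v⁻¹ • a.m) := rfl
theorem inv_v (a : DD e Γ) : a⁻¹.v = a.v⁻¹ := rfl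

instance : Group (DD e Γ) := Group.ofLeftAxioms
  (fun a b c => by ext <;> simp [mul_m, mul_v, mul_assoc, add_assoc, mul_smul])
  (fun a => by ext <;> simp [mul_m, mul_v, one_m, one_v])
  (fun a => by ext <;> simp [mul_m, mul_v, one_m, one_v, inv_m, inv_v])

theorem conj_m (z x : DD e Γ) : (z * x * z⁻¹).m = e z.v • x.m + (1 - e x.v) • z.m := by
  rw [mul_m, mul_m, mul_v, inv_m, smul_neg, smul_smul, map_mul, mul_comm (e z.v), mul_assoc,
    mul_comm (e z.v), ee, mul_one, sub_smul, one_smul]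
  abel

theorem conj_v (z x : DD e Γ) : (z * x * z⁻¹).v = x.v := by
  rw [mul_v, mul_v, inv_v, mul_inv_cancel_comm]

theorem pow_mv (x : DD e Γ) (k : ℕ) : (x ^ k).m = gs e x.v k • x.m ∧ (x ^ k).v = x.v ^ k := by
  induction k with
  | zero => simp [gs, one_m, one_v]
  | succ k ih =>
    rw [pow_succ, mul_m, mul_v, ih.1, ih.2, gs_add, gs_one, mul_one, add_smul, map_pow, pow_succ]
    exact ⟨rfl, rfl⟩

theorem divisible (H : Dat e Γ) (x : DD e Γ) (n : ℕ) (hn : 0 < n) : ∃ y : DD e Γ, y ^ n = x := by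
  obtain ⟨w, hw⟩ := H.dv x.v n hn
  obtain ⟨m, hm⟩ := (H.bij _ _ (gs_SK w hn)).2 x.m
  refine ⟨⟨m, w, H.sat _ _ (gs_SK w hn) _ _ (mem_of x.h hm.symm ?_)⟩, ?_⟩
  · rw [gs_sub, ← map_pow, hw]
  · ext
    · rw [(pow_mv _ _).1]; exact hm
    · rw [(pow_mv _ _).2]; exact hw

def mkT (x : DD e Γ) (k : ℕ) (σ : R) (ν : L) (h : (ν, σ - gs e x.v k) ∈ Γ) : DD e Γ :=
  ⟨σ • x.m + (1 - e x.v) • ν, x.v ^ k, mem_of (cmb x.h h _ _) rfl (by
    rw [map_pow, ← gs_sub]; ring)⟩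

def T (x y : DD e Γ) : Prop := ∃ k σ ν h, SK e k σ ∧ y = mkT x k σ ν h

theorem T_of {x y : DD e Γ} (h : NS x y) : T x y := by
  induction h with
  | conj z =>
    refine ⟨1, e z.v, z.m, mem_of z.h rfl (by rw [gs_one]), SK.one _, ?_⟩
    ext
    · rw [conj_m]; rfl
    · rw [conj_v]; exact (pow_one _).symm
  | mul _ _ iha ihb =>
    obtain ⟨k, σ, ν, h, s, rfl⟩ := iha
    obtain ⟨l, τ, μ, h', s', rfl⟩ := ihb
    refine ⟨k + l, σ + e (x.v ^ k) * τ, ν + e (x.v ^ k) • μ,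
      mem_of (cmb h h' 1 (e (x.v ^ k))) (by rw [one_smul]) (by rw [gs_add, map_pow]; ring),
      s.add (s'.mul _), ?_⟩
    ext
    · simp only [mul_m, mkT]; module
    · simp only [mul_v, mkT, pow_add]

theorem of_T (H : Dat e Γ) {x y : DD e Γ} (h : T x y) : NS x y := by
  obtain ⟨k, σ, ν, h, s, rfl⟩ := h
  induction s generalizing ν with
  | one r =>
    have := NS.conj (h := x) ⟨ν, r, mem_of h rfl (by rw [gs_one])⟩
    refine (congrArg (NS x) ?_).mp this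
    ext
    · rw [conj_m]; rfl
    · rw [conj_v]; exact (pow_one _).symm
  | @step k σ r _ ih =>
    obtain ⟨μ, hμ⟩ := H.sur ((x.v ^ k)⁻¹ * r)
    have e1 : e (x.v ^ k) * e ((x.v ^ k)⁻¹ * r) = e r := by rw [← map_mul, mul_inv_cancel_left]
    have := (ih (ν - e (x.v ^ k) • μ) (mem_of (cmb h hμ 1 (-e (x.v ^ k))) (by module)
      (by rw [gs_add, gs_one, ← map_pow]; linear_combination -e1))).mul (NS.conj ⟨μ, _, hμ⟩)
    refine (congrArg (NS x) ?_).mp this
    ext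
    · rw [mul_m, conj_m]; simp only [mkT]; rw [← e1]; module
    · rw [mul_v, conj_v]; simp only [mkT, pow_succ]

theorem sur2 (H : Dat e Γ) {k : ℕ} {σ : R} (s : SK e k σ) : ∃ ν, (ν, σ - k) ∈ Γ := by
  induction s with
  | one r => simpa using H.sur r
  | step r _ ih =>
    obtain ⟨ν, h⟩ := ih
    obtain ⟨μ, h'⟩ := H.sur r
    exact ⟨_, mem_of (cmb h h' 1 1) rfl (by push_cast; ring)⟩

theorem ore (H : Dat e Γ) {x a b : DD e Γ} (ha : T x a) (hb : T x b) : ∃ w, T a w ∧ T b w := by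
  obtain ⟨k, σ, ν, h, s, rfl⟩ := ha
  obtain ⟨l, τ, μ, h', s', rfl⟩ := hb
  obtain ⟨ξ₁, h1⟩ := sur2 H s
  obtain ⟨ξ₂, h2⟩ := sur2 H (gs_SK (e := e) (x.v ^ l) s.pos)
  obtain ⟨ξ', h3⟩ : ∃ ξ', (ξ', σ - gs e (x.v ^ l) k) ∈ Γ :=
    ⟨_, mem_of (cmb h1 h2 1 (-1)) rfl (by ring)⟩
  obtain ⟨ξ, h4⟩ := (H.bij _ _ (gs_SK x.v s.pos)).2 (σ • μ + gs e x.v l • ξ' - τ • ν)
  have h4' : gs e x.v k • ξ = σ • μ + gs e x.v l • ξ' - τ • ν := h4
  have h5 : (ξ, τ - gs e (x.v ^ k) l) ∈ Γ := by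
    refine H.sat _ _ (gs_SK x.v s.pos) _ _ (mem_of (cmb (cmb h' h3 σ (gs e x.v l)) h 1 (-τ))
      (by rw [h4']; module) ?_)
    have := gs_mul (e := e) x.v k l
    rw [mul_comm, gs_mul] at this
    linear_combination -this
  refine ⟨_, ⟨l, τ, ξ, h5, s', rfl⟩, ⟨k, σ, ξ', h3, s, ?_⟩⟩
  ext
  · simp only [mkT, map_pow]
    have a1 : 1 - e x.v ^ k = (1 - e x.v) * gs e x.v k := by linear_combination gs_sub (e := e) x.v k
    have a2 : 1 - e x.v ^ l = (1 - e x.v) * gs e x.v l := by linear_combination gs_sub (e := e) x.v l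
    rw [a1, a2, mul_smul, h4']
    module
  · simp only [mkT, ← pow_mul, mul_comm]

theorem pro (H : Dat e Γ) : N5f09da3c.ProOrderable (DD e Γ) := by
  refine pro_of (fun g hg h => hg ?_) fun P hm hc g a b _ ha hb ha' hb' => ?_
  · obtain ⟨k, σ, ν, h, s, e1⟩ := T_of h
    have a1 : g.v = 1 := H.tf _ k s.pos (congrArg DD.v e1).symm
    have a2 : (0 : L) = σ • g.m + (1 - e g.v) • ν := congrArg DD.m e1
    rw [a1, map_one, sub_self, zero_smul, add_zero] at a2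
    ext
    · exact (H.bij _ _ s).1 (a2.symm.trans (smul_zero σ).symm)
    · exact a1
  · obtain ⟨w, h1, h2⟩ := ore H (T_of ha) (T_of hb)
    have a1 : ∀ w, NS b w → w ∈ P := fun w h => by
      induction h with
      | conj y => exact hc _ hb' y
      | mul _ _ i j => exact hm _ i _ j
    have a2 : ∀ w, NS a w → w⁻¹ ∈ P := fun w h => by
      induction h with
      | conj y => simpa [mul_assoc] using hc _ ha' y
      | mul _ _ i j => rw [mul_inv_rev]; exact hm _ j _ i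
    simpa using hm _ (a1 w (of_T H h2)) _ (a2 w (of_T H h1))

end Pool.Agent.H22.Blud
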