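import Mathlib
import Pool.Agent.H22.Blud1

set_option autoImplicit false

namespace Pool.Agent.H22.Blud

universe u

structure Ctx (G V : Type u) [Group G] [CommGroup V] where
  π : G →* V
  comm : ∀ a b, π a = 1 → π b = 1 → a * b = b * a
  σ : V → G
  hσ : ∀ r y, π (σ (r * π y)) = π (σ r) * π y

variable {G V : Type u} [Group G] [CommGroup V] {C : Ctx G V}

@[ext] structure AA (C : Ctx G V) where
  val : G
  h : C.π val = 1

instance : Add (AA C) := ⟨fun a b => ⟨a.val * b.val, by rw [map_mul, a.h, b.h, one_mul]⟩⟩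
instance : Zero (AA C) := ⟨⟨1, map_one _⟩⟩
instance : Neg (AA C) := ⟨fun a => ⟨a.val⁻¹, by rw [map_inv, a.h, inv_one]⟩⟩

theorem val_add (a b : AA C) : (a + b).val = a.val * b.val := rfl
theorem val_zero : (0 : AA C).val = 1 := rfl
theorem val_neg (a : AA C) : (-a).val = a.val⁻¹ := rfl

instance : AddCommGroup (AA C) :=
  { AddGroup.ofLeftAxioms (G := AA C) (fun _ _ _ => AA.ext (mul_assoc _ _ _))
      (fun _ => AA.ext (one_mul _)) (fun _ => AA.ext (inv_mul_cancel _)) with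
    add_comm := fun a b => AA.ext (C.comm _ _ a.h b.h) }

def cj (C : Ctx G V) (y : G) : AA C →+ AA C :=
  AddMonoidHom.mk' (fun a => ⟨y * a.val * y⁻¹, by simp [a.h]⟩) fun a b =>
    AA.ext (by simp only [val_add]; group)

theorem val_cj (y : G) (a : AA C) : (cj C y a).val = y * a.val * y⁻¹ := rfl

theorem cj_congr {y y' : G} (h : C.π y = C.π y') (a : AA C) : cj C y a = cj C y' a := by
  have := C.comm (y'⁻¹ * y) a.val (by simp [h]) a.h
  ext
  rw [val_cj, val_cj]
  calc y * a.val * y⁻¹ = y' * (y'⁻¹ * y * a.val) * y⁻¹ := by group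
    _ = y' * a.val * y'⁻¹ := by rw [this]; group

def FF (C : Ctx G V) : Type u := V → AA C

instance : AddCommGroup (FF C) := inferInstanceAs (AddCommGroup (V → AA C))

theorem F_add (φ ψ : FF C) (r : V) : (φ + ψ) r = φ r + ψ r := rfl
theorem F_sub (φ ψ : FF C) (r : V) : (φ - ψ) r = φ r - ψ r := rfl
theorem F_zero (r : V) : (0 : FF C) r = 0 := rfl

def rho (C : Ctx G V) : V →* Module.End ℤ (FF C) where
  toFun u := (AddMonoidHom.mk' (fun (φ : FF C) => (fun r => φ (r * u) : FF C))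
    fun _ _ => rfl).toIntLinearMap
  map_one' := LinearMap.ext fun φ => funext fun r => congrArg φ (mul_one r)
  map_mul' u w := LinearMap.ext fun φ => funext fun r => congrArg φ (mul_assoc r u w).symm

abbrev RR (V : Type u) : Type u := MonoidAlgebra ℤ V

noncomputable abbrev ep (V : Type u) [CommGroup V] : V →* RR V := MonoidAlgebra.of ℤ V

noncomputable instance : Module (RR V) (FF C) :=
  Module.compHom _ (MonoidAlgebra.lift ℤ (Module.End ℤ (FF C)) V (rho C)).toRingHom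

theorem ep_smul (u : V) (φ : FF C) (r : V) : (ep V u • φ) r = φ (r * u) := by
  change (MonoidAlgebra.lift ℤ (Module.End ℤ (FF C)) V (rho C) (ep V u)) φ r = _
  rw [MonoidAlgebra.lift_of]; rfl

def lam (C : Ctx G V) (y : G) : FF C := fun r =>
  ⟨y * C.σ r * (C.σ (r * C.π y))⁻¹, by
    rw [map_mul, map_mul, map_inv, C.hσ, mul_comm (C.π y), mul_inv_cancel]⟩

def kap (C : Ctx G V) (g : G) : FF C := fun r =>
  ⟨C.σ r * g * (C.σ (r * C.π g))⁻¹, by rw [map_mul, map_mul, map_inv, C.hσ, mul_inv_cancel]⟩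

noncomputable def N0 (C : Ctx G V) : AddSubgroup (FF C × RR V) where
  carrier := {x | ∀ y r, x.1 (r * C.π y) = cj C y (x.1 r) + (x.2 • lam C y) r}
  zero_mem' y r := by simp [F_zero]
  add_mem' {a b} ha hb y r := by
    rw [Prod.fst_add, Prod.snd_add, F_add, F_add, ha, hb, add_smul, F_add, map_add]; abel
  neg_mem' {a} ha y r := by
    rw [Prod.fst_neg, Prod.snd_neg, neg_smul]
    change -(a.1 _) = cj C y (-(a.1 r)) + -((a.2 • lam C y) r)
    rw [ha, map_neg]; abel

noncomputable def N1 (C : Ctx G V) : Submodule (RR V) (FF C × RR V) where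
  toAddSubmonoid := (N0 C).toAddSubmonoid
  smul_mem' a x hx := by
    change a • x ∈ N0 C
    induction a using MonoidAlgebra.induction_on with
    | of u =>
      intro y r
      rw [Prod.smul_fst, Prod.smul_snd, smul_eq_mul, mul_smul, ep_smul, ep_smul, ep_smul,
        mul_right_comm]
      exact hx y _
    | add a b ha hb => rw [add_smul]; exact add_mem ha hb
    | smul n a ha => rw [smul_assoc]; exact zsmul_mem ha n

theorem mem_N1 {φ : FF C} {p : RR V} : (φ, p) ∈ N1 C ↔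
    ∀ y r, φ (r * C.π y) = cj C y (φ r) + (p • lam C y) r := Iff.rfl

theorem N1_of (u : V) (z : V → G) (h1 : ∀ r y, z (r * C.π y) = z r)
    (h2 : ∀ r, C.π (C.σ r * z r * (C.σ (r * u))⁻¹) = 1) :
    ((fun r => ⟨_, h2 r⟩ : FF C), ep V u - 1) ∈ N1 C := by
  refine mem_N1.2 fun y r => ?_
  rw [sub_smul, one_smul, F_sub, ep_smul, ← add_sub_assoc, eq_sub_iff_add_eq, add_comm]
  ext
  simp only [val_add, val_cj, lam, h1, mul_right_comm r u]
  group

theorem kap_mem (g : G) : (kap C g, ep V (C.π g) - 1) ∈ N1 C :=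
  N1_of (C.π g) (fun _ => g) (fun _ _ => rfl) fun r => (kap C g r).h

theorem N1_sur (u : V) : ∃ φ, (φ, ep V u - 1) ∈ N1 C := by
  refine ⟨_, N1_of u (fun r => C.σ (r * (C.π (C.σ r))⁻¹ * u)) (fun r y => ?_) fun r => ?_⟩
  · rw [C.hσ, mul_inv, mul_mul_mul_comm, mul_right_comm r]; simp [mul_assoc]
  · have := C.hσ (r * (C.π (C.σ r))⁻¹ * u) (C.σ r)
    rw [mul_right_comm _ u, inv_mul_cancel_right] at this
    rw [map_mul, map_mul, map_inv, this, mul_comm (C.π (C.σ r)), mul_inv_cancel]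

def SS (V : Type u) [CommGroup V] : Submonoid (RR V) where
  carrier := {s | ∃ k, SK (ep V) k s}
  one_mem' := ⟨1, by rw [← map_one (ep V)]; exact SK.one _⟩
  mul_mem' := fun ⟨_, h⟩ ⟨_, h'⟩ => ⟨_, h'.mul' h⟩

abbrev LL (C : Ctx G V) : Type u := LocalizedModule (SS V) (FF C)

noncomputable abbrev fl (C : Ctx G V) : FF C →ₗ[RR V] LL C := LocalizedModule.mkLinearMap (SS V) (FF C)

noncomputable def Gam (C : Ctx G V) : Submodule (RR V) (LL C × RR V) where
  carrier := {x | ∃ s ∈ SS V, ∃ φ, s • x.1 = fl C φ ∧ (φ, s * x.2) ∈ N1 C}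
  zero_mem' := ⟨1, one_mem _, 0, by simp, mem_of (m := 0) (p := 0) (N1 C).zero_mem rfl (by simp)⟩
  add_mem' := by
    rintro a b ⟨s, hs, φ, h1, h2⟩ ⟨t, ht, ψ, h3, h4⟩
    refine ⟨s * t, mul_mem hs ht, _, ?_, mem_of (cmb h2 h4 t s) rfl (by rw [Prod.snd_add]; ring)⟩
    rw [map_add, map_smul, map_smul, ← h1, ← h3, Prod.fst_add]; module
  smul_mem' := by
    rintro a x ⟨s, hs, φ, h1, h2⟩
    refine ⟨s, hs, a • φ, ?_, mem_of (cmb h2 h2 a 0) (by simp) (by simp; ring)⟩
    rw [map_smul, ← h1, Prod.smul_fst]; module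

theorem dat (tf : ∀ (v : V) (n : ℕ), 0 < n → v ^ n = 1 → v = 1)
    (dv : ∀ (v : V) (n : ℕ), 0 < n → ∃ w, w ^ n = v) : Dat (ep V) (Gam C) where
  tf := tf
  dv := dv
  bij k s h := (Module.End.isUnit_iff _).mp (IsLocalizedModule.map_units (fl C) (⟨s, k, h⟩ : SS V))
  sat k s h m p := by
    rintro ⟨t, ht, φ, h1, h2⟩
    exact ⟨t * s, mul_mem ht ⟨k, h⟩, φ, (mul_smul _ _ _).trans h1, mem_of h2 rfl (mul_assoc _ _ _).symm⟩
  sur v := by
    obtain ⟨φ, h⟩ := N1_sur (C := C) v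
    exact ⟨fl C φ, 1, one_mem _, φ, one_smul _ _, mem_of h rfl (one_mul _).symm⟩

noncomputable def emb (C : Ctx G V) : G →* DD (ep V) (Gam C) :=
  MonoidHom.mk' (fun g => ⟨fl C (kap C g), C.π g, 1, one_mem _, kap C g, one_smul _ _,
    mem_of (kap_mem g) rfl (one_mul _).symm⟩) fun a b => by
      ext
      · simp only [mul_m]
        rw [← map_smul, ← map_add]
        congr 1
        funext r
        rw [F_add, ep_smul]
        ext
        simp only [val_add, kap, map_mul, mul_assoc, inv_mul_cancel_left]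
      · exact map_mul _ _ _

section Ord

variable [LinearOrder G] [MulLeftMono G] [MulRightMono G]

instance : LinearOrder (AA C) := LinearOrder.lift' AA.val fun _ _ h => AA.ext h

theorem le_val (a b : AA C) : a ≤ b ↔ a.val ≤ b.val := Iff.rfl

instance : IsOrderedAddMonoid (AA C) where
  add_le_add_left _ _ h c := (le_val _ _).2 (mul_le_mul_left ((le_val _ _).1 h) c.val)

theorem act_mono {k : ℕ} {s : RR V} (h : SK (ep V) k s) {φ ψ : FF C} (h' : ∀ r, φ r ≤ ψ r) (r : V) :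
    (s • φ) r ≤ (s • ψ) r := by
  induction h with
  | one u => rw [ep_smul, ep_smul]; exact h' _
  | step u _ ih => rw [add_smul, add_smul, F_add, F_add, ep_smul, ep_smul]; exact add_le_add ih (h' _)

theorem act_const {k : ℕ} {s : RR V} (h : SK (ep V) k s) {d : AA C} (hd : d ≤ 0) {φ : FF C}
    (h' : ∀ r, φ r = d) (r : V) : (s • φ) r ≤ d := by
  induction h with
  | one u => rw [ep_smul, h']
  | step u _ ih => rw [add_smul, F_add, ep_smul, h']; exact (add_le_add ih hd).trans_eq (add_zero d)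

theorem act_min {k : ℕ} {s : RR V} (h : SK (ep V) k s) (P : G → Prop) (φ : FF C) (W : G → FF C)
    (h1 : ∀ a b, P a → P b → a ≤ b → ∀ r, W a r ≤ W b r) (h2 : ∀ r, ∃ a, P a ∧ W a r ≤ φ r)
    (r : V) : ∃ a, P a ∧ (s • W a) r ≤ (s • φ) r := by
  induction h with
  | one u => simpa only [ep_smul] using h2 _
  | step u h ih =>
    obtain ⟨a, pa, ha⟩ := ih
    obtain ⟨b, pb, hb⟩ := h2 (r * u)
    simp only [add_smul, F_add, ep_smul]
    rcases le_total a b with l | l
    · exact ⟨a, pa, add_le_add ha ((h1 a b pa pb l _).trans hb)⟩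
    · exact ⟨b, pb, add_le_add ((act_mono h (h1 b a pb pa l) r).trans ha) hb⟩

theorem lam_mono {a b : G} (h : C.π a = C.π b) (l : a ≤ b) (r : V) : lam C a r ≤ lam C b r := by
  rw [le_val]; simp only [lam, h]; gcongr

def Good (C : Ctx G V) (v : V) (s : RR V) (φ : FF C) : Prop :=
  ∀ r, ∃ a, (1 < a ∧ C.π a = v) ∧ (s • lam C a) r ≤ φ r

theorem Good.smul {v : V} {s t : RR V} {φ : FF C} (h : Good C v s φ) (hs : s ∈ SS V)
    (ht : t ∈ SS V) : Good C v (t * s) (t • φ) := fun r => by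
  obtain ⟨_, hs⟩ := hs
  obtain ⟨_, ht⟩ := ht
  simpa only [mul_smul] using act_min ht _ φ (fun a => s • lam C a)
    (fun a b pa pb l => act_mono hs (lam_mono (pa.2.trans pb.2.symm) l)) h r

def Pos (x : DD (ep V) (Gam C)) : Prop :=
  ∃ s ∈ SS V, ∃ φ, s • x.m = fl C φ ∧ Good C x.v s φ

theorem cpos {a : G} (h : 1 < a) (z : G) : 1 < z * a * z⁻¹ := by
  calc 1 = z * 1 * z⁻¹ := by group
    _ < z * a * z⁻¹ := by gcongr

theorem Pos.emb {g : G} (h : 1 < g) : Pos (emb C g) := by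
  refine ⟨1, one_mem _, kap C g, one_smul _ _, fun r => ⟨C.σ r * g * (C.σ r)⁻¹, ⟨cpos h _, ?_⟩, ?_⟩⟩
  · change _ = C.π g; simp
  · rw [one_smul, le_val]; simp [lam, kap]

theorem Pos.one : ¬ Pos (1 : DD (ep V) (Gam C)) := by
  rintro ⟨s, hs, φ, h1, h2⟩
  rw [one_m, smul_zero] at h1
  obtain ⟨⟨t, ht⟩, h3⟩ := (IsLocalizedModule.eq_zero_iff (SS V) (fl C)).1 h1.symm
  obtain ⟨a, ⟨a1, a2⟩, h4⟩ := h2.smul hs ht 1
  obtain ⟨_, hk⟩ := mul_mem ht hs
  have a3 : C.π a = 1 := a2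
  have a4 : (0 : AA C) < ⟨a, a3⟩ := a1
  have := act_const hk (neg_nonpos.2 a4.le) (φ := -lam C a)
    (fun r => congrArg Neg.neg (AA.ext (by simp [lam, a3]))) 1
  rw [smul_neg] at this
  have h5 : (t • φ) 1 = 0 := congrFun h3 1
  rw [h5] at h4
  exact absurd ((neg_le_neg_iff.1 this).trans h4) a4.not_ge

theorem Pos.mul {x y : DD (ep V) (Gam C)} (hx : Pos x) (hy : Pos y) : Pos (x * y) := by
  obtain ⟨s, hs, φ, h1, h2⟩ := hx
  obtain ⟨t, ht, ψ, h3, h4⟩ := hy
  have h5 := h2.smul hs ht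
  have h6 := h4.smul ht hs
  rw [mul_comm] at h6
  refine ⟨t * s, mul_mem ht hs, t • φ + ep V x.v • s • ψ, ?_, fun r => ?_⟩
  · rw [map_add, map_smul, map_smul, map_smul, ← h1, ← h3, mul_m]; module
  obtain ⟨_, hk⟩ := mul_mem ht hs
  obtain ⟨a, ⟨a1, a2⟩, ha⟩ := h5 r
  obtain ⟨b, ⟨b1, b2⟩, hb⟩ := h6 (r * x.v)
  obtain ⟨c, pc, hc⟩ := act_min hk (fun c => 1 < c ∧ C.π c = (x * y).v)
    (lam C a + ep V x.v • lam C b) (lam C)
    (fun a b pa pb l => lam_mono (pa.2.trans pb.2.symm) l) (fun u => by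
      have e1 : C.π (a * (C.σ u * (C.σ (u * x.v))⁻¹ * b * (C.σ u * (C.σ (u * x.v))⁻¹)⁻¹)) =
          x.v * y.v := by
        rw [map_mul, map_mul, map_mul C.π _ b, map_inv, mul_inv_cancel_comm, a2, b2]
      refine ⟨_, ⟨one_lt_mul'' a1 (cpos b1 _), e1⟩, le_of_eq ?_⟩
      rw [F_add, ep_smul]
      ext
      simp only [val_add, lam, e1, a2, b2, mul_assoc u]
      group) r
  refine ⟨c, pc, hc.trans ?_⟩
  rw [smul_add, smul_comm, F_add, F_add, ep_smul, ep_smul]
  exact add_le_add ha hb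

theorem Pos.conj {x : DD (ep V) (Gam C)} (hx : Pos x) (z : DD (ep V) (Gam C)) :
    Pos (z * x * z⁻¹) := by
  obtain ⟨s, hs, φ, h1, h2⟩ := hx
  obtain ⟨t, ht, ψ, h3, h4⟩ := z.h
  have h5 := h2.smul hs (mul_mem (⟨1, SK.one z.v⟩ : ep V z.v ∈ SS V) ht)
  have h6 := mem_N1.1 (cmb h4 h4 s 0)
  simp only [zero_smul, add_zero, zero_mul] at h6
  refine ⟨t * s, mul_mem ht hs, (ep V z.v * t) • φ + (1 - ep V x.v) • s • ψ, ?_, fun r => ?_⟩
  · rw [map_add, map_smul, map_smul, map_smul, ← h1, ← h3, conj_m]; module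
  obtain ⟨_, hk⟩ := mul_mem ht hs
  obtain ⟨a, ⟨a1, a2⟩, ha⟩ := h5 r
  obtain ⟨d, hd⟩ : ∃ d, d = (s • ψ) r := ⟨_, rfl⟩
  have e1 : ((t * s) • lam C a) r + (d - cj C a d) ≤
      ((ep V z.v * t) • φ + (1 - ep V x.v) • s • ψ) r := by
    have : s * (t * (ep V z.v - 1)) = ep V z.v * t * s - t * s := by ring
    rw [F_add, sub_smul, one_smul, F_sub, ep_smul, ← a2, h6, ← hd, this, sub_smul, F_sub]
    have := sub_nonneg.2 ha
    rw [← sub_nonneg]
    exact this.trans_eq (by abel)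
  rw [conj_v]
  rcases le_total 0 (d - cj C a d) with l | l
  · exact ⟨a, ⟨a1, a2⟩, (le_add_of_nonneg_right l).trans e1⟩
  · have e2 : C.π (d.val * a * d.val⁻¹) = C.π a := by simp [d.h]
    refine ⟨_, ⟨cpos a1 d.val, e2.trans a2⟩, le_trans ?_ e1⟩
    have := act_const hk l (φ := lam C (d.val * a * d.val⁻¹) - lam C a) (fun u => by
      rw [F_sub, sub_eq_iff_eq_add, sub_eq_add_neg]
      ext
      simp only [val_add, val_neg, val_cj, lam, e2]
      group) r
    rw [smul_sub, F_sub] at this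
    exact sub_le_iff_le_add'.1 this

theorem of_ctx (C : Ctx G V) (tf : ∀ (v : V) (n : ℕ), 0 < n → v ^ n = 1 → v = 1)
    (dv : ∀ (v : V) (n : ℕ), 0 < n → ∃ w, w ^ n = v) :
    ∃ (D : Type u) (_ : Group D) (_ : LinearOrder D) (_ : MulLeftMono D) (_ : MulRightMono D)
      (δ : G →* D), StrictMono δ ∧ ∀ (d : D) (n : ℕ), 0 < n → ∃ x : D, x ^ n = d := by
  classical
  obtain ⟨s, h1, h2, h3⟩ := pro (dat (C := C) tf dv) (fun a b => a = b ∨ Pos (a⁻¹ * b))
    { refl := fun _ => Or.inl rfl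
      trans := by
        rintro a b c (rfl | h) (rfl | h')
        · exact Or.inl rfl
        · exact Or.inr h'
        · exact Or.inr h
        · exact Or.inr (by simpa [mul_assoc] using h.mul h')
      antisymm := by
        rintro a b (rfl | h) (h' | h')
        · rfl
        · rfl
        · exact h'.symm
        · exact absurd (by simpa [mul_assoc] using h.mul h') Pos.one }
    ⟨by
      rintro g a b (rfl | h)
      · exact Or.inl rfl
      · exact Or.inr (by simpa [mul_assoc] using h), by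
      rintro g a b (rfl | h)
      · exact Or.inl rfl
      · exact Or.inr (by simpa [mul_assoc] using h.conj g⁻¹)⟩
  let o : LinearOrder (DD (ep V) (Gam C)) :=
    { le := s, le_refl := h1.refl, le_trans := h1.trans, le_antisymm := h1.antisymm,
      le_total := h1.total, toDecidableLE := Classical.decRel _ }
  refine ⟨_, inferInstance, o, ⟨h2.1⟩, ⟨h2.2⟩, emb C, fun a b h => ?_, divisible (dat tf dv)⟩
  have := Pos.emb (C := C) (by simpa using h : 1 < a⁻¹ * b)
  rw [map_mul, map_inv] at this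
  exact lt_of_le_of_ne (h3 _ _ (Or.inr this)) fun e => Pos.one (by simpa [e] using this)

theorem comm_of_pow {a b : G} {n : ℕ} (hn : 0 < n) (h : a ^ n * b = b * a ^ n) : a * b = b * a := by
  have h1 : (b⁻¹ * a * b) ^ n = a ^ n := by
    have := conj_pow (i := n) (a := b⁻¹) (b := a)
    rw [inv_inv] at this
    rw [this, mul_assoc, h, inv_mul_cancel_left]
  have h2 : b⁻¹ * a * b = a := by
    rcases lt_trichotomy (b⁻¹ * a * b) a with l | l | l
    · exact absurd h1 (pow_lt_pow_left' hn.ne' l).ne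
    · exact l
    · exact absurd h1 (pow_lt_pow_left' hn.ne' l).ne'
  calc a * b = b * (b⁻¹ * a * b) := by group
    _ = b * a := by rw [h2]

theorem bludov (hG : ∀ a ∈ commutator G, ∀ b ∈ commutator G, a * b = b * a) :
    ∃ (D : Type u) (_ : Group D) (_ : LinearOrder D) (_ : MulLeftMono D) (_ : MulRightMono D)
      (δ : G →* D), StrictMono δ ∧ ∀ (d : D) (n : ℕ), 0 < n → ∃ x : D, x ^ n = d := by
  let M := Additive (Abelianization G)
  let f := TensorProduct.mk ℤ ℚ M 1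
  let π : G →* Multiplicative (TensorProduct ℤ ℚ M) :=
    (AddMonoidHom.toMultiplicativeRight f.toAddMonoidHom).comp Abelianization.of
  have ker : ∀ a, π a = 1 → ∃ n : ℕ, 0 < n ∧ a ^ n ∈ commutator G := fun a h => by
    obtain ⟨⟨t, ht⟩, h3⟩ := (IsLocalizedModule.eq_zero_iff (nonZeroDivisors ℤ) f
      (m := Additive.ofMul (Abelianization.of a))).1 h
    have h4 : Abelianization.of a ^ t = 1 := h3
    refine ⟨t.natAbs, Int.natAbs_pos.2 (nonZeroDivisors.ne_zero ht), ?_⟩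
    rw [← Abelianization.ker_of, MonoidHom.mem_ker, map_pow, pow_natAbs_eq_one]
    exact h4
  have sec : ∀ r, ∃ g, π g = (QuotientGroup.mk (s := π.range) r).out⁻¹ * r := fun r =>
    (QuotientGroup.eq (s := π.range)).1 (QuotientGroup.out_eq' _)
  choose σ hσ using sec
  refine of_ctx ⟨π, fun a b ha hb => ?_, σ, fun r y => ?_⟩ (fun v n hn h => ?_) fun v n hn => ?_
  · obtain ⟨n, hn, h1⟩ := ker a ha
    obtain ⟨m, hm, h2⟩ := ker b hb
    exact comm_of_pow hn (comm_of_pow hm (hG _ h2 _ h1)).symm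
  · rw [hσ, hσ, QuotientGroup.mk_mul_of_mem r (s := π.range) ⟨y, rfl⟩, mul_assoc]
  · have h1 : (n : ℚ) • v.toAdd = 0 := by
      rw [Nat.cast_smul_eq_nsmul]; exact congrArg Multiplicative.toAdd h
    exact (smul_eq_zero.1 h1).resolve_left (by positivity)
  · refine ⟨Multiplicative.ofAdd ((n : ℚ)⁻¹ • v.toAdd), Multiplicative.toAdd.injective ?_⟩
    rw [toAdd_pow, toAdd_ofAdd, ← Nat.cast_smul_eq_nsmul ℚ, smul_inv_smul₀ (by positivity)]

end Ord

end Pool.Agent.H22.Blud
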