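import Mathlib

namespace Pool.Agent.H22.BsStab

open Equiv Finset

section dist
variable {Ω : Type} [Fintype Ω] [DecidableEq Ω]

def ds (σ τ : Perm Ω) : ℕ := (univ.filter (fun i => σ i ≠ τ i)).card

theorem ds_tri (a b c : Perm Ω) : ds a c ≤ ds a b + ds b c := by
  refine le_trans (card_le_card fun i hi => ?_) (card_union_le _ _)
  simp only [mem_filter, mem_univ, true_and, mem_union] at hi ⊢
  by_contra h
  push Not at h
  exact hi (h.1.trans h.2)

theorem ds_comm (a b : Perm Ω) : ds a b = ds b a := by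
  unfold ds
  simp only [ne_comm]

theorem ds_left (g a b : Perm Ω) : ds (g * a) (g * b) = ds a b := by
  unfold ds
  simp

theorem ds_right (g a b : Perm Ω) : ds (a * g) (b * g) = ds a b := by
  unfold ds
  refine card_bijective g g.bijective fun i => ?_
  simp

theorem ds_mul (a b c d : Perm Ω) : ds (a * c) (b * d) ≤ ds a b + ds c d := by
  have := ds_tri (a * c) (b * c) (b * d)
  rwa [ds_right, ds_left] at this

theorem ds_inv (a b : Perm Ω) : ds a⁻¹ b⁻¹ = ds a b := by
  rw [← ds_left a, ← ds_right b, mul_inv_cancel, one_mul, inv_mul_cancel_right, ds_comm]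

theorem ds_congr {Λ : Type} [Fintype Λ] [DecidableEq Λ] (e : Ω ≃ Λ) (a b : Perm Ω) :
    ds (e.permCongrHom a) (e.permCongrHom b) = ds a b := by
  unfold ds
  refine (card_bijective e e.bijective fun i => ?_).symm
  simp

end dist

theorem exact_comm {G : Type} [Group G] [Finite G] {n : ℕ} {a b c : G} (h1 : b⁻¹ * a * b = a ^ n)
    (h2 : a⁻¹ * c * a = c ^ n) :
    (b * a⁻¹ * b⁻¹) * c * (b * a * b⁻¹) * c = c * ((b * a⁻¹ * b⁻¹) * c * (b * a * b⁻¹)) := by
  have e1 : (b * a * b⁻¹) ^ n = a := by rw [conj_pow, ← h1]; group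
  have o1 : orderOf (b * a * b⁻¹) = orderOf a := by
    have := (MulAut.conj b).orderOf_eq a
    simpa using this
  have m : b * a * b⁻¹ ∈ Subgroup.zpowers a := by
    have hle : Subgroup.zpowers a ≤ Subgroup.zpowers (b * a * b⁻¹) := by
      have := Subgroup.npow_mem_zpowers (b * a * b⁻¹) n
      rw [e1] at this
      exact Subgroup.zpowers_le.2 this
    have := Subgroup.eq_of_le_of_card_ge hle (by rw [Nat.card_zpowers, Nat.card_zpowers, o1])
    rw [this]
    exact Subgroup.mem_zpowers _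
  obtain ⟨k, hk⟩ := (mem_powers_iff_mem_zpowers.2 m)
  have e2 : ∀ k : ℕ, (a ^ k)⁻¹ * c * a ^ k = c ^ n ^ k := by
    intro k
    induction k with
    | zero => simp
    | succ k ih =>
      have : (a ^ (k + 1))⁻¹ * c * a ^ (k + 1) = a⁻¹ * ((a ^ k)⁻¹ * c * a ^ k) * a⁻¹⁻¹ := by
        rw [pow_succ]; group
      rw [this, ih, ← conj_pow, inv_inv, h2, ← pow_mul, pow_succ']
  have e3 : b * a⁻¹ * b⁻¹ = (b * a * b⁻¹)⁻¹ := by group
  simp only at hk
  rw [e3, ← hk, e2, ← pow_succ, ← pow_succ']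

section model
variable (q : ℕ)

abbrev Y := ZMod q × ZMod q × ZMod q

def hs (e f : ZMod q) : Perm (Y q) where
  toFun y := (y.1 + e, y.2.1 + f, y.2.2 + e * y.2.1 - f * y.1)
  invFun y := (y.1 - e, y.2.1 - f, y.2.2 - e * y.2.1 + f * y.1)
  left_inv y := by ext <;> simp; ring
  right_inv y := by ext <;> simp; ring

theorem hs_apply (e f : ZMod q) (y : Y q) :
    hs q e f y = (y.1 + e, y.2.1 + f, y.2.2 + e * y.2.1 - f * y.1) := rfl

theorem hs_pow (e f : ZMod q) (k : ℕ) : hs q e f ^ k = hs q (k * e) (k * f) := by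
  induction k with
  | zero => ext y <;> simp [hs_apply]
  | succ k ih =>
    rw [pow_succ, ih]
    ext y <;> simp [hs_apply] <;> ring

variable (n : ℕ)

def tb (k : ℕ) : Perm (Y q) := hs q (n ^ (k / n)) (n ^ (k / n) * (k % n : ℕ))

theorem tb_add (hn : 0 < n) (k : ℕ) : tb q n (k + n) = tb q n k ^ n := by
  unfold tb
  rw [hs_pow, Nat.add_div_right _ hn, Nat.add_mod_right, pow_succ']
  congr 1
  ring

theorem tb_mod (hn : 0 < n) (h2 : (n : ZMod q) ^ 2 = 1) (Q k : ℕ) :
    tb q n (k % (n * (2 * Q))) = tb q n k := by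
  unfold tb
  rw [Nat.mod_mul_right_div_self, Nat.mod_mod_of_dvd _ (dvd_mul_right _ _)]
  have : (n : ZMod q) ^ (k / n % (2 * Q)) = n ^ (k / n) := by
    conv_rhs => rw [← Nat.mod_add_div (k / n) (2 * Q), pow_add, mul_assoc, pow_mul, h2, one_pow,
      mul_one]
  rw [this]

theorem tb_ne (hn : 0 < n) (h2 : (n : ZMod q) ^ 2 = 1) (h3 : (2 : ZMod q) ≠ 0)
    (h4 : 2 * ((n : ZMod q) - 1) ≠ 0) (k : ℕ) (y : Y q) :
    tb q n (k + 1) (tb q n k y) ≠ tb q n k (tb q n (k + 1) y) := by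
  intro h
  have h5 := congrArg (fun z : Y q => z.2.2) h
  simp only [tb, hs_apply] at h5
  have he : ((n : ZMod q) ^ (k / n)) ^ 2 = 1 := by rw [← pow_mul, mul_comm, pow_mul, h2, one_pow]
  have hk := Nat.mod_add_div k n
  have hlt := Nat.mod_lt k hn
  by_cases hc : k % n + 1 < n
  · have e1 : (k + 1) / n = k / n := by
      have := Nat.mul_comm n (k / n)
      rw [Nat.div_eq_iff hn]
      constructor <;> omega
    have e2 : (k + 1) % n = k % n + 1 := by
      have := Nat.mod_add_div (k + 1) n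
      rw [e1] at this
      omega
    rw [e1, e2] at h5
    push_cast at h5
    apply h3
    linear_combination -h5 - 2 * he
  · have e0 : k % n + 1 = n := by omega
    have e3 : k + 1 = n * (k / n + 1) := by rw [mul_add]; omega
    have e1 : (k + 1) / n = k / n + 1 := by rw [e3, Nat.mul_div_cancel_left _ hn]
    have e2 : (k + 1) % n = 0 := by rw [e3, Nat.mul_mod_right]
    have e4 : ((k % n : ℕ) : ZMod q) = n - 1 := by
      have := congrArg (Nat.cast : ℕ → ZMod q) e0
      rw [Nat.cast_add, Nat.cast_one] at this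
      linear_combination this
    rw [e1, e2, e4, pow_succ] at h5
    push_cast at h5
    apply h4
    linear_combination -h5 + 2 * n * (n - 1) * he + 2 * h2

variable (l M : ℕ)

abbrev Om := Fin (l + 2) × ZMod M × Y q

def pa : Perm (Om q l M) where
  toFun p := (p.1, p.2.1 + n ^ (p.1.1 + 1), p.2.2)
  invFun p := (p.1, p.2.1 - n ^ (p.1.1 + 1), p.2.2)
  left_inv p := by simp
  right_inv p := by simp

def pb : Perm (Om q l M) where
  toFun p := (p.1 + 1, p.2)
  invFun p := (p.1 - 1, p.2)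
  left_inv p := by simp
  right_inv p := by simp

def pc : Perm (Om q l M) where
  toFun p := (p.1, p.2.1, tb q n (p.2.1.val / n ^ p.1.1) p.2.2)
  invFun p := (p.1, p.2.1, (tb q n (p.2.1.val / n ^ p.1.1))⁻¹ p.2.2)
  left_inv p := by simp
  right_inv p := by simp

theorem pa_apply (p : Om q l M) : pa q n l M p = (p.1, p.2.1 + n ^ (p.1.1 + 1), p.2.2) := rfl
theorem pa_inv (p : Om q l M) : (pa q n l M)⁻¹ p = (p.1, p.2.1 - n ^ (p.1.1 + 1), p.2.2) := rfl
theorem pb_apply (p : Om q l M) : pb q l M p = (p.1 + 1, p.2) := rfl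
theorem pb_inv (p : Om q l M) : (pb q l M)⁻¹ p = (p.1 - 1, p.2) := rfl
theorem pc_apply (p : Om q l M) :
    pc q n l M p = (p.1, p.2.1, tb q n (p.2.1.val / n ^ p.1.1) p.2.2) := rfl

theorem pa_pow (k : ℕ) (p : Om q l M) :
    (pa q n l M ^ k) p = (p.1, p.2.1 + k * n ^ (p.1.1 + 1), p.2.2) := by
  induction k with
  | zero => simp
  | succ k ih =>
    rw [pow_succ', Perm.mul_apply, ih, pa_apply]
    ext <;> simp
    ring

theorem pc_pow (k : ℕ) (p : Om q l M) :
    (pc q n l M ^ k) p = (p.1, p.2.1, (tb q n (p.2.1.val / n ^ p.1.1) ^ k) p.2.2) := by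
  induction k with
  | zero => simp
  | succ k ih => rw [pow_succ', Perm.mul_apply, ih, pc_apply, pow_succ', Perm.mul_apply]

theorem shift [NeZero M] (hn : 0 < n) (h2 : (n : ZMod q) ^ 2 = 1) (hM : M = 2 * n ^ (l + 2))
    (j : Fin (l + 2)) (x : ZMod M) (c : ℕ) :
    tb q n ((x + (c * n ^ j.1 : ℕ)).val / n ^ j.1) = tb q n (x.val / n ^ j.1 + c) := by
  have e : M = n ^ j.1 * (n * (2 * n ^ (l + 1 - j.1))) := by
    rw [hM]
    have : l + 2 = j.1 + (1 + (l + 1 - j.1)) := by have := j.2; omega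
    conv_lhs => rw [this, pow_add, pow_add]
    ring
  have e2 : (x + (c * n ^ j.1 : ℕ)).val = (x.val + c * n ^ j.1) % M := by
    rw [ZMod.val_add, ZMod.val_natCast, Nat.add_mod_mod]
  rw [e2]
  generalize x.val = v
  rw [e, Nat.mod_mul_right_div_self, tb_mod q n hn h2, Nat.add_mul_div_right _ _ (by positivity)]

theorem rel2 [NeZero M] (hn : 0 < n) (h2 : (n : ZMod q) ^ 2 = 1) (hM : M = 2 * n ^ (l + 2)) :
    (pa q n l M)⁻¹ * pc q n l M * pa q n l M = pc q n l M ^ n := by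
  ext1 p
  rw [pc_pow, Perm.mul_apply, Perm.mul_apply, pa_apply, pc_apply, pa_inv]
  have := shift q n l M hn h2 hM p.1 p.2.1 n
  rw [tb_add q n hn] at this
  push_cast at this
  rw [← pow_succ'] at this
  simp [this]

theorem rel1 (p : Om q l M) (hp : p.1 ≠ Fin.last _) :
    ((pb q l M)⁻¹ * pa q n l M * pb q l M) p = (pa q n l M ^ n) p := by
  rw [pa_pow, Perm.mul_apply, Perm.mul_apply, pb_apply, pa_apply, pb_inv]
  simp only [Fin.val_add_one_of_lt (Fin.lt_last_iff_ne_last.2 hp), add_sub_cancel_right]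
  rw [pow_succ' _ (p.1.1 + 1)]

theorem nc [NeZero M] (hn : 0 < n) (h2 : (n : ZMod q) ^ 2 = 1) (h3 : (2 : ZMod q) ≠ 0)
    (h4 : 2 * ((n : ZMod q) - 1) ≠ 0) (hM : M = 2 * n ^ (l + 2)) (p : Om q l M) (hp : p.1 ≠ 0) :
    ((pb q l M * (pa q n l M)⁻¹ * (pb q l M)⁻¹) * pc q n l M
      * (pb q l M * pa q n l M * (pb q l M)⁻¹) * pc q n l M) p ≠
    (pc q n l M * ((pb q l M * (pa q n l M)⁻¹ * (pb q l M)⁻¹) * pc q n l M
      * (pb q l M * pa q n l M * (pb q l M)⁻¹))) p := by
  have e : (p.1 - 1).1 + 1 = p.1.1 := by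
    rw [Fin.val_sub_one_of_ne_zero hp]
    have := Fin.val_ne_zero_iff.2 hp
    omega
  have := shift q n l M hn h2 hM p.1 p.2.1 1
  push_cast at this
  rw [one_mul] at this
  simp only [Perm.mul_apply, pa_apply, pa_inv, pb_apply, pb_inv, pc_apply, sub_add_cancel, e,
    add_sub_cancel_right, this, ne_eq, Prod.mk.injEq, true_and]
  exact tb_ne q n hn h2 h3 h4 _ _

end model

theorem card_level {α β : Type} [Fintype α] [DecidableEq α] [Fintype β] (j : α) :
    (univ.filter (fun p : α × β => p.1 = j)).card = Fintype.card β := by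
  rw [← card_univ]
  refine card_bij (fun p _ => p.2) (fun _ _ => mem_univ _) (fun a ha b hb h => ?_)
    (fun b _ => ⟨(j, b), by simp, rfl⟩)
  simp only [mem_filter, mem_univ, true_and] at ha hb
  exact Prod.ext (ha.trans hb.symm) h

theorem main (n : ℕ) (hn : 2 ≤ n) (δ : ℝ) (hδ : 0 < δ) :
    ∃ (N : ℕ) (a b c : Perm (Fin N)), (ds (b⁻¹ * a * b) (a ^ n) : ℝ) / N < δ ∧
      (ds (a⁻¹ * c * a) (c ^ n) : ℝ) / N < δ ∧
      ∀ a' b' c' : Perm (Fin N), b'⁻¹ * a' * b' = a' ^ n → a'⁻¹ * c' * a' = c' ^ n →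
        (ds a a' : ℝ) / N < 1 / 32 → (ds b b' : ℝ) / N < 1 / 32 → (ds c c' : ℝ) / N < 1 / 32 →
        False := by
  obtain ⟨l, hl⟩ := exists_nat_one_div_lt hδ
  obtain ⟨q, hq⟩ : ∃ q, q + 1 = n * n := 
    ⟨n * n - 1, Nat.sub_add_cancel (Nat.mul_pos (by omega) (by omega))⟩
  obtain ⟨M, hM⟩ : ∃ M, M = 2 * n ^ (l + 2) := ⟨_, rfl⟩
  have hq3 : 2 * n ≤ q + 1 := by nlinarith
  have : NeZero q := ⟨by omega⟩
  have : NeZero M := ⟨by rw [hM]; positivity⟩
  have h2 : (n : ZMod q) ^ 2 = 1 := by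
    have := congrArg (Nat.cast : ℕ → ZMod q) hq
    push_cast at this
    rw [ZMod.natCast_self] at this
    linear_combination -this
  have h3 : (2 : ZMod q) ≠ 0 := fun h => by
    have := (ZMod.natCast_eq_zero_iff 2 q).1 (by exact_mod_cast h)
    have := Nat.le_of_dvd (by norm_num) this
    omega
  have h4 : 2 * ((n : ZMod q) - 1) ≠ 0 := fun h => by
    have := (ZMod.natCast_eq_zero_iff (2 * (n - 1)) q).1 (by
      push_cast [Nat.cast_sub (by omega : 1 ≤ n)]; exact h)
    have := Nat.le_of_dvd (by omega) this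
    omega
  obtain ⟨K, hK⟩ : ∃ K, K = Fintype.card (ZMod M × Y q) := ⟨_, rfl⟩
  have hK0 : 0 < K := hK ▸ Fintype.card_pos
  have hN : Fintype.card (Om q l M) = (l + 2) * K := by
    rw [Fintype.card_prod, Fintype.card_fin, hK]
  let e : Om q l M ≃ Fin ((l + 2) * K) := Fintype.equivFinOfCardEq hN
  let φ := e.permCongrHom
  have hpos : (0 : ℝ) < (((l + 2) * K : ℕ) : ℝ) := by positivity
  refine ⟨_, φ (pa q n l M), φ (pb q l M), φ (pc q n l M), ?_, ?_, ?_⟩
  · rw [← map_inv, ← map_mul, ← map_mul, ← map_pow, ds_congr]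
    have : ds ((pb q l M)⁻¹ * pa q n l M * pb q l M) (pa q n l M ^ n) ≤ K := by
      rw [hK, ← card_level (Fin.last (l + 1))]
      refine card_le_card fun p hp => ?_
      simp only [mem_filter, mem_univ, true_and] at hp ⊢
      by_contra h
      exact hp (rel1 q n l M p h)
    refine lt_of_le_of_lt ?_ hl
    rw [div_le_div_iff₀ hpos (by positivity)]
    have h' : (ds ((pb q l M)⁻¹ * pa q n l M * pb q l M) (pa q n l M ^ n) : ℝ) ≤ K := by
      exact_mod_cast this
    push_cast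
    nlinarith [(Nat.cast_nonneg K : (0 : ℝ) ≤ K), (Nat.cast_nonneg l : (0 : ℝ) ≤ l)]
  · rw [← map_inv, ← map_mul, ← map_mul, ← map_pow, ds_congr, rel2 q n l M (by omega) h2 hM]
    simpa [ds] using hδ
  · intro a' b' c' r1 r2 da db dc
    have hw := exact_comm r1 r2
    have low : (l + 2) * K ≤ ds
        ((pb q l M * (pa q n l M)⁻¹ * (pb q l M)⁻¹) * pc q n l M
          * (pb q l M * pa q n l M * (pb q l M)⁻¹) * pc q n l M)
        (pc q n l M * ((pb q l M * (pa q n l M)⁻¹ * (pb q l M)⁻¹) * pc q n l M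
          * (pb q l M * pa q n l M * (pb q l M)⁻¹))) + K := by
      rw [← hN, ← card_univ, hK, ← card_level (0 : Fin (l + 2))]
      refine le_trans (card_le_card fun p _ => ?_) (card_union_le _ _)
      simp only [mem_filter, mem_univ, true_and, mem_union]
      by_cases h : p.1 = 0
      · exact Or.inr h
      · exact Or.inl (nc q n l M (by omega) h2 h3 h4 hM p h)
    rw [← ds_congr e] at low
    simp only [map_mul, map_inv] at low
    change (l + 2) * K ≤ ds ((φ (pb q l M) * (φ (pa q n l M))⁻¹ * (φ (pb q l M))⁻¹) * φ (pc q n l M)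
      * (φ (pb q l M) * φ (pa q n l M) * (φ (pb q l M))⁻¹) * φ (pc q n l M))
      (φ (pc q n l M) * ((φ (pb q l M) * (φ (pa q n l M))⁻¹ * (φ (pb q l M))⁻¹) * φ (pc q n l M)
      * (φ (pb q l M) * φ (pa q n l M) * (φ (pb q l M))⁻¹))) + K at low
    generalize φ (pa q n l M) = a at *
    generalize φ (pb q l M) = b at *
    generalize φ (pc q n l M) = c at *
    have u1 : ds (b * a⁻¹ * b⁻¹) (b' * a'⁻¹ * b'⁻¹) ≤ ds b b' + ds a a' + ds b b' := by
      have i1 := ds_mul (b * a⁻¹) (b' * a'⁻¹) b⁻¹ b'⁻¹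
      have i2 := ds_mul b b' a⁻¹ a'⁻¹
      rw [ds_inv] at i1 i2
      omega
    have u2 : ds (b * a * b⁻¹) (b' * a' * b'⁻¹) ≤ ds b b' + ds a a' + ds b b' := by
      have i1 := ds_mul (b * a) (b' * a') b⁻¹ b'⁻¹
      have i2 := ds_mul b b' a a'
      rw [ds_inv] at i1
      omega
    generalize b * a⁻¹ * b⁻¹ = r at *
    generalize b * a * b⁻¹ = s at *
    generalize b' * a'⁻¹ * b'⁻¹ = r' at *
    generalize b' * a' * b'⁻¹ = s' at *
    have v1 := ds_mul (r * c) (r' * c') s s'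
    have v2 := ds_mul r r' c c'
    have v3 := ds_mul (r * c * s) (r' * c' * s') c c'
    have v4 := ds_mul c c' (r * c * s) (r' * c' * s')
    have v5 := ds_tri (r * c * s * c) (r' * c' * s' * c') (c * (r * c * s))
    rw [hw, ds_comm (c' * _)] at v5
    rw [hw] at v3
    have fin : (l + 2) * K ≤ 2 * (4 * ds a a' + 8 * ds b b' + 4 * ds c c') := by nlinarith
    rw [div_lt_iff₀ hpos] at da db dc
    have fin' : (((l + 2) * K : ℕ) : ℝ) ≤ 2 * (4 * ds a a' + 8 * ds b b' + 4 * ds c c') := by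
      exact_mod_cast fin
    linarith

end Pool.Agent.H22.BsStab
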