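import Mathlib

set_option autoImplicit false

namespace Pool.Agent.H22.Cliff

variable {F D Γ : Type} [Field F] [Ring D] [Algebra F D] [LinearOrderedCommGroupWithZero Γ]

structure Data (F D Γ : Type) [Field F] [Ring D] [Algebra F D]
    [LinearOrderedCommGroupWithZero Γ] where
  v : Valuation F Γ
  a : ℕ → F
  e : ℕ → D
  a_ne : ∀ i, a i ≠ 0
  sq : ∀ i, e i * e i = algebraMap F D (a i)
  anti : ∀ i j, i ≠ j → e i * e j = -(e j * e i)
  indep : ∀ (n : ℕ) (g : F) (l : List ℕ), g ≠ 0 → (∀ i ∈ l, i < n) →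
    v (g ^ 2 * (l.map a).prod * a n) ≠ 1

namespace Data
variable (X : Data F D Γ)

def P (l : List ℕ) : D := (l.map X.e).prod
def A (l : List ℕ) : F := (l.map X.a).prod

theorem P_nil : X.P [] = 1 := rfl
theorem P_cons (i : ℕ) (l : List ℕ) : X.P (i :: l) = X.e i * X.P l := by simp [P]
theorem P_append (l l' : List ℕ) : X.P (l ++ l') = X.P l * X.P l' := by simp [P]
theorem A_nil : X.A [] = 1 := rfl
theorem A_cons (i : ℕ) (l : List ℕ) : X.A (i :: l) = X.a i * X.A l := by simp [A]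
theorem A_append (l l' : List ℕ) : X.A (l ++ l') = X.A l * X.A l' := by simp [A]
theorem P_single (i : ℕ) : X.P [i] = X.e i := by simp [P]
theorem A_single (i : ℕ) : X.A [i] = X.a i := by simp [A]

theorem A_ne (l : List ℕ) : X.A l ≠ 0 := by
  induction l with
  | nil => exact one_ne_zero
  | cons i l ih => rw [A_cons]; exact mul_ne_zero (X.a_ne i) ih

theorem e_comm (i : ℕ) (l : List ℕ) :
    ∃ ε : F, ε ^ 2 = 1 ∧ X.e i * X.P l = ε • (X.P l * X.e i) := by
  induction l with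
  | nil => exact ⟨1, by simp, by simp [P_nil]⟩
  | cons j l ih =>
    obtain ⟨ε, hε, h⟩ := ih
    by_cases hij : i = j
    · subst hij
      refine ⟨ε, hε, ?_⟩
      rw [P_cons]
      conv_lhs => rw [h]
      rw [mul_smul_comm, mul_assoc]
    · refine ⟨-ε, by simpa using hε, ?_⟩
      rw [P_cons, ← mul_assoc, X.anti i j hij, neg_mul, mul_assoc, h, mul_smul_comm, neg_smul,
        mul_assoc]

theorem P_sq (l : List ℕ) : ∃ ε : F, ε ^ 2 = 1 ∧ X.P l * X.P l = (ε * X.A l) • (1 : D) := by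
  induction l with
  | nil => exact ⟨1, by simp, by simp [P_nil, A_nil]⟩
  | cons j l ih =>
    obtain ⟨ε, hε, h⟩ := ih
    obtain ⟨δ, hδ, h'⟩ := X.e_comm j l
    refine ⟨δ * ε, by rw [mul_pow, hε, hδ, mul_one], ?_⟩
    rw [P_cons, A_cons]
    conv_lhs => rw [h']
    conv_lhs => arg 2; rw [← h']
    rw [smul_mul_assoc, mul_assoc, ← mul_assoc (X.e j), X.sq, Algebra.algebraMap_eq_smul_one,
      smul_mul_assoc, one_mul, mul_smul_comm, h, smul_smul, smul_smul]
    congr 1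
    ring

theorem split (n : ℕ) (l : List ℕ) (hl : ∀ i ∈ l, i < n + 1) :
    ∃ (c : F) (l' : List ℕ), (∀ i ∈ l', i < n) ∧
      ((X.P l = c • X.P l' ∧ c ^ 2 * X.A l' = X.A l) ∨
        (X.P l = c • (X.P l' * X.e n) ∧ c ^ 2 * X.A l' * X.a n = X.A l)) := by
  induction l with
  | nil => exact ⟨1, [], by simp, Or.inl ⟨by simp, by simp⟩⟩
  | cons j l ih =>
    obtain ⟨c, l', hl', h⟩ := ih fun i hi => hl i (List.mem_cons_of_mem _ hi)
    have hj := hl j List.mem_cons_self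
    rcases Nat.lt_succ_iff_lt_or_eq.1 hj with hj | rfl
    · refine ⟨c, j :: l', ?_, ?_⟩
      · intro i hi
        rcases List.mem_cons.1 hi with rfl | hi
        · exact hj
        · exact hl' i hi
      · rcases h with ⟨h1, h2⟩ | ⟨h1, h2⟩
        · left
          refine ⟨by rw [P_cons, P_cons, h1, mul_smul_comm], ?_⟩
          rw [A_cons, A_cons, ← h2]; ring
        · right
          refine ⟨by rw [P_cons, P_cons, h1, mul_smul_comm, mul_assoc], ?_⟩
          rw [A_cons, A_cons, ← h2]; ring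
    · obtain ⟨ε, hε, he⟩ := X.e_comm j l'
      rcases h with ⟨h1, h2⟩ | ⟨h1, h2⟩
      · refine ⟨c * ε, l', hl', Or.inr ⟨?_, ?_⟩⟩
        · rw [P_cons, h1, mul_smul_comm, he, smul_smul]
        · rw [A_cons, ← h2, mul_pow, hε]; ring
      · refine ⟨c * ε * X.a j, l', hl', Or.inl ⟨?_, ?_⟩⟩
        · rw [P_cons, h1, mul_smul_comm, ← mul_assoc, he, smul_mul_assoc, mul_assoc, X.sq,
            Algebra.algebraMap_eq_smul_one, mul_smul_comm, mul_one, smul_smul, smul_smul]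
        · rw [A_cons, ← h2, mul_pow, mul_pow, hε]; ring

def Sm (n : ℕ) : Set D :=
  {x | ∃ (g : F) (l : List ℕ), (∀ i ∈ l, i < n) ∧ X.v (g ^ 2 * X.A l) < 1 ∧ x = g • X.P l}

def So (n : ℕ) : Set D :=
  {x | ∃ (g : F) (l : List ℕ), (∀ i ∈ l, i < n) ∧ X.v (g ^ 2 * X.A l * X.a n) < 1 ∧
    x = g • (X.P l * X.e n)}

def L (n : ℕ) : AddSubgroup D := AddSubgroup.closure (X.Sm n)
def R (n : ℕ) : AddSubgroup D := AddSubgroup.closure (X.So n)

theorem mul_closure {S T : Set D} {U : AddSubgroup D} (h : ∀ x ∈ S, ∀ y ∈ T, x * y ∈ U)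
    {x y : D} (hx : x ∈ AddSubgroup.closure S) (hy : y ∈ AddSubgroup.closure T) : x * y ∈ U := by
  induction hx using AddSubgroup.closure_induction with
  | mem x hx =>
    induction hy using AddSubgroup.closure_induction with
    | mem y hy => exact h x hx y hy
    | zero => simp
    | add y z _ _ hy hz => rw [mul_add]; exact add_mem hy hz
    | neg y _ hy => rw [mul_neg]; exact neg_mem hy
  | zero => simp
  | add x z _ _ hx hz => rw [add_mul]; exact add_mem hx hz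
  | neg x _ hx => rw [neg_mul]; exact neg_mem hx

theorem mem_app {n : ℕ} {l l' : List ℕ} (h : ∀ i ∈ l, i < n) (h' : ∀ i ∈ l', i < n) :
    ∀ i ∈ l ++ l', i < n := fun i hi => (List.mem_append.1 hi).elim (h i) (h' i)

theorem lt_one_mul {x y z : F} (hx : X.v x < 1) (hy : X.v y < 1) (h : z = x * y) : X.v z < 1 := by
  rw [h, map_mul]
  exact mul_lt_one_of_nonneg_of_lt_one_left zero_le hx hy.le

theorem LL {n : ℕ} {x y : D} (hx : x ∈ X.L n) (hy : y ∈ X.L n) : x * y ∈ X.L n := by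
  refine mul_closure ?_ hx hy
  rintro _ ⟨g, l, hl, hv, rfl⟩ _ ⟨g', l', hl', hv', rfl⟩
  refine AddSubgroup.subset_closure ⟨g * g', l ++ l', mem_app hl hl', ?_, ?_⟩
  · exact X.lt_one_mul hv hv' (by rw [A_append]; ring)
  · rw [smul_mul_smul_comm, P_append]

theorem LR {n : ℕ} {x y : D} (hx : x ∈ X.L n) (hy : y ∈ X.R n) : x * y ∈ X.R n := by
  refine mul_closure ?_ hx hy
  rintro _ ⟨g, l, hl, hv, rfl⟩ _ ⟨g', l', hl', hv', rfl⟩
  refine AddSubgroup.subset_closure ⟨g * g', l ++ l', mem_app hl hl', ?_, ?_⟩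
  · exact X.lt_one_mul hv hv' (by rw [A_append]; ring)
  · rw [smul_mul_smul_comm, P_append, mul_assoc]

theorem RR {n : ℕ} {x y : D} (hx : x ∈ X.R n) (hy : y ∈ X.R n) : x * y ∈ X.L n := by
  refine mul_closure ?_ hx hy
  rintro _ ⟨g, l, hl, hv, rfl⟩ _ ⟨g', l', hl', hv', rfl⟩
  obtain ⟨ε, hε, he⟩ := X.e_comm n l'
  refine AddSubgroup.subset_closure ⟨g * g' * ε * X.a n, l ++ l', mem_app hl hl', ?_, ?_⟩
  · exact X.lt_one_mul hv hv' (by rw [A_append, mul_pow, mul_pow, hε]; ring)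
  · rw [smul_mul_smul_comm, P_append, mul_assoc (X.P l), ← mul_assoc (X.e n), he, smul_mul_assoc,
      mul_assoc (X.P l'), X.sq, Algebra.algebraMap_eq_smul_one, mul_smul_comm, mul_smul_comm,
      mul_smul_comm, mul_one, smul_smul, smul_smul]

theorem L_le {n : ℕ} {x : D} (hx : x ∈ X.L n) : x ∈ X.L (n + 1) := by
  refine AddSubgroup.closure_mono ?_ hx
  rintro _ ⟨g, l, hl, hv, rfl⟩
  exact ⟨g, l, fun i hi => Nat.lt_succ_of_lt (hl i hi), hv, rfl⟩

theorem R_le {n : ℕ} {x : D} (hx : x ∈ X.R n) : x ∈ X.L (n + 1) := by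
  refine AddSubgroup.closure_mono ?_ hx
  rintro _ ⟨g, l, hl, hv, rfl⟩
  refine ⟨g, l ++ [n], mem_app (fun i hi => Nat.lt_succ_of_lt (hl i hi)) (by simp), ?_, ?_⟩
  · rwa [A_append, A_single, ← mul_assoc]
  · rw [P_append, P_single]

theorem L_split {n : ℕ} {x : D} (hx : x ∈ X.L (n + 1)) :
    ∃ u ∈ X.L n, ∃ r ∈ X.R n, x = u + r := by
  induction hx using AddSubgroup.closure_induction with
  | mem x hx =>
    obtain ⟨g, l, hl, hv, rfl⟩ := hx
    obtain ⟨c, l', hl', ⟨h1, h2⟩ | ⟨h1, h2⟩⟩ := X.split n l hl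
    · refine ⟨_, AddSubgroup.subset_closure ⟨g * c, l', hl', ?_, rfl⟩, 0, zero_mem _, ?_⟩
      · rwa [mul_pow, mul_assoc, h2]
      · rw [h1, smul_smul, add_zero]
    · refine ⟨0, zero_mem _, _, AddSubgroup.subset_closure ⟨g * c, l', hl', ?_, rfl⟩, ?_⟩
      · rwa [mul_pow, mul_assoc (g ^ 2), mul_assoc (g ^ 2), h2]
      · rw [h1, smul_smul, zero_add]
  | zero => exact ⟨0, zero_mem _, 0, zero_mem _, by simp⟩
  | add x y _ _ hx hy =>
    obtain ⟨u, hu, r, hr, rfl⟩ := hx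
    obtain ⟨u', hu', r', hr', rfl⟩ := hy
    exact ⟨u + u', add_mem hu hu', r + r', add_mem hr hr', by abel⟩
  | neg x _ hx =>
    obtain ⟨u, hu, r, hr, rfl⟩ := hx
    exact ⟨-u, neg_mem hu, -r, neg_mem hr, by abel⟩

theorem L_zero {x : D} (hx : x ∈ X.L 0) : ∃ s : F, X.v s < 1 ∧ x = s • (1 : D) := by
  induction hx using AddSubgroup.closure_induction with
  | mem x hx =>
    obtain ⟨g, l, hl, hv, rfl⟩ := hx
    obtain rfl : l = [] := List.eq_nil_iff_forall_not_mem.2 fun i hi => absurd (hl i hi) (by simp)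
    refine ⟨g, ?_, rfl⟩
    rw [A_nil, mul_one, map_pow] at hv
    exact (pow_lt_one_iff_of_nonneg zero_le two_ne_zero).1 hv
  | zero => exact ⟨0, by simp, by simp⟩
  | add x y _ _ hx hy =>
    obtain ⟨s, hs, rfl⟩ := hx
    obtain ⟨t, ht, rfl⟩ := hy
    exact ⟨s + t, X.v.map_add_lt hs ht, by rw [add_smul]⟩
  | neg x _ hx =>
    obtain ⟨s, hs, rfl⟩ := hx
    exact ⟨-s, by rwa [Valuation.map_neg], by rw [neg_smul]⟩

theorem inv_L (n : ℕ) : ∀ y ∈ X.L n, ∃ y' ∈ X.L n, (1 + y') * (1 + y) = 1 := by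
  induction n with
  | zero =>
    intro y hy
    obtain ⟨s, hs, rfl⟩ := X.L_zero hy
    have h1 : X.v (1 + s) = 1 := X.v.map_one_add_of_lt hs
    have h2 : 1 + s ≠ 0 := by
      intro h
      rw [h, map_zero] at h1
      exact zero_ne_one h1
    refine ⟨(-s / (1 + s)) • (1 : D), AddSubgroup.subset_closure ⟨_, [], by simp, ?_, rfl⟩, ?_⟩
    · rw [A_nil, mul_one, map_pow, map_div₀, h1, div_one, Valuation.map_neg]
      exact (pow_lt_one_iff_of_nonneg zero_le two_ne_zero).2 hs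
    · have : ∀ t : F, (1 : D) + t • (1 : D) = (1 + t) • (1 : D) := fun t => by
        rw [add_smul, one_smul]
      rw [this, this, smul_mul_smul_comm, mul_one]
      have : (1 + -s / (1 + s)) * (1 + s) = 1 := by field_simp; ring
      rw [this, one_smul]
  | succ n ih =>
    intro y hy
    obtain ⟨u, hu, r, hr, rfl⟩ := X.L_split hy
    obtain ⟨u', hu', h1⟩ := ih u hu
    obtain ⟨r', hr'⟩ : ∃ r', r' = r + u' * r := ⟨_, rfl⟩
    have hr'' : r' ∈ X.R n := hr' ▸ add_mem hr (X.LR hu' hr)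
    obtain ⟨w, hw, h2⟩ := ih (-(r' * r')) (neg_mem (X.RR hr'' hr''))
    have h3 : (1 + u') * (1 + (u + r)) = 1 + r' := by
      rw [← add_assoc, mul_add (1 + u'), h1, hr', add_mul, one_mul]
    have m1 := X.L_le hw
    have m2 := X.R_le hr''
    have m3 := X.L_le hu'
    refine ⟨(1 + w) * (1 - r') * (1 + u') - 1, ?_, ?_⟩
    · have : (1 + w) * (1 - r') * (1 + u') - 1 =
          w - r' - w * r' + u' + w * u' - r' * u' - w * r' * u' := by noncomm_ring
      rw [this]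
      exact sub_mem (sub_mem (add_mem (add_mem (sub_mem (sub_mem m1 m2) (X.LL m1 m2)) m3)
        (X.LL m1 m3)) (X.LL m2 m3)) (X.LL (X.LL m1 m2) m3)
    · have h4 : (1 - r') * (1 + r') = 1 + -(r' * r') := by noncomm_ring
      rw [add_sub_cancel, mul_assoc, h3, mul_assoc, h4, h2]

theorem L_conj {n : ℕ} (m : ℕ) {y : D} (hy : y ∈ X.L n) : ∃ y' ∈ X.L n, y * X.e m = X.e m * y' := by
  induction hy using AddSubgroup.closure_induction with
  | mem x hx =>
    obtain ⟨g, l, hl, hv, rfl⟩ := hx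
    obtain ⟨ε, hε, he⟩ := X.e_comm m l
    refine ⟨_, AddSubgroup.subset_closure ⟨g * ε, l, hl, ?_, rfl⟩, ?_⟩
    · rwa [mul_pow, hε, mul_one]
    · rw [mul_smul_comm, he, smul_smul, mul_assoc, ← pow_two, hε, mul_one, smul_mul_assoc]
  | zero => exact ⟨0, zero_mem _, by simp⟩
  | add x y _ _ hx hy =>
    obtain ⟨x', hx', h⟩ := hx
    obtain ⟨y', hy', h'⟩ := hy
    exact ⟨x' + y', add_mem hx' hy', by rw [add_mul, mul_add, h, h']⟩
  | neg x _ hx =>
    obtain ⟨x', hx', h⟩ := hx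
    exact ⟨-x', neg_mem hx', by rw [neg_mul, mul_neg, h]⟩

def Dn (n : ℕ) : Submodule F D := Submodule.span F {x | ∃ l : List ℕ, (∀ i ∈ l, i < n) ∧ x = X.P l}

theorem Dn_split {n : ℕ} {x : D} (hx : x ∈ X.Dn (n + 1)) :
    ∃ u ∈ X.Dn n, ∃ w ∈ X.Dn n, x = u + w * X.e n := by
  induction hx using Submodule.span_induction with
  | mem x hx =>
    obtain ⟨l, hl, rfl⟩ := hx
    obtain ⟨c, l', hl', ⟨h1, _⟩ | ⟨h1, _⟩⟩ := X.split n l hl
    · exact ⟨_, Submodule.smul_mem _ c (Submodule.subset_span ⟨l', hl', rfl⟩), 0, zero_mem _,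
        by rw [h1]; simp⟩
    · exact ⟨0, zero_mem _, _, Submodule.smul_mem _ c (Submodule.subset_span ⟨l', hl', rfl⟩),
        by rw [h1]; simp⟩
  | zero => exact ⟨0, zero_mem _, 0, zero_mem _, by simp⟩
  | add x y _ _ hx hy =>
    obtain ⟨u, hu, r, hr, rfl⟩ := hx
    obtain ⟨u', hu', r', hr', rfl⟩ := hy
    exact ⟨u + u', add_mem hu hu', r + r', add_mem hr hr', by rw [add_mul]; abel⟩
  | smul c x _ hx =>
    obtain ⟨u, hu, r, hr, rfl⟩ := hx
    exact ⟨c • u, Submodule.smul_mem _ c hu, c • r, Submodule.smul_mem _ c hr,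
      by rw [smul_add, smul_mul_assoc]⟩

theorem Dn_zero {x : D} (hx : x ∈ X.Dn 0) : ∃ s : F, x = s • (1 : D) := by
  have : X.Dn 0 ≤ Submodule.span F {(1 : D)} := by
    refine Submodule.span_le.2 ?_
    rintro _ ⟨l, hl, rfl⟩
    obtain rfl : l = [] := List.eq_nil_iff_forall_not_mem.2 fun i hi => absurd (hl i hi) (by simp)
    exact Submodule.subset_span rfl
  obtain ⟨s, hs⟩ := Submodule.mem_span_singleton.1 (this hx)
  exact ⟨s, hs.symm⟩

theorem merge {n : ℕ} {g g' : F} {l l' : List ℕ} {y y' : D} (hg : g ≠ 0)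
    (hl : ∀ i ∈ l, i < n) (hl' : ∀ i ∈ l', i < n) (hy : y ∈ X.L n) (hy' : y' ∈ X.L n)
    (hv : X.v (g' ^ 2 * X.A l') < X.v (g ^ 2 * X.A l)) :
    ∃ z ∈ X.L n, g • X.P l * (1 + y) + g' • X.P l' * (1 + y') = g • X.P l * (1 + z) := by
  obtain ⟨ε, hε, he⟩ := X.P_sq l
  have hA := X.A_ne l
  have hε0 : ε ≠ 0 := by rintro rfl; simp at hε
  obtain ⟨m, hm⟩ : ∃ m, m = (g' / (g * ε * X.A l)) • X.P (l ++ l') := ⟨_, rfl⟩
  have hmL : m ∈ X.L n := by
    refine AddSubgroup.subset_closure ⟨_, _, mem_app hl hl', ?_, hm⟩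
    have : (g' / (g * ε * X.A l)) ^ 2 * X.A (l ++ l') = (g' ^ 2 * X.A l') / (g ^ 2 * X.A l) := by
      rw [A_append, div_pow, mul_pow, mul_pow, hε]
      field_simp
    rw [this, map_div₀]
    exact (div_lt_one₀ (lt_of_le_of_lt zero_le hv)).2 hv
  have hm2 : g • X.P l * m = g' • X.P l' := by
    rw [hm, smul_mul_smul_comm, P_append, ← mul_assoc, he, smul_mul_assoc, one_mul, smul_smul]
    congr 1
    field_simp
  refine ⟨y + (m + m * y'), add_mem hy (add_mem hmL (X.LL hmL hy')), ?_⟩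
  rw [← hm2]
  noncomm_ring

theorem normal (n : ℕ) : ∀ x ∈ X.Dn n, x ≠ 0 → ∃ (g : F) (l : List ℕ) (y : D), g ≠ 0 ∧
    (∀ i ∈ l, i < n) ∧ y ∈ X.L n ∧ x = g • X.P l * (1 + y) := by
  induction n with
  | zero =>
    intro x hx hx0
    obtain ⟨s, rfl⟩ := X.Dn_zero hx
    refine ⟨s, [], 0, ?_, by simp, zero_mem _, by simp [P_nil]⟩
    rintro rfl
    simp at hx0
  | succ n ih =>
    intro x hx hx0
    obtain ⟨u, hu, w, hw, rfl⟩ := X.Dn_split hx
    have up : ∀ {l : List ℕ}, (∀ i ∈ l, i < n) → ∀ i ∈ l, i < n + 1 :=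
      fun hl i hi => Nat.lt_succ_of_lt (hl i hi)
    by_cases hw0 : w = 0
    · subst hw0
      obtain ⟨g, l, y, hg, hl, hy, h⟩ := ih u hu (by simpa using hx0)
      exact ⟨g, l, y, hg, up hl, X.L_le hy, by simpa using h⟩
    obtain ⟨g', l', y', hg', hl', hy', rfl⟩ := ih w hw hw0
    obtain ⟨y'', hy'', h⟩ := X.L_conj n hy'
    have h2 : g' • X.P l' * (1 + y') * X.e n = g' • X.P (l' ++ [n]) * (1 + y'') := by
      rw [P_append, P_single, mul_assoc, add_mul, h, ← smul_mul_assoc, mul_assoc, mul_add (X.e n),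
        one_mul, mul_one]
    have hl'' : ∀ i ∈ l' ++ [n], i < n + 1 := mem_app (up hl') (by simp)
    rw [h2]
    by_cases hu0 : u = 0
    · exact ⟨g', _, y'', hg', hl'', X.L_le hy'', by rw [hu0, zero_add]⟩
    obtain ⟨g, l, y, hg, hl, hy, rfl⟩ := ih u hu hu0
    rcases lt_trichotomy (X.v (g' ^ 2 * X.A (l' ++ [n]))) (X.v (g ^ 2 * X.A l)) with hv | hv | hv
    · obtain ⟨z, hz, h3⟩ := X.merge hg (up hl) hl'' (X.L_le hy) (X.L_le hy'') hv
      exact ⟨g, l, z, hg, up hl, hz, h3⟩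
    · exfalso
      have hA := X.A_ne l
      apply X.indep n (g' / (g * X.A l)) (l ++ l') (div_ne_zero hg' (mul_ne_zero hg hA))
        (mem_app hl hl')
      have : (g' / (g * X.A l)) ^ 2 * ((l ++ l').map X.a).prod * X.a n =
          (g' ^ 2 * X.A (l' ++ [n])) / (g ^ 2 * X.A l) := by
        change _ * X.A (l ++ l') * _ = _
        rw [A_append, A_append, A_single]
        field_simp
      rw [this, map_div₀, hv, div_self]
      exact (Valuation.ne_zero_iff _).2 (mul_ne_zero (pow_ne_zero 2 hg) hA)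
    · obtain ⟨z, hz, h3⟩ := X.merge hg' hl'' (up hl) (X.L_le hy'') (X.L_le hy) hv
      exact ⟨g', _, z, hg', hl'', hz, by rw [add_comm, h3]⟩

theorem left_inv {n : ℕ} {x : D} (hx : x ∈ X.Dn n) (hx0 : x ≠ 0) : ∃ z, z * x = 1 := by
  obtain ⟨g, l, y, hg, _, hy, rfl⟩ := X.normal n x hx hx0
  obtain ⟨y', _, h⟩ := X.inv_L n y hy
  obtain ⟨ε, hε, he⟩ := X.P_sq l
  have hA := X.A_ne l
  have hε0 : ε ≠ 0 := by rintro rfl; simp at hε
  refine ⟨(1 + y') * ((g * ε * X.A l)⁻¹ • X.P l), ?_⟩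
  rw [mul_assoc, ← mul_assoc _ (g • X.P l), smul_mul_smul_comm, he, smul_smul]
  have : (g * ε * X.A l)⁻¹ * g * (ε * X.A l) = 1 := by field_simp
  rw [this, one_smul, one_mul, h]

theorem Dn_mono {n m : ℕ} (h : n ≤ m) : X.Dn n ≤ X.Dn m :=
  Submodule.span_mono fun _ ⟨l, hl, hx⟩ => ⟨l, fun i hi => lt_of_lt_of_le (hl i hi) h, hx⟩

theorem Dn_mul {n : ℕ} (x y : D) (hx : x ∈ X.Dn n) (hy : y ∈ X.Dn n) : x * y ∈ X.Dn n := by
  induction hx using Submodule.span_induction with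
  | mem x hx =>
    obtain ⟨l, hl, rfl⟩ := hx
    induction hy using Submodule.span_induction with
    | mem y hy =>
      obtain ⟨l', hl', rfl⟩ := hy
      exact Submodule.subset_span ⟨l ++ l', mem_app hl hl', (X.P_append _ _).symm⟩
    | zero => simp
    | add y z _ _ hy hz => rw [mul_add]; exact add_mem hy hz
    | smul c y _ hy => rw [mul_smul_comm]; exact Submodule.smul_mem _ _ hy
  | zero => simp
  | add x z _ _ hx hz => rw [add_mul]; exact add_mem hx hz
  | smul c x _ hx => rw [smul_mul_assoc]; exact Submodule.smul_mem _ _ hx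

theorem one_mem_Dn (n : ℕ) : (1 : D) ∈ X.Dn n := Submodule.subset_span ⟨[], by simp, rfl⟩

theorem Dn_fg (n : ℕ) : (X.Dn n).FG := by
  induction n with
  | zero =>
    have : X.Dn 0 = Submodule.span F {(1 : D)} := by
      apply le_antisymm
      · intro x hx
        obtain ⟨s, rfl⟩ := X.Dn_zero hx
        exact Submodule.smul_mem _ _ (Submodule.subset_span rfl)
      · exact (Submodule.span_singleton_le_iff_mem _ _).2 (X.one_mem_Dn 0)
    rw [this]
    exact Submodule.fg_span_singleton _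
  | succ n ih =>
    have h := (ih.sup (ih.map (LinearMap.mulRight F (X.e n))))
    have : FiniteDimensional F ↥(X.Dn n ⊔ (X.Dn n).map (LinearMap.mulRight F (X.e n))) :=
      Module.Finite.iff_fg.2 h
    have h2 : X.Dn (n + 1) ≤ X.Dn n ⊔ (X.Dn n).map (LinearMap.mulRight F (X.e n)) := by
      intro x hx
      obtain ⟨u, hu, w, hw, rfl⟩ := X.Dn_split hx
      exact Submodule.add_mem_sup hu ⟨w, hw, rfl⟩
    exact Module.Finite.iff_fg.1 (Submodule.finiteDimensional_of_le h2)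

theorem integral {n : ℕ} {x : D} (hx : x ∈ X.Dn n) : IsIntegral F x :=
  IsIntegral.of_mem_of_fg ((X.Dn n).toSubalgebra (X.one_mem_Dn n) X.Dn_mul) (X.Dn_fg n) x hx

end Data

end Pool.Agent.H22.Cliff
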