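import Pool.Agent.H22.Cliff1

set_option autoImplicit false

namespace Pool.Agent.H22.Cliff

open Finset

abbrev G : Type := Lex (ℕ →₀ ℤ)
abbrev K : Type := HahnSeries G ℚ

instance : CharZero K := algebraRat.charZero K

noncomputable instance : Invertible (2 : K) := invertibleOfNonzero two_ne_zero

noncomputable def vv : Valuation K (Multiplicative (WithTop G)ᵒᵈ) :=
  AddValuation.toValuation (HahnSeries.addVal G ℚ)

theorem vv_eq_one {x : K} (hx : x ≠ 0) : vv x = 1 ↔ x.order = 0 := by
  rw [vv, AddValuation.toValuation_apply, HahnSeries.addVal_apply_of_ne hx]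
  constructor
  · intro h
    have h' : ((x.order : G) : WithTop G) = ((0 : G) : WithTop G) := h
    exact WithTop.coe_injective h'
  · intro h
    rw [h]
    rfl

noncomputable def gam (n : ℕ) : G := toLex (Finsupp.single n 1)

noncomputable def tt (n : ℕ) : K := HahnSeries.single (gam n - gam (n + 1)) 1

theorem gam_pos (n : ℕ) : 0 < gam n - gam (n + 1) := by
  rw [sub_pos, Finsupp.Lex.lt_iff]
  refine ⟨n, fun j hj => ?_, ?_⟩
  · simp [gam, Finsupp.single_apply, hj.ne', (show n + 1 ≠ j by omega)]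
  · simp [gam]

theorem tt_ne (n : ℕ) : tt n ≠ 0 := HahnSeries.single_ne_zero one_ne_zero

theorem tt_order (n : ℕ) : (tt n).order = gam n - gam (n + 1) :=
  HahnSeries.order_single one_ne_zero

theorem vv_tt (n : ℕ) : vv (tt n) < 1 := by
  rw [vv, AddValuation.toValuation_apply, HahnSeries.addVal_apply_of_ne (tt_ne n), tt_order]
  have h : ((0 : G) : WithTop G) < ((gam n - gam (n + 1) : G) : WithTop G) :=
    WithTop.coe_lt_coe.2 (gam_pos n)
  exact h

theorem vv_two : vv 2 = 1 := by
  rw [vv_eq_one two_ne_zero]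
  have : (2 : K) = HahnSeries.single 0 2 := by
    rw [← HahnSeries.C_apply, map_ofNat]
  rw [this]
  exact HahnSeries.order_single two_ne_zero

noncomputable def cc : ℕ → K
  | 0 => 1
  | n + 1 => 1 + tt n

theorem vv_cc (n : ℕ) : vv (cc n) = 1 := by
  cases n with
  | zero => exact map_one _
  | succ n => exact vv.map_one_add_of_lt (vv_tt n)

theorem ne_of_vv {x : K} (h : vv x = 1) : x ≠ 0 := by
  rintro rfl
  rw [map_zero] at h
  exact zero_ne_one h

theorem cc_ne (n : ℕ) : cc n ≠ 0 := ne_of_vv (vv_cc n)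

theorem vv_two_add (n : ℕ) : vv (2 + tt n) = 1 := by
  rw [vv.map_add_eq_of_lt_left (by rw [vv_two]; exact vv_tt n), vv_two]

noncomputable def aa : ℕ → K
  | 0 => HahnSeries.single (-gam 0) 1
  | n + 1 => tt n * (2 + tt n) * aa n / cc n ^ 2

theorem aa_ne (n : ℕ) : aa n ≠ 0 := by
  induction n with
  | zero => exact HahnSeries.single_ne_zero one_ne_zero
  | succ n ih =>
    exact div_ne_zero (mul_ne_zero (mul_ne_zero (tt_ne n) (ne_of_vv (vv_two_add n))) ih)
      (pow_ne_zero 2 (cc_ne n))

theorem aa_order (n : ℕ) : (aa n).order = -gam n := by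
  induction n with
  | zero => exact HahnSeries.order_single one_ne_zero
  | succ n ih =>
    have h2 := ne_of_vv (vv_two_add n)
    have h1 : aa (n + 1) * (cc n * cc n) = tt n * (2 + tt n) * aa n := by
      have := cc_ne n
      rw [aa]
      field_simp
    have h3 := congrArg HahnSeries.order h1
    rw [HahnSeries.order_mul (aa_ne _) (mul_ne_zero (cc_ne n) (cc_ne n)),
      HahnSeries.order_mul (cc_ne n) (cc_ne n), (vv_eq_one (cc_ne n)).1 (vv_cc n),
      HahnSeries.order_mul (mul_ne_zero (tt_ne n) h2) (aa_ne n),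
      HahnSeries.order_mul (tt_ne n) h2, (vv_eq_one h2).1 (vv_two_add n), ih, tt_order] at h3
    rw [add_zero, add_zero] at h3
    rw [h3]
    abel

theorem prod_order (n : ℕ) (l : List ℕ) (hl : ∀ i ∈ l, i < n) :
    (l.map aa).prod ≠ 0 ∧ ofLex ((l.map aa).prod).order n = 0 := by
  induction l with
  | nil => simp
  | cons j l ih =>
    obtain ⟨h1, h2⟩ := ih fun i hi => hl i (List.mem_cons_of_mem _ hi)
    have hj := hl j List.mem_cons_self
    rw [List.map_cons, List.prod_cons]
    refine ⟨mul_ne_zero (aa_ne j) h1, ?_⟩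
    rw [HahnSeries.order_mul (aa_ne j) h1, aa_order, ofLex_add, Finsupp.add_apply, h2]
    simp [gam, Finsupp.single_apply, hj.ne]

theorem indep (n : ℕ) (g : K) (l : List ℕ) (hg : g ≠ 0) (hl : ∀ i ∈ l, i < n) :
    vv (g ^ 2 * (l.map aa).prod * aa n) ≠ 1 := by
  obtain ⟨h1, h2⟩ := prod_order n l hl
  have h3 : g ^ 2 * (l.map aa).prod ≠ 0 := mul_ne_zero (pow_ne_zero 2 hg) h1
  rw [Ne, vv_eq_one (mul_ne_zero h3 (aa_ne n)), HahnSeries.order_mul h3 (aa_ne n),
    HahnSeries.order_mul (pow_ne_zero 2 hg) h1, pow_two, HahnSeries.order_mul hg hg, aa_order]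
  intro h
  have h4 := congrArg (fun x : G => ofLex x n) h
  simp only [ofLex_add, Finsupp.add_apply, h2, gam, ofLex_neg, ofLex_toLex, Finsupp.neg_apply,
    Finsupp.single_eq_same, ofLex_zero, Finsupp.zero_apply] at h4
  omega

abbrev V : Type := ℕ →₀ K

noncomputable def BB : LinearMap.BilinForm K V :=
  Finsupp.linearCombination K fun i => aa i • Finsupp.lapply i

theorem BB_single (i : ℕ) (y : V) : BB (Finsupp.single i 1) y = aa i * y i := by
  simp [BB]

noncomputable def QQ : QuadraticForm K V := BB.toQuadraticMap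

abbrev DD : Type := CliffordAlgebra QQ

noncomputable def X : Data K DD (Multiplicative (WithTop G)ᵒᵈ) where
  v := vv
  a := aa
  e := fun i => CliffordAlgebra.ι QQ (Finsupp.single i 1)
  a_ne := aa_ne
  sq := fun i => by
    rw [CliffordAlgebra.ι_sq_scalar]
    congr 1
    change BB _ _ = _
    rw [BB_single]
    simp
  anti := fun i j hij => by
    have h : QuadraticMap.polar QQ (Finsupp.single i 1) (Finsupp.single j 1) = 0 := by
      rw [QQ, LinearMap.BilinMap.polar_toQuadraticMap, BB_single, BB_single]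
      simp [hij, hij.symm]
    rw [eq_neg_iff_add_eq_zero, CliffordAlgebra.ι_mul_ι_add_swap, h, map_zero]
  indep := indep

theorem mem_Dn (x : DD) : ∃ n, x ∈ X.Dn n := by
  induction x using CliffordAlgebra.induction with
  | algebraMap r =>
    refine ⟨0, ?_⟩
    rw [Algebra.algebraMap_eq_smul_one]
    exact Submodule.smul_mem _ _ (X.one_mem_Dn 0)
  | ι v =>
    induction v using Finsupp.induction_linear with
    | zero => exact ⟨0, by simp⟩
    | add f g hf hg =>
      obtain ⟨n, hn⟩ := hf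
      obtain ⟨m, hm⟩ := hg
      refine ⟨max n m, ?_⟩
      rw [map_add]
      exact add_mem (X.Dn_mono (le_max_left _ _) hn) (X.Dn_mono (le_max_right _ _) hm)
    | single i c =>
      refine ⟨i + 1, ?_⟩
      rw [← mul_one c, ← smul_eq_mul, ← Finsupp.smul_single, map_smul]
      exact Submodule.smul_mem _ _ (Submodule.subset_span ⟨[i], by simp, (X.P_single i).symm⟩)
  | mul a b ha hb =>
    obtain ⟨n, hn⟩ := ha
    obtain ⟨m, hm⟩ := hb
    exact ⟨max n m, X.Dn_mul _ _ (X.Dn_mono (le_max_left _ _) hn) (X.Dn_mono (le_max_right _ _) hm)⟩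
  | add a b ha hb =>
    obtain ⟨n, hn⟩ := ha
    obtain ⟨m, hm⟩ := hb
    exact ⟨max n m, add_mem (X.Dn_mono (le_max_left _ _) hn) (X.Dn_mono (le_max_right _ _) hm)⟩

theorem DD_left_inv (x : DD) (hx : x ≠ 0) : ∃ z, z * x = 1 := by
  obtain ⟨n, hn⟩ := mem_Dn x
  exact X.left_inv hn hx

theorem DD_inv (x : DD) (hx : x ≠ 0) : ∃ z, z * x = 1 ∧ x * z = 1 := by
  obtain ⟨z, hz⟩ := DD_left_inv x hx
  have hz0 : z ≠ 0 := by
    rintro rfl
    simp at hz
  obtain ⟨w, hw⟩ := DD_left_inv z hz0
  have : w = x := by rw [← mul_one w, ← hz, ← mul_assoc, hw, one_mul]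
  exact ⟨z, hz, this ▸ hw⟩

theorem DD_integral (x : DD) : IsIntegral K x := by
  obtain ⟨n, hn⟩ := mem_Dn x
  exact X.integral hn

noncomputable def uu (n : ℕ) : V := ∑ i ∈ range (n + 1), Finsupp.single i (aa i)⁻¹

theorem uu_apply (n j : ℕ) : uu n j = if j ≤ n then (aa j)⁻¹ else 0 := by
  rw [uu, Finsupp.finsetSum_apply]
  simp only [Finsupp.single_apply, sum_ite_eq', mem_range, Nat.lt_succ_iff]

noncomputable def lam : V →ₗ[K] K := Finsupp.linearCombination K fun _ => 1

theorem lam_uu (n : ℕ) : lam (uu n) = cc n ^ 2 / aa n := by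
  induction n with
  | zero => simp [uu, lam, cc]
  | succ n ih =>
    have : uu (n + 1) = uu n + Finsupp.single (n + 1) (aa (n + 1))⁻¹ := by
      rw [uu, sum_range_succ, uu]
    rw [this, map_add, ih]
    have h1 := cc_ne n
    have h2 := aa_ne n
    have h3 := tt_ne n
    have h4 := ne_of_vv (vv_two_add n)
    simp only [lam, Finsupp.linearCombination_single, smul_eq_mul, mul_one, aa, cc]
    field_simp
    ring

noncomputable def ff (n : ℕ) : V := uu n - Finsupp.single (n + 1) (cc n ^ 2 / aa n)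

theorem lam_ff (n : ℕ) : lam (ff n) = 0 := by
  rw [ff, map_sub, lam_uu]
  simp [lam]

theorem BB_symm (x y : V) : BB x y = BB y x := by
  have : BB = BB.flip := by
    apply Finsupp.lhom_ext'
    intro i
    apply LinearMap.ext_ring
    apply Finsupp.lhom_ext'
    intro j
    apply LinearMap.ext_ring
    change BB (Finsupp.single i 1) (Finsupp.single j 1) = BB (Finsupp.single j 1) (Finsupp.single i 1)
    rw [BB_single, BB_single]
    by_cases h : i = j
    · rw [h]
    · simp [h, Ne.symm h]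
  conv_lhs => rw [this]
  rfl

theorem BB_single' (i : ℕ) (c : K) (y : V) : BB (Finsupp.single i c) y = c * (aa i * y i) := by
  rw [← mul_one c, ← smul_eq_mul, ← Finsupp.smul_single, map_smul, LinearMap.smul_apply, BB_single]
  simp

theorem BB_uu (m n : ℕ) (h : m ≤ n) : BB (uu m) (uu n) = lam (uu m) := by
  rw [uu, map_sum, map_sum, LinearMap.sum_apply]
  refine sum_congr rfl fun i hi => ?_
  have := mem_range.1 hi
  rw [BB_single', uu_apply, if_pos (by omega), mul_inv_cancel₀ (aa_ne i)]
  simp [lam]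

theorem BB_ff_lt (m n : ℕ) (h : m < n) : BB (ff m) (ff n) = 0 := by
  have h1 : BB (ff m) (uu n) = 0 := by
    rw [ff, map_sub, LinearMap.sub_apply, BB_uu m n h.le, lam_uu, BB_single', uu_apply,
      if_pos (by omega), mul_inv_cancel₀ (aa_ne _), mul_one, sub_self]
  rw [ff.eq_1 n, map_sub, h1, BB_symm, BB_single', ff, Finsupp.sub_apply, uu_apply,
    if_neg (by omega), Finsupp.single_apply, if_neg (by omega)]
  simp

theorem BB_ff_self (n : ℕ) : BB (ff n) (ff n) = cc n ^ 2 * cc (n + 1) ^ 2 / aa n := by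
  have h1 : BB (ff n) (uu n) = cc n ^ 2 / aa n := by
    rw [ff, map_sub, LinearMap.sub_apply, BB_uu n n le_rfl, lam_uu, BB_single', uu_apply,
      if_neg (by omega)]
    simp
  conv_lhs => arg 2; rw [ff]
  rw [map_sub, h1, BB_symm, BB_single', ff, Finsupp.sub_apply, uu_apply, if_neg (by omega),
    Finsupp.single_eq_same]
  have h1 := cc_ne n
  have h2 := aa_ne n
  rw [aa, cc]
  field_simp
  ring

noncomputable def phi : V →ₗ[K] V :=
  Finsupp.linearCombination K fun n => (aa n / (cc n * cc (n + 1))) • ff n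

theorem BB_phi (x y : V) : BB (phi x) (phi y) = BB x y := by
  have : BB.compl₁₂ phi phi = BB := by
    apply Finsupp.lhom_ext'
    intro i
    apply LinearMap.ext_ring
    apply Finsupp.lhom_ext'
    intro j
    apply LinearMap.ext_ring
    change BB (phi (Finsupp.single i 1)) (phi (Finsupp.single j 1)) =
      BB (Finsupp.single i 1) (Finsupp.single j 1)
    rw [BB_single]
    simp only [phi, Finsupp.linearCombination_single, one_smul, map_smul, LinearMap.smul_apply,
      smul_eq_mul]
    rcases lt_trichotomy i j with h | rfl | h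
    · rw [BB_ff_lt i j h]
      simp [h.ne']
    · rw [BB_ff_self]
      have h1 := cc_ne i
      have h2 := aa_ne i
      have h3 := cc_ne (i + 1)
      rw [Finsupp.single_eq_same]
      field_simp
    · rw [BB_symm, BB_ff_lt j i h]
      simp [h.ne]
  conv_rhs => rw [← this]
  rfl

theorem lam_phi (x : V) : lam (phi x) = 0 := by
  have : lam ∘ₗ phi = 0 := by
    apply Finsupp.lhom_ext'
    intro i
    apply LinearMap.ext_ring
    change lam (phi (Finsupp.single i 1)) = 0
    simp [phi, lam_ff]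
  exact LinearMap.congr_fun this x

noncomputable def sig : DD →ₐ[K] DD :=
  CliffordAlgebra.lift QQ ⟨CliffordAlgebra.ι QQ ∘ₗ phi, fun m => by
    rw [LinearMap.comp_apply, CliffordAlgebra.ι_sq_scalar]
    congr 1
    exact BB_phi m m⟩

theorem sig_ι (m : V) : sig (CliffordAlgebra.ι QQ m) = CliffordAlgebra.ι QQ (phi m) :=
  CliffordAlgebra.lift_ι_apply _ _ m

theorem contract_sig (x : DD) : CliffordAlgebra.contractLeft (Q := QQ) lam (sig x) = 0 := by
  induction x using CliffordAlgebra.left_induction with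
  | algebraMap r => rw [AlgHom.commutes, CliffordAlgebra.contractLeft_algebraMap]
  | add x y hx hy => rw [map_add, map_add, hx, hy, add_zero]
  | ι_mul x m hx =>
    rw [map_mul, sig_ι, CliffordAlgebra.contractLeft_ι_mul, lam_phi, hx]
    simp

theorem sig_not_surj (x : DD) : sig x ≠ X.e 0 := by
  intro h
  have h1 := contract_sig x
  rw [h] at h1
  change CliffordAlgebra.contractLeft (Q := QQ) lam (CliffordAlgebra.ι QQ _) = 0 at h1
  rw [CliffordAlgebra.contractLeft_ι] at h1
  simp [lam] at h1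

@[ext] structure AA : Type where
  d : DD
  n : DD

noncomputable instance : Add AA := ⟨fun x y => ⟨x.d + y.d, x.n + y.n⟩⟩
noncomputable instance : Neg AA := ⟨fun x => ⟨-x.d, -x.n⟩⟩
noncomputable instance : Zero AA := ⟨⟨0, 0⟩⟩
noncomputable instance : One AA := ⟨⟨1, 0⟩⟩
noncomputable instance : Mul AA := ⟨fun x y => ⟨x.d * y.d, sig x.d * y.n + x.n * y.d⟩⟩

theorem add_def (x y : AA) : x + y = ⟨x.d + y.d, x.n + y.n⟩ := rfl
theorem neg_def (x : AA) : -x = ⟨-x.d, -x.n⟩ := rfl
theorem zero_def : (0 : AA) = ⟨0, 0⟩ := rfl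
theorem one_def : (1 : AA) = ⟨1, 0⟩ := rfl
theorem mul_def (x y : AA) : x * y = ⟨x.d * y.d, sig x.d * y.n + x.n * y.d⟩ := rfl

noncomputable instance : Ring AA := Ring.ofMinimalAxioms
  (fun a b c => by ext <;> simp [add_def, add_assoc])
  (fun a => by ext <;> simp [add_def, zero_def])
  (fun a => by ext <;> simp [add_def, neg_def, zero_def])
  (fun a b c => by
    ext
    · simp [mul_def, mul_assoc]
    · simp only [mul_def, map_mul]; noncomm_ring)
  (fun a => by ext <;> simp [mul_def, one_def])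
  (fun a => by ext <;> simp [mul_def, one_def])
  (fun a b c => by
    ext
    · simp [mul_def, add_def, mul_add]
    · simp only [mul_def, add_def]; noncomm_ring)
  (fun a b c => by
    ext
    · simp [mul_def, add_def, add_mul]
    · simp only [mul_def, add_def, map_add]; noncomm_ring)

noncomputable def inc : K →+* AA where
  toFun s := ⟨algebraMap K DD s, 0⟩
  map_one' := by ext <;> simp [one_def]
  map_mul' a b := by ext <;> simp [mul_def]
  map_zero' := by ext <;> simp [zero_def]
  map_add' a b := by ext <;> simp [add_def]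

theorem inc_comm (s : K) (x : AA) : inc s * x = x * inc s := by
  ext
  · exact Algebra.commutes s x.d
  · change sig (algebraMap K DD s) * x.n + 0 * x.d = sig x.d * 0 + x.n * algebraMap K DD s
    rw [AlgHom.commutes, Algebra.commutes]
    simp

noncomputable instance : Algebra K AA := inc.toAlgebra' inc_comm

noncomputable def fstA : AA →ₐ[K] DD where
  toFun := AA.d
  map_one' := rfl
  map_mul' _ _ := rfl
  map_zero' := rfl
  map_add' _ _ := rfl
  commutes' _ := rfl

theorem AA_integral (x : AA) : ∃ p : Polynomial (Subring.center AA),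
    p.Monic ∧ Polynomial.eval₂ (Subring.center AA).subtype x p = 0 := by
  obtain ⟨p, hp, h⟩ := DD_integral x.d
  have h1 : (Polynomial.aeval x p).d = 0 := by
    change fstA (Polynomial.aeval x p) = 0
    rw [← Polynomial.aeval_algHom_apply]
    exact h
  have h2 : Polynomial.aeval x (p * p) = 0 := by
    rw [map_mul]
    ext <;> simp [mul_def, zero_def, h1]
  let φ : K →+* Subring.center AA := inc.codRestrict _ fun s =>
    Subring.mem_center_iff.2 fun g => (inc_comm s g).symm
  refine ⟨(p * p).map φ, (hp.mul hp).map φ, ?_⟩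
  rw [Polynomial.eval₂_map]
  exact h2

theorem div_right (x y : AA) (h : y.d ≠ 0) : ∃ z, x = y * z := by
  obtain ⟨w, _, hw⟩ := DD_inv y.d h
  refine ⟨⟨w * x.d, sig w * (x.n - y.n * (w * x.d))⟩, ?_⟩
  ext
  · simp [mul_def, ← mul_assoc, hw]
  · simp only [mul_def]
    rw [← mul_assoc, ← map_mul, hw, map_one, one_mul, sub_add_cancel]

theorem chain (x y : AA) : (∃ z, x = y * z) ∨ ∃ z, y = x * z := by
  by_cases hy : y.d = 0
  · by_cases hx : x.d = 0
    · by_cases hn : y.n = 0
      · exact Or.inr ⟨0, by ext <;> simp [mul_def, zero_def, hy, hn]⟩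
      · obtain ⟨w, _, hw⟩ := DD_inv y.n hn
        exact Or.inl ⟨⟨w * x.n, 0⟩, by ext <;> simp [mul_def, hx, hy, ← mul_assoc, hw]⟩
    · exact Or.inr (div_right y x hx)
  · exact Or.inl (div_right x y hy)

theorem right_total (I J : Submodule AAᵐᵒᵖ AA) : I ≤ J ∨ J ≤ I := by
  by_contra h
  push Not at h
  obtain ⟨x, hxI, hxJ⟩ := SetLike.not_le_iff_exists.1 h.1
  obtain ⟨y, hyJ, hyI⟩ := SetLike.not_le_iff_exists.1 h.2
  rcases chain x y with ⟨z, rfl⟩ | ⟨z, rfl⟩
  · exact hxJ (J.smul_mem (MulOpposite.op z) hyJ)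
  · exact hyI (I.smul_mem (MulOpposite.op z) hxI)

theorem right_distrib' (a b c : Submodule AAᵐᵒᵖ AA) : a ⊓ (b ⊔ c) = (a ⊓ b) ⊔ (a ⊓ c) := by
  rcases right_total b c with h | h
  · rw [sup_eq_right.2 h, sup_eq_right.2 (inf_le_inf_left a h)]
  · rw [sup_eq_left.2 h, sup_eq_left.2 (inf_le_inf_left a h)]

theorem not_left : ¬ ∀ a b c : Submodule AA AA, a ⊓ (b ⊔ c) = (a ⊓ b) ⊔ (a ⊓ c) := by
  intro h
  obtain ⟨e, he⟩ : ∃ e : DD, ∀ x, sig x ≠ e := ⟨_, sig_not_surj⟩
  have h1 := h (Submodule.span AA {⟨0, 1 + e⟩}) (Submodule.span AA {⟨0, 1⟩})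
    (Submodule.span AA {⟨0, e⟩})
  have hb : Submodule.span AA {(⟨0, 1 + e⟩ : AA)} ⊓ Submodule.span AA {⟨0, 1⟩} = ⊥ := by
    rw [eq_bot_iff]
    rintro x ⟨hx, hx'⟩
    obtain ⟨r, rfl⟩ := Submodule.mem_span_singleton.1 hx
    obtain ⟨s, hs⟩ := Submodule.mem_span_singleton.1 hx'
    have h2 := congrArg AA.n hs
    simp only [smul_eq_mul, mul_def, mul_zero, add_zero, mul_one] at h2
    by_cases hr : r.d = 0
    · change _ = 0
      ext <;> simp [mul_def, zero_def, hr]
    · obtain ⟨w, hw, _⟩ := DD_inv r.d hr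
      exfalso
      apply he (w * s.d - 1)
      rw [map_sub, map_mul, h2, ← mul_assoc, ← map_mul, hw, map_one]
      simp
  have hc : Submodule.span AA {(⟨0, 1 + e⟩ : AA)} ⊓ Submodule.span AA {⟨0, e⟩} = ⊥ := by
    rw [eq_bot_iff]
    rintro x ⟨hx, hx'⟩
    obtain ⟨r, rfl⟩ := Submodule.mem_span_singleton.1 hx
    obtain ⟨s, hs⟩ := Submodule.mem_span_singleton.1 hx'
    have h2 := congrArg AA.n hs
    simp only [smul_eq_mul, mul_def, mul_zero, add_zero] at h2
    have h3 : sig (s.d - r.d) * e = sig r.d := by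
      rw [map_sub, sub_mul, h2]
      noncomm_ring
    by_cases hr : s.d - r.d = 0
    · rw [hr, map_zero, zero_mul] at h3
      change _ = 0
      ext <;> simp [mul_def, zero_def, ← h3]
    · obtain ⟨w, hw, _⟩ := DD_inv _ hr
      exfalso
      apply he (w * r.d)
      rw [map_mul, ← h3, ← mul_assoc, ← map_mul, hw, map_one, one_mul]
  rw [hb, hc, bot_sup_eq, eq_bot_iff] at h1
  have h2 : (⟨0, 1 + e⟩ : AA) = 0 := by
    apply h1
    refine ⟨Submodule.mem_span_singleton_self _, ?_⟩
    have : (⟨0, 1 + e⟩ : AA) = ⟨0, 1⟩ + ⟨0, e⟩ := by ext <;> simp [add_def]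
    rw [this]
    exact Submodule.add_mem_sup (Submodule.mem_span_singleton_self _)
      (Submodule.mem_span_singleton_self _)
  have h3 : 1 + e = 0 := congrArg AA.n h2
  apply he (-1)
  rw [map_neg, map_one, neg_eq_iff_add_eq_zero, h3]

end Pool.Agent.H22.Cliff
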