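import Pool.Agent.H22.Len4

namespace Pool.Agent.H22.Comp

open Function Subgroup
open scoped commutatorElement

variable {G H : Type} [Group G] [Group H]

abbrev Ce (K : Subgroup G) : Subgroup G := centralizer (K : Set G)

theorem three {L K : Subgroup G} (h : ⁅K, K⁆ = K) (a : ⁅L, K⁆ ≤ Ce K) : L ≤ Ce K := by
  rw [← commutator_eq_bot_iff_le_centralizer] at a ⊢
  have := commutator_commutator_eq_bot_of_rotate (H₁ := K) (H₂ := K) (H₃ := L)
    (by rwa [commutator_comm K]) a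
  rwa [h, commutator_comm] at this

structure Cp (K : Subgroup G) : Prop where
  n : K.Normal
  ne : K ≠ ⊥
  pf : ⁅K, K⁆ = K
  qs : ∀ L ≤ K, ⁅L, K⁆ ≤ L → L = K ∨ L ≤ Ce K

theorem Cp.nab {K : Subgroup G} (h : Cp K) : ¬ K ≤ Ce K := fun c =>
  h.ne (h.pf.symm.trans (commutator_eq_bot_iff_le_centralizer.2 c))

theorem Cp.dich {K : Subgroup G} (h : Cp K) (N : Subgroup G) [N.Normal] : K ≤ N ∨ N ≤ Ce K := by
  have := h.n
  exact (h.qs ⁅N, K⁆ (commutator_le_right _ _) (commutator_le_left _ _)).imp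
    (fun e => e.ge.trans (commutator_le_left N K)) (three h.pf)

theorem Cp.comm {K J : Subgroup G} (h : Cp K) (j : Cp J) (e : K ≠ J) : J ≤ Ce K := by
  have := j.n
  have := h.n
  exact (h.dich J).resolve_left fun l => (j.qs K l (commutator_le_left _ _)).elim e fun c =>
    h.nab (c.trans (centralizer_le l))

theorem Cp.mem {K : Subgroup G} (h : Cp K) {S : Set (Subgroup G)} (s : ∀ J ∈ S, J = ⊥ ∨ Cp J)
    (l : K ≤ sSup S) : K ∈ S := by
  by_contra c
  exact h.nab (l.trans (sSup_le fun J j => (s J j).elim (fun e => e ▸ bot_le) fun k =>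
    h.comm k fun e => c (e ▸ j)))

theorem ce_map {K : Subgroup G} (f : G →* H) {x : G} (h : x ∈ Ce K) : f x ∈ Ce (K.map f) := by
  rintro _ ⟨k, hk, rfl⟩
  rw [← map_mul, h k hk, map_mul]

theorem Cp.ce {K : Subgroup G} (h : Cp K) (f : G →* H) (n : K.map f ≠ ⊥) {x : G} :
    f x ∈ Ce (K.map f) ↔ x ∈ Ce K := by
  have := h.n
  refine ⟨fun a => three (L := (Ce (K.map f)).comap f) h.pf (le_trans (le_inf (commutator_le_right _ _)
    (commutator_le.2 fun c hc k hk => ?_)) ((h.qs (K ⊓ f.ker) inf_le_left (commutator_le_left _ _)).resolve_left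
      fun e => n ((Subgroup.map_eq_bot_iff _).2 (inf_eq_left.1 e)))) a, ce_map f⟩
  rw [MonoidHom.mem_ker, map_commutatorElement, commutatorElement_eq_one_iff_mul_comm]
  exact (hc _ ⟨k, hk, rfl⟩).symm

theorem Cp.map {K : Subgroup G} (h : Cp K) (f : G →* H) (n : K.map f ≠ ⊥) (m : (K.map f).Normal) :
    Cp (K.map f) := by
  have := h.n
  refine ⟨m, n, by rw [← map_commutator, h.pf], fun L a b => ?_⟩
  have e : (K ⊓ L.comap f).map f = L := le_antisymm (map_le_iff_le_comap.2 inf_le_right) fun x hx => by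
    obtain ⟨k, hk, rfl⟩ := a hx
    exact ⟨k, ⟨hk, hx⟩, rfl⟩
  refine (h.qs (K ⊓ L.comap f) inf_le_left (le_inf (commutator_le_right _ _) ?_)).imp
    (fun c => by rw [← e, c]) fun c => ?_
  · rwa [← map_le_iff_le_comap, map_commutator, e]
  · rw [← e]
    rintro _ ⟨x, hx, rfl⟩
    exact ce_map f (c hx)

def Ly (G : Type) [Group G] : Subgroup G := sSup {K | Cp K}

theorem sup_normal {S : Set (Subgroup G)} (h : ∀ K ∈ S, Cp K) : (sSup S).Normal := by
  rw [sSup_eq_iSup']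
  have : ∀ K : S, K.1.Normal := fun K => (h K K.2).n
  infer_instance

instance : (Ly G).Normal := sup_normal fun _ h => h

def Un (G : Type) [Group G] : Prop := Finite G ∧ ∃ n, derivedSeries G n ≤ Ly G

theorem pf_le {K : Subgroup G} (h : ⁅K, K⁆ = K) (n : ℕ) : K ≤ derivedSeries G n := by
  induction n with
  | zero => exact le_top
  | succ n ih => exact h ▸ commutator_mono ih ih

theorem ly_map (f : G →* H) (hf : Surjective f) :
    (Ly G).map f ≤ sSup {J | ∃ K, Cp K ∧ K.map f ≠ ⊥ ∧ K.map f = J} :=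
  map_le_iff_le_comap.2 (sSup_le fun K k => map_le_iff_le_comap.1 (by
    by_cases e : K.map f = ⊥
    · exact e.le.trans bot_le
    · exact le_sSup ⟨K, k, e, rfl⟩))

theorem Un.lift (h : Un G) (f : G →* H) (hf : Surjective f) {J : Subgroup H} (j : Cp J) :
    ∃ K, Cp K ∧ K.map f ≠ ⊥ ∧ K.map f = J := by
  obtain ⟨-, n, h⟩ := h
  refine j.mem (S := {J | ∃ K, Cp K ∧ K.map f ≠ ⊥ ∧ K.map f = J}) ?_ ((pf_le j.pf n).trans
    ((map_derivedSeries_eq hf n).ge.trans ((map_mono h).trans (ly_map f hf))))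
  rintro _ ⟨K, a, b, rfl⟩
  exact Or.inr (a.map f b (a.n.map f hf))

theorem Un.surj (h : Un G) (f : G →* H) (hf : Surjective f) : Un H := by
  obtain ⟨_, n, h⟩ := h
  refine ⟨Finite.of_surjective f hf, n, (map_derivedSeries_eq hf n).ge.trans ((map_mono h).trans
    ((ly_map f hf).trans (sSup_le ?_)))⟩
  rintro _ ⟨K, a, b, rfl⟩
  exact le_sSup (a.map f b (a.n.map f hf))

theorem ly_inf (N : Subgroup G) [N.Normal] : ⁅Ly G ⊓ N, N⁆ ≤ sSup {K | Cp K ∧ K ≤ N} := by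
  have := sup_normal (S := {K | Cp K ∧ K ≤ N}) fun _ h => h.1
  refine commutator_le.2 fun x hx y hy => ?_
  obtain ⟨a, ha, b, hb, rfl⟩ := mem_sup_of_normal_left.1 ((sSup_le fun K k => (k.dich N).elim
    (fun l => le_sup_of_le_left (le_sSup ⟨k, l⟩)) fun l => le_sup_of_le_right
      (le_centralizer_iff.1 l) : Ly G ≤ sSup {K | Cp K ∧ K ≤ N} ⊔ Ce N) hx.1)
  rw [show ⁅a * b, y⁆ = a * (y * a⁻¹ * y⁻¹) by
    rw [commutatorElement_def, mul_assoc a, ← hb y hy]; group]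
  exact mul_mem ha (this.conj_mem _ (inv_mem ha) y)

theorem Cp.sub {K N : Subgroup G} (h : Cp K) (l : K ≤ N) : Cp (K.subgroupOf N) := by
  have := h.n
  have i := map_injective (subtype_injective N)
  have e := map_subgroupOf_eq_of_le l
  refine ⟨inferInstance, fun c => h.ne (by rw [← e, c, Subgroup.map_bot]), i (by rw [map_commutator, e, h.pf]),
    fun L a b => (h.qs (L.map N.subtype) (e ▸ map_mono a) (by
      rw [← e, ← map_commutator]; exact map_mono b)).imp (fun c => i (c.trans e.symm))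
      fun c x hx k hk => Subtype.ext (c ⟨x, hx, rfl⟩ k hk)⟩

theorem Un.key (h : Un G) (N : Subgroup G) [N.Normal] :
    ∃ n, derivedSeries N n ≤ sSup {J | ∃ K, Cp K ∧ K ≤ N ∧ K.subgroupOf N = J} := by
  obtain ⟨_, n, h⟩ := h
  refine ⟨n + 1, (map_le_map_iff_of_injective (subtype_injective N)).1 ?_⟩
  rw [derivedSeries_succ, map_commutator]
  refine ((commutator_mono (le_inf ((map_derivedSeries_le_derivedSeries _ n).trans h) (map_subtype_le _))
    (map_subtype_le _)).trans (ly_inf N)).trans (sSup_le fun K k => ?_)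
  rw [← map_subgroupOf_eq_of_le k.2]
  exact map_mono (le_sSup ⟨K, k.1, k.2, rfl⟩)

theorem Un.sub (h : Un G) (N : Subgroup G) [N.Normal] : Un N :=
  have := h.1
  ⟨inferInstance, (h.key N).imp fun _ l => l.trans (sSup_le (by
    rintro _ ⟨K, a, b, rfl⟩
    exact le_sSup (a.sub b)))⟩

theorem Un.down (h : Un G) (N : Subgroup G) [N.Normal] {J : Subgroup N} (j : Cp J) :
    ∃ K, Cp K ∧ K ≤ N ∧ K.subgroupOf N = J := by
  obtain ⟨n, l⟩ := h.key N
  refine j.mem (S := {J | ∃ K, Cp K ∧ K ≤ N ∧ K.subgroupOf N = J}) ?_ ((pf_le j.pf n).trans l)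
  rintro _ ⟨K, a, b, rfl⟩
  exact Or.inr (a.sub b)

theorem lift2 [Finite G] {B : Type} [Group B] (f : G →* H) (hf : Surjective f) (g : G →* B)
    (hg : Surjective g) (i : ∀ x, f x = 1 → g x = 1 → x = 1) (b : Un B) {J : Subgroup H} (j : Cp J) :
    J ≤ (Ly G).map f := by
  have := j.n
  obtain ⟨K, ⟨_, k1⟩, k2⟩ := (wellFounded_lt (α := Subgroup G)).has_min {K | K.Normal ∧ K.map f = J}
    ⟨J.comap f, inferInstance, map_comap_eq_self_of_surjective hf J⟩
  have m : ∀ L ≤ K, L.Normal → L.map f = J → L = K := fun L a b c =>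
    a.eq_or_lt.resolve_right (k2 L ⟨b, c⟩)
  have pf : ⁅K, K⁆ = K := m _ (commutator_le_left _ _) inferInstance (by rw [map_commutator, k1, j.pf])
  have := Normal.map ‹K.Normal› g hg
  have : ((K ⊓ f.ker).map g).Normal := Normal.map inferInstance g hg
  obtain ⟨-, n, b⟩ := b
  have p2 : ⁅K.map g, K.map g⁆ = K.map g := by rw [← map_commutator, pf]
  have l : K.map g ≤ (K ⊓ f.ker).map g ⊔ Ce ((K ⊓ f.ker).map g) := p2.ge.trans
    ((commutator_mono (le_inf ((pf_le p2 n).trans b) le_rfl) le_rfl).trans ((ly_inf _).trans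
      (sSup_le fun L a => (a.1.dich _).elim le_sup_of_le_left fun c =>
        le_sup_of_le_right (le_centralizer_iff.1 c))))
  have e := m (K ⊓ (Ce ((K ⊓ f.ker).map g)).comap g) inf_le_left inferInstance (le_antisymm
    (k1 ▸ map_mono inf_le_left) (k1 ▸ by
      rintro _ ⟨x, hx, rfl⟩
      obtain ⟨_, ⟨t, ht, rfl⟩, c, hc, e⟩ := mem_sup_of_normal_left.1 (l ⟨x, hx, rfl⟩)
      refine ⟨t⁻¹ * x, ⟨K.mul_mem (K.inv_mem ht.1) hx, ?_⟩, by simp [show f t = 1 from ht.2]⟩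
      change g (t⁻¹ * x) ∈ Ce _
      rwa [map_mul, map_inv, ← e, inv_mul_cancel_left]))
  have t : K ⊓ f.ker ≤ Ce K := fun t ht k hk => commutatorElement_eq_one_iff_mul_comm.1 (i _
    (by simp [show f t = 1 from ht.2]) (by
      rw [map_commutatorElement, commutatorElement_eq_one_iff_mul_comm]
      exact ((e.ge hk).2 _ ⟨t, ht, rfl⟩).symm))
  refine k1 ▸ map_mono (le_sSup ⟨‹_›, fun c => j.ne (by rw [← k1, c, Subgroup.map_bot]), pf, fun L a c =>
    (j.qs (L.map f) (k1 ▸ map_mono a) (by rw [← k1, ← map_commutator]; exact map_mono c)).imp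
      (fun d => le_antisymm a (pf.ge.trans (commutator_le.2 fun x hx y hy => ?_))) fun d =>
      three pf (le_trans (le_inf (commutator_le_right _ _) (commutator_le.2 fun x hx y hy => ?_)) t)⟩)
  · obtain ⟨u, hu, e⟩ := d.ge (k1.le ⟨x, hx, rfl⟩)
    have := t (x := u⁻¹ * x) ⟨K.mul_mem (K.inv_mem (a hu)) hx, by simp [e]⟩ y hy
    rw [show ⁅x, y⁆ = ⁅u, y⁆ by
      rw [commutatorElement_def, ← mul_inv_cancel_left u x, mul_assoc u, ← this]; group]
    exact c (commutator_mem_commutator hu hy)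
  · rw [MonoidHom.mem_ker, map_commutatorElement, commutatorElement_eq_one_iff_mul_comm]
    exact (d ⟨x, hx, rfl⟩ _ (k1.le ⟨y, hy, rfl⟩)).symm

theorem Un.two [Finite G] {B : Type} [Group B] (f : G →* H) (hf : Surjective f) (g : G →* B)
    (hg : Surjective g) (i : ∀ x, f x = 1 → g x = 1 → x = 1) (a : Un H) (b : Un B) : Un G := by
  have l1 : Ly H ≤ (Ly G).map f := sSup_le fun _ => lift2 f hf g hg i b
  have l2 : Ly B ≤ (Ly G).map g := sSup_le fun _ => lift2 g hg f hf (fun x u v => i x v u) a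
  obtain ⟨-, n, a⟩ := a
  obtain ⟨-, m, b⟩ := b
  refine ⟨‹_›, n + m + 1, commutator_le.2 fun x hx y hy => ?_⟩
  obtain ⟨u, hu, e1⟩ := l1 (a (map_derivedSeries_le_derivedSeries f n
    ⟨x, derivedSeries_antitone G (by omega) hx, rfl⟩))
  obtain ⟨v, hv, e2⟩ := l2 (b (map_derivedSeries_le_derivedSeries g m
    ⟨y, derivedSeries_antitone G (by omega) hy, rfl⟩))
  have := i ⁅u⁻¹ * x, v⁻¹ * y⁆ (by simp [e1]) (by simp [e2])
  have := congrArg (QuotientGroup.mk' (Ly G)) this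
  simp only [map_commutatorElement, map_mul, map_inv, QuotientGroup.mk'_apply,
    (QuotientGroup.eq_one_iff _).2 hu, (QuotientGroup.eq_one_iff _).2 hv, inv_one, one_mul] at this
  exact (QuotientGroup.eq_one_iff _).1 this

def Iv (K : Subgroup G) : Prop := ∃ x ∈ K, x ∉ Ce K ∧ x ^ 2 ∈ Ce K

def Tt {r : ℕ} (h : Fin r → G) : Set (Subgroup G) := {K | Cp K ∧ Iv K ∧ ∀ j, h j ∉ K ⊔ Ce K}

def Gd (S : Set (Subgroup G)) (x : G) : Prop := x ∈ sSup S ∧ ∀ K ∈ S, x ∉ Ce K ∧ x ^ 2 ∈ Ce K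

def Pp (r : ℕ) (G : Type) [Group G] : Prop := ∀ (h : Fin r → G) x, Gd (Tt h) x → x ^ 2 = 1

theorem Gd.glue {S T : Set (Subgroup G)} (s : ∀ K ∈ S, Cp K) (t : ∀ K ∈ T, Cp K) (d : Disjoint S T)
    {x y : G} (a : Gd S x) (b : Gd T y) : Gd (S ∪ T) (x * y) := by
  have k : ∀ K ∈ S, sSup T ≤ Ce K := fun K u => sSup_le fun J v => (s K u).comm (t J v)
    fun e => Set.disjoint_left.1 d u (e ▸ v)
  have k' : ∀ K ∈ T, sSup S ≤ Ce K := fun K u => sSup_le fun J v => le_centralizer_iff.1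
    ((le_sSup u).trans (k J v))
  have c : Commute x y := (sSup_le fun K u => le_centralizer_iff.1 (k K u) : sSup S ≤ Ce (sSup T))
    a.1 y b.1 |>.symm
  refine ⟨mul_mem ((sSup_le_sSup Set.subset_union_left : sSup S ≤ _) a.1)
    ((sSup_le_sSup Set.subset_union_right : sSup T ≤ _) b.1),
    fun K u => ?_⟩
  rw [c.mul_pow]
  rcases u with u | u
  · exact ⟨fun e => (a.2 K u).1 ((mul_mem_cancel_right (k K u b.1)).1 e),
      mul_mem (a.2 K u).2 (pow_mem (k K u b.1) 2)⟩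
  · exact ⟨fun e => (b.2 K u).1 ((mul_mem_cancel_left (k' K u a.1)).1 e),
      mul_mem (pow_mem (k' K u a.1) 2) (b.2 K u).2⟩

theorem gd_ex {S : Set (Subgroup G)} (hS : S.Finite) (s : ∀ K ∈ S, Cp K ∧ Iv K) : ∃ x, Gd S x := by
  induction S, hS using Set.Finite.induction_on with
  | empty => exact ⟨1, one_mem _, fun _ h => h.elim⟩
  | @insert K S n _ ih =>
    obtain ⟨y, hy⟩ := ih fun J j => s J (Or.inr j)
    obtain ⟨k, x, a, b⟩ := s K (Or.inl rfl)
    exact ⟨x * y, Gd.glue (S := {K}) (by simpa using k) (fun J j => (s J (Or.inr j)).1)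
      (by simpa using n) ⟨by simpa using a, by simpa using b⟩ hy⟩

theorem Cp.tt {r : ℕ} {K : Subgroup G} (k : Cp K) (f : G →* H) (hf : Surjective f) (n : K.map f ≠ ⊥)
    (h : Fin r → G) : K.map f ∈ Tt (f ∘ h) ↔ K ∈ Tt h := by
  have := k.n
  have := k.n.map f hf
  refine and_congr (iff_of_true (k.map f n this) k) (and_congr ⟨?_, fun ⟨x, a, b, c⟩ =>
    ⟨f x, ⟨x, a, rfl⟩, mt (k.ce f n).1 b, map_pow f x 2 ▸ ce_map f c⟩⟩
    (forall_congr' fun j => not_congr ⟨fun a => ?_, fun a => ?_⟩))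
  · rintro ⟨_, ⟨x, a, rfl⟩, b, c⟩
    exact ⟨x, a, mt (ce_map f) b, (k.ce f n).1 (map_pow f x 2 ▸ c)⟩
  · obtain ⟨_, ⟨x, hx, rfl⟩, c, hc, e⟩ := mem_sup_of_normal_left.1 a
    rw [← mul_inv_cancel_left x (h j)]
    refine mul_mem (mem_sup_left hx) (mem_sup_right ((k.ce f n).1 ?_))
    rwa [map_mul, map_inv, show f (h j) = _ from e.symm, inv_mul_cancel_left]
  · obtain ⟨x, hx, c, hc, e⟩ := mem_sup_of_normal_left.1 a
    rw [comp_apply, ← e, map_mul]
    exact mul_mem (mem_sup_left ⟨x, hx, rfl⟩) (mem_sup_right (ce_map f hc))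

theorem Gd.map {r : ℕ} (u : Un G) (f : G →* H) (hf : Surjective f) {h : Fin r → G} {x : G}
    (a : Gd (Tt h) x) : Gd (Tt (f ∘ h)) (f x) := by
  refine ⟨(sSup_le fun K k => map_le_iff_le_comap.1 ?_ : sSup (Tt h) ≤ comap f (sSup _)) a.1,
    fun J j => ?_⟩
  · by_cases e : K.map f = ⊥
    · exact e.le.trans bot_le
    · exact le_sSup ((k.1.tt f hf e h).2 k)
  · obtain ⟨K, k, n, rfl⟩ := u.lift f hf j.1
    have := a.2 K ((k.tt f hf n h).1 j)
    exact ⟨mt (k.ce f n).1 this.1, map_pow f x 2 ▸ ce_map f this.2⟩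

theorem Gd.lift {r : ℕ} (u : Un G) (f : G →* H) (hf : Surjective f) {h : Fin r → G} {x' : H}
    (a : Gd (Tt (f ∘ h)) x') : ∃ x, Gd (Tt h) x ∧ f x = x' := by
  have := u.1
  obtain ⟨x, hx, rfl⟩ : x' ∈ (sSup {K | K ∈ Tt h ∧ K.map f ≠ ⊥}).map f := (sSup_le fun J j => by
    obtain ⟨K, k, n, rfl⟩ := u.lift f hf j.1
    exact map_mono (le_sSup ⟨(k.tt f hf n h).1 j, n⟩) : sSup (Tt (f ∘ h)) ≤ _) a.1
  obtain ⟨y, hy⟩ := gd_ex (S := {K | K ∈ Tt h ∧ K.map f = ⊥}) (Set.toFinite _) fun K k => ⟨k.1.1, k.1.2.1⟩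
  have g := Gd.glue (fun K k => k.1.1) (fun K k => k.1.1) (Set.disjoint_left.2 fun K u v => u.2 v.2)
    ⟨hx, fun K k => have := a.2 _ ((k.1.1.tt f hf k.2 h).2 k.1)
      ⟨mt (ce_map f) this.1, (k.1.1.ce f k.2).1 (map_pow f x 2 ▸ this.2)⟩⟩ hy
  refine ⟨x * y, by convert g; ext K; simp [← and_or_left, em'], ?_⟩
  rw [map_mul, show f y = 1 from (sSup_le fun K k => (Subgroup.map_eq_bot_iff _).1 k.2 :
    _ ≤ f.ker) hy.1, mul_one]

theorem Pp.surj {r : ℕ} (u : Un G) (p : Pp r G) (f : G →* H) (hf : Surjective f) : Pp r H := by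
  intro h' x' a
  choose h e using fun j => hf (h' j)
  obtain rfl : f ∘ h = h' := funext e
  obtain ⟨x, g, rfl⟩ := a.lift u f hf
  rw [← map_pow, p h x g, map_one]

theorem Cp.tt' {r : ℕ} {K N : Subgroup G} (k : Cp K) (l : K ≤ N) (h : Fin r → N) :
    (∀ x : N, x ∈ Ce (K.subgroupOf N) ↔ x.1 ∈ Ce K) ∧
      (K.subgroupOf N ∈ Tt h ↔ K ∈ Tt (N.subtype ∘ h)) := by
  have := k.n
  have c : ∀ x : N, x ∈ Ce (K.subgroupOf N) ↔ x.1 ∈ Ce K := fun x =>
    ⟨fun a y hy => congrArg Subtype.val (a ⟨y, l hy⟩ hy), fun a y hy => Subtype.ext (a y hy)⟩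
  refine ⟨c, and_congr (iff_of_true (k.sub l) k) (and_congr ⟨fun ⟨x, a, b, d⟩ =>
    ⟨x, a, mt (c x).2 b, (c _).1 d⟩, fun ⟨x, a, b, d⟩ => ⟨⟨x, l a⟩, a, mt (c _).1 b, (c _).2 d⟩⟩
    (forall_congr' fun j => not_congr ⟨fun a => ?_, fun a => ?_⟩))⟩
  · obtain ⟨x, hx, y, hy, e⟩ := mem_sup_of_normal_left.1 a
    rw [comp_apply, ← e]
    exact mul_mem (mem_sup_left hx) (mem_sup_right ((c y).1 hy))
  · obtain ⟨x, hx, y, hy, e⟩ := mem_sup_of_normal_left.1 a
    have : y ∈ N := by simpa [← e] using N.mul_mem (N.inv_mem (l hx)) (show x * y ∈ N from e ▸ (h j).2)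
    rw [show h j = ⟨x, l hx⟩ * ⟨y, this⟩ from Subtype.ext e.symm]
    exact mul_mem (mem_sup_left hx) (mem_sup_right ((c _).2 hy))

theorem Gd.up {r : ℕ} (u : Un G) {N : Subgroup G} [N.Normal] {h : Fin (r + 1) → N} {x : N} :
    Gd (Tt h) x ↔ Gd (Tt (N.subtype ∘ h)) x.1 := by
  have l : ∀ K ∈ Tt (N.subtype ∘ h), K ≤ N := fun K k =>
    (k.1.dich N).resolve_right fun c => k.2.2 0 (mem_sup_right (c (h 0).2))
  refine ⟨fun a => ⟨(sSup_le fun J j => ?_ : sSup (Tt h) ≤ comap N.subtype (sSup _)) a.1, fun K k => ?_⟩,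
    fun a => ⟨?_, fun J j => ?_⟩⟩
  · obtain ⟨K, k, l, rfl⟩ := u.down N j.1
    exact comap_mono (le_sSup ((k.tt' l h).2.1 j))
  · have := a.2 _ ((k.1.tt' (l K k) h).2.2 k)
    exact ⟨mt ((k.1.tt' (l K k) h).1 x).2 this.1, ((k.1.tt' (l K k) h).1 _).1 this.2⟩
  · obtain ⟨y, hy, e⟩ := (sSup_le fun K k => (map_subgroupOf_eq_of_le (l K k)).ge.trans (map_mono
      (le_sSup ((k.1.tt' (l K k) h).2.2 k))) : _ ≤ (sSup (Tt h)).map N.subtype) a.1
    exact (Subtype.ext e : y = x) ▸ hy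
  · obtain ⟨K, k, l, rfl⟩ := u.down N j.1
    have := a.2 _ ((k.tt' l h).2.1 j)
    exact ⟨mt ((k.tt' l h).1 x).1 this.1, ((k.tt' l h).1 _).2 this.2⟩

theorem Pp.sub {r : ℕ} (u : Un G) (p : Pp (r + 1) G) (N : Subgroup G) [N.Normal] : Pp (r + 1) N :=
  fun _ x a => Subtype.ext (p _ x ((Gd.up u).1 a))

def Fr (r : ℕ) : FormLat.Cls := fun G _ => Un G ∧ Pp r G

theorem fr_form (r : ℕ) : FormLat.IsForm (Fr r) :=
  GLS.mk_form (fun _ _ h => h.1.1) (fun _ _ _ _ f hf h => ⟨h.1.surj f hf, h.2.surj h.1 f hf⟩)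
    fun G _ _ N L _ _ e a b =>
    have u := Un.two _ (QuotientGroup.mk'_surjective N) _ (QuotientGroup.mk'_surjective L)
      (fun x c d => GLS.two_q e c d) a.1 b.1
    ⟨u, fun h x c => GLS.two_q e (a.2 _ _ (c.map u _ (QuotientGroup.mk'_surjective N)))
      (b.2 _ _ (c.map u _ (QuotientGroup.mk'_surjective L)))⟩

end Pool.Agent.H22.Comp
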