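import Pool.Agent.H22.Len4

namespace Pool.Agent.H22.GLS

open Function Subgroup FormLat
open Pool.Agent.H22.Fit (pel pgrp)

variable {F A B C X : Cls} {G H Y : Type} [Group G] [Group H] [Group Y] {p q e : ℕ}

def Fm (F : Cls) : Prop := IsForm F ∧ F Unit

theorem Fm.triv (h : Fm F) [Subsingleton G] : F G := triv_mem h.1 h.2

theorem Fm.bot (h : Fm F) {K : Subgroup G} (e : K = ⊥) : F K := by
  subst e
  exact h.triv

theorem cls_ext (a : Le A B) (b : Le B A) : A = B :=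
  funext fun G => funext fun _ => propext ⟨a G, b G⟩

def res (F : Cls) (G : Type) [Group G] : Subgroup G := sInf {N | ∃ _ : N.Normal, F (G ⧸ N)}

instance : (res F G).Normal := ⟨fun n hn g => mem_sInf.2 fun N hN =>
  hN.1.conj_mem n (mem_sInf.1 hn N hN) g⟩

theorem res_le (hF : IsForm F) {N : Subgroup G} (h : Fq F N) : res F G ≤ N :=
  have := h.normal
  sInf_le ⟨this, h.quot hF N le_rfl⟩

theorem res_fq (hF : Fm F) (G : Type) [Group G] [Finite G] : Fq F (res F G) := by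
  obtain ⟨R, r1, r2⟩ := (wellFounded_lt (α := Subgroup G)).has_min {R | Fq F R}
    ⟨⊤, Fq_top hF.1 hF.2 _⟩
  refine (le_antisymm (le_sInf ?_) (res_le hF.1 r1) : R = res F G) ▸ r1
  rintro N ⟨_, b⟩
  exact inf_eq_left.1 (inf_le_left.eq_or_lt.resolve_right (r2 _ (r1.inf hF.1 (Fq.mk N b))))

theorem of_res (hF : Fm F) [Finite G] (f : G →* H) (hf : Surjective f) (h : res F G ≤ f.ker) : F H :=
  (res_fq hF G).of_le hF.1 f hf h

theorem res_ker (hF : IsForm F) (f : G →* H) (h : F f.range) : res F G ≤ f.ker :=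
  res_le hF ⟨_, _, f.rangeRestrict, f.rangeRestrict_surjective, f.ker_rangeRestrict, h⟩

theorem res_map (hF : Fm F) [Finite G] (f : G →* H) (hf : Surjective f) :
    res F H = (res F G).map f := by
  have := Finite.of_surjective f hf
  have := Normal.map (inferInstance : (res F G).Normal) f hf
  exact le_antisymm (res_le hF.1 (Fq.mk _ (of_res hF ((QuotientGroup.mk' _).comp f)
    ((QuotientGroup.mk'_surjective _).comp hf) fun x hx => (QuotientGroup.eq_one_iff _).2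
      ⟨x, hx, rfl⟩))) (map_le_iff_le_comap.2 (res_le hF.1 ((res_fq hF H).comap f hf)))

theorem res_bot (hF : IsForm F) (h : F G) : res F G = ⊥ := le_bot_iff.1 (res_le hF (Fq_bot h))

theorem sub_pi (hF : Fm F) [Finite G] {ι : Type} (f : ι → G →* H) (a : ∀ i, F (f i).range)
    (b : ∀ x, (∀ i, f i x = 1) → x = 1) : F G :=
  of_res hF (MonoidHom.id G) surjective_id fun x hx => b x fun i => res_ker hF.1 _ (a i) hx

def Pr (A B : Cls) : Cls := fun G _ => Finite G ∧ A (res B G)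

theorem pr_fm (a : Fm A) (b : Fm B) : Fm (Pr A B) := by
  refine ⟨mk_form (fun _ _ h => h.1) ?_ ?_, inferInstance, a.triv⟩
  · rintro G H _ _ f hf ⟨_, h⟩
    exact ⟨Finite.of_surjective f hf, res_map b f hf ▸ surj a.1 _ (f.subgroupMap_surjective _) h⟩
  · rintro G _ _ N L _ _ e ⟨_, u⟩ ⟨_, v⟩
    rw [res_map b _ (QuotientGroup.mk'_surjective _)] at u v
    refine ⟨‹_›, sub2 a.1 _ (MonoidHom.subgroupMap_surjective _ _) _
      (MonoidHom.subgroupMap_surjective _ _) (MonoidHom.id _) surjective_id (fun x h1 h2 => ?_) u v⟩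
    have h1 := congrArg Subtype.val h1
    have h2 := congrArg Subtype.val h2
    exact Subtype.ext (two_q e h1 h2)

theorem le_pr (a : Fm A) (b : IsForm B) : Le B (Pr A B) := fun G _ h =>
  ⟨b.1 G h, a.bot (res_bot b h)⟩

theorem res_pr (b : Fm B) (c : Fm C) (G : Type) [Group G] [Finite G] :
    res (Pr B C) G = (res B (res C G)).map (res C G).subtype := by
  have : (res B (res C G)).Characteristic := characteristic_iff_map_eq.2 fun φ =>
    (res_map b φ.toMonoidHom φ.surjective).symm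
  refine le_antisymm (res_le (pr_fm b c).1 (Fq.mk _ ⟨inferInstance, ?_⟩))
    (map_le_iff_le_comap.2 ?_)
  · rw [res_map c _ (QuotientGroup.mk'_surjective _)]
    exact of_res b _ (MonoidHom.subgroupMap_surjective _ _) fun x hx =>
      Subtype.ext ((QuotientGroup.eq_one_iff _).2 ⟨x, hx, rfl⟩)
  · have := ((res_fq (pr_fm b c) G).quot (pr_fm b c).1 _ le_rfl).2
    rw [res_map c _ (QuotientGroup.mk'_surjective _)] at this
    intro x hx
    have := congrArg Subtype.val (res_le b.1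
      ⟨_, _, _, MonoidHom.subgroupMap_surjective _ _, rfl, this⟩ hx)
    exact (QuotientGroup.eq_one_iff x.1).1 this

theorem pr_assoc (a : Fm A) (b : Fm B) (c : Fm C) : Pr (Pr A B) C = Pr A (Pr B C) :=
  cls_ext (fun G _ ⟨_, _, h⟩ => ⟨‹_›, res_pr b c G ▸ a.1.2.1 _ _
    ⟨equivMapOfInjective _ _ (subtype_injective _)⟩ h⟩) fun G _ ⟨_, h⟩ => ⟨‹_›, inferInstance,
      a.1.2.1 _ _ ⟨(equivMapOfInjective _ _ (subtype_injective _)).symm⟩ (res_pr b c G ▸ h)⟩

def Triv : Cls := fun G _ => Subsingleton G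

theorem triv_fm : Fm Triv :=
  ⟨mk_form (fun _ _ h => have : Subsingleton _ := h; inferInstance)
    (fun _ _ _ _ _ hf h => have : Subsingleton _ := h; hf.subsingleton) fun _ _ _ _ _ _ _ e a b =>
      ⟨fun x y => two_q e (a.elim _ _) (b.elim _ _)⟩, (inferInstance : Subsingleton Unit)⟩

theorem pr_triv (a : Fm A) : Pr A Triv = A := by
  have k : ∀ (G : Type) [Group G], res Triv G = ⊤ := fun G _ => top_le_iff.1 (le_sInf
    fun N ⟨_, h⟩ x _ => (QuotientGroup.eq_one_iff x).1 (h.elim _ _))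
  exact cls_ext (fun G _ h => a.1.2.1 _ _ ⟨topEquiv⟩ (k G ▸ h.2)) fun G _ h =>
    ⟨a.1.1 G h, k G ▸ a.1.2.1 _ _ ⟨topEquiv.symm⟩ h⟩

theorem triv_pr (b : Fm B) : Pr Triv B = B :=
  cls_ext (fun G _ ⟨_, h⟩ => of_res b (MonoidHom.id G) surjective_id fun x hx =>
    congrArg Subtype.val (h.elim ⟨x, hx⟩ 1)) (le_pr triv_fm b.1)

def prd (l : List Cls) : Cls := l.foldr Pr Triv

theorem prd_fm {l : List Cls} (h : ∀ X ∈ l, Fm X) : Fm (prd l) := by
  induction l with
  | nil => exact triv_fm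
  | cons A l ih => exact pr_fm (h A (by simp)) (ih fun X hX => h X (by simp [hX]))

theorem prd_app {s t : List Cls} (h : ∀ X ∈ s, Fm X) (k : ∀ X ∈ t, Fm X) :
    prd (s ++ t) = Pr (prd s) (prd t) := by
  induction s with
  | nil => exact (triv_pr (prd_fm k)).symm
  | cons A s ih =>
    have h' : ∀ X ∈ s, Fm X := fun X hX => h X (by simp [hX])
    exact (congrArg (Pr A) (ih h')).trans (pr_assoc (h A (by simp)) (prd_fm h') (prd_fm k)).symm

def ND (F : Cls) : Prop := ¬ ∃ A B, Fm A ∧ Fm B ∧ A ≠ F ∧ B ≠ F ∧ F = Pr A B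

def Val (l : List Cls) : Prop := ∀ X ∈ l, Fm X ∧ X ≠ Triv

theorem bounded (n : ℕ) (h : ∀ l, Val l → prd l = F → l.length ≤ n) (f : Fm F) (t : F ≠ Triv) :
    ∃ l, (∀ X ∈ l, Fm X ∧ ND X) ∧ prd l = F := by
  suffices ∀ k l, Val l → prd l = F → n < l.length + k → ∃ l, (∀ X ∈ l, Fm X ∧ ND X) ∧ prd l = F from
    this n [F] (by simpa [Val] using ⟨f, t⟩) (pr_triv f) (by simp)
  intro k
  induction k with
  | zero => exact fun l a b c => absurd (h l a b) (by omega)
  | succ k ih =>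
    intro l a b c
    by_cases d : ∀ X ∈ l, ND X
    · exact ⟨l, fun X hX => ⟨(a X hX).1, d X hX⟩, b⟩
    push Not at d
    obtain ⟨X, hX, d⟩ := d
    obtain ⟨A, B, u, v, x, y, rfl⟩ := not_not.1 d
    obtain ⟨s, t, rfl⟩ := List.append_of_mem hX
    have hs : ∀ X ∈ s, Fm X := fun X hX => (a X (by simp [hX])).1
    have ht : ∀ X ∈ t, Fm X := fun X hX => (a X (by simp [hX])).1
    refine ih (s ++ A :: B :: t) (fun X hX => ?_) ?_ (by simp at c ⊢; omega)
    · simp only [List.mem_append, List.mem_cons] at hX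
      rcases hX with hX | rfl | rfl | hX
      · exact a X (by simp [hX])
      · exact ⟨u, fun e => y (e ▸ (triv_pr v).symm)⟩
      · exact ⟨v, fun e => x (e ▸ (pr_triv u).symm)⟩
      · exact a X (by simp [hX])
    · rw [← b, prd_app hs (by simpa using ⟨u, v, ht⟩), prd_app hs (by simpa using ⟨pr_fm u v, ht⟩)]
      exact congrArg _ (pr_assoc u v (prd_fm ht)).symm

def Star (e : ℕ) : Cls := fun G _ => Finite G ∧ ∀ p : ℕ, p.Prime → ∃ P : Subgroup G, P.Normal ∧
  IsPGroup p P ∧ ∀ g : G, pel p (g ^ e) → g ^ e ∈ P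

theorem star_fm : Fm (Star e) := by
  refine ⟨mk_form (fun _ _ h => h.1) ?_ ?_, inferInstance, fun p _ =>
    ⟨⊤, inferInstance, fun _ => ⟨0, Subsingleton.elim _ _⟩, fun _ _ => trivial⟩⟩
  · rintro G H _ _ f hf ⟨_, h⟩
    refine ⟨Finite.of_surjective f hf, fun p hp => ?_⟩
    obtain ⟨P, a, b, c⟩ := h p hp
    refine ⟨P.map f, a.map f hf, b.map f, fun g hg => ?_⟩
    obtain ⟨g, rfl⟩ := hf g
    obtain ⟨⟨_, j, rfl⟩, h1, h2⟩ := pel.lift (y := ⟨f g ^ e, g ^ e, mem_zpowers _, map_pow _ _ _⟩) hp _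
      (f.subgroupMap_surjective (zpowers (g ^ e))) (hg.imp fun k hk => Subtype.ext hk)
    have k : (g ^ e) ^ j = (g ^ j) ^ e := by
      rw [← zpow_natCast, ← zpow_natCast, ← zpow_mul, ← zpow_mul, mul_comm]
    have h1 : pel p ((g ^ e) ^ j) := h1.map (Subgroup.subtype _)
    refine ⟨(g ^ e) ^ j, ?_, congrArg Subtype.val h2⟩
    rw [k] at h1 ⊢
    exact c _ h1
  · rintro G _ _ N L _ _ h ⟨_, u⟩ ⟨_, v⟩
    refine ⟨‹_›, fun p hp => ?_⟩
    obtain ⟨P, a, b, c⟩ := u p hp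
    obtain ⟨Q, a', b', c'⟩ := v p hp
    refine ⟨P.comap (QuotientGroup.mk' N) ⊓ Q.comap (QuotientGroup.mk' L), inferInstance,
      pgrp fun x hx => ?_, fun g hg => ⟨c g (hg.map (QuotientGroup.mk' N)),
        c' g (hg.map (QuotientGroup.mk' L))⟩⟩
    obtain ⟨i, hi⟩ := pel.of_mem b hx.1
    obtain ⟨j, hj⟩ := pel.of_mem b' hx.2
    exact ⟨i + j, two_q h (by simpa [pow_add, pow_mul] using congrArg (· ^ p ^ j) hi)
      (by rw [add_comm]; simpa [pow_add, pow_mul] using congrArg (· ^ p ^ i) hj)⟩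

theorem star_sat : IsSat (Star e) := by
  rintro G _ _ ⟨_, h⟩
  refine ⟨‹_›, fun p hp => ?_⟩
  have := Fact.mk hp
  obtain ⟨P, a, b, c⟩ := h p hp
  have m := map_comap_eq_self_of_surjective (QuotientGroup.mk'_surjective (frattini G)) P
  obtain ⟨S, s1, s2, s3⟩ := Syl.lift (r := p) _ _ (m.symm ▸ b)
  obtain ⟨T, t1, t2⟩ := Syl.exists_maxP s2 s1
  have : T.Normal := normalizer_eq_top_iff.1 (frattini_nongenerating (top_le_iff.1 fun g _ => by
    obtain ⟨n, hn, k⟩ := t1.frattini (s := g) (by rw [normalizer_eq_top]; trivial)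
    obtain ⟨s, hs, e⟩ := s3.ge ⟨n⁻¹, inv_mem hn, rfl⟩
    rw [show g = g * n * s * (s⁻¹ * n⁻¹) by group]
    exact mul_mem (mem_sup_left (mul_mem k (le_normalizer (t2 hs))))
      (mem_sup_right (QuotientGroup.eq.1 e))))
  refine ⟨T, this, t1.2.1, fun g hg => t1.2.2 (T ⊔ zpowers (g ^ e)) (sup_le t1.1 (zpowers_le.2
    (c g (hg.map (QuotientGroup.mk' _))))) (t1.2.1.to_sup_of_normal_left (pgrp fun x => hg.zp))
    le_sup_left (mem_sup_right (mem_zpowers _))⟩

end Pool.Agent.H22.GLS
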