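import Pool.Agent.H22.Comp
import Pool.Agent.H22.FProd

namespace Pool.Agent.H22.Comp

open Function Subgroup
open scoped commutatorElement

abbrev C2 := Multiplicative (ZMod 2)

structure Dat (G : Type) [Group G] where
  K : Subgroup G
  β : G →* C2
  ζ : C2 →* G
  t : G
  cp : Cp K
  iv : Iv K
  dl : commutator G ≤ K
  ker : ∀ g, g ∈ K ⊔ Ce K ↔ β g = 1
  bt : β t = .ofAdd 1
  zi : Injective ζ
  zc : ∀ k g, ζ k * g = g * ζ k
  sq : ∀ x ∈ K, x ∉ Ce K → x ^ 2 ∈ Ce K → x ^ 2 = ζ (.ofAdd 1)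

variable {G : Type} [Group G] (d : Dat G) {M : Type} [DecidableEq M]

def Dat.S (v : M) : Subgroup (M → G) := d.K.map (MonoidHom.mulSingle (fun _ => G) v)

theorem Dat.mem_S {v : M} {g : M → G} : g ∈ d.S v ↔ g v ∈ d.K ∧ ∀ w, w ≠ v → g w = 1 := by
  constructor
  · rintro ⟨k, hk, rfl⟩
    exact ⟨by simpa using hk, fun w h => Pi.mulSingle_eq_of_ne (M := fun _ => G) h k⟩
  · rintro ⟨a, b⟩
    refine ⟨g v, a, funext fun w => ?_⟩
    by_cases e : w = v
    · simp [e]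
    · simp [Pi.mulSingle_eq_of_ne e, b w e]

theorem Dat.cpS (v : M) : Cp (d.S v) := by
  have := d.cp.n
  refine d.cp.map _ (fun c => d.cp.ne ((map_eq_bot_iff_of_injective _
    (Pi.mulSingle_injective (M := fun _ => G) v)).1 c)) ⟨fun x hx g => d.mem_S.2 ⟨this.conj_mem _
      (d.mem_S.1 hx).1 _, fun w h => by simp [(d.mem_S.1 hx).2 w h]⟩⟩

theorem Dat.ceS {v : M} {g : M → G} : g ∈ Ce (d.S v) ↔ g v ∈ Ce d.K := by
  refine ⟨fun a k hk => by simpa using congrFun (a _ ⟨k, hk, rfl⟩) v, fun a x hx => funext fun w => ?_⟩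
  by_cases e : w = v
  · exact e ▸ a _ (d.mem_S.1 hx).1
  · simp [(d.mem_S.1 hx).2 w e]

theorem Dat.supS {v : M} {g : M → G} : g ∈ d.S v ⊔ Ce (d.S v) ↔ d.β (g v) = 1 := by
  have := d.cp.n
  have := (d.cpS v).n
  rw [← d.ker]
  refine ⟨fun a => ?_, fun a => ?_⟩
  · obtain ⟨x, hx, c, hc, rfl⟩ := mem_sup_of_normal_left.1 a
    exact mul_mem (mem_sup_left (d.mem_S.1 hx).1) (mem_sup_right (d.ceS.1 hc))
  · obtain ⟨x, hx, c, hc, e⟩ := mem_sup_of_normal_left.1 a
    rw [← mul_inv_cancel_left (Pi.mulSingle v x) g]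
    exact mul_mem (mem_sup_left ⟨x, hx, rfl⟩) (mem_sup_right (d.ceS.2 (by simpa [← e] using hc)))

theorem Dat.der [Finite M] : derivedSeries (M → G) 1 ≤ sSup (Set.range d.S) :=
  commutator_le.2 fun x _ y _ => pi_mem_of_mulSingle_mem _ fun v => (le_sSup (Set.mem_range_self v) : d.S v ≤ sSup (Set.range d.S))
    ⟨_, d.dl (commutator_mem_commutator (mem_top (x v)) (mem_top (y v))), rfl⟩

include d in
theorem Dat.un [Finite M] [Finite G] : Un (M → G) :=
  ⟨inferInstance, 1, d.der.trans (sSup_le (by rintro _ ⟨v, rfl⟩; exact le_sSup (d.cpS v)))⟩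

theorem Dat.tt [Finite M] {r : ℕ} {h : Fin r → M → G} {J : Subgroup (M → G)} :
    J ∈ Tt h ↔ ∃ v, (∀ j, d.β (h j v) ≠ 1) ∧ d.S v = J := by
  constructor
  · intro j
    obtain ⟨v, rfl⟩ := j.1.mem (S := Set.range d.S) (by rintro _ ⟨v, rfl⟩; exact Or.inr (d.cpS v))
      ((pf_le j.1.pf 1).trans d.der)
    exact ⟨v, fun i => mt d.supS.2 (j.2.2 i), rfl⟩
  · rintro ⟨v, a, rfl⟩
    obtain ⟨x, b, c, e⟩ := d.iv
    exact ⟨d.cpS v, ⟨_, ⟨x, b, rfl⟩, by simpa [d.ceS] using c, by simpa [d.ceS] using e⟩,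
      fun i => mt d.supS.1 (a i)⟩

theorem Dat.gd [Finite M] {r : ℕ} {h : Fin r → M → G} {x : M → G} (a : Gd (Tt h) x) (v : M) :
    (x ^ 2) v = d.ζ (if ∀ j, d.β (h j v) ≠ 1 then .ofAdd 1 else 1) := by
  have k : ∀ L : Subgroup G, (∀ w, (∀ j, d.β (h j w) ≠ 1) → ∀ g ∈ d.S w, g v ∈ L) → x v ∈ L :=
    fun L b => (sSup_le fun J j => (d.tt.1 j).elim fun w e => e.2 ▸ b w e.1 :
      _ ≤ L.comap (Pi.evalMonoidHom (fun _ => G) v)) a.1
  split_ifs with c
  · have := a.2 _ (d.tt.2 ⟨v, c, rfl⟩)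
    refine d.sq _ (k _ fun w _ g hg => ?_) (mt d.ceS.2 this.1) ((d.ceS (g := x ^ 2)).1 this.2)
    by_cases e : v = w
    · exact e ▸ (d.mem_S.1 hg).1
    · rw [(d.mem_S.1 hg).2 v e]; exact one_mem _
  · have : x v = 1 := k ⊥ fun w b g hg => (d.mem_S.1 hg).2 v fun e => c (e ▸ b)
    simp [this]

abbrev V (m : ℕ) := Fin m → ZMod 2

def Dat.P (m : ℕ) : Subgroup (V m → G) where
  carrier := {g | ∃ a : V m, ∀ v, d.β (g v) = .ofAdd (v ⬝ᵥ a)}
  one_mem' := ⟨0, by simp⟩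
  mul_mem' := fun ⟨a, u⟩ ⟨b, v⟩ => ⟨a + b, fun w => by simp [u, v, ofAdd_add]⟩
  inv_mem' := fun ⟨a, u⟩ => ⟨-a, fun w => by rw [Pi.inv_apply, map_inv, u, dotProduct_neg, ofAdd_neg]⟩

instance (m : ℕ) : (d.P m).Normal := ⟨fun _ ⟨a, u⟩ g => ⟨a, fun w => by simp [u]⟩⟩

def pr (m : ℕ) : (V m → C2) →* C2 := MonoidHom.mk' (fun k => ∏ v, k v) fun _ _ => Finset.prod_mul_distrib

def Dat.N (m : ℕ) : Subgroup (d.P m) := ((pr m).ker.map (d.ζ.compLeft (V m))).subgroupOf _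

theorem Dat.cen {m : ℕ} {x : d.P m} (h : x ∈ d.N m) (g : d.P m) : g * x = x * g := by
  obtain ⟨k, -, e⟩ := h
  exact Subtype.ext (funext fun v => by
    have : x.1 v = d.ζ (k v) := (congrFun e v).symm
    simp [this, d.zc])

instance (m : ℕ) : (d.N m).Normal := ⟨fun x hx g => by rwa [d.cen hx, mul_inv_cancel_right]⟩

theorem Dat.yes [Finite G] {r m : ℕ} (l : r + 1 < m) : Pp (r + 1) (d.P m ⧸ d.N m) := by
  intro h' x' a
  choose h e using fun j => QuotientGroup.mk'_surjective (d.N m) (h' j)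
  obtain rfl : QuotientGroup.mk' (d.N m) ∘ h = h' := funext e
  obtain ⟨x, g, rfl⟩ := a.lift (d.un.sub _) _ (QuotientGroup.mk'_surjective _)
  choose b hb using fun j => (h j).2
  obtain ⟨v1, v2, n, e⟩ := Fintype.exists_ne_map_eq_of_card_lt (fun (v : V m) j => v ⬝ᵥ b j) (by
    simpa using Nat.pow_lt_pow_right (by omega) l)
  refine (QuotientGroup.eq_one_iff (x ^ 2)).2 ⟨_, ?_, funext fun v => (d.gd ((Gd.up d.un).1 g) v).symm⟩
  refine Finset.prod_involution (fun v _ => v + (v1 - v2)) (fun v _ => ?_) (fun v _ _ => by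
    simpa [sub_eq_zero] using n) (fun _ _ => Finset.mem_univ _) fun v _ => ?_
  · have : ∀ j, (v + (v1 - v2)) ⬝ᵥ b j = v ⬝ᵥ b j := fun j => by simp [congrFun e j]
    simp only [comp_apply, coe_subtype, hb, this]
    split_ifs <;> decide
  · rw [add_assoc, ← two_smul (ZMod 2), show (2 : ZMod 2) = 0 from rfl, zero_smul, add_zero]

theorem Dat.no [Finite G] (r : ℕ) : ¬ Pp (r + 1) (d.P (r + 1) ⧸ d.N (r + 1)) := fun p => by
  let h : Fin (r + 1) → d.P (r + 1) := fun j => ⟨fun v => d.t ^ (v j).val, Pi.single j 1, fun v => by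
    simp [d.bt, ← ofAdd_nsmul]⟩
  have k : ∀ v, (∀ j, d.β (((d.P (r + 1)).subtype ∘ h) j v) ≠ 1) ↔ v = 1 := fun v => by
    simp only [comp_apply, coe_subtype, h, map_pow, d.bt, funext_iff, Pi.one_apply]
    refine forall_congr' fun j => ?_
    generalize v j = a
    revert a
    decide
  obtain ⟨x, a, b, c⟩ := d.iv
  have g : Gd (Tt ((d.P (r + 1)).subtype ∘ h)) (Pi.mulSingle (1 : V (r + 1)) x) := by
    refine ⟨(le_sSup (d.tt.2 ⟨1, (k 1).2 rfl, rfl⟩) : d.S (1 : V (r + 1)) ≤ sSup _) ⟨x, a, rfl⟩, fun J j => ?_⟩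
    obtain ⟨v, e, rfl⟩ := d.tt.1 j
    obtain rfl := (k v).1 e
    simpa [d.ceS] using ⟨b, c⟩
  let y : d.P (r + 1) := ⟨Pi.mulSingle 1 x, 0, fun v => by
    by_cases e : v = 1
    · simpa [e] using (d.ker x).1 (mem_sup_left a)
    · simp [Pi.mulSingle_eq_of_ne e]⟩
  obtain ⟨z, z1, z2⟩ := (QuotientGroup.eq_one_iff (y ^ 2)).1 (p _ _ (((Gd.up d.un (x := y)).2 g).map
    (d.un.sub _) _ (QuotientGroup.mk'_surjective _)))
  obtain rfl : z = Pi.mulSingle 1 (.ofAdd 1) := funext fun v => d.zi ((congrFun z2 v).trans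
    ((d.gd g v).trans (congrArg _ (by
      by_cases e : v = 1
      · rw [if_pos ((k v).2 e), e, Pi.mulSingle_eq_same]
      · rw [if_neg (mt (k v).1 e), Pi.mulSingle_eq_of_ne e]))))
  exact absurd (Finset.prod_pi_mulSingle' _ _ _ |>.symm.trans z1) (by simp)

theorem cp_top [Nontrivial G] (h : commutator G = ⊤) [IsSimpleGroup (G ⧸ center G)] :
    Cp (⊤ : Subgroup G) := by
  refine ⟨inferInstance, top_ne_bot, h, fun L _ b => ?_⟩
  have : L.Normal := ⟨fun x hx g => by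
    simpa [commutatorElement_def, mul_assoc] using L.mul_mem (L.inv_mem (b (commutator_mem_commutator hx
      (mem_top g)))) hx⟩
  refine ((this.map _ (QuotientGroup.mk'_surjective (center G))).eq_bot_or_eq_top.symm.imp
    (fun e => top_le_iff.1 (h.ge.trans (commutator_le.2 fun x _ y _ => ?_))) fun e x hx y _ => ?_)
  · obtain ⟨u, hu, e⟩ := e.ge (mem_top (QuotientGroup.mk x))
    have := mem_center_iff.1 (QuotientGroup.eq.1 e) y
    rw [show ⁅x, y⁆ = ⁅u, y⁆ by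
      rw [commutatorElement_def, ← mul_inv_cancel_left u x, mul_assoc u, ← this]; group]
    exact b (commutator_mem_commutator hu (mem_top y))
  · exact mem_center_iff.1 ((QuotientGroup.eq_one_iff x).1 (e.le ⟨x, hx, rfl⟩)) y

instance : Fact (Nat.Prime 5) := ⟨by norm_num⟩

def gam : (ZMod 5)ˣ →* C2 := MonoidHom.mk' (fun u => if u ^ 2 = 1 then 1 else .ofAdd 1) (by decide)

open Matrix MatrixGroups in
theorem dat : Nonempty (Dat (GL (Fin 2) (ZMod 5))) := by
  let K := (GeneralLinearGroup.det : GL (Fin 2) (ZMod 5) →* _).ker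
  have mK : ∀ g, g ∈ K ↔ g 0 0 * g 1 1 - g 0 1 * g 1 0 = 1 := fun g => by
    rw [MonoidHom.mem_ker, ← Units.val_inj, GeneralLinearGroup.val_det_apply, det_fin_two, Units.val_one]
  have hK : (⊤ : Subgroup SL(2, ZMod 5)).map SpecialLinearGroup.toGL = K := by
    refine le_antisymm (by rintro _ ⟨g, -, rfl⟩; exact SpecialLinearGroup.coeToGL_det g) fun g hg =>
      ⟨⟨g, congrArg Units.val hg⟩, trivial, Units.ext rfl⟩
  let m : ∀ a b c d : ZMod 5, a * d - b * c ≠ 0 → GL (Fin 2) (ZMod 5) := fun a b c d h =>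
    GeneralLinearGroup.mkOfDetNeZero !![a, b; c, d] (by rwa [det_fin_two_of])
  have sc : ∀ c, c ∈ Ce K ↔ c 0 1 = 0 ∧ c 1 0 = 0 ∧ c 0 0 = c 1 1 := fun c => by
    refine ⟨fun h => ?_, fun ⟨a, b, e⟩ g _ => Units.ext ?_⟩
    · have h1 := congrArg Units.val (h (m 1 1 0 1 (by decide)) ((mK _).2 (by decide)))
      have h2 := congrArg Units.val (h (m 1 0 1 1 (by decide)) ((mK _).2 (by decide)))
      have a := congrFun₂ h1 0 0
      have b := congrFun₂ h1 0 1
      have e := congrFun₂ h2 0 0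
      simp [m, mul_apply, Fin.sum_univ_two] at a b e
      exact ⟨e, a, by linear_combination -b⟩
    · ext i j
      fin_cases i <;> fin_cases j <;> simp [mul_apply, Fin.sum_univ_two, a, b, e, mul_comm]
  have : IsSimpleGroup (SL(2, ZMod 5) ⧸ center _) :=
    ProjectiveSpecialLinearGroup.rank_two_simple (by simp)
  have : Nontrivial SL(2, ZMod 5) := (QuotientGroup.mk'_surjective (center _)).nontrivial
  refine ⟨⟨K, gam.comp GeneralLinearGroup.det, MonoidHom.mk' (fun k => if k = 1 then 1 else -1)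
    (fun a b => ?_), m 2 0 0 1 (by decide), hK ▸ (cp_top (SL2.commutator_eq_top (a := (2 : ZMod 5)) (by decide)
      (by decide))).map _ (fun c => top_ne_bot ((map_eq_bot_iff_of_injective _
        SpecialLinearGroup.toGL_injective).1 c)) (hK ▸ inferInstance),
    ⟨m 0 (-1) 1 0 (by decide), (mK _).2 (by decide), by rw [sc]; decide, by rw [sc]; decide⟩,
    Abelianization.commutator_subset_ker _, fun g => ⟨fun h => ?_, fun h => ?_⟩, by decide, ?_,
    fun k g => ?_, fun x a b c => ?_⟩⟩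
  · revert a b
    decide
  · refine (sup_le (fun x hx => ?_) fun x hx => ?_ : _ ≤ (gam.comp GeneralLinearGroup.det).ker) h
    · simp [show GeneralLinearGroup.det x = 1 from hx]
    · obtain ⟨a, b, c⟩ := (sc x).1 hx
      have k : ∀ (u : (ZMod 5)ˣ) a, u.val = a * a → gam u = 1 := by decide
      exact k _ (x 1 1) (by simp [det_fin_two, a, c])
  · have k : ∀ u : (ZMod 5)ˣ, gam u = 1 → u = 1 ∨ u * GeneralLinearGroup.det (m 2 0 0 2 (by decide)) = 1 := by
      decide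
    refine (k _ h).elim (fun e => mem_sup_left e) fun e => ?_
    rw [← mul_inv_cancel_right g (m 2 0 0 2 (by decide))]
    exact mul_mem (mem_sup_left (by rwa [MonoidHom.mem_ker, map_mul]))
      (mem_sup_right (inv_mem ((sc _).2 (by decide))))
  · decide
  · simp only [MonoidHom.mk'_apply]
    split_ifs <;> simp
  · rw [sc] at b c
    rw [mK] at a
    have k : ∀ a b c d : ZMod 5, a * d - b * c = 1 ∧ a * b + b * d = 0 ∧ c * a + d * c = 0 ∧
      a * a + b * c = c * b + d * d → (b = 0 ∧ c = 0 ∧ a = d) ∨ a * a + b * c = -1 := by decide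
    simp only [sq, Units.val_mul, mul_apply, Fin.sum_univ_two] at c
    have := (k _ _ _ _ ⟨a, c⟩).resolve_left b
    ext i j
    fin_cases i <;> fin_cases j <;> simp [sq, mul_apply, Fin.sum_univ_two, c.1, c.2.1, ← c.2.2, this]

open FormLat GLS

def Gen (G : Type) [Group G] : Cls := fun H _ => Finite H ∧ ∀ F : Cls, IsForm F → F G → F H

def Sn (F : Cls) : Cls := fun H _ => Finite H ∧ ∀ K : Subgroup H, K.IsSubnormal → F K

theorem gen_fm : Fm (Gen G) :=
  ⟨mk_form (fun _ _ h => h.1) (fun _ _ _ _ f hf h => have := h.1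
    ⟨Finite.of_surjective f hf, fun F a b => surj a f hf (h.2 F a b)⟩) fun _ _ _ N L _ _ e a b =>
    ⟨‹_›, fun F c d => c.2.2.2 _ N L e (a.2 F c d) (b.2 F c d)⟩, inferInstance, fun _ a b => triv_mem a b⟩

theorem sn_fm {F : Cls} (h : Fm F) : Fm (Sn F) := by
  refine ⟨mk_form (fun _ _ h => h.1) (fun _ _ _ _ f hf ⟨_, a⟩ => ⟨Finite.of_surjective f hf, fun K k =>
    surj h.1 (f.subgroupComap K) (f.subgroupComap_surjective_of_surjective K hf) (a _ (k.comap f))⟩)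
    fun _ _ _ N L _ _ e a b => ⟨‹_›, fun K k => sub2 h.1 _ (MonoidHom.subgroupMap_surjective _ K) _
      (MonoidHom.subgroupMap_surjective _ K) (MonoidHom.id _) surjective_id (fun x h1 h2 => ?_)
      (a.2 _ k.quotient) (b.2 _ k.quotient)⟩, inferInstance, fun _ _ => h.triv⟩
  have h1 := congrArg Subtype.val h1
  have h2 := congrArg Subtype.val h2
  exact Subtype.ext (two_q e h1 h2)

theorem sn_sub {F : Cls} (h : IsForm F) (a : Sn F G) (N : Subgroup G) [n : N.Normal] : Sn F N :=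
  have := a.1
  ⟨inferInstance, fun K k => h.2.1 _ _ ⟨(K.equivMapOfInjective _ (subtype_injective N)).symm⟩
    (a.2 _ (k.trans' n.isSubnormal))⟩

theorem main : ∃ (G : Type) (_ : Group G) (_ : Finite G) (F : ℕ → Cls), Injective F ∧ ∀ r,
    IsForm (F r) ∧ (∀ (H : Type) [Group H] (N : Subgroup H), N.Normal → F r H → F r N) ∧
      Le (F r) (Gen G) := by
  obtain ⟨d⟩ := dat
  let G := (K : {K : Subgroup (GL (Fin 2) (ZMod 5)) // K.IsSubnormal}) → K.1
  have s := sn_fm (gen_fm (G := G))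
  have a : Sn (Gen G) (GL (Fin 2) (ZMod 5)) := ⟨inferInstance, fun K k => ⟨inferInstance, fun F a b =>
    surj a (Pi.evalMonoidHom (fun K : {K : Subgroup _ // K.IsSubnormal} => K.1) ⟨K, k⟩)
      (surjective_eval _) b⟩⟩
  have b : ∀ m, Sn (Gen G) (d.P m ⧸ d.N m) := fun m => s.1.2.2.1 _ _ (sn_sub gen_fm.1
    (sub_pi s (Pi.evalMonoidHom fun _ : V m => GL (Fin 2) (ZMod 5)) (fun v => by
      rw [MonoidHom.range_eq_top.2 (surjective_eval v)]; exact s.1.2.1 _ _ ⟨topEquiv.symm⟩ a)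
      fun _ => funext) _)
  have k : ∀ r t, r < t → Inf (Sn (Gen G)) (Fr (r + 1)) ≠ Inf (Sn (Gen G)) (Fr (t + 1)) := fun r t l e =>
    d.no t ((congrFun₂ e _ _).mp ⟨b (t + 1), (d.un.sub _).surj _ (QuotientGroup.mk'_surjective _),
      d.yes (by omega)⟩).2.2
  refine ⟨G, inferInstance, inferInstance, fun r => Inf (Sn (Gen G)) (Fr (r + 1)), fun r t e => ?_,
    fun r => ⟨inf_form s.1 (fr_form _), fun H _ N _ h => ⟨sn_sub gen_fm.1 h.1 N, h.2.1.sub N,
      h.2.2.sub h.2.1 N⟩, fun H _ h => gen_fm.1.2.1 _ _ ⟨topEquiv⟩ (h.1.2 _ .top)⟩⟩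
  rcases lt_trichotomy r t with l | l | l
  exacts [absurd e (k r t l), l, absurd e.symm (k t r l)]

end Pool.Agent.H22.Comp
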