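import Pool.Agent.H22.SL3

namespace Pool.Agent.H22.Comp

open Function Subgroup Syl
open Pool.Agent.H22.Fit (pel pgrp)
open scoped commutatorElement

variable {G H : Type} [Group G] [Group H]

abbrev Nm (K : Subgroup G) : Subgroup G := normalizer (K : Set G)

theorem cop {B : Subgroup G} {x : G} {m n : ℕ} (c : m.Coprime n) (a : x ^ m ∈ B) (b : x ^ n ∈ B) :
    x ∈ B := by
  have := Nat.gcd_eq_gcd_ab m n
  rw [c, Nat.cast_one] at this
  rw [← zpow_one x, this, zpow_add, zpow_mul, zpow_mul, zpow_natCast, zpow_natCast]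
  exact mul_mem (zpow_mem a _) (zpow_mem b _)

theorem ppart [Finite G] {r k : ℕ} (hr : r.Prime) {B : Subgroup G} {x : G} (h : x ^ r ^ k ∈ B) :
    ∃ y ∈ zpowers x, pel r y ∧ x⁻¹ * y ∈ B := by
  obtain ⟨a, b, c, e⟩ := Nat.exists_eq_pow_mul_and_not_dvd (orderOf_pos x).ne' r hr.ne_one
  have := Nat.gcd_eq_gcd_ab b (r ^ k)
  rw [((hr.coprime_iff_not_dvd.2 c).symm.pow_right k), Nat.cast_one] at this
  refine ⟨x ^ (b * b.gcdA (r ^ k)), ⟨_, rfl⟩, ⟨a, ?_⟩, ?_⟩
  · rw [← zpow_natCast, ← zpow_mul, mul_right_comm, zpow_mul, ← Nat.cast_mul, mul_comm, ← e,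
      zpow_natCast, pow_orderOf_eq_one, one_zpow]
  · rw [← zpow_neg_one, ← zpow_add, show -1 + b * b.gcdA (r ^ k) = (r ^ k : ℕ) * -b.gcdB (r ^ k) by
      linear_combination -this, zpow_mul, zpow_natCast]
    exact zpow_mem h _

theorem onto [Finite G] {r : ℕ} [Fact r.Prime] {R L : Subgroup G} (h : MaxP r R L) (f : G →* H)
    (a : IsPGroup r (L.map f)) {x : G} (hx : x ∈ L) : ∃ y ∈ R, f y = f x := by
  obtain ⟨S, s1, s2, s3⟩ := lift f L a
  obtain ⟨T, t1, t2⟩ := exists_maxP s2 s1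
  obtain ⟨n, hn, e⟩ := h.conj t1
  obtain ⟨s, hs, u⟩ := s3.ge ⟨_, L.mul_mem (L.mul_mem hn hx) (L.inv_mem hn), rfl⟩
  exact ⟨_, (e s).1 (t2 hs), by simp [u, mul_assoc]⟩

theorem nilO [Finite G] (N : Subgroup G) [N.Normal] [Group.IsNilpotent N] {r : ℕ} (hr : r.Prime) :
    ∃ R : Subgroup G, R.Normal ∧ IsPGroup r R ∧ ∀ x ∈ N, pel r x → x ∈ R := by
  have := Fact.mk hr
  obtain ⟨R, h, -⟩ := exists_maxP (IsPGroup.of_bot (p := r)) (bot_le (a := N))
  have : (R.subgroupOf N).Normal := (inferInstance : (h.syl : Subgroup N).Normal)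
  have n : R.Normal := normalizer_eq_top_iff.1 (top_le_iff.1 fun g _ => by
    obtain ⟨n, hn, k⟩ := h.frattini (s := g) (le_normalizer_of_normal (mem_top g))
    exact (mul_mem_cancel_right (le_normalizer_of_normal_subgroupOf h.1 hn)).1 k)
  exact ⟨R, n, h.2.1, fun x a b => h.2.2 (R ⊔ zpowers x) (sup_le h.1 (zpowers_le.2 a))
    (h.2.1.to_sup_of_normal_left (pgrp fun _ => b.zp)) le_sup_left (mem_sup_right (mem_zpowers x))⟩

def Rn (N B : Subgroup G) : Prop := ∃ c, N.lowerCentralSeries c ≤ B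

theorem Rn.mono {N B N' B' : Subgroup G} (h : Rn N B) (a : N' ≤ N) (b : B ⊓ N' ≤ B') : Rn N' B' :=
  h.imp fun c e => (le_inf ((lowerCentralSeries_mono c a).trans e) (lowerCentralSeries_le_self _ c)).trans b

theorem Rn.map {N B : Subgroup G} (h : Rn N B) (f : G →* H) : Rn (N.map f) (B.map f) :=
  h.imp fun c e => map_lowerCentralSeries N f c ▸ map_mono e

theorem Rn.comap {N B : Subgroup H} (h : Rn N B) (f : G →* H) : Rn (N.comap f) (B.comap f) :=
  h.imp fun c e => map_le_iff_le_comap.1 ((map_lowerCentralSeries _ f c).le.trans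
    ((lowerCentralSeries_mono c (map_comap_le f N)).trans e))

theorem rn_iff {N : Subgroup G} : Rn N ⊥ ↔ Group.IsNilpotent N := by
  simp [Rn, isNilpotent_iff_lowerCentralSeries]

theorem Rn.hyp {E B : Subgroup G} (V : ℕ → Subgroup G) (h : Rn E (V 0)) (a : ∀ i, ⁅V i, E⁆ ≤ V (i + 1))
    {c : ℕ} (b : V c ≤ B) : Rn E B := by
  obtain ⟨n, h⟩ := h
  have : ∀ i, E.lowerCentralSeries (n + i) ≤ V i := fun i => by
    induction i with
    | zero => exact h
    | succ i ih => exact (commutator_mono ih le_rfl).trans (a i)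
  exact ⟨_, (this c).trans b⟩

theorem gas0 [Finite G] (J N : Subgroup G) [J.Normal] [N.Normal] (a : Rn N J)
    (b : ∀ L, L ⊔ J = ⊤ → L = ⊤) : Rn N ⊥ := by
  refine rn_iff.2 ((Group.isNilpotent_of_finite_tfae.out 0 3).2 (?_ : ∀ (r : ℕ) (_ : Fact r.Prime)
    (P : Sylow r N), (P : Subgroup N).Normal))
  intro r hr P
  have := Normal.map ‹N.Normal› _ (QuotientGroup.mk'_surjective J)
  have := rn_iff.1 ((a.map (QuotientGroup.mk' J)).mono le_rfl (by simp))
  obtain ⟨O, _, o1, o2⟩ := nilO (N.map (QuotientGroup.mk' J)) hr.out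
  obtain ⟨R, h, -⟩ := exists_maxP (IsPGroup.of_bot (p := r)) (bot_le (a := N))
  have h' : MaxP r R (O.comap (QuotientGroup.mk' J) ⊓ N) := ⟨le_inf (fun x hx => o2 _ ⟨x, h.1 hx, rfl⟩
    ((pel.of_mem h.2.1 hx).map _)) h.1, h.2.1, fun U u => h.2.2 U (u.trans inf_le_right)⟩
  have : R.Normal := normalizer_eq_top_iff.1 (b _ (top_le_iff.1 fun g _ => by
    obtain ⟨n, hn, k⟩ := h'.frattini (s := g) (le_normalizer_of_normal (mem_top g))
    obtain ⟨y, hy, e⟩ := onto h' (QuotientGroup.mk' J) (o1.to_le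
      (map_le_iff_le_comap.2 inf_le_left)) hn
    rw [show g = g * n * y⁻¹ * (y * n⁻¹) by group]
    refine mul_mem (mem_sup_left (mul_mem k (inv_mem (le_normalizer hy)))) (mem_sup_right ?_)
    simpa [← div_eq_mul_inv] using QuotientGroup.eq_iff_div_mem.1 e))
  have n : (h.syl : Subgroup N).Normal := (inferInstance : (R.subgroupOf N).Normal)
  have := Sylow.unique_of_normal h.syl n
  exact Subsingleton.elim h.syl P ▸ n

theorem gas [Finite G] (B J N : Subgroup G) [B.Normal] [J.Normal] [N.Normal] (a : Rn N J)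
    (b : ∀ L, B ≤ L → L ⊔ J = ⊤ → L = ⊤) : Rn N B := by
  have s := QuotientGroup.mk'_surjective B
  have := Normal.map ‹N.Normal› _ s
  have := Normal.map ‹J.Normal› _ s
  refine ((gas0 _ _ (a.map (QuotientGroup.mk' B)) fun L e => comap_injective s
    (b _ (QuotientGroup.le_comap_mk' B L) ?_)).comap (QuotientGroup.mk' B)).mono (le_comap_map _ _)
    (by simp)
  rw [← sup_eq_left.2 (QuotientGroup.le_comap_mk' B L), sup_assoc,
    ← QuotientGroup.comap_map_mk' B J, comap_sup_eq _ _ _ s, e, comap_top]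

theorem comm_sup {V X Y W : Subgroup G} (a : X ≤ Nm W) (b : Y ≤ Nm W) (c : ⁅V, X⁆ ≤ W) (d : ⁅V, Y⁆ ≤ W) :
    ⁅V, X ⊔ Y⁆ ≤ W := by
  rw [commutator_comm] at c d ⊢
  exact commutator_le.2 fun g hg v hv => ((sup_le (fun x h => ⟨a h, c (commutator_mem_commutator h hv)⟩)
    fun x h => ⟨b h, d (commutator_mem_commutator h hv)⟩ : _ ≤ Cm W v) hg).2

theorem Rn.cen [Finite G] {E P : Subgroup G} {r : ℕ} [Fact r.Prime] (h : Rn E P) (a : E ≤ P ⊔ Ce P)
    (p : IsPGroup r P) : Rn E ⊥ := by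
  obtain ⟨c, e⟩ := rn_iff.2 p.isNilpotent
  have k : ∀ i, ∀ x ∈ Ce P, ∀ v ∈ P.lowerCentralSeries i, v * x = x * v := fun i x hx v hv =>
    hx v (lowerCentralSeries_le_self P i hv)
  exact h.hyp P.lowerCentralSeries (fun i => (commutator_mono le_rfl a).trans (comm_sup
    (self_le_normalizer_lowerCentralSeries _ _) (le_normalizer_iff.2 fun x hx v hv => by
      rwa [← k _ x hx v hv, mul_inv_cancel_right]) le_rfl (commutator_le.2 fun v hv x hx => by
      rw [commutatorElement_eq_one_iff_mul_comm.2 (k i x hx v hv)]; exact one_mem _))) e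

theorem cyc {Z : Subgroup G} [Z.Normal] {s : G} : ⁅Z ⊔ zpowers s, Z ⊔ zpowers s⁆ ≤ Z :=
  commutator_le.2 fun x a y b => by
    obtain ⟨u, hu, _, ⟨i, rfl⟩, rfl⟩ := mem_sup_of_normal_left.1 a
    obtain ⟨v, hv, _, ⟨j, rfl⟩, rfl⟩ := mem_sup_of_normal_left.1 b
    rw [← QuotientGroup.eq_one_iff, ← QuotientGroup.mk'_apply, map_commutatorElement]
    simp [(QuotientGroup.eq_one_iff _).2 hu, (QuotientGroup.eq_one_iff _).2 hv,
      commutatorElement_eq_one_iff_mul_comm, zpow_mul_comm]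

def Nl : ℕ → (G : Type) → [Group G] → Prop
  | 0, G, _ => Subsingleton G
  | k + 1, G, _ => ∃ (N : Subgroup G) (_ : N.Normal), Group.IsNilpotent N ∧ Nl k (G ⧸ N)

theorem Nl.succ {k : ℕ} (h : Nl k G) : Nl (k + 1) G := by
  induction k generalizing G with
  | zero => exact ⟨⊤, inferInstance, have : Subsingleton G := h; inferInstance,
      QuotientGroup.subsingleton_quotient_top⟩
  | succ k ih => exact h.imp fun _ h => h.imp fun _ h => ⟨h.1, ih h.2⟩

def Rt : ℕ → Subgroup G → Prop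
  | 0, B => ⊤ ≤ B
  | k + 1, B => ∃ N : Subgroup G, N.Normal ∧ Rn N B ∧ Rt k N

theorem Rt.nl {k : ℕ} {B : Subgroup G} (h : Rt k B) (f : G →* H) (hf : Surjective f) (a : B ≤ f.ker) :
    Nl k H := by
  induction k generalizing H B with
  | zero => exact ⟨fun x y => by
      obtain ⟨x, rfl⟩ := hf x
      obtain ⟨y, rfl⟩ := hf y
      exact (a (h trivial)).trans (a (h trivial)).symm⟩
  | succ k ih =>
    obtain ⟨N, n, b, c⟩ := h
    have := n.map f hf
    exact ⟨N.map f, this, rn_iff.1 ((b.map f).mono le_rfl (inf_le_left.trans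
      ((Subgroup.map_eq_bot_iff _).2 a).le)), ih c ((QuotientGroup.mk' _).comp f)
      ((QuotientGroup.mk'_surjective _).comp hf) fun x hx => (QuotientGroup.eq_one_iff _).2 ⟨x, hx, rfl⟩⟩

theorem nl3 {U N M : Subgroup G} (a : U ≤ Nm N) (b : U ≤ Nm M) (c : Rn N ⊥) (d : Rn M N) (e : Rn U M) :
    Nl 3 U :=
  Rt.nl (B := ⊥) ⟨_, normal_subgroupOf_of_le_normalizer a, (c.comap U.subtype).mono le_rfl (by simp),
    _, normal_subgroupOf_of_le_normalizer b, d.comap _, ⊤, inferInstance,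
    (e.comap U.subtype).mono (fun x _ => x.2) inf_le_left, le_rfl⟩ (.id _) surjective_id bot_le

end Pool.Agent.H22.Comp
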