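import Pool.Agent.H22.Crit

namespace Pool.Agent.H22.Comp

open Function Subgroup Syl
open Pool.Agent.H22.Fit (pel pgrp)
open scoped commutatorElement

variable {G H : Type} [Group G] [Group H] {A B A' B' C L P : Subgroup G} {s t g : G}

def Cz (A B : Subgroup G) : Subgroup G := Nm A ⊓ Nm B ⊓ ⨅ a ∈ A, Cm B a

theorem mem_Cz : g ∈ Cz A B ↔ g ∈ Nm A ⊓ Nm B ∧ ∀ a ∈ A, ⁅g, a⁆ ∈ B := by
  simp only [Cz, mem_inf, mem_iInf]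
  exact and_congr_right fun h => ⟨fun k a b => (k a b).2, fun k a b => ⟨h.2, k a b⟩⟩

theorem nm1 (h : g ∈ Nm A) {a : G} (b : a ∈ A) : g * a * g⁻¹ ∈ A := (mem_normalizer_iff.1 h a).1 b

theorem cz_conj {n : G} (h : n ∈ Nm A ⊓ Nm B) (a : g ∈ Cz A B) : n * g * n⁻¹ ∈ Cz A B :=
  mem_Cz.2 ⟨mul_mem (mul_mem h (mem_Cz.1 a).1) (inv_mem h), fun x hx => by
    rw [show ⁅n * g * n⁻¹, x⁆ = n * ⁅g, n⁻¹ * x * n⁻¹⁻¹⁆ * n⁻¹ by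
      simp only [commutatorElement_def]; group]
    exact nm1 h.2 ((mem_Cz.1 a).2 _ (nm1 (inv_mem h.1) hx))⟩

theorem cz_mono (a : g ∈ Cz A B) (l : A' ≤ A) (m : B ⊓ A' ≤ B') (n : g ∈ Nm A' ⊓ Nm B') : g ∈ Cz A' B' :=
  mem_Cz.2 ⟨n, fun x hx => m ⟨(mem_Cz.1 a).2 x (l hx), A'.mul_mem (nm1 n.1 hx) (A'.inv_mem hx)⟩⟩

structure Bd (A B : Subgroup G) (s t : G) : Prop where
  le : B ≤ A
  ab : A ≤ Cz A B
  p5 : ∀ a ∈ A, ∃ k, a ^ 5 ^ k ∈ B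
  sn : s ∈ Nm A ⊓ Nm B
  tn : t ∈ Nm A ⊓ Nm B
  s1 : s ∉ Cz A B
  s3 : s ^ 3 ∈ Cz A B
  t2 : t ^ 2 ∈ Cz A B
  ts : t * s * t⁻¹ * s ∈ Cz A B

theorem Bd.cop (h : Bd A B s t) {x : G} {n : ℕ} (a : x ∈ A) (c : n.Coprime 5) (b : x ^ n ∈ B) : x ∈ B :=
  (h.p5 x a).elim fun k e => Comp.cop (c.pow_right k) b e

theorem Bd.nm (h : Bd A B s t) (l : A' ≤ A) (k : B' ≤ A') (m : B ⊓ A' ≤ B') : A' ≤ Nm B' :=
  le_normalizer_iff.2 fun a u b v => by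
    rw [← inv_mul_cancel_right (a * b * a⁻¹) b]
    exact mul_mem (m ⟨(mem_Cz.1 (h.ab (l u))).2 b (l (k v)), A'.mul_mem (nm1 (le_normalizer u) (k v))
      (A'.inv_mem (k v))⟩) v

theorem Bd.sec (h : Bd A B s t) (l : A' ≤ A) (k : B' ≤ A') (m : B ⊓ A' ≤ B') (a : s ∈ Nm A' ⊓ Nm B')
    (b : t ∈ Nm A' ⊓ Nm B') (c : s ∉ Cz A' B') : Bd A' B' s t :=
  ⟨k, fun _ u => cz_mono (h.ab (l u)) l m ⟨le_normalizer u, h.nm l k m u⟩, fun x u => (h.p5 x (l u)).imp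
    fun _ e => m ⟨e, pow_mem u _⟩, a, b, c, cz_mono h.s3 l m (pow_mem a 3), cz_mono h.t2 l m (pow_mem b 2),
    cz_mono h.ts l m (mul_mem (mul_mem (mul_mem b a) (inv_mem b)) a)⟩

theorem Bd.key (h : Bd A B s t) (l : A' ≤ A) (c : ∀ a ∈ A', ⁅s, a⁆ ∈ B) {x : G} (e : x ∈ A' ⊔ B) :
    ⁅s, x⁆ ∈ B := by
  have k : ∀ a ∈ A, ⁅s, a⁆ ∈ B → a ∈ Cm B s := fun a u v =>
    ⟨(mem_Cz.1 (h.ab u)).1.2, commutatorElement_inv s a ▸ inv_mem v⟩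
  exact commutatorElement_inv x s ▸ inv_mem ((sup_le (fun a u => k a (l u) (c a u)) fun b u =>
    k b (h.le u) (mul_mem (nm1 h.sn.2 u) (inv_mem u)) : _ ≤ Cm B s) e).2

theorem Bd.res (h : Bd A B s t) (l : A' ≤ A) (a : s ∈ Nm A') (b : t ∈ Nm A') (e : A ≤ A' ⊔ B) :
    Bd A' (B ⊓ A') s t :=
  h.sec l inf_le_right le_rfl ⟨a, inf_normalizer_le_normalizer_inf ⟨h.sn.2, a⟩⟩
    ⟨b, inf_normalizer_le_normalizer_inf ⟨h.tn.2, b⟩⟩ fun c => h.s1 (mem_Cz.2 ⟨h.sn, fun x u =>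
      h.key l (fun a v => ((mem_Cz.1 c).2 a v).1) (e u)⟩)

theorem Bd.split (h : Bd A B s t) (a : s ∈ Nm C) (b : t ∈ Nm C) :
    Bd A (B ⊔ A ⊓ C) s t ∨ Bd (A ⊓ C) (B ⊓ (A ⊓ C)) s t := by
  have k : ∀ g ∈ Nm A ⊓ Nm B, g ∈ Nm C → g ∈ Nm (A ⊓ C) := fun g u v =>
    inf_normalizer_le_normalizer_inf ⟨u.1, v⟩
  by_contra! c
  refine h.s1 (mem_Cz.2 ⟨h.sn, fun x u => ?_⟩)
  have c1 := (mem_Cz.1 (not_not.1 (mt (h.sec le_rfl (sup_le h.le inf_le_left) (le_sup_of_le_left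
    inf_le_left) ⟨h.sn.1, normalizer_inf_normalizer_le_normalizer_sup _ _ ⟨h.sn.2, k s h.sn a⟩⟩
    ⟨h.tn.1, normalizer_inf_normalizer_le_normalizer_sup _ _ ⟨h.tn.2, k t h.tn b⟩⟩) c.1))).2 x u
  have c2 := (mem_Cz.1 (not_not.1 (mt (h.sec inf_le_left inf_le_right le_rfl ⟨k s h.sn a,
    inf_normalizer_le_normalizer_inf ⟨h.sn.2, k s h.sn a⟩⟩ ⟨k t h.tn b,
    inf_normalizer_le_normalizer_inf ⟨h.tn.2, k t h.tn b⟩⟩) c.2))).2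
  have c3 := h.key inf_le_left (fun a v => (c2 a v).1) (sup_comm B _ ▸ c1)
  have v : ⁅s, x⁆ ∈ A := mul_mem (nm1 h.sn.1 u) (inv_mem u)
  have e := (mem_Cz.1 h.s3).2 x u
  rw [show ⁅s ^ 3, x⁆ = s * ⁅s, ⁅s, x⁆⁆ * s⁻¹ * ⁅s, ⁅s, x⁆⁆ * (⁅s, x⁆ * ⁅s, ⁅s, x⁆⁆ * ⁅s, x⁆⁻¹) *
    ⁅s, x⁆ ^ 3 by simp only [commutatorElement_def, pow_three]; group] at e
  exact h.cop v (by norm_num) ((mul_mem_cancel_left (mul_mem (mul_mem (nm1 h.sn.2 c3) c3)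
    (nm1 (mem_Cz.1 (h.ab v)).1.2 c3))).1 e)

theorem Bd.chg (h : Bd A B s t) {z w : G} {i j : ℤ} (a : z ∈ Cz A B) (b : w ∈ Cz A B)
    (c : z * s ^ i ∉ Cz A B) : Bd A B (z * s ^ i) (w * s ^ j * t) := by
  have l : Cz A B ≤ Nm A ⊓ Nm B := fun _ h => (mem_Cz.1 h).1
  have : ((Cz A B).subgroupOf (Nm A ⊓ Nm B)).Normal := ⟨fun _ u n => cz_conj n.2 u⟩
  let f := QuotientGroup.mk' ((Cz A B).subgroupOf (Nm A ⊓ Nm B))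
  have k : ∀ x, f x = 1 ↔ x.1 ∈ Cz A B := fun x => QuotientGroup.eq_one_iff x
  have e1 := (k (⟨s, h.sn⟩ ^ 3)).2 h.s3
  have e2 := (k (⟨t, h.tn⟩ ^ 2)).2 h.t2
  have e3 := (k (⟨t, h.tn⟩ * ⟨s, h.sn⟩ * ⟨t, h.tn⟩⁻¹ * ⟨s, h.sn⟩)).2 h.ts
  have e4 := (k ⟨z, l a⟩).2 a
  have e5 := (k ⟨w, l b⟩).2 b
  simp only [map_mul, map_pow, map_inv] at e1 e2 e3
  have e6 : ∀ n : ℤ, f ⟨t, h.tn⟩ * f ⟨s, h.sn⟩ ^ n = (f ⟨s, h.sn⟩ ^ n)⁻¹ * f ⟨t, h.tn⟩ := fun n => by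
    rw [← inv_zpow, ← eq_inv_of_mul_eq_one_left e3, conj_zpow, inv_mul_cancel_right]
  refine ⟨h.le, h.ab, h.p5, mul_mem (l a) (zpow_mem h.sn i), mul_mem (mul_mem (l b) (zpow_mem h.sn j)) h.tn,
    c, (k ((⟨z, l a⟩ * ⟨s, h.sn⟩ ^ i) ^ 3)).1 ?_, (k ((⟨w, l b⟩ * ⟨s, h.sn⟩ ^ j * ⟨t, h.tn⟩) ^ 2)).1 ?_,
    (k (⟨w, l b⟩ * ⟨s, h.sn⟩ ^ j * ⟨t, h.tn⟩ * (⟨z, l a⟩ * ⟨s, h.sn⟩ ^ i) *
      (⟨w, l b⟩ * ⟨s, h.sn⟩ ^ j * ⟨t, h.tn⟩)⁻¹ * (⟨z, l a⟩ * ⟨s, h.sn⟩ ^ i))).1 ?_⟩ <;>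
    simp only [map_mul, map_pow, map_inv, map_zpow, e4, e5, one_mul]
  · rw [← zpow_natCast, ← zpow_mul, mul_comm, zpow_mul, zpow_natCast, e1, one_zpow]
  · rw [sq, mul_assoc, ← mul_assoc (f ⟨t, _⟩), e6, mul_assoc, mul_inv_cancel_left, ← sq, e2]
  · rw [mul_assoc (_ ^ j), e6]
    group

theorem Bd.into (h : Bd A B s t) [(Cz A B).Normal] (e : L ⊔ Cz A B = ⊤) :
    ∃ s' ∈ L, ∃ t' ∈ L, Bd A B s' t' := by
  rw [sup_comm] at e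
  obtain ⟨z, a, s', b, rfl⟩ := mem_sup_of_normal_left.1 (e.ge (mem_top s))
  obtain ⟨w, c, t', d, rfl⟩ := mem_sup_of_normal_left.1 (e.ge (mem_top t))
  refine ⟨s', b, t', d, ?_⟩
  simpa using h.chg (i := 1) (j := 0) (inv_mem a) (inv_mem c) (by
    simpa using fun k => h.s1 (mul_mem a k))

theorem cz_map (f : G →* H) (a : g ∈ Cz A B) : f g ∈ Cz (A.map f) (B.map f) :=
  mem_Cz.2 ⟨⟨le_normalizer_map f ⟨g, (mem_Cz.1 a).1.1, rfl⟩, le_normalizer_map f ⟨g, (mem_Cz.1 a).1.2, rfl⟩⟩,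
    by rintro _ ⟨x, u, rfl⟩; exact ⟨_, (mem_Cz.1 a).2 x u, map_commutatorElement f g x⟩⟩

theorem Bd.map (h : Bd A B s t) (f : G →* H) (k : A ⊓ f.ker ≤ B) :
    Bd (A.map f) (B.map f) (f s) (f t) := by
  refine ⟨map_mono h.le, by rintro _ ⟨x, u, rfl⟩; exact cz_map f (h.ab u), by
    rintro _ ⟨x, u, rfl⟩; exact (h.p5 x u).imp fun _ e => ⟨_, e, map_pow ..⟩,
    ⟨le_normalizer_map f ⟨s, h.sn.1, rfl⟩, le_normalizer_map f ⟨s, h.sn.2, rfl⟩⟩,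
    ⟨le_normalizer_map f ⟨t, h.tn.1, rfl⟩, le_normalizer_map f ⟨t, h.tn.2, rfl⟩⟩,
    fun c => h.s1 (mem_Cz.2 ⟨h.sn, fun x u => ?_⟩), map_pow f s 3 ▸ cz_map f h.s3,
    map_pow f t 2 ▸ cz_map f h.t2, by simpa using cz_map f h.ts⟩
  obtain ⟨b, v, e⟩ := (mem_Cz.1 c).2 _ ⟨x, u, rfl⟩
  exact (mul_mem_cancel_left (inv_mem v)).1 (k ⟨A.mul_mem (A.inv_mem (h.le v))
    (A.mul_mem (nm1 h.sn.1 u) (A.inv_mem u)), show f _ = 1 by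
      rw [map_mul, map_inv, e, map_commutatorElement, inv_mul_cancel]⟩)

theorem Bd.comap {A B : Subgroup H} (f : G →* H) (h : Bd A B (f s) (f t)) (a : s ∈ L) (b : t ∈ L)
    (c : A ≤ L.map f) : Bd (A.comap f ⊓ L) (B.comap f ⊓ L) s t := by
  have n : ∀ g ∈ L, f g ∈ Nm A ⊓ Nm B → g ∈ Nm (A.comap f ⊓ L) ⊓ Nm (B.comap f ⊓ L) := fun g u v =>
    ⟨inf_normalizer_le_normalizer_inf ⟨le_normalizer_comap f v.1, le_normalizer u⟩,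
      inf_normalizer_le_normalizer_inf ⟨le_normalizer_comap f v.2, le_normalizer u⟩⟩
  have k : ∀ g ∈ L, f g ∈ Cz A B → g ∈ Cz (A.comap f ⊓ L) (B.comap f ⊓ L) := fun g u v =>
    mem_Cz.2 ⟨n g u (mem_Cz.1 v).1, fun x w => ⟨by simpa using (mem_Cz.1 v).2 _ w.1,
      L.mul_mem (nm1 (le_normalizer u) w.2) (L.inv_mem w.2)⟩⟩
  refine ⟨inf_le_inf_right _ (comap_mono h.le), fun x u => k x u.2 (h.ab u.1), fun x u =>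
    (h.p5 _ u.1).imp fun _ e => ⟨by simpa using e, pow_mem u.2 _⟩, n s a h.sn, n t b h.tn,
    fun e => h.s1 (mem_Cz.2 ⟨h.sn, fun x u => ?_⟩), k _ (pow_mem a 3) (by simpa using h.s3),
    k _ (pow_mem b 2) (by simpa using h.t2), k _ (mul_mem (mul_mem (mul_mem b a) (inv_mem b)) a)
      (by simpa using h.ts)⟩
  obtain ⟨y, v, rfl⟩ := c u
  simpa using ((mem_Cz.1 e).2 y ⟨u, v⟩).1

def Wt (P A B : Subgroup G) (s t : G) : Prop :=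
  Bd A B s t ∧ IsPGroup 7 P ∧ A ≤ Nm P ∧ s ∈ Nm P ∧ t ∈ Nm P ∧ A ⊓ Ce P ≤ B

def Wit (G : Type) [Group G] : Prop := ∃ (P A B : Subgroup G) (s t : G), Wt P A B s t

instance : Fact (Nat.Prime 7) := ⟨by norm_num⟩

theorem Wt.map (h : Bd A B s t) (f : G →* H) {Q : Subgroup H} (p : IsPGroup 7 Q)
    (a : A ≤ (Nm Q).comap f) (b : f s ∈ Nm Q) (c : f t ∈ Nm Q) (d : A ⊓ (Ce Q).comap f ≤ B) : Wit H :=
  ⟨Q, _, _, _, _, h.map f (le_trans (inf_le_inf_left _ fun x u => by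
    rw [mem_comap, show f x = 1 from u]; exact one_mem _) d), p, map_le_iff_le_comap.2 a, b, c, by
    rintro _ ⟨⟨x, u, rfl⟩, v⟩
    exact ⟨x, d ⟨u, v⟩, rfl⟩⟩

theorem Wt.map' (h : Wt P A' B' s t) (k : Bd A B s t) (l : A ≤ A') (f : G →* H)
    (d : A ⊓ (Ce (P.map f)).comap f ≤ B) : Wit H :=
  Wt.map k f (h.2.1.map f) (fun x u => le_normalizer_map f ⟨x, h.2.2.1 (l u), rfl⟩)
    (le_normalizer_map f ⟨s, h.2.2.2.1, rfl⟩) (le_normalizer_map f ⟨t, h.2.2.2.2.1, rfl⟩) d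

theorem nm_ce : Nm P ≤ Nm (Ce P) := le_normalizer_iff.2 fun y v z w a b => by
  have := w _ (nm1 (inv_mem v) b)
  calc _ = y * (y⁻¹ * a * y⁻¹⁻¹ * z) * y⁻¹ := by group
    _ = _ := by rw [this]; group

theorem Wit.two {K : Type} [Group K] (h : Wit G) (f : G →* H) (g : G →* K)
    (i : ∀ x, f x = 1 → g x = 1 → x = 1) : Wit H ∨ Wit K := by
  obtain ⟨P, A, B, s, t, h⟩ := h
  have n : ∀ x ∈ Nm P, x ∈ Nm ((Ce (P.map f)).comap f) := fun x u =>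
    le_normalizer_comap f (nm_ce (le_normalizer_map f ⟨x, u, rfl⟩))
  refine (h.1.split (n s h.2.2.2.1) (n t h.2.2.2.2.1)).imp (fun k => h.map' k le_rfl f le_sup_right)
    fun k => h.map' k inf_le_left g fun x u => mem_inf.2 ⟨h.2.2.2.2.2 ⟨u.1.1, fun y v =>
      commutatorElement_eq_one_iff_mul_comm.1 (i _ ?_ ?_)⟩, u.1⟩ <;>
    rw [map_commutatorElement, commutatorElement_eq_one_iff_mul_comm]
  exacts [u.1.2 _ ⟨y, v, rfl⟩, u.2 _ ⟨y, v, rfl⟩]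

theorem Wit.inj (h : Wit G) (f : G →* H) (i : Injective f) : Wit H :=
  (h.two f f fun x a _ => i (a.trans (map_one f).symm)).elim id id

theorem Wt.pull [Finite G] {P A B : Subgroup H} {s t : H} (h : Wt P A B s t) (f : G →* H)
    (a : P ≤ f.range) (b : A ≤ f.range) (c : s ∈ f.range) (d : t ∈ f.range) : Wit G := by
  obtain ⟨Q, q, -⟩ := exists_maxP (IsPGroup.of_bot (p := 7)) (bot_le (a := P.comap f))
  have o := fun x => onto (x := x) q f (h.2.1.to_le (map_comap_le f P))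
  have k : ∀ n ∈ Nm P, n ∈ f.range → n ∈ (Nm Q).map f := by
    rintro _ u ⟨g, rfl⟩
    obtain ⟨m, v, w⟩ := q.frattini (le_normalizer_comap f u)
    obtain ⟨y, y1, y2⟩ := o m v
    exact ⟨g * m * y⁻¹, mul_mem w (inv_mem (le_normalizer y1)), by simp [y2]⟩
  obtain ⟨s, s1, rfl⟩ := k s h.2.2.2.1 c
  obtain ⟨t, t1, rfl⟩ := k t h.2.2.2.2.1 d
  refine ⟨Q, _, _, s, t, h.1.comap f s1 t1 fun x u => k x (h.2.2.1 u) (b u), q.2.1, inf_le_right, s1, t1,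
    fun x u => ⟨h.2.2.2.2.2 ⟨u.1.1, fun y v => ?_⟩, u.1.2⟩⟩
  obtain ⟨y, rfl⟩ := a v
  obtain ⟨z, z1, z2⟩ := o y v
  rw [← z2, ← map_mul, u.2 z z1, map_mul]

theorem Wit.surj [Finite G] (h : Wit H) (f : G →* H) (hf : Surjective f) : Wit G := by
  obtain ⟨P, A, B, s, t, h⟩ := h
  exact h.pull f (fun x _ => hf x) (fun x _ => hf x) (hf s) (hf t)

end Pool.Agent.H22.Comp
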