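import Pool.Agent.H22.LocFit

namespace Pool.Agent.H22.Fit

open Subgroup Function Pool.Agent.H22.Syl
open scoped commutatorElement

variable {G H : Type} [Group G] [Group H] {F X : Cls} {p : ℕ}

def Ft (C : Cls) : Prop := (∀ (G : Type) [Group G], C G → Finite G) ∧ WFit C

def Pr (X Y : Cls) : Cls := fun G _ => ∃ (N : Subgroup G) (_ : N.Normal), X N ∧
  (∀ K : Subgroup G, K.Normal → X K → K ≤ N) ∧ Y (G ⧸ N)

def LH (h : ℕ → Cls) (G : Type) [Group G] : Prop :=
  (∀ p : ℕ, p.Prime → p ∣ Nat.card G → Ne (h p)) ∧ ∀ p : ℕ, p.Prime → Ne (h p) →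
    Pr (h p) (Pr (fun G _ => IsPGroup p G) fun G _ => ¬ p ∣ Nat.card G) G

def Loc (F : Cls) : Prop :=
  ∃ h : ℕ → Cls, (∀ p, Ft (h p)) ∧ ∀ (G : Type) [Group G] [Finite G], F G ↔ LH h G

def lFit (M : Type) [Group M] : Cls := fun G _ => ∀ L : Cls, Ft L → Loc L → L M → L G

def Good (N : Subgroup G) : Prop :=
  N.Normal ∧ ∀ M : Subgroup G, M.IsSubnormal → lFit ↥(N ⊓ M) = lFit M

def Psi (G : Type) [Group G] : Subgroup G := sInf {N | Good N}

theorem psi_least (G : Type) [Group G] [Finite G] : IsLeast {N : Subgroup G | Good N} (Psi G) := by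
  obtain ⟨N, hN, hm⟩ := (wellFounded_lt (α := Subgroup G)).has_min {N | Good N}
    ⟨⊤, inferInstance, fun M _ => by rw [top_inf_eq]⟩
  have l : ∀ K, Good K → N ≤ K := fun K hK => by
    have := hN.1
    have := hK.1
    by_contra e
    exact hm (N ⊓ K) ⟨inferInstance, fun M h => by
      rw [inf_assoc, hN.2 _ (hK.1.isSubnormal.inf h), hK.2 M h]⟩ (inf_lt_left.2 e)
  have : Psi G = N := le_antisymm (sInf_le hN) (le_sInf l)
  exact this ▸ ⟨hN, l⟩

theorem WFit.iso (h : WFit X) (e : G ≃* H) (a : X G) : X H := h.1 _ _ ⟨e⟩ a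

theorem WFit.sub (h : WFit X) [Finite G] {K : Subgroup G} (hK : K.IsSubnormal) (a : X G) : X K := by
  induction hK with
  | top => exact h.iso topEquiv.symm a
  | step H K e _ hn ih => exact h.iso (subgroupOfEquivOfLe e) (h.2.1 _ _ hn ih)

theorem WFit.le (h : WFit X) [Finite G] {N K : Subgroup G} (hN : N.IsSubnormal) (e : N ≤ K)
    (a : X K) : X N := h.iso (subgroupOfEquivOfLe e) (h.sub hN.subgroupOf a)

theorem WFit.map (h : WFit X) {K : Subgroup G} (φ : G →* H) (hφ : Injective φ) (a : X K) :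
    X (K.map φ) := h.iso (K.equivMapOfInjective φ hφ) a

theorem WFit.comap (h : WFit X) {K : Subgroup H} (φ : G →* H) (hφ : Injective φ)
    (e : K ≤ φ.range) : X (K.comap φ) ↔ X K := by
  have i := (K.comap φ).equivMapOfInjective φ hφ
  rw [map_comap_eq_self e] at i
  exact ⟨h.iso i, h.iso i.symm⟩

def cl (r : ℕ) (G : Type) [Group G] : Subgroup G := closure {x | pel r x}

instance (r : ℕ) : (cl r G).Normal := ⟨fun n hn g => by
  refine closure_induction (p := fun n _ => g * n * g⁻¹ ∈ cl r G) (fun x hx => subset_closure (hx.conj g))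
    (by simp) (fun x y _ _ a b => by simpa [mul_assoc] using mul_mem a b)
    (fun x _ a => by simpa [mul_assoc] using inv_mem a) hn⟩

def Cr (X : Cls) (r : ℕ) (G : Type) [Group G] : Prop :=
  ∃ K : Subgroup G, K.Normal ∧ X K ∧ ∀ x ∈ cl r G, ∃ j, x ^ r ^ j ∈ K

theorem crit (hX : WFit X) [Finite G] (hp : p.Prime) :
    Pr X (Pr (fun G _ => IsPGroup p G) fun G _ => ¬ p ∣ Nat.card G) G ↔ Cr X p G := by
  constructor
  · rintro ⟨N, _, a, -, P, _, b, -, c⟩
    refine ⟨N, ‹_›, a, fun x hx => ?_⟩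
    have : cl p G ≤ P.comap (QuotientGroup.mk' N) := (closure_le _).2 fun y hy =>
      Clo.mem hp (hp.coprime_iff_not_dvd.2 c).symm (hy.map _)
    exact (pel.of_mem b (this hx)).imp fun k hk => (QuotientGroup.eq_one_iff _).1 hk
  · rintro ⟨K, a, b, c⟩
    obtain ⟨N, _, d, e⟩ := hX.rad ⟨K, inferInstance, inferInstance, b⟩ G
    have sj := QuotientGroup.mk'_surjective N
    have := (inferInstance : (cl p G).Normal).map _ sj
    have key : ∀ y, pel p y → y ∈ (cl p G).map (QuotientGroup.mk' N) := fun y hy => by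
      obtain ⟨x, h1, rfl⟩ := hy.lift hp _ sj
      exact ⟨x, subset_closure h1, rfl⟩
    refine ⟨N, ‹_›, d, e, (cl p G).map (QuotientGroup.mk' N), ‹_›, pgrp ?_,
      fun T _ hT y hy => key y (pel.of_mem hT hy), fun hd => ?_⟩
    · rintro _ ⟨x, hx, rfl⟩
      exact (c x hx).imp fun k hk => (QuotientGroup.eq_one_iff _).2 (e K a b hk)
    · have := Fact.mk hp
      obtain ⟨z, hz⟩ := exists_prime_orderOf_dvd_card' p hd
      obtain ⟨y, h1, rfl⟩ := pel.lift (y := z) hp _ (QuotientGroup.mk'_surjective _)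
        ⟨1, orderOf_dvd_iff_pow_eq_one.1 (by rw [hz, pow_one])⟩
      rw [QuotientGroup.mk'_apply, (QuotientGroup.eq_one_iff _).2 (key y h1), orderOf_one] at hz
      exact hp.one_lt.ne hz

theorem Cr.up (hX : WFit X) [Finite G] (N : Subgroup G) [N.Normal] (hN : ∀ x, pel p x → x ∈ N)
    (h : Cr X p N) : Cr X p G := by
  obtain ⟨K, a, b, c⟩ := h
  obtain ⟨R, d, e, f⟩ := hX.rad ⟨K, inferInstance, inferInstance, b⟩ N
  have : R.Characteristic := characteristic_iff_map_le.2 fun ϕ =>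
    f _ (d.map _ ϕ.surjective) (hX.map _ ϕ.injective e)
  refine ⟨R.map N.subtype, inferInstance, hX.map _ N.subtype_injective e, fun x hx => ?_⟩
  have l : cl p G ≤ (cl p N).map N.subtype := (closure_le _).2 fun y hy =>
    ⟨⟨y, hN y hy⟩, subset_closure (hy.imp fun k hk => Subtype.ext hk), rfl⟩
  obtain ⟨y, hy, rfl⟩ := l hx
  exact (c y hy).imp fun k hk => ⟨_, f K a b hk, rfl⟩

theorem dv [Finite G] (hp : p.Prime) {z : G} (a : pel p z) (b : z ≠ 1) : p ∣ Nat.card G := by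
  by_contra e
  exact b (a.eq_one (hp.coprime_iff_not_dvd.2 e) pow_card_eq_one')

theorem top_pow {B : Subgroup G} [B.Normal] {g : G} (h : B ⊔ zpowers g = ⊤) (x : G) :
    (x : G ⧸ B) ∈ zpowers (g : G ⧸ B) := by
  obtain ⟨b, hb, _, ⟨i, rfl⟩, rfl⟩ := mem_sup_of_normal_left.1 (h.ge (mem_top x))
  exact ⟨i, by simp [(QuotientGroup.eq_one_iff b).2 hb]⟩

theorem top_comm {B : Subgroup G} [B.Normal] {g : G} (h : B ⊔ zpowers g = ⊤) (a b : G) :
    ⁅a, b⁆ ∈ B := by
  obtain ⟨i, hi⟩ := top_pow h a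
  obtain ⟨j, hj⟩ := top_pow h b
  refine (QuotientGroup.eq_one_iff _).1 ((map_commutatorElement (QuotientGroup.mk' B) a b).trans ?_)
  rw [QuotientGroup.mk'_apply, QuotientGroup.mk'_apply, ← hi, ← hj]
  exact commutatorElement_eq_one_iff_mul_comm.2 (zpow_mul_comm _ _ _)

theorem pel.zp {g x : G} (h : pel p g) (hx : x ∈ zpowers g) : pel p x := by
  obtain ⟨i, rfl⟩ := hx
  exact h.imp fun k hk => by
    simp only; rw [← zpow_natCast, ← zpow_mul, mul_comm, zpow_mul, zpow_natCast, hk, one_zpow]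

theorem cyc_tot [Finite G] (hp : p.Prime) {g u : G} (hg : pel p g) (hu : u ∈ zpowers g) (k : ℕ)
    (h : u ∉ zpowers (g ^ p ^ k)) : g ^ p ^ k ∈ zpowers u := by
  obtain ⟨i, rfl⟩ := (mem_powers_iff_mem_zpowers).2 hu
  have hi : i ≠ 0 := by rintro rfl; exact h (by simp)
  obtain ⟨j, c, hc, rfl⟩ := Nat.exists_eq_pow_mul_and_not_dvd hi p hp.ne_one
  simp only at h ⊢
  rcases le_total k j with e | e
  · obtain ⟨d, rfl⟩ := Nat.exists_eq_add_of_le e
    exact absurd (by rw [pow_add, mul_assoc, pow_mul]; exact npow_mem_zpowers _ _) h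
  · obtain ⟨d, rfl⟩ := Nat.exists_eq_add_of_le e
    rw [pow_add, pow_mul, pow_mul]
    refine pow_mem (mem_zpowers_pow_iff.2 ?_) _
    obtain ⟨l, hl⟩ := hg.zp (npow_mem_zpowers g (p ^ j))
    exact (((hp.coprime_iff_not_dvd.2 hc).symm.pow_right l).coprime_dvd_right
      (orderOf_dvd_of_pow_eq_one hl))

structure Rt (F : Cls) (p k : ℕ) (A B : Subgroup G) (g : G) : Prop where
  nA : A.Normal
  nB : B.Normal
  le : A ≤ B
  pe : pel p g
  nm : g ^ p ^ k ∉ B
  g1 : ∀ b ∈ B, ∀ N : Subgroup G, (∀ a ∈ A, ⁅a, b * g ^ p ^ k⁆ ∈ N) → A ≤ N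
  g2 : ∀ N : Subgroup G, (∀ q : ℕ, q.Prime → q ≠ p → ∀ x ∈ A, pel q x → x ∈ N) → A ≤ N
  ft : ∀ X : Cls, WFit X → X A → X B
  mem : F ↥(B ⊔ zpowers (g ^ p ^ k))

theorem Rt.up [Finite G] (hp : p.Prime) {k : ℕ} {A B : Subgroup G} {g : G} (h : Rt F p k A B g)
    (ht : B ⊔ zpowers g = ⊤) {M : Subgroup G} (hM : M.IsSubnormal) {L : Cls} (hL : Ft L)
    (hl : Loc L) (a : L ↥((B ⊔ zpowers (g ^ p ^ k)) ⊓ M)) : L M := by
  obtain ⟨f, hf, e⟩ := hl
  have := h.nB
  set C := B ⊔ zpowers (g ^ p ^ k) with hC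
  have : C.Normal := normal_of_comm fun x y => mem_sup_left (top_comm ht x y)
  by_cases hle : M ≤ C
  · rwa [inf_eq_right.2 hle] at a
  obtain ⟨u, u1, u2⟩ := SetLike.not_le_iff_exists.1 hle
  have hg := h.pe.map (QuotientGroup.mk' B)
  have h1 := cyc_tot hp hg (top_pow ht u) k (by
    rintro ⟨i, hi⟩
    refine u2 ?_
    have : ((g ^ p ^ k) ^ i)⁻¹ * u ∈ B := QuotientGroup.eq.1 hi
    simpa using C.mul_mem (mem_sup_right (zpow_mem_zpowers _ i)) (mem_sup_left this))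
  have h2 : (g : G ⧸ B) ^ p ^ k ∈ M.map (QuotientGroup.mk' B) :=
    (zpowers_le.2 (mem_map_of_mem (QuotientGroup.mk' B) u1)) h1
  obtain ⟨m, m1, m2⟩ := pel.lift (y := ⟨_, h2⟩) hp _ ((QuotientGroup.mk' B).subgroupMap_surjective M)
    ((hg.zp (npow_mem_zpowers _ (p ^ k))).imp fun k hk => Subtype.ext hk)
  have m3 : (m.1 : G ⧸ B) = (g ^ p ^ k : G) := congrArg Subtype.val m2
  have hb : m.1 * (g ^ p ^ k)⁻¹ ∈ B := (QuotientGroup.eq_one_iff _).1 (by simp [m3])
  have g1 := h.g1 _ hb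
  rw [inv_mul_cancel_right] at g1
  have mC : m.1 ∈ C := by
    simpa using C.mul_mem (mem_sup_left hb) (mem_sup_right (mem_zpowers (g ^ p ^ k)))
  have AM : ∀ M : Subgroup G, M.IsSubnormal → m.1 ∈ M → A ≤ M := by
    intro M hM
    induction hM with
    | top => exact fun _ => le_top
    | step H K c _ hn ih =>
      exact fun hm => g1 H fun a ha =>
        H.mul_mem ((normal_subgroupOf_iff c).1 hn _ a hm (ih (c hm) ha)) (H.inv_mem hm)
  have A0 : A ≤ C ⊓ M := le_inf (h.le.trans le_sup_left) (AM M hM m.2)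
  have a1 := (e _).1 a
  have a2 := (e _).1 (hL.2.iso (subgroupOfEquivOfLe inf_le_right).symm a)
  rw [inf_subgroupOf_right] at a2
  have mp : pel p (⟨m.1, mC, m.2⟩ : ↥(C ⊓ M)) := (m1.map M.subtype).imp fun k hk => Subtype.ext hk
  have np := a1.1 p hp (dv hp mp fun c => h.nm (by
    have : m.1 = 1 := congrArg Subtype.val c
    simpa [this] using hb))
  have pw : ∀ x : G, ∃ j, x ^ p ^ j ∈ B := fun x =>
    (hg.zp (top_pow ht x)).imp fun j hj => (QuotientGroup.eq_one_iff _).1 hj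
  have inC : ∀ r : ℕ, r.Prime → r ≠ p → ∀ x : M, pel r x → x ∈ C.subgroupOf M :=
    fun r hr hne x hx => mem_sup_left (pel_mem hr hp hne pw (hx.map M.subtype))
  refine (e _).2 ⟨fun r hr hd => ?_, fun r hr hn => (crit (hf r).2 hr).2 ?_⟩
  · by_cases c : r = p
    · exact c ▸ np
    have := Fact.mk hr
    obtain ⟨z, hz⟩ := exists_prime_orderOf_dvd_card' r hd
    have z1 : pel r z := ⟨1, by rw [pow_one, ← hz, pow_orderOf_eq_one]⟩
    refine a2.1 r hr (dv hr (z := ⟨z, inC r hr c z z1⟩) (z1.imp fun k hk => Subtype.ext hk) fun d => ?_)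
    rw [show z = 1 from congrArg Subtype.val d, orderOf_one] at hz
    exact hr.one_lt.ne hz
  by_cases c : r = p
  swap
  · exact Cr.up (hf r).2 _ (inC r hr c) ((crit (hf r).2 hr).1 (a2.2 r hr hn))
  subst c
  obtain ⟨K, _, k2, k3⟩ := (crit (hf r).2 hr).1 (a1.2 r hr hn)
  have A1 : A ≤ (cl r ↥(C ⊓ M)).map (C ⊓ M).subtype := g1 _ fun a ha =>
    ⟨_, mul_mem (subset_closure (mp.conj ⟨a, A0 ha⟩)) (inv_mem (subset_closure mp)), rfl⟩
  have A2 : A ≤ K.map (C ⊓ M).subtype := h.g2 _ fun q hq hne x hx hx' => by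
    obtain ⟨y, hy, rfl⟩ := A1 hx
    have y1 : pel q y := hx'.imp fun k hk => Subtype.ext hk
    exact ⟨y, (QuotientGroup.eq_one_iff y).1 ((y1.map (QuotientGroup.mk' K)).two hq hr hne
      ((k3 y hy).imp fun _ hk => (QuotientGroup.eq_one_iff _).2 hk)), rfl⟩
  have hB := h.ft _ (hf r).2 ((hf r).2.le h.nA.isSubnormal A2
    ((hf r).2.map _ (subtype_injective _) k2))
  have hB' := (hf r).2.iso (subgroupOfEquivOfLe inf_le_right).symm
    ((hf r).2.le (h.nB.isSubnormal.inf hM) inf_le_left hB)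
  rw [inf_subgroupOf_right] at hB'
  exact ⟨B.subgroupOf M, inferInstance, hB', fun x _ => pw x.1⟩

def Sat (F : Cls) : Prop := ∀ (G : Type) [Group G] [Finite G], F (Psi G) → F G

theorem Rt.step [Finite G] (hF : WFit F) (hS : Sat F) (hp : p.Prime) {k : ℕ} {A B : Subgroup G}
    {g : G} (h : Rt F p k A B g) (ht : B ⊔ zpowers g = ⊤) : F G := by
  have hn : (B ⊔ zpowers (g ^ p ^ k)).Normal :=
    have := h.nB
    normal_of_comm fun x y => mem_sup_left (top_comm ht x y)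
  refine hS G (hF.le (psi_least G).1.1.isSubnormal ((psi_least G).2 ⟨hn, fun M hM => ?_⟩) h.mem)
  funext K _
  exact propext ⟨fun a L b c d => a L b c (b.2.le (hn.isSubnormal.inf hM) inf_le_right d),
    fun a L b c d => a L b c (h.up hp ht hM b c d)⟩

theorem Rt.comap (hF : WFit F) {k : ℕ} {A B : Subgroup H} {g : G} (φ : G →* H) (hφ : Injective φ)
    (h : Rt F p k A B (φ g)) (hB : B ≤ φ.range) : Rt F p k (A.comap φ) (B.comap φ) g := by
  have e : ∀ N : Subgroup G, A ≤ N.map φ → A.comap φ ≤ N := fun N hN =>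
    (comap_mono hN).trans (comap_map_eq_self_of_injective hφ N).le
  refine ⟨h.nA.comap φ, h.nB.comap φ, comap_mono h.le, h.pe.imp fun j hj => hφ (by simpa using hj),
    fun c => h.nm (by simpa using c), fun b hb N hN => e N (h.g1 _ hb _ fun a ha => ?_),
    fun N hN => e N (h.g2 _ fun q hq hne x hx hx' => ?_), fun X hX a => ?_, ?_⟩
  · obtain ⟨a, rfl⟩ := hB (h.le ha)
    exact ⟨_, hN a ha, by simp [map_commutatorElement]⟩
  · obtain ⟨x, rfl⟩ := hB (h.le hx)
    exact ⟨x, hN q hq hne x hx (hx'.imp fun j hj => hφ (by simpa using hj)), rfl⟩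
  · exact (hX.comap φ hφ hB).2 (h.ft X hX ((hX.comap φ hφ (h.le.trans hB)).1 a))
  · refine hF.iso ((B.comap φ ⊔ zpowers (g ^ p ^ k)).equivMapOfInjective φ hφ).symm ?_
    rw [Subgroup.map_sup, map_comap_eq_self hB, MonoidHom.map_zpowers, map_pow]
    exact h.mem

theorem Rt.res (hF : WFit F) {k : ℕ} {A B : Subgroup G} {g : G} (h : Rt F p k A B g) :
    Rt F p k (A.subgroupOf (B ⊔ zpowers g)) (B.subgroupOf (B ⊔ zpowers g))
      ⟨g, mem_sup_right (mem_zpowers g)⟩ :=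
  Rt.comap hF (B ⊔ zpowers g).subtype (subtype_injective _) h (by simp)

theorem res_top (B : Subgroup G) (g : G) : B.subgroupOf (B ⊔ zpowers g) ⊔
    zpowers ⟨g, mem_sup_right (mem_zpowers g)⟩ = ⊤ :=
  map_injective (subtype_injective _) (by
    rw [Subgroup.map_sup, MonoidHom.map_zpowers, subgroupOf_map_subtype, inf_eq_left.2 le_sup_left]
    simp [← MonoidHom.range_eq_map])

instance (A : Subgroup G) [h : A.Normal] : (A.map (MonoidHom.inl G H)).Normal :=
  ⟨by rintro _ ⟨x, hx, rfl⟩ g; exact ⟨_, h.conj_mem x hx g.1, by ext <;> simp⟩⟩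

instance (A : Subgroup H) [h : A.Normal] : (A.map (MonoidHom.inr G H)).Normal :=
  ⟨by rintro _ ⟨x, hx, rfl⟩ g; exact ⟨_, h.conj_mem x hx g.2, by ext <;> simp⟩⟩

theorem comm_inl (a : G) (u : G × H) : MonoidHom.inl G H ⁅a, u.1⁆ = ⁅((a, 1) : G × H), u⁆ := by
  ext <;> simp [commutatorElement_def]

theorem comm_inr (a : H) (u : G × H) : MonoidHom.inr G H ⁅a, u.2⁆ = ⁅((1, a) : G × H), u⁆ := by
  ext <;> simp [commutatorElement_def]

theorem WFit.prod (hX : WFit X) [Finite G] [Finite H] {A : Subgroup G} {K : Subgroup H} [A.Normal]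
    [K.Normal] : X (A.prod K) ↔ X A ∧ X K := by
  have i : Injective (MonoidHom.inl G H) := fun x y h => congrArg Prod.fst h
  have j : Injective (MonoidHom.inr G H) := fun x y h => congrArg Prod.snd h
  have a : (A.map (MonoidHom.inl G H)).Normal := inferInstance
  have b : (K.map (MonoidHom.inr G H)).Normal := inferInstance
  have e : A.prod K = A.map (MonoidHom.inl G H) ⊔ K.map (MonoidHom.inr G H) :=
    le_antisymm (prod_le_iff.2 ⟨le_sup_left, le_sup_right⟩)
      (sup_le (prod_le_iff.1 le_rfl).1 (prod_le_iff.1 le_rfl).2)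
  rw [e]
  exact ⟨fun h => ⟨hX.iso (A.equivMapOfInjective _ i).symm (hX.le a.isSubnormal le_sup_left h),
    hX.iso (K.equivMapOfInjective _ j).symm (hX.le b.isSubnormal le_sup_right h)⟩,
    fun h => hX.2.2 _ _ _ a b (hX.map _ i h.1) (hX.map _ j h.2)⟩

theorem Rt.ext [Finite G] [Finite H] (hF : WFit F) (hS : Sat F) (hp : p.Prime) {k : ℕ}
    {A : Subgroup G} {w : G} (h : Rt F p k A A w) (ht : A ⊔ zpowers w = ⊤) {K : Subgroup H}
    [K.Normal] {x : H} (hx : x ^ p ^ k = 1) (ht' : K ⊔ zpowers x = ⊤)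
    (hK : ∀ X : Cls, WFit X → X A → X K) : F H := by
  have := h.nA
  have i : Injective (MonoidHom.inl G H) := fun x y h => congrArg Prod.fst h
  have hn : (A ⊔ zpowers (w ^ p ^ k)).Normal := normal_of_comm fun x y => mem_sup_left (top_comm ht x y)
  have fK := hK F hF (hF.le h.nA.isSubnormal le_sup_left h.mem)
  have c : ∀ a b : G × H, ⁅a, b⁆ ∈ A.prod K := fun a b => ⟨top_comm ht a.1 b.1, top_comm ht' a.2 b.2⟩
  have h2 : Rt F p k (A.map (MonoidHom.inl G H)) (A.prod K) (w, x) := by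
    refine ⟨inferInstance, inferInstance, (prod_le_iff.1 le_rfl).1, ?_,
      fun c => h.nm c.1, fun b hb N hN => map_le_iff_le_comap.2 (h.g1 _ hb.1 _ fun a ha => ?_),
      fun N hN => map_le_iff_le_comap.2 (h.g2 _ fun q hq hne y hy hy' =>
        hN q hq hne _ ⟨y, hy, rfl⟩ (hy'.map _)), fun X hX a => ?_, ?_⟩
    · obtain ⟨j, hj⟩ := h.pe
      exact ⟨j + k, Prod.ext (by simp [pow_add, pow_mul, hj])
        (by rw [add_comm]; simp [pow_add, pow_mul, hx])⟩
    · exact mem_comap.2 ((comm_inl a (b * (w, x) ^ p ^ k)).symm ▸ hN _ ⟨a, ha, rfl⟩)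
    · have := hX.iso (A.equivMapOfInjective _ i).symm a
      exact hX.prod.2 ⟨this, hK X hX this⟩
    · exact hF.le (normal_of_comm fun a b => mem_sup_left (c a b)).isSubnormal
        (sup_le (prod_mono le_sup_left le_rfl) (zpowers_le.2
          ⟨mem_sup_right (mem_zpowers _), show x ^ p ^ k ∈ K from hx ▸ K.one_mem⟩)) (hF.prod.2 ⟨h.mem, fK⟩)
  have h3 := (h2.res hF).step hF hS hp (res_top _ _)
  have h4 := hF.2.2 _ _ _ (normal_of_comm fun a b => mem_sup_left (c a b))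
    (inferInstance : ((⊤ : Subgroup G).prod (⊥ : Subgroup H)).Normal) h3
    (hF.prod.2 ⟨hF.iso topEquiv.symm (h.step hF hS hp ht), hF.le IsSubnormal.bot bot_le fK⟩)
  refine hF.iso topEquiv (hF.prod.1 (hF.le (N := (⊥ : Subgroup G).prod ⊤)
    (Normal.isSubnormal inferInstance) (fun y hy => ?_) h4)).2
  obtain ⟨b, hb, _, ⟨j, rfl⟩, e⟩ := mem_sup_of_normal_left.1 (ht'.ge (mem_top y.2))
  rw [show y = (1, b) * (w, x) ^ j * ((w ^ j)⁻¹ * y.1, 1) from Prod.ext (by simp) (by simp [← e])]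
  exact mul_mem (mem_sup_left (mul_mem (mem_sup_left ⟨A.one_mem, hb⟩)
    (mem_sup_right (zpow_mem_zpowers _ j)))) (mem_sup_right ⟨mem_top _, rfl⟩)

structure Src (p : ℕ) (A : Subgroup G) (y : G) : Prop where
  cm : ∀ a b : G, ⁅a, b⁆ ∈ A
  pe : pel p y
  nm : y ∉ A
  g1 : ∀ b ∈ A, ∀ N : Subgroup G, (∀ a ∈ A, ⁅a, b * y⁆ ∈ N) → A ≤ N
  g2 : ∀ N : Subgroup G, (∀ q : ℕ, q.Prime → q ≠ p → ∀ x ∈ A, pel q x → x ∈ N) → A ≤ N

theorem Src.prod {A : Subgroup G} {y : G} {B : Subgroup H} {z : H} (a : Src p A y) (b : Src p B z) :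
    Src p (A.prod B) (y, z) := by
  refine ⟨fun u v => ⟨a.cm u.1 v.1, b.cm u.2 v.2⟩, ?_, fun c => a.nm c.1, fun u hu N hN =>
    prod_le_iff.2 ⟨map_le_iff_le_comap.2 (a.g1 _ hu.1 _ fun v hv => ?_),
      map_le_iff_le_comap.2 (b.g1 _ hu.2 _ fun v hv => ?_)⟩, fun N hN =>
    prod_le_iff.2 ⟨map_le_iff_le_comap.2 (a.g2 _ fun q hq hne x hx hx' =>
      hN q hq hne _ ⟨hx, B.one_mem⟩ (hx'.map _)), map_le_iff_le_comap.2 (b.g2 _
        fun q hq hne x hx hx' => hN q hq hne _ ⟨A.one_mem, hx⟩ (hx'.map _))⟩⟩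
  · obtain ⟨j, hj⟩ := a.pe
    obtain ⟨k, hk⟩ := b.pe
    exact ⟨j + k, Prod.ext (by simp [pow_add, pow_mul, hj])
      (by rw [add_comm]; simp [pow_add, pow_mul, hk])⟩
  · exact mem_comap.2 ((comm_inl v (u * (y, z))).symm ▸ hN (v, 1) ⟨hv, B.one_mem⟩)
  · exact mem_comap.2 ((comm_inr v (u * (y, z))).symm ▸ hN (1, v) ⟨A.one_mem, hv⟩)

theorem Src.pi {A : Subgroup G} {y : G} (a : Src p A y) (Q : Type) [Finite Q] [Nonempty Q] :
    Src p (Subgroup.pi Set.univ fun _ : Q => A) fun _ => y := by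
  classical
  have m : ∀ i, ∀ x ∈ A, (Pi.mulSingle i x : Q → G) ∈ Subgroup.pi Set.univ fun _ : Q => A :=
    fun i x hx => (mulSingle_mem_pi (f := fun _ : Q => G) i x).2 fun _ => hx
  refine ⟨fun u v i _ => a.cm (u i) (v i), a.pe.imp fun k hk => funext fun _ => hk,
    fun c => a.nm (c (Classical.arbitrary Q) trivial), fun u hu N hN =>
    pi_le_iff.2 fun i => map_le_iff_le_comap.2 (a.g1 _ (hu i trivial) _ fun v hv => ?_), fun N hN =>
    pi_le_iff.2 fun i => map_le_iff_le_comap.2 (a.g2 _ fun q hq hne x hx hx' =>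
      hN q hq hne _ (m i x hx) (hx'.map _))⟩
  refine mem_comap.2 (Eq.mp (congrArg (· ∈ N) (funext fun j => ?_)) (hN _ (m i v hv)))
  by_cases e : j = i
  · subst e; simp [commutatorElement_def]
  · simp [commutatorElement_def, Pi.mulSingle_eq_of_ne e]

open RegularWreathProduct Multiplicative

theorem root_pow (n : ℕ) [NeZero n] (y : G) (j : ℕ) (hj : j ≤ n) :
    (⟨Pi.mulSingle 1 y, ofAdd 1⟩ : G ≀ᵣ Multiplicative (ZMod n)) ^ j =
      ⟨fun x => if (toAdd x).val < j then y else 1, ofAdd (j : ZMod n)⟩ := by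
  induction j with
  | zero => ext <;> simp
  | succ j ih =>
    rw [pow_succ, ih (by omega)]
    refine RegularWreathProduct.ext (funext fun x => ?_) (by simp [← ofAdd_add])
    have v : (j : ZMod n).val = j := ZMod.val_cast_of_lt (by omega)
    simp only [mul_left, Pi.mul_apply]
    by_cases e : x = ofAdd (j : ZMod n)
    · subst e; simp [v]
    · have : (toAdd x).val ≠ j := fun c => e (congrArg ofAdd (ZMod.val_injective n (c.trans v.symm)))
      rw [Pi.mulSingle_eq_of_ne (fun c => e (inv_mul_eq_one.1 c).symm), mul_one]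
      exact if_congr (by omega) rfl rfl

theorem IsFit.w (hF : IsFit F) : WFit F :=
  ⟨fun _ _ _ _ ⟨e⟩ h => hF.iso _ _ e h, fun _ _ _ N a b => hF.sn _ N a b, hF.n0⟩

theorem Src.root (hF : IsFit F) (hp : p.Prime) (hG : F G) {A : Subgroup G} {y : G} (a : Src p A y)
    (k : ℕ) : ∃ (W : Type) (_ : Group W) (_ : Finite W) (B : Subgroup W) (w : W),
      Rt F p k B B w ∧ B ⊔ zpowers w = ⊤ ∧ ∀ X : Cls, WFit X → X B → X A := by
  classical
  have := (hF.fin _ hG).1
  have : NeZero (p ^ k) := ⟨pow_ne_zero k hp.ne_zero⟩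
  let Q := Multiplicative (ZMod (p ^ k))
  have s := a.pi Q
  set C := Subgroup.pi Set.univ fun _ : Q => A
  have i : Injective (base G Q) := fun f g h => congrArg RegularWreathProduct.left h
  have nA : A.Normal := normal_of_comm a.cm
  have e : (⟨Pi.mulSingle 1 y, ofAdd 1⟩ : G ≀ᵣ Q) ^ p ^ k = base G Q fun _ => y := by
    rw [root_pow _ _ _ le_rfl]
    exact RegularWreathProduct.ext (funext fun x => if_pos (ZMod.val_lt _))
      (congrArg ofAdd (ZMod.natCast_self _))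
  have n : (C.map (base G Q)).Normal := ⟨by
    rintro _ ⟨f, hf, rfl⟩ g
    refine ⟨fun x => g.left x * f (g.right⁻¹ * x) * (g.left x)⁻¹,
      fun x _ => nA.conj_mem _ (hf _ trivial) _, ?_⟩
    ext <;> simp [base]⟩
  have h : Rt F p k (C.map (base G Q)) (C.map (base G Q)) ⟨Pi.mulSingle 1 y, ofAdd 1⟩ := by
    refine ⟨n, n, le_rfl, ?_, ?_, ?_, fun N hN => map_le_iff_le_comap.2 (s.g2 _
      fun q hq hne x hx hx' => hN q hq hne _ ⟨x, hx, rfl⟩ (hx'.map _)), fun _ _ h => h, ?_⟩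
    · obtain ⟨j, hj⟩ := s.pe
      exact ⟨k + j, by rw [pow_add, pow_mul, e, ← map_pow, hj, map_one]⟩
    · rw [e]
      rintro ⟨f, hf, c⟩
      exact s.nm (i c ▸ hf)
    · rintro _ ⟨b, hb, rfl⟩ N hN
      refine map_le_iff_le_comap.2 (s.g1 b hb _ fun v hv => ?_)
      rw [mem_comap, map_commutatorElement, map_mul, ← e]
      exact hN _ ⟨v, hv, rfl⟩
    · rw [e, ← MonoidHom.map_zpowers, ← Subgroup.map_sup]
      exact hF.w.map _ i (hF.sn _ _ (normal_of_comm fun u v => mem_sup_left (s.cm u v)) (hF.pi Q hG))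
  refine ⟨_, inferInstance, inferInstance, _, _, h.res hF.w, res_top _ _, fun X hX b => ?_⟩
  have j := Pi.mulSingle_injective (M := fun _ : Q => G) 1
  refine hX.iso (A.equivMapOfInjective (MonoidHom.mulSingle (fun _ : Q => G) 1) j).symm
    (hX.le (Normal.isSubnormal ⟨?_⟩) (pi_le_iff.1 (le_refl C) 1) (hX.iso (C.equivMapOfInjective _ i).symm
      (hX.iso (subgroupOfEquivOfLe le_sup_left) b)))
  rintro _ ⟨x, hx, rfl⟩ g
  refine ⟨_, nA.conj_mem x hx (g 1), funext fun t => ?_⟩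
  by_cases c : t = 1
  · subst c; simp
  · simp [Pi.mulSingle_eq_of_ne c]

def ff (F : Cls) (p : ℕ) : Cls := fun K _ => ∃ (S : Type) (_ : Group S) (A : Subgroup S) (y : S),
  F S ∧ Src p A y ∧ ∀ X : Cls, WFit X → X A → X K

theorem ff_le (hF : IsFit F) (h : ff F p G) : F G := by
  obtain ⟨S, _, A, y, a, b, c⟩ := h
  exact c F hF.w (hF.sn _ _ (normal_of_comm b.cm) a)

theorem ff_ft (hF : IsFit F) (p : ℕ) : Ft (ff F p) := by
  refine ⟨fun G _ h => (hF.fin _ (ff_le hF h)).1, ?_, ?_, ?_⟩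
  · rintro G K _ _ ⟨e⟩ ⟨S, _, A, y, a, b, c⟩
    exact ⟨S, _, A, y, a, b, fun X hX h => hX.iso e (c X hX h)⟩
  · rintro G _ _ N hN ⟨S, _, A, y, a, b, c⟩
    exact ⟨S, _, A, y, a, b, fun X hX h => hX.2.1 _ N hN (c X hX h)⟩
  · rintro G _ _ N K hN hK ⟨S, _, A, y, a, b, c⟩ ⟨T, _, B, z, a', b', c'⟩
    have := (hF.fin _ a).1
    have := (hF.fin _ a').1
    have := normal_of_comm b.cm
    have := normal_of_comm b'.cm
    exact ⟨S × T, _, _, _, hF.prod a a', b.prod b', fun X hX h =>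
      hX.2.2 _ N K hN hK (c X hX (hX.prod.1 h).1) (c' X hX (hX.prod.1 h).2)⟩

theorem ff_ext (hF : IsFit F) (hS : Sat F) (hp : p.Prime) [Finite G] {K : Subgroup G} [K.Normal]
    (h : ff F p K) {x : G} (hx : pel p x) : F ↥(K ⊔ zpowers x) := by
  obtain ⟨S, _, A, y, a, b, c⟩ := h
  obtain ⟨k, hk⟩ := hx
  obtain ⟨W, _, _, B, w, d, e, f⟩ := b.root hF hp a k
  exact d.ext hF.w hS hp e (Subtype.ext hk) (res_top K x) fun X hX h =>
    hX.iso (subgroupOfEquivOfLe le_sup_left).symm (c X hX (f X hX h))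

theorem sub_cyc [Finite G] (hp : p.Prime) {K C : Subgroup G} [K.Normal] [C.Normal]
    (h : ∀ x ∈ C, ∃ j, x ^ p ^ j ∈ K) {x : G} (hx : x ∈ C) : (K ⊔ zpowers x).IsSubnormal := by
  have := Fact.mk hp
  have sj := QuotientGroup.mk'_surjective K
  have n := (inferInstance : C.Normal).map _ sj
  have : IsPGroup p (C.map (QuotientGroup.mk' K)) := pgrp (by
    rintro _ ⟨x, hx, rfl⟩
    exact (h x hx).imp fun k hk => (QuotientGroup.eq_one_iff _).2 hk)
  have := this.isNilpotent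
  have := (IsSubnormal.trans (map_mono (zpowers_le.2 hx)) (nil_sub _) n.isSubnormal).comap
    (QuotientGroup.mk' K)
  rwa [comap_map_eq, QuotientGroup.ker_mk', sup_comm] at this

theorem src_min [Finite G] [Group.IsSolvable G] (hp : p.Prime) {y : G} (hy : pel p y) (h1 : y ≠ 1)
    (hm : ∀ N : Subgroup G, N.IsSubnormal → y ∈ N → N = ⊤) :
    Src p (commutator G) y ∧ commutator G ⊔ zpowers y = ⊤ := by
  have : Nontrivial G := ⟨y, 1, h1⟩
  have cm : ∀ a b : G, ⁅a, b⁆ ∈ commutator G := fun a b =>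
    commutator_mem_commutator (mem_top a) (mem_top b)
  have t := hm (commutator G ⊔ zpowers y) (normal_of_comm fun a b => mem_sup_left (cm a b)).isSubnormal
    (mem_sup_right (mem_zpowers y))
  have lc : ∀ N : Subgroup G, (∀ a b : G, ⁅a, b⁆ ∈ N) → commutator G ≤ N := fun N h =>
    commutator_le.2 fun a _ b _ => h a b
  refine ⟨⟨cm, hy, fun c => (Group.IsSolvable.commutator_lt_top_of_nontrivial G).ne
    (hm _ (Normal.isSubnormal inferInstance) c), fun b hb N hN => ?_, fun N hN => ?_⟩, t⟩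
  · have t' : commutator G ⊔ zpowers (b * y) = ⊤ := top_le_iff.1 (t.ge.trans (sup_le le_sup_left
      (zpowers_le.2 (by simpa using (mul_mem (mem_sup_left (inv_mem hb))
        (mem_sup_right (mem_zpowers (b * y))) : _ ∈ commutator G ⊔ zpowers (b * y))))))
    generalize b * y = s at hN t'
    have n : ⁅commutator G, zpowers s⁆.Normal := by
      rw [← normalizer_eq_top_iff, eq_top_iff, ← t']
      exact sup_le (normalizer_commutator_ge_left _ _) (normalizer_commutator_ge_right _ _)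
    have l : ⁅commutator G, zpowers s⁆ ≤ N := commutator_le.2 fun a ha z hz => by
      obtain ⟨i, rfl⟩ := mem_powers_iff_mem_zpowers.2 hz
      clear hz
      induction i generalizing a with
      | zero => simp
      | succ i ih =>
        have := N.mul_mem (hN a ha) (ih _ ((inferInstance : (commutator G).Normal).conj_mem a ha s))
        convert this using 1
        simp only [commutatorElement_def]
        group
    refine le_trans ?_ l
    set C := ⁅commutator G, zpowers s⁆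
    have ce : ∀ z ∈ zpowers s, ∀ g : G, (g : G ⧸ C) * z = z * g := fun z hz g => by
      obtain ⟨a, ha, _, ⟨i, rfl⟩, rfl⟩ := mem_sup_of_normal_left.1 (t'.ge (mem_top g))
      have h1 : Commute (a : G ⧸ C) z := commutatorElement_eq_one_iff_mul_comm.1
        ((QuotientGroup.eq_one_iff ⁅a, z⁆).2 (commutator_mem_commutator ha hz))
      obtain ⟨j, rfl⟩ := hz
      have h2 : Commute ((s ^ i : G) : G ⧸ C) (s ^ j : G) :=
        congrArg QuotientGroup.mk (zpow_mul_comm s i j)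
      exact (h1.mul_left h2 :)
    rw [← QuotientGroup.ker_mk' C, ← Subgroup.map_eq_bot_iff]
    by_contra c
    refine (Group.IsSolvable.commutator_lt_of_ne_bot c).not_ge (map_le_iff_le_comap.2 (lc _ fun u v => ?_))
    obtain ⟨a, ha, z, hz, rfl⟩ := mem_sup_of_normal_left.1 (t'.ge (mem_top u))
    obtain ⟨b, hb, w, hw, rfl⟩ := mem_sup_of_normal_left.1 (t'.ge (mem_top v))
    refine mem_comap.2 (Eq.mp (congrArg (· ∈ _) ?_) (commutator_mem_commutator
      (mem_map_of_mem (QuotientGroup.mk' C) ha) (mem_map_of_mem (QuotientGroup.mk' C) hb)))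
    have h1 := ce z hz (b * w)
    have h2 := ce w hw a⁻¹
    simp only [commutatorElement_def, QuotientGroup.mk'_apply, QuotientGroup.mk_mul,
      QuotientGroup.mk_inv, mul_inv_rev] at h1 h2 ⊢
    calc _ = (a : G ⧸ C) * b * ((a : G ⧸ C)⁻¹ * w) * ((w : G ⧸ C)⁻¹ * (b : G ⧸ C)⁻¹) := by group
      _ = (a : G ⧸ C) * (b * w * z) * ((z : G ⧸ C)⁻¹ * (a : G ⧸ C)⁻¹) *
        ((w : G ⧸ C)⁻¹ * (b : G ⧸ C)⁻¹) := by rw [h2]; group
      _ = _ := by rw [h1]; group
  · let D := closure {x : G | ∃ q : ℕ, q.Prime ∧ q ≠ p ∧ pel q x}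
    have : D.Normal := ⟨fun n hn g => closure_induction (p := fun n _ => g * n * g⁻¹ ∈ D)
      (fun x hx => subset_closure (hx.imp fun q a => ⟨a.1, a.2.1, a.2.2.conj g⟩))
      (by simp) (fun x y _ _ a b => by simpa [mul_assoc] using mul_mem a b)
      (fun x _ a => by simpa [mul_assoc] using inv_mem a) hn⟩
    have pw : ∀ x ∈ (⊤ : Subgroup G), ∃ j, x ^ p ^ j ∈ D := fun x _ => by
      have := Fact.mk hp
      refine ⟨_, Nat.eq_prime_pow_of_unique_prime_dvd (p := p) D.index_ne_zero_of_finite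
        (fun {d} hd d1 => ?_) ▸ D.pow_index_mem x⟩
      by_contra c
      have := Fact.mk hd
      obtain ⟨z, hz⟩ := exists_prime_orderOf_dvd_card' (G := G ⧸ D) d d1
      obtain ⟨v, h1, rfl⟩ := pel.lift (y := z) hd _ (QuotientGroup.mk'_surjective _)
        ⟨1, orderOf_dvd_iff_pow_eq_one.1 (by rw [hz, pow_one])⟩
      rw [QuotientGroup.mk'_apply, (QuotientGroup.eq_one_iff _).2
        (Subgroup.subset_closure (show v ∈ {x : G | ∃ q : ℕ, q.Prime ∧ q ≠ p ∧ pel q x} from ⟨d, hd, c, h1⟩)),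
        orderOf_one] at hz
      exact hd.one_lt.ne hz
    refine (lc D (top_comm (hm _ (sub_cyc hp pw (mem_top y)) (mem_sup_right (mem_zpowers y))))).trans
      ((closure_le _).2 fun x ⟨q, a, b, c⟩ => hN q a b x (pel_mem a hp b (fun g => ?_) c) c)
    exact ((hy.map (QuotientGroup.mk' _)).zp (top_pow t g)).imp fun j hj =>
      (QuotientGroup.eq_one_iff _).1 hj

theorem Ft.isFit (h : Ft F) (hn : Ne F) (hs : ∀ (G : Type) [Group G], F G → Group.IsSolvable G) :
    IsFit F := by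
  obtain ⟨K, _, _, hK⟩ := hn
  exact ⟨fun G _ a => ⟨h.1 G a, hs G a⟩, h.2.iso MulEquiv.ofUnique (h.2.2.1 K ⊥ inferInstance hK),
    fun _ _ _ _ e => h.2.iso e, fun G _ N a b => have := h.1 G b; h.2.2.1 G N a b, h.2.2.2⟩

theorem lh_of (hF : IsFit F) (hG : F G) : LH (ff F) G := by
  obtain ⟨_, _⟩ := hF.fin _ hG
  refine ⟨fun r hr hd => ?_, fun r hr hn => (crit (ff_ft hF r).2 hr).2 ?_⟩
  · have := Fact.mk hr
    obtain ⟨z, hz⟩ := exists_prime_orderOf_dvd_card' r hd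
    refine ⟨(⊥ : Subgroup (Multiplicative (ZMod r))), inferInstance, inferInstance, _, _, ⊥, ofAdd 1,
      hF.cyc hG (x := z) ⟨1, orderOf_dvd_iff_pow_eq_one.1 (by rw [hz, pow_one])⟩ ?_,
      ⟨fun a b => commutatorElement_eq_one_iff_mul_comm.2 (mul_comm a b), ⟨1, ?_⟩, ?_,
        fun _ _ _ _ => bot_le, fun _ _ => bot_le⟩, fun _ _ h => h⟩
    · rintro rfl
      exact hr.one_lt.ne (orderOf_one.symm.trans hz)
    · rw [pow_one, ← ofAdd_nsmul]; simp
    · simp
  have := Fact.mk hr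
  obtain ⟨R, _, r1, r2⟩ := ((ff_ft hF r).isFit hn fun G _ h => (hF.fin _ (ff_le hF h)).2).rad G
  obtain ⟨P, _, p1, p2⟩ := ((wfit_pgrp r).isFit
    ⟨Unit, inferInstance, inferInstance, IsPGroup.of_subsingleton _ _⟩).rad (G ⧸ R)
  have l : cl r G ≤ P.comap (QuotientGroup.mk' R) := (closure_le _).2 fun y hy => by
    by_cases y1 : y = 1
    · rw [y1]; exact one_mem _
    obtain ⟨L, ⟨l1, l2⟩, l3⟩ := (wellFounded_lt (α := Subgroup G)).has_min
      {L | L.IsSubnormal ∧ y ∈ L} ⟨⊤, IsSubnormal.top, mem_top y⟩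
    obtain ⟨s, t⟩ := src_min (G := L) hr (y := ⟨y, l2⟩) (hy.imp fun k hk => Subtype.ext hk)
      (fun c => y1 (congrArg Subtype.val c)) fun N n1 n2 => by
        by_contra c
        refine l3 (N.map L.subtype) ⟨n1.trans' l1, _, n2, rfl⟩ ((map_subtype_le N).lt_of_ne fun e => c ?_)
        exact map_injective L.subtype_injective (e.trans (by simp [← MonoidHom.range_eq_map]))
    have a := r2 _ ((Normal.isSubnormal (H := commutator L) inferInstance).trans' l1)
      ((ff_ft hF r).2.map _ L.subtype_injective ⟨L, _, _, _, hF.sub l1 hG, s, fun _ _ h => h⟩)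
    refine p2 _ l1.quotient ⟨pgrp ?_, inferInstance, inferInstance⟩ ⟨y, l2, rfl⟩
    rintro _ ⟨x, hx, rfl⟩
    exact ((s.pe.map (QuotientGroup.mk' _)).zp (top_pow t ⟨x, hx⟩)).imp fun j hj =>
      (QuotientGroup.eq_one_iff _).2 (a ⟨_, (QuotientGroup.eq_one_iff _).1 hj, rfl⟩)
  exact ⟨R, ‹_›, r1, fun x hx => (pel.of_mem p1.1 (l hx)).imp fun j hj =>
    (QuotientGroup.eq_one_iff _).1 hj⟩

theorem of_lh (hF : IsFit F) (hS : Sat F) [Finite G] (h : LH (ff F) G) : F G := by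
  obtain ⟨R, _, r1, r2⟩ := hF.rad G
  refine hF.of_top (eq_top_iff.2 (gen fun r hr x _ hx => ?_)) r1
  by_cases x1 : x = 1
  · rw [x1]; exact one_mem _
  obtain ⟨K, _, k1, k2⟩ := (crit (ff_ft hF r).2 hr).1 (h.2 r hr (h.1 r hr (dv hr hx x1)))
  exact r2 _ (sub_cyc hr k2 (subset_closure hx)) (ff_ext hF hS hr k1 hx) (mem_sup_right (mem_zpowers x))

theorem sat_loc (h : Ft F) (hn : Ne F) (hs : ∀ (G : Type) [Group G], F G → Group.IsSolvable G)
    (hS : Sat F) : Loc F :=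
  have hF := h.isFit hn hs
  ⟨ff F, ff_ft hF, fun _ _ _ => ⟨lh_of hF, of_lh hF hS⟩⟩

end Pool.Agent.H22.Fit
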