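import Pool.Agent.H22.Crit2
import Pool.Agent.H22.SatFit

namespace Pool.Agent.H22.Comp

open Function Subgroup Syl
open Pool.Agent.H22.Fit (pel pgrp)
open scoped commutatorElement

variable {G H : Type} [Group G] [Group H] {A B A' B' C L P : Subgroup G} {s t g : G}

theorem nrm (h : Nm A ⊓ Nm B = ⊤) : A.Normal ∧ B.Normal ∧ (Cz A B).Normal :=
  ⟨normalizer_eq_top_iff.1 (inf_eq_top_iff.1 h).1, normalizer_eq_top_iff.1 (inf_eq_top_iff.1 h).2,
    ⟨fun _ a n => cz_conj (h.ge (mem_top n)) a⟩⟩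

theorem Bd.top [Finite G] (h : Bd A B s t) [A.Normal] [(Cz A B).Normal]
    (m : ∀ L s t, A ≤ L → s ∈ L → t ∈ L → Bd A B s t → L = ⊤) :
    (Cz A B ⊔ zpowers s).Normal ∧ Rn (Cz A B ⊔ zpowers s) A ∧ (∀ x y : G, ⁅x, y⁆ ∈ Cz A B ⊔ zpowers s) ∧
      ∀ g ∉ Cz A B ⊔ zpowers s, ∃ z ∈ Cz A B, ∃ j : ℤ, g = z * s ^ j * t := by
  have a : s ∈ Cz A B ⊔ zpowers s := mem_sup_right (mem_zpowers s)
  have l : A ≤ Cz A B ⊔ zpowers s := h.ab.trans le_sup_left
  have n : (Cz A B ⊔ zpowers s).Normal := normalizer_eq_top_iff.1 (m _ s t (l.trans le_normalizer)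
    (le_normalizer a) (mem_normalizer_fintype fun x hx => (sup_le (fun z u => mem_sup_left
      (Normal.conj_mem ‹_› z u t)) (zpowers_le.2 (show t * s * t⁻¹ ∈ _ by
        simpa using mul_mem (mem_sup_left h.ts) (inv_mem a))) :
        Cz A B ⊔ zpowers s ≤ Subgroup.comap (MulAut.conj t).toMonoidHom (Cz A B ⊔ zpowers s)) hx) h)
  have e : Cz A B ⊔ zpowers s ⊔ zpowers t = ⊤ :=
    m _ s t (l.trans le_sup_left) (mem_sup_left a) (mem_sup_right (mem_zpowers t)) h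
  refine ⟨n, gas A (Cz A B) _ ⟨1, cyc⟩ fun L u v => ?_, Fit.top_comm e, fun g hg => ?_⟩
  · obtain ⟨s', b, t', c, d⟩ := h.into v
    exact m L s' t' u b c d
  · obtain ⟨d, u, _, ⟨i, rfl⟩, rfl⟩ := mem_sup_of_normal_left.1 (e.ge (mem_top g))
    have k : ∀ j : ℤ, d * t ^ (2 * j) ∈ Cz A B ⊔ zpowers s := fun j => mul_mem u (by
      rw [zpow_mul, zpow_ofNat]; exact zpow_mem (mem_sup_left h.t2) j)
    obtain ⟨j, rfl | rfl⟩ := Int.even_or_odd' i
    · exact absurd (k j) hg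
    · obtain ⟨z, v, _, ⟨i, rfl⟩, w⟩ := mem_sup_of_normal_left.1 (k j)
      exact ⟨z, v, i, by simp only [w, zpow_add, zpow_one, mul_assoc]⟩

theorem Bd.full (h : Bd A B s t) [B.Normal] [(Cz A B).Normal] (e : L ⊔ B = ⊤) :
    ∃ s' ∈ L, ∃ t' ∈ L, Bd (A ⊓ L) (B ⊓ (A ⊓ L)) s' t' := by
  obtain ⟨s', a, t', b, c⟩ := h.into (top_le_iff.1 (e.ge.trans (sup_le_sup_left (h.le.trans h.ab) L)))
  refine ⟨s', a, t', b, c.res inf_le_left (inf_normalizer_le_normalizer_inf ⟨c.sn.1, le_normalizer a⟩)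
    (inf_normalizer_le_normalizer_inf ⟨c.tn.1, le_normalizer b⟩) fun x u => ?_⟩
  obtain ⟨y, v, z, w, rfl⟩ := mem_sup_of_normal_right.1 (e.ge (mem_top x))
  exact mul_mem (mem_sup_left ⟨(mul_mem_cancel_right (h.le w)).1 u, v⟩) (mem_sup_right w)

theorem low [Finite G] (h : Bd A B s t)
    (m : ∀ A B s t L, Bd A B s t → A ≤ L → s ∈ L → t ∈ L → L = (⊤ : Subgroup G)) {U : Subgroup G}
    (u : U ≠ ⊤) : ∃ N, U ≤ Nm N ∧ Rn N ⊥ ∧ Rn U N := by
  have n : ∀ {A B : Subgroup G} {s t}, Bd A B s t → A.Normal ∧ B.Normal ∧ (Cz A B).Normal := fun h =>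
    nrm (m _ _ _ _ _ h (fun _ u => (mem_Cz.1 (h.ab u)).1) h.sn h.tn)
  obtain ⟨A, B, s, t, h, p⟩ : ∃ (A B : Subgroup G) (s t : G), Bd A B s t ∧ IsPGroup 5 A := by
    obtain ⟨_, _, _⟩ := n h
    obtain ⟨Q, q, -⟩ := exists_maxP (IsPGroup.of_bot (p := 5)) (bot_le (a := A))
    obtain ⟨s, a, t, b, c⟩ := h.into (L := Nm Q) (top_le_iff.1 fun g _ => by
      obtain ⟨n, v, w⟩ := q.frattini (s := g) (le_normalizer_of_normal (mem_top g))
      exact (mul_mem_cancel_right (mem_sup_right (h.ab v))).1 (mem_sup_left w))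
    refine ⟨Q, _, s, t, c.res q.1 a b fun x v => ?_, q.2.1⟩
    obtain ⟨y, y1, y2⟩ := onto q (QuotientGroup.mk' B) (pgrp (by
      rintro _ ⟨x, v, rfl⟩
      exact (h.p5 x v).imp fun k e => (QuotientGroup.eq_one_iff (x ^ 5 ^ k)).2 e)) v
    exact (mul_mem_cancel_left (inv_mem (mem_sup_left y1))).1 (mem_sup_right (QuotientGroup.eq.1 y2))
  obtain ⟨_, _, _⟩ := n h
  obtain ⟨_, a1, a2, a3⟩ := h.top fun L s t a b c d => m _ _ _ _ L d a b c
  have z : Rn (Cz A B) ⊥ := gas0 B _ (Rn.hyp (fun i => if i = 0 then A else B) (a1.mono le_sup_left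
    inf_le_left) (c := 1) (fun i => by
      rcases i with _ | i
      · exact commutator_le.2 fun x v y w => commutatorElement_inv y x ▸ B.inv_mem ((mem_Cz.1 w).2 x v)
      · exact commutator_le_left B _) le_rfl) fun L e => by
    obtain ⟨s, a, t, b, c⟩ := h.full e
    exact m _ _ _ _ L c inf_le_right a b
  by_cases c : ⁅U, U⁆ ≤ Cz A B
  · exact ⟨_, le_normalizer_of_normal, z, 1, c⟩
  obtain ⟨w, w1, w2⟩ := SetLike.not_le_iff_exists.1 fun e : U ≤ Cz A B ⊔ zpowers s =>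
    c ((commutator_mono e e).trans cyc)
  obtain ⟨v, v1, v2⟩ := SetLike.not_le_iff_exists.1 fun e : U ⊓ (Cz A B ⊔ zpowers s) ≤ Cz A B =>
    c (le_trans (le_inf (commutator_le_self U) (commutator_le.2 fun x _ y _ => a2 x y)) e)
  obtain ⟨y, y1, j, rfl⟩ := a3 w w2
  obtain ⟨x, x1, _, ⟨i, rfl⟩, rfl⟩ := mem_sup_of_normal_left.1 v1.2
  have h' := h.chg (j := j) x1 y1 v2
  have v1 := v1.1
  generalize x * s ^ i = v at h' v1
  generalize y * s ^ j * t = w at h' w1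
  obtain ⟨_, b1, b2, -⟩ := h'.top fun L s t a b c d => m _ _ _ _ L d a b c
  obtain ⟨k, z⟩ := z
  let V := fun i => U ⊓ (A ⊓ (Cz A B).lowerCentralSeries i)
  have V1 : ∀ i, U ≤ Nm (V i) := fun i g e =>
    inf_normalizer_le_normalizer_inf ⟨le_normalizer e, le_normalizer_of_normal e⟩
  have V2 : ∀ i, ∀ g ∈ U, g ∈ Cz A B → g ∈ Cz (V i) (V (i + 1)) := fun i g e f =>
    mem_Cz.2 ⟨⟨V1 _ e, V1 _ e⟩, fun x d => ⟨U.mul_mem (nm1 (le_normalizer e) d.1) (U.inv_mem d.1),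
      A.mul_mem (Normal.conj_mem ‹_› _ d.2.1 g) (A.inv_mem d.2.1),
      commutatorElement_inv x g ▸ Subgroup.inv_mem _ (commutator_mem_commutator d.2.2 f)⟩⟩
  have V3 : ∀ i, v ∈ Cz (V i) (V (i + 1)) := fun i => not_not.1 fun e => u (m (V i) (V (i + 1)) v w U
    ⟨inf_le_inf_left _ (inf_le_inf_left _ (Subgroup.lowerCentralSeries_antitone _ i.le_succ)),
      fun x d => V2 i x d.1 (h.ab d.2.1), fun x d => Exists.imp (fun _ f => by rw [f]; exact one_mem _)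
        (pel.of_mem p d.2.1),
      ⟨V1 _ v1, V1 _ v1⟩, ⟨V1 _ w1, V1 _ w1⟩, e, V2 i _ (pow_mem v1 3) h'.s3, V2 i _ (pow_mem w1 2) h'.t2,
      V2 i _ (mul_mem (mul_mem (mul_mem w1 v1) (inv_mem w1)) v1) h'.ts⟩ inf_le_left v1 w1)
  refine ⟨U ⊓ (Cz A B ⊔ zpowers v), fun g e => inf_normalizer_le_normalizer_inf ⟨le_normalizer e,
    le_normalizer_of_normal e⟩, Rn.hyp V (b1.mono inf_le_right fun x d => ⟨d.2.1, d.1, h.ab d.1⟩)
    (fun i => commutator_le.2 fun x d g e => ?_) (c := k) (inf_le_right.trans (inf_le_right.trans z)),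
    1, le_inf (commutator_le_self U) (commutator_le.2 fun x _ y _ => b2 x y)⟩
  obtain ⟨y, y1, _, ⟨j, rfl⟩, rfl⟩ := mem_sup_of_normal_left.1 e.2
  exact commutatorElement_inv _ x ▸ inv_mem ((mem_Cz.1 (mul_mem (V2 i y ((U.mul_mem_cancel_right
    (U.zpow_mem v1 j)).1 e.1) y1) (zpow_mem (V3 i) j))).2 x d)

theorem Bd.up (h : Bd A B s t) (K : Subgroup G) [K.Normal] (k : A ⊓ K ≤ B) :
    Bd (K ⊔ A) (K ⊔ B) s t := by
  simpa [QuotientGroup.comap_map_mk'] using (h.map (QuotientGroup.mk' K) (by simpa using k)).comap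
    (L := ⊤) _ trivial trivial fun x _ => (QuotientGroup.mk'_surjective K x).imp fun _ e => ⟨trivial, e⟩

theorem high [Finite G] (h : Wit G) (m : ∀ L : Subgroup G, L ≠ ⊤ → ¬ Wit L) (U : Subgroup G)
    (u : U ≠ ⊤) : Nl 3 U := by
  replace m : ∀ P A B s t L, Wt P A B s t → P ≤ L → A ≤ L → s ∈ L → t ∈ L → L = (⊤ : Subgroup G) :=
    fun P A B s t L h a b c d => not_not.1 fun e => m L e (h.pull L.subtype (by simpa) (by simpa)
      (by simpa) (by simpa))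
  obtain ⟨P, A, B, s, t, h⟩ := h
  have : P.Normal := normalizer_eq_top_iff.1 (m _ _ _ _ _ _ h le_normalizer h.2.2.1 h.2.2.2.1 h.2.2.2.2.1)
  have p := h.2.1
  have w : ∀ {A B : Subgroup G} {s t}, Bd A B s t → A ⊓ Ce P ≤ B → Wt P A B s t := fun a b =>
    ⟨a, p, le_normalizer_of_normal, le_normalizer_of_normal (mem_top _),
      le_normalizer_of_normal (mem_top _), b⟩
  have n : ∀ {A B : Subgroup G} {s t}, Bd A B s t → A ⊓ Ce P ≤ B → P ≤ B →
      A.Normal ∧ B.Normal ∧ (Cz A B).Normal ∧ ∀ L, P ≤ L → L ⊔ B = ⊤ → L = ⊤ := fun {A B s t} a b c => by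
    have l : A ≤ Nm A ⊓ Nm B := fun _ u => (mem_Cz.1 (a.ab u)).1
    obtain ⟨_, _, _⟩ := nrm (m _ _ _ _ _ _ (w a b) ((c.trans a.le).trans l) l a.sn a.tn)
    refine ⟨‹_›, ‹_›, ‹_›, fun L d e => ?_⟩
    obtain ⟨s, f, t, g, k⟩ := a.full e
    exact m _ _ _ _ _ L (w k fun x v => ⟨b ⟨v.1.1, v.2⟩, v.1⟩) d inf_le_right f g
  obtain ⟨A, B, h, k⟩ : ∃ A B, Bd A B s t ∧ P ⊔ Ce P ≤ B := ⟨_, _, h.1.up (P ⊔ Ce P) fun x v => by
    obtain ⟨y, y1, c, c1, rfl⟩ := mem_sup_of_normal_left.1 v.2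
    obtain ⟨k, e⟩ := pel.of_mem p y1
    refine h.1.cop v.1 (n := 7 ^ k) (Nat.Coprime.pow_left _ (by norm_num)) (h.2.2.2.2.2
      ⟨pow_mem v.1 _, ?_⟩)
    rw [(show Commute y c from c1 y y1).mul_pow, e, one_mul]
    exact pow_mem c1 _, le_sup_left⟩
  obtain ⟨_, _, _, r⟩ := n h (inf_le_right.trans (le_sup_right.trans k)) (le_sup_left.trans k)
  replace r : ∀ L, P ≤ L → L ⊔ (P ⊔ Ce P) = ⊤ → L = ⊤ := fun L a b =>
    r L a (top_le_iff.1 (b.ge.trans (sup_le_sup_left k L)))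
  by_cases c : U ⊔ (P ⊔ Ce P) = ⊤
  · have c := r (U ⊔ P) le_sup_right (by rwa [sup_assoc, ← sup_assoc P, sup_idem])
    obtain ⟨s, a, t, b, h'⟩ := h.full (top_le_iff.1 (c.ge.trans (sup_le_sup_left (le_sup_left.trans k) U)))
    have q : U ≤ Nm (P ⊓ U) := fun g e =>
      inf_normalizer_le_normalizer_inf ⟨le_normalizer_of_normal e, le_normalizer e⟩
    have h1 := (h'.split (nm_ce (q a)) (nm_ce (q b))).resolve_left fun e => u (m (P ⊓ U) _ _ s t U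
      ⟨e, p.to_inf_left, inf_le_right.trans q, q a, q b, le_sup_right⟩ inf_le_right inf_le_right a b)
    have h2 := h1.up P fun x v => ⟨⟨k (mem_sup_left v.2), v.1.1⟩, v.1⟩
    have h3 : (P ⊔ A ⊓ U ⊓ Ce (P ⊓ U)) ⊓ Ce P ≤ P ⊔ B ⊓ (A ⊓ U) ⊓ (A ⊓ U ⊓ Ce (P ⊓ U)) := fun x v => by
      obtain ⟨y, y1, z, z1, rfl⟩ := mem_sup_of_normal_left.1 v.1
      exact mul_mem (mem_sup_left y1) (mem_sup_right ⟨⟨(B.mul_mem_cancel_left (k (mem_sup_left y1))).1
        (k (mem_sup_right v.2)), z1.1⟩, z1⟩)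
    obtain ⟨_, _, _, r⟩ := n h2 h3 le_sup_left
    obtain ⟨_, a1, a2, -⟩ := h2.top fun L s t a b c d => m _ _ _ _ _ L (w d h3) (le_sup_left.trans a) a b c
    refine nl3 (N := U ⊓ (P ⊔ A ⊓ U ⊓ Ce (P ⊓ U))) (M := U ⊓ _) (fun g e =>
      inf_normalizer_le_normalizer_inf ⟨le_normalizer e, le_normalizer_of_normal e⟩) (fun g e =>
      inf_normalizer_le_normalizer_inf ⟨le_normalizer e, le_normalizer_of_normal e⟩)
      (((gas P _ _ ⟨1, commutator_le.2 fun x v y w => (mem_Cz.1 (h2.ab v)).2 y w⟩ r).mono inf_le_right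
        (inf_le_inf_left P inf_le_left)).cen (fun x v => ?_) p.to_inf_left)
      (a1.mono inf_le_right fun x v => ⟨v.2.1, v.1⟩)
      ⟨1, le_inf (commutator_le_self U) (commutator_le.2 fun x _ y _ => a2 x y)⟩
    obtain ⟨y, y1, z, z1, rfl⟩ := mem_sup_of_normal_left.1 v.2
    exact mul_mem (mem_sup_left ⟨y1, (U.mul_mem_cancel_right z1.1.2).1 v.1⟩) (mem_sup_right z1.2)
  · let f := QuotientGroup.mk' (P ⊔ Ce P)
    have hf : Surjective f := QuotientGroup.mk'_surjective _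
    obtain ⟨N, a, b, d⟩ := low (h.map f (by simpa [f] using inf_le_right.trans k)) (U := U.map f)
      (fun A B s t L h a b c => by
        obtain ⟨s, rfl⟩ := hf s
        obtain ⟨t, rfl⟩ := hf t
        have l := QuotientGroup.le_comap_mk' (P ⊔ Ce P)
        exact comap_injective hf (m _ _ _ _ _ _ (w (h.comap f (L := ⊤) trivial trivial
          fun x _ => (hf x).imp fun _ e => ⟨trivial, e⟩) fun x v => ⟨l B (mem_sup_right v.2), trivial⟩)
          (le_sup_left.trans (l L)) (inf_le_left.trans (comap_mono a)) b c))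
      fun e => c (by rw [sup_comm, ← QuotientGroup.comap_map_mk', e, comap_top])
    exact nl3 le_normalizer_of_normal ((map_le_iff_le_comap.1 a).trans (le_normalizer_comap f))
      ((gas P _ _ ⟨0, le_rfl⟩ r).cen le_rfl p) ((b.comap f).mono le_rfl (by simp [f]))
      ((d.comap f).mono (le_comap_map _ _) inf_le_left)

end Pool.Agent.H22.Comp
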