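import Pool.Agent.H22.Crit3

namespace Pool.Agent.H22.Comp

open Function Subgroup Syl GLS
open Pool.Agent.H22.Fit (pel pgrp)
open scoped commutatorElement

variable {G H : Type} [Group G] [Group H] {A B A' B' C L P : Subgroup G} {s t g : G}

theorem Nl.mono {k l : ℕ} (h : Nl k G) (e : k ≤ l) : Nl l G := by
  induction e with
  | refl => exact h
  | step _ ih => exact ih.succ

theorem Bd.n2 [Finite G] (h : Bd A B s t) : ¬ Nl 2 G := by
  rintro ⟨N, _, _, M, _, a, b⟩
  obtain rfl := QuotientGroup.subgroup_eq_top_of_subsingleton M b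
  obtain ⟨c, e⟩ := (rn_iff.2 a).comap (QuotientGroup.mk' N)
  have k : ∀ n, ∃ w ∈ (⊤ : Subgroup G).lowerCentralSeries n, Bd A B w t := fun n => by
    induction n with
    | zero => exact ⟨s, trivial, h⟩
    | succ n ih =>
      obtain ⟨w, u, v⟩ := ih
      have z := cz_conj (pow_mem v.sn 2) (inv_mem v.ts)
      refine ⟨⁅w, t⁆, commutator_mem_commutator u trivial, ?_⟩
      convert v.chg (i := 2) (j := 0) z (one_mem _) fun k => v.s1 (Comp.cop (m := 2) (n := 3)
        (by norm_num) (by simpa using (mul_mem_cancel_left z).1 k) v.s3) using 1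
      · simp only [commutatorElement_def, sq, zpow_two]; group
      · simp
  obtain ⟨w, u, v⟩ := k c
  obtain ⟨O, _, o1, o2⟩ := nilO N Nat.prime_three
  obtain ⟨_, ⟨i, rfl⟩, y1, y2⟩ := ppart (k := 1) Nat.prime_three v.s3
  have o := o2 _ (zpow_mem (by simpa using e u) i) y1
  refine v.s1 (inv_mem_iff.1 ((mul_mem_cancel_right (mem_Cz.2 ⟨zpow_mem v.sn i, fun x q => ?_⟩)).1 y2))
  obtain ⟨n, r⟩ := pel.of_mem o1 (commutator_le_left O ⊤ (commutator_mem_commutator o (mem_top x)))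
  exact v.cop (mul_mem (nm1 (zpow_mem v.sn i).1 q) (inv_mem q)) (n := 3 ^ n)
    (Nat.Coprime.pow_left _ (by norm_num)) (r ▸ one_mem _)

theorem Wit.n3 [Finite G] (h : Wit G) : ¬ Nl 3 G := by
  rintro ⟨N, _, _, a⟩
  obtain ⟨P, A, B, s, t, h⟩ := h
  obtain ⟨O, _, o1, o2⟩ := nilO N Nat.prime_five
  refine (h.1.map (QuotientGroup.mk' N) fun x u => ?_).n2 a
  obtain ⟨k, e⟩ := h.1.p5 x u.1
  obtain ⟨_, ⟨i, rfl⟩, y1, y2⟩ := ppart Nat.prime_five e
  have o := o2 _ (zpow_mem (by simpa using u.2) i) y1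
  have q := A.zpow_mem u.1 i
  refine inv_mem_iff.1 ((mul_mem_cancel_right (h.2.2.2.2.2 ⟨q, fun y v =>
    (commutatorElement_eq_one_iff_mul_comm.1 ?_).symm⟩)).1 y2)
  exact (pel.of_mem o1 (commutator_le_left O ⊤ (commutator_mem_commutator o (mem_top y)))).two
    Nat.prime_five (q := 7) (by norm_num) (by norm_num)
    (pel.of_mem h.2.1 (P.mul_mem (nm1 (h.2.2.1 q) v) (P.inv_mem v)))

theorem Wit.sat [Finite G] [Group.IsSolvable G] (h : Wit G) : Wit (G ⧸ frattini G) := by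
  induction hn : Nat.card G using Nat.strong_induction_on generalizing G with | _ n ih =>
  obtain ⟨P, A, B, s, t, h⟩ := h
  by_cases c : ∃ N : Subgroup G, N.Normal ∧ N ≠ ⊥ ∧ ∀ x ∈ N, pel 7 x → x = 1
  · obtain ⟨N, _, a, b⟩ := c
    have hs := QuotientGroup.mk'_surjective N
    refine (ih _ (hn ▸ card_quot_lt a) (h.map' h.1 le_rfl (QuotientGroup.mk' N) fun x u => h.2.2.2.2.2
      ⟨u.1, fun y v => (commutatorElement_eq_one_iff_mul_comm.1 (b _ ((QuotientGroup.eq_one_iff _).1 ?_)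
        (pel.of_mem h.2.1 (P.mul_mem (nm1 (h.2.2.1 u.1) v) (P.inv_mem v))))).symm⟩) rfl).surj
      (QuotientGroup.map _ _ _ (frattini_le_comap_frattini_of_surjective hs))
      (QuotientGroup.map_surjective_of_surjective _ _ _ ((QuotientGroup.mk'_surjective _).comp hs) _)
    exact (map_commutatorElement (QuotientGroup.mk' N) x y).trans
      (commutatorElement_eq_one_iff_mul_comm.2 (u.2 _ ⟨y, v, rfl⟩).symm)
  obtain ⟨Q, ⟨_, q1⟩, q2⟩ := (wellFounded_gt (α := Subgroup G)).has_min {Q | Q.Normal ∧ IsPGroup 7 Q}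
    ⟨⊥, inferInstance, IsPGroup.of_bot⟩
  let f := QuotientGroup.mk' (frattini G)
  have := Normal.map ‹Q.Normal› f (QuotientGroup.mk'_surjective _)
  have k : ∀ M : Subgroup G, M.Normal → M ≤ (Ce (Q.map f)).comap f → M ≤ Q := fun M => by
    induction M using WellFoundedLT.induction with | _ M im =>
    intro _ l
    by_cases e : M = ⊥
    · exact e.le.trans bot_le
    have d := im _ (Group.IsSolvable.commutator_lt_of_ne_bot e) inferInstance ((commutator_le_self M).trans l)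
    refine le_sup_right.trans (le_sup_left.eq_or_lt.resolve_right (q2 (Q ⊔ M) ⟨inferInstance,
      q1.to_sup_of_normal_left (IsPGroup.of_card (Nat.eq_prime_pow_of_unique_prime_dvd Nat.card_pos.ne'
        fun {r} hr v => not_not.1 fun w => ?_))⟩)).ge
    have := Fact.mk hr
    obtain ⟨R, r1, -⟩ := exists_maxP (IsPGroup.of_bot (p := r)) (bot_le (a := M))
    have m : ∀ L, R ≤ L → L ≤ M → MaxP r R L := fun L a b => ⟨a, r1.2.1, fun U u => r1.2.2 U (u.trans b)⟩
    have r2 : ⁅M, M⁆ ⊔ R ≤ Nm R ⊔ frattini G := sup_le (fun x u => by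
      obtain ⟨y, y1, y2⟩ := (m ((frattini G ⊔ R) ⊓ M) (le_inf le_sup_right r1.1) inf_le_right).frattini
        (s := x) (inf_normalizer_le_normalizer_inf ⟨mem_normalizer_fintype fun z v => (sup_le
          (fun z v => mem_sup_left (Normal.conj_mem inferInstance z v x)) fun z v => by
            change x * z * x⁻¹ ∈ frattini G ⊔ R
            rw [← inv_mul_cancel_right (x * z * x⁻¹) z]
            exact mul_mem (mem_sup_left ((QuotientGroup.eq_one_iff _).1 ((map_commutatorElement f x z).trans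
              (commutatorElement_eq_one_iff_mul_comm.2 (l (r1.1 v) _ ⟨x, d u, rfl⟩))))) (mem_sup_right v) :
          frattini G ⊔ R ≤ comap (MulAut.conj x).toMonoidHom (frattini G ⊔ R)) v,
          le_normalizer_of_normal (mem_top x)⟩)
      exact (mul_mem_cancel_right ((sup_le le_sup_right (le_sup_of_le_left le_normalizer) :
        _ ≤ Nm R ⊔ frattini G) y1.1)).1 (mem_sup_left y2)) (le_sup_of_le_left le_normalizer)
    have r3 : R.Normal := normalizer_eq_top_iff.1 (frattini_nongenerating (top_le_iff.1 fun g _ => by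
      obtain ⟨n, n1, n2⟩ := r1.frattini (s := g) (le_normalizer_of_normal (mem_top g))
      have b : ⁅M, M⁆ ⊔ R ≤ M := sup_le (commutator_le_self M) r1.1
      obtain ⟨y, y1, y2⟩ := (m _ le_sup_right b).frattini (s := n) (le_normalizer_iff.2 (fun x u z v => by
        rw [← inv_mul_cancel_right (x * z * x⁻¹) z]
        exact mul_mem (mem_sup_left (commutator_mem_commutator u (b v))) v) n1)
      exact (mul_mem_cancel_right ((mul_mem_cancel_right (r2 y1)).1 (mem_sup_left y2))).1 (mem_sup_left n2)))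
    obtain rfl : R = ⊥ := not_not.1 fun a => c ⟨R, r3, a, fun x u z =>
      (pel.of_mem r1.2.1 u).two hr (by norm_num) w z⟩
    exact r1.not_dvd (by simpa using v)
  refine Wt.map h.1 f (q1.map f) (fun x _ => le_normalizer_of_normal (mem_top _))
    (le_normalizer_of_normal (mem_top _)) (le_normalizer_of_normal (mem_top _)) fun x u => ?_
  obtain ⟨j, e⟩ := pel.of_mem q1 (k _ inferInstance le_rfl u.2)
  exact h.1.cop u.1 (n := 7 ^ j) (Nat.Coprime.pow_left _ (by norm_num)) (e ▸ one_mem _)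

theorem noBd [Finite G] (h : Bd A B s t) (W U : Subgroup G) [W.Normal] (σ : G →* ℤˣ)
    (a : ∀ x ∈ W, ∀ y ∈ W, x * y = y * x) (b : ∀ x, pel 5 x → x ∈ W)
    (c : ∀ x y, σ x = 1 → σ y = 1 → ⁅x, y⁆ ∈ W)
    (d : ∀ y ∈ U, σ y ≠ 1 → ∀ w ∈ W, y ^ 2 * w * (y ^ 2)⁻¹ = w⁻¹) (u : s ∈ U) (v : t ∈ U) : False := by
  have n : ∀ g ∈ Nm A, g ∈ Nm (A ⊓ W) := fun g e =>
    inf_normalizer_le_normalizer_inf ⟨e, le_normalizer_of_normal (mem_top g)⟩
  replace h := h.res inf_le_left (n s h.sn.1) (n t h.tn.1) fun x e => by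
    obtain ⟨k, f⟩ := h.p5 x e
    obtain ⟨_, ⟨i, rfl⟩, y1, y2⟩ := ppart Nat.prime_five f
    exact inv_mem_iff.1 ((mul_mem_cancel_right (mem_sup_left (mem_inf.2 ⟨A.zpow_mem e i, b _ y1⟩))).1 (mem_sup_right y2))
  have l : A ⊓ W ≤ W := inf_le_right
  generalize B ⊓ (A ⊓ W) = B at h
  generalize A ⊓ W = A at h l
  have k : ∀ y ∈ U, y ^ 2 ∈ Cz A B → σ y = 1 := fun y e f => not_not.1 fun g => h.s1 (mem_Cz.2
    ⟨h.sn, fun x w => by
      have := (mem_Cz.1 f).2 x w
      rw [commutatorElement_def, d y e g x (l w), ← sq, inv_pow, inv_mem_iff] at this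
      have := h.cop w (by norm_num) this
      exact mul_mem (nm1 h.sn.2 this) (inv_mem this)⟩)
  have e : ∀ K ≤ W, W ≤ Nm K := fun K e => le_normalizer_iff.2 fun x p y q => by
    rwa [a x p y (e q), mul_inv_cancel_right]
  have s1 : σ s = 1 := by
    have := k _ (pow_mem u 3) (pow_mem h.s3 2)
    rwa [map_pow, pow_succ, Int.units_sq, one_mul] at this
  have w := c t s (k t v h.t2) s1
  refine h.s1 (cop (m := 2) (n := 3) (by norm_num) ((mul_mem_cancel_left (mem_Cz.2 ⟨⟨e _ l w,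
    e _ (h.le.trans l) w⟩, fun x p => ?_⟩)).1 (by simpa [commutatorElement_def, sq] using h.ts)) h.s3)
  rw [commutatorElement_eq_one_iff_mul_comm.2 (a _ w x (l p))]
  exact one_mem _

theorem solv_ext (f : G →* H) [Group.IsSolvable H] (h : ∀ x y, f x = 1 → f y = 1 → x * y = y * x) :
    Group.IsSolvable G :=
  have := Group.isSolvable_of_comm (G := f.ker) fun x y => Subtype.ext (h x y x.2 y.2)
  Group.isSolvable_of_ker_le_range f.ker.subtype f (range_subtype _).ge

@[ext] structure Y where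
  v : Fin 3 → ZMod 5
  π : Equiv.Perm (Fin 3)
  c : (ZMod 5)ˣ

instance : Mul Y := ⟨fun a b => ⟨fun i => a.v i + a.c * b.v (a.π⁻¹ i), a.π * b.π, a.c * b.c⟩⟩
instance : One Y := ⟨⟨0, 1, 1⟩⟩
instance : Inv Y := ⟨fun a => ⟨fun i => -(↑(a.c⁻¹) * a.v (a.π i)), a.π⁻¹, a.c⁻¹⟩⟩

theorem Y.mul (a b : Y) : a * b = ⟨fun i => a.v i + a.c * b.v (a.π⁻¹ i), a.π * b.π, a.c * b.c⟩ := rfl
theorem Y.one : (1 : Y) = ⟨0, 1, 1⟩ := rfl
theorem Y.inv (a : Y) : a⁻¹ = ⟨fun i => -(↑(a.c⁻¹) * a.v (a.π i)), a.π⁻¹, a.c⁻¹⟩ := rfl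

instance : Group Y := Group.ofLeftAxioms
  (fun a b c => by ext <;> simp [Y.mul, mul_add, add_assoc, mul_assoc])
  (fun a => by ext <;> simp [Y.mul, Y.one]) fun a => by
    rw [Y.inv]
    ext <;> simp [Y.mul, Y.one, -ZMod.inv_coe_unit]

instance : Finite Y := Finite.of_injective (fun y : Y => (y.v, y.π, y.c)) fun _ _ h =>
  Y.ext (congrArg (·.1) h) (congrArg (·.2.1) h) (congrArg (·.2.2) h)

def Y.f : Y →* Equiv.Perm (Fin 3) × (ZMod 5)ˣ := MonoidHom.mk' (fun y => (y.π, y.c)) fun _ _ => rfl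

theorem Y.k {y : Y} : y ∈ Y.f.ker ↔ y.π = 1 ∧ y.c = 1 := Prod.ext_iff

theorem Y.cm : ∀ x ∈ Y.f.ker, ∀ y ∈ Y.f.ker, x * y = y * x := fun x a y b => by
  ext <;> simp [Y.mul, Y.k.1 a, Y.k.1 b, add_comm]

instance : Group.IsSolvable Y :=
  have := solv_ext (Equiv.Perm.sign : Equiv.Perm (Fin 3) →* ℤˣ) (by decide)
  solv_ext Y.f fun x y a b => Y.cm x a y b

end Pool.Agent.H22.Comp
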