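import Pool.Agent.H22.GLS2

namespace Pool.Agent.H22.GLS

open Function Subgroup FormLat

variable {F : Cls} {G : Type} [Group G] {p : ℕ}

theorem stepB (hF : IsForm F) (hS : IsSat F) (hs : ∀ (G : Type) [Group G] (K : Subgroup G), F G → F K)
    [Fact p.Prime] [Finite G] {V : Subgroup G} [V.Normal] (h : MinN V) (a : F (G ⧸ V))
    (hd : p ∣ Nat.card V) (b : Gd F p (G ⧸ centralizer (V : Set G))) : F G := by
  by_cases e : V ⊓ centralizer V = ⊥
  · exact hF.2.2.2 G V _ e a (surj hF sg sg_surj b)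
  have hc : ∀ a ∈ V, ∀ b ∈ V, a * b = b * a := fun a u b v =>
    ((h.2.2 _ inferInstance inf_le_left e).ge v).2 a u
  obtain ⟨x, hx, x1, ox⟩ := cauchy hd
  obtain ⟨l, l1, l2⟩ := sep hc (h.exp hc hx x1 ox) hx x1
  by_contra n
  obtain ⟨W, hW, w⟩ := by simpa only [not_forall, exists_prop] using mt (sat hF hS (Fq.mk _ a)) n
  have t := hW.2 _ (right_lt_sup.2 w)
  have d : V ⊓ W = ⊥ := not_not.1 fun c => w (inf_eq_left.1 (h.2.2 _ (normalizer_eq_top_iff.1
    (top_le_iff.1 (t.ge.trans (sup_le (le_normalizer_iff.2 fun y u z v => by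
      rwa [hc y u z v.1, mul_inv_cancel_right]) fun y u => inf_normalizer_le_normalizer_inf
        ⟨le_normalizer_of_normal (mem_top y), le_normalizer u⟩)))) inf_le_left c))
  choose v v1 u u1 e using fun g => mem_sup_of_normal_left.1 (t.ge (mem_top g))
  have q : ∀ g, ∀ y ∈ V, y⁻¹ * g ∈ W → v g = y := fun g y r s => (inv_mul_eq_one.1 (mem_bot.1 (d.le
    ⟨V.mul_mem (V.inv_mem r) (v1 g), by
      rw [eq_mul_inv_of_mul_eq (e g), ← mul_assoc]
      exact W.mul_mem s (W.inv_mem (u1 g))⟩))).symm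
  have cj : ∀ y ∈ V, ∀ g : G, g⁻¹ * y * g ∈ V := fun y r g => Normal.conj_mem' inferInstance y r g
  have o : ∀ y ∈ V, ∀ g : G, (g : G ⧸ centralizer (V : Set G)).out⁻¹ * y *
      (g : G ⧸ centralizer (V : Set G)).out = g⁻¹ * y * g := fun y r g => by
    obtain ⟨c, s⟩ := QuotientGroup.mk_out_eq_mul (centralizer (V : Set G)) g
    rw [s, mul_inv_rev, ← inv_mul_cancel_left (c : G) (g⁻¹ * y * g), ← c.2 _ (cj y r g)]
    group
  let θ : G →* Wr (ZMod p) (G ⧸ centralizer (V : Set G)) (G ⧸ centralizer (V : Set G)) :=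
    MonoidHom.mk' (fun g => ⟨fun y => l (y.out⁻¹ * v g * y.out), g⟩) fun a b => Wr.ext (funext fun y => by
      obtain ⟨y, rfl⟩ := QuotientGroup.mk_surjective y
      have r := Normal.conj_mem inferInstance _ (v1 b) a
      simp only [mul_f, Pi.add_apply, act_apply, smul_eq_mul, ← QuotientGroup.mk_inv,
        ← QuotientGroup.mk_mul, o _ (v1 _)]
      rw [← l1 _ (cj _ (v1 a) _) _ (cj _ (v1 b) _), q (a * b) _ (V.mul_mem r (v1 a)) (by
        convert W.mul_mem (u1 a) (u1 b) using 1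
        rw [eq_inv_mul_of_mul_eq (e a), eq_inv_mul_of_mul_eq (e b)]
        group), hc _ r _ (v1 a)]
      congr 1
      group) rfl
  refine n (hF.2.2.2 G V θ.ker (not_not.1 fun c => l2 ?_) a
    (hF.2.1 _ _ ⟨(QuotientGroup.quotientKerEquivRange θ).symm⟩ (hs _ _ b)))
  simpa [θ, o x hx, q x x hx (by simp), -QuotientGroup.mk_one] using
    congrFun (congrArg Wr.f ((h.2.2 _ inferInstance inf_le_left c).ge hx).2) ((1 : G) : _)

theorem gd_form (hF : IsForm F) (hS : IsSat F) (hs : ∀ (G : Type) [Group G] (K : Subgroup G), F G → F K)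
    [Fact p.Prime] : IsForm fun G _ => Gd F p G :=
  ⟨fun G _ h => have := hF.1 _ h; Finite.of_surjective _ (sg_surj (A := ZMod p) (Ω := G)),
    fun _ _ _ _ ⟨e⟩ h => h.quot hF hS e.toMonoidHom e.surjective,
    fun _ _ N _ h => h.quot hF hS _ (QuotientGroup.mk'_surjective N), fun G _ _ N L _ _ e a b =>
      have i : Injective ((QuotientGroup.mk' N).prod (QuotientGroup.mk' L)) := by
        rw [← MonoidHom.ker_eq_bot_iff, MonoidHom.ker_prod, QuotientGroup.ker_mk', QuotientGroup.ker_mk', e]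
      (Gd.sub hF hS _ (hs _ _ (a.prod hF hS b))).quot hF hS (MonoidHom.ofInjective i).symm.toMonoidHom
        (MulEquiv.surjective _)⟩

theorem loc (hF : IsForm F) (hS : IsSat F) (hs : ∀ (G : Type) [Group G] (K : Subgroup G), F G → F K)
    (hv : ∀ (G : Type) [Group G], F G → Group.IsSolvable G) (h1 : F Unit) [Finite G] :
    F G ↔ ∀ (H K : Subgroup G) [H.Normal] [K.Normal], K < H →
      (∀ L : Subgroup G, L.Normal → K ≤ L → L ≤ H → L = K ∨ L = H) → ∀ p : ℕ, p.Prime →
      p ∣ K.relIndex H → Gd F p (G ⧸ (centralizer (H.map (QuotientGroup.mk' K) : Set (G ⧸ K))).comap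
        (QuotientGroup.mk' K)) := by
  have m : ∀ (H K : Subgroup G) [H.Normal] [K.Normal], K < H →
      (∀ L : Subgroup G, L.Normal → K ≤ L → L ≤ H → L = K ∨ L = H) →
      MinN (H.map (QuotientGroup.mk' K)) ∧ K.relIndex H = Nat.card (H.map (QuotientGroup.mk' K)) ∧
      Nonempty ((G ⧸ (centralizer (H.map (QuotientGroup.mk' K) : Set (G ⧸ K))).comap (QuotientGroup.mk' K))
        ≃* (G ⧸ K) ⧸ centralizer (H.map (QuotientGroup.mk' K) : Set (G ⧸ K))) := fun H K _ _ a b => by
    have s := QuotientGroup.mk'_surjective K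
    refine ⟨⟨inferInstance, fun c => a.not_ge (by simpa [Subgroup.map_eq_bot_iff] using c), fun L _ c d => ?_⟩,
      by rw [← relIndex_ker, QuotientGroup.ker_mk'], ⟨(QuotientGroup.quotientMulEquivOfEq (by
        rw [← MonoidHom.comap_ker, QuotientGroup.ker_mk'])).trans (QuotientGroup.quotientKerEquivOfSurjective
          ((QuotientGroup.mk' _).comp (QuotientGroup.mk' K)) ((QuotientGroup.mk'_surjective _).comp s))⟩⟩
    rw [← map_comap_eq_self_of_surjective s L] at d ⊢
    rw [(b _ inferInstance (QuotientGroup.le_comap_mk' K L) ((comap_mono c).trans (by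
      rw [QuotientGroup.comap_map_mk', sup_eq_right.2 a.le]))).resolve_left fun e => d (by simp [e])]
  refine ⟨fun hG H K _ _ a b p hp c => ?_, fun h => ?_⟩
  · have := Fact.mk hp
    have := hv G hG
    obtain ⟨u, v, ⟨e⟩⟩ := m H K a b
    have hc := u.cases.resolve_right (Group.IsSolvable.commutator_lt_of_ne_bot u.2.1).ne
    obtain ⟨x, hx, x1, ox⟩ := cauchy (v ▸ c)
    exact (gls hF hS (hF.2.2.1 G K hG) _ hc (u.exp hc hx x1 ox) u.2.1 _ (QuotientGroup.mk'_surjective
      (centralizer _)) fun e => (QuotientGroup.eq_one_iff e).trans ⟨fun h v hv => (h v hv).symm, fun h v hv =>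
        (h v hv).symm⟩).quot hF hS e.symm.toMonoidHom e.symm.surjective
  · have k : ∀ K : Subgroup G, ∀ [K.Normal], F (G ⧸ K) := fun K => by
      induction K using WellFoundedGT.induction with | _ K ih =>
      intro _
      by_cases e : K = ⊤
      · subst e
        have := QuotientGroup.subsingleton_quotient_top (G := G)
        exact surj hF 1 (fun _ => ⟨1, Subsingleton.elim _ _⟩) h1
      obtain ⟨H, ⟨_, a⟩, b⟩ := (wellFounded_lt (α := Subgroup G)).has_min {H | H.Normal ∧ K < H}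
        ⟨⊤, inferInstance, lt_top_iff_ne_top.2 e⟩
      have c : ∀ L : Subgroup G, L.Normal → K ≤ L → L ≤ H → L = K ∨ L = H := fun L c d f =>
        d.eq_or_lt.imp Eq.symm fun g => f.eq_or_lt.resolve_right (b L ⟨c, g⟩)
      obtain ⟨u, v, ⟨e⟩⟩ := m H K a c
      obtain ⟨p, hp, d⟩ := Nat.exists_prime_and_dvd (mt card_eq_one.1 u.2.1)
      have := Fact.mk hp
      exact stepB hF hS hs u (hF.2.1 _ _ ⟨(QuotientGroup.quotientQuotientEquivQuotient K H a.le).symm⟩
        (ih H a)) d ((h H K a c p hp (v ▸ d)).quot hF hS e.toMonoidHom e.surjective)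
    exact hF.2.1 _ _ ⟨QuotientGroup.quotientBot⟩ (k ⊥)

end Pool.Agent.H22.GLS
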