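import Pool.Agent.H22.Crit4
import Pool.Agent.H22.Local

namespace Pool.Agent.H22.Comp

open Function Subgroup Syl GLS FormLat
open Pool.Agent.H22.Fit (pel pgrp)
open scoped commutatorElement

def Y.σ : Y →* ℤˣ := MonoidHom.mk' (fun y => y.π.sign) fun _ _ => map_mul _ _ _

def Y.χ : Y →* ℤˣ := MonoidHom.mk' (fun y => y.π.sign * if y.c ^ 2 = 1 then 1 else -1) fun a b => by
  have : ∀ c d : (ZMod 5)ˣ, (if (c * d) ^ 2 = 1 then 1 else -1 : ℤˣ) =
    (if c ^ 2 = 1 then 1 else -1) * if d ^ 2 = 1 then 1 else -1 := by decide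
  simp only [Y.mul, map_mul, this, mul_mul_mul_comm]

abbrev Ex := Wr (ZMod 7) Y Y

theorem ex_no (U : Subgroup Y) (d : ∀ y ∈ U, Y.σ y ≠ 1 → y.π ^ 2 = 1 ∧ y.c ^ 2 = -1) :
    ¬ Wit (U.comap (sg : Ex →* Y)) := by
  rintro ⟨P, A, B, s, t, h, -⟩
  refine noBd (h.map (sg.comp (Subgroup.subtype _)) fun x u => h.cop u.1 (n := 7) (by norm_num)
    (by rw [show x ^ 7 = 1 from Subtype.ext (tr_pow u.2)]; exact one_mem _)) Y.f.ker U Y.σ Y.cm
    (fun x e => (e.map Y.f).eq_one (by rw [Nat.card_eq_fintype_card]; decide) pow_card_eq_one')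
    (fun x y a b => Y.k.2 ⟨?_, ?_⟩)
    (fun y u v w e => ?_) s.2 t.2
  · have : ∀ x y : Equiv.Perm (Fin 3), x.sign = 1 → y.sign = 1 → x * y * x⁻¹ * y⁻¹ = 1 := by decide
    exact this _ _ a b
  · change x.c * y.c * x.c⁻¹ * y.c⁻¹ = 1
    simp
  · have a : (y ^ 2).π = 1 := (congrArg Prod.fst (map_pow Y.f y 2)).trans (d y u v).1
    have b : (y ^ 2).c = -1 := (congrArg Prod.snd (map_pow Y.f y 2)).trans (d y u v).2
    generalize y ^ 2 = z at a b
    rw [mul_inv_eq_iff_eq_mul, eq_inv_mul_iff_mul_eq]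
    ext <;> simp [Y.mul, a, b, Y.k.1 e]

theorem ex_bd : Bd Y.f.ker ⊥ ⟨0, finRotate 3, 1⟩ ⟨0, Equiv.swap 0 1, 1⟩ := by
  have n : ∀ g : Y, g ∈ Nm Y.f.ker ⊓ Nm ⊥ := fun g =>
    ⟨le_normalizer_of_normal (mem_top g), le_normalizer_of_normal (mem_top g)⟩
  have o : ∀ g : Y, g = 1 → g ∈ Cz Y.f.ker ⊥ := fun g e => e ▸ one_mem _
  refine ⟨bot_le, fun x u => mem_Cz.2 ⟨n x, fun y v => commutatorElement_eq_one_iff_mul_comm.2
    (Y.cm x u y v)⟩, fun x u => ⟨1, ?_⟩, n _, n _, fun c => absurd (congrFun (congrArg Y.v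
      (commutatorElement_eq_one_iff_mul_comm.1 ((mem_Cz.1 c).2 ⟨![1, 0, 0], 1, 1⟩ rfl))) 0) (by decide),
    o _ ?_, o _ ?_, o _ ?_⟩
  · have : ∀ a : ZMod 5, a + (a + (a + (a + a))) = 0 := by decide
    change x ^ 5 = 1
    ext <;> simp [pow_succ', Y.mul, Y.one, Y.k.1 u, this]
  all_goals exact Y.ext (by decide) (by decide) (by decide)

theorem ex_yes : Wit (Y.χ.ker.comap (sg : Ex →* Y) ⊔ Y.σ.ker.comap sg : Subgroup Ex) := by
  have n : ∀ g : Ex, g ∈ Nm sg.ker := fun g => le_normalizer_of_normal (mem_top g)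
  have i : ∀ y : Y, sg (inr y : Ex) = y := fun _ => rfl
  refine Wt.pull (P := sg.ker) ⟨ex_bd.map inr fun x u => (i x).symm.trans (congrArg sg u.2),
    fun x => ⟨1, Subtype.ext (tr_pow x.2)⟩, fun x _ => n x, n _, n _, ?_⟩ (Subgroup.subtype _) ?_ ?_ ?_ ?_
  · rintro _ ⟨⟨y, -, rfl⟩, v⟩
    exact ⟨y, tr_cent (p := 7) fun f => (comm_iff (b := ⟨f, 1⟩) rfl).1 (v _ rfl).symm, rfl⟩
  all_goals rw [range_subtype]
  · exact le_sup_of_le_left (ker_le_comap _ _)
  · rintro _ ⟨y, u, rfl⟩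
    exact mem_sup_right (show Y.σ y = 1 by simp [Y.σ, (Y.k.1 u).1])
  · exact mem_sup_right (show Equiv.Perm.sign (finRotate 3) = 1 by decide)
  · rw [show (⟨0, Equiv.swap 0 1, 1⟩ : Y) = ⟨0, Equiv.swap 0 1, ZMod.unitOfCoprime 2 (by decide)⟩ *
      ⟨0, 1, ZMod.unitOfCoprime 3 (by decide)⟩ from Y.ext (by decide) (by decide) (by decide), map_mul]
    exact mul_mem (mem_sup_left (show Y.χ ⟨0, _, _⟩ = 1 by decide)) (mem_sup_right
      (show Y.σ ⟨0, _, _⟩ = 1 by decide))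

def Fc : Cls := fun G _ => Finite G ∧ Group.IsSolvable G ∧ ¬ Wit G

theorem fc_sub (G : Type) [Group G] (K : Subgroup G) (h : Fc G) : Fc K :=
  have := h.1
  have := h.2.1
  ⟨inferInstance, inferInstance, fun w => h.2.2 (w.inj _ K.subtype_injective)⟩

theorem fc_form : IsForm Fc :=
  have k : ∀ (G H : Type) [Group G] [Group H] (f : G →* H), Surjective f → Fc G → Fc H :=
    fun _ _ _ _ f hf ⟨_, _, h⟩ => ⟨.of_surjective f hf, Group.isSolvable_of_surjective hf,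
      fun w => h (w.surj f hf)⟩
  ⟨fun _ _ h => h.1, fun _ _ _ _ ⟨e⟩ => k _ _ e.toMonoidHom e.surjective,
    fun _ _ N _ => k _ _ _ (QuotientGroup.mk'_surjective N), fun G _ _ N L _ _ e ⟨_, _, a⟩ ⟨_, _, b⟩ =>
    have i : ∀ x, QuotientGroup.mk' N x = 1 → QuotientGroup.mk' L x = 1 → x = 1 := fun x u v =>
      e.le ⟨(QuotientGroup.eq_one_iff x).1 u, (QuotientGroup.eq_one_iff x).1 v⟩
    ⟨inferInstance, Group.isSolvable_of_isSolvable_injective (f := (QuotientGroup.mk' N).prod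
      (QuotientGroup.mk' L)) ((injective_iff_map_eq_one _).2 fun x u =>
        i x (congrArg Prod.fst u) (congrArg Prod.snd u)), fun w => (w.two _ _ i).elim a b⟩⟩

theorem fc_sat : IsSat Fc := fun G _ _ ⟨_, _, h⟩ =>
  have := frattini_nilpotent (G := G)
  have := Group.isSolvable_of_ker_le_range (frattini G).subtype (QuotientGroup.mk' (frattini G)) (by simp)
  ⟨inferInstance, this, fun w => h w.sat⟩

theorem fc_unit : Fc Unit := ⟨inferInstance, inferInstance, fun w => w.n3 (Nl.mono (k := 0)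
  (inferInstance : Subsingleton Unit) (Nat.zero_le 3))⟩

theorem nl_ex {G : Type} [Group G] [Finite G] [Group.IsSolvable G] : ∃ k, Nl k G := by
  induction hn : Nat.card G using Nat.strong_induction_on generalizing G with | _ n ih =>
  rcases subsingleton_or_nontrivial G with h | _
  · exact ⟨0, h⟩
  obtain ⟨N, -, h⟩ := exists_minN (M := (⊤ : Subgroup G)) inferInstance top_ne_bot
  have := h.1
  obtain ⟨k, e⟩ := ih _ (hn ▸ card_quot_lt h.2.1) rfl
  exact ⟨k + 1, N, this, rn_iff.1 ⟨1, commutator_le.2 fun x a y b => commutatorElement_eq_one_iff_mul_comm.2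
    (h.cases.resolve_right (Group.IsSolvable.commutator_lt_of_ne_bot h.2.1).ne x a y b)⟩, e⟩

theorem fc_min {G : Type} [Group G] [Finite G] [Group.IsSolvable G] (h : ¬ Fc G)
    (m : ∀ U : Subgroup G, U ≠ ⊤ → Fc U) (U : Subgroup G) (u : U ≠ ⊤) :
    sInf {k | Nl k U} < sInf {k | Nl k G} := by
  have w : Wit G := not_not.1 fun w => h ⟨‹_›, ‹_›, w⟩
  exact (Nat.sInf_le (high w (fun L l => (m L l).2.2) U u)).trans_lt
    (not_le.1 fun c => w.n3 (Nl.mono (Nat.sInf_mem (s := {k | Nl k G}) nl_ex) c))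

theorem fc_ex : ∃ (G : Type) (_ : Group G) (_ : Finite G) (M N : Subgroup G), M.Normal ∧ N.Normal ∧
    Fc M ∧ Fc N ∧ ¬ Fc (M ⊔ N : Subgroup G) := by
  have : Group.IsSolvable Ex := solv_ext sg fun x y a b => tr_comm a b
  refine ⟨Ex, inferInstance, inferInstance, _, _, inferInstance, inferInstance, ⟨inferInstance,
    inferInstance, ex_no _ fun y u v => ?_⟩, ⟨inferInstance, inferInstance, ex_no _ fun y u v =>
      absurd u v⟩, fun h => h.2.2 ex_yes⟩
  have : ∀ (π : Equiv.Perm (Fin 3)) (c : (ZMod 5)ˣ), (π.sign * if c ^ 2 = 1 then 1 else -1) = 1 →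
    π.sign ≠ 1 → π ^ 2 = 1 ∧ c ^ 2 = -1 := by decide
  exact this _ _ u v

end Pool.Agent.H22.Comp
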