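import Mathlib

set_option autoImplicit false

namespace H22.Cw

open Cardinal

theorem trec {X : Type*} [CompleteLattice X] {ι : Type} [LinearOrder ι] [WellFoundedLT ι]
    {Y : Type} (κ : Cardinal.{0}) (hκ : ℵ₀ ≤ κ) (hι : ∀ i : ι, #(Set.Iio i) < κ)
    (Inv : X → Prop) (Good : ι → X → Prop) (Bd : X → Set Y → Prop)
    (hstep : ∀ (i : ι) (s : X) (S : Set Y), Inv s → Bd s S → #S < κ →
      ∃ p : X × Set Y, s ≤ p.1 ∧ p.2.Finite ∧ Inv p.1 ∧ Good i p.1 ∧ Bd p.1 (S ∪ p.2))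
    (hsup : ∀ (I : Set ι) (f : I → X), Monotone f → (∀ i, Inv (f i)) → Inv (⨆ i, f i))
    (hbd : ∀ (I : Set ι) (f : I → X) (S : Set Y), (∀ i, Bd (f i) S) → Bd (⨆ i, f i) S)
    (hbm : ∀ s S S', S ⊆ S' → Bd s S → Bd s S')
    (hgm : ∀ i s s', s ≤ s' → Good i s → Good i s') :
    ∃ s, Inv s ∧ ∀ i, Good i s := by
  classical
  let R : (i : ι) → ((j : ι) → j < i → X × Set Y) → X × Set Y → Prop := fun i prev p =>
    (⨆ j : Set.Iio i, (prev j j.2).1) ≤ p.1 ∧ p.2.Finite ∧ Inv p.1 ∧ Good i p.1 ∧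
      Bd p.1 ((⋃ j : Set.Iio i, (prev j j.2).2) ∪ p.2)
  let G : (i : ι) → ((j : ι) → j < i → X × Set Y) → X × Set Y := fun i prev =>
    if h : ∃ p, R i prev p then h.choose else (⊥, ∅)
  let f : ι → X × Set Y := (wellFounded_lt (α := ι)).fix G
  have hf : ∀ i, f i = G i (fun j _ => f j) := fun i => WellFounded.fix_eq _ _ _
  have mono : ∀ (I : Set ι), (∀ j ∈ I, R j (fun k _ => f k) (f j)) →
      Monotone (fun j : I => (f j).1) := by
    intro I hI j k hjk
    rcases lt_or_eq_of_le hjk with h | h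
    · exact le_trans (le_iSup (fun l : Set.Iio (k : ι) => (f l).1) ⟨j, h⟩) (hI k k.2).1
    · rw [h]
  have key : ∀ i, R i (fun j _ => f j) (f i) := by
    intro i
    induction i using WellFoundedLT.induction with
    | ind i ih =>
      have h : ∃ p, R i (fun j _ => f j) p := by
        apply hstep
        · exact hsup (Set.Iio i) _ (mono _ ih) (fun j => (ih j j.2).2.2.1)
        · apply hbd (Set.Iio i)
          intro j
          refine hbm _ _ _ ?_ (ih j j.2).2.2.2.2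
          apply Set.union_subset
          · apply Set.iUnion_subset
            intro k
            exact Set.subset_iUnion (fun l : Set.Iio i => (f l).2) ⟨k, lt_trans k.2 j.2⟩
          · exact Set.subset_iUnion (fun l : Set.Iio i => (f l).2) j
        · by_cases hfin : Finite (Set.Iio i)
          · exact lt_of_lt_of_le (Set.finite_iUnion (fun j : Set.Iio i => (ih j j.2).2.1)).lt_aleph0 hκ
          · rw [not_finite_iff_infinite] at hfin
            refine lt_of_le_of_lt (mk_iUnion_le _) (lt_of_le_of_lt ?_ (hι i))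
            calc #(Set.Iio i) * ⨆ j : Set.Iio i, #((f j).2) ≤ #(Set.Iio i) * ℵ₀ := by
                  gcongr
                  exact ciSup_le' (fun j => (ih j j.2).2.1.lt_aleph0.le)
              _ = #(Set.Iio i) := mul_aleph0_eq (aleph0_le_mk _)
      rw [hf i]
      simp only [G, dif_pos h]
      exact h.choose_spec
  refine ⟨⨆ j : (Set.univ : Set ι), (f j).1, hsup _ _ (mono _ (fun j _ => key j))
    (fun j => (key j).2.2.1), fun i => ?_⟩
  exact hgm i _ _ (le_iSup (fun l : (Set.univ : Set ι) => (f l).1) ⟨i, trivial⟩) (key i).2.2.2.1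

variable {D V : Type} [DivisionRing D] [AddCommGroup V] [Module D V]

theorem mem_ext {U : Type} [AddCommGroup U] [Module D U] {P : Submodule D U} {w z : U}
    (h : z ∈ P ⊔ Submodule.span D {w}) : ∃ (u : U) (c : D), u ∈ P ∧ z = u + c • w := by
  obtain ⟨u, hu, t, ht, rfl⟩ := Submodule.mem_sup.1 h
  obtain ⟨c, rfl⟩ := Submodule.mem_span_singleton.1 ht
  exact ⟨u, c, hu, rfl⟩

theorem new_mem {U : Type} [AddCommGroup U] [Module D U] (P : Submodule D U) (w : U) :
    w ∈ P ⊔ Submodule.span D {w} :=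
  Submodule.mem_sup_right (Submodule.mem_span_singleton_self w)

theorem fn_ext {U : Type} [AddCommGroup U] [Module D U] {P : Submodule D (V × U)}
    (fn : ∀ φ, (0, φ) ∈ P → φ = 0) {v : V} (ψ : U) (hv : ∀ φ, (v, φ) ∉ P) (φ : U)
    (h : ((0 : V), φ) ∈ P ⊔ Submodule.span D {(v, ψ)}) : φ = 0 := by
  obtain ⟨⟨u, χ⟩, c, hu, he⟩ := mem_ext h
  simp only [Prod.smul_mk, Prod.mk_add_mk, Prod.mk.injEq] at he
  by_cases hc : c = 0
  · subst hc
    simp only [zero_smul, add_zero] at he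
    obtain ⟨rfl, rfl⟩ := he
    exact fn _ hu
  · exfalso
    apply hv (-(c⁻¹ • χ))
    have h1 : v = -(c⁻¹ • u) := by
      have : u = -(c • v) := eq_neg_of_add_eq_zero_left he.1.symm
      rw [this, smul_neg, neg_neg, smul_smul, inv_mul_cancel₀ hc, one_smul]
    rw [h1]
    exact P.neg_mem (P.smul_mem c⁻¹ hu)

theorem fn_ext' {P : Submodule D (V × V)}
    (fn : ∀ φ, (φ, 0) ∈ P → φ = 0) {v : V} (ψ : V) (hv : ∀ φ, (φ, v) ∉ P) (φ : V)
    (h : (φ, (0 : V)) ∈ P ⊔ Submodule.span D {(ψ, v)}) : φ = 0 := by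
  obtain ⟨⟨χ, u⟩, c, hu, he⟩ := mem_ext h
  simp only [Prod.smul_mk, Prod.mk_add_mk, Prod.mk.injEq] at he
  by_cases hc : c = 0
  · subst hc
    simp only [zero_smul, add_zero] at he
    obtain ⟨rfl, rfl⟩ := he
    exact fn _ hu
  · exfalso
    apply hv (-(c⁻¹ • χ))
    have h1 : v = -(c⁻¹ • u) := by
      have : u = -(c • v) := eq_neg_of_add_eq_zero_left he.2.symm
      rw [this, smul_neg, neg_neg, smul_smul, inv_mul_cancel₀ hc, one_smul]
    rw [h1]
    exact P.neg_mem (P.smul_mem c⁻¹ hu)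

theorem graph_map {U : Type} [AddCommGroup U] [Module D U] (P : Submodule D (V × U))
    (fn : ∀ φ, (0, φ) ∈ P → φ = 0) (tot : ∀ v, ∃ φ, (v, φ) ∈ P) :
    ∃ p : V →ₗ[D] U, ∀ v φ, (v, φ) ∈ P ↔ φ = p v := by
  choose p hp using tot
  have un : ∀ v φ, (v, φ) ∈ P → φ = p v := by
    intro v φ h
    have := P.sub_mem h (hp v)
    simp only [Prod.mk_sub_mk, sub_self] at this
    exact sub_eq_zero.1 (fn _ this)
  refine ⟨⟨⟨p, fun x y => (un _ _ (P.add_mem (hp x) (hp y))).symm⟩,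
    fun c x => (un _ _ (P.smul_mem c (hp x))).symm⟩, fun v φ => ⟨un v φ, ?_⟩⟩
  rintro rfl
  exact hp v

variable {Φ : Type} [AddCommGroup Φ] [Module D Φ]

structure Half (T : Φ ≃ₗ[D] Φ) (e : V × V → Φ) (h : V ≃ₗ[D] V) (sel : V × V → V)
    (J : Set (V × V)) (A : Submodule D (V × V)) (P : Submodule D (V × Φ)) : Prop where
  fn : ∀ φ, (0, φ) ∈ P → φ = 0
  cm : ∀ x y, (x, y) ∈ A → ∃ φ, (h x, φ) ∈ P ∧ (y, T φ) ∈ P
  gn : ∀ j ∈ J, (sel j, e j) ∈ P
  ge : ∀ Z : Submodule D V, (∀ x y, (x, y) ∈ A → (h x ∈ Z ↔ y ∈ Z)) → (∀ j ∈ J, sel j ∈ Z) →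
    ∀ v φ, (v, φ) ∈ P → v ∈ Z

variable {T : Φ ≃ₗ[D] Φ} {e : V × V → Φ} {h : V ≃ₗ[D] V} {sel : V × V → V}
  {J : Set (V × V)} {A : Submodule D (V × V)} {P : Submodule D (V × Φ)}

theorem Half.addgen (H : Half T e h sel J A P) (j : V × V) (hj : ∀ φ, (sel j, φ) ∉ P) :
    Half T e h sel (J ∪ {j}) A (P ⊔ Submodule.span D {(sel j, e j)}) where
  fn := fn_ext H.fn _ hj
  cm := fun x y hxy => by
    obtain ⟨φ, h1, h2⟩ := H.cm x y hxy
    exact ⟨φ, Submodule.mem_sup_left h1, Submodule.mem_sup_left h2⟩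
  gn := by
    rintro k (hk | rfl)
    · exact Submodule.mem_sup_left (H.gn k hk)
    · exact new_mem _ _
  ge := fun Z h1 h2 v φ hv => by
    obtain ⟨⟨u, χ⟩, c, hu, he⟩ := mem_ext hv
    simp only [Prod.smul_mk, Prod.mk_add_mk, Prod.mk.injEq] at he
    rw [he.1]
    exact Z.add_mem (H.ge Z h1 (fun k hk => h2 k (Or.inl hk)) u χ hu)
      (Z.smul_mem c (h2 j (Or.inr rfl)))

theorem Half.edge (H : Half T e h sel J A P) (x y w : V) (ψ φ : Φ) (hw : ∀ χ, (w, χ) ∉ P)
    (h1 : (h x, φ) ∈ P ⊔ Submodule.span D {(w, ψ)})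
    (h2 : (y, T φ) ∈ P ⊔ Submodule.span D {(w, ψ)})
    (h3 : ∀ Z : Submodule D V, (h x ∈ Z ↔ y ∈ Z) → (∀ v χ, (v, χ) ∈ P → v ∈ Z) → w ∈ Z) :
    Half T e h sel J (A ⊔ Submodule.span D {(x, y)}) (P ⊔ Submodule.span D {(w, ψ)}) where
  fn := fn_ext H.fn _ hw
  cm := fun x' y' hxy => by
    obtain ⟨⟨u, t⟩, c, hu, he⟩ := mem_ext hxy
    simp only [Prod.smul_mk, Prod.mk_add_mk, Prod.mk.injEq] at he
    obtain ⟨χ, k1, k2⟩ := H.cm u t hu
    refine ⟨χ + c • φ, ?_, ?_⟩
    · rw [he.1, map_add, map_smul]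
      exact Submodule.add_mem _ (Submodule.mem_sup_left k1) (Submodule.smul_mem _ c h1)
    · rw [he.2, map_add, map_smul]
      exact Submodule.add_mem _ (Submodule.mem_sup_left k2) (Submodule.smul_mem _ c h2)
  gn := fun k hk => Submodule.mem_sup_left (H.gn k hk)
  ge := fun Z k1 k2 v χ hv => by
    obtain ⟨⟨u, χ'⟩, c, hu, he⟩ := mem_ext hv
    simp only [Prod.smul_mk, Prod.mk_add_mk, Prod.mk.injEq] at he
    have hP := H.ge Z (fun a b hab => k1 a b (Submodule.mem_sup_left hab)) k2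
    rw [he.1]
    exact Z.add_mem (hP u χ' hu) (Z.smul_mem c (h3 Z (k1 x y (new_mem _ _)) hP))

theorem Half.fwd (H : Half T e h sel J A P) (x y : V) (φ : Φ) (hx : (h x, φ) ∈ P)
    (hy : ∀ χ, (y, χ) ∉ P) :
    Half T e h sel J (A ⊔ Submodule.span D {(x, y)}) (P ⊔ Submodule.span D {(y, T φ)}) :=
  H.edge x y y _ φ hy (Submodule.mem_sup_left hx) (new_mem _ _)
    (fun _ k1 k2 => k1.1 (k2 _ _ hx))

theorem Half.bwd (H : Half T e h sel J A P) (x y : V) (φ : Φ) (hy : (y, φ) ∈ P)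
    (hx : ∀ χ, (h x, χ) ∉ P) :
    Half T e h sel J (A ⊔ Submodule.span D {(x, y)})
      (P ⊔ Submodule.span D {(h x, T.symm φ)}) :=
  H.edge x y (h x) _ (T.symm φ) hx (new_mem _ _)
    (Submodule.mem_sup_left (by simpa using hy)) (fun _ k1 k2 => k1.2 (k2 _ _ hy))

theorem mem_sup_chain {U I : Type} [AddCommGroup U] [Module D U] [LinearOrder I]
    (f : I → Submodule D U) (hf : Monotone f) {z : U} (hz : z ∈ ⨆ i, f i) :
    z = 0 ∨ ∃ i, z ∈ f i := by
  rcases isEmpty_or_nonempty I with hI | hI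
  · left
    rw [iSup_of_empty] at hz
    exact hz
  · right
    exact (Submodule.mem_iSup_of_directed f hf.directed_le).1 hz

theorem Half.sup {I : Type} [LinearOrder I] (J : I → Set (V × V))
    (A : I → Submodule D (V × V)) (P : I → Submodule D (V × Φ)) (hA : Monotone A)
    (hP : Monotone P) (H : ∀ i, Half T e h sel (J i) (A i) (P i)) :
    Half T e h sel (⨆ i, J i) (⨆ i, A i) (⨆ i, P i) where
  fn := fun φ hφ => by
    rcases mem_sup_chain P hP hφ with h0 | ⟨i, hi⟩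
    · exact (Prod.mk.inj h0).2
    · exact (H i).fn φ hi
  cm := fun x y hxy => by
    rcases mem_sup_chain A hA hxy with h0 | ⟨i, hi⟩
    · obtain ⟨rfl, rfl⟩ := Prod.mk.inj h0
      refine ⟨0, ?_, ?_⟩ <;> rw [map_zero] <;> exact Submodule.zero_mem _
    · obtain ⟨φ, h1, h2⟩ := (H i).cm x y hi
      exact ⟨φ, Submodule.mem_iSup_of_mem i h1, Submodule.mem_iSup_of_mem i h2⟩
  gn := fun j hj => by
    obtain ⟨i, hi⟩ := Set.mem_iUnion.1 hj
    exact Submodule.mem_iSup_of_mem i ((H i).gn j hi)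
  ge := fun Z h1 h2 v φ hv => by
    rcases mem_sup_chain P hP hv with h0 | ⟨i, hi⟩
    · rw [(Prod.mk.inj h0).1]
      exact Z.zero_mem
    · exact (H i).ge Z (fun x y hxy => h1 x y (Submodule.mem_iSup_of_mem i hxy))
        (fun j hj => h2 j (Set.mem_iUnion.2 ⟨i, hj⟩)) v φ hi

theorem Half.final (H : Half T e h sel J A P) (E : (V × V) × ℤ → Φ)
    (hE : LinearIndependent D E) (hE0 : ∀ j, E (j, 0) = e j)
    (hE1 : ∀ j n, T (E (j, n)) = E (j, n + 1))
    (a : V ≃ₗ[D] V) (ha : ∀ x y, (x, y) ∈ A ↔ y = a x) :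
    ∃ B : Module.Basis (J × ℤ) D V, ∀ j n, a (h.symm (B (j, n))) = B (j, n + 1) := by
  have tot : ∀ v, ∃ φ, (v, φ) ∈ P := fun v => by
    obtain ⟨φ, -, h2⟩ := H.cm (a.symm v) v ((ha _ _).2 (by simp))
    exact ⟨_, h2⟩
  obtain ⟨p, hp⟩ := graph_map P H.fn tot
  let c : V ≃ₗ[D] V := h.symm.trans a
  have hc : ∀ v, c v = a (h.symm v) := fun v => rfl
  have pc : ∀ v, p (c v) = T (p v) := fun v => by
    obtain ⟨φ, h1, h2⟩ := H.cm (h.symm v) (c v) ((ha _ _).2 rfl)
    rw [LinearEquiv.apply_symm_apply] at h1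
    rw [← (hp _ _).1 h1, ← (hp _ _).1 h2]
  let b : J × ℤ → V := fun k => (c ^ k.2) (sel k.1)
  have hb : ∀ j n, c (b (j, n)) = b (j, n + 1) := fun j n => by
    simp only [b]
    rw [add_comm, zpow_one_add]
    rfl
  have pb : ∀ (j : J) (n : ℤ), p (b (j, n)) = E (j, n) := by
    intro j n
    induction n using Int.induction_on with
    | zero =>
      rw [hE0]
      exact ((hp _ _).1 (H.gn j j.2)).symm
    | succ n ih => rw [← hb, pc, ih, hE1]
    | pred n ih =>
      apply T.injective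
      rw [← pc, hb, hE1, sub_add_cancel, ih]
  have li : LinearIndependent D b := by
    apply LinearIndependent.of_comp p
    have : p ∘ b = E ∘ (fun k : J × ℤ => ((k.1 : V × V), k.2)) := by
      funext k
      exact pb k.1 k.2
    rw [this]
    apply hE.comp
    rintro ⟨j, n⟩ ⟨k, m⟩ hh
    obtain ⟨h1, h2⟩ := Prod.mk.inj hh
    exact Prod.ext (Subtype.ext h1) h2
  have sp : ⊤ ≤ Submodule.span D (Set.range b) := by
    intro v _
    obtain ⟨φ, hφ⟩ := tot v
    refine H.ge _ ?_ ?_ v φ hφ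
    · intro x y hxy
      have hy : y = c (h x) := by rw [hc, LinearEquiv.symm_apply_apply]; exact (ha _ _).1 hxy
      rw [hy]
      generalize h x = z
      constructor
      · intro hz
        have : Submodule.span D (Set.range b) ≤
            (Submodule.span D (Set.range b)).comap c.toLinearMap := by
          rw [Submodule.span_le]
          rintro _ ⟨⟨j, n⟩, rfl⟩
          apply Submodule.subset_span
          exact ⟨(j, n + 1), (hb j n).symm⟩
        exact this hz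
      · intro hz
        have : Submodule.span D (Set.range b) ≤
            (Submodule.span D (Set.range b)).comap c.symm.toLinearMap := by
          rw [Submodule.span_le]
          rintro _ ⟨⟨j, n⟩, rfl⟩
          apply Submodule.subset_span
          refine ⟨(j, n - 1), ?_⟩
          apply c.injective
          rw [hb, sub_add_cancel]
          simp
        simpa using this hz
    · intro j hj
      apply Submodule.subset_span
      exact ⟨(⟨j, hj⟩, 0), by simp [b]⟩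
  refine ⟨Module.Basis.mk li sp, fun j n => ?_⟩
  rw [Module.Basis.mk_apply, Module.Basis.mk_apply, ← hc, hb]

end H22.Cw
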