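import Pool.Agent.H22.Cw1

set_option autoImplicit false

namespace H22.Cw

open Cardinal

variable {D V : Type} [DivisionRing D] [AddCommGroup V] [Module D V]
variable {Φ : Type} [AddCommGroup Φ] [Module D Φ]

abbrev St (D V Φ : Type) [DivisionRing D] [AddCommGroup V] [Module D V] [AddCommGroup Φ]
    [Module D Φ] :=
  Set (V × V) × Submodule D (V × V) × Submodule D (V × Φ) × Submodule D (V × Φ)

structure Inv (T : Φ ≃ₗ[D] Φ) (e : V × V → Φ) (g : V ≃ₗ[D] V) (s : St D V Φ) : Prop where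
  f1 : ∀ y, (0, y) ∈ s.2.1 → y = 0
  f2 : ∀ x, (x, 0) ∈ s.2.1 → x = 0
  h1 : Half T e (LinearEquiv.refl D V) Prod.fst s.1 s.2.1 s.2.2.1
  h2 : Half T e g.symm Prod.snd s.1 s.2.1 s.2.2.2

def Bd (s : St D V Φ) (S : Set V) : Prop :=
  ∀ v φ, ((v, φ) ∈ s.2.2.1 ∨ (v, φ) ∈ s.2.2.2) → v ∈ Submodule.span D S

def Ext (s s' : St D V Φ) : Prop :=
  s ≤ s' ∧ ∃ F : Set V, F.Finite ∧ ∀ S, Bd s S → Bd s' (S ∪ F)

def Sm (s : St D V Φ) : Prop := ∃ S : Set V, #S < Module.rank D V ∧ Bd s S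

theorem Bd.mono {s : St D V Φ} {S S' : Set V} (h : S ⊆ S') (hb : Bd s S) : Bd s S' :=
  fun v φ hv => Submodule.span_mono h (hb v φ hv)

theorem Ext.rfl' (s : St D V Φ) : Ext s s :=
  ⟨le_rfl, ∅, Set.finite_empty, fun _ h => h.mono Set.subset_union_left⟩

theorem Ext.trans {s s' s'' : St D V Φ} (h : Ext s s') (h' : Ext s' s'') : Ext s s'' := by
  obtain ⟨l, F, hF, k⟩ := h
  obtain ⟨l', F', hF', k'⟩ := h'
  refine ⟨l.trans l', F ∪ F', hF.union hF', fun S hS => ?_⟩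
  rw [← Set.union_assoc]
  exact k' _ (k S hS)

theorem Sm.ext (hκ : ℵ₀ ≤ Module.rank D V) {s s' : St D V Φ} (h : Sm s) (h' : Ext s s') :
    Sm s' := by
  obtain ⟨S, hS, hb⟩ := h
  obtain ⟨-, F, hF, k⟩ := h'
  exact ⟨S ∪ F, lt_of_le_of_lt (mk_union_le _ _)
    (add_lt_of_lt hκ hS (lt_of_lt_of_le hF.lt_aleph0 hκ)), k S hb⟩

theorem generic (S : Set V) (hS : #S < Module.rank D V) : ∃ w, w ∉ Submodule.span D S := by
  by_contra hh
  push Not at hh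
  have : Submodule.span D S = ⊤ := eq_top_iff.2 (fun w _ => hh w)
  have h2 := rank_span_le (R := D) S
  rw [this, rank_top] at h2
  exact absurd hS (not_lt.2 h2)

theorem ext_add (s : St D V Φ) (J' : Set (V × V)) (A' : Submodule D (V × V)) (hJ : s.1 ≤ J')
    (hA : s.2.1 ≤ A') (v w : V) (φ ψ : Φ) :
    Ext s (J', A', s.2.2.1 ⊔ Submodule.span D {(v, φ)}, s.2.2.2 ⊔ Submodule.span D {(w, ψ)}) := by
  refine ⟨⟨hJ, hA, le_sup_left, le_sup_left⟩, {v, w}, (Set.finite_singleton _).insert _,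
    fun S hS z χ hz => ?_⟩
  rcases hz with hz | hz
  · obtain ⟨⟨u, χ'⟩, c, hu, he⟩ := mem_ext hz
    simp only [Prod.smul_mk, Prod.mk_add_mk, Prod.mk.injEq] at he
    rw [he.1]
    exact Submodule.add_mem _ (Submodule.span_mono Set.subset_union_left (hS u χ' (Or.inl hu)))
      (Submodule.smul_mem _ c (Submodule.subset_span (Or.inr (by simp))))
  · obtain ⟨⟨u, χ'⟩, c, hu, he⟩ := mem_ext hz
    simp only [Prod.smul_mk, Prod.mk_add_mk, Prod.mk.injEq] at he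
    rw [he.1]
    exact Submodule.add_mem _ (Submodule.span_mono Set.subset_union_left (hS u χ' (Or.inr hu)))
      (Submodule.smul_mem _ c (Submodule.subset_span (Or.inr (by simp))))

variable {T : Φ ≃ₗ[D] Φ} {e : V × V → Φ} {g : V ≃ₗ[D] V}

theorem addj {s : St D V Φ} (H : Inv T e g s) (v w : V) (hv : ∀ φ, (v, φ) ∉ s.2.2.1)
    (hw : ∀ φ, (w, φ) ∉ s.2.2.2) :
    ∃ s', Ext s s' ∧ Inv T e g s' ∧ (∃ φ, (v, φ) ∈ s'.2.2.1) ∧ ∃ φ, (w, φ) ∈ s'.2.2.2 :=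
  ⟨_, ext_add s (s.1 ∪ {(v, w)}) s.2.1 Set.subset_union_left le_rfl v w (e (v, w)) (e (v, w)),
    ⟨H.f1, H.f2, H.h1.addgen (v, w) hv, H.h2.addgen (v, w) hw⟩, ⟨_, new_mem _ _⟩,
    ⟨_, new_mem _ _⟩⟩

theorem gP {s : St D V Φ} (H : Inv T e g s) (hs : Sm s) (v : V) :
    ∃ s', Ext s s' ∧ Inv T e g s' ∧ ∃ φ, (v, φ) ∈ s'.2.2.1 := by
  by_cases hv : ∃ φ, (v, φ) ∈ s.2.2.1
  · exact ⟨s, Ext.rfl' s, H, hv⟩
  · push Not at hv
    obtain ⟨S, hS, hb⟩ := hs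
    obtain ⟨w, hw⟩ := generic S hS
    obtain ⟨s', h1, h2, h3, -⟩ := addj H v w hv (fun φ hφ => hw (hb w φ (Or.inr hφ)))
    exact ⟨s', h1, h2, h3⟩

theorem gQ {s : St D V Φ} (H : Inv T e g s) (hs : Sm s) (v : V) :
    ∃ s', Ext s s' ∧ Inv T e g s' ∧ ∃ φ, (v, φ) ∈ s'.2.2.2 := by
  by_cases hv : ∃ φ, (v, φ) ∈ s.2.2.2
  · exact ⟨s, Ext.rfl' s, H, hv⟩
  · push Not at hv
    obtain ⟨S, hS, hb⟩ := hs
    obtain ⟨w, hw⟩ := generic S hS
    obtain ⟨s', h1, h2, -, h3⟩ := addj H w v (fun φ hφ => hw (hb w φ (Or.inl hφ))) hv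
    exact ⟨s', h1, h2, h3⟩

theorem fw {s : St D V Φ} (H : Inv T e g s) (hs : Sm s) (x : V) (φ ψ : Φ)
    (h1 : (x, φ) ∈ s.2.2.1) (h2 : (g.symm x, ψ) ∈ s.2.2.2) :
    ∃ s', Ext s s' ∧ Inv T e g s' ∧ ∃ y, (x, y) ∈ s'.2.1 := by
  by_cases hx : ∃ y, (x, y) ∈ s.2.1
  · exact ⟨s, Ext.rfl' s, H, hx⟩
  · push Not at hx
    obtain ⟨S, hS, hb⟩ := hs
    obtain ⟨y, hy⟩ := generic S hS
    have y1 : ∀ χ, (y, χ) ∉ s.2.2.1 := fun χ hφ => hy (hb y χ (Or.inl hφ))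
    have y2 : ∀ χ, (y, χ) ∉ s.2.2.2 := fun χ hφ => hy (hb y χ (Or.inr hφ))
    refine ⟨_, ext_add s s.1 (s.2.1 ⊔ Submodule.span D {(x, y)}) le_rfl le_sup_left y y
      (T φ) (T ψ), ⟨fn_ext H.f1 y hx, fn_ext' H.f2 x (fun z hz => ?_), H.h1.fwd x y φ h1 y1,
        H.h2.fwd x y ψ h2 y2⟩, y, new_mem _ _⟩
    obtain ⟨χ, -, k⟩ := H.h1.cm z y hz
    exact y1 _ k

theorem bw (hκ : ℵ₀ ≤ Module.rank D V) {s : St D V Φ} (H : Inv T e g s) (hs : Sm s) (y : V)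
    (φ ψ : Φ) (h1 : (y, φ) ∈ s.2.2.1) (h2 : (y, ψ) ∈ s.2.2.2) :
    ∃ s', Ext s s' ∧ Inv T e g s' ∧ ∃ x, (x, y) ∈ s'.2.1 := by
  by_cases hy : ∃ x, (x, y) ∈ s.2.1
  · exact ⟨s, Ext.rfl' s, H, hy⟩
  · push Not at hy
    obtain ⟨S, hS, hb⟩ := hs
    obtain ⟨x, hx⟩ := generic (S ∪ g '' S) (lt_of_le_of_lt (mk_union_le _ _)
      (add_lt_of_lt hκ hS (lt_of_le_of_lt mk_image_le hS)))
    have x1 : ∀ χ, (x, χ) ∉ s.2.2.1 := fun χ hφ =>
      hx (Submodule.span_mono Set.subset_union_left (hb x χ (Or.inl hφ)))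
    have x2 : ∀ χ, (g.symm x, χ) ∉ s.2.2.2 := fun χ hφ => by
      apply hx
      apply Submodule.span_mono Set.subset_union_right
      have := Submodule.mem_map_of_mem (f := g.toLinearMap) (hb _ χ (Or.inr hφ))
      rw [Submodule.map_span] at this
      simpa using this
    refine ⟨_, ext_add s s.1 (s.2.1 ⊔ Submodule.span D {(x, y)}) le_rfl le_sup_left x (g.symm x)
      (T.symm φ) (T.symm ψ), ⟨fn_ext H.f1 y (fun z hz => ?_), fn_ext' H.f2 x hy,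
        H.h1.bwd x y φ h1 x1, H.h2.bwd x y ψ h2 x2⟩, x, new_mem _ _⟩
    obtain ⟨χ, k, -⟩ := H.h1.cm x z hz
    exact x1 _ k

theorem step (hκ : ℵ₀ ≤ Module.rank D V) {s : St D V Φ} (H : Inv T e g s) (hs : Sm s) (v : V) :
    ∃ s', Ext s s' ∧ Inv T e g s' ∧ (∃ y, (v, y) ∈ s'.2.1) ∧ ∃ x, (x, v) ∈ s'.2.1 := by
  obtain ⟨s1, e1, H1, φ, p1⟩ := gP H hs v
  have m1 := hs.ext hκ e1
  obtain ⟨s2, e2, H2, ψ, p2⟩ := gQ H1 m1 (g.symm v)
  have m2 := m1.ext hκ e2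
  obtain ⟨s3, e3, H3, χ, p3⟩ := gQ H2 m2 v
  have m3 := m2.ext hκ e3
  obtain ⟨s4, e4, H4, y, p4⟩ := fw H3 m3 v φ ψ (e3.1.2.2.1 (e2.1.2.2.1 p1)) (e3.1.2.2.2 p2)
  have m4 := m3.ext hκ e4
  obtain ⟨s5, e5, H5, x, p5⟩ := bw hκ H4 m4 v φ χ (e4.1.2.2.1 (e3.1.2.2.1 (e2.1.2.2.1 p1)))
    (e4.1.2.2.2 p3)
  exact ⟨s5, e1.trans (e2.trans (e3.trans (e4.trans e5))), H5, ⟨y, e5.1.2.1 p4⟩, x, p5⟩

theorem Inv.sup {I : Type} [LinearOrder I] (f : I → St D V Φ) (hf : Monotone f)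
    (H : ∀ i, Inv T e g (f i)) : Inv T e g (⨆ i, f i) := by
  have a1 : Monotone (fun i => (f i).2.1) := fun _ _ h => (hf h).2.1
  have a2 : Monotone (fun i => (f i).2.2.1) := fun _ _ h => (hf h).2.2.1
  have a3 : Monotone (fun i => (f i).2.2.2) := fun _ _ h => (hf h).2.2.2
  refine ⟨fun y hy => ?_, fun x hx => ?_, ?_, ?_⟩
  · simp only [Prod.snd_iSup, Prod.fst_iSup] at hy
    rcases mem_sup_chain _ a1 hy with h0 | ⟨i, hi⟩
    · exact (Prod.mk.inj h0).2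
    · exact (H i).f1 y hi
  · simp only [Prod.snd_iSup, Prod.fst_iSup] at hx
    rcases mem_sup_chain _ a1 hx with h0 | ⟨i, hi⟩
    · exact (Prod.mk.inj h0).1
    · exact (H i).f2 x hi
  · simp only [Prod.snd_iSup, Prod.fst_iSup]
    exact Half.sup _ _ _ a1 a2 (fun i => (H i).h1)
  · simp only [Prod.snd_iSup, Prod.fst_iSup]
    exact Half.sup _ _ _ a1 a3 (fun i => (H i).h2)

theorem Bd.sup {I : Type} (f : I → St D V Φ) (S : Set V) (H : ∀ i, Bd (f i) S) :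
    Bd (⨆ i, f i) S := by
  intro v φ hv
  simp only [Prod.snd_iSup, Prod.fst_iSup] at hv
  have k : ∀ P : I → Submodule D (V × Φ), (∀ i v φ, (v, φ) ∈ P i → v ∈ Submodule.span D S) →
      (v, φ) ∈ ⨆ i, P i → v ∈ Submodule.span D S := by
    intro P hP h
    have : ⨆ i, P i ≤ (Submodule.span D S).comap (LinearMap.fst D V Φ) :=
      iSup_le (fun i z hz => hP i z.1 z.2 hz)
    exact this h
  rcases hv with hv | hv
  · exact k _ (fun i v φ h => H i v φ (Or.inl h)) hv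
  · exact k _ (fun i v φ h => H i v φ (Or.inr h)) hv

theorem total (hκ : ℵ₀ ≤ Module.rank D V) (T : Φ ≃ₗ[D] Φ) (e : V × V → Φ) (g : V ≃ₗ[D] V) :
    ∃ s : St D V Φ, Inv T e g s ∧ (∀ v, ∃ y, (v, y) ∈ s.2.1) ∧ ∀ v, ∃ x, (x, v) ∈ s.2.1 := by
  let b := Module.Basis.ofVectorSpace D V
  have hb : #(Module.Basis.ofVectorSpaceIndex D V) = Module.rank D V := b.mk_eq_rank''
  obtain ⟨lo, wf, ho⟩ := Cardinal.exists_ord_eq_type_lt (Module.Basis.ofVectorSpaceIndex D V)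
  obtain ⟨s, H, hs⟩ := trec (X := St D V Φ) (ι := Module.Basis.ofVectorSpaceIndex D V)
    (Module.rank D V) hκ (fun i => hb ▸ Cardinal.mk_Iio_lt i ho) (Inv T e g)
    (fun i s => (∃ y, (b i, y) ∈ s.2.1) ∧ ∃ x, (x, b i) ∈ s.2.1) Bd
    (fun i s S H hb hS => by
      obtain ⟨s', ⟨l, F, hF, k⟩, H', hg⟩ := step hκ H ⟨S, hS, hb⟩ (b i)
      exact ⟨(s', F), l, hF, H', hg, k S hb⟩)
    (fun I f hf H => Inv.sup f hf H) (fun I f S H => Bd.sup f S H)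
    (fun s S S' h hb => hb.mono h)
    (fun i s s' h hg => ⟨hg.1.imp (fun _ k => h.2.1 k), hg.2.imp (fun _ k => h.2.1 k)⟩)
  refine ⟨s, H, fun v => ?_, fun v => ?_⟩
  · have : ⊤ ≤ s.2.1.map (LinearMap.fst D V V) := by
      rw [← b.span_eq, Submodule.span_le]
      rintro _ ⟨i, rfl⟩
      obtain ⟨y, hy⟩ := (hs i).1
      exact ⟨_, hy, rfl⟩
    obtain ⟨⟨x, y⟩, h1, rfl⟩ := this (Submodule.mem_top (x := v))
    exact ⟨y, h1⟩
  · have : ⊤ ≤ s.2.1.map (LinearMap.snd D V V) := by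
      rw [← b.span_eq, Submodule.span_le]
      rintro _ ⟨i, rfl⟩
      obtain ⟨y, hy⟩ := (hs i).2
      exact ⟨_, hy, rfl⟩
    obtain ⟨⟨x, y⟩, h1, rfl⟩ := this (Submodule.mem_top (x := v))
    exact ⟨x, h1⟩

theorem main (hV : ¬ Module.Finite D V) (g : V ≃ₗ[D] V) :
    ∃ a b : V ≃ₗ[D] V, ∀ v, b (a v) = a (g (b v)) := by
  have hκ : ℵ₀ ≤ Module.rank D V := by
    by_contra hh
    exact hV (Module.rank_lt_aleph0_iff.1 (not_le.1 hh))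
  let E : (V × V) × ℤ → (((V × V) × ℤ) →₀ D) := fun k => Finsupp.single k 1
  let T : (((V × V) × ℤ) →₀ D) ≃ₗ[D] (((V × V) × ℤ) →₀ D) :=
    Finsupp.domLCongr (Equiv.prodCongr (Equiv.refl _) (Equiv.addRight (1 : ℤ)))
  have hE : LinearIndependent D E := Finsupp.linearIndependent_single_one D _
  have hE1 : ∀ j n, T (E (j, n)) = E (j, n + 1) := fun j n => by
    simp [T, E]
  obtain ⟨s, H, t1, t2⟩ := total hκ T (fun j => E (j, 0)) g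
  obtain ⟨a, ha⟩ := graph_map s.2.1 H.f1 t1
  have bij : Function.Bijective a := by
    constructor
    · rw [injective_iff_map_eq_zero]
      intro x hx
      exact H.f2 x ((ha _ _).2 hx.symm)
    · intro y
      obtain ⟨x, hx⟩ := t2 y
      exact ⟨x, ((ha _ _).1 hx).symm⟩
  let a' : V ≃ₗ[D] V := LinearEquiv.ofBijective a bij
  obtain ⟨B1, h1⟩ := H.h1.final E hE (fun _ => rfl) hE1 a' ha
  obtain ⟨B2, h2⟩ := H.h2.final E hE (fun _ => rfl) hE1 a' ha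
  refine ⟨a', B1.equiv B2 (Equiv.refl _), fun v => ?_⟩
  have : (B1.equiv B2 (Equiv.refl _)).toLinearMap ∘ₗ a'.toLinearMap =
      a'.toLinearMap ∘ₗ g.toLinearMap ∘ₗ (B1.equiv B2 (Equiv.refl _)).toLinearMap := by
    apply B1.ext
    rintro ⟨j, n⟩
    have k1 := h1 j n
    have k2 := h2 j n
    simp only [LinearEquiv.refl_symm, LinearEquiv.refl_apply, LinearEquiv.symm_symm] at k1 k2
    simp only [LinearMap.comp_apply, LinearEquiv.coe_coe, k1, Module.Basis.equiv_apply,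
      Equiv.refl_apply, k2]
  exact LinearMap.congr_fun this v

end H22.Cw
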