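import Mathlib

set_option autoImplicit false

namespace Pool.Agent.H22.Cyc64

def t : Fin 4 → Fin 4 → Fin 4 := ![![0, 3, 2, 1], ![1, 2, 3, 0], ![3, 0, 1, 2], ![2, 1, 0, 3]]

theorem t_inj : ∀ a b c, t a b = t a c → b = c := by decide
theorem t_law : ∀ x y z, t (t x y) (t x z) = t (t y x) (t y z) := by decide
theorem t_con : ∀ p q, ∃ a b, t a p = t b q := by decide

abbrev X := Fin 4 × Fin 4 × Fin 4

def op (x y : X) : X := (t x.2.2 y.2.2, t x.1 y.1, t x.2.1 y.2.1)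

theorem op_bij (x : X) : Function.Bijective (op x) := by
  refine Finite.injective_iff_bijective.1 fun y z h => ?_
  simp only [op, Prod.mk.injEq] at h
  exact Prod.ext (t_inj _ _ _ h.2.1) (Prod.ext (t_inj _ _ _ h.2.2) (t_inj _ _ _ h.1))

theorem op_law (x y z : X) : op (op x y) (op x z) = op (op y x) (op y z) := by
  simp only [op, Prod.mk.injEq]
  exact ⟨t_law _ _ _, t_law _ _ _, t_law _ _ _⟩

theorem op_con (p q : X) : ∃ a b, op a p = op b q := by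
  obtain ⟨a1, b1, h1⟩ := t_con p.1 q.1
  obtain ⟨a2, b2, h2⟩ := t_con p.2.1 q.2.1
  obtain ⟨a3, b3, h3⟩ := t_con p.2.2 q.2.2
  exact ⟨(a1, a2, a3), (b1, b2, b3), by simp only [op, h1, h2, h3]⟩

theorem keep {f : X → X} (hf : Function.Injective f) {Y : Set X} (h : Set.MapsTo f Y Y) (p : X) :
    f p ∈ Y ↔ p ∈ Y := by
  refine ⟨fun hp => ?_, fun hp => h hp⟩
  obtain ⟨q, hq, e⟩ := ((Set.toFinite Y).injOn_iff_bijOn_of_mapsTo h).1 hf.injOn |>.surjOn hp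
  exact hf e ▸ hq

theorem indec : ¬ ∃ Y Z : Set X, Y.Nonempty ∧ Z.Nonempty ∧ Disjoint Y Z ∧ Y ∪ Z = Set.univ ∧
    (∀ y ∈ Y, ∀ z ∈ Z, op y z ∈ Z) ∧ ∀ z ∈ Z, ∀ y ∈ Y, op z y ∈ Y := by
  rintro ⟨Y, Z, ⟨p, hp⟩, ⟨q, hq⟩, hd, hu, h1, h2⟩
  have hc : ∀ w, w ∈ Z ↔ w ∉ Y := fun w =>
    ⟨fun a b => Set.disjoint_left.1 hd b a, fun a => (hu.ge (Set.mem_univ w)).resolve_left a⟩
  have key : ∀ x w, op x w ∈ Y ↔ w ∈ Y := by
    intro x w
    by_cases hx : x ∈ Y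
    · rw [← not_iff_not, ← hc, ← hc]
      exact keep (op_bij x).1 (h1 x hx) w
    · exact keep (op_bij x).1 (h2 x ((hc x).2 hx)) w
  obtain ⟨a, b, e⟩ := op_con p q
  exact (hc q).1 hq ((key b q).1 (e ▸ (key a p).2 hp))

theorem per : Function.minimalPeriod (op (0, 0, 0)) (0, 0, 2) = 3 :=
  haveI : Fact (Nat.Prime 3) := ⟨by norm_num⟩
  Function.minimalPeriod_eq_prime (by decide) (by decide)

end Pool.Agent.H22.Cyc64
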