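import Mathlib

set_option autoImplicit false

namespace Pool.Agent.H22.DivComp

universe u v

/-- Every element has an n-th root for every n at least 1. -/
def Divisible (D : Type*) [Group D] : Prop := ∀ (d : D) (n : ℕ), 0 < n → ∃ x : D, x ^ n = d

/-- The order embedding makes H a minimal divisible completion of G. -/
def IsCompletion {G H : Type*} [Group G] [LinearOrder G] [Group H] [LinearOrder H]
    (ι : G →* H) : Prop :=
  StrictMono ι ∧ Divisible H ∧
    ∀ J : Subgroup H, (∀ g, ι g ∈ J) → (∀ (h : H) (n : ℕ), 0 < n → h ^ n ∈ J → h ∈ J) → J = ⊤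

theorem root_unique {H : Type*} [Group H] [LinearOrder H] [MulLeftMono H] [MulRightMono H]
    {a b : H} {n : ℕ} (hn : 0 < n) (h : a ^ n = b ^ n) : a = b := by
  rcases lt_trichotomy a b with h1 | h1 | h1
  · exact absurd h (pow_lt_pow_left' hn.ne' h1).ne
  · exact h1
  · exact absurd h (pow_lt_pow_left' hn.ne' h1).ne'

inductive Tm (G : Type u) : Type u
  | of : G → Tm G
  | mul : Tm G → Tm G → Tm G
  | inv : Tm G → Tm G
  | root : ℕ → Tm G → Tm G

noncomputable def ev {G : Type u} {H : Type*} [Group H] (hd : Divisible H) (ι : G → H) : Tm G → H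
  | .of g => ι g
  | .mul s t => ev hd ι s * ev hd ι t
  | .inv t => (ev hd ι t)⁻¹
  | .root n t => (hd (ev hd ι t) (n + 1) n.succ_pos).choose

theorem ev_root {G : Type u} {H : Type*} [Group H] (hd : Divisible H) (ι : G → H) (n : ℕ) (t : Tm G) :
    ev hd ι (.root n t) ^ (n + 1) = ev hd ι t := (hd (ev hd ι t) (n + 1) n.succ_pos).choose_spec

structure Comp (G : Type u) [Group G] [LinearOrder G] : Type (max u (v + 1)) where
  H : Type v
  [grp : Group H]
  [ord : LinearOrder H]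
  [l : MulLeftMono H]
  [r : MulRightMono H]
  ι : G →* H
  spec : IsCompletion ι

attribute [instance] Comp.grp Comp.ord Comp.l Comp.r

variable {G : Type u} [Group G] [LinearOrder G]

noncomputable def Comp.e (C : Comp.{u, v} G) : Tm G → C.H := ev C.spec.2.1 C.ι

theorem Comp.e_surj (C : Comp.{u, v} G) : Function.Surjective C.e := by
  let J : Subgroup C.H :=
    { carrier := Set.range C.e
      one_mem' := ⟨.of 1, map_one C.ι⟩
      mul_mem' := by rintro _ _ ⟨s, rfl⟩ ⟨t, rfl⟩; exact ⟨.mul s t, rfl⟩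
      inv_mem' := by rintro _ ⟨t, rfl⟩; exact ⟨.inv t, rfl⟩ }
  have := C.spec.2.2 J (fun g => ⟨.of g, rfl⟩) fun h n hn ⟨t, ht⟩ => by
    obtain ⟨m, rfl⟩ := Nat.exists_eq_add_one_of_ne_zero hn.ne'
    exact ⟨.root m t, root_unique hn ((ev_root _ _ m t).trans ht)⟩
  exact fun h => (this ▸ Subgroup.mem_top h : h ∈ J)

theorem exists_comp (D : Type v) [Group D] [LinearOrder D] [MulLeftMono D] [MulRightMono D]
    (hd : Divisible D) (ι : G →* D) (hι : StrictMono ι) : Nonempty (Comp.{u, v} G) := by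
  let S : Set (Subgroup D) := {J | (∀ g, ι g ∈ J) ∧ ∀ (h : D) (n : ℕ), 0 < n → h ^ n ∈ J → h ∈ J}
  have h1 : ∀ g, ι g ∈ sInf S := fun g => Subgroup.mem_sInf.2 fun J hJ => hJ.1 g
  have h2 : ∀ (h : D) (n : ℕ), 0 < n → h ^ n ∈ sInf S → h ∈ sInf S := fun h n hn e =>
    Subgroup.mem_sInf.2 fun J hJ => hJ.2 h n hn (Subgroup.mem_sInf.1 e J hJ)
  refine ⟨@Comp.mk G _ _ (sInf S : Subgroup D) _ _ ⟨fun a b c h => mul_le_mul_right (α := D) h a⟩
    ⟨fun a b c h => mul_le_mul_left (α := D) h a⟩ (ι.codRestrict _ h1) ⟨fun a b h => hι h, ?_, ?_⟩⟩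
  · rintro ⟨d, hd'⟩ n hn
    obtain ⟨x, rfl⟩ := hd d n hn
    exact ⟨⟨x, h2 x n hn hd'⟩, rfl⟩
  · intro J a1 a2
    have : J.map (sInf S).subtype ∈ S := ⟨fun g => ⟨_, a1 g, rfl⟩, fun h n hn ⟨y, hy, e⟩ =>
      ⟨⟨h, h2 h n hn (e ▸ y.2)⟩, a2 _ n hn ((congrArg (· ∈ J) (Subtype.ext e)).mp hy), rfl⟩⟩
    rw [eq_top_iff]
    intro x _
    obtain ⟨y, hy, e⟩ := Subgroup.mem_sInf.1 x.2 _ this
    exact (Subtype.ext e : y = x) ▸ hy

theorem main (h0 : Nonempty (Comp.{u, v} G)) :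
    ∃ (K : Type (max u v)) (_ : Group K) (_ : LinearOrder K) (_ : MulLeftMono K) (_ : MulRightMono K)
      (κ : G →* K), IsCompletion κ ∧ ∀ C : Comp.{u, v} G,
        ∃ φ : K →* C.H, Function.Surjective φ ∧ ∀ g, φ (κ g) = C.ι g := by
  classical
  let I := {R : Tm G → Tm G → Prop // ∃ C : Comp.{u, v} G, R = fun s t => C.e s = C.e t}
  let c : I → Comp.{u, v} G := fun R => R.2.choose
  have hc : ∀ R : I, R.1 = fun s t => (c R).e s = (c R).e t := fun R => R.2.choose_spec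
  obtain ⟨oI, wI⟩ := exists_wellFoundedLT I
  have : Nonempty I := h0.map fun C => ⟨_, C, rfl⟩
  let E : Tm G → ∀ R : I, (c R).H := fun t R => (c R).e t
  let K : Subgroup (∀ R : I, (c R).H) :=
    { carrier := Set.range E
      one_mem' := ⟨.of 1, funext fun R => map_one (c R).ι⟩
      mul_mem' := by rintro _ _ ⟨s, rfl⟩ ⟨t, rfl⟩; exact ⟨.mul s t, rfl⟩
      inv_mem' := by rintro _ ⟨t, rfl⟩; exact ⟨.inv t, rfl⟩ }
  let o : LinearOrder K := LinearOrder.lift' (fun k => toLex k.1) fun a b h => Subtype.ext h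
  have lt : ∀ a b : K, o.lt a b ↔ ∃ i, (∀ j, oI.lt j i → a.1 j = b.1 j) ∧ a.1 i < b.1 i :=
    fun _ _ => Iff.rfl
  have le : ∀ a b : K, o.le a b ↔ a = b ∨ o.lt a b := fun a b => @le_iff_eq_or_lt K o.toPartialOrder a b
  have m1 : @MulLeftMono K _ o.toLE := @CovariantClass.mk K K _ o.le fun a b d h => by
    rcases (le _ _).1 h with rfl | h
    · exact (le _ _).2 (Or.inl rfl)
    · obtain ⟨i, h1, h2⟩ := (lt _ _).1 h
      exact (le _ _).2 (Or.inr ((lt _ _).2 ⟨i, fun j hj => congrArg (a.1 j * ·) (h1 j hj),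
        mul_lt_mul_right h2 (a.1 i)⟩))
  have m2 : @MulRightMono K _ o.toLE := @CovariantClass.mk K K _ o.le fun a b d h => by
    rcases (le _ _).1 h with rfl | h
    · exact (le _ _).2 (Or.inl rfl)
    · obtain ⟨i, h1, h2⟩ := (lt _ _).1 h
      exact (le _ _).2 (Or.inr ((lt _ _).2 ⟨i, fun j hj => congrArg (· * a.1 j) (h1 j hj),
        mul_lt_mul_left h2 (a.1 i)⟩))
  let κ : G →* K := (MonoidHom.pi fun R => (c R).ι).codRestrict K fun g => ⟨.of g, rfl⟩
  refine ⟨K, inferInstance, o, m1, m2, κ, ⟨fun a b h => ?_, ?_, ?_⟩, fun C => ?_⟩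
  · obtain ⟨i, -, hi⟩ := wI.wf.has_min Set.univ Set.univ_nonempty
    exact (lt _ _).2 ⟨i, fun j hj => absurd hj (hi j trivial), (c i).spec.1 h⟩
  · rintro ⟨_, t, rfl⟩ n hn
    obtain ⟨m, rfl⟩ := Nat.exists_eq_add_one_of_ne_zero hn.ne'
    exact ⟨⟨_, .root m t, rfl⟩, Subtype.ext (funext fun R => ev_root _ _ m t)⟩
  · intro J a1 a2
    rw [eq_top_iff]
    rintro ⟨_, t, rfl⟩ -
    induction t with
    | of g => exact a1 g
    | mul s t hs ht => exact mul_mem hs ht
    | inv t ht => exact inv_mem ht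
    | root n t ht =>
      refine a2 _ (n + 1) n.succ_pos ((congrArg (· ∈ J) ?_).mp ht)
      exact Subtype.ext (funext fun R => (ev_root _ _ n t).symm)
  · have key : ∀ s t, E s = E t → C.e s = C.e t := fun s t h =>
      (congrFun₂ (hc ⟨_, C, rfl⟩) s t).mpr (congrFun h _)
    have key' : ∀ (k : K) t, E t = k → C.e k.2.choose = C.e t := fun k t h =>
      key _ _ (k.2.choose_spec.trans h.symm)
    refine ⟨MonoidHom.mk' (fun k => C.e k.2.choose) fun a b => ?_, fun h => ?_, fun g => ?_⟩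
    · exact key' (a * b) (.mul a.2.choose b.2.choose) (by
        change E _ * E _ = _
        rw [a.2.choose_spec, b.2.choose_spec]; rfl)
    · obtain ⟨t, rfl⟩ := C.e_surj h
      exact ⟨⟨_, t, rfl⟩, key' _ t rfl⟩
    · exact key' (κ g) (.of g) rfl

end Pool.Agent.H22.DivComp
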