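import Pool.Agent.H22.EgbDefs

set_option autoImplicit false

namespace Pool.Agent.H22.Egb

open Finsupp

noncomputable def out : (Y →₀ ℕ) →+ (ℕ →₀ ℕ) := weight fun y => single y.1.1 1
noncomputable def inn : (Y →₀ ℕ) →+ (ℕ →₀ ℕ) := weight fun y => single y.1.2 1
noncomputable def u (a : Y →₀ ℕ) : ℕ →₀ ℕ := out a + out a + inn a
noncomputable def e (p q : ℕ) (h : p ≠ q) : Y →₀ ℕ := single ⟨(p, q), h⟩ 1

theorem out_e (p q : ℕ) (h : p ≠ q) : out (e p q h) = single p 1 := by
  simp [out, e, weight_single]

theorem inn_e (p q : ℕ) (h : p ≠ q) : inn (e p q h) = single q 1 := by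
  simp [inn, e, weight_single]

theorem deg_e (p q : ℕ) (h : p ≠ q) : degree (e p q h) = 1 := by simp [e]

theorem u_add (a b : Y →₀ ℕ) : u (a + b) = u a + u b := by
  simp only [u, map_add]; abel

theorem u_zero : u 0 = 0 := by simp [u]

theorem u_e (p q : ℕ) (h : p ≠ q) : u (e p q h) = single p 1 + single p 1 + single q 1 := by
  simp only [u, out_e, inn_e]

theorem ind {P : (Y →₀ ℕ) → Prop} (h0 : P 0) (h1 : ∀ p q h a, P a → P (e p q h + a)) (a : Y →₀ ℕ) :
    P a := by
  induction a using Finsupp.induction with
  | zero => exact h0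
  | single_add y n a _ _ ih =>
    clear * - ih h1
    induction n with
    | zero => simpa using ih
    | succ n ih2 =>
      rw [add_comm n 1, single_add, add_assoc]
      exact h1 y.1.1 y.1.2 y.2 _ ih2

theorem deg_out (a : Y →₀ ℕ) : degree (out a) = degree a := by
  induction a using ind with
  | h0 => simp
  | h1 p q h a ih => simp [out_e, deg_e, ih]

theorem deg_inn (a : Y →₀ ℕ) : degree (inn a) = degree a := by
  induction a using ind with
  | h0 => simp
  | h1 p q h a ih => simp [inn_e, deg_e, ih]

theorem deg_u (a : Y →₀ ℕ) : degree (u a) = 3 * degree a := by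
  simp only [u, map_add, deg_out, deg_inn]; ring

theorem split {a : Y →₀ ℕ} {p q : ℕ} {h : p ≠ q} (ha : a ⟨(p, q), h⟩ ≠ 0) :
    ∃ r, a = e p q h + r :=
  le_iff_exists_add.mp (single_le_iff.mpr (Nat.one_le_iff_ne_zero.mpr ha))

theorem touch_le (a : Y →₀ ℕ) (s : ℕ) : out a s + inn a s ≤ degree a := by
  induction a using ind with
  | h0 => simp
  | h1 p q h a ih =>
    simp only [map_add, out_e, inn_e, deg_e, Finsupp.add_apply, single_apply]
    split_ifs <;> omega

theorem avoid (a : Y →₀ ℕ) (s : ℕ) (hs : out a s + inn a s < degree a) :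
    ∃ x y h r, x ≠ s ∧ y ≠ s ∧ a = e x y h + r := by
  induction a using ind with
  | h0 => simp at hs
  | h1 p q h a ih =>
    by_cases h1 : p ≠ s ∧ q ≠ s
    · exact ⟨p, q, h, a, h1.1, h1.2, rfl⟩
    · simp only [map_add, out_e, inn_e, deg_e, Finsupp.add_apply, single_apply] at hs
      obtain ⟨x, y, h', r, h2, h3, rfl⟩ := ih (by split_ifs at hs <;> omega)
      exact ⟨x, y, h', e p q h + r, h2, h3, by abel⟩

theorem ex_out (a : Y →₀ ℕ) (p : ℕ) (hp : out a p ≠ 0) : ∃ x h r, a = e p x h + r := by
  induction a using ind with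
  | h0 => simp at hp
  | h1 p' q h a ih =>
    by_cases h1 : p' = p
    · subst h1; exact ⟨q, h, a, rfl⟩
    · simp only [map_add, out_e, Finsupp.add_apply, single_apply, if_neg h1, zero_add] at hp
      obtain ⟨x, h', r, rfl⟩ := ih hp
      exact ⟨x, h', e p' q h + r, by abel⟩

theorem ex_inn (a : Y →₀ ℕ) (q : ℕ) (hp : inn a q ≠ 0) : ∃ x h r, a = e x q h + r := by
  induction a using ind with
  | h0 => simp at hp
  | h1 p q' h a ih =>
    by_cases h1 : q' = q
    · subst h1; exact ⟨p, h, a, rfl⟩
    · simp only [map_add, inn_e, Finsupp.add_apply, single_apply, if_neg h1, zero_add] at hp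
      obtain ⟨x, h', r, rfl⟩ := ih hp
      exact ⟨x, h', e p q' h + r, by abel⟩

section

variable (E : (Y →₀ ℕ) → (Y →₀ ℕ) → Prop) (hE : Equivalence E)
  (hadd : ∀ a b r, E a b → E (a + r) (b + r))
  (hb : ∀ a b, u a = u b → degree a ≤ 3 → E a b)

include hE hadd hb

theorem stepA (d : ℕ) : ∀ a b, degree a = d → out a = out b → inn a = inn b → E a b := by
  induction d with
  | zero =>
    intro a b h1 h2 h3
    exact hb a b (by simp only [u, h2, h3]) (by omega)
  | succ d ih =>
    intro a b h1 h2 h3
    have hd : degree b = d + 1 := by rw [← deg_out, ← h2, deg_out, h1]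
    obtain ⟨p, q, h, b', rfl⟩ : ∃ p q h b', b = e p q h + b' := by
      induction b using ind with
      | h0 => simp at hd
      | h1 p q h a _ => exact ⟨p, q, h, a, rfl⟩
    have key : ∀ a', E a (e p q h + a') → out a = out (e p q h + a') →
        inn a = inn (e p q h + a') → E a (e p q h + b') := by
      intro a' k1 k2 k3
      refine hE.trans k1 ?_
      rw [add_comm _ a', add_comm _ b']
      refine hadd _ _ _ (ih _ _ ?_ ?_ ?_)
      · have := congrArg degree k2
        rw [deg_out, deg_out, map_add, deg_e] at this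
        omega
      · rw [h2, map_add, map_add] at k2
        exact (add_left_cancel k2).symm
      · rw [h3, map_add, map_add] at k3
        exact (add_left_cancel k3).symm
    obtain ⟨s, hs, r, rfl⟩ := ex_out a p (by rw [h2]; simp [out_e])
    by_cases hq : s = q
    · subst hq
      exact key r (hE.refl _) rfl rfl
    obtain ⟨t, ht, r, rfl⟩ := ex_inn r q (by
      have := DFunLike.congr_fun h3 q
      simp only [map_add, inn_e, Finsupp.add_apply, single_apply, if_neg hq] at this
      simp at this
      omega)
    by_cases hts : t = s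
    · subst hts
      have k1 := touch_le b' t
      have k2 := DFunLike.congr_fun h2 t
      have k3 := DFunLike.congr_fun h3 t
      simp only [map_add, inn_e, out_e, deg_e, Finsupp.add_apply, single_apply, if_neg hs,
        if_neg (Ne.symm ht), if_true] at k2 k3 h1 hd
      obtain ⟨x, y, hxy, r, hx, hy, rfl⟩ := avoid r t (by omega)
      refine key (e t y hy.symm + e x t hx + r) ?_ ?_ ?_
      · have := hadd _ _ r (hb (e p t hs + e t q ht + e x y hxy) (e p q h + e t y hy.symm + e x t hx)
          (by simp only [u_add, u_e]; abel) (by simp [deg_e]))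
        simpa only [add_assoc] using this
      · simp only [map_add, out_e]; abel
      · simp only [map_add, inn_e]; abel
    · refine key (e t s hts + r) ?_ ?_ ?_
      · have := hadd _ _ r (hb (e p s hs + e t q ht) (e p q h + e t s hts)
          (by simp only [u_add, u_e]; abel) (by simp [deg_e]))
        simpa only [add_assoc] using this
      · simp only [map_add, out_e]
      · simp only [map_add, inn_e]; abel

omit hE in
theorem stepB (a : Y →₀ ℕ) (p q : ℕ) (hpq : p ≠ q) (h1 : out a p ≠ 0) (h2 : 2 ≤ inn a q)
    (h3 : out a p + inn a p < degree a) :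
    ∃ a', E a a' ∧ u a = u a' ∧ out a' + single p 1 = out a + single q 1 := by
  have c1 : ∀ z hz r, a = e p q hpq + e z q hz + r →
      ∃ a', E a a' ∧ u a = u a' ∧ out a' + single p 1 = out a + single q 1 := by
    rintro z hz r rfl
    by_cases hzp : z = p
    · subst hzp
      simp only [map_add, inn_e, out_e, deg_e, Finsupp.add_apply, single_apply, if_neg hpq.symm,
        if_true] at h3
      obtain ⟨x, y, hxy, r, hx, hy, rfl⟩ := avoid r z (by omega)
      have k : u (e z q hpq + e z q hz + e x y hxy) = u (e q z hpq.symm + e x z hx + e z y hy.symm) := by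
        simp only [u_add, u_e]; abel
      refine ⟨e q z hpq.symm + e x z hx + e z y hy.symm + r, ?_, ?_, ?_⟩
      · simpa only [add_assoc] using hadd _ _ r (hb _ _ k (by simp [deg_e]))
      · rw [← add_assoc, u_add, k, ← u_add]
      · simp only [map_add, out_e]; abel
    · have k : u (e p q hpq + e z q hz) = u (e q p hpq.symm + e z p hzp) := by
        simp only [u_add, u_e]; abel
      refine ⟨e q p hpq.symm + e z p hzp + r, hadd _ _ r (hb _ _ k (by simp [deg_e])), ?_, ?_⟩
      · rw [u_add, k, ← u_add]
      · simp only [map_add, out_e]; abel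
  obtain ⟨y, hy, r, hr⟩ := ex_inn a q (by omega)
  obtain ⟨z, hz, r, rfl⟩ := ex_inn r q (by
    rw [hr] at h2
    simp only [map_add, inn_e, Finsupp.add_apply, single_apply, if_true] at h2
    omega)
  by_cases hyp : y = p
  · subst hyp
    exact c1 z hz r (by rw [hr, add_assoc])
  by_cases hzp : z = p
  · subst hzp
    exact c1 y hy r (by rw [hr]; abel)
  obtain ⟨x, hx, r, rfl⟩ := ex_out r p (by
    rw [hr] at h1
    simpa only [map_add, out_e, Finsupp.add_apply, single_apply, if_neg hyp, if_neg hzp, zero_add] using h1)
  by_cases hxq : q = x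
  · subst hxq
    exact c1 z hz (e y q hy + r) (by rw [hr]; abel)
  have k : u (e y q hy + e z q hz + e p x hx) = u (e q x hxq + e y p hyp + e z p hzp) := by
    simp only [u_add, u_e]; abel
  subst hr
  refine ⟨e q x hxq + e y p hyp + e z p hzp + r, ?_, ?_, ?_⟩
  · simpa only [add_assoc] using hadd _ _ r (hb _ _ k (by simp [deg_e]))
  · rw [← add_assoc, ← add_assoc, u_add, k, ← u_add]
  · simp only [map_add, out_e]; abel

theorem conn (b : Y →₀ ℕ) (n : ℕ) : ∀ a, degree (out a - out b) = n → u a = u b → E a b := by
  have hu : ∀ a, u a = u b → ∀ v, out a v + out a v + inn a v = out b v + out b v + inn b v :=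
    fun a h v => DFunLike.congr_fun h v
  have hd : ∀ a, u a = u b → degree a = degree b := fun a h => by
    have := congrArg degree h
    rw [deg_u, deg_u] at this
    omega
  have eq_of : ∀ x y : ℕ →₀ ℕ, x ≤ y → degree x = degree y → x = y := fun x y h1 h2 => by
    obtain ⟨c, rfl⟩ := le_iff_exists_add.mp h1
    rw [map_add] at h2
    rw [(degree_eq_zero_iff c).mp (by omega), add_zero]
  induction n with
  | zero =>
    intro a h1 h2
    have k : out a = out b := eq_of _ _ (tsub_eq_zero_iff_le.mp ((degree_eq_zero_iff _).mp h1))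
      (by rw [deg_out, deg_out, hd a h2])
    refine stepA E hE hadd hb _ a b rfl k ?_
    ext v
    have := hu a h2 v
    rw [k] at this
    omega
  | succ n ih =>
    intro a h1 h2
    obtain ⟨p, hp⟩ : ∃ p, out b p < out a p := by
      by_contra hn
      push Not at hn
      rw [tsub_eq_zero_iff_le.mpr (fun v => hn v : out a ≤ out b)] at h1
      simp at h1
    obtain ⟨q, hq⟩ : ∃ q, out a q < out b q := by
      by_contra hn
      push Not at hn
      rw [eq_of (out b) (out a) (fun v => hn v) (by rw [deg_out, deg_out, hd a h2])] at hp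
      omega
    have hpq : p ≠ q := by rintro rfl; omega
    have k1 := hu a h2 p
    have k2 := hu a h2 q
    have k3 := touch_le b p
    have k4 := hd a h2
    obtain ⟨a', j1, j2, j3⟩ := stepB E hadd hb a p q hpq (by omega) (by omega) (by omega)
    refine hE.trans j1 (ih a' ?_ (j2.symm.trans h2))
    have : out a' - out b + single p 1 = out a - out b := by
      ext v
      have := DFunLike.congr_fun j3 v
      simp only [Finsupp.add_apply, single_apply, Finsupp.tsub_apply] at this ⊢
      split_ifs at this ⊢ with i1 i2 i2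
      · omega
      · subst i1; omega
      · subst i2; omega
      · omega
    rw [← this, map_add, degree_single] at h1
    omega

end

end Pool.Agent.H22.Egb
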