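import Pool.Agent.H22.Egb1

set_option autoImplicit false

namespace Pool.Agent.H22.Egb

open MvPolynomial

noncomputable abbrev f0 : MvPolynomial (Fin 2) ℂ := X 0 ^ 2 * X 1

theorem phi_mono (a : Y →₀ ℕ) (c : ℂ) : phi f0 (monomial a c) = monomial (u a) c := by
  induction a using ind with
  | h0 => simp [u_zero, phi, ← C_apply]
  | h1 p q h a ih =>
    have : (monomial (e p q h + a) c : R) = X ⟨(p, q), h⟩ * monomial a c := by
      rw [X, monomial_mul, one_mul]; rfl
    rw [this, map_mul, ih, u_add, u_e]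
    simp only [phi, aeval_X, map_mul, map_pow, Matrix.cons_val_zero, Matrix.cons_val_one,
      Matrix.cons_val_fin_one]
    simp only [X, pow_two, monomial_mul, one_mul]

theorem map_e (σ : ℕ → ℕ) (hσ : Function.Injective σ) (p q : ℕ) (h : p ≠ q) :
    (e p q h).mapDomain (act σ hσ) = e (σ p) (σ q) (fun k => h (hσ k)) := by
  simp only [e, Finsupp.mapDomain_single]; rfl

theorem u_map (σ : ℕ → ℕ) (hσ : Function.Injective σ) (a : Y →₀ ℕ) :
    u (a.mapDomain (act σ hσ)) = (u a).mapDomain σ := by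
  induction a using ind with
  | h0 => simp [u_zero]
  | h1 p q h a ih =>
    simp only [Finsupp.mapDomain_add, u_add, map_e, u_e, ih, Finsupp.mapDomain_single]

theorem act_inj (σ : ℕ → ℕ) (hσ : Function.Injective σ) : Function.Injective (act σ hσ) := by
  rintro ⟨⟨a, b⟩, h⟩ ⟨⟨c, d⟩, h'⟩ k
  simp only [act, Subtype.mk.injEq, Prod.mk.injEq] at k ⊢
  exact ⟨hσ k.1, hσ k.2⟩

theorem phi_rename (f : MvPolynomial (Fin 2) ℂ) (σ : ℕ → ℕ) (hσ : Function.Injective σ) (g : R) :
    phi f (rename (act σ hσ) g) = rename σ (phi f g) := by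
  have : (phi f).comp (rename (act σ hσ)) = (rename σ).comp (phi f) := by
    ext1 y
    simp only [phi, AlgHom.comp_apply, rename_X, aeval_X]
    rw [← AlgHom.comp_apply, comp_aeval]
    congr 2
    ext1 i
    fin_cases i <;> simp [act]
  exact DFunLike.congr_fun this g

theorem u_lower (a : Y →₀ ℕ) (y : Y) : a y + a y ≤ u a y.1.1 ∧ a y ≤ u a y.1.2 := by
  induction a using ind with
  | h0 => simp
  | h1 p q h a ih =>
    obtain ⟨⟨i, j⟩, hy⟩ := y
    simp only [u_add, u_e, Finsupp.add_apply] at ih ⊢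
    simp only [e, Finsupp.single_apply, Subtype.mk.injEq, Prod.mk.injEq]
    split_ifs <;> omega

theorem fin_box (N K : ℕ) :
    {a : Y →₀ ℕ | ∀ y, a y ≤ K ∧ (a y ≠ 0 → y.1.1 < N ∧ y.1.2 < N)}.Finite := by
  have h1 : {y : Y | y.1.1 < N ∧ y.1.2 < N}.Finite :=
    Set.Finite.of_finite_image (f := Subtype.val)
      (((Set.finite_Iio N).prod (Set.finite_Iio N)).subset (by rintro _ ⟨y, hy, rfl⟩; exact hy))
      Subtype.val_injective.injOn
  classical
  refine (Set.finite_Iic (Finsupp.indicator h1.toFinset fun _ _ => K)).subset fun a ha y => ?_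
  rw [Finsupp.indicator_apply]
  split_ifs with h
  · exact (ha y).1
  · rw [Set.Finite.mem_toFinset] at h
    by_contra h2
    exact h ((ha y).2 (by omega))

theorem fin_fib (v : ℕ →₀ ℕ) : {a : Y →₀ ℕ | u a = v}.Finite := by
  obtain ⟨N, hN⟩ := v.support.bddAbove
  refine (fin_box (N + 1) (Finsupp.degree v)).subset fun a ha y => ?_
  have h1 := u_lower a y
  rw [show u a = v from ha] at h1
  have h2 := Finsupp.le_degree y.1.2 v
  refine ⟨by omega, fun h => ⟨Nat.lt_succ_of_le (hN ?_), Nat.lt_succ_of_le (hN ?_)⟩⟩ <;>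
    simp only [Finset.mem_coe, Finsupp.mem_support_iff] <;> omega

theorem ex_perm (V : Finset ℕ) (K : ℕ) (h : V.card ≤ K) :
    ∃ σ : Equiv.Perm ℕ, {n | σ n ≠ n}.Finite ∧ ∀ v ∈ V, σ.symm v < K := by
  classical
  obtain ⟨N, hN⟩ := V.bddAbove
  obtain ⟨σ, hσ⟩ := Equiv.Perm.exists_extending_pair (α := V) (β := {n : ℕ // n < N + K + 1})
    (fun v => ⟨V.equivFin v, by have := (V.equivFin v).2; omega⟩)
    (fun v => ⟨v, by have := hN v.2; omega⟩)
    (fun a b k => V.equivFin.injective (Fin.ext (congrArg Subtype.val k)))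
    (fun a b k => Subtype.ext (Subtype.mk.inj k))
  refine ⟨Equiv.Perm.ofSubtype σ, (Set.finite_Iio (N + K + 1)).subset fun n hn => ?_, fun v hv => ?_⟩
  · by_contra k
    exact hn (Equiv.Perm.ofSubtype_apply_of_not_mem σ k)
  · have k1 := (V.equivFin ⟨v, hv⟩).2
    have : Equiv.Perm.ofSubtype σ (V.equivFin ⟨v, hv⟩) = v := by
      rw [Equiv.Perm.ofSubtype_apply_of_mem σ (by omega)]
      exact congrArg Subtype.val (hσ ⟨v, hv⟩)
    rw [← this, Equiv.symm_apply_apply]
    omega

theorem card_le_deg (v : ℕ →₀ ℕ) : v.support.card ≤ Finsupp.degree v := by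
  rw [Finsupp.degree_apply, Finset.card_eq_sum_ones]
  exact Finset.sum_le_sum fun i hi => Nat.one_le_iff_ne_zero.mpr (Finsupp.mem_support_iff.mp hi)

theorem finGen : FinGenSym (RingHom.ker (phi f0)) := by
  obtain ⟨B, hB, hB2⟩ : ∃ B : Set (Y →₀ ℕ), B.Finite ∧
      ∀ a : Y →₀ ℕ, Finsupp.degree (u a) ≤ 9 → (∀ v ∈ (u a).support, v < 9) → a ∈ B := by
    refine ⟨_, fin_box 9 9, fun a h1 h2 y => ?_⟩
    have k1 := u_lower a y
    have k2 := Finsupp.le_degree y.1.2 (u a)
    refine ⟨by omega, fun h => ⟨h2 _ ?_, h2 _ ?_⟩⟩ <;> rw [Finsupp.mem_support_iff] <;> omega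
  obtain ⟨F, hF⟩ : ∃ F : Set R, F = (fun x : (Y →₀ ℕ) × (Y →₀ ℕ) => monomial x.1 1 - monomial x.2 1) ''
    {x | x ∈ B ×ˢ B ∧ u x.1 = u x.2} := ⟨_, rfl⟩
  have hFI : F ⊆ RingHom.ker (phi f0) := by
    rw [hF]
    rintro _ ⟨x, hx, rfl⟩
    simp only [SetLike.mem_coe, RingHom.mem_ker, map_sub, phi_mono, hx.2, sub_self]
  refine ⟨F, hF ▸ ((hB.prod hB).subset fun x hx => hx.1).image _, hFI, ?_⟩
  obtain ⟨J, hJ⟩ : ∃ J : Ideal R, J = Ideal.span {g | ∃ σ : Equiv.Perm ℕ, {n | σ n ≠ n}.Finite ∧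
      ∃ f ∈ F, g = rename (act σ σ.injective) f} := ⟨_, rfl⟩
  rw [← hJ]
  apply le_antisymm
  · rw [hJ, Ideal.span_le]
    rintro _ ⟨σ, -, f, hf, rfl⟩
    have : phi f0 f = 0 := hFI hf
    simp only [SetLike.mem_coe, RingHom.mem_ker, phi_rename, this, map_zero]
  have key : ∀ a b, u a = u b → (monomial a 1 - monomial b 1 : R) ∈ J := fun a b h => by
    refine conn (fun a b => (monomial a 1 - monomial b 1 : R) ∈ J) ⟨fun a => by simp, fun h => ?_,
      fun h1 h2 => ?_⟩ (fun a b r h => ?_) (fun a b h1 h2 => ?_) b _ a rfl h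
    · simpa using J.neg_mem h
    · simpa using J.add_mem h1 h2
    · have := J.mul_mem_right (monomial r 1) h
      simpa only [sub_mul, monomial_mul, one_mul] using this
    · have h3 : Finsupp.degree (u a) ≤ 9 := by rw [deg_u]; omega
      obtain ⟨σ, s1, s2⟩ := ex_perm (u a).support 9 ((card_le_deg _).trans h3)
      have h4 : ∀ c, u a = u c → c.mapDomain (act σ.symm σ.symm.injective) ∈ B := fun c hc => by
        classical
        refine hB2 _ (by rwa [u_map, Finsupp.degree_mapDomain, ← hc]) fun v hv => ?_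
        rw [u_map, ← hc] at hv
        obtain ⟨w, hw, rfl⟩ := Finset.mem_image.mp (Finsupp.mapDomain_support hv)
        exact s2 w hw
      have h5 : ∀ c : Y →₀ ℕ,
          (c.mapDomain (act σ.symm σ.symm.injective)).mapDomain (act σ σ.injective) = c := fun c => by
        rw [← Finsupp.mapDomain_comp]
        have : act σ σ.injective ∘ act σ.symm σ.symm.injective = id := by
          funext y
          simp [act]
        rw [this, Finsupp.mapDomain_id]
      rw [hJ]
      refine Ideal.subset_span ⟨σ, s1, monomial (a.mapDomain (act σ.symm σ.symm.injective)) 1 -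
        monomial (b.mapDomain (act σ.symm σ.symm.injective)) 1, ?_, ?_⟩
      · rw [hF]
        exact ⟨(_, _), ⟨⟨h4 a rfl, h4 b h1⟩,
          (u_map _ _ a).trans ((congrArg _ h1).trans (u_map _ _ b).symm)⟩, rfl⟩
      · simp only [map_sub, rename_monomial, h5]
  obtain ⟨ψ, hψ⟩ : ∃ ψ : MvPolynomial ℕ ℂ →ₗ[ℂ] R,
      ∀ v, ψ (monomial v 1) = monomial (Function.invFun u v) 1 :=
    ⟨(basisMonomials ℕ ℂ).constr ℂ fun v => monomial (Function.invFun u v) 1, fun v => by
      have := (basisMonomials ℕ ℂ).constr_basis ℂ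
        (fun v => (monomial (Function.invFun u v) 1 : R)) v
      rwa [coe_basisMonomials] at this⟩
  have : ∀ g : R, g - ψ (phi f0 g) ∈ J := fun g => by
    induction g using MvPolynomial.induction_on' with
    | monomial a c =>
      have e1 : (monomial a c : R) = c • monomial a 1 := by rw [smul_monomial, smul_eq_mul, mul_one]
      rw [e1, map_smul, map_smul, phi_mono, hψ, ← smul_sub, Algebra.smul_def]
      exact J.mul_mem_left _ (key _ _ (Function.invFun_eq ⟨a, rfl⟩).symm)
    | add p q h1 h2 =>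
      have := J.add_mem h1 h2
      rwa [sub_add_sub_comm, ← map_add, ← map_add] at this
  intro g hg
  simpa only [RingHom.mem_ker.mp hg, map_zero, sub_zero] using this g

theorem lead_non (m : MonomialOrder.{0, 0} Y) (g : R) (hg : phi f0 g = 0) (h0 : g ≠ 0) :
    ∃ b, u b = u (m.degree g) ∧ m.toSyn b < m.toSyn (m.degree g) := by
  classical
  by_contra hn
  push Not at hn
  have h1 := congrArg (coeff (u (m.degree g))) hg
  conv at h1 => lhs; rw [g.as_sum, map_sum, coeff_sum]
  rw [Finset.sum_eq_single (m.degree g)] at h1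
  · rw [phi_mono] at h1
    simp only [← g.as_sum, coeff_monomial, if_true, coeff_zero] at h1
    exact h0 (m.coeff_degree_eq_zero_iff.mp h1)
  · intro b hb hb2
    rw [phi_mono, ← g.as_sum, coeff_monomial, if_neg]
    intro k
    exact hb2 (m.toSyn.injective (le_antisymm (m.le_degree hb) (hn b k)))
  · intro k
    exact absurd (m.degree_mem_support h0) k

end Pool.Agent.H22.Egb
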