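import Pool.Agent.H22.Egb2

set_option autoImplicit false

namespace Pool.Agent.H22.Egb

open Finsupp

def Y' : Type := Y

def rk (y : Y) : ℕ ×ₗ (ℕᵒᵈ ×ₗ ℕ) :=
  toLex (if y.1.2 < y.1.1 then 0 else 1, toLex (OrderDual.toDual y.1.2, y.1.1))

theorem rk_inj : Function.Injective rk := by
  rintro ⟨⟨a, b⟩, h⟩ ⟨⟨c, d⟩, h'⟩ k
  simp only [rk, toLex_inj, Prod.mk.injEq, OrderDual.toDual_inj] at k
  exact Subtype.ext (Prod.ext k.2.2 k.2.1)

noncomputable instance : LinearOrder Y' := LinearOrder.lift' (α := Y) rk rk_inj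

def sig (y z : Y) : Prop :=
  (y.1.2 < y.1.1 ∧ z.1.1 < z.1.2) ∨ ((y.1.2 < y.1.1 ↔ z.1.2 < z.1.1) ∧
    (z.1.2 < y.1.2 ∨ (y.1.2 = z.1.2 ∧ y.1.1 < z.1.1)))

theorem sig_iff (y z : Y) : @LT.lt Y' _ y z ↔ sig y z := by
  change rk y < rk z ↔ _
  have h1 := y.2
  have h2 := z.2
  simp only [rk, sig, Prod.Lex.toLex_lt_toLex, OrderDual.toDual_lt_toDual, OrderDual.toDual_inj]
  split_ifs <;> simp <;> omega

def Syn : Type := Y →₀ ℕ

noncomputable instance : AddCommMonoid Syn := inferInstanceAs (AddCommMonoid (Y →₀ ℕ))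

noncomputable def key (a : Y →₀ ℕ) : Colex (ℕ →₀ ℕ) ×ₗ Lex (Y' →₀ ℕ) :=
  toLex (toColex (u a), toLex a)

theorem key_inj : Function.Injective key := fun _ _ h => congrArg (fun x => (ofLex x).2) h

theorem key_add (a b : Y →₀ ℕ) : key (a + b) = key a + key b := by
  simp only [key, u_add]; rfl

noncomputable instance : LinearOrder Syn := LinearOrder.lift' (α := Y →₀ ℕ) key key_inj

theorem key_lt (a b : Y →₀ ℕ) : key a < key b ↔
    (∃ i, (∀ j, i < j → u a j = u b j) ∧ u a i < u b i) ∨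
      (u a = u b ∧ ∃ y, (∀ z, sig z y → a z = b z) ∧ a y < b y) := by
  simp only [key, Prod.Lex.toLex_lt_toLex, Colex.lt_iff, Lex.lt_iff, ← sig_iff]
  rfl

theorem key_wf : WellFounded fun a b => key a < key b := by
  refine Subrelation.wf (r := InvImage (Prod.Lex (· < ·) (· < ·))
    fun a => (toColex (u a), {c | u c = u a ∧ key c < key a}.ncard)) ?_
    (InvImage.wf _ (WellFounded.prod_lex wellFounded_lt wellFounded_lt))
  intro a b h
  rcases Prod.Lex.toLex_lt_toLex.mp h with h1 | ⟨h1, -⟩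
  · exact Prod.Lex.left _ _ h1
  · have h2 : u a = u b := h1
    simp only [InvImage, h2]
    refine Prod.Lex.right _ (Set.ncard_lt_ncard ⟨fun c hc => ⟨hc.1, hc.2.trans h⟩, fun k => ?_⟩
      ((fin_fib (u b)).subset fun c hc => hc.1))
    exact lt_irrefl _ (k ⟨h2, h⟩).2

theorem key_mono (a b c : Y →₀ ℕ) (h : key a ≤ key b) : key (a + c) ≤ key (b + c) := by
  rw [key_add, key_add]
  exact add_le_add_left h _

instance : IsOrderedAddMonoid Syn := ⟨fun a b h c => key_mono a b c h, fun a b h c => by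
  rw [add_comm c, add_comm c]
  exact key_mono a b c h⟩

instance : WellFoundedLT Syn := ⟨by
  refine Subrelation.wf (fun {a b} h => ?_) key_wf
  exact h⟩

noncomputable def ord : MonomialOrder.{0, 0} Y where
  syn := Syn
  toSyn := AddEquiv.refl _
  toSyn_monotone a b h := by
    obtain ⟨c, rfl⟩ := le_iff_exists_add.mp h
    change key a ≤ key (a + c)
    refine Prod.Lex.toLex_mono ⟨toColex_monotone ?_, toLex_monotone (α := Y') h⟩
    rw [u_add]
    exact le_self_add

theorem ord_lt (a b : Y →₀ ℕ) : ord.toSyn a < ord.toSyn b ↔ key a < key b := Iff.rfl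

theorem lex_map {α : Type} (f : α → α) (hf : Function.Injective f) (r : α → α → Prop)
    (hr : ∀ i j, r (f i) (f j) → r i j) (a b : α →₀ ℕ)
    (h : ∃ i, (∀ j, r j i → a j = b j) ∧ a i < b i) :
    ∃ i, (∀ j, r j i → a.mapDomain f j = b.mapDomain f j) ∧ a.mapDomain f i < b.mapDomain f i := by
  obtain ⟨i, h1, h2⟩ := h
  refine ⟨f i, fun j hj => ?_, by rwa [mapDomain_apply hf, mapDomain_apply hf]⟩
  by_cases k : j ∈ Set.range f
  · obtain ⟨j, rfl⟩ := k
    rw [mapDomain_apply hf, mapDomain_apply hf, h1 j (hr _ _ hj)]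
  · rw [mapDomain_of_notMem_range _ _ k, mapDomain_of_notMem_range _ _ k]

theorem respects : Respects ord := by
  intro ρ h a b hab
  rcases hab.eq_or_lt with k | k
  · rw [ord.toSyn.injective k]
  refine le_of_lt ?_
  rw [ord_lt, key_lt] at k ⊢
  simp only [u_map]
  rcases k with k | ⟨k1, k⟩
  · exact Or.inl (lex_map ρ h.injective (fun j i => i < j) (fun i j => h.lt_iff_lt.mp) _ _ k)
  · refine Or.inr ⟨by rw [k1], lex_map _ (act_inj _ _) sig (fun i j => ?_) _ _ k⟩
    simp only [sig, act, h.lt_iff_lt, h.injective.eq_iff, imp_self]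

def arc (n k : ℕ) : Y := ⟨(2 * k, if k = n then 1 else 2 * k + 3), by split_ifs <;> omega⟩

noncomputable def mm (n : ℕ) : Y →₀ ℕ := ∑ k ∈ Finset.range (n + 1), single (arc n k) 1

noncomputable def mm' (n : ℕ) : Y →₀ ℕ :=
  ∑ k ∈ Finset.range (n + 1), e (2 * k) (2 * k + 1) (by omega)

theorem u_sum (s : Finset ℕ) (g : ℕ → Y →₀ ℕ) : u (∑ k ∈ s, g k) = ∑ k ∈ s, u (g k) := by
  simp only [u, map_sum, Finset.sum_add_distrib]

theorem u_mm (n : ℕ) : u (mm' n) = u (mm n) := by
  simp only [mm, mm', u_sum, u_e]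
  have : ∀ k, u (single (arc n k) 1) = single (2 * k) 1 + single (2 * k) 1 +
    single (if k = n then 1 else 2 * k + 3) 1 := fun k => u_e _ _ _
  simp only [this, Finset.sum_add_distrib]
  congr 1
  rw [Finset.sum_range_succ', Finset.sum_range_succ, if_pos rfl]
  congr 1
  refine Finset.sum_congr rfl fun k hk => ?_
  rw [if_neg (Finset.mem_range.mp hk).ne]
  congr 1

theorem deg_mm (n : ℕ) : degree (mm n) = n + 1 := by simp [mm, map_sum]

theorem u_mm_le (n v : ℕ) : u (mm n) v ≤ if v % 2 = 0 then 2 else 1 := by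
  rw [← u_mm]
  simp only [mm', u_sum, u_e, Finsupp.finsetSum_apply, Finsupp.add_apply, single_apply]
  by_cases h : v / 2 ∈ Finset.range (n + 1)
  · rw [Finset.sum_eq_single_of_mem _ h]
    · split_ifs <;> omega
    · intro b _ hb
      split_ifs <;> omega
  · rw [Finset.sum_eq_zero]
    · exact Nat.zero_le _
    · intro b hb
      simp only [Finset.mem_range] at h hb
      split_ifs <;> omega

theorem mm_supp (n : ℕ) (y : Y) (h : mm n y ≠ 0) : ∃ k ≤ n, y = arc n k := by
  simp only [mm, Finsupp.finsetSum_apply] at h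
  obtain ⟨k, hk, h2⟩ := Finset.exists_ne_zero_of_sum_ne_zero h
  exact ⟨k, Nat.lt_succ_iff.mp (Finset.mem_range.mp hk), by
    by_contra h3
    exact h2 (single_eq_of_ne h3)⟩

theorem mm_arc (n k : ℕ) (h : k ≤ n) : mm n (arc n k) ≠ 0 := by
  simp only [mm, Finsupp.finsetSum_apply]
  refine Nat.pos_iff_ne_zero.mp (Finset.sum_pos' (fun _ _ => Nat.zero_le _)
    ⟨k, Finset.mem_range.mpr (by omega), by simp⟩)

theorem mm'_supp (n : ℕ) (y : Y) (h : mm' n y ≠ 0) : y.1.1 < y.1.2 := by
  simp only [mm', Finsupp.finsetSum_apply] at h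
  obtain ⟨k, -, h2⟩ := Finset.exists_ne_zero_of_sum_ne_zero h
  have : y = ⟨(2 * k, 2 * k + 1), by omega⟩ := by
    by_contra h3
    exact h2 (single_eq_of_ne h3)
  rw [this]
  exact Nat.lt_succ_self _

theorem mm_lt (n : ℕ) (hn : 1 ≤ n) : key (mm' n) < key (mm n) := by
  rw [key_lt]
  refine Or.inr ⟨u_mm n, arc n n, fun z hz => ?_, ?_⟩
  · simp only [sig, arc, if_true] at hz
    have h1 : mm' n z = 0 := by
      by_contra h
      have := mm'_supp n z h
      omega
    have h2 : mm n z = 0 := by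
      by_contra h
      obtain ⟨k, hk, rfl⟩ := mm_supp n z h
      simp only [arc] at hz
      split_ifs at hz <;> omega
    rw [h1, h2]
  · have h1 : mm' n (arc n n) = 0 := by
      by_contra h
      have := mm'_supp n _ h
      simp only [arc, if_true] at this
      omega
    rw [h1]
    exact Nat.pos_of_ne_zero (mm_arc n n le_rfl)

theorem weight_u (ω : ℕ → ℤ) (a : Y →₀ ℕ) :
    weight ω (u a) = ∑ y ∈ a.support, (a y : ℤ) * (2 * ω y.1.1 + ω y.1.2) := by
  have : weight ω (u a) = weight (fun y : Y => 2 * ω y.1.1 + ω y.1.2) a := by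
    induction a using ind with
    | h0 => simp [u_zero]
    | h1 p q h a ih =>
      rw [u_add, u_e, map_add, map_add, map_add, map_add, ih]
      simp only [e, weight_single, one_smul]
      ring
  rw [this, weight_apply]
  simp only [Finsupp.sum, nsmul_eq_mul]

theorem touch (a : Y →₀ ℕ) (v : ℕ) (h : u a v ≠ 0) : ∃ y, a y ≠ 0 ∧ (y.1.1 = v ∨ y.1.2 = v) := by
  by_cases h1 : out a v = 0
  · obtain ⟨x, hx, r, rfl⟩ := ex_inn a v (by simpa [u, h1] using h)
    exact ⟨⟨(x, v), hx⟩, by simp [e], Or.inr rfl⟩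
  · obtain ⟨x, hx, r, rfl⟩ := ex_out a v h1
    exact ⟨⟨(v, x), hx⟩, by simp [e], Or.inl rfl⟩

theorem two (a : Y →₀ ℕ) (y z : Y) (hy : a y ≠ 0) (hz : a z ≠ 0) (h : y ≠ z) (h2 : y.1.1 = z.1.1) :
    4 ≤ u a y.1.1 := by
  obtain ⟨r, rfl⟩ := split (p := y.1.1) (q := y.1.2) (h := y.2) hy
  have k : r z ≠ 0 := by
    rw [Finsupp.add_apply, e, single_eq_of_ne h.symm, zero_add] at hz
    exact hz
  have k2 := (u_lower r z).1
  rw [u_add, u_e, ← h2] at *
  simp only [Finsupp.add_apply, single_eq_same]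
  omega

theorem standard (n : ℕ) (c b : Y →₀ ℕ) (hc : c ≤ mm n) (hne : c ≠ mm n) (hu : u b = u c) :
    ¬ key b < key c := by
  have hcs : ∀ y, c y ≠ 0 → ∃ k ≤ n, y = arc n k := fun y hy =>
    mm_supp n y (by have := hc y; omega)
  have hub : ∀ v, u b v ≤ if v % 2 = 0 then 2 else 1 := fun v => by
    obtain ⟨r, hr⟩ := le_iff_exists_add.mp hc
    have := u_mm_le n v
    rw [hr, u_add, Finsupp.add_apply] at this
    rw [hu]
    omega
  have hev : ∀ y, b y ≠ 0 → y.1.1 % 2 = 0 := fun y hy => by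
    have h1 := (u_lower b y).1
    have h2 := hub y.1.1
    split_ifs at h2 <;> omega
  rw [key_lt]
  rintro (⟨i, -, h⟩ | ⟨-, y, h1, h2⟩)
  · rw [hu] at h
    exact lt_irrefl _ h
  obtain ⟨k, hk, rfl⟩ := hcs y (by omega)
  have hc1 : ∀ y, c y ≤ 1 := fun y => by
    have h3 := (u_lower c y).1
    have h4 := hub y.1.1
    rw [hu] at h4
    split_ifs at h4 <;> omega
  have hb0 : b (arc n k) = 0 := by have := hc1 (arc n k); omega
  rcases hk.eq_or_lt with rfl | hk
  · obtain ⟨j, hj, hj2⟩ : ∃ j < k, c (arc k j) = 0 := by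
      by_contra hn
      push Not at hn
      refine hne (le_antisymm hc fun y => ?_)
      by_cases h : mm k y = 0
      · rw [h]; exact Nat.zero_le _
      · obtain ⟨j, hj, rfl⟩ := mm_supp k y h
        have h3 := (u_lower (mm k) (arc k j)).1
        have h4 := u_mm_le k (arc k j).1.1
        have : c (arc k j) ≠ 0 := by
          rcases hj.eq_or_lt with rfl | hj
          · omega
          · exact hn j hj
        split_ifs at h4 <;> omega
    have w := congrArg (weight fun v : ℕ =>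
      if v ≤ 2 * j + 1 then if v % 2 = 0 then (-1 : ℤ) else 2 else 0) hu
    rw [weight_u, weight_u] at w
    refine absurd w (ne_of_lt (lt_of_le_of_lt (Finset.sum_nonpos fun y hy => ?_)
      (Finset.sum_pos' (fun y hy => ?_) ⟨arc k k, mem_support_iff.mpr (by omega), ?_⟩)))
    · rw [mem_support_iff] at hy
      refine mul_nonpos_of_nonneg_of_nonpos (Nat.cast_nonneg _) ?_
      have h3 := hev y hy
      have h4 : ¬ sig y (arc k k) ∨ y.1.1 < y.1.2 := by
        by_contra hn
        push Not at hn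
        obtain ⟨i, hi, rfl⟩ := hcs y (by rw [← h1 y hn.1]; exact hy)
        simp only [sig, arc, if_true] at hn
        split_ifs at hn <;> omega
      have h5 : y.1.1 ≤ 2 * k := by
        have h6 := (u_lower b y).1
        obtain ⟨z, z1, z2⟩ := touch c y.1.1 (by rw [← hu]; omega)
        obtain ⟨i, hi, rfl⟩ := hcs z z1
        simp only [arc] at z2
        split_ifs at z2 <;> omega
      have h6 : ¬ (y.1.1 = 2 * k ∧ y.1.2 = 1) := fun h => hy (by
        rw [← hb0]
        congr 1
        exact Subtype.ext (Prod.ext h.1 (by simp [arc, h.2])))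
      have h7 := y.2
      simp only [sig, arc, if_true] at h4
      split_ifs <;> omega
    · obtain ⟨i, hi, rfl⟩ := hcs y (mem_support_iff.mp hy)
      have : i ≠ j := by
        rintro rfl
        exact mem_support_iff.mp hy hj2
      refine mul_nonneg (Nat.cast_nonneg _) ?_
      simp only [arc]
      split_ifs <;> first | omega | contradiction
    · refine mul_pos (by omega) ?_
      simp only [arc, if_true]
      split_ifs <;> first | omega | contradiction
  · have h3 := (u_lower c (arc n k)).2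
    have ha : (arc n k).1.2 = 2 * k + 3 := if_neg hk.ne
    obtain ⟨y, y1, y2⟩ := touch b (2 * k + 3) (by rw [hu, ← ha]; omega)
    have y3 := hev y y1
    have y4 : ¬ sig y (arc n k) := fun h => by
      obtain ⟨i, hi, rfl⟩ := hcs y (by rw [← h1 y h]; exact y1)
      simp only [sig, arc] at h y2
      split_ifs at h y2 <;> omega
    have y5 : ¬ y.1.1 = 2 * k := fun h => y1 (by
      rw [← hb0]
      congr 1
      exact Subtype.ext (Prod.ext h (by rw [ha]; omega)))
    have y6 : y.1.1 = 2 * k + 2 := by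
      have := y.2
      simp only [sig, arc, if_neg hk.ne] at y4
      omega
    have y7 := (u_lower b y).1
    obtain ⟨z, z1, z2⟩ := touch c y.1.1 (by rw [← hu]; omega)
    obtain ⟨i, hi, rfl⟩ := hcs z z1
    have z3 : i = k + 1 := by
      simp only [arc] at z2
      split_ifs at z2 <;> omega
    subst z3
    have z4 : sig (arc n (k + 1)) (arc n k) := by
      simp only [sig, arc, if_neg hk.ne]
      split_ifs <;> omega
    have z5 := two b y (arc n (k + 1)) y1 (by rw [h1 _ z4]; exact z1) (fun h => y4 (h ▸ z4))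
      (by rw [y6]; rfl)
    have z6 := hub y.1.1
    split_ifs at z6 <;> omega

open MvPolynomial in
theorem no_egb (G : Set R) (hG : G.Finite) : ¬ IsEGB ord (RingHom.ker (phi f0)) G := by
  rintro ⟨h1, h2⟩
  obtain ⟨D, hD⟩ := (hG.image totalDegree).bddAbove
  have hlt := (ord_lt _ _).mpr (mm_lt (D + 1) (by omega))
  have d1 : ∀ a : Y →₀ ℕ, ord.degree (monomial a (1 : ℂ)) = a := fun a => by
    classical rw [ord.degree_monomial, if_neg one_ne_zero]
  have d2 : ord.degree (monomial (mm (D + 1)) 1 - monomial (mm' (D + 1)) 1 : R) = mm (D + 1) := by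
    rw [ord.degree_sub_of_lt (by rwa [d1, d1]), d1]
  have h3 : monomial (mm (D + 1)) 1 ∈ lead ord (RingHom.ker (phi f0) : Ideal R) := by
    refine Ideal.subset_span ⟨monomial (mm (D + 1)) 1 - monomial (mm' (D + 1)) 1, ?_, fun h => ?_,
      by rw [d2]⟩
    · simp only [SetLike.mem_coe, RingHom.mem_ker, map_sub, phi_mono, u_mm, sub_self]
    · rw [monomial_left_injective one_ne_zero (sub_eq_zero.mp h)] at hlt
      exact lt_irrefl _ hlt
  rw [← h2] at h3
  have h4 := Ideal.span_mono (t := (fun s => (monomial s 1 : R)) ''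
    {c | Finsupp.degree c ≤ D ∧ ∃ b, u b = u c ∧ key b < key c}) ?_ h3
  · classical
    obtain ⟨c, ⟨c1, b, c2, c3⟩, c4⟩ := mem_ideal_span_monomial_image.mp h4 (mm (D + 1))
      (by simp [support_monomial])
    refine standard (D + 1) c b c4 ?_ c2 c3
    rintro rfl
    rw [deg_mm] at c1
    omega
  · rintro _ ⟨g, ⟨ρ, hρ, f, hf, rfl⟩, g0, rfl⟩
    refine ⟨_, ⟨?_, lead_non ord _ ?_ g0⟩, rfl⟩
    · exact ((le_totalDegree (ord.degree_mem_support g0)).trans (totalDegree_rename_le _ _)).trans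
        (hD ⟨f, hf, rfl⟩)
    · rw [phi_rename, show phi f0 f = 0 from h1 hf, map_zero]

end Pool.Agent.H22.Egb
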