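import Mathlib

set_option autoImplicit false

namespace Pool.Agent.H22.Egb

open MvPolynomial

/-- Indices of the variables y i j with i different from j. -/
abbrev Y : Type := {p : ℕ × ℕ // p.1 ≠ p.2}

/-- The polynomial ring in the variables y i j. -/
abbrev R : Type := MvPolynomial Y ℂ

/-- The algebra map sending y i j to f (x i, x j). -/
noncomputable def phi (f : MvPolynomial (Fin 2) ℂ) : R →ₐ[ℂ] MvPolynomial ℕ ℂ :=
  aeval fun y => aeval ![X y.1.1, X y.1.2] f

/-- An injective map acts on both indices. -/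
def act (σ : ℕ → ℕ) (h : Function.Injective σ) (y : Y) : Y :=
  ⟨(σ y.1.1, σ y.1.2), fun e => y.2 (h e)⟩

/-- The orbits of a finite subset under finitary permutations generate I. -/
def FinGenSym (I : Ideal R) : Prop :=
  ∃ F : Set R, F.Finite ∧ F ⊆ I ∧
    Ideal.span {g | ∃ σ : Equiv.Perm ℕ, {n | σ n ≠ n}.Finite ∧
      ∃ f ∈ F, g = rename (act σ σ.injective) f} = I

/-- The monomial order is compatible with all strictly increasing maps. -/
def Respects (m : MonomialOrder.{0, 0} Y) : Prop :=
  ∀ (ρ : ℕ → ℕ) (h : StrictMono ρ) (a b : Y →₀ ℕ), m.toSyn a ≤ m.toSyn b →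
    m.toSyn (a.mapDomain (act ρ h.injective)) ≤ m.toSyn (b.mapDomain (act ρ h.injective))

/-- The ideal generated by the leading monomials of the nonzero elements of S. -/
noncomputable def lead (m : MonomialOrder.{0, 0} Y) (S : Set R) : Ideal R :=
  Ideal.span {x | ∃ g ∈ S, g ≠ 0 ∧ x = monomial (m.degree g) 1}

/-- G is an equivariant Groebner basis of I. -/
def IsEGB (m : MonomialOrder.{0, 0} Y) (I : Ideal R) (G : Set R) : Prop :=
  G ⊆ I ∧ lead m {g | ∃ (ρ : ℕ → ℕ) (h : StrictMono ρ), ∃ f ∈ G,
    g = rename (act ρ h.injective) f} = lead m I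

end Pool.Agent.H22.Egb
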