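import Mathlib

set_option autoImplicit false

namespace Pool.Agent.H22.ElemPro

open LaurentPolynomial Filter

abbrev L : Type := LaurentPolynomial ℝ

noncomputable def E (n : ℕ) : L →+* ℝ :=
  eval₂ (RingHom.id ℝ) (Units.mk0 ((n : ℝ) + 1) (by positivity))

theorem E_T (n : ℕ) (k : ℤ) : 0 < E n (T k) := by
  simp only [E, eval₂_T, Units.val_zpow_eq_zpow_val, Units.val_mk0]
  positivity

theorem E_C (n : ℕ) (r : ℝ) : E n (C r) = r := eval₂_C _ _ r

def pos (f : L) : Prop := ∀ᶠ n in (hyperfilter ℕ : Filter ℕ), 0 < E n f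

theorem pos.add {f g : L} (h : pos f) (h' : pos g) : pos (f + g) :=
  (h.and h').mono fun n hn => by rw [map_add]; exact add_pos hn.1 hn.2

theorem pos.mul {f g : L} (h : pos f) (h' : pos g) : pos (f * g) :=
  (h.and h').mono fun n hn => by rw [map_mul]; exact mul_pos hn.1 hn.2

theorem pos.ne {f : L} (h : pos f) : f ≠ 0 := by
  rintro rfl
  obtain ⟨n, hn⟩ := h.exists
  simp at hn

theorem pos_T (k : ℤ) : pos (T k) := Eventually.of_forall fun n => E_T n k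

theorem pos_C {r : ℝ} (h : 0 < r) : pos (C r) := Eventually.of_forall fun n => by rwa [E_C]

theorem pos_total {f : L} (hf : f ≠ 0) : pos f ∨ pos (-f) := by
  obtain ⟨k, p, hp⟩ := exists_T_pow f
  have hp0 : p ≠ 0 := by
    rintro rfl
    rw [map_zero] at hp
    exact hf ((isUnit_T (k : ℤ)).mul_left_eq_zero.1 hp.symm)
  have hfin : {n : ℕ | E n f = 0}.Finite := by
    refine Set.Finite.of_finite_image (f := fun n : ℕ => (n : ℝ) + 1)
      ((Polynomial.finite_setOfPred_isRoot hp0).subset ?_) fun a _ b _ h => by simpa using h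
    rintro _ ⟨n, hn, rfl⟩
    have := congrArg (E n) hp
    rw [map_mul, show E n f = 0 from hn, zero_mul, E, eval₂_toLaurent] at this
    exact this
  have h1 : ∀ᶠ n in (hyperfilter ℕ : Filter ℕ), E n f ≠ 0 := hfin.compl_mem_hyperfilter
  rcases (hyperfilter ℕ).eventually_or.1 (h1.mono fun n hn => lt_or_gt_of_ne hn) with h | h
  · exact Or.inr (h.mono fun n hn => by rw [map_neg]; linarith)
  · exact Or.inl h

def U : Subgroup Lˣ where
  carrier := {u | pos u}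
  one_mem' := pos_T 0
  mul_mem' h h' := pos.mul h h'
  inv_mem' := by
    intro u h
    refine (pos_total (u⁻¹).ne_zero).resolve_right fun h' => ?_
    have h1 := (pos.mul h h').add (pos_T 0)
    simp only [mul_neg, Units.mul_inv, T_zero, neg_add_cancel] at h1
    exact h1.ne rfl

noncomputable def π : L →+* ℂ := eval₂ Complex.ofRealHom (Units.mk0 Complex.I Complex.I_ne_zero)

theorem π_T : π (T 1) = Complex.I := by simp [π, eval₂_T]

theorem π_C (r : ℝ) : π (C r) = r := eval₂_C _ _ r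

noncomputable def om (a b : L) : ℝ := (π a).re * (π b).im - (π a).im * (π b).re

noncomputable def nm (u : U) : ℝ := Complex.normSq (π (u : Lˣ))

theorem nm_mul (u v : U) : nm (u * v) = nm u * nm v := by simp [nm]
@[simp] theorem nm_one : nm 1 = 1 := by simp [nm]
theorem nm_pos (u : U) : 0 < nm u := Complex.normSq_pos.2 ((u : Lˣ).isUnit.map π).ne_zero
theorem nm_inv (u : U) : nm u⁻¹ * nm u = 1 := by rw [← nm_mul]; simp

theorem om_mul (u : U) (a b : L) : om ((u : Lˣ) * a) ((u : Lˣ) * b) = nm u * om a b := by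
  simp [om, nm, Complex.normSq_apply]; ring
theorem om_add_left (a b c : L) : om (a + b) c = om a c + om b c := by simp [om]; ring
theorem om_add_right (a b c : L) : om a (b + c) = om a b + om a c := by simp [om]; ring
theorem om_neg_left (a b : L) : om (-a) b = -om a b := by simp [om]; ring
theorem om_neg_right (a b : L) : om a (-b) = -om a b := by simp [om]; ring
theorem om_self (a : L) : om a a = 0 := by simp [om]; ring
theorem om_swap (a b : L) : om a b = -om b a := by simp [om]; ring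
@[simp] theorem om_zero_left (a : L) : om 0 a = 0 := by simp [om]
@[simp] theorem om_zero_right (a : L) : om a 0 = 0 := by simp [om]

@[ext] structure Gq where
  m : L
  z : ℝ
  u : U

noncomputable instance : Mul Gq :=
  ⟨fun a b => ⟨a.m + (a.u : Lˣ) * b.m, a.z + nm a.u * b.z + om a.m ((a.u : Lˣ) * b.m), a.u * b.u⟩⟩
noncomputable instance : One Gq := ⟨⟨0, 0, 1⟩⟩
noncomputable instance : Inv Gq :=
  ⟨fun a => ⟨-(((a.u⁻¹ : U) : Lˣ) * a.m), -(nm a.u⁻¹ * a.z), a.u⁻¹⟩⟩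

theorem mul_def (a b : Gq) : a * b =
    ⟨a.m + (a.u : Lˣ) * b.m, a.z + nm a.u * b.z + om a.m ((a.u : Lˣ) * b.m), a.u * b.u⟩ := rfl
theorem one_def : (1 : Gq) = ⟨0, 0, 1⟩ := rfl
theorem inv_def (a : Gq) :
    a⁻¹ = ⟨-(((a.u⁻¹ : U) : Lˣ) * a.m), -(nm a.u⁻¹ * a.z), a.u⁻¹⟩ := rfl

noncomputable instance : Group Gq := Group.ofLeftAxioms
  (fun a b c => by
    simp only [mul_def, nm_mul, mul_add, om_add_left, om_add_right, mul_assoc, om_mul,
      Subgroup.coe_mul, Units.val_mul]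
    refine Gq.ext ?_ ?_ rfl <;> dsimp only <;> ring)
  (fun a => by simp [mul_def, one_def])
  (fun a => by simp only [mul_def, one_def, inv_def, om_neg_left, om_self]; simp)

theorem mul_N (m m' : L) (z z' : ℝ) :
    (⟨m, z, 1⟩ : Gq) * ⟨m', z', 1⟩ = ⟨m + m', z + z' + om m m', 1⟩ := by
  simp [mul_def]

theorem inv_N (m : L) (z : ℝ) : (⟨m, z, 1⟩ : Gq)⁻¹ = ⟨-m, -z, 1⟩ := by simp [inv_def]

theorem conj_N (m : L) (z : ℝ) (x : Gq) : x * ⟨m, z, 1⟩ * x⁻¹ =
    ⟨(x.u : Lˣ) * m, nm x.u * z + 2 * om x.m ((x.u : Lˣ) * m), 1⟩ := by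
  rw [mul_inv_eq_iff_eq_mul]
  simp only [mul_def, om_swap ((x.u : Lˣ) * m) x.m, mul_one, one_mul, nm_one, OneMemClass.coe_one,
    Units.val_one]
  refine Gq.ext ?_ ?_ rfl <;> dsimp only <;> ring

noncomputable def toU : Gq →* U := MonoidHom.mk' (fun a => a.u) fun _ _ => rfl

def Q : Set Gq := {a | pos ((a.u : Lˣ) - 1) ∨ a.u = 1 ∧ (pos a.m ∨ a.m = 0 ∧ 0 < a.z)}

theorem Q_mul {a b : Gq} (ha : a ∈ Q) (hb : b ∈ Q) : a * b ∈ Q := by
  obtain ⟨m, z, u⟩ := a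
  obtain ⟨m', z', u'⟩ := b
  rcases ha with ha | ⟨rfl : u = 1, ha⟩ <;> rcases hb with hb | ⟨rfl : u' = 1, hb⟩
  · left
    refine (congrArg pos ?_).mp (ha.add (pos.mul u.2 hb))
    simp [mul_def]; ring
  · left; simpa [mul_def] using ha
  · left; simpa [mul_def] using hb
  · right
    rw [mul_N]
    refine ⟨rfl, ?_⟩
    rcases ha with ha | ⟨rfl : m = 0, ha⟩ <;> rcases hb with hb | ⟨rfl : m' = 0, hb⟩
    · exact Or.inl (ha.add hb)
    · exact Or.inl (by simpa using ha)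
    · exact Or.inl (by simpa using hb)
    · exact Or.inr ⟨by simp, by simpa using add_pos ha hb⟩

theorem Q_conj {a : Gq} (ha : a ∈ Q) (x : Gq) : x * a * x⁻¹ ∈ Q := by
  obtain ⟨m, z, u⟩ := a
  rcases ha with ha | ⟨rfl : u = 1, ha⟩
  · left
    have : (x * ⟨m, z, u⟩ * x⁻¹).u = u := by
      change x.u * u * x.u⁻¹ = u
      rw [mul_comm x.u, mul_inv_cancel_right]
    rwa [this]
  · right
    rw [conj_N]
    refine ⟨rfl, ?_⟩
    rcases ha with ha | ⟨rfl : m = 0, ha⟩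
    · exact Or.inl (pos.mul x.u.2 ha)
    · exact Or.inr ⟨by simp, by simpa using mul_pos (nm_pos x.u) ha⟩

theorem Q_one : (1 : Gq) ∉ Q := by
  rintro (h | ⟨-, h | h⟩)
  · exact h.ne (by simp [one_def])
  · exact h.ne rfl
  · exact lt_irrefl _ h.2

theorem Q_total {a : Gq} (h : a ≠ 1) : a ∈ Q ∨ a⁻¹ ∈ Q := by
  obtain ⟨m, z, u⟩ := a
  by_cases hu : u = 1
  · subst hu
    rw [inv_N]
    by_cases hm : m = 0
    · subst hm
      rcases lt_trichotomy z 0 with hz | rfl | hz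
      · exact Or.inr (Or.inr ⟨rfl, Or.inr ⟨by simp, by simpa using hz⟩⟩)
      · exact absurd rfl h
      · exact Or.inl (Or.inr ⟨rfl, Or.inr ⟨rfl, hz⟩⟩)
    · exact (pos_total hm).imp (fun h => Or.inr ⟨rfl, Or.inl h⟩) fun h => Or.inr ⟨rfl, Or.inl h⟩
  · have : ((u : Lˣ) : L) - 1 ≠ 0 := fun e => hu (Subtype.ext (Units.ext (sub_eq_zero.1 e)))
    refine (pos_total this).imp Or.inl fun h => Or.inl ?_
    refine (congrArg pos ?_).mp (pos.mul (u⁻¹).2 h)
    simp [inv_def, mul_sub]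

def Pp {H : Type*} [Group H] (d c g h w : H) : Prop :=
  (∃ x, d * w * d⁻¹ = x * c * x⁻¹ * w * w) ∧ w * g = g * w ∧ w * h = h * w

def Psi (H : Type*) [Group H] : Prop :=
  ∃ d c g h x y u : H, (∀ v w, (Pp d c g h v → Pp d c g h w → Pp d c g h (v * w)) ∧
    (Pp d c g h v → Pp d c g h (w * v * w⁻¹))) ∧ ¬ Pp d c g h 1 ∧
    Pp d c g h (x * g * x⁻¹ * (y * g * y⁻¹)) ∧ Pp d c g h (u * g * u⁻¹ * (y * g * y⁻¹))⁻¹

noncomputable def uC (r : ℝ) (h : 0 < r) : U :=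
  ⟨Units.map (C : ℝ →+* L).toMonoidHom (Units.mk0 r h.ne'), pos_C h⟩

theorem uC_val (r : ℝ) (h : 0 < r) : ((uC r h : Lˣ) : L) = C r := rfl

theorem nm_uC (r : ℝ) (h : 0 < r) : nm (uC r h) = r * r := by simp [nm, uC_val, π_C]

theorem Pp_iff (w : Gq) : Pp ⟨0, 0, uC 2 two_pos⟩ ⟨0, 1, 1⟩ ⟨1, 0, 1⟩ ⟨T 1, 0, 1⟩ w ↔
    w.u = 1 ∧ π w.m = 0 ∧ 0 < w.z := by
  obtain ⟨m, z, u⟩ := w
  have C2 : (C (2 : ℝ) : L) = 2 := map_ofNat C 2
  constructor
  · rintro ⟨⟨x, hx⟩, h1, h2⟩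
    have hu : u = 1 := by
      have : uC 2 two_pos * u * (uC 2 two_pos)⁻¹ = x.u * 1 * x.u⁻¹ * u * u := congrArg Gq.u hx
      rw [mul_comm _ u, mul_inv_cancel_right, mul_one, mul_inv_cancel, one_mul] at this
      exact left_eq_mul.1 this
    subst hu
    rw [conj_N, conj_N, mul_N, mul_N, nm_uC] at hx
    rw [mul_N, mul_N] at h1 h2
    have e1 := congrArg Gq.z hx
    have e2 := congrArg Gq.z h1
    have e3 := congrArg Gq.z h2
    simp [om_self] at e1
    simp [om, π_T] at e2 e3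
    exact ⟨rfl, Complex.ext (by simp; linarith) (by simp; linarith), by
      have := nm_pos x.u
      dsimp only; linarith⟩
  · rintro ⟨rfl : u = 1, h1 : π m = 0, h2 : 0 < z⟩
    refine ⟨⟨⟨0, 0, uC (√(2 * z)) (by positivity)⟩, ?_⟩, ?_, ?_⟩
    · rw [conj_N, conj_N, mul_N, mul_N, nm_uC, nm_uC, uC_val, C2, Real.mul_self_sqrt (by positivity)]
      refine Gq.ext ?_ ?_ rfl <;> simp [om_self] <;> ring
    · rw [mul_N, mul_N]
      refine Gq.ext ?_ ?_ rfl <;> simp [om, h1, add_comm]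
    · rw [mul_N, mul_N]
      refine Gq.ext ?_ ?_ rfl <;> simp [om, h1, add_comm]

theorem psi : Psi Gq := by
  obtain ⟨y, hy⟩ : ∃ y : U, ((y : Lˣ) : L) = T 1 * T 1 :=
    ⟨⟨((isUnit_T 1).mul (isUnit_T 1)).unit, by
      change pos _
      rw [IsUnit.unit_spec]
      exact (pos_T 1).mul (pos_T 1)⟩, IsUnit.unit_spec _⟩
  refine ⟨⟨0, 0, uC 2 two_pos⟩, ⟨0, 1, 1⟩, ⟨1, 0, 1⟩, ⟨T 1, 0, 1⟩, ⟨-T 1, 0, 1⟩, ⟨0, 0, y⟩,
    ⟨T 1, 0, 1⟩, fun v w => ⟨?_, ?_⟩, ?_, ?_, ?_⟩ <;> simp only [Pp_iff]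
  · obtain ⟨m, z, u⟩ := v
    obtain ⟨m', z', u'⟩ := w
    rintro ⟨rfl : u = 1, h1 : π m = 0, h2 : 0 < z⟩ ⟨rfl : u' = 1, h1' : π m' = 0, h2' : 0 < z'⟩
    rw [mul_N]
    exact ⟨rfl, by simp [h1, h1'], by simpa [om, h1] using add_pos h2 h2'⟩
  · obtain ⟨m, z, u⟩ := v
    rintro ⟨rfl : u = 1, h1 : π m = 0, h2 : 0 < z⟩
    rw [conj_N]
    exact ⟨rfl, by simp [h1], by simpa [om, h1] using mul_pos (nm_pos w.u) h2⟩
  · simp [one_def]
  · rw [conj_N, conj_N, mul_N]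
    simp [om, hy, π_T]
  · rw [conj_N, conj_N, mul_N, inv_N]
    simp [om, hy, π_T]

end Pool.Agent.H22.ElemPro
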