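import Pool.Agent.H22.FProd

namespace Pool.Agent.H22.GLS

open Function Subgroup FormLat RegularWreathProduct
open Pool.Agent.H22.Fit (pel pgrp wmap kk kk_inj base)

variable {F A B C X : Cls} {G H Y : Type} [Group G] [Group H] [Group Y] {p q e : ℕ}

def St (K : Subgroup G) [K.Normal] (Y : Type) [Group Y] : Subgroup (G ≀ᵣ Y) where
  carrier := {w | ∀ s t, (w.left s : G ⧸ K) = w.left t}
  one_mem' := fun _ _ => rfl
  mul_mem' := fun {a b} u v s t => by
    simp only [mul_left, Pi.mul_apply, QuotientGroup.mk_mul]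
    rw [u s t, v _ (a.right⁻¹ * t)]
  inv_mem' := fun {a} u s t => by
    simp only [inv_left, Pi.inv_apply, QuotientGroup.mk_inv]
    rw [u _ (a.right * t)]

variable {K : Subgroup G} [K.Normal]

def rt (K : Subgroup G) [K.Normal] (Y : Type) [Group Y] : St K Y →* Y := rightHom.comp (St K Y).subtype

def lf (K : Subgroup G) [K.Normal] (Y : Type) [Group Y] : St K Y →* G ⧸ K :=
  MonoidHom.mk' (fun w => (w.1.left 1 : G ⧸ K)) fun a b => by
    simp only [coe_mul, mul_left, Pi.mul_apply, QuotientGroup.mk_mul]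
    rw [b.2 _ 1]

def cst (K : Subgroup G) [K.Normal] (Y : Type) [Group Y] : G × Y →* St K Y :=
  MonoidHom.mk' (fun x => ⟨⟨fun _ => x.1, x.2⟩, fun _ _ => rfl⟩) fun _ _ => rfl

def ev (R : Subgroup (St K Y)) (h : R ≤ (rt K Y).ker) (t : Y) : R →* G :=
  MonoidHom.mk' (fun w => w.1.1.left t) fun a b => by
    have : a.1.1.right = 1 := h a.2
    simp [this]

open Classical in
theorem comm_el {P : Subgroup (St K Y)} [P.Normal] {w : St K Y} (hw : w ∈ P) (h : rt K Y w ≠ 1)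
    {k : G} (hk : k ∈ K) : k ∈ (ev (P ⊓ (rt K Y).ker) inf_le_right 1).range := by
  have m : ∀ s, ((Pi.mulSingle 1 k : Y → G) s : G ⧸ K) = 1 := fun s => by
    by_cases e : s = 1
    · rw [e, Pi.mulSingle_eq_same, QuotientGroup.eq_one_iff]; exact hk
    · rw [Pi.mulSingle_eq_of_ne e]; rfl
  let b : St K Y := ⟨⟨Pi.mulSingle 1 k, 1⟩, fun s t => (m s).trans (m t).symm⟩
  refine ⟨⟨b * w * b⁻¹ * w⁻¹, P.mul_mem (Normal.conj_mem ‹_› _ hw b) (P.inv_mem hw), ?_⟩, ?_⟩
  · simp [b, rt]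
  · have : w.1.right⁻¹ ≠ 1 := inv_ne_one.2 h
    simp [ev, b, Pi.mulSingle_eq_of_ne this]

def Bg (e q : ℕ) (Y : Type) [Group Y] : Prop := ∃ u : Y, u ^ e ≠ 1 ∧ pel q (u ^ e)

theorem S1 (hq : q.Prime) (h : Star e (St K Y)) (b : Bg e q Y) : IsPGroup q K := by
  obtain ⟨u, h1, h2⟩ := b
  obtain ⟨P, _, a, c⟩ := h.2 q hq
  refine pgrp fun k hk => ?_
  obtain ⟨x, rfl⟩ := comm_el (c (cst K Y (1, u)) (by
    rw [← map_pow, Prod.pow_mk, one_pow]
    exact h2.map ((cst K Y).comp (MonoidHom.inr G Y)))) (by rwa [map_pow]) hk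
  exact pel.map (a.to_inf_left x) _

def stMap (K R : Subgroup G) [K.Normal] [R.Normal] (Y : Type) [Group Y] :
    St K Y →* St (K.map (QuotientGroup.mk' R)) Y :=
  ((wmap (QuotientGroup.mk' R) Y).comp (St K Y).subtype).codRestrict _ fun w s t =>
    QuotientGroup.eq.2 ⟨_, QuotientGroup.eq.1 (w.2 s t), rfl⟩

theorem stMap_surj (K R : Subgroup G) [K.Normal] [R.Normal] : Surjective (stMap K R Y) := by
  intro w
  obtain ⟨g, hg⟩ := QuotientGroup.mk_surjective (w.1.left 1)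
  choose k k1 k2 using fun t => QuotientGroup.eq.1 (w.2 1 t)
  refine ⟨⟨⟨fun t => g * k t, w.1.right⟩, fun s t => (QuotientGroup.mk_mul_of_mem g (k1 s)).trans
    (QuotientGroup.mk_mul_of_mem g (k1 t)).symm⟩, Subtype.ext (RegularWreathProduct.ext
      (funext fun t => ?_) rfl)⟩
  change QuotientGroup.mk' R (g * k t) = _
  rw [map_mul, k2, QuotientGroup.mk'_apply, hg, mul_inv_cancel_left]

theorem stR (c : Fm C) [Finite G] (h1 : C (G ⧸ K)) (h2 : C Y) : ∃ R : Subgroup G, ∃ _ : R.Normal,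
    R ≤ K ∧ C (St (K.map (QuotientGroup.mk' R)) Y) ∧ ∀ A, Fm A → A R → Pr A C (St K Y) := by
  have := c.1.1 _ h2
  have a : res C (St K Y) ≤ (rt K Y).ker :=
    res_le c.1 ⟨_, _, _, fun y => ⟨cst K Y (1, y), rfl⟩, rfl, h2⟩
  have b : res C (St K Y) ≤ (lf K Y).ker := res_le c.1 ⟨_, _, _, fun y => by
    obtain ⟨g, rfl⟩ := QuotientGroup.mk_surjective y
    exact ⟨cst K Y (g, 1), rfl⟩, rfl, h1⟩
  have d : ∀ s t, (ev _ a s).range ≤ (ev _ a t).range := by
    rintro s t _ ⟨x, rfl⟩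
    refine ⟨⟨_, Normal.conj_mem inferInstance _ x.2 (cst K Y (1, t * s⁻¹))⟩, ?_⟩
    simp [ev, cst]
  have : (ev _ a 1).range.Normal := ⟨by
    rintro _ ⟨x, rfl⟩ g
    refine ⟨⟨_, Normal.conj_mem inferInstance _ x.2 (cst K Y (g, 1))⟩, ?_⟩
    simp [ev, cst]⟩
  refine ⟨_, this, ?_, of_res c _ (stMap_surj K _) fun x hx => Subtype.ext
    (RegularWreathProduct.ext (funext fun t => (QuotientGroup.eq_one_iff _).2 (d t 1 ⟨⟨x, hx⟩, rfl⟩))
      (a hx)), fun A u v => ⟨inferInstance, sub_pi u (ev _ a) (fun t => le_antisymm (d 1 t) (d t 1) ▸ v)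
        fun x hx => Subtype.ext (Subtype.ext (RegularWreathProduct.ext (funext hx) (a x.2)))⟩⟩
  rintro _ ⟨x, rfl⟩
  exact (QuotientGroup.eq_one_iff _).1 (b x.2)

theorem st_nil [Fact q.Prime] (c : IsForm C) [Finite G] [Finite Y] (h : C (St K Y))
    (k : IsPGroup q K) : C G := by
  let N := (rt K Y).ker ⊓ (lf K Y).ker
  have : IsPGroup q N := pgrp fun x hx => by
    obtain ⟨n, hn⟩ := Fit.pi_pgrp k Y fun t => ⟨x.1.left t, (QuotientGroup.eq_one_iff _).1
      ((x.2 t 1).trans hx.2)⟩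
    refine ⟨n, congrArg Subtype.val (?_ : (⟨x, hx.1⟩ : (rt K Y).ker) ^ q ^ n = 1)⟩
    refine Subtype.ext (Subtype.ext (RegularWreathProduct.ext (funext fun t => ?_)
      ((⟨x, hx.1⟩ : (rt K Y).ker) ^ q ^ n).2))
    exact (map_pow (ev _ le_rfl t) _ _).trans (congrArg Subtype.val (congrFun hn t))
  have := this.isNilpotent
  have := bbh c h N (cst K Y).range (top_le_iff.1 fun w _ => by
    rw [← mul_inv_cancel_right w (cst K Y (w.1.left 1, w.1.right))⁻¹, inv_inv]
    refine mul_mem (mem_sup_left ⟨?_, ?_⟩) (mem_sup_right ⟨_, rfl⟩)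
    · exact (map_mul _ _ _).trans (by rw [map_inv]; exact mul_inv_cancel _)
    · exact (map_mul _ _ _).trans (by rw [map_inv]; exact mul_inv_cancel _))
  exact of_ker_le c _ (cst K Y).rangeRestrict_surjective (MonoidHom.fst G Y) Prod.fst_surjective
    (fun x hx => congrArg (fun w : (cst K Y).range => w.1.1.left 1) hx) this

theorem claimA (hq : q.Prime) (a : Fm A) (c : Fm C) (s : Le (Pr A C) (Star e)) (y : C Y)
    (b : Bg e q Y) (g : Pr A C G) : IsPGroup q (res C G) := by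
  have := g.1
  have := c.1.1 _ y
  have := Fact.mk hq
  obtain ⟨R, _, r1, r2, r3⟩ := stR c ((res_fq c G).quot c.1 _ le_rfl) y
  exact S1 hq (s _ (r3 A a ((le_antisymm (res_le c.1 (Fq.mk R (st_nil c.1 r2 (S1 hq
    (s _ (le_pr a c.1 _ r2)) b)))) r1 : res C G = R) ▸ g.2))) b

theorem exists_simple (a : Fm A) (h : A ≠ Triv) : ∃ (S : Type) (_ : Group S), A S ∧ IsSimpleGroup S := by
  obtain ⟨G, _, g, n⟩ : ∃ (G : Type) (_ : Group G), A G ∧ ¬ Subsingleton G := by
    by_contra c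
    push Not at c
    exact h (cls_ext c fun G _ k => have : Subsingleton G := k; a.triv)
  have := a.1.1 _ g
  have := not_subsingleton_iff_nontrivial.1 n
  obtain ⟨N, ⟨_, n1⟩, n2⟩ := (wellFounded_gt (α := Subgroup G)).has_min {N | N.Normal ∧ N ≠ ⊤}
    ⟨⊥, inferInstance, bot_ne_top⟩
  have := QuotientGroup.nontrivial_iff.2 n1
  refine ⟨_, _, a.1.2.2.1 G N g, ⟨fun M hM => ?_⟩⟩
  rw [← map_comap_eq_self_of_surjective (QuotientGroup.mk'_surjective N) M]
  by_cases e : M.comap (QuotientGroup.mk' N) = ⊤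
  · exact Or.inr (e ▸ map_top_of_surjective _ (QuotientGroup.mk'_surjective N))
  · refine Or.inl ((Subgroup.map_eq_bot_iff _).2 ?_)
    have l := ker_le_comap (QuotientGroup.mk' N) M
    rw [QuotientGroup.ker_mk'] at l ⊢
    exact (l.eq_or_lt.resolve_right (n2 _ ⟨inferInstance, e⟩)).ge

theorem top_mem (c : Fm C) : C (G ⧸ (⊤ : Subgroup G)) :=
  have := QuotientGroup.subsingleton_quotient_top (G := G)
  c.triv

theorem wr_mem (a : Fm A) (c : Fm C) [IsSimpleGroup G] (g : A G) (y : C Y) :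
    Pr A C (St (⊤ : Subgroup G) Y) := by
  have := a.1.1 _ g
  obtain ⟨R, r, -, -, r3⟩ := stR c (top_mem (G := G) c) y
  refine r3 A a ?_
  rcases r.eq_bot_or_eq_top with rfl | rfl
  · exact a.triv
  · exact a.1.2.1 _ _ ⟨topEquiv.symm⟩ g

theorem mem_top' (w : G ≀ᵣ Y) : w ∈ St (⊤ : Subgroup G) Y := fun _ _ =>
  QuotientGroup.eq.2 (mem_top _)

theorem grow {l : List Cls} (h : Val l) :
    ∃ (G : Type) (_ : Group G) (g : G), prd l G ∧ l.length < orderOf g := by
  classical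
  induction l with
  | nil => exact ⟨Unit, _, 1, triv_fm.2, orderOf_pos _⟩
  | cons A l ih =>
    have h' : Val l := fun X hX => h X (by simp [hX])
    obtain ⟨G, _, g, u, v⟩ := ih h'
    obtain ⟨a, b⟩ := h A (by simp)
    obtain ⟨S, _, s, _⟩ := exists_simple a b
    obtain ⟨x, hx⟩ := exists_ne (1 : S)
    have m := wr_mem a (prd_fm fun X hX => (h' X hX).1) s u
    have := m.1
    let w : St (⊤ : Subgroup S) G := ⟨⟨Pi.mulSingle 1 x, g⟩, mem_top' _⟩
    have k : ∀ j, j < orderOf g → (w ^ (j + 1)).1.left 1 = x := fun j => by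
      induction j with
      | zero => simp [w]
      | succ j ih =>
        intro hj
        have : (w ^ (j + 1)).1.right⁻¹ ≠ 1 := inv_ne_one.2 fun e =>
          pow_ne_one_of_lt_orderOf (by omega) hj ((map_pow (rt ⊤ G) w _).symm.trans e)
        rw [pow_succ, coe_mul, mul_left, Pi.mul_apply, ih (by omega), mul_one]
        exact (congrArg (x * ·) (Pi.mulSingle_eq_of_ne (M := fun _ => S) this x)).trans (mul_one x)
    refine ⟨_, _, w, m, (Nat.succ_le_of_lt v).trans_lt (lt_of_le_of_ne (Nat.le_of_dvd (orderOf_pos w)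
      (orderOf_map_dvd (rt ⊤ G) w)) fun e => hx ?_)⟩
    rw [← k (orderOf g - 1) (by omega), Nat.sub_add_cancel (by omega), show orderOf g = _ from e,
      pow_orderOf_eq_one]
    rfl

theorem bg_of [Finite G] {g : G} (h : g ^ e ≠ 1) : ∃ q, q.Prime ∧ ∃ j, (g ^ j) ^ e ≠ 1 ∧
    pel q ((g ^ j) ^ e) := by
  obtain ⟨q, hq, k, hk⟩ := Nat.exists_prime_and_dvd (mt orderOf_eq_one_iff.1 h)
  have := orderOf_pos (g ^ e)
  refine ⟨q, hq, k, ?_, 1, ?_⟩ <;> rw [← pow_mul g k, mul_comm k, pow_mul g]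
  · have := hq.one_lt
    exact pow_ne_one_of_lt_orderOf (by rintro rfl; omega) (by nlinarith)
  · rw [← pow_mul (g ^ e), pow_one, mul_comm k, ← hk, pow_orderOf_eq_one]

theorem bg_long (he : 0 < e) {l : List Cls} (h : Val l) (n : e ≤ l.length) :
    ∃ (q : ℕ) (G : Type) (_ : Group G), q.Prime ∧ prd l G ∧ Bg e q G := by
  obtain ⟨G, _, g, u, v⟩ := grow h
  have := (prd_fm fun X hX => (h X hX).1).1.1 _ u
  obtain ⟨q, hq, j, k⟩ := bg_of (pow_ne_one_of_lt_orderOf he.ne' (n.trans_lt v))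
  exact ⟨q, G, _, hq, u, _, k⟩

theorem el_min [Finite G] [Fact p.Prime] (k : IsPGroup p G) {N : Subgroup G} (m : MinN N) : El p N := by
  have := k.isNilpotent
  obtain ⟨d, r, hr, f⟩ := prime_of m
  obtain rfl : p = r := by
    by_contra n
    obtain ⟨x, hx⟩ := ne_bot_iff_exists_ne_one.1 m.2.1
    exact hx (Subtype.ext (pel.two Fact.out hr n (k x.1) ⟨1, (pow_one r).symm ▸ f x x.2⟩))
  exact ⟨inferInstance, fun x y => Subtype.ext (d x x.2 y y.2), fun x => Subtype.ext (f x x.2)⟩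

theorem el_of (hq : q.Prime) (a : Fm A) (t : A ≠ Triv) (c : Fm C) (s : Le (Pr A C) (Star e))
    (y : C Y) (b : Bg e q Y) : Le (El q) A := by
  have := Fact.mk hq
  obtain ⟨S, _, u, _⟩ := exists_simple a t
  have := a.1.1 _ u
  exact el_le a.1 u ((el_form q).2.1 _ _ ⟨topEquiv⟩ (el_min ((S1 hq (s _ (wr_mem a c u y))
    b).of_equiv topEquiv) ⟨inferInstance, top_ne_bot, fun K h _ n =>
      h.eq_bot_or_eq_top.resolve_left n⟩))

theorem uniq {r : ℕ} (hq : q.Prime) (hr : r.Prime) (a : Fm A) (t : A ≠ Triv) (c : Fm C)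
    (s : Le (Pr A C) (Star e)) (y : C Y) (b : Bg e q Y) (g : Pr A C G) (b' : Bg e r G) : q = r := by
  by_contra n
  have := g.1
  obtain ⟨u, u1, u2⟩ := b'
  obtain ⟨S, _, v, _⟩ := exists_simple a t
  obtain ⟨x, hx⟩ := exists_ne (1 : S)
  exact hx (pel.two hq hr n (pel.of_mem (S1 hq (s _ (wr_mem a c v y)) b) trivial) (pel.of_mem
    (S1 hr (s _ (wr_mem a c v ((res_fq c G).quot c.1 _ le_rfl))) ⟨u, fun h => u1 (pel.two hq hr n
      (pel.of_mem (claimA hq a c s y b g) ((QuotientGroup.eq_one_iff _).1 h)) u2),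
      u2.map (QuotientGroup.mk' _)⟩) trivial))

theorem els (hq : q.Prime) {s t : List Cls} (h : Val s) (k : ∀ X ∈ t, Fm X)
    (m : Le (prd (s ++ t)) (Star e)) (y : prd t Y) (b : Bg e q Y) : ∀ X ∈ s, Le (El q) X := by
  induction s with
  | nil => simp
  | cons A s ih =>
    have h' : Val s := fun X hX => h X (by simp [hX])
    have f : Fm (prd (s ++ t)) := prd_fm fun X hX => (List.mem_append.1 hX).elim (fun h => (h' X h).1) (k X)
    obtain ⟨a, n⟩ := h A (by simp)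
    refine List.forall_mem_cons.2 ⟨el_of hq a n f m ?_ b, ih h' ((le_pr a f.1).trans m)⟩
    rw [prd_app (fun X h => (h' X h).1) k]
    exact le_pr (prd_fm fun X h => (h' X h).1) (prd_fm k).1 _ y

theorem el_sub {N M : Subgroup G} (h : El p N) (l : M ≤ N) : El p M :=
  have := h.1
  ⟨Finite.of_injective _ (inclusion_injective l), fun x y => inclusion_injective l (by
    rw [map_mul, h.2.1, map_mul]), fun x => inclusion_injective l (by rw [map_pow, h.2.2, map_one])⟩

theorem pg_mem [Fact p.Prime] {l : List Cls} (h : ∀ X ∈ l, Fm X) (k : ∀ X ∈ l, Le (El p) X) [Finite G]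
    (g : IsPGroup p G) (n : Nat.card G ≤ l.length + 1) : prd l G := by
  induction l generalizing G with
  | nil => exact Finite.card_le_one_iff_subsingleton.1 n
  | cons A l ih =>
    rcases subsingleton_or_nontrivial G with _ | _
    · exact (prd_fm h).triv
    obtain ⟨N, -, m⟩ := exists_minN (M := (⊤ : Subgroup G)) inferInstance top_ne_bot
    have := m.1
    have h' : ∀ X ∈ l, Fm X := fun X hX => h X (by simp [hX])
    have := card_quot_lt m.2.1
    exact ⟨‹_›, k A (by simp) _ (el_sub (el_min g m) (res_le (prd_fm h').1 (Fq.mk N (ih h'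
      (fun X hX => k X (by simp [hX])) (g.to_quotient N) (by simp at n; omega)))))⟩

def Np (p : ℕ) : Cls := fun G _ => Finite G ∧ IsPGroup p G

theorem np_fm : Fm (Np p) := ⟨pg_form p, inferInstance, fun _ => ⟨0, rfl⟩⟩

theorem absorb (he : 0 < e) (f : Fm F) (s : Le F (Star e))
    (h : ∀ n, ∃ l, Val l ∧ prd l = F ∧ n < l.length) : ∃ p, p.Prime ∧ Pr (Np p) F = F ∧
      ∀ (r : ℕ) (G : Type) [Group G], r.Prime → F G → Bg e r G → p = r := by
  obtain ⟨l, a, rfl, c⟩ := h e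
  obtain _ | ⟨A, l⟩ := l
  · simp at c
  have a' : Val l := fun X hX => a X (by simp [hX])
  obtain ⟨q, Y, _, hq, y, b⟩ := bg_long he a' (Nat.lt_succ_iff.1 c)
  have u : ∀ (r : ℕ) (G : Type) [Group G], r.Prime → prd (A :: l) G → Bg e r G → q = r :=
    fun r G _ hr g b' => uniq hq hr (a A (by simp)).1 (a A (by simp)).2
      (prd_fm fun X hX => (a' X hX).1) s y b g b'
  refine ⟨q, hq, cls_ext ?_ (le_pr np_fm f.1), u⟩
  generalize prd (A :: l) = F at *
  rintro G _ ⟨_, -, g⟩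
  obtain ⟨l, a, rfl, c⟩ := h (Nat.card G + e)
  obtain ⟨x, t, rfl, n⟩ : ∃ x t, l = x ++ t ∧ x.length = Nat.card G :=
    ⟨l.take _, l.drop _, (List.take_append_drop _ l).symm, List.length_take_of_le (by omega)⟩
  have a1 : Val x := fun X hX => a X (by simp [hX])
  have a2 : Val t := fun X hX => a X (by simp [hX])
  have f1 : ∀ X ∈ x, Fm X := fun X hX => (a1 X hX).1
  have f2 : ∀ X ∈ t, Fm X := fun X hX => (a2 X hX).1
  obtain ⟨r, Z, _, hr, z, d⟩ := bg_long he a2 (by simp at c; omega)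
  have k := els hr a1 f2 s z d
  have m := (res_fq f G).quot f.1 _ le_rfl
  generalize_proofs _ _ at m
  generalize res (prd (x ++ t)) G = R at *
  rw [prd_app f1 f2] at *
  obtain rfl := u r Z hr (le_pr (prd_fm f1) (prd_fm f2).1 _ z) d
  have := Fact.mk hq
  have w := claimA hq (prd_fm f1) (prd_fm f2) s z d m
  rw [res_map (prd_fm f2) _ (QuotientGroup.mk'_surjective R)] at w
  refine ⟨‹_›, pg_mem f1 k ((w.comap_of_ker_isPGroup _ (by rwa [QuotientGroup.ker_mk'])).to_le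
    (le_comap_map _ _)) ?_⟩
  exact (card_le_card_group _).trans (by omega)

theorem st_np [Fact p.Prime] (g : Np p G) (y : Np p Y) : Np p (St (⊤ : Subgroup G) Y) := by
  obtain ⟨_, g⟩ := g
  obtain ⟨_, y⟩ := y
  obtain ⟨a, ha⟩ := g.exists_card_eq
  obtain ⟨b, hb⟩ := y.exists_card_eq
  exact ⟨inferInstance, (IsPGroup.of_card (n := a * Nat.card Y + b) (by
    rw [RegularWreathProduct.card, ha, pow_add, pow_mul, hb])).to_subgroup _⟩

theorem nd_np (hp : p.Prime) : ND (Np p) := by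
  rintro ⟨A, B, a, b, x, y, e⟩
  have := Fact.mk hp
  have l : Le B (Np p) := e ▸ le_pr a b.1
  have c : ∃ (n : ℕ) (P : Type) (_ : Group P), Np p P ∧ ¬ B P ∧ Nat.card P = n := by
    by_contra c
    push Not at c
    exact y (cls_ext l fun G _ g => not_not.1 fun h => c _ G _ g h rfl)
  classical
  obtain ⟨P, _, ⟨_, u⟩, v, w⟩ := Nat.find_spec c
  refine x (cls_ext (fun G _ g => ?_) fun G _ g => ?_)
  · have := a.1.1 _ g
    have : Nontrivial P := not_subsingleton_iff_nontrivial.1 fun _ => v b.triv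
    obtain ⟨N, -, m⟩ := exists_minN (M := (⊤ : Subgroup P)) inferInstance top_ne_bot
    obtain ⟨z, hz⟩ := ne_bot_iff_exists_ne_one.1 m.2.1
    have z1 := mem_center_iff.1 (min_cent u m z.2)
    have z2 : orderOf z.1 = p := (orderOf_coe z).trans (orderOf_eq_prime ((el_min u m).2.2 z) hz)
    have : (zpowers z.1).Normal := ⟨by
      rintro _ ⟨k, rfl⟩ g
      exact ⟨k, by simp [(Commute.zpow_right (z1 g) k).eq]⟩⟩
    have h : B (P ⧸ zpowers z.1) := not_not.1 fun h => Nat.find_min c (w ▸ card_quot_lt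
      (mt zpowers_eq_bot.1 fun e => hz (Subtype.ext e))) ⟨_, _, ⟨inferInstance, u.to_quotient _⟩, h, rfl⟩
    obtain ⟨R, _, -, r2, r3⟩ := stR b (top_mem (G := G) b) h
    have r4 := (l _ r2).2
    by_cases t : R = ⊤
    · subst t
      exact ⟨‹_›, (e.ge _ _ (r3 A a (a.1.2.1 _ _ ⟨topEquiv.symm⟩ g))).2.of_injective
        ((cst _ _).comp (MonoidHom.inl _ _)) fun x y h => congrArg (fun w => w.1.left 1) h⟩
    have := QuotientGroup.nontrivial_iff.2 t
    have r5 : IsPGroup p (G ⧸ R) := r4.of_injective ((cst _ _).comp (MonoidHom.inl _ _))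
      fun x y h => congrArg (fun w => w.1.left 1) h
    obtain ⟨k, k1, k2⟩ := r5.nontrivial_iff_card.1 ‹_›
    obtain ⟨s, hs⟩ := exists_prime_orderOf_dvd_card' (G := G ⧸ R) p (k2 ▸ dvd_pow_self p k1.ne')
    let i := (zpowers s).subtype.comp (mulEquivOfPrimeCardEq (p := p) (G := zpowers z.1)
      (by rw [Nat.card_zpowers, z2]) (by rw [Nat.card_zpowers, hs])).toMonoidHom
    have i1 : Injective i := (subtype_injective _).comp (MulEquiv.injective _)
    have := r4.isNilpotent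
    refine absurd (nil_inj b.1 r2 (((wmap i _).comp (kk (zpowers z.1))).codRestrict _ fun _ _ _ =>
      QuotientGroup.eq.2 ?_) fun x y h => kk_inj (zpowers z.1) ?_) v
    · rw [map_top_of_surjective _ (QuotientGroup.mk'_surjective R)]
      trivial
    · have h := congrArg Subtype.val h
      have h1 := congrArg RegularWreathProduct.right h
      exact RegularWreathProduct.ext (funext fun t => i1 (congrFun (congrArg RegularWreathProduct.left h) t)) h1
  · have k := st_np g ⟨‹_›, u⟩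
    have k' := (e.le _ _ k).2
    have := k.1
    have := (k.2.to_subgroup (res B (St (⊤ : Subgroup G) P))).isNilpotent
    obtain ⟨w, hw, w1⟩ : ∃ w ∈ res B (St (⊤ : Subgroup G) P), rt ⊤ P w ≠ 1 := by
      by_contra n
      push Not at n
      exact v (of_res b (rt ⊤ P) (fun y => ⟨cst _ _ (1, y), rfl⟩) n)
    exact surj a.1 _ (fun x => comm_el hw w1 (mem_top x))
      (nil_inj a.1 k' (inclusion inf_le_left) (inclusion_injective _))

def Ex (e : ℕ) : Cls := fun G _ => Finite G ∧ ∀ g : G, g ^ e = 1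

theorem ex_form : IsForm (Ex e) :=
  mk_form (fun _ _ h => h.1) (fun G H _ _ f hf ⟨_, b⟩ => ⟨Finite.of_surjective f hf, fun x => by
      obtain ⟨x, rfl⟩ := hf x
      rw [← map_pow, b, map_one]⟩)
    fun G _ _ N L _ _ h a b => ⟨‹_›, fun x => two_q h (a.2 x) (b.2 x)⟩

theorem fact_main (he : 0 < e) (f : Fm F) (s : Le F (Star e)) (n : F ≠ Pr F F) :
    ∃ l, (∀ X ∈ l, Fm X ∧ ND X) ∧ prd l = F := by
  by_cases h : ∃ n, ∀ l, Val l → prd l = F → l.length ≤ n
  · exact bounded _ h.choose_spec f fun c => n (c ▸ (triv_pr triv_fm).symm)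
  push Not at h
  obtain ⟨p, hp, u, v⟩ := absorb he f s h
  have b : Fm (Inf F (Ex e)) := ⟨inf_form f.1 ex_form, f.2, inferInstance, fun _ => rfl⟩
  have k : Pr (Np p) (Inf F (Ex e)) = F := cls_ext (fun G _ ⟨_, _, g⟩ => u.le _ _ ⟨‹_›, inferInstance,
    g.to_le (res_le f.1 (fq_mono (res_fq b G) fun _ _ h => h.1))⟩) fun G _ g => by
    obtain ⟨_, c⟩ := s G g
    obtain ⟨P, _, c1, c2⟩ := c p hp
    refine ⟨‹_›, inferInstance, c1.to_le (res_le b.1 (Fq.mk P ⟨f.1.2.2.1 _ _ g, inferInstance,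
      fun x => not_not.1 fun hx => ?_⟩))⟩
    obtain ⟨r, hr, j, d1, d2⟩ := bg_of hx
    obtain ⟨y, hy⟩ := QuotientGroup.mk_surjective (x ^ j)
    rw [← hy] at d1 d2
    obtain ⟨⟨_, i, rfl⟩, h1, h2⟩ := pel.lift (y := ⟨(y : G ⧸ P) ^ e, y ^ e, mem_zpowers _, rfl⟩) hr _
      ((QuotientGroup.mk' P).subgroupMap_surjective (zpowers (y ^ e))) (d2.imp fun k hk => Subtype.ext hk)
    have k : (y ^ e) ^ i = (y ^ i) ^ e := by
      rw [← zpow_natCast, ← zpow_natCast, ← zpow_mul, ← zpow_mul, mul_comm]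
    have h1 : pel r ((y ^ e) ^ i) := h1.map (Subgroup.subtype _)
    have h2 : QuotientGroup.mk' P ((y ^ e) ^ i) = (y : G ⧸ P) ^ e := congrArg Subtype.val h2
    rw [k] at h1 h2
    obtain rfl := v r G hr g ⟨_, fun c => d1 (by rw [← h2, c, map_one]), h1⟩
    exact d1 (h2 ▸ (QuotientGroup.eq_one_iff _).2 (c2 _ h1))
  obtain ⟨l, a, c⟩ := bounded e (fun l a c => by
    obtain ⟨G, _, g, x, y⟩ := grow a
    exact y.le.trans (orderOf_le_of_pow_eq_one he ((c.le _ _ x).2.2 g))) b fun c => n (by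
      rw [c, pr_triv np_fm] at k
      rw [k] at u
      exact u.symm)
  exact ⟨Np p :: l, List.forall_mem_cons.2 ⟨⟨np_fm, nd_np hp⟩, a⟩, (congrArg _ c).trans k⟩

end Pool.Agent.H22.GLS
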