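import Pool.Agent.H22.FProd2

namespace Pool.Agent.H22.GLS

open Function Subgroup FormLat RegularWreathProduct
open Pool.Agent.H22.Fit (pel pgrp wmap kk kk_inj base)

variable {F A B C X Y Z : Cls} {G H T : Type} [Group G] [Group H] [Group T] {p q e : ℕ}

noncomputable def stEq {K : Subgroup G} [K.Normal] (h : K = ⊤) (T : Type) [Group T] : St K T ≃* G ≀ᵣ T :=
  MulEquiv.ofBijective (St K T).subtype ⟨subtype_injective _, fun w =>
    ⟨⟨w, fun _ _ => QuotientGroup.eq.2 (h ▸ mem_top _)⟩, rfl⟩⟩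

theorem S1w (hq : q.Prime) (h : Star e (G ≀ᵣ T)) (b : Bg e q T) : IsPGroup q G :=
  (S1 hq (star_fm.1.2.1 _ _ ⟨(stEq rfl T).symm⟩ h) b).of_equiv topEquiv

theorem wmap_surj (f : G →* H) (hf : Surjective f) : Surjective (wmap f T) := fun w => by
  choose g hg using fun t => hf (w.left t)
  exact ⟨⟨g, w.right⟩, RegularWreathProduct.ext (funext hg) rfl⟩

theorem wmap_inj (f : G →* H) (hf : Injective f) : Injective (wmap f T) := fun x y h => by
  have h1 := congrArg RegularWreathProduct.right h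
  exact RegularWreathProduct.ext (funext fun t => hf (congrFun (congrArg RegularWreathProduct.left h) t)) h1

theorem right_surj : Surjective (rightHom : G ≀ᵣ T →* T) := fun t => ⟨⟨1, t⟩, rfl⟩

theorem pw_left [DecidableEq T] (x : G) (g : T) (j : ℕ) (hj : j < orderOf g) :
    ((⟨Pi.mulSingle 1 x, g⟩ : G ≀ᵣ T) ^ (j + 1)).left 1 = x := by
  induction j with
  | zero => simp
  | succ j ih =>
    have : ((⟨Pi.mulSingle 1 x, g⟩ : G ≀ᵣ T) ^ (j + 1)).right⁻¹ ≠ 1 := inv_ne_one.2 fun e =>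
      pow_ne_one_of_lt_orderOf (by omega) hj ((map_pow rightHom (⟨Pi.mulSingle 1 x, g⟩ : G ≀ᵣ T) _).symm.trans e)
    rw [pow_succ, mul_left, Pi.mul_apply, ih (by omega), mul_one]
    exact (congrArg (x * ·) (Pi.mulSingle_eq_of_ne (M := fun _ => G) this x)).trans (mul_one x)

theorem grow1 [Finite G] [Finite T] [Nontrivial G] (g : T) : ∃ w : G ≀ᵣ T, orderOf g < orderOf w := by
  classical
  obtain ⟨x, hx⟩ := exists_ne (1 : G)
  have := orderOf_pos g
  refine ⟨⟨Pi.mulSingle 1 x, g⟩, lt_of_le_of_ne (Nat.le_of_dvd (orderOf_pos _)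
    (orderOf_map_dvd rightHom _)) fun e => hx ?_⟩
  rw [← pw_left x g (orderOf g - 1) (by omega), Nat.sub_add_cancel (by omega), e, pow_orderOf_eq_one]
  rfl

def Wf (Y : Cls) (T : Type) [Group T] : Cls := fun G _ => Y (G ≀ᵣ T)

theorem wf_fm (y : Fm Y) (h : Y T) : Fm (Wf Y T) := by
  refine ⟨mk_form (fun G _ k => ?_) (fun G H _ _ f hf k => surj y.1 _ (wmap_surj f hf) k) ?_,
    surj y.1 inl (fun w => ⟨w.right, RegularWreathProduct.ext rfl rfl⟩) h⟩
  · have := y.1.1 _ k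
    exact Finite.of_injective (fun g : G => (⟨fun _ => g, 1⟩ : G ≀ᵣ T)) fun a b e =>
      congrFun (congrArg RegularWreathProduct.left e) 1
  · intro G _ _ N L _ _ e a b
    have := y.1.1 _ h
    refine sub2 y.1 _ (wmap_surj _ (QuotientGroup.mk'_surjective N)) _
      (wmap_surj _ (QuotientGroup.mk'_surjective L)) (MonoidHom.id _) surjective_id (fun w u v => ?_) a b
    have h1 := congrArg RegularWreathProduct.right u
    exact RegularWreathProduct.ext (funext fun t => two_q e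
      (congrFun (congrArg RegularWreathProduct.left u) t)
      (congrFun (congrArg RegularWreathProduct.left v) t)) h1

theorem wr_pg [Fact p.Prime] [Finite G] [Finite T] (g : IsPGroup p G) (y : IsPGroup p T) :
    IsPGroup p (G ≀ᵣ T) := (st_np ⟨‹_›, g⟩ ⟨‹_›, y⟩).2.of_equiv (stEq rfl T)

theorem of_wr [Fact p.Prime] (y : IsForm Y) (N : Subgroup G) [N.Normal] [Finite G] (n : IsPGroup p N)
    (h : Y (N ≀ᵣ (G ⧸ N))) : Y G := by
  have : IsPGroup p (rightHom : N ≀ᵣ (G ⧸ N) →* G ⧸ N).ker := pgrp fun w hw => by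
    have : w = base _ _ w.left := RegularWreathProduct.ext rfl hw
    exact this ▸ pel.map (Fit.pi_pgrp n _ w.left) _
  have := this.isNilpotent
  refine y.2.1 _ _ ⟨(MonoidHom.ofInjective (kk_inj N)).symm⟩ (bbh y h rightHom.ker _
    (top_le_iff.1 fun w _ => ?_))
  obtain ⟨g, hg⟩ := QuotientGroup.mk_surjective w.right
  rw [← inv_mul_cancel_right w (kk N g)]
  refine mul_mem (mem_sup_left ?_) (mem_sup_right ⟨g, rfl⟩)
  change w.right * (g : G ⧸ N)⁻¹ = 1
  rw [hg, mul_inv_cancel]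

theorem wrI (c : Fm C) (a : Fm A) [Finite G] (h : C T) : Pr A C (G ≀ᵣ T) ↔ A (res (Wf C T) G) := by
  have := c.1.1 _ h
  have r1 : ∀ x ∈ res C (G ≀ᵣ T), x.right = 1 := res_le c.1 ⟨_, _, rightHom, right_surj, rfl, h⟩
  let ε : T → res C (G ≀ᵣ T) →* G := fun t => MonoidHom.mk' (fun x => x.1.left t) fun a b => by
    simp [r1 _ a.2]
  have d : ∀ s t, (ε s).range ≤ (ε t).range := by
    rintro s t _ ⟨x, rfl⟩
    refine ⟨⟨_, Normal.conj_mem inferInstance _ x.2 (inl (t * s⁻¹))⟩, ?_⟩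
    simp [ε]
  have : (ε 1).range.Normal := ⟨by
    rintro _ ⟨x, rfl⟩ g
    refine ⟨⟨_, Normal.conj_mem inferInstance _ x.2 ⟨fun _ => g, 1⟩⟩, ?_⟩
    simp [ε]⟩
  have k : res (Wf C T) G = (ε 1).range := le_antisymm (res_le (wf_fm c h).1 (Fq.mk _
    (show C (_ ≀ᵣ T) from of_res c _ (wmap_surj _ (QuotientGroup.mk'_surjective _)) fun x hx =>
      RegularWreathProduct.ext (funext fun t => (QuotientGroup.eq_one_iff _).2
        (d t 1 ⟨⟨x, hx⟩, rfl⟩)) (r1 x hx)))) (by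
    rintro _ ⟨x, rfl⟩
    exact (QuotientGroup.eq_one_iff _).1 (congrFun (congrArg RegularWreathProduct.left (res_le c.1
      ⟨_, _, _, wmap_surj _ (QuotientGroup.mk'_surjective _), rfl,
        (res_fq (wf_fm c h) G).quot (wf_fm c h).1 _ le_rfl⟩ x.2)) 1))
  rw [k]
  exact ⟨fun u => surj a.1 _ (ε 1).rangeRestrict_surjective u.2, fun u => ⟨inferInstance,
    sub_pi a ε (fun t => le_antisymm (d 1 t) (d t 1) ▸ u) fun x hx =>
      Subtype.ext (RegularWreathProduct.ext (funext hx) (r1 _ x.2))⟩⟩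

theorem el_ext [Fact q.Prime] (y : Fm Y) [Nontrivial G] (l : El q G) (b : Y (G ≀ᵣ T)) [Finite H]
    (N : Subgroup H) [N.Normal] (d : El q N) (τ : T →* H ⧸ N) (a : Surjective τ) : Y H := by
  have t := surj y.1 _ right_surj b
  have := y.1.1 _ t
  let π := (MonoidHom.snd _ _).comp (fibr (QuotientGroup.mk' N) τ).subtype
  have hπ : Surjective π := fun x => by
    obtain ⟨g, hg⟩ := QuotientGroup.mk_surjective (τ x)
    exact ⟨⟨(g, x), hg⟩, rfl⟩
  let ι : π.ker →* N := ((MonoidHom.fst _ _).comp ((Subgroup.subtype _).comp π.ker.subtype)).codRestrict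
    _ fun x => (QuotientGroup.eq_one_iff _).1 (x.1.2.trans ((congrArg τ x.2).trans (map_one τ)))
  have hι : Injective ι := (injective_iff_map_eq_one _).2 fun x hx =>
    Subtype.ext (Subtype.ext (Prod.ext (congrArg Subtype.val hx) x.2))
  have m : El q π.ker := (el_form q).2.1 _ _ ⟨(ι.ofInjective hι).symm⟩ ⟨inferInstance,
    fun x y => Subtype.ext (d.2.1 _ _), fun x => Subtype.ext (d.2.2 _)⟩
  refine surj y.1 ((MonoidHom.fst _ _).comp (fibr (QuotientGroup.mk' N) τ).subtype)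
    (fun x => ?_) (of_wr (p := q) y.1 π.ker (fun x => ⟨1, (pow_one q).symm ▸ m.2.2 x⟩)
      (y.1.2.1 _ _ ⟨congr (MulEquiv.refl _) (QuotientGroup.quotientKerEquivOfSurjective π hπ).symm⟩
        (el_le (wf_fm y t).1 b l _ m)))
  obtain ⟨t, ht⟩ := a x
  exact ⟨⟨(x, t), ht.symm⟩, rfl⟩

def PP (Y : Cls) : Prop := ∀ C, Fm C → Pr C Y = Y → C = Triv

def Cof (J Z : Cls) (G : Type) [Group G] : Prop := ∀ (T₀ : Type) [Group T₀], J T₀ →
  ∃ (T : Type) (_ : Group T) (τ : T →* T₀), Surjective τ ∧ J T ∧ Z (G ≀ᵣ T)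

def Reg (J Z : Cls) : Prop := ∀ (X : Type) [Group X] [Finite X], ∃ (T₀ : Type) (_ : Group T₀), J T₀ ∧
  ∀ (T : Type) [Group T] (τ : T →* T₀), Surjective τ → J T → ∀ (V : Type) [Group V] (f : X →* V),
    Surjective f → Z (V ≀ᵣ T) → Subsingleton V

theorem cof_el {J : Cls} (j : Fm J) (z : Fm Z) (s : Le Z (Star e)) (he : 0 < e) [Finite G]
    [IsSimpleGroup G] (c : Cof J Z G) (k : ∀ (T : Type) [Group T] (g : T), J T → Z (G ≀ᵣ T) →
      ∃ (T' : Type) (_ : Group T') (w : T'), J T' ∧ orderOf g < orderOf w) :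
    ∃ (q : ℕ) (T : Type) (_ : Group T), q.Prime ∧ El q G ∧ J T ∧ Bg e q T := by
  have k : ∀ n, ∃ (T : Type) (_ : Group T) (g : T), J T ∧ Z (G ≀ᵣ T) ∧ n < orderOf g := fun n => by
    induction n with
    | zero =>
      obtain ⟨T, _, -, -, u⟩ := c Unit j.2
      exact ⟨T, _, 1, u.1, u.2, by simp⟩
    | succ n ih =>
      obtain ⟨T, _, g, u, u', v⟩ := ih
      obtain ⟨T, _, w, m, hw⟩ := k T g u u'
      obtain ⟨T', _, τ, a, b⟩ := c _ m
      obtain ⟨w, rfl⟩ := a w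
      have := j.1.1 _ b.1
      exact ⟨T', _, w, b.1, b.2, ((Nat.succ_le_of_lt v).trans_lt hw).trans_le
        (Nat.le_of_dvd (orderOf_pos _) (orderOf_map_dvd τ w))⟩
  obtain ⟨T, _, g, t, u, v⟩ := k e
  have := j.1.1 _ t
  obtain ⟨q, hq, i, b⟩ := bg_of (pow_ne_one_of_lt_orderOf he.ne' v)
  have := Fact.mk hq
  exact ⟨q, T, _, hq, (el_form q).2.1 _ _ ⟨topEquiv⟩ (el_min (S1w hq (s _ u) ⟨_, b⟩)
    ⟨inferInstance, top_ne_bot, fun K h _ n => h.eq_bot_or_eq_top.resolve_left n⟩), t, _, b⟩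

theorem simple_quot [Finite G] {R : Subgroup G} [R.Normal] (h : R ≠ ⊤) :
    ∃ M : Subgroup G, ∃ _ : M.Normal, R ≤ M ∧ IsSimpleGroup (G ⧸ M) := by
  obtain ⟨N, ⟨_, n1, n3⟩, n2⟩ := (wellFounded_gt (α := Subgroup G)).has_min
    {N | N.Normal ∧ N ≠ ⊤ ∧ R ≤ N} ⟨R, inferInstance, h, le_rfl⟩
  have := QuotientGroup.nontrivial_iff.2 n1
  refine ⟨N, _, n3, ⟨fun M hM => ?_⟩⟩
  rw [← map_comap_eq_self_of_surjective (QuotientGroup.mk'_surjective N) M]
  by_cases e : M.comap (QuotientGroup.mk' N) = ⊤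
  · exact Or.inr (e ▸ map_top_of_surjective _ (QuotientGroup.mk'_surjective N))
  · refine Or.inl ((Subgroup.map_eq_bot_iff _).2 ?_)
    have l := ker_le_comap (QuotientGroup.mk' N) M
    rw [QuotientGroup.ker_mk'] at l ⊢
    exact (l.eq_or_lt.resolve_right (n2 _ ⟨inferInstance, e, n3.trans l⟩)).ge

theorem reg_of {J : Cls} (j : Fm J) (z : Fm Z)
    (h : ∀ (G : Type) [Group G] [Finite G] [IsSimpleGroup G], ¬ Cof J Z G) : Reg J Z := by
  intro X _ _
  suffices ∀ S : Set (Subgroup X), S.Finite → ∃ (T₀ : Type) (_ : Group T₀), J T₀ ∧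
      ∀ (T : Type) [Group T] (τ : T →* T₀), Surjective τ → J T → ∀ R ∈ S, ∀ [R.Normal],
      IsSimpleGroup (X ⧸ R) → ¬ Z ((X ⧸ R) ≀ᵣ T) by
    obtain ⟨T, _, a, b⟩ := this _ Set.finite_univ
    refine ⟨T, _, a, fun T' _ τ c t V _ f hf k => not_nontrivial_iff_subsingleton.1 fun _ => ?_⟩
    obtain ⟨M, _, l, m⟩ := simple_quot (R := f.ker) fun e => by
      obtain ⟨v, hv⟩ := exists_ne (1 : V)
      obtain ⟨x, rfl⟩ := hf v
      exact hv (e.ge trivial)
    refine b T' τ c t M trivial m (surj z.1 _ (wmap_surj (f.liftOfSurjective hf ⟨QuotientGroup.mk' M,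
      by rwa [QuotientGroup.ker_mk']⟩) fun c => ?_) k)
    obtain ⟨a, rfl⟩ := QuotientGroup.mk'_surjective M c
    exact ⟨f a, MonoidHom.liftOfRightInverse_comp_apply _ _ _ _ _⟩
  intro S hS
  induction S, hS using Set.Finite.induction_on with
  | empty => exact ⟨Unit, _, j.2, fun _ _ _ _ _ _ h => h.elim⟩
  | @insert R S _ _ ih =>
    obtain ⟨T, _, a, b⟩ := ih
    by_cases c : ∃ _ : R.Normal, IsSimpleGroup (X ⧸ R)
    · obtain ⟨_, c⟩ := c
      have := h (X ⧸ R)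
      simp only [Cof, not_forall, not_exists, not_and] at this
      obtain ⟨U, _, u, v⟩ := this
      refine ⟨T × U, _, prod_mem j.1 a u, fun T' _ τ d t R' m _ k => ?_⟩
      rcases m with rfl | m
      · exact v T' _ ((MonoidHom.snd T U).comp τ) (Prod.snd_surjective.comp d) t
      · exact b T' ((MonoidHom.fst T U).comp τ) (Prod.fst_surjective.comp d) t R' m k
    · refine ⟨T, _, a, fun T' _ τ d t R' m _ k => ?_⟩
      rcases m with rfl | m
      · exact absurd ⟨_, k⟩ c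
      · exact b T' τ d t R' m k

theorem el_fm : Fm (El q) := ⟨el_form q, inferInstance, fun _ _ => rfl, fun _ => rfl⟩

theorem reg_pp (y : Fm Y) (s : Le Y (Star e)) (he : 0 < e) (h : PP Y) : Reg Y Y := by
  refine reg_of y y fun G _ _ _ c => ?_
  obtain ⟨q, -, -, hq, l, -⟩ := cof_el y y s he c fun T _ g t u =>
    have := y.1.1 _ t
    (grow1 (G := G) g).elim fun w hw => ⟨_, _, w, u, hw⟩
  have := Fact.mk hq
  refine not_subsingleton G ((h _ el_fm (cls_ext ?_ (le_pr el_fm y.1))).le _ _ l)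
  rintro D _ ⟨_, d⟩
  obtain ⟨T, _, τ, a, -, b⟩ := c _ ((res_fq y D).quot y.1 _ le_rfl)
  exact el_ext y l b _ d τ a

theorem wr_big (y : Fm Y) (r : Reg Y Y) (G : Type) [Group G] [Finite G] :
    ∃ (T₀ : Type) (_ : Group T₀), Y T₀ ∧ ∀ (T : Type) [Group T] (τ : T →* T₀), Surjective τ → Y T →
      ∀ A, Fm A → (Pr A Y (G ≀ᵣ T) ↔ A G) := by
  obtain ⟨T₀, _, u, v⟩ := r G
  refine ⟨T₀, _, u, fun T _ τ a t A f => ?_⟩
  have := v T τ a t _ _ (QuotientGroup.mk'_surjective _) ((res_fq (wf_fm y t) G).quot (wf_fm y t).1 _ le_rfl)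
  rw [wrI y f t, show res (Wf Y T) G = ⊤ from top_le_iff.1 fun x _ =>
    (QuotientGroup.eq_one_iff x).1 (Subsingleton.elim _ _)]
  exact ⟨f.1.2.1 _ _ ⟨topEquiv⟩, f.1.2.1 _ _ ⟨topEquiv.symm⟩⟩

theorem cancel (a : Fm A) (b : Fm B) (y : Fm Y) (r : Reg Y Y) (h : Le (Pr A Y) (Pr B Y)) : Le A B :=
  fun G _ g => by
  have := a.1.1 _ g
  obtain ⟨T, _, u, v⟩ := wr_big y r G
  exact (v T (MonoidHom.id T) surjective_id u B b).1 (h _ ((v T (MonoidHom.id T) surjective_id u A a).2 g))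

structure Ix (Z : Cls) where
  T : Type
  [g : Group T]
  h : Z T

attribute [instance] Ix.g

def tl (i : Ix Z) : Set (Ix Z) := {j | ∃ τ : j.T →* i.T, Surjective τ}

theorem comp (a : Fm A) (b : Fm B) (y : Fm Y) (z : Fm Z) (r : Reg Z Z) (l : Le Z Y)
    (h : Pr A Y = Pr B Z) : ∃ V, Fm V ∧ B = Pr A V := by
  have : Nonempty (Ix Z) := ⟨⟨Unit, z.2⟩⟩
  have nb : (⨅ i : Ix Z, Filter.principal (tl i)).NeBot := Filter.iInf_neBot_of_directed
    (fun i j => ⟨⟨i.T × j.T, prod_mem z.1 i.h j.h⟩, Filter.principal_mono.2 fun _ ⟨τ, k⟩ =>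
      ⟨(MonoidHom.fst _ _).comp τ, Prod.fst_surjective.comp k⟩, Filter.principal_mono.2 fun _ ⟨τ, k⟩ =>
      ⟨(MonoidHom.snd _ _).comp τ, Prod.snd_surjective.comp k⟩⟩) fun i =>
      Filter.principal_neBot_iff.2 ⟨i, MonoidHom.id _, surjective_id⟩
  let U := Ultrafilter.of (⨅ i : Ix Z, Filter.principal (tl i))
  have w : ∀ i : Ix Z, Fm (Wf Y i.T) := fun i => wf_fm y (l _ i.h)
  have v : Fm fun G _ => ∀ᶠ i in (U : Filter (Ix Z)), Wf Y i.T G :=
    ⟨⟨fun G _ k => k.exists.elim fun i => (w i).1.1 G, fun G K _ _ e k => k.mono fun i => (w i).1.2.1 G K e,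
      fun G _ N _ k => k.mono fun i => (w i).1.2.2.1 G N, fun G _ _ N L _ _ e k k' =>
      (k.and k').mono fun i m => (w i).1.2.2.2 G N L e m.1 m.2⟩, .of_forall fun i => (w i).2⟩
  have k : ∀ (G : Type) [Group G] [Finite G], B G ↔ A (res _ G) := fun G _ _ => by
    obtain ⟨T, _, u, t⟩ := wr_big z r G
    obtain ⟨R, m⟩ := (Ultrafilter.eventually_exists_iff (f := U) (P := fun R i => res (Wf Y i.T) G = R)).1
      (.of_forall fun i => ⟨_, rfl⟩)
    obtain ⟨i, ⟨m1, m2⟩, τ, m3⟩ := ((m.and ((res_fq v G).quot v.1 _ le_rfl)).and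
      (Ultrafilter.of_le _ (Filter.mem_iInf_of_mem ⟨T, u⟩ (Filter.mem_principal_self _)))).exists
    subst m1
    rw [← t _ τ m3 i.h B b, ← h, wrI y a (l _ i.h), le_antisymm (res_le (w i).1 (Fq.mk _ m2))
      (res_le v.1 (Fq.mk _ (m.mono fun j n => (res_fq (w j) G).quot (w j).1 _ n.le)))]
  exact ⟨_, v, cls_ext (fun G _ g => have := b.1.1 G g; ⟨this, (k G).1 g⟩) fun G _ ⟨_, g⟩ => (k G).2 g⟩

theorem ind (z : Fm Z) [Finite G] {P : Type} [Group P] (π : P →* H) (hπ : π.range = res Z H)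
    (ρ : G →* H) (l : G →* P ≀ᵣ (H ⧸ res Z H)) (m1 : ∀ x, (l x).right = ρ x)
    (m2 : ∀ x t, π ((l x).left t) = (kk _ (ρ x)).left t)
    (mk : ∀ (h : H) (f : H ⧸ res Z H → P), (∀ t, π (f t) = (kk _ h).left t) →
      ∃ x, ρ x = h ∧ (l x).left = f)
    (cov : ∀ (V : Type) [Group V] (f : P →* V), Surjective f → Z (V ≀ᵣ (H ⧸ res Z H)) → Subsingleton V) :
    ∃ ε : res Z G →* P, Surjective ε := by
  classical
  let N := res Z H
  have ex : ∀ h t p, π p = (kk N h).left t → ∃ x, ρ x = h ∧ (l x).left t = p := fun h t p k => by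
    choose f hf using fun t => hπ.ge ((kk N h).left t).2
    obtain ⟨x, u, v⟩ := mk h (update f t p) fun s => by
      by_cases e : s = t
      · rw [e, update_self, k]
      · rw [update_of_ne e, hf]
    exact ⟨x, u, by rw [v, update_self]⟩
  have hρ : Surjective ρ := fun h => by
    obtain ⟨p, k⟩ := hπ.ge ((kk N h).left 1).2
    exact (ex h 1 p k).imp fun _ h => h.1
  have rm := res_map z ρ hρ
  have r1 : ∀ x ∈ res Z G, (l x).right = 1 := fun x hx =>
    (m1 x).trans ((QuotientGroup.eq_one_iff _).2 (rm.ge ⟨x, hx, rfl⟩))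
  let ε : H ⧸ N → res Z G →* P := fun t => MonoidHom.mk' (fun x => (l x).left t) fun a b => by
    simp [r1 _ a.2]
  have kn : ∀ n ∈ N, ∀ t, ((kk N n).left t : H) = t.out⁻¹ * n * t.out := fun n hn t => by
    simp [kk, (QuotientGroup.eq_one_iff n).2 hn, mul_assoc]
  have k : ∀ t x, π (ε t x) = t.out⁻¹ * ρ x * t.out := fun t x =>
    (m2 x t).trans (kn _ (rm.ge ⟨x, x.2, rfl⟩) t)
  have cj : ∀ (g : G) (x : res Z G) t, ε t ⟨_, Normal.conj_mem inferInstance _ x.2 g⟩ =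
      (l g).left t * ε ((l g).right⁻¹ * t) x * ((l g).left t)⁻¹ := fun g x t => by
    simp [ε, r1 _ x.2]
  have nm : ∀ t, (ε t).range.Normal := fun t => ⟨by
    rintro _ ⟨x, rfl⟩ p
    have := Normal.conj_mem inferInstance _ (hπ.le ⟨p, rfl⟩) t.out
    obtain ⟨g, u, v⟩ := ex _ t p (by rw [kn _ this]; group)
    refine ⟨_, (cj g x t).trans ?_⟩
    rw [v, m1, u, (QuotientGroup.eq_one_iff _).2 this, inv_one, one_mul]⟩
  have le : ∀ s t, (ε s).range ≤ (ε t).range := by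
    rintro s t _ ⟨x, rfl⟩
    obtain ⟨h, e⟩ := QuotientGroup.mk_surjective (t * s⁻¹)
    obtain ⟨g, rfl⟩ := hρ h
    have := cj g x t
    rw [m1, e, mul_inv_rev, inv_inv, inv_mul_cancel_right] at this
    simpa [mul_assoc] using (nm t).conj_mem _ ⟨_, this⟩ ((l g).left t)⁻¹
  have := nm 1
  refine ⟨ε 1, fun p => (QuotientGroup.eq_one_iff (N := (ε 1).range) p).1 (@Subsingleton.elim _ (cov _ _
    (QuotientGroup.mk'_surjective _) (of_res z ((wmap (QuotientGroup.mk' _) _).comp l) (fun w => ?_)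
      fun x hx => RegularWreathProduct.ext (funext fun s => (QuotientGroup.eq_one_iff _).2
        (le s 1 ⟨⟨x, hx⟩, rfl⟩)) (r1 x hx))) _ _)⟩
  obtain ⟨h, e⟩ := QuotientGroup.mk_surjective w.right
  have : ∀ s, ∃ p, π p = (kk N h).left s ∧ (p : P ⧸ (ε 1).range) = w.left s := fun s => by
    obtain ⟨p, e⟩ := QuotientGroup.mk_surjective (w.left s)
    obtain ⟨x, hx, c⟩ := rm.le (Normal.conj_mem inferInstance _ (N.mul_mem (N.inv_mem
      (hπ.le ⟨p, rfl⟩)) ((kk N h).left s).2) (1 : H ⧸ N).out)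
    refine ⟨p * ε 1 ⟨x, hx⟩, ?_, (QuotientGroup.mk_mul_of_mem p
      (MonoidHom.mem_range.2 ⟨_, rfl⟩)).trans e⟩
    rw [map_mul, k, c]
    group
  choose f f1 f2 using this
  obtain ⟨x, u, v⟩ := mk h f f1
  exact ⟨x, RegularWreathProduct.ext (funext fun s => (congrArg _ (congrFun v s)).trans (f2 s))
    ((m1 x).trans (u ▸ e))⟩

end Pool.Agent.H22.GLS
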