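import Pool.Agent.H22.FUniq

namespace Pool.Agent.H22.GLS

open Function Subgroup FormLat RegularWreathProduct
open Pool.Agent.H22.Fit (pel pgrp wmap kk kk_inj base)
open scoped commutatorElement

variable {F A B X Y Z : Cls} {G H T C : Type} [Group G] [Group H] [Group T] [Group C] {p q e r : ℕ}

def Sec (A : Cls) : Cls := fun G _ => ∃ (H D : Type) (_ : Group H) (_ : Group D) (i : D →* H)
  (f : D →* G), A H ∧ Injective i ∧ Surjective f

theorem Sec.of (h : A G) : Sec A G := ⟨G, G, _, _, .id G, .id G, h, injective_id, surjective_id⟩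

theorem Sec.surj (h : Sec A G) (g : G →* H) (hg : Surjective g) : Sec A H := by
  obtain ⟨K, D, _, _, i, f, a, b, c⟩ := h
  exact ⟨K, D, _, _, i, g.comp f, a, b, hg.comp c⟩

theorem Sec.inj (h : Sec A G) (g : H →* G) (hg : Injective g) : Sec A H := by
  obtain ⟨K, D, _, _, i, f, a, b, c⟩ := h
  refine ⟨K, fibr f g, _, _, i.comp ((MonoidHom.fst _ _).comp (Subgroup.subtype _)),
    (MonoidHom.snd _ _).comp (Subgroup.subtype _), a, b.comp fun x y e => Subtype.ext (Prod.ext e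
      (hg (x.2.symm.trans ((congrArg f e).trans y.2)))), fun x => ?_⟩
  obtain ⟨d, hd⟩ := c (g x)
  exact ⟨⟨(d, x), hd⟩, rfl⟩

theorem Sec.trans (h : Sec B G) (k : ∀ (H : Type) [Group H], B H → Sec A H) : Sec A G := by
  obtain ⟨K, D, _, _, i, f, a, b, c⟩ := h
  exact ((k K a).inj i b).surj f c

theorem Sec.wr (h : Sec A G) (k : ∀ (H : Type) [Group H], A H → Sec B (H ≀ᵣ C)) : Sec B (G ≀ᵣ C) := by
  obtain ⟨K, D, _, _, i, f, a, b, c⟩ := h
  exact ((k K a).inj _ (wmap_inj i b)).surj _ (wmap_surj f c)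

def cs (G T : Type) [Group G] [Group T] : G →* G ≀ᵣ T := MonoidHom.mk' (fun g => ⟨fun _ => g, 1⟩)
  fun _ _ => RegularWreathProduct.ext rfl (mul_one _).symm

theorem cs_inj : Injective (cs G T) := fun _ _ e => congrFun (congrArg RegularWreathProduct.left e) 1

theorem star_inj (h : Star e G) (g : H →* G) (hg : Injective g) : Star e H :=
  have := h.1
  ⟨Finite.of_injective g hg, fun p hp => (h.2 p hp).elim fun P ⟨a, b, c⟩ => ⟨P.comap g, a.comap g,
    b.comap_of_injective g hg, fun x hx => by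
      rw [mem_comap, map_pow]
      exact c _ (map_pow g x e ▸ hx.map g)⟩⟩

theorem sect (R : Subgroup (G ≀ᵣ T)) (h : B R) (c : C →* T) (hc : Injective c)
    (h1 : ∀ a, ∃ w ∈ R, w.right = c a)
    (h2 : ∀ f : C → G, ∃ w ∈ R, w.right = 1 ∧ ∀ a, w.left (c a) = f a) : Sec B (G ≀ᵣ C) := by
  refine ⟨R, fibr (rightHom.comp R.subtype) c, _, _, (MonoidHom.fst _ _).comp (Subgroup.subtype _),
    MonoidHom.mk' (fun x => ⟨fun a => x.1.1.1.left (c a), x.1.2⟩) fun x y => ?_, h,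
    fun x y e => Subtype.ext (Prod.ext e (hc (x.2.symm.trans
      ((congrArg (rightHom.comp R.subtype) e).trans y.2)))), fun w => ?_⟩
  · have : x.1.1.1.right = c x.1.2 := x.2
    ext <;> simp [this]
  · obtain ⟨u, u1, u2⟩ := h1 w.right
    obtain ⟨v, v1, v2, v3⟩ := h2 fun a => w.left a * (u.left (c a))⁻¹
    refine ⟨⟨(⟨v * u, mul_mem v1 u1⟩, w.right), ?_⟩, ?_⟩
    · change v.right * u.right = _
      rw [v2, u2, one_mul]
      rfl
    · ext <;> simp [v2, v3]

abbrev Cy (r : ℕ) := Multiplicative (ZMod r)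

theorem cy_hom [Fact r.Prime] [Finite G] (h : r ∣ Nat.card G) : ∃ c : Cy r →* G, Injective c := by
  obtain ⟨s, hs⟩ := exists_prime_orderOf_dvd_card' r h
  exact ⟨(zpowers s).subtype.comp (mulEquivOfPrimeCardEq (p := r) (by simp)
    (by rw [Nat.card_zpowers, hs])).toMonoidHom, (subtype_injective _).comp (MulEquiv.injective _)⟩

theorem step (a : Fm A) (y : Fm Y) (z : Fm Z) (h : Pr A Y = Pr B Z) (k : Reg Y Y) (t : Y T)
    (m : ∀ (T' : Type) [Group T'] (τ : T' →* T), Surjective τ → Y T' → ∃ c : C →* T', Injective c ∧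
      (∀ a, c a ∈ res Z T') ∧ ∃ t ∈ res Z T', t ∉ c.range) (g : A G) : Sec B (G ≀ᵣ C) := by
  have := a.1.1 _ g
  obtain ⟨U, _, u, v⟩ := wr_big y k G
  obtain ⟨_, w⟩ := h.le _ _ ((v _ (MonoidHom.fst U T) Prod.fst_surjective (prod_mem y.1 u t) A a).2 g)
  obtain ⟨c, c1, c2, s, s1, s2⟩ := m _ (MonoidHom.snd U T) Prod.snd_surjective (prod_mem y.1 u t)
  rw [res_map z rightHom (right_surj (G := G))] at c2 s1
  refine sect _ w c c1 c2 fun f => ?_
  obtain ⟨x, hx, rfl⟩ := s1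
  let b : G ≀ᵣ (U × T) := ⟨extend c f 1, 1⟩
  refine ⟨b * x * b⁻¹ * x⁻¹, mul_mem (Normal.conj_mem inferInstance _ hx b) (inv_mem hx),
    by simp [b], fun d => ?_⟩
  have : extend c f 1 (x.right⁻¹ * c d) = 1 := extend_apply' _ _ _ fun ⟨d', e⟩ =>
    s2 ⟨d * d'⁻¹, by simp [e]⟩
  simp [b, this, c1.extend_apply]

theorem back (b : Fm B) (y : Fm Y) (z : Fm Z) (h : Pr A Y = Pr B Z) (k : Reg Z Z) (t : Z T)
    (n : ¬ Y T) (g : B G) : Sec A G := by
  refine (step (C := Unit) b z y h.symm k t (fun T' _ τ u v => ⟨1, fun _ _ _ => rfl,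
    fun _ => one_mem _, ?_⟩) g).inj _ cs_inj
  have := z.1.1 _ v
  by_contra c
  push Not at c
  exact n (of_res y τ u fun x hx => by
    obtain ⟨_, rfl⟩ := c x hx
    exact map_one τ)

noncomputable def phi (G : Type) [Group G] (N : Subgroup H) [N.Normal] : G ≀ᵣ H →* (G ≀ᵣ N) ≀ᵣ (H ⧸ N) :=
  MonoidHom.mk' (fun w => ⟨fun t => ⟨fun s => w.left (t.out * s), (kk N w.right).left t⟩, w.right⟩)
    fun a b => by ext <;> simp [kk, mul_assoc]

theorem cov_wr (z : Fm Z) [Finite G] [Finite H] (cov : ∀ (V : Type) [Group V]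
    (f : G ≀ᵣ res Z H →* V), Surjective f → Z (V ≀ᵣ (H ⧸ res Z H)) → Subsingleton V) :
    ∃ ε : res Z (G ≀ᵣ H) →* G ≀ᵣ res Z H, Surjective ε := by
  refine ind (H := H) z ((res Z H).subtype.comp rightHom) ?_ rightHom (phi G _) (fun _ => rfl)
    (fun _ _ => rfl) (fun x f e => ⟨⟨fun s => (f s).left ⟨(s : H ⧸ res Z H).out⁻¹ * s,
      QuotientGroup.eq.1 (by simp)⟩, x⟩, rfl, funext fun s => RegularWreathProduct.ext
        (funext fun n => ?_) (Subtype.ext (e s).symm)⟩) cov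
  · rw [MonoidHom.range_comp, MonoidHom.range_eq_top.2 right_surj, ← MonoidHom.range_eq_map,
      range_subtype]
  · have : ((s.out * n : H) : H ⧸ res Z H) = s := by simp
    simp [phi, this]

theorem full [Fact r.Prime] (a : Fm A) (b : Fm B) (y : Fm Y) (z : Fm Z) (h : Pr A Y = Pr B Z)
    (k : Reg Y Y) (k' : Reg (Inf Y Z) Z) (t : Y T) (d : r ∣ Nat.card (res Z T)) (g : A G) :
    Sec B (G ≀ᵣ Cy r) := by
  have := a.1.1 _ g
  obtain ⟨U, _, u, v⟩ := wr_big y k G
  have ut := prod_mem y.1 u t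
  have := y.1.1 _ ut
  obtain ⟨Q, _, ⟨q1, q2⟩, q3⟩ := k' (G ≀ᵣ res Z (U × T))
  have m := prod_mem y.1 ut q1
  have := y.1.1 _ m
  obtain ⟨_, w⟩ := h.le _ _ ((v _ ((MonoidHom.fst U T).comp (MonoidHom.fst _ Q))
    (Prod.fst_surjective.comp Prod.fst_surjective) m A a).2 g)
  have l : res Z ((U × T) × Q) ≤ (MonoidHom.snd _ Q).ker :=
    res_le z.1 ⟨_, _, _, Prod.snd_surjective, rfl, q2⟩
  have rm := res_map z (MonoidHom.fst (U × T) Q) Prod.fst_surjective
  let i : res Z ((U × T) × Q) ≃* res Z (U × T) := MulEquiv.ofBijective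
    (((MonoidHom.fst _ Q).comp (res Z ((U × T) × Q)).subtype).codRestrict _ fun x => rm.ge ⟨x, x.2, rfl⟩)
    ⟨(injective_iff_map_eq_one _).2 fun x e => Subtype.ext (Prod.ext (congrArg Subtype.val e) (l x.2)),
      fun x => (rm.le x.2).elim fun y e => ⟨⟨y, e.1⟩, Subtype.ext e.2⟩⟩
  obtain ⟨ε, hε⟩ := cov_wr (G := G) (H := (U × T) × Q) z
    fun V _ f hf => q3 _ (QuotientGroup.lift _ _ l) (QuotientGroup.lift_surjective_of_surjective _ _
      Prod.snd_surjective _) ⟨y.1.2.2.1 _ _ m, (res_fq z _).quot z.1 _ le_rfl⟩ V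
      (f.comp (congr (MulEquiv.refl G) i.symm).toMonoidHom) (hf.comp (MulEquiv.surjective _))
  rw [res_map z ((MonoidHom.snd U T).comp (MonoidHom.fst _ Q))
    (Prod.snd_surjective.comp Prod.fst_surjective)] at d
  obtain ⟨c, hc⟩ := cy_hom (d.trans (card_dvd_of_surjective _ (MonoidHom.subgroupMap_surjective _ _)))
  exact sect ⊤ (b.1.2.1 _ _ ⟨topEquiv.symm⟩ (surj b.1 ε hε w)) c hc (fun d => ⟨inl (c d), trivial, rfl⟩)
    fun f => ⟨⟨extend c f 1, 1⟩, trivial, rfl, hc.extend_apply _ _⟩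

theorem grow_np [Fact r.Prime] (a : Fm A) (s : Le A (Star e)) (he : 0 < e)
    (h : ∀ (G : Type) [Group G], A G → Sec A (G ≀ᵣ Cy r)) : A = Np r := by
  classical
  have hr : r.Prime := Fact.out
  have st : ∀ (G : Type) [Group G], Sec A G → Star e G := fun G _ ⟨K, D, _, _, i, f, u, v, w⟩ =>
    surj star_fm.1 f w (star_inj (s K u) i v)
  have o : orderOf (Multiplicative.ofAdd (1 : ZMod r)) = r := by simp
  have l : Le A (Np r) := fun G _ g => by
    have k : ∀ n, ∃ (H : Type) (_ : Group H) (u : H), Sec A H ∧ (IsPGroup r H → IsPGroup r G) ∧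
        pel r u ∧ ∀ P : Subgroup H, P.Normal → IsPGroup r P → ∀ m, ¬ r ^ n ∣ m → u ^ m ∈ P →
        IsPGroup r G := fun n => by
      induction n with
      | zero => exact ⟨G, _, 1, Sec.of g, id, ⟨0, by simp⟩, fun _ _ _ m c => absurd (by simp) c⟩
      | succ n ih =>
        obtain ⟨H, _, u, h1, h2, h3, h4⟩ := ih
        have := (st H h1).1
        refine ⟨H ≀ᵣ Cy r, _, ⟨Pi.mulSingle 1 u, .ofAdd 1⟩, h1.wr h, fun c => h2
          (c.of_injective _ cs_inj), ?_, fun P _ c m d f => ?_⟩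
        · convert pel.map (wr_pg (T := Cy r) (pgrp fun x => h3.zp) (IsPGroup.of_card (n := 1) (by simp))
            ⟨Pi.mulSingle 1 ⟨u, mem_zpowers u⟩, .ofAdd 1⟩) (wmap (zpowers u).subtype (Cy r)) using 1
          exact RegularWreathProduct.ext (funext fun t => (Pi.apply_mulSingle
            (fun _ => (zpowers u).subtype) (fun _ => map_one _) 1 ⟨u, mem_zpowers u⟩ t).symm) rfl
        let P' := P.comap (stEq (K := (⊤ : Subgroup H)) rfl (Cy r)).toMonoidHom
        have c' : IsPGroup r (ev (P' ⊓ (rt ⊤ (Cy r)).ker) inf_le_right 1).range :=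
          ((c.comap_of_injective _ (MulEquiv.injective _)).to_inf_left).of_surjective _
            (MonoidHom.rangeRestrict_surjective _)
        by_cases j : r ∣ m
        · obtain ⟨j, rfl⟩ := j
          have e1 : ((⟨Pi.mulSingle 1 u, .ofAdd 1⟩ : H ≀ᵣ Cy r) ^ r).right = 1 :=
            (map_pow rightHom _ _).trans (orderOf_dvd_iff_pow_eq_one.1 o.dvd)
          have e2 := pw_left u (Multiplicative.ofAdd (1 : ZMod r)) (r - 1) (by have := hr.pos; omega)
          rw [Nat.sub_add_cancel hr.pos] at e2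
          rw [pow_mul] at f
          generalize (⟨Pi.mulSingle 1 u, .ofAdd 1⟩ : H ≀ᵣ Cy r) ^ r = b at *
          refine h4 _ ⟨?_⟩ c' j (fun i => d (pow_succ' r n ▸ mul_dvd_mul_left r i))
            ⟨⟨⟨b ^ j, mem_top' _⟩, f, (map_pow rightHom b j).trans (by simp [e1])⟩,
              (map_pow (ev (rt ⊤ (Cy r)).ker le_rfl 1) ⟨⟨b, mem_top' _⟩, e1⟩ j).trans
                (congrArg (· ^ j) e2)⟩
          rintro _ ⟨x, rfl⟩ g
          refine ⟨⟨_, Normal.conj_mem inferInstance _ x.2 (cst _ _ (g, 1))⟩, ?_⟩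
          simp [ev, cst]
        · refine h2 fun x => pel.of_mem c' (comm_el (w := ⟨_, mem_top' _⟩) f (fun e => j ?_) trivial)
          exact o ▸ orderOf_dvd_of_pow_eq_one ((map_pow rightHom
            (⟨Pi.mulSingle 1 u, .ofAdd 1⟩ : H ≀ᵣ Cy r) m).symm.trans e)
    obtain ⟨H, _, u, h1, -, h3, h4⟩ := k e
    obtain ⟨P, c1, c2, c3⟩ := (st H h1).2 r hr
    exact ⟨a.1.1 _ g, h4 P c1 c2 e (Nat.not_dvd_of_pos_of_lt he (Nat.lt_pow_self hr.one_lt))
      (c3 u (h3.zp (npow_mem_zpowers u e)))⟩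
  refine cls_ext l fun G _ g => ?_
  induction hn : Nat.card G using Nat.strong_induction_on generalizing G with
  | _ n ih =>
  obtain ⟨_, g⟩ := g
  rcases subsingleton_or_nontrivial G with _ | _
  · exact a.triv
  obtain ⟨M, _, -, m⟩ := simple_quot (R := (⊥ : Subgroup G)) bot_ne_top
  have e1 := el_min (g.to_quotient M) ⟨inferInstance, top_ne_bot, fun K h _ n =>
    h.eq_bot_or_eq_top.resolve_left n⟩
  obtain ⟨x, hx⟩ := exists_ne (1 : G ⧸ M)
  have e2 : zpowers x = ⊤ := (Normal.eq_bot_or_eq_top ⟨fun n hn g => by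
    have : g * n = n * g := congrArg Subtype.val (e1.2.1 ⟨g, trivial⟩ ⟨n, trivial⟩)
    rwa [this, mul_inv_cancel_right]⟩).resolve_left (mt zpowers_eq_bot.1 hx)
  have e3 : Nat.card (G ⧸ M) = r := by
    rw [← card_top, ← e2, Nat.card_zpowers,
      orderOf_eq_prime (congrArg Subtype.val (e1.2.2 ⟨x, trivial⟩)) hx]
  obtain ⟨K, D, _, _, i, f, u, v, w⟩ := (h M (ih _ (hn ▸ Fit.card_lt (QuotientGroup.nontrivial_iff.1
    inferInstance)) M _ ⟨inferInstance, g.to_subgroup M⟩ rfl)).inj ((congr (MulEquiv.refl M) (mulEquivOfPrimeCardEq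
      e3 (by simp))).toMonoidHom.comp (kk M)) ((MulEquiv.injective _).comp (kk_inj M))
  have := (l K u).1
  have := (l K u).2.isNilpotent
  exact surj a.1 f w (nil_inj a.1 u i v)

def Deg (Y Z : Cls) : Prop := ∀ (T : Type) [Group T], Y T → ∀ n ∈ res Z T, n ≠ 1 →
  ∀ t ∈ res Z T, t ∈ zpowers n

theorem Deg.two (d : Deg Y Z) (y : Fm Y) (t : Y T) {x : T} (a : (x, 1) ∈ res Z (T × T))
    (b : (1, x) ∈ res Z (T × T)) : x = 1 := by
  by_contra c
  obtain ⟨k, e⟩ := d _ (prod_mem y.1 t t) _ a (fun e => c (congrArg Prod.fst e)) _ b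
  exact c (by simpa using (congrArg Prod.snd e).symm)

theorem Deg.cen (d : Deg Y Z) (y : Fm Y) (z : Fm Z) (t : Y T) {n : T} (h : n ∈ res Z T) (g : T) :
    n * g = g * n := by
  have := y.1.1 _ t
  obtain ⟨a, a1, a2⟩ := (res_map z (MonoidHom.fst T T) Prod.fst_surjective).le h
  obtain ⟨b, b1, b2⟩ := (res_map z (MonoidHom.snd T T) Prod.snd_surjective).le h
  refine commutatorElement_eq_one_iff_mul_comm.1 (d.two y t ?_ ?_)
  · convert mul_mem a1 (Normal.conj_mem inferInstance _ (inv_mem a1) (g, 1)) using 1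
    ext <;> simp [← a2, commutatorElement_def, mul_assoc]
  · convert mul_mem b1 (Normal.conj_mem inferInstance _ (inv_mem b1) (1, g)) using 1
    ext <;> simp [← b2, commutatorElement_def, mul_assoc]

theorem pw_supp [DecidableEq T] (x : G) (g : T) (j : ℕ) {t : T} (h : t ∉ zpowers g) :
    ((⟨Pi.mulSingle 1 x, g⟩ : G ≀ᵣ T) ^ j).left t = 1 := by
  induction j generalizing t with
  | zero => rfl
  | succ j ih =>
    rw [pow_succ', mul_left, Pi.mul_apply, ih fun c => h (by simpa using mul_mem (mem_zpowers g) c),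
      mul_one]
    exact Pi.mulSingle_eq_of_ne (M := fun _ => G) (fun e : t = 1 => h (e ▸ one_mem _)) x

theorem inf_fm (y : Fm Y) (z : Fm Z) : Fm (Inf Y Z) := ⟨inf_form y.1 z.1, y.2, z.2⟩

theorem deg_reg (b : Fm B) (y : Fm Y) (z : Fm Z) (s : Le (Pr B Z) (Star e)) (he : 0 < e)
    (l : Le Y (Pr B Z)) (d1 : Deg Y Z) (d2 : Deg Z Y) (t : Y T) (n : ¬ Z T) : Reg (Inf Y Z) Z := by
  classical
  have j := inf_fm y z
  have := y.1.1 _ t
  obtain ⟨Q, _, q1, v, hv⟩ : ∃ (Q : Type) (_ : Group Q), Inf Y Z Q ∧ ∃ v : Q, v ≠ 1 := by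
    by_contra c
    push Not at c
    have k := fun x => (QuotientGroup.eq_one_iff x).1 (c _ _ ⟨y.1.2.2.1 _ (res Z (T × T))
      (prod_mem y.1 t t), (res_fq z _).quot z.1 _ le_rfl⟩ _)
    have : Subsingleton T := subsingleton_of_forall_eq 1 fun x => d1.two y t (k _) (k _)
    exact n z.triv
  refine reg_of j z fun G _ _ _ c => ?_
  obtain ⟨q, T₀, _, hq, g, t0, bg⟩ := cof_el j z ((le_pr b z.1).trans s) he c fun U _ g u _ => by
    obtain ⟨V, _, τ, k1, k2, k3⟩ := c _ (prod_mem j.1 u q1)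
    obtain ⟨g', e1⟩ := k1 (g, 1)
    obtain ⟨v', e2⟩ := k1 (1, v)
    obtain ⟨x, hx⟩ := exists_ne (1 : G)
    have := z.1.1 _ k3
    have := y.1.1 _ k2.1
    have r1 : res Y (G ≀ᵣ V) ≤ rightHom.ker := res_le y.1 ⟨_, _, rightHom, right_surj, rfl, k2.1⟩
    let w : G ≀ᵣ V := ⟨Pi.mulSingle 1 x, g'⟩
    refine ⟨_, _, (w : _ ⧸ res Y (G ≀ᵣ V)), ⟨(res_fq y _).quot y.1 _ le_rfl, z.1.2.2.1 _ _ k3⟩,
      not_le.1 fun o => hx ?_⟩
    have o1 : orderOf g ∣ orderOf g' := by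
      simpa [e1] using orderOf_map_dvd ((MonoidHom.fst _ _).comp τ) g'
    have o2 := orderOf_map_dvd (QuotientGroup.lift _ rightHom r1) w
    have o3 := orderOf_pos g'
    have o4 : orderOf (w : _ ⧸ res Y (G ≀ᵣ V)) = orderOf g' :=
      le_antisymm (o.trans (Nat.le_of_dvd o3 o1)) (Nat.le_of_dvd (orderOf_pos _) o2)
    have m : w ^ orderOf g' ∈ res Y (G ≀ᵣ V) :=
      (QuotientGroup.eq_one_iff _).1 (o4 ▸ pow_orderOf_eq_one (w : _ ⧸ res Y (G ≀ᵣ V)))
    have e3 := congrFun (congrArg RegularWreathProduct.left (d2.cen z y k3 m (inl v'))) 1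
    have e4 := pw_left x g' (orderOf g' - 1) (by omega)
    rw [Nat.sub_add_cancel o3] at e4
    have e5 := pw_supp x g' (orderOf g') (t := v'⁻¹) fun ⟨k, e⟩ => hv (by
      simpa [e1, e2] using congrArg (fun a => (τ a).2) e)
    simpa [w, e4, e5] using e3
  have := Fact.mk hq
  have k := claimA hq b z s t0.2 bg (l _ t)
  obtain ⟨U, _, τ, k1, -, k3⟩ := c (T ⧸ res Z T) ⟨y.1.2.2.1 _ _ t, (res_fq z _).quot z.1 _ le_rfl⟩
  have : Nontrivial (res Z T) := (nontrivial_iff_ne_bot _).2 fun c =>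
    n (of_res z (MonoidHom.id T) surjective_id (c.le.trans bot_le))
  obtain ⟨i, i1, i2⟩ := k.nontrivial_iff_card.1 this
  obtain ⟨x, x1, x2, x3⟩ := cauchy (p := q) (i2 ▸ dvd_pow_self q i1.ne')
  refine n (el_ext z g k3 _ ⟨inferInstance, fun a b => Subtype.ext (d1.cen y z t a.2 b), fun a =>
    Subtype.ext ?_⟩ τ k1)
  obtain ⟨m, e⟩ := d1 T t x x1 x2 a a.2
  rw [coe_pow, ← e, ← zpow_natCast, ← zpow_mul, mul_comm, zpow_mul, zpow_natCast, x3, one_zpow]
  rfl

theorem nondeg (a : Fm A) (y : Fm Y) (z : Fm Z) (h : Pr A Y = Pr B Z) (k : Reg Y Y) (d : ¬ Deg Y Z) :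
    ∃ r : ℕ, r.Prime ∧ ∀ (G : Type) [Group G], A G → Sec B (G ≀ᵣ Cy r) := by
  simp only [Deg, not_forall] at d
  obtain ⟨T, _, t, n, n1, n2, u, u1, u2⟩ := d
  have := y.1.1 _ t
  obtain ⟨r, hr, d⟩ := Nat.exists_prime_and_dvd ((one_lt_card_iff_ne_bot (res Z T)).2
    fun e => n2 (e.le n1)).ne'
  have := Fact.mk hr
  refine ⟨r, hr, fun G _ g => step a y z h k t (fun T' _ τ v w => ?_) g⟩
  have := y.1.1 _ w
  rw [res_map z τ v] at d n1 u1
  obtain ⟨c, hc⟩ := cy_hom (d.trans (card_dvd_of_surjective _ (MonoidHom.subgroupMap_surjective _ _)))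
  refine ⟨(Subgroup.subtype _).comp c, (subtype_injective _).comp hc, fun a => (c a).2, ?_⟩
  by_contra e
  push Not at e
  obtain ⟨n, n1, rfl⟩ := n1
  obtain ⟨u, u1, rfl⟩ := u1
  obtain ⟨n, rfl⟩ := e n n1
  obtain ⟨u, rfl⟩ := e u u1
  obtain ⟨i, rfl⟩ := mem_zpowers_of_prime_card (p := r) (g := n) (by simp) (by
    rintro rfl
    exact n2 (by simp)) (g' := u)
  exact u2 ⟨i, by simp⟩

def In (A : Cls) : Prop := Fm A ∧ A ≠ Triv ∧ ∀ B C, Fm B → Fm C → A = Pr B C → B = Triv ∨ C = Triv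

theorem In.not (a : In A) (s : Le A (Star e)) (he : 0 < e) (hr : r.Prime)
    (h : ∀ (G : Type) [Group G], A G → Sec A (G ≀ᵣ Cy r)) : False := by
  have := Fact.mk hr
  obtain rfl := grow_np a.1 s he h
  refine a.2.1 ((a.2.2 _ _ a.1 a.1 (cls_ext (le_pr a.1 a.1.1) ?_)).elim id id)
  rintro G _ ⟨_, -, g⟩
  have := ((res_fq a.1 G).quot a.1.1 _ le_rfl).2
  exact ⟨‹_›, (((this.to_subgroup ⊤).comap_of_ker_isPGroup (QuotientGroup.mk' _) (by
    rwa [QuotientGroup.ker_mk'])).to_le le_top).of_equiv topEquiv⟩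

theorem left_star (a : Fm A) (y : Fm Y) (k : Reg Y Y) (s : Le (Pr A Y) (Star e)) : Le A (Star e) :=
  fun G _ g => by
  have := a.1.1 _ g
  obtain ⟨T, _, u, v⟩ := wr_big y k G
  exact star_inj (s _ ((v T (MonoidHom.id T) surjective_id u A a).2 g)) _ cs_inj

theorem prime_res (y : Fm Y) (z : Fm Z) (t : Y T) (n : ¬ Z T) :
    ∃ r : ℕ, r.Prime ∧ r ∣ Nat.card (res Z T) :=
  have := y.1.1 _ t
  Nat.exists_prime_and_dvd ((one_lt_card_iff_ne_bot (res Z T)).2
    fun c => n (of_res z (MonoidHom.id T) surjective_id (c.le.trans bot_le))).ne'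

theorem tail_le (a : In A) (b : In B) (y : Fm Y) (z : Fm Z) (h : Pr A Y = Pr B Z) (k : Reg Y Y)
    (k' : Reg Z Z) (s : Le (Pr A Y) (Star e)) (he : 0 < e) : Le Y Z := fun T _ t => by
  by_contra n
  have sa := left_star a.1 y k s
  have sb := left_star b.1 z k' (h ▸ s)
  obtain ⟨r, hr, d⟩ := prime_res y z t n
  have := Fact.mk hr
  by_cases l : Le Z Y
  · obtain ⟨V, v, e⟩ := comp a.1 b.1 y z k' l h
    rw [(b.2.2 _ _ a.1 v e).resolve_left a.2.1, pr_triv a.1] at e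
    subst e
    exact a.not sa he hr fun G _ g => full a.1 a.1 y z h k ((cls_ext (fun _ _ h => h.2)
      fun G _ g => ⟨l G g, g⟩ : Inf Y Z = Z).symm ▸ k') t d g
  obtain ⟨T', _, t', n'⟩ : ∃ (H : Type) (_ : Group H), Z H ∧ ¬ Y H := by simpa [Le] using l
  have ba := fun (G : Type) [Group G] => back (G := G) b.1 y z h k' t' n'
  by_cases d1 : Deg Y Z
  · by_cases d2 : Deg Z Y
    · exact a.not sa he hr fun G _ g => (full a.1 b.1 y z h k (deg_reg b.1 y z (h ▸ s) he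
        (h ▸ le_pr a.1 y.1) d1 d2 t n) t d g).trans ba
    · obtain ⟨r, hr, m⟩ := nondeg b.1 z y h.symm k' d2
      exact b.not sb he hr fun G _ g => (m G g).trans fun G _ => back a.1 z y h.symm k t n
  · obtain ⟨r, hr, m⟩ := nondeg a.1 y z h k d1
    exact a.not sa he hr fun G _ g => (m G g).trans ba

theorem prd_reg (he : 0 < e) {l : List Cls} (h : ∀ X ∈ l, In X) (s : Le (prd l) (Star e)) :
    Reg (prd l) (prd l) := by
  refine reg_pp (prd_fm fun X hX => (h X hX).1) s he ?_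
  induction l with
  | nil => exact fun C c e => (pr_triv c).symm.trans e
  | cons A l ih =>
    intro C c k
    have a := h A (by simp)
    have h' : ∀ X ∈ l, In X := fun X hX => h X (by simp [hX])
    have f := prd_fm fun X hX => (h' X hX).1
    have s' := (le_pr a.1 f.1).trans s
    have r := reg_pp f s' he (ih h' s')
    have k' := (pr_assoc c a.1 f).trans k
    exact (a.2.2 _ _ c a.1 (cls_ext (cancel a.1 (pr_fm c a.1) f r k'.ge)
      (cancel (pr_fm c a.1) a.1 f r k'.le))).resolve_right a.2.1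

theorem uniq_fact (he : 0 < e) {l m : List Cls} (h : ∀ X ∈ l, In X) (k : ∀ X ∈ m, In X)
    (s : Le (prd l) (Star e)) (c : prd l = prd m) : l = m := by
  have t : ∀ (A : Cls) (l : List Cls), (∀ X ∈ A :: l, In X) → prd (A :: l) ≠ Triv := fun A l h c => by
    obtain ⟨G, _, g, u, v⟩ := grow (l := A :: l) fun X hX => ⟨(h X hX).1, (h X hX).2.1⟩
    have : Subsingleton G := c.le _ _ u
    simp [Subsingleton.elim g 1] at v
  induction l generalizing m with
  | nil =>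
    obtain _ | ⟨B, m⟩ := m
    · rfl
    · exact absurd c.symm (t B m k)
  | cons A l ih =>
    obtain _ | ⟨B, m⟩ := m
    · exact absurd c (t A l h)
    have a := h A (by simp)
    have b := k B (by simp)
    have h' : ∀ X ∈ l, In X := fun X hX => h X (by simp [hX])
    have k' : ∀ X ∈ m, In X := fun X hX => k X (by simp [hX])
    have y := prd_fm fun X hX => (h' X hX).1
    have z := prd_fm fun X hX => (k' X hX).1
    have s1 := (le_pr a.1 y.1).trans s
    have s2 : Le (prd (B :: m)) (Star e) := c ▸ s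
    have r1 := prd_reg he h' s1
    have r2 := prd_reg he k' ((le_pr b.1 z.1).trans s2)
    obtain rfl := ih h' k' s1 (cls_ext (tail_le a b y z c r1 r2 s he)
      (tail_le b a z y c.symm r2 r1 s2 he))
    rw [cls_ext (cancel a.1 b.1 y r1 c.le) (cancel b.1 a.1 y r1 c.ge)]

end Pool.Agent.H22.GLS
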