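import Mathlib

namespace Pool.Agent.H22.Fir

open FreeAlgebra

variable {k : Type} [Field k] {Y : Type}

theorem ex_der (β : FreeAlgebra k Y →ₐ[k] FreeAlgebra k Y) (d : Y → FreeAlgebra k Y) :
    ∃ δ : FreeAlgebra k Y →ₗ[k] FreeAlgebra k Y, (∀ x, δ (ι k x) = d x) ∧ δ 1 = 0 ∧
      ∀ a b, δ (a * b) = a * δ b + δ a * β b := by
  let ρ : FreeAlgebra k Y →ₐ[k] Matrix (Fin 2) (Fin 2) (FreeAlgebra k Y) :=
    lift k fun x => !![ι k x, d x; 0, β (ι k x)]
  have h : ∀ a, ρ a 0 0 = a ∧ ρ a 1 0 = 0 ∧ ρ a 1 1 = β a := fun a => by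
    induction a using FreeAlgebra.induction with
    | grade0 r => simp [Matrix.algebraMap_matrix_apply]
    | grade1 x => simp [ρ]
    | mul a b u v => simp [Matrix.mul_apply, u, v]
    | add a b u v => simp [u, v]
  refine ⟨Matrix.entryLinearMap k _ 0 1 ∘ₗ ρ.toLinearMap, fun x => by simp [ρ], by simp, fun a b => ?_⟩
  simp [Matrix.mul_apply, h]

open Classical in
theorem ex_dd : ∃ δ : Y → FreeAlgebra k Y →ₗ[k] FreeAlgebra k Y,
    (∀ y x, δ y (ι k x) = if x = y then 1 else 0) ∧ (∀ y, δ y 1 = 0) ∧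
      ∀ y a b, δ y (a * b) = a * δ y b + algebraMapInv b • δ y a := by
  choose δ a b c using fun y : Y => ex_der ((Algebra.ofId k (FreeAlgebra k Y)).comp algebraMapInv)
    fun x => if x = y then 1 else 0
  exact ⟨δ, a, b, fun y u v => by rw [c, Algebra.smul_def, Algebra.commutes]; rfl⟩

noncomputable def dd : Y → FreeAlgebra k Y →ₗ[k] FreeAlgebra k Y := ex_dd.choose

theorem dd_mul (y : Y) (a b : FreeAlgebra k Y) :
    dd y (a * b) = a * dd y b + algebraMapInv b • dd y a := ex_dd.choose_spec.2.2 y a b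

theorem dd_c (y : Y) (c : k) : dd y (algebraMap k (FreeAlgebra k Y) c) = 0 := by
  rw [Algebra.algebraMap_eq_smul_one, map_smul, show dd y 1 = 0 from ex_dd.choose_spec.2.1 y, smul_zero]

theorem dec (a : FreeAlgebra k Y) : ∃ s : Finset Y, ∀ t, s ⊆ t →
    a = algebraMap k _ (algebraMapInv a) + ∑ y ∈ t, dd y a * ι k y := by
  classical
  induction a using FreeAlgebra.induction with
  | grade0 r => exact ⟨∅, fun t _ => by simp [dd_c]⟩
  | grade1 x =>
    refine ⟨{x}, fun t ht => ?_⟩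
    have : ∀ y, dd y (ι k x) = if x = y then 1 else 0 := fun y => by
      convert ex_dd.choose_spec.1 y x
      rfl
    simp [this, algebraMapInv, Finset.singleton_subset_iff.1 ht]
  | mul a b u v =>
    obtain ⟨s, u⟩ := u
    obtain ⟨s', v⟩ := v
    refine ⟨s ∪ s', fun t ht => ?_⟩
    have u := u t (Finset.subset_union_left.trans ht)
    have v := v t (Finset.subset_union_right.trans ht)
    simp only [dd_mul, add_mul, Finset.sum_add_distrib, mul_assoc, ← Finset.mul_sum, smul_mul_assoc,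
      ← Finset.smul_sum, map_mul]
    rw [← sub_eq_iff_eq_add'.2 u, ← sub_eq_iff_eq_add'.2 v, Algebra.smul_def, mul_sub, mul_sub,
      Algebra.commutes _ a, Algebra.commutes (algebraMapInv b)]
    abel
  | add a b u v =>
    obtain ⟨s, u⟩ := u
    obtain ⟨s', v⟩ := v
    refine ⟨s ∪ s', fun t ht => ?_⟩
    simp only [map_add, add_mul, Finset.sum_add_distrib]
    rw [add_add_add_comm, ← u t (Finset.subset_union_left.trans ht),
      ← v t (Finset.subset_union_right.trans ht)]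

noncomputable def Fl : ℕ → Submodule k (FreeAlgebra k Y)
  | 0 => ⊥
  | n + 1 => ⨅ y, (Fl n).comap (dd y)

theorem mem_s {n : ℕ} {a : FreeAlgebra k Y} : a ∈ Fl (n + 1) ↔ ∀ y, dd y a ∈ Fl n := by
  simp [Fl]

theorem fl_one {a : FreeAlgebra k Y} (h : a ∈ Fl 1) : a = algebraMap k _ (algebraMapInv a) := by
  obtain ⟨s, e⟩ := dec a
  have : ∀ y, dd y a = 0 := mem_s.1 h
  simpa [this] using e s le_rfl

theorem fl_mono : Monotone (Fl : ℕ → Submodule k (FreeAlgebra k Y)) :=
  monotone_nat_of_le_succ fun n => by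
    induction n with
    | zero => exact bot_le
    | succ n ih => exact fun a h => mem_s.2 fun y => ih (mem_s.1 h y)

theorem fl_mul {n : ℕ} {a : FreeAlgebra k Y} (ha : a ∈ Fl (n + 1)) (m : ℕ) :
    ∀ b ∈ Fl m, a * b ∈ Fl (n + m) := by
  induction m with
  | zero => exact fun b hb => by rw [show b = 0 from hb, mul_zero]; exact zero_mem _
  | succ m ih =>
    refine fun b hb => mem_s.2 fun y => ?_
    rw [dd_mul]
    exact add_mem (ih _ (mem_s.1 hb y)) (Submodule.smul_mem _ _ (fl_mono (n.le_add_right m) (mem_s.1 ha y)))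

theorem fl_c (c : k) : algebraMap k (FreeAlgebra k Y) c ∈ Fl 1 := mem_s.2 fun y => dd_c y c

theorem fl_ex (a : FreeAlgebra k Y) : ∃ n, a ∈ Fl n := by
  induction a using FreeAlgebra.induction with
  | grade0 r => exact ⟨1, fl_c r⟩
  | grade1 x =>
    refine ⟨2, mem_s.2 fun y => ?_⟩
    rw [show dd y (ι k x) = _ from ex_dd.choose_spec.1 y x]
    split_ifs
    · simpa using fl_c (Y := Y) (1 : k)
    · exact zero_mem _
  | mul a b u v => exact u.elim fun n u => v.elim fun m v => ⟨_, fl_mul (fl_mono n.le_succ u) m b v⟩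
  | add a b u v =>
    exact u.elim fun n u => v.elim fun m v =>
      ⟨n + m, add_mem (fl_mono (by omega) u) (fl_mono (by omega) v)⟩

theorem fl_exact {t : FreeAlgebra k Y} (h : t ≠ 0) : ∃ m, t ∈ Fl (m + 1) ∧ t ∉ Fl m := by
  obtain ⟨n, hn⟩ := fl_ex t
  induction n with
  | zero => exact (h hn).elim
  | succ n ih => exact by_contra fun z => z (ih (by_contra fun a => z ⟨n, hn, a⟩))

theorem wa {n : ℕ} {p r : FreeAlgebra k Y} (hp : p ∈ Fl (n + 1)) (hr : r ∈ Fl (n + 1)) (m : ℕ) :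
    ∀ t q, t ∈ Fl (m + 1) → t ∉ Fl m → p * t - r * q ∈ Fl (n + m) → ∃ s, p - r * s ∈ Fl n := by
  induction m with
  | zero =>
    intro t q a b c
    have e := fl_one a
    generalize algebraMapInv t = x at e
    subst e
    have x0 : x ≠ 0 := fun z => b (by simp [z])
    refine ⟨x⁻¹ • q, ?_⟩
    have := Submodule.smul_mem _ x⁻¹ c
    rwa [← Algebra.commutes, ← Algebra.smul_def, smul_sub, inv_smul_smul₀ x0, ← mul_smul_comm] at this
  | succ m ih =>
    intro t q a b c
    obtain ⟨y, hy⟩ := not_forall.1 (mt mem_s.2 b)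
    refine ih _ (dd y q) (mem_s.1 a y) hy ?_
    have := add_mem (sub_mem (mem_s.1 c y) (Submodule.smul_mem _ (algebraMapInv t)
      (fl_mono (n.le_add_right m) (mem_s.1 hp y)))) (Submodule.smul_mem _ (algebraMapInv q)
      (fl_mono (n.le_add_right m) (mem_s.1 hr y)))
    rw [map_sub, dd_mul, dd_mul] at this
    rwa [show ∀ a b c d : FreeAlgebra k Y, a + b - (c + d) - b + d = a - c from fun _ _ _ _ => by abel] at this

theorem gcd2 (N : ℕ) : ∀ (p r t q : FreeAlgebra k Y) (i j : ℕ), i + j ≤ N → p ∈ Fl i → r ∈ Fl j →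
    p * t = r * q → t ≠ 0 ∨ q ≠ 0 → ∃ d, (∃ x y, d = p * x + r * y) ∧ d ∣ p ∧ d ∣ r := by
  induction N with
  | zero =>
    intro p r t q i j h hp hr _ _
    rw [show i = 0 by omega] at hp
    rw [show p = 0 from hp]
    exact ⟨r, ⟨0, 1, by simp⟩, by simp, dvd_rfl⟩
  | succ N ih =>
    have key : ∀ (p r t q : FreeAlgebra k Y) (i j : ℕ), j ≤ i → i + j ≤ N + 1 → p ∈ Fl i → r ∈ Fl j →
        p * t = r * q → t ≠ 0 ∨ q ≠ 0 → ∃ d, (∃ x y, d = p * x + r * y) ∧ d ∣ p ∧ d ∣ r := by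
      intro p r t q i j l h hp hr e z
      rcases eq_or_ne r 0 with rfl | r0
      · exact ⟨p, ⟨1, 0, by simp⟩, dvd_rfl, by simp⟩
      have t0 : t ≠ 0 := fun a => by simp [a, r0, eq_comm (a := (0 : FreeAlgebra k Y))] at e z; exact z e
      rcases i with _ | n
      · exact (r0 (by rwa [show j = 0 by omega] at hr)).elim
      obtain ⟨m, a, b⟩ := fl_exact t0
      obtain ⟨s, hs⟩ := wa hp (fl_mono l hr) m t q a b (by rw [e, sub_self]; exact zero_mem _)
      obtain ⟨d, ⟨x, y, d1⟩, d2, d3⟩ := ih _ r t (q - s * t) n j (by omega) hs hr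
        (by rw [sub_mul, e, mul_sub, mul_assoc]) (.inl t0)
      refine ⟨d, ⟨x, y - s * x, by rw [d1]; noncomm_ring⟩, ?_, d3⟩
      simpa using dvd_add d2 (d3.mul_right s)
    intro p r t q i j h hp hr e z
    rcases le_total j i with l | l
    · exact key p r t q i j l h hp hr e z
    · obtain ⟨d, ⟨x, y, d1⟩, d2, d3⟩ := key r p q t j i l (by omega) hr hp e.symm z.symm
      exact ⟨d, ⟨y, x, d1.trans (add_comm _ _)⟩, d3, d2⟩

theorem unit_c {g h : FreeAlgebra k Y} (e : g * h = 1) : g = algebraMap k _ (algebraMapInv g) := by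
  obtain ⟨m, a, b⟩ := fl_exact (right_ne_zero_of_mul_eq_one e)
  obtain ⟨n, hn⟩ := fl_ex g
  refine fl_one ?_
  induction n with
  | zero => exact fl_mono zero_le_one hn
  | succ n ih =>
    rcases n with _ | n
    · exact hn
    obtain ⟨s, hs⟩ := wa hn (zero_mem _) m h 0 a b (by
      simpa [e] using fl_mono (by omega) (fl_c (Y := Y) (1 : k)))
    exact ih (by simpa using hs)

end Pool.Agent.H22.Fir
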