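import Pool.Agent.H22.MaxP

namespace Pool.Agent.H22.Fit

open Subgroup Function Pool.Agent.H22.Syl
open scoped commutatorElement

abbrev Cls := (G : Type) → [Group G] → Prop

structure IsFit (F : Cls) : Prop where
  fin : ∀ (G : Type) [Group G], F G → Finite G ∧ Group.IsSolvable G
  one : F Unit
  iso : ∀ (G H : Type) [Group G] [Group H], (G ≃* H) → F G → F H
  sn : ∀ (G : Type) [Group G] (N : Subgroup G), N.Normal → F G → F N
  n0 : ∀ (G : Type) [Group G] [Finite G] (N M : Subgroup G), N.Normal → M.Normal → F N → F M →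
    F ↥(N ⊔ M)

variable {F : Cls} {G H : Type} [Group G] [Group H]

theorem IsFit.range (hF : IsFit F) (φ : G →* H) (hφ : Injective φ) (h : F G) : F φ.range :=
  hF.iso _ _ (MonoidHom.ofInjective hφ) h

theorem IsFit.of_range (hF : IsFit F) (φ : G →* H) (hφ : Injective φ) (hn : φ.range.Normal)
    (h : F H) : F G :=
  hF.iso _ _ (MonoidHom.ofInjective hφ).symm (hF.sn _ _ hn h)

theorem IsFit.of_top (hF : IsFit F) {K : Subgroup G} (e : K = ⊤) (h : F K) : F G :=
  hF.iso _ _ topEquiv (e ▸ h)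

theorem IsFit.triv (hF : IsFit F) [Subsingleton G] : F G :=
  have : Unique G := uniqueOfSubsingleton 1
  hF.iso _ _ MulEquiv.ofUnique hF.one

theorem IsFit.le (hF : IsFit F) {N K : Subgroup G} (h : N ≤ K) (hn : (N.subgroupOf K).Normal)
    (hK : F K) : F N :=
  hF.iso _ _ (subgroupOfEquivOfLe h) (hF.sn _ _ hn hK)

theorem IsFit.sub (hF : IsFit F) {K : Subgroup G} (h : K.IsSubnormal) (hG : F G) : F K := by
  induction h with
  | top => exact hF.iso _ _ topEquiv.symm hG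
  | step H K h _ hn ih => exact hF.le h hn ih

theorem IsFit.radIn (hF : IsFit F) [Finite G] (K : Subgroup G) :
    ∃ R, R ≤ K ∧ (R.subgroupOf K).Normal ∧ F R ∧
      ∀ N, N ≤ K → (N.subgroupOf K).Normal → F N → N ≤ R := by
  obtain ⟨R, ⟨h1, h2, h3⟩, h4⟩ := (wellFounded_gt (α := Subgroup G)).has_min
    {R | R ≤ K ∧ (R.subgroupOf K).Normal ∧ F R}
    ⟨⊥, bot_le, by rw [bot_subgroupOf]; infer_instance, hF.triv⟩
  refine ⟨R, h1, h2, h3, fun N a b c => ?_⟩
  by_contra hn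
  refine h4 (R ⊔ N) ⟨sup_le h1 a, ?_, ?_⟩ (left_lt_sup.2 hn)
  · rw [subgroupOf_sup h1 a]; infer_instance
  · refine hF.iso _ _ (subgroupOfEquivOfLe (sup_le h1 a)) ?_
    rw [subgroupOf_sup h1 a]
    exact hF.n0 _ _ _ h2 b (hF.iso _ _ (subgroupOfEquivOfLe h1).symm h3)
      (hF.iso _ _ (subgroupOfEquivOfLe a).symm c)

theorem IsFit.rad (hF : IsFit F) (G : Type) [Group G] [Finite G] :
    ∃ R : Subgroup G, R.Normal ∧ F R ∧ ∀ K : Subgroup G, K.IsSubnormal → F K → K ≤ R := by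
  obtain ⟨R, -, h2, h3, h4⟩ := hF.radIn (⊤ : Subgroup G)
  refine ⟨R, ⟨fun n hn g => (normal_subgroupOf_iff le_top).1 h2 n g hn (mem_top g)⟩, h3,
    fun K hK hFK => ?_⟩
  suffices ∀ N, N ≤ K → (N.subgroupOf K).Normal → F N → N ≤ R from
    this K le_rfl (by rw [subgroupOf_self]; infer_instance) hFK
  clear hFK
  induction hK with
  | top => exact h4
  | step K L h _ hn ih =>
    intro N a b c
    obtain ⟨S, s1, s2, s3, s4⟩ := hF.radIn K
    refine (s4 N a b c).trans (ih S (s1.trans h)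
      ((normal_subgroupOf_iff (s1.trans h)).2 fun x l hx hl => ?_) s3)
    have cj := (normal_subgroupOf_iff h).1 hn
    have le : S.map (MulAut.conj l).toMonoidHom ≤ K := by
      rintro _ ⟨y, hy, rfl⟩
      exact cj y l (s1 hy) hl
    refine s4 (S.map (MulAut.conj l).toMonoidHom) le ((normal_subgroupOf_iff le).2 ?_)
      (hF.iso _ _ (S.equivMapOfInjective _ (MulAut.conj l).injective) s3) ⟨x, hx, rfl⟩
    rintro _ k ⟨y, hy, rfl⟩ hk
    refine ⟨l⁻¹ * k * l⁻¹⁻¹ * y * (l⁻¹ * k * l⁻¹⁻¹)⁻¹,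
      (normal_subgroupOf_iff s1).1 s2 y _ hy (cj k _ hk (L.inv_mem hl)), ?_⟩
    simp only [MulEquiv.toMonoidHom_eq_coe, MonoidHom.coe_coe, MulAut.conj_apply]
    group

theorem nil_sub [Finite G] [Group.IsNilpotent G] (K : Subgroup G) : K.IsSubnormal := by
  induction K using (wellFounded_gt (α := Subgroup G)).induction with
  | _ K ih =>
  by_cases h : K = ⊤
  · exact h ▸ IsSubnormal.top
  · exact IsSubnormal.step K _ le_normalizer
      (ih _ (Group.normalizerCondition_of_isNilpotent K (lt_top_iff_ne_top.2 h))) inferInstance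

theorem IsFit.prod (hF : IsFit F) (a : F G) (b : F H) : F (G × H) := by
  have := (hF.fin _ a).1
  have := (hF.fin _ b).1
  refine hF.of_top ?_ (hF.n0 _ (MonoidHom.inl G H).range (MonoidHom.inr G H).range ?_ ?_
    (hF.range _ (fun x y h => congrArg Prod.fst h) a) (hF.range _ (fun x y h => congrArg Prod.snd h) b))
  · rw [eq_top_iff]
    rintro ⟨x, y⟩ -
    rw [show ((x, y) : G × H) = (x, 1) * (1, y) by simp]
    exact mul_mem (mem_sup_left ⟨x, rfl⟩) (mem_sup_right ⟨y, rfl⟩)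
  · exact ⟨by rintro _ ⟨x, rfl⟩ g; exact ⟨g.1 * x * g.1⁻¹, by ext <;> simp⟩⟩
  · exact ⟨by rintro _ ⟨x, rfl⟩ g; exact ⟨g.2 * x * g.2⁻¹, by ext <;> simp⟩⟩

theorem normal_of_comm {K : Subgroup G} (h : ∀ a b : G, ⁅a, b⁆ ∈ K) : K.Normal :=
  ⟨fun n hn g => by simpa [commutatorElement_def] using K.mul_mem (h g n) hn⟩

/-- Subdirect products over an abelian common quotient. -/
theorem IsFit.r0 (hF : IsFit F) {A B : Type} [Group A] [Group B] (f : G →* A) (g : G →* B)
    (hf : Surjective f) (hg : Surjective g) (hi : ∀ x, f x = 1 → g x = 1 → x = 1)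
    (hc : ∀ x y : G, ∃ k, g k = 1 ∧ f k = f ⁅x, y⁆) (a : F A) (b : F B) : F G := by
  refine hF.of_range (f.prod g) ((injective_iff_map_eq_one _).2 fun x h =>
    hi x (congrArg Prod.fst h) (congrArg Prod.snd h)) (normal_of_comm ?_) (hF.prod a b)
  rintro ⟨a1, b1⟩ ⟨a2, b2⟩
  obtain ⟨x1, rfl⟩ := hf a1
  obtain ⟨x2, rfl⟩ := hf a2
  obtain ⟨y1, rfl⟩ := hg b1
  obtain ⟨y2, rfl⟩ := hg b2
  obtain ⟨k, k1, k2⟩ := hc x1 x2
  obtain ⟨l, l1, l2⟩ := hc y1 y2
  refine ⟨k * l⁻¹ * ⁅y1, y2⁆, Prod.ext ?_ ?_⟩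
  · simp [k2, l2, commutatorElement_def, mul_assoc]
  · simp [k1, l1, commutatorElement_def]

/-- The fibre product of G and H over H/V. -/
def fib (φ : G →* H) (V : Subgroup H) [V.Normal] : Subgroup (G × H) :=
  ((QuotientGroup.mk' V).comp (φ.comp (MonoidHom.fst G H))).eqLocus
    ((QuotientGroup.mk' V).comp (MonoidHom.snd G H))

theorem mem_fib {φ : G →* H} {V : Subgroup H} [V.Normal] {x : G × H} :
    x ∈ fib φ V ↔ (φ x.1)⁻¹ * x.2 ∈ V := QuotientGroup.eq

theorem IsFit.strip (hF : IsFit F) [Finite H] (φ : G →* H) (hφ : Surjective φ) (V : Subgroup H)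
    [V.Normal] (hV : ∀ a b : H, ⁅a, b⁆ ∈ V) (a : F G) (b : F (fib φ V)) : F H := by
  have := (hF.fin _ a).1
  have h1 : F (G × H) := by
    refine hF.of_top ?_ (hF.n0 _ (MonoidHom.inl G H).range (fib φ V) ?_ (normal_of_comm ?_)
      (hF.range _ (fun x y h => congrArg Prod.fst h) a) b)
    · rw [eq_top_iff]
      rintro ⟨x, y⟩ -
      obtain ⟨y, rfl⟩ := hφ y
      rw [show ((x, φ y) : G × H) = (x * y⁻¹, 1) * (y, φ y) by simp]
      exact mul_mem (mem_sup_left ⟨_, rfl⟩) (mem_sup_right (mem_fib.2 (by simp)))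
    · exact ⟨by rintro _ ⟨x, rfl⟩ g; exact ⟨g.1 * x * g.1⁻¹, by ext <;> simp⟩⟩
    · intro a b
      refine mem_fib.2 (V.mul_mem (V.inv_mem ?_) (hV a.2 b.2))
      have := hV (φ a.1) (φ b.1)
      rwa [← map_commutatorElement] at this
  exact hF.of_range (MonoidHom.inr G H) (fun x y h => congrArg Prod.snd h)
    ⟨by rintro _ ⟨x, rfl⟩ g; exact ⟨g.2 * x * g.2⁻¹, by ext <;> simp⟩⟩ h1

theorem IsFit.abq (hF : IsFit F) (φ : G →* H) (hφ : Surjective φ) (hc : ∀ a b : H, a * b = b * a)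
    (a : F G) : F H := by
  have := (hF.fin _ a).1
  have := Finite.of_surjective φ hφ
  refine hF.strip φ hφ ⊥ (fun a b => commutatorElement_eq_one_iff_mul_comm.2 (hc a b)) a ?_
  have : fib φ ⊥ = ((MonoidHom.id G).prod φ).range := by
    ext ⟨x, y⟩
    rw [mem_fib, mem_bot, inv_mul_eq_one]
    exact ⟨fun h => ⟨x, Prod.ext rfl h⟩, by rintro ⟨z, h⟩; cases h; rfl⟩
  rw [this]
  exact hF.range _ (fun x y h => congrArg Prod.fst h) a

def pel (p : ℕ) (x : G) : Prop := ∃ k, x ^ p ^ k = 1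

theorem pel.map {p : ℕ} {x : G} (h : pel p x) (φ : G →* H) : pel p (φ x) := by
  obtain ⟨k, hk⟩ := h
  exact ⟨k, by rw [← map_pow, hk, map_one]⟩

theorem pel.of_mem {p : ℕ} {P : Subgroup G} (h : IsPGroup p P) {x : G} (hx : x ∈ P) : pel p x := by
  obtain ⟨k, hk⟩ := h ⟨x, hx⟩
  exact ⟨k, congrArg Subtype.val hk⟩

theorem pgrp {p : ℕ} {P : Subgroup G} (h : ∀ x ∈ P, pel p x) : IsPGroup p P := fun x => by
  obtain ⟨k, hk⟩ := h x.1 x.2
  exact ⟨k, Subtype.ext hk⟩

theorem pel.eq_one {p n : ℕ} (hc : p.Coprime n) {x : G} (h : pel p x) (h' : x ^ n = 1) : x = 1 := by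
  obtain ⟨k, hk⟩ := h
  have := Nat.dvd_gcd (orderOf_dvd_of_pow_eq_one hk) (orderOf_dvd_of_pow_eq_one h')
  rwa [Nat.Coprime.pow_left k hc, Nat.dvd_one, orderOf_eq_one_iff] at this

theorem pel.two {p q : ℕ} (hp : p.Prime) (hq : q.Prime) (hne : p ≠ q) {x : G} (h : pel p x)
    (h' : pel q x) : x = 1 := by
  obtain ⟨k, hk⟩ := h'
  exact h.eq_one (((Nat.coprime_primes hp hq).2 hne).pow_right k) hk

theorem IsFit.cyc (hF : IsFit F) {p : ℕ} [Fact p.Prime] (hG : F G) {x : G} (hx : pel p x)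
    (h1 : x ≠ 1) : F (Multiplicative (ZMod p)) := by
  induction hn : Nat.card G using Nat.strong_induction_on generalizing G with
  | _ n ih =>
  obtain ⟨_, _⟩ := hF.fin _ hG
  have : Nontrivial G := ⟨x, 1, h1⟩
  by_cases h : x ∈ commutator G
  · obtain ⟨k, hk⟩ := hx
    refine ih _ ?_ (hF.sn _ (commutator G) inferInstance hG) (x := ⟨x, h⟩) ⟨k, Subtype.ext hk⟩
      (fun e => h1 (congrArg Subtype.val e)) rfl
    rw [← hn]
    exact Finite.card_subtype_lt (p := fun g => g ∈ commutator G) (SetLike.exists_of_lt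
      (Group.IsSolvable.commutator_lt_top_of_nontrivial G)).choose_spec.2
  have hA := hF.abq Abelianization.of (QuotientGroup.mk'_surjective _) mul_comm hG
  have := (hF.fin _ hA).1
  have hy : Abelianization.of x ≠ 1 := fun e => h ((QuotientGroup.eq_one_iff x).1 e)
  obtain ⟨k, hk⟩ := hx.map Abelianization.of
  obtain ⟨j, -, hj⟩ := (Nat.dvd_prime_pow Fact.out).1 (orderOf_dvd_of_pow_eq_one hk)
  have hd : p ∣ Nat.card (Abelianization G) := by
    rcases j with _ | j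
    · exact absurd (orderOf_eq_one_iff.1 hj) hy
    · exact (dvd_pow_self p (Nat.succ_ne_zero j)).trans (hj ▸ orderOf_dvd_natCard _)
  obtain ⟨z, hz⟩ := exists_prime_orderOf_dvd_card' p hd
  exact hF.iso _ _ (mulEquivOfPrimeCardEq (p := p) (by rw [Nat.card_zpowers, hz]) (by simp))
    (hF.sn _ (zpowers z) inferInstance hA)

open RegularWreathProduct

/-- The Kaloujnine-Krasner embedding. -/
noncomputable def kk (N : Subgroup G) [N.Normal] : G →* N ≀ᵣ (G ⧸ N) where
  toFun g := ⟨fun t => ⟨t.out⁻¹ * (g * ((g : G ⧸ N)⁻¹ * t).out), QuotientGroup.eq.1 (by simp)⟩, g⟩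
  map_one' := by ext <;> simp
  map_mul' a b := by ext <;> simp [mul_assoc]

theorem kk_inj (N : Subgroup G) [N.Normal] : Injective (kk N) :=
  (injective_iff_map_eq_one _).2 fun g h => by
    have h1 : (g : G ⧸ N) = 1 := congrArg RegularWreathProduct.right h
    have h2 := congrArg Subtype.val (congrFun (congrArg RegularWreathProduct.left h) 1)
    have h3 : (1 : G ⧸ N).out⁻¹ * (g * (1 : G ⧸ N).out) = 1 := by simpa [kk, h1] using h2
    rwa [inv_mul_eq_one, eq_comm, mul_eq_right] at h3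

def base (D Q : Type) [Group D] [Group Q] : (Q → D) →* D ≀ᵣ Q where
  toFun f := ⟨f, 1⟩
  map_one' := rfl
  map_mul' a b := by ext <;> simp

theorem IsFit.pi (hF : IsFit F) (Q : Type) [Finite Q] (h : F G) : F (Q → G) := by
  classical
  have := (hF.fin _ h).1
  obtain ⟨R, -, h2, h3⟩ := hF.rad (Q → G)
  refine hF.of_top (eq_top_iff.2 fun f _ => pi_mem_of_mulSingle_mem f fun i => ?_) h2
  refine h3 (MonoidHom.mulSingle (fun _ : Q => G) i).range (Normal.isSubnormal ⟨?_⟩)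
    (hF.range _ (Pi.mulSingle_injective (M := fun _ : Q => G) i) h) ⟨f i, rfl⟩
  rintro _ ⟨x, rfl⟩ g
  refine ⟨g i * x * (g i)⁻¹, funext fun j => ?_⟩
  by_cases e : j = i
  · subst e; simp
  · simp [Pi.mulSingle_eq_of_ne e]

theorem IsFit.pgroup (hF : IsFit F) {p : ℕ} [Fact p.Prime] (h : F (Multiplicative (ZMod p)))
    [Finite G] (hG : IsPGroup p G) : F G := by
  induction hn : Nat.card G using Nat.strong_induction_on generalizing G with
  | _ n ih =>
  by_cases hs : ∃ N : Subgroup G, N.Normal ∧ N ≠ ⊥ ∧ N ≠ ⊤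
  · obtain ⟨N, _, h1, h2⟩ := hs
    have e := card_eq_card_quotient_mul_card_subgroup N
    have a1 := (one_lt_card_iff_ne_bot N).2 h1
    have a2 : 1 < Nat.card (G ⧸ N) := one_lt_index_of_ne_top h2
    have hN := ih _ (by rw [← hn, e]; nlinarith) (hG.to_subgroup N) rfl
    have hQ := ih _ (by rw [← hn, e]; nlinarith) (hG.to_quotient N) rfl
    have hW : IsPGroup p (N ≀ᵣ (G ⧸ N)) := by
      obtain ⟨a, ha⟩ := (hG.to_subgroup N).exists_card_eq
      obtain ⟨b, hb⟩ := (hG.to_quotient N).exists_card_eq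
      exact IsPGroup.of_card (n := a * p ^ b + b) (by rw [card, ha, hb, ← pow_mul, pow_add])
    have := hW.isNilpotent
    obtain ⟨R, -, r2, r3⟩ := hF.rad (N ≀ᵣ (G ⧸ N))
    have hFW : F (N ≀ᵣ (G ⧸ N)) := by
      refine hF.of_top (eq_top_iff.2 fun w _ => ?_) r2
      rw [show w = base _ _ w.left * inl w.right by ext <;> simp [base]]
      exact mul_mem (r3 _ (nil_sub _) (hF.range (base _ _)
        (fun x y h => congrArg RegularWreathProduct.left h) (hF.pi _ hN)) ⟨_, rfl⟩)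
        (r3 _ (nil_sub _) (hF.range inl (fun x y h => congrArg RegularWreathProduct.right h) hQ)
          ⟨_, rfl⟩)
    exact hF.iso _ _ (MonoidHom.ofInjective (kk_inj N)).symm (hF.sub (nil_sub _) hFW)
  push Not at hs
  rcases subsingleton_or_nontrivial G with _ | _
  · exact hF.triv
  have hc : center G = ⊤ := hs _ inferInstance ((nontrivial_iff_ne_bot _).1 hG.center_nontrivial)
  obtain ⟨k, hk, hk'⟩ := hG.nontrivial_iff_card.1 inferInstance
  obtain ⟨z, hz⟩ := exists_prime_orderOf_dvd_card' (G := G) p (hk' ▸ dvd_pow_self p hk.ne')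
  have := hs (zpowers z) ⟨fun a ha g => by
    rwa [mem_center_iff.1 (hc.ge (mem_top a)) g, mul_inv_cancel_right]⟩ fun e => by
      rw [zpowers_eq_bot.1 e, orderOf_one] at hz
      exact (Fact.out : p.Prime).one_lt.ne hz
  exact hF.iso _ _ (mulEquivOfPrimeCardEq (p := p) (by simp)
    (by rw [← card_top, ← this, Nat.card_zpowers, hz])) h

end Pool.Agent.H22.Fit
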