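import Pool.Agent.H22.Fit

namespace Pool.Agent.H22.Fit

open Subgroup Function Pool.Agent.H22.Syl
open scoped commutatorElement

variable {F : Cls} {G H : Type} [Group G] [Group H]

def Abn (A : Subgroup G) : Prop := ∀ g : G, g ∈ A ⊔ A.map (MulAut.conj g).toMonoidHom

def AF (F : Cls) : Prop :=
  ∀ (G : Type) [Group G] [Finite G], Group.IsSolvable G → ∀ A B : Subgroup G, Abn A → Abn B →
    F A → F B → (∀ g : G, ∃ a ∈ A, ∃ b ∈ B, a * b = g) →
    ∃ J : Subgroup G, J.Normal ∧ F J ∧ A ⊓ B ≤ J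

theorem Abn.mem {A W : Subgroup G} (h : Abn A) (hW : A ≤ W) {g : G}
    (hg : ∀ a ∈ A, g * a * g⁻¹ ∈ W) : g ∈ W :=
  sup_le hW (by rintro _ ⟨a, ha, rfl⟩; exact hg a ha) (h g)

theorem Abn.of {A : Subgroup G}
    (h : ∀ g W, A ≤ W → (∀ a ∈ A, g * a * g⁻¹ ∈ W) → g ∈ W) : Abn A :=
  fun g => h g _ le_sup_left fun a ha => mem_sup_right ⟨a, ha, rfl⟩

theorem Abn.mono {A B : Subgroup G} (h : Abn A) (hB : A ≤ B) : Abn B :=
  Abn.of fun _ _ hW hg => h.mem (hB.trans hW) fun a ha => hg a (hB ha)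

theorem Abn.top {A J : Subgroup G} (h : Abn A) (hJ : J.Normal) (hA : A ≤ J) : J = ⊤ :=
  eq_top_iff.2 fun g _ => h.mem hA fun a ha => hJ.conj_mem a (hA ha) g

theorem Abn.comap {A : Subgroup H} (h : Abn A) (φ : G →* H) (hφ : Surjective φ) :
    Abn (A.comap φ) := Abn.of fun g W hW hg => by
  rw [← comap_map_eq_self ((ker_le_comap φ A).trans hW), mem_comap]
  refine h.mem (fun a ha => ?_) fun a ha => ?_ <;> obtain ⟨a, rfl⟩ := hφ a
  · exact ⟨a, hW ha, rfl⟩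
  · exact ⟨_, hg a ha, by simp⟩

theorem Abn.dec {A J : Subgroup G} (h : Abn A) (hc : ∀ a b : G, ⁅a, b⁆ ∈ J) (g : G) :
    ∃ a ∈ A, ∃ j ∈ J, a * j = g := by
  have := normal_of_comm hc
  exact mem_sup_of_normal_right.1 ((h.top (normal_of_comm fun a b => mem_sup_right (hc a b))
    le_sup_left).ge (mem_top g))

theorem abn_normalizer [Finite G] {p : ℕ} [Fact p.Prime] {T R : Subgroup G} (hR : R.Normal)
    (h : MaxP p T R) : Abn (normalizer (T : Set G)) := Abn.of fun g W hW hg => by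
  have hT : T ≤ W := le_normalizer.trans hW
  have h1 : MaxP p T (R ⊓ W) :=
    ⟨le_inf h.1 hT, h.2.1, fun U a b c => h.2.2 U (a.trans inf_le_left) b c⟩
  have h2 := h.comap (MulAut.conj g⁻¹)
  have h3 : MaxP p (T.comap (MulAut.conj g⁻¹).toMonoidHom) (R ⊓ W) := by
    refine ⟨fun x hx => ?_, h2.2.1, fun U a b c => h2.2.2 U (fun x hx => ?_) b c⟩
    · have hx' : g⁻¹ * x * g⁻¹⁻¹ ∈ T := hx
      have e : x = g * (g⁻¹ * x * g⁻¹⁻¹) * g⁻¹ := by group
      rw [e]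
      exact ⟨hR.conj_mem _ (h.1 hx') g, hg _ (le_normalizer hx')⟩
    · exact hR.conj_mem _ (a hx).1 g⁻¹
  obtain ⟨n, hn, h4⟩ := h1.conj h3
  have : n⁻¹ * g ∈ normalizer (T : Set G) := mem_normalizer_iff.2 fun y => by
    have := h4 (g * y * g⁻¹)
    simp only [mem_comap, MulEquiv.coe_toMonoidHom, MulAut.conj_apply] at this
    rwa [show g⁻¹ * (g * y * g⁻¹) * g⁻¹⁻¹ = y by group,
      show n⁻¹ * (g * y * g⁻¹) * n = n⁻¹ * g * y * (n⁻¹ * g)⁻¹ by group] at this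
  simpa using W.mul_mem hn.2 (hW this)

theorem abn_compl {V D : Subgroup G} (hV : V.Normal) (hc : ∀ a ∈ V, ∀ b ∈ V, a * b = b * a)
    (hmin : ∀ W ≤ V, W.Normal → W = ⊥ ∨ W = V) (hD : ∀ g, ∃ d ∈ D, ∃ v ∈ V, d * v = g)
    (nc : ∃ d ∈ D, ∃ v ∈ V, d * v ≠ v * d) : Abn D := Abn.of fun g W hW hg => by
  obtain ⟨d, hd, v, hv, rfl⟩ := hD g
  have hn : (W ⊓ V).Normal := ⟨fun x hx y => by
    obtain ⟨e, he, u, hu, rfl⟩ := hD y
    rw [show e * u * x * (e * u)⁻¹ = e * (u * x * u⁻¹) * e⁻¹ by group, hc u hu x hx.2,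
      mul_inv_cancel_right]
    exact ⟨W.mul_mem (W.mul_mem (hW he) hx.1) (W.inv_mem (hW he)), hV.conj_mem x hx.2 e⟩⟩
  refine W.mul_mem (hW hd) ?_
  rcases hmin _ inf_le_right hn with h | h
  swap
  · exact (h.ge hv).1
  have hz : v ∈ center G ⊓ V := ⟨mem_center_iff.2 fun y => by
    obtain ⟨e, he, u, hu, rfl⟩ := hD y
    have h1 : ⁅v, e⁆ ∈ W ⊓ V := ⟨by
      have := W.mul_mem (W.mul_mem (W.mul_mem (W.inv_mem (hW hd)) (hg e he)) (hW hd))
        (W.inv_mem (hW he))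
      rwa [show d⁻¹ * (d * v * e * (d * v)⁻¹) * d * e⁻¹ = ⁅v, e⁆ by
        rw [commutatorElement_def]; group] at this,
      commutator_le_left V ⊤ (commutator_mem_commutator hv (mem_top e))⟩
    rw [h, mem_bot, commutatorElement_eq_one_iff_mul_comm] at h1
    rw [mul_assoc, hc u hu v hv, ← mul_assoc, ← h1, mul_assoc], hv⟩
  rcases hmin (center G ⊓ V) inf_le_right inferInstance with h' | h'
  · rw [mem_bot.1 (h'.le hz)]; exact W.one_mem
  · obtain ⟨a, -, b, hb, h2⟩ := nc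
    exact absurd (mem_center_iff.1 (h'.ge hb).1 a) h2

section lock
variable {R : Type} [Group R] (φ : R →* G) (hφ : Surjective φ) (N : Subgroup R) [N.Normal]
  (hN : ∀ n ∈ N, φ n = 1 → n = 1) (hc : ∀ a b : G, ⁅a, b⁆ ∈ N.map φ) {C : Subgroup G} (hC : Abn C)
  (f g : H →* R) (h1 : ∀ x, (f x)⁻¹ * g x ∈ N) (h2 : ∀ r s, r⁻¹ * s ∈ N → ∃ x, f x = r ∧ g x = s)
  (h3 : ∀ x, f x = 1 → g x = 1 → x = 1)
include hφ hN hc hC h1 h2 h3

omit [N.Normal] in
theorem half1 (hF : IsFit F) (hFC : F C) (hR : F R) : F (C.comap (φ.comp g)) := by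
  refine hF.r0 (f.comp (Subgroup.subtype _)) (((φ.comp g).comp (Subgroup.subtype _)).codRestrict C fun x => x.2)
    (fun r => ?_) (fun c => ?_) (fun x a b => ?_) (fun x y => ?_) hR hFC
  · obtain ⟨c, hc', _, ⟨n, hn, rfl⟩, e⟩ := hC.dec hc (φ r)
    obtain ⟨x, a, b⟩ := h2 r (r * n⁻¹) (by simpa using hn)
    exact ⟨⟨x, by change φ (g x) ∈ C; rw [b, map_mul, ← e]; simpa using hc'⟩, a⟩
  · obtain ⟨s, hs⟩ := hφ c
    obtain ⟨x, a, b⟩ := h2 s s (by simp)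
    exact ⟨⟨x, by change φ (g x) ∈ C; rw [b, hs]; exact c.2⟩,
      Subtype.ext (by change φ (g x) = c; rw [b, hs])⟩
  · have a' : f x.1 = 1 := a
    exact Subtype.ext (h3 _ a (hN _ (by simpa [a'] using h1 x.1) (congrArg Subtype.val b)))
  · obtain ⟨n, hn, e⟩ := hc (φ (g x.1)) (φ (g y.1))
    obtain ⟨k, a, b⟩ := h2 (f ⁅x.1, y.1⁆) (g ⁅x.1, y.1⁆ * n⁻¹) (by
      rw [← mul_assoc]; exact N.mul_mem (h1 _) (N.inv_mem hn))
    have : φ (g k) = 1 := by
      rw [b, map_mul, map_inv, e, map_commutatorElement, map_commutatorElement, mul_inv_cancel]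
    exact ⟨⟨k, by change φ (g k) ∈ C; rw [this]; exact C.one_mem⟩, Subtype.ext this, a⟩

omit hc in
theorem half2 (J : Subgroup H) (hJ : J.Normal) (hle : ∀ x, φ (g x) ∈ C → φ (f x) ∈ C → x ∈ J)
    (x : H) (hx : f x = 1) : x ∈ J := by
  have sg : Surjective (φ.comp g) := fun c => by
    obtain ⟨s, rfl⟩ := hφ c
    obtain ⟨x, -, b⟩ := h2 s s (by simp)
    exact ⟨x, congrArg φ b⟩
  have mN : ∀ y, f y = 1 → g y ∈ N := fun y hy => by simpa [hy] using h1 y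
  have hn : ((J ⊓ f.ker).map (φ.comp g)).Normal := Normal.map inferInstance _ sg
  have ht : J.map (φ.comp g) = ⊤ := hC.top (hJ.map _ sg) fun c hc => by
    obtain ⟨s, rfl⟩ := hφ c
    obtain ⟨x, a, b⟩ := h2 s s (by simp)
    exact ⟨x, hle x (b ▸ hc) (a ▸ hc), congrArg φ b⟩
  have hm : φ (g x) ∈ C ⊔ (J ⊓ f.ker).map (φ.comp g) := hC.mem le_sup_left fun c hc => by
    obtain ⟨j, hj, rfl⟩ := ht.ge (mem_top c)
    rw [show φ (g x) * φ.comp g j * (φ (g x))⁻¹ = φ.comp g ⁅x, j⁆ * φ.comp g j by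
      simp [commutatorElement_def]]
    exact mul_mem (mem_sup_right ⟨_, ⟨commutator_le_right ⊤ J (commutator_mem_commutator
      (mem_top x) hj), commutator_le_left f.ker ⊤ (commutator_mem_commutator hx (mem_top j))⟩, rfl⟩)
      (mem_sup_left hc)
  obtain ⟨c, hc, _, ⟨j, hj, rfl⟩, e⟩ := mem_sup_of_normal_right.1 hm
  have hj2 : f j = 1 := hj.2
  have : x * j⁻¹ ∈ J := hle _ (by
    rw [map_mul, map_mul, ← e, map_inv, map_inv]; simpa using hc) (by simp [hx, hj2])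
  simpa using J.mul_mem this hj.1

end lock

theorem lock (hF : IsFit F) (hA : AF F) {R : Type} [Group R] (φ : R →* G) (hφ : Surjective φ)
    (N : Subgroup R) [N.Normal] (hN : ∀ n ∈ N, φ n = 1 → n = 1) (hc : ∀ a b : G, ⁅a, b⁆ ∈ N.map φ)
    {C : Subgroup G} (hC : Abn C) (hFC : F C) (hR : F R) : F G := by
  obtain ⟨_, _⟩ := hF.fin _ hR
  have := Finite.of_surjective φ hφ
  let H := fib (MonoidHom.id R) N
  let f : H →* R := (MonoidHom.fst R R).comp H.subtype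
  let g : H →* R := (MonoidHom.snd R R).comp H.subtype
  have h1 : ∀ x, (f x)⁻¹ * g x ∈ N := fun x => mem_fib.1 x.2
  have h1' : ∀ x, (g x)⁻¹ * f x ∈ N := fun x => by simpa using N.inv_mem (h1 x)
  have h2 : ∀ r s, r⁻¹ * s ∈ N → ∃ x, f x = r ∧ g x = s := fun r s h =>
    ⟨⟨(r, s), mem_fib.2 h⟩, rfl, rfl⟩
  have h2' : ∀ r s, r⁻¹ * s ∈ N → ∃ x, g x = r ∧ f x = s := fun r s h =>
    ⟨⟨(s, r), mem_fib.2 (by simpa using N.inv_mem h)⟩, rfl, rfl⟩
  have h3 : ∀ x, f x = 1 → g x = 1 → x = 1 := fun x a b => Subtype.ext (Prod.ext a b)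
  have ext : ∀ x y, f x = f y → g x = g y → x = y := fun x y a b => Subtype.ext (Prod.ext a b)
  have sg : Surjective g := fun s => ⟨⟨(s, s), mem_fib.2 (by simp)⟩, rfl⟩
  have sf : Surjective f := fun s => ⟨⟨(s, s), mem_fib.2 (by simp)⟩, rfl⟩
  obtain ⟨J, hJ, hFJ, hle⟩ := hA H inferInstance (C.comap (φ.comp g)) (C.comap (φ.comp f))
    (hC.comap _ (hφ.comp sg)) (hC.comap _ (hφ.comp sf))
    (half1 φ hφ N hN hc hC f g h1 h2 h3 hF hFC hR)
    (half1 φ hφ N hN hc hC g f h1' h2' (fun x a b => h3 x b a) hF hFC hR) fun x => by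
      obtain ⟨c, hc', _, ⟨n, hn, rfl⟩, e⟩ := hC.dec hc (φ (g x))
      obtain ⟨b, b1, b2⟩ := h2 1 n (by simpa using hn)
      refine ⟨x * b⁻¹, ?_, b, ?_, by simp⟩
      · change φ (g (x * b⁻¹)) ∈ C
        rw [map_mul, map_mul, map_inv, b2, ← e]
        simpa using hc'
      · change φ (f b) ∈ C
        simp [b1]
  have hH : F H := by
    refine hF.of_top (eq_top_iff.2 fun x _ => ?_) hFJ
    obtain ⟨c, hc', _, ⟨n, hn, rfl⟩, e⟩ := hC.dec hc (φ (f x))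
    obtain ⟨a, a1, a2⟩ := h2 (f x * n⁻¹) (f x * n⁻¹) (by simp)
    obtain ⟨b, b1, b2⟩ := h2 n 1 (by simpa using hn)
    have hc2 : φ (f x * n⁻¹) ∈ C := by rw [map_mul, ← e]; simpa using hc'
    have := J.mul_mem (J.mul_mem (hle ⟨show φ (g a) ∈ C from a2 ▸ hc2, show φ (f a) ∈ C from a1 ▸ hc2⟩)
      (half2 φ hφ N hN hC g f h1' h2' (fun x a b => h3 x b a) J hJ (fun x a b => hle ⟨b, a⟩) b b2))
      (half2 φ hφ N hN hC f g h1 h2 h3 J hJ (fun x a b => hle ⟨a, b⟩) ((a * b)⁻¹ * x)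
        (by simp [a1, b1]))
    rwa [mul_inv_cancel_left] at this
  have := normal_of_comm hc
  refine hF.strip φ hφ (N.map φ) hc hR ?_
  have e : fib φ (N.map φ) = (f.prod (φ.comp g)).range := by
    ext ⟨x, y⟩
    rw [mem_fib]
    constructor
    · rintro ⟨n, hn, e⟩
      obtain ⟨z, a, b⟩ := h2 x (x * n) (by simpa using hn)
      exact ⟨z, Prod.ext a (by change φ (g z) = y; rw [b, map_mul, e]; simp)⟩
    · rintro ⟨z, e⟩
      cases e
      exact ⟨_, h1 z, by simp⟩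
  rw [e]
  refine hF.range _ ((injective_iff_map_eq_one _).2 fun x h => ?_) hH
  have a : f x = 1 := congrArg Prod.fst h
  exact h3 x a (hN _ (by simpa [a] using h1 x) (congrArg Prod.snd h))

end Pool.Agent.H22.Fit
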