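import Pool.Agent.H22.FitAb

namespace Pool.Agent.H22.Fit

open Subgroup Function Pool.Agent.H22.Syl RegularWreathProduct
open scoped commutatorElement

variable {F : Cls} {G H : Type} [Group G] [Group H]

def PQ (p q : ℕ) (G : Type) [Group G] : Prop :=
  ∃ P : Subgroup G, P.Normal ∧ IsPGroup p P ∧ ∀ g, ∃ k, g ^ q ^ k ∈ P

def rho (F : Cls) (p q : ℕ) : Prop := ∀ (G : Type) [Group G] [Finite G], PQ p q G → F G

def rho1 (F : Cls) (s r : ℕ) : Prop :=
  ∀ (G : Type) [Group G] [Finite G] (π : G →* Multiplicative (ZMod r)), Surjective π →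
    IsPGroup s π.ker → F G

theorem rho.left {p q : ℕ} (h : rho F p q) [Finite G] (hG : IsPGroup p G) : F G :=
  h G ⟨⊤, inferInstance, hG.to_subgroup _, fun _ => ⟨0, mem_top _⟩⟩

theorem rho.right {p q : ℕ} (h : rho F p q) [Finite G] (hG : IsPGroup q G) : F G :=
  h G ⟨⊥, inferInstance, IsPGroup.of_bot, hG⟩

theorem rho_self {p : ℕ} (h : ∀ (G : Type) [Group G] [Finite G], IsPGroup p G → F G) :
    rho F p p := fun G _ _ ⟨P, _, h1, h2⟩ => h G fun g => by
  obtain ⟨k, hk⟩ := h2 g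
  obtain ⟨j, hj⟩ := pel.of_mem h1 hk
  exact ⟨k + j, by rw [pow_add, pow_mul, hj]⟩

theorem rho.one {s r : ℕ} (h : rho F s r) : rho1 F s r := fun G _ _ π _ hk =>
  h G ⟨π.ker, inferInstance, hk, fun g => ⟨1, by
    rw [MonoidHom.mem_ker, map_pow, pow_one]
    change r • (π g).toAdd = 0
    simp⟩⟩

structure Wit (F : Cls) (s r : ℕ) (V U : Subgroup H) : Prop where
  mem : F H
  sV : IsPGroup s V
  comm : ∀ a b : H, ⁅a, b⁆ ∈ V
  rU : IsPGroup r U
  abn : Abn U

theorem W0 (hF : IsFit F) (hA : AF F) {p r s : ℕ} [Fact p.Prime] [Fact s.Prime]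
    (hsp : p ≠ s) (hρ : rho F p r) {V U : Subgroup H} (W : Wit F s r V U) [Finite G] (β : G →* H)
    (hβ : Surjective β) (hk : IsPGroup p β.ker) : F G := by
  obtain ⟨_, _⟩ := hF.fin _ W.mem
  have := hk.isNilpotent
  have hVn := normal_of_comm W.comm
  obtain ⟨S1, -, a2, a3⟩ := lift (r := s) β (V.comap β)
    (by rw [map_comap_eq_self_of_surjective hβ]; exact W.sV)
  rw [map_comap_eq_self_of_surjective hβ] at a3
  obtain ⟨S, hS, hS1⟩ := exists_maxP (L := V.comap β) a2 (map_le_iff_le_comap.1 a3.le)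
  have hSV : ∀ v ∈ V, ∃ x ∈ S, β x = v := fun v hv => map_mono hS1 (a3.ge hv)
  have two : ∀ {K : Type} [Group K] {x : K}, pel p x → pel s x → x = 1 :=
    fun a b => a.two Fact.out Fact.out hsp b
  generalize hAe : normalizer (S : Set G) = A
  have hSA : S ≤ A := hAe ▸ le_normalizer
  have hAb : Abn A := hAe ▸ abn_normalizer (hVn.comap β) hS
  have dec : ∀ g, ∃ a ∈ A, ∃ z ∈ β.ker, a * z = g := fun g => by
    obtain ⟨n, hn, h⟩ := hS.frattini (s := g) (by
      rw [normalizer_eq_top_iff.2 (hVn.comap β)]; exact mem_top g)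
    obtain ⟨x, hx, e⟩ := hSV _ hn
    exact ⟨g * n * x⁻¹, A.mul_mem (hAe ▸ h) (A.inv_mem (hSA hx)), x * n⁻¹, by
      simp [MonoidHom.mem_ker, e], by group⟩
  have sA : Surjective (β.comp A.subtype) := fun h => by
    obtain ⟨g, rfl⟩ := hβ h
    obtain ⟨a, ha, z, hz, rfl⟩ := dec g
    exact ⟨⟨a, ha⟩, by rw [map_mul, MonoidHom.mem_ker.1 hz, mul_one]; rfl⟩
  have hFA : F A := by
    have : (S.subgroupOf A).Normal := (normal_subgroupOf_iff_le_normalizer hSA).2 hAe.ge
    refine hF.r0 (β.comp A.subtype) (QuotientGroup.mk' (S.subgroupOf A)) sA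
      (QuotientGroup.mk'_surjective _) (fun x a b => Subtype.ext (two (pel.of_mem hk a)
        (pel.of_mem hS.2.1 ((QuotientGroup.eq_one_iff x).1 b)))) (fun x y => ?_) W.mem
      (hρ _ ⟨(β.comp A.subtype).ker.map (QuotientGroup.mk' _),
        Normal.map inferInstance _ (QuotientGroup.mk'_surjective _),
        IsPGroup.map (hk.comap_subtype (K := A)) _, fun g => ?_⟩)
    · obtain ⟨k, hk', e⟩ := hSV _ (W.comm (β x) (β y))
      exact ⟨⟨k, hSA hk'⟩, (QuotientGroup.eq_one_iff _).2 hk', by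
        rw [map_commutatorElement]; exact e⟩
    · obtain ⟨a, rfl⟩ := QuotientGroup.mk_surjective g
      obtain ⟨u, hu, v, hv, e⟩ := W.abn.dec W.comm (β a)
      obtain ⟨k, hk'⟩ := pel.of_mem W.rU hu
      obtain ⟨x, hx, e'⟩ := hSV (β a ^ r ^ k) ((QuotientGroup.eq_one_iff _).1 (by
        rw [← e, QuotientGroup.mk_pow, QuotientGroup.mk_mul_of_mem u hv, ← QuotientGroup.mk_pow, hk']
        rfl))
      refine ⟨k, a ^ r ^ k * (⟨x, hSA hx⟩ : A)⁻¹, by simp [MonoidHom.mem_ker, e'], ?_⟩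
      exact QuotientGroup.mk_mul_of_mem _ (inv_mem (show (⟨x, hSA hx⟩ : A) ∈ S.subgroupOf A from hx))
  obtain ⟨J, hJ, hFJ, hle⟩ := hA G
    (Group.isSolvable_of_ker_le_range β.ker.subtype β (by simp)) A (U.comap β) hAb
    (W.abn.comap β hβ) hFA (hρ _ ⟨β.ker.subgroupOf _, inferInstance, hk.comap_subtype, fun g => by
      obtain ⟨k, hk'⟩ := pel.of_mem W.rU g.2
      exact ⟨k, by simpa [mem_subgroupOf, MonoidHom.mem_ker] using hk'⟩⟩) fun g => by
      obtain ⟨a, ha, z, hz, e⟩ := dec g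
      exact ⟨a, ha, z, ker_le_comap β U hz, e⟩
  have ht : J.map β = ⊤ := W.abn.top (hJ.map β hβ) fun u hu => by
    obtain ⟨a, rfl⟩ := sA u
    exact ⟨a, hle ⟨a.2, hu⟩, rfl⟩
  have hSJ : S ≤ J := fun x hx => by
    obtain ⟨j, hj, e⟩ := ht.ge (mem_top (β x))
    refine (QuotientGroup.eq_one_iff x).1 (two ?_ ((pel.of_mem hS.2.1 hx).map (QuotientGroup.mk' J)))
    have := (pel.of_mem hk (x := x * j⁻¹) (by simp [MonoidHom.mem_ker, e])).map (QuotientGroup.mk' J)
    rwa [QuotientGroup.mk'_apply, QuotientGroup.mk_mul_of_mem x (J.inv_mem hj)] at this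
  refine hF.of_top (hAb.top hJ fun a ha => ?_) hFJ
  obtain ⟨u, hu, v, hv, e⟩ := W.abn.dec W.comm (β a)
  obtain ⟨x, hx, rfl⟩ := hSV v hv
  have := J.mul_mem (hle ⟨A.mul_mem ha (A.inv_mem (hSA hx)), show β (a * x⁻¹) ∈ U by
    rw [map_mul, ← e]; simpa using hu⟩) (hSJ hx)
  simpa using this

def wmap {D E : Type} [Group D] [Group E] (f : D →* E) (Q : Type) [Group Q] :
    D ≀ᵣ Q →* E ≀ᵣ Q where
  toFun w := ⟨fun t => f (w.left t), w.right⟩
  map_one' := by ext <;> simp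
  map_mul' a b := by ext <;> simp

theorem pi_pgrp {p : ℕ} [Fact p.Prime] [Finite G] (h : IsPGroup p G) (Q : Type) [Finite Q] :
    IsPGroup p (Q → G) := by
  obtain ⟨a, ha⟩ := h.exists_card_eq
  exact IsPGroup.of_card (n := a * Nat.card Q) (by rw [Nat.card_fun, ha, pow_mul])

theorem W1 (hF : IsFit F) (hA : AF F) {p r s : ℕ} [Fact p.Prime] [Fact s.Prime]
    (hsp : p ≠ s) (hρ : rho F p r) (hs : rho F s s) {V U : Subgroup H} (W : Wit F s r V U)
    [Finite G] {C : Type} [Group C] (hc : ∀ a b : C, a * b = b * a) (π : G →* C)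
    (hπ : Surjective π) (hk : IsPGroup p π.ker) (l : V →* C) (hl : Surjective l) : F G := by
  classical
  obtain ⟨_, _⟩ := hF.fin _ W.mem
  have hVn := normal_of_comm W.comm
  let Γ : Subgroup ((G ≀ᵣ (H ⧸ V)) × H) := ((wmap π _).comp (MonoidHom.fst _ _)).eqLocus
    (((wmap l _).comp (kk V)).comp (MonoidHom.snd _ _))
  let β : Γ →* H := (MonoidHom.snd _ _).comp Γ.subtype
  have mk : ∀ (h : H) (f : H ⧸ V → G), (∀ t, π (f t) = l ((kk V h).left t)) →
      ((⟨f, h⟩, h) : (G ≀ᵣ (H ⧸ V)) × H) ∈ Γ := fun h f e =>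
    RegularWreathProduct.ext (funext e) rfl
  have rt : ∀ x : Γ, x.1.1.right = x.1.2 := fun x => congrArg RegularWreathProduct.right x.2
  have lf : ∀ (x : Γ) t, π (x.1.1.left t) = l ((kk V x.1.2).left t) := fun x t =>
    congrFun (congrArg RegularWreathProduct.left x.2) t
  have hΓ : F Γ := W0 hF hA hsp hρ W β (fun h => ⟨⟨_, mk h (fun t => surjInv hπ _)
    fun t => surjInv_eq hπ _⟩, rfl⟩) (pgrp fun x hx => by
      have hx' : x.1.2 = 1 := hx
      obtain ⟨k, hk'⟩ := pel.map (p := p) (pi_pgrp hk (H ⧸ V) fun t => ⟨x.1.1.left t, by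
        rw [MonoidHom.mem_ker, lf, hx', map_one, one_left, Pi.one_apply, map_one]⟩)
        ((MonoidHom.inl _ H).comp ((base G _).comp (π.ker.subtype.compLeft _)))
      refine ⟨k, Subtype.ext (Eq.trans ?_ hk')⟩
      rw [SubgroupClass.coe_pow]
      congr 1
      exact Prod.ext (RegularWreathProduct.ext rfl ((rt x).trans (congrArg QuotientGroup.mk hx'))) hx')
  let R := V.comap β
  have rt1 : ∀ x : R, x.1.1.1.right = 1 := fun x => (rt x.1).trans ((QuotientGroup.eq_one_iff _).2 x.2)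
  let ev : H ⧸ V → R →* G := fun t => MonoidHom.mk' (fun x => x.1.1.1.left t) fun a b => by
    simp [rt1 a]
  let N := ((MonoidHom.pi fun t : {t : H ⧸ V // t ≠ 1} => ev t.1).prod (β.comp R.subtype)).ker
  obtain ⟨S1, -, a2, a3⟩ := lift (r := s) π ⊤ ((W.sV.of_surjective l hl).to_subgroup _)
  obtain ⟨S, hS, hS1⟩ := exists_maxP (L := ⊤) a2 le_top
  refine lock hF hA (ev 1) (fun g => ?_) N (fun n hn e => ?_) (fun a b => ?_)
    (abn_normalizer normal_top hS) ?_ (hF.sn _ _ (hVn.comap β) hΓ)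
  · obtain ⟨v, hv⟩ := hl (π g)
    have hm : (1 : H ⧸ V).out * v * (1 : H ⧸ V).out⁻¹ ∈ V := hVn.conj_mem _ v.2 _
    refine ⟨⟨⟨_, mk ((1 : H ⧸ V).out * v * (1 : H ⧸ V).out⁻¹)
      (fun t => if t = 1 then g else surjInv hπ
        (l ((kk V ((1 : H ⧸ V).out * v * (1 : H ⧸ V).out⁻¹)).left t))) fun t => ?_⟩, hm⟩, if_pos rfl⟩
    split_ifs with h
    · rw [h, ← hv]
      congr 1
      apply Subtype.ext
      change _ = _ * (_ * (_ * 1 : H ⧸ V).out)
      rw [(QuotientGroup.eq_one_iff _).2 hm, inv_one, mul_one]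
      group
    · exact surjInv_eq hπ _
  · have hn2 := congrArg Prod.snd (MonoidHom.mem_ker.1 hn)
    refine Subtype.ext (Subtype.ext (Prod.ext (RegularWreathProduct.ext (funext fun t => ?_)
      (rt1 n)) hn2))
    by_cases h : t = 1
    · rw [h]; exact e
    · exact congrFun (congrArg Prod.fst hn) ⟨t, h⟩
  · refine ⟨⟨⟨_, mk 1 (Pi.mulSingle 1 ⁅a, b⁆) fun t => ?_⟩, V.one_mem⟩,
      Prod.ext (funext fun t => Pi.mulSingle_eq_of_ne t.2 _) rfl, Pi.mulSingle_eq_same _ _⟩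
    rw [map_one, one_left, Pi.one_apply, map_one]
    by_cases h : t = 1
    · rw [h, Pi.mulSingle_eq_same, map_commutatorElement, commutatorElement_eq_one_iff_mul_comm, hc]
    · rw [Pi.mulSingle_eq_of_ne h, map_one]
  · refine hF.of_top (eq_top_iff.2 fun x _ => ?_) (hF.n0 _ (S.subgroupOf _) (π.ker.subgroupOf _)
      inferInstance inferInstance (hs.left hS.2.1.comap_subtype) (hρ.left hk.comap_subtype))
    obtain ⟨y, hy, e⟩ := a3.ge ⟨x.1, mem_top _, rfl⟩
    rw [← mul_inv_cancel_left (⟨y, le_normalizer (hS1 hy)⟩ : normalizer (S : Set G)) x]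
    exact mul_mem (mem_sup_left (hS1 hy)) (mem_sup_right (by
      simp [mem_subgroupOf, MonoidHom.mem_ker, e]))

theorem mkWit {s r : ℕ} [Fact s.Prime] [Fact r.Prime] (hsr : s ≠ r) (h : rho1 F s r)
    {C : Type} [CommGroup C] [Finite C] (hC : IsPGroup s C) :
    ∃ (H : Type) (_ : Group H) (V U : Subgroup H) (l : V →* C), Wit F s r V U ∧ Surjective l := by
  classical
  let Q := Multiplicative (ZMod r)
  let pr : C ≀ᵣ Q →* C := MonoidHom.mk' (fun w => ∏ t, w.left t) fun a b => by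
    simp only [mul_left, Pi.mul_apply, Finset.prod_mul_distrib]
    rw [Equiv.prod_comp (Equiv.mulLeft a.right⁻¹) b.left |>.symm]
    rfl
  let β : pr.ker →* Q := rightHom.comp pr.ker.subtype
  have mi : ∀ q : Q, (inl q : C ≀ᵣ Q) ∈ pr.ker := fun q => Finset.prod_const_one
  let U : Subgroup pr.ker := (inl : Q →* C ≀ᵣ Q).range.subgroupOf _
  have hV : IsPGroup s β.ker := pgrp fun x hx => by
    obtain ⟨k, hk'⟩ := pel.map (p := s) (pi_pgrp hC Q x.1.left) (base C Q)
    refine ⟨k, Subtype.ext (Eq.trans ?_ hk')⟩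
    rw [SubgroupClass.coe_pow]
    congr 1
    exact RegularWreathProduct.ext rfl hx
  have hU : IsPGroup r U := pgrp fun x ⟨q, e⟩ => ⟨1, Subtype.ext (by
    have : q ^ r = 1 := by
      change r • q.toAdd = 0
      simp
    rw [SubgroupClass.coe_pow, pow_one, ← show inl q = x.1 from e, ← map_pow, this, map_one]
    rfl)⟩
  refine ⟨pr.ker, inferInstance, β.ker, U, MonoidHom.mk' (fun x => x.1.1.left 1) fun a b => by
    have : a.1.1.right = 1 := a.2
    simp [this], ⟨h _ β (fun q => ⟨⟨_, mi q⟩, rfl⟩) hV, hV, fun a b => ?_, hU, ?_⟩, fun c => ?_⟩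
  · rw [MonoidHom.mem_ker, map_commutatorElement, commutatorElement_eq_one_iff_mul_comm, mul_comm]
  · refine (abn_normalizer (p := r) normal_top ⟨le_top, hU, fun T _ hT le x hx => ?_⟩).mono
      fun x hx => ?_
    · have := (pel.of_mem hV (x := x * (⟨_, mi x.1.right⟩ : pr.ker)⁻¹) (by
        exact mul_inv_cancel x.1.right)).two Fact.out Fact.out hsr
        (pel.of_mem hT (T.mul_mem hx (T.inv_mem (le ⟨_, rfl⟩))))
      rw [mul_inv_eq_one.1 this]
      exact ⟨_, rfl⟩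
    · have c1 : ∀ t, x.1.left t = x.1.left 1 := fun t => by
        obtain ⟨q, e⟩ := (mem_normalizer_iff.1 hx ⟨_, mi t⟩).1 ⟨_, rfl⟩
        have := congrFun (congrArg RegularWreathProduct.left e) t
        simp only [left_inl, Pi.one_apply, coe_subtype, coe_mul, mul_left, InvMemClass.coe_inv,
          inv_left, Pi.mul_apply, mul_one, mul_right, right_inl, Pi.inv_apply] at this
        rw [eq_comm, mul_inv_eq_one] at this
        rw [this]
        congr 1
        rw [mul_inv_rev, mul_comm t⁻¹, mul_assoc, inv_mul_cancel, mul_one, mul_inv_cancel]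
      have c2 : x.1.left 1 ^ r = 1 := by
        have : ∏ t, x.1.left t = 1 := x.2
        simpa [c1, Q] using this
      have c3 := pel.eq_one ((Nat.coprime_primes Fact.out Fact.out).2 hsr) (hC _) c2
      exact ⟨x.1.right, RegularWreathProduct.ext (funext fun t => ((c1 t).trans c3).symm) rfl⟩
  · obtain ⟨t, ht⟩ := exists_ne (1 : Q)
    refine ⟨⟨⟨⟨Pi.mulSingle 1 c * Pi.mulSingle t c⁻¹, 1⟩, ?_⟩, rfl⟩, ?_⟩
    · change ∏ u, (Pi.mulSingle 1 c * Pi.mulSingle t c⁻¹ : Q → C) u = 1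
      simp [Finset.prod_mul_distrib]
    · change (Pi.mulSingle 1 c * Pi.mulSingle t c⁻¹ : Q → C) 1 = c
      simp [Pi.mulSingle_eq_of_ne ht.symm]

theorem up (hF : IsFit F) (hA : AF F) {p r s : ℕ} [Fact p.Prime] [Fact s.Prime] [Fact r.Prime]
    (hps : p ≠ s) (hsr : s ≠ r) (h1 : rho1 F s r) (hρ : rho F p r) (hs : rho F s s) :
    rho F p s := by
  rintro G _ _ ⟨P, _, hP, hq⟩
  have hQ : IsPGroup s (G ⧸ P) := fun g => by
    obtain ⟨g, rfl⟩ := QuotientGroup.mk_surjective g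
    obtain ⟨k, hk⟩ := hq g
    exact ⟨k, (QuotientGroup.eq_one_iff _).2 hk⟩
  have := hQ.isNilpotent
  obtain ⟨R, -, r2, r3⟩ := hF.rad G
  refine hF.of_top (eq_top_iff.2 fun g _ => ?_) r2
  have hc : ∀ a b : zpowers (g : G ⧸ P), a * b = b * a := fun a b => mul_comm' a b
  obtain ⟨H, _, V, U, l, W, hl⟩ := @mkWit F s r _ _ hsr h1 (zpowers (g : G ⧸ P))
    { (inferInstance : Group (zpowers (g : G ⧸ P))) with mul_comm := hc } _ (hQ.to_subgroup _)
  refine r3 ((zpowers (g : G ⧸ P)).comap (QuotientGroup.mk' P)) ((nil_sub _).comap _)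
    (W1 hF hA hps hρ hs W hc ((QuotientGroup.mk' P).subgroupComap _)
      (MonoidHom.subgroupComap_surjective_of_surjective _ _ (QuotientGroup.mk'_surjective P))
      (pgrp fun x hx => ?_) l hl) (mem_zpowers (g : G ⧸ P))
  obtain ⟨k, hk⟩ := pel.of_mem hP ((QuotientGroup.eq_one_iff x.1).1 (congrArg Subtype.val hx))
  exact ⟨k, Subtype.ext hk⟩

theorem rho.trans (hF : IsFit F) (hA : AF F) {p r s : ℕ} (hp : p.Prime) (hs : s.Prime)
    (hr : r.Prime) (a : rho F p r) (b : rho F s r) : rho F p s := by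
  have := Fact.mk hp
  have := Fact.mk hs
  have := Fact.mk hr
  by_cases e : p = s
  · exact e ▸ rho_self fun G _ _ h => a.left h
  by_cases e' : s = r
  · exact e' ▸ a
  exact up hF hA e e' b.one a (rho_self fun G _ _ h => b.left h)

theorem rho.symm (hF : IsFit F) (hA : AF F) {r s : ℕ} (hs : s.Prime) (hr : r.Prime)
    (b : rho F s r) : rho F r s :=
  rho.trans hF hA hr hs hr (rho_self fun _ _ _ h => b.right h) b

theorem rho_of_wit (hF : IsFit F) (hA : AF F) {r s : ℕ} [Fact s.Prime] [Fact r.Prime] (e : r ≠ s)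
    (hr : rho F r r) (hs : rho F s s) {V U : Subgroup H} (W : Wit F s r V U)
    (l : V →* Multiplicative (ZMod s)) (hl : Surjective l) : rho F s r :=
  up hF hA e.symm e (fun _ _ _ π a b => W1 hF hA e hr hs W mul_comm π a b l hl) hs hr

end Pool.Agent.H22.Fit
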