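import Pool.Agent.H22.FitW

namespace Pool.Agent.H22.Fit

open Subgroup Function Pool.Agent.H22.Syl
open scoped commutatorElement

variable {F : Cls} {G H : Type} [Group G] [Group H]

open scoped IsMulCommutative in
theorem cpow [Finite G] (Z : Subgroup G) (hZ : Z ≤ center G) :
    ∃ θ : G →* G, ∀ g, θ g = g ^ Z.index ∧ θ g ∈ Z := by
  have key : ∀ (g : G) (k : ℕ) (g₀ : G), g₀⁻¹ * g ^ k * g₀ ∈ Z → g₀⁻¹ * g ^ k * g₀ = g ^ k :=
    fun g k g₀ h => by
      have := mem_center_iff.1 (hZ h) g₀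
      rw [← mul_assoc, mul_inv_cancel_left, mul_left_inj] at this
      exact this.symm
  refine ⟨(center G).subtype.comp (MonoidHom.transfer (inclusion hZ)), fun g => ?_⟩
  rw [MonoidHom.comp_apply, MonoidHom.transfer_eq_pow _ g (key g)]
  exact ⟨rfl, MonoidHom.transfer_eq_pow_aux g (key g)⟩

theorem gen [Finite G] {M W : Subgroup G}
    (h : ∀ p : ℕ, p.Prime → ∀ y ∈ M, pel p y → y ∈ W) : M ≤ W := by
  rw [← subgroupOf_eq_top, ← index_eq_one]
  by_contra hn
  obtain ⟨p, hp, hd⟩ := Nat.exists_prime_and_dvd hn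
  have := Fact.mk hp
  let P : Sylow p M := default
  exact P.not_dvd_index (hd.trans (index_dvd_of_le fun y hy =>
    h p hp y.1 y.2 ((pel.of_mem P.isPGroup' hy).map M.subtype)))

theorem pel.lift [Finite G] {p : ℕ} (hp : p.Prime) (π : G →* H) (hπ : Surjective π) {y : H}
    (h : pel p y) : ∃ x, pel p x ∧ π x = y := by
  have := Fact.mk hp
  have e := map_comap_eq_self_of_surjective hπ (zpowers y)
  obtain ⟨S, -, h2, h3⟩ := Syl.lift (r := p) π ((zpowers y).comap π) (by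
    rw [e]
    obtain ⟨k, hk⟩ := h
    refine pgrp ?_
    rintro _ ⟨j, rfl⟩
    exact ⟨k, by simp only; rw [← zpow_natCast, ← zpow_mul, mul_comm, zpow_mul, zpow_natCast, hk,
      one_zpow]⟩)
  obtain ⟨x, hx, e'⟩ := (h3.trans e).ge (mem_zpowers y)
  exact ⟨x, pel.of_mem h2 hx, e'⟩

theorem pel.conj {p : ℕ} {x : G} (h : pel p x) (g : G) : pel p (g * x * g⁻¹) :=
  h.map (MulAut.conj g).toMonoidHom

def X1 (F : Cls) (G : Type) [Group G] : Prop :=
  ∀ p : ℕ, p.Prime → ∀ x : G, pel p x → x ≠ 1 → rho F p p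

def X2 (F : Cls) (G : Type) [Group G] : Prop :=
  ∀ p q : ℕ, p.Prime → q.Prime → ∀ x y : G, pel p x → pel q y → ⁅x, y⁆ ≠ 1 → rho F p q

theorem IsFit.x1 (hF : IsFit F) (h : F G) : X1 F G := fun p hp x a b =>
  have := Fact.mk hp
  rho_self fun _ _ _ c => hF.pgroup (hF.cyc h a b) c

theorem quot (hF : IsFit F) (hA : AF F) (hG : F G) (π : G →* H) (hπ : Surjective π)
    {V U : Subgroup H} (hV : ∀ a b : H, ⁅a, b⁆ ∈ V) (hc : ∀ a ∈ V, ∀ b ∈ V, a * b = b * a)
    (hmin : ∀ W ≤ V, W.Normal → W = ⊥ ∨ W = V) (hU : ∀ g, ∃ d ∈ U, ∃ v ∈ V, d * v = g)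
    (hi : ∀ x ∈ U, x ∈ V → x = 1) (nc : ∃ d ∈ U, ∃ v ∈ V, d * v ≠ v * d) : F H := by
  obtain ⟨_, _⟩ := hF.fin _ hG
  have := Finite.of_surjective π hπ
  have := Group.isSolvable_of_surjective hπ
  have hn := normal_of_comm hV
  have hUa := abn_compl hn hc hmin hU nc
  let f : fib π V →* G := (MonoidHom.fst G H).comp (fib π V).subtype
  let g : fib π V →* H := (MonoidHom.snd G H).comp (fib π V).subtype
  let δ : G →* fib π V := ((MonoidHom.id G).prod π).codRestrict _ fun x => mem_fib.2 (by simp)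
  have sg : Surjective g := fun h => by
    obtain ⟨x, rfl⟩ := hπ h
    exact ⟨δ x, rfl⟩
  have mV : ∀ x, f x = 1 → g x ∈ V := fun x hx => by
    have : (π (f x))⁻¹ * g x ∈ V := mem_fib.1 x.2
    simpa [hx] using this
  have ext : ∀ x y, f x = f y → g x = g y → x = y := fun x y a b => Subtype.ext (Prod.ext a b)
  have mk : ∀ v ∈ V, ∃ x, f x = 1 ∧ g x = v := fun v hv =>
    ⟨⟨(1, v), mem_fib.2 (by simpa using hv)⟩, rfl, rfl⟩
  have hD : Abn δ.range := by
    refine abn_compl (V := f.ker) inferInstance (fun a ha b hb => ext _ _ ?_ ?_)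
      (fun W hW hWn => ?_) (fun x => ⟨δ (f x), ⟨_, rfl⟩, (δ (f x))⁻¹ * x, ?_, by simp⟩) ?_
    · rw [map_mul, map_mul, MonoidHom.mem_ker.1 ha, mul_one, one_mul]
    · rw [map_mul, map_mul, hc _ (mV a ha) _ (mV b hb)]
    · rcases hmin (W.map g) (by rintro _ ⟨x, hx, rfl⟩; exact mV x (hW hx)) (hWn.map g sg) with h | h
      · exact Or.inl (eq_bot_iff.2 fun x hx => ext x 1 (hW hx) (h.le ⟨x, hx, rfl⟩))
      · refine Or.inr (le_antisymm hW fun x hx => ?_)
        obtain ⟨y, hy, e⟩ := h.ge (mV x hx)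
        rwa [← ext y x ((hW hy).trans hx.symm) e]
    · exact inv_mul_cancel (f x)
    · obtain ⟨d, -, v, hv, h⟩ := nc
      obtain ⟨d, rfl⟩ := hπ d
      obtain ⟨x, a, rfl⟩ := mk v hv
      exact ⟨δ d, ⟨d, rfl⟩, x, a, fun e => h (congrArg g e)⟩
  obtain ⟨J, hJ, hFJ, hle⟩ := hA (fib π V) inferInstance (U.comap g) δ.range (hUa.comap g sg) hD
    (hF.iso _ _ (MulEquiv.ofBijective (f.comp (U.comap g).subtype)
      ⟨(injective_iff_map_eq_one _).2 fun x hx => Subtype.ext (ext _ _ hx (hi _ x.2 (mV _ hx))),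
      fun x => by
        obtain ⟨u, hu, v, hv, e⟩ := hU (π x)
        exact ⟨⟨⟨(x, u), mem_fib.2 (by rw [← e]; simpa using hv)⟩, hu⟩, rfl⟩⟩).symm hG)
    (hF.range δ (fun a b h => congrArg f h) hG) fun x => by
      obtain ⟨y, hy⟩ := hπ (g x)
      exact ⟨x * (δ y)⁻¹, show g x * (π y)⁻¹ ∈ U by simp [hy], δ y, ⟨y, rfl⟩, by simp⟩
  have h1 := (hUa.comap π hπ).top (hJ.comap δ) fun x hx => hle ⟨hx, x, rfl⟩
  exact hF.strip π hπ V hV hG (hF.of_top (hD.top hJ (by
    rintro _ ⟨x, rfl⟩; exact h1.ge (mem_top x))) hFJ)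

theorem onto {s : ℕ} [Fact s.Prime] [Finite G] [Nontrivial G] (h : IsPGroup s G)
    (hc : ∀ a b : G, a * b = b * a) : ∃ l : G →* Multiplicative (ZMod s), Surjective l := by
  obtain ⟨k, hk, e⟩ := h.nontrivial_iff_card.1 inferInstance
  obtain ⟨k, rfl⟩ : ∃ j, k = j + 1 := ⟨k - 1, by omega⟩
  obtain ⟨K, hK⟩ := Sylow.exists_subgroup_card_pow_prime s (G := G) (n := k)
    (e ▸ pow_dvd_pow s (Nat.le_succ k))
  have : K.Normal := ⟨fun a ha g => by rwa [hc g, mul_inv_cancel_right]⟩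
  have h1 := card_eq_card_quotient_mul_card_subgroup K
  rw [e, hK, pow_succ'] at h1
  have i : G ⧸ K ≃* Multiplicative (ZMod s) := mulEquivOfPrimeCardEq (p := s)
    (Nat.eq_of_mul_eq_mul_right (pow_pos (Fact.out : s.Prime).pos k) h1).symm (by simp)
  exact ⟨i.toMonoidHom.comp (QuotientGroup.mk' K),
    i.surjective.comp (QuotientGroup.mk'_surjective K)⟩

theorem core (hF : IsFit F) (hA : AF F) (hG : F G) (π : G →* H) (hπ : Surjective π)
    (P0 : ¬ X2 F H)
    (P1 : ∀ L : Subgroup H, L.Normal → L ≠ ⊥ → ∀ p q : ℕ, p.Prime → q.Prime → ∀ x y : H, pel p x →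
      pel q y → ¬ rho F p q → ⁅x, y⁆ ∈ L)
    (P2 : ∀ L : Subgroup H, L.Normal → L ≠ ⊤ → ∀ p q : ℕ, p.Prime → q.Prime → ∀ x ∈ L, ∀ y ∈ L,
      pel p x → pel q y → ¬ rho F p q → ⁅x, y⁆ = 1) : False := by
  obtain ⟨_, _⟩ := hF.fin _ hG
  have := Finite.of_surjective π hπ
  have := Group.isSolvable_of_surjective hπ
  have x1 : X1 F H := fun p hp y a b => by
    obtain ⟨x, c, rfl⟩ := a.lift hp π hπ
    exact hF.x1 hG p hp x c fun e => b (by rw [e, map_one])
  unfold X2 at P0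
  push Not at P0
  obtain ⟨p, q, hp, hq, x0, y0, hx0, hy0, hne, hρ⟩ := P0
  have : Nontrivial H := ⟨_, _, hne⟩
  obtain ⟨V, ⟨hV, hV0⟩, hVm⟩ := (wellFounded_lt (α := Subgroup H)).has_min
    {V | V.Normal ∧ V ≠ ⊥} ⟨⊤, inferInstance, top_ne_bot⟩
  have hmin : ∀ W ≤ V, W.Normal → W = ⊥ ∨ W = V := fun W a b => by
    by_contra h
    push Not at h
    exact hVm W ⟨b, h.1⟩ (lt_of_le_of_ne a h.2)
  have hc : ∀ a ∈ V, ∀ b ∈ V, a * b = b * a := fun a ha b hb => by
    have h := Group.IsSolvable.commutator_lt_of_ne_bot hV0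
    exact commutatorElement_eq_one_iff_mul_comm.1
      (((hmin _ h.le inferInstance).resolve_right h.ne).le (commutator_mem_commutator ha hb))
  obtain ⟨s, hs, hd⟩ := Nat.exists_prime_and_dvd ((one_lt_card_iff_ne_bot V).2 hV0).ne'
  have := Fact.mk hs
  obtain ⟨v0, hv0⟩ := exists_prime_orderOf_dvd_card' s hd
  have hv1 : v0.1 ≠ 1 := fun e => hs.one_lt.ne (by rw [← hv0, ← orderOf_coe, e, orderOf_one])
  have hv2 : v0.1 ^ s = 1 := by rw [← hv0, ← orderOf_coe, pow_orderOf_eq_one]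
  have hsV : ∀ v ∈ V, pel s v := by
    let W : Subgroup H :=
      { carrier := {v | v ∈ V ∧ v ^ s = 1}
        mul_mem' := fun {a b} ha hb => ⟨V.mul_mem ha.1 hb.1, by
          rw [Commute.mul_pow (hc a ha.1 b hb.1), ha.2, hb.2, one_mul]⟩
        one_mem' := ⟨V.one_mem, one_pow _⟩
        inv_mem' := fun {a} ha => ⟨V.inv_mem ha.1, by rw [inv_pow, ha.2, inv_one]⟩ }
    have := (hmin W (fun _ h => h.1) ⟨fun a ha g => ⟨hV.conj_mem a ha.1 g, by
      rw [conj_pow, ha.2, mul_one, mul_inv_cancel]⟩⟩).resolve_left fun e => hv1 (e.le ⟨v0.2, hv2⟩)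
    exact fun v hv => ⟨1, by rw [pow_one]; exact (this.ge hv).2⟩
  have hss : rho F s s := x1 s hs v0 (hsV _ v0.2) hv1
  obtain ⟨a, ha, x, y, hx, has, hy1, hy2⟩ : ∃ a : ℕ, a.Prime ∧ ∃ x y : H, pel a x ∧ ¬ rho F a s ∧
      ⁅y, x⁆ ≠ 1 ∧ ⁅y, x⁆ ∈ V := by
    have h := P1 V hV hV0 p q hp hq x0 y0 hx0 hy0 hρ
    by_cases e : rho F q s
    · refine ⟨p, hp, x0, y0, hx0, fun e' => hρ (e'.trans hF hA hp hq hs e), ?_, ?_⟩ <;>
        rw [← commutatorElement_inv]
      exacts [inv_ne_one.2 hne, V.inv_mem h]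
    · exact ⟨q, hq, y0, x0, hy0, e, hne, h⟩
  have := Fact.mk ha
  have hne' : a ≠ s := fun e => has (e ▸ hss)
  have haa : rho F a a := x1 a ha x hx fun e => hy1 (by rw [e, commutatorElement_one_right])
  obtain ⟨v, hv, hxv⟩ : ∃ v ∈ V, ⁅x, v⁆ ≠ 1 := by
    by_contra h
    push Not at h
    obtain ⟨k, hk⟩ := hx
    have h1 : Commute ⁅y, x⁆ x := (commutatorElement_eq_one_iff_mul_comm.1 (h _ hy2)).symm
    have h2 : (⁅y, x⁆ * x) ^ a ^ k = 1 := by
      rw [commutatorElement_def, inv_mul_cancel_right, conj_pow, hk, mul_one, mul_inv_cancel]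
    rw [h1.mul_pow, hk, mul_one] at h2
    exact hy1 (pel.two ha hs hne' ⟨k, h2⟩ (hsV _ hy2))
  have hxV : ⁅x, v⁆ ∈ V := commutator_le_right ⊤ V (commutator_mem_commutator (mem_top x) hv)
  have VL : ∀ L : Subgroup H, L.Normal → ⁅x, v⁆ ∈ L → V ≤ L := fun L hL h =>
    ((hmin (L ⊓ V) inf_le_right inferInstance).resolve_left fun e => hxv (e.le ⟨h, hxV⟩)).ge.trans
      inf_le_left
  have T : ∀ L : Subgroup H, L.Normal → x ∈ L → L = ⊤ := fun L hL h => by
    by_contra e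
    exact hxv (P2 L hL e a s ha hs x h v (VL L hL (commutator_le_left L ⊤
      (commutator_mem_commutator h (mem_top v))) hv) hx (hsV v hv) has)
  have S1 : ∀ t : ℕ, t.Prime → rho F t s → ∀ z : H, pel t z → z ∈ V := by
    intro t ht hts z hz
    have := Fact.mk ht
    have hat : ¬ rho F a t := fun e => has ((e.symm hF hA ha ht).symm hF hA ht ha |>.trans hF hA ha hs ht
      (hts.symm hF hA ht hs))
    let Z : Sylow t (H ⧸ V) := default
    have hL := T ((centralizer {w : H ⧸ V | pel t w}).comap (QuotientGroup.mk' V))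
      (Normal.comap ⟨fun c hc g w hw => by
        have := hc _ (pel.conj hw g⁻¹)
        rw [← mul_right_inj g⁻¹, ← mul_left_inj g]
        simpa [mul_assoc] using this⟩ _) fun w hw => by
      obtain ⟨w, hw', rfl⟩ := pel.lift ht (QuotientGroup.mk' V) (QuotientGroup.mk'_surjective V) hw
      rw [eq_comm, ← commutatorElement_eq_one_iff_mul_comm, ← map_commutatorElement]
      exact (QuotientGroup.eq_one_iff _).2 (P1 V hV hV0 a t ha ht x w hx hw' hat)
    obtain ⟨θ, hθ⟩ := cpow Z.1 fun w hw => mem_center_iff.2 fun g => by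
      obtain ⟨g, rfl⟩ := QuotientGroup.mk_surjective g
      exact (hL.ge (mem_top g) w (pel.of_mem Z.isPGroup' hw)).symm
    have h2 := T (θ.comp (QuotientGroup.mk' V)).ker inferInstance
      ((hx.map _).two ha ht (fun e => hat (e ▸ haa)) (pel.of_mem Z.isPGroup' (hθ _).2))
    exact (QuotientGroup.eq_one_iff z).1 ((hz.map (QuotientGroup.mk' V)).eq_one
      (ht.coprime_iff_not_dvd.2 Z.not_dvd_index) ((hθ _).1.symm.trans (h2.ge (mem_top z))))
  have hM : commutator H ≠ ⊤ := (Group.IsSolvable.commutator_lt_top_of_nontrivial H).ne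
  have cm : ∀ a b : H, ⁅a, b⁆ ∈ commutator H := fun a b =>
    commutator_mem_commutator (mem_top a) (mem_top b)
  have VM := VL _ inferInstance (cm x v)
  have S2 : commutator H ≤ centralizer V := gen fun t ht z hz hz' w hw => by
    by_cases e : rho F t s
    · exact hc w hw z (S1 t ht e z hz')
    · exact (commutatorElement_eq_one_iff_mul_comm.1
        (P2 _ inferInstance hM t s ht hs z hz w (VM hw) hz' (hsV w hw) e)).symm
  obtain ⟨θ, hθ⟩ := cpow (V.subgroupOf (commutator H)) fun w hw => mem_center_iff.2 fun g =>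
    Subtype.ext (S2 g.2 w hw).symm
  have hcop : s.Coprime (V.subgroupOf (commutator H)).index := hs.coprime_iff_not_dvd.2 fun d => by
    obtain ⟨w, hw⟩ := exists_prime_orderOf_dvd_card' (G := commutator H ⧸ V.subgroupOf _) s d
    obtain ⟨z, hz, rfl⟩ := pel.lift hs (QuotientGroup.mk' _) (QuotientGroup.mk'_surjective _)
      (y := w) ⟨1, by rw [pow_one, ← hw, pow_orderOf_eq_one]⟩
    rw [QuotientGroup.mk'_apply, (QuotientGroup.eq_one_iff z).2
      (S1 s hs hss z (hz.map (commutator H).subtype)), orderOf_one] at hw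
    exact hs.one_lt.ne hw
  have mE : ∀ z, z ∈ θ.ker.map (commutator H).subtype ↔
      z ∈ commutator H ∧ z ^ (V.subgroupOf (commutator H)).index = 1 := fun z =>
    ⟨by rintro ⟨w, hw, rfl⟩; exact ⟨w.2, congrArg Subtype.val ((hθ w).1.symm.trans hw)⟩,
      fun h => ⟨⟨z, h.1⟩, (hθ _).1.trans (Subtype.ext h.2), rfl⟩⟩
  have hE : θ.ker.map (commutator H).subtype = ⊥ := by
    by_contra e
    exact hxv ((hsV _ hxV).eq_one hcop ((mE _).1 (P1 _ ⟨fun z hz g => (mE _).2
      ⟨Normal.conj_mem inferInstance _ ((mE _).1 hz).1 g, by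
        rw [conj_pow, ((mE _).1 hz).2, mul_one, mul_inv_cancel]⟩⟩ e a s ha hs x v hx (hsV v hv) has)).2)
  have S3 : commutator H ≤ V := gen fun t ht z hz hz' => by
    by_cases e : t = s
    · exact S1 s hs hss z (e ▸ hz')
    have h1 := (pel.map (x := (⟨z, hz⟩ : commutator H)) (hz'.imp fun k hk => Subtype.ext hk)
      ((commutator H).subtype.comp θ)).two ht hs e (hsV _ (hθ _).2)
    rw [show z = 1 from mem_bot.1 (hE.le ⟨⟨z, hz⟩, Subtype.ext h1, rfl⟩)]
    exact V.one_mem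
  have hU : IsPGroup a (zpowers x) := pgrp (by
    obtain ⟨k, hk⟩ := hx
    rintro _ ⟨j, rfl⟩
    exact ⟨k, by simp only; rw [← zpow_natCast, ← zpow_mul, mul_comm, zpow_mul, zpow_natCast, hk,
      one_zpow]⟩)
  have dec : ∀ g, ∃ d ∈ zpowers x, ∃ v ∈ V, d * v = g := fun g => mem_sup_of_normal_right.1
    ((T _ (normal_of_comm fun a b => mem_sup_right (S3 (cm a b)))
      (mem_sup_left (mem_zpowers x))).ge (mem_top g))
  have nc : ∃ d ∈ zpowers x, ∃ v ∈ V, d * v ≠ v * d :=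
    ⟨x, mem_zpowers x, v, hv, fun e => hxv (commutatorElement_eq_one_iff_mul_comm.2 e)⟩
  have : Nontrivial V := (nontrivial_iff_ne_bot V).2 hV0
  obtain ⟨l, hl⟩ := onto (pgrp hsV) fun a b => Subtype.ext (hc _ a.2 _ b.2)
  exact has ((rho_of_wit hF hA hne' haa hss ⟨quot hF hA hG π hπ (fun a b => S3 (cm a b)) hc hmin dec
    (fun z a b => (pel.of_mem hU a).two ha hs hne' (hsV z b)) nc, pgrp hsV, fun a b => S3 (cm a b),
    hU, abn_compl hV hc hmin dec nc⟩ l hl).symm hF hA hs ha)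

theorem card_lt [Finite G] {K : Subgroup G} (h : K ≠ ⊤) : Nat.card K < Nat.card G :=
  Finite.card_subtype_lt (p := fun g => g ∈ K)
    (SetLike.exists_of_lt (lt_top_iff_ne_top.2 h)).choose_spec.2

theorem x2 (hF : IsFit F) (hA : AF F) (hG : F G) : X2 F G := by
  induction hn : Nat.card G using Nat.strong_induction_on generalizing G with
  | _ n ih =>
  obtain ⟨_, _⟩ := hF.fin _ hG
  intro p0 q0 hp0 hq0 x0 y0 a0 b0 c0
  by_contra d0
  obtain ⟨N, ⟨hN, p, q, hp, hq, x, y, a, b, c, d⟩, hm⟩ := (wellFounded_gt (α := Subgroup G)).has_min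
    {N | N.Normal ∧ ∃ p q : ℕ, p.Prime ∧ q.Prime ∧ ∃ x y : G, pel p x ∧ pel q y ∧ ⁅x, y⁆ ∉ N ∧
      ¬ rho F p q} ⟨⊥, inferInstance, p0, q0, hp0, hq0, x0, y0, a0, b0, c0, d0⟩
  have sj := QuotientGroup.mk'_surjective N
  refine core hF hA hG (QuotientGroup.mk' N) sj (fun h => d (h p q hp hq _ _
    (a.map (QuotientGroup.mk' N)) (b.map (QuotientGroup.mk' N)) fun e => c ((QuotientGroup.eq_one_iff _).1 e)))
    (fun L hL h0 p q hp hq x y a b d => ?_) fun L hL h0 p q hp hq x hx y hy a b d => ?_ <;>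
    obtain ⟨x, a', rfl⟩ := a.lift hp _ sj <;> obtain ⟨y, b', rfl⟩ := b.lift hq _ sj
  · by_contra e
    refine hm (L.comap (QuotientGroup.mk' N)) ⟨hL.comap _, p, q, hp, hq, x, y, a', b', e, d⟩
      (lt_of_le_of_ne ((QuotientGroup.ker_mk' N).ge.trans (ker_le_comap _ L)) fun e' => h0 ?_)
    rw [← map_comap_eq_self_of_surjective sj L, ← e', QuotientGroup.map_mk'_self]
  · by_contra e
    refine d (ih _ (hn ▸ card_lt fun e' => h0 ?_) (hF.sn _ _ (hL.comap (QuotientGroup.mk' N)) hG) rfl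
      p q hp hq ⟨x, hx⟩ ⟨y, hy⟩ (a'.imp fun k hk => Subtype.ext hk)
      (b'.imp fun k hk => Subtype.ext hk)
      fun e' => e ?_)
    · rw [← map_commutatorElement, show ⁅x, y⁆ = 1 from congrArg Subtype.val e', map_one]
    · rw [← map_comap_eq_self_of_surjective sj L, e', map_top_of_surjective _ sj]

theorem X1.inj (h : X1 F H) (φ : G →* H) (hφ : Injective φ) : X1 F G := fun p hp x a b =>
  h p hp _ (a.map φ) fun e => b ((injective_iff_map_eq_one φ).1 hφ x e)

theorem X2.inj (h : X2 F H) (φ : G →* H) (hφ : Injective φ) : X2 F G := fun p q hp hq x y a b c =>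
  h p q hp hq _ _ (a.map φ) (b.map φ) fun e => c ((injective_iff_map_eq_one φ).1 hφ _
    ((map_commutatorElement φ x y).trans e))

theorem ofX (hF : IsFit F) (hA : AF F) [Finite G] [Group.IsSolvable G] (h1 : X1 F G)
    (h2 : X2 F G) : F G := by
  induction hn : Nat.card G using Nat.strong_induction_on generalizing G with
  | _ n ih =>
  have sub : ∀ K : Subgroup G, K ≠ ⊤ → F K := fun K hK =>
    ih _ (hn ▸ card_lt hK) (h1.inj _ K.subtype_injective) (h2.inj _ K.subtype_injective) rfl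
  obtain ⟨M, hMn, hFM, hM⟩ := hF.rad G
  by_contra hG
  have hMt : M ≠ ⊤ := fun e => hG (hF.of_top e hFM)
  have top : ∀ L : Subgroup G, L.Normal → ¬ L ≤ M → L = ⊤ := fun L hL h => by
    by_contra e
    exact h (hM L hL.isSubnormal (sub L e))
  have : Nontrivial G := by
    by_contra h
    rw [not_nontrivial_iff_subsingleton] at h
    exact hG hF.triv
  have cm : ∀ a b : G, ⁅a, b⁆ ∈ M := fun a b => hM _ (Normal.isSubnormal inferInstance)
    (sub _ (Group.IsSolvable.commutator_lt_top_of_nontrivial G).ne)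
    (commutator_mem_commutator (mem_top a) (mem_top b))
  obtain ⟨q, hq, g, hg, hgM⟩ : ∃ q : ℕ, q.Prime ∧ ∃ g, pel q g ∧ g ∉ M := by
    by_contra h
    push Not at h
    exact hMt (eq_top_iff.2 (gen fun p hp y _ hy => h p hp y hy))
  have := Fact.mk hq
  have hqq : rho F q q := h1 q hq g hg fun e => hgM (e ▸ M.one_mem)
  have qM : ∀ y : G, pel q (QuotientGroup.mk' M y) := fun y => by
    obtain ⟨_, ⟨j, rfl⟩, m, hm, rfl⟩ := mem_sup_of_normal_right.1 ((top (zpowers g ⊔ M)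
      (normal_of_comm fun a b => mem_sup_right (cm a b))
      fun h => hgM (h (mem_sup_left (mem_zpowers g)))).ge (mem_top y))
    obtain ⟨k, hk⟩ := hg
    refine ⟨k, ?_⟩
    rw [QuotientGroup.mk'_apply, QuotientGroup.mk_mul_of_mem _ hm, ← QuotientGroup.mk_pow]
    simp only
    rw [← zpow_natCast, ← zpow_mul, mul_comm, zpow_mul, zpow_natCast, hk, one_zpow]
    rfl
  let R := normalClosure {x : G | ∃ t : ℕ, t.Prime ∧ t ≠ q ∧ pel t x}
  have RM : R ≤ M := normalClosure_le_normal fun x ⟨t, a, b, c⟩ =>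
    (QuotientGroup.eq_one_iff x).1 ((c.map (QuotientGroup.mk' M)).two a hq b (qM x))
  have qR : IsPGroup q (G ⧸ R) := IsPGroup.of_card (Nat.eq_prime_pow_of_unique_prime_dvd
    Nat.card_pos.ne' fun {t} ht hd => by
      have := Fact.mk ht
      obtain ⟨y, hy⟩ := exists_prime_orderOf_dvd_card' t hd
      obtain ⟨x, hx, rfl⟩ := pel.lift ht _ (QuotientGroup.mk'_surjective R) (y := y)
        ⟨1, by rw [pow_one, ← hy, pow_orderOf_eq_one]⟩
      by_contra e
      rw [QuotientGroup.mk'_apply, (QuotientGroup.eq_one_iff (N := R) x).2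
        (subset_normalClosure ⟨t, ht, e, hx⟩), orderOf_one] at hy
      exact ht.one_lt.ne hy)
  have R0 : R ≠ ⊥ := fun e => hG (hqq.left fun y => by
    obtain ⟨k, hk⟩ := qR y
    exact ⟨k, e.le ((QuotientGroup.eq_one_iff (N := R) _).1 hk)⟩)
  obtain ⟨L, ⟨hL, LR⟩, hLm⟩ := (wellFounded_gt (α := Subgroup G)).has_min
    {L | L.Normal ∧ L < R} ⟨⊥, inferInstance, bot_lt_iff_ne_bot.2 R0⟩
  have btw : ∀ W : Subgroup G, W.Normal → L ≤ W → W ≤ R → W = L ∨ W = R := fun W a b c => by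
    by_contra h
    push Not at h
    exact hLm W ⟨a, lt_of_le_of_ne c h.2⟩ (lt_of_le_of_ne b h.1.symm)
  obtain ⟨x0, ⟨p, hp, hpq, hx0⟩, hxL⟩ : ∃ x ∈ {x : G | ∃ t : ℕ, t.Prime ∧ t ≠ q ∧ pel t x},
      x ∉ L := by
    by_contra h
    push Not at h
    exact LR.not_ge (normalClosure_le_normal h)
  have hxR : x0 ∈ R := subset_normalClosure ⟨p, hp, hpq, hx0⟩
  have := Fact.mk hp
  have sj := QuotientGroup.mk'_surjective L
  have ab : ⁅R, R⁆ ≤ L := by
    rcases btw (⁅R, R⁆ ⊔ L) inferInstance le_sup_right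
      (sup_le (commutator_le_left R R) LR.le) with h | h
    · exact le_sup_left.trans h.le
    · have := Group.IsSolvable.commutator_lt_of_ne_bot (H := R.map (QuotientGroup.mk' L)) fun e =>
        hxL ((QuotientGroup.eq_one_iff x0).1 (e.le ⟨x0, hxR, rfl⟩))
      rw [← map_commutator] at this
      refine absurd ?_ this.ne
      conv_rhs => rw [← h, Subgroup.map_sup, QuotientGroup.map_mk'_self, sup_bot_eq]
  have pR : IsPGroup p (R.map (QuotientGroup.mk' L)) := by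
    let W : Subgroup G :=
      { carrier := {v | v ∈ R ∧ pel p (QuotientGroup.mk' L v)}
        mul_mem' := fun {a b} ha hb => ⟨R.mul_mem ha.1 hb.1, by
          obtain ⟨i, hi⟩ := ha.2
          obtain ⟨j, hj⟩ := hb.2
          have : Commute (QuotientGroup.mk' L a) (QuotientGroup.mk' L b) :=
            commutatorElement_eq_one_iff_mul_comm.1 ((QuotientGroup.eq_one_iff ⁅a, b⁆).2
              (ab (commutator_mem_commutator ha.1 hb.1)))
          exact ⟨i + j, by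
            rw [map_mul, this.mul_pow, pow_add, pow_mul, hi, mul_comm (p ^ i), pow_mul, hj]
            simp⟩⟩
        one_mem' := ⟨R.one_mem, 0, by simp⟩
        inv_mem' := fun {a} ha => ⟨R.inv_mem ha.1, ha.2.imp fun k hk => by
          rw [map_inv, inv_pow, hk, inv_one]⟩ }
    have := (btw W ⟨fun a ha g => ⟨Normal.conj_mem inferInstance a ha.1 g, by
      rw [map_mul, map_mul, map_inv]; exact ha.2.conj _⟩⟩ (fun a ha => ⟨LR.le ha, 0, by
        rw [pow_zero, pow_one]; exact (QuotientGroup.eq_one_iff a).2 ha⟩)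
      fun a ha => ha.1).resolve_left fun e => hxL (e.le ⟨hxR, hx0.map _⟩)
    exact pgrp (by rintro _ ⟨a, ha, rfl⟩; exact (this.ge ha).2)
  obtain ⟨T1, t1, t2, t3⟩ := lift (QuotientGroup.mk' L) R pR
  obtain ⟨T, hT, t4⟩ := exists_maxP t2 t1
  have RTL : ∀ r ∈ R, ∃ t ∈ T, ∃ l ∈ L, t * l = r := fun r hr => by
    obtain ⟨t, ht, e⟩ := t3.ge ⟨r, hr, rfl⟩
    exact ⟨t, t4 ht, t⁻¹ * r, QuotientGroup.eq.1 e, by simp⟩
  have dec : ∀ g, ∃ a ∈ normalizer (T : Set G), ∃ l ∈ L, a * l = g := fun g => by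
    obtain ⟨n, hn, h⟩ := hT.frattini (s := g) (by rw [normalizer_eq_top]; exact mem_top g)
    obtain ⟨t, ht, l, hl, e⟩ := RTL _ (R.inv_mem hn)
    exact ⟨g * n * t, mul_mem h (le_normalizer ht), l, hl, by rw [mul_assoc, e]; simp⟩
  obtain ⟨S0, s1, s2, s3⟩ := lift (QuotientGroup.mk' R) (normalizer (T : Set G)) (qR.to_subgroup _)
  obtain ⟨S, hS, s4⟩ := exists_maxP (L := ⊤) s2 le_top
  have SR : ∀ g, ∃ s ∈ S0, ∃ r ∈ R, s * r = g := fun g => by
    obtain ⟨a, ha, l, hl, rfl⟩ := dec g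
    obtain ⟨t, ht, e⟩ := s3.ge ⟨a, ha, rfl⟩
    exact ⟨t, ht, t⁻¹ * a * l, R.mul_mem (QuotientGroup.eq.1 e) (LR.le hl), by group⟩
  have S0M : ¬ S0 ≤ M := fun h => hgM (by
    obtain ⟨s, hs, r, hr, rfl⟩ := SR g
    exact M.mul_mem (h hs) (RM hr))
  have aS := abn_normalizer normal_top hS
  have nrm : ∀ K : Subgroup G, K.Normal → normalizer (S : Set G) ⊔ K = ⊤ → ∀ g,
      ∃ s ∈ S, ∃ k ∈ K, s * k = g := fun K hK h g => mem_sup_of_normal_right.1 ((top (S ⊔ K)
    (normalizer_eq_top_iff.1 (eq_top_iff.2 (h.ge.trans (sup_le (fun n hn =>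
      normalizer_inf_normalizer_le_normalizer_sup S K ⟨hn, by
        rw [normalizer_eq_top]; exact mem_top n⟩) (le_sup_right.trans le_normalizer)))))
    fun h => S0M (s4.trans (le_sup_left.trans h))).ge (mem_top g))
  have hB : normalizer (S : Set G) ⊔ L ≠ ⊤ := fun e => by
    obtain ⟨s, hs, l, hl, e⟩ := nrm L hL e x0
    refine hxL ((QuotientGroup.eq_one_iff x0).1 ((hx0.map (QuotientGroup.mk' L)).two hp hq hpq ?_))
    rw [← e, QuotientGroup.mk'_apply, QuotientGroup.mk_mul_of_mem s hl]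
    exact (pel.of_mem hS.2.1 hs).map (QuotientGroup.mk' L)
  have fin : ∀ A : Subgroup G, Abn A → A ≠ ⊤ → S0 ≤ A → (∀ g, ∃ a ∈ A, ∃ l ∈ L, a * l = g) →
      False := fun A a b c d => by
    obtain ⟨J, hJ, hFJ, hle⟩ := hA G inferInstance A _ a (aS.mono le_sup_left) (sub _ b) (sub _ hB)
      fun g => by
        obtain ⟨x, hx, l, hl, e⟩ := d g
        exact ⟨x, hx, l, mem_sup_right hl, e⟩
    exact S0M ((le_inf c (s4.trans (le_normalizer.trans le_sup_left))).trans
      (hle.trans (hM J hJ.isSubnormal hFJ)))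
  by_cases hT0 : normalizer (T : Set G) = ⊤
  swap
  · exact fin _ (abn_normalizer inferInstance hT) hT0 s1 dec
  have hTn := normalizer_eq_top_iff.1 hT0
  by_cases hA' : normalizer (S : Set G) ⊔ T = ⊤
  swap
  · refine fin _ (aS.mono le_sup_left) hA' (s4.trans (le_normalizer.trans le_sup_left)) fun g => ?_
    obtain ⟨s, hs, r, hr, rfl⟩ := SR g
    obtain ⟨t, ht, l, hl, rfl⟩ := RTL r hr
    exact ⟨s * t, mul_mem (mem_sup_left (le_normalizer (s4 hs))) (mem_sup_right ht), l, hl,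
      mul_assoc _ _ _⟩
  by_cases hc : ∀ t ∈ T, ∀ s ∈ S, ⁅t, s⁆ = 1
  · refine hB (eq_top_iff.2 (hA'.ge.trans (sup_le le_sup_left (le_trans ?_ le_sup_left))))
    refine le_normalizer_iff.2 fun t ht s hs => ?_
    rwa [commutatorElement_eq_one_iff_mul_comm.1 (hc t ht s hs), mul_inv_cancel_right]
  push Not at hc
  obtain ⟨t, ht, s, hs, h⟩ := hc
  refine hG (h2 p q hp hq t s (pel.of_mem hT.2.1 ht) (pel.of_mem hS.2.1 hs) h G
    ⟨T, hTn, hT.2.1, fun g => ?_⟩)
  obtain ⟨s, hs, t, ht, rfl⟩ := nrm T hTn hA' g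
  obtain ⟨k, hk⟩ := pel.of_mem hS.2.1 hs
  exact ⟨k, (QuotientGroup.eq_one_iff _).1 (by
    rw [QuotientGroup.mk_pow, QuotientGroup.mk_mul_of_mem s ht, ← QuotientGroup.mk_pow, hk]; rfl)⟩

theorem quotient (hF : IsFit F) (hA : AF F) (N : Subgroup G) [N.Normal] (hG : F G) : F (G ⧸ N) := by
  obtain ⟨_, _⟩ := hF.fin _ hG
  have sj := QuotientGroup.mk'_surjective N
  refine ofX hF hA (fun p hp y a b => ?_) fun p q hp hq x y a b c => ?_
  · obtain ⟨x, c, rfl⟩ := a.lift hp _ sj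
    exact hF.x1 hG p hp x c fun e => b (by rw [e, map_one])
  · obtain ⟨x, a', rfl⟩ := a.lift hp _ sj
    obtain ⟨y, b', rfl⟩ := b.lift hq _ sj
    exact x2 hF hA hG p q hp hq x y a' b' fun e => c (by rw [← map_commutatorElement, e, map_one])

theorem subdirect (hF : IsFit F) (hA : AF F) {A B : Type} [Group A] [Group B] (f : G →* A)
    (g : G →* B) (hi : ∀ x, f x = 1 → g x = 1 → x = 1) (a : F A) (b : F B) : F G := by
  have h := hF.prod a b
  obtain ⟨_, _⟩ := hF.fin _ h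
  have i : Injective (f.prod g) := (injective_iff_map_eq_one _).2 fun x h =>
    hi x (congrArg Prod.fst h) (congrArg Prod.snd h)
  have := Finite.of_injective _ i
  have := Group.isSolvable_of_isSolvable_injective i
  exact ofX hF hA ((hF.x1 h).inj _ i) ((x2 hF hA h).inj _ i)

end Pool.Agent.H22.Fit
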