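import Mathlib

namespace Pool.Agent.H22.FormLat

open Function Subgroup

abbrev Cls := (G : Type) → [Group G] → Prop

def IsForm (F : Cls) : Prop :=
  (∀ (G : Type) [Group G], F G → Finite G) ∧
  (∀ (G K : Type) [Group G] [Group K], Nonempty (G ≃* K) → F G → F K) ∧
  (∀ (G : Type) [Group G] (N : Subgroup G) [N.Normal], F G → F (G ⧸ N)) ∧
  (∀ (G : Type) [Group G] [Finite G] (N L : Subgroup G) [N.Normal] [L.Normal],
    N ⊓ L = ⊥ → F (G ⧸ N) → F (G ⧸ L) → F G)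

def IsSat (F : Cls) : Prop := ∀ (G : Type) [Group G] [Finite G], F (G ⧸ frattini G) → F G

variable {F : Cls}

theorem surj (hF : IsForm F) {A B : Type} [Group A] [Group B] (f : A →* B) (hf : Surjective f)
    (h : F A) : F B :=
  hF.2.1 _ _ ⟨QuotientGroup.quotientKerEquivOfSurjective f hf⟩ (hF.2.2.1 A f.ker h)

theorem of_ker_le (hF : IsForm F) {A B C : Type} [Group A] [Group B] [Group C] (f : A →* B)
    (hf : Surjective f) (g : A →* C) (hg : Surjective g) (hk : f.ker ≤ g.ker) (h : F B) : F C := by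
  refine surj hF (f.liftOfSurjective hf ⟨g, hk⟩) (fun c => ?_) h
  obtain ⟨a, rfl⟩ := hg c
  exact ⟨f a, MonoidHom.liftOfRightInverse_comp_apply _ _ _ _ _⟩

/-- The quotient of D by N lies in F. -/
def Fq (F : Cls) {D : Type} [Group D] (N : Subgroup D) : Prop :=
  ∃ (Q : Type) (_ : Group Q) (f : D →* Q), Surjective f ∧ f.ker = N ∧ F Q

theorem Fq.of_le (hF : IsForm F) {D C : Type} [Group D] [Group C] {N : Subgroup D} (h : Fq F N)
    (g : D →* C) (hg : Surjective g) (hk : N ≤ g.ker) : F C := by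
  obtain ⟨Q, _, f, hf, rfl, hQ⟩ := h
  exact of_ker_le hF f hf g hg hk hQ

theorem Fq.quot (hF : IsForm F) {D : Type} [Group D] {N : Subgroup D} (h : Fq F N)
    (L : Subgroup D) [L.Normal] (hk : N ≤ L) : F (D ⧸ L) :=
  h.of_le hF (QuotientGroup.mk' L) (QuotientGroup.mk'_surjective L)
    (by rwa [QuotientGroup.ker_mk'])

theorem Fq.mk {D : Type} [Group D] (L : Subgroup D) [L.Normal] (h : F (D ⧸ L)) : Fq F L :=
  ⟨_, _, QuotientGroup.mk' L, QuotientGroup.mk'_surjective L, QuotientGroup.ker_mk' L, h⟩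

theorem Fq.comap {D E : Type} [Group D] [Group E] {N : Subgroup D} (h : Fq F N) (p : E →* D)
    (hp : Surjective p) : Fq F (N.comap p) := by
  obtain ⟨Q, _, f, hf, rfl, hQ⟩ := h
  exact ⟨Q, _, f.comp p, hf.comp hp, rfl, hQ⟩

theorem Fq.inf (hF : IsForm F) {D : Type} [Group D] [Finite D] {N L : Subgroup D} (h : Fq F N)
    (h' : Fq F L) : Fq F (N ⊓ L) := by
  obtain ⟨Q, _, f, hf, rfl, hQ⟩ := h
  obtain ⟨R, _, g, hg, rfl, hR⟩ := h'
  refine Fq.mk _ ?_
  let f' : D ⧸ (f.ker ⊓ g.ker) →* Q := QuotientGroup.lift _ f fun x hx => hx.1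
  let g' : D ⧸ (f.ker ⊓ g.ker) →* R := QuotientGroup.lift _ g fun x hx => hx.2
  have hf' : Surjective f' := fun q => by
    obtain ⟨x, rfl⟩ := hf q
    exact ⟨QuotientGroup.mk x, rfl⟩
  have hg' : Surjective g' := fun q => by
    obtain ⟨x, rfl⟩ := hg q
    exact ⟨QuotientGroup.mk x, rfl⟩
  refine hF.2.2.2 _ f'.ker g'.ker ?_
    (hF.2.1 _ _ ⟨(QuotientGroup.quotientKerEquivOfSurjective f' hf').symm⟩ hQ)
    (hF.2.1 _ _ ⟨(QuotientGroup.quotientKerEquivOfSurjective g' hg').symm⟩ hR)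
  rw [eq_bot_iff]
  rintro x ⟨h1, h2⟩
  obtain ⟨x, rfl⟩ := QuotientGroup.mk_surjective x
  exact (QuotientGroup.eq_one_iff x).2 ⟨h1, h2⟩

theorem Fq.sat (hF : IsForm F) (hS : IsSat F) {D : Type} [Group D] [Finite D] (K : Subgroup D)
    [K.Normal] {L : Subgroup D} (h : Fq F L) (hW : ∀ W : Subgroup D, IsCoatom W → K ≤ W → L ≤ W) :
    Fq F K := by
  refine Fq.mk _ (hS _ ?_)
  refine h.of_le hF ((QuotientGroup.mk' _).comp (QuotientGroup.mk' K))
    ((QuotientGroup.mk'_surjective _).comp (QuotientGroup.mk'_surjective _)) fun x hx => ?_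
  rw [MonoidHom.mem_ker, MonoidHom.comp_apply, QuotientGroup.mk'_apply, QuotientGroup.eq_one_iff]
  unfold frattini Order.radical
  simp only [mem_iInf]
  intro W hWc
  refine hW (W.comap (QuotientGroup.mk' K))
    (isCoatom_comap_of_surjective (QuotientGroup.mk'_surjective K) hWc) (fun k hk => ?_) hx
  rw [mem_comap, QuotientGroup.mk'_apply, (QuotientGroup.eq_one_iff k).2 hk]
  exact W.one_mem

/-- Quotients of subdirect products of a member of F and a member of F'. -/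
def Jn (F F' : Cls) : Cls := fun G _ =>
  ∃ (D : Type) (_ : Group D) (_ : Finite D) (X Y : Subgroup D) (p : D →* G),
    X ⊓ Y = ⊥ ∧ Fq F Y ∧ Fq F' X ∧ Surjective p

theorem Jn_form {F' : Cls} (hF : IsForm F) (hF' : IsForm F') : IsForm (Jn F F') := by
  refine ⟨?_, ?_, ?_, ?_⟩
  · rintro G _ ⟨D, _, _, X, Y, p, -, -, -, hp⟩
    exact Finite.of_surjective p hp
  · rintro G K _ _ ⟨e⟩ ⟨D, _, _, X, Y, p, h1, h2, h3, hp⟩
    exact ⟨D, _, inferInstance, X, Y, e.toMonoidHom.comp p, h1, h2, h3, e.surjective.comp hp⟩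
  · rintro G _ N _ ⟨D, _, _, X, Y, p, h1, h2, h3, hp⟩
    exact ⟨D, _, inferInstance, X, Y, (QuotientGroup.mk' N).comp p, h1, h2, h3,
      (QuotientGroup.mk'_surjective N).comp hp⟩
  · rintro G _ _ N L _ _ hNL ⟨D, _, _, X, Y, p, h1, h2, h3, hp⟩ ⟨E, _, _, X', Y', q, k1, k2, k3, hq⟩
    let a : G × D × E →* G := MonoidHom.fst _ _
    let b : G × D × E →* D := (MonoidHom.fst _ _).comp (MonoidHom.snd _ _)
    let c : G × D × E →* E := (MonoidHom.snd _ _).comp (MonoidHom.snd _ _)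
    let S : Subgroup (G × D × E) := ((QuotientGroup.mk' N).comp a).eqLocus (p.comp b) ⊓
      ((QuotientGroup.mk' L).comp a).eqLocus (q.comp c)
    have mem : ∀ (g : G) (d : D) (e : E), (g : G ⧸ N) = p d → (g : G ⧸ L) = q e → (g, d, e) ∈ S :=
      fun g d e u v => ⟨u, v⟩
    have ha : Surjective (a.comp S.subtype) := fun g => by
      obtain ⟨d, hd⟩ := hp g
      obtain ⟨e, he⟩ := hq g
      exact ⟨⟨(g, d, e), mem g d e hd.symm he.symm⟩, rfl⟩
    have hb : Surjective (b.comp S.subtype) := fun d => by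
      obtain ⟨g, hg⟩ := QuotientGroup.mk_surjective (p d)
      obtain ⟨e, he⟩ := hq g
      exact ⟨⟨(g, d, e), mem g d e hg he.symm⟩, rfl⟩
    have hc : Surjective (c.comp S.subtype) := fun e => by
      obtain ⟨g, hg⟩ := QuotientGroup.mk_surjective (q e)
      obtain ⟨d, hd⟩ := hp g
      exact ⟨⟨(g, d, e), mem g d e hd.symm hg⟩, rfl⟩
    refine ⟨S, _, inferInstance, X.comap (b.comp S.subtype) ⊓ X'.comap (c.comp S.subtype),
      Y.comap (b.comp S.subtype) ⊓ Y'.comap (c.comp S.subtype), a.comp S.subtype, ?_,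
      (h2.comap _ hb).inf hF (k2.comap _ hc), (h3.comap _ hb).inf hF' (k3.comap _ hc), ha⟩
    rw [eq_bot_iff]
    rintro ⟨⟨g, d, e⟩, u, v⟩ ⟨⟨x1, x2⟩, y1, y2⟩
    have hd : d = 1 := (h1.le ⟨x1, y1⟩ : d ∈ (⊥ : Subgroup D))
    have he : e = 1 := (k1.le ⟨x2, y2⟩ : e ∈ (⊥ : Subgroup E))
    subst hd he
    have u' : (g : G ⧸ N) = 1 := u.trans (map_one p)
    have v' : (g : G ⧸ L) = 1 := v.trans (map_one q)
    have hg : g = 1 := (hNL.le ⟨(QuotientGroup.eq_one_iff g).1 u',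
      (QuotientGroup.eq_one_iff g).1 v'⟩ : g ∈ (⊥ : Subgroup G))
    subst hg
    rfl

theorem Fq_top (hF : IsForm F) {A : Type} [Group A] (hA : F A) (D : Type) [Group D] :
    Fq F (⊤ : Subgroup D) :=
  Fq.mk _ (surj hF (1 : A →* D ⧸ (⊤ : Subgroup D)) (fun x => ⟨1, by
    have := QuotientGroup.subsingleton_quotient_top (G := D)
    exact Subsingleton.elim _ _⟩) hA)

theorem Fq_bot {D : Type} [Group D] (h : F D) : Fq F (⊥ : Subgroup D) :=
  ⟨D, _, MonoidHom.id D, surjective_id, MonoidHom.ker_id, h⟩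

theorem Fq.normal {D : Type} [Group D] {N : Subgroup D} (h : Fq F N) : N.Normal := by
  obtain ⟨Q, _, f, -, rfl, -⟩ := h
  infer_instance

theorem core {H F₁ F₂ : Cls} (hH : IsForm H) (hS : IsSat H) (h1 : IsForm F₁) (h2 : IsForm F₂)
    (hH1 : ∀ (G : Type) [Group G], H G → F₁ G)
    (hI : ∀ (G : Type) [Group G], F₁ G → F₂ G → H G)
    {D : Type} [Group D] [Finite D] (X Y K N : Subgroup D) [K.Normal] [N.Normal]
    (hXY : X ⊓ Y = ⊥) (hY : Fq F₁ Y) (hX : Fq F₂ X) (hN : Fq F₁ N) (hKN : K ≤ N)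
    (hmin : ∀ T : Subgroup D, T.Normal → K ≤ T → T ≤ N → T = K ∨ T = N)
    (hfr : ∀ W : Subgroup D, IsCoatom W → K ≤ W → N ≤ W) : F₁ (D ⧸ K) := by
  have := hX.normal
  have := hY.normal
  have both : ∀ (T : Subgroup D) [T.Normal] (A B : Subgroup D), Fq F₁ A → Fq F₂ B → A ≤ T → B ≤ T →
      Fq H T := fun T _ A B a b c d => Fq.mk T (hI _ (a.quot h1 T c) (b.quot h2 T d))
  have up : ∀ T : Subgroup D, Fq H T → Fq F₁ T := by
    rintro T ⟨Q, _, f, a, b, c⟩
    exact ⟨Q, _, f, a, b, hH1 _ c⟩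
  rcases hmin (N ⊓ (X ⊔ K)) inferInstance (le_inf hKN le_sup_right) inf_le_left with hB | hB
  · have a := both (N ⊔ (X ⊔ K)) N X hN hX le_sup_left (le_sup_left.trans le_sup_right)
    have b := Fq.sat hH hS (X ⊔ K) a fun W hW hle =>
      sup_le (hfr W hW (le_sup_right.trans hle)) hle
    exact (hN.inf h1 (up _ b)).quot h1 K hB.le
  have hNX : N ≤ X ⊔ K := hB.ge.trans inf_le_right
  have hU : Fq F₁ (N ⊓ Y) := hN.inf h1 hY
  have hT := both (X ⊔ (N ⊓ Y)) _ _ hU hX le_sup_right le_sup_left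
  by_cases hc : ∀ W : Subgroup D, IsCoatom W → X ⊔ (K ⊓ Y) ≤ W → X ⊔ (N ⊓ Y) ≤ W
  · have b := Fq.sat hH hS (X ⊔ (K ⊓ Y)) hT hc
    refine (hU.inf h1 (up _ b)).quot h1 K ?_
    rintro u ⟨hu, hu'⟩
    obtain ⟨x, hx, y, hy, rfl⟩ := mem_sup_of_normal_left.1 hu'
    have : x ∈ X ⊓ Y := ⟨hx, by simpa using Y.mul_mem hu.2 (Y.inv_mem hy.2)⟩
    rw [hXY, mem_bot] at this
    rw [this, one_mul]
    exact hy.1
  push Not at hc
  obtain ⟨W, hW, hle, hnot⟩ := hc
  have hXW : X ≤ W := le_sup_left.trans hle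
  have hUW : ¬ N ⊓ Y ≤ W := fun h => hnot (sup_le hXW h)
  have t1 : W ⊔ (N ⊓ Y) = ⊤ := hW.2 _ (left_lt_sup.2 hUW)
  have t2 : W ⊔ K = ⊤ := by
    rw [eq_top_iff, ← t1]
    exact sup_le le_sup_left (inf_le_left.trans (hNX.trans (sup_le_sup_right hXW K)))
  have dec : ∀ (A : Subgroup D) [A.Normal], W ⊔ A = ⊤ → ∀ d : D, ∃ w ∈ W, ∃ a ∈ A, w * a = d :=
    fun A _ h d => mem_sup_of_normal_right.1 (h ▸ mem_top d)
  have hR : ((W ⊓ (N ⊓ Y)) ⊔ K).Normal := by
    constructor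
    intro r hr d
    obtain ⟨u, hu, k, hk, rfl⟩ := mem_sup_of_normal_right.1 hr
    obtain ⟨w, hw, a, ha, rfl⟩ := dec K t2 d
    have e : w * a * (u * k) * (w * a)⁻¹
        = (w * u * w⁻¹) * (w * ((u⁻¹ * a * u⁻¹⁻¹) * k * a⁻¹) * w⁻¹) := by group
    rw [e]
    refine mul_mem (mem_sup_left ⟨W.mul_mem (W.mul_mem hw hu.1) (W.inv_mem hw),
      Normal.conj_mem inferInstance _ hu.2 w⟩) (mem_sup_right ?_)
    exact Normal.conj_mem inferInstance _
      (K.mul_mem (K.mul_mem (Normal.conj_mem inferInstance _ ha _) hk) (K.inv_mem ha)) w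
  rcases hmin _ hR le_sup_right (sup_le (inf_le_right.trans inf_le_left) hKN) with h | h
  · obtain ⟨Q, _, f, hf, hk, hQ⟩ := hU
    refine of_ker_le h1 (f.comp W.subtype) (fun q => ?_) ((QuotientGroup.mk' K).comp W.subtype)
      (fun q => ?_) (fun w hw => ?_) hQ
    · obtain ⟨d, rfl⟩ := hf q
      obtain ⟨w, hw, a, ha, rfl⟩ := dec _ t1 d
      refine ⟨⟨w, hw⟩, ?_⟩
      rw [← hk] at ha
      rw [map_mul, MonoidHom.mem_ker.1 ha, mul_one]
      rfl
    · obtain ⟨d, rfl⟩ := QuotientGroup.mk_surjective q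
      obtain ⟨w, hw, a, ha, rfl⟩ := dec _ t2 d
      exact ⟨⟨w, hw⟩, (QuotientGroup.mk_mul_of_mem w ha).symm⟩
    · have : w.1 ∈ f.ker := hw
      rw [hk] at this
      exact (QuotientGroup.eq_one_iff w.1).2 (h.le (mem_sup_left ⟨w.2, this⟩))
  · exfalso
    refine hUW fun u hu => ?_
    obtain ⟨w, hw, k, hk, rfl⟩ := mem_sup_of_normal_right.1 (h.ge hu.1)
    have : k ∈ Y := by simpa using Y.mul_mem (Y.inv_mem hw.2.2) hu.2
    exact W.mul_mem hw.1 (hle (mem_sup_right ⟨hk, this⟩))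

theorem main {H M F₁ F₂ : Cls} (hH : IsForm H) (hS : IsSat H) (hSM : IsSat M)
    (h1 : IsForm F₁) (h2 : IsForm F₂)
    (hH1 : ∀ (G : Type) [Group G], H G → F₁ G)
    (hM1 : ∀ (G : Type) [Group G], F₁ G → M G)
    (hI : ∀ (G : Type) [Group G], F₁ G → F₂ G → H G)
    (hJ : ∀ X : Cls, IsForm X → (∀ (G : Type) [Group G], F₁ G → X G) →
      (∀ (G : Type) [Group G], F₂ G → X G) → (∀ (G : Type) [Group G], M G → X G)) :
    IsSat F₁ := by
  by_cases hne : ∃ (A : Type) (_ : Group A), F₂ A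
  swap
  · intro G _ _ h
    exact hJ F₁ h1 (fun _ _ h => h) (fun G _ h => absurd ⟨G, _, h⟩ hne) G (hSM G (hM1 _ h))
  obtain ⟨A, _, hA⟩ := hne
  suffices h : ∀ (n : ℕ) (G : Type) [Group G] [Finite G], Nat.card G = n →
      F₁ (G ⧸ frattini G) → F₁ G from fun G _ _ => h _ G rfl
  intro n
  induction n using Nat.strong_induction_on with
  | _ n ih =>
  intro G _ _ hn hG
  by_cases hb : frattini G = ⊥
  · exact (Fq.mk _ hG).of_le h1 (MonoidHom.id G) surjective_id (hb.le.trans bot_le)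
  obtain ⟨N, ⟨hNn, hNb, hNf⟩, hNm⟩ := (wellFounded_lt (α := Subgroup G)).has_min
    {N | N.Normal ∧ N ≠ ⊥ ∧ N ≤ frattini G} ⟨frattini G, inferInstance, hb, le_rfl⟩
  have hlt : Nat.card (G ⧸ N) < n := by
    rw [← hn, card_eq_card_quotient_mul_card_subgroup N]
    exact lt_mul_of_one_lt_right Nat.card_pos ((one_lt_card_iff_ne_bot N).2 hNb)
  have hGN : F₁ (G ⧸ N) := ih _ hlt _ rfl
    ((Fq.mk _ hG).of_le h1 ((QuotientGroup.mk' _).comp (QuotientGroup.mk' N))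
      ((QuotientGroup.mk'_surjective _).comp (QuotientGroup.mk'_surjective _)) fun x hx =>
        (QuotientGroup.eq_one_iff _).2
          (frattini_le_comap_frattini_of_surjective (QuotientGroup.mk'_surjective N) hx))
  obtain ⟨D, _, _, X, Y, p, hXY, hY, hX, hp⟩ := hJ (Jn F₁ F₂) (Jn_form h1 h2)
    (fun B _ hB => ⟨B, _, h1.1 B hB, ⊤, ⊥, MonoidHom.id B, top_inf_eq _, Fq_bot hB,
      Fq_top h2 hA B, surjective_id⟩)
    (fun B _ hB => ⟨B, _, h2.1 B hB, ⊥, ⊤, MonoidHom.id B, bot_inf_eq _, Fq_top h1 hG B,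
      Fq_bot hB, surjective_id⟩) G (hSM G (hM1 _ hG))
  have := core hH hS h1 h2 hH1 hI X Y p.ker (N.comap p) hXY hY hX ((Fq.mk N hGN).comap p hp)
    (ker_le_comap p N) (fun T hT hK hTN => ?_) (fun W hW hK => ?_)
  · exact h1.2.1 _ _ ⟨QuotientGroup.quotientKerEquivOfSurjective p hp⟩ this
  · have hle : T.map p ≤ N := map_le_iff_le_comap.2 hTN
    by_cases h0 : T.map p = ⊥
    · left
      exact le_antisymm ((map_eq_bot_iff T).1 h0) hK
    · right
      have : T.map p = N := by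
        by_contra hne
        exact hNm _ ⟨hT.map p hp, h0, hle.trans hNf⟩ (lt_of_le_of_ne hle hne)
      rw [← this, comap_map_eq_self hK]
  · by_contra hne
    have t : W ⊔ N.comap p = ⊤ := hW.2 _ (left_lt_sup.2 hne)
    have t2 : W.map p ⊔ frattini G = ⊤ := by
      have := congrArg (Subgroup.map p) t
      rw [Subgroup.map_sup, map_comap_eq_self_of_surjective hp, map_top_of_surjective p hp] at this
      rw [eq_top_iff, ← this]
      exact sup_le_sup_left hNf _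
    have t3 := frattini_nongenerating t2
    apply hW.1
    rw [← comap_map_eq_self hK, t3, comap_top]

end Pool.Agent.H22.FormLat
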