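import Mathlib

namespace Pool.Agent.H22.Fpl

open Polynomial Function

universe u

variable {k : Type u} [Field k]

open TrivSqZeroExt in
theorem der (a : k[X]) (S : Type u) [CommRing S] [Algebra k[X] S] [IsLocalization.Away a S] :
    ∃ δ : S →+ S, (∀ p : k[X], δ (algebraMap _ S p) = algebraMap _ S (derivative p)) ∧
      ∀ x y, δ (x * y) = x * δ y + δ x * y := by
  let ρ : k[X] →+* TrivSqZeroExt S S :=
    { toFun := fun p => .inl (algebraMap _ S p) + .inr (algebraMap _ S (derivative p))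
      map_one' := by ext <;> simp
      map_mul' := fun p q => by
        ext
        · simp
        · simp only [snd_add, snd_mul, snd_inl, snd_inr, fst_add, fst_inl, fst_inr, derivative_mul,
            map_add, map_mul, smul_eq_mul, op_smul_eq_mul]
          ring
      map_zero' := by ext <;> simp
      map_add' := fun p q => by simp only [map_add, inl_add, inr_add]; abel }
  have r1 : ∀ p, (ρ p).fst = algebraMap _ S p := fun p => by simp [ρ]
  have r2 : ∀ p, (ρ p).snd = algebraMap _ S (derivative p) := fun p => zero_add _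
  have hu : IsUnit (ρ a) := by
    rw [isUnit_iff_isUnit_fst, r1]
    exact IsLocalization.Away.algebraMap_isUnit (S := S) a
  obtain ⟨σ, s1⟩ : ∃ σ : S →+* TrivSqZeroExt S S, ∀ p, σ (algebraMap _ S p) = ρ p :=
    ⟨IsLocalization.Away.lift a hu, IsLocalization.Away.lift_eq a hu⟩
  have s2 : ∀ x, (σ x).fst = x := by
    have : (fstHom S S S).toRingHom.comp σ = RingHom.id S :=
      IsLocalization.ringHom_ext (Submonoid.powers a) (RingHom.ext fun p => (congrArg fst (s1 p)).trans (r1 p))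
    exact fun x => RingHom.congr_fun this x
  refine ⟨(sndHom S S).toAddMonoidHom.comp σ.toAddMonoidHom, fun p => (congrArg snd (s1 p)).trans (r2 p),
    fun x y => ?_⟩
  show (σ (x * y)).snd = x * (σ y).snd + (σ x).snd * y
  rw [map_mul, snd_mul, s2, s2, smul_eq_mul, op_smul_eq_mul]

section
variable {E : Type u} [Ring E] [Algebra k E] {a : Module.End k E}
  (ha : ∀ x y, a (x * y) = a x * y + x * a y)
include ha

theorem leib (N : ℕ) : ∀ m n x y, m + n = N → (a ^ (m + 1)) x = 0 → (a ^ (n + 1)) y = 0 →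
    (a ^ N) (x * y) = N.choose m • ((a ^ m) x * (a ^ n) y) := by
  induction N with
  | zero =>
    intro m n x y h _ _
    rw [show m = 0 by omega, show n = 0 by omega]; simp
  | succ N ih =>
    intro m n x y h hx hy
    rw [pow_succ, Module.End.mul_apply, ha, map_add]
    rcases m with _ | m
    · obtain rfl : n = N + 1 := by omega
      rw [ih 0 N x (a y) (by omega) hx hy, show a x = 0 from hx]; simp [pow_succ]
    rcases n with _ | n
    · obtain rfl : m = N := by omega
      rw [ih m 0 (a x) y rfl hx hy, show a y = 0 from hy]; simp [pow_succ]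
    rw [ih m (n + 1) (a x) y (by omega) hx hy, ih (m + 1) n x (a y) (by omega) hx hy,
      Nat.choose_succ_succ, add_smul]
    rfl

def DD : Subalgebra k E where
  carrier := {x | ∃ n, (a ^ (n + 1)) x = 0}
  mul_mem' := fun {x y} ⟨m, hx⟩ ⟨n, hy⟩ => ⟨m + n, by
    rw [pow_succ'] at hx hy ⊢
    rw [Module.End.mul_apply, leib ha _ m n x y rfl (pow_succ' a m ▸ hx) (pow_succ' a n ▸ hy),
      map_nsmul, ha, show a _ = 0 from hx, show a _ = 0 from hy]
    simp⟩
  add_mem' := fun {x y} ⟨m, hx⟩ ⟨n, hy⟩ => ⟨m + n, by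
    rw [map_add, show a ^ (m + n + 1) = a ^ n * a ^ (m + 1) by rw [← pow_add]; congr 1; omega,
      Module.End.mul_apply, hx, ← pow_add, show a ^ (n + (m + 1)) = a ^ m * a ^ (n + 1) by
        rw [← pow_add]; congr 1; omega, Module.End.mul_apply, hy]
    simp⟩
  algebraMap_mem' := fun c => ⟨0, by
    have := ha 1 1
    rw [Algebra.algebraMap_eq_smul_one, map_smul, show (a ^ (0 + 1)) 1 = 0 by simpa using this,
      smul_zero]⟩

omit ha in
theorem exa {x : E} (h : x ≠ 0) (n : ℕ) (e : (a ^ n) x = 0) :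
    ∃ m, (a ^ (m + 1)) x = 0 ∧ (a ^ m) x ≠ 0 := by
  induction n with
  | zero => exact (h e).elim
  | succ n ih => exact by_contra fun z => z (ih (by_contra fun w => z ⟨n, e, w⟩))

end

section
variable {E : Type u} [Ring E]

theorem r1 (s x y : E) : s * (x * y) - x * y * s = (s * x - x * s) * y + x * (s * y - y * s) := by
  noncomm_ring

theorem r2 {s d : E} (h : d * s = s * d + 1) :
    (s - 1) * d * (s - 1) - (s - 1) * ((s - 1) * d) = s - 1 ∧
      (s - 1) * d * s = s * ((s - 1) * d) + s - 1 :=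
  ⟨by linear_combination (norm := noncomm_ring) (s - 1) * h,
    by linear_combination (norm := noncomm_ring) (s - 1) * h⟩

theorem r3 {s b x n1 n2 t1 t2 : E} (c3 : b * s = 1) (e1 : s * n1 + x * n2 = 0)
    (e2 : t1 * n1 + t2 * n2 = 1) (x3 : x * s = s * x + s - 1) : (t2 - t1 * b * x) * n2 = 1 ∧
      (t2 - t1 * b * x) * (s * x + 1 - n2 * (t1 * -(x * x + x) + t2 * (s * x + 1))) = 0 := by
  have e3 : (t2 - t1 * b * x) * n2 = 1 := by
    linear_combination (norm := noncomm_ring) e2 - t1 * b * e1 + t1 * c3 * n1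
  refine ⟨e3, ?_⟩
  rw [mul_sub, ← mul_assoc, e3]
  linear_combination (norm := noncomm_ring) -(t1 * b * x3 * x) - t1 * c3 * (x * x + x)

end

theorem noCol [CharZero k] : ∃ (S : Type u) (_ : Ring S) (_ : Algebra k S) (x y : S),
    x * y - y * x = y ∧ ∀ n1 n2 t1 t2 : S, (1 + y) * n1 + x * n2 = 0 → t1 * n1 + t2 * n2 ≠ 1 := by
  let R := Localization.Away (X : k[X])
  have hX : Submonoid.powers (X : k[X]) ≤ nonZeroDivisors _ :=
    powers_le_nonZeroDivisors_of_noZeroDivisors X_ne_zero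
  have : IsDomain R := IsLocalization.isDomain_localization hX
  have inj : Injective (algebraMap k[X] R) := IsLocalization.injective R hX
  obtain ⟨δ₀, d1, d2⟩ := der (X : k[X]) R
  let δ : Module.End k R := { δ₀ with
    map_smul' := fun c z => by
      show δ₀ _ = c • δ₀ z
      rw [Algebra.smul_def, Algebra.smul_def, d2, IsScalarTower.algebraMap_apply k k[X] R, d1]
      simp }
  obtain ⟨s, hs⟩ : ∃ s, s = algebraMap k[X] R X := ⟨_, rfl⟩
  obtain ⟨b, hb⟩ : ∃ b, b * s = 1 := ⟨_, by rw [hs, mul_comm]; exact IsLocalization.Away.mul_invSelf X⟩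
  have ds : δ₀ s = 1 := by rw [hs, d1]; simp
  have d0 : δ₀ 1 = 0 := by simpa using d1 1
  let μ := Algebra.lmul k R
  let a : Module.End k (Module.End k R) := LinearMap.mulLeft k (μ s) - LinearMap.mulRight k (μ s)
  have a0 : ∀ T, a T = μ s * T - T * μ s := fun T => rfl
  have ha : ∀ x y, a (x * y) = a x * y + x * a y := fun x y => r1 _ x y
  have aμ : ∀ r, a (μ r) = 0 := fun r => by rw [a0, ← map_mul, ← map_mul, mul_comm, sub_self]
  have com : ∀ T, a T = 0 → T = μ (T 1) := fun T h => by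
    have h1 : ∀ z, T (s * z) = s * T z := fun z =>
      (LinearMap.congr_fun (sub_eq_zero.1 h) z).symm
    have h2 : ∀ p z, T (algebraMap k[X] R p * z) = algebraMap k[X] R p * T z := fun p => by
      induction p using Polynomial.induction_on with
      | C c =>
        intro z
        rw [← algebraMap_eq, ← IsScalarTower.algebraMap_apply, ← Algebra.smul_def, map_smul,
          Algebra.smul_def]
      | add p q u v => intro z; simp only [map_add, add_mul, u, v]
      | monomial n c u => intro z; rw [pow_succ, ← mul_assoc, map_mul (algebraMap k[X] R), mul_assoc, u, ← hs, h1, mul_assoc]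
    refine LinearMap.ext fun r => ?_
    obtain ⟨n, p, e⟩ := IsLocalization.Away.surj (X : k[X]) r
    refine mul_left_cancel₀ (pow_ne_zero n (right_ne_zero_of_mul_eq_one hb)) ?_
    have := h2 p 1
    rw [← e, mul_one, mul_comm r, ← map_pow, h2, map_pow, ← hs] at this
    rw [this]
    show _ = s ^ n * (T 1 * r)
    ring
  have ord : ∀ x ∈ DD ha, ∀ y ∈ DD ha, x ≠ 0 → y ≠ 0 →
      ∃ m n, (a ^ (n + 1)) y = 0 ∧ (a ^ (m + n)) (x * y) ≠ 0 := by
    rintro x ⟨m, hx⟩ y ⟨n, hy⟩ x0 y0
    obtain ⟨m, x1, x2⟩ := exa x0 _ hx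
    obtain ⟨n, y1, y2⟩ := exa y0 _ hy
    refine ⟨m, n, y1, ?_⟩
    rw [leib ha _ m n x y rfl x1 y1, ← Nat.cast_smul_eq_nsmul k]
    rw [pow_succ'] at x1 y1
    rw [com _ x1] at x2 ⊢
    rw [com _ y1] at y2 ⊢
    refine smul_ne_zero (Nat.cast_ne_zero.2 (Nat.choose_pos (by omega)).ne') fun z => ?_
    rw [← map_mul, map_eq_zero_iff _ (Algebra.lmul_injective), mul_eq_zero] at z
    exact z.elim (fun z => x2 (by rw [z, map_zero])) fun z => y2 (by rw [z, map_zero])
  let P : Subalgebra k (Module.End k R) :=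
    { carrier := {T | ∀ p, ∃ q, T (algebraMap k[X] R p) = algebraMap k[X] R q}
      mul_mem' := fun {x y} u v p => (v p).elim fun q e => (u q).imp fun _ f => by
        rw [Module.End.mul_apply, e, f]
      add_mem' := fun {x y} u v p => (v p).elim fun q e => (u p).elim fun r f =>
        ⟨r + q, by rw [LinearMap.add_apply, e, f, map_add]⟩
      algebraMap_mem' := fun c p => ⟨c • p, by simp [Algebra.smul_def, IsScalarTower.algebraMap_apply k k[X] R]⟩ }
  have y1 : μ (s - 1) ∈ DD ha ⊓ P := ⟨⟨0, aμ _⟩, fun p => ⟨(X - 1) * p, by simp [μ, hs, sub_mul]⟩⟩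
  have c1 : δ * μ s = μ s * δ + 1 := LinearMap.ext fun z => by
    show δ₀ (s * z) = s * δ₀ z + z
    rw [d2, ds, one_mul]
  have x1 : μ (s - 1) * δ ∈ DD ha ⊓ P := mul_mem y1 ⟨⟨1, by
    have : a δ = -μ 1 := by rw [a0, c1]; simp
    rw [pow_succ, Module.End.mul_apply, this, map_neg, pow_one, aμ, neg_zero]⟩, fun p => ⟨_, d1 p⟩⟩
  have c2 : μ (s - 1) = μ s - 1 := by simp
  have c3 : μ b * μ s = 1 := by rw [← map_mul, hb, map_one]
  refine ⟨(DD ha ⊓ P :), inferInstance, inferInstance, ⟨_, x1⟩, ⟨_, y1⟩, Subtype.ext ?_, ?_⟩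
  · show μ (s - 1) * δ * μ (s - 1) - μ (s - 1) * (μ (s - 1) * δ) = μ (s - 1)
    rw [c2]; exact (r2 c1).1
  rintro ⟨n1, m1⟩ ⟨n2, m2⟩ ⟨t1, l1⟩ ⟨t2, l2⟩ e1 e2
  replace e1 : (1 + μ (s - 1)) * n1 + μ (s - 1) * δ * n2 = 0 := congrArg Subtype.val e1
  replace e2 : t1 * n1 + t2 * n2 = 1 := congrArg Subtype.val e2
  rw [show 1 + μ (s - 1) = μ s by simp] at e1
  have e0 := LinearMap.congr_fun e1 s
  have x2 : (μ (s - 1) * δ) 1 = 0 := by simp [δ, d0]
  have x3 : μ (s - 1) * δ * μ s = μ s * (μ (s - 1) * δ) + μ s - 1 := by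
    rw [c2]; exact (r2 c1).2
  generalize μ (s - 1) * δ = x at e1 x1 x2 x3
  have t0 : t2 - t1 * μ b * x ∈ DD ha := sub_mem l2.1 (mul_mem (mul_mem l1.1 ⟨0, aμ b⟩) x1.1)
  obtain ⟨e3, e5⟩ := r3 c3 e1 e2 x3
  obtain ⟨m, n, o1, o2⟩ := ord _ t0 _ m2.1 (left_ne_zero_of_mul_eq_one e3) (right_ne_zero_of_mul_eq_one e3)
  have : n = 0 := by_contra fun z => o2 (by
    obtain ⟨n, rfl⟩ := Nat.exists_eq_succ_of_ne_zero z
    rw [e3, ← map_one μ, Nat.add_succ, pow_succ, Module.End.mul_apply, aμ, map_zero])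
  subst this
  have e4 := com _ o1
  have u1 : t1 * -(x * x + x) + t2 * (μ s * x + 1) ∈ DD ha ⊓ P :=
    add_mem (mul_mem l1 (neg_mem (add_mem (mul_mem x1 x1) x1)))
      (mul_mem l2 (add_mem (mul_mem (by simpa using add_mem y1 (one_mem _)) x1) (one_mem _)))
  have e6 : μ s * x + 1 - n2 * (t1 * -(x * x + x) + t2 * (μ s * x + 1)) = 0 := by_contra fun z => by
    obtain ⟨_, _, _, o⟩ := ord _ t0 _ (sub_mem (add_mem (mul_mem ⟨0, aμ s⟩ x1.1) (one_mem _))
      (mul_mem m2.1 u1.1)) (left_ne_zero_of_mul_eq_one e3) z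
    exact o (by rw [e5, map_zero])
  obtain ⟨q, hq⟩ := m2.2 1
  obtain ⟨r, hr⟩ := u1.2 1
  obtain ⟨w, hw⟩ := m1.2 X
  rw [map_one] at hq hr
  have e7 := LinearMap.congr_fun e6 1
  rw [LinearMap.sub_apply, Module.End.mul_apply n2, hr, e4, hq] at e7
  have e8 : q * r = 1 := inj (by
    rw [map_mul, map_one, eq_comm, ← sub_eq_zero]; simpa [μ, x2] using e7)
  rw [e4, hq] at e0
  have e9 : X * w + (X - 1) * derivative (q * X) = 0 := inj (by
    rw [map_add, map_mul, map_mul, ← d1, ← hw, map_sub, map_mul, map_one, ← hs, map_zero]; exact e0)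
  have := congrArg (Polynomial.eval 0) e8
  have z : q.eval 0 = 0 := by simpa using congrArg (Polynomial.eval 0) e9
  simp [z] at this

end Pool.Agent.H22.Fpl
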