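import Pool.Agent.H22.Fpl1

namespace Pool.Agent.H22.Fpl

open LieSubalgebra

universe u

variable {k : Type u} [Field k]

def SD (S : Type u) := S × S

section
variable {S : Type u} [Ring S] [Algebra k S]

instance : AddCommGroup (SD S) := inferInstanceAs (AddCommGroup (S × S))
instance : Module k (SD S) := inferInstanceAs (Module k (S × S))

instance : LieRing (SD S) where
  bracket x y := (x.2 * y.1 - y.2 * x.1, x.2 * y.2 - y.2 * x.2)
  add_lie x y z := Prod.ext (by show (x.2 + y.2) * _ - _ * (x.1 + y.1) = _ - _ + (_ - _); noncomm_ring)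
    (by show (x.2 + y.2) * _ - _ * (x.2 + y.2) = _ - _ + (_ - _); noncomm_ring)
  lie_add x y z := Prod.ext (by show _ * (y.1 + z.1) - (y.2 + z.2) * _ = _ - _ + (_ - _); noncomm_ring)
    (by show _ * (y.2 + z.2) - (y.2 + z.2) * _ = _ - _ + (_ - _); noncomm_ring)
  lie_self x := Prod.ext (sub_self _) (sub_self _)
  leibniz_lie x y z := Prod.ext (by
      show _ * (_ - _) - (_ - _) * _ = (_ - _) * _ - _ * (_ - _) + (_ * (_ - _) - (_ - _) * _)
      noncomm_ring) (by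
      show _ * (_ - _) - (_ - _) * _ = (_ - _) * _ - _ * (_ - _) + (_ * (_ - _) - (_ - _) * _)
      noncomm_ring)

theorem sd1 (x y : SD S) : ⁅x, y⁆.1 = x.2 * y.1 - y.2 * x.1 := rfl
theorem sd2 (x y : SD S) : ⁅x, y⁆.2 = x.2 * y.2 - y.2 * x.2 := rfl

instance : LieAlgebra k (SD S) where
  lie_smul t x y := Prod.ext (by show _ * (t • y.1) - (t • y.2) * _ = t • (_ - _); simp [smul_sub])
    (by show _ * (t • y.2) - (t • y.2) * _ = t • (_ - _); simp [smul_sub])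

end

def T3 (_ : k) := k × k × k

section
variable {t : k}

instance : AddCommGroup (T3 t) := inferInstanceAs (AddCommGroup (k × k × k))
instance : Module k (T3 t) := inferInstanceAs (Module k (k × k × k))

def T3.mk (t a b c : k) : T3 t := (a, b, c)

theorem T3.ext {x y : T3 t} (a : x.1 = y.1) (b : x.2.1 = y.2.1) (c : x.2.2 = y.2.2) : x = y :=
  Prod.ext a (Prod.ext b c)

instance : LieRing (T3 t) where
  bracket x y := (0, x.1 * y.2.1 - y.1 * x.2.1, t * (x.1 * y.2.1 - y.1 * x.2.1) + x.1 * y.2.2 - y.1 * x.2.2)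
  add_lie x y z := T3.ext (add_zero _).symm
    (by show (x.1 + y.1) * _ - _ * (x.2.1 + y.2.1) = _ - _ + (_ - _); ring)
    (by show t * ((x.1 + y.1) * _ - _ * (x.2.1 + y.2.1)) + (x.1 + y.1) * _ - _ * (x.2.2 + y.2.2) =
      _ + _ - _ + (_ + _ - _); ring)
  lie_add x y z := T3.ext (add_zero _).symm
    (by show _ * (y.2.1 + z.2.1) - (y.1 + z.1) * _ = _ - _ + (_ - _); ring)
    (by show t * (_ * (y.2.1 + z.2.1) - (y.1 + z.1) * _) + _ * (y.2.2 + z.2.2) - (y.1 + z.1) * _ =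
      _ + _ - _ + (_ + _ - _); ring)
  lie_self x := T3.ext rfl (sub_self _) (by show t * (_ - _) + _ - _ = 0; ring)
  leibniz_lie x y z := T3.ext (add_zero _).symm
    (by show _ * (_ - _) - 0 * _ = 0 * _ - _ * (_ - _) + (_ * (_ - _) - 0 * _); ring)
    (by show t * (_ * (_ - _) - 0 * _) + _ * (_ + _ - _) - 0 * _ = t * (0 * _ - _ * (_ - _)) + 0 * _ -
      _ * (_ + _ - _) + (t * (_ * (_ - _) - 0 * _) + _ * (_ + _ - _) - 0 * _); ring)

theorem t1 (x y : T3 t) : ⁅x, y⁆.1 = 0 := rfl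
theorem t2 (x y : T3 t) : ⁅x, y⁆.2.1 = x.1 * y.2.1 - y.1 * x.2.1 := rfl
theorem t3 (x y : T3 t) :
  ⁅x, y⁆.2.2 = t * (x.1 * y.2.1 - y.1 * x.2.1) + x.1 * y.2.2 - y.1 * x.2.2 := rfl

instance : LieAlgebra k (T3 t) where
  lie_smul c x y := T3.ext (mul_zero _).symm
    (by show _ * (c * y.2.1) - c * y.1 * _ = c * (_ - _); ring)
    (by show t * (_ * (c * y.2.1) - c * y.1 * _) + _ * (c * y.2.2) - c * y.1 * _ = c * (_ + _ - _); ring)

end

variable {L : Type u} [LieRing L] [LieAlgebra k L]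

def FD {T : Type u} (B : T → LieSubalgebra k L) (A : LieSubalgebra k L) : Prop :=
  (∀ j, B j ≠ ⊥) ∧ ∃ h : ∀ j, B j ≤ A, ∀ (M : Type u) [LieRing M] [LieAlgebra k M]
    (f : ∀ j, B j →ₗ⁅k⁆ M), ∃! g : A →ₗ⁅k⁆ M, ∀ j, g.comp (inclusion (h j)) = f j

variable {T : Type u} {B : T → LieSubalgebra k L} {A : LieSubalgebra k L} (h : FD B A)
  {M : Type u} [LieRing M] [LieAlgebra k M]
include h

theorem FD.le (j : T) : B j ≤ A := h.2.elim fun a _ => a j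

theorem FD.ex (φ : T → L →ₗ[k] M) (hφ : ∀ j, ∀ a ∈ B j, ∀ b ∈ B j, φ j ⁅a, b⁆ = ⁅φ j a, φ j b⁆) :
    ∃ g : A →ₗ⁅k⁆ M, ∀ j b (hb : b ∈ B j), g ⟨b, h.le j hb⟩ = φ j b := by
  obtain ⟨g, hg, -⟩ := h.2.choose_spec M fun j =>
    { φ j ∘ₗ (B j).toSubmodule.subtype with map_lie' := fun {a b} => hφ j a a.2 b b.2 }
  exact ⟨g, fun j b hb => LieHom.congr_fun (hg j) ⟨b, hb⟩⟩

theorem FD.uq {g g' : A →ₗ⁅k⁆ M} (e : ∀ j b (hb : b ∈ B j), g ⟨b, h.le j hb⟩ = g' ⟨b, h.le j hb⟩) :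
    g = g' :=
  (h.2.choose_spec M fun j => g'.comp (inclusion (h.le j))).unique
    (fun j => LieHom.ext fun b => e j b b.2) fun _ => rfl

theorem FD.gen {C : LieSubalgebra k L} (hC : ∀ j, B j ≤ C) : A ≤ C := by
  obtain ⟨g, hg, -⟩ := h.2.choose_spec C fun j => inclusion (hC j)
  have : C.incl.comp g = A.incl := h.uq fun j b hb =>
    congrArg Subtype.val (LieHom.congr_fun (hg j) ⟨b, hb⟩)
  exact fun a ha => (show _ = a from LieHom.congr_fun this ⟨a, ha⟩) ▸ (g ⟨a, ha⟩).2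

theorem FD.single [CharZero k] (h0 : A ≠ ⊥)
    (h1 : ∀ a ∈ A, ∀ b ∈ A, ∀ c ∈ A, ∀ d ∈ A, ⁅⁅a, b⁆, ⁅c, d⁆⁆ = 0)
    (h2 : ∀ C ≤ A, C ≠ ⊥ → ∃ χ : L →ₗ[k] k, (∀ a ∈ C, ∀ b ∈ C, χ ⁅a, b⁆ = 0) ∧ ∃ b ∈ C, χ b ≠ 0) :
    ∃ j, B j = A ∧ ∀ i, i = j := by
  classical
  have sub : ∀ i j : T, i = j := fun i j => by_contra fun ij => by
    choose χ c1 b c2 c3 using fun j => h2 _ (h.le j) (h.1 j)
    let v : T → SD (Matrix (Fin 2) (Fin 2) k) := fun t =>
      (0, (χ t (b t))⁻¹ • if t = i then !![0, 1; 0, 0] else !![0, 0; 1, 0])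
    obtain ⟨g, hg⟩ := h.ex (fun t => (χ t).smulRight (v t)) fun t a ha b hb => by simp [c1 t a ha b hb]
    have := congrArg g (Subtype.ext (h1 _ (h.le i (c2 i)) _ (h.le j (c2 j)) _
      (lie_mem _ (h.le i (c2 i)) (h.le j (c2 j))) _ (h.le i (c2 i))) :
      ⁅⁅(⟨_, h.le i (c2 i)⟩ : A), (⟨_, h.le j (c2 j)⟩ : A)⁆,
        ⁅⁅(⟨_, h.le i (c2 i)⟩ : A), (⟨_, h.le j (c2 j)⟩ : A)⁆, (⟨_, h.le i (c2 i)⟩ : A)⁆⁆ = 0)
    simp only [LieHom.map_lie, hg _ _ (c2 _), map_zero, LinearMap.smulRight_apply] at this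
    have e1 : (χ i (b i) • v i).2 = !![0, 1; 0, 0] := by
      show χ i (b i) • (v i).2 = _
      simp only [v, if_true, smul_inv_smul₀ (c3 i)]
    have e2 : (χ j (b j) • v j).2 = !![0, 0; 1, 0] := by
      show χ j (b j) • (v j).2 = _
      simp only [v, if_neg (Ne.symm ij), smul_inv_smul₀ (c3 j)]
    have := congrFun (congrFun (congrArg Prod.snd this) 0) 1
    simp only [sd2, e1, e2] at this
    change _ = (0 : k) at this
    norm_num at this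
  obtain ⟨j⟩ : Nonempty T := by_contra fun z => h0 (le_bot_iff.1 (h.gen fun j => (z ⟨j⟩).elim))
  exact ⟨j, le_antisymm (h.le j) (h.gen fun i => (sub i j) ▸ le_rfl), fun i => sub i j⟩

end Pool.Agent.H22.Fpl
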