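import Pool.Agent.H22.Fpl2

namespace Pool.Agent.H22.Fpl

open LieSubalgebra

universe u

variable {k : Type u} [Field k]

structure UP (k : Type u) [Field k] {L : Type u} [LieRing L] [LieAlgebra k L] (x y z1 z2 : L) : Prop where
  rel : ⁅x, y⁆ = y
  ex : ∀ (M : Type u) [LieRing M] [LieAlgebra k M] (X Y Z1 Z2 : M), ⁅X, Y⁆ = Y →
    ∃ g : L →ₗ⁅k⁆ M, g x = X ∧ g y = Y ∧ g z1 = Z1 ∧ g z2 = Z2
  uq : ∀ (M : Type u) [LieRing M] [LieAlgebra k M] (g g' : L →ₗ⁅k⁆ M),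
    g x = g' x → g y = g' y → g z1 = g' z1 → g z2 = g' z2 → g = g'

theorem exL (k : Type u) [Field k] :
    ∃ (L : Type u) (_ : LieRing L) (_ : LieAlgebra k L) (x y z1 z2 : L), UP k x y z1 z2 := by
  let o := FreeLieAlgebra.of k (X := Fin 4)
  let I : LieIdeal k (FreeLieAlgebra k (Fin 4)) := LieSubmodule.lieSpan k _ {⁅o 0, o 1⁆ - o 1}
  let q : FreeLieAlgebra k (Fin 4) →ₗ⁅k⁆ _ ⧸ I := { I.toSubmodule.mkQ with map_lie' := rfl }
  refine ⟨_ ⧸ I, inferInstance, inferInstance, q (o 0), q (o 1), q (o 2), q (o 3), ?_, ?_, ?_⟩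
  · rw [← q.map_lie, ← sub_eq_zero, ← map_sub]
    exact (Submodule.Quotient.mk_eq_zero _).2 (LieSubmodule.subset_lieSpan rfl)
  · intro M _ _ X Y Z1 Z2 e
    let f := FreeLieAlgebra.lift k ![X, Y, Z1, Z2]
    have hf : I ≤ f.ker := LieSubmodule.lieSpan_le.2 (by
      rintro _ rfl
      simp [f, o, e])
    refine ⟨{ I.toSubmodule.liftQ f.toLinearMap hf with
      map_lie' := fun {a b} => ?_ }, ?_, ?_, ?_, ?_⟩
    · obtain ⟨a, rfl⟩ := Quot.mk_surjective a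
      obtain ⟨b, rfl⟩ := Quot.mk_surjective b
      exact f.map_lie a b
    all_goals exact FreeLieAlgebra.lift_of_apply _ _
  · intro M _ _ g g' a b c d
    have : g.comp q = g'.comp q := FreeLieAlgebra.hom_ext fun i => by fin_cases i <;> assumption
    refine LieHom.ext fun a => ?_
    obtain ⟨a, rfl⟩ := Quot.mk_surjective a
    exact LieHom.congr_fun this a

variable {L : Type u} [LieRing L] [LieAlgebra k L]

theorem span_ext {M : Type u} [LieRing M] [LieAlgebra k M] {s : Set L} (g : L →ₗ⁅k⁆ M)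
    (f : lieSpan k L s →ₗ⁅k⁆ M) (h : ∀ a (ha : a ∈ s), g a = f ⟨a, subset_lieSpan ha⟩) (a : L)
    (ha : a ∈ lieSpan k L s) : g a = f ⟨a, ha⟩ := by
  induction ha using lieSpan_induction with
  | mem a ha => exact h a ha
  | zero => exact (map_zero g).trans (map_zero f).symm
  | add a b ha hb u v => rw [map_add, u, v, ← map_add]; rfl
  | smul c a ha u => rw [map_smul, u, ← map_smul]; rfl
  | lie a b ha hb u v => rw [g.map_lie, u, v, ← f.map_lie]; rfl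

theorem fd_top {I : Type u} {A : I → LieSubalgebra k L} (h0 : ∀ i, A i ≠ ⊥)
    (ex : ∀ (M : Type u) [LieRing M] [LieAlgebra k M] (f : ∀ i, A i →ₗ⁅k⁆ M),
      ∃ g : L →ₗ⁅k⁆ M, ∀ i a (ha : a ∈ A i), g a = f i ⟨a, ha⟩)
    (uq : ∀ (M : Type u) [LieRing M] [LieAlgebra k M] (g g' : L →ₗ⁅k⁆ M),
      (∀ i, ∀ a ∈ A i, g a = g' a) → g = g') : FD A ⊤ := by
  refine ⟨h0, fun _ => le_top, fun M _ _ f => ?_⟩
  obtain ⟨g, hg⟩ := ex M f
  refine ⟨g.comp (incl ⊤), fun i => LieHom.ext fun a => hg i a a.2, fun g' hg' => LieHom.ext fun a => ?_⟩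
  exact LieHom.congr_fun (uq M (g'.comp topEquiv.symm.toLieHom) g fun i a ha =>
    (LieHom.congr_fun (hg' i) ⟨a, ha⟩).trans (hg i a ha).symm) a

theorem nb {A : LieSubalgebra k L} {a : L} (h : a ∈ A) (h0 : a ≠ 0) : A ≠ ⊥ :=
  fun e => h0 ((mem_bot a).1 (e ▸ h))

theorem mem2 {x y a : L} (e : ⁅x, y⁆ = y) (h : a ∈ lieSpan k L {x, y}) : ∃ c d : k, a = c • x + d • y := by
  induction h using lieSpan_induction with
  | mem a ha => rcases ha with rfl | rfl; exacts [⟨1, 0, by simp⟩, ⟨0, 1, by simp⟩]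
  | zero => exact ⟨0, 0, by simp⟩
  | add a b _ _ u v =>
    obtain ⟨c, d, rfl⟩ := u
    obtain ⟨c', d', rfl⟩ := v
    exact ⟨c + c', d + d', by module⟩
  | smul t a _ u =>
    obtain ⟨c, d, rfl⟩ := u
    exact ⟨t * c, t * d, by module⟩
  | lie a b _ _ u v =>
    obtain ⟨c, d, rfl⟩ := u
    obtain ⟨c', d', rfl⟩ := v
    exact ⟨0, c * d' - c' * d, by simp [← lie_skew y x, e]; module⟩

theorem mem1 {z a : L} (h : a ∈ lieSpan k L {z}) : ∃ c : k, a = c • z := by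
  induction h using lieSpan_induction with
  | mem a ha => exact ⟨1, by rw [ha, one_smul]⟩
  | zero => exact ⟨0, by simp⟩
  | add a b _ _ u v => exact u.elim fun c u => v.elim fun d v => ⟨c + d, by rw [u, v, add_smul]⟩
  | smul t a _ u => exact u.elim fun c u => ⟨t * c, by rw [u, smul_smul]⟩
  | lie a b _ _ u v => exact u.elim fun c u => v.elim fun d v => ⟨0, by simp [u, v]⟩

theorem single1 [CharZero k] {T : Type u} {B : T → LieSubalgebra k L} {z : L} {t : k}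
    (g : L →ₗ⁅k⁆ T3 t) (hg : (g z).1 = 1) (h : FD B (lieSpan k L {z})) :
    ∃ j, B j = lieSpan k L {z} ∧ ∀ i, i = j := by
  refine h.single (nb (subset_lieSpan rfl) fun e => by rw [e, map_zero] at hg; exact zero_ne_one hg) (fun a ha b hb c _ d _ => ?_)
    fun C hC h0 => ⟨LinearMap.fst k _ _ ∘ₗ g.toLinearMap, fun a _ b _ => congrArg Prod.fst (g.map_lie a b), ?_⟩
  · obtain ⟨c, rfl⟩ := mem1 ha
    obtain ⟨d, rfl⟩ := mem1 hb
    simp
  · by_contra z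
    refine h0 (le_bot_iff.1 fun b hb => ?_)
    obtain ⟨c, rfl⟩ := mem1 (hC hb)
    have : (g (c • _)).1 = 0 := not_not.1 fun e => z ⟨_, hb, e⟩
    rw [map_smul] at this
    rw [show c = 0 by simpa [hg] using (show c * _ = 0 from this), zero_smul]
    exact zero_mem _

theorem single2 [CharZero k] {T : Type u} {B : T → LieSubalgebra k L} {x y : L} (e : ⁅x, y⁆ = y)
    (g : L →ₗ⁅k⁆ T3 (0 : k)) (hx : g x = .mk 0 1 0 0) (hy : g y = .mk 0 0 1 0)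
    (h : FD B (lieSpan k L {x, y})) : ∃ j, B j = lieSpan k L {x, y} ∧ ∀ i, i = j := by
  refine h.single (nb (subset_lieSpan (.inl rfl)) fun e => ?_) (fun a ha b hb c hc d hd => ?_)
    fun C hC h0 => ?_
  · rw [e, map_zero] at hx
    exact zero_ne_one (congrArg Prod.fst hx)
  · obtain ⟨_, _, rfl⟩ := mem2 e ha
    obtain ⟨_, _, rfl⟩ := mem2 e hb
    obtain ⟨_, _, rfl⟩ := mem2 e hc
    obtain ⟨_, _, rfl⟩ := mem2 e hd
    simp [← lie_skew y x, e]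
  by_cases z : ∃ b ∈ C, (g b).1 ≠ 0
  · exact ⟨LinearMap.fst k _ _ ∘ₗ g.toLinearMap, fun a _ b _ => congrArg Prod.fst (g.map_lie a b), z⟩
  push Not at z
  refine ⟨LinearMap.fst k _ _ ∘ₗ LinearMap.snd k _ _ ∘ₗ g.toLinearMap, fun a ha b hb => ?_, ?_⟩
  · show (g _).2.1 = 0
    rw [g.map_lie, t2, z a ha, z b hb]; simp
  · by_contra w
    refine h0 (le_bot_iff.1 fun b hb => ?_)
    have u := z b hb
    have v : (g b).2.1 = 0 := not_not.1 fun e => w ⟨_, hb, e⟩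
    obtain ⟨c, d, rfl⟩ := mem2 e (hC hb)
    rw [map_add, map_smul, map_smul, hx, hy] at u v
    rw [show c = 0 by simpa using (show c * 1 + d * 0 = 0 from u),
      show d = 0 by simpa using (show c * 0 + d * 1 = 0 from v)]
    simp

theorem tr1 {C C' : LieSubalgebra k L} {z : L} (e : C ≃ₗ⁅k⁆ C') (h : C' = lieSpan k L {z}) (z0 : z ≠ 0) :
    ∃ z' ∈ C, z' ≠ 0 ∧ ∀ b ∈ C, ∃ c : k, b = c • z' := by
  subst h
  refine ⟨_, (e.symm ⟨z, subset_lieSpan rfl⟩).2, fun w => z0 ?_, fun b hb => ?_⟩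
  · exact congrArg Subtype.val ((map_eq_zero_iff _ e.symm.injective).1 (Subtype.ext w))
  · obtain ⟨c, hc⟩ := mem1 (e ⟨b, hb⟩).2
    refine ⟨c, congrArg Subtype.val (?_ : (⟨b, hb⟩ : C) = c • _)⟩
    rw [← map_smul, LieEquiv.eq_symm_apply]
    exact Subtype.ext hc

theorem tr2 {C C' : LieSubalgebra k L} {x y : L} (e : C ≃ₗ⁅k⁆ C') (h : C' = lieSpan k L {x, y})
    (r : ⁅x, y⁆ = y) (y0 : y ≠ 0) :
    ∃ x' ∈ C, ∃ y' ∈ C, y' ≠ 0 ∧ ⁅x', y'⁆ = y' ∧ ∀ b ∈ C, ∃ c d : k, b = c • x' + d • y' := by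
  subst h
  refine ⟨_, (e.symm ⟨x, subset_lieSpan (.inl rfl)⟩).2, _, (e.symm ⟨y, subset_lieSpan (.inr rfl)⟩).2,
    fun w => y0 ?_, ?_, fun b hb => ?_⟩
  · exact congrArg Subtype.val ((map_eq_zero_iff _ e.symm.injective).1 (Subtype.ext w))
  · rw [← coe_bracket, ← e.symm.map_lie]
    exact congrArg (fun t => (e.symm t : L)) (Subtype.ext r)
  · obtain ⟨c, d, hc⟩ := mem2 r (e ⟨b, hb⟩).2
    refine ⟨c, d, congrArg Subtype.val (?_ : (⟨b, hb⟩ : C) = c • _ + d • _)⟩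
    rw [← map_smul, ← map_smul, ← map_add, LieEquiv.eq_symm_apply]
    exact Subtype.ext hc

theorem core [CharZero k] {x y z1 z2 p1 p2 : L} (U : UP k x y z1 z2) (rel : p1 + ⁅y, p1⁆ + ⁅x, p2⁆ = 0)
    (π : L →ₗ⁅k⁆ T3 (0 : k)) (hx : π x = .mk 0 1 0 0) (hy : π y = .mk 0 0 1 0) (h1 : π z1 = 0)
    (h2 : π z2 = 0) (q1 : π p1 = 0) (q2 : π p2 = 0)
    {T : Type u} {B : T → LieSubalgebra k L} (h : FD B (lieSpan k L {x, y, p1, p2})) {a b : T}
    (ab : ∀ j, j = a ∨ j = b) {x' y' z' : L} (x1 : x' ∈ B a) (y1 : y' ∈ B a) (y0 : y' ≠ 0)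
    (r : ⁅x', y'⁆ = y') (ha : ∀ u ∈ B a, ∃ c d : k, u = c • x' + d • y') (z1' : z' ∈ B b) (z0 : z' ≠ 0)
    (hb : ∀ u ∈ B b, ∃ c : k, u = c • z') : False := by
  classical
  have ba : b ≠ a := fun e => by
    obtain ⟨c, rfl⟩ := hb x' (e ▸ x1)
    obtain ⟨d, rfl⟩ := hb y' (e ▸ y1)
    exact y0 (by rw [← r]; simp)
  have mx : x ∈ lieSpan k L {x, y, p1, p2} := subset_lieSpan (by simp)
  have my : y ∈ lieSpan k L {x, y, p1, p2} := subset_lieSpan (by simp)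
  have m1 : p1 ∈ lieSpan k L {x, y, p1, p2} := subset_lieSpan (by simp)
  have m2 : p2 ∈ lieSpan k L {x, y, p1, p2} := subset_lieSpan (by simp)
  have xy : ⁅(⟨x, mx⟩ : lieSpan k L {x, y, p1, p2}), (⟨y, my⟩ : lieSpan k L {x, y, p1, p2})⁆ = ⟨y, my⟩ :=
    Subtype.ext U.rel
  let pr : ∀ t : k, T3 t →ₗ⁅k⁆ T3 (0 : k) := fun t =>
    { toFun := fun v => .mk 0 v.1 v.2.1 0
      map_add' := fun u v => T3.ext rfl rfl (add_zero _).symm
      map_smul' := fun c v => T3.ext rfl rfl (mul_zero _).symm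
      map_lie' := fun {u v} => T3.ext rfl rfl (by rw [t3]; simp [T3.mk]) }
  have π3 : ∀ u, (π u).2.2 = 0 := fun u => (congrArg (·.2.2) (LieHom.congr_fun (U.uq _ ((pr 0).comp π) π
    (by rw [hx]; exact congrArg (pr 0) hx) (by rw [hy]; exact congrArg (pr 0) hy)
    (by simp [h1]) (by simp [h2])) u)).symm
  by_cases y2 : π y' = 0
  · obtain ⟨φ, hφ⟩ : ∃ φ : L →ₗ[k] T3 (1 : k), ∀ u, φ u = π u := ⟨π.toLinearMap, fun _ => rfl⟩
    obtain ⟨g, hg⟩ := h.ex (M := T3 (1 : k)) (fun _ => φ) fun j u hu v hv => by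
      rcases ab j with rfl | rfl
      · obtain ⟨c, d, rfl⟩ := ha u hu
        obtain ⟨c', d', rfl⟩ := ha v hv
        have : φ y' = 0 := (hφ _).trans y2
        simp [← lie_skew y' x', r, this]
      · obtain ⟨c, rfl⟩ := hb u hu
        obtain ⟨d, rfl⟩ := hb v hv
        simp
    have e : (pr 1).comp g = π.comp (incl _) := h.uq fun j u hu =>
      (congrArg (pr 1) ((hg j u hu).trans (hφ u))).trans (T3.ext rfl rfl (π3 u).symm)
    have e1 := (LieHom.congr_fun e ⟨x, mx⟩).trans hx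
    have e2 := (LieHom.congr_fun e ⟨y, my⟩).trans hy
    have e3 := congrArg (·.2.2) ((g.map_lie _ _).symm.trans (congrArg g xy))
    simp only [t3] at e3
    rw [show (g ⟨x, mx⟩).1 = 1 from congrArg (·.1) e1, show (g ⟨y, my⟩).1 = 0 from congrArg (·.1) e2,
      show (g ⟨y, my⟩).2.1 = 1 from congrArg (·.2.1) e2] at e3
    simp at e3
  have s1 : (π y').1 = 0 := by rw [← r, π.map_lie, t1]
  have s2 : (π y').2.1 ≠ 0 := fun e => y2 (T3.ext s1 e (π3 _))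
  have s3 : (π x').1 = 1 := mul_right_cancel₀ s2 (by
    have := congrArg (·.2.1) ((π.map_lie _ _).symm.trans (congrArg π r))
    simpa [t2, s1] using this)
  obtain ⟨h', h3, h4⟩ : ∃ h' ∈ B a, π h' = π z' := by
    refine ⟨(π z').1 • x' + (((π z').2.1 - (π z').1 * (π x').2.1) / (π y').2.1) • y',
      add_mem ((B a).smul_mem _ x1) ((B a).smul_mem _ y1), ?_⟩
    rw [map_add, map_smul, map_smul]
    refine T3.ext ?_ ?_ ?_
    · show _ * _ + _ * _ = _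
      rw [s1, s3]; ring
    · show _ * _ + _ * _ = _
      field_simp; ring
    · show _ * _ + _ * _ = _
      simp [π3]
  obtain ⟨S, _, _, X, Y, c1, c2⟩ := noCol (k := k)
  let ρ : T3 (0 : k) →ₗ⁅k⁆ SD S :=
    { toFun := fun v => (0, v.1 • X + v.2.1 • Y)
      map_add' := fun u v => Prod.ext (add_zero _).symm (by
        show (u.1 + v.1) • X + (u.2.1 + v.2.1) • Y = _ + _ + (_ + _); module)
      map_smul' := fun c v => Prod.ext (smul_zero _).symm (by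
        show (c * v.1) • X + (c * v.2.1) • Y = c • (_ + _); module)
      map_lie' := fun {u v} => Prod.ext (by simp [sd1]) (by
        simp only [sd2, t1, t2, add_mul, mul_add, smul_mul_assoc, mul_smul_comm, sub_eq_iff_eq_add.1 c1]
        module) }
  let κ : SD S →ₗ⁅k⁆ SD S :=
    { toFun := fun v => (0, v.2)
      map_add' := fun u v => Prod.ext (add_zero _).symm rfl
      map_smul' := fun c v => Prod.ext (smul_zero _).symm rfl
      map_lie' := fun {u v} => Prod.ext (by simp [sd1]) rfl }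
  obtain ⟨l, hl⟩ := Module.Projective.exists_dual_eq_one k z0
  let w : SD S := (1, 0)
  obtain ⟨g, hg⟩ := h.ex (M := SD S) (fun j => (ρ.comp π).toLinearMap +
    if j = a then 0 else l.smulRight w) fun j u hu v hv => by
      split_ifs with e
      · simp
      · obtain rfl := (ab j).resolve_left e
        obtain ⟨c, rfl⟩ := hb u hu
        obtain ⟨d, rfl⟩ := hb v hv
        rw [map_smul, map_smul, smul_lie, lie_smul, smul_lie, lie_smul, lie_self, lie_self]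
        simp
  have e : κ.comp g = (ρ.comp π).comp (incl _) := h.uq fun j u hu =>
    (congrArg κ (hg j u hu)).trans (Prod.ext rfl (by
      split_ifs
      · exact add_zero _
      · exact (congrArg _ (smul_zero _)).trans (add_zero _)))
  have g2 : ∀ u, (g u).2 = (π u).1 • X + (π u).2.1 • Y := fun u => congrArg (·.2) (LieHom.congr_fun e u)
  have gx : (g ⟨x, mx⟩).2 = X := by rw [g2, hx]; simp [T3.mk]
  have gy : (g ⟨y, my⟩).2 = Y := by rw [g2, hy]; simp [T3.mk]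
  have z2 : ∀ u : lieSpan k L {x, y, p1, p2}, π u = 0 → (g u).2 = 0 := fun u e => by
    rw [g2, e]; exact (congrArg₂ _ (zero_smul _ _) (zero_smul _ _)).trans (add_zero _)
  have n0 := congrArg (fun v => (g v).1) (Subtype.ext rel : (⟨p1, m1⟩ + ⁅(⟨y, my⟩ : lieSpan k L {x, y, p1, p2}),
    (⟨p1, m1⟩ : lieSpan k L {x, y, p1, p2})⁆ + ⁅(⟨x, mx⟩ : lieSpan k L {x, y, p1, p2}),
    (⟨p2, m2⟩ : lieSpan k L {x, y, p1, p2})⁆ : lieSpan k L {x, y, p1, p2}) = 0)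
  simp only [map_add, g.map_lie, map_zero] at n0
  change _ + (_ - _) + (_ - _) = 0 at n0
  rw [gx, gy, z2 _ q1, z2 _ q2] at n0
  have dxy := congrArg (·.1) ((g.map_lie _ _).symm.trans (congrArg g xy))
  simp only [sd1, gx, gy] at dxy
  have key : ∀ u (hu : u ∈ lieSpan k L {x, y, p1, p2}), (g ⟨u, hu⟩).1 - ((π u).1 • (g ⟨x, mx⟩).1 +
      (π u).2.1 • (g ⟨y, my⟩).1) ∈ Ideal.span {(g ⟨p1, m1⟩).1, (g ⟨p2, m2⟩).1} := by
    intro u hu
    induction hu using lieSpan_induction with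
    | mem u hu =>
      rcases hu with rfl | rfl | rfl | rfl
      · rw [hx]; simp [T3.mk]
      · rw [hy]; simp [T3.mk]
      · rw [q1]; exact sub_mem (Ideal.subset_span (.inl rfl)) (by simp [show (0 : T3 (0 : k)) = (0, 0, 0) from rfl])
      · rw [q2]; exact sub_mem (Ideal.subset_span (.inr rfl)) (by simp [show (0 : T3 (0 : k)) = (0, 0, 0) from rfl])
    | zero =>
      rw [show g ⟨0, _⟩ = 0 from map_zero g, map_zero]
      exact sub_mem (zero_mem _) (by simp [show (0 : T3 (0 : k)) = (0, 0, 0) from rfl])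
    | add u v hu hv s t =>
      rw [show g ⟨u + v, _⟩ = _ from map_add g ⟨u, hu⟩ ⟨v, hv⟩, map_add]
      convert add_mem s t using 1
      show _ + _ - ((_ + _ : k) • _ + (_ + _ : k) • _) = _
      module
    | smul c u hu s =>
      rw [show g ⟨c • u, _⟩ = _ from map_smul g c ⟨u, hu⟩, map_smul]
      convert Submodule.smul_of_tower_mem _ c s using 1
      show c • _ - ((c * _ : k) • _ + (c * _ : k) • _) = _
      module
    | lie u v hu hv s t =>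
      rw [show g ⟨⁅u, v⁆, _⟩ = _ from g.map_lie ⟨u, hu⟩ ⟨v, hv⟩, π.map_lie, t1, t2, sd1]
      convert sub_mem (Ideal.mul_mem_left _ (g ⟨u, hu⟩).2 t) (Ideal.mul_mem_left _ (g ⟨v, hv⟩).2 s) using 1
      simp only [g2, mul_sub, add_mul, mul_add, smul_mul_assoc, mul_smul_comm, sub_eq_iff_eq_add.1 dxy]
      module
  have k1 := sub_mem (key _ (h.le b z1')) (key _ (h.le a h3))
  rw [hg b _ z1', hg a _ h3, h4, if_neg ba, if_pos rfl, sub_sub_sub_cancel_right] at k1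
  obtain ⟨t1, t2, e⟩ := Ideal.mem_span_pair.1 k1
  refine c2 _ _ t1 t2 (by rw [← n0]; noncomm_ring) (e.trans ?_)
  show 0 + l z' • (1 : S) - (0 + 0) = 1
  simp [hl]

theorem main [CharZero k] (H : ∀ (L : Type u) [LieRing L] [LieAlgebra k L]
    (I : Type u) (A : I → LieSubalgebra k L) (I' : Type u) (A' : I' → LieSubalgebra k L),
    FD A ⊤ → FD A' ⊤ → ∃ (J : Type u) (B : J → LieSubalgebra k L) (p : J → I)
      (J' : Type u) (B' : J' → LieSubalgebra k L) (p' : J' → I'),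
      (∀ i : I, FD (fun j : {j : J // p j = i} => B j.1) (A i)) ∧
      (∀ i : I', FD (fun j : {j : J' // p' j = i} => B' j.1) (A' i)) ∧
      ∃ σ : J ≃ J', ∀ j : J, Nonempty (B j ≃ₗ⁅k⁆ B' (σ j))) : False := by
  obtain ⟨L, _, _, x, y, z1, z2, U⟩ := exL k
  obtain ⟨π, hx, hy, h1, h2⟩ := U.ex (T3 (0 : k)) (.mk 0 1 0 0) (.mk 0 0 1 0) 0 0
    (T3.ext rfl (by simp [t2, T3.mk]) (by simp [t3, T3.mk]))
  obtain ⟨l1, a1, a2, a3, a4⟩ := U.ex (T3 (0 : k)) 0 0 (.mk 0 1 0 0) 0 (lie_self _)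
  obtain ⟨l2, b1, b2, b3, b4⟩ := U.ex (T3 (0 : k)) 0 0 0 (.mk 0 1 0 0) (lie_self _)
  have nz : ∀ (g : L →ₗ⁅k⁆ T3 (0 : k)) u, (g u).1 = 1 → u ≠ 0 := fun g u e z => by
    rw [z, map_zero] at e; exact zero_ne_one e
  have y0 : y ≠ 0 := fun e => by
    rw [e, map_zero] at hy; exact zero_ne_one (congrArg (·.2.1) hy)
  have alg : ∀ (M : Type u) [LieRing M] (x y w : M), ⁅x, y⁆ = y →
      w + ⁅x, w⁆ + ⁅y, w + ⁅x, w⁆⁆ - ⁅x, w + ⁅y, w⁆⁆ = w := fun M _ x y w e => by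
    rw [lie_add, lie_add, leibniz_lie x y w, e]; abel
  obtain ⟨w, hw⟩ : ∃ w, w = z1 + ⁅y, z1⁆ + ⁅x, z2⁆ := ⟨_, rfl⟩
  obtain ⟨p1, e1⟩ : ∃ p, p = z1 - (w + ⁅x, w⁆) := ⟨_, rfl⟩
  obtain ⟨p2, e2⟩ : ∃ p, p = z2 + (w + ⁅y, w⁆) := ⟨_, rfl⟩
  have rel : p1 + ⁅y, p1⁆ + ⁅x, p2⁆ = 0 := by
    rw [e1, e2, lie_sub, lie_add x z2, ← sub_self w]
    nth_rw 7 [hw]
    nth_rw 7 [← alg L x y w U.rel]
    abel
  have πw : π w = 0 := by simp [hw, h1, h2]
  have lw : (l1 w).1 = 1 := by simp [hw, a1, a2, a3, T3.mk]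
  have mx : x ∈ lieSpan k L {x, y, p1, p2} := subset_lieSpan (by simp)
  have my : y ∈ lieSpan k L {x, y, p1, p2} := subset_lieSpan (by simp)
  have m1 : p1 ∈ lieSpan k L {x, y, p1, p2} := subset_lieSpan (by simp)
  have m2 : p2 ∈ lieSpan k L {x, y, p1, p2} := subset_lieSpan (by simp)
  have s1 : ∀ z : L, z ∈ lieSpan k L {z} := fun z => subset_lieSpan rfl
  have nx : x ∈ lieSpan k L {x, y} := subset_lieSpan (by simp)
  have ny : y ∈ lieSpan k L {x, y} := subset_lieSpan (by simp)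
  obtain ⟨J, B, p, J', B', p', F, F', σ, hσ⟩ := H L (ULift (Fin 2))
    (fun i => ![lieSpan k L {x, y, p1, p2}, lieSpan k L {w}] i.down) (ULift (Fin 3))
    (fun i => ![lieSpan k L {x, y}, lieSpan k L {z1}, lieSpan k L {z2}] i.down)
    (fd_top (fun ⟨i⟩ => by fin_cases i; exacts [nb my y0, nb (s1 w) (nz l1 w lw)]) (fun M _ _ f => by
      let f0 : lieSpan k L {x, y, p1, p2} →ₗ⁅k⁆ M := f ⟨0⟩
      let f1 : lieSpan k L {w} →ₗ⁅k⁆ M := f ⟨1⟩
      have r0 : ⁅f0 ⟨x, mx⟩, f0 ⟨y, my⟩⁆ = f0 ⟨y, my⟩ := by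
        rw [← f0.map_lie]; exact congrArg f0 (Subtype.ext U.rel)
      have r1 : f0 ⟨p1, m1⟩ + ⁅f0 ⟨y, my⟩, f0 ⟨p1, m1⟩⁆ + ⁅f0 ⟨x, mx⟩, f0 ⟨p2, m2⟩⁆ = 0 := by
        rw [← f0.map_lie, ← f0.map_lie, ← map_add, ← map_add, ← map_zero f0]
        exact congrArg f0 (Subtype.ext rel)
      obtain ⟨g, g1, g2, g3, g4⟩ := U.ex M _ _ (f0 ⟨p1, m1⟩ + (f1 ⟨w, s1 w⟩ + ⁅f0 ⟨x, mx⟩, f1 ⟨w, s1 w⟩⁆))
        (f0 ⟨p2, m2⟩ - (f1 ⟨w, s1 w⟩ + ⁅f0 ⟨y, my⟩, f1 ⟨w, s1 w⟩⁆)) r0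
      have g5 : g w = f1 ⟨w, s1 w⟩ := by
        conv_lhs => rw [hw]
        simp only [map_add, g.map_lie, g1, g2, g3, g4]
        rw [lie_add _ (f0 _), lie_sub, ← alg M _ _ (f1 ⟨w, s1 w⟩) r0, alg M _ _ _ r0, ← sub_eq_zero, ← r1,
          ← sub_eq_zero, ← sub_eq_zero.2 (alg M _ _ (f1 ⟨w, s1 w⟩) r0)]
        abel
      refine ⟨g, fun ⟨i⟩ => ?_⟩
      fin_cases i
      · refine span_ext g f0 ?_
        rintro _ (rfl | rfl | rfl | rfl)
        exacts [g1, g2, by conv_lhs => rw [e1]; simp [g1, g3, g5], by conv_lhs => rw [e2]; simp [g2, g4, g5]]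
      · exact span_ext g f1 (by rintro _ rfl; exact g5)) fun M _ _ g g' e => by
      have u1 := e ⟨0⟩ x mx
      have u2 := e ⟨0⟩ y my
      have u5 := e ⟨1⟩ w (s1 w)
      refine U.uq M g g' u1 u2 ?_ ?_
      · rw [eq_add_of_sub_eq e1.symm]; simp [u1, u5, e ⟨0⟩ p1 m1]
      · rw [eq_sub_of_add_eq e2.symm]; simp [u2, u5, e ⟨0⟩ p2 m2])
    (fd_top (fun ⟨i⟩ => by
      fin_cases i
      exacts [nb ny y0, nb (s1 z1) (nz l1 _ (by rw [a3]; rfl)), nb (s1 z2) (nz l2 _ (by rw [b4]; rfl))])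
      (fun M _ _ f => by
      let f0 : lieSpan k L {x, y} →ₗ⁅k⁆ M := f ⟨0⟩
      let f1 : lieSpan k L {z1} →ₗ⁅k⁆ M := f ⟨1⟩
      let f2 : lieSpan k L {z2} →ₗ⁅k⁆ M := f ⟨2⟩
      obtain ⟨g, g1, g2, g3, g4⟩ := U.ex M (f0 ⟨x, nx⟩) (f0 ⟨y, ny⟩) (f1 ⟨_, s1 _⟩) (f2 ⟨_, s1 _⟩) (by
        rw [← f0.map_lie]; exact congrArg f0 (Subtype.ext U.rel))
      refine ⟨g, fun ⟨i⟩ => ?_⟩
      fin_cases i
      · exact span_ext g f0 (by rintro _ (rfl | rfl); exacts [g1, g2])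
      · exact span_ext g f1 (by rintro _ rfl; exact g3)
      · exact span_ext g f2 (by rintro _ rfl; exact g4)) fun M _ _ g g' e =>
      U.uq M g g' (e ⟨0⟩ x nx) (e ⟨0⟩ y ny) (e ⟨1⟩ _ (s1 _)) (e ⟨2⟩ _ (s1 _)))
  obtain ⟨⟨j0, c0⟩, d0, u0⟩ := single2 U.rel π hx hy (F' ⟨0⟩)
  obtain ⟨⟨j1, c1⟩, d1, u1⟩ := single1 l1 (by rw [a3]; rfl) (F' ⟨1⟩)
  obtain ⟨⟨j2, c2⟩, d2, u2⟩ := single1 l2 (by rw [b4]; rfl) (F' ⟨2⟩)
  obtain ⟨⟨jw, cw⟩, dw, uw⟩ := single1 l1 lw (F ⟨1⟩)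
  obtain ⟨j0, rfl⟩ := σ.surjective j0
  obtain ⟨j1, rfl⟩ := σ.surjective j1
  obtain ⟨j2, rfl⟩ := σ.surjective j2
  have all : ∀ j, j = j0 ∨ j = j1 ∨ j = j2 := fun j => by
    obtain ⟨⟨i⟩, hi⟩ : ∃ i, p' (σ j) = i := ⟨_, rfl⟩
    fin_cases i
    exacts [.inl (σ.injective (congrArg Subtype.val (u0 ⟨_, hi⟩))),
      .inr (.inl (σ.injective (congrArg Subtype.val (u1 ⟨_, hi⟩)))),
      .inr (.inr (σ.injective (congrArg Subtype.val (u2 ⟨_, hi⟩))))]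
  have pw : ∀ j, j ≠ jw → p j = ⟨0⟩ := fun j hj => by
    obtain ⟨⟨i⟩, hi⟩ : ∃ i, p j = i := ⟨_, rfl⟩
    fin_cases i
    exacts [hi, (hj (congrArg Subtype.val (uw ⟨_, hi⟩))).elim]
  obtain ⟨x', x1, y', y1, y2, r, ha⟩ := tr2 (hσ j0).some d0 U.rel y0
  have n0 : j0 ≠ jw := fun e => by
    subst e
    obtain ⟨c, rfl⟩ := mem1 (dw.le x1)
    obtain ⟨d, rfl⟩ := mem1 (dw.le y1)
    exact y2 (by rw [← r]; simp)
  have fin : ∀ jb z, jb ≠ jw → (∀ j, j ≠ jw → j = j0 ∨ j = jb) → B' (σ jb) = lieSpan k L {z} → z ≠ 0 →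
      False := fun jb z n1 ab d z0 => by
    obtain ⟨z', z1', z0', hb⟩ := tr1 (hσ jb).some d z0
    refine core U rel π hx hy h1 h2 (by simp [e1, h1, πw]) (by simp [e2, h2, πw]) (F ⟨0⟩)
      (a := ⟨j0, pw _ n0⟩) (b := ⟨jb, pw _ n1⟩) (fun ⟨j, hj⟩ => ?_) x1 y1 y2 r ha z1' z0' hb
    exact (ab j fun e => by rw [e, cw] at hj; cases hj).imp Subtype.ext Subtype.ext
  have n12 : j1 ≠ j2 := fun e => by rw [e, c2] at c1; cases c1
  rcases all jw with e | e | e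
  · exact n0 e.symm
  · exact fin j2 z2 (e ▸ n12.symm) (fun j hj => (all j).imp_right fun a => a.resolve_left (e ▸ hj)) d2
      (nz l2 _ (by rw [b4]; rfl))
  · exact fin j1 z1 (e ▸ n12) (fun j hj => (all j).imp_right fun a => a.resolve_right (e ▸ hj)) d1
      (nz l1 _ (by rw [a3]; rfl))

end Pool.Agent.H22.Fpl
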