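import Pool.Agent.H22.FormLat
import Pool.Agent.H22.SatFit

namespace Pool.Agent.H22.GLS

open Function Subgroup FormLat
open scoped commutatorElement

variable {F : Cls} {A Ω G : Type} [Group G]

theorem sub2 (hF : IsForm F) {D B C E : Type} [Group D] [Group B] [Group C] [Group E] [Finite D]
    (f : D →* B) (hf : Surjective f) (g : D →* C) (hg : Surjective g) (θ : D →* E)
    (hθ : Surjective θ) (h : ∀ x, f x = 1 → g x = 1 → θ x = 1) (b : F B) (c : F C) : F E :=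
  (Fq.inf hF ⟨B, _, f, hf, rfl, b⟩ ⟨C, _, g, hg, rfl, c⟩).of_le hF θ hθ fun x hx => h x hx.1 hx.2

theorem sat (hF : IsForm F) (hS : IsSat F) {D : Type} [Group D] [Finite D] {L : Subgroup D}
    (h : Fq F L) (hW : ∀ W : Subgroup D, IsCoatom W → L ≤ W) : F D :=
  (h.sat hF hS ⊥ fun W a _ => hW W a).of_le hF (MonoidHom.id D) surjective_id bot_le

def fibr {B C : Type} [Group B] [Group C] (φ : B →* G) (ψ : C →* G) : Subgroup (B × C) :=
  (φ.comp (MonoidHom.fst B C)).eqLocus (ψ.comp (MonoidHom.snd B C))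

theorem fibr_mem (hF : IsForm F) {B C : Type} [Group B] [Group C] {φ : B →* G} {ψ : C →* G}
    (hφ : Surjective φ) (hψ : Surjective ψ) (b : F B) (c : F C) : F (fibr φ ψ) := by
  have := hF.1 _ b
  have := hF.1 _ c
  refine sub2 hF ((MonoidHom.fst B C).comp (fibr φ ψ).subtype) (fun x => ?_)
    ((MonoidHom.snd B C).comp (fibr φ ψ).subtype) (fun x => ?_) (MonoidHom.id _) surjective_id
    (fun x h1 h2 => Subtype.ext (Prod.ext h1 h2)) b c
  · obtain ⟨y, hy⟩ := hψ (φ x)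
    exact ⟨⟨(x, y), hy.symm⟩, rfl⟩
  · obtain ⟨y, hy⟩ := hφ (ψ x)
    exact ⟨⟨(y, x), hy⟩, rfl⟩

theorem prod_mem (hF : IsForm F) {B C : Type} [Group B] [Group C] (b : F B) (c : F C) :
    F (B × C) :=
  have := hF.1 _ b
  have := hF.1 _ c
  sub2 hF (MonoidHom.fst B C) Prod.fst_surjective (MonoidHom.snd B C) Prod.snd_surjective
    (MonoidHom.id _) surjective_id (fun _ h1 h2 => Prod.ext h1 h2) b c

variable [MulAction G Ω]

def act (g : G) (f : Ω → A) : Ω → A := fun ω => f (g⁻¹ • ω)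

@[simp] theorem act_apply (g : G) (f : Ω → A) (ω : Ω) : act g f ω = f (g⁻¹ • ω) := rfl
@[simp] theorem act_one (f : Ω → A) : act (1 : G) f = f := by ext; simp

@[ext] structure Wr (A Ω G : Type) where
  f : Ω → A
  g : G

instance [Finite A] [Finite Ω] [Finite G] : Finite (Wr A Ω G) :=
  Finite.of_injective (fun x : Wr A Ω G => (x.f, x.g)) fun _ _ h =>
    Wr.ext (congrArg Prod.fst h) (congrArg Prod.snd h)

section
variable [AddCommGroup A]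

instance : Mul (Wr A Ω G) := ⟨fun a b => ⟨a.f + act a.g b.f, a.g * b.g⟩⟩
instance : One (Wr A Ω G) := ⟨⟨0, 1⟩⟩
instance : Inv (Wr A Ω G) := ⟨fun a => ⟨-act a.g⁻¹ a.f, a.g⁻¹⟩⟩

@[simp] theorem mul_f (a b : Wr A Ω G) : (a * b).f = a.f + act a.g b.f := rfl
@[simp] theorem mul_g (a b : Wr A Ω G) : (a * b).g = a.g * b.g := rfl
omit [MulAction G Ω] in
@[simp] theorem one_f : (1 : Wr A Ω G).f = 0 := rfl
omit [MulAction G Ω] in
@[simp] theorem one_g : (1 : Wr A Ω G).g = 1 := rfl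
@[simp] theorem inv_f (a : Wr A Ω G) : a⁻¹.f = -act a.g⁻¹ a.f := rfl
@[simp] theorem inv_g (a : Wr A Ω G) : a⁻¹.g = a.g⁻¹ := rfl

instance : Group (Wr A Ω G) := Group.ofLeftAxioms
  (fun a b c => by ext <;> simp [mul_smul, add_assoc, mul_assoc])
  (fun a => by ext <;> simp) (fun a => by ext <;> simp)

def sg : Wr A Ω G →* G := MonoidHom.mk' Wr.g fun _ _ => rfl
def inr : G →* Wr A Ω G := MonoidHom.mk' (fun g => ⟨0, g⟩) fun _ _ => by ext <;> simp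

@[simp] theorem sg_apply (a : Wr A Ω G) : sg a = a.g := rfl
theorem inr_apply (g : G) : (inr g : Wr A Ω G) = ⟨0, g⟩ := rfl
theorem sg_surj : Surjective (sg : Wr A Ω G → G) := fun g => ⟨⟨0, g⟩, rfl⟩

theorem conj_tr (a : Wr A Ω G) (f : Ω → A) : a * ⟨f, 1⟩ * a⁻¹ = ⟨act a.g f, 1⟩ := by
  ext <;> simp

def lft (X : Subgroup (Wr A Ω G)) : AddSubgroup (Ω → A) where
  carrier := {f | (⟨f, 1⟩ : Wr A Ω G) ∈ X}
  zero_mem' := X.one_mem
  add_mem' := fun {a b} ha hb => by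
    convert X.mul_mem ha hb using 1
    exact Iff.of_eq (congrArg (· ∈ X) (by ext <;> simp))
  neg_mem' := fun {a} ha => by
    convert X.inv_mem ha using 1
    exact Iff.of_eq (congrArg (· ∈ X) (by ext <;> simp))

theorem mem_lft {X : Subgroup (Wr A Ω G)} {w : Wr A Ω G} (h : inr w.g ∈ X) :
    w ∈ X ↔ w.f ∈ lft X := by
  have : w = ⟨w.f, 1⟩ * inr w.g := by ext <;> simp [inr_apply]
  exact (Iff.of_eq (congrArg (· ∈ X) this)).trans (X.mul_mem_cancel_right h)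

theorem lft_act {X : Subgroup (Wr A Ω G)} {w : Wr A Ω G} (h : w ∈ X) {f : Ω → A} (hf : f ∈ lft X) :
    act w.g f ∈ lft X :=
  show _ ∈ X from conj_tr w f ▸ X.mul_mem (X.mul_mem h hf) (X.inv_mem h)

theorem bk (hF : IsForm F) {E : Type} [Group E] (hE : F E) (V : Subgroup E) [V.Normal]
    (σ : E →* G) (hσ : Surjective σ) (c : E → Ω → A)
    (hadd : ∀ v ∈ V, ∀ w ∈ V, c (v * w) = c v + c w)
    (heq : ∀ e, ∀ v ∈ V, c (e * v * e⁻¹) = act (σ e) (c v)) :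
    ∃ X : Subgroup (Wr A Ω G), (∀ w, w ∈ X ↔ ∃ v ∈ V, c v = w.f) ∧ F X := by
  have m : ∀ x : fibr (QuotientGroup.mk' V) (QuotientGroup.mk' V), x.1.1 * x.1.2⁻¹ ∈ V := fun x =>
    QuotientGroup.eq_iff_div_mem.1 x.2 |> (div_eq_mul_inv x.1.1 x.1.2 ▸ ·)
  let θ : fibr (QuotientGroup.mk' V) (QuotientGroup.mk' V) →* Wr A Ω G :=
    MonoidHom.mk' (fun x => ⟨c (x.1.1 * x.1.2⁻¹), σ x.1.2⟩) fun x y => Wr.ext (by
      simp only [mul_f]
      rw [← heq _ _ (m y), ← hadd _ (m x) _ (Normal.conj_mem inferInstance _ (m y) _)]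
      congr 1
      simp [mul_assoc]) (map_mul σ _ _)
  refine ⟨θ.range, fun w => ⟨?_, ?_⟩, surj hF _ θ.rangeRestrict_surjective (fibr_mem hF
    (QuotientGroup.mk'_surjective V) (QuotientGroup.mk'_surjective V) hE hE)⟩
  · rintro ⟨x, rfl⟩
    exact ⟨_, m x, rfl⟩
  · rintro ⟨v, hv, e⟩
    obtain ⟨y, hy⟩ := hσ w.g
    exact ⟨⟨(v * y, y), QuotientGroup.eq_iff_div_mem.2 (by simpa using hv)⟩,
      Wr.ext (by simpa [θ] using e) hy⟩

def Big (F : Cls) (X : Subgroup (Wr A Ω G)) : Prop := (∀ g, inr g ∈ X) ∧ F X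

theorem bk' (hF : IsForm F) {E : Type} [Group E] (hE : F E) (V : Subgroup E) [V.Normal]
    (σ : E →* G) (hσ : Surjective σ) (c : E → Ω → A)
    (hadd : ∀ v ∈ V, ∀ w ∈ V, c (v * w) = c v + c w)
    (heq : ∀ e, ∀ v ∈ V, c (e * v * e⁻¹) = act (σ e) (c v)) :
    ∃ X : Subgroup (Wr A Ω G), Big F X ∧ ∀ v ∈ V, c v ∈ lft X := by
  obtain ⟨X, a, b⟩ := bk hF hE V σ hσ c hadd heq
  refine ⟨X, ⟨fun g => (a _).2 ⟨1, V.one_mem, ?_⟩, b⟩, fun v hv => (a _).2 ⟨v, hv, rfl⟩⟩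
  simpa [inr_apply] using hadd 1 V.one_mem 1 V.one_mem

theorem Big.sup (hF : IsForm F) {X Y : Subgroup (Wr A Ω G)} (a : Big F X) (b : Big F Y) :
    ∃ Z, Big F Z ∧ X ≤ Z ∧ Y ≤ Z := by
  have sx : Surjective (sg.comp X.subtype) := fun g => ⟨⟨_, a.1 g⟩, rfl⟩
  have sy : Surjective (sg.comp Y.subtype) := fun g => ⟨⟨_, b.1 g⟩, rfl⟩
  let σ := (sg.comp X.subtype).comp ((MonoidHom.fst X Y).comp
    (fibr (sg.comp X.subtype) (sg.comp Y.subtype)).subtype)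
  obtain ⟨Z, c, d⟩ := bk' hF (fibr_mem hF sx sy a.2 b.2) σ.ker σ
    (fun g => ⟨⟨(⟨_, a.1 g⟩, ⟨_, b.1 g⟩), rfl⟩, rfl⟩) (fun x => x.1.1.1.f + x.1.2.1.f)
    (fun v hv w _ => by
      have h1 : v.1.1.1.g = 1 := hv
      have h2 : v.1.2.1.g = 1 := v.2.symm.trans hv
      simp [h1, h2, add_add_add_comm])
    (fun e v hv => by
      have h1 : v.1.1.1.g = 1 := hv
      have h2 : v.1.2.1.g = 1 := v.2.symm.trans hv
      have h3 : e.1.2.1.g = e.1.1.1.g := e.2.symm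
      ext
      simp [h1, h2, h3, σ])
  refine ⟨Z, c, fun w hw => (mem_lft (c.1 _)).2 ?_, fun w hw => (mem_lft (c.1 _)).2 ?_⟩
  · simpa using d ⟨(⟨⟨w.f, 1⟩, (mem_lft (a.1 _)).1 hw⟩, 1), rfl⟩ rfl
  · simpa using d ⟨(1, ⟨⟨w.f, 1⟩, (mem_lft (b.1 _)).1 hw⟩), rfl⟩ rfl

end

@[ext] structure Hs (A Ω G : Type) where
  a : Ω → A
  b : Ω → A
  c : Ω → A
  g : G

instance [Finite A] [Finite Ω] [Finite G] : Finite (Hs A Ω G) :=
  Finite.of_injective (fun x : Hs A Ω G => (x.a, x.b, x.c, x.g)) fun _ _ h => by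
    simp only [Prod.mk.injEq] at h
    exact Hs.ext h.1 h.2.1 h.2.2.1 h.2.2.2

section
variable [CommRing A]

instance : Mul (Hs A Ω G) := ⟨fun x y => ⟨x.a + act x.g y.a, x.b + act x.g y.b,
  x.c + act x.g y.c + x.a * act x.g y.b, x.g * y.g⟩⟩
instance : One (Hs A Ω G) := ⟨⟨0, 0, 0, 1⟩⟩
instance : Inv (Hs A Ω G) := ⟨fun x => ⟨-act x.g⁻¹ x.a, -act x.g⁻¹ x.b,
  act x.g⁻¹ (x.a * x.b - x.c), x.g⁻¹⟩⟩

theorem Hs.mul (x y : Hs A Ω G) : x * y = ⟨x.a + act x.g y.a, x.b + act x.g y.b,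
  x.c + act x.g y.c + x.a * act x.g y.b, x.g * y.g⟩ := rfl
omit [MulAction G Ω] in
theorem Hs.one : (1 : Hs A Ω G) = ⟨0, 0, 0, 1⟩ := rfl
theorem Hs.inv (x : Hs A Ω G) : x⁻¹ = ⟨-act x.g⁻¹ x.a, -act x.g⁻¹ x.b,
  act x.g⁻¹ (x.a * x.b - x.c), x.g⁻¹⟩ := rfl

instance : Group (Hs A Ω G) := Group.ofLeftAxioms
  (fun x y z => by
    ext <;> simp [Hs.mul, mul_smul, add_assoc, mul_assoc]
    ring)
  (fun a => by ext <;> simp [Hs.mul, Hs.one]) (fun a => by ext <;> simp [Hs.mul, Hs.one, Hs.inv])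

theorem Big.mul (hF : IsForm F) (hS : IsSat F) [Finite A] [Finite Ω] [Finite G]
    {X : Subgroup (Wr A Ω G)} (h : Big F X) :
    ∃ Z : Subgroup (Wr A Ω G), Big F Z ∧ ∀ a ∈ lft X, ∀ b ∈ lft X, a * b ∈ lft Z := by
  let S := AddSubgroup.closure {c | ∃ a ∈ lft X, ∃ b ∈ lft X, a * b = c}
  have m : ∀ a ∈ lft X, ∀ b ∈ lft X, a * b ∈ S := fun a ha b hb =>
    AddSubgroup.subset_closure ⟨a, ha, b, hb, rfl⟩
  have i : ∀ (g : G), ∀ a ∈ lft X, act g a ∈ lft X := fun g a ha => lft_act (h.1 g) ha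
  have j : ∀ (g : G), ∀ c ∈ S, act g c ∈ S := fun g c hc => by
    refine AddSubgroup.closure_induction (p := fun c _ => act g c ∈ S) ?_ S.zero_mem
      (fun _ _ _ _ => S.add_mem) (fun _ _ => S.neg_mem) hc
    rintro _ ⟨a, ha, b, hb, rfl⟩
    exact m _ (i g a ha) _ (i g b hb)
  let Y : Subgroup (Hs A Ω G) :=
    { carrier := {x | x.a ∈ lft X ∧ x.b ∈ lft X ∧ x.c ∈ S}
      one_mem' := ⟨zero_mem _, zero_mem _, zero_mem _⟩
      mul_mem' := fun {x y} a b => ⟨add_mem a.1 (i _ _ b.1), add_mem a.2.1 (i _ _ b.2.1),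
        add_mem (add_mem a.2.2 (j _ _ b.2.2)) (m _ a.1 _ (i _ _ b.2.1))⟩
      inv_mem' := fun {x} a => ⟨neg_mem (i _ _ a.1), neg_mem (i _ _ a.2.1),
        j _ _ (sub_mem (m _ a.1 _ a.2.1) a.2.2)⟩ }
  let φ : Y →* X := MonoidHom.mk' (fun x => ⟨⟨x.1.a, x.1.g⟩, (mem_lft (h.1 _)).2 x.2.1⟩)
    fun _ _ => rfl
  let ψ : Y →* X := MonoidHom.mk' (fun x => ⟨⟨x.1.b, x.1.g⟩, (mem_lft (h.1 _)).2 x.2.2.1⟩)
    fun _ _ => rfl
  have k : ∀ x ∈ φ.ker ⊓ ψ.ker, x.1.a = 0 ∧ x.1.b = 0 ∧ x.1.g = 1 := fun x hx =>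
    ⟨congrArg (fun w : X => w.1.f) hx.1, congrArg (fun w : X => w.1.f) hx.2,
      congrArg (fun w : X => w.1.g) hx.1⟩
  have hY : F Y := by
    refine sat hF hS (Fq.inf hF
      ⟨X, _, φ, fun w => ⟨⟨⟨w.1.f, 0, 0, w.1.g⟩, (mem_lft (h.1 _)).1 w.2, zero_mem _, zero_mem _⟩, rfl⟩,
        rfl, h.2⟩
      ⟨X, _, ψ, fun w => ⟨⟨⟨0, w.1.f, 0, w.1.g⟩, zero_mem _, (mem_lft (h.1 _)).1 w.2, zero_mem _⟩, rfl⟩,
        rfl, h.2⟩) fun W hW => ?_
    by_contra n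
    have t := hW.2 _ (right_lt_sup.2 n)
    have key : ∀ c (hc : c ∈ S), (⟨⟨0, 0, c, 1⟩, zero_mem _, zero_mem _, hc⟩ : Y) ∈ W := by
      intro c hc
      refine AddSubgroup.closure_induction
        (p := fun c hc => (⟨⟨0, 0, c, 1⟩, zero_mem _, zero_mem _, hc⟩ : Y) ∈ W) ?_ W.one_mem
        (fun a b _ _ u v => Eq.mp (congrArg (· ∈ W) (Subtype.ext ?_)) (W.mul_mem u v))
        (fun a _ u => Eq.mp (congrArg (· ∈ W) (Subtype.ext ?_)) (W.inv_mem u)) hc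
      · rintro _ ⟨a, ha, b, hb, rfl⟩
        obtain ⟨z, hz, w, hw, e⟩ := mem_sup_of_normal_left.1
          (t.ge (mem_top ⟨⟨a, 0, 0, 1⟩, ha, zero_mem _, zero_mem _⟩))
        obtain ⟨z', hz', w', hw', e'⟩ := mem_sup_of_normal_left.1
          (t.ge (mem_top ⟨⟨0, b, 0, 1⟩, zero_mem _, hb, zero_mem _⟩))
        obtain ⟨z1, z2, z3⟩ := k z hz
        obtain ⟨z4, z5, z6⟩ := k z' hz'
        have e1 := congrArg Subtype.val e
        have e2 := congrArg Subtype.val e'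
        simp [Hs.mul, z1, z2, z3, z4, z5, z6] at e1 e2
        refine Eq.mp (congrArg (· ∈ W) (Subtype.ext ?_))
          (W.mul_mem (W.mul_mem (W.mul_mem hw hw') (W.inv_mem hw)) (W.inv_mem hw'))
        ext <;> simp [Hs.mul, Hs.inv, e1.1, e1.2.1, e1.2.2.2, e2.1, e2.2.1, e2.2.2.2]
        ring
      · ext <;> simp [Hs.mul]
      · ext <;> simp [Hs.inv]
    refine n fun x hx => Eq.mp (congrArg (· ∈ W) (Subtype.ext ?_)) (key _ x.2.2.2)
    obtain ⟨z1, z2, z3⟩ := k x hx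
    exact Hs.ext z1.symm z2.symm rfl z3.symm
  obtain ⟨Z, c, d⟩ := bk' hF hY (φ.ker ⊓ ψ.ker) (sg.comp (X.subtype.comp φ))
    (fun g => ⟨⟨⟨0, 0, 0, g⟩, zero_mem _, zero_mem _, zero_mem _⟩, rfl⟩) (fun x => x.1.c)
    (fun v hv w _ => by
      obtain ⟨z1, z2, z3⟩ := k v hv
      simp [Hs.mul, z1, z3])
    (fun e v hv => by
      obtain ⟨z1, z2, z3⟩ := k v hv
      ext
      simp [Hs.mul, Hs.inv, z1, z2, z3, φ]
      ring)
  exact ⟨Z, c, fun a ha b hb => d ⟨⟨0, 0, a * b, 1⟩, zero_mem _, zero_mem _, m a ha b hb⟩ ⟨rfl, rfl⟩⟩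

end

theorem alg_top {p : ℕ} [Fact p.Prime] [Finite Ω] (S : AddSubgroup (Ω → ZMod p))
    (hm : ∀ a ∈ S, ∀ b ∈ S, a * b ∈ S) (h1 : ∀ x, ∃ f ∈ S, f x ≠ 0)
    (h2 : ∀ x y, x ≠ y → ∃ f ∈ S, f x ≠ f y) (f : Ω → ZMod p) : f ∈ S := by
  classical
  have := Fintype.ofFinite Ω
  refine AddSubgroup.pi_mem_of_single_mem f fun x => ?_
  have key : ∀ t : Finset Ω, ∃ g ∈ S, g x ≠ 0 ∧ ∀ y ∈ t, y ≠ x → g y = 0 := fun t => by
    induction t using Finset.induction_on with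
    | empty => simpa using h1 x
    | insert y t _ ih =>
      obtain ⟨g, a, b, c⟩ := ih
      by_cases e : x = y
      · exact ⟨g, a, b, by simpa [e] using c⟩
      obtain ⟨h, d, n⟩ := h2 x y e
      refine ⟨g * h - h y • g, sub_mem (hm _ a _ d) (ZMod.smul_mem a _), ?_, fun z hz hx => ?_⟩
      · simpa [mul_comm (h y), ← mul_sub, b, sub_eq_zero] using n
      · rcases Finset.mem_insert.1 hz with rfl | hz
        · simp [mul_comm]
        · simp [c z hz hx]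
  obtain ⟨g, a, b, c⟩ := key Finset.univ
  convert ZMod.smul_mem a (f x / g x) using 1
  ext y
  by_cases e : y = x
  · subst e; simp [b]
  · simp [e, c y (Finset.mem_univ y) e]

theorem sep1 {p : ℕ} [Fact p.Prime] [AddCommGroup A] [Module (ZMod p) A] {v : A} (h : v ≠ 0) :
    ∃ l : A →+ ZMod p, l v ≠ 0 := by
  obtain ⟨l, hl⟩ := not_forall.1 (mt (Module.forall_dual_apply_eq_zero_iff (ZMod p) v).1 h)
  exact ⟨l.toAddMonoidHom, hl⟩

theorem sep0 {p : ℕ} [Fact p.Prime] [AddCommGroup A] (he : ∀ a : A, p • a = 0) {v : A} (h : v ≠ 0) :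
    ∃ l : A →+ ZMod p, l v ≠ 0 := @sep1 A p _ _ (AddCommGroup.zmodModule he) v h

open scoped IsMulCommutative in
theorem sep {p : ℕ} [Fact p.Prime] {V : Subgroup G} (hc : ∀ a ∈ V, ∀ b ∈ V, a * b = b * a)
    (he : ∀ a ∈ V, a ^ p = 1) {v : G} (hv : v ∈ V) (h1 : v ≠ 1) :
    ∃ l : G → ZMod p, (∀ a ∈ V, ∀ b ∈ V, l (a * b) = l a + l b) ∧ l v ≠ 0 := by
  classical
  have : IsMulCommutative V := ⟨⟨fun a b => Subtype.ext (hc a a.2 b b.2)⟩⟩
  obtain ⟨l, hl⟩ := sep0 (A := Additive V) (p := p) (fun x => Subtype.ext (he _ x.toMul.2))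
    (v := Additive.ofMul (⟨v, hv⟩ : V)) fun e => h1 (congrArg Subtype.val e)
  refine ⟨fun a => if h : a ∈ V then l (Additive.ofMul ⟨a, h⟩) else 0, fun a ha b hb => ?_, ?_⟩
  · simp only [ha, hb, V.mul_mem ha hb, dif_pos]
    exact map_add l (Additive.ofMul ⟨a, ha⟩) (Additive.ofMul ⟨b, hb⟩)
  · simpa [hv] using hl

abbrev Gd (F : Cls) (p : ℕ) (P : Type) [Group P] : Prop := F (Wr (ZMod p) P P)

theorem gls (hF : IsForm F) (hS : IsSat F) {p : ℕ} [Fact p.Prime] {E : Type} [Group E] (hE : F E)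
    (V : Subgroup E) [V.Normal] (hc : ∀ a ∈ V, ∀ b ∈ V, a * b = b * a) (he : ∀ a ∈ V, a ^ p = 1)
    (hV : V ≠ ⊥) (π : E →* G) (hπ : Surjective π) (hk : ∀ e, π e = 1 ↔ ∀ v ∈ V, e * v = v * e) :
    Gd F p G := by
  have := hF.1 _ hE
  have := Finite.of_surjective π hπ
  have cj : ∀ v ∈ V, ∀ e : E, e⁻¹ * v * e ∈ V := fun v hv e => Normal.conj_mem' inferInstance v hv e
  have key : ∀ l : E → ZMod p, (∀ a ∈ V, ∀ b ∈ V, l (a * b) = l a + l b) →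
      ∃ X : Subgroup (Wr (ZMod p) G G), Big F X ∧
        ∀ v ∈ V, (fun x => l ((surjInv hπ x)⁻¹ * v * surjInv hπ x)) ∈ lft X := fun l hl =>
    bk' hF hE V π hπ _ (fun v hv w hw => funext fun x => by
      rw [Pi.add_apply, ← hl _ (cj v hv _) _ (cj w hw _)]
      congr 1
      group) fun e v hv => funext fun x => by
      have := (hk (surjInv hπ ((π e)⁻¹ * x) * (surjInv hπ x)⁻¹ * e)).1 (by simp [surjInv_eq]) v hv
      simp only [act_apply, smul_eq_mul]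
      congr 1
      generalize surjInv hπ ((π e)⁻¹ * x) = a at *
      generalize surjInv hπ x = b at *
      calc _ = a⁻¹ * (a * b⁻¹ * e * v) * (e⁻¹ * b) := by group
        _ = _ := by rw [this]; group
  obtain ⟨X, hX, hm⟩ := (wellFounded_gt (α := Subgroup (Wr (ZMod p) G G))).has_min {X | Big F X}
    ((key 0 fun _ _ _ _ => (add_zero _).symm).imp fun _ h => h.1)
  have big : ∀ Y, Big F Y → lft Y ≤ lft X := fun Y hY f hf => by
    obtain ⟨Z, a, b, c⟩ := hX.sup hF hY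
    have : X = Z := b.eq_or_lt.resolve_right (hm Z a)
    exact show _ ∈ X from this ▸ c hf
  have sp : ∀ v ∈ V, v ≠ 1 → ∃ l : E → ZMod p, l v ≠ 0 ∧ (∀ a ∈ V, ∀ b ∈ V, l (a * b) = l a + l b) ∧
      ∀ v ∈ V, (fun x => l ((surjInv hπ x)⁻¹ * v * surjInv hπ x)) ∈ lft X := fun v hv h1 => by
    obtain ⟨l, a, b⟩ := sep hc he hv h1
    obtain ⟨Y, c, d⟩ := key l a
    exact ⟨l, b, a, fun v hv => big Y c (d v hv)⟩
  refine surj hF X.subtype (fun w => ⟨⟨w, (mem_lft (hX.1 _)).2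
    (alg_top _ (fun a ha b hb => ?_) (fun x => ?_) (fun x y n => ?_) _)⟩, rfl⟩) hX.2
  · obtain ⟨Z, c, d⟩ := hX.mul hF hS
    exact big Z c (d a ha b hb)
  · obtain ⟨v, h1⟩ := (ne_bot_iff_exists_ne_one.1 hV)
    obtain ⟨l, a, -, c⟩ := sp v v.2 fun e => h1 (Subtype.ext e)
    exact ⟨_, c _ (Normal.conj_mem inferInstance _ v.2 (surjInv hπ x)), by simpa [mul_assoc] using a⟩
  · have : ¬ ∀ v ∈ V, surjInv hπ x * (surjInv hπ y)⁻¹ * v = v * (surjInv hπ x * (surjInv hπ y)⁻¹) :=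
      fun h => n (by simpa [surjInv_eq, mul_inv_eq_one] using (hk _).2 h)
    push Not at this
    obtain ⟨v, hv, h1⟩ := this
    have u := V.inv_mem (cj v hv (surjInv hπ y))
    obtain ⟨l, a, b, c⟩ := sp _ (V.mul_mem (cj v hv (surjInv hπ x)) u) fun e => h1 (by
      rw [mul_inv_eq_one] at e
      generalize surjInv hπ x = a at *
      generalize surjInv hπ y = b at *
      calc _ = a * (b⁻¹ * v * b) * b⁻¹ := by group
        _ = _ := by rw [← e]; group)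
    refine ⟨_, c v hv, fun e => a ?_⟩
    have h2 := b _ (V.mul_mem (cj v hv (surjInv hπ x)) u) _ (cj v hv (surjInv hπ y))
    rw [inv_mul_cancel_right] at h2
    beta_reduce at e
    linear_combination e - h2

end Pool.Agent.H22.GLS
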