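import Pool.Agent.H22.GLS

namespace Pool.Agent.H22.GLS

open Function Subgroup FormLat
open scoped commutatorElement

variable {F : Cls} {A Ω G : Type} [Group G] {p : ℕ}

theorem pow_f [MulAction G Ω] [AddCommGroup A] (w : Wr A Ω G) (ω : Ω) (h : w.g⁻¹ • ω = ω) (m : ℕ) :
    (w ^ m).f ω = m • w.f ω := by
  induction m with
  | zero => simp
  | succ m ih => rw [pow_succ', mul_f, Pi.add_apply, act_apply, h, ih, succ_nsmul']

theorem ext_grp [Finite G] [Fact p.Prime] {x : G} (ox : x ^ p = 1) (x1 : x ≠ 1) (j : ℕ) :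
    ∃ (E : Type) (_ : Group E) (_ : Finite E) (π : E →* G), Surjective π ∧
      (∀ W : Subgroup E, IsCoatom W → π.ker ≤ W) ∧ (∀ a ∈ π.ker, ∀ b ∈ π.ker, a * b = b * a) ∧
      (∀ a ∈ π.ker, a ^ p ^ (j + 1) = 1) ∧ ∀ e m, π e = x → e ^ m = 1 → p ^ (j + 1) ∣ m := by
  have hp : p.Prime := Fact.out
  have : NeZero (p ^ (j + 1)) := ⟨pow_ne_zero _ hp.ne_zero⟩
  have xn : x ^ p ^ (j + 1) = 1 := by rw [pow_succ', pow_mul, ox, one_pow]
  have ad : ∀ a b : ZMod (p ^ (j + 1)), x ^ (a + b).val = x ^ a.val * x ^ b.val := fun a b => by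
    rw [ZMod.val_add, ← pow_eq_pow_mod _ xn, pow_add]
  let E₀ : Subgroup (Wr (ZMod (p ^ (j + 1))) (G ⧸ zpowers x) G) :=
    { carrier := {w | ∀ ω, x ^ (w.f ω).val = ω.out⁻¹ * w.g * (w.g⁻¹ • ω).out}
      one_mem' := fun ω => by simp
      mul_mem' := fun {a b} ha hb ω => by
        rw [mul_f, Pi.add_apply, ad, act_apply, ha, hb, mul_g, mul_inv_rev, mul_smul]
        group
      inv_mem' := fun {a} ha ω => by
        have := ad (-a.f (a.g • ω)) (a.f (a.g • ω))
        rw [neg_add_cancel, ZMod.val_zero, pow_zero, ha, inv_smul_smul] at this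
        simp only [inv_f, inv_g, Pi.neg_apply, act_apply, inv_inv]
        rw [eq_inv_of_mul_eq_one_left this.symm]
        group }
  have s0 : E₀.map sg = ⊤ := eq_top_iff.2 fun g _ => by
    have : ∀ ω : G ⧸ zpowers x, ∃ i : ℕ, x ^ i = ω.out⁻¹ * g * (g⁻¹ • ω).out := fun ω =>
      mem_powers_iff_mem_zpowers.2 (by
        have : ((g⁻¹ * ω.out : G) : G ⧸ zpowers x) = (g⁻¹ • ω).out := by
          rw [QuotientGroup.out_eq', ← smul_eq_mul, ← MulAction.Quotient.smul_mk,
            QuotientGroup.out_eq']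
        simpa [mul_assoc] using QuotientGroup.eq.1 this)
    choose i hi using this
    exact ⟨⟨fun ω => i ω, g⟩, fun ω => by rw [ZMod.val_natCast, ← pow_eq_pow_mod _ xn, hi], rfl⟩
  obtain ⟨E, ⟨e1, e2⟩, e3⟩ := (wellFounded_lt (α := Subgroup _)).has_min
    {E | E ≤ E₀ ∧ E.map sg = ⊤} ⟨E₀, le_rfl, s0⟩
  have sj : Surjective (sg.comp E.subtype) := fun g => by
    obtain ⟨w, hw, e⟩ := e2.ge (mem_top g)
    exact ⟨⟨w, hw⟩, e⟩
  refine ⟨E, inferInstance, inferInstance, sg.comp E.subtype, sj, fun W hW => ?_,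
    fun a ha b hb => ?_, fun a ha => ?_, fun e m he hm => ?_⟩
  · by_contra n
    refine e3 (W.map E.subtype) ⟨(map_subtype_le W).trans e1, ?_⟩
      ((map_subtype_le W).lt_of_ne fun e => hW.1 (map_injective E.subtype_injective
        (e.trans (by simp [← MonoidHom.range_eq_map]))))
    rw [map_map, ← map_comap_eq_self (map_le_range _ W), comap_map_eq, hW.2 _ (left_lt_sup.2 n),
      map_top_of_surjective _ sj]
  · have a1 : a.1.g = 1 := ha
    have b1 : b.1.g = 1 := hb
    ext <;> simp [a1, b1, add_comm]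
  · have a1 : a.1.g = 1 := ha
    refine Subtype.ext (Wr.ext (funext fun ω => ?_) ((map_pow sg a.1 _).trans (by simp [a1])))
    rw [SubgroupClass.coe_pow, pow_f _ _ (by simp [a1]), nsmul_eq_mul, ZMod.natCast_self, zero_mul]
    rfl
  · have h1 : e.1.g = x := he
    have h2 : e.1.g⁻¹ • ((1 : G) : G ⧸ zpowers x) = ((1 : G) : G ⧸ zpowers x) := by
      rw [h1, MulAction.Quotient.smul_mk]
      exact QuotientGroup.eq.2 (by simp)
    have h3 := e1 e.2 ((1 : G) : G ⧸ zpowers x)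
    have h4 := pow_f e.1 _ h2 m
    obtain ⟨u, hu⟩ := QuotientGroup.mk_out_eq_mul (zpowers x) 1
    obtain ⟨i, hi⟩ := u.2
    rw [h2, h1, hu, one_mul, ← hi] at h3
    rw [show e.1 ^ m = 1 from congrArg Subtype.val hm, nsmul_eq_mul] at h4
    generalize e.1.f ((1 : G) : G ⧸ zpowers x) = a at h3 h4
    have h5 : ¬ p ∣ a.val := by
      rintro ⟨c, hc⟩
      rw [hc, pow_mul, ox, one_pow] at h3
      refine x1 (Eq.symm (h3.trans ?_))
      beta_reduce
      group
    refine ((hp.coprime_iff_not_dvd.2 h5).pow_left _).dvd_of_dvd_mul_right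
      ((ZMod.natCast_eq_zero_iff _ _).1 ?_)
    rw [Nat.cast_mul, ZMod.natCast_zmod_val]
    exact h4.symm

theorem frat (hF : IsForm F) (hS : IsSat F) [Fact p.Prime] (hG : F G) (N : Subgroup G) [N.Normal]
    (hN : ⁅N, N⁆ = N) (hm : ∀ K : Subgroup G, K.Normal → K ≠ ⊥ → N ≤ K) {x : G} (hx : x ∈ N)
    (ox : x ^ p = 1) (x1 : x ≠ 1) : Gd F p G := by
  have := hF.1 _ hG
  have hp : p.Prime := Fact.out
  obtain ⟨E, _, _, π, sj, h1, h2, h3, h4⟩ := ext_grp ox x1 (Nat.card G)
  let V : Subgroup E :=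
    { carrier := {a | a ∈ π.ker ∧ a ^ p = 1}
      one_mem' := ⟨one_mem _, one_pow _⟩
      mul_mem' := fun {a b} ha hb => ⟨mul_mem ha.1 hb.1, by
        rw [Commute.mul_pow (h2 a ha.1 b hb.1), ha.2, hb.2, mul_one]⟩
      inv_mem' := fun {a} ha => ⟨inv_mem ha.1, by rw [inv_pow, ha.2, inv_one]⟩ }
  have nV : V.Normal := ⟨fun a ha g => ⟨Normal.conj_mem inferInstance a ha.1 g, by
    rw [conj_pow, ha.2, mul_one, mul_inv_cancel]⟩⟩
  have hk : ∀ e, (∀ v ∈ V, e * v = v * e) → π e = 1 := by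
    intro e he
    by_contra ne
    have l : N ≤ (centralizer (V : Set E)).map π := hm _ (Normal.map inferInstance _ sj) fun c =>
      ne (c.le ⟨e, fun v hv => (he v hv).symm, rfl⟩)
    have c1 : ∀ n ∈ N.comap π, ∀ v ∈ V, v * n = n * v := fun n hn v hv => by
      obtain ⟨d, hd, e⟩ := l hn
      have := h2 (d⁻¹ * n) (by simp [e]) v hv.1
      calc v * n = (v * d) * (d⁻¹ * n) := by group
        _ = d * ((d⁻¹ * n) * v) := by rw [hd v hv, this]; group
        _ = _ := by group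
    have lc : ∀ n ∈ N, ∃ d ∈ ⁅N.comap π, N.comap π⁆, π d = n := fun n hn => by
      have : n ∈ ⁅N.comap π, N.comap π⁆.map π := by
        rwa [map_commutator, map_comap_eq_self_of_surjective sj, hN]
      exact this
    have c2 : ∀ i, ∀ a ∈ π.ker, a ^ p ^ i = 1 → ∀ n ∈ N.comap π, n * a = a * n := by
      intro i
      induction i with
      | zero => intro a _ h; simp [show a = 1 by simpa using h]
      | succ i ih =>
        intro a ha h
        have k : ∀ n ∈ N.comap π, ⁅n, a⁆ ∈ V := fun n hn => by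
          have u := Normal.conj_mem inferInstance a ha n
          refine ⟨mul_mem u (inv_mem ha), ?_⟩
          rw [commutatorElement_def, Commute.mul_pow (h2 _ u _ (inv_mem ha)), conj_pow, inv_pow,
            ih _ (pow_mem ha p) (by rw [← pow_mul, ← pow_succ', h]) n hn]
          group
        have : ⁅N.comap π, N.comap π⁆ ≤ centralizer {a} := commutator_le.2 fun n hn m hm => by
          have u := k _ (inv_mem hn)
          have v := k _ (inv_mem hm)
          have e1 := c1 _ (inv_mem hn) _ v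
          have e2 := c1 _ (inv_mem hm) _ u
          have e3 := h2 _ u.1 _ v.1
          rw [mem_centralizer_singleton_iff]
          have d : ∀ s t : E, ⁅t, a⁆ * s = s * ⁅t, a⁆ →
            s * t * a * (s * t)⁻¹ = ⁅t, a⁆ * ⁅s, a⁆ * a := fun s t h => by
            calc _ = s * ⁅t, a⁆ * (a * s⁻¹) := by simp only [commutatorElement_def]; group
              _ = _ := by rw [← h]; simp only [commutatorElement_def]; group
          have e4 := (d _ _ e1).trans (e3 ▸ (d _ _ e2).symm)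
          calc _ = n * m * (n⁻¹ * m⁻¹ * a * (n⁻¹ * m⁻¹)⁻¹) * (n⁻¹ * m⁻¹) := by
                simp only [commutatorElement_def]; group
            _ = _ := by rw [e4]; simp only [commutatorElement_def]; group
        intro n hn
        obtain ⟨d, hd, e⟩ := lc _ hn
        have e1 := mem_centralizer_singleton_iff.1 (this hd)
        have e2 := h2 (d⁻¹ * n) (by simp [e]) a ha
        calc n * a = d * ((d⁻¹ * n) * a) := by group
          _ = (d * a) * (d⁻¹ * n) := by rw [e2]; group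
          _ = _ := by rw [e1]; group
    obtain ⟨θ, hθ⟩ := Fit.cpow (π.ker.subgroupOf (N.comap π)) fun a ha =>
      mem_center_iff.2 fun n => Subtype.ext (c2 _ a ha (h3 a ha) n n.2)
    obtain ⟨d, hd, e⟩ := lc x hx
    rw [← map_subtype_commutator] at hd
    obtain ⟨d, hd, rfl⟩ := hd
    have : commutator (N.comap π) ≤ θ.ker := commutator_le.2 fun a _ b _ => by
      rw [MonoidHom.mem_ker, map_commutatorElement, commutatorElement_eq_one_iff_mul_comm]
      exact Subtype.ext (h2 _ (hθ a).2 _ (hθ b).2)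
    have h5 := h4 _ _ e (congrArg Subtype.val ((hθ d).1.symm.trans (this hd)))
    have h6 : (π.ker.subgroupOf (N.comap π)).index ∣ Nat.card G :=
      (relIndex_ker (K := N.comap π) π).dvd.trans (card_subgroup_dvd_card _)
    exact (Nat.le_of_dvd Nat.card_pos (h5.trans h6)).not_gt
      ((Nat.lt_pow_self hp.one_lt).trans_le (Nat.pow_le_pow_right hp.pos (Nat.le_succ _)))
  refine gls hF hS (sat hF hS ⟨G, _, π, sj, rfl, hG⟩ h1) V (fun a ha b hb => h2 a ha.1 b hb.1)
    (fun a ha => ha.2) (fun c => ?_) π sj fun e => ⟨fun h v hv => h2 e h v hv.1, hk e⟩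
  obtain ⟨e, rfl⟩ := sj x
  exact x1 (hk e fun v hv => by rw [mem_bot.1 (c.le hv), mul_one, one_mul])

theorem tr_pow [MulAction G Ω] {w : Wr (ZMod p) Ω G} (h : w.g = 1) : w ^ p = 1 :=
  Wr.ext (funext fun ω => by
    rw [pow_f _ _ (by simp [h]), nsmul_eq_mul, ZMod.natCast_self, zero_mul]; rfl)
    ((map_pow sg w _).trans (by simp [h]))

theorem tr_comm [MulAction G Ω] [AddCommGroup A] {a b : Wr A Ω G} (ha : a.g = 1) (hb : b.g = 1) :
    a * b = b * a := by ext <;> simp [ha, hb, add_comm]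

theorem comm_iff [MulAction G Ω] [AddCommGroup A] {a b : Wr A Ω G} (hb : b.g = 1) :
    a * b = b * a ↔ act a.g b.f = b.f := by
  simp [Wr.ext_iff, hb, add_comm]

theorem gd_sec (hF : IsForm F) (hS : IsSat F) [Fact p.Prime] {E P : Type} [Group E] [Group P]
    (hE : F E) (ι : E →* Wr (ZMod p) G G) (hι : Injective ι) (hb : ∀ f, ∃ e, ι e = ⟨f, 1⟩)
    (π : E →* P) (hπ : Surjective π) (hk : ∀ e, (ι e).g = 1 → π e = 1) : Gd F p P := by
  classical
  let V := (sg.comp ι).ker ⊓ centralizer (π.ker : Set E)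
  have mv : ∀ (f : G → ZMod p) (e : E), ι e = ⟨f, 1⟩ → (∀ z ∈ π.ker, act (ι z).g f = f) → e ∈ V :=
    fun f e h k => ⟨congrArg Wr.g h, fun z hz => hι (by
      rw [map_mul, map_mul, h]; exact (comm_iff rfl).2 (k z hz))⟩
  refine gls hF hS hE V (fun a ha b hb => hι (by simpa using tr_comm ha.1 hb.1))
    (fun a ha => hι (by simpa using tr_pow ha.1)) (fun c => ?_) π hπ
    fun e => ⟨fun h v hv => hv.2 e h, fun h => ?_⟩
  · obtain ⟨e, he⟩ := hb 1
    have := mem_bot.1 (c.le (mv 1 e he fun _ _ => rfl))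
    rw [this, map_one] at he
    exact zero_ne_one (congrFun (congrArg Wr.f he) 1)
  · let D := π.ker.map (sg.comp ι)
    obtain ⟨v, hv⟩ := hb fun x => if x ∈ D then 1 else 0
    have := congrArg ι (h v (mv _ v hv fun z hz => funext fun x =>
      if_congr (D.mul_mem_cancel_left (D.inv_mem ⟨z, hz, rfl⟩)) rfl rfl))
    rw [map_mul, map_mul, hv, comm_iff rfl] at this
    have h1 := congrFun this (ι e).g
    simp only [act_apply, smul_eq_mul, inv_mul_cancel, D.one_mem, if_true] at h1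
    obtain ⟨z, hz, h2⟩ : (ι e).g ∈ D := by
      by_contra n
      simp [n] at h1
    have := hk (z⁻¹ * e) (by simpa [inv_mul_eq_one] using h2)
    rwa [map_mul, map_inv, MonoidHom.mem_ker.1 hz, inv_one, one_mul] at this

theorem Gd.quot (hF : IsForm F) (hS : IsSat F) [Fact p.Prime] {P : Type} [Group P] (h : Gd F p G)
    (π : G →* P) (hπ : Surjective π) : Gd F p P :=
  gd_sec hF hS h (MonoidHom.id _) injective_id (fun _ => ⟨_, rfl⟩) (π.comp sg) (hπ.comp sg_surj)
    fun e he => (congrArg π he).trans (map_one π)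

theorem Gd.sub (hF : IsForm F) (hS : IsSat F) [Fact p.Prime] (Q : Subgroup G)
    (h : F (Q.comap (sg : Wr (ZMod p) G G →* G))) : Gd F p Q :=
  gd_sec hF hS h (Subgroup.subtype _) (subtype_injective _) (fun f => ⟨⟨⟨f, 1⟩, Q.one_mem⟩, rfl⟩)
    (sg.subgroupComap Q) (MonoidHom.subgroupComap_surjective_of_surjective _ _ sg_surj)
    fun _ he => Subtype.ext he

theorem tr_cent [Fact p.Prime] {g : G} (h : ∀ f : G → ZMod p, act g f = f) : g = 1 := by
  classical
  have := congrFun (h (Pi.single 1 1)) g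
  by_contra n
  simp [n] at this

theorem Gd.prod (hF : IsForm F) (hS : IsSat F) [Fact p.Prime] {P : Type} [Group P] (a : Gd F p G)
    (b : Gd F p P) : Gd F p (G × P) := by
  refine gls hF hS (prod_mem hF a b) ((sg : Wr (ZMod p) G G →* G).prodMap (sg : Wr (ZMod p) P P →* P)).ker
    (fun x hx y hy => Prod.ext (tr_comm (congrArg Prod.fst hx) (congrArg Prod.fst hy))
      (tr_comm (congrArg Prod.snd hx) (congrArg Prod.snd hy)))
    (fun x hx => Prod.ext (tr_pow (congrArg Prod.fst hx)) (tr_pow (congrArg Prod.snd hx)))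
    (fun c => ?_) (sg.prodMap sg) (sg_surj.prodMap sg_surj) fun e => ⟨fun hx y hy =>
      Prod.ext (tr_comm (congrArg Prod.fst hx) (congrArg Prod.fst hy))
        (tr_comm (congrArg Prod.snd hx) (congrArg Prod.snd hy)), fun h => Prod.ext
      (tr_cent (p := p) fun f => (comm_iff rfl).1 (congrArg Prod.fst (h (⟨f, 1⟩, 1) rfl)))
      (tr_cent (p := p) fun f => (comm_iff rfl).1 (congrArg Prod.snd (h (1, ⟨f, 1⟩) rfl)))⟩
  exact one_ne_zero (congrFun (congrArg (fun x => x.1.f) (mem_bot.1 (c.le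
    (show ((⟨1, 1⟩, 1) : Wr (ZMod p) G G × Wr (ZMod p) P P) ∈ _ from rfl)))) 1)

theorem Gd.pgroup (hF : IsForm F) (hS : IsSat F) [Fact p.Prime] (h : Gd F p G) {P : Type} [Group P]
    [Finite P] (hP : IsPGroup p P) : F P := by
  have h1 : Gd F p Unit := h.quot hF hS 1 fun _ => ⟨1, rfl⟩
  have c : Nat.card (Wr (ZMod p) Unit Unit) = p := (Nat.card_congr
    ⟨fun w => w.f (), fun a => ⟨fun _ => a, ()⟩, fun _ => rfl, fun _ => rfl⟩).trans (Nat.card_zmod p)
  induction hn : Nat.card P using Nat.strong_induction_on generalizing P with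
  | _ n ih =>
  rcases subsingleton_or_nontrivial P with _ | _
  · exact surj hF 1 (fun _ => ⟨1, Subsingleton.elim _ _⟩) h1
  have := hP.center_nontrivial
  obtain ⟨k, hk, e⟩ := (hP.to_subgroup (center P)).nontrivial_iff_card.1 inferInstance
  obtain ⟨z, hz⟩ := exists_prime_orderOf_dvd_card' p (e ▸ dvd_pow_self p hk.ne')
  have cz : Nat.card (zpowers z.1) = p := by rw [Nat.card_zpowers, orderOf_coe, hz]
  have l : zpowers z.1 ≤ center P := zpowers_le.2 z.2
  have : (zpowers z.1).Normal := ⟨fun n hn g => by rwa [mem_center_iff.1 (l hn) g, mul_inv_cancel_right]⟩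
  have hq := ih _ (by
    rw [← hn, card_eq_card_quotient_mul_card_subgroup (zpowers z.1), cz]
    exact (Nat.lt_mul_iff_one_lt_right Nat.card_pos).2 (Fact.out : p.Prime).one_lt)
    (hP.to_quotient (zpowers z.1)) rfl
  by_contra n
  obtain ⟨W, hW, w⟩ := by simpa only [not_forall, exists_prop] using mt (sat hF hS (Fq.mk _ hq)) n
  have t := hW.2 _ (right_lt_sup.2 w)
  have : W.Normal := normalizer_eq_top_iff.1 (top_le_iff.1 (t.ge.trans (sup_le
    (l.trans (center_le_normalizer _)) le_normalizer)))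
  refine n (hF.2.2.2 _ _ W ?_ hq (surj hF ((QuotientGroup.mk' W).comp (zpowers z.1).subtype) (fun y => ?_)
    (hF.2.1 _ _ ⟨mulEquivOfPrimeCardEq c cz⟩ h1)))
  · have : Fact (Nat.card (zpowers z.1)).Prime := cz.symm ▸ inferInstance
    rcases (W.subgroupOf (zpowers z.1)).eq_bot_or_eq_top_of_prime_card with h | h
    · exact disjoint_iff.1 (subgroupOf_eq_bot.1 h).symm
    · exact absurd (subgroupOf_eq_top.1 h) w
  · obtain ⟨y, rfl⟩ := QuotientGroup.mk_surjective y
    obtain ⟨a, ha, b, hb, rfl⟩ := mem_sup_of_normal_left.1 (t.ge (mem_top y))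
    exact ⟨⟨a, ha⟩, QuotientGroup.eq.2 (by simpa using hb)⟩

def MinN (N : Subgroup G) : Prop :=
  N.Normal ∧ N ≠ ⊥ ∧ ∀ K : Subgroup G, K.Normal → K ≤ N → K ≠ ⊥ → K = N

theorem exists_minN [Finite G] {M : Subgroup G} (hM : M.Normal) (h : M ≠ ⊥) : ∃ N ≤ M, MinN N := by
  obtain ⟨N, ⟨a, b, c⟩, d⟩ := (wellFounded_lt (α := Subgroup G)).has_min
    {N | N ≤ M ∧ N.Normal ∧ N ≠ ⊥} ⟨M, le_rfl, hM, h⟩
  exact ⟨N, a, b, c, fun K e f g => f.eq_or_lt.resolve_right (d K ⟨f.trans a, e, g⟩)⟩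

theorem MinN.cases {N : Subgroup G} (h : MinN N) : (∀ a ∈ N, ∀ b ∈ N, a * b = b * a) ∨ ⁅N, N⁆ = N := by
  have := h.1
  by_cases e : ⁅N, N⁆ = ⊥
  · exact Or.inl fun a ha b hb =>
      commutatorElement_eq_one_iff_mul_comm.1 (e.le (commutator_mem_commutator ha hb))
  · exact Or.inr (h.2.2 _ inferInstance (commutator_le_left N N) e)

theorem MinN.exp {N : Subgroup G} (h : MinN N) (hc : ∀ a ∈ N, ∀ b ∈ N, a * b = b * a) {x : G}
    (hx : x ∈ N) (x1 : x ≠ 1) {n : ℕ} (ox : x ^ n = 1) : ∀ a ∈ N, a ^ n = 1 := by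
  let V : Subgroup G :=
    { carrier := {a | a ∈ N ∧ a ^ n = 1}
      one_mem' := ⟨one_mem _, one_pow _⟩
      mul_mem' := fun {a b} ha hb => ⟨mul_mem ha.1 hb.1, by
        rw [Commute.mul_pow (hc a ha.1 b hb.1), ha.2, hb.2, mul_one]⟩
      inv_mem' := fun {a} ha => ⟨inv_mem ha.1, by rw [inv_pow, ha.2, inv_one]⟩ }
  exact fun a ha => ((h.2.2 V ⟨fun a ha g => ⟨h.1.conj_mem a ha.1 g, by
    rw [conj_pow, ha.2, mul_one, mul_inv_cancel]⟩⟩ (fun _ h => h.1)
    fun c => x1 (c.le ⟨hx, ox⟩)).ge ha).2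

theorem cauchy [Finite G] [Fact p.Prime] {N : Subgroup G} (hd : p ∣ Nat.card N) :
    ∃ x ∈ N, x ≠ 1 ∧ x ^ p = 1 := by
  obtain ⟨x, hx⟩ := exists_prime_orderOf_dvd_card' p hd
  refine ⟨x, x.2, fun e => (Fact.out : p.Prime).one_lt.ne ?_, ?_⟩
  · rw [← hx, ← orderOf_coe, e, orderOf_one]
  · rw [← hx, ← orderOf_coe, pow_orderOf_eq_one]

theorem cent_bot {N : Subgroup G} (h : MinN N) (hN : ⁅N, N⁆ = N)
    (hm : ∀ K : Subgroup G, K.Normal → K ≠ ⊥ → N ≤ K) : centralizer (N : Set G) = ⊥ := by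
  have := h.1
  by_contra c
  exact h.2.1 (hN.symm.trans (commutator_eq_bot_iff_le_centralizer.2 (hm _ inferInstance c)))

theorem stepA (hF : IsForm F) (hS : IsSat F) [Fact p.Prime] (hG : F G) {N : Subgroup G} [N.Normal]
    (h : MinN N) (hm : ∀ K : Subgroup G, K.Normal → K ≠ ⊥ → N ≤ K) (hd : p ∣ Nat.card N) :
    Gd F p (G ⧸ centralizer (N : Set G)) := by
  have := hF.1 _ hG
  obtain ⟨x, hx, x1, ox⟩ := cauchy hd
  rcases h.cases with hc | hN
  · exact gls hF hS hG N hc (h.exp hc hx x1 ox) h.2.1 _ (QuotientGroup.mk'_surjective _) fun e =>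
      (QuotientGroup.eq_one_iff e).trans ⟨fun h v hv => (h v hv).symm, fun h v hv => (h v hv).symm⟩
  · exact (frat hF hS hG N hN hm hx ox x1).quot hF hS _ (QuotientGroup.mk'_surjective _)

end Pool.Agent.H22.GLS
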