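import Mathlib

set_option autoImplicit false

namespace Pool.Agent.H22.GTEndo

open ProfiniteGrp ProfiniteGrp.ProfiniteCompletion CategoryTheory

abbrev F2 : GrpCat.{0} := GrpCat.of (FreeGroup (Fin 2))

theorem exists_lift (P : ProfiniteGrp.{0}) (a b : P) :
    ∃ φ : completion F2 →ₜ* P, φ (etaFn F2 (FreeGroup.of 0)) = a ∧
      φ (etaFn F2 (FreeGroup.of 1)) = b := by
  let θ : FreeGroup (Fin 2) →* P := FreeGroup.lift ![a, b]
  have h := lift_eta (G := F2) (P := P) (GrpCat.ofHom θ)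
  refine ⟨(lift (G := F2) (P := P) (GrpCat.ofHom θ)).hom, ?_, ?_⟩
  · have := ConcreteCategory.congr_hom h (FreeGroup.of 0)
    refine Eq.trans this ?_
    simp [θ]
  · have := ConcreteCategory.congr_hom h (FreeGroup.of 1)
    refine Eq.trans this ?_
    simp [θ]

def η : FreeGroup (Fin 2) →* completion F2 := (eta F2).hom

theorem η_eq (g : FreeGroup (Fin 2)) : η g = etaFn F2 g := rfl

theorem closed_sub (K : Subgroup (completion F2)) (hK : IsClosed (K : Set (completion F2)))
    (h0 : etaFn F2 (FreeGroup.of 0) ∈ K) (h1 : etaFn F2 (FreeGroup.of 1) ∈ K) (g) : g ∈ K := by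
  have hd := denseRange F2
  have : Set.range (etaFn F2) ⊆ K := by
    rintro _ ⟨w, rfl⟩
    have : (⊤ : Subgroup (FreeGroup (Fin 2))) ≤ K.comap η := by
      rw [← FreeGroup.closure_range_of, Subgroup.closure_le]
      rintro _ ⟨i, rfl⟩
      fin_cases i
      · exact h0
      · exact h1
    exact this (Subgroup.mem_top w)
  exact closure_minimal this hK (hd g)

theorem unique (P : ProfiniteGrp.{0}) (φ ψ : completion F2 →ₜ* P)
    (h0 : φ (etaFn F2 (FreeGroup.of 0)) = ψ (etaFn F2 (FreeGroup.of 0)))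
    (h1 : φ (etaFn F2 (FreeGroup.of 1)) = ψ (etaFn F2 (FreeGroup.of 1))) : φ = ψ := by
  ext g
  exact closed_sub (MonoidHom.eqLocus φ.toMonoidHom ψ.toMonoidHom)
    (isClosed_eq φ.continuous_toFun ψ.continuous_toFun) h0 h1 g

def S5 : Type := Equiv.Perm (Fin 5)
instance : Group S5 := inferInstanceAs (Group (Equiv.Perm (Fin 5)))
instance : Finite S5 := inferInstanceAs (Finite (Equiv.Perm (Fin 5)))
instance : TopologicalSpace S5 := ⊥
instance : DiscreteTopology S5 := ⟨rfl⟩
instance : IsTopologicalGroup S5 where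

def pa : Equiv.Perm (Fin 5) := Equiv.swap 1 2 * Equiv.swap 3 4
def pb : Equiv.Perm (Fin 5) := ⟨![2, 0, 3, 1, 4], ![1, 3, 0, 2, 4], by decide, by decide⟩

def stab : Subgroup S5 := MulAction.stabilizer (Equiv.Perm (Fin 5)) (0 : Fin 5)

theorem not_surj (φ : completion F2 →ₜ* completion F2) (x y : completion F2)
    (hx : x = etaFn F2 (FreeGroup.of 0)) (hy : y = etaFn F2 (FreeGroup.of 1))
    (h0 : φ x = x) (h1 : φ y = (x * y * x⁻¹ * y⁻¹)⁻¹ * y * (x * y * x⁻¹ * y⁻¹)) :
    ¬ Function.Surjective φ := by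
  intro hs
  obtain ⟨π, π0, π1⟩ := exists_lift (ProfiniteGrp.of S5) pa pb
  rw [← hx] at π0
  rw [← hy] at π1
  obtain ⟨g, hg⟩ := hs y
  have hc : IsClosed ((stab.comap (π.comp φ).toMonoidHom : Subgroup _) : Set (completion F2)) :=
    (isClosed_discrete (stab : Set S5)).preimage (π.comp φ).continuous_toFun
  have := closed_sub _ hc (by
    rw [← hx]
    change π (φ x) ∈ stab
    rw [h0, π0]
    change pa 0 = 0
    decide) (by
    rw [← hy]
    change π (φ y) ∈ stab
    rw [h1]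
    simp only [map_mul, map_inv, π0, π1]
    change ((pa * pb * pa⁻¹ * pb⁻¹)⁻¹ * pb * (pa * pb * pa⁻¹ * pb⁻¹)) 0 = 0
    decide) g
  change π (φ g) ∈ stab at this
  rw [hg, π1] at this
  revert this
  change ¬ (pb 0 = 0)
  decide

end Pool.Agent.H22.GTEndo
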