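import Mathlib

set_option autoImplicit false

namespace H22.Gle

open Finset

def p : ℕ → ℕ
  | 0 => 1
  | n + 1 => 2 * (n + 1) ^ 2 * p n + 1

theorem p_pos (n : ℕ) : 0 < p n := by cases n <;> simp [p]

theorem p_mono : Monotone p := monotone_nat_of_le_succ (fun n => by
  have : 1 ≤ 2 * (n + 1) ^ 2 := by nlinarith [Nat.zero_le n]
  simp only [p]
  nlinarith [p_pos n])

noncomputable def a (n : ℕ) : ℝ := 1 / ((n : ℝ) + 1)

theorem a_pos (n : ℕ) : 0 < a n := by unfold a; positivity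

def G : ℕ → ℤ → ℤ
  | 0, x => x
  | n + 1, x => G n (Int.bmod x (p (n + 1)))

noncomputable def vl (k : ℕ →₀ ℤ) : ℤ := k.sum (fun i c => c * (p i : ℤ))
noncomputable def cost (k : ℕ →₀ ℤ) : ℝ := k.sum (fun i c => |(c : ℝ)| * a i)
def low (k : ℕ →₀ ℤ) (n : ℕ) : ℤ := ∑ j ∈ range (n + 1), k j * (p j : ℤ)

theorem cost_eq (k : ℕ →₀ ℤ) (s : Finset ℕ) (h : k.support ⊆ s) :
    cost k = ∑ j ∈ s, |(k j : ℝ)| * a j :=
  Finsupp.sum_of_support_subset _ h _ (by simp)

theorem cost_ge (k : ℕ →₀ ℤ) (s : Finset ℕ) : ∑ j ∈ s, |(k j : ℝ)| * a j ≤ cost k := by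
  rw [cost_eq k (k.support ∪ s) subset_union_left]
  exact sum_le_sum_of_subset_of_nonneg subset_union_right
    (fun j _ _ => mul_nonneg (abs_nonneg _) (a_pos j).le)

theorem cost_sub (k l : ℕ →₀ ℤ) : cost (k - l) ≤ cost k + cost l := by
  rw [cost_eq k (k.support ∪ l.support) subset_union_left,
    cost_eq l (k.support ∪ l.support) subset_union_right,
    cost_eq (k - l) (k.support ∪ l.support) Finsupp.support_sub, ← sum_add_distrib]
  apply sum_le_sum
  intro j _
  rw [← add_mul]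
  apply mul_le_mul_of_nonneg_right _ (a_pos j).le
  rw [Finsupp.sub_apply, Int.cast_sub]
  exact abs_sub _ _

theorem vl_sub (k l : ℕ →₀ ℤ) : vl (k - l) = vl k - vl l :=
  Finsupp.sum_sub_index (fun _ _ _ => sub_mul _ _ _)

theorem low_bd (k : ℕ →₀ ℤ) (n : ℕ) (h : cost k ≤ n + 1) : 2 * |low k n| < p (n + 1) := by
  have h1 : (|low k n| : ℝ) ≤ (n + 1) * ((n + 1) * p n) := by
    calc (|low k n| : ℝ) ≤ ∑ j ∈ range (n + 1), |(k j : ℝ) * p j| := by
          unfold low
          push_cast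
          exact abs_sum_le_sum_abs _ _
      _ ≤ ∑ j ∈ range (n + 1), |(k j : ℝ)| * a j * ((n + 1) * p n) := by
          apply sum_le_sum
          intro j hj
          have hj' : j ≤ n := Nat.lt_succ_iff.1 (mem_range.1 hj)
          rw [abs_mul, mul_assoc, Nat.abs_cast]
          apply mul_le_mul_of_nonneg_left _ (abs_nonneg _)
          have e1 : (p j : ℝ) ≤ p n := Nat.cast_le.2 (p_mono hj')
          have e2 : (j : ℝ) + 1 ≤ n + 1 := by exact_mod_cast Nat.succ_le_succ hj'
          unfold a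
          rw [one_div, inv_mul_eq_div, le_div_iff₀ (by positivity), mul_comm]
          gcongr
      _ ≤ _ := by
          rw [← sum_mul]
          exact mul_le_mul_of_nonneg_right ((cost_ge k _).trans h) (by positivity)
  have h2 : |low k n| ≤ (n + 1) * ((n + 1) * p n) := by exact_mod_cast h1
  simp only [p]
  push_cast
  nlinarith

theorem key (k : ℕ →₀ ℤ) (m : ℕ) (h : cost k ≤ m + 1) (n : ℕ) (hn : m ≤ n) :
    G n (low k n) = G m (low k m) := by
  induction n, hn using Nat.le_induction with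
  | base => rfl
  | succ n hn ih =>
    have h1 := low_bd k n (h.trans (by exact_mod_cast Nat.succ_le_succ hn))
    rw [G, low, sum_range_succ, Int.add_mul_bmod_self_right, ← low, Int.bmod_eq_of_le, ih]
    · have := neg_abs_le (low k n)
      omega
    · have := le_abs_self (low k n)
      omega

def X : Set ℤ := {x | ∃ n0, ∀ n, n0 ≤ n → G n x = 0}

theorem mem_X (k : ℕ →₀ ℤ) (m : ℕ) (h : cost k ≤ m + 1) : vl k ∈ X ↔ G m (low k m) = 0 := by
  obtain ⟨b, hb⟩ := k.support.bddAbove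
  have e : ∀ n, b ≤ n → m ≤ n → G n (vl k) = G m (low k m) := by
    intro n h1 h2
    rw [← key k m h n h2]
    congr 1
    exact Finsupp.sum_of_support_subset _
      (fun j hj => mem_range.2 (Nat.lt_succ_of_le ((hb hj).trans h1))) _ (by simp)
  constructor
  · rintro ⟨n0, h0⟩
    rw [← e (n0 + b + m) (by omega) (by omega)]
    exact h0 _ (by omega)
  · intro h0
    exact ⟨b + m, fun n hn => (e n (by omega) (by omega)).trans h0⟩

theorem vl_single (z : ℤ) : vl (Finsupp.single 0 z) = z := by simp [vl, p]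
theorem cost_single (z : ℤ) : cost (Finsupp.single 0 z) = |(z : ℝ)| := by simp [cost, a]

theorem zero_X : (0 : ℤ) ∈ X := by
  rw [← vl_single 0, mem_X _ 0 (by rw [cost_single]; simp)]
  simp [G, low]

theorem one_X : (1 : ℤ) ∉ X := by
  rw [← vl_single 1, mem_X _ 0 (by simp [cost_single])]
  simp [G, low, p]

theorem main (N : ℤ → ℝ) (hN : ∀ z, N z = sInf {r : ℝ | ∃ k : ℕ →₀ ℤ, vl k = z ∧ r = cost k})
    (x y : ℕ → ℤ) (hx : ∀ i, x i ∈ X) (hy : ∀ i, y i ∉ X)
    (s1 : Summable (fun i => N (x i - x (i + 1)))) (s2 : Summable (fun i => N (x i - y i))) :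
    False := by
  have rep : ∀ z c, N z < c → ∃ k, vl k = z ∧ cost k < c := by
    intro z c h
    rw [hN] at h
    obtain ⟨r, ⟨k, h1, rfl⟩, h2⟩ := exists_lt_of_csInf_lt
      (show {r : ℝ | ∃ k : ℕ →₀ ℤ, vl k = z ∧ r = cost k}.Nonempty from
        ⟨_, Finsupp.single 0 z, vl_single z, rfl⟩) h
    exact ⟨k, h1, h2⟩
  have nn : ∀ z, 0 ≤ N z := fun z => by
    rw [hN]
    apply Real.sInf_nonneg
    rintro r ⟨k, -, rfl⟩
    simpa using cost_ge k ∅
  have s3 : Summable (fun i => N (x i - x (i + 1)) + (1 / 2 : ℝ) ^ i) :=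
    s1.add summable_geometric_two
  have r1 : ∀ i, ∃ k, vl k = x i ∧
      cost k ≤ |(x 0 : ℝ)| + ∑ t ∈ range i, (N (x t - x (t + 1)) + (1 / 2 : ℝ) ^ t) := by
    intro i
    induction i with
    | zero => exact ⟨_, vl_single _, by simp [cost_single]⟩
    | succ i ih =>
      obtain ⟨k, h1, h2⟩ := ih
      obtain ⟨l, h3, h4⟩ := rep (x i - x (i + 1)) (N (x i - x (i + 1)) + (1 / 2 : ℝ) ^ i)
        (lt_add_of_pos_right _ (by positivity))
      refine ⟨k - l, by rw [vl_sub, h1, h3]; ring, ?_⟩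
      rw [sum_range_succ]
      linarith [cost_sub k l]
  obtain ⟨m, hm⟩ := exists_nat_ge
    (|(x 0 : ℝ)| + ∑' t, (N (x t - x (t + 1)) + (1 / 2 : ℝ) ^ t))
  obtain ⟨i, hi⟩ := (s2.tendsto_atTop_zero.eventually (gt_mem_nhds (a_pos m))).exists
  obtain ⟨k, h1, h2⟩ := r1 i
  obtain ⟨l, h3, h4⟩ := rep _ _ hi
  have h5 : cost k ≤ m := by
    have := s3.sum_le_tsum (range i) (fun t _ => add_nonneg (nn _) (by positivity))
    linarith
  have h6 : a m ≤ 1 := by
    unfold a
    rw [div_le_one (by positivity)]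
    linarith [Nat.cast_nonneg (α := ℝ) m]
  have h7 : ∀ j ∈ range (m + 1), l j = 0 := by
    intro j hj
    by_contra hne
    have e1 : (1 : ℝ) ≤ |(l j : ℝ)| := by exact_mod_cast Int.one_le_abs hne
    have e2 := cost_ge l {j}
    rw [sum_singleton] at e2
    have e3 : a m ≤ a j := by
      unfold a
      have : (j : ℝ) + 1 ≤ m + 1 := by exact_mod_cast mem_range.1 hj
      gcongr
    nlinarith [a_pos j]
  have h8 : low (k - l) m = low k m := by
    apply sum_congr rfl
    intro j hj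
    rw [Finsupp.sub_apply, h7 j hj, sub_zero]
  apply hy i
  have : y i = vl (k - l) := by rw [vl_sub, h1, h3]; ring
  rw [this, mem_X _ m (by linarith [cost_sub k l]), h8, ← mem_X k m (by linarith), h1]
  exact hx i

end H22.Gle
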