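import Mathlib

set_option autoImplicit false

namespace Pool.Agent.H22.GradedStd

open Finset

section Core

variable {B : Type} [Ring B] {I : Type} [Fintype I] {G : Type} [AddCommGroup G] [DecidableEq G]
variable (z : I → B) (d : I → G)

abbrev C (B G : Type) [Ring B] : Type := AddMonoidAlgebra B (Multiset G)

noncomputable def m (a : G) (i : I) : C B G := AddMonoidAlgebra.single {a + d i} (z i)

noncomputable def Z : ℕ → G → C B G
  | 0, _ => 1
  | k + 1, a => ∑ i, m z d a i * Z k (a + d i)

noncomputable def N (v : G) : ℕ → G → C B G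
  | 0, _ => 1
  | k + 1, a => ∑ i, m z d a i * (if a + d i = v then 0 else N v k (a + d i))

noncomputable def F (v : G) : ℕ → G → C B G
  | 0, _ => 0
  | k + 1, a => ∑ i, m z d a i *
      (if a + d i = v then (if k = 0 then 1 else 0) else F v k (a + d i))

theorem ZNF (v : G) : ∀ (k : ℕ) (a : G),
    Z z d k a = N z d v k a + ∑ jl ∈ antidiagonal k, F z d v jl.1 a * Z z d jl.2 v
  | 0, a => by simp [Z, N, F]
  | k + 1, a => by
    rw [Finset.Nat.antidiagonal_succ, sum_cons, sum_map]
    simp only [Function.Embedding.coe_prodMap, Function.Embedding.coeFn_mk, Prod.map_fst,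
      Prod.map_snd, Function.Embedding.refl_apply, Nat.succ_eq_add_one]
    rw [Z, N]
    simp only [F, zero_mul, zero_add, sum_mul]
    rw [sum_comm, ← sum_add_distrib]
    refine sum_congr rfl fun i _ => ?_
    simp only [mul_assoc]
    rw [← mul_sum, ← mul_add]
    congr 1
    by_cases h : a + d i = v
    · simp only [h, if_true, zero_add, ite_mul, one_mul, zero_mul]
      rw [sum_eq_single (0, k)]
      · simp
      · rintro ⟨j, l⟩ hb hne
        have : j ≠ 0 := by
          rintro rfl
          simp at hb
          exact hne (by rw [hb])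
        simp [this]
      · simp
    · simp only [h, if_false]
      exact ZNF v k _

/-- Support condition. -/
def Sup (P : Multiset G → Prop) (x : C B G) : Prop := ∀ c ∈ x.coeff.support, P c

theorem Sup.zero (P : Multiset G → Prop) : Sup P (0 : C B G) := by
  intro c hc; simp at hc

theorem Sup.add {P : Multiset G → Prop} {x y : C B G} (hx : Sup P x) (hy : Sup P y) :
    Sup P (x + y) := by
  intro c hc
  rw [AddMonoidAlgebra.coeff_add] at hc
  rcases mem_union.1 (Finsupp.support_add hc) with h | h
  · exact hx c h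
  · exact hy c h

theorem Sup.sum {P : Multiset G → Prop} {ι : Type} (s : Finset ι) (f : ι → C B G)
    (h : ∀ i ∈ s, Sup P (f i)) : Sup P (∑ i ∈ s, f i) :=
  Finset.sum_induction f (Sup P) (fun _ _ => Sup.add) (Sup.zero P) h

theorem Sup.mul {P Q R : Multiset G → Prop} {x y : C B G} (hx : Sup P x) (hy : Sup Q y)
    (h : ∀ a b, P a → Q b → R (a + b)) : Sup R (x * y) := by
  intro c hc
  have := AddMonoidAlgebra.support_coeff_mul_subset x y hc
  obtain ⟨a, ha, b, hb, rfl⟩ := Finset.mem_add.1 this
  exact h a b (hx a ha) (hy b hb)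

theorem Sup.single {P : Multiset G → Prop} (c : Multiset G) (b : B) (h : P c) :
    Sup P (AddMonoidAlgebra.single c b : C B G) := by
  intro c' hc
  rw [AddMonoidAlgebra.coeff_single] at hc
  have := Finsupp.support_single_subset hc
  rw [mem_singleton] at this
  rw [this]; exact h

theorem Sup.one {P : Multiset G → Prop} (h : P 0) : Sup P (1 : C B G) :=
  Sup.single 0 1 h

theorem sup_Z : ∀ (k : ℕ) (a : G), Sup (fun c => c.card = k) (Z z d k a)
  | 0, _ => Sup.one rfl
  | k + 1, a => Sup.sum _ _ fun i _ =>
      Sup.mul (P := fun c => c.card = 1) (Sup.single _ _ rfl) (sup_Z k _) (by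
        intro a b ha hb; simp only [Multiset.card_add]; omega)

theorem sup_N (v : G) : ∀ (k : ℕ) (a : G), Sup (fun c => c.count v ≤ 0) (N z d v k a)
  | 0, _ => Sup.one (by simp)
  | k + 1, a => Sup.sum _ _ fun i _ => by
      by_cases h : a + d i = v
      · rw [if_pos h, mul_zero]; exact Sup.zero _
      · rw [if_neg h]
        exact Sup.mul (P := fun c => c.count v ≤ 0) (Sup.single _ _ (by
          simp [Ne.symm h])) (sup_N v k _) (by
          intro a b ha hb; simp only [Multiset.count_add]; omega)

theorem sup_F (v : G) : ∀ (k : ℕ) (a : G), Sup (fun c => c.count v ≤ 1) (F z d v k a)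
  | 0, _ => Sup.zero _
  | k + 1, a => Sup.sum _ _ fun i _ => by
      by_cases h : a + d i = v
      · rw [if_pos h]
        by_cases hk : k = 0
        · rw [if_pos hk, mul_one]
          exact Sup.single _ _ (by simp [h])
        · rw [if_neg hk, mul_zero]; exact Sup.zero _
      · rw [if_neg h]
        exact Sup.mul (P := fun c => c.count v ≤ 0) (Sup.single _ _ (by
          simp [Ne.symm h])) (sup_F v k _) (by
          intro a b ha hb; simp only [Multiset.count_add]; omega)

/-- Monomials attached to words from `a` to `v` of length `k`. -/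
def Wd (a v : G) (k : ℕ) : Set (C B G) :=
  {x | ∃ (c : Multiset G) (w : List I), w.length = k ∧ a + (w.map d).sum = v ∧
    x = AddMonoidAlgebra.single c (w.map z).prod}

theorem F_mem (v : G) : ∀ (k : ℕ) (a : G), F z d v k a ∈ AddSubmonoid.closure (Wd z d a v k)
  | 0, _ => zero_mem _
  | k + 1, a => by
    refine sum_mem fun i _ => ?_
    by_cases h : a + d i = v
    · rw [if_pos h]
      by_cases hk : k = 0
      · rw [if_pos hk, mul_one]
        exact AddSubmonoid.subset_closure ⟨{a + d i}, [i], by simp [hk], by simpa using h,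
          by simp [m]⟩
      · rw [if_neg hk, mul_zero]; exact zero_mem _
    · rw [if_neg h]
      refine AddSubmonoid.closure_induction
        (motive := fun x _ => m z d a i * x ∈ AddSubmonoid.closure (Wd z d a v (k + 1)))
        ?_ ?_ ?_ (F_mem v k (a + d i))
      · rintro x ⟨c, w, hw, hs, rfl⟩
        refine AddSubmonoid.subset_closure ⟨{a + d i} + c, i :: w, by simp [hw], ?_, ?_⟩
        · rw [← hs]; simp [add_assoc]
        · simp [m, AddMonoidAlgebra.single_mul_single]
      · rw [mul_zero]; exact zero_mem _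
      · intro x y _ _ hx hy
        rw [mul_add]; exact add_mem hx hy

/-- A sum of pairwise supercommuting square-zero elements has vanishing `p`-th power. -/
theorem pow_closure_comm {R : Type} [Ring R] {p : ℕ} (hp : p.Prime) (h0 : (p : R) = 0)
    (S : Set R) (hc : ∀ x ∈ S, ∀ y ∈ S, Commute x y) (hs : ∀ x ∈ S, x * x = 0)
    (x : R) (hx : x ∈ AddSubmonoid.closure S) : x ^ p = 0 := by
  have hc1 : ∀ x ∈ AddSubmonoid.closure S, ∀ y ∈ AddSubmonoid.closure S, Commute x y := by
    intro x hx y hy
    refine AddSubmonoid.closure_induction₂ (motive := fun x y _ _ => Commute x y)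
      (fun x y hx hy => hc x hx y hy) (fun _ _ => Commute.zero_left _)
      (fun _ _ => Commute.zero_right _) (fun _ _ _ _ _ _ h1 h2 => h1.add_left h2)
      (fun _ _ _ _ _ _ h1 h2 => h1.add_right h2) hx hy
  refine AddSubmonoid.closure_induction (motive := fun x _ => x ^ p = 0) ?_ ?_ ?_ hx
  · intro x hx
    obtain ⟨q, rfl⟩ : ∃ q, p = q + 2 := ⟨p - 2, by have := hp.two_le; omega⟩
    rw [pow_add, pow_two, hs x hx, mul_zero]
  · exact zero_pow hp.ne_zero
  · intro x y hx hy h1 h2
    obtain ⟨r, hr⟩ := (hc1 x hx y hy).exists_add_pow_prime_eq hp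
    rw [hr, h1, h2, h0]; simp

theorem sq_closure_anti {R : Type} [Ring R]
    (S : Set R) (hc : ∀ x ∈ S, ∀ y ∈ S, x * y + y * x = 0) (hs : ∀ x ∈ S, x * x = 0)
    (x : R) (hx : x ∈ AddSubmonoid.closure S) : x * x = 0 := by
  have hc1 : ∀ x ∈ AddSubmonoid.closure S, ∀ y ∈ AddSubmonoid.closure S, x * y + y * x = 0 := by
    intro x hx y hy
    refine AddSubmonoid.closure_induction₂ (motive := fun x y _ _ => x * y + y * x = 0)
      (fun x y hx hy => hc x hx y hy) (fun _ _ => by simp)
      (fun _ _ => by simp) (fun a b c _ _ _ h1 h2 => ?_)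
      (fun a b c _ _ _ h1 h2 => ?_) hx hy
    · calc (a + b) * c + c * (a + b) = (a * c + c * a) + (b * c + c * b) := by noncomm_ring
        _ = 0 := by rw [h1, h2, add_zero]
    · calc c * (a + b) + (a + b) * c = (c * a + a * c) + (c * b + b * c) := by noncomm_ring
        _ = 0 := by rw [h1, h2, add_zero]
  refine AddSubmonoid.closure_induction (motive := fun x _ => x * x = 0) hs (by simp) ?_ hx
  intro x y hx hy h1 h2
  calc (x + y) * (x + y) = x * x + y * y + (x * y + y * x) := by noncomm_ring
    _ = 0 := by rw [h1, h2, hc1 x hx y hy]; simp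

/-- Loop monomials in the power series ring, of a given parity. -/
def Lp (e : ℕ) : Set (PowerSeries (C B G)) :=
  {x | ∃ (c : Multiset G) (w : List I), w ≠ [] ∧ w.length % 2 = e ∧ (w.map d).sum = 0 ∧
    x = PowerSeries.monomial w.length (AddMonoidAlgebra.single c (w.map z).prod)}

theorem Y_pow {p : ℕ} (hp : p.Prime) (h0 : (p : B) = 0)
    (H1 : ∀ w : List I, ¬ w.Nodup → (w.map z).prod = 0)
    (H2 : ∀ u w : List I, (u.map d).sum = 0 → (w.map d).sum = 0 →
      (u.map z).prod * (w.map z).prod =
        (-1) ^ (u.length * w.length) * ((w.map z).prod * (u.map z).prod))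
    (v : G) : (PowerSeries.mk fun k => F z d v k v) ^ p = 0 := by
  classical
  have hFz : ∀ k, Fintype.card I < k → F z d v k v = 0 := by
    intro k hk
    refine AddSubmonoid.closure_induction (motive := fun x _ => x = 0) ?_ rfl ?_ (F_mem z d v k v)
    · rintro x ⟨c, w, hw, _, rfl⟩
      rw [H1 w (fun hn => by have := hn.length_le_card; omega)]
      simp
    · intro x y _ _ hx hy; rw [hx, hy, add_zero]
  have hmono : ∀ k, PowerSeries.monomial k (F z d v k v) ∈
      AddSubmonoid.closure (Lp z d (k % 2)) := by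
    intro k
    rcases k with _ | k
    · simp [F]
    refine AddSubmonoid.closure_induction (motive := fun x _ => PowerSeries.monomial (k + 1) x ∈
      AddSubmonoid.closure (Lp z d ((k + 1) % 2))) ?_ ?_ ?_ (F_mem z d v (k + 1) v)
    · rintro x ⟨c, w, hw, hs, rfl⟩
      refine AddSubmonoid.subset_closure ⟨c, w, ?_, by rw [hw], by simpa using hs, by rw [hw]⟩
      rintro rfl; simp at hw
    · simp
    · intro x y _ _ hx hy; rw [map_add]; exact add_mem hx hy
  set n := Fintype.card I with hn
  have hY : (PowerSeries.mk fun k => F z d v k v) =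
      ∑ k ∈ (range (n + 1)).filter (fun k => k % 2 = 0), PowerSeries.monomial k (F z d v k v) +
      ∑ k ∈ (range (n + 1)).filter (fun k => ¬ k % 2 = 0), PowerSeries.monomial k (F z d v k v) := by
    rw [sum_filter_add_sum_filter_not]
    ext1 k
    rw [PowerSeries.coeff_mk, map_sum]
    simp only [PowerSeries.coeff_monomial]
    rw [sum_ite_eq]
    split_ifs with h
    · rfl
    · exact hFz k (by simpa using h)
  have prodL : ∀ (c c' : Multiset G) (u w : List I),
      (PowerSeries.monomial u.length (AddMonoidAlgebra.single c (u.map z).prod) *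
        PowerSeries.monomial w.length (AddMonoidAlgebra.single c' (w.map z).prod) :
          PowerSeries (C B G)) =
      PowerSeries.monomial (u.length + w.length)
        (AddMonoidAlgebra.single (c + c') ((u.map z).prod * (w.map z).prod)) := by
    intro c c' u w
    rw [PowerSeries.monomial_mul_monomial, AddMonoidAlgebra.single_mul_single]
  have sqL : ∀ e, ∀ x ∈ Lp z d e, x * x = 0 := by
    rintro e x ⟨c, w, hne, _, _, rfl⟩
    rw [prodL, ← List.prod_append, ← List.map_append, H1]
    · simp
    · intro hnd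
      obtain ⟨a, ha⟩ := List.exists_mem_of_ne_nil w hne
      exact (List.nodup_append.1 hnd).2.2 a ha a ha rfl
  have commL : ∀ e, ∀ x ∈ Lp z d 0, ∀ y ∈ Lp z d e, Commute x y := by
    rintro e x ⟨c, u, _, hu, su, rfl⟩ y ⟨c', w, _, _, sw, rfl⟩
    show _ * _ = _ * _
    rw [prodL, prodL, H2 u w su sw, add_comm c, add_comm u.length]
    have : Even (u.length * w.length) := (Nat.even_iff.2 hu).mul_right _
    rw [this.neg_one_pow, one_mul]
  have antiL : ∀ x ∈ Lp z d 1, ∀ y ∈ Lp z d 1, x * y + y * x = 0 := by
    rintro x ⟨c, u, _, hu, su, rfl⟩ y ⟨c', w, _, hw, sw, rfl⟩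
    rw [prodL, prodL, H2 u w su sw, add_comm c, add_comm u.length]
    have : Odd (u.length * w.length) := (Nat.odd_iff.2 hu).mul (Nat.odd_iff.2 hw)
    rw [this.neg_one_pow, ← map_add, ← AddMonoidAlgebra.single_add]
    simp
  have he : ∑ k ∈ (range (n + 1)).filter (fun k => k % 2 = 0),
      PowerSeries.monomial k (F z d v k v) ∈ AddSubmonoid.closure (Lp z d 0) :=
    sum_mem fun k hk => by
      have := hmono k
      rwa [(mem_filter.1 hk).2] at this
  have ho : ∑ k ∈ (range (n + 1)).filter (fun k => ¬ k % 2 = 0),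
      PowerSeries.monomial k (F z d v k v) ∈ AddSubmonoid.closure (Lp z d 1) :=
    sum_mem fun k hk => by
      have := hmono k
      have h2 : k % 2 = 1 := by have := (mem_filter.1 hk).2; omega
      rwa [h2] at this
  have hp0 : (p : PowerSeries (C B G)) = 0 := by
    have h1 : (p : C B G) = 0 := by
      rw [← map_natCast (AddMonoidAlgebra.singleZeroRingHom : B →+* C B G), h0, map_zero]
    rw [← map_natCast (PowerSeries.C : C B G →+* PowerSeries (C B G)), h1, map_zero]
  rw [hY]
  generalize (∑ k ∈ (range (n + 1)).filter (fun k => k % 2 = 0),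
      PowerSeries.monomial k (F z d v k v)) = Ye at he ⊢
  generalize (∑ k ∈ (range (n + 1)).filter (fun k => ¬ k % 2 = 0),
      PowerSeries.monomial k (F z d v k v)) = Yo at ho ⊢
  have hc : Commute Ye Yo := by
    refine AddSubmonoid.closure_induction (motive := fun x _ => Commute x Yo) ?_
      (Commute.zero_left _) (fun _ _ _ _ h1 h2 => h1.add_left h2) he
    intro x hx
    exact AddSubmonoid.closure_induction (motive := fun y _ => Commute x y)
      (fun y hy => commL 1 x hx y hy) (Commute.zero_right _)
      (fun _ _ _ _ h1 h2 => h1.add_right h2) ho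
  obtain ⟨r, hr⟩ := hc.exists_add_pow_prime_eq hp
  rw [hr, hp0, pow_closure_comm hp hp0 _ (commL 0) (sqL 0) Ye he]
  obtain ⟨q, rfl⟩ : ∃ q, p = q + 2 := ⟨p - 2, by have := hp.two_le; omega⟩
  rw [pow_add, pow_two, sq_closure_anti _ antiL (sqL 1) Yo ho]
  simp

/-- Coefficientwise bound on the number of visits to `v`. -/
def Bd (v : G) (r : ℕ) (f : PowerSeries (C B G)) : Prop :=
  ∀ k, Sup (fun c => c.count v ≤ r) (PowerSeries.coeff k f)

theorem Bd.add {v : G} {r : ℕ} {f g : PowerSeries (C B G)} (hf : Bd v r f) (hg : Bd v r g) :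
    Bd v r (f + g) := fun k => by rw [map_add]; exact (hf k).add (hg k)

theorem Bd.mono {v : G} {r s : ℕ} {f : PowerSeries (C B G)} (hf : Bd v r f) (h : r ≤ s) :
    Bd v s f := fun k c hc => (hf k c hc).trans h

theorem Bd.mul {v : G} {r s : ℕ} {f g : PowerSeries (C B G)} (hf : Bd v r f) (hg : Bd v s g) :
    Bd v (r + s) (f * g) := fun k => by
  rw [PowerSeries.coeff_mul]
  exact Sup.sum _ _ fun jl _ => Sup.mul (hf _) (hg _) (by
    intro a b ha hb; simp only [Multiset.count_add]; omega)

theorem core [Fintype G] {p : ℕ} (hp : p.Prime) (h0 : (p : B) = 0)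
    (H1 : ∀ w : List I, ¬ w.Nodup → (w.map z).prod = 0)
    (H2 : ∀ u w : List I, (u.map d).sum = 0 → (w.map d).sum = 0 →
      (u.map z).prod * (w.map z).prod =
        (-1) ^ (u.length * w.length) * ((w.map z).prod * (u.map z).prod)) :
    (∑ i, z i) ^ (Fintype.card G * p) = 0 := by
  let Zs : G → PowerSeries (C B G) := fun a => PowerSeries.mk fun k => Z z d k a
  let Ns : G → G → PowerSeries (C B G) := fun v a => PowerSeries.mk fun k => N z d v k a
  let Fs : G → G → PowerSeries (C B G) := fun v a => PowerSeries.mk fun k => F z d v k a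
  have hZ : ∀ v a, Zs a = Ns v a + Fs v a * Zs v := by
    intro v a
    ext1 k
    simp only [Zs, Ns, Fs, map_add, PowerSeries.coeff_mul, PowerSeries.coeff_mk]
    exact ZNF z d v k a
  have bN : ∀ v a, Bd v 0 (Ns v a) := fun v a k => by
    simp only [Ns, PowerSeries.coeff_mk]; exact sup_N z d v k a
  have bF : ∀ v a, Bd v 1 (Fs v a) := fun v a k => by
    simp only [Fs, PowerSeries.coeff_mk]; exact sup_F z d v k a
  have iter : ∀ v j, ∃ g, Bd v j g ∧ Zs v = g + Fs v v ^ (j + 1) * Zs v := by
    intro v j
    induction j with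
    | zero => exact ⟨Ns v v, bN v v, by rw [zero_add, pow_one]; exact hZ v v⟩
    | succ j ih =>
      obtain ⟨g, hg, h⟩ := ih
      refine ⟨Ns v v + Fs v v * g, ((bN v v).mono (Nat.zero_le _)).add
        (((bF v v).mul hg).mono (by omega)), ?_⟩
      conv_lhs => rw [hZ v v, h]
      rw [pow_succ' _ (j + 1)]
      noncomm_ring
  have bZv : ∀ v, Bd v (p - 1) (Zs v) := by
    intro v
    obtain ⟨g, hg, h⟩ := iter v (p - 1)
    have e : p - 1 + 1 = p := by have := hp.two_le; omega
    rw [e, Y_pow z d hp h0 H1 H2 v, zero_mul, add_zero] at h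
    rw [h]; exact hg
  have bZ : ∀ v a, Bd v p (Zs a) := by
    intro v a
    rw [hZ v a]
    exact ((bN v a).mono (Nat.zero_le _)).add
      (((bF v a).mul (bZv v)).mono (by have := hp.two_le; omega))
  have hzero : Z z d (Fintype.card G * p) 0 = 0 := by
    rw [← AddMonoidAlgebra.coeff_eq_zero, ← Finsupp.support_eq_empty, eq_empty_iff_forall_notMem]
    intro c hc
    have h1 : c.card = Fintype.card G * p := sup_Z z d _ 0 c hc
    have h2 : ∀ v, c.count v ≤ p := fun v => by
      have := bZ v 0 (Fintype.card G * p)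
      simp only [Zs, PowerSeries.coeff_mk] at this
      exact this c hc
    have h3 : c.count 0 ≤ p - 1 := by
      have := bZv 0 (Fintype.card G * p)
      simp only [Zs, PowerSeries.coeff_mk] at this
      exact this c hc
    have h4 : ∑ v, c.count v = c.card := Multiset.sum_count_eq_card (fun a _ => mem_univ a)
    have h5 : ∑ v, c.count v < ∑ _v : G, p :=
      sum_lt_sum (fun v _ => h2 v) ⟨0, mem_univ _, by have := hp.two_le; omega⟩
    rw [sum_const, card_univ, smul_eq_mul] at h5
    omega
  let ε : C B G →+* B := AddMonoidAlgebra.liftNCRingHom (RingHom.id B) 1 (fun _ _ => by simp)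
  have hε : ∀ k a, ε (Z z d k a) = (∑ i, z i) ^ k := by
    intro k
    induction k with
    | zero => intro a; simp [Z]
    | succ k ih =>
      intro a
      rw [Z, map_sum, pow_succ', sum_mul]
      refine sum_congr rfl fun i _ => ?_
      rw [map_mul, ih]
      simp [ε, m]
  rw [← hε _ 0, hzero, map_zero]

end Core

section Ext

open ExteriorAlgebra

variable {F : Type} [Field F] {V : Type} [AddCommGroup V] [Module F V] {I : Type} (e : I → V)

theorem ι_mul_list (a : V) : ∀ w : List I,
    ι F a * (w.map fun i => ι F (e i)).prod =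
      (-1) ^ w.length * ((w.map fun i => ι F (e i)).prod * ι F a)
  | [] => by simp
  | i :: w => by
    have h : ι F a * ι F (e i) = - (ι F (e i) * ι F a) :=
      eq_neg_of_add_eq_zero_left (ι_add_mul_swap _ _)
    have hc : Commute (ι F (e i)) ((-1) ^ w.length) := (Commute.neg_one_right _).pow_right _
    rw [List.map_cons, List.prod_cons, ← mul_assoc, h, neg_mul, mul_assoc, ι_mul_list a w,
      List.length_cons, pow_succ, ← mul_assoc, hc.eq]
    simp only [mul_assoc, mul_neg, neg_mul, one_mul]

theorem list_mul_list : ∀ u w : List I,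
    (u.map fun i => ι F (e i)).prod * (w.map fun i => ι F (e i)).prod =
      (-1) ^ (u.length * w.length) *
        ((w.map fun i => ι F (e i)).prod * (u.map fun i => ι F (e i)).prod)
  | [], w => by simp
  | i :: u, w => by
    have hc : Commute (ι F (e i)) ((-1) ^ (u.length * w.length)) :=
      (Commute.neg_one_right _).pow_right _
    rw [List.map_cons, List.prod_cons, mul_assoc, list_mul_list u w, ← mul_assoc, hc.eq,
      mul_assoc, ← mul_assoc (ι F (e i)), ι_mul_list, List.length_cons, Nat.succ_mul, pow_add]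
    simp only [mul_assoc]

theorem list_not_nodup : ∀ w : List I, ¬ w.Nodup → (w.map fun i => ι F (e i)).prod = 0
  | [], h => absurd List.nodup_nil h
  | i :: w, h => by
    rw [List.map_cons, List.prod_cons]
    by_cases hw : w.Nodup
    · have hi : i ∈ w := by
        by_contra hi
        exact h (List.nodup_cons.2 ⟨hi, hw⟩)
      obtain ⟨s, t, rfl⟩ := List.append_of_mem hi
      rw [List.map_append, List.prod_append, ← mul_assoc, ι_mul_list, List.map_cons,
        List.prod_cons]
      simp only [mul_assoc]
      rw [← mul_assoc (ι F (e i)), ι_sq_zero]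
      simp
    · rw [list_not_nodup w hw, mul_zero]

end Ext

open scoped TensorProduct

theorem homog (F : Type) [Field F] (p : ℕ) (hp : p.Prime) [CharP F p]
    (G : Type) [AddCommGroup G] [Fintype G] [DecidableEq G]
    (A : Type) [Ring A] [Algebra F A] (𝒜 : G → Submodule F A) [GradedAlgebra 𝒜]
    (hc : ∀ a ∈ 𝒜 0, ∀ b ∈ 𝒜 0, a * b = b * a) (n : ℕ) (hn : n = Fintype.card G * p)
    (x : Fin n → A) (d : Fin n → G) (hx : ∀ i, x i ∈ 𝒜 (d i)) :
    ∑ σ : Equiv.Perm (Fin n),
      ((Equiv.Perm.sign σ : ℤˣ) : ℤ) • (List.ofFn (fun i => x (σ i))).prod = 0 := by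
  classical
  let e := Pi.basisFun F (Fin n)
  let E := ExteriorAlgebra F (Fin n → F)
  let z : Fin n → E ⊗[F] A := fun i => ExteriorAlgebra.ι F (e i) ⊗ₜ x i
  have hz : ∀ w : List (Fin n), (w.map z).prod =
      (w.map fun i => ExteriorAlgebra.ι F (e i)).prod ⊗ₜ (w.map x).prod := by
    intro w
    induction w with
    | nil => simp [Algebra.TensorProduct.one_def]
    | cons i w ih => simp only [List.map_cons, List.prod_cons, ih, z,
        Algebra.TensorProduct.tmul_mul_tmul]
  have h0 : (p : E ⊗[F] A) = 0 := by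
    rw [← map_natCast (algebraMap F (E ⊗[F] A)), CharP.cast_eq_zero, map_zero]
  have key := core z d hp h0 (fun w hw => by rw [hz, list_not_nodup _ w hw, TensorProduct.zero_tmul])
    (fun u w hu hw => by
      have h1 := SetLike.list_prod_map_mem_graded (A := 𝒜) u d x (fun j _ => hx j)
      have h2 := SetLike.list_prod_map_mem_graded (A := 𝒜) w d x (fun j _ => hx j)
      rw [hu] at h1
      rw [hw] at h2
      rw [hz, hz, Algebra.TensorProduct.tmul_mul_tmul, Algebra.TensorProduct.tmul_mul_tmul,
        list_mul_list, hc _ h1 _ h2]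
      rcases neg_one_pow_eq_or E (u.length * w.length) with h | h
      all_goals
        rcases Nat.even_or_odd (u.length * w.length) with h' | h'
        · simp [h'.neg_one_pow]
        · simp [h'.neg_one_pow, TensorProduct.neg_tmul])
  rw [← hn, ← MultilinearMap.mkPiAlgebraFin_apply_const (R := F), MultilinearMap.map_sum] at key
  let φ : E →ₗ[F] F := ExteriorAlgebra.liftAlternating (Function.update 0 n e.det)
  let ψ : E ⊗[F] A →ₗ[F] A := TensorProduct.lift ((LinearMap.lsmul F A).comp φ)
  have h2 := congrArg ψ key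
  rw [map_zero, map_sum] at h2
  have h3 : ∀ f : Fin n → Fin n, ψ (MultilinearMap.mkPiAlgebraFin F n (E ⊗[F] A) fun i => z (f i)) =
      e.det (fun i => e (f i)) • (List.ofFn (fun i => x (f i))).prod := by
    intro f
    have h4 := hz (List.ofFn f)
    rw [List.map_ofFn, List.map_ofFn, List.map_ofFn] at h4
    rw [MultilinearMap.mkPiAlgebraFin_apply]
    have h5 : (List.ofFn fun i => z (f i)) = List.ofFn (z ∘ f) := rfl
    rw [h5, h4]
    have h6 : (List.ofFn ((fun i => ExteriorAlgebra.ι F (e i)) ∘ f)).prod =
        ExteriorAlgebra.ιMulti F n (fun i => e (f i)) := rfl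
    rw [h6]
    have h9 : φ (ExteriorAlgebra.ιMulti F n (fun i => e (f i))) = e.det (fun i => e (f i)) := by
      have := ExteriorAlgebra.liftAlternating_apply_ιMulti (R := F) (N := F)
        (Function.update 0 n e.det) (fun i => e (f i))
      rw [Function.update_self] at this
      exact this
    simp only [ψ, TensorProduct.lift.tmul, LinearMap.comp_apply, LinearMap.lsmul_apply, h9]
    rfl
  simp only [h3] at h2
  rw [← h2, ← sum_subset (filter_subset (fun f : Fin n → Fin n => Function.Bijective f) univ)]
  · symm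
    refine sum_bij (fun f h => Equiv.ofBijective f (mem_filter.1 h).2) (fun _ _ => mem_univ _)
      (fun _ _ _ _ h => by injection h)
      (fun b _ => ⟨b, mem_filter.2 ⟨mem_univ _, b.bijective⟩, Equiv.coe_fn_injective rfl⟩) ?_
    intro f hf
    have h7 := e.det.map_perm e (Equiv.ofBijective f (mem_filter.1 hf).2)
    have h8 : (fun i => e (f i)) = e ∘ (Equiv.ofBijective f (mem_filter.1 hf).2) := rfl
    rw [h8, h7, Module.Basis.det_self, Units.smul_def, smul_assoc, one_smul]
    rfl
  · intro f _ hf
    have hinj : ¬ Function.Injective f := fun h =>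
      hf (mem_filter.2 ⟨mem_univ _, Finite.injective_iff_bijective.1 h⟩)
    rw [e.det.map_eq_zero_of_not_injective (fun i => e (f i))
      (fun h => hinj (Function.Injective.of_comp (f := e) h)), zero_smul]

theorem main (F : Type) [Field F] (p : ℕ) (hp0 : 0 < p) [CharP F p]
    (G : Type) [AddCommGroup G] [Fintype G] [DecidableEq G]
    (A : Type) [Ring A] [Algebra F A] (𝒜 : G → Submodule F A) [GradedAlgebra 𝒜]
    (hc : ∀ a ∈ 𝒜 0, ∀ b ∈ 𝒜 0, a * b = b * a) (x : Fin (Fintype.card G * p) → A) :
    ∑ σ : Equiv.Perm (Fin (Fintype.card G * p)),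
      ((Equiv.Perm.sign σ : ℤˣ) : ℤ) • (List.ofFn (fun i => x (σ i))).prod = 0 := by
  classical
  have hp : p.Prime := (CharP.char_is_prime_or_zero F p).resolve_right hp0.ne'
  let S : MultilinearMap F (fun _ : Fin (Fintype.card G * p) => A) A :=
    ∑ σ : Equiv.Perm (Fin (Fintype.card G * p)), ((Equiv.Perm.sign σ : ℤˣ) : ℤ) •
      (MultilinearMap.mkPiAlgebraFin F _ A).domDomCongr σ
  have hS : ∀ y, S y = ∑ σ : Equiv.Perm (Fin (Fintype.card G * p)),
      ((Equiv.Perm.sign σ : ℤˣ) : ℤ) • (List.ofFn (fun i => y (σ i))).prod := by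
    intro y
    simp only [S, MultilinearMap.sum_apply, MultilinearMap.smul_apply,
      MultilinearMap.domDomCongr_apply, MultilinearMap.mkPiAlgebraFin_apply]
  rw [← hS]
  have hx : x = fun i => ∑ g : G, (DirectSum.decompose 𝒜 (x i) g : A) := by
    funext i
    conv_lhs => rw [← DirectSum.sum_support_decompose 𝒜 (x i)]
    refine sum_subset (subset_univ _) fun g _ hg => ?_
    rw [DFinsupp.notMem_support_iff] at hg
    rw [hg]; rfl
  rw [hx, MultilinearMap.map_sum]
  refine sum_eq_zero fun r _ => ?_
  rw [hS]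
  exact homog F p hp G A 𝒜 hc _ rfl (fun i => (DirectSum.decompose 𝒜 (x i) (r i) : A)) r
    (fun i => (DirectSum.decompose 𝒜 (x i) (r i)).2)

end Pool.Agent.H22.GradedStd
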