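import Mathlib

namespace H22Half

/-- An inverse-property presentation of a Moufang loop, used only inside the proof. -/
structure IP (Q : Type*) [Mul Q] [One Q] (i : Q → Q) : Prop where
  om : ∀ x : Q, 1 * x = x
  mo : ∀ x : Q, x * 1 = x
  li : ∀ x y : Q, i x * (x * y) = y
  ri : ∀ x y : Q, (y * x) * i x = y
  mou : ∀ x y z : Q, x * (y * (x * z)) = ((x * y) * x) * z

variable {Q : Type*} [Mul Q] [One Q] {i : Q → Q}

namespace IP
variable (h : IP Q i)
include h

theorem il (x : Q) : i x * x = 1 := by have := h.li x 1; rwa [h.mo] at this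
theorem ir (x : Q) : x * i x = 1 := by have := h.ri x 1; rwa [h.om] at this
theorem ii (x : Q) : i (i x) = x := by
  have := h.li (i x) x; rwa [h.il, h.mo] at this
theorem li' (x y : Q) : x * (i x * y) = y := by have := h.li (i x) y; rwa [h.ii] at this
theorem ri' (x y : Q) : (y * i x) * x = y := by have := h.ri (i x) y; rwa [h.ii] at this
theorem im (x y : Q) : i (x * y) = i y * i x := by
  have h1 := h.li (x * y) (i y)
  rw [h.ri] at h1
  rw [← h1, h.ri]
theorem flex (x y : Q) : x * (y * x) = (x * y) * x := by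
  have := h.mou x y 1; rwa [h.mo, h.mo] at this
theorem lalt (x z : Q) : x * (x * z) = (x * x) * z := by
  have := h.mou x 1 z; rwa [h.om, h.mo] at this
theorem inj {x y : Q} (e : i x = i y) : x = y := by rw [← h.ii x, e, h.ii]
theorem ralt (x z : Q) : (z * x) * x = z * (x * x) := by
  apply h.inj; simp only [h.im]; exact h.lalt _ _
theorem m3 (x u v : Q) : (x * u) * (v * x) = (x * (u * v)) * x := by
  have h1 := h.mou x (u * v) (i x * i v)
  rw [h.li', h.ri, ← h.im] at h1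
  rw [h1, h.ri']
theorem m2 (x u v : Q) : (u * i x) * ((x * v) * x) = (u * v) * x := by
  apply h.inj
  have h1 := h.mou (i x) (i v) (x * i u)
  rw [h.li] at h1
  simp only [h.im, h.ii]
  rw [h1, h.flex]
theorem m1 (x u v : Q) : ((x * u) * x) * (i x * v) = x * (u * v) := by
  rw [← h.mou, h.li']
theorem comm (x u : Q) : x * (u * i x) = (x * u) * i x := by
  have := h.flex x (u * i x)
  rw [h.ri'] at this
  rw [this, h.ri]
end IP

variable {R : Type*} [Mul R] [One R]

structure HH (i : Q → Q) (φ : Q → R) : Prop where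
  ip : IP Q i
  om : ∀ x : R, 1 * x = x
  mo : ∀ x : R, x * 1 = x
  lc : ∀ a x y : R, a * x = a * y → x = y
  rc : ∀ a x y : R, x * a = y * a → x = y
  hh : ∀ a b, φ (a * b) = φ a * φ b ∨ φ (a * b) = φ b * φ a

namespace HH
variable {φ : Q → R} (H : HH i φ)
include H

theorem one : φ 1 = 1 := by
  have := H.hh 1 1
  rw [H.ip.om, or_self] at this
  exact (H.lc (φ 1) _ _ (by rw [H.mo]; exact this)).symm
theorem kr (a b : Q) : φ (a * b) = φ a ↔ φ b = 1 := by
  constructor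
  · intro e
    rcases H.hh a b with h1 | h1
    · exact H.lc (φ a) _ _ (by rw [H.mo, ← h1, e])
    · exact H.rc (φ a) _ _ (by rw [H.om, ← h1, e])
  · intro e
    rcases H.hh a b with h1 | h1 <;> rw [h1, e]
    exacts [H.mo _, H.om _]
theorem kl (a b : Q) : φ (a * b) = φ b ↔ φ a = 1 := by
  constructor
  · intro e
    rcases H.hh a b with h1 | h1
    · exact H.rc (φ b) _ _ (by rw [H.om, ← h1, e])
    · exact H.lc (φ b) _ _ (by rw [H.mo, ← h1, e])
  · intro e
    rcases H.hh a b with h1 | h1 <;> rw [h1, e]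
    exacts [H.om _, H.mo _]
theorem e1 (u v : Q) : φ (u * i v) = 1 ↔ φ u = φ v := by
  rw [← H.kl _ v, H.ip.ri']
theorem e2 (u v : Q) : φ (i v * u) = 1 ↔ φ u = φ v := by
  rw [← H.kr v, H.ip.li']
theorem inv {u v : Q} (e : φ u = φ v) : φ (i u) = φ (i v) := by
  rw [← H.e1, H.ip.ii, H.e2]; exact e.symm
theorem inv' {u v : Q} (e : φ (i u) = φ (i v)) : φ u = φ v := by
  have := H.inv e; rwa [H.ip.ii, H.ip.ii] at this
theorem ik {k : Q} (e : φ k = 1) : φ (i k) = 1 := by
  have := (H.e1 1 k).2 (by rw [e, H.one]); rwa [H.ip.om] at this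
theorem e3 (u v : Q) : φ (u * v) = 1 ↔ φ u = φ (i v) := by
  rw [← H.e1, H.ip.ii]

theorem aut {α β γ : Q → Q} (A : ∀ u v, α u * β v = γ (u * v)) (g1 : γ 1 = 1)
    (gk : ∀ k, φ k = 1 → φ (γ k) = 1) {u v : Q} (e : φ u = φ v) :
    φ (α u) = φ (α v) ∧ φ (β u) = φ (β v) := by
  constructor
  · have h1 : φ (α u * β (i v)) = 1 := by rw [A]; exact gk _ ((H.e1 _ _).2 e)
    have h2 : φ (α v * β (i v)) = 1 := by rw [A, H.ip.ir, g1, H.one]
    rw [H.e3] at h1 h2; rw [h1, h2]
  · have h1 : φ (α (i v) * β u) = 1 := by rw [A]; exact gk _ ((H.e2 _ _).2 e)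
    have h2 : φ (α (i v) * β v) = 1 := by rw [A, H.ip.il, g1, H.one]
    rw [H.e3] at h1 h2; exact H.inv' (by rw [← h1, h2])

theorem ab (x : Q) {u v : Q} (e : φ u = φ v) :
    φ ((x * (u * x)) * x) = φ ((x * (v * x)) * x) ∧
      φ (i x * ((i x * u) * i x)) = φ (i x * ((i x * v) * i x)) := by
  refine H.aut (α := fun u => (x * (u * x)) * x) (β := fun v => i x * ((i x * v) * i x))
    (γ := fun w => x * (w * i x)) ?_ ?_ ?_ e
  · intro u v
    have := H.ip.m2 (i x) u v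
    rw [H.ip.ii] at this
    simp only [H.ip.m1, this]
  · simp only [H.ip.om, H.ip.ir]
  · intro k hk
    rw [H.ip.comm, H.e1, H.kr]; exact hk

theorem tt (x : Q) {u v : Q} (e : φ u = φ v) : φ ((x * u) * i x) = φ ((x * v) * i x) := by
  have h1 := (H.ab (i x) e).1
  have h2 := (H.ab (i x) h1).2
  simp only [H.ip.ii] at h2
  have key : ∀ w, x * ((x * ((i x * (w * i x)) * i x)) * x) = (x * w) * i x := by
    intro w
    rw [← H.ip.flex, H.ip.ri', H.ip.li', H.ip.comm]
  rwa [key, key] at h2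

theorem cube (x : Q) {u v : Q} (e : φ u = φ v) :
    φ (x * (x * (x * u))) = φ (x * (x * (x * v))) := by
  have h2 := (H.ab (i x) (H.tt x e)).2
  simp only [H.ip.ii] at h2
  rwa [← H.ip.flex, ← H.ip.flex, H.ip.ri', H.ip.ri'] at h2

theorem sw (x y k : Q) (hk : φ k = 1) : φ (x * (y * k)) = φ ((i k * x) * y) := by
  have := H.ip.m3 (i k) x (y * k)
  rw [H.ip.ri] at this
  rw [this, (H.kr _ _).2 (H.ik hk), (H.kl _ _).2 (H.ik hk)]

theorem caseA (x y : Q) (hc : φ (x * y) = φ (y * x)) (k : Q) (hk : φ k = 1) :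
    φ ((k * x) * y) = φ (x * y) := by
  obtain ⟨θ, hθ⟩ : ∃ θ : Q → Q, ∀ n, θ n = ((n * x) * y) * i (x * y) := ⟨_, fun _ => rfl⟩
  obtain ⟨c, hcd⟩ : ∃ c, c = i (y * x) * (x * y) := ⟨_, rfl⟩
  have ck : φ c = 1 := by rw [hcd, H.e2]; exact hc
  have A : ∀ u v, (((u * i x) * i y) * (x * y)) *
      ((i (x * y) * ((y * ((x * v) * x)) * y)) * i (x * y)) = θ (u * v) := by
    intro u v
    have := H.ip.m2 (i (x * y)) ((u * i x) * i y) ((y * ((x * v) * x)) * y)
    rw [H.ip.ii] at this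
    rw [this, H.ip.m2, H.ip.m2, hθ]
  have t1 : θ 1 = 1 := by rw [hθ, H.ip.om, H.ip.ir]
  have PS : ∀ u v, θ (u * v) = (θ u * c) * (i c * θ v) := by
    have hb : ∀ v, (i (x * y) * ((y * ((x * v) * x)) * y)) * i (x * y) = i c * θ v := by
      intro v
      have := A 1 v
      rw [H.ip.om, H.ip.om, ← H.ip.im, ← hcd] at this
      rw [← this, H.ip.li]
    intro u v
    have h1 := A u 1
    rw [hb, t1, H.ip.mo, H.ip.mo] at h1
    rw [← A u v, hb, ← h1, H.ip.ri']
  have a1 : ∀ u, φ (θ u * c) = φ (θ u) := fun u => (H.kr _ _).2 ck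
  have a2 : ∀ u, φ (i c * θ u) = φ (θ u) := fun u => (H.kl _ _).2 (H.ik ck)
  have b1 : ∀ u v, φ (θ (u * v)) = 1 ↔ φ (θ u) = φ (i (θ v)) := by
    intro u v; rw [PS, H.e3, a1, H.inv (a2 v)]
  have b2 : ∀ u v, φ (θ (u * v)) = φ (θ u) ↔ φ (θ v) = 1 := by
    intro u v; rw [PS, ← a1 u, H.kr, a2]
  have b3 : ∀ u v, φ (θ (u * v)) = φ (θ v) ↔ φ (θ u) = 1 := by
    intro u v; rw [PS, ← a2 v, H.kl, a1]
  have b4 : ∀ u, φ (θ u) = φ (i (θ (i u))) := by
    intro u; rw [← b1, H.ip.ir, t1, H.one]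
  have cj : ∀ z n, φ (θ n) ≠ 1 → φ (θ (z * (n * i z))) ≠ 1 := by
    intro z n hn e
    rw [b1, b4 z] at e
    exact hn ((b3 _ _).1 (H.inv' e).symm)
  have ell : ∀ n, φ (θ n) = 1 ↔ φ ((n * x) * y) = φ (x * y) := by
    intro n; rw [hθ, H.e1]
  have two : ∀ n, φ n = 1 → (φ ((n * x) * y) = φ x * φ y ∨ φ ((n * x) * y) = φ y * φ x) := by
    intro n hn
    have := H.hh (n * x) y
    rwa [(H.kl n x).2 hn] at this
  have same : ∀ n m, φ n = 1 → φ m = 1 → φ (θ n) ≠ 1 → φ (θ m) ≠ 1 →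
      φ ((n * x) * y) = φ ((m * x) * y) := by
    intro n m hn hm h1 h2
    rw [Ne, ell] at h1 h2
    rcases two n hn with p | p <;> rcases two m hm with q | q <;> rcases H.hh x y with r | r <;>
      simp_all
  by_contra hne
  rw [← ell] at hne
  have k'k : φ (x * (k * i x)) = 1 := by rw [H.ip.comm, H.e1, H.kr]; exact hk
  have w2 := cj x k hne
  have kk' : φ (k * (x * (k * i x))) = 1 := by rw [(H.kl _ _).2 hk]; exact k'k
  have w3 : φ (θ (k * (x * (k * i x)))) ≠ 1 := by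
    have k1 : φ (i y * (k * y)) = 1 := by rw [H.e2, H.kl]; exact hk
    have h1 := cj (i y) k hne
    rw [H.ip.ii] at h1
    have h2 : φ (θ (i (i y * (k * y)))) ≠ 1 := by
      intro e; apply h1; rw [b4]; exact H.ik e
    rw [Ne, ell, ← H.sw _ _ _ k1, H.ip.li'] at h2
    rw [Ne, ell, H.ip.mou, H.ip.ri', ← H.ip.mou, (H.kl _ _).2 hk]
    exact h2
  have sq : φ (θ k * θ k) = 1 := by
    have e : θ (k * k) = θ k * θ k := by rw [PS, H.ip.m3, H.ip.ir, H.ip.mo]
    by_contra hs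
    rw [← e] at hs
    have kk : φ (k * k) = 1 := by rw [(H.kl _ _).2 hk]; exact hk
    have h1 := same _ _ kk hk hs hne
    have h2 : ∀ n, (n * x) * y = θ n * (x * y) := fun n => by rw [hθ, H.ip.ri']
    rw [h2, h2, e, ← H.ip.lalt, H.kl] at h1
    exact hne h1
  have v : ∀ n, φ n = 1 → φ (θ n) ≠ 1 →
      (φ (θ n) = φ ((k * x) * y) * φ (i (x * y)) ∨ φ (θ n) = φ (i (x * y)) * φ ((k * x) * y)) := by
    intro n hn h1
    rw [← same n k hn hk h1 hne, hθ]; exact H.hh _ _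
  have n13 : φ (θ (k * (x * (k * i x)))) ≠ φ (θ k) := fun e => w2 ((b2 _ _).1 e)
  have n23 : φ (θ (k * (x * (k * i x)))) ≠ φ (θ (x * (k * i x))) := fun e => hne ((b3 _ _).1 e)
  have e12 : φ (θ (x * (k * i x))) = φ (θ k) := by
    rcases v _ hk hne with p | p <;> rcases v _ k'k w2 with q | q <;>
      rcases v _ kk' w3 with r | r <;>
      first | exact q.trans p.symm | exact absurd (r.trans p.symm) n13 | exact absurd (r.trans q.symm) n23
  apply w3
  have h1 := H.hh (θ k) (θ k)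
  rw [or_self, sq] at h1
  rw [PS]
  have h2 := H.hh (θ k * c) (i c * θ (x * (k * i x)))
  rw [a1, a2, e12, or_self] at h2
  rw [h2, ← h1]

theorem caseA' (x y y' : Q) (hc : φ (x * y) = φ (y * x)) (e : φ y' = φ y) :
    φ (x * y') = φ (x * y) := by
  have hk : φ (i y * y') = 1 := (H.e2 _ _).2 e
  have := H.sw x y _ hk
  rw [H.ip.li'] at this
  rw [this]; exact H.caseA x y hc _ (H.ik hk)

theorem left (x : Q) {y y' : Q} (e : φ y' = φ y) : φ (x * y') = φ (x * y) := by
  by_contra hne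
  have n1 : φ (x * y) ≠ φ (y * x) := fun hc => hne (H.caseA' x y y' hc e)
  have n2 : φ (x * y') ≠ φ (y' * x) := fun hc => hne (H.caseA' x y' y hc e.symm).symm
  have p1 := H.hh x y
  have p2 := H.hh y x
  have p3 := H.hh x y'
  have p4 := H.hh y' x
  rw [e] at p3 p4
  have q1 : φ (y * x) = φ (x * y') := by
    rcases p1 with p | p <;> rcases p2 with q | q <;> rcases p3 with r | r <;> simp_all
  have q2 : φ (y' * x) = φ (x * y) := by
    rcases p1 with p | p <;> rcases p4 with q | q <;> rcases p3 with r | r <;> simp_all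
  have r1 := H.tt x q1
  have r2 := H.tt x (H.tt x q2)
  rw [H.ip.flex, H.ip.ri] at r1 r2
  rw [← r1, ← H.ip.comm x (x * y), H.ip.comm, H.ip.comm, H.ip.ralt] at r2
  have u : ∀ w, (i x * i x) * (x * (x * (x * w))) = x * w := by
    intro w; rw [← H.ip.lalt, H.ip.li, H.ip.li]
  have := H.caseA' (i x * i x) (x * (x * (x * y))) (x * (x * (x * y'))) (by rw [u]; exact r2)
    (H.cube x e)
  rw [u, u] at this
  exact hne this

theorem right (x : Q) {y y' : Q} (e : φ y' = φ y) : φ (y' * x) = φ (y * x) := by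
  apply H.inv'; rw [H.ip.im, H.ip.im]; exact H.left _ (H.inv e)

end HH
end H22Half
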