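import Mathlib

set_option autoImplicit false

namespace Pool.Agent.H22.Hered

open Finset

theorem exists_inner {k V : Type} [Field k] [AddCommGroup V] [Module k V] (T : V →ₗ[k] V) :
    ∃ g : V →ₗ[k] V, ∀ x, T (g (T x)) = T x := by
  obtain ⟨s, hs⟩ := LinearMap.exists_rightInverse_of_surjective T.rangeRestrict
    (LinearMap.range_rangeRestrict T)
  obtain ⟨g, hg⟩ := LinearMap.exists_extend s
  refine ⟨g, fun x => ?_⟩
  have h1 : g (T x) = s ⟨T x, ⟨x, rfl⟩⟩ := by
    have := LinearMap.congr_fun hg ⟨T x, ⟨x, rfl⟩⟩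
    simpa using this
  have h2 := LinearMap.congr_fun hs ⟨T x, ⟨x, rfl⟩⟩
  rw [h1]
  exact congrArg Subtype.val h2

section
variable {k R : Type} [Field k] [Ring R] [Algebra k R]

theorem proj_of (e : ℕ → ℕ → R)
    (hmul : ∀ i j a b, j ≤ i → b ≤ a → e i j * e a b = if j = a then e i b else 0)
    (hspan : ∀ r : R, r ∈ Submodule.span k (insert (1 : R) {x | ∃ i j, j ≤ i ∧ x = e i j}))
    (M : Type) [AddCommGroup M] [Module R M] [Module k M] [IsScalarTower k R M]
    (hinj : ∀ i (x : M), e (i + 1) i • x = 0 → e i i • x = 0)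
    (hfin : ∀ x : M, ∃ N, ∑ i ∈ range N, e i i • x = x) : Module.Projective R M := by
  classical
  refine Module.Projective.of_lifting_property'' fun f hf => ?_
  obtain ⟨s0, hs0⟩ := LinearMap.exists_rightInverse_of_surjective (f.restrictScalars k)
    (LinearMap.range_eq_top.2 hf)
  have hs0' : ∀ x, f (s0 x) = x := fun x => LinearMap.congr_fun hs0 x
  let mM : R → M →ₗ[k] M := fun r => DistribSMul.toLinearMap k M r
  let mF : R → (M →₀ R) →ₗ[k] (M →₀ R) := fun r => DistribSMul.toLinearMap k (M →₀ R) r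
  have mM_apply : ∀ r x, mM r x = r • x := fun _ _ => rfl
  have mF_apply : ∀ r x, mF r x = r • x := fun _ _ => rfl
  choose g hg using fun i => exists_inner (mM (e (i + 1) i))
  simp only [mM_apply] at hg
  obtain ⟨τ, hτ0, hτs⟩ : ∃ τ : ℕ → M →ₗ[k] (M →₀ R),
      (∀ y, τ 0 y = e 0 0 • s0 (e 0 0 • y)) ∧
      ∀ i y, τ (i + 1) y = e (i + 1) i • τ i (g i (e (i + 1) (i + 1) • y)) +
        e (i + 1) (i + 1) • s0 (e (i + 1) (i + 1) • y -
          e (i + 1) i • g i (e (i + 1) (i + 1) • y)) := by
    refine ⟨fun n => Nat.rec (mF (e 0 0) ∘ₗ s0 ∘ₗ mM (e 0 0))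
      (fun i t => mF (e (i + 1) i) ∘ₗ t ∘ₗ g i ∘ₗ mM (e (i + 1) (i + 1)) +
        mF (e (i + 1) (i + 1)) ∘ₗ s0 ∘ₗ (mM (e (i + 1) (i + 1)) -
          mM (e (i + 1) i) ∘ₗ g i ∘ₗ mM (e (i + 1) (i + 1)))) n, fun y => rfl, fun i y => rfl⟩
  have hee : ∀ i j b, j ≤ i → b ≤ j → e i j * e j b = e i b := fun i j b h h' => by
    rw [hmul _ _ _ _ h h', if_pos rfl]
  have hii : ∀ i, e i i * e i i = e i i := fun i => hee i i i le_rfl le_rfl
  have hL : ∀ i, e (i + 1) (i + 1) * e (i + 1) i = e (i + 1) i := fun i =>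
    hee _ _ _ le_rfl (Nat.le_succ i)
  have hR : ∀ i, e (i + 1) i * e i i = e (i + 1) i := fun i =>
    hee _ _ _ (Nat.le_succ i) le_rfl
  have h1 : ∀ i y, τ i (e i i • y) = τ i y := by
    intro i y
    cases i with
    | zero => rw [hτ0, hτ0, smul_smul (e 0 0) (e 0 0) y, hii]
    | succ i => rw [hτs, hτs, smul_smul (e (i + 1) (i + 1)) (e (i + 1) (i + 1)) y, hii]
  have h2 : ∀ i y, e i i • τ i y = τ i y := by
    intro i y
    cases i with
    | zero => rw [hτ0, smul_smul, hii]
    | succ i => rw [hτs, smul_add, smul_smul, smul_smul, hL, hii]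
  have h0 : ∀ i y, e i i • y = 0 → τ i y = 0 := fun i y h => by rw [← h1, h, map_zero]
  have h3 : ∀ i y, f (τ i y) = e i i • y := by
    intro i
    induction i with
    | zero => intro y; rw [hτ0, map_smul, hs0', smul_smul, hii]
    | succ i ih =>
      intro y
      rw [hτs, map_add, map_smul f, map_smul f, ih, hs0', smul_sub, smul_smul, smul_smul, smul_smul,
        hR, hii, hL]
      abel
  have h4 : ∀ i y, τ (i + 1) (e (i + 1) i • y) = e (i + 1) i • τ i y := by
    intro i y
    rw [hτs, smul_smul (e (i + 1) (i + 1)) (e (i + 1) i) y, hL, hg, sub_self, map_zero,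
      smul_zero, add_zero]
    have : τ i (g i (e (i + 1) i • y) - y) = 0 := by
      apply h0
      apply hinj
      rw [smul_sub, hg, sub_self]
    rw [map_sub, sub_eq_zero] at this
    rw [this]
  have h5 : ∀ j i, j ≤ i → ∀ y, τ i (e i j • y) = e i j • τ j y := by
    intro j i hji
    induction i, hji using Nat.le_induction with
    | base => intro y; rw [h1, h2]
    | succ i hi ih =>
      intro y
      rw [← hee (i + 1) i j (Nat.le_succ i) hi, mul_smul, h4, ih, mul_smul]
  have hsupp : ∀ y : M, ∃ N, ∀ i, N ≤ i → τ i y = 0 := by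
    intro y
    obtain ⟨N, hN⟩ := hfin y
    refine ⟨N, fun i hi => h0 i y ?_⟩
    rw [← hN, smul_sum]
    refine sum_eq_zero fun j hj => ?_
    rw [smul_smul, hmul _ _ _ _ le_rfl le_rfl, if_neg, zero_smul]
    have := mem_range.1 hj
    omega
  have hfs : ∀ y : M, (Function.support fun i => τ i y).Finite := by
    intro y
    obtain ⟨N, hN⟩ := hsupp y
    refine (Set.finite_lt_nat N).subset fun i hi => ?_
    by_contra h
    exact hi (hN i (not_lt.1 h))
  have hsum : ∀ (y : M) N, (∀ i, N ≤ i → τ i y = 0) → ∑ᶠ i, τ i y = ∑ i ∈ range N, τ i y := by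
    intro y N hN
    apply finsum_eq_sum_of_support_subset
    intro i hi
    by_contra h
    exact hi (hN i (by simpa using h))
  have hlin : ∀ (r : R) (y : M), ∑ᶠ i, τ i (r • y) = r • ∑ᶠ i, τ i y := by
    intro r y
    induction hspan r using Submodule.span_induction with
    | mem x hx =>
      rcases hx with rfl | ⟨a, b, hab, rfl⟩
      · simp
      · obtain ⟨N, hN⟩ := hsupp y
        rw [hsum y (max N (b + 1)) fun i hi => hN i (le_trans (le_max_left _ _) hi), smul_sum,
          sum_eq_single b, finsum_eq_single _ a, h5 b a hab]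
        · intro i hi
          apply h0
          rw [smul_smul, hmul _ _ _ _ le_rfl hab, if_neg hi, zero_smul]
        · intro i _ hi
          rw [← h2, smul_smul, hmul _ _ _ _ hab le_rfl, if_neg (Ne.symm hi), zero_smul]
        · intro h
          exact absurd (mem_range.2 (lt_of_lt_of_le (Nat.lt_succ_self b) (le_max_right _ _))) h
    | zero => simp
    | add x z _ _ hx hz =>
      simp only [add_smul, map_add]
      rw [finsum_add_distrib (hfs _) (hfs _), hx, hz]
    | smul c x _ hx =>
      simp only [smul_assoc, map_smul]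
      rw [← smul_finsum' _ (hfs _), hx]
  refine ⟨⟨⟨fun y => ∑ᶠ i, τ i y, fun x y => ?_⟩, fun r y => hlin r y⟩, ?_⟩
  · simp only [map_add]
    exact finsum_add_distrib (hfs _) (hfs _)
  · ext y
    obtain ⟨N, hN⟩ := hfin y
    have : ∀ i, N ≤ i → τ i y = 0 := by
      intro i hi
      apply h0
      rw [← hN, smul_sum]
      refine sum_eq_zero fun j hj => ?_
      rw [smul_smul, hmul _ _ _ _ le_rfl le_rfl, if_neg, zero_smul]
      have := mem_range.1 hj
      omega
    change f (∑ᶠ i, τ i y) = y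
    rw [hsum y N this, map_sum]
    simp only [h3]
    exact hN

theorem hered (e : ℕ → ℕ → R)
    (hmul : ∀ i j a b, j ≤ i → b ≤ a → e i j * e a b = if j = a then e i b else 0)
    (hspan : ∀ r : R, r ∈ Submodule.span k (insert (1 : R) {x | ∃ i j, j ≤ i ∧ x = e i j}))
    (hinj : ∀ i (x : R), e (i + 1) i * x = 0 → e i i * x = 0) (I : Submodule R R) :
    Module.Projective R I := by
  classical
  obtain ⟨E, hE⟩ : ∃ E : ℕ → R, ∀ N, E N = ∑ i ∈ range N, e i i := ⟨_, fun _ => rfl⟩
  have hEe : ∀ N a b, a < N → b ≤ a → E N * e a b = e a b := by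
    intro N a b ha hb
    rw [hE, sum_mul, sum_eq_single a, hmul _ _ _ _ le_rfl hb, if_pos rfl]
    · intro i _ hi
      rw [hmul _ _ _ _ le_rfl hb, if_neg hi]
    · intro h
      exact absurd (mem_range.2 ha) h
  have hEE : ∀ N M, M ≤ N → E N * E M = E M := by
    intro N M h
    rw [hE M, mul_sum]
    exact sum_congr rfl fun i hi => hEe N i i (lt_of_lt_of_le (mem_range.1 hi) h) le_rfl
  have hmono : ∀ (a : R) N M, N ≤ M → E N * a = a → E M * a = a := by
    intro a N M h ha
    rw [← ha, ← mul_assoc, hEE M N h]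
  have hdec : ∀ r : R, ∃ (c : k) (a : R) (N : ℕ), r = c • (1 : R) + a ∧ E N * a = a := by
    intro r
    induction hspan r using Submodule.span_induction with
    | mem x hx =>
      rcases hx with rfl | ⟨a, b, hab, rfl⟩
      · exact ⟨1, 0, 0, by simp, by simp⟩
      · exact ⟨0, e a b, a + 1, by simp, hEe _ _ _ (Nat.lt_succ_self a) hab⟩
    | zero => exact ⟨0, 0, 0, by simp, by simp⟩
    | add x z _ _ hx hz =>
      obtain ⟨c, a, N, rfl, ha⟩ := hx
      obtain ⟨c', a', N', rfl, ha'⟩ := hz
      refine ⟨c + c', a + a', max N N', by rw [add_smul]; abel, ?_⟩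
      rw [mul_add, hmono a N _ (le_max_left _ _) ha, hmono a' N' _ (le_max_right _ _) ha']
    | smul c x _ hx =>
      obtain ⟨c', a, N, rfl, ha⟩ := hx
      exact ⟨c * c', c • a, N, by rw [smul_add, smul_smul], by rw [mul_smul_comm, ha]⟩
  have key : ∀ J : Submodule R R, (∀ x ∈ J, ∃ N, E N * x = x) → Module.Projective R J := by
    intro J hJ
    refine proj_of (k := k) e hmul hspan J (fun i x hx => ?_) (fun x => ?_)
    · apply Subtype.ext
      exact hinj i x (congrArg Subtype.val hx)
    · obtain ⟨N, hN⟩ := hJ x x.2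
      refine ⟨N, ?_⟩
      rw [← sum_smul, ← hE]
      exact Subtype.ext hN
  by_cases h : ∀ x ∈ I, ∃ N, E N * x = x
  · exact key I h
  push Not at h
  obtain ⟨x, hx, hxN⟩ := h
  obtain ⟨c, a, N, rfl, ha⟩ := hdec x
  have hc : c ≠ 0 := by
    rintro rfl
    exact hxN N (by simpa using ha)
  have hu : 1 - E N ∈ I := by
    have := I.smul_mem (c⁻¹ • (1 - E N)) hx
    have e1 : (c⁻¹ • (1 - E N)) • (c • (1 : R) + a) = 1 - E N := by
      rw [smul_eq_mul, smul_mul_assoc, mul_add, sub_mul 1 (E N) a, one_mul, ha, sub_self, add_zero,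
        mul_smul_comm, mul_one, smul_smul, inv_mul_cancel₀ hc, one_smul]
    rwa [e1] at this
  let J : Submodule R R := I ⊓ LinearMap.ker (LinearMap.toSpanSingleton R R (1 - E N))
  have hJ : Module.Projective R J := by
    apply key
    intro y hy
    have hy2 : y * (1 - E N) = 0 := hy.2
    obtain ⟨c', a', N', rfl, ha'⟩ := hdec y
    rw [mul_sub, mul_one, sub_eq_zero] at hy2
    refine ⟨max N N', ?_⟩
    rw [hy2, add_mul, mul_add, ← mul_assoc _ a', hmono a' N' _ (le_max_right _ _) ha', smul_mul_assoc,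
      one_mul, mul_smul_comm, hEE _ _ (le_max_left _ _)]
  have hidem : E N * (1 - E N) = 0 := by rw [mul_sub, mul_one, hEE N N le_rfl, sub_self]
  have hmem : ∀ y : I, (y : R) * E N ∈ J := by
    intro y
    refine ⟨?_, ?_⟩
    · have : (y : R) * E N = y - (y : R) • (1 - E N) := by
        rw [smul_eq_mul, mul_sub, mul_one]; abel
      rw [this]
      exact I.sub_mem y.2 (I.smul_mem _ hu)
    · change (y : R) * E N * (1 - E N) = 0
      rw [mul_assoc, hidem, mul_zero]
  let i1 : I →ₗ[R] J := LinearMap.codRestrict J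
    ((LinearMap.toSpanSingleton R R (E N)) ∘ₗ I.subtype) hmem
  refine Module.Projective.of_split (M := J × R) (LinearMap.prod i1 I.subtype)
    (LinearMap.coprod (Submodule.inclusion inf_le_left)
      (LinearMap.toSpanSingleton R I ⟨1 - E N, hu⟩)) ?_
  ext y
  change (y : R) * E N + (y : R) * (1 - E N) = y
  rw [← mul_add]
  simp

end

abbrev V : Type := ℕ →₀ ℚ

noncomputable def ee (i j : ℕ) : Module.End ℚ V := Finsupp.lsingle i ∘ₗ Finsupp.lapply j

theorem ee_mul (i j a b : ℕ) : ee i j * ee a b = if j = a then ee i b else 0 := by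
  apply LinearMap.ext
  intro v
  by_cases h : j = a
  · subst h
    simp [ee]
  · simp [ee, h, Finsupp.single_apply, Ne.symm h]

def gens : Set (Module.End ℚ V) := insert 1 {x | ∃ i j, j ≤ i ∧ x = ee i j}

theorem gens_mul (x y : Module.End ℚ V) (hx : x ∈ Submodule.span ℚ gens)
    (hy : y ∈ Submodule.span ℚ gens) : x * y ∈ Submodule.span ℚ gens := by
  induction hx using Submodule.span_induction with
  | mem x hx =>
    rcases hx with rfl | ⟨a, b, hab, rfl⟩
    · simpa using hy
    · induction hy using Submodule.span_induction with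
      | mem y hy =>
        rcases hy with rfl | ⟨c, d, hcd, rfl⟩
        · rw [mul_one]
          exact Submodule.subset_span (Or.inr ⟨a, b, hab, rfl⟩)
        · rw [ee_mul]
          split_ifs with h
          · exact Submodule.subset_span (Or.inr ⟨a, d, by omega, rfl⟩)
          · exact zero_mem _
      | zero => simp
      | add y z _ _ hy hz => rw [mul_add]; exact add_mem hy hz
      | smul c y _ hy => rw [mul_smul_comm]; exact Submodule.smul_mem _ _ hy
  | zero => simp
  | add x z _ _ hx hz => rw [add_mul]; exact add_mem hx hz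
  | smul c x _ hx => rw [smul_mul_assoc]; exact Submodule.smul_mem _ _ hx

noncomputable def RR : Subalgebra ℚ (Module.End ℚ V) :=
  (Submodule.span ℚ gens).toSubalgebra (Submodule.subset_span (Or.inl rfl)) gens_mul

noncomputable def e (i j : ℕ) : RR :=
  if h : j ≤ i then ⟨ee i j, Submodule.subset_span (Or.inr ⟨i, j, h, rfl⟩)⟩ else 0

theorem e_val (i j : ℕ) (h : j ≤ i) : (e i j : Module.End ℚ V) = ee i j := by
  simp [e, h]

theorem e_mul (i j a b : ℕ) (h : j ≤ i) (h' : b ≤ a) :
    e i j * e a b = if j = a then e i b else 0 := by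
  apply Subtype.ext
  rw [Subalgebra.coe_mul, e_val _ _ h, e_val _ _ h', ee_mul]
  split_ifs with h1
  · rw [e_val _ _ (by omega)]
  · rfl

theorem e_span (r : RR) :
    r ∈ Submodule.span ℚ (insert (1 : RR) {x | ∃ i j, j ≤ i ∧ x = e i j}) := by
  obtain ⟨r, hr⟩ := r
  have hr' : r ∈ Submodule.span ℚ gens := hr
  induction hr' using Submodule.span_induction with
  | mem x hx =>
    rcases hx with rfl | ⟨a, b, hab, rfl⟩
    · exact Submodule.subset_span (Or.inl rfl)
    · exact Submodule.subset_span (Or.inr ⟨a, b, hab, Subtype.ext (e_val _ _ hab).symm⟩)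
  | zero => exact zero_mem _
  | add x z hx' hz' hx hz => exact add_mem (hx hx') (hz hz')
  | smul c x hx' hx => exact Submodule.smul_mem _ c (hx hx')

theorem e_inj (i : ℕ) (x : RR) (h : e (i + 1) i * x = 0) : e i i * x = 0 := by
  apply Subtype.ext
  have h1 := congrArg Subtype.val h
  rw [Subalgebra.coe_mul, e_val _ _ (Nat.le_succ i)] at h1
  rw [Subalgebra.coe_mul, e_val _ _ le_rfl]
  have h2 : ee i i = ee i (i + 1) * ee (i + 1) i := by rw [ee_mul, if_pos rfl]
  rw [h2, mul_assoc, h1]
  simp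

theorem RR_hered (I : Submodule RR RR) : Module.Projective RR I :=
  hered (k := ℚ) e e_mul e_span e_inj I

theorem e_sq (i j : ℕ) (h : j < i) (r : RR) : e i j * r * e i j = 0 := by
  induction e_span r using Submodule.span_induction with
  | mem x hx =>
    rcases hx with rfl | ⟨a, b, hab, rfl⟩
    · rw [mul_one, e_mul _ _ _ _ h.le h.le, if_neg h.ne]
    · rw [e_mul _ _ _ _ h.le hab]
      split_ifs with h1
      · rw [e_mul _ _ _ _ (by omega) h.le, if_neg (by omega)]
      · rw [zero_mul]
  | zero => simp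
  | add x z _ _ hx hz => rw [mul_add, add_mul, hx, hz, add_zero]
  | smul c x _ hx => rw [mul_smul_comm, smul_mul_assoc, hx, smul_zero]

noncomputable def L : ℕ → List RR
  | 0 => []
  | n + 1 => e (n + 1) n :: L n

theorem L_len (n : ℕ) : (L n).length = n := by
  induction n with
  | zero => rfl
  | succ n ih => simp [L, ih]

theorem L_mem (n : ℕ) : ∀ x ∈ L n, ∃ i, x = e (i + 1) i := by
  induction n with
  | zero => simp [L]
  | succ n ih =>
    intro x hx
    rcases List.mem_cons.1 hx with rfl | h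
    · exact ⟨n, rfl⟩
    · exact ih x h

theorem L_prod (n : ℕ) : (L n).prod * e 0 0 = e n 0 := by
  induction n with
  | zero => simp [L]
  | succ n ih =>
    rw [L, List.prod_cons, mul_assoc, ih, e_mul _ _ _ _ (Nat.le_succ n) (Nat.zero_le n), if_pos rfl]

theorem e_ne (n : ℕ) : e n 0 ≠ 0 := by
  intro h
  have h1 := congrArg Subtype.val h
  rw [e_val _ _ (Nat.zero_le n)] at h1
  have h2 := LinearMap.congr_fun h1 (Finsupp.single 0 1)
  simp [ee] at h2

end Pool.Agent.H22.Hered
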