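import Mathlib

namespace Pool.Agent.H22.Img

open Polynomial Function

theorem modp (K : Type) [Field K] [CharZero K] (s : Set K) (hs : s.Finite) {r : ℕ} (hr : r ≠ 0) :
    ∃ (T : Subring K) (k : Type) (_ : Field k) (p : ℕ) (_ : CharP k p) (_ : T →+* k),
      s ⊆ T ∧ p.Prime ∧ r ∣ p - 1 := by
  have : Algebra.FiniteType ℤ (Algebra.adjoin ℤ s) := Algebra.FiniteType.adjoin_of_finite hs
  have : Algebra.FinitePresentation ℤ (Algebra.adjoin ℤ s) :=
    Algebra.FinitePresentation.of_finiteType.1 this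
  have o := (PrimeSpectrum.isOpenMap_comap_of_hasGoingDown_of_finitePresentation (R := ℤ)
    (S := Algebra.adjoin ℤ s)).isOpen_range
  obtain ⟨x⟩ : Nonempty (PrimeSpectrum (Algebra.adjoin ℤ s)) := inferInstance
  obtain ⟨_, ⟨N, rfl⟩, h1, h2⟩ :=
    PrimeSpectrum.isTopologicalBasis_basic_opens.exists_subset_of_mem_open (Set.mem_range_self x) o
  have hN : N ≠ 0 := fun e => h1 (by rw [e]; exact zero_mem _)
  obtain ⟨p, hp, a, b⟩ := Nat.exists_prime_gt_modEq_one N.natAbs hr
  have := Fact.mk hp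
  obtain ⟨q, hq⟩ := h2 (a := ⟨Ideal.span {(p : ℤ)}, inferInstance⟩) fun h => absurd
    (Nat.le_of_dvd (Int.natAbs_pos.2 hN) (Int.natCast_dvd.1 (Ideal.mem_span_singleton.1 h)))
    (not_le.2 a)
  have hq' : (p : Algebra.adjoin ℤ s) ∈ q.asIdeal := by
    have : (p : ℤ) ∈ (PrimeSpectrum.comap (algebraMap ℤ _) q).asIdeal :=
      hq ▸ Ideal.mem_span_singleton_self _
    simpa using this
  let ψ := (algebraMap (_ ⧸ q.asIdeal) (FractionRing (_ ⧸ q.asIdeal))).comp
    (Ideal.Quotient.mk q.asIdeal)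
  refine ⟨(Algebra.adjoin ℤ s).toSubring, FractionRing (_ ⧸ q.asIdeal), inferInstance, p,
    (CharP.charP_iff_prime_eq_zero hp).2 ?_, ψ, Algebra.subset_adjoin, hp,
    (Nat.modEq_iff_dvd' hp.one_lt.le).1 b.symm⟩
  rw [← map_natCast ψ, RingHom.comp_apply, Ideal.Quotient.eq_zero_iff_mem.2 hq', map_zero]

theorem core_p {k : Type} [Field k] {p : ℕ} [CharP k p] (hp : p.Prime) (l : k[X] →ₗ[k] k)
    (h1 : ∀ q, l (X ^ p * q) = 0) (h2 : l (X ^ (p - 1)) ≠ 0) {r : ℕ} (hr : r ≠ 0) (hd : r ∣ p - 1)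
    (c : k) (w : k[X]) (hw : w.coeff 0 ≠ 0) (h : ∀ j, 1 ≤ j → l ((C c + X ^ r * w) ^ j) = 0) :
    False := by
  have := Fact.mk hp
  obtain ⟨m, hm⟩ := hd
  have m0 : m ≠ 0 := fun e => by have := hp.two_le; rw [e] at hm; omega
  have a : c * l 1 = 0 := by
    have := h p hp.one_lt.le
    obtain ⟨r, rfl⟩ := Nat.exists_eq_succ_of_ne_zero hr
    rw [add_pow_char, mul_pow, ← pow_mul, Nat.succ_mul, pow_add, mul_comm _ (X ^ p), mul_assoc,
      map_add, h1, add_zero, ← C_pow, ← mul_one (C _), C_mul', map_smul, smul_eq_mul] at this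
    rcases mul_eq_zero.1 this with e | e
    · rw [eq_zero_of_pow_eq_zero e, zero_mul]
    · rw [e, mul_zero]
  have b : ∀ q : k[X], l (aeval (C c + X ^ r * w) q) = q.coeff 0 * l 1 := fun q => by
    induction q using Polynomial.induction_on' with
    | add p q u v => rw [map_add, map_add, u, v, coeff_add, add_mul]
    | monomial n x =>
      rw [aeval_monomial, algebraMap_eq, C_mul', map_smul, smul_eq_mul]
      rcases n with _ | n
      · simp
      · simp [h (n + 1) (by omega)]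
  have e := b ((X - C c) ^ m)
  obtain ⟨m, rfl⟩ := Nat.exists_eq_succ_of_ne_zero m0
  rw [coeff_zero_eq_eval_zero, eval_pow, eval_sub, eval_X, eval_C, zero_sub, pow_succ (-c), mul_assoc,
    neg_mul, a, neg_zero, mul_zero, map_pow, map_sub, aeval_X, aeval_C, algebraMap_eq,
    add_sub_cancel_left, mul_pow, ← pow_mul, ← hm, ← X_mul_divX_add (w ^ _), mul_add, ← mul_assoc,
    ← pow_succ, Nat.sub_add_cancel hp.one_lt.le, map_add, h1, zero_add, mul_comm, C_mul', map_smul,
    smul_eq_mul, coeff_zero_eq_eval_zero, eval_pow, ← coeff_zero_eq_eval_zero] at e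
  exact mul_ne_zero (pow_ne_zero _ hw) h2 e

theorem dec0 {K : Type} [Field K] (f : K[X]) : f = C (f.coeff 0) ∨
    ∃ r w, r ≠ 0 ∧ w.coeff 0 ≠ 0 ∧ f = C (f.coeff 0) + X ^ r * w := by
  refine or_iff_not_imp_left.2 fun h => ?_
  obtain ⟨w, a, b⟩ := exists_eq_pow_rootMultiplicity_mul_and_not_dvd _ (sub_ne_zero.2 h) 0
  rw [C_0, sub_zero] at a b
  refine ⟨_, w, fun e => b ?_, mt X_dvd_iff.2 b, sub_eq_iff_eq_add'.1 a⟩
  rw [e, pow_zero, one_mul] at a
  rw [← a, X_dvd_iff]; simp

noncomputable def Lf (S : Type) [CommRing S] : S[X] →ₗ[S] S :=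
  lsum fun n => (n.factorial : S) • LinearMap.id

variable {S S' : Type} [CommRing S] [CommRing S']

theorem lf_mon (n : ℕ) (x : S) : Lf S (monomial n x) = n.factorial * x := by
  simp [Lf]

theorem lf_map (j : S →+* S') (q : S[X]) : Lf S' (q.map j) = j (Lf S q) := by
  induction q using Polynomial.induction_on' with
  | add p q u v => rw [Polynomial.map_add, map_add, u, v, map_add, map_add]
  | monomial n x => simp [lf_mon]

theorem lf_der (q : S[X]) : Lf S (derivative q - q) = -q.coeff 0 := by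
  induction q using Polynomial.induction_on' with
  | add p q u v => rw [map_add, add_sub_add_comm, map_add, u, v, coeff_add, neg_add]
  | monomial n x =>
    rcases n with _ | n
    · rw [map_sub, lf_mon]; simp
    · simp [lf_mon, derivative_monomial, Nat.factorial_succ]; ring

theorem lf_mem (I : Ideal S) {q : S[X]} (h : q ∈ I.map C) : Lf S q ∈ I := by
  rw [Ideal.mem_map_C_iff] at h
  rw [q.as_sum_support, map_sum]
  exact sum_mem fun i _ => lf_mon i (q.coeff i) ▸ I.mul_mem_left _ (h i)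

theorem lift (j : S →+* S') (q : S'[X]) (h : ∀ i, q.coeff i ∈ j.range) : ∃ q₀ : S[X], q₀.map j = q :=
  (mem_lifts q).1 ((lifts_iff_coeff_lifts q).2 h)

theorem fin_co (q : S[X]) : (Set.range q.coeff).Finite :=
  ((q.support.finite_toSet.image q.coeff).insert 0).subset (by
    rintro _ ⟨i, rfl⟩
    by_cases h : q.coeff i = 0
    · exact Or.inl h
    · exact Or.inr ⟨i, mem_support_iff.2 h, rfl⟩)

theorem fac {K : Type} [Field K] [CharZero K] (f : K[X]) (h : ∀ m, 1 ≤ m → Lf K (f ^ m) = 0) :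
    f = 0 := by
  obtain e | ⟨r, w, hr, hw, e⟩ := dec0 f
  · have := h 1 le_rfl
    rw [pow_one, e, ← monomial_zero_left, lf_mon] at this
    rw [e, show f.coeff 0 = 0 by simpa using this, C_0]
  obtain ⟨T, k, _, p, _, ψ, a, hp, b⟩ := modp K (insert (f.coeff 0) (insert (w.coeff 0)⁻¹ _))
    (((fin_co w).insert _).insert _) hr
  obtain ⟨w₀, rfl⟩ := lift T.subtype w fun i => ⟨⟨_, a (.inr (.inr ⟨i, rfl⟩))⟩, rfl⟩
  have := Fact.mk hp
  refine (core_p hp (Lf k) (fun q => ?_) ?_ hr b (ψ ⟨_, a (.inl rfl)⟩) (w₀.map ψ) (fun z => ?_)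
    fun j hj => ?_).elim
  · induction q using Polynomial.induction_on' with
    | add p q u v => rw [mul_add, map_add, u, v, add_zero]
    | monomial n x =>
      rw [X_pow_eq_monomial, monomial_mul_monomial, lf_mon, (CharP.cast_eq_zero_iff k p _).2
        (Nat.dvd_factorial hp.pos (Nat.le_add_right _ _)), zero_mul]
  · rw [X_pow_eq_monomial, lf_mon, mul_one, Ne, CharP.cast_eq_zero_iff k p, hp.dvd_factorial]
    have := hp.pos; omega
  · have : w₀.coeff 0 * ⟨_, a (.inr (.inl rfl))⟩ = 1 := Subtype.ext (by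
      rw [coeff_map] at hw
      simpa using mul_inv_cancel₀ hw)
    have := congrArg ψ this
    rw [map_mul, ← coeff_map, z, zero_mul, map_one] at this
    exact zero_ne_one this
  · have t : Lf T ((C ⟨_, a (.inl rfl)⟩ + X ^ r * w₀) ^ j) = 0 := T.subtype_injective (by
      rw [← lf_map, map_zero, ← h j hj, congrArg (· ^ j) e]
      simp)
    have := lf_map ψ ((C ⟨_, a (.inl rfl)⟩ + X ^ r * w₀) ^ j)
    simpa [t] using this

theorem top {K : Type} [Field K] {a h : K[X]} (ha : a.natDegree ≠ 0) :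
    (derivative h - a * h).coeff (a.natDegree + h.natDegree) = -(a.leadingCoeff * h.leadingCoeff) := by
  rw [coeff_sub, coeff_mul_degree_add_degree, coeff_derivative,
    coeff_eq_zero_of_natDegree_lt (by omega), zero_mul, zero_sub]

theorem desc {K : Type} [Field K] (T : Subring K) {a : K[X]} (ha : a.natDegree ≠ 0)
    (h1 : a ∈ (mapRingHom T.subtype).range) (h2 : a.leadingCoeff⁻¹ ∈ T) (h : K[X])
    (h3 : derivative h - a * h ∈ (mapRingHom T.subtype).range) :
    h ∈ (mapRingHom T.subtype).range := by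
  induction hn : h.support.card using Nat.strong_induction_on generalizing h with
  | _ n ih =>
  by_cases h0 : h = 0
  · exact h0 ▸ zero_mem _
  have a0 : a.leadingCoeff ≠ 0 := leadingCoeff_ne_zero.2 fun e => ha (by rw [e, natDegree_zero])
  have l : h.leadingCoeff ∈ T := by
    obtain ⟨q, hq⟩ := h3
    have := congrArg (coeff · (a.natDegree + h.natDegree)) hq
    simp only [top ha, coe_mapRingHom, coeff_map] at this
    rw [show h.leadingCoeff = -(a.leadingCoeff⁻¹ * -(a.leadingCoeff * h.leadingCoeff)) by field_simp,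
      ← this]
    exact neg_mem (mul_mem h2 (q.coeff _).2)
  have m : monomial h.natDegree h.leadingCoeff ∈ (mapRingHom T.subtype).range :=
    ⟨monomial h.natDegree ⟨_, l⟩, by simp⟩
  rw [← eraseLead_add_monomial_natDegree_leadingCoeff h] at h3 ⊢
  refine add_mem (ih _ (hn ▸ eraseLead_support_card_lt h0) _ ?_ rfl) m
  obtain ⟨q, hq⟩ := m
  have := add_mem (sub_mem h3 ⟨derivative q, (derivative_map q _).symm⟩) (mul_mem h1 ⟨q, rfl⟩)
  rw [coe_mapRingHom] at hq
  rw [coe_mapRingHom, hq, map_add] at this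
  convert this using 1
  ring

theorem trunc {k : Type} [Field k] {p : ℕ} [CharP k p] (hp : p.Prime) (u : k[X]) (n : ℕ) (hn : n < p) :
    derivative (∑ i ∈ Finset.range (n + 1), C (i.factorial : k)⁻¹ * u ^ i) = derivative u *
      (∑ i ∈ Finset.range (n + 1), C (i.factorial : k)⁻¹ * u ^ i - C (n.factorial : k)⁻¹ * u ^ n) := by
  induction n with
  | zero => simp
  | succ n ih =>
    have : ((n + 1 : ℕ) : k) ≠ 0 := fun e =>
      absurd (Nat.le_of_dvd n.succ_pos ((CharP.cast_eq_zero_iff k p _).1 e)) (not_le.2 hn)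
    have e : C ((n + 1).factorial : k)⁻¹ * C ((n + 1 : ℕ) : k) = C (n.factorial : k)⁻¹ := by
      rw [← C_mul, Nat.factorial_succ, Nat.cast_mul, mul_inv, mul_right_comm, inv_mul_cancel₀ this,
        one_mul]
    rw [Finset.sum_range_succ _ (n + 1), map_add, ih (by omega), derivative_C_mul, derivative_pow,
      ← e, Nat.add_sub_cancel]
    ring

theorem anti {A : Type} [CommRing A] [Algebra ℚ A] (I : Ideal A) {q : A[X]} (h : q ∈ I.map C) :
    ∃ u ∈ I.map (C : A →+* A[X]), derivative u = q ∧ u.coeff 0 = 0 := by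
  rw [Ideal.mem_map_C_iff] at h
  refine ⟨∑ i ∈ q.support, monomial (i + 1) (((i + 1 : ℕ) : ℚ)⁻¹ • q.coeff i), sum_mem fun i _ => ?_,
    ?_, by simp⟩
  · rw [← C_mul_X_pow_eq_monomial]
    exact Ideal.mul_mem_right _ _ (Ideal.mem_map_of_mem _ (I.smul_of_tower_mem _ (h i)))
  · rw [map_sum]
    refine (Finset.sum_congr rfl fun i _ => ?_).trans q.as_sum_support.symm
    rw [derivative_monomial, Nat.add_sub_cancel, ← nsmul_eq_mul', ← Nat.cast_smul_eq_nsmul ℚ,
      smul_inv_smul₀ (by positivity)]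

theorem fld0 {K : Type} [Field K] [CharZero K] {a f : K[X]} (ha : a.natDegree ≠ 0)
    (h0 : a.coeff 0 = 0) (h : ∀ m, 1 ≤ m → ∃ h, derivative h - a * h = f ^ m) : f = 0 := by
  have a0 : a.leadingCoeff ≠ 0 := leadingCoeff_ne_zero.2 fun e => ha (by rw [e, natDegree_zero])
  obtain e | ⟨r, w, hr, hw, e⟩ := dec0 f
  · obtain ⟨q, hq⟩ := h 1 le_rfl
    have := top (h := q) ha
    rw [hq, pow_one, e, coeff_C_of_ne_zero (by omega), eq_comm, neg_eq_zero, mul_eq_zero] at this
    rw [← pow_one f, ← hq, leadingCoeff_eq_zero.1 (this.resolve_left a0)]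
    simp
  obtain ⟨u, -, rfl, hu⟩ := anti ⊤ (q := a) (by rw [Ideal.map_top]; trivial)
  obtain ⟨T, k, _, p, _, ψ, a, hp, b⟩ := modp K (insert (f.coeff 0) (insert (w.coeff 0)⁻¹
    (insert (derivative u).leadingCoeff⁻¹ (_ ∪ _))))
    (((((fin_co w).union (fin_co u)).insert _).insert _).insert _) hr
  obtain ⟨w₀, rfl⟩ := lift T.subtype w fun i => ⟨⟨_, a (.inr (.inr (.inr (.inl ⟨i, rfl⟩))))⟩, rfl⟩
  have a3 := a (.inr (.inr (.inl rfl)))
  obtain ⟨u₀, rfl⟩ := lift T.subtype u fun i => ⟨⟨_, a (.inr (.inr (.inr (.inr ⟨i, rfl⟩))))⟩, rfl⟩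
  have := Fact.mk hp
  have p1 : p - 1 + 1 = p := Nat.sub_add_cancel hp.one_lt.le
  rw [derivative_map, coeff_map] at h0
  rw [coeff_map] at hu
  have x1 : X ∣ -u₀.map ψ := by
    rw [X_dvd_iff, coeff_neg, coeff_map, show u₀.coeff 0 = 0 from Subtype.ext hu, map_zero, neg_zero]
  have x2 : X ∣ derivative (-u₀.map ψ) := by
    rw [X_dvd_iff, map_neg, coeff_neg, derivative_map, coeff_map,
      show (derivative u₀).coeff 0 = 0 from Subtype.ext h0, map_zero, neg_zero]
  have t := trunc hp (-u₀.map ψ) (p - 1) (by omega)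
  have t0 : (∑ i ∈ Finset.range (p - 1 + 1), C (i.factorial : k)⁻¹ * (-u₀.map ψ) ^ i).coeff 0 = 1 := by
    rw [coeff_zero_eq_eval_zero, Finset.sum_range_succ', eval_add, eval_finsetSum,
      Finset.sum_eq_zero fun i _ => by
        rw [eval_mul, eval_pow, ← coeff_zero_eq_eval_zero (-u₀.map ψ), X_dvd_iff.1 x1]; simp]
    simp
  generalize ∑ i ∈ Finset.range (p - 1 + 1), C (i.factorial : k)⁻¹ * (-u₀.map ψ) ^ i = E at t t0
  have z : ∀ q : k[X], X ^ p ∣ q → q.coeff (p - 1) = 0 := fun q d => X_pow_dvd_iff.1 d _ (by omega)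
  refine (core_p hp ((lcoeff k (p - 1)).comp (LinearMap.mulRight k E)) (fun q => z _ ⟨q * E, mul_assoc _ _ _⟩)
    ?_ hr b (ψ ⟨_, a (.inl rfl)⟩) (w₀.map ψ) (fun z => ?_) fun j hj => ?_).elim
  · have := coeff_X_pow_mul E (p - 1) 0
    rw [zero_add, t0] at this
    simp [this]
  · have : w₀.coeff 0 * ⟨_, a (.inr (.inl rfl))⟩ = 1 := Subtype.ext (by
      rw [coeff_map] at hw
      simpa using mul_inv_cancel₀ hw)
    have := congrArg ψ this
    rw [map_mul, ← coeff_map, z, zero_mul, map_one] at this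
    exact zero_ne_one this
  · obtain ⟨q, hq⟩ := h j hj
    have e' : ((C (⟨_, a (.inl rfl)⟩ : T) + X ^ r * w₀) ^ j).map T.subtype = f ^ j := by
      rw [congrArg (· ^ j) e]; simp
    obtain ⟨q, rfl⟩ := desc T ha ⟨_, (derivative_map u₀ _).symm⟩ a3 q ⟨_, e'.trans hq.symm⟩
    have e2 : derivative q - derivative u₀ * q = (C ⟨_, a (.inl rfl)⟩ + X ^ r * w₀) ^ j :=
      map_injective _ T.subtype_injective (by rw [e', ← hq]; simp [derivative_map])
    have e3 := congrArg (map ψ) e2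
    simp only [Polynomial.map_sub, Polynomial.map_mul, Polynomial.map_pow, Polynomial.map_add, map_C,
      map_X, ← derivative_map] at e3
    rw [← e3]
    obtain ⟨v, hv⟩ := mul_dvd_mul x2 (pow_dvd_pow_of_dvd x1 (p - 1))
    have : (derivative (q.map ψ) - derivative (u₀.map ψ) * q.map ψ) * E = derivative (q.map ψ * E) +
        X ^ p * (q.map ψ * C ((p - 1).factorial : k)⁻¹ * v) := by
      rw [← pow_succ', p1] at hv
      rw [derivative_mul, t]
      rw [map_neg] at hv ⊢
      linear_combination (q.map ψ * C ((p - 1).factorial : k)⁻¹) * hv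
    rw [LinearMap.comp_apply, LinearMap.mulRight_apply, this, lcoeff_apply, coeff_add, z _ ⟨_, rfl⟩,
      coeff_derivative, ← Nat.cast_succ, Nat.succ_eq_add_one, p1, CharP.cast_eq_zero k p]
    simp

theorem fld {K : Type} [Field K] [CharZero K] [IsAlgClosed K] {c : K} {a f : K[X]} (hc : c ≠ 0)
    (ha : a.natDegree ≠ 0) (h : ∀ m, 1 ≤ m → ∃ h, C c * derivative h - a * h = f ^ m) : f = 0 := by
  obtain ⟨x, hx⟩ := IsAlgClosed.exists_root a fun e => ha (natDegree_eq_of_degree_eq_some e)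
  refine (taylor_eq_zero x f).1 (fld0 (a := C c⁻¹ * taylor x a)
    (by rwa [natDegree_C_mul (inv_ne_zero hc), natDegree_taylor])
    (by rw [coeff_C_mul, taylor_coeff_zero, hx, mul_zero]) fun m hm => ?_)
  obtain ⟨q, hq⟩ := h m hm
  refine ⟨C c * taylor x q, ?_⟩
  have : C c⁻¹ * C c = 1 := by rw [← C_mul, inv_mul_cancel₀ hc, C_1]
  rw [← taylor_pow, ← hq, map_sub, taylor_mul, taylor_mul, taylor_C, derivative_C_mul, taylor_apply x q,
    derivative_comp, taylor_apply x (derivative q)]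
  simp only [derivative_X_add_C, one_mul]
  linear_combination (-(taylor x a * q.comp (X + C x))) * this

theorem toK (A : Type) [CommRing A] [Algebra ℚ A] (P : Ideal A) [P.IsPrime] :
    ∃ (K : Type) (_ : Field K) (_ : CharZero K) (_ : IsAlgClosed K) (ψ : A →+* K),
      ∀ x, ψ x = 0 ↔ x ∈ P := by
  have : CharZero (A ⧸ P) := algebraRat.charZero _
  refine ⟨AlgebraicClosure (FractionRing (A ⧸ P)), inferInstance, inferInstance, inferInstance,
    (algebraMap (FractionRing (A ⧸ P)) _).comp ((algebraMap (A ⧸ P) _).comp (Ideal.Quotient.mk P)),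
    fun x => ?_⟩
  simp [Ideal.Quotient.eq_zero_iff_mem]

end Pool.Agent.H22.Img
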