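import Pool.Agent.H22.Img1

namespace Pool.Agent.H22.Img

open Polynomial Function

theorem kpr {S : Type} [CommRing S] [Algebra ℚ S] (P : Ideal S) [P.IsPrime] (φ : S[X])
    (h : ∀ m, 1 ≤ m → Lf S (φ ^ m) ∈ P) (i : ℕ) : φ.coeff i ∈ P := by
  obtain ⟨K, _, _, _, ψ, hψ⟩ := toK S P
  rw [← hψ, ← coeff_map, fac (φ.map ψ) fun m hm => by
    rw [← Polynomial.map_pow, lf_map, hψ]; exact h m hm, coeff_zero]

def KF (d r : ℕ) : Prop := ∀ (S : Type) [CommRing S] [Algebra ℚ S] (φ : S[X]), φ.natDegree ≤ d →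
  ∀ P : Ideal S, P.IsPrime → (∀ m, 1 ≤ m → m ≤ r → Lf S (φ ^ m) ∈ P) → ∀ i, φ.coeff i ∈ P

theorem kfin (d : ℕ) : ∃ r, KF d r := by
  let U := MvPolynomial (Fin (d + 1)) ℚ
  let Φ : U[X] := ∑ i : Fin (d + 1), monomial i (MvPolynomial.X i)
  let F : ℕ →o Ideal U := ⟨fun r => Ideal.span {x | ∃ m, 1 ≤ m ∧ m ≤ r ∧ x = Lf U (Φ ^ m)},
    fun r s hrs => Ideal.span_mono fun x ⟨m, a, b, c⟩ => ⟨m, a, b.trans hrs, c⟩⟩
  obtain ⟨r, hr⟩ := monotone_stabilizes_iff_noetherian.2 inferInstance F
  refine ⟨r, fun S _ _ φ hd P _ h => kpr P φ fun m hm => ?_⟩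
  let ev : U →+* S := (MvPolynomial.aeval fun i : Fin (d + 1) => φ.coeff i).toRingHom
  have e : Φ.map ev = φ := by
    rw [φ.as_sum_range' (d + 1) (by omega), Finset.sum_range]
    simp [Φ, ev, Polynomial.map_sum, U]
  have l : F r ≤ P.comap ev := Ideal.span_le.2 (by
    rintro _ ⟨k, a, b, rfl⟩
    show ev _ ∈ P
    rw [← lf_map, Polynomial.map_pow, e]; exact h k a b)
  rw [← e, ← Polynomial.map_pow, lf_map]
  refine l (?_ : _ ∈ F r)
  rw [hr (m + r) (by omega)]
  exact Ideal.subset_span ⟨m, hm, by omega, rfl⟩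

section
variable {A : Type} [CommRing A]

theorem nil1 {c : A} {a : A[X]} (ha : a ∈ nonZeroDivisors A[X]) (p : ℕ → A[X])
    (h : ∀ i, a * p (i + 1) = C c * derivative (p i)) (k : ∀ i, C c * derivative a * p i = 0) :
    ∃ n, ∀ i, n ≤ i → p i = 0 := by
  have e : ∀ i, a ^ i * p i = C c ^ i * derivative^[i] (p 0) := by
    intro i
    induction i with
    | zero => simp
    | succ i ih =>
      have := congrArg derivative ih
      rw [← C_pow, derivative_C_mul, C_pow, derivative_mul, derivative_pow] at this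
      rw [iterate_succ_apply']
      linear_combination a ^ i * h i + C c * this - (C (i : A) * a ^ (i - 1)) * k i
  refine ⟨(p 0).natDegree + 1, fun i hi => (pow_mem ha i).1 _ ?_⟩
  rw [e, iterate_derivative_eq_zero (by omega), mul_zero]

theorem kill {I : Ideal A} {q w : A[X]} (hw : w ∈ I.map C) (h : ∀ x ∈ I, C x * q = 0) :
    w * q = 0 := by
  rw [Ideal.mem_map_C_iff] at hw
  rw [w.as_sum_support_C_mul_X_pow, Finset.sum_mul]
  exact Finset.sum_eq_zero fun i _ => by rw [mul_right_comm, h _ (hw i), zero_mul]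

theorem nilj {c : A} {a : A[X]} (ha : a ∈ nonZeroDivisors A[X]) {I : Ideal A} (hI : I.FG)
    (hw : C c * derivative a ∈ I.map C) (j : ℕ) : ∀ p : ℕ → A[X],
    (∀ i, a * p (i + 1) = C c * derivative (p i)) → (∀ x ∈ I ^ j, ∀ i, C x * p i = 0) →
    ∃ n, ∀ i, n ≤ i → p i = 0 := by
  induction j with
  | zero => exact fun p _ k => ⟨0, fun i _ => by simpa using k 1 (by simp) i⟩
  | succ j ih =>
    intro p h k
    obtain ⟨s, rfl⟩ := hI
    have : ∀ x : s, ∃ n, ∀ i, n ≤ i → C (x : A) * p i = 0 := fun x =>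
      ih (fun i => C (x : A) * p i) (fun i => by
        rw [derivative_C_mul]; linear_combination C (x : A) * h i) fun y hy i => by
        rw [← mul_assoc, ← C_mul]
        exact k _ (pow_succ (Ideal.span (s : Set A)) j ▸
          Ideal.mul_mem_mul hy (Ideal.subset_span x.2)) i
    choose n hn using this
    obtain ⟨N, hN⟩ := Finite.exists_le n
    obtain ⟨M, hM⟩ := nil1 ha (fun i => p (N + i)) (fun i => h _) fun i => kill hw fun x hx => by
      induction hx using Submodule.span_induction with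
      | mem x hx => exact hn ⟨x, hx⟩ _ ((hN _).trans (by omega))
      | zero => simp
      | add x y _ _ u v => rw [C_add, add_mul, u, v, add_zero]
      | smul y x _ u => rw [smul_eq_mul, C_mul, mul_assoc, u, mul_zero]
    refine ⟨N + M, fun i hi => ?_⟩
    have := hM (i - N) (by omega)
    rwa [show N + (i - N) = i by omega] at this

theorem co_mul {I J : Ideal A} {p q : A[X]} (hp : p ∈ I.map C) (hq : q ∈ J.map C) :
    p * q ∈ (I * J).map (C : A →+* A[X]) := by
  rw [Ideal.map_mul]; exact Ideal.mul_mem_mul hp hq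

theorem lemT [Algebra ℚ A] (c : A) {a : A[X]} {T : Ideal A} (ha : a ∈ T.map C) (J : Ideal A)
    (j : ℕ) : ∀ ρ ∈ (J ⊓ (T ^ j).annihilator).map (C : A →+* A[X]),
      ∃ h ∈ J.map (C : A →+* A[X]), C c * derivative h - a * h = C c ^ j * ρ := by
  induction j with
  | zero =>
    intro ρ hρ
    refine ⟨0, zero_mem _, ?_⟩
    have : ρ = 0 := by
      ext i
      simpa using Submodule.mem_annihilator.1 ((Ideal.mem_map_C_iff.1 hρ i).2) 1 (by simp)
    simp [this]
  | succ j ih =>
    intro ρ hρ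
    obtain ⟨u, hu, du, -⟩ := anti _ hρ
    obtain ⟨h, hh, e⟩ := ih (a * u) (Ideal.map_mono (by
      refine Ideal.mul_le.2 fun x hx y hy => ⟨J.mul_mem_left _ hy.1, ?_⟩
      refine Submodule.mem_annihilator.2 fun z hz => ?_
      have := Submodule.mem_annihilator.1 hy.2 (z * x) (pow_succ T j ▸ Ideal.mul_mem_mul hz hx)
      rw [smul_eq_mul] at this ⊢
      linear_combination this) (co_mul ha hu))
    refine ⟨C c ^ j * u + h, add_mem (Ideal.mul_mem_left _ _ (Ideal.map_mono inf_le_left hu)) hh, ?_⟩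
    rw [derivative_add, ← C_pow, derivative_C_mul, du, C_pow]
    linear_combination e

open TrivSqZeroExt in
theorem der (a : A[X]) (S : Type) [CommRing S] [Algebra A[X] S] [IsLocalization.Away a S] :
    ∃ δ : Derivation ℤ S S, ∀ p : A[X], δ (algebraMap _ S p) = algebraMap _ S (derivative p) := by
  let ρ : A[X] →+* TrivSqZeroExt S S :=
    { toFun := fun p => .inl (algebraMap _ S p) + .inr (algebraMap _ S (derivative p))
      map_one' := by ext <;> simp
      map_mul' := fun p q => by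
        ext
        · simp
        · simp only [snd_add, snd_mul, snd_inl, snd_inr, fst_add, fst_inl, fst_inr, derivative_mul,
            map_add, map_mul, smul_eq_mul, op_smul_eq_mul]
          ring
      map_zero' := by ext <;> simp
      map_add' := fun p q => by simp only [map_add, inl_add, inr_add]; abel }
  have r1 : ∀ p, (ρ p).fst = algebraMap _ S p := fun p => by simp [ρ]
  have r2 : ∀ p, (ρ p).snd = algebraMap _ S (derivative p) := fun p => zero_add _
  have hu : IsUnit (ρ a) := by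
    rw [isUnit_iff_isUnit_fst, r1]
    exact IsLocalization.Away.algebraMap_isUnit (S := S) a
  obtain ⟨σ, s1⟩ : ∃ σ : S →+* TrivSqZeroExt S S, ∀ p, σ (algebraMap _ S p) = ρ p :=
    ⟨IsLocalization.Away.lift a hu, IsLocalization.Away.lift_eq a hu⟩
  have s2 : ∀ x, (σ x).fst = x := by
    have : (fstHom S S S).toRingHom.comp σ = RingHom.id S :=
      IsLocalization.ringHom_ext (Submonoid.powers a) (RingHom.ext fun p => (congrArg fst (s1 p)).trans (r1 p))
    exact fun x => RingHom.congr_fun this x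
  refine ⟨Derivation.mk' (((sndHom S S).toAddMonoidHom.comp σ.toAddMonoidHom).toIntLinearMap)
    fun x y => ?_, fun p => (congrArg snd (s1 p)).trans (r2 p)⟩
  show (σ (x * y)).snd = x * (σ y).snd + y * (σ x).snd
  rw [map_mul, snd_mul, s2, s2, smul_eq_mul, op_smul_eq_mul, mul_comm y]

end

end Pool.Agent.H22.Img
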