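import Pool.Agent.H22.Img2

namespace Pool.Agent.H22.Img

open Polynomial Function Submodule

variable {R S : Type} [CommRing R] [CommRing S] [Algebra R S]

def rees (W : Submodule R S) : Subalgebra R S[X] where
  carrier := {q | ∀ i, q.coeff i ∈ W ^ i}
  mul_mem' := fun {p q} hp hq i => by
    rw [coeff_mul]
    refine sum_mem fun x hx => ?_
    rw [← Finset.HasAntidiagonal.mem_antidiagonal.1 hx, pow_add]
    exact mul_mem_mul (hp _) (hq _)
  add_mem' := fun {p q} hp hq i => by rw [coeff_add]; exact add_mem (hp i) (hq i)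
  algebraMap_mem' := fun r i => by
    rw [Polynomial.algebraMap_apply, coeff_C]
    split_ifs with h
    · rw [h, pow_zero]; exact algebraMap_mem r
    · exact zero_mem _

theorem mon_rees {W : Submodule R S} {n : ℕ} {w : S} (h : w ∈ W ^ n) : monomial n w ∈ rees W := by
  intro i
  rw [coeff_monomial]
  split_ifs with e
  · exact e ▸ h
  · exact zero_mem _

theorem rees_pow [Algebra ℚ R] {d r : ℕ} (hr : KF d r) (a : R) (φ : S[X]) (hd : φ.natDegree ≤ d)
    (s : Set S) (hs : s.Finite) (h1 : ∀ i, φ.coeff i ∈ s)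
    (h2 : ∀ x ∈ s, IsNilpotent x ∨ ∃ i, x = φ.coeff i)
    (h3 : ∀ m, 1 ≤ m → m ≤ r → ∃ h : R, IsNilpotent (Lf S (φ ^ m) + algebraMap R S (a * h))) :
    ∃ M, span R s ^ (M + 1) ≤ span R {algebraMap R S a} * (span R s ⊔ 1) ^ M := by
  set W : Submodule R S := span R s ⊔ 1
  have w1 : ∀ (n : ℕ) (h : R), algebraMap R S h ∈ W ^ n := fun n h => by
    have := pow_mem_pow W (mem_sup_right (one_le.1 le_rfl)) n
    rw [one_pow] at this
    rw [Algebra.algebraMap_eq_smul_one]
    exact smul_mem _ _ this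
  have w2 : ∀ x ∈ s, x ∈ W ^ 1 := fun x hx => by rw [pow_one]; exact mem_sup_left (subset_span hx)
  let G := rees W
  let _ : Algebra ℚ G := ((algebraMap R G).comp (algebraMap ℚ R)).toAlgebra
  let t : G := ⟨_, mon_rees (w1 1 a)⟩
  let gen : s → G := fun x => ⟨_, mon_rees (w2 x x.2)⟩
  have := hs.to_subtype
  have inj : Injective G.val.toRingHom := Subtype.val_injective
  obtain ⟨n, hn⟩ := Ideal.exists_pow_le_of_le_radical_of_fg (I := Ideal.span (Set.range gen))
    (J := Ideal.span {t}) (Ideal.span_le.2 (by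
      rintro _ ⟨x, rfl⟩
      rw [Ideal.radical_eq_sInf]
      refine mem_sInf.2 fun P ⟨hP, _⟩ => ?_
      have nl : ∀ u : G, IsNilpotent (u : S[X]) → u ∈ P := fun u hu =>
        nilradical_le_prime P ((IsNilpotent.map_iff inj).1 hu)
      rcases h2 x x.2 with h | ⟨i, h⟩
      · refine nl _ ?_
        show IsNilpotent (monomial 1 (x : S))
        rw [← C_mul_X_pow_eq_monomial]
        exact (Commute.all _ _).isNilpotent_mul_right (h.map C)
      · obtain ⟨Φ, hΦ⟩ := lift G.val.toRingHom (C X * φ.map C) fun j =>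
          ⟨gen ⟨_, h1 j⟩, by
            show monomial 1 _ = _
            rw [coeff_C_mul, coeff_map, ← C_mul_X_pow_eq_monomial, pow_one, mul_comm]⟩
        have c1 : Φ.coeff i = gen x := inj (by
          rw [← coeff_map, hΦ]
          show _ = monomial 1 _
          rw [coeff_C_mul, coeff_map, ← C_mul_X_pow_eq_monomial, pow_one, mul_comm, h])
        rw [← c1]
        refine hr G Φ ?_ P ‹_› (fun m m1 m2 => ?_) i
        · rw [← natDegree_map_eq_of_injective inj, hΦ]
          exact (natDegree_C_mul_le _ _).trans (natDegree_map_le.trans hd)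
        · obtain ⟨u, hu⟩ := h3 m m1 m2
          obtain ⟨m, rfl⟩ := Nat.exists_eq_add_of_le' m1
          refine (Submodule.add_mem_iff_left P (Ideal.mul_mem_right ⟨_, mon_rees (w1 m u)⟩ P
            (hP (Ideal.subset_span rfl)))).1 (nl _ ?_)
          have e : G.val.toRingHom (Lf G (Φ ^ (m + 1))) = X ^ (m + 1) * C (Lf S (φ ^ (m + 1))) := by
            rw [← lf_map, Polynomial.map_pow, hΦ, mul_pow, ← C_pow, ← smul_eq_C_mul, map_smul,
              ← Polynomial.map_pow, lf_map, smul_eq_mul]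
          have := (Commute.all (X ^ (m + 1)) _).isNilpotent_mul_left (hu.map C)
          rw [map_add, mul_add, ← e, map_mul, X_pow_mul, C_mul_X_pow_eq_monomial, mul_comm (algebraMap R S a),
            ← monomial_mul_monomial, mul_comm (monomial m _)] at this
          exact this)) (fg_span (Set.finite_range _))
  have k1 : ∀ w ∈ span R s, ∃ q ∈ Ideal.span (Set.range gen), (q : S[X]) = monomial 1 w := by
    intro w hw
    induction hw using span_induction with
    | mem x hx => exact ⟨_, Ideal.subset_span ⟨⟨x, hx⟩, rfl⟩, rfl⟩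
    | zero => exact ⟨0, zero_mem _, by simp⟩
    | add x y _ _ u v =>
      obtain ⟨p, p1, p2⟩ := u
      obtain ⟨q, q1, q2⟩ := v
      exact ⟨p + q, add_mem p1 q1, by simp [p2, q2]⟩
    | smul r x _ u =>
      obtain ⟨p, p1, p2⟩ := u
      exact ⟨r • p, smul_of_tower_mem _ _ p1, by rw [Subalgebra.coe_smul, p2, smul_monomial]⟩
  have k2 : ∀ n, ∀ w ∈ span R s ^ n, ∃ q ∈ Ideal.span (Set.range gen) ^ n,
      (q : S[X]) = monomial n w := by
    intro n w hw
    induction hw using Submodule.pow_induction_on_left' with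
    | algebraMap r => exact ⟨algebraMap R G r, by simp, by simp⟩
    | add x y i _ _ u v =>
      obtain ⟨p, p1, p2⟩ := u
      obtain ⟨q, q1, q2⟩ := v
      exact ⟨p + q, add_mem p1 q1, by simp [p2, q2]⟩
    | mem_mul m hm i x _ v =>
      obtain ⟨p, p1, p2⟩ := k1 m hm
      obtain ⟨q, q1, q2⟩ := v
      exact ⟨p * q, pow_succ' (Ideal.span (Set.range gen)) i ▸ Ideal.mul_mem_mul p1 q1, by
        simp [p2, q2, monomial_mul_monomial, add_comm]⟩
  refine ⟨n, fun w hw => ?_⟩
  obtain ⟨q, q1, q2⟩ := k2 _ w hw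
  obtain ⟨u, rfl⟩ := Ideal.mem_span_singleton'.1 (hn (Ideal.pow_le_pow_right (Nat.le_succ n) q1))
  have := congrArg (coeff · (n + 1)) q2
  simp only [t, MulMemClass.coe_mul, coeff_mul_monomial, coeff_monomial_same] at this
  rw [← this, mul_comm (_ : S)]
  exact mul_mem_mul (subset_span rfl) (u.2 n)

theorem ring_of {Y : Submodule R S} {M : ℕ} (h : Y ^ (M + 1) ≤ (Y ⊔ 1) ^ M) (n : ℕ) :
    (Y ⊔ 1) ^ n ≤ (Y ⊔ 1) ^ M := by
  have a : ∀ n, (Y ⊔ 1) ^ (n + 1) ≤ Y ^ (n + 1) ⊔ (Y ⊔ 1) ^ n := by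
    intro n
    induction n with
    | zero => simp
    | succ n ih =>
      rw [pow_succ, Submodule.mul_sup, mul_one]
      refine sup_le ((mul_le_mul_left ih Y).trans ?_) le_sup_right
      rw [Submodule.sup_mul, ← pow_succ, pow_succ (Y ⊔ 1)]
      exact sup_le_sup le_rfl (mul_le_mul_right le_sup_left _)
  have b : ∀ k, (Y ⊔ 1) ^ (M + k) ≤ (Y ⊔ 1) ^ M := by
    intro k
    induction k with
    | zero => exact le_rfl
    | succ k ih =>
      rw [← add_assoc, pow_succ]
      refine (mul_le_mul_left ih _).trans ?_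
      rw [← pow_succ]
      exact (a M).trans (sup_le h le_rfl)
  exact (pow_le_pow_right' le_sup_right (by omega)).trans (b n)

theorem beta {b : S} (h1 : 1 ≤ span R {b}) (h : ∀ x : S, ∃ n, x ∈ span R {b} ^ n) (P : Submodule R S)
    (hP : P.FG) : ∃ e, P ≤ span R {b} ^ e := by
  induction P, hP using fg_induction with
  | singleton x => exact (h x).imp fun n hn => (span_singleton_le_iff_mem _ _).2 hn
  | sup P Q _ _ u v =>
    obtain ⟨m, u⟩ := u
    obtain ⟨n, v⟩ := v
    exact ⟨m + n, sup_le (u.trans (pow_le_pow_right' h1 (by omega)))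
      (v.trans (pow_le_pow_right' h1 (by omega)))⟩

theorem fin_le {c Y α β J Γ : Submodule R S} {M d e₁ e₂ : ℕ} (hc : ∀ n, c ^ n ≤ c) (y1 : Y ≤ c)
    (y2 : Y ^ (M + 1) ≤ α * c) (y3 : Y ≤ β ^ d * J) (g : Γ ≤ β ^ e₁) (c2 : c ≤ β ^ e₂)
    (ab : α * β = 1) (K N : ℕ) : ∃ m₀, ∀ m, m₀ ≤ m →
      c * Γ * (c * (c * Y) ^ m) * (c * β) ≤ α ^ K * J ^ N := by
  refine ⟨N + (M + 1) * (K + (e₂ + 1 + e₁ + d * N)), fun m hm => ?_⟩
  obtain ⟨t, rfl⟩ := Nat.exists_eq_add_of_le hm
  generalize hL : K + (e₂ + 1 + e₁ + d * N) = L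
  generalize hm : N + (M + 1) * L + t = m
  calc _ = c ^ (m + 3) * β * Γ * (Y ^ N * (Y ^ (M + 1)) ^ L * Y ^ t) := by
        rw [← pow_mul, ← pow_add, ← pow_add, hm]; ring
    _ ≤ c ^ (m + 3) * β * β ^ e₁ * ((β ^ d * J) ^ N * (α * c) ^ L * c ^ t) := by gcongr
    _ = c ^ (m + 3 + L + t) * (β ^ (1 + e₁ + d * N) * α ^ L * J ^ N) := by ring
    _ ≤ β ^ e₂ * (β ^ (1 + e₁ + d * N) * α ^ L * J ^ N) := mul_le_mul_left ((hc _).trans c2) _
    _ = (α * β) ^ (e₂ + 1 + e₁ + d * N) * (α ^ K * J ^ N) := by rw [← hL]; ring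
    _ = _ := by rw [ab, one_pow, one_mul]

section
variable {θ : Derivation ℤ S S} {E : Subring S}

theorem st_span (hE : ∀ x ∈ E, θ x ∈ E) {t : Set S} (h : ∀ x ∈ t, θ x ∈ span E t) :
    ∀ x ∈ span E t, θ x ∈ span E t := by
  intro x hx
  induction hx using span_induction with
  | mem x hx => exact h x hx
  | zero => simp
  | add x y _ _ u v => rw [map_add]; exact add_mem u v
  | smul e x hx u =>
    rw [Subring.smul_def, smul_eq_mul, θ.leibniz, smul_eq_mul x, mul_comm x]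
    exact add_mem (smul_mem _ e u) (smul_mem _ (⟨_, hE e e.2⟩ : E) hx)

theorem st_mul {P Q : Submodule E S} (hP : ∀ x ∈ P, θ x ∈ P) (hQ : ∀ x ∈ Q, θ x ∈ Q) :
    ∀ x ∈ P * Q, θ x ∈ P * Q := fun _ hx =>
  Submodule.mul_induction_on hx (fun x hx y hy => by
    rw [θ.leibniz, smul_eq_mul y, mul_comm y]
    exact add_mem (mul_mem_mul hx (hQ y hy)) (mul_mem_mul (hP x hx) hy))
    fun x y u v => by rw [map_add]; exact add_mem u v

theorem st_pow (hE : ∀ x ∈ E, θ x ∈ E) {P : Submodule E S} (hP : ∀ x ∈ P, θ x ∈ P) (n : ℕ) :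
    ∀ x ∈ P ^ n, θ x ∈ P ^ n := by
  induction n with
  | zero =>
    intro x hx
    rw [pow_zero, mem_one] at hx ⊢
    obtain ⟨e, rfl⟩ := hx
    exact ⟨⟨_, hE e e.2⟩, rfl⟩
  | succ n ih => rw [pow_succ]; exact st_mul ih hP

theorem cmp_span {c : Submodule R S} (hc : ∀ n, c ^ n ≤ c) (hE : ∀ x ∈ E, x ∈ c) (t : Set S) :
    ∀ x ∈ span E t, x ∈ c * span R t := by
  intro x hx
  induction hx using span_induction with
  | mem x hx => exact one_mul x ▸ mul_mem_mul (hE 1 E.one_mem) (subset_span hx)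
  | zero => simp
  | add x y _ _ u v => exact add_mem u v
  | smul e x _ u =>
    have := mul_mem_mul (hE e e.2) u
    rw [← mul_assoc, ← sq] at this
    exact mul_le_mul_left (hc 2) _ this

theorem cmp_mul {P Q : Submodule E S} {P' Q' : Submodule R S} (hP : ∀ x ∈ P, x ∈ P')
    (hQ : ∀ x ∈ Q, x ∈ Q') : ∀ x ∈ P * Q, x ∈ P' * Q' := fun _ hx =>
  Submodule.mul_induction_on hx (fun x hx y hy => mul_mem_mul (hP x hx) (hQ y hy))
    fun _ _ u v => add_mem u v

theorem cmp_pow {c : Submodule R S} (hE : ∀ x ∈ E, x ∈ c) {P : Submodule E S} {P' : Submodule R S}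
    (hP : ∀ x ∈ P, x ∈ P') (n : ℕ) : ∀ x ∈ P ^ n, x ∈ c * P' ^ n := by
  induction n with
  | zero =>
    intro x hx
    rw [pow_zero, mem_one] at hx
    obtain ⟨e, rfl⟩ := hx
    rw [pow_zero, mul_one]
    exact hE e e.2
  | succ n ih => rw [pow_succ, pow_succ, ← mul_assoc]; exact cmp_mul ih hP

end

end Pool.Agent.H22.Img
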