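import Pool.Agent.H22.Img3

namespace Pool.Agent.H22.Img

open Polynomial Function Submodule

variable {A S : Type} [CommRing A] [CommRing S] [Algebra A[X] S]

noncomputable def yy (z : S) (p : A[X]) (k : ℕ) : S := z ^ k * algebraMap _ S (hasseDeriv k p)

noncomputable def tau (z : S) : A[X] →+* S[X] :=
  eval₂RingHom (C.comp ((algebraMap _ S).comp C)) (C z * X + C (algebraMap A[X] S X))

theorem tau_coeff (z : S) (p : A[X]) (k : ℕ) : (tau z p).coeff k = yy z p k := by
  induction p using Polynomial.induction_on' with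
  | add p q u v => simp only [map_add, coeff_add, u, v, yy, mul_add]
  | monomial n r =>
    have := comp_C_mul_X_coeff (p := (X + C (algebraMap A[X] S X)) ^ n) (r := z) (n := k)
    rw [pow_comp, add_comp, X_comp, C_comp, coeff_X_add_C_pow] at this
    rw [tau, coe_eval₂RingHom, eval₂_monomial, RingHom.comp_apply, coeff_C_mul, this, yy,
      hasseDeriv_monomial, ← C_mul_X_pow_eq_monomial]
    simp only [RingHom.comp_apply, map_mul, map_pow, map_natCast]
    ring

theorem has1 (p : A[X]) (k : ℕ) : derivative (hasseDeriv k p) = (k + 1 : ℕ) * hasseDeriv (k + 1) p := by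
  have := LinearMap.congr_fun (hasseDeriv_comp (R := A) 1 k) p
  rwa [hasseDeriv_one, Nat.choose_one_right, add_comm, LinearMap.smul_apply, nsmul_eq_mul] at this

theorem tau_der (z : S) (p : A[X]) : derivative (tau z p) = C z * tau z (derivative p) := by
  ext k
  have := LinearMap.congr_fun (hasseDeriv_comp (R := A) k 1) p
  rw [hasseDeriv_one, Nat.choose_succ_self_right, LinearMap.smul_apply, nsmul_eq_mul,
    LinearMap.comp_apply] at this
  rw [coeff_derivative, coeff_C_mul, tau_coeff, tau_coeff, yy, yy, this, map_mul, map_natCast]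
  push_cast
  ring

theorem yy_fin (z : S) (p : A[X]) : (Set.range (yy z p)).Finite :=
  (funext (tau_coeff z p) : _ = _) ▸ fin_co (tau z p)

theorem yy_zero (z : S) {p : A[X]} {k : ℕ} (h : p.natDegree < k) : yy z p k = 0 := by
  rw [yy, hasseDeriv_eq_zero_of_lt_natDegree p k h, map_zero, mul_zero]

theorem core0 [IsNoetherianRing A] [Algebra ℚ A] {d r : ℕ} (hr : KF d r) {c : A} {a f : A[X]}
    (ha : a ∈ nonZeroDivisors A[X]) (hn : ∀ j, IsNilpotent (c * a.coeff (j + 1)))
    (hd : f.natDegree ≤ d) (h : ∀ m, 1 ≤ m → m ≤ r → ∃ h, C c * derivative h - a * h = f ^ m)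
    (J : Ideal A) (hJ : f ∈ J.map C) (K N : ℕ) (g : A[X]) (inj : Injective (algebraMap A[X] S))
    {b : S} (hb : algebraMap _ S a * b = 1) (sur : ∀ x : S, ∃ n, x ∈ span A[X] {b} ^ n)
    (δ : Derivation ℤ S S) (hδ : ∀ p : A[X], δ (algebraMap _ S p) = algebraMap _ S (derivative p)) :
    ∃ m₀, ∀ m, m₀ ≤ m → ∃ p ∈ (J ^ N).map (C : A →+* A[X]),
      C c * derivative (a ^ K * p) - a * (a ^ K * p) = g * f ^ m := by
  obtain ⟨z, hz⟩ : ∃ z, z = algebraMap _ S (C c) * b := ⟨_, rfl⟩
  have az : algebraMap _ S a * z = algebraMap _ S (C c) := by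
    rw [hz]; linear_combination algebraMap _ S (C c) * hb
  have n1 : ∀ k, IsNilpotent (yy z a (k + 1)) := fun k => by
    have : IsNilpotent (C c * hasseDeriv (k + 1) a) := Polynomial.isNilpotent_iff.2 fun i => by
      rw [coeff_C_mul, hasseDeriv_coeff, mul_left_comm]
      exact (Commute.all _ _).isNilpotent_mul_left (hn (i + k))
    have := (Commute.all (z ^ k * b) _).isNilpotent_mul_left (this.map (algebraMap _ S))
    rwa [show z ^ k * b * _ = yy z a (k + 1) by rw [yy, map_mul, pow_succ, hz]; ring] at this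
  let η : ℕ → S := fun k => yy z a (k + 1) * b
  let s : Set S := Set.range (yy z f) ∪ Set.range η
  have hs : s.Finite := (yy_fin z f).union (((yy_fin z a).image (· * b)).subset (by
    rintro _ ⟨k, rfl⟩; exact ⟨_, ⟨_, rfl⟩, rfl⟩))
  obtain ⟨M, hM⟩ := rees_pow hr a (tau z f)
    (natDegree_le_iff_coeff_eq_zero.2 fun k hk => by rw [tau_coeff, yy_zero z (hd.trans_lt hk)]) s hs
    (fun i => .inl ⟨i, (tau_coeff z f i).symm⟩) (by
      rintro _ (⟨i, rfl⟩ | ⟨i, rfl⟩)
      · exact .inr ⟨i, (tau_coeff z f i).symm⟩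
      · exact .inl ((Commute.all _ _).isNilpotent_mul_right (n1 i))) fun m m1 m2 => by
    obtain ⟨u, hu⟩ := h m m1 m2
    refine ⟨u, ?_⟩
    have t1 : tau z (C c) = C (algebraMap _ S a) * C z := by rw [← C_mul, az]; simp [tau]
    have t2 : tau z a - C (algebraMap _ S a) ∈ (nilradical S).map C := Ideal.mem_map_C_iff.2 fun i => by
      rw [coeff_sub, tau_coeff]
      rcases i with _ | i
      · simp [yy]
      · rw [coeff_C_succ, sub_zero]; exact n1 i
    have t3 : tau z f ^ m = algebraMap _ S a • (derivative (tau z u) - tau z u) -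
        (tau z a - C (algebraMap _ S a)) * tau z u := by
      rw [← map_pow, ← hu, map_sub, map_mul, map_mul, t1, tau_der, smul_eq_C_mul]; ring
    have := (mem_nilradical.1 (lf_mem _ (Ideal.mul_mem_right (tau z u) _ t2))).neg
    rwa [t3, map_sub, map_smul, lf_der, tau_coeff, map_mul (algebraMap _ S), yy, pow_zero, one_mul, hasseDeriv_zero',
      smul_neg, smul_eq_mul, sub_add_eq_add_sub, neg_add_cancel, zero_sub]
  have al : span A[X] {algebraMap _ S a} ≤ 1 := (span_singleton_le_iff_mem _ _).2 (algebraMap_mem a)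
  have rg := ring_of (hM.trans ((mul_le_mul_left al _).trans (one_mul _).le))
  have fg : ((span A[X] s ⊔ 1) ^ M).FG := ((fg_span hs).sup (by
    rw [one_eq_span]; exact fg_span_singleton _)).pow M
  have hc : ∀ n, ((span A[X] s ⊔ 1) ^ M) ^ n ≤ (span A[X] s ⊔ 1) ^ M := fun n => by
    rw [← pow_mul]; exact rg _
  have sc : span A[X] s ≤ (span A[X] s ⊔ 1) ^ M := (le_sup_left.trans (pow_one _).ge).trans (rg 1)
  generalize (span A[X] s ⊔ 1) ^ M = Cm at hM fg hc sc
  have ab : span A[X] {algebraMap _ S a} * span A[X] {b} = 1 := by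
    rw [span_mul_span, Set.singleton_mul_singleton, hb, one_eq_span]
  have b1 : 1 ≤ span A[X] {b} := ab.ge.trans ((mul_le_mul_left al _).trans (one_mul _).le)
  obtain ⟨e₁, g1⟩ := beta b1 sur _ (fg_span (yy_fin z g))
  obtain ⟨e₂, g2⟩ := beta b1 sur _ fg
  have sy : span A[X] (Set.range (yy z f)) ≤ span A[X] s := span_mono Set.subset_union_left
  let ι := (Algebra.ofId A[X] S).toLinearMap
  obtain ⟨m₀, hm⟩ := fin_le (d := d) (J := Submodule.map ι (J.map C)) hc (sy.trans sc)
    ((pow_le_pow_left' sy _).trans hM) (span_le.2 (by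
      rintro _ ⟨k, rfl⟩
      rcases le_or_gt k d with hk | hk
      · rw [show yy z f k = b ^ k * algebraMap _ S (C c ^ k * hasseDeriv k f) by
          rw [yy, hz, map_mul, map_pow]; ring]
        refine mul_mem_mul (pow_le_pow_right' b1 hk (pow_mem_pow _ (mem_span_singleton_self b) k))
          ⟨_, Ideal.mul_mem_left _ _ (Ideal.mem_map_C_iff.2 fun i => ?_), rfl⟩
        rw [hasseDeriv_coeff]
        exact J.mul_mem_left _ (Ideal.mem_map_C_iff.1 hJ _)
      · rw [yy_zero z (hd.trans_lt hk)]; exact zero_mem _)) g1 g2 ab K N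
  refine ⟨m₀, fun m m1 => ?_⟩
  let θ : Derivation ℤ S S := z • δ
  have θ1 : ∀ x, θ x = z * δ x := fun x => rfl
  have θb : θ b = -η 0 * b := by
    have := congrArg δ hb
    rw [δ.leibniz, hδ, δ.map_one_eq_zero, smul_eq_mul, smul_eq_mul] at this
    simp only [θ1, η, yy, zero_add, pow_one, hasseDeriv_one']
    linear_combination z * b * this - z * δ b * hb
  have θz : θ z = -η 0 * z := by
    rw [hz, θ.leibniz, θb, θ1 (algebraMap _ S _), hδ]; simp; ring
  have θy : ∀ (p : A[X]) (k : ℕ), θ (yy z p k) = (k + 1 : ℕ) * yy z p (k + 1) + (-k * η 0) * yy z p k := by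
    intro p k
    rw [yy, θ.leibniz, θ.leibniz_pow, θz, θ1, hδ, has1, yy, map_mul, map_natCast]
    rcases k with _ | k <;> simp <;> ring
  let E := Subring.closure (Set.range η)
  have e0 : ∀ k, η k ∈ E := fun k => Subring.subset_closure ⟨k, rfl⟩
  have e1 : ∀ x ∈ E, θ x ∈ E := by
    intro x hx
    induction hx using Subring.closure_induction with
    | mem x hx =>
      obtain ⟨k, rfl⟩ := hx
      rw [show θ (η k) = (k + 1 + 1 : ℕ) * η (k + 1) - (k + 1 + 1 : ℕ) * η 0 * η k by
        rw [θ.leibniz, θb, θy]; simp only [η, smul_eq_mul]; push_cast; ring]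
      exact sub_mem (mul_mem (natCast_mem _ _) (e0 _)) (mul_mem (mul_mem (natCast_mem _ _) (e0 _)) (e0 _))
    | zero => simp
    | one => simp
    | add x y _ _ u v => rw [map_add]; exact add_mem u v
    | neg x _ u => rw [map_neg]; exact neg_mem u
    | mul x y hx hy u v => rw [θ.leibniz]; exact add_mem (mul_mem hx v) (mul_mem hy u)
  have e2 : ∀ x ∈ E, x ∈ Cm := by
    intro x hx
    induction hx using Subring.closure_induction with
    | mem x hx => exact sc (subset_span (.inr hx))
    | zero => simp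
    | one => exact hc 0 (one_le.1 (pow_zero _).ge)
    | add x y _ _ u v => exact add_mem u v
    | neg x _ u => exact neg_mem u
    | mul x y _ _ u v => exact hc 2 (sq Cm ▸ mul_mem_mul u v)
  have e3 : ∀ p : A[X], ∀ x ∈ span E (Set.range (yy z p)), θ x ∈ span E (Set.range (yy z p)) :=
    fun p => st_span e1 (by
      rintro _ ⟨k, rfl⟩
      rw [θy]
      exact add_mem (smul_mem _ (⟨_, natCast_mem E _⟩ : E) (subset_span ⟨_, rfl⟩))
        (smul_mem _ (⟨_, mul_mem (neg_mem (natCast_mem E _)) (e0 0)⟩ : E) (subset_span ⟨_, rfl⟩)))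
  have e4 := st_mul (st_mul (e3 g) (st_pow e1 (e3 f) m)) (st_span (t := {b}) e1 (by
    rintro _ rfl
    rw [θb]
    exact smul_mem _ (⟨_, neg_mem (e0 0)⟩ : E) (subset_span rfl)))
  have e5 := cmp_mul (cmp_mul (cmp_span hc e2 (Set.range (yy z g)))
    (cmp_pow e2 (cmp_span hc e2 (Set.range (yy z f))) m)) (cmp_span hc e2 {b})
  have y0 : ∀ p : A[X], algebraMap _ S p ∈ span E (Set.range (yy z p)) := fun p =>
    subset_span ⟨0, by simp [yy]⟩
  have e6 : ∀ i, ∃ p ∈ (J ^ N).map (C : A →+* A[X]),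
      algebraMap _ S (a ^ K * p) = θ^[i] (algebraMap _ S (g * f ^ m) * b) := by
    intro i
    have : θ^[i] (algebraMap _ S (g * f ^ m) * b) ∈
        span E (Set.range (yy z g)) * span E (Set.range (yy z f)) ^ m * span E {b} := by
      induction i with
      | zero =>
        rw [iterate_zero_apply, map_mul, map_pow]
        exact mul_mem_mul (mul_mem_mul (y0 g) (pow_mem_pow _ (y0 f) m)) (subset_span rfl)
      | succ i ih => rw [iterate_succ_apply']; exact e4 _ ih
    have := hm m m1 (e5 _ this)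
    rw [span_pow, Set.singleton_pow, mem_span_singleton_mul, ← Submodule.map_pow] at this
    obtain ⟨_, ⟨p, hp, rfl⟩, e⟩ := this
    exact ⟨p, Ideal.map_pow C J N ▸ hp, by rw [← e, map_mul, map_pow]; rfl⟩
  choose p hp e7 using e6
  have rc : ∀ i, a * (a ^ K * p (i + 1)) = C c * derivative (a ^ K * p i) := fun i => inj (by
    rw [map_mul, e7, iterate_succ_apply', ← e7, θ1, hδ, ← mul_assoc, az, ← map_mul])
  obtain ⟨j, hj⟩ := IsNoetherianRing.isNilpotent_nilradical A
  have cn : C c * derivative a ∈ (nilradical A).map C := Ideal.mem_map_C_iff.2 fun i => by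
    rw [coeff_C_mul, coeff_derivative, ← mul_assoc]
    exact Ideal.mul_mem_right _ _ (mem_nilradical.2 (hn i))
  obtain ⟨n, hn⟩ := nilj ha (IsNoetherian.noetherian (nilradical A)) cn j (fun i => a ^ K * p i) rc
    fun x hx i => by rw [hj] at hx; rw [(Submodule.mem_bot _).1 hx, C_0, zero_mul]
  have r0 : a * (a ^ K * p 0) = g * f ^ m := inj (by
    rw [map_mul, e7, iterate_zero_apply, mul_left_comm, hb, mul_one])
  refine ⟨-∑ i ∈ Finset.range n, p i, neg_mem (sum_mem fun i _ => hp i), ?_⟩
  have : ∀ n, C c * derivative (a ^ K * -∑ i ∈ Finset.range n, p i) -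
      a * (a ^ K * -∑ i ∈ Finset.range n, p i) = g * f ^ m - a * (a ^ K * p n) := by
    intro n
    induction n with
    | zero => simp [r0]
    | succ n ih =>
      rw [Finset.sum_range_succ, neg_add, mul_add, map_add, mul_neg _ (p n), map_neg]
      linear_combination ih + rc n
  rw [this, show a ^ K * p n = 0 from hn n le_rfl, mul_zero, sub_zero]

theorem core [IsNoetherianRing A] [Algebra ℚ A] {d r : ℕ} (hr : KF d r) {c : A} {a f : A[X]}
    (ha : a ∈ nonZeroDivisors A[X]) (hn : ∀ j, IsNilpotent (c * a.coeff (j + 1)))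
    (hd : f.natDegree ≤ d) (h : ∀ m, 1 ≤ m → m ≤ r → ∃ h, C c * derivative h - a * h = f ^ m)
    (J : Ideal A) (hJ : f ∈ J.map C) (K N : ℕ) (g : A[X]) :
    ∃ m₀, ∀ m, m₀ ≤ m → ∃ p ∈ (J ^ N).map (C : A →+* A[X]),
      C c * derivative (a ^ K * p) - a * (a ^ K * p) = g * f ^ m := by
  obtain ⟨δ, hδ⟩ := der a (Localization.Away a)
  refine core0 hr ha hn hd h J hJ K N g
    (IsLocalization.injective _ ((Submonoid.powers_le (P := nonZeroDivisors A[X])).2 ha))
    (IsLocalization.Away.mul_invSelf a) (fun x => ?_) δ hδ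
  obtain ⟨n, u, e⟩ := IsLocalization.Away.surj a x
  refine ⟨n, ?_⟩
  have := smul_mem _ u (pow_mem_pow _ (mem_span_singleton_self (R := A[X])
    (IsLocalization.Away.invSelf (S := Localization.Away a) a)) n)
  rwa [Algebra.smul_def, ← e, mul_assoc, ← mul_pow, IsLocalization.Away.mul_invSelf, one_pow,
    mul_one] at this

end Pool.Agent.H22.Img
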