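import Pool.Agent.H22.Img4

namespace Pool.Agent.H22.Img

open Polynomial Function

variable {A B : Type} [CommRing A] [CommRing B]

theorem map_eq0 (I : Ideal A) (q : A[X]) : q.map (Ideal.Quotient.mk I) = 0 ↔ q ∈ I.map C := by
  simp [Polynomial.ext_iff, Ideal.mem_map_C_iff, Ideal.Quotient.eq_zero_iff_mem]

theorem liftI {π : A →+* B} (hπ : Surjective π) (J : Ideal A) (N : ℕ) {q : B[X]}
    (h : q ∈ (J.map π ^ N).map C) : ∃ p ∈ (J ^ N).map (C : A →+* A[X]), p.map π = q := by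
  rw [← Ideal.map_pow, Ideal.map_map, ← mapRingHom_comp_C, ← Ideal.map_map] at h
  exact (Ideal.mem_map_iff_of_surjective (mapRingHom π) (map_surjective π hπ)).1 h

theorem dmap (π : A →+* B) (c : A) (a h : A[X]) : (C c * derivative h - a * h).map π =
    C (π c) * derivative (h.map π) - a.map π * h.map π := by
  simp [derivative_map]

theorem dpow (c : A) (a p : A[X]) (e : ℕ) :
    ∃ ρ, C c * derivative (a ^ (e + 1) * p) - a * (a ^ (e + 1) * p) = a ^ e * ρ :=
  ⟨C c * (C ((e : A) + 1) * derivative a * p + a * derivative p) - a * a * p, by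
    rw [derivative_mul, derivative_pow_succ]; ring⟩

theorem self_mem (a : A[X]) : a ∈ (Ideal.span (Set.range a.coeff)).map (C : A →+* A[X]) :=
  Ideal.mem_map_C_iff.2 fun i => Ideal.subset_span ⟨i, rfl⟩

theorem map_mem (π : A →+* B) {J : Ideal A} {f : A[X]} (h : f ∈ J.map C) :
    f.map π ∈ (J.map π).map (C : B →+* B[X]) :=
  Ideal.mem_map_C_iff.2 fun i => coeff_map π i ▸ Ideal.mem_map_of_mem _ (Ideal.mem_map_C_iff.1 h i)

variable [Algebra ℚ A]

theorem tors [IsNoetherianRing A] {d r : ℕ} (hr : KF d r) (r1 : 1 ≤ r) {c : A} {a f : A[X]}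
    (hn : ∀ j, IsNilpotent (c * a.coeff (j + 1))) (hd : f.natDegree ≤ d)
    (h : ∀ m, 1 ≤ m → m ≤ r → ∃ h, C c * derivative h - a * h = f ^ m)
    (J : Ideal A) (hJ : f ∈ J.map C) (N : ℕ) (g : A[X]) :
    ∃ m₀, ∀ m, m₀ ≤ m → ∃ p ∈ (J ^ N).map (C : A →+* A[X]),
      C c * derivative p - a * p = g * f ^ m := by
  have aT := self_mem a
  set T := Ideal.span (Set.range a.coeff)
  obtain ⟨e, he⟩ := monotone_stabilizes_iff_noetherian.2 (inferInstance : IsNoetherian A A)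
    ⟨fun e => (T ^ e).annihilator, fun _ _ h => Submodule.annihilator_mono (Ideal.pow_le_pow_right h)⟩
  have he' : (T ^ e).annihilator = (T ^ (e + 1)).annihilator := he _ (Nat.le_succ e)
  set b := (T ^ e).annihilator with hb
  let π := Ideal.Quotient.mk b
  have ha : a.map π ∈ nonZeroDivisors (A ⧸ b)[X] := by
    by_contra k
    obtain ⟨x, x0, hx⟩ := Polynomial.notMem_nonZeroDivisors_iff.1 k
    obtain ⟨x, rfl⟩ := Ideal.Quotient.mk_surjective x
    rw [smul_eq_C_mul, ← map_C, ← Polynomial.map_mul, map_eq0, Ideal.mem_map_C_iff] at hx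
    have : T ≤ Submodule.comap (LinearMap.mul A A x) b := Ideal.span_le.2 (by
      rintro _ ⟨i, rfl⟩
      simpa using hx i)
    refine x0 (Ideal.Quotient.eq_zero_iff_mem.2 (he' ▸ Submodule.mem_annihilator.2 fun y hy => ?_))
    refine Submodule.mul_induction_on (C := fun y => x • y = 0) (pow_succ T e ▸ hy) (fun u hu v hv => ?_)
      fun u v s t => by rw [smul_add, s, t, add_zero]
    have := Submodule.mem_annihilator.1 (this hv) u hu
    simp only [smul_eq_mul, LinearMap.mul_apply'] at this ⊢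
    linear_combination this
  have ki : ∀ σ ∈ b.map (C : A →+* A[X]), a ^ e * σ = 0 := fun σ hσ => by
    have := co_mul hσ (Ideal.map_pow C T e ▸ Ideal.pow_mem_pow aT e)
    rwa [hb, Submodule.annihilator_mul, Ideal.map_bot, Ideal.mem_bot, mul_comm] at this
  have co := core hr ha (c := π c) (f := f.map π) (fun j => by
    rw [coeff_map, ← map_mul]; exact (hn j).map π) (natDegree_map_le.trans hd) (fun m m1 m2 => by
    obtain ⟨u, hu⟩ := h m m1 m2
    exact ⟨u.map π, by rw [← dmap, hu, Polynomial.map_pow]⟩) _ (map_mem π hJ) (e + 1)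
  have co' : ∀ N g, ∃ m₀, ∀ m, m₀ ≤ m → ∃ p ∈ (J ^ N).map (C : A →+* A[X]),
      C c * derivative (a ^ (e + 1) * p) - a * (a ^ (e + 1) * p) - g * f ^ m ∈ b.map C := fun N g => by
    obtain ⟨m₀, hm⟩ := co N (g.map π)
    refine ⟨m₀, fun m k => ?_⟩
    obtain ⟨q, q1, q2⟩ := hm m k
    obtain ⟨p, p1, rfl⟩ := liftI Ideal.Quotient.mk_surjective J N q1
    refine ⟨p, p1, ?_⟩
    rw [← map_eq0, Polynomial.map_sub, dmap]
    simpa only [Polynomial.map_mul, Polynomial.map_pow, sub_eq_zero] using q2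
  obtain ⟨M, hM⟩ := co' 0 1
  obtain ⟨p₀, -, h0⟩ := hM M le_rfl
  obtain ⟨ρ, hρ⟩ := dpow c a p₀ e
  rw [hρ, one_mul] at h0
  obtain ⟨m₁, hm⟩ := co' N g
  obtain ⟨h₁, e1⟩ := h 1 le_rfl r1
  have f1 : f ^ (e + e) ∈ Ideal.span {C c} ^ e ⊔ Ideal.span {a} ^ e :=
    Ideal.sup_pow_add_le_pow_sup_pow (Ideal.pow_mem_pow (by
      rw [← pow_one f, ← e1]
      exact sub_mem (Ideal.mem_sup_left (Ideal.mul_mem_right _ _ (Ideal.subset_span rfl)))
        (Ideal.mem_sup_right (Ideal.mul_mem_right _ _ (Ideal.subset_span rfl)))) _)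
  rw [Ideal.span_singleton_pow, Ideal.span_singleton_pow, ← Ideal.span_insert,
    Ideal.mem_span_pair] at f1
  obtain ⟨u, v, huv⟩ := f1
  refine ⟨M + (e + e) + N + m₁, fun m k => ?_⟩
  obtain ⟨p, p1, p2⟩ := hm m (by omega)
  obtain ⟨t, rfl⟩ := Nat.exists_eq_add_of_le (show M + (e + e) + N ≤ m by omega)
  obtain ⟨ρ', hρ'⟩ := dpow c a p e
  have s1 : a ^ e * (ρ' - g * f ^ (e + e + N + t) * ρ) ∈ b.map C := by
    convert sub_mem p2 (Ideal.mul_mem_left _ (g * f ^ (e + e + N + t)) h0) using 1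
    rw [hρ']; ring
  rw [← map_eq0, Polynomial.map_mul, Polynomial.map_pow] at s1
  have s2 := ki _ ((map_eq0 _ _).1 ((pow_mem ha e).1 _ s1))
  obtain ⟨w, w1, w2⟩ := lemT c aT (J ^ N) e (g * f ^ t * u * (f ^ N * (a ^ e * ρ - f ^ M)))
    (Ideal.mul_mem_left _ _ (Ideal.map_mono Ideal.mul_le_inf
      (co_mul (Ideal.map_pow C J N ▸ Ideal.pow_mem_pow hJ N) h0)))
  refine ⟨a ^ (e + 1) * p - w, sub_mem (Ideal.mul_mem_left _ _ p1) w1, ?_⟩
  rw [map_sub]
  linear_combination hρ' - w2 + s2 + g * f ^ (N + t) * v * ki _ h0 -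
    g * f ^ (N + t) * (a ^ e * ρ - f ^ M) * huv

theorem noe [IsNoetherianRing A] {d r : ℕ} (hr : KF d r) (r1 : 1 ≤ r) {c : A} {a f : A[X]}
    (hn : ∀ j i, IsNilpotent (c * a.coeff (j + 1) * f.coeff i)) (hd : f.natDegree ≤ d)
    (h : ∀ m, 1 ≤ m → m ≤ r → ∃ h, C c * derivative h - a * h = f ^ m) (g : A[X]) :
    ∃ m₀, ∀ m, m₀ ≤ m → ∃ p, C c * derivative p - a * p = g * f ^ m := by
  have hJ := self_mem f
  let I := Ideal.span (Set.range fun j => c * a.coeff (j + 1))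
  obtain ⟨N, hN⟩ := IsNoetherianRing.isNilpotent_nilradical A
  have ij : I * Ideal.span (Set.range f.coeff) ≤ nilradical A := by
    rw [Ideal.span_mul_span', Ideal.span_le]
    rintro _ ⟨_, ⟨j, rfl⟩, _, ⟨i, rfl⟩, rfl⟩
    exact mem_nilradical.2 (hn j i)
  generalize Ideal.span (Set.range f.coeff) = J at hJ ij
  obtain ⟨k, hk⟩ := I.exists_pow_inf_eq_pow_smul (M := A) (J ^ N)
  have z : I ^ (N + k) ⊓ J ^ N ≤ ⊥ := by
    have := hk (N + k) (by omega)
    rw [smul_eq_mul, Ideal.mul_top, Nat.add_sub_cancel] at this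
    rw [this]
    refine (Ideal.mul_mono_right inf_le_right).trans ?_
    rw [← mul_pow]
    exact (Ideal.pow_right_mono ij N).trans hN.le
  let π := Ideal.Quotient.mk (I ^ (N + k))
  obtain ⟨m₀, hm⟩ := tors hr r1 (c := π c) (a := a.map π) (f := f.map π) (fun j => ⟨N + k, by
    rw [coeff_map, ← map_mul, ← map_pow, Ideal.Quotient.eq_zero_iff_mem]
    exact Ideal.pow_mem_pow (Ideal.subset_span (Set.mem_range_self j)) _⟩) (natDegree_map_le.trans hd)
    (fun m m1 m2 => by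
      obtain ⟨u, hu⟩ := h m m1 m2
      exact ⟨u.map π, by rw [← dmap, hu, Polynomial.map_pow]⟩) _ (map_mem π hJ) N (g.map π)
  refine ⟨m₀ + N, fun m l => ?_⟩
  obtain ⟨q, q1, q2⟩ := hm m (by omega)
  obtain ⟨p, p1, rfl⟩ := liftI Ideal.Quotient.mk_surjective J N q1
  rw [← dmap, ← Polynomial.map_pow, ← Polynomial.map_mul, ← sub_eq_zero, ← Polynomial.map_sub,
    map_eq0] at q2
  have q3 : C c * derivative p - a * p - g * f ^ m ∈ (J ^ N).map C := by
    refine sub_mem (sub_mem (Ideal.mul_mem_left _ _ (Ideal.mem_map_C_iff.2 fun i => ?_))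
      (Ideal.mul_mem_left _ _ p1)) (Ideal.mul_mem_left _ _ ?_)
    · rw [coeff_derivative]
      exact Ideal.mul_mem_right _ _ (Ideal.mem_map_C_iff.1 p1 _)
    · rw [Ideal.map_pow]
      exact Ideal.pow_le_pow_right (by omega) (Ideal.pow_mem_pow hJ m)
  refine ⟨p, sub_eq_zero.1 (Polynomial.ext fun i => ?_)⟩
  exact z ⟨Ideal.mem_map_C_iff.1 q2 i, Ideal.mem_map_C_iff.1 q3 i⟩

theorem main (c : A) (a f g : A[X])
    (h : ∀ m, 1 ≤ m → ∃ h, C c * derivative h - a * h = f ^ m) :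
    ∃ m₀, ∀ m, m₀ ≤ m → ∃ p, C c * derivative p - a * p = g * f ^ m := by
  have hn : ∀ j i, IsNilpotent (c * a.coeff (j + 1) * f.coeff i) := fun j i =>
    nilpotent_iff_mem_prime.2 fun P _ => by
      obtain ⟨K, _, _, _, ψ, hψ⟩ := toK A P
      rw [← hψ, map_mul, map_mul, ← coeff_map, ← coeff_map]
      by_contra k
      simp only [mul_eq_zero, not_or] at k
      refine k.2 ?_
      rw [fld (f := f.map ψ) (a := a.map ψ) k.1.1
        (fun e => k.1.2 (coeff_eq_zero_of_natDegree_lt (by omega))) fun m hm => by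
          obtain ⟨u, hu⟩ := h m hm
          exact ⟨u.map ψ, by rw [← dmap, hu, Polynomial.map_pow]⟩, coeff_zero]
  obtain ⟨r, hr⟩ := kfin f.natDegree
  choose! u hu using h
  let s : Set A := insert c (Set.range a.coeff ∪ Set.range f.coeff ∪ Set.range g.coeff ∪
    ⋃ m ≤ r + 1, Set.range (u m).coeff)
  have hs : s.Finite := ((((fin_co a).union (fin_co f)).union (fin_co g)).union
    ((Set.finite_Iic (r + 1)).biUnion fun m _ => fin_co _)).insert c
  let T := Algebra.adjoin ℚ s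
  have : IsNoetherianRing T := isNoetherianRing_of_fg (Subalgebra.fg_def.2 ⟨s, hs, rfl⟩)
  have inj : Injective T.val.toRingHom := Subtype.val_injective
  have l : ∀ q : A[X], Set.range q.coeff ⊆ s → ∃ q₀ : T[X], q₀.map T.val.toRingHom = q := fun q hq =>
    lift _ q fun i => ⟨⟨_, Algebra.subset_adjoin (hq ⟨i, rfl⟩)⟩, rfl⟩
  obtain ⟨a₀, ha⟩ := l a fun x hx => .inr (.inl (.inl (.inl hx)))
  obtain ⟨f₀, hf⟩ := l f fun x hx => .inr (.inl (.inl (.inr hx)))
  obtain ⟨g₀, hg⟩ := l g fun x hx => .inr (.inl (.inr hx))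
  obtain ⟨m₀, hm⟩ := noe (A := T) (d := f.natDegree) (r := r + 1)
    (fun S _ _ φ a P b c => hr S φ a P b fun m x y => c m x (by omega)) (by omega)
    (c := ⟨c, Algebra.subset_adjoin (.inl rfl)⟩) (a := a₀) (f := f₀) (fun j i =>
      (IsNilpotent.map_iff inj).1 (by
        rw [map_mul, map_mul, ← coeff_map, ← coeff_map, ha, hf]; exact hn j i))
    (by rw [← hf, natDegree_map_eq_of_injective inj]) (fun m m1 m2 => by
      obtain ⟨v, hv⟩ := l (u m) fun x hx => .inr (.inr (Set.mem_biUnion (s := Set.Iic _) m2 hx))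
      exact ⟨v, map_injective _ inj (by rw [dmap, hv, ha, Polynomial.map_pow, hf]; exact hu m m1)⟩) g₀
  refine ⟨m₀, fun m k => ?_⟩
  obtain ⟨p, hp⟩ := hm m k
  have := congrArg (map T.val.toRingHom) hp
  rw [dmap, ha, Polynomial.map_mul, Polynomial.map_pow, hf, hg] at this
  exact ⟨_, this⟩

end Pool.Agent.H22.Img
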