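import Pool.Agent.H22.Img5

namespace Pool.Agent.H22.Img

open Polynomial Function

variable {K : Type} [Field K]

theorem finB {f : K[X]} (hf : f.natDegree ≠ 0) : IsNoetherian (Algebra.adjoin K {f}) K[X] := by
  have : IsNoetherianRing (Algebra.adjoin K {f}) :=
    isNoetherianRing_of_fg (Subalgebra.fg_def.2 ⟨_, Set.finite_singleton f, rfl⟩)
  have f0 : f ≠ 0 := fun e => hf (by simp [e])
  obtain ⟨s, hs⟩ : (degreeLT K f.natDegree).FG := Module.Finite.iff_fg.1
    (Module.Finite.equiv (degreeLTEquiv K f.natDegree).symm)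
  have : Module.Finite (Algebra.adjoin K {f}) K[X] := ⟨⟨s, eq_top_iff.2 fun h _ => by
    induction hn : h.natDegree using Nat.strong_induction_on generalizing h with
    | _ n ih =>
      have m : h % f ∈ Submodule.span (Algebra.adjoin K {f}) (s : Set K[X]) :=
        Submodule.span_le_restrictScalars K _ _ (hs ▸ mem_degreeLT.2
          (degree_eq_natDegree f0 ▸ degree_mod_lt h f0))
      rw [← EuclideanDomain.div_add_mod h f]
      refine add_mem ?_ m
      by_cases z : h / f = 0
      · rw [z, mul_zero]; exact zero_mem _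
      · refine Submodule.smul_mem _ (⟨f, Algebra.self_mem_adjoin_singleton K f⟩ : Algebra.adjoin K {f})
          (ih _ (hn ▸ natDegree_lt_natDegree z (degree_div_lt (fun e => z (by simp [e]))
            (natDegree_pos_iff_degree_pos.1 (Nat.pos_of_ne_zero hf)))) _ trivial rfl)⟩⟩
  infer_instance

theorem stab {f : K[X]} (hf : f.natDegree ≠ 0) (V : Submodule K K[X]) :
    ∃ N, ∀ r, (∀ m, 1 ≤ m → f ^ (N + 1) * r * f ^ m ∈ V) → f ^ (N + 1) * r ∈ V := by
  have := finB hf
  let F : ℕ →o Submodule (Algebra.adjoin K {f}) K[X] := ⟨fun j =>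
    { carrier := {r | ∀ m, j < m → r * f ^ m ∈ V}
      add_mem' := fun u v m hm => add_mul _ _ (f ^ m) ▸ add_mem (u m hm) (v m hm)
      zero_mem' := fun m _ => by simp
      smul_mem' := fun ⟨b, hb⟩ r hr => by
        show ∀ m, j < m → b * r * f ^ m ∈ V
        induction hb using Algebra.adjoin_induction generalizing r with
        | mem x hx =>
          intro m hm
          rw [hx, mul_comm f, mul_assoc, ← pow_succ']
          exact hr _ (by omega)
        | algebraMap c => exact fun m hm => by rw [mul_assoc, ← Algebra.smul_def]; exact V.smul_mem _ (hr m hm)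
        | add x y _ _ u v => exact fun m hm => by rw [add_mul, add_mul]; exact add_mem (u r hr m hm) (v r hr m hm)
        | mul x y _ _ u v => rw [mul_assoc x]; exact u _ (v r hr) }, fun i j h r hr m hm => hr m (by omega)⟩
  obtain ⟨N, hN⟩ := monotone_stabilizes_iff_noetherian.2 this F
  refine ⟨N, fun r h => ?_⟩
  have : r ∈ F (N + 1) := fun m hm => by
    have := h (m - (N + 1)) (by omega)
    rwa [mul_comm _ r, mul_assoc, ← pow_add, Nat.add_sub_cancel' hm.le] at this
  rw [← hN _ (Nat.le_succ N)] at this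
  exact mul_comm r _ ▸ this _ (Nat.lt_succ_self N)

variable [CharZero K]

theorem inj_loc {σ τ q s : K[X]} {ρ : K} (e : σ * q = (X - C ρ) * s) (hs : s.eval ρ ≠ 0)
    (H : σ.eval ρ = 0 → ∀ j : ℕ, τ.eval ρ + j * (derivative σ).eval ρ ≠ 0) (n : ℕ) (h : K[X])
    (d : (X - C ρ) ^ n ∣ σ * derivative (q * h) + τ * (q * h)) : (X - C ρ) ^ n ∣ h := by
  induction n with
  | zero => simp
  | succ n ih =>
    obtain ⟨k, rfl⟩ := ih ((pow_dvd_pow _ n.le_succ).trans d)
    have a : σ * derivative (q * ((X - C ρ) ^ n * k)) + τ * (q * ((X - C ρ) ^ n * k)) =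
        (X - C ρ) ^ n * (σ * derivative (q * k) + τ * q * k + (n : K[X]) * s * k) := by
      rcases n with _ | n
      · simp [mul_assoc]
      · simp only [derivative_mul, derivative_pow_succ, derivative_X_sub_C, map_add, map_natCast, map_one]
        push_cast
        linear_combination (((n : K[X]) + 1) * (X - C ρ) ^ n * k) * e
    rw [a, pow_succ, mul_dvd_mul_iff_left (pow_ne_zero _ (X_sub_C_ne_zero ρ)), dvd_iff_isRoot] at d
    rw [pow_succ]
    refine mul_dvd_mul_left _ (dvd_iff_isRoot.2 ?_)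
    have e1 := congrArg (Polynomial.eval ρ) e
    have e2 := congrArg (fun p => Polynomial.eval ρ (derivative p)) e
    simp only [IsRoot, derivative_mul, eval_add, eval_mul, eval_natCast, eval_sub, eval_X, eval_C,
      sub_self, zero_mul, derivative_X_sub_C, eval_one, one_mul, add_zero] at d e1 e2
    rcases mul_eq_zero.1 e1 with z | z
    · rw [z] at d e2
      refine (mul_eq_zero.1 (?_ : _ * (q.eval ρ * _) = 0)).resolve_right
        (mul_ne_zero (fun w => hs (by rw [← e2, w]; simp)) (H z n))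
      linear_combination d + n * k.eval ρ * e2
    · rw [z] at d e2
      refine (mul_eq_zero.1 (?_ : _ * ((n + 1) * s.eval ρ) = 0)).resolve_right
        (mul_ne_zero (Nat.cast_add_one_ne_zero (R := K) n) hs)
      linear_combination d - k.eval ρ * e2

theorem gen [IsAlgClosed K] {σ τ f : K[X]} (H : ∀ ρ, σ.eval ρ = 0 → (derivative σ).eval ρ ≠ 0 ∧
    ∀ j : ℕ, τ.eval ρ + j * (derivative σ).eval ρ ≠ 0)
    (h : ∀ m, 1 ≤ m → ∃ k, σ * derivative k + τ * k = f ^ m) :
    f = 0 ∨ ∃ k, σ * derivative k + τ * k = 1 := by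
  classical
  refine or_iff_not_imp_left.2 fun f0 => ?_
  by_cases hf : f.natDegree = 0
  · obtain ⟨k, hk⟩ := h 1 le_rfl
    obtain ⟨c, rfl⟩ := natDegree_eq_zero.1 hf
    refine ⟨C c⁻¹ * k, ?_⟩
    have : C c⁻¹ * C c = 1 := by rw [← C_mul, inv_mul_cancel₀ (C_ne_zero.1 f0), C_1]
    rw [derivative_C_mul]
    linear_combination C c⁻¹ * hk + this
  have s0 : σ ≠ 0 := fun e => (H 0 (by simp [e])).1 (by simp [e])
  have d0 : derivative f ≠ 0 := fun e => hf (derivative_eq_zero.1 e)
  have p0 := mul_ne_zero s0 d0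
  let Λ : K[X] →ₗ[K] K[X] := LinearMap.mulLeft K σ ∘ₗ derivative + LinearMap.mulLeft K τ
  let W : Submodule K K[X] := ⨅ m, ⨅ _ : 1 ≤ m, (LinearMap.range Λ).comap (LinearMap.mulRight K (f ^ m))
  have w0 : ∀ r, r ∈ W ↔ ∀ m, 1 ≤ m → r * f ^ m ∈ LinearMap.range Λ := fun r => by simp [W]
  let t := (σ * derivative f).roots.filter (f.eval · ≠ 0)
  let G := (t.map fun ρ => f - C (f.eval ρ)).prod
  obtain ⟨q, hq⟩ : σ * derivative f ∣ G * f := by
    rw [(IsAlgClosed.splits (σ * derivative f)).eq_prod_roots, C_mul_dvd (leadingCoeff_ne_zero.2 p0),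
      ← Multiset.filter_add_not (f.eval · ≠ 0) (σ * derivative f).roots, Multiset.map_add,
      Multiset.prod_add]
    refine mul_dvd_mul (Multiset.prod_dvd_prod_of_dvd _ _ fun _ _ => X_sub_C_dvd_sub_C_eval)
      ((Multiset.prod_X_sub_C_dvd_iff_le_roots f0 _).2 (Multiset.le_iff_count.2 fun ρ => ?_))
    rw [Multiset.count_filter]
    split_ifs with z
    · exact Nat.zero_le _
    · rw [Ne, not_not] at z
      rw [count_roots, count_roots, rootMultiplicity_mul p0, derivative_rootMultiplicity_of_root z]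
      have := (rootMultiplicity_pos f0).2 z
      have := mt (one_lt_rootMultiplicity_iff_isRoot (t := ρ) s0).1 fun a => (H ρ a.1).1 a.2
      omega
  have g1 : ∀ r ∈ W, G * r ∈ W := by
    simp only [G]
    induction t using Multiset.induction_on with
    | empty => simp
    | cons a t ih =>
      intro r hr
      rw [Multiset.map_cons, Multiset.prod_cons, mul_assoc, sub_mul, ← smul_eq_C_mul]
      refine sub_mem ((w0 _).2 fun m hm => ?_) (W.smul_mem _ (ih r hr))
      rw [mul_comm f, mul_assoc, ← pow_succ']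
      exact (w0 _).1 (ih r hr) _ (by omega)
  have g2 : ∀ ρ, f.eval ρ = 0 → G.eval ρ ≠ 0 := fun ρ z => by
    rw [eval_multiset_prod, Multiset.map_map]
    refine Multiset.prod_ne_zero fun a => ?_
    obtain ⟨x, x1, x2⟩ := Multiset.mem_map.1 a
    simp [z] at x2
    exact (Multiset.mem_filter.1 x1).2 x2
  let A : K[X] →ₗ[K] K[X] := Λ ∘ₗ LinearMap.mulLeft K q
  have a0 : ∀ r, A r = σ * derivative (q * r) + τ * (q * r) := fun r => rfl
  have a1 : ∀ r m, A (r * f ^ (m + 1)) = A r * f ^ (m + 1) + ((m + 1 : ℕ) : K) • (G * r * f ^ (m + 1)) := by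
    intro r m
    simp only [a0, derivative_mul, derivative_pow_succ, smul_eq_C_mul]
    push_cast
    linear_combination -(C ((m : K) + 1) * r * f ^ m) * hq
  have a2 : ∀ r ∈ W, A r ∈ W := fun r hr => (w0 _).2 fun m hm => by
    obtain ⟨m, rfl⟩ := Nat.exists_eq_add_of_le' hm
    rw [eq_sub_of_add_eq (a1 r m).symm]
    exact sub_mem ⟨_, rfl⟩ (Submodule.smul_mem _ _ ((w0 _).1 (g1 r hr) _ hm))
  obtain ⟨N, hN⟩ := stab hf (LinearMap.range Λ)
  have fN := pow_ne_zero (N + 1) f0
  have a3 : ∀ r, f ^ (N + 1) ∣ A r → f ^ (N + 1) ∣ r := fun r hr => by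
    rcases eq_or_ne r 0 with rfl | r0
    · simp
    refine (IsAlgClosed.splits _).dvd_of_roots_le_roots fN (Multiset.le_iff_count.2 fun ρ => ?_)
    rw [count_roots, count_roots, le_rootMultiplicity_iff r0]
    by_cases z : f.eval ρ = 0
    · have G0 : G ≠ 0 := fun e => g2 ρ z (by simp [e])
      have q0 : σ * q ≠ 0 := mul_ne_zero s0 fun e => mul_ne_zero G0 f0 (by simp [hq, e])
      have := congrArg (rootMultiplicity ρ) hq
      rw [mul_right_comm, rootMultiplicity_mul (mul_ne_zero G0 f0), rootMultiplicity_mul (mul_ne_zero q0 d0),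
        derivative_rootMultiplicity_of_root z, rootMultiplicity_eq_zero (g2 ρ z)] at this
      have y := (rootMultiplicity_pos f0).2 z
      obtain ⟨s, s1, s2⟩ := exists_eq_pow_rootMultiplicity_mul_and_not_dvd _ q0 ρ
      rw [show rootMultiplicity ρ (σ * q) = 1 by omega, pow_one] at s1
      exact inj_loc s1 (mt dvd_iff_isRoot.2 s2) (fun a => (H ρ a).2) _ _
        ((pow_rootMultiplicity_dvd _ _).trans hr)
    · rw [rootMultiplicity_eq_zero (by simp [z]), pow_zero]; exact one_dvd _
  let I := (Ideal.span {f ^ (N + 1)}).restrictScalars K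
  have i0 : ∀ r, r ∈ I ↔ f ^ (N + 1) ∣ r := fun r => Ideal.mem_span_singleton
  have : Module.Finite K (K[X] ⧸ I) :=
    have : Module.Finite K (K[X] ⧸ Ideal.span {f ^ (N + 1)}) := (AdjoinRoot.powerBasis fN).finite
    Module.Finite.equiv (Submodule.Quotient.restrictScalarsEquiv K (Ideal.span {f ^ (N + 1)})).symm
  let B := I.mapQ I A fun r hr => by
    obtain ⟨u, rfl⟩ := (i0 r).1 hr
    rw [Submodule.mem_comap, i0, mul_comm, a1, smul_eq_C_mul, ← mul_assoc, ← add_mul]
    exact dvd_mul_left _ _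
  have b1 : Injective B := LinearMap.ker_eq_bot.1 (by
    rw [Submodule.ker_mapQ, eq_bot_iff]
    rintro _ ⟨r, hr, rfl⟩
    exact (Submodule.Quotient.mk_eq_zero _).2 ((i0 r).2 (a3 r ((i0 _).1 hr))))
  have b2 : (W.map I.mkQ).map B = W.map I.mkQ := Submodule.eq_of_le_of_finrank_eq (by
    rintro _ ⟨_, ⟨r, hr, rfl⟩, rfl⟩
    exact ⟨A r, a2 r hr, rfl⟩) (Submodule.equivMapOfInjective B b1 _).finrank_eq.symm
  have w1 : (1 : K[X]) ∈ W := (w0 _).2 fun m hm => by rw [one_mul]; exact h m hm
  obtain ⟨_, ⟨r, hr, rfl⟩, e⟩ := b2.ge ⟨1, w1, rfl⟩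
  obtain ⟨u, hu⟩ := (i0 _).1 ((Submodule.Quotient.eq I).1 (show _ = _ from e) : A r - 1 ∈ I)
  have := sub_mem (⟨_, rfl⟩ : A r ∈ LinearMap.range Λ)
    (hN u ((w0 _).1 (hu ▸ sub_mem (a2 r hr) w1)))
  rw [← hu, sub_sub_cancel] at this
  exact this

theorem surj1 (ρ l : K) (hl : ∀ n : ℕ, l + n ≠ 0) (P : K[X]) :
    ∃ k, (X - C ρ) * derivative k + C l * k = P := by
  refine ⟨(taylor ρ P).sum fun i a => C (a / (l + i)) * (X - C ρ) ^ i, ?_⟩
  conv_rhs => rw [← sum_taylor_eq P ρ]
  simp only [sum_def, map_sum, Finset.mul_sum, ← Finset.sum_add_distrib]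
  refine Finset.sum_congr rfl fun i _ => ?_
  have : C ((taylor ρ P).coeff i / (l + i)) * (C l + i) = C ((taylor ρ P).coeff i) := by
    rw [← map_natCast C, ← C_add, ← C_mul, div_mul_cancel₀ _ (hl i)]
  rw [derivative_C_mul, ← this]
  rcases i with _ | i
  · simp [mul_comm]
  · rw [derivative_pow_succ, derivative_X_sub_C, map_add, map_natCast, C_1]; push_cast; ring

theorem nodeg {σ τ k : K[X]} (hs : σ.natDegree ≤ 2) (ht : τ.natDegree ≤ 1)
    (h : ∀ n : ℕ, τ.coeff 1 + n * σ.coeff 2 ≠ 0) : σ * derivative k + τ * k ≠ 1 := fun e => by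
  have k0 : k ≠ 0 := fun z => by simp [z] at e
  have := congrArg (coeff · (k.natDegree + 1)) e
  simp only [coeff_add, coeff_one, Nat.succ_ne_zero, if_false] at this
  rw [add_comm k.natDegree, coeff_mul_add_eq_of_natDegree_le ht le_rfl] at this
  refine mul_ne_zero (h k.natDegree) (leadingCoeff_ne_zero.2 k0) ?_
  rcases hn : k.natDegree with _ | n
  · rw [derivative_eq_zero.2 hn] at this
    simpa [hn, leadingCoeff] using this
  · rw [hn, show 1 + (n + 1) = 2 + n by omega, coeff_mul_add_eq_of_natDegree_le hs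
      ((natDegree_derivative_le k).trans (by omega)), coeff_derivative] at this
    rw [leadingCoeff, hn]
    push_cast
    linear_combination this

end Pool.Agent.H22.Img
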