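import Mathlib

set_option autoImplicit false

namespace Pool.Agent.H22.Incl

/-- `S` satisfies the identical inclusion `p.1 ∈ p.2` over the alphabet `ℕ`. -/
def Sat (S : Semigrp.{0}) (p : FreeSemigroup ℕ × Set (FreeSemigroup ℕ)) : Prop :=
  ∀ φ : FreeSemigroup ℕ →ₙ* S, ∃ v ∈ p.2, φ p.1 = φ v

/-- `K` is the class of all semigroups satisfying some set of identical inclusions. -/
def IsInclusiveVariety (K : Set Semigrp.{0}) : Prop :=
  ∃ Λ : Set (FreeSemigroup ℕ × Set (FreeSemigroup ℕ)),
    (∀ p ∈ Λ, p.2.Nonempty) ∧ K = {S | ∀ p ∈ Λ, Sat S p}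

/-- The inclusive variety generated by `S`. -/
def Generated (S : Semigrp.{0}) : Set Semigrp.{0} := {T | ∀ p, Sat S p → Sat T p}

/-- The first-order language with one binary operation symbol. -/
def mulLang : FirstOrder.Language.{0, 0} := ⟨fun n => PLift (n = 2), fun _ => Empty⟩

/-- A semigroup as a structure for that language. -/
@[reducible] def mulStr (S : Semigrp.{0}) : mulLang.Structure S where
  funMap f v := v (Fin.cast f.down.symm 0) * v (Fin.cast f.down.symm 1)
  RelMap r _ := r.elim

/-- `K` is cut out, among nonempty semigroups, by a set of first-order sentences. -/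
def IsElementary (K : Set Semigrp.{0}) : Prop :=
  ∃ T : mulLang.Theory, ∀ S : Semigrp.{0}, Nonempty S →
    (S ∈ K ↔ @FirstOrder.Language.Theory.Model mulLang S (mulStr S) T)

end Pool.Agent.H22.Incl
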