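import Mathlib
import Pool.Agent.H22.InclDefs

set_option autoImplicit false

namespace Pool.Agent.H22.Incl

open FirstOrder FirstOrder.Language Filter

def half (i : ℕ) : Set (ℕ × Bool) := {w | i < w.1 ↔ (w.2 = true ↔ i % 2 = 0)}

theorem propB {i j k : ℕ} {a b c d : ℕ × Bool} (d1 : d ∈ half i) (d2 : d ∈ half j)
    (d3 : d ∈ half k) (a1 : a ∈ half i) (a2 : a ∈ half j) (a3 : a ∉ half k)
    (b1 : b ∈ half i) (b2 : b ∉ half j) (b3 : b ∈ half k)
    (c1 : c ∉ half i) (c2 : c ∈ half j) (c3 : c ∈ half k) : False := by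
  obtain ⟨a, a'⟩ := a
  obtain ⟨b, b'⟩ := b
  obtain ⟨c, c'⟩ := c
  obtain ⟨d, d'⟩ := d
  simp only [half, Set.mem_ofPred_eq] at *
  cases a' <;> cases b' <;> cases c' <;> cases d' <;> simp at * <;> omega

theorem propP {i j k l : ℕ} {a b c : ℕ × Bool} (d1 : a ∈ half l) (d2 : b ∈ half l)
    (d3 : c ∈ half l) (a1 : a ∈ half i) (a2 : a ∈ half j) (a3 : a ∉ half k)
    (b1 : b ∈ half i) (b2 : b ∉ half j) (b3 : b ∈ half k)
    (c1 : c ∉ half i) (c2 : c ∈ half j) (c3 : c ∈ half k) : False := by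
  obtain ⟨a, a'⟩ := a
  obtain ⟨b, b'⟩ := b
  obtain ⟨c, c'⟩ := c
  simp only [half, Set.mem_ofPred_eq] at *
  cases a' <;> cases b' <;> cases c' <;> simp at * <;> omega

def Face (i j k : ℕ) : Prop := i ≤ j ∧ j ≤ k ∧ (i % 2 = j % 2 ∨ j % 2 = k % 2)

theorem face_ne {i j k : ℕ} (h : Face i j k) : (half i ∩ half j ∩ half k).Nonempty := by
  obtain ⟨h1, h2, h3⟩ := h
  by_cases e1 : i % 2 = j % 2 <;> by_cases e2 : j % 2 = k % 2
  · refine ⟨(k + 1, decide (i % 2 = 0)), ⟨?_, ?_⟩, ?_⟩ <;> simp [half] <;> omega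
  · refine ⟨(k, decide (i % 2 = 0)), ⟨?_, ?_⟩, ?_⟩ <;> simp [half] <;> omega
  · refine ⟨(j, decide (i % 2 = 0)), ⟨?_, ?_⟩, ?_⟩ <;> simp [half] <;> omega
  · omega

theorem hollow : half 0 ∩ half 1 ∩ half 2 = ∅ := by
  ext ⟨a, a'⟩
  cases a' <;> simp [half] <;> omega

def TT (N : ℕ) : Type :=
  {A : Set (ℕ × Bool) // ∃ F : Finset (Fin (N + 1)), F.Nonempty ∧ A = ⋂ i ∈ F, half i}

instance (N : ℕ) : Finite (TT N) := by
  refine Finite.of_surjective (α := {F : Finset (Fin (N + 1)) // F.Nonempty})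
    (fun F => ⟨_, F.1, F.2, rfl⟩) ?_
  rintro ⟨A, F, h, rfl⟩
  exact ⟨⟨F, h⟩, rfl⟩

instance (N : ℕ) : CommSemigroup (TT N) where
  mul A B := ⟨A.1 ∩ B.1, by
    obtain ⟨F, h, e⟩ := A.2
    obtain ⟨G, -, e'⟩ := B.2
    refine ⟨F ∪ G, h.mono Finset.subset_union_left, ?_⟩
    rw [e, e', Finset.set_biInter_inter]⟩
  mul_assoc _ _ _ := Subtype.ext (Set.inter_assoc _ _ _)
  mul_comm _ _ := Subtype.ext (Set.inter_comm _ _)

theorem TT.mul_val {N : ℕ} (A B : TT N) : (A * B).1 = A.1 ∩ B.1 := rfl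

theorem TT.idem {N : ℕ} (A : TT N) : A * A = A := Subtype.ext (Set.inter_self _)

theorem TT.sub {N : ℕ} (A : TT N) : ∃ i, A.1 ⊆ half i := by
  obtain ⟨F, ⟨i, hi⟩, e⟩ := A.2
  exact ⟨i, e ▸ Set.biInter_subset_of_mem (t := fun i : Fin (N + 1) => half i) hi⟩

theorem TT.sep {N : ℕ} (A : TT N) {w} (h : w ∉ A.1) : ∃ i, A.1 ⊆ half i ∧ w ∉ half i := by
  obtain ⟨F, -, e⟩ := A.2
  rw [e] at h
  simp only [Set.mem_iInter, not_forall] at h
  obtain ⟨i, hi, hw⟩ := h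
  exact ⟨i, e ▸ Set.biInter_subset_of_mem (t := fun i : Fin (N + 1) => half i) hi, hw⟩

theorem TT.B {N : ℕ} (p q r : TT N) (h : (p.1 ∩ q.1 ∩ r.1).Nonempty) :
    p * q * r = p * q ∨ p * q * r = p * r ∨ p * q * r = q * r := by
  by_contra hc
  simp only [not_or] at hc
  obtain ⟨h1, h2, h3⟩ := hc
  obtain ⟨d, ⟨d1, d2⟩, d3⟩ := h
  obtain ⟨a, ⟨a1, a2⟩, a3⟩ : ∃ a ∈ p.1 ∩ q.1, a ∉ r.1 := by
    by_contra hh
    push Not at hh
    exact h1 (Subtype.ext (Set.inter_eq_left.2 hh))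
  obtain ⟨b, ⟨b1, b2⟩, b3⟩ : ∃ a ∈ p.1 ∩ r.1, a ∉ q.1 := by
    by_contra hh
    push Not at hh
    exact h2 (Subtype.ext (Set.Subset.antisymm (fun x hx => ⟨hx.1.1, hx.2⟩)
      fun x hx => ⟨⟨hx.1, hh x hx⟩, hx.2⟩))
  obtain ⟨c, ⟨c1, c2⟩, c3⟩ : ∃ a ∈ q.1 ∩ r.1, a ∉ p.1 := by
    by_contra hh
    push Not at hh
    exact h3 (Subtype.ext (Set.Subset.antisymm (fun x hx => ⟨hx.1.2, hx.2⟩)
      fun x hx => ⟨⟨hh x hx, hx.1⟩, hx.2⟩))
  obtain ⟨k, hk, ak⟩ := r.sep a3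
  obtain ⟨j, hj, bj⟩ := q.sep b3
  obtain ⟨i, hi, ci⟩ := p.sep c3
  exact propB (hi d1) (hj d2) (hk d3) (hi a1) (hj a2) ak (hi b1) bj (hk b2) ci (hj c1) (hk c2)

theorem TT.P {N : ℕ} (p q r d : TT N) (h0 : p.1 ∩ q.1 ∩ r.1 = ∅)
    (h1 : (d.1 ∩ p.1 ∩ q.1).Nonempty) (h2 : (d.1 ∩ p.1 ∩ r.1).Nonempty) :
    d.1 ∩ q.1 ∩ r.1 = ∅ := by
  by_contra h3
  obtain ⟨c, ⟨c0, c1⟩, c2⟩ := Set.nonempty_iff_ne_empty.2 h3
  obtain ⟨a, ⟨a0, a1⟩, a2⟩ := h1
  obtain ⟨b, ⟨b0, b1⟩, b2⟩ := h2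
  have n : ∀ w, w ∈ p.1 → w ∈ q.1 → w ∈ r.1 → False := fun w x y z =>
    (h0 ▸ (⟨⟨x, y⟩, z⟩ : w ∈ p.1 ∩ q.1 ∩ r.1) : w ∈ (∅ : Set _))
  obtain ⟨k, hk, ak⟩ := r.sep (n a a1 a2)
  obtain ⟨j, hj, bj⟩ := q.sep (fun h => n b b1 h b2)
  obtain ⟨i, hi, ci⟩ := p.sep (fun h => n c h c1 c2)
  obtain ⟨l, hl⟩ := d.sub
  exact propP (hl a0) (hl b0) (hl c0) (hi a1) (hj a2) ak (hi b1) bj (hk b2) ci (hj c1) (hk c2)

def w3 (i j k : ℕ) : FreeSemigroup ℕ := .of i * .of j * .of k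

def VV (M : ℕ∞) : Set (FreeSemigroup ℕ) := {v | ∃ i j k : ℕ, Face i j k ∧ (k : ℕ∞) ≤ M ∧ v = w3 i j k}

theorem inj_of {N : ℕ} (ψ : ℕ → TT N) (M : ℕ∞)
    (h0 : (ψ 0).1 ∩ (ψ 1).1 ∩ (ψ 2).1 = ∅)
    (h : ∀ i j k : ℕ, Face i j k → (k : ℕ∞) ≤ M → ((ψ i).1 ∩ (ψ j).1 ∩ (ψ k).1).Nonempty)
    {n m : ℕ} (hnm : n < m) (hm : ((2 * m + 2 : ℕ) : ℕ∞) ≤ M) : ψ (2 * n) ≠ ψ (2 * m) := by
  have hle : ∀ k : ℕ, k ≤ 2 * m + 2 → (k : ℕ∞) ≤ M := fun k hk =>
    le_trans (by exact_mod_cast hk) hm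
  have c3 : ∀ {A B C : Set (ℕ × Bool)}, A ∩ B ∩ C = C ∩ A ∩ B := fun {A B C} => by
    ext; simp only [Set.mem_inter_iff]; tauto
  have s1 : ∀ t, t ≤ 2 * m → (ψ t).1 ∩ (ψ (t + 1)).1 ∩ (ψ (t + 2)).1 = ∅ := by
    intro t
    induction t with
    | zero => exact fun _ => h0
    | succ t ih =>
      intro ht
      have := TT.P _ _ _ (ψ (t + 3)) (ih (by omega))
        (c3 ▸ h t (t + 1) (t + 3) ⟨by omega, by omega, by omega⟩ (hle _ (by omega)))
        (c3 ▸ h t (t + 2) (t + 3) ⟨by omega, by omega, by omega⟩ (hle _ (by omega)))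
      rw [c3]
      exact this
  have s2 : (ψ (2 * m)).1 ∩ (ψ (2 * n)).1 ∩ (ψ (2 * n + 1)).1 = ∅ := by
    refine TT.P (ψ (2 * n + 2)) _ _ _ (c3 ▸ s1 (2 * n) (by omega)) ?_ ?_
    · have := h (2 * n) (2 * n + 2) (2 * m) ⟨by omega, by omega, by omega⟩ (hle _ (by omega))
      obtain ⟨w, ⟨a, b⟩, c⟩ := this
      exact ⟨w, ⟨c, b⟩, a⟩
    · have := h (2 * n + 1) (2 * n + 2) (2 * m) ⟨by omega, by omega, by omega⟩ (hle _ (by omega))
      obtain ⟨w, ⟨a, b⟩, c⟩ := this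
      exact ⟨w, ⟨c, b⟩, a⟩
  intro e
  rw [← e] at s2
  exact (h (2 * n) (2 * n) (2 * n + 1) ⟨by omega, by omega, by omega⟩ (hle _ (by omega))).ne_empty s2

theorem sat_TT (N : ℕ) (M : ℕ∞) (hM : ((2 * Nat.card (TT N) + 2 : ℕ) : ℕ∞) ≤ M) :
    Sat (Semigrp.of (TT N)) (w3 0 1 2, VV M) := by
  intro φ
  have h2 : ((2 : ℕ) : ℕ∞) ≤ M := le_trans (by exact_mod_cast Nat.le_add_left _ _) hM
  have h1 : ((1 : ℕ) : ℕ∞) ≤ M := le_trans (by norm_num) h2
  let ψ : ℕ → TT N := fun i => φ (.of i)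
  have hw : ∀ i j k, φ (w3 i j k) = ψ i * ψ j * ψ k := fun i j k => by simp [w3, ψ]
  by_cases h0 : (ψ 0).1 ∩ (ψ 1).1 ∩ (ψ 2).1 = ∅
  · by_contra hc
    have h : ∀ i j k : ℕ, Face i j k → (k : ℕ∞) ≤ M →
        ((ψ i).1 ∩ (ψ j).1 ∩ (ψ k).1).Nonempty := by
      intro i j k hf hk
      rw [Set.nonempty_iff_ne_empty]
      intro e
      refine hc ⟨_, ⟨i, j, k, hf, hk, rfl⟩, ?_⟩
      rw [hw, hw]
      exact Subtype.ext (h0.trans e.symm)
    have hinj : Function.Injective fun n : Fin (Nat.card (TT N) + 1) => ψ (2 * n) := by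
      intro a b e
      by_contra hab
      rcases lt_or_gt_of_ne (Fin.val_ne_of_ne hab) with hl | hl
      · exact inj_of ψ M h0 h hl (le_trans (by exact_mod_cast (by omega)) hM) e
      · exact inj_of ψ M h0 h hl (le_trans (by exact_mod_cast (by omega)) hM) e.symm
    have := Nat.card_le_card_of_injective _ hinj
    simp at this
  · rcases TT.B _ _ _ (Set.nonempty_iff_ne_empty.2 h0) with e | e | e
    · exact ⟨_, ⟨0, 0, 1, ⟨by omega, by omega, by omega⟩, h1, rfl⟩, by rw [hw, hw, e, TT.idem]⟩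
    · exact ⟨_, ⟨0, 0, 2, ⟨by omega, by omega, by omega⟩, h2, rfl⟩, by rw [hw, hw, e, TT.idem]⟩
    · exact ⟨_, ⟨1, 1, 2, ⟨by omega, by omega, by omega⟩, h2, rfl⟩, by rw [hw, hw, e, TT.idem]⟩

def gen (N i : ℕ) : TT N := ⟨half (min i N), {⟨min i N, by omega⟩}, by simp, by simp⟩

theorem gen_ne {N i j k : ℕ} (h : Face i j k) (hk : k ≤ N) (hN : 2 ≤ N) :
    gen N 0 * gen N 1 * gen N 2 ≠ gen N i * gen N j * gen N k := by
  intro e
  have e' : half (min 0 N) ∩ half (min 1 N) ∩ half (min 2 N) =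
    half (min i N) ∩ half (min j N) ∩ half (min k N) := congrArg Subtype.val e
  rw [min_eq_left (by omega), min_eq_left (by omega), min_eq_left (by omega), hollow,
    min_eq_left (by have := h.1; have := h.2.1; omega), min_eq_left (by have := h.2.1; omega),
    min_eq_left hk] at e'
  exact (face_ne h).ne_empty e'.symm

def Lam (M : ℕ∞) : Set (FreeSemigroup ℕ × Set (FreeSemigroup ℕ)) :=
  {(.of 0, {.of 0 * .of 0}), (w3 0 1 2, VV M)}

theorem VV_ne (M : ℕ∞) : (VV M).Nonempty :=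
  ⟨_, 0, 0, 0, ⟨le_rfl, le_rfl, Or.inl rfl⟩, by simp, rfl⟩

theorem nonelem : ∃ K, IsInclusiveVariety K ∧ (∀ S ∈ K, ∀ x : S, x * x = x) ∧
    ¬ IsElementary K := by
  refine ⟨{S | ∀ p ∈ Lam ⊤, Sat S p}, ⟨Lam ⊤, ?_, rfl⟩, ?_, ?_⟩
  · rintro p (rfl | rfl)
    · simp
    · exact VV_ne _
  · intro S hS x
    obtain ⟨v, hv, e⟩ := hS _ (Or.inl rfl) (FreeSemigroup.lift fun _ => x)
    rw [hv] at e
    simpa using e.symm
  · rintro ⟨T, hT⟩
    let _ : ∀ N, mulLang.Structure (TT N) := fun N => mulStr (Semigrp.of (TT N))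
    have : ∀ N, Nonempty (TT N) := fun N => ⟨gen N 0⟩
    have hTT : ∀ N, TT N ⊨ T := fun N => (hT (Semigrp.of (TT N)) inferInstance).1 (by
      rintro p (rfl | rfl)
      · exact fun φ => ⟨_, rfl, by rw [map_mul]; exact (TT.idem _).symm⟩
      · exact sat_TT N ⊤ le_top)
    let U := ((hyperfilter ℕ : Ultrafilter ℕ) : Filter ℕ).Product TT
    let m2 : mulLang.Functions 2 := ⟨rfl⟩
    let mk : (∀ N, TT N) → U := fun x => (x : U)
    let _ : Mul U := ⟨fun a b => Structure.funMap m2 ![a, b]⟩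
    have hmul : ∀ x y, mk x * mk y = mk (x * y) := fun x y => by
      have h : (fun i => mk (![x, y] i)) = ![mk x, mk y] := by
        ext i
        fin_cases i <;> rfl
      change Structure.funMap m2 ![mk x, mk y] = _
      rw [← h]
      exact Ultraproduct.funMap_cast (u := hyperfilter ℕ) m2 ![x, y]
    have hs : Function.Surjective mk := Quotient.mk''_surjective
    let _ : Semigroup U := ⟨fun a b c => by
      obtain ⟨a, rfl⟩ := hs a
      obtain ⟨b, rfl⟩ := hs b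
      obtain ⟨c, rfl⟩ := hs c
      rw [hmul, hmul, hmul, hmul, mul_assoc]⟩
    have hstr : mulStr (Semigrp.of U) = Ultraproduct.structure := by
      ext n f v
      · obtain ⟨rfl⟩ := f
        change Structure.funMap m2 ![v 0, v 1] = Structure.funMap m2 v
        congr 1
        ext i
        fin_cases i <;> rfl
      · exact f.elim
    have hU := (hT (Semigrp.of U) inferInstance).2 (by
      rw [hstr]
      exact ⟨fun φ hφ => (Ultraproduct.sentence_realize φ).2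
        (Eventually.of_forall fun N => (hTT N).realize_of_mem φ hφ)⟩)
    obtain ⟨_, ⟨i, j, k, hf, -, rfl⟩, e⟩ := hU _ (Or.inr rfl)
      (FreeSemigroup.lift fun i => mk fun N => gen N i)
    simp only [w3, map_mul, FreeSemigroup.lift_of, hmul] at e
    have e' : ∀ᶠ N in (hyperfilter ℕ : Filter ℕ),
        gen N 0 * gen N 1 * gen N 2 = gen N i * gen N j * gen N k := Quotient.eq''.1 e
    have e2 : ∀ᶠ N in (hyperfilter ℕ : Filter ℕ), k + 2 ≤ N :=
      hyperfilter_le_cofinite (Nat.cofinite_eq_atTop ▸ eventually_ge_atTop (k + 2))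
    obtain ⟨N, h1, h2⟩ := (e'.and e2).exists
    exact gen_ne hf (by omega) (by omega) h1

def S3 : Type := WithTop (Finset (Fin 3))

instance : Finite S3 := inferInstanceAs (Finite (Option (Finset (Fin 3))))

instance : Semigroup S3 where
  mul a b := (max (α := WithTop (Finset (Fin 3))) a b)
  mul_assoc a b c := sup_assoc (α := WithTop (Finset (Fin 3))) a b c

def S3.mk (A : Finset (Fin 3)) : S3 := (A : WithTop (Finset (Fin 3)))
def S3.top : S3 := (⊤ : WithTop (Finset (Fin 3)))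

theorem S3.mk_mul (A B : Finset (Fin 3)) : S3.mk A * S3.mk B = S3.mk (A ∪ B) :=
  (WithTop.coe_sup A B).symm

theorem S3.mul_eq {a b : S3} {C : Finset (Fin 3)} (h : a * b = S3.mk C) :
    ∃ A B, a = S3.mk A ∧ b = S3.mk B ∧ C = A ∪ B := by
  cases a with
  | none => exact absurd ((top_sup_eq (α := WithTop (Finset (Fin 3))) b).symm.trans h) WithTop.top_ne_coe
  | some A =>
    cases b with
    | none =>
      exact absurd ((sup_top_eq (α := WithTop (Finset (Fin 3))) _).symm.trans h) WithTop.top_ne_coe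
    | some B => exact ⟨A, B, rfl, rfl, (WithTop.coe_injective ((S3.mk_mul A B).symm.trans h)).symm⟩

def cont (u : FreeSemigroup ℕ) : Set ℕ := {n | n = u.head ∨ n ∈ u.tail}

theorem cont_of (x n : ℕ) : n ∈ cont (.of x) ↔ n = x := by simp [cont]
theorem cont_mul (x n : ℕ) (y : FreeSemigroup ℕ) : n ∈ cont (.of x * y) ↔ n = x ∨ n ∈ cont y := by
  simp [cont]

theorem three {N : ℕ} (φ : FreeSemigroup ℕ →ₙ* TT N) (u : FreeSemigroup ℕ) :
    ∃ i ∈ cont u, ∃ j ∈ cont u, ∃ k ∈ cont u, φ u = φ (.of i) * φ (.of j) * φ (.of k) := by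
  induction u using FreeSemigroup.recOnMul with
  | ih1 x =>
    exact ⟨x, (cont_of _ _).2 rfl, x, (cont_of _ _).2 rfl, x, (cont_of _ _).2 rfl, by
      rw [TT.idem, TT.idem]⟩
  | ih2 x y _ ih =>
    obtain ⟨i, hi, j, hj, k, hk, e⟩ := ih
    have hx := (cont_mul x x y).2 (Or.inl rfl)
    have hi' := (cont_mul x i y).2 (Or.inr hi)
    have hj' := (cont_mul x j y).2 (Or.inr hj)
    have hk' := (cont_mul x k y).2 (Or.inr hk)
    rw [map_mul, e]
    by_cases h0 : (φ (.of i)).1 ∩ (φ (.of j)).1 ∩ (φ (.of k)).1 = ∅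
    · refine ⟨i, hi', j, hj', k, hk', Subtype.ext ?_⟩
      simp only [TT.mul_val, h0, Set.inter_empty]
    · rcases TT.B _ _ _ (Set.nonempty_iff_ne_empty.2 h0) with e | e | e
      · exact ⟨x, hx, i, hi', j, hj', by rw [e, mul_assoc]⟩
      · exact ⟨x, hx, i, hi', k, hk', by rw [e, mul_assoc]⟩
      · exact ⟨x, hx, j, hj', k, hk', by rw [e, mul_assoc]⟩

theorem gen_S3 (N : ℕ) : Semigrp.of (TT N) ∈ Generated (Semigrp.of S3) := by
  classical
  rintro ⟨u, V⟩ hp φ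
  obtain ⟨i, hi, j, hj, k, hk, e⟩ := three φ u
  let idx : Fin 3 → ℕ := ![i, j, k]
  let χ : ℕ → S3 := fun n => if (φ u).1 ⊆ (φ (.of n)).1 then
    S3.mk (Finset.univ.filter fun a => idx a = n) else S3.top
  have A1 : ∀ v : FreeSemigroup ℕ, (φ u).1 ⊆ (φ v).1 →
      ∃ A, FreeSemigroup.lift χ v = S3.mk A ∧ ∀ a, idx a ∈ cont v → a ∈ A := by
    intro v
    induction v using FreeSemigroup.recOnMul with
    | ih1 x =>
      intro h
      exact ⟨_, by rw [FreeSemigroup.lift_of]; exact if_pos h, fun a ha => by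
        simpa using (cont_of _ _).1 ha⟩
    | ih2 x y ih1 ih2 =>
      intro h
      rw [map_mul, TT.mul_val, Set.subset_inter_iff] at h
      obtain ⟨A, hA, hA'⟩ := ih1 h.1
      obtain ⟨B, hB, hB'⟩ := ih2 h.2
      refine ⟨A ∪ B, by rw [map_mul, hA, hB, S3.mk_mul], fun a ha => ?_⟩
      rcases (cont_mul _ _ _).1 ha with h | h
      · exact Finset.mem_union_left _ (hA' a ((cont_of _ _).2 h))
      · exact Finset.mem_union_right _ (hB' a h)
  have A2 : ∀ (v : FreeSemigroup ℕ) (A), FreeSemigroup.lift χ v = S3.mk A →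
      (φ u).1 ⊆ (φ v).1 ∧ ∀ a ∈ A, (φ v).1 ⊆ (φ (.of (idx a))).1 := by
    intro v
    induction v using FreeSemigroup.recOnMul with
    | ih1 x =>
      intro A h
      rw [FreeSemigroup.lift_of] at h
      by_cases hx : (φ u).1 ⊆ (φ (.of x)).1
      · refine ⟨hx, fun a ha => ?_⟩
        have : Finset.univ.filter (fun a => idx a = x) = A :=
          WithTop.coe_injective ((if_pos hx).symm.trans h)
        rw [← this] at ha
        rw [(Finset.mem_filter.1 ha).2]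
      · exact absurd ((if_neg hx).symm.trans h) WithTop.top_ne_coe
    | ih2 x y ih1 ih2 =>
      intro C h
      rw [map_mul] at h
      obtain ⟨A, B, hA, hB, rfl⟩ := S3.mul_eq h
      rw [map_mul, TT.mul_val]
      refine ⟨Set.subset_inter (ih1 A hA).1 (ih2 B hB).1, fun a ha => ?_⟩
      rcases Finset.mem_union.1 ha with h | h
      · exact Set.inter_subset_left.trans ((ih1 A hA).2 a h)
      · exact Set.inter_subset_right.trans ((ih2 B hB).2 a h)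
  obtain ⟨v, hv, ev⟩ := hp (FreeSemigroup.lift χ)
  obtain ⟨A, hA, hA'⟩ := A1 u subset_rfl
  obtain ⟨h1, h2⟩ := A2 v A (ev.symm.trans hA)
  refine ⟨v, hv, Subtype.ext (Set.Subset.antisymm h1 ?_)⟩
  change (φ v).1 ⊆ (φ u).1
  rw [e]
  exact Set.subset_inter (Set.subset_inter (h2 0 (hA' 0 hi)) (h2 1 (hA' 1 hj))) (h2 2 (hA' 2 hk))

def KK (M : ℕ) : Set Semigrp.{0} :=
  {S | ∀ p ∈ insert (w3 0 1 2, VV M) {p | Sat (Semigrp.of S3) p}, Sat S p}

noncomputable def gg : ℕ → ℕ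
  | 0 => 2
  | n + 1 => 2 * Nat.card (TT (gg n)) + 2 + gg n

theorem gg_two (n : ℕ) : 2 ≤ gg n := by cases n <;> simp only [gg] <;> omega

theorem KK_mono : StrictMono fun n => KK (gg n) := by
  refine strictMono_nat_of_lt_succ fun n => ⟨?_, fun h => ?_⟩
  · rintro S hS p (rfl | hp)
    · intro φ
      obtain ⟨_, ⟨i, j, k, hf, hk, rfl⟩, e⟩ := hS _ (Or.inl rfl) φ
      exact ⟨_, ⟨i, j, k, hf, le_trans hk (by exact_mod_cast Nat.le_add_left _ _), rfl⟩, e⟩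
    · exact hS p (Or.inr hp)
  · have h1 : Semigrp.of (TT (gg n)) ∈ KK (gg (n + 1)) := by
      rintro p (rfl | hp)
      · exact sat_TT _ _ (by exact_mod_cast Nat.le_add_right _ _)
      · exact gen_S3 _ p hp
    obtain ⟨_, ⟨i, j, k, hf, hk, rfl⟩, e⟩ := h h1 _ (Or.inl rfl) (FreeSemigroup.lift (gen (gg n)))
    simp only [w3, map_mul, FreeSemigroup.lift_of] at e
    exact gen_ne hf (by exact_mod_cast hk) (gg_two n) e

theorem infinite_sub : ∃ S : Semigrp.{0}, Finite S ∧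
    {K | IsInclusiveVariety K ∧ K ⊆ Generated S}.Infinite := by
  refine ⟨Semigrp.of S3, inferInstanceAs (Finite S3),
    Set.infinite_of_injective_forall_mem KK_mono.injective fun n => ⟨⟨_, ?_, rfl⟩, ?_⟩⟩
  · rintro p (rfl | hp)
    · exact VV_ne _
    · obtain ⟨v, hv, -⟩ := hp (FreeSemigroup.lift fun _ => S3.top)
      exact ⟨v, hv⟩
  · exact fun S hS p hp => hS p (Or.inr hp)

end Pool.Agent.H22.Incl
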