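import Mathlib

set_option autoImplicit false

namespace Pool.Agent.H22.Jac

variable {R : Type*} [Ring R]

theorem exists_left_inv {x : R} (hx : x ∈ Ring.jacobson R) : ∃ z : R, z * (1 + x) = 1 := by
  rw [← Ideal.jacobson_bot, Ideal.mem_jacobson_iff] at hx
  obtain ⟨z, hz⟩ := hx 1
  refine ⟨z, ?_⟩
  rw [Ideal.mem_bot] at hz
  rw [mul_add, mul_one, add_comm]
  simpa [sub_eq_zero] using hz

theorem isUnit_one_add {x : R} (hx : x ∈ Ring.jacobson R) : IsUnit (1 + x) := by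
  obtain ⟨z, hz⟩ := exists_left_inv hx
  have hz1 : z = 1 + -(z * x) := by
    rw [mul_add, mul_one] at hz
    rw [← hz]; abel
  obtain ⟨w, hw⟩ := exists_left_inv
    ((Ring.jacobson R).neg_mem (Ideal.mul_mem_left _ z hx))
  rw [← hz1] at hw
  have h3 : w = 1 + x := by
    calc w = w * (z * (1 + x)) := by rw [hz, mul_one]
      _ = 1 + x := by rw [← mul_assoc, hw, one_mul]
  exact ⟨⟨1 + x, z, h3 ▸ hw, hz⟩, rfl⟩

theorem mem_of_left {x : R} (h : ∀ y : R, IsUnit (1 + y * x)) : x ∈ Ring.jacobson R := by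
  rw [← Ideal.jacobson_bot, Ideal.mem_jacobson_iff]
  intro y
  obtain ⟨u, hu⟩ := h y
  refine ⟨↑u⁻¹, ?_⟩
  rw [Ideal.mem_bot, sub_eq_zero, mul_assoc, add_comm]
  have := u.inv_mul
  rw [hu, mul_add, mul_one] at this
  exact this

theorem isUnit_swap {a b : R} (h : IsUnit (1 + a * b)) : IsUnit (1 + b * a) := by
  obtain ⟨u, hu⟩ := h
  refine ⟨⟨1 + b * a, 1 - b * ↑u⁻¹ * a, ?_, ?_⟩, rfl⟩
  · have h1 := u.mul_inv
    rw [hu] at h1
    calc (1 + b * a) * (1 - b * ↑u⁻¹ * a)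
        = 1 + b * a - b * ((1 + a * b) * ↑u⁻¹) * a := by noncomm_ring
      _ = 1 := by rw [h1]; noncomm_ring
  · have h1 := u.inv_mul
    rw [hu] at h1
    calc (1 - b * ↑u⁻¹ * a) * (1 + b * a)
        = 1 + b * a - b * (↑u⁻¹ * (1 + a * b)) * a := by noncomm_ring
      _ = 1 := by rw [h1]; noncomm_ring

theorem mem_of_right {x : R} (h : ∀ y : R, IsUnit (1 + x * y)) : x ∈ Ring.jacobson R :=
  mem_of_left fun y => isUnit_swap (h y)

end Pool.Agent.H22.Jac
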