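import Mathlib

set_option autoImplicit false

namespace H22.Jus

variable {p : ℕ} [Fact p.Prime]

abbrev W (p : ℕ) := Fin 4 → ZMod p

def dt (u v : W p) : ZMod p := u 0 * v 1 - u 1 * v 0
def ph (u v : W p) : ZMod p := dt u v + u 2 + v 3

def Sol (z1 z2 z4 : ZMod p) (u1 u2 u3 : W p) : Prop :=
  ph u1 u2 = z1 ∧ ph u2 u3 = z2 ∧ ph (u1 + u2) u3 = z2 ∧ ph u1 (u2 + u3) = z4 ∧ u3 2 = u1 3

theorem two (u v : W p) (h : dt u v ≠ 0) (α β : ZMod p) :
    ∃ x y : ZMod p, u 0 * y - u 1 * x = α ∧ v 0 * y - v 1 * x = β := by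
  refine ⟨(α * v 0 - β * u 0) / dt u v, (α * v 1 - β * u 1) / dt u v, ?_, ?_⟩
  · field_simp
    unfold dt
    ring
  · field_simp
    unfold dt
    ring

theorem solA (u1 u2 : W p) (h : dt u1 u2 ≠ 0) (z2 z4 : ZMod p) :
    ∃ u3, Sol (ph u1 u2) z2 z4 u1 u2 u3 := by
  obtain ⟨x, y, h1, h2⟩ := two u1 u2 h (-u1 2) (z2 - u2 2 - (z4 - ph u1 u2 + u1 2))
  refine ⟨![x, y, u1 3, z4 - ph u1 u2 + u1 2], rfl, ?_, ?_, ?_, rfl⟩ <;>
    simp only [ph, dt, Pi.add_apply] at * <;> simp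
  · linear_combination h2
  · linear_combination h1 + h2
  · linear_combination h1

theorem solB (u2 u3 : W p) (h : dt u2 u3 ≠ 0) (z1 z4 : ZMod p) :
    ∃ u1, Sol z1 (ph u2 u3) z4 u1 u2 u3 := by
  obtain ⟨x, y, h1, h2⟩ := two u2 u3 h (-(z1 + (z4 - z1 - u3 3) - u2 3)) (-(z4 - z1 - u3 3))
  refine ⟨![x, y, -(z4 - z1 - u3 3), u3 2], ?_, rfl, ?_, ?_, rfl⟩ <;>
    simp only [ph, dt, Pi.add_apply] at * <;> simp
  · linear_combination -h1
  · linear_combination -h2
  · linear_combination -h1 - h2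

theorem solC (s u3 : W p) (h : dt s u3 ≠ 0) (z1 z4 : ZMod p) :
    ∃ u1 u2, u1 + u2 = s ∧ Sol z1 (ph s u3) z4 u1 u2 u3 := by
  obtain ⟨x, y, h1, h2⟩ := two s u3 h (-(z1 + (z4 - z1 - u3 3) - (s 3 - u3 2)))
    (-(z4 - z1 - u3 3))
  refine ⟨![x, y, -(z4 - z1 - u3 3), u3 2], s - ![x, y, -(z4 - z1 - u3 3), u3 2],
    add_sub_cancel _ _, ?_, ?_, by rw [add_sub_cancel], ?_, rfl⟩ <;>
    simp only [ph, dt, Pi.add_apply, Pi.sub_apply] at * <;> simp
  · linear_combination -h1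
  · linear_combination h2
  · linear_combination -h1 - h2

theorem solD (u1 t : W p) (h : dt u1 t ≠ 0) (z1 z2 : ZMod p) :
    ∃ u2 u3, u3 + u2 = t ∧ Sol z1 z2 (ph u1 t) u1 u2 u3 := by
  obtain ⟨x, y, h1, h2⟩ := two u1 t h (dt u1 t + u1 2)
    (-(z2 - (t 2 - u1 3) - (t 3 - (z1 - u1 2 - (dt u1 t + u1 2)))))
  refine ⟨![x, y, t 2 - u1 3, z1 - u1 2 - (dt u1 t + u1 2)],
    t - ![x, y, t 2 - u1 3, z1 - u1 2 - (dt u1 t + u1 2)],
    sub_add_cancel _ _, ?_, ?_, ?_, by rw [add_sub_cancel], ?_⟩ <;>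
    simp only [ph, dt, Pi.add_apply, Pi.sub_apply] at * <;> simp
  · linear_combination h1
  · linear_combination -h2
  · linear_combination -h1 - h2

open Classical in
noncomputable def SolF (z1 z2 z4 : ZMod p) : Finset (W p × W p × W p) :=
  Finset.univ.filter (fun u => Sol z1 z2 z4 u.1 u.2.1 u.2.2)

theorem card_sol (z1 z2 z4 : ZMod p) : (SolF z1 z2 z4).card ≤ p ^ 7 := by
  classical
  have : (Finset.univ : Finset (Fin 7 → ZMod p)).card = p ^ 7 := by simp [ZMod.card]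
  rw [← this]
  apply Finset.card_le_card_of_injOn
    (fun u => ![u.1 0, u.1 1, u.2.1 0, u.2.1 1, u.2.2 0, u.2.2 1, u.1 3])
    (fun _ _ => Finset.mem_univ _)
  rintro ⟨u1, u2, u3⟩ hu ⟨v1, v2, v3⟩ hv he
  simp only [SolF, Finset.coe_filter, Finset.mem_univ, true_and, Set.mem_ofPred_eq] at hu hv
  have e0 := congrFun he 0
  have e1 := congrFun he 1
  have e2 := congrFun he 2
  have e3 := congrFun he 3
  have e4 := congrFun he 4
  have e5 := congrFun he 5
  have e6 := congrFun he 6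
  simp at e0 e1 e2 e3 e4 e5 e6
  obtain ⟨a1, a2, a3, a4, a5⟩ := hu
  obtain ⟨b1, b2, b3, b4, b5⟩ := hv
  simp only [ph, dt, Pi.add_apply] at a1 a2 a3 a4 b1 b2 b3 b4
  rw [e0, e1, e2, e3] at a1
  rw [e2, e3, e4, e5] at a2
  rw [e0, e1, e2, e3, e4, e5] at a3 a4
  have f1 : u1 2 = v1 2 := by linear_combination a3 - a2 - b3 + b2
  have f2 : u2 3 = v2 3 := by linear_combination a1 - b1 - f1
  have f3 : u3 3 = v3 3 := by linear_combination a4 - b4 - f1 - f2
  have f4 : u2 2 = v2 2 := by linear_combination a2 - b2 - f3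
  have f5 : u3 2 = v3 2 := by rw [a5, b5, e6]
  refine Prod.ext ?_ (Prod.ext ?_ ?_) <;> funext i <;> fin_cases i <;> simpa

open Classical in
noncomputable def UF (p : ℕ) [Fact p.Prime] (N : ℕ) : Finset (W p × W p) :=
  Finset.univ.filter (fun u => dt u.1 u.2 ≠ 0 ∧ (ph u.1 u.2).val < N)

theorem card_U (N : ℕ) (hN : N ≤ p) : (p - 1) ^ 2 * p ^ 5 * N ≤ (UF p N).card := by
  classical
  let S : Finset (ZMod p) := Finset.univ.erase 0
  have hS : S.card = p - 1 := by simp [S, ZMod.card]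
  have : ((S ×ˢ S) ×ˢ (Finset.univ : Finset (Fin 5 → ZMod p)) ×ˢ Finset.range N).card =
      (p - 1) ^ 2 * p ^ 5 * N := by
    simp only [Finset.card_product, hS, Finset.card_univ, Fintype.card_fun, ZMod.card,
      Fintype.card_fin, Finset.card_range]
    ring
  rw [← this]
  apply Finset.card_le_card_of_injOn
    (fun a => (![a.1.1, a.2.1 0, a.2.1 1, a.2.1 2],
      ![a.2.1 3, (a.1.2 + a.2.1 0 * a.2.1 3) / a.1.1, a.2.1 4,
        (a.2.2 : ZMod p) - a.1.2 - a.2.1 1]))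
  · rintro ⟨⟨x, d⟩, w, z⟩ h
    simp only [S, Finset.coe_product, Set.mem_prod, Finset.mem_coe, Finset.mem_erase,
      Finset.mem_univ, and_true, true_and, Finset.mem_range] at h
    obtain ⟨⟨hx, hd⟩, hz⟩ := h
    have e : dt ![x, w 0, w 1, w 2] ![w 3, (d + w 0 * w 3) / x, w 4, (z : ZMod p) - d - w 1]
        = d := by
      simp only [dt]
      simp
      field_simp
      ring
    simp only [UF, Finset.coe_filter, Finset.mem_univ, true_and, Set.mem_ofPred_eq, ph, e]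
    refine ⟨hd, ?_⟩
    simp
    rw [Nat.mod_eq_of_lt (lt_of_lt_of_le hz hN)]
    exact hz
  · rintro ⟨⟨x, d⟩, w, z⟩ h ⟨⟨x', d'⟩, w', z'⟩ h' he
    simp only [S, Finset.coe_product, Set.mem_prod, Finset.mem_coe, Finset.mem_erase,
      Finset.mem_univ, and_true, true_and, Finset.mem_range] at h h'
    obtain ⟨⟨hx, hd⟩, hz⟩ := h
    obtain ⟨-, hz'⟩ := h'
    obtain ⟨e, f⟩ := Prod.mk.inj he
    have e0 := congrFun e 0
    have e1 := congrFun e 1
    have e2 := congrFun e 2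
    have e3 := congrFun e 3
    have f0 := congrFun f 0
    have f1 := congrFun f 1
    have f2 := congrFun f 2
    have f3 := congrFun f 3
    simp at e0 e1 e2 e3 f0 f1 f2 f3
    subst e0
    have g1 : d = d' := by
      rw [e1, f0, div_left_inj' hx] at f1
      exact add_right_cancel f1
    subst g1
    have g2 : (z : ZMod p) = z' := by linear_combination f3 + e2
    have g3 : z = z' := by
      have := congrArg ZMod.val g2
      rwa [ZMod.val_natCast, ZMod.val_natCast, Nat.mod_eq_of_lt (lt_of_lt_of_le hz hN),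
        Nat.mod_eq_of_lt (lt_of_lt_of_le hz' hN)] at this
    refine Prod.ext rfl (Prod.ext ?_ g3)
    funext i
    fin_cases i <;> simpa

def mk (q : ℕ) (h u : ZMod p) : ℕ := (q * p + h.val) * p + u.val

def cy (h a : ZMod p) : ℕ := if h.val < a.val then 1 else 0

theorem cy_le (h a : ZMod p) : cy h a ≤ 1 := by unfold cy; split_ifs <;> omega

theorem mk_add (qa qb : ℕ) (ha h ua ub : ZMod p) (hne : ha ≠ h) :
    ∃ hb, mk qa ha ua + mk qb hb ub = mk (qa + qb + cy h ha) h (ua + ub) := by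
  have hp : 0 < p := (Fact.out : p.Prime).pos
  have n1 : ha.val ≠ h.val := fun e => hne (ZMod.val_injective p e)
  have l1 := ZMod.val_lt ha
  have l2 := ZMod.val_lt h
  have l3 := ZMod.val_lt ua
  have l4 := ZMod.val_lt ub
  obtain ⟨k, hk, ek⟩ : ∃ k, k ≤ 1 ∧ ua.val + ub.val = (ua + ub).val + k * p := by
    by_cases c : ua.val + ub.val < p
    · exact ⟨0, by omega, by rw [ZMod.val_add_of_lt c]; omega⟩
    · exact ⟨1, le_rfl, by rw [ZMod.val_add_of_le (not_lt.1 c)]; omega⟩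
  obtain ⟨H, hH, eH⟩ : ∃ H, H < p ∧ ha.val + H + k = h.val + cy h ha * p := by
    unfold cy
    split_ifs with c
    · exact ⟨h.val + p - ha.val - k, by omega, by omega⟩
    · exact ⟨h.val - ha.val - k, by omega, by omega⟩
  refine ⟨(H : ZMod p), ?_⟩
  unfold mk
  rw [ZMod.val_natCast, Nat.mod_eq_of_lt hH]
  zify at ek eH ⊢
  linear_combination ek + (p : ℤ) * eH

theorem mk_inj {q q' : ℕ} {h h' u u' : ZMod p} (e : mk q h u = mk q' h' u') :
    q = q' ∧ h = h' ∧ u = u' := by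
  have hp : 0 < p := (Fact.out : p.Prime).pos
  have k : ∀ a b a' b' : ℕ, b < p → b' < p → a * p + b = a' * p + b' → a = a' ∧ b = b' := by
    intro a b a' b' hb hb' e
    have e1 := congrArg (· % p) e
    simp only [Nat.mul_add_mod_self_right, Nat.mod_eq_of_lt hb, Nat.mod_eq_of_lt hb'] at e1
    subst e1
    exact ⟨Nat.eq_of_mul_eq_mul_right hp (by omega), rfl⟩
  obtain ⟨e1, e2⟩ := k _ _ _ _ (ZMod.val_lt u) (ZMod.val_lt u') e
  obtain ⟨e3, e4⟩ := k _ _ _ _ (ZMod.val_lt h) (ZMod.val_lt h') e1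
  exact ⟨e3, ZMod.val_injective p e4, ZMod.val_injective p e2⟩

theorem mk_pos {q : ℕ} (hq : 0 < q) (h u : ZMod p) : 0 < mk q h u := by
  have hp : 0 < p := (Fact.out : p.Prime).pos
  unfold mk
  positivity

end H22.Jus
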