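import Pool.Agent.H22.Jus1

set_option autoImplicit false

namespace H22.Jus

variable {p : ℕ} [Fact p.Prime]

abbrev G := Fin 4 → ℕ

def mv (q : G) (h u : W p) : G := fun i => mk (q i) (h i) (u i)

def Q (K l : ℕ) : Finset G := Fintype.piFinset (fun _ => Finset.Ico (K ^ l) (2 * K ^ l))
def Q0 (K l : ℕ) : Finset G :=
  Fintype.piFinset (fun _ => Finset.Ico (K ^ l + 3 * K ^ (l - 1)) (2 * K ^ l))

theorem card_Q (K l : ℕ) : (Q K l).card = K ^ (4 * l) := by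
  simp only [Q, Fintype.card_piFinset, Nat.card_Ico, Finset.prod_const, Finset.card_univ,
    Fintype.card_fin]
  rw [show 2 * K ^ l - K ^ l = K ^ l by omega, ← pow_mul, mul_comm]

theorem card_Q0 (t l : ℕ) (hl : 1 ≤ l) :
    (Q0 (3 * (t + 1)) l).card * (t + 1) ^ 4 = (3 * (t + 1)) ^ (4 * l) * t ^ 4 := by
  obtain ⟨m, rfl⟩ : ∃ m, l = m + 1 := ⟨l - 1, by omega⟩
  simp only [Q0, Fintype.card_piFinset, Nat.card_Ico, Finset.prod_const, Finset.card_univ,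
    Fintype.card_fin, Nat.add_sub_cancel]
  have : 2 * (3 * (t + 1)) ^ (m + 1) - ((3 * (t + 1)) ^ (m + 1) + 3 * (3 * (t + 1)) ^ m) =
      3 * t * (3 * (t + 1)) ^ m := by
    apply Nat.sub_eq_of_eq_add
    ring
  rw [this, mul_comm 4 (m + 1), pow_mul, ← mul_pow, ← mul_pow]
  congr 1
  ring

theorem Q0_sub {K l : ℕ} {q : G} (h : q ∈ Q0 K l) : q ∈ Q K l := by
  simp only [Q0, Q, Fintype.mem_piFinset, Finset.mem_Ico] at h ⊢
  exact fun i => ⟨le_trans (Nat.le_add_right _ _) (h i).1, (h i).2⟩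

theorem Q_level {K l l' : ℕ} (hK : 2 ≤ K) {q : G} (h : q ∈ Q K l) (h' : q ∈ Q K l') :
    l = l' := by
  simp only [Q, Fintype.mem_piFinset, Finset.mem_Ico] at h h'
  have k : ∀ a b : ℕ, K ^ a ≤ q 0 → q 0 < 2 * K ^ b → a ≤ b := by
    intro a b h1 h2
    have : K ^ a < K ^ (b + 1) := by
      rw [pow_succ]
      nlinarith [pow_pos (show 0 < K by omega) b]
    exact Nat.lt_succ_iff.1 ((Nat.pow_lt_pow_iff_right (by omega)).1 this)
  exact le_antisymm (k _ _ (h 0).1 (h' 0).2) (k _ _ (h' 0).1 (h 0).2)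

theorem Q_diff {K l l' : ℕ} (hK : 1 ≤ K) (hl : l' < l) {q q' : G} (h : q ∈ Q0 K l)
    (h' : q' ∈ Q K l') (c : G) (hc : ∀ i, c i ≤ 1) : ∃ r ∈ Q K l, q' + r + c = q := by
  simp only [Q0, Q, Fintype.mem_piFinset, Finset.mem_Ico] at h h' ⊢
  have h1 : K ^ l' ≤ K ^ (l - 1) := Nat.pow_le_pow_right hK (by omega)
  have h2 : 1 ≤ K ^ (l - 1) := Nat.one_le_pow _ _ hK
  refine ⟨fun i => q i - q' i - c i, fun i => ?_, funext fun i => ?_⟩
  · have := h i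
    have := h' i
    have := hc i
    beta_reduce
    constructor <;> omega
  · have := h i
    have := h' i
    have := hc i
    simp only [Pi.add_apply]
    omega

def enc (p K l : ℕ) (q : G) (r : ℕ) : ZMod p :=
  (((((r * K ^ l + (q 3 - K ^ l)) * K ^ l + (q 2 - K ^ l)) * K ^ l + (q 1 - K ^ l)) * K ^ l +
    (q 0 - K ^ l) : ℕ) : ZMod p)

theorem dec {K : ℕ} (hK : 1 ≤ K) (l m : ℕ) (z : ZMod p) (hz : z.val < K ^ (4 * l) * m) :
    ∃ q ∈ Q K l, ∃ r < m, enc p K l q r = z := by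
  have hB : 0 < K ^ l := pow_pos hK _
  rw [mul_comm 4 l, pow_mul] at hz
  unfold enc Q
  generalize K ^ l = B at *
  refine ⟨![B + z.val % B, B + z.val / B % B, B + z.val / B / B % B, B + z.val / B / B / B % B],
    ?_, z.val / B / B / B / B, ?_, ?_⟩
  · simp only [Fintype.mem_piFinset, Finset.mem_Ico]
    intro i
    have := Nat.mod_lt z.val hB
    have := Nat.mod_lt (z.val / B) hB
    have := Nat.mod_lt (z.val / B / B) hB
    have := Nat.mod_lt (z.val / B / B / B) hB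
    fin_cases i <;> simp <;> omega
  · rw [Nat.div_div_eq_div_mul, Nat.div_div_eq_div_mul, Nat.div_div_eq_div_mul]
    apply Nat.div_lt_of_lt_mul
    calc z.val < B ^ 4 * m := hz
      _ = _ := by ring
  · simp only [Matrix.cons_val_zero, Matrix.cons_val_one, Matrix.cons_val, Nat.add_sub_cancel_left,
      Nat.div_add_mod', ZMod.natCast_val, ZMod.cast_id', id]

theorem mv_add (qa qb : G) (ha h ua ub : W p) (hne : ∀ i, ha i ≠ h i) :
    ∃ hb, mv qa ha ua + mv qb hb ub = mv (qa + qb + fun i => cy (h i) (ha i)) h (ua + ub) := by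
  choose f hf using fun i => mk_add (qa i) (qb i) (ha i) (h i) (ua i) (ub i) (hne i)
  exact ⟨f, funext hf⟩

/-- Parameters of the triples. -/
abbrev PV (p : ℕ) := (ℕ × ℕ) × (G × G × G × ℕ) × (W p × W p) × (W p × W p × W p)

open Classical in
noncomputable def TV (p : ℕ) [Fact p.Prime] (K J L E : ℕ) : Finset (PV p) :=
  (Finset.range L ×ˢ Finset.range (J + 1)).biUnion (fun a =>
    (Q K a.1 ×ˢ Q K (a.1 + 2 ^ a.2) ×ˢ Q K (a.1 + 2 ^ (a.2 + 1)) ×ˢ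
      Finset.range (K ^ (4 * (E - (a.1 + (a.1 + 2 ^ a.2) + (a.1 + 2 ^ (a.2 + 1))))))).biUnion
      (fun b => {a} ×ˢ {b} ×ˢ Finset.univ ×ˢ
        SolF (enc p K (a.1 + 2 ^ (a.2 + 1)) b.2.2.1 b.2.2.2) (enc p K a.1 b.1 b.2.2.2)
          (enc p K (a.1 + 2 ^ a.2) b.2.1 b.2.2.2)))

theorem card_TV (K J L E : ℕ) (hE : 3 * (L + 2 ^ (J + 1)) ≤ E) :
    (TV p K J L E).card ≤ L * (J + 1) * (K ^ (4 * E) * (p ^ 8 * p ^ 7)) := by
  classical
  refine (Finset.card_biUnion_le_card_mul _ _ (K ^ (4 * E) * (p ^ 8 * p ^ 7)) ?_).trans ?_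
  · rintro ⟨a, j⟩ ha
    simp only [Finset.mem_product, Finset.mem_range] at ha
    refine (Finset.card_biUnion_le_card_mul _ _ (p ^ 8 * p ^ 7) ?_).trans ?_
    · intro b _
      simp only [Finset.card_product, Finset.card_singleton, one_mul, Finset.card_univ,
        Fintype.card_prod, Fintype.card_fun, ZMod.card, Fintype.card_fin]
      rw [← pow_add]
      exact Nat.mul_le_mul_left _ (card_sol _ _ _)
    · simp only [Finset.card_product, card_Q, Finset.card_range, ← pow_add]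
      apply le_of_eq
      congr 2
      have h1 : 2 ^ j ≤ 2 ^ (J + 1) := Nat.pow_le_pow_right (by norm_num) (by omega)
      have h2 : 2 ^ (j + 1) ≤ 2 ^ (J + 1) := Nat.pow_le_pow_right (by norm_num) (by omega)
      omega
  · simp

def fV (a : PV p) : G × G × G :=
  (mv a.2.1.1 a.2.2.1.1 a.2.2.2.1, mv a.2.1.2.1 a.2.2.1.2 a.2.2.2.2.1,
    mv a.2.1.2.2.1 a.2.2.1.1 a.2.2.2.2.2)

theorem mem_TV {K J L E a j : ℕ} (ha : a < L) (hj : j ≤ J) {q1 q2 q3 : G} {r : ℕ}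
    (h1 : q1 ∈ Q K a) (h2 : q2 ∈ Q K (a + 2 ^ j)) (h3 : q3 ∈ Q K (a + 2 ^ (j + 1)))
    (hr : r < K ^ (4 * (E - (a + (a + 2 ^ j) + (a + 2 ^ (j + 1)))))) (g1 g2 u1 u2 u3 : W p)
    (hs : Sol (enc p K (a + 2 ^ (j + 1)) q3 r) (enc p K a q1 r) (enc p K (a + 2 ^ j) q2 r)
      u1 u2 u3) : ((a, j), (q1, q2, q3, r), (g1, g2), (u1, u2, u3)) ∈ TV p K J L E := by
  classical
  simp only [TV, Finset.mem_biUnion, Finset.mem_product, Finset.mem_range, Finset.mem_singleton,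
    Finset.mem_univ, true_and, SolF, Finset.mem_filter]
  exact ⟨(a, j), ⟨ha, by omega⟩, (q1, q2, q3, r), ⟨h1, h2, h3, hr⟩, rfl, rfl, hs⟩

theorem pos_TV {K J L E : ℕ} (hK : 1 ≤ K) {a : PV p} (h : a ∈ TV p K J L E) :
    0 < (fV a).1 0 ∧ 0 < (fV a).2.1 0 ∧ 0 < (fV a).2.2 0 := by
  classical
  simp only [TV, Finset.mem_biUnion, Finset.mem_product, Finset.mem_singleton] at h
  obtain ⟨b, -, c, ⟨h1, h2, h3, -⟩, -, e, -⟩ := h
  rw [← e] at h1 h2 h3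
  simp only [Q, Fintype.mem_piFinset, Finset.mem_Ico] at h1 h2 h3
  exact ⟨mk_pos (lt_of_lt_of_le (pow_pos hK _) (h1 0).1) _ _,
    mk_pos (lt_of_lt_of_le (pow_pos hK _) (h2 0).1) _ _,
    mk_pos (lt_of_lt_of_le (pow_pos hK _) (h3 0).1) _ _⟩

/-- Parameters of the pairs. -/
abbrev PI (p : ℕ) := (ℕ × ℕ) × (G × G) × (W p × W p) × (W p × W p)

open Classical in
noncomputable def HF (p : ℕ) [Fact p.Prime] : Finset (W p × W p) :=
  Finset.univ.filter (fun h => ∀ i, h.1 i ≠ h.2 i)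

theorem card_HF : (p - 1) ^ 4 * p ^ 4 ≤ (HF p).card := by
  classical
  let S : Finset (ZMod p) := Finset.univ.erase 0
  have hS : S.card = p - 1 := by simp [S, ZMod.card]
  have : ((Fintype.piFinset (fun _ : Fin 4 => S)) ×ˢ (Finset.univ : Finset (W p))).card =
      (p - 1) ^ 4 * p ^ 4 := by
    simp [hS, ZMod.card]
  rw [← this]
  apply Finset.card_le_card_of_injOn (fun a => (a.1 + a.2, a.2))
  · rintro ⟨x, y⟩ h
    simp only [S, Finset.coe_product, Set.mem_prod, Finset.mem_coe, Fintype.mem_piFinset,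
      Finset.mem_erase, Finset.mem_univ, and_true] at h
    simp only [HF, Finset.coe_filter, Finset.mem_univ, true_and, Set.mem_ofPred_eq, Pi.add_apply]
    intro i
    simpa using h i
  · rintro ⟨x, y⟩ - ⟨x', y'⟩ - e
    obtain ⟨e1, e2⟩ := Prod.mk.inj e
    simp only at e1 e2
    subst e2
    rw [add_right_cancel e1]

open Classical in
noncomputable def TI (p : ℕ) [Fact p.Prime] (K J L E : ℕ) : Finset (PI p) :=
  (Finset.Ico (2 ^ J) L ×ˢ Finset.Ico 1 (J + 1)).biUnion (fun a =>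
    {a} ×ˢ (Q0 K a.1 ×ˢ Q0 K (a.1 + 2 ^ a.2)) ×ˢ HF p ×ˢ
      UF p (K ^ (4 * (E - (a.1 + (a.1 + 2 ^ a.2))))))

def fI (a : PI p) : G × G :=
  (mv a.2.1.1 a.2.2.1.1 a.2.2.2.1, mv a.2.1.2 a.2.2.1.2 a.2.2.2.2)

theorem mem_TI {K J L E : ℕ} {a : PI p} (h : a ∈ TI p K J L E) :
    (2 ^ J ≤ a.1.1 ∧ a.1.1 < L) ∧ (1 ≤ a.1.2 ∧ a.1.2 ≤ J) ∧ a.2.1.1 ∈ Q0 K a.1.1 ∧
      a.2.1.2 ∈ Q0 K (a.1.1 + 2 ^ a.1.2) ∧ (∀ i, a.2.2.1.1 i ≠ a.2.2.1.2 i) ∧
      dt a.2.2.2.1 a.2.2.2.2 ≠ 0 ∧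
      (ph a.2.2.2.1 a.2.2.2.2).val < K ^ (4 * (E - (a.1.1 + (a.1.1 + 2 ^ a.1.2)))) := by
  classical
  simp only [TI, Finset.mem_biUnion, Finset.mem_product, Finset.mem_singleton, Finset.mem_Ico,
    HF, UF, Finset.mem_filter, Finset.mem_univ, true_and] at h
  obtain ⟨b, ⟨h1, h2⟩, e, ⟨h3, h4⟩, h5, h6, h7⟩ := h
  subst e
  exact ⟨h1, ⟨h2.1, by omega⟩, h3, h4, h5, h6, h7⟩

theorem inj_TI {K J L E : ℕ} (hK : 2 ≤ K) : Set.InjOn fI (TI p K J L E : Set (PI p)) := by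
  rintro ⟨⟨a, j⟩, ⟨q, q'⟩, ⟨h, h'⟩, u, u'⟩ H ⟨⟨b, k⟩, ⟨r, r'⟩, ⟨g, g'⟩, v, v'⟩ H' e
  obtain ⟨-, -, h1, h2, -⟩ := mem_TI H
  obtain ⟨-, -, g1, g2, -⟩ := mem_TI H'
  obtain ⟨e1, e2⟩ := Prod.mk.inj e
  simp only at e1 e2 h1 h2 g1 g2
  have f1 := fun i => mk_inj (congrFun e1 i)
  have f2 := fun i => mk_inj (congrFun e2 i)
  obtain rfl : q = r := funext fun i => (f1 i).1
  obtain rfl : h = g := funext fun i => (f1 i).2.1
  obtain rfl : u = v := funext fun i => (f1 i).2.2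
  obtain rfl : q' = r' := funext fun i => (f2 i).1
  obtain rfl : h' = g' := funext fun i => (f2 i).2.1
  obtain rfl : u' = v' := funext fun i => (f2 i).2.2
  obtain rfl : a = b := Q_level hK (Q0_sub h1) (Q0_sub g1)
  have := Q_level hK (Q0_sub h2) (Q0_sub g2)
  obtain rfl : j = k := Nat.pow_right_injective le_rfl (add_left_cancel this)
  rfl

theorem card_TI (t J L E : ℕ) (hE : 3 * (L + 2 ^ (J + 1)) ≤ E)
    (hp : (3 * (t + 1)) ^ (4 * E) ≤ p) :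
    (L - 2 ^ J) * J * ((3 * (t + 1)) ^ (4 * E) * t ^ 8 * ((p - 1) ^ 6 * p ^ 9)) ≤
      (TI p (3 * (t + 1)) J L E).card * (t + 1) ^ 8 := by
  classical
  unfold TI
  rw [Finset.card_biUnion, Finset.sum_mul]
  · refine le_trans (le_of_eq ?_) (Finset.card_nsmul_le_sum _ _
      ((3 * (t + 1)) ^ (4 * E) * t ^ 8 * ((p - 1) ^ 6 * p ^ 9)) ?_)
    · simp
    · rintro ⟨a, j⟩ ha
      simp only [Finset.mem_product, Finset.mem_Ico] at ha
      have h0 : 1 ≤ 2 ^ J := Nat.one_le_two_pow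
      have h2 : 1 ≤ 2 ^ j := Nat.one_le_two_pow
      have h1 : 2 ^ j ≤ 2 ^ (J + 1) := Nat.pow_le_pow_right (by norm_num) (by omega)
      simp only [Finset.card_product, Finset.card_singleton, one_mul]
      have c1 := card_Q0 t a (by omega)
      have c2 := card_Q0 t (a + 2 ^ j) (by omega)
      have c3 := card_HF (p := p)
      have c4 := card_U (p := p) ((3 * (t + 1)) ^ (4 * (E - (a + (a + 2 ^ j)))))
        (le_trans (Nat.pow_le_pow_right (by omega) (by omega)) hp)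
      have c5 : (3 * (t + 1)) ^ (4 * E) = (3 * (t + 1)) ^ (4 * a) * (3 * (t + 1)) ^ (4 * (a + 2 ^ j))
          * (3 * (t + 1)) ^ (4 * (E - (a + (a + 2 ^ j)))) := by
        rw [← pow_add, ← pow_add]
        congr 1
        omega
      rw [c5]
      calc _ = ((3 * (t + 1)) ^ (4 * a) * t ^ 4) * ((3 * (t + 1)) ^ (4 * (a + 2 ^ j)) * t ^ 4) *
            (((p - 1) ^ 4 * p ^ 4) *
              ((p - 1) ^ 2 * p ^ 5 * (3 * (t + 1)) ^ (4 * (E - (a + (a + 2 ^ j)))))) := by ring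
        _ ≤ _ * _ * ((HF p).card * _) := Nat.mul_le_mul_left _ (Nat.mul_le_mul c3 c4)
        _ = _ := by rw [← c1, ← c2]; ring
  · intro a _ b _ hab
    rw [Function.onFun, Finset.disjoint_left]
    intro x h1 h2
    simp only [Finset.mem_product, Finset.mem_singleton] at h1 h2
    exact hab (h1.1.symm.trans h2.1)

theorem cover {K J L E : ℕ} (hK : 1 ≤ K) (hE : 3 * (L + 2 ^ (J + 1)) ≤ E) {a : PI p}
    (H : a ∈ TI p K J L E) :
    (∃ b ∈ TV p K J L E, ((fV b).1, (fV b).2.1) = fI a) ∧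
    (∃ b ∈ TV p K J L E, ((fV b).2.1, (fV b).2.2) = fI a) ∧
    (∃ b ∈ TV p K J L E, ((fV b).1 + (fV b).2.1, (fV b).2.2) = fI a) ∧
    (∃ b ∈ TV p K J L E, ((fV b).1, (fV b).2.1 + (fV b).2.2) = fI a) := by
  obtain ⟨⟨a, j⟩, ⟨q, q'⟩, ⟨h, h'⟩, u, u'⟩ := a
  obtain ⟨⟨a1, a2⟩, ⟨j1, j2⟩, h1, h2, h3, h4, h5⟩ := mem_TI H
  simp only at a1 a2 j1 j2 h1 h2 h3 h4 h5
  have p1 : 2 ^ j ≤ 2 ^ J := Nat.pow_le_pow_right (by norm_num) j2
  have p2 : 2 ^ (j + 1) = 2 * 2 ^ j := by ring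
  have p3 : 2 ^ (J + 1) = 2 * 2 ^ J := by ring
  have p4 : 1 ≤ 2 ^ j := Nat.one_le_two_pow
  have sp : ∀ l, l ≤ E - (a + (a + 2 ^ j)) → (ph u u').val <
      K ^ (4 * l) * K ^ (4 * (E - (a + (a + 2 ^ j)) - l)) := by
    intro l hl
    rw [← pow_add, show 4 * l + 4 * (E - (a + (a + 2 ^ j)) - l) = 4 * (E - (a + (a + 2 ^ j))) by
      omega]
    exact h5
  obtain ⟨c, rfl⟩ : ∃ c, a = c + 2 ^ j := ⟨a - 2 ^ j, by omega⟩
  have e3 : c + 2 ^ j + 2 ^ j = c + 2 ^ (j + 1) := by omega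
  refine ⟨?_, ?_, ?_, ?_⟩
  · obtain ⟨q3, k1, r, k2, k3⟩ := dec hK _ _ _ (sp (c + 2 ^ j + 2 ^ (j + 1)) (by omega))
    obtain ⟨u3, hs⟩ := solA u u' h4 (enc p K (c + 2 ^ j) q r) (enc p K (c + 2 ^ j + 2 ^ j) q' r)
    rw [← k3] at hs
    exact ⟨_, mem_TV a2 j2 (Q0_sub h1) (Q0_sub h2) k1 (by rwa [Nat.sub_sub] at k2) h h' _ _ _ hs,
      rfl⟩
  · obtain ⟨q1, k1, r, k2, k3⟩ := dec hK _ _ _ (sp c (by omega))
    obtain ⟨u1, hs⟩ := solB u u' h4 (enc p K (c + 2 ^ (j + 1)) q' r) (enc p K (c + 2 ^ j) q r)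
    rw [← k3] at hs
    refine ⟨_, mem_TV (by omega) j2 k1 (Q0_sub h1) (e3 ▸ Q0_sub h2) ?_ h' h _ _ _ hs, rfl⟩
    convert k2 using 3
    omega
  · obtain ⟨q1, k1, r, k2, k3⟩ := dec hK _ _ _ (sp c (by omega))
    obtain ⟨q2, k4, k5⟩ := Q_diff hK (by omega) h1 k1 (fun i => cy (h i) (h' i))
      (fun i => cy_le _ _)
    obtain ⟨u1, u2, k6, hs⟩ := solC u u' h4 (enc p K (c + 2 ^ (j + 1)) q' r)
      (enc p K (c + 2 ^ j) q2 r)
    rw [← k3] at hs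
    obtain ⟨g, hg⟩ := mv_add q1 q2 h' h u1 u2 (fun i => (h3 i).symm)
    rw [k5, k6] at hg
    refine ⟨_, mem_TV (by omega) j2 k1 k4 (e3 ▸ Q0_sub h2) ?_ h' g _ _ _ hs, Prod.ext hg rfl⟩
    convert k2 using 3
    omega
  · obtain ⟨i, rfl⟩ : ∃ i, j = i + 1 := ⟨j - 1, by omega⟩
    have p5 : 2 ^ (i + 1) = 2 * 2 ^ i := by ring
    have p6 : 1 ≤ 2 ^ i := Nat.one_le_two_pow
    obtain ⟨q2, k1, r, k2, k3⟩ := dec hK _ _ _ (sp (c + 2 ^ (i + 1) + 2 ^ i) (by omega))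
    obtain ⟨q3, k4, k5⟩ := Q_diff hK (by omega) h2 k1 (fun i => cy (h' i) (h i))
      (fun i => cy_le _ _)
    obtain ⟨u2, u3, k6, hs⟩ := solD u u' h4 (enc p K (c + 2 ^ (i + 1) + 2 ^ (i + 1)) q3 r)
      (enc p K (c + 2 ^ (i + 1)) q r)
    rw [← k3] at hs
    obtain ⟨g, hg⟩ := mv_add q3 q2 h h' u3 u2 h3
    rw [add_comm q3, k5, k6, add_comm] at hg
    refine ⟨_, mem_TV a2 (by omega) (Q0_sub h1) k1 k4 ?_ h g _ _ _ hs, Prod.ext rfl hg⟩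
    convert k2 using 3
    omega

theorem core (t : ℕ) (ht : 1 ≤ t) : ∃ (V : Finset (G × G × G)) (I : Finset (G × G)),
    V.Nonempty ∧ (∀ x ∈ V, 0 < x.1 0 ∧ 0 < x.2.1 0 ∧ 0 < x.2.2 0) ∧
    V.card * t ^ 16 ≤ I.card * (t + 1) ^ 16 ∧
    ∀ y ∈ I, (∃ x ∈ V, (x.1, x.2.1) = y) ∧ (∃ x ∈ V, (x.2.1, x.2.2) = y) ∧
      (∃ x ∈ V, (x.1 + x.2.1, x.2.2) = y) ∧ (∃ x ∈ V, (x.1, x.2.1 + x.2.2) = y) := by
  classical
  let L := (t + 1) * 2 ^ t
  let E := 3 * (L + 2 ^ (t + 1))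
  let K := 3 * (t + 1)
  obtain ⟨p, hp, pp⟩ := Nat.exists_infinite_primes (K ^ (4 * E) + (t + 1))
  have : Fact p.Prime := ⟨pp⟩
  have hK : 1 ≤ K := by omega
  have cv : ∀ y ∈ (TI p K t L E).image fI,
      (∃ x ∈ (TV p K t L E).image fV, (x.1, x.2.1) = y) ∧
      (∃ x ∈ (TV p K t L E).image fV, (x.2.1, x.2.2) = y) ∧
      (∃ x ∈ (TV p K t L E).image fV, (x.1 + x.2.1, x.2.2) = y) ∧
      (∃ x ∈ (TV p K t L E).image fV, (x.1, x.2.1 + x.2.2) = y) := by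
    intro y hy
    obtain ⟨a, ha, rfl⟩ := Finset.mem_image.1 hy
    obtain ⟨⟨b1, h1, e1⟩, ⟨b2, h2, e2⟩, ⟨b3, h3, e3⟩, ⟨b4, h4, e4⟩⟩ := cover hK le_rfl ha
    exact ⟨⟨_, Finset.mem_image_of_mem _ h1, e1⟩, ⟨_, Finset.mem_image_of_mem _ h2, e2⟩,
      ⟨_, Finset.mem_image_of_mem _ h3, e3⟩, ⟨_, Finset.mem_image_of_mem _ h4, e4⟩⟩
  have c1 := card_TI (p := p) t t L E le_rfl (le_trans (Nat.le_add_right _ _) hp)
  have c2 := card_TV (p := p) K t L E le_rfl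
  have c3 : ((TI p K t L E).image fI).card = (TI p K t L E).card :=
    Finset.card_image_of_injOn (inj_TI (by omega))
  have c4 : L - 2 ^ t = t * 2 ^ t := by
    apply Nat.sub_eq_of_eq_add
    simp only [L]
    ring
  have c5 : p * t ≤ (p - 1) * (t + 1) := by
    obtain ⟨n, rfl⟩ : ∃ n, p = n + 1 := ⟨p - 1, by omega⟩
    have : t ≤ n := by omega
    rw [Nat.add_sub_cancel]
    nlinarith
  have c6 : (p * t) ^ 6 ≤ ((p - 1) * (t + 1)) ^ 6 := Nat.pow_le_pow_left c5 6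
  rw [c4] at c1
  refine ⟨(TV p K t L E).image fV, (TI p K t L E).image fI, ?_, ?_, ?_, cv⟩
  · have : 0 < ((TI p K t L E).image fI).card := by
      rw [c3]
      have h2 := pp.two_le
      have h3 : 0 < p - 1 := by omega
      have h4 : 0 < p := by omega
      have h5 : 0 < t := ht
      exact Nat.pos_of_mul_pos_right (lt_of_lt_of_le (by positivity) c1)
    obtain ⟨y, hy⟩ := Finset.card_pos.1 this
    obtain ⟨x, hx, -⟩ := (cv y hy).1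
    exact ⟨x, hx⟩
  · intro x hx
    obtain ⟨a, ha, rfl⟩ := Finset.mem_image.1 hx
    exact pos_TV hK ha
  · rw [c3]
    calc _ ≤ L * (t + 1) * (K ^ (4 * E) * (p ^ 8 * p ^ 7)) * t ^ 16 :=
          Nat.mul_le_mul_right _ (Finset.card_image_le.trans c2)
      _ = (2 ^ t * (t + 1) ^ 2 * K ^ (4 * E) * p ^ 9 * t ^ 10) * (p * t) ^ 6 := by
          simp only [L]
          ring
      _ ≤ (2 ^ t * (t + 1) ^ 2 * K ^ (4 * E) * p ^ 9 * t ^ 10) * ((p - 1) * (t + 1)) ^ 6 :=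
          Nat.mul_le_mul_left _ c6
      _ = t * 2 ^ t * t * (K ^ (4 * E) * t ^ 8 * ((p - 1) ^ 6 * p ^ 9)) * (t + 1) ^ 8 := by ring
      _ ≤ (TI p K t L E).card * (t + 1) ^ 8 * (t + 1) ^ 8 := Nat.mul_le_mul_right _ c1
      _ = _ := by ring

theorem flat (S : Finset G) : ∃ f : G →+ ℕ, Set.InjOn f S ∧ ∀ x, x 0 ≤ f x := by
  obtain ⟨B, hB⟩ : ∃ B, ∀ x ∈ S, ∀ i, x i < B :=
    ⟨S.sup (fun x => Finset.univ.sup x) + 1, fun x hx i => Nat.lt_succ_of_le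
      ((Finset.le_sup (f := x) (Finset.mem_univ i)).trans
        (Finset.le_sup (f := fun x : G => Finset.univ.sup x) hx))⟩
  refine ⟨⟨⟨fun x => ((x 3 * B + x 2) * B + x 1) * B + x 0, by simp⟩, fun x y => ?_⟩, ?_,
    fun x => Nat.le_add_left _ _⟩
  · simp only [Pi.add_apply]
    ring
  · intro x hx y hy e
    have k : ∀ a b a' b' : ℕ, b < B → b' < B → a * B + b = a' * B + b' → a = a' ∧ b = b' := by
      intro a b a' b' hb hb' e
      have e1 := congrArg (· % B) e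
      simp only [Nat.mul_add_mod_self_right, Nat.mod_eq_of_lt hb, Nat.mod_eq_of_lt hb'] at e1
      subst e1
      exact ⟨Nat.eq_of_mul_eq_mul_right (by omega : 0 < B) (by omega), rfl⟩
    obtain ⟨e1, f0⟩ := k _ _ _ _ (hB x hx 0) (hB y hy 0) e
    obtain ⟨e2, f1⟩ := k _ _ _ _ (hB x hx 1) (hB y hy 1) e1
    obtain ⟨f3, f2⟩ := k _ _ _ _ (hB x hx 2) (hB y hy 2) e2
    funext i
    fin_cases i <;> assumption

theorem nat (t : ℕ) (ht : 1 ≤ t) : ∃ (V : Finset (ℕ × ℕ × ℕ)) (I : Finset (ℕ × ℕ)),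
    V.Nonempty ∧ (∀ x ∈ V, 0 < x.1 ∧ 0 < x.2.1 ∧ 0 < x.2.2) ∧
    V.card * t ^ 16 ≤ I.card * (t + 1) ^ 16 ∧
    ∀ y ∈ I, (∃ x ∈ V, (x.1, x.2.1) = y) ∧ (∃ x ∈ V, (x.2.1, x.2.2) = y) ∧
      (∃ x ∈ V, (x.1 + x.2.1, x.2.2) = y) ∧ (∃ x ∈ V, (x.1, x.2.1 + x.2.2) = y) := by
  classical
  obtain ⟨V, I, h1, h2, h3, h4⟩ := core t ht
  obtain ⟨f, hf, hp⟩ := flat (I.image Prod.fst ∪ I.image Prod.snd)
  refine ⟨V.image (fun x => (f x.1, f x.2.1, f x.2.2)), I.image (fun y => (f y.1, f y.2)),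
    h1.image _, ?_, ?_, ?_⟩
  · intro x hx
    obtain ⟨a, ha, rfl⟩ := Finset.mem_image.1 hx
    obtain ⟨k1, k2, k3⟩ := h2 a ha
    exact ⟨k1.trans_le (hp _), k2.trans_le (hp _), k3.trans_le (hp _)⟩
  · rw [Finset.card_image_of_injOn (s := I)]
    · exact (Nat.mul_le_mul_right _ Finset.card_image_le).trans h3
    · intro y hy z hz e
      obtain ⟨e1, e2⟩ := Prod.mk.inj e
      exact Prod.ext
        (hf (Finset.mem_union_left _ (Finset.mem_image_of_mem _ hy))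
          (Finset.mem_union_left _ (Finset.mem_image_of_mem _ hz)) e1)
        (hf (Finset.mem_union_right _ (Finset.mem_image_of_mem _ hy))
          (Finset.mem_union_right _ (Finset.mem_image_of_mem _ hz)) e2)
  · intro y hy
    obtain ⟨a, ha, rfl⟩ := Finset.mem_image.1 hy
    obtain ⟨⟨b1, k1, rfl⟩, ⟨b2, k2, e2⟩, ⟨b3, k3, e3⟩, ⟨b4, k4, e4⟩⟩ := h4 a ha
    refine ⟨⟨_, Finset.mem_image_of_mem _ k1, rfl⟩, ⟨_, Finset.mem_image_of_mem _ k2, ?_⟩,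
      ⟨_, Finset.mem_image_of_mem _ k3, ?_⟩, ⟨_, Finset.mem_image_of_mem _ k4, ?_⟩⟩
    · rw [← e2]
    · rw [← e3, ← map_add]
    · rw [← e4, ← map_add]

end H22.Jus
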