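import Pool.Agent.H22.GLS2

namespace Pool.Agent.H22.GLS

open Function Subgroup FormLat
open scoped commutatorElement

variable {F : Cls} {A Ω G : Type} [Group G] {p : ℕ}

def Rs (F : Cls) (L K : Subgroup G) : Prop :=
  ∃ N : Subgroup K, ∃ _ : N.Normal, F (K ⧸ N) ∧ N ≤ L.subgroupOf K

inductive Sn (F : Cls) : Subgroup G → Prop
  | top : Sn F ⊤
  | step (K L : Subgroup G) : Sn F K → L < K → (∀ M, L ≤ M → M ≤ K → M = L ∨ M = K) → Rs F L K →
      Sn F L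

def Lat (F : Cls) : Prop := ∀ (G : Type) [Group G] [Finite G] (A B : Subgroup G),
  Sn F A → Sn F B → Sn F (A ⊓ B) ∧ Sn F (A ⊔ B)

theorem rs_of (hF : IsForm F) {L K : Subgroup G} {N : Subgroup K} (h : Fq F N)
    (l : N ≤ L.subgroupOf K) : Rs F L K :=
  have := h.normal
  ⟨N, this, h.quot hF N le_rfl, l⟩

theorem Sn.chain [Finite G] {K L : Subgroup G} (h : Sn F K) (l : L ≤ K)
    (r : ∀ X, L < X → X ≤ K → Rs F L X) : Sn F L := by
  induction K using (wellFounded_lt (α := Subgroup G)).induction with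
  | _ K ih =>
  rcases l.eq_or_lt with rfl | l'
  · exact h
  obtain ⟨M, a, b⟩ := l'.exists_le_covby
  obtain ⟨N, _, c, d⟩ := r K l' le_rfl
  exact ih M b.lt (h.step K M b.lt (fun _ u v => b.eq_or_eq u v)
    ⟨N, ‹_›, c, d.trans (comap_mono a)⟩) a fun X u v => r X u (v.trans b.le)

theorem Sn.chain' (hF : IsForm F) [Finite G] {K L : Subgroup G} (h : Sn F K) (l : L ≤ K)
    (r : ∀ X, L < X → X ≤ K → F X) : Sn F L :=
  h.chain l fun X a b => rs_of hF (Fq_bot (r X a b)) bot_le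

theorem Sn.inv {L : Subgroup G} (h : Sn F L) (n : L ≠ ⊤) :
    ∃ K, L < K ∧ (∀ M, L ≤ M → M ≤ K → M = L ∨ M = K) ∧ Rs F L K := by
  cases h with
  | top => exact absurd rfl n
  | step K _ _ a b c => exact ⟨K, a, b, c⟩

variable [MulAction G Ω]

def sk [AddCommGroup A] (H : Subgroup G) (U : AddSubgroup (Ω → A))
    (h : ∀ k ∈ H, ∀ f ∈ U, act k f ∈ U) : Subgroup (Wr A Ω G) where
  carrier := {w | w.g ∈ H ∧ w.f ∈ U}
  one_mem' := ⟨H.one_mem, U.zero_mem⟩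
  mul_mem' := fun ha hb => ⟨H.mul_mem ha.1 hb.1, U.add_mem ha.2 (h _ ha.1 _ hb.2)⟩
  inv_mem' := fun ha => ⟨H.inv_mem ha.1, U.neg_mem (h _ (H.inv_mem ha.1) _ ha.2)⟩

def incl [AddCommGroup A] (K : Subgroup G) : Wr A Ω K →* Wr A Ω G :=
  MonoidHom.mk' (fun w => ⟨w.f, w.g⟩) fun _ _ => rfl

def Abs (F : Cls) (p : ℕ) (K : Type) [Group K] [MulAction K Ω] (ω₀ : Ω) : Prop :=
  ∀ U : AddSubgroup (Ω → ZMod p), (∀ k : K, ∀ f ∈ U, act k f ∈ U) →
    (∀ f, (∀ k : K, f (k • ω₀) = 0) → f ∈ U) →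
    (∀ S : AddSubgroup (Ω → ZMod p), (∀ k : K, ∀ f ∈ S, act k f ∈ S) → U ≤ S → S = U ∨ S = ⊤) →
    U ≠ ⊤ → ∃ N : Subgroup (Wr (ZMod p) Ω K), Fq F N ∧ ∀ w ∈ N, w.f ∈ U

theorem act_single [DecidableEq Ω] [Zero A] (g : G) (ω : Ω) (a : A) :
    act g (Pi.single ω a) = Pi.single (g • ω) a := by
  ext x
  simp [Pi.single_apply, inv_smul_eq_iff]

theorem big_mem (hF : IsForm F) [AddCommGroup A] (hE : F (Wr A Ω G)) {X : Subgroup (Wr A Ω G)}
    (h : ∀ g, inr g ∈ X) : F X := by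
  have : (X ⊓ sg.ker).Normal := ⟨by
    rintro ⟨f, g⟩ ⟨a, b⟩ w
    obtain rfl : g = 1 := b
    rw [conj_tr]
    exact ⟨lft_act (h w.g) a, rfl⟩⟩
  obtain ⟨Y, a, b⟩ := bk hF hE (X ⊓ sg.ker) sg sg_surj Wr.f
    (fun v hv w _ => by simp [show v.g = 1 from hv.2])
    (fun e v hv => by ext; simp [show v.g = 1 from hv.2])
  rwa [show Y = X from Subgroup.ext fun w => (a w).trans ⟨fun ⟨v, hv, e⟩ => (mem_lft (h _)).2
    (e ▸ (mem_lft (h _)).1 hv.1), fun hw => ⟨⟨w.f, 1⟩, ⟨(mem_lft (h _)).1 hw, rfl⟩, rfl⟩⟩] at b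

theorem lemU (hF : IsForm F) (hL : Lat F) [Fact p.Prime] [Finite G] [Finite Ω] (ω₀ : Ω)
    (tr : ∀ ω, ∃ g : G, g • ω₀ = ω) (hE : F (Wr (ZMod p) Ω G)) {K : Subgroup G} (hK : IsCoatom K)
    (hp : ∀ (P : Type) [Group P] [Finite P], IsPGroup p P → F P)
    {T : Subgroup (Wr (ZMod p) Ω G)} (t1 : Sn F T) (t2 : sg.ker ≤ T) (t3 : IsPGroup p T)
    {ω₁ : Ω} (hoff : ∀ k : K, k • ω₀ ≠ ω₁) : Abs F p K ω₀ := by
  classical
  intro U inv off mx ne
  have inv' : ∀ k ∈ K, ∀ f ∈ U, act k f ∈ U := fun k hk => inv ⟨k, hk⟩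
  have s1 : Sn F (inr : G →* Wr (ZMod p) Ω G).range :=
    Sn.top.chain' hF le_top fun X a _ => big_mem hF hE fun g => a.le ⟨g, rfl⟩
  have s2 : Sn F (K.map (inr : G →* Wr (ZMod p) Ω G)) :=
    s1.chain' hF (map_le_range _ _) fun X a b => big_mem hF hE fun g => by
      refine (hK.2 (X.comap inr) ((map_le_iff_le_comap.1 a.le).lt_of_ne fun e => a.ne ?_)).ge (mem_top g)
      rw [e, map_comap_eq_self b]
  have s3 : Sn F (sk ⊥ U fun k hk => inv' k (bot_le (a := K) hk)) :=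
    t1.chain' hF (fun w hw => t2 hw.1) fun X _ b => hp X (t3.to_le b)
  have e : sk ⊥ U (fun k hk => inv' k (bot_le (a := K) hk)) ⊔ K.map inr = sk K U inv' := by
    refine le_antisymm (sup_le (fun w hw => ⟨bot_le (a := K) hw.1, hw.2⟩) ?_) fun w hw => ?_
    · rintro _ ⟨k, hk, rfl⟩
      exact ⟨hk, U.zero_mem⟩
    · exact (mem_lft (mem_sup_right (mem_map_of_mem inr hw.1))).2 (mem_sup_left (And.intro rfl hw.2))
  obtain ⟨X, a, b, N, _, c, d⟩ := (e ▸ (hL _ _ _ s3 s2).2).inv fun h =>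
    ne (eq_top_iff.2 fun f _ => (h.ge (mem_top (⟨f, 1⟩ : Wr (ZMod p) Ω G))).2)
  have i : ∀ k ∈ K, inr k ∈ X := fun k hk => a.le ⟨hk, U.zero_mem⟩
  rcases mx (lft X) (fun k f hf => lft_act (i k k.2) hf) (fun f hf => a.le ⟨K.one_mem, hf⟩) with h | h
  · have l : K ≤ X.map sg := fun k hk => ⟨_, i k hk, rfl⟩
    have t := hK.2 _ (l.lt_of_ne fun e => a.not_ge fun w hw => by
      have : w.g ∈ K := e.ge ⟨w, hw, rfl⟩
      exact ⟨this, h.le ((mem_lft (i _ this)).1 hw)⟩)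
    refine absurd (eq_top_iff.2 fun f _ => AddSubgroup.pi_mem_of_single_mem f fun ω => ?_) ne
    obtain ⟨g, rfl⟩ := tr ω
    obtain ⟨g₁, rfl⟩ := tr ω₁
    obtain ⟨w, hw, e⟩ := t.ge (mem_top (g * g₁⁻¹))
    have := h.le (lft_act hw (h.ge (off (Pi.single (g₁ • ω₀) (f (g • ω₀))) fun k =>
      Pi.single_eq_of_ne (hoff k) _)))
    rwa [act_single, show w.g = g * g₁⁻¹ from e, mul_smul, inv_smul_smul] at this
  have x : K.comap sg = X := (b _ (fun w hw => hw.1) fun w hw =>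
    (mem_lft (i _ hw)).2 (h.ge trivial)).resolve_left fun e =>
      ne (eq_top_iff.2 fun f _ => (e.le (show (⟨f, 1⟩ : Wr (ZMod p) Ω G) ∈ K.comap sg from K.one_mem)).2)
  subst x
  exact ⟨_, (Fq.mk N c).comap ((incl K).codRestrict _ fun w => w.g.2)
    fun w => ⟨⟨w.1.f, ⟨w.1.g, w.2⟩⟩, rfl⟩, fun w hw => (d hw).2⟩

theorem exists_max [Finite Ω] [Finite A] [AddCommGroup A] {U₀ : AddSubgroup (Ω → A)}
    (h : ∀ k : G, ∀ f ∈ U₀, act k f ∈ U₀) (ne : U₀ ≠ ⊤) :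
    ∃ U : AddSubgroup (Ω → A), U₀ ≤ U ∧ (∀ k : G, ∀ f ∈ U, act k f ∈ U) ∧ U ≠ ⊤ ∧
      ∀ S : AddSubgroup (Ω → A), (∀ k : G, ∀ f ∈ S, act k f ∈ S) → U ≤ S → S = U ∨ S = ⊤ := by
  obtain ⟨U, ⟨a, b, c⟩, d⟩ := (wellFounded_gt (α := AddSubgroup (Ω → A))).has_min
    {U | U₀ ≤ U ∧ (∀ k : G, ∀ f ∈ U, act k f ∈ U) ∧ U ≠ ⊤} ⟨U₀, le_rfl, h, ne⟩
  refine ⟨U, a, b, c, fun S u v => or_iff_not_imp_right.2 fun n => ?_⟩
  exact (v.eq_or_lt.resolve_right (d S ⟨a.trans v, u, n⟩)).symm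

theorem free_case (hF : IsForm F) [Fact p.Prime] [Finite G] [Finite Ω] {ω₀ : Ω}
    (fr : ∀ k : G, k • ω₀ = ω₀ → k = 1) (h : Abs F p G ω₀) {y : G} {n : ℕ} (hn : ¬ p ∣ n)
    (yn : orderOf y = n) (hy : ∀ R : Subgroup G, Fq F R → y ∈ R) : y = 1 := by
  classical
  by_contra y1
  let U₀ : AddSubgroup (Ω → ZMod p) :=
    { carrier := {f | ∀ k : G, f ((k * y) • ω₀) = f (k • ω₀)}
      zero_mem' := fun _ => rfl
      add_mem' := fun ha hb k => by rw [Pi.add_apply, Pi.add_apply, ha, hb]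
      neg_mem' := fun ha k => by rw [Pi.neg_apply, Pi.neg_apply, ha] }
  obtain ⟨U, a, b, c, d⟩ := exists_max (G := G) (U₀ := U₀)
    (fun g f hf k => by simpa [mul_smul] using hf (g⁻¹ * k)) fun e => by
      simpa [Pi.single_apply, mt (fr y) y1] using e.ge (AddSubgroup.mem_top (Pi.single ω₀ 1)) 1
  have off : ∀ f, (∀ k : G, f (k • ω₀) = 0) → f ∈ U := fun f hf => a fun k => by rw [hf, hf]
  obtain ⟨N, n1, n2⟩ := h U b off d c
  have := n1.normal
  have := (this.map sg sg_surj)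
  obtain ⟨w, hw, e⟩ := hy (N.map sg) (Fq.mk _ (n1.of_le hF ((QuotientGroup.mk' _).comp sg)
    ((QuotientGroup.mk'_surjective _).comp sg_surj) fun w hw =>
      (QuotientGroup.eq_one_iff _).2 ⟨w, hw, rfl⟩))
  have k1 : ∀ f, act y f - f ∈ U := fun f => by
    convert n2 _ (commutator_le_left N ⊤ (commutator_mem_commutator hw (mem_top ⟨f, 1⟩))) using 1
    rw [commutatorElement_def, conj_tr, ← e]
    ext
    simp [sub_eq_add_neg]
  have k2 : ∀ i : ℕ, Pi.single (y ^ i • ω₀) 1 - Pi.single ω₀ 1 ∈ U := fun i => by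
    induction i with
    | zero => simp
    | succ i ih => simpa [act_single, pow_succ', mul_smul] using U.add_mem (k1 (Pi.single (y ^ i • ω₀) 1)) ih
  have k3 : ∑ i ∈ Finset.range n, (Pi.single (y ^ i • ω₀) 1 : Ω → ZMod p) ∈ U := a fun k => by
    simp only [Finset.sum_apply, Pi.single_apply]
    have inj : ∀ a b : G, a • ω₀ = b • ω₀ ↔ a = b := fun a b => ⟨fun h => (inv_mul_eq_one.1
      (fr _ (by rw [mul_smul, ← h, inv_smul_smul]))), fun h => h ▸ rfl⟩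
    simp only [inj]
    have := Finset.sum_range_succ (fun i => if k * y = y ^ i then (1 : ZMod p) else 0) n
    rw [Finset.sum_range_succ', ← yn, pow_orderOf_eq_one, pow_zero, add_left_inj, yn] at this
    rw [← this]
    simp [pow_succ]
  have k4 : (n : ZMod p) • (Pi.single ω₀ 1 : Ω → ZMod p) ∈ U := by
    have := U.sub_mem k3 (U.sum_mem fun i (_ : i ∈ Finset.range n) => k2 i)
    simpa [Finset.sum_sub_distrib, Nat.cast_smul_eq_nsmul] using this
  refine c (eq_top_iff.2 fun f _ => AddSubgroup.pi_mem_of_single_mem f fun ω => ?_)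
  by_cases o : ∃ k : G, k • ω₀ = ω
  · obtain ⟨k, rfl⟩ := o
    have := b k _ (ZMod.smul_mem k4 (f (k • ω₀) / (n : ZMod p)))
    rwa [smul_smul, div_mul_cancel₀ _ (mt (ZMod.natCast_eq_zero_iff n p).1 hn), ← Pi.single_smul,
      act_single, smul_eq_mul, mul_one] at this
  · exact off _ fun k => Pi.single_eq_of_ne (fun e => o ⟨k, e⟩) _

theorem lin_of [AddCommGroup A] [Module (ZMod p) A] [Finite Ω] [DecidableEq Ω] (ρ : G → A →+ A)
    (a : Ω → A) (h : ∀ (k : G) ω, a (k • ω) = ρ k (a ω)) :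
    ∃ μ : (Ω → ZMod p) →+ A, (∀ (k : G) f, μ (act k f) = ρ k (μ f)) ∧
      (∀ f, (∀ ω, f ω = 0 ∨ a ω = 0) → μ f = 0) ∧ ∀ ω, μ (Pi.single ω 1) = a ω := by
  have := Fintype.ofFinite Ω
  refine ⟨(Fintype.linearCombination (ZMod p) a).toAddMonoidHom, fun k f => ?_, fun f hf => ?_,
    fun ω => by simp⟩
  · simp only [LinearMap.toAddMonoidHom_coe, Fintype.linearCombination_apply, map_sum, ZMod.map_smul]
    exact (Fintype.sum_equiv (MulAction.toPerm k) _ _ fun ω => by simp [h]).symm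
  · exact Finset.sum_eq_zero fun ω _ => by rcases hf ω with h | h <;> simp [h]

open scoped IsMulCommutative in
theorem mu_of [Finite Ω] {H : Type} [Group H] (φ : G →* H) (L : Subgroup H) [L.Normal]
    (hc : ∀ a ∈ L, ∀ b ∈ L, a * b = b * a) (he : ∀ a ∈ L, a ^ p = 1) (ω₀ : Ω) {v : H} (hv : v ∈ L)
    (st : ∀ k : G, k • ω₀ = ω₀ → φ k * v = v * φ k) (v1 : v ≠ 1) :
    ∃ μ : Multiplicative (Ω → ZMod p) →* H, μ.range ≤ L ∧ μ.range ≠ ⊥ ∧
      (∀ (k : G) f, μ (.ofAdd (act k f)) = φ k * μ (.ofAdd f) * (φ k)⁻¹) ∧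
      ∀ f, (∀ k : G, f (k • ω₀) = 0) → μ (.ofAdd f) = 1 := by
  classical
  have : IsMulCommutative L := ⟨⟨fun a b => Subtype.ext (hc a a.2 b b.2)⟩⟩
  let a : Ω → L := fun ω => if h : ∃ k : G, k • ω₀ = ω then
    MulAut.conjNormal (φ h.choose) ⟨v, hv⟩ else 1
  have ha : ∀ k : G, a (k • ω₀) = MulAut.conjNormal (φ k) ⟨v, hv⟩ := fun k => by
    have h : ∃ j : G, j • ω₀ = k • ω₀ := ⟨k, rfl⟩
    have := st (k⁻¹ * h.choose) (by rw [mul_smul, h.choose_spec, inv_smul_smul])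
    simp only [a, dif_pos h]
    refine Subtype.ext ?_
    simp only [MulAut.conjNormal_apply, map_mul, map_inv] at this ⊢
    calc _ = φ k * ((φ k)⁻¹ * φ h.choose * v) * (φ h.choose)⁻¹ := by group
      _ = _ := by rw [this]; group
  obtain ⟨μ, m1, m2, m3⟩ := @lin_of (Additive L) Ω G _ p _ _
    (AddCommGroup.zmodModule fun x => Subtype.ext (he _ x.toMul.2)) _ _
    (fun k => MonoidHom.toAdditive (MulAut.conjNormal (φ k)).toMonoidHom)
    (fun ω => Additive.ofMul (a ω)) fun k ω => congrArg Additive.ofMul (by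
      by_cases h : ∃ j : G, j • ω₀ = ω
      · obtain ⟨j, rfl⟩ := h
        rw [← mul_smul, ha, ha]
        simp
      · have : ¬ ∃ j : G, j • ω₀ = k • ω := fun ⟨j, e⟩ =>
          h ⟨k⁻¹ * j, by rw [mul_smul, e, inv_smul_smul]⟩
        simp [a, h, this])
  refine ⟨L.subtype.comp (AddMonoidHom.toMultiplicativeLeft μ), ?_, fun c => v1 ?_,
    fun k f => congrArg (fun x : Additive L => (x.toMul : H)) (m1 k f),
    fun f hf => congrArg (fun x : Additive L => (x.toMul : H)) (m2 f fun ω => ?_)⟩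
  · rintro _ ⟨f, rfl⟩
    exact SetLike.coe_mem _
  · have h1 := congrArg (fun x : Additive L => (x.toMul : H)) (m3 ((1 : G) • ω₀))
    have h2 := mem_bot.1 (c.le ⟨.ofAdd (Pi.single ((1 : G) • ω₀) 1), h1⟩)
    rw [ha] at h2
    simpa using h2
  · by_cases h : ∃ j : G, j • ω₀ = ω
    · obtain ⟨j, rfl⟩ := h
      exact Or.inl (hf j)
    · exact Or.inr (by simp [a, h])

theorem abel_case (hF : IsForm F) (hS : IsSat F) [Fact p.Prime] [Finite G] [Finite Ω] {ω₀ : Ω}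
    (h : Abs F p G ω₀) {M : Subgroup G} (hM : Fq F M) (hc : ∀ a ∈ M, ∀ b ∈ M, a * b = b * a)
    (he : ∀ a ∈ M, a ^ p = 1) (st : ∀ k : G, k • ω₀ = ω₀ → ∀ v ∈ M, k * v = v * k)
    {H : Type} [Group H] (φ : G →* H) (hφ : Surjective φ) : F H := by
  induction hn : Nat.card H using Nat.strong_induction_on generalizing H with
  | _ n ih =>
  have := Finite.of_surjective φ hφ
  by_cases e : M.map φ = ⊥
  · exact hM.of_le hF φ hφ ((Subgroup.map_eq_bot_iff _).1 e)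
  obtain ⟨L, l1, l2, l3, l4⟩ := exists_minN (hM.normal.map φ hφ) e
  have sj := (QuotientGroup.mk'_surjective L).comp hφ
  have hq := ih _ (by
    rw [← hn, card_eq_card_quotient_mul_card_subgroup L]
    exact (Nat.lt_mul_iff_one_lt_right Nat.card_pos).2 ((one_lt_card_iff_ne_bot L).2 l3))
    ((QuotientGroup.mk' L).comp φ) sj rfl
  by_contra nH
  obtain ⟨W, hW, w⟩ := by simpa only [not_forall, exists_prop] using mt (sat hF hS (Fq.mk _ hq)) nH
  have t := hW.2 _ (right_lt_sup.2 w)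
  have c : ∀ a ∈ L, ∀ b ∈ L, a * b = b * a := fun a ha b hb => by
    obtain ⟨a, ha', rfl⟩ := l1 ha
    obtain ⟨b, hb', rfl⟩ := l1 hb
    rw [← map_mul, hc a ha' b hb', map_mul]
  have b : L ⊓ W = ⊥ := by
    by_contra b
    refine w (inf_eq_left.1 (l4 _ ⟨fun x hx g => ?_⟩ inf_le_left b))
    obtain ⟨u, hu, y, hy, rfl⟩ := mem_sup_of_normal_left.1 (t.ge (mem_top g))
    have := l2.conj_mem x hx.1 y
    rw [show u * y * x * (u * y)⁻¹ = u * (y * x * y⁻¹) * u⁻¹ by group, c u hu _ this,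
      mul_inv_cancel_right]
    exact ⟨this, W.mul_mem (W.mul_mem hy hx.2) (W.inv_mem hy)⟩
  let i := MulEquiv.ofBijective ((QuotientGroup.mk' L).comp W.subtype) ⟨(injective_iff_map_eq_one _).2
    fun x hx => Subtype.ext (b.le ⟨(QuotientGroup.eq_one_iff _).1 hx, x.2⟩), fun y => by
      obtain ⟨y, rfl⟩ := QuotientGroup.mk_surjective y
      obtain ⟨u, hu, y, hy, rfl⟩ := mem_sup_of_normal_left.1 (t.ge (mem_top y))
      exact ⟨⟨y, hy⟩, by simp [(QuotientGroup.eq_one_iff u).2 hu]⟩⟩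
  let s : H →* H := W.subtype.comp (i.symm.toMonoidHom.comp (QuotientGroup.mk' L))
  have s1 : ∀ y, (s y : H ⧸ L) = y := fun y => i.apply_symm_apply _
  obtain ⟨v, v1⟩ := ne_bot_iff_exists_ne_one.1 l3
  obtain ⟨μ, m1, m2, m3, m4⟩ := mu_of (p := p) φ L c (fun a ha => by
      obtain ⟨a, ha', rfl⟩ := l1 ha
      rw [← map_pow, he a ha', map_one]) ω₀ v.2 (fun k hk => by
      obtain ⟨a, ha, e⟩ := l1 v.2
      rw [← e, ← map_mul, st k hk a ha, map_mul]) fun e => v1 (Subtype.ext e)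
  have nm : ∀ S : AddSubgroup (Ω → ZMod p), (∀ k : G, ∀ f ∈ S, act k f ∈ S) →
      (S.toSubgroup.map μ).Normal := fun S hS => ⟨by
    rintro _ ⟨f, hf, rfl⟩ y
    obtain ⟨k, rfl⟩ := hφ y
    exact ⟨_, hS k f.toAdd hf, m3 k f.toAdd⟩⟩
  have r : μ.range = L := l4 _ (by simpa [← MonoidHom.range_eq_map] using nm ⊤ fun _ _ _ => trivial) m1 m2
  obtain ⟨N, ⟨Q, _, ψ, n1, rfl, n3⟩, n2⟩ := h μ.ker.toAddSubgroup'
    (fun k f hf => (m3 k f).trans (by rw [show μ (.ofAdd f) = 1 from hf]; simp)) m4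
    (fun S u v => by
      by_cases z : S.toSubgroup.map μ = ⊥
      · exact Or.inl (le_antisymm (fun f hf => z.le ⟨.ofAdd f, hf, rfl⟩) v)
      refine Or.inr (eq_top_iff.2 fun f _ => ?_)
      obtain ⟨g, hg, e⟩ := (l4 _ (nm S u) ((map_le_range _ _).trans m1) z).ge (m1 ⟨.ofAdd f, rfl⟩)
      have : f - g.toAdd ∈ S := v (show μ (.ofAdd f / g) = 1 by rw [div_eq_mul_inv]; simp [e])
      exact sub_add_cancel f g.toAdd ▸ S.add_mem this hg)
    fun z => m2 (eq_bot_iff.2 (by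
      rintro _ ⟨f, rfl⟩
      exact z.ge (AddSubgroup.mem_top f.toAdd)))
  let θ : Wr (ZMod p) Ω G →* H := MonoidHom.mk' (fun w => μ (.ofAdd w.f) * s (φ w.g)) fun a b => by
    have := c _ (QuotientGroup.eq.1 (s1 (φ a.g))) _ (m1 ⟨.ofAdd b.f, rfl⟩)
    simp only [mul_f, mul_g, ofAdd_add, map_mul, m3]
    generalize s (φ a.g) = x at *
    calc _ = μ (.ofAdd a.f) * x * (x⁻¹ * φ a.g * μ (.ofAdd b.f)) * (φ a.g)⁻¹ * x * s (φ b.g) := by group
      _ = _ := by rw [this]; group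
  refine nH (sub2 hF ψ n1 (((QuotientGroup.mk' L).comp φ).comp sg) (sj.comp sg_surj) θ (fun y => ?_)
    (fun w h1 h2 => ?_) n3 hq)
  · obtain ⟨k, rfl⟩ := hφ y
    obtain ⟨f, hf⟩ := r.ge (QuotientGroup.eq_iff_div_mem.1 (s1 (φ k)).symm)
    exact ⟨⟨f.toAdd, k⟩, by simp [θ, hf]⟩
  · have h3 : μ (.ofAdd w.f) = 1 := n2 w h1
    have h4 : s (φ w.g) = 1 := by
      have : (QuotientGroup.mk' L) (φ w.g) = 1 := h2
      simp only [s, MonoidHom.comp_apply, this, map_one]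
    simp [θ, h3, h4]

def toP [AddCommGroup A] (C : Subgroup G) [C.Normal] : Wr A (G ⧸ C) G →* Wr A (G ⧸ C) (G ⧸ C) :=
  MonoidHom.mk' (fun w => ⟨w.f, w.g⟩) fun a b => Wr.ext (funext fun ω => by
    obtain ⟨x, rfl⟩ := QuotientGroup.mk_surjective ω
    rfl) rfl

theorem abs_of (hF : IsForm F) (hL : Lat F) [Fact p.Prime] (hG : F G) (C : Subgroup G) [C.Normal]
    (h : Gd F p (G ⧸ C)) {K : Subgroup G} (hK : IsCoatom K)
    (hp : ∀ (P : Type) [Group P] [Finite P], IsPGroup p P → F P)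
    (hT : F (Wr (ZMod p) (G ⧸ C) G) → ∃ T : Subgroup (Wr (ZMod p) (G ⧸ C) G),
      Sn F T ∧ sg.ker ≤ T ∧ IsPGroup p T) : Abs F p K ((1 : G) : G ⧸ C) := by
  have := hF.1 _ hG
  by_cases o : ∀ ω, ∃ k : K, k • ((1 : G) : G ⧸ C) = ω
  · refine fun U _ _ _ _ => ⟨_, ⟨_, _, (toP C).comp (incl K), fun w => ?_, rfl, h⟩,
      fun w hw => (congrArg Wr.f hw).symm ▸ U.zero_mem⟩
    obtain ⟨k, hk⟩ := o w.g
    exact ⟨⟨w.f, k⟩, Wr.ext rfl ((congrArg QuotientGroup.mk (mul_one k.1)).symm.trans hk)⟩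
  have hE := sub2 hF (toP C) (fun w => by
      obtain ⟨g, hg⟩ := QuotientGroup.mk_surjective w.g
      exact ⟨⟨w.f, g⟩, Wr.ext rfl hg⟩) sg sg_surj (MonoidHom.id _) surjective_id
    (fun x h1 h2 => Wr.ext (congrArg Wr.f h1 :) h2) h hG
  obtain ⟨T, t1, t2, t3⟩ := hT hE
  push Not at o
  obtain ⟨ω₁, o⟩ := o
  refine lemU hF hL _ (fun ω => ?_) hE hK hp t1 t2 t3 o
  obtain ⟨g, rfl⟩ := QuotientGroup.mk_surjective ω
  exact ⟨g, congrArg QuotientGroup.mk (mul_one g)⟩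

omit [MulAction G Ω] in
theorem comm_lt {H : Subgroup G} [Group.IsSolvable H] (hH : H ≠ ⊥) : ⁅H, H⁆ < H := by
  rw [← nontrivial_iff_ne_bot] at hH
  rw [← map_subtype_commutator]
  conv_rhs => rw [← H.range_subtype, MonoidHom.range_eq_map]
  exact map_subtype_lt_map_subtype.2 (Group.IsSolvable.commutator_lt_top_of_nontrivial H)

theorem hered (hF : IsForm F) (hS : IsSat F) (hL : Lat F) (hG : F G) (K : Subgroup G) : F K := by
  induction hn : Nat.card G using Nat.strong_induction_on generalizing G with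
  | _ n ih =>
  have := hF.1 _ hG
  by_contra nK
  obtain ⟨K, nK, mK⟩ := (wellFounded_gt (α := Subgroup G)).has_min {K | ¬ F K} ⟨K, nK⟩
  have t : K ≠ ⊤ := fun e => nK (e ▸ hF.2.1 _ _ ⟨topEquiv.symm⟩ hG)
  have hK : IsCoatom K := ⟨t, fun X hX => by
    by_contra e
    exact nK (hF.2.1 _ _ ⟨subgroupOfEquivOfLe hX.le⟩ (ih _ (hn ▸ Fit.card_lt e)
      (not_not.1 fun c => mK X c hX) _ rfl))⟩
  have q : ∀ N : Subgroup G, N.Normal → N ≠ ⊥ → ∀ X : Subgroup G, Fq F (N.subgroupOf X) :=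
    fun N _ h X => ⟨_, _, (QuotientGroup.mk' N).subgroupMap X, MonoidHom.subgroupMap_surjective _ _,
      Subgroup.ext fun x => Subtype.ext_iff.trans (QuotientGroup.eq_one_iff _), ih _ (by
        rw [← hn, card_eq_card_quotient_mul_card_subgroup N]
        exact (Nat.lt_mul_iff_one_lt_right Nat.card_pos).2 ((one_lt_card_iff_ne_bot N).2 h))
        (hF.2.2.1 _ N hG) _ rfl⟩
  obtain ⟨N, -, hN⟩ := exists_minN (M := (⊤ : Subgroup G)) inferInstance
    fun e => t (top_le_iff.1 (e.le.trans bot_le))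
  have := hN.1
  have hm : ∀ M : Subgroup G, M.Normal → M ≠ ⊥ → N ≤ M := fun M a b => by
    by_contra e
    have : N ⊓ M = ⊥ := by
      by_contra c
      exact e (inf_eq_left.1 (hN.2.2 _ inferInstance inf_le_left c))
    exact nK ((Fq.inf hF (q N hN.1 hN.2.1 K) (q M a b K)).of_le hF (MonoidHom.id _) surjective_id
      fun x hx => Subtype.ext (this.le hx))
  rcases hN.cases with hc | hp
  · obtain ⟨r, hr, hd⟩ := Nat.exists_prime_and_dvd ((one_lt_card_iff_ne_bot N).2 hN.2.1).ne'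
    have := Fact.mk hr
    obtain ⟨x, hx, x1, ox⟩ := cauchy hd
    have he := hN.exp hc hx x1 ox
    have g := stepA hF hS hG hN hm hd
    refine nK (abel_case hF hS (abs_of hF hL hG _ g hK (fun _ _ _ => g.pgroup hF hS) fun hE =>
      ⟨N.comap sg, Sn.top.chain le_top fun X a _ => rs_of hF ((q N hN.1 hN.2.1 (X.map sg)).comap _
        (MonoidHom.subgroupMap_surjective sg X)) fun _ h => h, ker_le_comap _ _, fun w =>
        ⟨2, Subtype.ext ?_⟩⟩) (q N hN.1 hN.2.1 K) (fun a ha b hb => Subtype.ext (hc _ ha _ hb))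
      (fun a ha => Subtype.ext (he _ ha)) (fun k hk v hv => Subtype.ext ?_) (MonoidHom.id _)
      surjective_id)
    · rw [pow_two, pow_mul]
      exact tr_pow ((map_pow sg w.1 r).trans (he _ w.2))
    · have : k.1 * 1 ∈ centralizer (N : Set G) := (QuotientGroup.eq_one_iff _).1 hk
      simpa using (this v hv).symm
  have cb := cent_bot hN hp hm
  have fb : frattini G = ⊥ := by
    by_contra c
    have := frattini_nilpotent (G := G)
    have : Group.IsSolvable N := Group.isSolvable_of_isSolvable_injective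
      (inclusion_injective (hm _ inferInstance c))
    exact (comm_lt hN.2.1).ne hp
  obtain ⟨R, r1, r2⟩ := (wellFounded_lt (α := Subgroup K)).has_min {R | Fq F R} ⟨⊤, Fq_top hF hG _⟩
  have r3 : R ≠ ⊥ := fun e => nK (r1.of_le hF (MonoidHom.id _) surjective_id (e.le.trans bot_le))
  obtain ⟨r, hr, hd⟩ := Nat.exists_prime_and_dvd ((one_lt_card_iff_ne_bot R).2 r3).ne'
  have := Fact.mk hr
  obtain ⟨y, hy, y1, oy⟩ := cauchy hd
  obtain ⟨s, hs, sd, sr⟩ : ∃ s : ℕ, s.Prime ∧ s ∣ Nat.card N ∧ s ≠ r := by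
    by_contra c
    push Not at c
    have := (IsPGroup.of_card (Nat.eq_prime_pow_of_unique_prime_dvd (p := r) (n := Nat.card N)
      Nat.card_pos.ne' fun h d => c _ h d)).isNilpotent
    exact (comm_lt hN.2.1).ne hp
  have := Fact.mk hs
  have g := stepA hF hS hG hN hm sd
  refine y1 (free_case hF (fun k hk => Subtype.ext ?_)
    (abs_of hF hL hG _ g hK (fun _ _ _ => g.pgroup hF hS) fun hE => ?_) (n := r)
    (fun d => sr ((Nat.prime_dvd_prime_iff_eq hs hr).1 d)) (orderOf_eq_prime oy y1) fun R' h =>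
    (inf_eq_left.1 (inf_le_left.eq_or_lt.resolve_right (r2 _ (Fq.inf hF r1 h)))) hy)
  · have : k.1 * 1 ∈ centralizer (N : Set G) := (QuotientGroup.eq_one_iff _).1 hk
    simpa [cb] using this
  obtain ⟨T, ⟨t1, t2⟩, t3⟩ := (wellFounded_lt (α := Subgroup (Wr (ZMod s) (G ⧸ centralizer (N : Set G)) G))).has_min
    {T | Sn F T ∧ sg.ker ≤ T} ⟨⊤, Sn.top, le_top⟩
  refine ⟨T, t1, t2, fun w => ⟨1, Subtype.ext ((pow_one s).symm ▸ tr_pow (fb.le ?_))⟩⟩
  unfold frattini Order.radical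
  simp only [mem_iInf]
  intro W hW
  have c := isCoatom_comap_of_surjective (sg_surj (A := ZMod s) (Ω := G ⧸ centralizer (N : Set G))) hW
  exact (inf_eq_left.1 (inf_le_left.eq_or_lt.resolve_right (t3 _ ⟨(hL _ _ _ t1
    (Sn.top.chain' hF le_top fun X a _ => (c.2 X a).symm ▸ hF.2.1 _ _ ⟨topEquiv.symm⟩ hE)).1,
      le_inf t2 (ker_le_comap _ _)⟩))) w.2

end Pool.Agent.H22.GLS
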