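import Mathlib

set_option autoImplicit false

namespace H22.Leav

abbrev E := Module.End ℚ (ℕ → ℚ)

def y (b : Bool) : E where
  toFun f n := f (2 * n + b.toNat)
  map_add' _ _ := rfl
  map_smul' _ _ := rfl

def x (b : Bool) : E where
  toFun f n := if n % 2 = b.toNat then f (n / 2) else 0
  map_add' f g := by funext n; simp only [Pi.add_apply]; split_ifs <;> simp
  map_smul' c f := by funext n; simp only [Pi.smul_apply, RingHom.id_apply]; split_ifs <;> simp

theorem yx (b c : Bool) : y b * x c = if b = c then 1 else 0 := by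
  ext1 f
  funext n
  have h1 : (2 * n + 1) / 2 = n := by omega
  cases b <;> cases c <;> simp [x, y, h1]

theorem xy : ∑ b, x b * y b = 1 := by
  ext1 f
  funext n
  simp only [Fintype.sum_bool, LinearMap.add_apply, Module.End.mul_apply, Pi.add_apply, x, y,
    LinearMap.coe_mk, AddHom.coe_mk, Bool.toNat_true, Bool.toNat_false, Module.End.one_apply]
  rcases Nat.mod_two_eq_zero_or_one n with h | h
  · simp only [h]; simp; congr 1; omega
  · simp only [h]; simp; congr 1; omega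

def X : (m : ℕ) → (Fin m → Bool) → E
  | 0, _ => 1
  | m + 1, f => X m (Fin.init f) * x (f (Fin.last m))

def Y : (m : ℕ) → (Fin m → Bool) → E
  | 0, _ => 1
  | m + 1, f => y (f (Fin.last m)) * Y m (Fin.init f)

theorem YX (m : ℕ) (u v : Fin m → Bool) : Y m u * X m v = if u = v then 1 else 0 := by
  induction m with
  | zero => simp [X, Y, Subsingleton.elim u v]
  | succ m ih =>
    have e : u = v ↔ Fin.init u = Fin.init v ∧ u (Fin.last m) = v (Fin.last m) := by
      refine ⟨fun h => by simp [h], fun h => ?_⟩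
      rw [← Fin.snoc_init_self u, ← Fin.snoc_init_self v, h.1, h.2]
    simp only [X, Y, e]
    rw [mul_assoc, ← mul_assoc (Y m _), ih]
    by_cases h : Fin.init u = Fin.init v <;> simp [h, yx]

theorem YX1 (m : ℕ) (u : Fin m → Bool) : Y m u * X m u = 1 := by simp [YX]

theorem XY (m : ℕ) : ∑ u, X m u * Y m u = 1 := by
  induction m with
  | zero => simp [X, Y]
  | succ m ih =>
    rw [← (Fin.snocEquiv fun _ => Bool).sum_comp, Fintype.sum_prod_type, Finset.sum_comm, ← ih]
    refine Finset.sum_congr rfl fun u _ => ?_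
    have hi : ∀ b : Bool, Fin.init ((Fin.snocEquiv fun _ => Bool) (b, u)) = u :=
      fun b => Fin.init_snoc (α := fun _ => Bool) b u
    simp only [X, Y, hi]
    simp only [Fin.snocEquiv_apply, Fin.snoc_last]
    simp only [mul_assoc, ← Finset.mul_sum]
    simp only [← mul_assoc, ← Finset.sum_mul, xy, one_mul]

abbrev K : Subalgebra ℚ E := ⊥

def Lev (T : E) (m n : ℕ) : Prop := ∀ u v, Y m u * T * X n v ∈ K

theorem Lev.up {T : E} {m n : ℕ} (h : Lev T m n) (k : ℕ) : Lev T (m + k) (n + k) := by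
  induction k with
  | zero => exact h
  | succ k ih =>
    intro u v
    obtain ⟨c, hc⟩ := Algebra.mem_bot.mp (ih (Fin.init u) (Fin.init v))
    have : Y (m + k + 1) u * T * X (n + k + 1) v
        = y (u (Fin.last _)) * (Y (m + k) (Fin.init u) * T * X (n + k) (Fin.init v)) * x (v (Fin.last _)) := by
      simp only [X, Y, mul_assoc]
      rfl
    show Y (m + k + 1) u * T * X (n + k + 1) v ∈ K
    rw [this, ← hc, ← Algebra.commutes, mul_assoc, yx]
    split_ifs
    · exact K.mul_mem (K.algebraMap_mem c) K.one_mem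
    · simp

theorem Lev.to {T : E} {m n m' n' : ℕ} (h : Lev T m n) (h1 : m ≤ m') (h2 : m' + n = n' + m) :
    Lev T m' n' := by
  obtain ⟨k, rfl⟩ := Nat.exists_eq_add_of_le h1
  have : n' = n + k := by omega
  subst this
  exact h.up k

def W (d : ℤ) : Submodule ℚ E where
  carrier := {T | ∃ m n : ℕ, (m : ℤ) = n + d ∧ Lev T m n}
  zero_mem' := ⟨d.toNat, (-d).toNat, by omega, fun u v => by simp⟩
  add_mem' := by
    rintro S T ⟨m, n, h, hS⟩ ⟨m', n', h', hT⟩
    refine ⟨m + m', n + m', by push_cast; omega, fun u v => ?_⟩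
    rw [mul_add, add_mul]
    exact K.add_mem (hS.up m' u v) (hT.to (by omega) (by omega) u v)
  smul_mem' := by
    rintro c T ⟨m, n, h, hT⟩
    refine ⟨m, n, h, fun u v => ?_⟩
    rw [mul_smul_comm, smul_mul_assoc]
    exact K.smul_mem (hT u v) c

theorem W_mul {d e : ℤ} {S T : E} (hS : S ∈ W d) (hT : T ∈ W e) : S * T ∈ W (d + e) := by
  obtain ⟨m, n, h, hS⟩ := hS
  obtain ⟨m', n', h', hT⟩ := hT
  refine ⟨m + m', n' + n, by push_cast; omega, fun u v => ?_⟩
  have : Y (m + m') u * (S * T) * X (n' + n) v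
      = ∑ w, (Y (m + m') u * S * X (n + m') w) * (Y (n + m') w * T * X (n' + n) v) := by
    calc _ = Y (m + m') u * S * (∑ w, X (n + m') w * Y (n + m') w) * T * X (n' + n) v := by
          rw [XY]; simp only [mul_one, mul_assoc]
      _ = _ := by simp only [Finset.mul_sum, Finset.sum_mul, mul_assoc]
  rw [this]
  exact K.sum_mem fun w _ => K.mul_mem (hS.up m' u w) (hT.to (by omega) (by omega) w v)

theorem W_cast {d e : ℤ} {T : E} (h : T ∈ W d) (he : d = e) : T ∈ W e := he ▸ h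

theorem X_mem (m : ℕ) (u : Fin m → Bool) : X m u ∈ W m :=
  ⟨m, 0, by simp, fun u' v => by
    show Y m u' * X m u * 1 ∈ K
    rw [mul_one, YX]; split_ifs; exacts [K.one_mem, K.zero_mem]⟩

theorem Y_mem (m : ℕ) (u : Fin m → Bool) : Y m u ∈ W (-m) :=
  ⟨0, m, by simp, fun u' v => by
    show 1 * Y m u * X m v ∈ K
    rw [one_mul, YX]; split_ifs; exacts [K.one_mem, K.zero_mem]⟩

theorem one_mem : (1 : E) ∈ W 0 := X_mem 0 default

theorem XaY {m : ℕ} (u v : Fin m → Bool) {a : E} (ha : a ∈ W 0) : X m u * a * Y m v ∈ W 0 :=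
  W_cast (W_mul (W_mul (X_mem m u) ha) (Y_mem m v)) (by omega)

theorem expand (T : E) (m n : ℕ) : T = ∑ u, ∑ v, X m u * (Y m u * T * X n v) * Y n v := by
  calc T = (∑ u, X m u * Y m u) * T * (∑ v, X n v * Y n v) := by rw [XY, XY, one_mul, mul_one]
    _ = _ := by simp only [Finset.mul_sum, Finset.sum_mul, mul_assoc]; rw [Finset.sum_comm]

theorem entry {T : E} {m n : ℕ} (h : Lev T m n) (h0 : T ≠ 0) :
    ∃ u v, ∃ c : ℚ, c ≠ 0 ∧ Y m u * T * X n v = algebraMap ℚ E c := by
  by_contra hc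
  push Not at hc
  apply h0
  rw [expand T m n]
  refine Finset.sum_eq_zero fun u _ => Finset.sum_eq_zero fun v _ => ?_
  obtain ⟨c, hc'⟩ := Algebra.mem_bot.mp (h u v)
  by_cases h1 : c = 0
  · rw [← hc', h1]; simp
  · exact absurd hc'.symm (hc u v c h1)

theorem simple {d : ℤ} (P : AddSubgroup E) (hP : ∀ a ∈ W 0, ∀ t ∈ P, a * t ∈ P ∧ t * a ∈ P)
    {T S : E} (hT : T ∈ W d) (h0 : T ≠ 0) (hTP : T ∈ P) (hS : S ∈ W d) : S ∈ P := by
  obtain ⟨m, n, h, hT⟩ := hT
  obtain ⟨m', n', h', hS⟩ := hS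
  obtain ⟨u, v, c, hc, e⟩ := entry (hT.up m') h0
  have hS' : Lev S (m + m') (n + m') := hS.to (by omega) (by omega)
  rw [expand S (m + m') (n + m')]
  refine P.sum_mem fun u' _ => P.sum_mem fun v' _ => ?_
  obtain ⟨s, hs⟩ := Algebra.mem_bot.mp (hS' u' v')
  have h1 : X _ u' * (Y _ u' * S * X _ v') * Y _ v'
      = (X _ u' * ((s * c⁻¹) • 1) * Y _ u) * T * (X _ v * 1 * Y _ v') := by
    have : (X _ u' * ((s * c⁻¹) • 1) * Y _ u) * T * (X _ v * 1 * Y _ v')
        = (s * c⁻¹) • (X _ u' * (Y _ u * T * X _ v) * Y (n + m') v') := by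
      simp only [mul_smul_comm, smul_mul_assoc, mul_one, mul_assoc]
    rw [this, e, ← hs, Algebra.algebraMap_eq_smul_one, Algebra.algebraMap_eq_smul_one]
    simp only [mul_smul_comm, smul_mul_assoc, smul_smul, mul_assoc, inv_mul_cancel₀ hc, mul_one]
  rw [h1]
  exact (hP _ (XaY _ _ one_mem) _ (hP _ (XaY _ _ ((W 0).smul_mem _ one_mem)) _ hTP).1).2

theorem nounit {d : ℤ} {S T : E} (hS : S ∈ W d) (hT : T ∈ W (-d)) (h1 : S * T = 1)
    (h2 : T * S = 1) : d = 0 := by
  obtain ⟨m, n, h, hS⟩ := hS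
  obtain ⟨m', n', h', hT⟩ := hT
  have hS' := hS.up m'
  have hT' : Lev T (n + m') (m + m') := hT.to (by omega) (by omega)
  have key : ∀ (A B : E) (p q : ℕ), A * B = 1 →
      ∑ u, ∑ v, (Y p u * A * X q v) * (Y q v * B * X p u) = algebraMap ℚ E (2 ^ p) := by
    intro A B p q hAB
    have : ∀ u, ∑ v, (Y p u * A * X q v) * (Y q v * B * X p u) = 1 := by
      intro u
      calc _ = Y p u * A * (∑ v, X q v * Y q v) * B * X p u := by
            simp only [Finset.mul_sum, Finset.sum_mul, mul_assoc]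
        _ = 1 := by rw [XY, mul_one, mul_assoc (Y p u), hAB, mul_one, YX1]
    simp [this, map_ofNat]
  have e1 := key S T (m + m') (n + m') h1
  have e2 := key T S (n + m') (m + m') h2
  rw [Finset.sum_comm] at e2
  have e3 : algebraMap ℚ E (2 ^ (m + m')) = algebraMap ℚ E (2 ^ (n + m')) := by
    rw [← e1, ← e2]
    refine Finset.sum_congr rfl fun u _ => Finset.sum_congr rfl fun v _ => ?_
    obtain ⟨c, hc⟩ := Algebra.mem_bot.mp (hS' u v)
    rw [← hc, Algebra.commutes]
  have e4 := (algebraMap ℚ E).injective e3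
  have e5 : m + m' = n + m' := pow_right_injective₀ (by norm_num) (by norm_num) e4
  omega

theorem one_eq (d : ℤ) : ∃ (ι : Type) (_ : Fintype ι) (a b : ι → E),
    (∀ i, a i ∈ W d) ∧ (∀ i, b i ∈ W (-d)) ∧ ∑ i, a i * b i = 1 := by
  obtain ⟨m, rfl | rfl⟩ := Int.eq_nat_or_neg d
  · exact ⟨_, inferInstance, X m, Y m, X_mem m, Y_mem m, XY m⟩
  · exact ⟨Unit, inferInstance, fun _ => Y m default, fun _ => X m default, fun _ => Y_mem m _,
      fun _ => W_cast (X_mem m _) (by simp), by simp [YX1]⟩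

theorem core {d : ℤ} {Z : E} (hZ : Z ∈ W d) (h0 : Z ≠ 0) (hc : ∀ a ∈ W 0, a * Z = Z * a) :
    d = 0 := by
  let P : AddSubgroup E := (W 0).toAddSubgroup.map (AddMonoidHom.mulLeft Z)
  have hP : ∀ a ∈ W 0, ∀ t ∈ P, a * t ∈ P ∧ t * a ∈ P := by
    rintro a ha _ ⟨t, ht, rfl⟩
    refine ⟨⟨a * t, W_cast (W_mul ha ht) (by simp), ?_⟩, ⟨t * a, W_cast (W_mul ht ha) (by simp), ?_⟩⟩
    · show Z * (a * t) = a * (Z * t)
      rw [← mul_assoc, ← hc a ha, mul_assoc]
    · exact (mul_assoc _ _ _).symm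
  have hall : ∀ S ∈ W d, ∃ t ∈ W 0, S = Z * t := fun S hS => by
    obtain ⟨t, ht, e⟩ := simple P hP hZ h0 ⟨1, one_mem, mul_one Z⟩ hS
    exact ⟨t, ht, e.symm⟩
  obtain ⟨ι, _, a, b, ha, hb, e⟩ := one_eq d
  obtain ⟨κ, _, a', b', ha', hb', e'⟩ := one_eq (-d)
  choose t ht ht' using fun i => hall _ (ha i)
  choose s hs hs' using fun i => hall _ (W_cast (hb' i) (neg_neg d))
  have h1 : Z * ∑ i, t i * b i = 1 := by
    rw [← e, Finset.mul_sum]
    exact Finset.sum_congr rfl fun i _ => by rw [ht' i, mul_assoc]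
  have h2 : (∑ i, a' i * s i) * Z = 1 := by
    rw [← e', Finset.sum_mul]
    exact Finset.sum_congr rfl fun i _ => by rw [hs' i, mul_assoc, hc _ (hs i)]
  have h3 := left_inv_eq_right_inv h2 h1
  refine nounit hZ ((W _).sum_mem fun i _ => W_cast (W_mul (ht i) (hb i)) (by simp)) h1 ?_
  rw [← h3, h2]

end H22.Leav
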