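import Pool.Agent.H22.BBH

namespace Pool.Agent.H22.GLS

open Function Subgroup FormLat
open Pool.Agent.H22.Fit (pel pgrp)
open scoped commutatorElement

variable {F A B C X Y : Cls} {G H : Type} [Group G] [Group H] {p : ℕ}

def Le (A B : Cls) : Prop := ∀ (G : Type) [Group G], A G → B G

theorem Le.trans (a : Le A B) (b : Le B C) : Le A C := fun G _ h => b G (a G h)

def Inf (A B : Cls) : Cls := fun G _ => A G ∧ B G

theorem inf_form (a : IsForm A) (b : IsForm B) : IsForm (Inf A B) :=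
  ⟨fun G _ h => a.1 G h.1, fun G K _ _ e h => ⟨a.2.1 G K e h.1, b.2.1 G K e h.2⟩,
    fun G _ N _ h => ⟨a.2.2.1 G N h.1, b.2.2.1 G N h.2⟩,
    fun G _ _ N L _ _ e u v => ⟨a.2.2.2 G N L e u.1 v.1, b.2.2.2 G N L e u.2 v.2⟩⟩

theorem le_Jn1 (a : IsForm A) (b : IsForm B) (h : B H) : Le A (Jn A B) := fun G _ hG =>
  ⟨G, _, a.1 G hG, ⊤, ⊥, MonoidHom.id G, top_inf_eq _, Fq_bot hG, Fq_top b h G, surjective_id⟩

theorem le_Jn2 (a : IsForm A) (b : IsForm B) (h : A H) : Le B (Jn A B) := fun G _ hG =>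
  ⟨G, _, b.1 G hG, ⊥, ⊤, MonoidHom.id G, bot_inf_eq _, Fq_top a h G, Fq_bot hG, surjective_id⟩

theorem fq_mono {N : Subgroup G} (h : Fq A N) (a : Le A B) : Fq B N := by
  obtain ⟨Q, _, f, u, v, w⟩ := h
  exact ⟨Q, _, f, u, v, a Q w⟩

theorem Jn_le (c : IsForm C) (a : Le A C) (b : Le B C) : Le (Jn A B) C := by
  rintro G _ ⟨D, _, _, X, Y, π, h1, h2, h3, h4⟩
  exact ((fq_mono h3 b).inf c (fq_mono h2 a)).of_le c π h4 (h1.le.trans bot_le)

theorem modular (x : IsForm X) (y : IsForm Y) (a : IsForm A) (l : Le Y X) (h : Le (Inf X A) Y)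
    (hG : X G) (j : Jn Y A G) : Y G := by
  obtain ⟨D, _, _, S, T, π, h1, h2, h3, h4⟩ := j
  have := h2.normal
  have := h3.normal
  have k := (fq_mono h2 l).inf x ⟨G, _, π, h4, rfl, hG⟩
  refine (h2.inf y (Fq.mk (S ⊔ (T ⊓ π.ker)) (h _ ⟨k.quot x _ le_sup_right,
    h3.quot a _ le_sup_left⟩))).of_le y π h4 fun d hd => ?_
  obtain ⟨s, hs, t, ht, rfl⟩ := mem_sup_of_normal_left.1 hd.2
  rw [mem_bot.1 (h1.le ⟨hs, (T.mul_mem_cancel_right ht.1).1 hd.1⟩), one_mul]
  exact ht.2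

inductive Dp : Cls → ℕ → Prop
  | zero (X : Cls) : IsForm X → Dp X 0
  | step (Y X : Cls) (n : ℕ) : Dp Y n → IsForm X → Le Y X → ¬ Le X Y → Dp X (n + 1)

theorem Dp.form {n : ℕ} (h : Dp X n) : IsForm X := by cases h <;> assumption

theorem Dp.mono {n : ℕ} (h : Dp X n) (y : IsForm Y) (l : Le X Y) : Dp Y n := by
  cases h with
  | zero => exact Dp.zero Y y
  | step Z _ n a _ b c => exact a.step Z Y n y (b.trans l) fun e => c (l.trans e)

theorem Dp.drop {n : ℕ} (h : Dp X (n + 1)) (a : IsForm A) (b : IsForm B) (l : Le A B)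
    (m : ∀ K, IsForm K → Le A K → Le K B → Le K A ∨ Le B K) (x : Le X B) : Dp (Inf X A) n := by
  induction n generalizing X with
  | zero => exact Dp.zero _ (inf_form h.form a)
  | succ n ih =>
    cases h with
    | step Y _ _ u v w t =>
    by_cases e : Le Y A
    · exact u.mono (inf_form v a) fun G _ h => ⟨w G h, e G h⟩
    refine (ih u (w.trans x)).step _ _ n (inf_form v a) (fun G _ h => ⟨w G h.1, h.2⟩) fun s => t ?_
    by_cases c : ∃ (H : Type) (_ : Group H), A H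
    · obtain ⟨H, _, c⟩ := c
      obtain ⟨K, _, d⟩ : ∃ (H : Type) (_ : Group H), Y H := by
        by_contra d
        exact e fun G _ h => absurd ⟨G, _, h⟩ d
      have := (m _ (Jn_form u.form a) (le_Jn2 u.form a d) (Jn_le b (w.trans x) l)).resolve_left
        fun k => e ((le_Jn1 u.form a c).trans k)
      exact fun G _ h => modular v u.form a w (fun G _ h => (s G h).1) h (this G (x G h))
    · exact x.trans ((m Y u.form (fun G _ h => absurd ⟨G, _, h⟩ c) (w.trans x)).resolve_left e)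

def El (p : ℕ) : Cls := fun G _ => Finite G ∧ (∀ a b : G, a * b = b * a) ∧ ∀ a : G, a ^ p = 1

theorem mk_form (h1 : ∀ (G : Type) [Group G], F G → Finite G)
    (h2 : ∀ (G H : Type) [Group G] [Group H] (f : G →* H), Surjective f → F G → F H)
    (h3 : ∀ (G : Type) [Group G] [Finite G] (N L : Subgroup G) [N.Normal] [L.Normal],
      N ⊓ L = ⊥ → F (G ⧸ N) → F (G ⧸ L) → F G) : IsForm F :=
  ⟨h1, fun G K _ _ ⟨e⟩ => h2 G K e.toMonoidHom e.surjective,
    fun G _ N _ => h2 G _ _ (QuotientGroup.mk'_surjective N), h3⟩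

theorem two_q {N L : Subgroup G} [N.Normal] [L.Normal] (e : N ⊓ L = ⊥) {x y : G}
    (a : (x : G ⧸ N) = y) (b : (x : G ⧸ L) = y) : x = y :=
  inv_mul_eq_one.1 (e.le ⟨QuotientGroup.eq.1 a, QuotientGroup.eq.1 b⟩)

theorem el_form (p : ℕ) : IsForm (El p) :=
  mk_form (fun _ _ h => h.1) (fun G H _ _ f hf ⟨_, a, b⟩ => ⟨Finite.of_surjective f hf, fun x y => by
      obtain ⟨x, rfl⟩ := hf x
      obtain ⟨y, rfl⟩ := hf y
      rw [← map_mul, a, map_mul], fun x => by
      obtain ⟨x, rfl⟩ := hf x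
      rw [← map_pow, b, map_one]⟩)
    fun G _ _ N L _ _ e a b => ⟨‹_›, fun x y => two_q e (a.2.1 x y) (b.2.1 x y),
      fun x => two_q e (a.2.2 x) (b.2.2 x)⟩

theorem pg_form (p : ℕ) : IsForm fun G _ => Finite G ∧ IsPGroup p G :=
  mk_form (fun _ _ h => h.1) (fun G H _ _ f hf h => have := h.1
    ⟨Finite.of_surjective f hf, h.2.of_surjective f hf⟩) fun G _ _ N L _ _ e a b => ⟨‹_›, fun x => by
      obtain ⟨i, hi⟩ := a.2 x
      obtain ⟨j, hj⟩ := b.2 x
      exact ⟨i + j, two_q e (by simp [pow_add, pow_mul, hi])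
        (by rw [add_comm]; simp [pow_add, pow_mul, hj])⟩⟩

def Ee (p : ℕ) : Cls := fun G _ => Finite G ∧ ∃ O : Subgroup G, Fq (El p) O ∧ ∀ x ∈ O, pel p x → x = 1

theorem ee_form (hp : p.Prime) : IsForm (Ee p) := by
  refine mk_form (fun _ _ h => h.1) ?_ ?_
  · rintro G H _ _ f hf ⟨_, O, a, b⟩
    have := a.normal.map f hf
    refine ⟨Finite.of_surjective f hf, O.map f, Fq.mk _ (a.of_le (el_form p)
      ((QuotientGroup.mk' _).comp f) ((QuotientGroup.mk'_surjective _).comp hf) fun x hx =>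
        (QuotientGroup.eq_one_iff _).2 ⟨x, hx, rfl⟩), fun x hx hx' => ?_⟩
    obtain ⟨y, h1, h2⟩ := pel.lift (y := ⟨x, hx⟩) hp _ (f.subgroupMap_surjective O)
      (hx'.imp fun k hk => Subtype.ext hk)
    rw [← show f y = x from congrArg Subtype.val h2, b y y.2 (h1.map O.subtype), map_one]
  · rintro G _ _ N L _ _ e ⟨_, O, a, b⟩ ⟨_, P, c, d⟩
    exact ⟨‹_›, _, (a.comap _ (QuotientGroup.mk'_surjective N)).inf (el_form p)
      (c.comap _ (QuotientGroup.mk'_surjective L)), fun x hx h => two_q e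
        (b _ hx.1 (h.map (QuotientGroup.mk' N))) (d _ hx.2 (h.map (QuotientGroup.mk' L)))⟩

theorem triv_mem (hF : IsForm F) (h : F H) [Subsingleton G] : F G :=
  surj hF 1 (fun _ => ⟨1, Subsingleton.elim _ _⟩) h

theorem el_le (hF : IsForm F) [Fact p.Prime] (h : F H) (a : El p H) [Nontrivial H] : Le (El p) F := by
  have k : ∀ (G : Type) [Group G], El p G → ∀ z : G, z ≠ 1 →
      ∃ l : G →* Multiplicative (ZMod p), Surjective l ∧ l z ≠ 1 := fun G _ e z hz => by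
    obtain ⟨l, u, v⟩ := sep (V := ⊤) (fun a _ b _ => e.2.1 a b) (fun a _ => e.2.2 a) (mem_top z) hz
    let l' : G →* Multiplicative (ZMod p) :=
      MonoidHom.mk' (fun x => .ofAdd (l x)) fun a b => congrArg _ (u a trivial b trivial)
    have : Fact (Nat.card (Multiplicative (ZMod p))).Prime := ⟨by simpa using Fact.out⟩
    exact ⟨l', MonoidHom.range_eq_top.1 (l'.range.eq_bot_or_eq_top_of_prime_card.resolve_left
      fun c => v (c.le ⟨z, rfl⟩)), v⟩
  obtain ⟨z, hz⟩ := exists_ne (1 : H)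
  obtain ⟨l, u, -⟩ := k H a z hz
  have c := surj hF l u h
  intro G _ e
  induction hn : Nat.card G using Nat.strong_induction_on generalizing G with
  | _ n ih =>
  have := e.1
  rcases subsingleton_or_nontrivial G with _ | _
  · exact triv_mem hF h
  obtain ⟨z, hz⟩ := exists_ne (1 : G)
  obtain ⟨l, u, v⟩ := k G e z hz
  have : (zpowers z).Normal := ⟨fun n hn g => by rwa [e.2.1 g, mul_inv_cancel_right]⟩
  refine sub2 hF _ (QuotientGroup.mk'_surjective (zpowers z)) l u (MonoidHom.id G) surjective_id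
    (fun x h1 h2 => ?_) (ih _ (hn ▸ card_quot_lt (mt zpowers_eq_bot.1 hz)) _
      ((el_form p).2.2.1 _ _ e) rfl) c
  have : Fact (Nat.card (zpowers z)).Prime :=
    ⟨by rw [Nat.card_zpowers, orderOf_eq_prime (e.2.2 z) hz]; exact Fact.out⟩
  rcases (l.ker.subgroupOf (zpowers z)).eq_bot_or_eq_top_of_prime_card with h | h
  · exact congrArg Subtype.val (h.le (show (⟨x, (QuotientGroup.eq_one_iff x).1 h1⟩ : zpowers z) ∈ _ from h2))
  · exact absurd (subgroupOf_eq_top.1 h (mem_zpowers z)) v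

theorem dp_el [Fact p.Prime] : Dp (El p) 2 := by
  have e : IsForm fun _ _ => False :=
    ⟨fun _ _ h => h.elim, fun _ _ _ _ _ h => h, fun _ _ _ _ h => h, fun _ _ _ _ _ _ _ _ h _ => h⟩
  refine ((Dp.zero _ e).step _ (El 1) 0 (el_form 1) (fun _ _ h => h.elim) fun h =>
    h Unit ⟨inferInstance, fun _ _ => rfl, fun _ => rfl⟩).step _ _ 1 (el_form p)
    (fun G _ h => ⟨h.1, h.2.1, fun a => by rw [← pow_one a, h.2.2, one_pow]⟩) fun h => ?_
  have := (h (Multiplicative (ZMod p)) ⟨inferInstance, mul_comm, fun a => by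
    rw [← ofAdd_toAdd a, ← ofAdd_nsmul]; simp⟩).2.2 (.ofAdd 1)
  simp at this

def epow (g : G) (a : ZMod p) : G := g ^ a.val

theorem epow_add [NeZero p] {g : G} (h : g ^ p = 1) (a b : ZMod p) :
    epow g (a + b) = epow g a * epow g b := by
  rw [epow, ZMod.val_add, ← pow_eq_pow_mod _ h, pow_add]; rfl

theorem epow_mul [NeZero p] {g : G} (h : g ^ p = 1) (a b : ZMod p) :
    epow g (a * b) = g ^ (a.val * b.val) := by
  rw [epow, ZMod.val_mul, ← pow_eq_pow_mod _ h]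

theorem epow_inj [Fact p.Prime] {g : G} (h : g ^ p = 1) (h1 : g ≠ 1) {a : ZMod p} (e : epow g a = 1) :
    a = 0 := (ZMod.val_eq_zero a).1 (Nat.eq_zero_of_dvd_of_lt
      ((orderOf_eq_prime h h1).symm.dvd.trans (orderOf_dvd_of_pow_eq_one e)) (ZMod.val_lt a))

abbrev T1 (p : ℕ) := Multiplicative (ZMod (p ^ 2))
abbrev T2 (p : ℕ) := Hs (ZMod p) Unit Unit

theorem T1_not [Fact p.Prime] : ¬ El p (T1 p) := fun h => by
  have h1 := (Fact.out : p.Prime).one_lt
  have := h.2.2 (.ofAdd 1)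
  rw [← ofAdd_nsmul, nsmul_one, ofAdd_eq_one, ZMod.natCast_eq_zero_iff] at this
  exact absurd (Nat.le_of_dvd (by omega) this) (by nlinarith)

theorem T2_not [Fact p.Prime] : ¬ El p (T2 p) := fun h => by
  simpa [Hs.mul] using congrArg (fun x => x.c ()) (h.2.1 ⟨1, 0, 0, ()⟩ ⟨0, 1, 0, ()⟩)

theorem two_types (hF : IsForm F) [Fact p.Prime] (hG : F G) (hp : IsPGroup p G) (M : Subgroup G)
    [M.Normal] (c : M ≤ center G) (e : ∀ a ∈ M, a ^ p = 1) (q : El p (G ⧸ M)) (n : ¬ El p G) :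
    F (T1 p) ∨ F (T2 p) := by
  have := hF.1 _ hG
  have := hp.isNilpotent
  by_cases h : ∀ a : G, a ^ p = 1
  swap
  · push Not at h
    obtain ⟨a, h⟩ := h
    have o : orderOf a = p ^ 2 := orderOf_eq_prime_pow (by rwa [pow_one]) (by
      rw [pow_succ, pow_one, pow_mul]
      exact e _ ((QuotientGroup.eq_one_iff _).1 (q.2.2 a)))
    exact Or.inl (nil_inj hF hG ((zpowers a).subtype.comp (mulEquivOfCyclicCardEq (G := T1 p)
      (by rw [Nat.card_zpowers, o]; simp)).toMonoidHom)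
      ((subtype_injective _).comp (MulEquiv.injective _)))
  obtain ⟨x, y, d⟩ : ∃ x y : G, ⁅x, y⁆ ≠ 1 := by
    by_contra d
    push Not at d
    exact n ⟨‹_›, fun a b => commutatorElement_eq_one_iff_mul_comm.1 (d a b), h⟩
  have z : ∀ a b : G, ⁅a, b⁆ ∈ center G := fun a b => c ((QuotientGroup.eq_one_iff _).1
    (commutatorElement_eq_one_iff_mul_comm.2 (q.2.1 a b)))
  have k : ∀ i j : ℕ, x ^ i * y ^ j = ⁅x, y⁆ ^ (i * j) * (y ^ j * x ^ i) := fun i j => by
    rw [pow_mul, ← comm_pow (z x y), ← commutatorElement_inv, inv_pow, ← comm_pow (z _ _),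
      commutatorElement_inv, commutatorElement_def]
    group
  let φ : T2 p →* G := MonoidHom.mk' (fun w => epow y (w.b ()) * epow x (w.a ()) * epow ⁅x, y⁆ (w.c ()))
    fun u v => by
      simp only [Hs.mul, Pi.add_apply, Pi.mul_apply, act_apply, epow_add (h _), epow_mul (h _)]
      simp only [epow]
      have h1 := mem_center_iff.1 (pow_mem (z x y) (u.c ()).val) (y ^ (v.b ()).val * x ^ (v.a ()).val)
      have h2 := mem_center_iff.1 (pow_mem (z x y) ((u.a ()).val * (v.b ()).val))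
        (y ^ (v.b ()).val * x ^ (u.a ()).val * x ^ (v.a ()).val * ⁅x, y⁆ ^ (u.c ()).val *
          ⁅x, y⁆ ^ (v.c ()).val)
      have h3 := k (u.a ()).val (v.b ()).val
      generalize ⁅x, y⁆ ^ ((u.a ()).val * (v.b ()).val) = s, ⁅x, y⁆ ^ (u.c ()).val = c1,
        ⁅x, y⁆ ^ (v.c ()).val = c2, x ^ (u.a ()).val = a1, x ^ (v.a ()).val = a2,
        y ^ (u.b ()).val = b1, y ^ (v.b ()).val = b2 at *
      calc _ = b1 * (b2 * a1 * a2 * c1 * c2 * s) := by group
        _ = b1 * (s * (b2 * a1)) * a2 * c1 * c2 := by rw [h2]; group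
        _ = b1 * a1 * (b2 * a2 * c1) * c2 := by rw [← h3]; group
        _ = _ := by rw [h1]; group
  refine Or.inr (nil_inj hF hG φ ((injective_iff_map_eq_one φ).2 fun w hw => ?_))
  have t : ∀ c : ZMod p, φ ⟨0, 0, fun _ => c, ()⟩ = 1 → c = 0 := fun c hc =>
    epow_inj (h _) d (by simpa [φ, epow] using hc)
  have s : ∀ v, φ ⁅w, v⁆ = 1 := fun v => by rw [map_commutatorElement, hw, commutatorElement_one_left]
  have a0 := t (w.a ()) (Eq.trans (congrArg φ (by
    ext <;> simp [commutatorElement_def, Hs.mul, Hs.inv]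
    ring)) (s ⟨0, 1, 0, ()⟩))
  have b0 := t (-w.b ()) (Eq.trans (congrArg φ (by
    ext <;> simp [commutatorElement_def, Hs.mul, Hs.inv]
    ring)) (s ⟨1, 0, 0, ()⟩))
  have e : w = ⟨0, 0, fun _ => w.c (), ()⟩ :=
    Hs.ext (funext fun _ => a0) (funext fun _ => neg_eq_zero.1 b0) rfl rfl
  rw [e, t (w.c ()) (e ▸ hw)]
  rfl

theorem proj {L W : Subgroup H} (hL : MinN L) (c : ∀ a ∈ L, ∀ b ∈ L, a * b = b * a)
    (hW : IsCoatom W) (w : ¬ L ≤ W) (hm : ∀ K : Subgroup H, K.Normal → K ≠ ⊥ → L ≤ K) :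
    ∃ s : H →* H, (∀ y, (s y)⁻¹ * y ∈ L) ∧ ∀ y, (∀ v ∈ L, v * y = y * v) → s y = 1 := by
  have := hL.1
  have t := hW.2 _ (right_lt_sup.2 w)
  have b : centralizer (L : Set H) ⊓ W = ⊥ := by
    by_contra b
    refine w ((hm _ ⟨fun x hx g => ?_⟩ b).trans inf_le_right)
    obtain ⟨u, hu, y, hy, rfl⟩ := mem_sup_of_normal_left.1 (t.ge (mem_top g))
    have := Normal.conj_mem inferInstance x hx.1 y
    rw [show u * y * x * (u * y)⁻¹ = u * (y * x * y⁻¹) * u⁻¹ by group, this u hu, mul_inv_cancel_right]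
    exact ⟨this, W.mul_mem (W.mul_mem hy hx.2) (W.inv_mem hy)⟩
  have l : L ≤ centralizer (L : Set H) := fun x hx v hv => c v hv x hx
  let i := MulEquiv.ofBijective ((QuotientGroup.mk' L).comp W.subtype) ⟨(injective_iff_map_eq_one _).2
    fun x hx => Subtype.ext (b.le ⟨l ((QuotientGroup.eq_one_iff _).1 hx), x.2⟩), fun y => by
      obtain ⟨y, rfl⟩ := QuotientGroup.mk_surjective y
      obtain ⟨u, hu, y, hy, rfl⟩ := mem_sup_of_normal_left.1 (t.ge (mem_top y))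
      exact ⟨⟨y, hy⟩, by simp [(QuotientGroup.eq_one_iff u).2 hu]⟩⟩
  let s : H →* H := W.subtype.comp (i.symm.toMonoidHom.comp (QuotientGroup.mk' L))
  have s1 : ∀ y, (s y)⁻¹ * y ∈ L := fun y => QuotientGroup.eq.1 (i.apply_symm_apply _)
  exact ⟨s, s1, fun y hy => b.le ⟨by
    simpa using mul_mem (show y ∈ centralizer (L : Set H) from hy) (inv_mem (l (s1 y))),
    SetLike.coe_mem _⟩⟩

theorem bk_to (hF : IsForm F) {D : Type} [Group D] [Finite D] {X Y : Subgroup D} [X.Normal]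
    (e : X ⊓ Y = ⊥) (h : Fq F Y) (π s : D →* G) (k : ∀ x ∈ X, ∀ b, s b * π x = π b * π x * (π b)⁻¹ * s b)
    (y : ∀ b ∈ Y, s b = 1) (N : Subgroup G) (n : ∀ g, g ∈ N ↔ ∃ x ∈ X, ∃ b, π x * s b = g) : F N := by
  obtain ⟨Q, _, ψ, u, rfl, v⟩ := h
  have m : ∀ x : fibr (QuotientGroup.mk' X) (QuotientGroup.mk' X), x.1.1 * x.1.2⁻¹ ∈ X := fun x =>
    QuotientGroup.eq_iff_div_mem.1 x.2 |> (div_eq_mul_inv x.1.1 x.1.2 ▸ ·)
  let θ : fibr (QuotientGroup.mk' X) (QuotientGroup.mk' X) →* N :=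
    MonoidHom.mk' (fun x => ⟨π (x.1.1 * x.1.2⁻¹) * s x.1.2, (n _).2 ⟨_, m x, _, rfl⟩⟩) fun a b =>
      Subtype.ext (by
        have := k _ (m b) a.1.2
        simp only [coe_mul, Prod.fst_mul, Prod.snd_mul, map_mul, map_inv, mul_inv_rev] at this ⊢
        calc _ = π a.1.1 * (π a.1.2)⁻¹ * (π a.1.2 * (π b.1.1 * (π b.1.2)⁻¹) * (π a.1.2)⁻¹ * s a.1.2) *
            s b.1.2 := by group
          _ = _ := by rw [← this]; group)
  refine sub2 hF (ψ.comp ((MonoidHom.fst D D).comp (Subgroup.subtype _)))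
    (u.comp fun d => ⟨⟨(d, d), rfl⟩, rfl⟩) (ψ.comp ((MonoidHom.snd D D).comp (Subgroup.subtype _)))
    (u.comp fun d => ⟨⟨(d, d), rfl⟩, rfl⟩) θ (fun g => ?_) (fun x h1 h2 => Subtype.ext ?_) v v
  · obtain ⟨x, hx, b, e⟩ := (n g).1 g.2
    exact ⟨⟨(x * b, b), QuotientGroup.eq_iff_div_mem.2 (by simpa using hx)⟩, Subtype.ext (by simpa [θ] using e)⟩
  · have := mem_bot.1 (e.le ⟨m x, ψ.ker.mul_mem h1 (ψ.ker.inv_mem h2)⟩)
    change π (x.1.1 * x.1.2⁻¹) * s x.1.2 = 1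
    rw [this, y x.1.2 h2, map_one, mul_one]

theorem cover [Fact p.Prime] (b : IsForm B) (d : ¬ Dp B 4) (x : IsForm X) (l : Le (El p) X)
    (l' : Le X B) (h : X H) (n : ¬ El p H) : Le B X := by
  by_contra c
  exact d ((dp_el.step _ _ 2 x l fun e => n (e H h)).step _ _ 3 b l' c)

theorem prime_of [Finite G] [Group.IsSolvable G] {N : Subgroup G} (h : MinN N) :
    (∀ a ∈ N, ∀ b ∈ N, a * b = b * a) ∧ ∃ r : ℕ, r.Prime ∧ ∀ a ∈ N, a ^ r = 1 := by
  have c := h.cases.resolve_right (comm_lt h.2.1).ne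
  obtain ⟨r, hr, hd⟩ := Nat.exists_prime_and_dvd ((one_lt_card_iff_ne_bot N).2 h.2.1).ne'
  have := Fact.mk hr
  obtain ⟨x, hx, x1, ox⟩ := cauchy hd
  exact ⟨c, r, hr, h.exp c hx x1 ox⟩

theorem min_cent [Finite G] [Fact p.Prime] (hp : IsPGroup p G) {N : Subgroup G} (h : MinN N) :
    N ≤ center G := by
  have := h.1
  obtain ⟨w, a, b, c⟩ := Fit.fixed_conj (P := ⊤) (hp.to_subgroup _) (hp.to_subgroup N) h.2.1
  exact inf_eq_left.1 (h.2.2 _ inferInstance inf_le_left fun e =>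
    b (e.le ⟨a, mem_center_iff.2 fun g => c g trivial⟩))

theorem kinds [Fact p.Prime] (b : IsForm B) (s : ∀ (G : Type) [Group G], B G → Group.IsSolvable G)
    (d : ¬ Dp B 4) (l : Le (El p) B) (h : B G) (n : ¬ El p G) : Le B (Ee p) ∨ B (T1 p) ∨ B (T2 p) := by
  induction hn : Nat.card G using Nat.strong_induction_on generalizing G with
  | _ k ih =>
  have := b.1 _ h
  have := s _ h
  rcases subsingleton_or_nontrivial G with _ | _
  · exact absurd ⟨‹_›, fun _ _ => Subsingleton.elim _ _, fun _ => Subsingleton.elim _ _⟩ n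
  obtain ⟨M, -, hM⟩ := exists_minN (M := (⊤ : Subgroup G)) inferInstance top_ne_bot
  have := hM.1
  by_cases q : El p (G ⧸ M)
  swap
  · exact ih _ (hn ▸ card_quot_lt hM.2.1) (b.2.2.1 _ M h) q rfl
  obtain ⟨-, r, hr, e⟩ := prime_of hM
  by_cases c : r = p
  · subst c
    have : IsPGroup r G := fun g => ⟨2, by
      rw [pow_two, pow_mul]; exact e _ ((QuotientGroup.eq_one_iff _).1 (q.2.2 g))⟩
    exact Or.inr (two_types b h this M (min_cent this hM) e q n)
  refine Or.inl fun K _ k => (cover b d (inf_form b (ee_form Fact.out)) (fun K _ k =>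
    ⟨l K k, k.1, ⊥, Fq_bot k, fun _ h _ => h⟩) (fun _ _ h => h.1) ⟨h, ‹_›, M, Fq.mk M q,
      fun x hx a => a.two Fact.out hr (Ne.symm c) ⟨1, (pow_one r).symm ▸ e x hx⟩⟩ n K k).2

theorem ee_case (c : IsForm C) (l : Le (El p) C) (e : Le B (Ee p)) {D : Type} [Group D] [Finite D]
    {X Y : Subgroup D} (h : X ⊓ Y = ⊥) (a : Fq B Y) (b : Fq C X) (hp : p.Prime) (π : D →* G)
    (u : Surjective π) (g : IsPGroup p G) : C G := by
  obtain ⟨Q, _, ψ, v, rfl, w⟩ := a
  obtain ⟨-, O, o1, o2⟩ := e Q w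
  refine (b.inf c ((fq_mono o1 l).comap ψ v)).of_le c π u fun x hx => ?_
  obtain ⟨y, h1, h2⟩ := pel.lift (y := ⟨π x, x, hx, rfl⟩) hp _
    (π.subgroupMap_surjective (X ⊓ O.comap ψ)) ((g (π x)).imp fun k hk => Subtype.ext hk)
  rw [MonoidHom.mem_ker, ← show π y = π x from congrArg Subtype.val h2, mem_bot.1 (h.le
    ⟨y.2.1, o2 _ y.2.2 ((h1.map (Subgroup.subtype _)).map ψ)⟩), map_one]

theorem el_quot {K : Type} [CommGroup K] (hF : IsForm F) [Fact p.Prime] (h : F K)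
    (d : p ∣ Nat.card K) : Le (El p) F := by
  have := hF.1 _ h
  obtain ⟨x, hx⟩ := exists_prime_orderOf_dvd_card' p d
  have := QuotientGroup.nontrivial_iff.2 fun e : (powMonoidHom p : K →* K).range = ⊤ => by
    have := (injective_iff_map_eq_one _).1 (Finite.injective_iff_surjective.2
      (MonoidHom.range_eq_top.1 e)) x (hx ▸ pow_orderOf_eq_one x)
    rw [this, orderOf_one] at hx
    exact (Fact.out : p.Prime).one_lt.ne hx
  refine el_le hF (hF.2.2.1 _ (powMonoidHom p : K →* K).range h) ⟨inferInstance, mul_comm, fun a => ?_⟩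
  obtain ⟨a, rfl⟩ := QuotientGroup.mk_surjective a
  exact (QuotientGroup.eq_one_iff (a ^ p)).2 ⟨a, rfl⟩

theorem distrib (f : IsForm F) (s : ∀ (G : Type) [Group G], F G → Group.IsSolvable G) (d : ¬ Dp F 5)
    (a : IsForm A) (b : IsForm B) (c : IsForm C) (aF : Le A F) (bF : Le B F) (cF : Le C F)
    (x : IsForm X) (x1 : Le (Inf A B) X) (x2 : Le (Inf A C) X) (hA : A G)
    (hJ : ∀ K, IsForm K → Le B K → Le C K → K G) : X G := by
  induction hn : Nat.card G using Nat.strong_induction_on generalizing G with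
  | _ n ih =>
  have := a.1 _ hA
  have := s _ (aF _ hA)
  by_contra nX
  have nB : ¬ B G := fun h => nX (x1 G ⟨hA, h⟩)
  have nC : ¬ C G := fun h => nX (x2 G ⟨hA, h⟩)
  have bc : ¬ Le B C := fun h => nC (hJ C c h fun _ _ h => h)
  have cb : ¬ Le C B := fun h => nB (hJ B b (fun _ _ h => h) h)
  obtain ⟨B₀, _, b0, b1⟩ : ∃ (H : Type) (_ : Group H), B H ∧ ¬ C H := by simpa [Le] using bc
  obtain ⟨C₀, _, c0, c1⟩ : ∃ (H : Type) (_ : Group H), C H ∧ ¬ B H := by simpa [Le] using cb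
  have lt : ∀ K, IsForm K → Le K F → ¬ Le F K → ¬ Dp K 4 := fun K _ u v h => d (h.step _ _ 4 f u v)
  have dA := lt A a aF fun h => nX (hJ X x (fun G _ u => x1 G ⟨h G (bF G u), u⟩)
    fun G _ u => x2 G ⟨h G (cF G u), u⟩)
  have dB := lt B b bF fun h => nB (h G (aF G hA))
  have dC := lt C c cF fun h => nC (h G (aF G hA))
  have q : ∀ N : Subgroup G, ∀ _ : N.Normal, N ≠ ⊥ → X (G ⧸ N) := fun N _ h =>
    ih _ (hn ▸ card_quot_lt h) (a.2.2.1 _ N hA) (fun K k u v => k.2.2.1 _ N (hJ K k u v)) rfl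
  rcases subsingleton_or_nontrivial G with _ | _
  · exact nB (triv_mem b b0)
  obtain ⟨N, -, hN⟩ := exists_minN (M := (⊤ : Subgroup G)) inferInstance top_ne_bot
  have := hN.1
  have hm : ∀ M : Subgroup G, M.Normal → M ≠ ⊥ → N ≤ M := fun M u v => by
    by_contra e
    refine nX (x.2.2.2 G N M ?_ (q N _ hN.2.1) (q M u v))
    by_contra c
    exact e (inf_eq_left.1 (hN.2.2 _ inferInstance inf_le_left c))
  obtain ⟨hc, p, hp, he⟩ := prime_of hN
  have := Fact.mk hp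
  obtain ⟨D, _, _, S, T, π, h1, h2, h3, h4⟩ := hJ _ (Jn_form b c) (le_Jn1 b c c0) (le_Jn2 b c b0)
  have := h2.normal
  have := h3.normal
  have nS : N ≤ S.map π := hm _ (Normal.map ‹_› π h4) fun e =>
    nC (h3.of_le c π h4 ((Subgroup.map_eq_bot_iff _).1 e))
  have nT : N ≤ T.map π := hm _ (Normal.map ‹_› π h4) fun e =>
    nB (h2.of_le b π h4 ((Subgroup.map_eq_bot_iff _).1 e))
  by_cases fr : ∀ W : Subgroup G, IsCoatom W → N ≤ W
  swap
  · push Not at fr
    obtain ⟨W, hW, w⟩ := fr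
    obtain ⟨σ, s1, s2⟩ := proj hN hc hW w hm
    refine nB (b.2.1 _ _ ⟨topEquiv⟩ (bk_to b (X := S ⊓ N.comap π) (le_bot_iff.1
      ((inf_le_inf_right T inf_le_left).trans h1.le)) h2 π (σ.comp π) (fun y hy g => ?_)
      (fun t ht => s2 _ fun v hv => ?_) ⊤ fun g => ⟨fun _ => ?_, fun _ => trivial⟩))
    · have := hc _ (s1 (π g)) _ hy.2
      rw [MonoidHom.comp_apply]
      generalize σ (π g) = u at *
      calc _ = u * (π y * (u⁻¹ * π g)) * (π g)⁻¹ * u := by group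
        _ = _ := by rw [← this]; group
    · obtain ⟨y, hy, rfl⟩ := nS hv
      rw [← map_mul, commute_of_normal_of_disjoint S T ‹_› ‹_› (disjoint_iff.2 h1) y t hy ht, map_mul]
    · obtain ⟨y, hy, e⟩ := nS (Normal.conj_mem inferInstance _ (s1 g) (σ g))
      obtain ⟨g, rfl⟩ := h4 g
      exact ⟨y, ⟨hy, show π y ∈ N from e ▸ Normal.conj_mem inferInstance _ (s1 _) _⟩, g, by simp [e]⟩
  have nt : N ≠ ⊤ := by
    obtain ⟨W, hW, -⟩ := (eq_top_or_exists_le_coatom (⊥ : Subgroup G)).resolve_left bot_ne_top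
    exact fun e => hW.1 (top_le_iff.1 (e ▸ fr W hW))
  have := QuotientGroup.nontrivial_iff.2 nt
  obtain ⟨r, hr, hd⟩ := Nat.exists_prime_and_dvd (mt index_eq_one.1
    (Group.IsSolvable.commutator_lt_top_of_nontrivial (G ⧸ N)).ne)
  have := Fact.mk hr
  have ax := inf_form a x
  have e0 : Le (El r) (Inf A X) := el_quot ax (surj ax Abelianization.of
    QuotientGroup.mk_surjective ⟨a.2.2.1 _ N hA, q N _ hN.2.1⟩) hd
  have e1 : El r (G ⧸ N) := by
    by_contra e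
    exact nX (cover a dA ax e0 (fun _ _ h => h.1) ⟨a.2.2.1 _ N hA, q N _ hN.2.1⟩ e G hA).2
  have g1 : IsPGroup r G := by
    obtain ⟨P, -, u, v⟩ := Syl.lift (r := r) (QuotientGroup.mk' N) ⊤
      (pgrp fun x _ => ⟨1, (pow_one r).symm ▸ e1.2.2 x⟩)
    have : P = ⊤ := by
      by_contra e
      obtain ⟨W, hW, l⟩ := (eq_top_or_exists_le_coatom P).resolve_left e
      refine hW.1 (top_le_iff.1 fun g _ => ?_)
      obtain ⟨y, hy, e⟩ := v.ge ⟨g, trivial, rfl⟩
      simpa using W.mul_mem (l hy) (fr W hW (QuotientGroup.eq.1 e))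
    exact (this ▸ u).of_equiv topEquiv
  obtain rfl : p = r := by
    by_contra e
    obtain ⟨v, hv⟩ := ne_bot_iff_exists_ne_one.1 hN.2.1
    exact hv (Subtype.ext (pel.two hp hr e ⟨1, (pow_one p).symm ▸ he _ v.2⟩ (g1 v.1)))
  have z := min_cent g1 hN
  have := (nontrivial_iff_ne_bot N).2 hN.2.1
  have k : ∀ (B : Cls) (S T : Subgroup D), IsForm B → S.Normal → S ⊓ T = ⊥ → Fq B T → N ≤ S.map π →
      Le (El p) B := fun B S T b _ u v w => el_le b (bk_to b (X := S ⊓ N.comap π) (le_bot_iff.1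
        ((inf_le_inf_right T inf_le_left).trans u.le)) v π 1
        (fun y hy g => by simp [mem_center_iff.1 (z hy.2) (π g)]) (fun _ _ => rfl) N fun g =>
        ⟨fun h => by
          obtain ⟨y, hy, rfl⟩ := w h
          exact ⟨y, ⟨hy, h⟩, 1, mul_one _⟩, by
          rintro ⟨y, hy, -, rfl⟩
          simpa using hy.2⟩) ⟨inferInstance, fun u v => Subtype.ext (hc _ u.2 _ v.2),
          fun u => Subtype.ext (he _ u.2)⟩
  have lB := k B S T b ‹_› h1 h2 nS
  have lC := k C T S c ‹_› (inf_comm S T ▸ h1) h3 nT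
  have lA : Le (El p) A := fun G _ h => (e0 G h).1
  have tA := two_types a hA g1 N z he e1 fun e => nB (lB G e)
  have tB := (kinds b (fun G _ h => s G (bF G h)) dB lB b0 fun e => b1 (lC _ e)).resolve_left
    fun e => nC (ee_case c lC e h1 h2 h3 hp π h4 g1)
  have tC := (kinds c (fun G _ h => s G (cF G h)) dC lC c0 fun e => c1 (lB _ e)).resolve_left
    fun e => nB (ee_case b lB e (inf_comm S T ▸ h1) h3 h2 hp π h4 g1)
  have sh : ∀ {U V : Cls}, IsForm U → IsForm V → ¬ Dp U 4 → Le (El p) U → Le (El p) V →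
      ∀ (H : Type) [Group H], ¬ El p H → U H → V H → Le U V := fun u v w lu lv H _ n h1 h2 G _ h =>
    (cover u w (inf_form u v) (fun G _ e => ⟨lu G e, lv G e⟩) (fun _ _ h => h.1) ⟨h1, h2⟩ n G h).2
  rcases tA with tA | tA <;> rcases tB with tB | tB <;> rcases tC with tC | tC
  all_goals first
    | exact nB (sh a b dA lA lB _ T1_not tA tB G hA)
    | exact nB (sh a b dA lA lB _ T2_not tA tB G hA)
    | exact nC (sh a c dA lA lC _ T1_not tA tC G hA)
    | exact nC (sh a c dA lA lC _ T2_not tA tC G hA)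
    | exact bc (sh b c dB lB lC _ T1_not tB tC)
    | exact bc (sh b c dB lB lC _ T2_not tB tC)

end Pool.Agent.H22.GLS
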