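import Mathlib

set_option autoImplicit false

namespace H22.Lim

abbrev P := List ℝ × Finset ℝ

def nd (β : ℕ → ℝ) (k : ℕ) : List ℝ := (List.range k).map β

def pre (t : List ℝ) (β : ℕ → ℝ) : Prop := nd β t.length = t

theorem nd_length (β : ℕ → ℝ) (k : ℕ) : (nd β k).length = k := by simp [nd]

theorem nd_eq_iff {β β' : ℕ → ℝ} {k : ℕ} : nd β k = nd β' k ↔ ∀ j < k, β j = β' j := by
  simp [nd, List.map_inj_left]

theorem pre_nd (β : ℕ → ℝ) (k : ℕ) : pre (nd β k) β := by
  unfold pre; rw [nd_length]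

theorem pre_congr {t : List ℝ} {β β' : ℕ → ℝ} (h : ∀ j < t.length, β j = β' j) (hp : pre t β) :
    pre t β' := (nd_eq_iff.2 h).symm.trans hp

theorem pre_agree {t : List ℝ} {β β' : ℕ → ℝ} (h : pre t β) (h' : pre t β') :
    ∀ j < t.length, β j = β' j := nd_eq_iff.1 (h.trans h'.symm)

theorem pre_uniq {t t' : List ℝ} {β : ℕ → ℝ} (h : pre t β) (h' : pre t' β)
    (hl : t.length = t'.length) : t = t' := by
  unfold pre at h h'
  rw [← h, ← h', hl]

theorem pre_snoc {t : List ℝ} {β : ℕ → ℝ} {i : ℝ} :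
    pre (t ++ [i]) β ↔ pre t β ∧ β t.length = i := by
  unfold pre
  simp only [List.length_append, List.length_singleton, nd, List.range_succ, List.map_append,
    List.map_cons, List.map_nil]
  constructor
  · intro h
    have := List.append_inj h (by simp)
    exact ⟨this.1, by simpa using this.2⟩
  · rintro ⟨h, h'⟩
    rw [h, h']

/-- branches along which the weight `p` survives -/
def X (p : P) (β : ℕ → ℝ) : Prop := pre p.1 β ∧ ∀ j, p.1.length ≤ j → β j ∈ p.2

def le (q p : P) : Prop := q.1.length ≤ p.1.length ∧ q.2 ⊆ p.2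

def Φ : Type := P → (ℕ → ℝ) → ℤ

instance : AddCommGroup Φ := inferInstanceAs (AddCommGroup (P → (ℕ → ℝ) → ℤ))

theorem ext {x y : Φ} (h : ∀ p β, x p β = y p β) : x = y := funext fun p => funext (h p)

theorem add_ap (x y : Φ) (p : P) (β : ℕ → ℝ) : (x + y) p β = x p β + y p β := rfl
theorem zero_ap (p : P) (β : ℕ → ℝ) : (0 : Φ) p β = 0 := rfl
theorem zsmul_ap (n : ℤ) (x : Φ) (p : P) (β : ℕ → ℝ) : (n • x) p β = n * x p β := rfl

open Classical in
noncomputable def op (e : P × P) : Module.End ℤ Φ :=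
  AddMonoidHom.toIntLinearMap
  { toFun := fun x p β => if p = e.1 ∧ X e.1 β ∧ le e.1 e.2 then x e.2 β else 0
    map_zero' := by apply ext; intro p β; simp [zero_ap]
    map_add' := by
      intro x y; apply ext; intro p β
      simp only [add_ap]
      split_ifs <;> simp }

abbrev R := FreeAlgebra ℤ (P × P)

noncomputable instance : Module R Φ :=
  Module.compHom Φ (FreeAlgebra.lift ℤ op : R →ₐ[ℤ] Module.End ℤ Φ).toRingHom

noncomputable def E (q p : P) : R := FreeAlgebra.ι ℤ (q, p)

open Classical in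
theorem E_ap (q p : P) (x : Φ) (p' : P) (β : ℕ → ℝ) :
    (E q p • x) p' β = if p' = q ∧ X q β ∧ le q p then x p β else 0 := by
  show ((FreeAlgebra.lift ℤ op) (FreeAlgebra.ι ℤ (q, p)) x) p' β = _
  rw [FreeAlgebra.lift_ι_apply]
  rfl

theorem smul_closed (S : AddSubgroup Φ) (h : ∀ q p, ∀ x ∈ S, E q p • x ∈ S) (r : R) :
    ∀ x ∈ S, r • x ∈ S := by
  induction r using FreeAlgebra.induction with
  | grade0 n =>
    intro x hx
    have : (algebraMap ℤ R n) • x = n • x := by
      rw [eq_intCast, Int.cast_smul_eq_zsmul]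
    rw [this]
    exact S.zsmul_mem hx n
  | grade1 e => exact h e.1 e.2
  | mul a b ha hb => intro x hx; rw [mul_smul]; exact ha _ (hb x hx)
  | add a b ha hb => intro x hx; rw [add_smul]; exact S.add_mem (ha x hx) (hb x hx)

open Classical in
noncomputable def χ (p : P) : Φ := fun p' β => if p' = p ∧ X p β then 1 else 0

theorem le_refl' (p : P) : le p p := ⟨le_rfl, subset_rfl⟩

theorem E_χ {t : List ℝ} {F G : Finset ℝ} (h : F ⊆ G) : E (t, F) (t, G) • χ (t, G) = χ (t, F) := by
  apply ext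
  intro p β
  rw [E_ap]
  unfold χ
  by_cases h1 : p = (t, F) ∧ X (t, F) β
  · have h2 : X (t, G) β := ⟨h1.2.1, fun j hj => h (h1.2.2 j hj)⟩
    rw [if_pos ⟨h1.1, h1.2, le_rfl, h⟩, if_pos ⟨rfl, h2⟩, if_pos h1]
  · rw [if_neg h1, if_neg fun h' => h1 ⟨h'.1, h'.2.1⟩]

noncomputable def M (t : List ℝ) : Submodule R Φ := Submodule.span R {x | ∃ F, x = χ (t, F)}

noncomputable def A (k : ℕ) : Submodule R Φ :=
  Submodule.span R {x | ∃ p : P, p.1.length = k ∧ x = χ p}

theorem χ_mem (t : List ℝ) (F : Finset ℝ) : χ (t, F) ∈ M t := Submodule.subset_span ⟨F, rfl⟩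

/-- functions supported under the node `t` -/
def Sup (t : List ℝ) : Submodule R Φ where
  carrier := {x | ∀ p β, ¬ pre t β → x p β = 0}
  add_mem' := fun {a b} ha hb p β h => by rw [add_ap, ha p β h, hb p β h, add_zero]
  zero_mem' := fun _ _ _ => rfl
  smul_mem' := fun r x hx => smul_closed
    { carrier := {x | ∀ p β, ¬ pre t β → x p β = 0}
      add_mem' := fun {a b} ha hb p β h => by rw [add_ap, ha p β h, hb p β h, add_zero]
      zero_mem' := fun _ _ _ => rfl
      neg_mem' := fun {a} ha p β h => by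
        show - a p β = 0
        rw [ha p β h, neg_zero] }
    (by
      intro q p x hx p' β h
      rw [E_ap]
      split_ifs
      · exact hx p β h
      · rfl) r x hx

def QP (k : ℕ) (x : Φ) : Prop :=
  (∀ p β β', X p β → X p β' → (∀ j < k, β j = β' j) → x p β = x p β') ∧
  (∀ p β, ¬ X p β → x p β = 0) ∧ ∀ (p : P) β, k < p.1.length → x p β = 0

def QA (k : ℕ) : AddSubgroup Φ where
  carrier := {x | QP k x}
  add_mem' := fun {a b} ha hb =>
    ⟨fun p β β' h h' hj => by rw [add_ap, add_ap, ha.1 p β β' h h' hj, hb.1 p β β' h h' hj],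
     fun p β h => by rw [add_ap, ha.2.1 p β h, hb.2.1 p β h, add_zero],
     fun p β h => by rw [add_ap, ha.2.2 p β h, hb.2.2 p β h, add_zero]⟩
  zero_mem' := ⟨fun _ _ _ _ _ _ => rfl, fun _ _ _ => rfl, fun _ _ _ => rfl⟩
  neg_mem' := fun {a} ha =>
    ⟨fun p β β' h h' hj => by
      show - a p β = - a p β'
      rw [ha.1 p β β' h h' hj],
     fun p β h => by
      show - a p β = 0
      rw [ha.2.1 p β h, neg_zero],
     fun p β h => by
      show - a p β = 0
      rw [ha.2.2 p β h, neg_zero]⟩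

/-- locally constant functions of level `k` -/
def Q (k : ℕ) : Submodule R Φ where
  carrier := {x | QP k x}
  add_mem' := fun ha hb => (QA k).add_mem ha hb
  zero_mem' := (QA k).zero_mem
  smul_mem' := fun r x hx => smul_closed (QA k) (by
    intro q p x hx
    refine ⟨fun p' β β' h h' hj => ?_, fun p' β h => ?_, fun p' β h => ?_⟩
    · rw [E_ap, E_ap]
      by_cases h1 : p' = q ∧ le q p
      · obtain ⟨rfl, h2⟩ := h1
        rw [if_pos ⟨rfl, h, h2⟩, if_pos ⟨rfl, h', h2⟩]
        by_cases hk : k < p.1.length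
        · rw [hx.2.2 p β hk, hx.2.2 p β' hk]
        · have key : ∀ {γ γ' : ℕ → ℝ}, X p' γ' → (∀ j < k, γ j = γ' j) → X p γ → X p γ' :=
            fun a b c => ⟨pre_congr (fun j hj => b j (by omega)) c.1,
              fun j hj => h2.2 (a.2 j (h2.1.trans hj))⟩
          by_cases hb : X p β
          · exact hx.1 p β β' hb (key h' hj hb) hj
          · rw [hx.2.1 p β hb, hx.2.1 p β' fun hb' => hb (key h (fun j a => (hj j a).symm) hb')]
      · rw [if_neg fun a => h1 ⟨a.1, a.2.2⟩, if_neg fun a => h1 ⟨a.1, a.2.2⟩]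
    · rw [E_ap, if_neg]
      rintro ⟨rfl, a, _⟩
      exact h a
    · rw [E_ap]
      split_ifs with a
      · obtain ⟨rfl, _, a⟩ := a
        exact hx.2.2 p β (lt_of_lt_of_le h a.1)
      · rfl) r x hx

theorem A_le_Q (k : ℕ) : A k ≤ Q k := by
  refine Submodule.span_le.2 ?_
  rintro _ ⟨p, hp, rfl⟩
  unfold χ
  refine ⟨fun p' β β' h h' _ => ?_, fun p' β h => ?_, fun p' β h => ?_⟩
  · by_cases h1 : p' = p
    · subst h1; simp [h, h']
    · simp [h1]
  · refine if_neg ?_
    rintro ⟨rfl, a⟩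
    exact h a
  · refine if_neg ?_
    rintro ⟨rfl, _⟩
    omega

theorem M_le_A (t : List ℝ) : M t ≤ A t.length :=
  Submodule.span_mono fun _ ⟨F, h⟩ => ⟨(t, F), rfl, h⟩

theorem A_succ (k : ℕ) : A k ≤ A (k + 1) := by
  classical
  refine Submodule.span_le.2 ?_
  rintro _ ⟨⟨t, F⟩, hp, rfl⟩
  have : χ (t, F) = ∑ i ∈ F, E (t, F) (t ++ [i], F) • χ (t ++ [i], F) := by
    apply ext
    intro p β
    have hs : ∀ (s : Finset ℝ) (f : ℝ → Φ), (∑ i ∈ s, f i) p β = ∑ i ∈ s, f i p β := by
      intro s f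
      induction s using Finset.induction_on with
      | empty => rfl
      | insert a s ha ih => rw [Finset.sum_insert ha, Finset.sum_insert ha, add_ap, ih]
    rw [hs]
    simp only [E_ap]
    unfold χ
    by_cases h1 : p = (t, F) ∧ X (t, F) β
    · rw [if_pos h1, Finset.sum_eq_single (β t.length)]
      · rw [if_pos ⟨h1.1, h1.2, by simp, subset_rfl⟩, if_pos]
        refine ⟨rfl, pre_snoc.2 ⟨h1.2.1, rfl⟩, fun j hj => h1.2.2 j ?_⟩
        simp only [List.length_append, List.length_singleton] at hj ⊢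
        omega
      · intro i _ hi
        rw [if_neg (fun a : _ ∧ X (t ++ [i], F) β => hi (pre_snoc.1 a.2.1).2.symm), ite_self]
      · intro h
        exact absurd (h1.2.2 _ le_rfl) h
    · rw [if_neg h1]
      refine (Finset.sum_eq_zero fun i _ => ?_).symm
      rw [if_neg fun a => h1 ⟨a.1, a.2.1⟩]
  rw [this]
  refine Submodule.sum_mem _ fun i _ => Submodule.smul_mem _ _ (Submodule.subset_span ?_)
  exact ⟨(t ++ [i], F), by simp only [List.length_append, List.length_singleton]; simp at hp; omega,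
    rfl⟩

theorem A_mono : Monotone A := monotone_nat_of_le_succ A_succ

end H22.Lim
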