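import Pool.Agent.H22.Lim1

set_option autoImplicit false

namespace H22.Lim

noncomputable def gen (t : List ℝ) (F : Finset ℝ) : M t := ⟨χ (t, F), χ_mem t F⟩

theorem E_gen (t : List ℝ) {F G : Finset ℝ} (h : F ⊆ G) :
    E (t, F) (t, G) • gen t G = gen t F := Subtype.ext (E_χ h)

theorem hom_mem {Y : Type} [AddCommGroup Y] [Module R Y] {t : List ℝ} (φ : M t →ₗ[R] Y)
    (S : Submodule R Y) (h : ∀ F, φ (gen t F) ∈ S) (x : M t) : φ x ∈ S := by
  obtain ⟨x, hx⟩ := x
  induction hx using Submodule.span_induction with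
  | mem x hx => obtain ⟨F, rfl⟩ := hx; exact h F
  | zero => exact (map_zero φ).symm ▸ S.zero_mem
  | add a b ha hb ia ib =>
    exact (map_add φ ⟨a, ha⟩ ⟨b, hb⟩).symm ▸ S.add_mem ia ib
  | smul r a ha ia => exact (map_smul φ r ⟨a, ha⟩).symm ▸ S.smul_mem r ia

theorem hom_sup {t : List ℝ} (φ : M t →ₗ[R] Φ) (x : M t) : φ x ∈ Sup t := by
  refine hom_mem φ _ (fun F => ?_) x
  rw [← E_gen t (subset_refl F), map_smul]
  intro p β h
  rw [E_ap, if_neg fun a => h a.2.1.1]

theorem hom_zero {s t : List ℝ} (θ : M s →ₗ[R] M t) {F0 : Finset ℝ} {β : ℕ → ℝ}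
    (h1 : X (s, F0) β) (h2 : pre t β) (h3 : θ (gen s F0) = 0) (x : M s) : θ x = 0 := by
  classical
  refine (Submodule.mem_bot R).1 (hom_mem θ ⊥ (fun F => ?_) x)
  have hy : θ (gen s (F ∪ F0)) = 0 := by
    set y := θ (gen s (F ∪ F0)) with hy
    have q1 : QP t.length y.1 := A_le_Q _ (M_le_A t y.2)
    have q2 : y.1 ∈ Sup t := hom_sup (M t).subtype y
    have q3 : E (s, F0) (s, F ∪ F0) • y = 0 := by
      rw [hy, ← map_smul, E_gen s Finset.subset_union_right, h3]
    have q4 : E (s, F ∪ F0) (s, F ∪ F0) • y = y := by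
      rw [hy, ← map_smul, E_gen s subset_rfl]
    have q5 : y.1 (s, F ∪ F0) β = 0 := by
      have := congrArg (fun z : M t => z.1 (s, F0) β) q3
      simp only [Submodule.coe_smul, E_ap] at this
      rw [if_pos ⟨trivial, h1, le_rfl, Finset.subset_union_right⟩] at this
      exact this
    apply Subtype.ext
    rw [← q4]
    apply ext
    intro p β'
    rw [Submodule.coe_smul, E_ap]
    split_ifs with a
    · by_cases hp : pre t β'
      · rw [q1.1 _ β' β a.2.1 ⟨h1.1, fun j hj => Finset.subset_union_right (h1.2 j hj)⟩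
          (pre_agree hp h2), q5]
        rfl
      · exact q2 _ _ hp
    · rfl
  rw [← E_gen s (Finset.subset_union_left (s₂ := F0)), map_smul, hy, smul_zero]
  exact Submodule.zero_mem _

theorem branch {s : List ℝ} (φ : M s →ₗ[R] Φ) (h : ∀ x, ∃ k, φ x ∈ A k) (h0 : ∃ x, φ x ≠ 0) :
    ∃ (β : ℕ → ℝ) (F0 : Finset ℝ) (k : ℕ), X (s, F0) β ∧
      {i : ℝ | ∃ x p, φ x p (Function.update β k i) ≠ 0}.Infinite := by
  classical
  obtain ⟨F0, hF⟩ : ∃ F0, φ (gen s F0) ≠ 0 := by
    by_contra hc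
    push Not at hc
    obtain ⟨x, hx⟩ := h0
    exact hx ((Submodule.mem_bot R).1 (hom_mem φ ⊥ (fun F => by rw [hc F]; simp) x))
  obtain ⟨β, hb1, hb2⟩ : ∃ β, X (s, F0) β ∧ φ (gen s F0) (s, F0) β ≠ 0 := by
    by_contra hc
    push Not at hc
    apply hF
    rw [← E_gen s (subset_refl F0), map_smul]
    apply ext
    intro p β
    rw [E_ap]
    split_ifs with a
    · exact hc β a.2.1
    · rfl
  choose kk hkk using h
  let κ : ℝ → ℕ := fun i => max s.length (kk (gen s (insert i F0)))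
  obtain ⟨k, hk⟩ : ∃ k, (κ ⁻¹' {k}).Infinite := by
    by_contra hc
    push Not at hc
    have : (⋃ k, κ ⁻¹' {k}).Countable := Set.countable_iUnion fun k => (hc k).countable
    have h2 : (⋃ k, κ ⁻¹' {k}) = Set.univ := Set.eq_univ_of_forall fun i =>
      Set.mem_iUnion.2 ⟨κ i, rfl⟩
    rw [h2] at this
    exact Cardinal.not_countable_real this
  refine ⟨β, F0, k, hb1, hk.mono fun i hi => ⟨gen s (insert i F0), (s, insert i F0), ?_⟩⟩
  have hi' : κ i = k := hi
  have hs : s.length ≤ k := hi' ▸ le_max_left _ _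
  have q1 : QP k (φ (gen s (insert i F0))) :=
    A_le_Q _ (A_mono (hi' ▸ le_max_right _ _) (hkk _))
  have hag : ∀ j < k, β j = Function.update β k i j := fun j hj => by
    rw [Function.update_of_ne (by omega)]
  have x1 : X (s, insert i F0) β := ⟨hb1.1, fun j hj => Finset.mem_insert_of_mem (hb1.2 j hj)⟩
  have x2 : X (s, insert i F0) (Function.update β k i) := by
    refine ⟨pre_congr (fun j hj => hag j (lt_of_lt_of_le hj hs)) hb1.1, fun j hj => ?_⟩
    by_cases hjk : j = k
    · subst hjk; simp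
    · rw [Function.update_of_ne hjk]; exact x1.2 j hj
  rw [← q1.1 _ β _ x1 x2 hag]
  rw [← E_gen s (Finset.subset_insert i F0), map_smul, E_ap,
    if_pos ⟨rfl, hb1, le_rfl, Finset.subset_insert i F0⟩] at hb2
  exact hb2

abbrev Lv (k : ℕ) := {t : List ℝ // t.length = k}

theorem M_le_A' {k : ℕ} (t : Lv k) : M t.1 ≤ A k := by
  obtain ⟨t, rfl⟩ := t
  exact M_le_A t

open Classical in
noncomputable def sm (k : ℕ) : DirectSum (Lv k) (fun t => M t.1) →ₗ[R] A k :=
  DirectSum.toModule R _ _ fun t => Submodule.inclusion (M_le_A' t)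

theorem sm_ap (k : ℕ) (y : DirectSum (Lv k) (fun t => M t.1)) (t : Lv k) (p : P) (β : ℕ → ℝ)
    (h : pre t.1 β) : (sm k y).1 p β = (y t).1 p β := by
  classical
  induction y using DirectSum.induction_on with
  | zero => rw [map_zero]; rfl
  | of t' x =>
    have : sm k (DirectSum.of (fun t : Lv k => M t.1) t' x)
        = Submodule.inclusion (M_le_A' t') x :=
      DirectSum.toModule_lof R (M := fun t : Lv k => M t.1) t' x
    rw [this]
    by_cases ht : t' = t
    · subst ht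
      rw [DirectSum.of_eq_same]
      rfl
    · rw [DirectSum.of_eq_of_ne _ _ _ (Ne.symm ht)]
      exact hom_sup (M t'.1).subtype x p β fun h' =>
        ht (Subtype.ext (pre_uniq h' h (t'.2.trans t.2.symm)))
  | add a b ha hb =>
    rw [map_add, DirectSum.add_apply, Submodule.coe_add, Submodule.coe_add, add_ap, add_ap, ha, hb]

theorem sm_bij (k : ℕ) : Function.Bijective (sm k) := by
  classical
  constructor
  · rw [injective_iff_map_eq_zero]
    intro y hy
    ext t : 1
    apply Subtype.ext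
    apply ext
    intro p β
    by_cases h : pre t.1 β
    · rw [← sm_ap k y t p β h, hy]; rfl
    · exact hom_sup (M t.1).subtype _ p β h
  · rintro ⟨x, hx⟩
    induction hx using Submodule.span_induction with
    | mem x hx =>
      obtain ⟨p, hp, rfl⟩ := hx
      refine ⟨DirectSum.of (fun t : Lv k => M t.1) ⟨p.1, hp⟩ (gen p.1 p.2), ?_⟩
      exact DirectSum.toModule_lof R (M := fun t : Lv k => M t.1) ⟨p.1, hp⟩ (gen p.1 p.2)
    | zero => exact ⟨0, map_zero _⟩
    | add a b ha hb ia ib =>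
      obtain ⟨u, hu⟩ := ia
      obtain ⟨v, hv⟩ := ib
      exact ⟨u + v, by rw [map_add, hu, hv]; rfl⟩
    | smul r a ha ia =>
      obtain ⟨u, hu⟩ := ia
      exact ⟨r • u, by rw [map_smul, hu]; rfl⟩

/-- the submodule generated by the weights born at level greater than `k` -/
noncomputable def deep (k : ℕ) (Y : Type) [AddCommGroup Y] [Module R Y] : Submodule R Y :=
  Submodule.span R {y | ∃ (p : P) (z : Y), k < p.1.length ∧ y = E p p • z}

theorem deep_map {k : ℕ} {Y Z : Type} [AddCommGroup Y] [Module R Y] [AddCommGroup Z] [Module R Z]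
    (f : Y →ₗ[R] Z) {y : Y} (hy : y ∈ deep k Y) : f y ∈ deep k Z := by
  have : deep k Y ≤ (deep k Z).comap f := by
    refine Submodule.span_le.2 ?_
    rintro _ ⟨p, z, hp, rfl⟩
    exact Submodule.subset_span ⟨p, f z, hp, map_smul f _ _⟩
  exact this hy

theorem deep_M {k : ℕ} {t : List ℝ} (ht : t.length ≤ k) {y : M t} (hy : y ∈ deep k (M t)) :
    y = 0 := by
  have : deep k (M t) ≤ ⊥ := by
    refine Submodule.span_le.2 ?_
    rintro _ ⟨p, z, hp, rfl⟩
    refine (Submodule.mem_bot R).2 (Subtype.ext (ext fun p' β => ?_))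
    rw [Submodule.coe_smul, E_ap]
    split_ifs
    · exact (A_le_Q _ (M_le_A t z.2)).2.2 p β (by omega)
    · rfl
  exact (Submodule.mem_bot R).1 (this hy)

theorem deep_A {k l : ℕ} (h : k < l) (y : A l) : y ∈ deep k (A l) := by
  obtain ⟨x, hx⟩ := y
  induction hx using Submodule.span_induction with
  | mem x hx =>
    obtain ⟨p, hp, rfl⟩ := hx
    exact Submodule.subset_span ⟨p, ⟨χ p, Submodule.subset_span ⟨p, hp, rfl⟩⟩, by omega,
      Subtype.ext (E_χ (subset_refl p.2)).symm⟩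
  | zero => exact Submodule.zero_mem _
  | add a b ha hb ia ib => exact Submodule.add_mem _ ia ib
  | smul r a ha ia => exact Submodule.smul_mem _ r ia

theorem χ_ne : χ ([], {0}) ≠ 0 := by
  intro h
  have := congrFun (congrFun h ([], {0})) (fun _ => 0)
  unfold χ at this
  rw [if_pos ⟨rfl, rfl, by simp⟩] at this
  exact one_ne_zero this

open CategoryTheory Limits in
theorem not_lim {J : Type} [SmallCategory J] [IsFiltered J] (F : J ⥤ ModuleCat.{0} R)
    (hF : ∀ j : J, ∃ (n : ℕ) (t : Fin n → List ℝ)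
      (f : (F.obj j : Type) →ₗ[R] DirectSum (Fin n) (fun i => M (t i)))
      (g : DirectSum (Fin n) (fun i => M (t i)) →ₗ[R] (F.obj j : Type)), g ∘ₗ f = LinearMap.id)
    (c : Cocone F) (hc : IsColimit c) (Λ : (c.pt : Type) →ₗ[R] Φ)
    (h1 : ∀ z, ∃ k, Λ z ∈ A k) (h2 : ∃ z, Λ z ≠ 0) (h3 : ∀ k z, z ∈ deep k (c.pt : Type)) :
    False := by
  classical
  choose n t f g hfg using hF
  have hgf : ∀ j y, g j (f j y) = y := fun j y => LinearMap.congr_fun (hfg j) y
  have hdec : ∀ (j : J) (y : F.obj j), Λ (c.ι.app j y) = ∑ b : Fin (n j),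
      Λ (c.ι.app j (g j (DirectSum.lof R _ (fun i => M (t j i)) b (f j y b)))) := by
    intro j y
    rw [← map_sum, ← map_sum, ← map_sum]
    congr 2
    conv_lhs => rw [← hgf j y]
    congr 1
    exact (DirectSum.sum_univ_of (f j y)).symm
  obtain ⟨z, hz⟩ := h2
  obtain ⟨j, y, rfl⟩ := Concrete.isColimit_exists_rep F hc z
  rw [hdec] at hz
  obtain ⟨a, _, ha⟩ := Finset.exists_ne_zero_of_sum_ne_zero hz
  let ψ : M (t j a) →ₗ[R] F.obj j := g j ∘ₗ DirectSum.lof R _ (fun i => M (t j i)) a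
  obtain ⟨β, F0, k, hβ, hinf⟩ := branch (Λ ∘ₗ (c.ι.app j).hom ∘ₗ ψ) (fun x => h1 _) ⟨_, ha⟩
  have hlift : ∀ w ∈ deep k (c.pt : Type), ∃ (j' : J) (y' : F.obj j'),
      y' ∈ deep k (F.obj j' : Type) ∧ c.ι.app j' y' = w := by
    intro w hw
    induction hw using Submodule.span_induction with
    | mem w hw =>
      obtain ⟨p, z, hp, rfl⟩ := hw
      obtain ⟨j', y', rfl⟩ := Concrete.isColimit_exists_rep F hc z
      exact ⟨j', E p p • y', Submodule.subset_span ⟨p, y', hp, rfl⟩, map_smul _ _ _⟩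
    | zero => exact ⟨j, 0, Submodule.zero_mem _, map_zero _⟩
    | add u v _ _ iu iv =>
      obtain ⟨j1, y1, m1, rfl⟩ := iu
      obtain ⟨j2, y2, m2, rfl⟩ := iv
      refine ⟨IsFiltered.max j1 j2, F.map (IsFiltered.leftToMax j1 j2) y1 +
        F.map (IsFiltered.rightToMax j1 j2) y2,
        Submodule.add_mem _ (deep_map _ m1) (deep_map _ m2), ?_⟩
      rw [map_add, c.w_apply, c.w_apply]
    | smul r u _ iu =>
      obtain ⟨j1, y1, m1, rfl⟩ := iu
      exact ⟨j1, r • y1, Submodule.smul_mem _ r m1, map_smul _ _ _⟩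
  obtain ⟨j1, y1, m1, e1⟩ := hlift _ (h3 k (c.ι.app j (ψ (gen _ F0))))
  obtain ⟨j2, u1, u, e2⟩ := Concrete.isColimit_exists_of_rep_eq F hc y1 (ψ (gen _ F0)) e1
  have m2 : F.map u (ψ (gen _ F0)) ∈ deep k (F.obj j2 : Type) := e2 ▸ deep_map (F.map u1).hom m1
  let θ : ∀ b : Fin (n j2), M (t j a) →ₗ[R] M (t j2 b) := fun b =>
    DirectSum.component R _ (fun i => M (t j2 i)) b ∘ₗ f j2 ∘ₗ (F.map u).hom ∘ₗ ψ
  have key : ∀ i : {i : ℝ | ∃ x p, (Λ ∘ₗ (c.ι.app j).hom ∘ₗ ψ) x p (Function.update β k i) ≠ 0},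
      ∃ b : Fin (n j2), k < (t j2 b).length ∧ pre (t j2 b) (Function.update β k i) := by
    rintro ⟨i, x, p, hx⟩
    have e3 : (Λ ∘ₗ (c.ι.app j).hom ∘ₗ ψ) x = Λ (c.ι.app j2 (F.map u (ψ x))) := by
      rw [c.w_apply]; rfl
    rw [e3, hdec] at hx
    by_contra hcon
    push Not at hcon
    apply hx
    have hs : ∀ (s : Finset (Fin (n j2))) (φ : Fin (n j2) → Φ) (γ : ℕ → ℝ),
        (∀ b, φ b p γ = 0) → (∑ b ∈ s, φ b) p γ = 0 := by
      intro s φ γ h
      induction s using Finset.induction_on with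
      | empty => rfl
      | insert a s ha ih => rw [Finset.sum_insert ha, add_ap, ih, h, add_zero]
    refine hs _ _ _ fun b => ?_
    by_cases hp : pre (t j2 b) (Function.update β k i)
    · have hl : (t j2 b).length ≤ k := by
        by_contra hl
        exact hcon b (by omega) hp
      have hp' : pre (t j2 b) β := pre_congr (fun m hm => Function.update_of_ne (by omega) _ _) hp
      have h0 : θ b (gen _ F0) = 0 := deep_M hl
        (deep_map (DirectSum.component R _ (fun i => M (t j2 i)) b ∘ₗ f j2) m2)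
      have h4 : f j2 (F.map u (ψ x)) b = 0 := hom_zero (θ b) hβ hp' h0 x
      rw [h4, map_zero, map_zero, map_zero, map_zero]
      rfl
    · exact hom_sup (Λ ∘ₗ (c.ι.app j2).hom ∘ₗ g j2 ∘ₗ DirectSum.lof R _ (fun i => M (t j2 i)) b)
        _ p _ hp
  choose bb hb1 hb2 using key
  have := hinf.to_subtype
  obtain ⟨i, i', hne, he⟩ := Finite.exists_ne_map_eq_of_infinite bb
  apply hne
  have := pre_agree (hb2 i) (he ▸ hb2 i') k (hb1 i)
  simp only [Function.update_self] at this
  exact Subtype.ext this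

end H22.Lim
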