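import Pool.Agent.H22.FitX

namespace Pool.Agent.H22.Fit

open Subgroup Function Pool.Agent.H22.Syl
open scoped commutatorElement

variable {G H : Type} [Group G] [Group H]

theorem PQ.surj {p q : ℕ} (h : PQ p q G) (φ : G →* H) (hφ : Surjective φ) : PQ p q H := by
  obtain ⟨P, a, b, c⟩ := h
  refine ⟨P.map φ, a.map φ hφ, b.map φ, fun g => ?_⟩
  obtain ⟨g, rfl⟩ := hφ g
  obtain ⟨k, hk⟩ := c g
  exact ⟨k, _, hk, map_pow _ _ _⟩

theorem PQ.inj {p q : ℕ} (h : PQ p q H) (φ : G →* H) (hφ : Injective φ) : PQ p q G := by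
  obtain ⟨P, a, b, c⟩ := h
  exact ⟨P.comap φ, a.comap φ, b.comap_of_injective φ hφ, fun g => (c (φ g)).imp fun k hk => by
    rwa [mem_comap, map_pow]⟩

theorem pel_mem {p q : ℕ} (hp : p.Prime) (hq : q.Prime) (hne : p ≠ q) {P : Subgroup G} [P.Normal]
    (c : ∀ g : G, ∃ k, g ^ q ^ k ∈ P) {x : G} (hx : pel p x) : x ∈ P :=
  (QuotientGroup.eq_one_iff x).1 ((hx.map (QuotientGroup.mk' P)).two hp hq hne
    ((c x).imp fun _ hk => (QuotientGroup.eq_one_iff _).2 hk))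

theorem PQ.sup {p q : ℕ} (hp : p.Prime) (hq : q.Prime) (hne : p ≠ q) {N M : Subgroup G}
    (hN : N.Normal) (hM : M.Normal) (a : PQ p q N) (b : PQ p q M) (e : N ⊔ M = ⊤) : PQ p q G := by
  have key : ∀ N : Subgroup G, N.Normal → PQ p q N → ∃ P : Subgroup G, P.Normal ∧ IsPGroup p P ∧
      ∀ g ∈ N, ∃ k, g ^ q ^ k ∈ P := by
    rintro N hN ⟨P, _, b, c⟩
    refine ⟨P.map N.subtype, ⟨?_⟩, b.map _, fun g hg => (c ⟨g, hg⟩).imp fun k hk => ⟨_, hk, rfl⟩⟩
    rintro _ ⟨x, hx, rfl⟩ g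
    refine ⟨⟨_, hN.conj_mem _ x.2 g⟩, pel_mem hp hq hne c ?_, rfl⟩
    exact (((pel.of_mem b hx).map N.subtype).conj g).imp fun k hk => Subtype.ext hk
  obtain ⟨P, p1, p2, p3⟩ := key N hN a
  obtain ⟨Q, q1, q2, q3⟩ := key M hM b
  refine ⟨P ⊔ Q, inferInstance, p2.to_sup_of_normal_left q2, fun g => ?_⟩
  have sj := QuotientGroup.mk'_surjective (P ⊔ Q)
  have h : ∀ (N R : Subgroup G), R ≤ P ⊔ Q → (∀ g ∈ N, ∃ k, g ^ q ^ k ∈ R) →
      IsPGroup q (N.map (QuotientGroup.mk' (P ⊔ Q))) := fun N R hR h => pgrp (by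
    rintro _ ⟨x, hx, rfl⟩
    exact (h x hx).imp fun k hk => (QuotientGroup.eq_one_iff _).2 (hR hk))
  have := hN.map _ sj
  have h2 := (h N P le_sup_left p3).to_sup_of_normal_left (h M Q le_sup_right q3)
  rw [← Subgroup.map_sup, e] at h2
  exact (pel.of_mem h2 ⟨g, mem_top g, rfl⟩).imp fun k hk => (QuotientGroup.eq_one_iff _).1 hk

/-- Every p-element commuting with all p-elements is central. -/
def Zc (p : ℕ) (G : Type) [Group G] : Prop :=
  ∀ z : G, pel p z → (∀ y, pel p y → y * z = z * y) → ∀ g, g * z = z * g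

theorem Zc.iso {p : ℕ} (e : G ≃* H) (h : Zc p G) : Zc p H := fun z a b g => by
  obtain ⟨z, rfl⟩ := e.surjective z
  obtain ⟨g, rfl⟩ := e.surjective g
  rw [← map_mul, ← map_mul, h z (by simpa using a.map e.symm.toMonoidHom) fun y hy =>
    e.injective (by simpa using b _ (hy.map e.toMonoidHom))]

theorem cop {p q : ℕ} (hp : p.Prime) (hq : q.Prime) (hne : p ≠ q) {x y : G} (hx : pel q x)
    (hc : pel p ⁅y, x⁆) (h : x * ⁅y, x⁆ = ⁅y, x⁆ * x) : x * y = y * x := by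
  obtain ⟨k, hk⟩ := hx
  have h2 : (⁅y, x⁆ * x) ^ q ^ k = 1 := by
    rw [commutatorElement_def, inv_mul_cancel_right, conj_pow, hk, mul_one, mul_inv_cancel]
  rw [Commute.mul_pow h.symm, hk, mul_one] at h2
  exact (commutatorElement_eq_one_iff_mul_comm.1 (hc.two hp hq hne ⟨k, h2⟩)).symm

theorem Zc.sup [Finite G] {p q : ℕ} (hp : p.Prime) (hq : q.Prime) (hne : p ≠ q) (h : PQ p q G)
    {N M : Subgroup G} (hN : N.Normal) (hM : M.Normal) (a : Zc p N) (b : Zc p M) (e : N ⊔ M = ⊤) :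
    Zc p G := fun z hz hc => by
  obtain ⟨P, _, p2, p3⟩ := h
  have key : ∀ N : Subgroup G, N.Normal → Zc p N → N ≤ centralizer {z} := fun N hN a =>
    gen fun t ht x hx hx' => mem_centralizer_singleton_iff.2 (by
      by_cases e : t = p
      · exact hc x (e ▸ hx')
      have m : ⁅z, x⁆ ∈ P := commutator_le_left P ⊤
        (commutator_mem_commutator (pel_mem hp hq hne p3 hz) (mem_top x))
      refine cop hp ht (Ne.symm e) hx' (pel.of_mem p2 m) (congrArg Subtype.val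
        (a ⟨_, commutator_le_right ⊤ N (commutator_mem_commutator (mem_top z) hx)⟩
          ((pel.of_mem p2 m).imp fun k hk => Subtype.ext hk) (fun y hy => Subtype.ext ?_) ⟨x, hx⟩))
      have h1 := hc _ (hy.map N.subtype)
      have h2 := hc _ ((hy.map N.subtype).conj x⁻¹)
      simp only [coe_subtype, inv_inv] at h1 h2
      change y.1 * ⁅z, x⁆ = ⁅z, x⁆ * y.1
      rw [commutatorElement_def, ← mul_assoc, ← mul_assoc, ← mul_assoc, h1]
      have h3 : z⁻¹ * (x⁻¹ * y * x) = (x⁻¹ * y * x) * z⁻¹ := (Commute.inv_right h2).symm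
      calc z * y * x * z⁻¹ * x⁻¹ = z * x * ((x⁻¹ * y * x) * z⁻¹) * x⁻¹ := by group
        _ = _ := by rw [← h3]; group)
  exact fun g => mem_centralizer_singleton_iff.1 ((sup_le (key N hN a) (key M hM b)) (e.ge (mem_top g)))

theorem fixed_conj [Finite G] {p : ℕ} [Fact p.Prime] {P W : Subgroup G} [W.Normal]
    (hP : IsPGroup p P) (hW : IsPGroup p W) (h : W ≠ ⊥) :
    ∃ w ∈ W, w ≠ 1 ∧ ∀ y ∈ P, y * w = w * y := by
  let _ : MulAction P W := MulAction.compHom W ((MulAut.conjNormal (H := W)).comp P.subtype)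
  have := (nontrivial_iff_ne_bot _).2 h
  obtain ⟨k, hk, e⟩ := hW.nontrivial_iff_card.1 inferInstance
  obtain ⟨w, h1, h2⟩ := hP.exists_fixed_point_of_prime_dvd_card_of_fixed_point W
    (e ▸ dvd_pow_self p hk.ne') (a := 1) fun y => map_one (MulAut.conjNormal y.1)
  exact ⟨w, w.2, fun e => h2 (Subtype.ext e.symm), fun y hy =>
    mul_inv_eq_iff_eq_mul.1 (congrArg Subtype.val (h1 ⟨y, hy⟩))⟩

open scoped IsMulCommutative in
theorem Zc.sub [Finite G] {p q : ℕ} (hp : p.Prime) (hq : q.Prime) (hne : p ≠ q) (h : PQ p q G)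
    (a : Zc p G) (N : Subgroup G) (hN : N.Normal) : Zc p N := fun z hz hc => by
  classical
  obtain ⟨P, _, p2, p3⟩ := h
  have := Fact.mk hp
  have := Fact.mk hq
  let A := (P ⊓ N) ⊓ centralizer (P ⊓ N : Subgroup G)
  have : IsMulCommutative A := ⟨⟨fun x y => Subtype.ext (y.2.2 x x.2.1)⟩⟩
  have hA : A.Normal := inferInstance
  have hzA : z.1 ∈ A := ⟨⟨pel_mem hp hq hne p3 (hz.map N.subtype), z.2⟩, fun y hy =>
    congrArg Subtype.val (hc ⟨y, hy.2⟩ ((pel.of_mem p2 hy.1).imp fun k hk => Subtype.ext hk))⟩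
  obtain ⟨Q, q1, q2, q3⟩ := lift (r := q) (QuotientGroup.mk' P) N (pgrp (by
    rintro _ ⟨x, -, rfl⟩
    exact (p3 x).imp fun k hk => (QuotientGroup.eq_one_iff _).2 hk))
  have := Fintype.ofFinite Q
  let τ : A →* A := ∏ u : Q, (MulAut.conjNormal u.1).toMonoidHom
  have hτ : ∀ x, τ x = ∏ u : Q, MulAut.conjNormal u.1 x := fun x => MonoidHom.finsetProd_apply _ _ _
  have inv : ∀ n ∈ N, ∀ x : A, τ (MulAut.conjNormal n x) = τ x := fun n hn x => by
    obtain ⟨u, hu, e⟩ := q3.ge ⟨n, hn, rfl⟩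
    have h1 : MulAut.conjNormal n x = MulAut.conjNormal u x := Subtype.ext (by
      have := x.2.2 (u⁻¹ * n) ⟨QuotientGroup.eq.1 e, N.mul_mem (N.inv_mem (q1 hu)) hn⟩
      simp only [MulAut.conjNormal_apply]
      calc n * x * n⁻¹ = u * ((u⁻¹ * n) * x) * n⁻¹ := by group
        _ = _ := by rw [this]; group)
    rw [h1, hτ, hτ]
    exact Fintype.prod_equiv (Equiv.mulRight (⟨u, hu⟩ : Q)) _ _ fun v => by simp
  have le : ⁅A, N⁆ ≤ τ.ker.map A.subtype := commutator_le.2 fun x hx n hn =>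
    ⟨⟨x, hx⟩ * (MulAut.conjNormal n ⟨x, hx⟩)⁻¹, by
      rw [SetLike.mem_coe, MonoidHom.mem_ker, map_mul, map_inv, inv n hn, mul_inv_cancel], by
      simp [commutatorElement_def, mul_assoc]⟩
  have bot : ⁅A, N⁆ = ⊥ := by
    by_contra e
    have WP : ⁅A, N⁆ ≤ P := (commutator_le_left A N).trans (inf_le_left.trans inf_le_left)
    obtain ⟨w, w1, w3, w2⟩ := fixed_conj p2 (p2.to_le WP) e
    have c := a w (pel.of_mem p2 (WP w1)) fun y hy => w2 y (pel_mem hp hq hne p3 hy)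
    obtain ⟨x, hx, rfl⟩ := le w1
    have h1 : τ x = x ^ Fintype.card Q := by
      rw [hτ, ← Finset.card_univ, ← Finset.prod_const]
      exact Finset.prod_congr rfl fun v _ => Subtype.ext (by
        rw [MulAut.conjNormal_apply]; exact mul_inv_eq_of_eq_mul (c v))
    obtain ⟨k, hk⟩ := q2.exists_card_eq
    rw [MonoidHom.mem_ker.1 hx, ← Nat.card_eq_fintype_card, hk] at h1
    exact w3 ((pel.of_mem p2 (WP w1)).two hp hq hne ⟨k, congrArg Subtype.val h1.symm⟩)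
  exact fun g => Subtype.ext (commutatorElement_eq_one_iff_mul_comm.1
    (bot.le (commutator_mem_commutator hzA g.2))).symm

def WFit (C : Cls) : Prop :=
  (∀ (G K : Type) [Group G] [Group K], Nonempty (G ≃* K) → C G → C K) ∧
  (∀ (G : Type) [Group G] [Finite G] (N : Subgroup G), N.Normal → C G → C ↥N) ∧
  (∀ (G : Type) [Group G] [Finite G] (N K : Subgroup G),
    N.Normal → K.Normal → C ↥N → C ↥K → C ↥(N ⊔ K))

def Prd (C D : Cls) (G : Type) [Group G] : Prop :=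
  ∀ (N : Subgroup G) [N.Normal],
    (C ↥N ∧ ∀ K : Subgroup G, K.Normal → C ↥K → K ≤ N) → D (G ⧸ N)

def Clo (p : ℕ) (Q : Type) [Group Q] : Prop :=
  ∃ P : Subgroup Q, P.Normal ∧ IsPGroup p ↥P ∧ Nat.Coprime P.index p

def Ne (C : Cls) : Prop := ∃ (K : Type) (_ : Group K) (_ : Finite K), C K

def LR (f : ℕ → Cls) (G : Type) [Group G] : Prop :=
  (∀ p : ℕ, p.Prime → p ∣ Nat.card G → Ne (f p)) ∧
    ∀ p : ℕ, p.Prime → Ne (f p) → Prd (f p) (Clo p) G

theorem solv_sup (N M : Subgroup G) [N.Normal] [Group.IsSolvable N] [Group.IsSolvable M] :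
    Group.IsSolvable ↥(N ⊔ M) := by
  have : Group.IsSolvable (M.map (QuotientGroup.mk' N)) :=
    Group.isSolvable_of_surjective ((QuotientGroup.mk' N).subgroupMap_surjective M)
  refine Group.isSolvable_of_ker_le_range (inclusion (le_sup_left : N ≤ N ⊔ M))
    (((QuotientGroup.mk' N).comp (N ⊔ M).subtype).codRestrict (M.map (QuotientGroup.mk' N))
      fun x => ?_) fun x hx => ⟨⟨x, (QuotientGroup.eq_one_iff x.1).1 (congrArg Subtype.val hx)⟩, rfl⟩
  obtain ⟨n, hn, m, hm, e⟩ := mem_sup_of_normal_left.1 x.2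
  exact ⟨m, hm, by simp [← e, (QuotientGroup.eq_one_iff n).2 hn]⟩

def sol (C : Cls) : Cls := fun G _ => C G ∧ Finite G ∧ Group.IsSolvable G

theorem WFit.isFit {C : Cls} (h : WFit C) (hn : Ne C) : IsFit (sol C) := by
  obtain ⟨K, _, _, hK⟩ := hn
  refine ⟨fun _ _ h => h.2, ⟨h.1 _ _ ⟨MulEquiv.ofUnique⟩ (h.2.1 K ⊥ inferInstance hK),
    inferInstance, inferInstance⟩, ?_, ?_, ?_⟩
  · rintro G H _ _ e ⟨a, _, _⟩
    exact ⟨h.1 _ _ ⟨e⟩ a, Finite.of_surjective _ e.surjective,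
      Group.isSolvable_of_surjective (f := e.toMonoidHom) e.surjective⟩
  · rintro G _ N hN ⟨a, _, _⟩
    exact ⟨h.2.1 G N hN a, inferInstance, inferInstance⟩
  · rintro G _ _ N M hN hM ⟨a, _, _⟩ ⟨b, _, _⟩
    exact ⟨h.2.2 G N M hN hM a b, inferInstance, solv_sup N M⟩

theorem WFit.rad {C : Cls} (h : WFit C) (hn : Ne C) (G : Type) [Group G] [Finite G] :
    ∃ N : Subgroup G, N.Normal ∧ C N ∧ ∀ K : Subgroup G, K.Normal → C K → K ≤ N := by
  obtain ⟨K, _, _, hK⟩ := hn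
  obtain ⟨R, ⟨h2, h3⟩, h4⟩ := (wellFounded_gt (α := Subgroup G)).has_min {R | R.Normal ∧ C R}
    ⟨⊥, inferInstance, h.1 _ _ ⟨MulEquiv.ofUnique⟩ (h.2.1 K ⊥ inferInstance hK)⟩
  refine ⟨R, h2, h3, fun N a b => ?_⟩
  by_contra hn
  exact h4 (R ⊔ N) ⟨inferInstance, h.2.2 G R N h2 a h3 b⟩ (left_lt_sup.2 hn)

theorem Clo.mem [Finite G] {p : ℕ} (hp : p.Prime) {P : Subgroup G} [P.Normal]
    (h : P.index.Coprime p) {x : G} (hx : pel p x) : x ∈ P :=
  (QuotientGroup.eq_one_iff x).1 ((hx.map (QuotientGroup.mk' P)).eq_one h.symm pow_card_eq_one')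

theorem PQ.solv [Finite G] {p q : ℕ} [Fact p.Prime] [Fact q.Prime] (h : PQ p q G) :
    Group.IsSolvable G := by
  obtain ⟨P, _, a, b⟩ := h
  have hQ : IsPGroup q (G ⧸ P) := fun g => by
    obtain ⟨g, rfl⟩ := QuotientGroup.mk_surjective g
    exact (b g).imp fun k hk => (QuotientGroup.eq_one_iff _).2 hk
  have := hQ.isNilpotent
  have := a.isNilpotent
  exact (Group.isSolvable_iff_subgroup_quotient P).2 ⟨inferInstance, inferInstance⟩

theorem PQ.card [Finite G] {p q r : ℕ} (hp : p.Prime) (hq : q.Prime) (hr : r.Prime) (h : PQ p q G)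
    (hd : r ∣ Nat.card G) : r = p ∨ r = q := by
  obtain ⟨P, _, a, b⟩ := h
  have := Fact.mk hr
  obtain ⟨x, hx⟩ := exists_prime_orderOf_dvd_card' r hd
  by_contra e
  push Not at e
  have h1 : pel r x := ⟨1, by rw [pow_one, ← hx, pow_orderOf_eq_one]⟩
  rw [h1.two hr hp e.1 (pel.of_mem a (pel_mem hr hq e.2 b h1)), orderOf_one] at hx
  exact hr.one_lt.ne hx

theorem PQ.clo [Finite G] {p q : ℕ} (hp : p.Prime) (hq : q.Prime) (hne : p ≠ q) (h : PQ p q G) :
    Clo p G := by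
  obtain ⟨P, _, a, b⟩ := h
  have := Fact.mk hq
  have hQ : IsPGroup q (G ⧸ P) := fun g => by
    obtain ⟨g, rfl⟩ := QuotientGroup.mk_surjective g
    exact (b g).imp fun k hk => (QuotientGroup.eq_one_iff _).2 hk
  obtain ⟨k, hk⟩ := hQ.exists_card_eq
  exact ⟨P, ‹_›, a, by
    rw [index_eq_card, hk]; exact ((Nat.coprime_primes hq hp).2 hne.symm).pow_left k⟩

theorem clo_top {q : ℕ} (h : IsPGroup q G) : Clo q G :=
  ⟨⊤, inferInstance, h.to_subgroup _, by simp⟩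

theorem quo_pgrp {p q : ℕ} {P N : Subgroup G} [N.Normal] (b : ∀ g : G, ∃ k, g ^ q ^ k ∈ P)
    (h : P ≤ N) : IsPGroup q (G ⧸ N) := fun g => by
  obtain ⟨g, rfl⟩ := QuotientGroup.mk_surjective g
  exact (b g).imp fun k hk => (QuotientGroup.eq_one_iff _).2 (h hk)

theorem allPQ {f : ℕ → Cls} (hf : ∀ p, WFit (f p)) {p q : ℕ} (hp : p.Prime) (hq : q.Prime)
    (hne : p ≠ q) [Finite G] (h : PQ p q G) (hG : LR f G) {x y : G} (hx : pel q x) (hy : pel p y)
    (hc : ⁅x, y⁆ ≠ 1) [Finite H] (hH : PQ p q H) : LR f H := by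
  have := Fact.mk hp
  have := Fact.mk hq
  have := h.solv
  have dv : ∀ r : ℕ, r.Prime → ∀ z : G, pel r z → z ≠ 1 → r ∣ Nat.card G := fun r hr z a b => by
    by_contra e
    exact b (a.eq_one (hr.coprime_iff_not_dvd.2 e) pow_card_eq_one')
  have np := hG.1 p hp (dv p hp y hy fun e => hc (by rw [e, commutatorElement_one_right]))
  have nq := hG.1 q hq (dv q hq x hx fun e => hc (by rw [e, commutatorElement_one_left]))
  refine ⟨fun r hr hd => by rcases hH.card hp hq hr hd with rfl | rfl <;> assumption,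
    fun r hr _ N _ hN => ?_⟩
  have hQ := hH.surj _ (QuotientGroup.mk'_surjective N)
  by_cases e : r = p
  · exact e ▸ hQ.clo hp hq hne
  by_cases e' : r = q
  swap
  · refine ⟨⊥, inferInstance, IsPGroup.of_bot, (hr.coprime_iff_not_dvd.2 fun d => ?_).symm⟩
    rw [index_bot] at d
    exact (hQ.card hp hq hr d).elim e e'
  subst e'
  obtain ⟨R, _, r2, r3⟩ := (hf r).rad nq G
  obtain ⟨S, _, s2, s3⟩ := hG.2 r hq nq R ⟨r2, r3⟩
  obtain ⟨P, _, p2, p3⟩ := h
  have h1 : pel p ⁅x, y⁆ := pel.of_mem p2 (commutator_le_right ⊤ P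
    (commutator_mem_commutator (mem_top x) (pel_mem hp hq hne p3 hy)))
  have h2 : ⁅x, y⁆ ∈ R := (QuotientGroup.eq_one_iff _).1 ((h1.map (QuotientGroup.mk' R)).two hp hq hne
    (pel.of_mem s2 (by
      rw [map_commutatorElement]
      exact commutator_le_left S ⊤ (commutator_mem_commutator
        (Clo.mem hq s3 (hx.map (QuotientGroup.mk' R))) (mem_top _)))))
  have hF := (hf r).isFit nq
  obtain ⟨T, t1, t2, t3⟩ := hH
  exact clo_top (quo_pgrp (p := p) t3 (hN.2 T t1 (hF.pgroup (hF.cyc (G := R)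
    ⟨r2, inferInstance, inferInstance⟩ (x := ⟨_, h2⟩) (h1.imp fun k hk => Subtype.ext hk)
    fun e => hc (congrArg Subtype.val e)) t2).1))

theorem wfit_pgrp (p : ℕ) : WFit fun G _ => IsPGroup p G :=
  ⟨fun _ _ _ _ ⟨e⟩ h => h.of_equiv e, fun _ _ _ N _ h => h.to_subgroup N,
    fun _ _ _ _ _ _ _ a b => a.to_sup_of_normal_left b⟩

theorem wfit_H {p q : ℕ} (hp : p.Prime) (hq : q.Prime) (hne : p ≠ q) :
    WFit fun G _ => PQ p q G ∧ Zc p G := by
  refine ⟨fun _ _ _ _ ⟨e⟩ h => ⟨h.1.surj e.toMonoidHom e.surjective, h.2.iso e⟩,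
    fun _ _ _ N hN h => ⟨h.1.inj _ N.subtype_injective, h.2.sub hp hq hne h.1 N hN⟩,
    fun G _ _ N K a b c d => ?_⟩
  have e : N.subgroupOf (N ⊔ K) ⊔ K.subgroupOf (N ⊔ K) = ⊤ := by
    rw [← subgroupOf_sup le_sup_left le_sup_right, subgroupOf_self]
  have i := (subgroupOfEquivOfLe (le_sup_left : N ≤ N ⊔ K)).symm
  have j := (subgroupOfEquivOfLe (le_sup_right : K ≤ N ⊔ K)).symm
  have h := PQ.sup hp hq hne inferInstance inferInstance (c.1.surj i.toMonoidHom i.surjective)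
    (d.1.surj j.toMonoidHom j.surjective) e
  exact ⟨h, Zc.sup hp hq hne h inferInstance inferInstance (c.2.iso i) (d.2.iso j) e⟩

@[ext] structure T where
  a : ZMod 3
  b : ZMod 3
  c : ZMod 3
  e : (ZMod 3)ˣ

instance : Mul T := ⟨fun x y => ⟨x.a + x.e * y.a, x.b + x.e * y.b, x.c + y.c + x.a * (x.e * y.b),
  x.e * y.e⟩⟩
instance : One T := ⟨⟨0, 0, 0, 1⟩⟩
instance : Inv T := ⟨fun x => ⟨-(x.e * x.a), -(x.e * x.b), x.a * x.b - x.c, x.e⟩⟩

theorem T.mul (x y : T) : x * y = ⟨x.a + x.e * y.a, x.b + x.e * y.b, x.c + y.c + x.a * (x.e * y.b),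
  x.e * y.e⟩ := rfl
theorem T.inv (x : T) : x⁻¹ = ⟨-(x.e * x.a), -(x.e * x.b), x.a * x.b - x.c, x.e⟩ := rfl
theorem T.one : (1 : T) = ⟨0, 0, 0, 1⟩ := rfl
theorem sq3 : ∀ e : (ZMod 3)ˣ, e * e = 1 := by decide
theorem sq3' (e : (ZMod 3)ˣ) : (e : ZMod 3) * e = 1 := by rw [← Units.val_mul, sq3, Units.val_one]

instance : Group T := Group.ofLeftAxioms
  (fun x y z => by
    ext <;> simp only [T.mul, Units.val_mul]
    · ring
    · ring
    · linear_combination (y.a * y.e * z.b) * sq3' x.e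
    · ring)
  (fun x => by ext <;> simp [T.mul, T.one])
  (fun x => by
    ext <;> simp only [T.mul, T.one, T.inv, sq3]
    · ring
    · ring
    · linear_combination (-(x.a * x.b)) * sq3' x.e)

instance : Finite T := Finite.of_injective (fun x : T => (x.a, x.b, x.c, x.e)) fun x y h => by
  simp only [Prod.mk.injEq] at h
  exact T.ext h.1 h.2.1 h.2.2.1 h.2.2.2

def T.sg : T →* (ZMod 3)ˣ := MonoidHom.mk' T.e fun _ _ => rfl

theorem T.cube : ∀ a b c : ZMod 3, (⟨a, b, c, 1⟩ : T) * ⟨a, b, c, 1⟩ * ⟨a, b, c, 1⟩ = 1 := by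
  intro a b c
  have : (3 : ZMod 3) = 0 := rfl
  ext <;> simp only [T.mul, T.one, Units.val_one, mul_one]
  · linear_combination a * this
  · linear_combination b * this
  · linear_combination (c + a * b) * this

theorem T.pel (a b c : ZMod 3) : pel 3 (⟨a, b, c, 1⟩ : T) :=
  ⟨1, by rw [pow_one, pow_three', T.cube]⟩

theorem T.mem : PQ 3 2 T ∧ Zc 3 T := by
  refine ⟨⟨T.sg.ker, inferInstance, pgrp fun ⟨a, b, c, e⟩ h => ?_, fun g => ⟨1, ?_⟩⟩,
    fun ⟨a, b, c, e⟩ h1 h2 g => ?_⟩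
  · obtain rfl : e = 1 := h
    exact T.pel a b c
  · rw [MonoidHom.mem_ker, map_pow, pow_one, pow_two, sq3]
  · obtain rfl : e = 1 := (h1.map T.sg).eq_one (n := 2) (by norm_num) (by rw [pow_two, sq3])
    have k1 := congrArg T.c (h2 _ (T.pel 1 0 0))
    have k2 := congrArg T.c (h2 _ (T.pel 0 1 0))
    simp [T.mul] at k1 k2
    subst k1 k2
    ext <;> simp [T.mul, add_comm]

theorem T.nc : ⁅(⟨0, 0, 0, -1⟩ : T), (⟨1, 0, 0, 1⟩ : T)⁆ ≠ 1 := fun h =>
  absurd (congrArg T.a (commutatorElement_eq_one_iff_mul_comm.1 h)) (by decide)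

theorem T.two : Fit.pel 2 (⟨0, 0, 0, -1⟩ : T) := ⟨1, by
  rw [pow_one, pow_two]; ext <;> simp [T.mul, T.one]⟩

theorem S3 : PQ 3 2 (Equiv.Perm (Fin 3)) :=
  ⟨Equiv.Perm.sign.ker, inferInstance, pgrp fun x h => ⟨1, by revert x; decide⟩,
    fun g => ⟨1, by revert g; decide⟩⟩

theorem S3' : ¬ Zc 3 (Equiv.Perm (Fin 3)) := fun h =>
  absurd (h (finRotate 3) ⟨1, by decide⟩ (fun y hy => by
    have : Equiv.Perm.sign y = 1 := (hy.map Equiv.Perm.sign).eq_one (n := 2) (by norm_num)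
      (Int.units_sq _)
    clear hy
    revert y
    decide) (Equiv.swap 0 1)) (by decide)

def f0 (p : ℕ) : Cls := fun G _ => (p = 2 ∧ IsPGroup 3 G) ∨ (p = 3 ∧ Subsingleton G)

theorem f0_fit (p : ℕ) : WFit (f0 p) := by
  refine ⟨fun _ _ _ _ ⟨e⟩ h => h.imp (fun h => ⟨h.1, h.2.of_equiv e⟩)
    fun h => ⟨h.1, @Function.Injective.subsingleton _ _ _ e.symm.injective h.2⟩, fun _ _ _ N _ h =>
    h.imp (fun h => ⟨h.1, h.2.to_subgroup N⟩)
      fun h => ⟨h.1, ⟨fun _ _ => Subtype.ext (h.2.elim _ _)⟩⟩, ?_⟩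
  rintro G _ _ N K _ _ (a | a) (b | b)
  · exact Or.inl ⟨a.1, a.2.to_sup_of_normal_left b.2⟩
  · omega
  · omega
  · refine Or.inr ⟨a.1, ?_⟩
    have := a.2
    have := b.2
    rw [eq_bot_of_subsingleton N, eq_bot_of_subsingleton K, bot_sup_eq]
    infer_instance

theorem f0_iff (G : Type) [Group G] [Finite G] : PQ 3 2 G ↔ LR f0 G := by
  have n3 : Ne (f0 3) := ⟨Unit, inferInstance, inferInstance, Or.inr ⟨rfl, inferInstance⟩⟩
  have n2 : Ne (f0 2) := ⟨Unit, inferInstance, inferInstance, Or.inl ⟨rfl, IsPGroup.of_subsingleton _ _⟩⟩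
  refine ⟨fun h => ⟨fun r hr hd => by
    rcases h.card Nat.prime_three Nat.prime_two hr hd with rfl | rfl <;> assumption, ?_⟩, fun h => ?_⟩
  · rintro r hr ⟨_, _, _, ⟨rfl, -⟩ | ⟨rfl, -⟩⟩ N _ hN
    · obtain ⟨P, a, b, c⟩ := h
      exact clo_top (quo_pgrp (p := 3) c (hN.2 P a (Or.inl ⟨rfl, b⟩)))
    · exact (h.surj _ (QuotientGroup.mk'_surjective N)).clo hr Nat.prime_two (by norm_num)
  · obtain ⟨P, a, b, c⟩ := h.2 3 Nat.prime_three n3 ⊥ ⟨Or.inr ⟨rfl, inferInstance⟩, by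
      rintro K _ (k | k)
      · omega
      · have := k.2
        exact (eq_bot_of_subsingleton K).le⟩
    refine PQ.surj ⟨P, a, b, fun g => ?_⟩ QuotientGroup.quotientBot.toMonoidHom
      QuotientGroup.quotientBot.surjective
    refine ⟨_, Nat.eq_prime_pow_of_unique_prime_dvd (p := 2) P.index_ne_zero_of_finite
      (fun {d} hd d1 => ?_) ▸ P.pow_index_mem g⟩
    obtain ⟨_, _, _, ⟨rfl, -⟩ | ⟨rfl, -⟩⟩ := h.1 d hd
      ((d1.trans P.index_dvd_card).trans (card_quotient_dvd_card ⊥))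
    · rfl
    · exact absurd d1 (hd.coprime_iff_not_dvd.1 c.symm)

theorem prd_iff (G : Type) [Group G] [Finite G] : PQ 3 2 G ↔
    Prd (fun G _ => IsPGroup 3 G) (fun G _ => PQ 3 2 G ∧ Zc 3 G) G := by
  refine ⟨fun ⟨P, a, b, c⟩ N _ hN => ?_, fun h => ?_⟩
  · have := quo_pgrp (p := 3) c (hN.2 P a b)
    exact ⟨⟨⊥, inferInstance, IsPGroup.of_bot, this⟩, fun z h _ g => by
      rw [h.two Nat.prime_three Nat.prime_two (by norm_num) (this z), mul_one, one_mul]⟩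
  · obtain ⟨N, _, a, b⟩ := (wfit_pgrp 3).rad
      ⟨Unit, inferInstance, inferInstance, IsPGroup.of_subsingleton _ _⟩ G
    obtain ⟨P, c, d, e⟩ := (h N ⟨a, b⟩).1
    exact ⟨P.comap (QuotientGroup.mk' N), c.comap _, d.comap_of_ker_isPGroup _
      (by rwa [QuotientGroup.ker_mk']), fun g => e g⟩

end Pool.Agent.H22.Fit
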