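import Mathlib

namespace Pool.Agent.H22.Syl

open Subgroup

variable {Γ : Type} [Group Γ] {r : ℕ}

/-- T is a maximal r-subgroup of L. -/
def MaxP (r : ℕ) (T L : Subgroup Γ) : Prop :=
  T ≤ L ∧ IsPGroup r T ∧ ∀ U ≤ L, IsPGroup r U → T ≤ U → U ≤ T

theorem exists_maxP [Finite Γ] {Q L : Subgroup Γ} (hQ : IsPGroup r Q) (h : Q ≤ L) :
    ∃ T, MaxP r T L ∧ Q ≤ T := by
  obtain ⟨T, ⟨h1, h2, h3⟩, h4⟩ := (wellFounded_gt (α := Subgroup Γ)).has_min
    {T | T ≤ L ∧ IsPGroup r T ∧ Q ≤ T} ⟨Q, h, hQ, le_rfl⟩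
  refine ⟨T, ⟨h1, h2, fun U a b c => ?_⟩, h3⟩
  by_contra hn
  exact h4 U ⟨a, b, h3.trans c⟩ (lt_of_le_of_ne c fun e => hn e.ge)

def MaxP.syl {T L : Subgroup Γ} (h : MaxP r T L) : Sylow r L where
  toSubgroup := T.subgroupOf L
  isPGroup' := h.2.1.comap_subtype
  is_maximal' := fun {Q} hQ hle => by
    refine le_antisymm (fun x hx => ?_) hle
    refine h.2.2 (Q.map L.subtype) (map_subtype_le Q) (hQ.map _) (fun t ht => ?_) ⟨x, hx, rfl⟩
    exact ⟨⟨t, h.1 ht⟩, hle ht, rfl⟩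

theorem MaxP.not_dvd [Finite Γ] [Fact r.Prime] {T L : Subgroup Γ} (h : MaxP r T L) :
    ¬ r ∣ T.relIndex L := h.syl.not_dvd_index

theorem MaxP.conj [Finite Γ] [Fact r.Prime] {T T' L : Subgroup Γ} (h : MaxP r T L)
    (h' : MaxP r T' L) : ∃ n ∈ L, ∀ x, x ∈ T' ↔ n⁻¹ * x * n ∈ T := by
  obtain ⟨n, hn⟩ := MulAction.exists_smul_eq L h.syl h'.syl
  refine ⟨n, n.2, fun x => ?_⟩
  have key : ∀ y : L, y.1 ∈ T' ↔ n.1⁻¹ * y * n ∈ T := fun y => by
    have : y ∈ (h'.syl : Subgroup L) ↔ y ∈ ((n • h.syl : Sylow r L) : Subgroup L) := by rw [hn]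
    rw [Sylow.coe_subgroup_smul, mem_pointwise_smul_iff_inv_smul_mem] at this
    simpa [MaxP.syl, mem_subgroupOf] using this
  refine ⟨fun hx => (key ⟨x, h'.1 hx⟩).1 hx, fun hx => (key ⟨x, ?_⟩).2 hx⟩
  have := L.mul_mem (L.mul_mem n.2 (h.1 hx)) (L.inv_mem n.2)
  simpa [mul_assoc] using this

theorem MaxP.comap {T L : Subgroup Γ} (h : MaxP r T L) (e : Γ ≃* Γ) :
    MaxP r (T.comap e.toMonoidHom) (L.comap e.toMonoidHom) := by
  refine ⟨comap_mono h.1, h.2.1.comap_of_injective _ e.injective, fun U a b c x hx => ?_⟩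
  refine h.2.2 (U.map e.toMonoidHom) (map_le_iff_le_comap.2 a) (b.map _) (fun t ht => ?_)
    ⟨x, hx, rfl⟩
  exact ⟨e.symm t, c (by simpa using ht), by simp⟩

theorem MaxP.frattini [Finite Γ] [Fact r.Prime] {R N : Subgroup Γ} (h : MaxP r R N) {s : Γ}
    (hs : s ∈ normalizer (N : Set Γ)) : ∃ n ∈ N, s * n ∈ normalizer (R : Set Γ) := by
  have h2 := h.comap (MulAut.conj s)
  have e : N.comap (MulAut.conj s).toMonoidHom = N := by
    ext x
    exact (mem_normalizer_iff.1 hs x).symm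
  rw [e] at h2
  obtain ⟨n, hn, h3⟩ := h.conj h2
  refine ⟨n, hn, mem_normalizer_iff.2 fun x => ?_⟩
  have := h3 (n * x * n⁻¹)
  simp only [mem_comap, MulEquiv.coe_toMonoidHom, MulAut.conj_apply] at this
  rw [show n⁻¹ * (n * x * n⁻¹) * n = x by group] at this
  rw [← this, show s * (n * x * n⁻¹) * s⁻¹ = s * n * x * (s * n)⁻¹ by group]

theorem lift [Finite Γ] [Fact r.Prime] {H : Type} [Group H] (φ : Γ →* H) (T : Subgroup Γ)
    (hX : IsPGroup r (T.map φ)) : ∃ S ≤ T, IsPGroup r S ∧ S.map φ = T.map φ := by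
  have : Finite (T.map φ) := Finite.of_surjective _ (φ.subgroupMap_surjective T)
  let P : Sylow r T := default
  have h1 := (P.mapSurjective (φ.subgroupMap_surjective T)).is_maximal' (Q := ⊤)
    (hX.to_subgroup ⊤) le_top
  rw [Sylow.coe_mapSurjective] at h1
  refine ⟨P.1.map T.subtype, map_subtype_le _, P.isPGroup'.map _,
    le_antisymm (map_mono (map_subtype_le _)) fun y hy => ?_⟩
  obtain ⟨x, hx, e⟩ := h1.le (mem_top ⟨y, hy⟩)
  exact ⟨x, ⟨x, hx, rfl⟩, congrArg Subtype.val e⟩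

theorem of_normalizer [Finite Γ] [Fact r.Prime] {Q K : Subgroup Γ}
    (h : MaxP r Q (K ⊓ normalizer (Q : Set Γ))) : MaxP r Q K := by
  refine ⟨h.1.trans inf_le_left, h.2.1, fun U a b c => ?_⟩
  by_contra hn
  have := b.isNilpotent
  have h1 : Q.subgroupOf U < ⊤ := lt_top_iff_ne_top.2 fun e => hn (subgroupOf_eq_top.1 e)
  obtain ⟨x, hx, hx'⟩ := SetLike.exists_of_lt (Group.normalizerCondition_of_isNilpotent _ h1)
  refine hx' (h.2.2 (U ⊓ normalizer (Q : Set Γ)) (inf_le_inf_right _ a) b.to_inf_left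
    (le_inf c le_normalizer) ⟨x.2, mem_normalizer_iff.2 fun y => ⟨fun hy => ?_, fun hy => ?_⟩⟩)
  · exact (mem_normalizer_iff.1 hx ⟨y, c hy⟩).1 hy
  · have hyU : y ∈ U := by
      have := U.mul_mem (U.mul_mem (U.inv_mem x.2) (c hy)) x.2
      simpa [mul_assoc] using this
    exact (mem_normalizer_iff.1 hx ⟨y, hyU⟩).2 hy

end Pool.Agent.H22.Syl
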