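import Mathlib

set_option autoImplicit false

namespace H22.McC
open Polynomial

theorem lemA {S : Type} [Ring S] (e l : S →+ ℚ) (f g : S[X])
    (h : ∀ i j, l (f.coeff i * g.coeff j) = e (f.coeff i) * l (g.coeff j)) (hfg : f * g = 0)
    (i0 : ℕ) (hf : e (f.coeff i0) ≠ 0) (j : ℕ) : l (g.coeff j) = 0 := by
  let c : (S →+ ℚ) → S[X] → ℚ[X] := fun t p => p.sum fun i a => monomial i (t a)
  have hc : ∀ t p i, (c t p).coeff i = t (p.coeff i) := by
    intro t p i
    simp only [c, Polynomial.sum, finsetSum_coeff, coeff_monomial]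
    rw [Finset.sum_ite_eq']
    split_ifs with hi
    · rfl
    · rw [notMem_support_iff.mp hi, map_zero]
  have h0 : c e f * c l g = 0 := by
    ext n
    have := congrArg (fun p => l (p.coeff n)) hfg
    simp only [coeff_mul, map_sum, h, coeff_zero, map_zero] at this
    simp only [coeff_mul, hc, coeff_zero, this]
  rcases mul_eq_zero.mp h0 with h1 | h1
  · exact absurd (by rw [← hc, h1, coeff_zero]) hf
  · rw [← hc, h1, coeff_zero]

/-- the identity together with the surjections identifying 0 and 1 -/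
def M : Submonoid (Function.End ℕ) where
  carrier := {f | Function.Surjective f ∧ (f = 1 ∨ f 0 = f 1)}
  one_mem' := ⟨Function.surjective_id, Or.inl rfl⟩
  mul_mem' := by
    rintro f g ⟨hf, hf'⟩ ⟨hg, hg'⟩
    refine ⟨hf.comp hg, ?_⟩
    rcases hg' with rfl | hg'
    · simpa using hf'
    · exact Or.inr (congrArg f hg')

theorem ne_one {n : M} (h : n.1 0 = n.1 1) : n ≠ 1 := by
  rintro rfl
  exact absurd h (by decide)

theorem glue {n : M} (h : n ≠ 1) : n.1 0 = n.1 1 :=
  n.2.2.resolve_left fun e => h (Subtype.ext e)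

theorem cancel {n n' m : M} (h : n * m = n' * m) : n = n' := by
  apply Subtype.ext
  funext x
  obtain ⟨y, rfl⟩ := m.2.1 x
  exact congrFun (congrArg Subtype.val h) y

def r (m' m : M) : Prop := ∃ n : M, n ≠ 1 ∧ n * m' = m

instance : IsStrictOrder M r where
  irrefl m := fun ⟨n, h1, h2⟩ => h1 (cancel (h2.trans (one_mul m).symm))
  trans a b c := fun ⟨n, h1, h2⟩ ⟨n', _, h4⟩ =>
    ⟨n' * n, ne_one (congrArg n'.1 (glue h1)), by rw [mul_assoc, h2, h4]⟩

abbrev S := MonoidAlgebra ℚ M

noncomputable def co (m : M) : S →+ ℚ where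
  toFun u := u.coeff m
  map_zero' := rfl
  map_add' _ _ := by simp

theorem key (m : M) (u : S) (hu : ∀ m' ∈ u.coeff.support, ¬ r m' m) (x : S) :
    co m (x * u) = co 1 x * co m u := by
  classical
  induction x using MonoidAlgebra.induction_linear with
  | zero => simp
  | add x y hx hy => rw [add_mul, map_add, map_add, hx, hy, add_mul]
  | single n c =>
    by_cases hn : n = 1
    · subst hn
      show (MonoidAlgebra.single 1 c * u).coeff m = (MonoidAlgebra.single (1 : M) c).coeff 1 * u.coeff m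
      rw [u.coeff_single_mul_eq_mul_coeff m (by simp)]
      simp
    · show (MonoidAlgebra.single n c * u).coeff m = (MonoidAlgebra.single n c).coeff 1 * u.coeff m
      have e1 : (MonoidAlgebra.single n c).coeff 1 = 0 := by simp [Finsupp.single_apply, hn]
      rw [e1, zero_mul]
      by_contra hne
      have := MonoidAlgebra.support_coeff_single_mul_subset u c n (Finsupp.mem_support_iff.mpr hne)
      obtain ⟨m', hm', e⟩ := Finset.mem_image.mp this
      exact hu m' hm' ⟨n, hn, e⟩

def u0 : M := ⟨fun x => x - 1, fun x => ⟨x + 1, rfl⟩, Or.inr rfl⟩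

def v0 : M := ⟨fun x => Equiv.swap 0 1 (x - 1),
  (Equiv.swap 0 1).surjective.comp fun x => ⟨x + 1, rfl⟩, Or.inr rfl⟩

noncomputable def s0 : S := MonoidAlgebra.of ℚ M u0 - MonoidAlgebra.of ℚ M v0

theorem uv : u0 ≠ v0 := fun h => by
  have := congrFun (congrArg Subtype.val h) 0
  simp [u0, v0] at this

theorem s0_ne : s0 ≠ 0 := fun h => by
  have := congrArg (co u0) h
  simp [s0, co, Finsupp.single_apply, uv.symm] at this

theorem ann (x : S) : x * s0 = co 1 x • s0 := by
  induction x using MonoidAlgebra.induction_linear with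
  | zero => simp
  | add x y hx hy => rw [add_mul, map_add, hx, hy, add_smul]
  | single n c =>
    by_cases hn : n = 1
    · subst hn
      have : co 1 (MonoidAlgebra.single (1 : M) c) = c := by simp [co]
      rw [this, Algebra.smul_def]
      rfl
    · have e1 : co 1 (MonoidAlgebra.single n c) = 0 := by simp [co, Finsupp.single_apply, hn]
      have e2 : n * u0 = n * v0 := by
        apply Subtype.ext
        funext x
        show n.1 (x - 1) = n.1 (Equiv.swap 0 1 (x - 1))
        rw [Equiv.swap_apply_def]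
        split_ifs with h1 h2
        · rw [h1, glue hn]
        · rw [h2, glue hn]
        · rfl
      rw [e1, zero_smul, s0, mul_sub, MonoidAlgebra.of_apply, MonoidAlgebra.of_apply,
        MonoidAlgebra.single_mul_single, MonoidAlgebra.single_mul_single, e2, sub_self]

theorem mccoy (f g : S[X]) (hg : g ≠ 0) (hfg : f * g = 0) : f * C s0 = 0 := by
  classical
  ext1 i
  rw [coeff_mul_C, ann, coeff_zero]
  by_contra hne
  have hf : co 1 (f.coeff i) ≠ 0 := fun h => hne (by rw [h, zero_smul])
  let T : Finset M := g.support.biUnion fun j => (g.coeff j).coeff.support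
  have hT : ∀ j m, m ∈ (g.coeff j).coeff.support → m ∈ T := by
    intro j m hm
    refine Finset.mem_biUnion.mpr ⟨j, mem_support_iff.mpr fun h => ?_, hm⟩
    rw [h] at hm
    simp at hm
  have hne' : (Set.univ : Set (T : Set M)).Nonempty := by
    obtain ⟨j, hj⟩ := support_nonempty.mpr hg
    have : (g.coeff j).coeff ≠ 0 := fun e => mem_support_iff.mp hj (by ext m; simp [e])
    obtain ⟨m, hm⟩ := Finsupp.support_nonempty_iff.mpr this
    exact ⟨⟨m, hT j m hm⟩, trivial⟩
  obtain ⟨⟨m, hm⟩, -, hmin⟩ := (T.finite_toSet.wellFoundedOn (r := r)).has_min _ hne'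
  have h0 := lemA (co 1) (co m) f g
    (fun i j => key m _ (fun m' hm' => hmin ⟨m', hT j m' hm'⟩ trivial) _) hfg i hf
  obtain ⟨j, -, hj⟩ := Finset.mem_biUnion.mp hm
  exact Finsupp.mem_support_iff.mp hj (h0 j)

def a0 : M := ⟨fun x => x.unpair.1, fun x => ⟨Nat.pair x 0, by simp⟩, Or.inr (by decide)⟩

def y0 : M := ⟨fun x => Nat.pair (Nat.pair x.unpair.1 (x.unpair.2 - 1).unpair.1) (x.unpair.2 - 1).unpair.2,
  fun w => ⟨Nat.pair w.unpair.1.unpair.1 (Nat.pair w.unpair.1.unpair.2 w.unpair.2 + 1), by simp⟩,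
  Or.inr (by decide)⟩

theorem ay : a0 = a0 ^ 2 * y0 := by
  apply Subtype.ext
  funext x
  show x.unpair.1 = (Nat.pair (Nat.pair x.unpair.1 _) _).unpair.1.unpair.1
  simp

theorem nz (d : M) : d * a0 ^ 2 ≠ a0 := fun h => by
  rw [sq, ← mul_assoc] at h
  have h1 : d * a0 = 1 := cancel (h.trans (one_mul a0).symm)
  exact ne_one (n := d * a0) (congrArg d.1 (glue (ne_one (by decide)))) h1

theorem notD (z : S) : MonoidAlgebra.of ℚ M a0 ≠ z * MonoidAlgebra.of ℚ M a0 ^ 2 := fun h => by
  have h1 := congrArg (fun x => x.coeff a0) h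
  simp only [← map_pow] at h1
  rw [MonoidAlgebra.of_apply, MonoidAlgebra.of_apply,
    MonoidAlgebra.coeff_mul_single_of_forall_mul_ne _ _ nz] at h1
  simp at h1

end H22.McC
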