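import Mathlib

set_option autoImplicit false

namespace Pool.Agent.H22.NoPrime

open Filter Hyperreal

theorem sat (a b : ℕ → Hyperreal) (h : ∀ n k, a n < b k) : ∃ z, ∀ n, a n < z ∧ z < b n := by
  classical
  choose α hα using fun n => ofSeq_surjective (a n)
  choose β hβ using fun n => ofSeq_surjective (b n)
  let P : ℕ → ℕ → Prop := fun i N => ∀ p ∈ Finset.range (N + 1), ∀ q ∈ Finset.range (N + 1),
    α p i < β q i
  have ex : ∀ i, ∃ z : ℝ, P i (Nat.findGreatest (P i) i) →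
      ∀ p ∈ Finset.range (Nat.findGreatest (P i) i + 1), α p i < z ∧ z < β p i := fun i => by
    obtain ⟨p, hp, h1⟩ := Finset.exists_max_image (Finset.range (Nat.findGreatest (P i) i + 1))
      (α · i) Finset.nonempty_range_add_one
    obtain ⟨q, hq, h2⟩ := Finset.exists_min_image (Finset.range (Nat.findGreatest (P i) i + 1))
      (β · i) Finset.nonempty_range_add_one
    refine ⟨(α p i + β q i) / 2, fun hP r hr => ?_⟩
    have := hP p hp q hq
    have := h1 r hr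
    have := h2 r hr
    constructor <;> linarith
  choose z hz using ex
  refine ⟨ofSeq z, fun n => ?_⟩
  rw [← hα, ← hβ, ofSeq_lt_ofSeq, ofSeq_lt_ofSeq, ← eventually_and]
  have e1 : ∀ᶠ i in (hyperfilter ℕ : Filter ℕ), P i n :=
    (eventually_all_finset _).2 fun p _ => (eventually_all_finset _).2 fun q _ =>
      ofSeq_lt_ofSeq.1 (by rw [hα, hβ]; exact h p q)
  filter_upwards [e1, (eventually_ge_atTop n).filter_mono Nat.hyperfilter_le_atTop] with i h1 h2
  exact hz i (Nat.findGreatest_spec h2 h1) n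
    (Finset.mem_range.2 (Nat.lt_succ_of_le (Nat.le_findGreatest h2 h1)))

variable {K : Type} [Field K] [LinearOrder K] [IsStrictOrderedRing K]

def Loc (f : K → K) : Prop := ∀ a : ℕ → K, StrictMono a → (∃ b, ∀ n, a n ≤ b) →
  ∃ n v s t, (∀ k, a k ≤ v) ∧ ∀ x, a n ≤ x → x ≤ v → f x = s * x + t

theorem Loc.aff (s t : K) : Loc fun x => s * x + t := fun _ _ ⟨b, hb⟩ =>
  ⟨0, b, s, t, hb, fun _ _ _ => rfl⟩

theorem sign (s t : K) (a : ℕ → K) (b : K) (hb : ∀ n, a n ≤ b) :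
    ∃ n v, v ≤ b ∧ (∀ k, a k ≤ v) ∧ ((∀ x, a n ≤ x → x ≤ v → 0 ≤ s * x + t) ∨
      ∀ x, a n ≤ x → x ≤ v → s * x + t ≤ 0) := by
  by_cases hs : s = 0
  · exact ⟨0, b, le_rfl, hb, (le_total 0 t).imp (fun h x _ _ => by simpa [hs] using h)
      fun h x _ _ => by simpa [hs] using h⟩
  have e : ∀ x, s * x + t = s * (x - -t / s) := fun x => by field_simp; ring
  by_cases h : ∃ n, -t / s ≤ a n
  · obtain ⟨n, hn⟩ := h
    refine ⟨n, b, le_rfl, hb, (le_total 0 s).imp (fun h x h1 _ => ?_) fun h x h1 _ => ?_⟩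
    · rw [e]; exact mul_nonneg h (by linarith)
    · rw [e]; exact mul_nonpos_of_nonpos_of_nonneg h (by linarith)
  · push Not at h
    refine ⟨0, min b (-t / s), min_le_left _ _, fun k => le_min (hb k) (h k).le,
      (le_total s 0).imp (fun h x _ h1 => ?_) fun h x _ h1 => ?_⟩
    · rw [e]; exact mul_nonneg_of_nonpos_of_nonpos h (by linarith [min_le_right b (-t / s)])
    · rw [e]; exact mul_nonpos_of_nonneg_of_nonpos h (by linarith [min_le_right b (-t / s)])

theorem Loc.sel {f g h : K → K} (hf : Loc f) (hg : Loc g)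
    (H : (∀ x, f x ≤ g x → h x = f x) ∧ (∀ x, g x ≤ f x → h x = g x) ∨
      (∀ x, f x ≤ g x → h x = g x) ∧ ∀ x, g x ≤ f x → h x = f x) : Loc h := by
  intro a ha hb
  obtain ⟨n, v, s, t, h1, h2⟩ := hf a ha hb
  obtain ⟨n', v', s', t', h1', h2'⟩ := hg a ha hb
  obtain ⟨m, w, w1, w2, w3⟩ := sign (s' - s) (t' - t) a (min v v') fun k => le_min (h1 k) (h1' k)
  have A : ∀ x, a (max m (max n n')) ≤ x → x ≤ w →
      a m ≤ x ∧ f x = s * x + t ∧ g x = s' * x + t' := fun x x1 x2 =>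
    ⟨(ha.monotone (by omega)).trans x1,
      h2 x ((ha.monotone (by omega)).trans x1) (x2.trans (w1.trans (min_le_left _ _))),
      h2' x ((ha.monotone (by omega)).trans x1) (x2.trans (w1.trans (min_le_right _ _)))⟩
  rcases H with H | H <;> rcases w3 with w3 | w3
  · refine ⟨max m (max n n'), w, s, t, w2, fun x x1 x2 => ?_⟩
    obtain ⟨a1, a2, a3⟩ := A x x1 x2
    rw [H.1 x (by linarith [w3 x a1 x2]), a2]
  · refine ⟨max m (max n n'), w, s', t', w2, fun x x1 x2 => ?_⟩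
    obtain ⟨a1, a2, a3⟩ := A x x1 x2
    rw [H.2 x (by linarith [w3 x a1 x2]), a3]
  · refine ⟨max m (max n n'), w, s', t', w2, fun x x1 x2 => ?_⟩
    obtain ⟨a1, a2, a3⟩ := A x x1 x2
    rw [H.1 x (by linarith [w3 x a1 x2]), a3]
  · refine ⟨max m (max n n'), w, s, t, w2, fun x x1 x2 => ?_⟩
    obtain ⟨a1, a2, a3⟩ := A x x1 x2
    rw [H.2 x (by linarith [w3 x a1 x2]), a2]

theorem Loc.mul {f g : K ≃o K} (hf : Loc f) (hg : Loc g) : Loc (f * g : K ≃o K) := by
  intro a ha hb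
  obtain ⟨n, v, s, t, h1, h2⟩ := hg a ha hb
  obtain ⟨n', v', s', t', h1', h2'⟩ := hf (fun k => g (a k)) (g.strictMono.comp ha)
    ⟨g v, fun k => g.monotone (h1 k)⟩
  refine ⟨max n n', min v (g.symm v'), s' * s, s' * t + t',
    fun k => le_min (h1 k) (g.le_symm_apply.2 (h1' k)), fun x x1 x2 => ?_⟩
  change f (g x) = _
  rw [h2' (g x) (g.monotone ((ha.monotone (by omega)).trans x1))
    (g.le_symm_apply.1 (x2.trans (min_le_right _ _))),
    h2 x ((ha.monotone (by omega)).trans x1) (x2.trans (min_le_left _ _))]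
  ring

theorem Loc.inv {f : K ≃o K} (hf : Loc f) : Loc (f⁻¹ : K ≃o K) := by
  intro a ha ⟨b, hb⟩
  obtain ⟨n, v, s, t, h1, h2⟩ := hf (fun k => f.symm (a k)) (f.symm.strictMono.comp ha)
    ⟨f.symm b, fun k => f.symm.monotone (hb k)⟩
  have hs : s ≠ 0 := by
    rintro rfl
    have e1 := h2 _ le_rfl (h1 n)
    have e2 := h2 _ (f.symm.monotone (ha.monotone n.le_succ)) (h1 (n + 1))
    simp only [OrderIso.apply_symm_apply, zero_mul, zero_add] at e1 e2
    exact (ha n.lt_succ_self).ne (e1.trans e2.symm)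
  refine ⟨n, f v, s⁻¹, -t / s, fun k => f.symm_apply_le.1 (h1 k), fun x x1 x2 => ?_⟩
  have := h2 (f.symm x) (f.symm.monotone x1) (f.symm_apply_le.2 x2)
  rw [OrderIso.apply_symm_apply] at this
  change f.symm x = _
  field_simp
  linear_combination -this

def Bd (f : K → K) : Prop := ∃ t₁ t₂, ∀ s, (s < t₁ ∨ t₂ < s) → f s = s

def LL (K : Type) [Field K] [LinearOrder K] [IsStrictOrderedRing K] : Subgroup (K ≃o K) where
  carrier := {f | Loc f ∧ Bd f}
  one_mem' := ⟨fun _ _ ⟨b, hb⟩ => ⟨0, b, 1, 0, hb, fun _ _ _ => by simp⟩, 0, 0, fun _ _ => rfl⟩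
  mul_mem' := by
    rintro f g ⟨f1, a, b, f2⟩ ⟨g1, c, d, g2⟩
    refine ⟨f1.mul g1, min a c, max b d, fun s hs => ?_⟩
    change f (g s) = s
    rw [g2 s (hs.imp (·.trans_le (min_le_right _ _)) (le_max_right _ _).trans_lt),
      f2 s (hs.imp (·.trans_le (min_le_left _ _)) (le_max_left _ _).trans_lt)]
  inv_mem' := by
    rintro f ⟨f1, a, b, f2⟩
    exact ⟨f1.inv, a, b, fun s hs => f.symm_apply_eq.2 (f2 s hs).symm⟩

noncomputable def mx (f g : K ≃o K) : K ≃o K :=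
  StrictMono.orderIsoOfSurjective (fun x => max (f x) (g x))
    (fun _ _ h => max_lt_max (f.strictMono h) (g.strictMono h)) fun y => by
      rcases le_total (f.symm y) (g.symm y) with h | h
      · exact ⟨f.symm y, by simpa using g.le_symm_apply.1 h⟩
      · exact ⟨g.symm y, by simpa using f.le_symm_apply.1 h⟩

noncomputable def mn (f g : K ≃o K) : K ≃o K :=
  StrictMono.orderIsoOfSurjective (fun x => min (f x) (g x))
    (fun _ _ h => min_lt_min (f.strictMono h) (g.strictMono h)) fun y => by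
      rcases le_total (f.symm y) (g.symm y) with h | h
      · exact ⟨g.symm y, by simpa using f.symm_apply_le.1 h⟩
      · exact ⟨f.symm y, by simpa using g.symm_apply_le.1 h⟩

theorem mx_apply (f g : K ≃o K) (x : K) : mx f g x = max (f x) (g x) := rfl
theorem mn_apply (f g : K ≃o K) (x : K) : mn f g x = min (f x) (g x) := rfl

theorem Loc.mx {f g : K ≃o K} (hf : Loc f) (hg : Loc g) : Loc (mx f g) :=
  hf.sel hg (Or.inr ⟨fun _ h => max_eq_right h, fun _ h => max_eq_left h⟩)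

theorem Loc.mn {f g : K ≃o K} (hf : Loc f) (hg : Loc g) : Loc (mn f g) :=
  hf.sel hg (Or.inl ⟨fun _ h => min_eq_left h, fun _ h => min_eq_right h⟩)

theorem lat {f g : K ≃o K} (hf : f ∈ LL K) (hg : g ∈ LL K) : mx f g ∈ LL K ∧ mn f g ∈ LL K := by
  obtain ⟨f1, a, b, f2⟩ := hf
  obtain ⟨g1, c, d, g2⟩ := hg
  have : ∀ s, (s < min a c ∨ max b d < s) → f s = s ∧ g s = s := fun s hs =>
    ⟨f2 s (hs.imp (·.trans_le (min_le_left _ _)) (le_max_left _ _).trans_lt),
      g2 s (hs.imp (·.trans_le (min_le_right _ _)) (le_max_right _ _).trans_lt)⟩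
  exact ⟨⟨f1.mx g1, _, _, fun s hs => by rw [mx_apply, (this s hs).1, (this s hs).2, max_self]⟩,
    ⟨f1.mn g1, _, _, fun s hs => by rw [mn_apply, (this s hs).1, (this s hs).2, min_self]⟩⟩

noncomputable def af (s t : K) (hs : 0 < s) : K ≃o K :=
  StrictMono.orderIsoOfSurjective (fun x => s * x + t)
    (fun _ _ h => by dsimp only; gcongr) fun y => ⟨(y - t) / s, by field_simp; ring⟩

theorem af_apply (s t : K) (hs : 0 < s) (x : K) : af s t hs x = s * x + t := rfl

theorem af_loc (s t : K) (hs : 0 < s) : Loc (af s t hs) := Loc.aff s t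

theorem trans2 (r₁ r₂ s₁ s₂ : K) (hr : r₁ < r₂) (hs : s₁ < s₂) :
    ∃ f ∈ LL K, f r₁ = s₁ ∧ f r₂ = s₂ := by
  obtain ⟨c, hc⟩ : ∃ c, c = 2 * |r₁| + 2 * |r₂| + |s₁| + |s₂| := ⟨_, rfl⟩
  have h2 : (0 : K) < 1 / 2 := by norm_num
  have hp : 0 < (s₂ - s₁) / (r₂ - r₁) := div_pos (sub_pos.2 hs) (sub_pos.2 hr)
  have hne : r₂ - r₁ ≠ 0 := (sub_pos.2 hr).ne'
  have a1 := abs_nonneg r₁
  have a2 := abs_nonneg r₂
  have a3 := abs_nonneg s₁
  have a4 := abs_nonneg s₂
  have b1 := le_abs_self r₁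
  have b2 := le_abs_self r₂
  have b3 := le_abs_self s₁
  have b4 := le_abs_self s₂
  have c1 := neg_abs_le r₁
  have c2 := neg_abs_le r₂
  have c3 := neg_abs_le s₁
  have c4 := neg_abs_le s₂
  have key : ∀ x y : K, x / 2 - c ≤ y → 2 * x - c ≤ y → y ≤ x / 2 + c → y ≤ 2 * x + c →
      max (min (1 * x + 0) (max (1 / 2 * x + -c) (2 * x + -c)))
        (min y (max (1 * x + 0) (min (2 * x + c) (1 / 2 * x + c)))) = y := fun x y h1 h2 h3 h4 => by
    rw [min_eq_left (le_max_of_le_right (le_min h4 (by linarith))),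
      max_eq_right (min_le_of_right_le (max_le (by linarith) (by linarith)))]
  refine ⟨mx (mn (af 1 0 one_pos) (mx (af (1 / 2) (-c) h2) (af 2 (-c) two_pos)))
    (mn (af _ (s₁ - (s₂ - s₁) / (r₂ - r₁) * r₁) hp)
      (mx (af 1 0 one_pos) (mn (af 2 c two_pos) (af (1 / 2) c h2)))),
    ⟨((af_loc _ _ _).mn ((af_loc _ _ _).mx (af_loc _ _ _))).mx ((af_loc _ _ _).mn
      ((af_loc _ _ _).mx ((af_loc _ _ _).mn (af_loc _ _ _)))), -2 * c, 2 * c, fun x hx => ?_⟩, ?_, ?_⟩
  · simp only [mx_apply, mn_apply, af_apply, one_mul, add_zero]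
    have e1 : min x (max (1 / 2 * x + -c) (2 * x + -c)) = x := min_eq_left (by
      rcases hx with h | h
      · exact le_max_of_le_left (by linarith)
      · exact le_max_of_le_right (by linarith))
    have e2 : max x (min (2 * x + c) (1 / 2 * x + c)) = x := max_eq_left (by
      rcases hx with h | h
      · exact min_le_of_left_le (by linarith)
      · exact min_le_of_right_le (by linarith))
    rw [e1, e2, max_eq_left (min_le_right _ _)]
  · simp only [mx_apply, mn_apply, af_apply]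
    rw [add_sub_cancel, key] <;> linarith
  · simp only [mx_apply, mn_apply, af_apply]
    have : (s₂ - s₁) / (r₂ - r₁) * r₂ + (s₁ - (s₂ - s₁) / (r₂ - r₁) * r₁) = s₂ := by
      field_simp; ring
    rw [this, key] <;> linarith

theorem cut (hsat : ∀ a b : ℕ → K, (∀ n k, a n < b k) → ∃ z, ∀ n, a n < z ∧ z < b n)
    (b : ℕ → K) {f g h : K → K} (hf : Loc f) (hg : Loc g)
    (h1 : ∀ x, (∀ k, x < b k) → h x = f x) (h2 : ∀ x, ¬ (∀ k, x < b k) → h x = g x) : Loc h := by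
  intro a ha hb
  by_cases H : ∀ n k, a n < b k
  · obtain ⟨z, hz⟩ := hsat a b H
    obtain ⟨n, v, s, t, e1, e2⟩ := hf a ha hb
    refine ⟨n, min v z, s, t, fun k => le_min (e1 k) (hz k).1.le, fun x x1 x2 => ?_⟩
    rw [h1 x fun k => (x2.trans (min_le_right _ _)).trans_lt (hz k).2,
      e2 x x1 (x2.trans (min_le_left _ _))]
  · push Not at H
    obtain ⟨m, k, H⟩ := H
    obtain ⟨n, v, s, t, e1, e2⟩ := hg a ha hb
    refine ⟨max n m, v, s, t, e1, fun x x1 x2 => ?_⟩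
    rw [h2 x fun h => (h k).not_ge (H.trans ((ha.monotone (by omega)).trans x1)),
      e2 x ((ha.monotone (by omega)).trans x1) x2]

theorem glue (A : K → Prop) (hA : ∀ x y, x ≤ y → A y → A x) (f g : K ≃o K)
    (hf : ∀ x, A (f x) ↔ A x) (hg : ∀ x, A (g x) ↔ A x) :
    ∃ h : K ≃o K, (∀ x, A x → h x = f x) ∧ ∀ x, ¬ A x → h x = g x := by
  classical
  refine ⟨StrictMono.orderIsoOfSurjective (fun x => if A x then f x else g x)
    (fun x y h => ?_) fun y => ?_, fun x h => if_pos h, fun x h => if_neg h⟩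
  · dsimp only
    split_ifs with h1 h2 h2
    · exact f.strictMono h
    · exact lt_of_not_ge fun e => h2 ((hg y).1 (hA _ _ e ((hf x).2 h1)))
    · exact absurd (hA _ _ h.le h2) h1
    · exact g.strictMono h
  · by_cases h : A y
    · exact ⟨f.symm y, by
        dsimp only; rw [if_pos ((hf _).1 (by simpa using h)), OrderIso.apply_symm_apply]⟩
    · exact ⟨g.symm y, by
        dsimp only; rw [if_neg fun e => h (by simpa using (hg _).2 e), OrderIso.apply_symm_apply]⟩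

theorem split (hsat : ∀ a b : ℕ → K, (∀ n k, a n < b k) → ∃ z, ∀ n, a n < z ∧ z < b n)
    {f : K ≃o K} (hf : f ∈ LL K) (h0 : ∀ t, t ≤ f t) (h1 : f ≠ 1) :
    ∃ f₁ ∈ LL K, ∃ f₂ ∈ LL K, f₁ ≠ 1 ∧ f₂ ≠ 1 ∧ (∀ t, min (f₁ t) (f₂ t) = t) ∧
      ∀ t, max (f₁ t) (f₂ t) = f t := by
  obtain ⟨f1, t₁, t₂, f2⟩ := hf
  obtain ⟨x, hx⟩ : ∃ x, x < f x := by
    by_contra h
    push Not at h
    exact h1 (OrderIso.ext (funext fun x => le_antisymm (h x) (h0 x)))
  obtain ⟨a, a0, a1⟩ : ∃ a : ℕ → K, a 0 = x ∧ ∀ n, a (n + 1) = f (a n) :=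
    ⟨fun n => f^[n] x, rfl, fun n => Function.iterate_succ_apply' _ _ _⟩
  have a2 : ∀ n, a n < a (n + 1) := fun n => by
    induction n with
    | zero => rw [a1, a0]; exact hx
    | succ n ih => rw [a1 (n + 1)]; nth_rw 1 [a1]; exact f.strictMono ih
  have ha := strictMono_nat_of_lt_succ a2
  obtain ⟨n, v, s, t, e1, e2⟩ := f1 a ha ⟨t₂, fun n => le_of_not_gt fun h =>
    (a2 n).ne' ((a1 n).trans (f2 _ (Or.inr h)))⟩
  have a3 : ∀ k, n ≤ k → a k < s * a k + t := fun k hk => by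
    rw [← e2 _ (ha.monotone hk) (e1 k), ← a1]; exact a2 k
  obtain ⟨y, y1, y2⟩ : ∃ y, (∀ k, a k < y) ∧ y < f y := by
    rcases le_or_gt 1 s with h | h
    · refine ⟨v, fun k => (a2 k).trans_le (e1 _), ?_⟩
      rw [e2 v (e1 n) le_rfl]
      nlinarith [a3 n le_rfl, e1 n]
    · obtain ⟨z, hz⟩ := hsat a (fun _ => min v (t / (1 - s))) fun k _ =>
        lt_min ((a2 k).trans_le (e1 _)) ((ha.monotone (le_max_left k n)).trans_lt (by
          rw [lt_div_iff₀ (sub_pos.2 h)]; linarith [a3 _ (le_max_right k n)]))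
      refine ⟨z, fun k => (hz k).1, ?_⟩
      have := (lt_div_iff₀ (sub_pos.2 h)).1 ((hz 0).2.trans_le (min_le_right _ _))
      rw [e2 z (hz n).1.le ((hz 0).2.le.trans (min_le_left _ _))]
      linarith
  obtain ⟨b, b0, b1⟩ : ∃ b : ℕ → K, b 0 = y ∧ ∀ n, f (b (n + 1)) = b n :=
    ⟨fun n => f.symm^[n] y, rfl, fun n => by
      simp only [Function.iterate_succ_apply', OrderIso.apply_symm_apply]⟩
  have hA : ∀ x y, x ≤ y → (∀ k, y < b k) → ∀ k, x < b k := fun x y h h' k => h.trans_lt (h' k)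
  have hfA : ∀ z, (∀ k, f z < b k) ↔ ∀ k, z < b k := fun z =>
    ⟨hA _ _ (h0 z), fun h k => by rw [← b1]; exact f.strictMono (h _)⟩
  have hx' : ∀ k m, a m < b k := fun k => by
    induction k with
    | zero => rw [b0]; exact y1
    | succ k ih => intro m; rw [← f.lt_iff_lt, b1, ← a1]; exact ih _
  have hy' : ¬ ∀ k, y < b k := fun h => (h 0).ne b0.symm
  have l1 : Loc (1 : K ≃o K) := (LL K).one_mem.1
  obtain ⟨g, g1, g2⟩ := glue (fun z => ∀ k, z < b k) hA f 1 hfA fun _ => Iff.rfl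
  obtain ⟨h, h1, h2⟩ := glue (fun z => ∀ k, z < b k) hA 1 f (fun _ => Iff.rfl) hfA
  refine ⟨g, ⟨cut hsat b f1 l1 g1 g2, t₁, t₂, fun z hz => ?_⟩, h,
    ⟨cut hsat b l1 f1 h1 h2, t₁, t₂, fun z hz => ?_⟩, fun e => ?_, fun e => ?_,
    fun z => ?_, fun z => ?_⟩
  · by_cases c : ∀ k, z < b k
    · rw [g1 z c, f2 z hz]
    · exact g2 z c
  · by_cases c : ∀ k, z < b k
    · exact h1 z c
    · rw [h2 z c, f2 z hz]
  · have := g1 x fun k => a0 ▸ hx' k 0
    rw [e] at this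
    exact hx.ne this
  · have := h2 y hy'
    rw [e] at this
    exact y2.ne this
  · by_cases c : ∀ k, z < b k
    · rw [g1 z c, h1 z c]; exact min_eq_right (h0 z)
    · rw [g2 z c, h2 z c]; exact min_eq_left (h0 z)
  · by_cases c : ∀ k, z < b k
    · rw [g1 z c, h1 z c]; exact max_eq_left (h0 z)
    · rw [g2 z c, h2 z c]; exact max_eq_right (h0 z)

end Pool.Agent.H22.NoPrime
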