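import Pool.Agent.H22.Comp2

namespace Pool.Agent.H22.Comp

open Function Subgroup FormLat GLS

variable {G H X : Type} [Group G] [Group H]

def Dx [LT X] (L : Subgroup (X → G)) (x : X) : Set G := {g | ∃ l ∈ L, (∀ y < x, l y = 1) ∧ l x = g}

theorem le_of_Dx [Finite X] [LinearOrder X] {L L' : Subgroup (X → G)} (h : L' ≤ L)
    (d : ∀ x, Dx L x ⊆ Dx L' x) : L ≤ L' := fun l hl => by
  by_contra c
  have k : ∀ l ∉ L', ∃ x, l x ≠ 1 ∧ ∀ y < x, l y = 1 := fun l a => by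
    obtain ⟨x, u, v⟩ := (wellFounded_lt (α := X)).has_min {x | l x ≠ 1}
      (ne_iff.1 fun e : l = 1 => a (e ▸ one_mem _))
    exact ⟨x, u, fun y e => not_not.1 fun w => v y w e⟩
  obtain ⟨x, ⟨u, u1, u2, u3⟩, m⟩ := (wellFounded_gt (α := X)).has_min
    {x | ∃ l ∈ L, l ∉ L' ∧ ∀ y < x, l y = 1} ((k l c).imp fun x e => ⟨l, hl, c, e.2⟩)
  obtain ⟨v, v1, v2, v3⟩ := d x ⟨u, u1, u3, rfl⟩
  have n : v⁻¹ * u ∉ L' := fun e => u2 ((mul_mem_cancel_left (inv_mem v1)).1 e)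
  obtain ⟨z, z1, z2⟩ := k _ n
  refine m z ⟨_, mul_mem (inv_mem (h v1)) u1, n, z2⟩ (not_le.1 fun e => z1 ?_)
  rcases e.eq_or_lt with rfl | e
  · simp [v3]
  · simp [v2 z e, u3 z e]

theorem wqo {A B : Type} [Finite A] [Finite B] (n : ℕ → ℕ) (x : ∀ i, Fin (n i + 1) → A) (b : ℕ → B) :
    ∃ i j, i < j ∧ b i = b j ∧ ∃ s : Fin (n j + 1) → Fin (n i + 1), x i ∘ s = x j ∧
      ∀ k, ∃ e, s e = k ∧ ∀ t < e, s t < k := by
  let l := fun i k => (x i k, x i '' Set.Iio k, Set.range (x i), b i)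
  obtain ⟨i, j, h, e⟩ := (Set.PartiallyWellOrderedOn.partiallyWellOrderedOn_sublistForall₂ (· = ·)
    Set.finite_univ.partiallyWellOrderedOn).exists_lt (f := fun i => List.ofFn (l i)) fun _ _ _ => trivial
  obtain ⟨_, e1, e2⟩ := List.sublistForall₂_iff.1 e
  rw [List.forall₂_eq_eq_eq] at e1
  subst e1
  obtain ⟨f, hf⟩ := List.sublist_iff_exists_fin_orderEmbedding_get_eq.1 e2
  let g : Fin (n i + 1) ↪o Fin (n j + 1) := ((Fin.castOrderIso List.length_ofFn.symm).toOrderEmbedding.trans f).trans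
    (Fin.castOrderIso List.length_ofFn).toOrderEmbedding
  have k : ∀ k, l i k = l j (g k) := fun k => (List.get_ofFn _ _).symm.trans
    ((hf (Fin.cast List.length_ofFn.symm k)).trans (List.get_ofFn _ _))
  have m : ∀ t, ∃ a, x i a = x j t ∧ (∀ k, t < g k → a < k) ∧ ∀ k, t = g k → a = k := fun t => by
    by_cases c : ∃ k, t = g k
    · obtain ⟨a, rfl⟩ := c
      exact ⟨a, congrArg (·.1) (k a), fun _ => g.lt_iff_lt.1, fun _ e => g.injective e⟩
    by_cases d : ∃ k, t < g k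
    · obtain ⟨u, u1, u2⟩ := (wellFounded_lt (α := Fin _)).has_min {k | t < g k} d
      obtain ⟨a, a1, a2⟩ := (show x i '' _ = x j '' _ from congrArg (·.2.1) (k u)).ge ⟨t, u1, rfl⟩
      exact ⟨a, a2, fun k e => lt_of_lt_of_le a1 (not_lt.1 (u2 k e)), fun k e => absurd ⟨k, e⟩ c⟩
    · obtain ⟨a, a2⟩ := (show Set.range (x i) = Set.range (x j) from congrArg (·.2.2.1) (k 0)).ge ⟨t, rfl⟩
      exact ⟨a, a2, fun k e => absurd ⟨k, e⟩ d, fun k e => absurd ⟨k, e⟩ c⟩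
  choose s s1 s2 s3 using m
  exact ⟨i, j, h, congrArg (·.2.2.2) (k 0), s, funext s1, fun k => ⟨g k, s3 _ _ rfl, fun t => s2 t k⟩⟩

abbrev Wd (G : Type) [Group G] (n : ℕ) :=
  {x : Lex (Fin (n + 1) → G) // Surjective (FreeGroup.lift (ofLex x))}

instance [Finite G] (n : ℕ) : Finite (Wd G n) := Finite.of_injective (fun x => ofLex x.1) Subtype.val_injective

def ph (G : Type) [Group G] (n : ℕ) : FreeGroup (Fin (n + 1)) →* (Wd G n → G) :=
  MonoidHom.pi fun x => FreeGroup.lift (ofLex x.1)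

def Rs (G : Type) [Group G] : Cls := fun H _ => ∃ (S : Type) (_ : Group S) (_ : Finite S) (f : S →* H),
  Surjective f ∧ ∀ s, (∀ π : S →* G, Surjective π → π s = 1) → s = 1

theorem rs_form : IsForm (Rs G) := by
  refine mk_form (fun _ _ ⟨_, _, _, f, hf, _⟩ => Finite.of_surjective f hf)
    (fun _ _ _ _ g hg ⟨S, _, _, f, hf, h⟩ => ⟨S, _, ‹_›, g.comp f, hg.comp hf, h⟩) ?_
  rintro H _ _ N L _ _ e ⟨S, _, _, f, hf, a⟩ ⟨T, _, _, g, hg, b⟩
  let P : Subgroup (H × S × T) := ((QuotientGroup.mk' N).comp (MonoidHom.fst _ _)).eqLocus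
      (f.comp ((MonoidHom.fst _ _).comp (MonoidHom.snd _ _))) ⊓
    ((QuotientGroup.mk' L).comp (MonoidHom.fst _ _)).eqLocus
      (g.comp ((MonoidHom.snd _ _).comp (MonoidHom.snd _ _)))
  refine ⟨P, _, inferInstance, (MonoidHom.fst _ _).comp P.subtype, fun h => ?_, fun s h => ?_⟩
  · obtain ⟨s, u⟩ := hf h
    obtain ⟨t, v⟩ := hg h
    exact ⟨⟨(h, s, t), u.symm, v.symm⟩, rfl⟩
  · have a : s.1.2.1 = 1 := a _ fun π p => h (π.comp (((MonoidHom.fst _ _).comp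
      (MonoidHom.snd _ _)).comp P.subtype)) (p.comp fun s => by
        obtain ⟨h, u⟩ := QuotientGroup.mk_surjective (f s)
        obtain ⟨t, v⟩ := hg h
        exact ⟨⟨(h, s, t), u, v.symm⟩, rfl⟩)
    have b : s.1.2.2 = 1 := b _ fun π p => h (π.comp (((MonoidHom.snd _ _).comp
      (MonoidHom.snd _ _)).comp P.subtype)) (p.comp fun t => by
        obtain ⟨h, v⟩ := QuotientGroup.mk_surjective (g t)
        obtain ⟨s, u⟩ := hf h
        exact ⟨⟨(h, s, t), u.symm, v⟩, rfl⟩)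
    exact Subtype.ext (Prod.ext (two_q e (s.2.1.trans (show f s.1.2.1 = 1 by rw [a, map_one]))
      (s.2.2.trans (show g s.1.2.2 = 1 by rw [b, map_one]))) (Prod.ext a b))

theorem Rs.ex (h : Rs G H) : ∃ n, ∃ g : (ph G n).range →* H, Surjective g := by
  obtain ⟨S, _, _, f, hf, a⟩ := h
  obtain ⟨n, ⟨e⟩⟩ := Finite.exists_equiv_fin S
  let w : Fin (n + 1) → S := Fin.cons 1 e.symm
  have hw : Surjective (FreeGroup.lift w) := fun s => ⟨.of (e s).succ, by simp [w]⟩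
  have k : ∀ π : S →* G, FreeGroup.lift (π ∘ w) = π.comp (FreeGroup.lift w) := fun π => by ext; simp
  refine ⟨n, (ph G n).rangeRestrict.liftOfSurjective (MonoidHom.rangeRestrict_surjective _)
    ⟨f.comp (FreeGroup.lift w), fun u hu => ?_⟩, fun h => ?_⟩
  · rw [MonoidHom.mem_ker, MonoidHom.comp_apply, a (FreeGroup.lift w u) fun π p => ?_, map_one]
    exact (DFunLike.congr_fun (k π) u).symm.trans (congrFun (congrArg Subtype.val hu)
      ⟨toLex (π ∘ w), (k π).symm ▸ p.comp hw⟩)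
  · obtain ⟨u, rfl⟩ := (hf.comp hw) h
    exact ⟨_, MonoidHom.liftOfRightInverse_comp_apply _ _ _ _ u⟩

theorem acc [Finite G] (F : ℕ → Cls) (a : ∀ i, Fm (F i)) (b : ∀ i, Le (F i) (Rs G))
    (c : ∀ i, Le (F i) (F (i + 1))) : ∃ i, Le (F (i + 1)) (F i) := by
  by_contra! d
  let _ : LinearOrder G := .lift' _ (Finite.equivFin G).injective
  let L := fun i n => (res (F i) (ph G n).range).map (ph G n).range.subtype
  have m : ∀ i j, i ≤ j → ∀ n, L j n ≤ L i n := fun i j e n => map_mono (res_le (a j).1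
    (fq_mono (res_fq (a i) _) (by
      induction e with
      | refl => exact fun _ _ h => h
      | step _ ih => exact ih.trans (c _))))
  have k : ∀ i, ∃ n x, ¬ Dx (L i n) x ⊆ Dx (L (i + 1) n) x := fun i => by
    by_contra! e
    refine d i fun H _ h => ?_
    obtain ⟨n, g, hg⟩ := (b _ H h).ex
    exact of_res (a i) g hg (((map_le_map_iff_of_injective (subtype_injective _)).1
      (le_of_Dx (m _ _ i.le_succ n) (e n))).trans (res_le (a _).1 ⟨H, _, g, hg, rfl, h⟩))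
  choose n x k using k
  obtain ⟨i, j, l, e, s, s1, s2⟩ := wqo n (fun i => ofLex (x i).1) fun i => Dx (L i (n i)) (x i)
  have q : ∀ y : Fin (n i + 1) → G, FreeGroup.lift (y ∘ s) = (FreeGroup.lift y).comp (FreeGroup.map s) :=
    fun y => by ext; simp
  have hs : Surjective (FreeGroup.map s) := FreeGroup.map_surjective fun k => (s2 k).imp fun _ h => h.1
  let σ : Wd G (n i) → Wd G (n j) := fun y => ⟨toLex (ofLex y.1 ∘ s), (q _).symm ▸ y.2.comp hs⟩
  have r : ∀ u, (fun y => ph G _ u (σ y)) = ph G _ (FreeGroup.map s u) := fun u =>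
    funext fun y => DFunLike.congr_fun (q _) u
  let ρ : (ph G (n j)).range →* (ph G (n i)).range := ((MonoidHom.pi fun y =>
    Pi.evalMonoidHom _ (σ y)).comp (ph G _).range.subtype).codRestrict _ fun ⟨_, u, h⟩ =>
      ⟨FreeGroup.map s u, h ▸ (r u).symm⟩
  have hρ : Surjective ρ := by
    rintro ⟨_, u, rfl⟩
    obtain ⟨u, rfl⟩ := hs u
    exact ⟨⟨_, u, rfl⟩, Subtype.ext (r u)⟩
  have t : σ (x i) = x j := Subtype.ext (congrArg toLex s1)
  refine k i (e.le.trans ?_)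
  rintro _ ⟨_, ⟨u, u1, rfl⟩, u2, rfl⟩
  refine ⟨_, m _ _ l _ ⟨ρ u, (res_map (a j) ρ hρ).ge ⟨u, u1, rfl⟩, rfl⟩, fun y ⟨z, z1, z2⟩ =>
    u2 (σ y) (t ▸ ?_), congrArg u.1 t⟩
  obtain ⟨v, rfl, v2⟩ := s2 z
  exact ⟨v, fun w h => z1 _ (v2 w h), z2⟩

theorem one_gen [Finite G] {F : Cls} (a : Fm F) (b : Le F (Gen G)) :
    ∃ (K : Type) (_ : Group K), Finite K ∧ F = Gen K := by
  by_contra! c
  have k : ∀ E : {E : Cls // ∃ (K : Type) (_ : Group K), F K ∧ E = Gen K},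
      ∃ E' : {E : Cls // ∃ (K : Type) (_ : Group K), F K ∧ E = Gen K}, Le E.1 E'.1 ∧ ¬ Le E'.1 E.1 := by
    rintro ⟨_, K, _, h, rfl⟩
    obtain ⟨H, _, u, v⟩ : ∃ (H : Type) (_ : Group H), F H ∧ ¬ Gen K H := by
      by_contra! e
      exact c K _ (a.1.1 K h) (cls_ext (fun H _ => e H _) fun H _ u => u.2 F a.1 h)
    exact ⟨⟨_, K × H, _, prod_mem a.1 h u, rfl⟩, fun R _ w => ⟨w.1, fun E e z => w.2 E e
      (surj e (MonoidHom.fst _ _) Prod.fst_surjective z)⟩, fun w => v (w H ⟨a.1.1 H u, fun E e z =>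
        surj e (MonoidHom.snd _ _) Prod.snd_surjective z⟩)⟩
  choose f f1 f2 using k
  obtain ⟨i, h⟩ := acc (G := G) (fun i => (f^[i] ⟨_, Unit, _, a.2, rfl⟩).1) (fun i => by
      obtain ⟨K, _, -, e⟩ := (f^[i] ⟨_, Unit, _, a.2, rfl⟩).2
      exact e ▸ gen_fm) (fun i H _ h => by
      obtain ⟨K, _, u, e⟩ := (f^[i] ⟨_, Unit, _, a.2, rfl⟩).2
      exact (b H ((e ▸ h : Gen K H).2 F a.1 u)).2 _ rs_form ⟨G, _, ‹_›, .id G, surjective_id,
        fun s h => h (.id G) surjective_id⟩) fun i => iterate_succ_apply' f i _ ▸ f1 _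
  exact f2 _ (iterate_succ_apply' f i _ ▸ h)

end Pool.Agent.H22.Comp
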