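import Mathlib

namespace Pool.Agent.H22.Nvl1

abbrev F := ZMod 5
abbrev V := Fin 3 → F
abbrev W := Fin 3 → Fin 3 → F
abbrev M := V × V × V
abbrev T := W × W × W

def mu (x y : M) : T :=
  (fun i j => x.2.1 j * y.2.2 (i + j) + x.2.2 (i + j) * y.2.1 j,
   fun i j => x.1 i * y.2.2 (i + j) + x.2.2 (i + j) * y.1 i,
   fun i j => x.1 i * y.2.1 j + x.2.1 j * y.1 i)

def nu (t : T) (x : M) : V := fun l =>
  ∑ j : Fin 3, (t.1 (l + j) j * x.1 (l + j) + t.2.1 (l + j) j * x.2.1 j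
    + t.2.2 (l + j) j * x.2.2 (l + j + j))

theorem mu_comm (x y : M) : mu x y = mu y x := by
  unfold mu
  ext i j <;> simp <;> ring
theorem mu_add (x y z : M) : mu x (y + z) = mu x y + mu x z := by
  unfold mu
  ext i j <;> simp <;> ring
theorem mu_smul (c : F) (x y : M) : mu x (c • y) = c • mu x y := by
  unfold mu
  ext i j <;> simp <;> ring
theorem add_mu (x y z : M) : mu (x + y) z = mu x z + mu y z := by
  rw [mu_comm, mu_add, mu_comm z, mu_comm z]
theorem smul_mu (c : F) (x y : M) : mu (c • x) y = c • mu x y := by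
  rw [mu_comm, mu_smul, mu_comm y]
theorem nu_add (t : T) (y z : M) : nu t (y + z) = nu t y + nu t z := by
  unfold nu
  ext l
  simp [Fin.sum_univ_three]
  ring
theorem nu_smul (c : F) (t : T) (y : M) : nu t (c • y) = c • nu t y := by
  unfold nu
  ext l
  simp [Fin.sum_univ_three]
  ring
theorem add_nu (t s : T) (y : M) : nu (t + s) y = nu t y + nu s y := by
  unfold nu
  ext l
  simp [Fin.sum_univ_three]
  ring
theorem smul_nu (c : F) (t : T) (y : M) : nu (c • t) y = c • nu t y := by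
  unfold nu
  ext l
  simp [Fin.sum_univ_three]
  ring
theorem nu_mu (x y z : M) : nu (mu x y) z = nu (mu x z) y := by
  unfold nu mu
  ext l
  simp [Fin.sum_univ_three]
  ring

def muL : M →ₗ[F] M →ₗ[F] T := LinearMap.mk₂ F mu add_mu smul_mu mu_add mu_smul
def nuL : T →ₗ[F] M →ₗ[F] V := LinearMap.mk₂ F nu add_nu smul_nu nu_add nu_smul

theorem muL_comm (x y : M) : muL x y = muL y x := mu_comm x y
theorem nuL_muL (x y z : M) : nuL (muL x y) z = nuL (muL x z) y := nu_mu x y z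

@[ext] structure P where
  a1 : M
  a2 : M
  b : T
  c1 : V
  c2 : V

def om (x y : P) : T := muL x.a1 y.a2 - muL x.a2 y.a1

instance : Mul P := ⟨fun x y => ⟨x.a1 + y.a1, x.a2 + y.a2, x.b + y.b + om x y,
  x.c1 + y.c1 + (3 : F) • (nuL x.b y.a1 - nuL y.b x.a1) + nuL (om x y) (y.a1 - x.a1),
  x.c2 + y.c2 + (3 : F) • (nuL x.b y.a2 - nuL y.b x.a2) + nuL (om x y) (y.a2 - x.a2)⟩⟩
instance : One P := ⟨⟨0, 0, 0, 0, 0⟩⟩
instance : Inv P := ⟨fun x => ⟨-x.a1, -x.a2, -x.b, -x.c1, -x.c2⟩⟩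

theorem mul_def (x y : P) : x * y = ⟨x.a1 + y.a1, x.a2 + y.a2, x.b + y.b + om x y,
  x.c1 + y.c1 + (3 : F) • (nuL x.b y.a1 - nuL y.b x.a1) + nuL (om x y) (y.a1 - x.a1),
  x.c2 + y.c2 + (3 : F) • (nuL x.b y.a2 - nuL y.b x.a2) + nuL (om x y) (y.a2 - x.a2)⟩ := rfl
theorem one_def : (1 : P) = ⟨0, 0, 0, 0, 0⟩ := rfl
theorem inv_def (x : P) : x⁻¹ = ⟨-x.a1, -x.a2, -x.b, -x.c1, -x.c2⟩ := rfl

/-- The symmetric trilinear map. -/
def ph (x y z : M) : V := nuL (muL x y) z
theorem ph12 (x y z : M) : ph x y z = ph y x z := by unfold ph; rw [muL_comm]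
theorem ph23 (x y z : M) : ph x y z = ph x z y := nuL_muL x y z
theorem ph_def (x y z : M) : nuL (muL x y) z = ph x y z := rfl

theorem P_assoc (x y z : P) : x * y * z = x * (y * z) := by
  obtain ⟨a1, a2, b, c1, c2⟩ := x
  obtain ⟨d1, d2, e, f1, f2⟩ := y
  obtain ⟨g1, g2, h, k1, k2⟩ := z
  simp only [mul_def, om, map_add, map_sub, LinearMap.add_apply, LinearMap.sub_apply, ph_def]
  ext1
  · simp only [add_assoc]
  · simp only [add_assoc]
  · dsimp only
    abel
  · dsimp only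
    simp only [ph12, ph23]
    module
  · dsimp only
    simp only [ph12, ph23]
    module

instance : Group P := Group.ofLeftAxioms P_assoc
  (fun x => by ext1 <;> simp [mul_def, one_def, om])
  (fun x => by
    ext1 <;> simp [mul_def, one_def, inv_def, om, muL_comm x.a2 x.a1])

end Pool.Agent.H22.Nvl1
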