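import Mathlib
import Pool.Agent.H22.Nvl1

namespace Pool.Agent.H22.Nvl2
open Pool.Agent.H22.Nvl1
open scoped commutatorElement

@[ext] structure H where
  p : F
  q : F
  r : F
  s : F
  det : p * s - q * r = 1

instance : Mul H := ⟨fun x y => ⟨x.p * y.p + x.q * y.r, x.p * y.q + x.q * y.s,
  x.r * y.p + x.s * y.r, x.r * y.q + x.s * y.s, by
    linear_combination (y.p * y.s - y.q * y.r) * x.det + y.det⟩⟩
instance : One H := ⟨⟨1, 0, 0, 1, by ring⟩⟩
instance : Inv H := ⟨fun x => ⟨x.s, -x.q, -x.r, x.p, by linear_combination x.det⟩⟩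

theorem mul_p (x y : H) : (x * y).p = x.p * y.p + x.q * y.r := rfl
theorem mul_q (x y : H) : (x * y).q = x.p * y.q + x.q * y.s := rfl
theorem mul_r (x y : H) : (x * y).r = x.r * y.p + x.s * y.r := rfl
theorem mul_s (x y : H) : (x * y).s = x.r * y.q + x.s * y.s := rfl
theorem one_p : (1 : H).p = 1 := rfl
theorem one_q : (1 : H).q = 0 := rfl
theorem one_r : (1 : H).r = 0 := rfl
theorem one_s : (1 : H).s = 1 := rfl
theorem inv_p (x : H) : x⁻¹.p = x.s := rfl
theorem inv_q (x : H) : x⁻¹.q = -x.q := rfl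
theorem inv_r (x : H) : x⁻¹.r = -x.r := rfl
theorem inv_s (x : H) : x⁻¹.s = x.p := rfl

instance : Group H := Group.ofLeftAxioms
  (fun x y z => by ext1 <;> simp only [mul_p, mul_q, mul_r, mul_s] <;> ring)
  (fun x => by ext1 <;> simp [mul_p, mul_q, mul_r, mul_s, one_p, one_q, one_r, one_s])
  (fun x => by
    have := x.det
    ext1 <;> simp only [mul_p, mul_q, mul_r, mul_s, one_p, one_q, one_r, one_s, inv_p, inv_q,
      inv_r, inv_s]
    · linear_combination this
    · ring
    · ring
    · linear_combination this)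

def eH : H ≃ {x : F × F × F × F // x.1 * x.2.2.2 - x.2.1 * x.2.2.1 = 1} where
  toFun x := ⟨(x.p, x.q, x.r, x.s), x.det⟩
  invFun x := ⟨x.1.1, x.1.2.1, x.1.2.2.1, x.1.2.2.2, x.2⟩
  left_inv _ := rfl
  right_inv _ := rfl

instance : Finite H := Finite.of_equiv _ eH.symm

theorem card_H : Nat.card H = 120 := by
  rw [Nat.card_congr eH, Nat.card_eq_fintype_card]
  decide +kernel

def act (h : H) (x : P) : P :=
  ⟨h.p • x.a1 + h.q • x.a2, h.r • x.a1 + h.s • x.a2, x.b, h.p • x.c1 + h.q • x.c2,
    h.r • x.c1 + h.s • x.c2⟩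

theorem om_act (h : H) (x y : P) : om (act h x) (act h y) = om x y := by
  have : om (act h x) (act h y) = (h.p * h.s - h.q * h.r) • om x y := by
    simp only [om, act, map_add, map_smul, LinearMap.add_apply, LinearMap.smul_apply]
    module
  rw [this, h.det, one_smul]

theorem act_mul (h : H) (x y : P) : act h (x * y) = act h x * act h y := by
  rw [mul_def, mul_def, om_act]
  generalize om x y = w
  simp only [act, map_add, map_sub, map_smul]
  ext1 <;> dsimp only <;> module

theorem act_act (h k : H) (x : P) : act (h * k) x = act h (act k x) := by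
  simp only [act, mul_p, mul_q, mul_r, mul_s]
  ext1 <;> dsimp only <;> module

theorem act_one (x : P) : act 1 x = x := by
  ext1 <;> simp [act, one_p, one_q, one_r, one_s]

def actA (h : H) : MulAut P where
  toFun := act h
  invFun := act h⁻¹
  left_inv x := by rw [← act_act, inv_mul_cancel, act_one]
  right_inv x := by rw [← act_act, mul_inv_cancel, act_one]
  map_mul' := act_mul h

def phi : H →* MulAut P where
  toFun := actA
  map_one' := MulEquiv.ext act_one
  map_mul' h k := MulEquiv.ext (act_act h k)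

theorem phi_apply (h : H) (x : P) : phi h x = act h x := rfl

abbrev G := P ⋊[phi] H

def eP : P ≃ M × M × T × V × V where
  toFun x := (x.a1, x.a2, x.b, x.c1, x.c2)
  invFun x := ⟨x.1, x.2.1, x.2.2.1, x.2.2.2.1, x.2.2.2.2⟩
  left_inv _ := rfl
  right_inv _ := rfl

instance : Finite P := Finite.of_equiv _ eP.symm
instance : Finite G := Finite.of_equiv _ SemidirectProduct.equivProd.symm

theorem card_V : Nat.card V = 5 ^ 3 := by simp [Nat.card_eq_fintype_card]
theorem card_W : Nat.card W = 5 ^ 9 := by simp [Nat.card_eq_fintype_card]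
theorem card_M : Nat.card M = 5 ^ 9 := by
  simp only [Nat.card_prod, card_V]; norm_num
theorem card_T : Nat.card T = 5 ^ 27 := by
  simp only [Nat.card_prod, card_W]; norm_num

theorem card_G : Nat.card G = 5 ^ 51 * 120 := by
  rw [Nat.card_congr SemidirectProduct.equivProd, Nat.card_prod, card_H, Nat.card_congr eP]
  simp only [Nat.card_prod, card_V, card_W]
  norm_num

def mk (a1 a2 : M) (h : H) : G := ⟨⟨a1, a2, 0, 0, 0⟩, h⟩

def repl (z : G) (c1 c2 : V) : G := ⟨⟨z.left.a1, z.left.a2, z.left.b, c1, c2⟩, z.right⟩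

theorem conj_N (n z : G) (h1 : n.left.a1 = 0) (h2 : n.left.a2 = 0) (h3 : n.right = 1) :
    n * z * n⁻¹ = repl z (n * z * n⁻¹).left.c1 (n * z * n⁻¹).left.c2 := by
  obtain ⟨⟨a1, a2, b, c1, c2⟩, h⟩ := n
  dsimp only at h1 h2 h3
  subst h1 h2 h3
  ext1
  · ext1 <;> simp [repl, phi_apply, mul_def, inv_def, act, om, one_p, one_q, one_r, one_s]
  · simp [repl]

theorem class_le (x : G) : (conjugatesOf x).ncard ≤ 5 ^ 24 * 120 := by
  let f : M × M × H × V × V → G := fun u =>
    repl (mk u.1 u.2.1 u.2.2.1 * x * (mk u.1 u.2.1 u.2.2.1)⁻¹) u.2.2.2.1 u.2.2.2.2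
  have hsub : conjugatesOf x ⊆ f '' Set.univ := by
    intro y hy
    obtain ⟨g, rfl⟩ := isConj_iff.1 hy
    obtain ⟨k, hk⟩ : ∃ k, k = mk g.left.a1 g.left.a2 g.right := ⟨_, rfl⟩
    have e : g * x * g⁻¹ = (g * k⁻¹) * (k * x * k⁻¹) * (g * k⁻¹)⁻¹ := by group
    have hh : ∀ u : P, act g.right (act g.right⁻¹ u) = u := fun u => by
      rw [← act_act, mul_inv_cancel, act_one]
    have := conj_N (g * k⁻¹) (k * x * k⁻¹)
      (by simp [hk, mk, phi_apply, hh, mul_def, inv_def])
      (by simp [hk, mk, phi_apply, hh, mul_def, inv_def])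
      (by simp [hk, mk])
    rw [← e] at this
    refine ⟨(g.left.a1, g.left.a2, g.right, (g * x * g⁻¹).left.c1, (g * x * g⁻¹).left.c2),
      trivial, ?_⟩
    simp only [f, ← hk]
    exact this.symm
  refine (Set.ncard_le_ncard hsub (Set.toFinite _)).trans ?_
  refine (Set.ncard_image_le (Set.toFinite _)).trans ?_
  rw [Set.ncard_univ]
  simp only [Nat.card_prod, card_V, card_H]
  norm_num

def neg1 : H := ⟨-1, 0, 0, -1, by ring⟩

theorem two_inj {A : Type} [AddCommGroup A] [Module F A] {x : A} (h : x + x = 0) : x = 0 := by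
  have h5 : (3 * 2 : F) = 1 := by decide
  calc x = (3 * 2 : F) • x := by rw [h5, one_smul]
    _ = (3 : F) • (x + x) := by rw [mul_smul, two_smul]
    _ = 0 := by rw [h, smul_zero]

theorem nu_nondeg (b : T) (h : ∀ x : M, nuL b x = 0) : b = 0 := by
  obtain ⟨b1, b2, b3⟩ := b
  have e : ∀ x : M, ∀ l, nu (b1, b2, b3) x l = 0 := fun x l => congrFun (h x) l
  have k1 : ∀ i j k : Fin 3, i - j + k = i ↔ k = j := by decide
  have k2 : ∀ i j k : Fin 3, i - j + k + k = i + j ↔ k = j := by decide
  ext i j
  · have := e (Pi.single i 1, 0, 0) (i - j)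
    simpa [nu, Pi.single_apply, k1] using this
  · have := e (0, Pi.single j 1, 0) (i - j)
    simpa [nu, Pi.single_apply] using this
  · have := e (0, 0, Pi.single (i + j) 1) (i - j)
    simpa [nu, Pi.single_apply, k2] using this

theorem center_G : Subgroup.center G = ⊥ := by
  rw [eq_bot_iff]
  intro z hz
  rw [Subgroup.mem_center_iff] at hz
  obtain ⟨⟨a1, a2, b, c1, c2⟩, h⟩ := z
  have e1 := congrArg SemidirectProduct.left (hz (SemidirectProduct.inr neg1))
  simp only [SemidirectProduct.mul_left, SemidirectProduct.left_inr, SemidirectProduct.right_inr,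
    map_one, mul_one, one_mul, phi_apply, act, neg1, P.mk.injEq, neg_smul, one_smul, zero_smul,
    add_zero, zero_add, true_and] at e1
  obtain ⟨f1, f2, f3, f4⟩ := e1
  obtain rfl : a1 = 0 := two_inj (by rw [← neg_eq_iff_add_eq_zero]; exact f1)
  obtain rfl : a2 = 0 := two_inj (by rw [← neg_eq_iff_add_eq_zero]; exact f2)
  obtain rfl : c1 = 0 := two_inj (by rw [← neg_eq_iff_add_eq_zero]; exact f3)
  obtain rfl : c2 = 0 := two_inj (by rw [← neg_eq_iff_add_eq_zero]; exact f4)
  have e2 := fun x y : M =>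
    congrArg SemidirectProduct.left (hz (SemidirectProduct.inl ⟨x, y, 0, 0, 0⟩))
  simp only [SemidirectProduct.mul_left, SemidirectProduct.left_inl, SemidirectProduct.right_inl,
    map_one, MulAut.one_apply, phi_apply, act, mul_def, om, P.mk.injEq] at e2
  have g1 := e2 ((fun _ => 1), 0, 0) 0
  have g2 := e2 0 ((fun _ => 1), 0, 0)
  have hp : h.p = 1 := by simpa using (congrFun (congrArg Prod.fst g1.1) 0).symm
  have hr : h.r = 0 := by simpa using (congrFun (congrArg Prod.fst g1.2.1) 0).symm
  have hq : h.q = 0 := by simpa using (congrFun (congrArg Prod.fst g2.1) 0).symm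
  have hs : h.s = 1 := by simpa using (congrFun (congrArg Prod.fst g2.2.1) 0).symm
  have hb : b = 0 := by
    refine nu_nondeg b fun x => ?_
    have g3 := (e2 x 0).2.2.2.1
    simp only [hp, hq, hr, hs, map_zero, LinearMap.zero_apply, one_smul, zero_smul, add_zero,
      zero_add, sub_zero, zero_sub, smul_neg, smul_zero] at g3
    have g4 : (3 : F) • nuL b x = 0 := two_inj (by rw [← neg_eq_iff_add_eq_zero]; exact g3)
    have h5 : (2 * 3 : F) = 1 := by decide
    rw [← one_smul F (nuL b x), ← h5, mul_smul, g4, smul_zero]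
  subst hb
  have hh : h = 1 := H.ext hp hq hr hs
  subst hh
  rfl

def up (x : F) : H := ⟨1, x, 0, 1, by ring⟩
def lo (x : F) : H := ⟨1, 0, x, 1, by ring⟩
def dg : H := ⟨2, 0, 0, 3, by decide⟩

theorem up_mem (x : F) : up x ∈ commutator H := by
  have : up x = ⁅dg, up (2 * x)⁆ := by
    rw [commutatorElement_def]
    revert x
    intro x
    ext1 <;> simp only [mul_p, mul_q, mul_r, mul_s, inv_p, inv_q, inv_r, inv_s, up, dg] <;>
      revert x <;> decide
  rw [this]
  exact Subgroup.commutator_mem_commutator (Subgroup.mem_top _) (Subgroup.mem_top _)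

theorem lo_mem (x : F) : lo x ∈ commutator H := by
  have : lo x = ⁅dg, lo (2 * x)⁆ := by
    rw [commutatorElement_def]
    ext1 <;> simp only [mul_p, mul_q, mul_r, mul_s, inv_p, inv_q, inv_r, inv_s, lo, dg] <;>
      revert x <;> decide
  rw [this]
  exact Subgroup.commutator_mem_commutator (Subgroup.mem_top _) (Subgroup.mem_top _)

theorem H_aux (h : H) (hr : h.r ≠ 0) : h ∈ commutator H := by
  have : Fact (Nat.Prime 5) := ⟨by norm_num⟩
  have : h = up ((h.p - 1) / h.r) * lo h.r * up ((h.s - 1) / h.r) := by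
    have := h.det
    ext1 <;> simp only [mul_p, mul_q, mul_r, mul_s, up, lo] <;> field_simp
    · ring
    · linear_combination -this
    · ring
    · ring
  rw [this]
  exact mul_mem (mul_mem (up_mem _) (lo_mem _)) (up_mem _)

theorem H_perfect (h : H) : h ∈ commutator H := by
  by_cases hr : h.r = 0
  · have h1 : lo 1 * h ∈ commutator H := by
      apply H_aux
      simp only [mul_r, lo, hr]
      intro h0
      have := h.det
      have hp : h.p = 0 := by linear_combination h0
      rw [hp, hr] at this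
      revert this
      simp only [zero_mul, mul_zero, sub_zero]
      decide
    have : h = (lo 1)⁻¹ * (lo 1 * h) := by group
    rw [this]
    exact mul_mem (inv_mem (lo_mem 1)) h1
  · exact H_aux h hr

theorem inr_mem (h : H) : (SemidirectProduct.inr h : G) ∈ commutator G := by
  have := Subgroup.mem_map_of_mem (SemidirectProduct.inr : H →* G) (H_perfect h)
  rw [commutator_def, Subgroup.map_commutator] at this
  exact Subgroup.commutator_mono le_top le_top this

theorem odd_mem (a1 a2 : M) (c1 c2 : V) :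
    (SemidirectProduct.inl ⟨a1, a2, 0, c1, c2⟩ : G) ∈ commutator G := by
  have h5 : (3 : F) + 3 = 1 := by decide
  have : (SemidirectProduct.inl ⟨a1, a2, 0, c1, c2⟩ : G)
      = ⁅(SemidirectProduct.inl ⟨(3 : F) • a1, (3 : F) • a2, 0, (3 : F) • c1, (3 : F) • c2⟩ : G),
        (SemidirectProduct.inr neg1 : G)⁆ := by
    rw [commutatorElement_def, mul_assoc, mul_assoc, ← mul_assoc (SemidirectProduct.inr neg1),
      ← map_inv, ← map_inv, ← SemidirectProduct.inl_aut, ← map_mul]
    congr 1
    ext1 <;> simp [phi_apply, act, neg1, mul_def, inv_def, om, muL_comm a2 a1, ← add_smul, h5]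
  rw [this]
  exact Subgroup.commutator_mem_commutator (Subgroup.mem_top _) (Subgroup.mem_top _)

def D : AddSubgroup T where
  carrier := {b | (SemidirectProduct.inl ⟨0, 0, b, 0, 0⟩ : G) ∈ commutator G}
  add_mem' {a b} ha hb := by
    have := (commutator G).mul_mem ha hb
    rw [← map_mul] at this
    convert this using 2
    simp [mul_def, om]
  zero_mem' := odd_mem 0 0 0 0
  neg_mem' {a} ha := by
    have := (commutator G).inv_mem ha
    rw [← map_inv] at this
    convert this using 2
    simp [inv_def]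

theorem mu_mem (x y : M) : muL x y ∈ D := by
  have := mul_mem (mul_mem (mul_mem (odd_mem x 0 0 0) (odd_mem 0 y 0 0)) (odd_mem (-x) (-y) 0 0))
    (odd_mem 0 0 ((4 : F) • nuL (muL x y) x) ((2 : F) • nuL (muL x y) y))
  rw [← map_mul, ← map_mul, ← map_mul] at this
  show (SemidirectProduct.inl ⟨0, 0, muL x y, 0, 0⟩ : G) ∈ commutator G
  convert this using 2
  ext1
  · simp [mul_def]
  · simp [mul_def]
  · simp [mul_def, om, muL_comm y x]
  · simp [mul_def, om, muL_comm y x]
    module
  · simp [mul_def, om, muL_comm y x]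
    module

theorem D_all (b : T) : b ∈ D := by
  obtain ⟨b1, b2, b3⟩ := b
  have : (b1, b2, b3) = ∑ j : Fin 3, (muL (0, Pi.single j 1, 0) (0, 0, fun k => b1 (k - j) j)
      + muL (Pi.single j 1, 0, 0) (0, 0, fun k => b2 j (k - j))
      + muL (Pi.single j 1, 0, 0) (0, fun k => b3 j k, 0)) := by
    ext i j <;> fin_cases i <;> fin_cases j <;> simp [Fin.sum_univ_three, muL, mu] <;> rfl
  rw [this]
  exact sum_mem fun j _ => add_mem (add_mem (mu_mem _ _) (mu_mem _ _)) (mu_mem _ _)

theorem perfect_G : commutator G = ⊤ := by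
  rw [eq_top_iff]
  intro g _
  rw [← SemidirectProduct.inl_left_mul_inr_right g]
  refine mul_mem ?_ (inr_mem _)
  obtain ⟨a1, a2, b, c1, c2⟩ := g.left
  have := (commutator G).mul_mem (D_all b)
    (odd_mem a1 a2 (c1 - (3 : F) • nuL b a1) (c2 - (3 : F) • nuL b a2))
  rw [← map_mul] at this
  convert this using 2
  simp [mul_def, om]

end Pool.Agent.H22.Nvl2
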