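import Pool.Agent.H22.OStar1

set_option autoImplicit false

namespace Pool.Agent.H22.OStar

open Equiv
open scoped commutatorElement

abbrev Pm : Type := Perm ℝ

def RL (f : Pm) : Prop :=
  ∀ p : ℝ, ∃ ε > 0, ∃ s : ℝ, ∀ x, p ≤ x → x ≤ p + ε → f x = f p + s * (x - p)

theorem slope_pos {f : Pm} (hf : StrictMono f) {p ε s : ℝ} (hε : 0 < ε)
    (h : ∀ x, p ≤ x → x ≤ p + ε → f x = f p + s * (x - p)) : 0 < s := by
  have h1 := h (p + ε) (by linarith) le_rfl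
  have h2 : f p < f (p + ε) := hf (by linarith)
  by_contra h3
  nlinarith

theorem mono_inv {f : Pm} (hf : StrictMono f) : StrictMono (f⁻¹ : Pm) := by
  intro x y h
  rw [← hf.lt_iff_lt]
  simpa using h

def H1 : Subgroup Pm where
  carrier := {f | StrictMono f ∧ RL f}
  one_mem' := ⟨strictMono_id, fun p => ⟨1, one_pos, 1, fun x _ _ => by simp⟩⟩
  mul_mem' := by
    rintro f g ⟨hf, hf'⟩ ⟨hg, hg'⟩
    refine ⟨hf.comp hg, fun p => ?_⟩
    obtain ⟨ε, hε, s, h⟩ := hg' p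
    obtain ⟨δ, hδ, t, h'⟩ := hf' (g p)
    have hs := slope_pos hg hε h
    refine ⟨min ε (δ / s), lt_min hε (div_pos hδ hs), t * s, fun x h1 h2 => ?_⟩
    have h3 : x ≤ p + ε := le_trans h2 (by linarith [min_le_left ε (δ / s)])
    have h4 : x - p ≤ δ / s := by linarith [min_le_right ε (δ / s)]
    rw [le_div_iff₀ hs] at h4
    rw [Perm.mul_apply, Perm.mul_apply, h' (g x) (hg.monotone h1) (by rw [h x h1 h3]; linarith),
      h x h1 h3]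
    ring
  inv_mem' := by
    rintro f ⟨hf, hf'⟩
    refine ⟨mono_inv hf, fun q => ?_⟩
    obtain ⟨ε, hε, s, h⟩ := hf' (f⁻¹ q)
    have hs := slope_pos hf hε h
    refine ⟨s * ε, mul_pos hs hε, s⁻¹, fun y h1 h2 => ?_⟩
    have h3 : 0 ≤ s⁻¹ * (y - q) := mul_nonneg (inv_pos.2 hs).le (by linarith)
    have h4 : s⁻¹ * (y - q) ≤ ε := by
      rw [inv_mul_le_iff₀ hs]; linarith
    rw [Perm.inv_eq_iff_eq, h _ (by linarith) (by linarith)]
    rw [show f (f⁻¹ q) = q by simp]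
    field_simp
    ring

noncomputable def nu : Pm →* Pm := (MulAut.conj (Equiv.neg ℝ : Pm)).toMonoidHom

theorem nu_apply (f : Pm) (x : ℝ) : nu f x = -f (-x) := rfl

theorem nu_nu (f : Pm) : nu (nu f) = f := by
  ext x; simp [nu_apply]

noncomputable def PL : Subgroup Pm := H1 ⊓ H1.comap nu

theorem PL.mono {f : Pm} (h : f ∈ PL) : StrictMono f := h.1.1

theorem nu_PL {f : Pm} (h : f ∈ PL) : nu f ∈ PL :=
  ⟨h.2, by change nu (nu f) ∈ H1; rw [nu_nu]; exact h.1⟩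

noncomputable def aff (s t : ℝ) (hs : 0 < s) : Pm where
  toFun x := s * x + t
  invFun y := (y - t) / s
  left_inv x := by field_simp; ring
  right_inv y := by field_simp; ring

theorem aff_apply (s t : ℝ) (hs : 0 < s) (x : ℝ) : aff s t hs x = s * x + t := rfl

theorem aff_H1 (s t : ℝ) (hs : 0 < s) : aff s t hs ∈ H1 :=
  ⟨fun x y h => by simp only [aff_apply]; nlinarith,
    fun p => ⟨1, one_pos, s, fun x _ _ => by simp only [aff_apply]; ring⟩⟩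

theorem aff_PL (s t : ℝ) (hs : 0 < s) : aff s t hs ∈ PL := by
  refine ⟨aff_H1 s t hs, ?_⟩
  have : nu (aff s t hs) = aff s (-t) hs := by
    ext x; simp [nu_apply, aff_apply]; ring
  change nu _ ∈ H1
  rw [this]
  exact aff_H1 _ _ _

theorem RL_glue {f g h : Pm} {p : ℝ} (hf : RL f) (hg : RL g) (h1 : ∀ x, x ≤ p → h x = f x)
    (h2 : ∀ x, p ≤ x → h x = g x) : RL h := by
  intro r
  rcases lt_or_ge r p with hr | hr
  · obtain ⟨ε, hε, s, h3⟩ := hf r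
    refine ⟨min ε (p - r), lt_min hε (by linarith), s, fun x h4 h5 => ?_⟩
    rw [h1 x (by linarith [min_le_right ε (p - r)]), h1 r hr.le,
      h3 x h4 (by linarith [min_le_left ε (p - r)])]
  · obtain ⟨ε, hε, s, h3⟩ := hg r
    exact ⟨ε, hε, s, fun x h4 h5 => by rw [h2 x (by linarith), h2 r hr, h3 x h4 h5]⟩

theorem glue1 {f g : Pm} (hf : f ∈ PL) (hg : g ∈ PL) {p : ℝ} (h : f p = g p) :
    ∃ k ∈ PL, (∀ x, x ≤ p → k x = f x) ∧ ∀ x, p ≤ x → k x = g x := by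
  classical
  have hm : StrictMono fun x => if x ≤ p then f x else g x := by
    intro x y hxy
    dsimp only
    split_ifs with h1 h2 h2
    · exact PL.mono hf hxy
    · exact lt_of_le_of_lt ((PL.mono hf).monotone h1) (h ▸ PL.mono hg (not_le.1 h2))
    · exact absurd (hxy.le.trans h2) h1
    · exact PL.mono hg hxy
  have hs : Function.Surjective fun x => if x ≤ p then f x else g x := by
    intro y
    by_cases hy : y ≤ f p
    · refine ⟨f⁻¹ y, ?_⟩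
      have : f⁻¹ y ≤ p := by rw [← (PL.mono hf).le_iff_le]; simpa using hy
      show (if _ then _ else _) = _
      rw [if_pos this]; simp
    · refine ⟨g⁻¹ y, ?_⟩
      have : ¬ g⁻¹ y ≤ p := by rw [← (PL.mono hg).le_iff_le, ← h]; simpa using hy
      show (if _ then _ else _) = _
      rw [if_neg this]; simp
  obtain ⟨k, hk⟩ : ∃ k : Pm, ∀ x, k x = if x ≤ p then f x else g x :=
    ⟨Equiv.ofBijective _ ⟨hm.injective, hs⟩, fun _ => rfl⟩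
  have h1 : ∀ x, x ≤ p → k x = f x := fun x hx => by rw [hk, if_pos hx]
  have h2 : ∀ x, p ≤ x → k x = g x := fun x hx => by
    rcases hx.eq_or_lt with rfl | hx
    · rw [h1 _ le_rfl, h]
    · rw [hk, if_neg (not_le.2 hx)]
  have hkm : StrictMono k := fun x y hxy => by rw [hk, hk]; exact hm hxy
  refine ⟨k, ⟨⟨hkm, RL_glue hf.1.2 hg.1.2 h1 h2⟩, ⟨fun x y hxy => ?_, ?_⟩⟩, h1, h2⟩
  · simp only [nu_apply]
    exact neg_lt_neg (hkm (neg_lt_neg hxy))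
  · refine RL_glue (p := -p) hg.2.2 hf.2.2 (fun x hx => ?_) (fun x hx => ?_)
    · rw [nu_apply, nu_apply, h2 _ (by linarith)]
    · rw [nu_apply, nu_apply, h1 _ (by linarith)]

theorem glue {f g : Pm} (hf : f ∈ PL) (hg : g ∈ PL) {p q : ℝ} (hpq : p < q) (h : f p < g q) :
    ∃ k ∈ PL, (∀ x, x ≤ p → k x = f x) ∧ ∀ x, q ≤ x → k x = g x := by
  have hs : 0 < (g q - f p) / (q - p) := div_pos (by linarith) (by linarith)
  have hne : q - p ≠ 0 := by linarith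
  obtain ⟨k1, hk1, h1, h2⟩ := glue1 (aff_PL _ (f p - (g q - f p) / (q - p) * p) hs) hg (p := q) (by
    rw [aff_apply]; field_simp; ring)
  obtain ⟨k, hk, h3, h4⟩ := glue1 hf hk1 (p := p) (by rw [h1 p hpq.le, aff_apply]; ring)
  exact ⟨k, hk, h3, fun x hx => by rw [h4 x (by linarith), h2 x hx]⟩

def Lft (f : Pm) (p : ℝ) : Prop := ∀ x, p ≤ x → f x = x
def Rgt (f : Pm) (q : ℝ) : Prop := ∀ x, x ≤ q → f x = x

theorem Lft.mono {f : Pm} {p p' : ℝ} (h : Lft f p) (h' : p ≤ p') : Lft f p' :=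
  fun x hx => h x (h'.trans hx)
theorem Rgt.mono {f : Pm} {p p' : ℝ} (h : Rgt f p) (h' : p' ≤ p) : Rgt f p' :=
  fun x hx => h x (hx.trans h')
theorem Lft.mul {f g : Pm} {p : ℝ} (h : Lft f p) (h' : Lft g p) : Lft (f * g) p :=
  fun x hx => by rw [Perm.mul_apply, h' x hx, h x hx]
theorem Rgt.mul {f g : Pm} {p : ℝ} (h : Rgt f p) (h' : Rgt g p) : Rgt (f * g) p :=
  fun x hx => by rw [Perm.mul_apply, h' x hx, h x hx]
theorem Lft.inv {f : Pm} {p : ℝ} (h : Lft f p) : Lft f⁻¹ p :=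
  fun x hx => by rw [Perm.inv_eq_iff_eq, h x hx]
theorem Rgt.inv {f : Pm} {p : ℝ} (h : Rgt f p) : Rgt f⁻¹ p :=
  fun x hx => by rw [Perm.inv_eq_iff_eq, h x hx]
theorem Lft.conj {f u : Pm} {p : ℝ} (h : Lft u p) (hf : StrictMono f) : Lft (f * u * f⁻¹) (f p) :=
  fun x hx => by
    rw [Perm.mul_apply, Perm.mul_apply, h _ (by rw [← hf.le_iff_le]; simpa using hx)]
    simp
theorem Rgt.conj {f u : Pm} {p : ℝ} (h : Rgt u p) (hf : StrictMono f) : Rgt (f * u * f⁻¹) (f p) :=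
  fun x hx => by
    rw [Perm.mul_apply, Perm.mul_apply, h _ (by rw [← hf.le_iff_le]; simpa using hx)]
    simp

theorem comm_LR {t s : Pm} {p q : ℝ} (ht : Lft t p) (hs : Rgt s q) (h : p ≤ q) : Commute t s :=
  Perm.Disjoint.commute fun x => (le_total p x).imp (ht x) fun hx => hs x (hx.trans h)

theorem conj_eq {u y f : Pm} (h : ∀ x, u x = x ∨ y x = f x) : y * u * y⁻¹ = f * u * f⁻¹ := by
  have : Commute u (f⁻¹ * y) := Perm.Disjoint.commute fun x => (h x).imp id fun hx => by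
    rw [Perm.mul_apply, hx]; simp
  calc y * u * y⁻¹ = f * ((f⁻¹ * y) * u) * y⁻¹ := by group
    _ = f * u * f⁻¹ := by rw [← this.eq]; group

noncomputable def Bs (a b : ℝ) : Subgroup Pm where
  carrier := {f | f ∈ PL ∧ Rgt f a ∧ Lft f b}
  one_mem' := ⟨one_mem _, fun _ _ => rfl, fun _ _ => rfl⟩
  mul_mem' h h' := ⟨mul_mem h.1 h'.1, h.2.1.mul h'.2.1, h.2.2.mul h'.2.2⟩
  inv_mem' h := ⟨inv_mem h.1, h.2.1.inv, h.2.2.inv⟩

theorem Bs_mono {a b a' b' : ℝ} (h : a' ≤ a) (h' : b ≤ b') {f : Pm} (hf : f ∈ Bs a b) :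
    f ∈ Bs a' b' := ⟨hf.1, hf.2.1.mono h, hf.2.2.mono h'⟩

theorem Bs_conj {a b : ℝ} {u f : Pm} (hu : u ∈ Bs a b) (hf : f ∈ PL) :
    f * u * f⁻¹ ∈ Bs (f a) (f b) :=
  ⟨mul_mem (mul_mem hf hu.1) (inv_mem hf), hu.2.1.conj (PL.mono hf), hu.2.2.conj (PL.mono hf)⟩

noncomputable def B : Subgroup Pm where
  carrier := {f | ∃ a b, f ∈ Bs a b}
  one_mem' := ⟨0, 0, one_mem _⟩
  mul_mem' := by
    rintro f g ⟨a, b, h⟩ ⟨a', b', h'⟩
    exact ⟨min a a', max b b', mul_mem (Bs_mono (min_le_left _ _) (le_max_left _ _) h)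
      (Bs_mono (min_le_right _ _) (le_max_right _ _) h')⟩
  inv_mem' := by
    rintro f ⟨a, b, h⟩
    exact ⟨a, b, inv_mem h⟩

theorem B_two {u v : Pm} (hu : u ∈ B) (hv : v ∈ B) : ∃ a b, a < b ∧ u ∈ Bs a b ∧ v ∈ Bs a b := by
  obtain ⟨a, b, h⟩ := hu
  obtain ⟨a', b', h'⟩ := hv
  exact ⟨min a a', max (max b b') (min a a' + 1), lt_of_lt_of_le (lt_add_one _) (le_max_right _ _),
    Bs_mono (min_le_left _ _) ((le_max_left _ _).trans (le_max_left _ _)) h,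
    Bs_mono (min_le_right _ _) ((le_max_right _ _).trans (le_max_left _ _)) h'⟩

theorem B_PL {u : Pm} (hu : u ∈ B) : u ∈ PL := by
  obtain ⟨a, b, h⟩ := hu
  exact h.1

theorem nu_B {u : Pm} (hu : u ∈ B) : nu u ∈ B := by
  obtain ⟨a, b, h1, h2, h3⟩ := hu
  refine ⟨-b, -a, nu_PL h1, fun x hx => ?_, fun x hx => ?_⟩
  · rw [nu_apply, h3 _ (by linarith), neg_neg]
  · rw [nu_apply, h2 _ (by linarith), neg_neg]

noncomputable def G : Subgroup Pm := ⁅B, B⁆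

theorem G_B {u : Pm} (hu : u ∈ G) : u ∈ B := by
  refine (Subgroup.commutator_le.2 fun a ha b hb => ?_ : G ≤ B) hu
  exact mul_mem (mul_mem (mul_mem ha hb) (inv_mem ha)) (inv_mem hb)

theorem nu_G {u : Pm} (hu : u ∈ G) : nu u ∈ G := by
  refine (Subgroup.commutator_le.2 fun a ha b hb => ?_ : G ≤ G.comap nu) hu
  rw [Subgroup.mem_comap, map_commutatorElement]
  exact Subgroup.commutator_mem_commutator (nu_B ha) (nu_B hb)

theorem approxB {f : Pm} (hf : f ∈ PL) (a b : ℝ) (hab : a ≤ b) :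
    ∃ w p q, w ∈ Bs p q ∧ p ≤ a ∧ b ≤ q ∧ ∀ x, a ≤ x → x ≤ b → w x = f x := by
  obtain ⟨k, hk, h1, h2⟩ := glue (one_mem PL) hf (p := min a (f a) - 1) (q := a)
    (by linarith [min_le_left a (f a)]) (by
      rw [Perm.one_apply]; linarith [min_le_right a (f a)])
  obtain ⟨w, hw, h3, h4⟩ := glue hk (one_mem PL) (p := b) (q := max b (f b) + 1)
    (by linarith [le_max_left b (f b)]) (by
      rw [Perm.one_apply, h2 b hab]; linarith [le_max_right b (f b)])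
  refine ⟨w, min a (f a) - 1, max b (f b) + 1, ⟨hw, fun x hx => ?_, h4⟩,
    by linarith [min_le_left a (f a)], by linarith [le_max_left b (f b)], fun x h5 h6 => ?_⟩
  · rw [h3 x (by linarith [min_le_left a (f a)]), h1 x hx, Perm.one_apply]
  · rw [h3 x h6, h2 x h5]

theorem approx {f : Pm} (hf : f ∈ PL) (a b : ℝ) (hab : a ≤ b) :
    ∃ y ∈ G, ∀ x, a ≤ x → x ≤ b → y x = f x := by
  obtain ⟨w, p, q, hw, hp, hq, h⟩ := approxB hf a b hab
  obtain ⟨τ, p', q', hτ, -, -, h'⟩ := approxB (aff_PL 1 (q - p) one_pos) p q (by linarith)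
  refine ⟨⁅w, τ⁆, Subgroup.commutator_mem_commutator ⟨_, _, hw⟩ ⟨_, _, hτ⟩, fun x h1 h2 => ?_⟩
  have h3 : Rgt (τ * w⁻¹ * τ⁻¹) (τ p) := hw.2.1.inv.conj (PL.mono hτ.1)
  rw [h' p le_rfl (by linarith), aff_apply] at h3
  have : ⁅w, τ⁆ = w * (τ * w⁻¹ * τ⁻¹) := by rw [commutatorElement_def]; group
  rw [this, Perm.mul_apply, h3 x (by linarith), h x h1 h2]

structure Cone (P : Set Pm) : Prop where
  sub : ∀ a ∈ P, a ∈ G
  mul : ∀ a ∈ P, ∀ b ∈ P, a * b ∈ P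
  conj : ∀ a ∈ P, ∀ y ∈ G, y * a * y⁻¹ ∈ P

theorem Cone.conjPL {P : Set Pm} (hP : Cone P) {a f : Pm} (ha : a ∈ P) (hf : f ∈ PL) :
    f * a * f⁻¹ ∈ P := by
  obtain ⟨p, q, hpq, h, -⟩ := B_two (G_B (hP.sub a ha)) (one_mem B)
  obtain ⟨y, hy, h'⟩ := approx hf p q hpq.le
  rw [← conj_eq (y := y)]
  · exact hP.conj a ha y hy
  · intro x
    rcases le_total x p with h1 | h1
    · exact Or.inl (h.2.1 x h1)
    rcases le_total q x with h2 | h2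
    · exact Or.inl (h.2.2 x h2)
    · exact Or.inr (h' x h1 h2)

theorem Cone.nu {P : Set Pm} (hP : Cone P) : Cone {f | nu f ∈ P} where
  sub a ha := by simpa [nu_nu] using nu_G (hP.sub _ ha)
  mul a ha b hb := by
    change OStar.nu (a * b) ∈ P
    rw [map_mul]; exact hP.mul _ ha _ hb
  conj a ha y hy := by
    change OStar.nu (y * a * y⁻¹) ∈ P
    rw [map_mul, map_mul, map_inv]; exact hP.conj _ ha _ (nu_G hy)

def LL (P : Set Pm) (t s : Pm) : Prop :=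
  ∀ f₁ ∈ PL, ∀ f₂ ∈ PL, ∀ p q : ℝ, p < q → Lft (f₁ * t * f₁⁻¹) p → Rgt (f₂ * s * f₂⁻¹) q →
    (f₁ * t * f₁⁻¹) * (f₂ * s * f₂⁻¹) ∈ P

theorem LL.intro {P : Set Pm} (hP : Cone P) {t s : Pm} {p q : ℝ} (hpq : p < q) (ht : Lft t p)
    (hs : Rgt s q) (h : t * s ∈ P) : LL P t s := by
  intro f₁ h₁ f₂ h₂ p' q' hpq' ht' hs'
  have ht'' : Lft t (f₁⁻¹ p') := by
    have := ht'.conj (mono_inv (PL.mono h₁))
    rwa [show f₁⁻¹ * (f₁ * t * f₁⁻¹) * f₁⁻¹⁻¹ = t by group] at this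
  have hs'' : Rgt s (f₂⁻¹ q') := by
    have := hs'.conj (mono_inv (PL.mono h₂))
    rwa [show f₂⁻¹ * (f₂ * s * f₂⁻¹) * f₂⁻¹⁻¹ = s by group] at this
  have e1 : f₁ (min p (f₁⁻¹ p')) ≤ p' := by
    simpa using (PL.mono h₁).monotone (min_le_right p (f₁⁻¹ p'))
  have e2 : q' ≤ f₂ (max q (f₂⁻¹ q')) := by
    simpa using (PL.mono h₂).monotone (le_max_right q (f₂⁻¹ q'))
  obtain ⟨k, hk, h3, h4⟩ := glue h₁ h₂ (p := min p (f₁⁻¹ p')) (q := max q (f₂⁻¹ q'))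
    (lt_of_le_of_lt (min_le_left _ _) (lt_of_lt_of_le hpq (le_max_left _ _))) (by linarith)
  rw [← conj_eq (y := k) (u := t), ← conj_eq (y := k) (u := s)]
  · have := hP.conjPL h hk
    rwa [show k * (t * s) * k⁻¹ = k * t * k⁻¹ * (k * s * k⁻¹) by group] at this
  · intro x
    by_cases hx : max q (f₂⁻¹ q') ≤ x
    · exact Or.inr (h4 x hx)
    · exact Or.inl ((lt_max_iff.1 (not_le.1 hx)).elim (fun h => hs x h.le) fun h => hs'' x h.le)
  · intro x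
    by_cases hx : x ≤ min p (f₁⁻¹ p')
    · exact Or.inr (h3 x hx)
    · exact Or.inl ((min_lt_iff.1 (not_le.1 hx)).elim (fun h => ht x h.le) fun h => ht'' x h.le)

theorem LL.conj {P : Set Pm} {t s f f' : Pm} (h : LL P t s) (hf : f ∈ PL) (hf' : f' ∈ PL) :
    LL P (f * t * f⁻¹) (f' * s * f'⁻¹) := by
  intro f₁ h₁ f₂ h₂ p q hpq ht hs
  have e1 : f₁ * (f * t * f⁻¹) * f₁⁻¹ = (f₁ * f) * t * (f₁ * f)⁻¹ := by group
  have e2 : f₂ * (f' * s * f'⁻¹) * f₂⁻¹ = (f₂ * f') * s * (f₂ * f')⁻¹ := by group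
  rw [e1] at ht ⊢
  rw [e2] at hs ⊢
  exact h _ (mul_mem h₁ hf) _ (mul_mem h₂ hf') p q hpq ht hs

theorem LL.mul {P : Set Pm} (hP : Cone P) {t s t' s' : Pm} (h : LL P t s) (h' : LL P t' s')
    (ht : t ∈ B) (ht' : t' ∈ B) (hs : s ∈ B) (hs' : s' ∈ B) : LL P (t * t') (s * s') := by
  obtain ⟨a, p, -, h1, h2⟩ := B_two ht ht'
  obtain ⟨q, b, -, h3, h4⟩ := B_two hs hs'
  obtain ⟨f, hf⟩ : ∃ f, f = aff 1 (p + 1 - q) one_pos := ⟨_, rfl⟩
  have hfP : f ∈ PL := hf ▸ aff_PL _ _ _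
  have hfq : f q = p + 1 := by rw [hf, aff_apply]; ring
  have r1 : Rgt (f * s * f⁻¹) (p + 1) := hfq ▸ h3.2.1.conj (PL.mono hfP)
  have r2 : Rgt (f * s' * f⁻¹) (p + 1) := hfq ▸ h4.2.1.conj (PL.mono hfP)
  have m1 := h 1 (one_mem _) f hfP p (p + 1) (lt_add_one p) (by simpa using h1.2.2) r1
  have m2 := h' 1 (one_mem _) f hfP p (p + 1) (lt_add_one p) (by simpa using h2.2.2) r2
  simp only [one_mul, inv_one, mul_one] at m1 m2
  have c := (comm_LR h2.2.2 r1 (lt_add_one p).le).eq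
  have := (LL.intro hP (lt_add_one p) (h1.2.2.mul h2.2.2) (r1.mul r2) (by
    have := hP.mul _ m1 _ m2
    rwa [mul_assoc t, ← mul_assoc (f * s * f⁻¹), ← c, mul_assoc t', ← mul_assoc t] at this)).conj
    (one_mem PL) (inv_mem hfP)
  rwa [show 1 * (t * t') * 1⁻¹ = t * t' by group,
    show f⁻¹ * (f * s * f⁻¹ * (f * s' * f⁻¹)) * f⁻¹⁻¹ = s * s' by group] at this

theorem LL.nu {P : Set Pm} {t s : Pm} (h : LL {f | nu f ∈ P} t s) : LL P (nu s) (nu t) := by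
  intro f₁ h₁ f₂ h₂ p q hpq ht hs
  have e1 : f₁ * OStar.nu s * f₁⁻¹ = OStar.nu (OStar.nu f₁ * s * (OStar.nu f₁)⁻¹) := by
    rw [map_mul, map_mul, map_inv, nu_nu]
  have e2 : f₂ * OStar.nu t * f₂⁻¹ = OStar.nu (OStar.nu f₂ * t * (OStar.nu f₂)⁻¹) := by
    rw [map_mul, map_mul, map_inv, nu_nu]
  rw [(comm_LR ht hs hpq.le).eq]
  rw [e1] at ht ⊢
  rw [e2] at hs ⊢
  rw [← map_mul]
  refine h _ (nu_PL h₂) _ (nu_PL h₁) (-q) (-p) (by linarith) (fun x hx => ?_) (fun x hx => ?_)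
  · have := hs (-x) (by linarith)
    rw [nu_apply, neg_neg] at this
    exact neg_injective this
  · have := ht (-x) (by linarith)
    rw [nu_apply, neg_neg] at this
    exact neg_injective this

theorem higman {P : Set Pm} (hP : Cone P) {c e : Pm} (hc : c ∈ P) (he : e ∈ P) {x q : ℝ}
    (hx : c x ≠ x) (hxq : x < q) (hcq : c x < q) (hk : Rgt (c * e) q) {u v : Pm} (hu : u ∈ B)
    (hv : v ∈ B) {f₁ f₂ f₃ : Pm} (h₁ : f₁ ∈ PL) (h₂ : f₂ ∈ PL) (h₃ : f₃ ∈ PL) :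
    LL P ⁅u, v⁆ (f₁ * (c * e) * f₁⁻¹ * (f₂ * (c * e) * f₂⁻¹ * (f₃ * (c * e) * f₃⁻¹))) := by
  have hcB := G_B (hP.sub c hc)
  have hcP := B_PL hcB
  have hcm := PL.mono hcP
  have hkB : c * e ∈ B := mul_mem hcB (G_B (hP.sub e he))
  obtain ⟨p₁, p₂, h12, h2q, hc2q, hd⟩ : ∃ p₁ p₂, p₁ < p₂ ∧ p₂ < q ∧ c p₂ < q ∧
      (p₂ ≤ c p₁ ∨ c p₂ ≤ p₁) := by
    rcases lt_or_gt_of_ne hx with h | h
    · exact ⟨c x, x, h, hxq, hcq, Or.inr le_rfl⟩
    · have h4 : x < c⁻¹ q := by rw [← hcm.lt_iff_lt]; simpa using hcq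
      refine ⟨x, min (c x) ((x + c⁻¹ q) / 2), lt_min h (by linarith),
        lt_of_le_of_lt (min_le_left _ _) hcq, ?_, Or.inl (min_le_left _ _)⟩
      have : c (min (c x) ((x + c⁻¹ q) / 2)) < c (c⁻¹ q) :=
        hcm (lt_of_le_of_lt (min_le_right _ _) (by linarith))
      simpa using this
  have comm : ∀ w ∈ Bs p₁ p₂, ∀ w' ∈ Bs p₁ p₂, Commute w (c * w' * c⁻¹) := by
    intro w hw w' hw'
    have := Bs_conj hw' hcP
    rcases hd with h | h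
    · exact comm_LR hw.2.2 this.2.1 h
    · exact (comm_LR this.2.2 hw.2.1 h).symm
  have one : ∀ w ∈ Bs p₁ p₂, ∀ f ∈ PL, LL P (w * (c * w⁻¹ * c⁻¹)) (f * (c * e) * f⁻¹) := by
    intro w hw f hf
    have := (LL.intro hP (max_lt h2q hc2q) ((hw.2.2.mono (le_max_left _ _)).mul
      ((Bs_conj (inv_mem hw) hcP).2.2.mono (le_max_right _ _))) hk (by
        have := hP.mul _ (hP.conjPL hc hw.1) _ he
        rwa [show w * c * w⁻¹ * e = w * (c * w⁻¹ * c⁻¹) * (c * e) by group] at this)).conj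
      (one_mem PL) hf
    simpa using this
  have inB : ∀ w ∈ Bs p₁ p₂, w * (c * w⁻¹ * c⁻¹) ∈ B := fun w hw =>
    mul_mem ⟨_, _, hw⟩ ⟨_, _, Bs_conj (inv_mem hw) hcP⟩
  have inB' : ∀ f ∈ PL, f * (c * e) * f⁻¹ ∈ B := fun f hf => by
    obtain ⟨a, b, h⟩ := hkB
    exact ⟨_, _, Bs_conj h hf⟩
  obtain ⟨a, b, hab, hu', hv'⟩ := B_two hu hv
  have hs : 0 < (p₂ - p₁) / (b - a) := div_pos (by linarith) (by linarith)
  have hne : b - a ≠ 0 := by linarith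
  obtain ⟨φ, hφ⟩ : ∃ φ, φ = aff _ (p₁ - (p₂ - p₁) / (b - a) * a) hs := ⟨_, rfl⟩
  have hφP : φ ∈ PL := hφ ▸ aff_PL _ _ _
  have ha : φ a = p₁ := by rw [hφ, aff_apply]; ring
  have hb : φ b = p₂ := by rw [hφ, aff_apply]; field_simp; ring
  obtain ⟨U, hU⟩ : ∃ U, U = φ * u⁻¹ * φ⁻¹ := ⟨_, rfl⟩
  obtain ⟨V, hV⟩ : ∃ V, V = φ * v⁻¹ * φ⁻¹ := ⟨_, rfl⟩
  have hU' : U ∈ Bs p₁ p₂ := by rw [hU, ← ha, ← hb]; exact Bs_conj (inv_mem hu') hφP
  have hV' : V ∈ Bs p₁ p₂ := by rw [hV, ← ha, ← hb]; exact Bs_conj (inv_mem hv') hφP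
  have hW' : (U * V)⁻¹ ∈ Bs p₁ p₂ := inv_mem (mul_mem hU' hV')
  have := (LL.mul hP (one U hU' f₁ h₁) (LL.mul hP (one V hV' f₂ h₂) (one _ hW' f₃ h₃)
    (inB _ hV') (inB _ hW') (inB' _ h₂) (inB' _ h₃)) (inB _ hU') (mul_mem (inB _ hV') (inB _ hW'))
    (inB' _ h₁) (mul_mem (inB' _ h₂) (inB' _ h₃))).conj (inv_mem (mul_mem hcP hφP)) (one_mem PL)
  have c1 := (comm _ (mul_mem hV' hW') _ (inv_mem hU')).eq
  have c2 := (comm _ hW' _ (inv_mem hV')).eq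
  have e : U * (c * U⁻¹ * c⁻¹) * (V * (c * V⁻¹ * c⁻¹) * ((U * V)⁻¹ * (c * (U * V)⁻¹⁻¹ * c⁻¹))) =
      c * ⁅U⁻¹, V⁻¹⁆ * c⁻¹ := by
    calc _ = U * ((c * U⁻¹ * c⁻¹) * (V * ((c * V⁻¹ * c⁻¹) * (U * V)⁻¹))) *
          (c * (U * V) * c⁻¹) := by group
      _ = U * ((c * U⁻¹ * c⁻¹) * (V * (U * V)⁻¹)) * (c * V⁻¹ * c⁻¹) * (c * (U * V) * c⁻¹) := by
          rw [← c2]; simp only [mul_assoc]
      _ = _ := by rw [← c1, commutatorElement_def]; group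
  rw [e, hU, hV] at this
  rwa [show (c * φ)⁻¹ * (c * ⁅(φ * u⁻¹ * φ⁻¹)⁻¹, (φ * v⁻¹ * φ⁻¹)⁻¹⁆ * c⁻¹) * (c * φ)⁻¹⁻¹ = ⁅u, v⁆ by
    rw [commutatorElement_def, commutatorElement_def]; group, one_mul, inv_one, mul_one] at this

end Pool.Agent.H22.OStar
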