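import Pool.Agent.H22.OStar2

set_option autoImplicit false

namespace Pool.Agent.H22.OStar

open Equiv N5f09da3c
open scoped commutatorElement

def CL {H : Type*} [Group H] : ℕ → H → Prop
  | 0, t => t = 1
  | n + 1, t => ∃ u v t' : H, CL n t' ∧ t = ⁅u, v⁆ * t'

theorem CL.map {H K : Type*} [Group H] [Group K] (φ : H →* K) :
    ∀ {n : ℕ} {t : H}, CL n t → CL n (φ t)
  | 0, t, h => by rw [show t = 1 from h, map_one]; rfl
  | _ + 1, _, ⟨u, v, t', h, e⟩ =>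
    ⟨φ u, φ v, φ t', CL.map φ h, by rw [e, map_mul, map_commutatorElement]⟩

def Pw (k : Pm) : ℕ → Pm → Prop
  | 0, s => s = 1
  | n + 1, s => ∃ f ∈ PL, ∃ s', Pw k n s' ∧ s = f * k * f⁻¹ * s'

theorem Pw.conj {k f : Pm} (hf : f ∈ PL) : ∀ {n : ℕ} {s : Pm}, Pw k n s → Pw k n (f * s * f⁻¹)
  | 0, s, h => by rw [show s = 1 from h]; exact (by group : f * 1 * f⁻¹ = 1)
  | _ + 1, _, ⟨g, hg, s', h, e⟩ => ⟨f * g, mul_mem hf hg, _, Pw.conj hf h, by rw [e]; group⟩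

theorem exists_CL {k : Pm} (hk : k ∈ G) :
    ∃ a b, a < b ∧ ∃ (n : ℕ) (k' : Bs a b), (k' : Pm) = k ∧ CL (n + 1) k' := by
  have step : ∀ u ∈ B, ∀ v ∈ B, ∀ y : Pm,
      (∃ a b, a < b ∧ ∃ (n : ℕ) (k' : Bs a b), (k' : Pm) = y ∧ CL (n + 1) k') →
      ∃ a b, a < b ∧ ∃ (n : ℕ) (k' : Bs a b), (k' : Pm) = ⁅u, v⁆ * y ∧ CL (n + 1) k' := by
    rintro u hu v hv y ⟨a, b, hab, n, k', rfl, h⟩
    obtain ⟨a', b', -, hu', hv'⟩ := B_two hu hv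
    have h1 : Bs a b ≤ Bs (min a a') (max b b') :=
      fun f hf => Bs_mono (min_le_left _ _) (le_max_left _ _) hf
    have h2 : Bs a' b' ≤ Bs (min a a') (max b b') :=
      fun f hf => Bs_mono (min_le_right _ _) (le_max_right _ _) hf
    exact ⟨min a a', max b b', lt_of_le_of_lt (min_le_left _ _) (lt_of_lt_of_le hab (le_max_left _ _)),
      n + 1, ⁅(⟨u, h2 hu'⟩ : Bs (min a a') (max b b')), ⟨v, h2 hv'⟩⁆ * Subgroup.inclusion h1 k', rfl, ⟨u, h2 hu'⟩, ⟨v, h2 hv'⟩, _, h.map (Subgroup.inclusion h1), rfl⟩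
  refine Subgroup.closure_induction_left (s := {g | ∃ g₁ ∈ B, ∃ g₂ ∈ B, ⁅g₁, g₂⁆ = g})
    (p := fun k _ => ∃ a b, a < b ∧ ∃ (n : ℕ) (k' : Bs a b), (k' : Pm) = k ∧ CL (n + 1) k')
    ⟨0, 1, one_pos, 0, 1, rfl, 1, 1, 1, rfl, by simp⟩ ?_ ?_ hk
  · rintro _ ⟨u, hu, v, hv, rfl⟩ y _ h
    exact step u hu v hv y h
  · rintro _ ⟨u, hu, v, hv, rfl⟩ y _ h
    rw [commutatorElement_inv]
    exact step v hv u hu y h

theorem exists_Phi {a b : ℝ} (hab : a < b) (m : ℕ) :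
    ∃ φ : Bs a b →* B, ∀ w, Rgt (φ w : Pm) a ∧ Pw w m (φ w) := by
  induction m with
  | zero => exact ⟨1, fun w => ⟨fun _ _ => rfl, rfl⟩⟩
  | succ m ih =>
    obtain ⟨φ, h⟩ := ih
    obtain ⟨τ, hτ⟩ : ∃ τ, τ = aff 1 (b - a) one_pos := ⟨_, rfl⟩
    have hτP : τ ∈ PL := hτ ▸ aff_PL _ _ _
    have ha : τ a = b := by rw [hτ, aff_apply]; ring
    have r : ∀ w, Rgt (τ * φ w * τ⁻¹) b := fun w => ha ▸ (h w).1.conj (PL.mono hτP)
    have inB : ∀ w : Bs a b, (w : Pm) * (τ * φ w * τ⁻¹) ∈ B := fun w => by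
      obtain ⟨p, q, h'⟩ := (φ w).2
      exact mul_mem ⟨_, _, w.2⟩ ⟨_, _, Bs_conj h' hτP⟩
    refine ⟨MonoidHom.mk' (fun w => ⟨_, inB w⟩) fun w w' => Subtype.ext ?_, fun w =>
      ⟨w.2.2.1.mul ((r w).mono hab.le), 1, one_mem _, _, (h w).2.conj hτP, by simp⟩⟩
    have c := (comm_LR w'.2.2.2 (r w) le_rfl).eq
    change (w : Pm) * w' * (τ * (φ (w * w') : Pm) * τ⁻¹) =
      w * (τ * φ w * τ⁻¹) * (w' * (τ * φ w' * τ⁻¹))
    rw [map_mul, Subgroup.coe_mul, mul_assoc (w : Pm) (τ * φ w * τ⁻¹), ← mul_assoc (τ * φ w * τ⁻¹),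
      ← c]
    group

def Good (P : Set Pm) (k : Pm) : Prop :=
  k ∈ G ∧ ∀ u ∈ B, ∀ v ∈ B, ∀ f₁ ∈ PL, ∀ f₂ ∈ PL, ∀ f₃ ∈ PL,
    LL P ⁅u, v⁆ (f₁ * k * f₁⁻¹ * (f₂ * k * f₂⁻¹ * (f₃ * k * f₃⁻¹)))

theorem Good.three {P : Set Pm} {k : Pm} (h : Good P k) {n : ℕ} {s : Pm} (hs : Pw k (n + 3) s) :
    ∃ s₀ ∈ B, ∃ s', Pw k n s' ∧ s = s₀ * s' ∧ ∀ u v : B, LL P (⁅u, v⁆ : B) s₀ := by
  obtain ⟨f₁, h₁, _, ⟨f₂, h₂, _, ⟨f₃, h₃, s', h', rfl⟩, rfl⟩, rfl⟩ := hs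
  have inB : ∀ f ∈ PL, f * k * f⁻¹ ∈ B := fun f hf => by
    obtain ⟨a, b, h⟩ := G_B h.1
    exact ⟨_, _, Bs_conj h hf⟩
  exact ⟨_, mul_mem (inB _ h₁) (mul_mem (inB _ h₂) (inB _ h₃)), s', h', by simp only [mul_assoc],
    fun u v => h.2 u u.2 v v.2 f₁ h₁ f₂ h₂ f₃ h₃⟩

theorem Good.acc {P : Set Pm} (hP : Cone P) {k : Pm} (h : Good P k) :
    ∀ (r : ℕ) (t : B) (s : Pm), CL r t → Pw k (3 * r) s → ∀ t₀ ∈ B, ∀ s₀ ∈ B, LL P t₀ s₀ →
      LL P (t₀ * t) (s₀ * s)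
  | 0, t, s, ht, hs, t₀, _, s₀, _, h₀ => by
    rw [show t = 1 from ht, show s = 1 from hs]
    simpa using h₀
  | r + 1, t, s, ⟨u, v, t', ht, e⟩, hs, t₀, ht₀, s₀, hs₀, h₀ => by
    obtain ⟨s₁, hs₁, s', hs', rfl, h'⟩ := h.three (n := 3 * r) hs
    have := Good.acc hP h r t' s' ht hs' _ (mul_mem ht₀ (⁅u, v⁆ : B).2) _ (mul_mem hs₀ hs₁)
      (LL.mul hP h₀ (h' u v) ht₀ (⁅u, v⁆ : B).2 hs₀ hs₁)
    rw [e, Subgroup.coe_mul, ← mul_assoc, ← mul_assoc]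
    exact this

theorem Good.main {P : Set Pm} (hP : Cone P) {k : Pm} (h : Good P k) {r : ℕ} {t : B} {s : Pm}
    (ht : CL (r + 1) t) (hs : Pw k (3 * (r + 1)) s) : LL P t s := by
  obtain ⟨u, v, t', ht, e⟩ := ht
  obtain ⟨s₁, hs₁, s', hs', rfl, h'⟩ := h.three (n := 3 * r) hs
  rw [e, Subgroup.coe_mul]
  exact h.acc hP r t' s' ht hs' _ (⁅u, v⁆ : B).2 _ hs₁ (h' u v)

noncomputable def nuB : B →* B := (nu.comp B.subtype).codRestrict B fun u => nu_B u.2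

theorem one_mem_of_good {P : Set Pm} (hP : Cone P) {k k' : Pm} (h : Good P k)
    (h' : Good {f | nu f ∈ P} k') : (1 : Pm) ∈ P := by
  obtain ⟨a, b, hab, n, w, hw, hn⟩ := exists_CL (inv_mem h.1)
  obtain ⟨a', b', hab', n', w', hw', hn'⟩ := exists_CL (inv_mem h'.1)
  obtain ⟨φ, hφ⟩ := exists_Phi hab (3 * (n' + 1))
  obtain ⟨φ', hφ'⟩ := exists_Phi hab' (3 * (n + 1))
  have p1 := (hφ w⁻¹).2
  have p2 := (hφ' w'⁻¹).2
  rw [Subgroup.coe_inv, hw, inv_inv] at p1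
  rw [Subgroup.coe_inv, hw', inv_inv] at p2
  have l1 := h.main hP ((hn'.map φ').map nuB) p1
  have l2 := (h'.main hP.nu ((hn.map φ).map nuB) p2).nu
  have l3 := LL.mul hP l1 l2 (nuB (φ' w')).2 (nu_B (φ' w'⁻¹).2) (φ w⁻¹).2 (nu_B (nuB (φ w)).2)
  have e1 : (nuB (φ' w') : Pm) * nu (φ' w'⁻¹ : Pm) = 1 := by
    change nu (φ' w' : Pm) * _ = 1
    rw [← map_mul, ← Subgroup.coe_mul, ← map_mul]; simp
  have e2 : (φ w⁻¹ : Pm) * nu (nuB (φ w) : Pm) = 1 := by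
    change _ * nu (nu (φ w : Pm)) = 1
    rw [nu_nu, ← Subgroup.coe_mul, ← map_mul]; simp
  rw [e1, e2] at l3
  simpa using l3 1 (one_mem _) 1 (one_mem _) 0 1 one_pos (fun _ _ => rfl) (fun _ _ => rfl)

def Lin (f : Pm) (p s : ℝ) : Prop :=
  ∃ ε > 0, ∀ x, p ≤ x → x ≤ p + ε → f x = f p + s * (x - p)

theorem Lin.mul {f g : Pm} {p s t : ℝ} (hf : Lin f (g p) t) (hg : Lin g p s) (hm : StrictMono g) :
    Lin (f * g) p (t * s) := by
  obtain ⟨ε, hε, h⟩ := hg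
  obtain ⟨δ, hδ, h'⟩ := hf
  have hs := slope_pos hm hε h
  refine ⟨min ε (δ / s), lt_min hε (div_pos hδ hs), fun x h1 h2 => ?_⟩
  have h3 : x ≤ p + ε := le_trans h2 (by linarith [min_le_left ε (δ / s)])
  have h4 : x - p ≤ δ / s := by linarith [min_le_right ε (δ / s)]
  rw [le_div_iff₀ hs] at h4
  rw [Perm.mul_apply, Perm.mul_apply, h' (g x) (hm.monotone h1) (by rw [h x h1 h3]; linarith),
    h x h1 h3]
  ring

theorem Lin.unique {f : Pm} {p s t : ℝ} (h : Lin f p s) (h' : Lin f p t) : s = t := by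
  obtain ⟨ε, hε, h⟩ := h
  obtain ⟨δ, hδ, h'⟩ := h'
  have h0 := lt_min hε hδ
  have h1 := h (p + min ε δ) (by linarith) (by linarith [min_le_left ε δ])
  have h2 := h' (p + min ε δ) (by linarith) (by linarith [min_le_right ε δ])
  rw [h1] at h2
  have h3 : s * min ε δ = t * min ε δ := by linarith
  exact mul_right_cancel₀ h0.ne' h3

theorem Lin.one (p : ℝ) : Lin 1 p 1 := ⟨1, one_pos, fun x _ _ => by simp⟩

theorem PL.lin {f : Pm} (hf : f ∈ PL) (p : ℝ) : ∃ s, Lin f p s := by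
  obtain ⟨ε, hε, s, h⟩ := hf.1.2 p
  exact ⟨s, ε, hε, h⟩

theorem Rgt.lin {f : Pm} {p q : ℝ} (h : Rgt f q) (hp : p < q) : Lin f p 1 :=
  ⟨q - p, by linarith, fun x _ h2 => by rw [h x (by linarith), h p hp.le]; ring⟩

def Germ (f : Pm) (p s : ℝ) : Prop := Rgt f p ∧ Lin f p s

theorem Germ.conj {a f : Pm} {p s : ℝ} (h : Germ a p s) (ha : a ∈ PL) (hf : f ∈ PL) :
    Germ (f * a * f⁻¹) (f p) s := by
  refine ⟨h.1.conj (PL.mono hf), ?_⟩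
  obtain ⟨t, ht⟩ := PL.lin hf p
  obtain ⟨t', ht'⟩ := PL.lin (inv_mem hf) (f p)
  have e : f⁻¹ (f p) = p := by simp
  have h1 : Lin (f * f⁻¹) (f p) (t * t') := Lin.mul (by rwa [e]) ht' (PL.mono (inv_mem hf))
  rw [mul_inv_cancel] at h1
  have h2 := h1.unique (Lin.one _)
  have h3 : Lin (f * a) p (t * s) := Lin.mul (by rwa [h.1 p le_rfl]) h.2 (PL.mono ha)
  have h4 : Lin (f * a * f⁻¹) (f p) (t * s * t') := Lin.mul (by rwa [e]) ht' (PL.mono (inv_mem hf))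
  rwa [mul_right_comm, h2, one_mul] at h4

theorem Germ.mul {a b : Pm} {p s t : ℝ} (h : Germ a p s) (h' : Germ b p t) (hb : b ∈ PL) :
    Germ (a * b) p (s * t) :=
  ⟨h.1.mul h'.1, Lin.mul (by rw [h'.1 p le_rfl]; exact h.2) h'.2 (PL.mono hb)⟩

theorem Germ.pow {a : Pm} {p s : ℝ} (h : Germ a p s) (ha : a ∈ PL) :
    ∀ n : ℕ, Germ (a ^ n) p (s ^ n)
  | 0 => ⟨fun _ _ => rfl, by simpa using Lin.one p⟩
  | n + 1 => by rw [pow_succ, pow_succ]; exact (Germ.pow h ha n).mul h ha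

theorem exists_germ {g : Pm} (hg : g ∈ B) (h1 : g ≠ 1) : ∃ p s, 0 < s ∧ s ≠ 1 ∧ Germ g p s := by
  obtain ⟨a, b, hP, hr, -⟩ := hg
  have hm := PL.mono hP
  have hne : {x | g x ≠ x}.Nonempty := by
    by_contra h
    refine h1 (Equiv.ext fun x => ?_)
    by_contra hx
    exact h ⟨x, hx⟩
  have hbd : BddBelow {x | g x ≠ x} := ⟨a, fun x hx => by
    by_contra h
    exact hx (hr x (not_le.1 h).le)⟩
  obtain ⟨p, hp⟩ : ∃ p, p = sInf {x | g x ≠ x} := ⟨_, rfl⟩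
  have h2 : ∀ x, x < p → g x = x := fun x hx => by
    by_contra h
    exact absurd (csInf_le hbd h) (not_le.2 (hp ▸ hx))
  have h3 : g p = p := by
    rcases lt_trichotomy (g p) p with h | h | h
    · exact g.injective (h2 _ h)
    · exact h
    · have h4 : g⁻¹ p < p := by rw [← hm.lt_iff_lt]; simpa using h
      have h5 := h2 _ h4
      rw [show g (g⁻¹ p) = p by simp] at h5
      exact absurd h5 h4.ne'
  have h4 : Rgt g p := fun x hx => hx.lt_or_eq.elim (h2 x) fun h => h ▸ h3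
  obtain ⟨s, ε, hε, h⟩ := PL.lin hP p
  refine ⟨p, s, slope_pos hm hε h, ?_, h4, ε, hε, h⟩
  rintro rfl
  have : p + ε ≤ sInf {x | g x ≠ x} := le_csInf hne fun x hx => by
    by_contra h5
    refine hx ((le_total x p).elim (h4 x) fun h6 => ?_)
    rw [h x h6 (not_le.1 h5).le, h3]; ring
  linarith

theorem NS.germ {H : Type*} [Group H] (φ : H →* Pm) (hφ : ∀ y, φ y ∈ PL) {g a : H} {p s : ℝ}
    (hg : Germ (φ g) p s) (ha : NS g a) : ∃ (q : ℝ) (m : ℕ), Germ (φ a) q (s ^ (m + 1)) := by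
  induction ha with
  | conj y =>
    refine ⟨φ y p, 0, ?_⟩
    rw [map_mul, map_mul, map_inv, zero_add, pow_one]
    exact hg.conj (hφ g) (hφ y)
  | @mul a b _ _ iha ihb =>
    obtain ⟨q, m, h⟩ := iha
    obtain ⟨q', m', h'⟩ := ihb
    rw [map_mul]
    rcases lt_trichotomy q q' with h1 | rfl | h1
    · exact ⟨q, m, by simpa using h.mul ⟨h'.1.mono h1.le, h'.1.lin h1⟩ (hφ b)⟩
    · exact ⟨q, m + 1 + m', by rw [add_assoc, pow_add]; exact h.mul h' (hφ b)⟩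
    · exact ⟨q', m', by simpa using Germ.mul ⟨h.1.mono h1.le, h.1.lin h1⟩ h' (hφ b)⟩

theorem Cone.pow {P : Set Pm} (hP : Cone P) {a : Pm} (ha : a ∈ P) : ∀ n : ℕ, a ^ (n + 1) ∈ P
  | 0 => by simpa using ha
  | n + 1 => by rw [pow_succ]; exact hP.mul _ (Cone.pow hP ha n) _ ha

theorem exists_good {P : Set Pm} (hP : Cone P) {a b : Pm} (ha : a⁻¹ ∈ P) (hb : b ∈ P)
    {p q s : ℝ} {m n : ℕ} (h0 : 0 < s) (h1 : s ≠ 1) (ga : Germ a p (s ^ (m + 1)))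
    (gb : Germ b q (s ^ (n + 1))) : ∃ k, Good P k := by
  have haP : a ∈ PL := by simpa using inv_mem (B_PL (G_B (hP.sub _ ha)))
  have hbP : b ∈ PL := B_PL (G_B (hP.sub _ hb))
  obtain ⟨τ, hτ⟩ : ∃ τ, τ = aff 1 (p - q) one_pos := ⟨_, rfl⟩
  have hτP : τ ∈ PL := hτ ▸ aff_PL _ _ _
  have hq : τ q = p := by rw [hτ, aff_apply]; ring
  have hb' := hP.conjPL hb hτP
  have g1 := (hq ▸ gb.conj hbP hτP).pow (B_PL (G_B (hP.sub _ hb'))) (m + 1)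
  have g2 := ga.pow haP (n + 1)
  have hc := hP.pow hb' m
  have he := hP.pow ha n
  rw [inv_pow] at he
  obtain ⟨c, hc'⟩ : ∃ c, c = (τ * b * τ⁻¹) ^ (m + 1) := ⟨_, rfl⟩
  obtain ⟨d, hd'⟩ : ∃ d, d = a ^ (n + 1) := ⟨_, rfl⟩
  rw [← hc'] at g1 hc
  rw [← hd'] at g2 he
  rw [← pow_mul] at g1 g2
  rw [mul_comm (m + 1)] at g2
  obtain ⟨σ, hσ⟩ : ∃ σ, σ = s ^ ((n + 1) * (m + 1)) := ⟨_, rfl⟩
  rw [← hσ] at g1 g2
  have hσ0 : 0 < σ := hσ ▸ pow_pos h0 _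
  have hσ1 : σ ≠ 1 := by
    rw [hσ]
    intro h
    exact h1 ((pow_eq_one_iff_of_nonneg h0.le (by positivity)).1 h)
  obtain ⟨r1, ε, hε, l1⟩ := g1
  obtain ⟨r2, δ, hδ, l2⟩ := g2
  rw [r1 p le_rfl] at l1
  rw [r2 p le_rfl] at l2
  obtain ⟨η, hη⟩ : ∃ η, η = min ε δ := ⟨_, rfl⟩
  have hη0 : 0 < η := hη ▸ lt_min hε hδ
  have hη1 : η ≤ ε := hη ▸ min_le_left _ _
  have hη2 : η ≤ δ := hη ▸ min_le_right _ _
  have hdm : StrictMono d := hd' ▸ PL.mono (pow_mem haP _)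
  have hR : Rgt (c * d⁻¹) (p + σ * η) := fun y hy => by
    have h2 : d⁻¹ y ≤ p + η := by
      rw [← hdm.le_iff_le, l2 (p + η) (by linarith) (by linarith)]
      simpa using hy
    have h3 : c (d⁻¹ y) = d (d⁻¹ y) := by
      rcases le_total (d⁻¹ y) p with h | h
      · rw [r1 _ h, r2 _ h]
      · rw [l1 _ h (by linarith), l2 _ h (by linarith)]
    rw [Perm.mul_apply, h3]
    simp
  obtain ⟨θ, hθ⟩ : ∃ θ, θ = min η (σ * η) / 2 := ⟨_, rfl⟩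
  have hm0 : 0 < min η (σ * η) := lt_min hη0 (mul_pos hσ0 hη0)
  have hθ0 : 0 < θ := by rw [hθ]; linarith
  have hθ1 : θ < η := by rw [hθ]; linarith [min_le_left η (σ * η)]
  have hθ2 : θ < σ * η := by rw [hθ]; linarith [min_le_right η (σ * η)]
  have hx : c (p + θ) = p + σ * θ := by rw [l1 _ (by linarith) (by linarith)]; ring
  refine ⟨c * d⁻¹, hP.sub _ (hP.mul _ hc _ he), fun u hu v hv f₁ h₁ f₂ h₂ f₃ h₃ =>
    higman hP hc he (x := p + θ) ?_ (by linarith) ?_ hR hu hv h₁ h₂ h₃⟩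
  · rw [hx]
    intro h
    exact hσ1 (mul_right_cancel₀ hθ0.ne' (by linarith))
  · rw [hx]
    nlinarith

theorem cone_image (P : Set G) (h1 : ∀ a ∈ P, ∀ b ∈ P, a * b ∈ P)
    (h2 : ∀ a ∈ P, ∀ y, y * a * y⁻¹ ∈ P) : Cone (Subtype.val '' P) where
  sub := by rintro _ ⟨a, -, rfl⟩; exact a.2
  mul := by rintro _ ⟨a, ha, rfl⟩ _ ⟨b, hb, rfl⟩; exact ⟨_, h1 a ha b hb, rfl⟩
  conj := by rintro _ ⟨a, ha, rfl⟩ y hy; exact ⟨_, h2 a ha ⟨y, hy⟩, rfl⟩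

theorem G_pro : ProOrderable G := by
  have hs : ∀ y : G, G.subtype y ∈ PL := fun y => B_PL (G_B y.2)
  have hn : ∀ y : G, nu.comp G.subtype y ∈ PL := fun y => nu_PL (hs y)
  refine pro_of (fun g hg h => ?_) fun P h1 h2 g a b hg ha hb haP hbP => ?_
  · obtain ⟨p, s, h0, h1, h2⟩ := exists_germ (G_B g.2) (fun h => hg (Subtype.ext h))
    obtain ⟨q, m, h3⟩ := NS.germ G.subtype hs h2 h
    rw [map_one] at h3
    exact h1 ((pow_eq_one_iff_of_nonneg h0.le (Nat.succ_ne_zero m)).1 (h3.2.unique (Lin.one q)))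
  · have hP := cone_image P h1 h2
    obtain ⟨p, s, s0, s1, g1⟩ := exists_germ (G_B g.2) (fun h => hg (Subtype.ext h))
    obtain ⟨p', s', s0', s1', g1'⟩ := exists_germ (nu_B (G_B g.2)) (fun h => hg (Subtype.ext (by
      rw [← nu_nu (g : Pm), h, map_one]; rfl)))
    obtain ⟨_, _, ga⟩ := NS.germ G.subtype hs g1 ha
    obtain ⟨_, _, gb⟩ := NS.germ G.subtype hs g1 hb
    obtain ⟨_, _, ga'⟩ := NS.germ (nu.comp G.subtype) hn g1' ha
    obtain ⟨_, _, gb'⟩ := NS.germ (nu.comp G.subtype) hn g1' hb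
    obtain ⟨k, hk⟩ := exists_good hP (a := a) (b := b) ⟨_, haP, rfl⟩ ⟨_, hbP, rfl⟩ s0 s1 ga gb
    obtain ⟨k', hk'⟩ := exists_good hP.nu (a := nu a) (b := nu b) (by
      change nu (nu (a : Pm))⁻¹ ∈ Subtype.val '' P
      rw [map_inv, nu_nu]; exact ⟨_, haP, rfl⟩) (by
      change nu (nu (b : Pm)) ∈ Subtype.val '' P
      rw [nu_nu]; exact ⟨_, hbP, rfl⟩) s0' s1' ga' gb'
    obtain ⟨x, hx, e⟩ := one_mem_of_good hP hk hk'
    rwa [show x = 1 from Subtype.ext e] at hx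

theorem G_simple : IsSimpleGroup G := by
  have : Nontrivial G := by
    obtain ⟨y, hy, h⟩ := approx (aff_PL 1 1 one_pos) 0 0 le_rfl
    refine ⟨⟨y, hy⟩, 1, fun e => ?_⟩
    have h1 := h 0 le_rfl le_rfl
    rw [show y = 1 from congrArg Subtype.val e, aff_apply] at h1
    simp at h1
  refine ⟨fun N hN => ?_⟩
  rcases N.bot_or_exists_ne_one with h | ⟨c, hc, hc1⟩
  · exact Or.inl h
  right
  have hP := cone_image N (fun a ha b hb => mul_mem ha hb) (fun a ha y => hN.conj_mem a ha y)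
  obtain ⟨x, hx⟩ : ∃ x, (c : Pm) x ≠ x := by
    by_contra h
    push Not at h
    exact hc1 (Subtype.ext (Equiv.ext h))
  have key : G ≤ N.map G.subtype := by
    refine Subgroup.commutator_le.2 fun u hu v hv => ?_
    have h := higman hP (c := c) (e := (c : Pm)⁻¹) ⟨_, hc, rfl⟩ ⟨_, inv_mem hc, rfl⟩ hx
      (q := max x ((c : Pm) x) + 1) (by linarith [le_max_left x ((c : Pm) x)])
      (by linarith [le_max_right x ((c : Pm) x)]) (fun _ _ => by simp) hu hv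
      (one_mem PL) (one_mem PL) (one_mem PL)
    obtain ⟨a, b, h'⟩ := G_B (Subgroup.commutator_mem_commutator hu hv)
    have h2 := h 1 (one_mem _) 1 (one_mem _) b (b + 1) (lt_add_one b) (by simpa using h'.2.2)
      (fun _ _ => by simp)
    simp only [mul_inv_cancel, one_mul, mul_one, inv_one] at h2
    exact h2
  rw [eq_top_iff]
  intro y _
  obtain ⟨z, hz, e⟩ := key y.2
  rwa [← show z = y from Subtype.ext e]

end Pool.Agent.H22.OStar
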