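import Mathlib

set_option autoImplicit false

namespace Pool.Agent.H22.Omega

/-- An `Ω`-algebra structure on the `k`-module `A`: one multilinear map per operation symbol. -/
structure OAlg (k : Type) [CommRing k] (Ω : ℕ → Type) (A : Type) [AddCommGroup A]
    [Module k A] where
  op : ∀ n, Ω n → MultilinearMap k (fun _ : Fin n => A) A

/-- Formal `Ω`-monomials in the variables `x_0, x_1, …`. -/
inductive Term (Ω : ℕ → Type) : Type
  | var : ℕ → Term Ω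
  | app : (n : ℕ) → Ω n → (Fin n → Term Ω) → Term Ω

variable {k : Type} [CommRing k] {Ω : ℕ → Type} {A B : Type} [AddCommGroup A] [Module k A]
  [AddCommGroup B] [Module k B]

/-- Value of a monomial under a substitution. -/
def Term.eval (𝒜 : OAlg k Ω A) (x : ℕ → A) : Term Ω → A
  | .var i => x i
  | .app n ω s => 𝒜.op n ω fun j => (s j).eval 𝒜 x

/-- Number of occurrences of the variable `x_i` in a monomial. -/
def Term.occ (i : ℕ) : Term Ω → ℕ
  | .var j => if j = i then 1 else 0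
  | .app _ _ s => ∑ j, (s j).occ i

/-- Value of an element of the free `Ω`-algebra under a substitution. -/
def evalP (𝒜 : OAlg k Ω A) (x : ℕ → A) (f : Term Ω →₀ k) : A :=
  f.sum fun t c => c • t.eval 𝒜 x

/-- The polynomial identities of `𝒜`. -/
def Ids (𝒜 : OAlg k Ω A) : Set (Term Ω →₀ k) := {f | ∀ x, evalP 𝒜 x f = 0}

/-- Subalgebras. -/
def IsSub (𝒜 : OAlg k Ω A) (R : Submodule k A) : Prop :=
  ∀ n ω (a : Fin n → A), (∀ i, a i ∈ R) → 𝒜.op n ω a ∈ R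

/-- `I` is an ideal of the subalgebra `R`. -/
def IsIdealOf (𝒜 : OAlg k Ω A) (R I : Submodule k A) : Prop :=
  I ≤ R ∧ ∀ n ω (a : Fin n → A), (∀ i, a i ∈ R) → (∃ j, a j ∈ I) → 𝒜.op n ω a ∈ I

/-- Critical algebras: some `f` is an identity of every proper section `R / I` but not of `𝒜`. -/
def Critical (𝒜 : OAlg k Ω A) : Prop :=
  ∃ f : Term Ω →₀ k, f ∉ Ids 𝒜 ∧ ∀ R I : Submodule k A, IsSub 𝒜 R → IsIdealOf 𝒜 R I →
    ¬ (R = ⊤ ∧ I = ⊥) → ∀ x : ℕ → A, (∀ i, x i ∈ R) → evalP 𝒜 x f ∈ I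

/-- Isomorphic `Ω`-algebras. -/
def Iso (𝒜 : OAlg k Ω A) (ℬ : OAlg k Ω B) : Prop :=
  ∃ e : A ≃ₗ[k] B, ∀ n ω (a : Fin n → A), e (𝒜.op n ω a) = ℬ.op n ω fun i => e (a i)

/-- The reduct along an inclusion of signatures. -/
def reduct {Ω' : ℕ → Type} (ι : ∀ n, Ω n ↪ Ω' n) (𝒜 : OAlg k Ω' A) : OAlg k Ω A :=
  ⟨fun n ω => 𝒜.op n (ι n ω)⟩

/-- Prime algebras: for nonzero ideals `I, J` some multilinear monomial in `x_0, …, x_{m-1}`
has a nonzero value with `x_0 ∈ I` and `x_1 ∈ J`. -/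
def IsPrime (𝒜 : OAlg k Ω A) : Prop :=
  ∀ I J : Submodule k A, IsIdealOf 𝒜 ⊤ I → IsIdealOf 𝒜 ⊤ J → I ≠ ⊥ → J ≠ ⊥ →
    ∃ (m : ℕ) (t : Term Ω), 2 ≤ m ∧ (∀ i, t.occ i = if i < m then 1 else 0) ∧
      ∃ x : ℕ → A, x 0 ∈ I ∧ x 1 ∈ J ∧ t.eval 𝒜 x ≠ 0

/-- `𝒜` is isomorphic to a section of `ℬ`: it is a homomorphic image of a subalgebra. -/
def IsSection (𝒜 : OAlg k Ω A) (ℬ : OAlg k Ω B) : Prop :=
  ∃ (R : Submodule k B) (hR : IsSub ℬ R) (φ : R →ₗ[k] A), Function.Surjective φ ∧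
    ∀ n ω (a : Fin n → R),
      φ ⟨ℬ.op n ω fun i => a i, hR n ω _ fun i => (a i).2⟩ = 𝒜.op n ω fun i => φ (a i)

/-- A bilinear map as a binary operation. -/
def bil (f : A →ₗ[k] A →ₗ[k] A) : MultilinearMap k (fun _ : Fin 2 => A) A where
  toFun a := f (a 0) (a 1)
  map_update_add' := by
    intro _ m i x y
    fin_cases i <;> simp
  map_update_smul' := by
    intro _ m i c x
    fin_cases i <;> simp

end Pool.Agent.H22.Omega
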