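import Pool.Agent.H22.OStar2

set_option autoImplicit false

namespace Pool.Agent.H22.Ord

open Equiv Filter Topology Set Pool.Agent.H22.OStar

variable (K : IntermediateField ℚ ℝ)

structure Mo where
  a : ℝ
  b : ℝ
  c : ℝ
  d : ℝ
  ha : a ∈ K
  hb : b ∈ K
  hc : c ∈ K
  hd : d ∈ K
  det : a * d - b * c = 1

variable {K}

def Mo.den (M : Mo K) (x : ℝ) : ℝ := M.c * x + M.d

def On (M : Mo K) (f : ℝ → ℝ) (x : ℝ) : Prop := 0 < M.den x ∧ f x * M.den x = M.a * x + M.b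

def Mo.mul (M N : Mo K) : Mo K where
  a := M.a * N.a + M.b * N.c
  b := M.a * N.b + M.b * N.d
  c := M.c * N.a + M.d * N.c
  d := M.c * N.b + M.d * N.d
  ha := add_mem (mul_mem M.ha N.ha) (mul_mem M.hb N.hc)
  hb := add_mem (mul_mem M.ha N.hb) (mul_mem M.hb N.hd)
  hc := add_mem (mul_mem M.hc N.ha) (mul_mem M.hd N.hc)
  hd := add_mem (mul_mem M.hc N.hb) (mul_mem M.hd N.hd)
  det := by linear_combination (N.a * N.d - N.b * N.c) * M.det + N.det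

def Mo.inv (M : Mo K) : Mo K :=
  ⟨M.d, -M.b, -M.c, M.a, M.hd, neg_mem M.hb, neg_mem M.hc, M.ha, by linear_combination M.det⟩

def Mo.tr (t : ℝ) (ht : t ∈ K) : Mo K := ⟨1, t, 0, 1, one_mem _, ht, zero_mem _, one_mem _, by ring⟩

theorem On.den_mul {N : Mo K} (M : Mo K) {g : ℝ → ℝ} {x : ℝ} (h : On N g x) :
    (M.mul N).den x = M.den (g x) * N.den x := by
  have := h.2
  simp only [Mo.den, Mo.mul] at this ⊢
  linear_combination (-M.c) * this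

theorem On.mul {M N : Mo K} {f g : ℝ → ℝ} {x : ℝ} (h : On M f (g x)) (h' : On N g x) :
    On (M.mul N) (fun x => f (g x)) x := by
  refine ⟨by rw [h'.den_mul]; exact mul_pos h.1 h'.1, ?_⟩
  rw [h'.den_mul]
  have h1 := h.2
  have h2 := h'.2
  simp only [Mo.den, Mo.mul] at h1 h2 ⊢
  linear_combination (N.c * x + N.d) * h1 + M.a * h2

theorem On.den_inv {M : Mo K} {f : ℝ → ℝ} {x : ℝ} (h : On M f x) :
    M.inv.den (f x) * M.den x = 1 := by
  have := h.2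
  simp only [Mo.den, Mo.inv] at this ⊢
  linear_combination (-M.c) * this + M.det

theorem On.inv {M : Mo K} {f g : ℝ → ℝ} {y : ℝ} (h : On M f (g y)) (e : f (g y) = y) :
    On M.inv g y := by
  have h1 := h.den_inv
  rw [e] at h1
  refine ⟨(mul_pos_iff_of_pos_right h.1).1 (by rw [h1]; exact one_pos), ?_⟩
  have h2 := h.2
  rw [e] at h2
  simp only [Mo.den, Mo.inv] at h2 ⊢
  linear_combination -h2

theorem cont {f : Pm} (hf : StrictMono f) : Continuous f :=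
  (hf.orderIsoOfSurjective f f.surjective).continuous

theorem tend_ge {f : Pm} (hf : StrictMono f) (p : ℝ) : Tendsto f (𝓝[≥] p) (𝓝[≥] (f p)) :=
  (cont hf).continuousWithinAt.tendsto_nhdsWithin fun _ hx => hf.monotone hx

theorem tend_le {f : Pm} (hf : StrictMono f) (p : ℝ) : Tendsto f (𝓝[≤] p) (𝓝[≤] (f p)) :=
  (cont hf).continuousWithinAt.tendsto_nhdsWithin fun _ hx => hf.monotone hx

def Loc (K : IntermediateField ℚ ℝ) (f : ℝ → ℝ) (p : ℝ) : Prop :=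
  ∃ M N : Mo K, M.den p = N.den p ∧ (∀ᶠ x in 𝓝[≥] p, On M f x) ∧ ∀ᶠ x in 𝓝[≤] p, On N f x

theorem ev_ge {P : ℝ → Prop} {p : ℝ} (h : ∀ᶠ x in 𝓝[≥] p, P x) : P p :=
  h.self_of_nhdsWithin (mem_Ici.2 le_rfl)

theorem ev_le {P : ℝ → Prop} {p : ℝ} (h : ∀ᶠ x in 𝓝[≤] p, P x) : P p :=
  h.self_of_nhdsWithin (mem_Iic.2 le_rfl)

theorem on_tr (t : ℝ) (ht : t ∈ K) (x : ℝ) : On (Mo.tr t ht) (fun x => x + t) x :=
  ⟨by simp [Mo.den, Mo.tr], by simp [Mo.den, Mo.tr]⟩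

def PM (K : IntermediateField ℚ ℝ) : Subgroup Pm where
  carrier := {f | StrictMono f ∧ ∀ p, Loc K f p}
  one_mem' := ⟨strictMono_id, fun p => ⟨Mo.tr 0 (zero_mem _), Mo.tr 0 (zero_mem _), rfl,
    Eventually.of_forall fun x => by simp [On, Mo.den, Mo.tr],
    Eventually.of_forall fun x => by simp [On, Mo.den, Mo.tr]⟩⟩
  mul_mem' := by
    rintro f g ⟨hf, hf'⟩ ⟨hg, hg'⟩
    refine ⟨hf.comp hg, fun p => ?_⟩
    obtain ⟨M, N, e, h1, h2⟩ := hf' (g p)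
    obtain ⟨M', N', e', h1', h2'⟩ := hg' p
    refine ⟨M.mul M', N.mul N', by rw [(ev_ge h1').den_mul, (ev_le h2').den_mul, e, e'], ?_, ?_⟩
    · exact (((tend_ge hg p).eventually h1).and h1').mono fun x hx => hx.1.mul hx.2
    · exact (((tend_le hg p).eventually h2).and h2').mono fun x hx => hx.1.mul hx.2
  inv_mem' := by
    rintro f ⟨hf, hf'⟩
    refine ⟨mono_inv hf, fun q => ?_⟩
    obtain ⟨M, N, e, h1, h2⟩ := hf' (f⁻¹ q)
    refine ⟨M.inv, N.inv, ?_, ?_, ?_⟩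
    · have e1 := (ev_ge h1).den_inv
      have e2 := (ev_le h2).den_inv
      rw [show f (f⁻¹ q) = q by simp] at e1 e2
      rw [← e] at e2
      exact mul_right_cancel₀ (ev_ge h1).1.ne' (e1.trans e2.symm)
    · exact ((tend_ge (mono_inv hf) q).eventually h1).mono fun x hx => hx.inv (by simp)
    · exact ((tend_le (mono_inv hf) q).eventually h2).mono fun x hx => hx.inv (by simp)

theorem PM.mono {f : Pm} (h : f ∈ PM K) : StrictMono f := h.1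

theorem On.congr {M : Mo K} {f g : ℝ → ℝ} {x : ℝ} (h : On M f x) (e : g x = f x) : On M g x :=
  ⟨h.1, e ▸ h.2⟩

theorem Loc.congr {f g : ℝ → ℝ} {p : ℝ} (h : Loc K f p) (e : ∀ᶠ x in 𝓝 p, g x = f x) :
    Loc K g p := by
  obtain ⟨M, N, e1, h1, h2⟩ := h
  exact ⟨M, N, e1, (h1.and (e.filter_mono nhdsWithin_le_nhds)).mono fun x hx => hx.1.congr hx.2,
    (h2.and (e.filter_mono nhdsWithin_le_nhds)).mono fun x hx => hx.1.congr hx.2⟩

noncomputable def tr (t : ℝ) : Pm := Equiv.addRight t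

@[simp] theorem tr_apply (t x : ℝ) : tr t x = x + t := rfl

@[simp] theorem tr_inv_apply (t x : ℝ) : (tr t)⁻¹ x = x - t := by
  rw [Perm.inv_eq_iff_eq]; simp

theorem tr_PM {t : ℝ} (ht : t ∈ K) : tr t ∈ PM K :=
  ⟨fun x y h => by simpa using h, fun _ => ⟨Mo.tr t ht, Mo.tr t ht, rfl,
    Eventually.of_forall (on_tr t ht), Eventually.of_forall (on_tr t ht)⟩⟩

theorem rat_mem (q : ℚ) : (q : ℝ) ∈ K := SubfieldClass.ratCast_mem K q

theorem On.val_mem {M : Mo K} {f : ℝ → ℝ} {x : ℝ} (h : On M f x) (hx : x ∈ K) : f x ∈ K := by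
  rw [eq_div_of_mul_eq h.1.ne' h.2]
  exact div_mem (add_mem (mul_mem M.ha hx) M.hb) (add_mem (mul_mem M.hc hx) M.hd)

theorem den_cont (M : Mo K) : Continuous M.den := by unfold Mo.den; fun_prop

/-- One-sided smoothness at a point. -/
def Sm (K : IntermediateField ℚ ℝ) (f : ℝ → ℝ) (p δ : ℝ) : Prop :=
  ∃ M N : Mo K, M.den p = δ ∧ N.den p = δ ∧ (∀ᶠ x in 𝓝[≥] p, On M f x) ∧ ∀ᶠ x in 𝓝[≤] p, On N f x

theorem glue1 {f g : Pm} (hf : f ∈ PM K) (hg : g ∈ PM K) {p δ : ℝ} (h : f p = g p)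
    (h1 : Sm K f p δ) (h2 : Sm K g p δ) :
    ∃ k ∈ PM K, (∀ x, x ≤ p → k x = f x) ∧ ∀ x, p ≤ x → k x = g x := by
  classical
  have hm : StrictMono fun x => if x ≤ p then f x else g x := by
    intro x y hxy
    dsimp only
    split_ifs with h1 h2 h2
    · exact hf.1 hxy
    · exact lt_of_le_of_lt (hf.1.monotone h1) (h ▸ hg.1 (not_le.1 h2))
    · exact absurd (hxy.le.trans h2) h1
    · exact hg.1 hxy
  have hs : Function.Surjective fun x => if x ≤ p then f x else g x := by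
    intro y
    by_cases hy : y ≤ f p
    · refine ⟨f⁻¹ y, ?_⟩
      have : f⁻¹ y ≤ p := by rw [← hf.1.le_iff_le]; simpa using hy
      show (if _ then _ else _) = _
      rw [if_pos this]; simp
    · refine ⟨g⁻¹ y, ?_⟩
      have : ¬ g⁻¹ y ≤ p := by rw [← hg.1.le_iff_le, ← h]; simpa using hy
      show (if _ then _ else _) = _
      rw [if_neg this]; simp
  obtain ⟨k, hk⟩ : ∃ k : Pm, ∀ x, k x = if x ≤ p then f x else g x :=
    ⟨Equiv.ofBijective _ ⟨hm.injective, hs⟩, fun _ => rfl⟩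
  have e1 : ∀ x, x ≤ p → k x = f x := fun x hx => by rw [hk, if_pos hx]
  have e2 : ∀ x, p ≤ x → k x = g x := fun x hx => by
    rcases hx.eq_or_lt with rfl | hx
    · rw [e1 _ le_rfl, h]
    · rw [hk, if_neg (not_le.2 hx)]
  refine ⟨k, ⟨fun x y hxy => by rw [hk, hk]; exact hm hxy, fun r => ?_⟩, e1, e2⟩
  rcases lt_trichotomy r p with hr | rfl | hr
  · exact (hf.2 r).congr ((eventually_lt_nhds hr).mono fun x hx => e1 x hx.le)
  · obtain ⟨-, N, -, a1, -, a2⟩ := h1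
    obtain ⟨M, -, b1, -, b2, -⟩ := h2
    exact ⟨M, N, b1.trans a1.symm, (b2.and self_mem_nhdsWithin).mono fun x hx => hx.1.congr (e2 x hx.2),
      (a2.and self_mem_nhdsWithin).mono fun x hx => hx.1.congr (e1 x hx.2)⟩
  · exact (hg.2 r).congr ((eventually_gt_nhds hr).mono fun x hx => e2 x hx.le)

theorem arc {p q y₀ y₁ δ₀ δ₁ : ℝ} (hp : p ∈ K) (hq : q ∈ K) (hy₀ : y₀ ∈ K) (h₀ : δ₀ ∈ K)
    (h₁ : δ₁ ∈ K) (hpq : p < q) (d₀ : 0 < δ₀) (d₁ : 0 < δ₁) (hy : y₁ = y₀ + (q - p) / (δ₀ * δ₁)) :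
    ∃ k ∈ PM K, k p = y₀ ∧ k q = y₁ ∧ Sm K k p δ₀ ∧ Sm K k q δ₁ ∧
      ∀ x, p ≤ x → x ≤ q → k x = y₀ + (x - p) / (δ₀ * (δ₀ + (δ₁ - δ₀) / (q - p) * (x - p))) := by
  classical
  have hL : 0 < q - p := by linarith
  obtain ⟨e, he⟩ : ∃ e, e = (δ₁ - δ₀) / (q - p) := ⟨_, rfl⟩
  have heK : e ∈ K := he ▸ div_mem (sub_mem h₁ h₀) (sub_mem hq hp)
  have he1 : δ₀ + e * (q - p) = δ₁ := by rw [he]; field_simp; ring
  have hy₁ : y₁ ∈ K := hy ▸ add_mem hy₀ (div_mem (sub_mem hq hp) (mul_mem h₀ h₁))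
  have dpos : ∀ x, p ≤ x → x ≤ q → 0 < δ₀ + e * (x - p) := fun x h1 h2 => by
    rcases le_total 0 e with h | h
    · nlinarith [mul_nonneg h (sub_nonneg.2 h1)]
    · nlinarith [mul_nonneg_of_nonpos_of_nonpos h (sub_nonpos.2 h2)]
  let A : ∀ (p y δ e : ℝ), p ∈ K → y ∈ K → δ ∈ K → e ∈ K → 0 < δ → Mo K :=
    fun p y δ e hp hy hδ he h0 => ⟨y * e + δ⁻¹, y * (δ - e * p) - p * δ⁻¹, e, δ - e * p,
      add_mem (mul_mem hy he) (inv_mem hδ), sub_mem (mul_mem hy (sub_mem hδ (mul_mem he hp)))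
        (mul_mem hp (inv_mem hδ)), he, sub_mem hδ (mul_mem he hp), by field_simp; ring⟩
  have Aden : ∀ {p y δ e hp hy hδ he h0} x, (A p y δ e hp hy hδ he h0).den x = δ + e * (x - p) := by
    intros; simp only [A, Mo.den]; ring
  have Aon : ∀ p y δ e hp hy hδ he h0 (f : ℝ → ℝ) x, 0 < δ + e * (x - p) →
      f x = y + (x - p) / (δ * (δ + e * (x - p))) → On (A p y δ e hp hy hδ he h0) f x := by
    intro p y δ e hp hy hδ he h0 f x h1 h2
    have := @Aden p y δ e hp hy hδ he h0 x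
    refine ⟨by rwa [this], ?_⟩
    rw [this, h2, add_mul, div_mul_eq_mul_div, mul_div_mul_right _ _ h1.ne', div_eq_mul_inv]
    simp only [A]
    ring
  let φ : ℝ → ℝ := fun x => if x ≤ p then y₀ + (x - p) / (δ₀ * δ₀) else
    if x ≤ q then y₀ + (x - p) / (δ₀ * (δ₀ + e * (x - p))) else y₁ + (x - q) / (δ₁ * δ₁)
  have e1 : ∀ x, x ≤ p → φ x = y₀ + (x - p) / (δ₀ * δ₀) := fun x hx => if_pos hx
  have e2 : ∀ x, p ≤ x → x ≤ q → φ x = y₀ + (x - p) / (δ₀ * (δ₀ + e * (x - p))) := fun x h1 h2 => by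
    rcases h1.eq_or_lt with rfl | h1
    · rw [e1 _ le_rfl]; simp
    · simp only [φ, if_neg (not_le.2 h1), if_pos h2]
  have e3 : ∀ x, q ≤ x → φ x = y₁ + (x - q) / (δ₁ * δ₁) := fun x h1 => by
    rcases h1.eq_or_lt with rfl | h1
    · rw [e2 _ hpq.le le_rfl, he1, hy]; simp
    · simp only [φ, if_neg (not_le.2 h1), if_neg (not_le.2 (hpq.trans h1))]
  have m1 : StrictMonoOn φ (Iic p) := fun x hx y hy h => by
    rw [e1 x hx, e1 y hy]
    gcongr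
  have m2 : StrictMonoOn φ (Icc p q) := fun x hx y hy h => by
    rw [e2 x hx.1 hx.2, e2 y hy.1 hy.2, add_lt_add_iff_left,
      div_lt_div_iff₀ (mul_pos d₀ (dpos x hx.1 hx.2)) (mul_pos d₀ (dpos y hy.1 hy.2))]
    nlinarith [mul_pos (mul_pos d₀ d₀) (sub_pos.2 h)]
  have m3 : StrictMonoOn φ (Ici q) := fun x hx y hy h => by
    rw [e3 x hx, e3 y hy]
    gcongr
  have hm : StrictMono φ := by
    have m4 : StrictMonoOn φ (Ici p) := by
      rw [← Icc_union_Ici_eq_Ici hpq.le]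
      exact m2.union m3 (isGreatest_Icc hpq.le) isLeast_Ici
    exact m1.Iic_union_Ici m4
  have φp : φ p = y₀ := by rw [e1 _ le_rfl]; simp
  have φq : φ q = y₁ := by rw [e3 _ le_rfl]; simp
  have hs : Function.Surjective φ := by
    intro y
    rcases le_total y y₀ with h | h
    · refine ⟨p + (y - y₀) * (δ₀ * δ₀), ?_⟩
      rw [e1 _ (by nlinarith [mul_pos d₀ d₀])]; field_simp; ring
    rcases le_total y₁ y with h' | h'
    · refine ⟨q + (y - y₁) * (δ₁ * δ₁), ?_⟩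
      rw [e3 _ (by nlinarith [mul_pos d₁ d₁])]; field_simp; ring
    · have hc : ContinuousOn φ (Icc p q) := by
        refine ContinuousOn.congr (f := fun x => y₀ + (x - p) / (δ₀ * (δ₀ + e * (x - p)))) ?_
          fun x hx => e2 x hx.1 hx.2
        exact continuousOn_const.add (ContinuousOn.div (by fun_prop) (by fun_prop)
          fun x hx => (mul_pos d₀ (dpos x hx.1 hx.2)).ne')
      obtain ⟨x, -, hx⟩ := intermediate_value_Icc hpq.le hc (show y ∈ Icc (φ p) (φ q) by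
        rw [φp, φq]; exact ⟨h, h'⟩)
      exact ⟨x, hx⟩
  have o1 : ∀ x, x ≤ p → On (A p y₀ δ₀ 0 hp hy₀ h₀ (zero_mem _) d₀) φ x := fun x hx =>
    Aon p y₀ δ₀ 0 hp hy₀ h₀ (zero_mem _) d₀ _ _ (by simpa using d₀) (by simpa using e1 x hx)
  have o2 : ∀ x, p ≤ x → x ≤ q → On (A p y₀ δ₀ e hp hy₀ h₀ heK d₀) φ x := fun x h1 h2 =>
    Aon p y₀ δ₀ e hp hy₀ h₀ heK d₀ _ _ (dpos x h1 h2) (e2 x h1 h2)
  have o3 : ∀ x, q ≤ x → On (A q y₁ δ₁ 0 hq hy₁ h₁ (zero_mem _) d₁) φ x := fun x hx =>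
    Aon q y₁ δ₁ 0 hq hy₁ h₁ (zero_mem _) d₁ _ _ (by simpa using d₁) (by simpa using e3 x hx)
  have s1 : Sm K φ p δ₀ := ⟨A p y₀ δ₀ e hp hy₀ h₀ heK d₀, A p y₀ δ₀ 0 hp hy₀ h₀ (zero_mem _) d₀,
    by simp [Aden], by simp [Aden],
    (Icc_mem_nhdsGE hpq : _ ∈ _) |> fun h => mem_of_superset h fun x hx => o2 x hx.1 hx.2,
    mem_of_superset self_mem_nhdsWithin o1⟩
  have s2 : Sm K φ q δ₁ := ⟨A q y₁ δ₁ 0 hq hy₁ h₁ (zero_mem _) d₁, A p y₀ δ₀ e hp hy₀ h₀ heK d₀,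
    by simp [Aden], (@Aden p y₀ δ₀ e hp hy₀ h₀ heK d₀ q).trans he1,
    mem_of_superset self_mem_nhdsWithin o3,
    (Icc_mem_nhdsLE hpq : _ ∈ _) |> fun h => mem_of_superset h fun x hx => o2 x hx.1 hx.2⟩
  have nb : ∀ (M : Mo K) r, (∀ᶠ x in 𝓝 r, On M φ x) → Loc K φ r := fun M r h =>
    ⟨M, M, rfl, h.filter_mono nhdsWithin_le_nhds, h.filter_mono nhdsWithin_le_nhds⟩
  refine ⟨Equiv.ofBijective φ ⟨hm.injective, hs⟩, ⟨hm, fun r => ?_⟩, φp, φq, s1, s2,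
    fun x h1 h2 => he ▸ e2 x h1 h2⟩
  change Loc K φ r
  rcases lt_trichotomy r p with h | rfl | h
  · exact nb _ r ((eventually_lt_nhds h).mono fun x hx => o1 x hx.le)
  · obtain ⟨M, N, a1, a2, a3, a4⟩ := s1
    exact ⟨M, N, a1.trans a2.symm, a3, a4⟩
  rcases lt_trichotomy r q with h' | rfl | h'
  · exact nb _ r (mem_of_superset (Icc_mem_nhds h h') fun x hx => o2 x hx.1 hx.2)
  · obtain ⟨M, N, a1, a2, a3, a4⟩ := s2
    exact ⟨M, N, a1.trans a2.symm, a3, a4⟩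
  · exact nb _ r ((eventually_gt_nhds h').mono fun x hx => o3 x hx.le)

theorem sm_at {f : Pm} (hf : f ∈ PM K) {p : ℝ} (hp : p ∈ K) :
    f p ∈ K ∧ ∃ δ ∈ K, 0 < δ ∧ Sm K f p δ := by
  obtain ⟨M, N, e, h1, h2⟩ := hf.2 p
  exact ⟨(ev_ge h1).val_mem hp, _, add_mem (mul_mem M.hc hp) M.hd, (ev_ge h1).1,
    M, N, rfl, e.symm, h1, h2⟩

theorem Sm.congr_left {f g : ℝ → ℝ} {p q δ : ℝ} (h : Sm K f p δ) (hpq : p < q)
    (e : ∀ x, x ≤ q → g x = f x) : Sm K g p δ := by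
  obtain ⟨M, N, a1, a2, a3, a4⟩ := h
  have : ∀ᶠ x in 𝓝 p, g x = f x := (eventually_lt_nhds hpq).mono fun x hx => e x hx.le
  exact ⟨M, N, a1, a2, (a3.and (this.filter_mono nhdsWithin_le_nhds)).mono fun x hx => hx.1.congr hx.2,
    (a4.and (this.filter_mono nhdsWithin_le_nhds)).mono fun x hx => hx.1.congr hx.2⟩

theorem glueK {f g : Pm} (hf : f ∈ PM K) (hg : g ∈ PM K) {p q : ℝ} (hp : p ∈ K) (hq : q ∈ K)
    (hpq : p < q) (h : f p < g q) :
    ∃ k ∈ PM K, (∀ x, x ≤ p → k x = f x) ∧ ∀ x, q ≤ x → k x = g x := by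
  obtain ⟨y0, δ₀, d0, p0, s0⟩ := sm_at hf hp
  obtain ⟨y1, δ₁, d1, p1, s1⟩ := sm_at hg hq
  have h2 : (2 : ℝ) ∈ K := by simpa using rat_mem (K := K) 2
  obtain ⟨m, hm⟩ : ∃ m, m = (p + q) / 2 := ⟨_, rfl⟩
  have mK : m ∈ K := hm ▸ div_mem (add_mem hp hq) h2
  have m1 : p < m := by linarith
  have m2 : m < q := by linarith
  obtain ⟨δ, hδ⟩ : ∃ δ, δ = ((m - p) / δ₀ + (q - m) / δ₁) / (g q - f p) := ⟨_, rfl⟩
  have hne : 0 < g q - f p := by linarith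
  have δK : δ ∈ K := hδ ▸ div_mem (add_mem (div_mem (sub_mem mK hp) d0) (div_mem (sub_mem hq mK) d1))
    (sub_mem y1 y0)
  have hs : 0 < (m - p) / δ₀ + (q - m) / δ₁ := add_pos (div_pos (by linarith) p0) (div_pos (by linarith) p1)
  have δ0 : 0 < δ := hδ ▸ div_pos hs hne
  obtain ⟨k1, hk1, a1, a2, a3, a4, -⟩ := arc hp mK y0 d0 δK m1 p0 δ0 rfl
  obtain ⟨k2, hk2, b1, b2, b3, b4, -⟩ := arc (y₁ := g q) mK hq
    (add_mem y0 (div_mem (sub_mem mK hp) (mul_mem d0 δK))) δK d1 m2 δ0 p1 (by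
      have : δ * (g q - f p) = (m - p) / δ₀ + (q - m) / δ₁ := by rw [hδ]; field_simp
      field_simp at this ⊢
      linear_combination this)
  obtain ⟨k3, hk3, c1, c2⟩ := glue1 hk2 hg b2 b4 s1
  obtain ⟨k4, hk4, c3, c4⟩ := glue1 hk1 hk3 (p := m) (by rw [a2, c1 m m2.le, b1]) a4
    (b3.congr_left m2 c1)
  obtain ⟨k, hk, c5, c6⟩ := glue1 hf hk4 (p := p) (by rw [c3 p m1.le, a1]) s0 (a3.congr_left m1 c3)
  exact ⟨k, hk, c5, fun x hx => by rw [c6 x (by linarith), c4 x (by linarith), c2 x hx]⟩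

theorem glue {f g : Pm} (hf : f ∈ PM K) (hg : g ∈ PM K) {p q : ℝ} (hpq : p < q) (h : f p < g q) :
    ∃ k ∈ PM K, (∀ x, x ≤ p → k x = f x) ∧ ∀ x, q ≤ x → k x = g x := by
  have h1 : p < f⁻¹ (g q) := by rw [← hf.1.lt_iff_lt]; simpa using h
  obtain ⟨p', a1, a2⟩ := exists_rat_btwn (lt_min hpq h1)
  have a3 : f p' < g q := by
    have := hf.1 (a2.trans_le (min_le_right _ _))
    simpa using this
  have h2 : g⁻¹ (f p') < q := by rw [← hg.1.lt_iff_lt]; simpa using a3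
  obtain ⟨q', b1, b2⟩ := exists_rat_btwn (max_lt (a2.trans_le (min_le_left _ _)) h2)
  have b3 : f p' < g q' := by
    have := hg.1 ((le_max_right _ _).trans_lt b1)
    simpa using this
  obtain ⟨k, hk, c1, c2⟩ := glueK hf hg (rat_mem p') (rat_mem q') ((le_max_left _ _).trans_lt b1) b3
  exact ⟨k, hk, fun x hx => c1 x (by linarith), fun x hx => c2 x (by linarith)⟩

theorem lim (F : ℕ → Pm) (hF : ∀ n, F n ∈ PM K) (b : ℕ → ℝ) (hb : Monotone b)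
    (hb' : ∀ R, ∃ n, R < b n) (h1 : ∀ n x, x ≤ b n → F (n + 1) x = F n x)
    (h2 : ∀ R, ∃ n, R ≤ F n (b n)) : ∃ k ∈ PM K, ∀ n x, x ≤ b n → k x = F n x := by
  have h3 : ∀ n m, n ≤ m → ∀ x, x ≤ b n → F m x = F n x := by
    intro n m hnm x hx
    induction hnm with
    | refl => rfl
    | step h ih => rw [h1 _ x (hx.trans (hb h)), ih]
  choose i hi using hb'
  have h4 : ∀ n x, x ≤ b n → F (i x) x = F n x := fun n x hx => by
    rw [← h3 n _ (le_max_left n (i x)) x hx, h3 _ _ (le_max_right n (i x)) x (hi x).le]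
  have hm : StrictMono fun x => F (i x) x := fun x y hxy => by
    dsimp only
    rw [h4 (i y) x (hxy.le.trans (hi y).le)]
    exact (hF _).1 hxy
  have hs : Function.Surjective fun x => F (i x) x := fun y => by
    obtain ⟨n, hn⟩ := h2 y
    refine ⟨(F n)⁻¹ y, ?_⟩
    dsimp only
    rw [h4 n _ (by rw [← (hF n).1.le_iff_le]; simpa using hn)]
    simp
  exact ⟨Equiv.ofBijective _ ⟨hm.injective, hs⟩, ⟨hm, fun p => ((hF (i p)).2 p).congr
    ((eventually_lt_nhds (hi p)).mono fun x hx => h4 _ x hx.le)⟩, h4⟩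

end Pool.Agent.H22.Ord
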