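import Pool.Agent.H22.Ord1

set_option autoImplicit false

namespace Pool.Agent.H22.Ord

open Equiv Filter Topology Set Pool.Agent.H22.OStar

variable {K : IntermediateField ℚ ℝ}

def GG (K : IntermediateField ℚ ℝ) : Subgroup Pm where
  carrier := {f | f ∈ PM K ∧ ∃ a, Rgt f a}
  one_mem' := ⟨one_mem _, 0, fun _ _ => rfl⟩
  mul_mem' := by
    rintro f g ⟨hf, a, ha⟩ ⟨hg, b, hb⟩
    exact ⟨mul_mem hf hg, min a b, (ha.mono (min_le_left _ _)).mul (hb.mono (min_le_right _ _))⟩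
  inv_mem' := by
    rintro f ⟨hf, a, ha⟩
    exact ⟨inv_mem hf, a, ha.inv⟩

structure Tot (K : IntermediateField ℚ ℝ) (P : Set Pm) : Prop where
  sub : ∀ a ∈ P, a ∈ GG K
  mul : ∀ a ∈ P, ∀ b ∈ P, a * b ∈ P
  conj : ∀ a ∈ P, ∀ y ∈ GG K, y * a * y⁻¹ ∈ P
  one : 1 ∉ P
  total : ∀ a ∈ GG K, a ≠ 1 → a ∈ P ∨ a⁻¹ ∈ P

theorem Tot.conjPM {P : Set Pm} (hP : Tot K P) {a f : Pm} (ha : a ∈ P) (hf : f ∈ PM K) :
    f * a * f⁻¹ ∈ P := by
  obtain ⟨-, p, hp⟩ := hP.sub a ha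
  obtain ⟨y, hy, h1, h2⟩ := glue (one_mem _) hf (p := min p (f p) - 1) (q := p)
    (by linarith [min_le_left p (f p)]) (by rw [Perm.one_apply]; linarith [min_le_right p (f p)])
  rw [← conj_eq (y := y) fun x => (le_total x p).imp (hp x) (h2 x)]
  exact hP.conj a ha y ⟨hy, _, h1⟩

theorem Tot.not_inv {P : Set Pm} (hP : Tot K P) {a : Pm} (ha : a ∈ P) : a⁻¹ ∉ P :=
  fun h => hP.one (by simpa using hP.mul _ ha _ h)

theorem Tot.pow {P : Set Pm} (hP : Tot K P) {a : Pm} (ha : a ∈ P) : ∀ n : ℕ, a ^ (n + 1) ∈ P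
  | 0 => by simpa using ha
  | n + 1 => by rw [pow_succ]; exact hP.mul _ (Tot.pow hP ha n) _ ha

theorem agree_inv {A B : Pm} (hA : StrictMono A) {b : ℝ} (h : ∀ x, x ≤ b → A x = B x)
    (hb : A b = b) (x : ℝ) (hx : x ≤ b) : A⁻¹ x = B⁻¹ x := by
  have : A⁻¹ x ≤ b := by rw [← hA.le_iff_le, hb]; simpa using hx
  rw [Perm.eq_inv_iff_eq, ← h _ this]; simp

theorem ten_mem : (10 : ℝ) ∈ K := by simpa using rat_mem (K := K) 10

theorem conj_tr (t : ℝ) (f : Pm) (x : ℝ) : (tr t * f * (tr t)⁻¹) x = f (x - t) + t := by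
  simp [Perm.mul_apply]

theorem sw {Z : Pm} (hZ : Z ∈ PM K) {a : ℝ} (h1 : Rgt Z a) (h2 : ∀ k : ℕ, Z (a + 10 * k) = a + 10 * k)
    (ι : Pm → Pm) (hι : ι = id ∨ ι = Inv.inv) :
    ∃ Y ∈ PM K, Rgt Y a ∧ (∀ k : ℕ, Y (a + 10 * k) = a + 10 * k) ∧
      Y = Z * ι (tr 10 * Y * (tr 10)⁻¹) := by
  have i1 : ∀ f ∈ PM K, ι f ∈ PM K := by
    rcases hι with rfl | rfl
    · exact fun _ h => h
    · exact fun _ h => inv_mem h
  have i2 : ∀ (f : Pm) x, f x = x → ι f x = x := by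
    rcases hι with rfl | rfl
    · exact fun _ _ h => h
    · exact fun f x h => by rw [Perm.inv_eq_iff_eq, h]
  have i3 : ∀ A B : Pm, A ∈ PM K → ∀ n : ℕ, (∀ x, x ≤ a + 10 * n → A x = B x) →
      A (a + 10 * n) = a + 10 * n → ∀ x, x ≤ a + 10 * (n + 1 : ℕ) →
      (Z * ι (tr 10 * A * (tr 10)⁻¹)) x = (Z * ι (tr 10 * B * (tr 10)⁻¹)) x := by
    intro A B hA n h hb x hx
    have e : ∀ x, x ≤ a + 10 * (n + 1 : ℕ) →
        (tr 10 * A * (tr 10)⁻¹) x = (tr 10 * B * (tr 10)⁻¹) x := fun x hx => by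
      rw [conj_tr, conj_tr, h _ (by push_cast at hx; linarith)]
    rw [Perm.mul_apply, Perm.mul_apply]
    congr 1
    rcases hι with rfl | rfl
    · exact e x hx
    · refine agree_inv (mul_mem (mul_mem (tr_PM ten_mem) hA) (inv_mem (tr_PM ten_mem))).1 e ?_ x hx
      rw [conj_tr]; push_cast
      rw [show a + 10 * (n + 1) - 10 = a + 10 * n by ring, hb]; ring
  let F : ℕ → Pm := fun n => Nat.rec 1 (fun _ f => Z * ι (tr 10 * f * (tr 10)⁻¹)) n
  have hF : ∀ n, F n ∈ PM K ∧ Rgt (F n) a ∧ ∀ k : ℕ, F n (a + 10 * k) = a + 10 * k := by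
    intro n
    induction n with
    | zero => exact ⟨one_mem _, fun _ _ => rfl, fun _ => rfl⟩
    | succ n ih =>
      refine ⟨mul_mem hZ (i1 _ (mul_mem (mul_mem (tr_PM ten_mem) ih.1) (inv_mem (tr_PM ten_mem)))),
        fun x hx => ?_, fun k => ?_⟩
      · change Z (ι _ x) = x
        rw [i2 _ x (by rw [conj_tr, ih.2.1 _ (by linarith)]; ring), h1 x hx]
      · change Z (ι _ _) = _
        rw [i2 _ _ _, h2]
        rw [conj_tr]
        rcases k with _ | k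
        · rw [ih.2.1 _ (by simp)]; ring
        · push_cast
          rw [show a + 10 * (k + 1) - 10 = a + 10 * k by ring, ih.2.2]; ring
  have hA : ∀ n : ℕ, ∀ x, x ≤ a + 10 * n → F (n + 1) x = F n x := by
    intro n
    induction n with
    | zero => exact fun x hx => (hF 1).2.1 x (by simpa using hx)
    | succ n ih => exact i3 _ _ (hF (n + 1)).1 n ih ((hF (n + 1)).2.2 n)
  have hb : ∀ R : ℝ, ∃ n : ℕ, R < a + 10 * n := fun R => by
    obtain ⟨n, hn⟩ := exists_nat_gt (R - a)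
    exact ⟨n, by linarith [(Nat.cast_nonneg n : (0 : ℝ) ≤ n)]⟩
  obtain ⟨Y, hY, h⟩ := lim F (fun n => (hF n).1) (fun n => a + 10 * n)
    (fun n m hnm => by dsimp only; gcongr) hb hA fun R => by
      obtain ⟨n, hn⟩ := hb R
      exact ⟨n, by rw [(hF n).2.2]; exact hn.le⟩
  have hf : ∀ k : ℕ, Y (a + 10 * k) = a + 10 * k := fun k => by rw [h k _ le_rfl, (hF k).2.2]
  refine ⟨Y, hY, fun x hx => h 0 x (by simpa using hx), hf, Equiv.ext fun x => ?_⟩
  obtain ⟨n, hn⟩ := hb x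
  have hx : x ≤ a + 10 * (n + 1 : ℕ) := by push_cast; linarith
  rw [h (n + 1) x hx, i3 Y (F n) hY n (h n) (hf n) x hx]

def Mv (f : Pm) (s t : ℝ) : Prop := ∀ x, s ≤ x → x ≤ t → ¬ (s ≤ f x ∧ f x ≤ t)

theorem Mv.inv {f : Pm} {s t : ℝ} (h : Mv f s t) : Mv f⁻¹ s t :=
  fun x h1 h2 h3 => h _ h3.1 h3.2 (by simpa using ⟨h1, h2⟩)

theorem Mv.tr {f : Pm} {s t : ℝ} (h : Mv f s t) (r : ℝ) :
    Mv (tr r * f * (tr r)⁻¹) (s + r) (t + r) := fun x h1 h2 h3 => by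
  rw [conj_tr] at h3
  exact h (x - r) (by linarith) (by linarith) ⟨by linarith [h3.1], by linarith [h3.2]⟩

def D (x : ℝ) : Prop := ∃ k : ℕ, 10 * k + 1 ≤ x ∧ x ≤ 10 * k + 9

def Sup (K : IntermediateField ℚ ℝ) (U : Pm) : Prop := U ∈ PM K ∧ ∀ x, ¬ D x → U x = x

theorem Sup.rgt {U : Pm} (h : Sup K U) : Rgt U 0 := fun x hx => h.2 x (by
  rintro ⟨k, h1, -⟩
  linarith [(Nat.cast_nonneg k : (0 : ℝ) ≤ k)])

def Disc (K : IntermediateField ℚ ℝ) (Z : Pm) : Prop :=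
  Z ∈ PM K ∧ Rgt Z 2 ∧ ∀ (k : ℕ) (x : ℝ), 10 * k + 3 ≤ x → x ≤ 10 * k + 12 → Z x = x

theorem cover (x : ℝ) : x ≤ 2 ∨ ∃ k : ℕ, (10 * k + 2 ≤ x ∧ x ≤ 10 * k + 3) ∨
    (10 * k + 3 ≤ x ∧ x ≤ 10 * k + 12) := by
  rcases le_total x 2 with h | h
  · exact Or.inl h
  have h1 := Nat.floor_le (show 0 ≤ (x - 2) / 10 by linarith)
  have h2 := Nat.lt_floor_add_one ((x - 2) / 10)
  refine Or.inr ⟨⌊(x - 2) / 10⌋₊, ?_⟩
  rcases le_total x (10 * ⌊(x - 2) / 10⌋₊ + 3) with h3 | h3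
  · exact Or.inl ⟨by linarith, h3⟩
  · exact Or.inr ⟨h3, by linarith⟩

theorem exists_V : ∃ V, Sup K V ∧ ∀ (k : ℕ) (x : ℝ), 10 * k + 2 ≤ x → x ≤ 10 * k + 3 → V x = x + 5 := by
  have h5 : (5 : ℝ) ∈ K := by simpa using rat_mem (K := K) 5
  obtain ⟨v1, hv1, a1, a2⟩ := glue (one_mem _) (tr_PM h5) (p := 1) (q := 2) (by norm_num)
    (by simp; norm_num)
  obtain ⟨v, hv, a3, a4⟩ := glue hv1 (one_mem _) (p := 3) (q := 9) (by norm_num)
    (by rw [a2 3 (by norm_num)]; simp; norm_num)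
  have r1 : Rgt v 1 := fun x hx => by rw [a3 x (by linarith), a1 x hx]; rfl
  obtain ⟨V, hV, b1, -, b2⟩ := sw hv (r1.mono zero_le_one) (fun k => by
    rcases k with _ | k
    · exact r1 _ (by simp)
    · exact a4 _ (by push_cast; linarith [(Nat.cast_nonneg k : (0 : ℝ) ≤ k)])) id (Or.inl rfl)
  have b3 : ∀ x, V x = v (V (x - 10) + 10) := fun x => by
    conv_lhs => rw [b2]
    rw [Perm.mul_apply, id, conj_tr]
  refine ⟨V, ⟨hV, fun x hx => ?_⟩, fun k => ?_⟩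
  · obtain ⟨n, hn⟩ := exists_nat_ge x
    have : x ≤ 10 * n := by linarith [(Nat.cast_nonneg n : (0 : ℝ) ≤ n)]
    clear hn
    induction n generalizing x with
    | zero => exact b1 x (by simpa using this)
    | succ n ih =>
      rw [b3, ih (x - 10) (fun ⟨k, h1, h2⟩ => hx ⟨k + 1, by push_cast; linarith, by push_cast; linarith⟩)
        (by push_cast at this; linarith), sub_add_cancel]
      rcases le_total x 1 with h | h
      · exact r1 x h
      · exact a4 x (by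
          by_contra h'
          exact hx ⟨0, by simpa using h, by simpa using (not_le.1 h').le⟩)
  · induction k with
    | zero =>
      intro x h1 h2
      simp only [Nat.cast_zero, mul_zero, zero_add] at h1 h2
      rw [b3, b1 _ (by linarith), sub_add_cancel, a3 x h2, a2 x h1, tr_apply]
    | succ k ih =>
      intro x h1 h2
      push_cast at h1 h2
      rw [b3, ih _ (by linarith) (by linarith),
        a4 _ (by linarith [(Nat.cast_nonneg k : (0 : ℝ) ≤ k)]), Perm.one_apply]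
      ring

theorem ig (x y : ℕ → ℝ) (hx : ∀ n, x n ∈ K) (hy : ∀ n, y n ∈ K) (h1 : ∀ n, x n + 9 < x (n + 1))
    (h2 : ∀ n, y n + 9 < y (n + 1)) (h3 : 2 < x 0) (h4 : 2 < y 0) :
    ∃ h ∈ PM K, Rgt h 2 ∧ ∀ n t, x n ≤ t → t ≤ x n + 9 → h t = t + (y n - x n) := by
  have step : ∀ n, ∀ f : Pm, ∃ g : Pm, (f ∈ PM K ∧ ∀ t, x n ≤ t → f t = t + (y n - x n)) →
      (g ∈ PM K ∧ ∀ t, x (n + 1) ≤ t → g t = t + (y (n + 1) - x (n + 1))) ∧
        ∀ t, t ≤ x n + 9 → g t = f t := by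
    intro n f
    by_cases hf : f ∈ PM K ∧ ∀ t, x n ≤ t → f t = t + (y n - x n)
    · obtain ⟨g, hg, a1, a2⟩ := glue hf.1 (tr_PM (sub_mem (hy (n + 1)) (hx (n + 1)))) (h1 n)
        (by rw [hf.2 _ (by linarith), tr_apply]; linarith [h2 n])
      exact ⟨g, fun _ => ⟨⟨hg, a2⟩, a1⟩⟩
    · exact ⟨1, fun h => absurd h hf⟩
  choose g hg using step
  obtain ⟨f0, hf0, a1, a2⟩ := glue (one_mem _) (tr_PM (sub_mem (hy 0) (hx 0))) h3
    (by rw [tr_apply, Perm.one_apply]; linarith)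
  let F : ℕ → Pm := fun n => Nat.rec f0 g n
  have hF : ∀ n, F n ∈ PM K ∧ ∀ t, x n ≤ t → F n t = t + (y n - x n) := fun n => by
    induction n with
    | zero => exact ⟨hf0, a2⟩
    | succ n ih => exact (hg n _ ih).1
  have grow : ∀ x : ℕ → ℝ, (∀ n, x n + 9 < x (n + 1)) → 2 < x 0 → ∀ R, ∃ n, R < x n + 9 := by
    intro x h1 h3 R
    obtain ⟨n, hn⟩ := exists_nat_gt R
    refine ⟨n, ?_⟩
    have : ∀ n : ℕ, (n : ℝ) < x n := fun n => by
      induction n with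
      | zero => simp; linarith
      | succ n ih => push_cast; linarith [h1 n]
    linarith [this n]
  obtain ⟨h, hh, e⟩ := lim F (fun n => (hF n).1) (fun n => x n + 9)
    (monotone_nat_of_le_succ fun n => by linarith [h1 n]) (grow x h1 h3)
    (fun n => (hg n _ (hF n)).2) fun R => by
      obtain ⟨n, hn⟩ := grow y h2 h4 R
      exact ⟨n, by rw [(hF n).2 _ (by linarith)]; linarith⟩
  exact ⟨h, hh, fun t ht => by rw [e 0 t (by linarith)]; exact a1 t ht,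
    fun n t b1 b2 => by rw [e n t b2, (hF n).2 t b1]⟩

def Gap (u : Pm) : Prop := ∀ R : ℝ, ∃ s : ℕ, R < s ∧ ∀ x : ℝ, s ≤ x → x ≤ s + 9 → u x = x

theorem gap_disc {u : Pm} (hu : u ∈ PM K) (h1 : Rgt u 2) (h2 : Gap u) :
    ∃ h ∈ PM K, Rgt h 2 ∧ Disc K (h * u * h⁻¹) := by
  choose s hs using h2
  obtain ⟨x, x0, x1⟩ : ∃ x : ℕ → ℕ, x 0 = s 2 ∧ ∀ n, x (n + 1) = s (x n + 9) :=
    ⟨fun n => Nat.rec (s 2) (fun _ m => s (m + 9)) n, rfl, fun _ => rfl⟩
  have hx : ∀ (n : ℕ) (t : ℝ), x n ≤ t → t ≤ x n + 9 → u t = t := by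
    intro n
    rcases n with _ | n
    · rw [x0]; exact (hs _).2
    · rw [x1]; exact (hs _).2
  obtain ⟨h, hh, a1, a2⟩ := ig (K := K) (fun n => x n) (fun n => 10 * n + 3) (fun n => natCast_mem K _)
    (fun n => by simpa using natCast_mem K (10 * n + 3)) (fun n => by rw [x1]; exact (hs _).1)
    (fun n => by push_cast; linarith) (by rw [x0]; exact (hs _).1) (by norm_num)
  refine ⟨h, hh, a1, mul_mem (mul_mem hh hu) (inv_mem hh), (a1.mul h1).mul a1.inv, fun k t b1 b2 => ?_⟩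
  have e : h (t - (10 * k + 3 - x k)) = t := by rw [a2 k _ (by linarith) (by linarith)]; ring
  rw [Perm.mul_apply, Perm.mul_apply, Perm.inv_eq_iff_eq.2 e.symm,
    hx k _ (by linarith) (by linarith), e]

theorem frag {u : Pm} (hu : u ∈ PM K) :
    ∃ v ∈ PM K, Rgt v 2 ∧ Gap v ∧ Gap (v⁻¹ * u) := by
  have step : ∀ p : Pm × ℕ, ∃ q : Pm × ℕ, (p.1 ∈ PM K ∧ Lft p.1 p.2) →
      (q.1 ∈ PM K ∧ Lft q.1 q.2) ∧ (∀ t : ℝ, t ≤ p.2 + 9 → q.1 t = p.1 t) ∧
        ∃ s : ℕ, p.2 < s ∧ s + 9 < q.2 ∧ ∀ t : ℝ, s ≤ t → t ≤ s + 9 → q.1 t = u t := by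
    rintro ⟨f, y⟩
    by_cases hf : f ∈ PM K ∧ Lft f y
    · obtain ⟨s, hs⟩ := exists_nat_gt (max ((y : ℝ) + 9) (u⁻¹ (y + 9)))
      obtain ⟨z, hz⟩ := exists_nat_gt (max ((s : ℝ) + 9) (u (s + 9)))
      rw [max_lt_iff] at hs hz
      obtain ⟨k, hk, a1, a2⟩ := glue hf.1 hu hs.1 (by
        rw [hf.2 _ (by linarith)]
        simpa using hu.1 hs.2)
      obtain ⟨g, hg, a3, a4⟩ := glue hk (one_mem _) hz.1 (by rw [a2 _ (by linarith)]; exact hz.2)
      refine ⟨⟨g, z⟩, fun _ => ⟨⟨hg, a4⟩, fun t ht => ?_, s, ?_, ?_, fun t b1 b2 => ?_⟩⟩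
      · exact (a3 t (by linarith [hs.1])).trans (a1 t ht)
      · have : (y : ℝ) < s := by linarith [hs.1]
        exact_mod_cast this
      · exact_mod_cast hz.1
      · exact (a3 t b2).trans (a2 t b1)
    · exact ⟨⟨1, 0⟩, fun h => absurd h hf⟩
  choose g hg using step
  let F : ℕ → Pm × ℕ := fun n => Nat.rec ⟨1, 0⟩ (fun _ => g) n
  have hF : ∀ n, (F n).1 ∈ PM K ∧ Lft (F n).1 (F n).2 := fun n => by
    induction n with
    | zero => exact ⟨one_mem _, fun _ _ => rfl⟩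
    | succ n ih => exact (hg _ ih).1
  have h1 : ∀ n, (F n).2 < (F (n + 1)).2 := fun n => by
    obtain ⟨s, a, b, -⟩ := (hg _ (hF n)).2.2
    change _ < (g (F n)).2
    omega
  have h2 : ∀ R : ℝ, ∃ n, R < (F n).2 := fun R => by
    obtain ⟨n, hn⟩ := exists_nat_gt R
    have : n ≤ (F n).2 := (strictMono_nat_of_lt_succ h1).le_apply
    exact ⟨n, hn.trans_le (by exact_mod_cast this)⟩
  obtain ⟨v, hv, e⟩ := lim (fun n => (F n).1) (fun n => (hF n).1) (fun n => (F n).2 + 9)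
    (monotone_nat_of_le_succ fun n => by
      have : ((F n).2 : ℝ) < (F (n + 1)).2 := by exact_mod_cast h1 n
      linarith)
    (fun R => (h2 R).imp fun n hn => by linarith) (fun n => (hg _ (hF n)).2.1) fun R =>
      (h2 R).imp fun n hn => by rw [(hF n).2 _ (by linarith)]; linarith
  refine ⟨v, hv, fun t ht => e 0 t ?_, fun R => ?_, fun R => ?_⟩
  · change t ≤ (0 : ℕ) + 9
    push_cast; linarith
  · obtain ⟨n, hn⟩ := h2 R
    exact ⟨_, hn, fun t b1 b2 => (e n t b2).trans ((hF n).2 t b1)⟩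
  · obtain ⟨n, hn⟩ := h2 R
    obtain ⟨s, a, b, c⟩ := (hg _ (hF n)).2.2
    have a' : ((F n).2 : ℝ) < s := by exact_mod_cast a
    have b' : (s : ℝ) + 9 < (F (n + 1)).2 := by exact_mod_cast b
    refine ⟨s, hn.trans a', fun t b1 b2 => ?_⟩
    rw [Perm.mul_apply, Perm.inv_eq_iff_eq, e (n + 1) t (by linarith)]
    exact (c t b1 b2).symm

section Norm

variable {P : Set Pm} {c : Pm}

def Bd (K : IntermediateField ℚ ℝ) (P : Set Pm) (c : Pm) (n : ℕ) (u : Pm) : Prop :=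
  u ∈ PM K ∧ Rgt u 0 ∧ c ^ n * u ∈ P

theorem Bd.mul (hP : Tot K P) (hc : Lft c 0) {n m : ℕ} {u v : Pm} (h : Bd K P c n u)
    (h' : Bd K P c m v) : Bd K P c (n + m) (u * v) := by
  refine ⟨mul_mem h.1 h'.1, h.2.1.mul h'.2.1, ?_⟩
  have e := ((comm_LR hc h.2.1 le_rfl).pow_left m).eq
  have := hP.mul _ h.2.2 _ h'.2.2
  rwa [mul_assoc, ← mul_assoc u, ← e, mul_assoc, ← mul_assoc, ← pow_add] at this

theorem Bd.conj (hP : Tot K P) (hc : Lft c 0) {n : ℕ} {u h : Pm} (hu : Bd K P c n u)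
    (hh : h ∈ PM K) (h' : Rgt h 0) : Bd K P c n (h * u * h⁻¹) := by
  refine ⟨mul_mem (mul_mem hh hu.1) (inv_mem hh), (h'.mul hu.2.1).mul h'.inv, ?_⟩
  have e := ((comm_LR hc h' le_rfl).pow_left n).eq
  have := hP.conjPM hu.2.2 hh
  rwa [← mul_assoc, ← e, mul_assoc, mul_assoc, ← mul_assoc h] at this

theorem bd_comm (hP : Tot K P) (hc : c ∈ P) (c1 : Rgt c (-10)) (c2 : Lft c 0)
    (c3 : Mv c (-9) (-1)) {U V : Pm} (hU : Sup K U) (hV : Sup K V) :
    Bd K P c 4 (U * V * U⁻¹ * V⁻¹) := by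
  obtain ⟨w, hw, a1, a2, a3⟩ := sw (hP.sub c hc).1 c1 (fun k => by
    rcases k with _ | k
    · exact c1 _ (by simp)
    · exact c2 _ (by push_cast; linarith [(Nat.cast_nonneg k : (0 : ℝ) ≤ k)])) Inv.inv (Or.inr rfl)
  obtain ⟨z, hz⟩ : ∃ z, z = tr 10 * w * (tr 10)⁻¹ := ⟨_, rfl⟩
  rw [← hz] at a3
  have zP : z ∈ PM K := hz ▸ mul_mem (mul_mem (tr_PM ten_mem) hw) (inv_mem (tr_PM ten_mem))
  have z0 : Rgt z 0 := fun x hx => by rw [hz, conj_tr, a1 _ (by linarith)]; ring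
  have e : c = w * z := by rw [a3]; simp
  have wP : w ∈ P := by
    refine (hP.total w ⟨hw, _, a1⟩ ?_).resolve_right fun h => ?_
    · rintro rfl
      rw [hz] at e
      exact hP.one (by simpa [e] using hc)
    · have := hP.mul _ (hP.conjPM h (tr_PM ten_mem)) _ h
      refine hP.not_inv hc ?_
      rwa [e, hz, show (w * (tr 10 * w * (tr 10)⁻¹))⁻¹ = tr 10 * w⁻¹ * (tr 10)⁻¹ * w⁻¹ by group]
  have b1 : Bd K P c 1 z := ⟨zP, z0, by
    rw [pow_one]; exact hP.mul _ hc _ (hz ▸ hP.conjPM wP (tr_PM ten_mem))⟩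
  have b2 : Bd K P c 1 z⁻¹ := ⟨inv_mem zP, z0.inv, by rwa [pow_one, ← a3]⟩
  have mv : ∀ k : ℕ, Mv w (-9 + 10 * k) (-1 + 10 * k) := by
    intro k
    induction k with
    | zero =>
      intro x h1 h2
      simp only [Nat.cast_zero, mul_zero, add_zero] at h1 h2 ⊢
      rw [a3, Perm.mul_apply, z0.inv x (by linarith)]
      exact c3 x h1 h2
    | succ k ih =>
      intro x h1 h2
      have k0 : (0 : ℝ) ≤ k := Nat.cast_nonneg k
      have := (ih.tr 10).inv x (by push_cast at h1; linarith) (by push_cast at h2; linarith)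
      rw [← hz] at this
      rw [a3, Perm.mul_apply, c2 _ (by
        rw [← z0.inv 0 le_rfl]
        exact (inv_mem zP).1.monotone (by push_cast at h1; linarith))]
      push_cast
      exact fun h => this ⟨by linarith [h.1], by linarith [h.2]⟩
  have fx : ∀ k : ℕ, z (10 * k) = 10 * k := fun k => by
    rw [hz, conj_tr, show (10 : ℝ) * k - 10 = -10 + 10 * k by ring, a2]; ring
  have dd : ∀ x, D x → ¬ D (z⁻¹ x) := by
    rintro x ⟨k, h1, h2⟩ ⟨j, h3, h4⟩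
    have h5 : z (10 * j) < z (z⁻¹ x) := zP.1 (by linarith)
    have h6 : z (z⁻¹ x) < z (10 * (j + 1 : ℕ)) := zP.1 (by push_cast; linarith)
    rw [fx, show z (z⁻¹ x) = x by simp] at h5 h6
    have h7 : (j : ℝ) < k + 1 := by linarith
    have h8 : (k : ℝ) < (j + 1 : ℕ) := by linarith
    obtain rfl : j = k := by
      have h7' : j < k + 1 := by exact_mod_cast h7
      have h8' : k < j + 1 := by exact_mod_cast h8
      omega
    have := ((mv j).tr 10).inv x (by linarith) (by linarith)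
    rw [← hz] at this
    exact this ⟨by linarith, by linarith⟩
  have cm : Commute V (z * U⁻¹ * z⁻¹) := Perm.Disjoint.commute fun x => by
    by_cases h : D x
    · right
      rw [Perm.mul_apply, Perm.mul_apply, Perm.inv_eq_iff_eq.2 (hU.2 _ (dd x h)).symm]
      simp
    · exact Or.inl (hV.2 x h)
  have := ((b1.conj hP c2 hU.1 hU.rgt).mul hP c2 b2).mul hP c2
    ((b1.mul hP c2 (b2.conj hP c2 hU.1 hU.rgt)).conj hP c2 hV.1 hV.rgt)
  refine (congrArg (Bd K P c 4) ?_).mp this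
  calc _ = U * (z * U⁻¹ * z⁻¹ * V) * (z * U⁻¹ * z⁻¹)⁻¹ * U⁻¹ * V⁻¹ := by group
    _ = _ := by rw [← cm.eq]; group

theorem bd_disc (hP : Tot K P) (hc : c ∈ P) (c1 : Rgt c (-10)) (c2 : Lft c 0)
    (c3 : Mv c (-9) (-1)) {Z : Pm} (hZ : Disc K Z) : Bd K P c 8 Z := by
  obtain ⟨V, hV, v1⟩ := exists_V (K := K)
  obtain ⟨Y, hY, a1, -, a3⟩ := sw hZ.1 (hZ.2.1.mono zero_le_two) (fun k => by
    rcases k with _ | k
    · exact hZ.2.1 _ (by simp)
    · exact hZ.2.2 k _ (by push_cast; linarith) (by push_cast; linarith)) id (Or.inl rfl)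
  have b3 : ∀ x, Y x = Z (Y (x - 10) + 10) := fun x => by
    conv_lhs => rw [a3]
    rw [Perm.mul_apply, id, conj_tr]
  have y1 : Rgt Y 2 := fun x hx => by rw [b3, a1 _ (by linarith), sub_add_cancel, hZ.2.1 x hx]
  have y2 : ∀ (k : ℕ) (x : ℝ), 10 * k + 3 ≤ x → x ≤ 10 * k + 12 → Y x = x := by
    intro k
    induction k with
    | zero =>
      intro x h1 h2
      rw [b3, y1 _ (by simp at h2; linarith), sub_add_cancel, hZ.2.2 0 x h1 h2]
    | succ k ih =>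
      intro x h1 h2
      rw [b3, ih _ (by push_cast at h1; linarith) (by push_cast at h2; linarith), sub_add_cancel,
        hZ.2.2 _ x h1 h2]
  have sY : Sup K Y := ⟨hY, fun x hx => by
    rcases cover x with h | ⟨k, h | h⟩
    · exact y1 x h
    · exact absurd ⟨k, by linarith [h.1], by linarith [h.2]⟩ hx
    · exact y2 k x h.1 h.2⟩
  have e1 : V * Y⁻¹ * V⁻¹ = tr 5 * Y⁻¹ * (tr 5)⁻¹ := conj_eq fun x => by
    rcases cover x with h | ⟨k, h | h⟩
    · exact Or.inl (y1.inv x h)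
    · exact Or.inr (v1 k x h.1 h.2)
    · exact Or.inl (Perm.inv_eq_iff_eq.2 (y2 k x h.1 h.2).symm)
  have h5 : (5 : ℝ) ∈ K := by simpa using rat_mem (K := K) 5
  obtain ⟨S, hS, s1, s2⟩ := glue (one_mem _) (tr_PM h5) (p := 0) (q := 1) (by norm_num)
    (by simp; norm_num)
  have b := bd_comm hP hc c1 c2 c3 sY hV
  rw [mul_assoc, mul_assoc, ← mul_assoc V, e1] at b
  have r : Rgt (Y * (tr 5 * Y⁻¹ * (tr 5)⁻¹)) 1 := (y1.mono one_le_two).mul fun x hx => by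
    rw [conj_tr, y1.inv _ (by linarith)]; ring
  have b' := b.conj hP c2 hS s1
  rw [conj_eq (f := tr 5) fun x => (le_total x 1).imp (r x) (s2 x)] at b'
  refine (congrArg (Bd K P c 8) ?_).mp (b.mul hP c2 b')
  have e2 : tr 10 = tr 5 * tr 5 := Equiv.ext fun x => by simp [Perm.mul_apply]; ring
  have e3 : Z = Y * (tr 10 * Y * (tr 10)⁻¹)⁻¹ := by
    rw [eq_mul_inv_iff_mul_eq]; exact a3.symm
  rw [e3, e2]; simp only [mul_inv_rev, inv_inv, mul_assoc, inv_mul_cancel_left]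

theorem bd_all (hP : Tot K P) (hc : c ∈ P) (c1 : Rgt c (-10)) (c2 : Lft c 0)
    (c3 : Mv c (-9) (-1)) {u : Pm} (hu : u ∈ PM K) (u2 : Rgt u 2) : c * u ∈ P := by
  have gap : ∀ u ∈ PM K, Rgt u 2 → Gap u → Bd K P c 8 u := fun u hu h1 h2 => by
    obtain ⟨h, hh, a1, a2⟩ := gap_disc hu h1 h2
    have := (bd_disc hP hc c1 c2 c3 a2).conj hP c2 (inv_mem hh) (a1.inv.mono zero_le_two)
    rwa [show h⁻¹ * (h * u * h⁻¹) * h⁻¹⁻¹ = u by group] at this
  have all : ∀ u ∈ PM K, Rgt u 2 → Bd K P c 16 u := fun u hu h1 => by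
    obtain ⟨v, hv, a1, a2, a3⟩ := frag hu
    simpa using (gap v hv a1 a2).mul hP c2 (gap _ (mul_mem (inv_mem hv) hu) (a1.inv.mul h1) a3)
  have r : ∀ n : ℕ, Rgt (u ^ n) 2 := fun n => by
    induction n with
    | zero => exact fun _ _ => rfl
    | succ n ih => rw [pow_succ]; exact ih.mul u2
  have := (all _ (pow_mem hu 16) (r 16)).2.2
  rw [← (comm_LR c2 u2 zero_le_two).mul_pow] at this
  refine (hP.total _ (mul_mem (hP.sub c hc) ⟨hu, _, u2⟩) ?_).resolve_right fun h => ?_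
  · intro e
    rw [e, one_pow] at this
    exact hP.one this
  · exact hP.not_inv this (by rw [← inv_pow]; exact hP.pow h 15)

end Norm

theorem exists_mv {c : Pm} (hc : StrictMono c) {x : ℝ} (hx : c x ≠ x) :
    ∃ p, p < x ∧ (c x < p ∨ c⁻¹ x < p) := by
  rcases lt_or_gt_of_ne hx with h | h
  · exact ⟨(c x + x) / 2, by linarith, Or.inl (by linarith)⟩
  · have : c⁻¹ x < x := by rw [← hc.lt_iff_lt]; simpa using h
    exact ⟨(c⁻¹ x + x) / 2, by linarith, Or.inr (by linarith)⟩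

theorem interp {f : Pm} (hf : f ∈ PM K) {p : ℝ} {q : ℚ} (hpq : p < q) {y : ℝ} (hy : f p < y) :
    ∃ g ∈ PM K, (∀ x, x ≤ p → g x = f x) ∧ g q < y := by
  obtain ⟨r, h1, h2⟩ := exists_rat_btwn hy
  obtain ⟨g, hg, a1, a2⟩ := glue hf (tr_PM (rat_mem (r - q))) hpq (by simpa using h1)
  exact ⟨g, hg, a1, by rw [a2 _ le_rfl]; simpa using h2⟩

theorem interp' {f : Pm} (hf : f ∈ PM K) {p : ℝ} {q : ℚ} (hpq : p < q) {y y' : ℝ} (hy : y < y')
    (hy' : f p < y') : ∃ g ∈ PM K, (∀ x, x ≤ p → g x = f x) ∧ y < g q ∧ g q < y' := by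
  obtain ⟨r, h1, h2⟩ := exists_rat_btwn (max_lt hy hy')
  rw [max_lt_iff] at h1
  obtain ⟨g, hg, a1, a2⟩ := glue hf (tr_PM (rat_mem (r - q))) hpq (by simpa using h1.2)
  exact ⟨g, hg, a1, by rw [a2 _ le_rfl]; simpa using h1.1, by rw [a2 _ le_rfl]; simpa using h2⟩

theorem T2 {P : Set Pm} (hP : Tot K P) {c u : Pm} (hc : c ∈ P) {β β' : ℝ} (h1 : Lft c β)
    (h2 : β < β') (hu : u ∈ PM K) (h3 : Rgt u β') : c * u ∈ P := by
  obtain ⟨cP, a, ha⟩ := hP.sub c hc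
  obtain ⟨x, hx⟩ : ∃ x, c x ≠ x := by
    by_contra h
    push Not at h
    exact hP.one ((Equiv.ext h : c = 1) ▸ hc)
  obtain ⟨p, hp, hp'⟩ := exists_mv cP.1 hx
  have xβ : x < β := not_le.1 fun h => hx (h1 x h)
  obtain ⟨r, hr⟩ := exists_rat_lt (min a p + 10)
  have r1 : tr r (-10) < a := by simp; linarith [min_le_left a p]
  have r2 : tr r (-10) < p := by simp; linarith [min_le_right a p]
  obtain ⟨f1, g1, a1, a2, a3⟩ := interp' (tr_PM (K := K) (rat_mem r)) (p := -10) (q := -9)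
    (by norm_num) hp (r2.trans hp)
  obtain ⟨f2, g2, b1, b2⟩ := interp g1 (p := (-9 : ℚ)) (q := -1) (by norm_num) a3
  obtain ⟨f3, g3, c1, c2, c3⟩ := interp' g2 (p := (-1 : ℚ)) (q := 0) (by norm_num) h2
    (b2.trans (xβ.trans h2))
  obtain ⟨F, hF, d1, d2⟩ := interp g3 (p := (0 : ℚ)) (q := 2) (by norm_num) c3
  push_cast at *
  have F1 : F (-10) < a := by
    rw [d1 _ (by norm_num), c1 _ (by norm_num), b1 _ (by norm_num), a1 _ le_rfl]; exact r1
  have F2 : p < F (-9) := by rw [d1 _ (by norm_num), c1 _ (by norm_num), b1 _ le_rfl]; exact a2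
  have F3 : F (-1) < x := by rw [d1 _ (by norm_num), c1 _ le_rfl]; exact b2
  have F4 : β < F 0 := by rw [d1 _ le_rfl]; exact c2
  have m := mono_inv hF.1
  have key := bd_all hP (hP.conjPM hc (inv_mem hF))
    (by simpa using (ha.mono F1.le).conj m) (by simpa using (h1.mono F4.le).conj m) (by
      have mv : Mv c p x := by
        rcases hp' with h | h
        · exact fun t _ t2 t3 => absurd (cP.1.monotone t2) (by linarith [t3.1])
        · exact (show Mv c⁻¹ p x from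
            fun t _ t2 t3 => absurd ((mono_inv cP.1).monotone t2) (by linarith [t3.1])).inv
      intro t t1 t2 t3
      refine mv (F t) (F2.le.trans (hF.1.monotone t1)) ((hF.1.monotone t2).trans F3.le) ⟨?_, ?_⟩
      · simpa using F2.le.trans (hF.1.monotone t3.1)
      · simpa using (hF.1.monotone t3.2).trans F3.le)
    (mul_mem (mul_mem (inv_mem hF) hu) (inv_mem (inv_mem hF)))
    (by simpa using (h3.mono d2.le).conj m)
  have := hP.conjPM key hF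
  rwa [show F * (F⁻¹ * c * F⁻¹⁻¹ * (F⁻¹ * u * F⁻¹⁻¹)) * F⁻¹ = c * u by group] at this

theorem exists_bump {p q : ℝ} (h : p < q) : ∃ w ∈ PM K, Rgt w p ∧ Lft w q ∧ w ≠ 1 := by
  obtain ⟨r, r1, r2⟩ := exists_rat_btwn (show 0 < (q - p) / 2 by linarith)
  obtain ⟨k, hk, a1, a2⟩ := glue (one_mem _) (tr_PM (K := K) (rat_mem r)) (p := p) (q := (p + q) / 2)
    (by linarith) (by simp; linarith)
  obtain ⟨w, hw, a3, a4⟩ := glue hk (one_mem _) (p := (p + q) / 2) (q := q) (by linarith)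
    (by rw [a2 _ le_rfl]; simp; linarith)
  refine ⟨w, hw, fun x hx => by rw [a3 x (by linarith), a1 x hx]; rfl, a4, ?_⟩
  rintro rfl
  have := a3 _ le_rfl
  rw [a2 _ le_rfl] at this
  simp at this
  simp [this] at r1

theorem T1 {P : Set Pm} (hP : Tot K P) {f u : Pm} (hf : f ∈ P) {x β : ℝ} (hx : f x ≠ x)
    (h2 : x < β) (hu : u ∈ PM K) (h3 : Rgt u β) : f * u ∈ P := by
  have fP := (hP.sub f hf).1
  obtain ⟨p, hp, hp'⟩ := exists_mv fP.1 hx
  obtain ⟨w, hw, w1, w2⟩ : ∃ w ∈ P, Rgt w p ∧ Lft w x := by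
    obtain ⟨w, hw, w1, w2, w3⟩ := exists_bump (K := K) hp
    rcases hP.total w ⟨hw, _, w1⟩ w3 with h | h
    · exact ⟨w, h, w1, w2⟩
    · exact ⟨_, h, w1.inv, w2.inv⟩
  have wP := (hP.sub w hw).1
  have t := T2 hP hw w2 h2 hu h3
  by_cases e : f * w⁻¹ = 1
  · rwa [mul_inv_eq_one.1 e]
  rcases hP.total _ (mul_mem (hP.sub f hf) (inv_mem (hP.sub w hw))) e with h | h
  · simpa [mul_assoc] using hP.mul _ h _ t
  exfalso
  rcases hp' with h' | h'
  · refine hP.not_inv (T2 hP (hP.conjPM hw fP) (w2.conj fP.1) h' (inv_mem (mul_mem wP wP))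
      (w1.mul w1).inv) ?_
    have := hP.mul _ h _ (hP.conjPM (hP.conjPM hf wP) fP)
    refine (congrArg (· ∈ P) ?_).mp this
    simp only [mul_inv_rev, inv_inv, mul_assoc, inv_mul_cancel_left]
  · refine hP.not_inv (T2 hP (hP.conjPM hw (inv_mem fP)) (w2.conj (mono_inv fP.1)) h'
      (inv_mem (mul_mem wP wP)) (w1.mul w1).inv) ?_
    have := hP.mul _ (hP.conjPM h wP) _ hf
    refine (congrArg (· ∈ P) ?_).mp this
    simp only [mul_inv_rev, inv_inv, mul_assoc, inv_mul_cancel_left]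

end Pool.Agent.H22.Ord
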