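import Pool.Agent.H22.Ord2

set_option autoImplicit false

namespace Pool.Agent.H22.Ord

open Equiv Filter Topology Set Pool.Agent.H22.OStar

variable {K : IntermediateField ℚ ℝ}

def Par (f : Pm) (α c : ℝ) : Prop :=
  Rgt f α ∧ ∀ᶠ x in 𝓝[≥] α, (f x - α) * (1 + c * (x - α)) = x - α

theorem Par.mul {f g : Pm} {α c c' : ℝ} (h : Par f α c) (h' : Par g α c') (hg : StrictMono g) :
    Par (f * g) α (c + c') := by
  refine ⟨h.1.mul h'.1, ?_⟩
  have := tend_ge hg α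
  rw [h'.1 α le_rfl] at this
  refine ((this.eventually h.2).and h'.2).mono fun x hx => ?_
  rw [Perm.mul_apply]
  linear_combination (1 + c' * (x - α)) * hx.1 + (1 - c * (f (g x) - α)) * hx.2

theorem Par.inv {f : Pm} {α c : ℝ} (h : Par f α c) (hf : StrictMono f) : Par f⁻¹ α (-c) := by
  refine ⟨h.1.inv, ?_⟩
  have := tend_ge (mono_inv hf) α
  rw [h.1.inv α le_rfl] at this
  refine (this.eventually h.2).mono fun x hx => ?_
  rw [show f (f⁻¹ x) = x by simp] at hx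
  linear_combination -hx

theorem par_zero {f : Pm} {α β : ℝ} (h : Rgt f β) (hα : α < β) : Par f α 0 :=
  ⟨h.mono hα.le, mem_of_superset (Icc_mem_nhdsGE hα) fun x hx => by simp [h x hx.2]⟩

theorem Par.rgt {f : Pm} {α : ℝ} (h : Par f α 0) : ∃ β, α < β ∧ Rgt f β := by
  obtain ⟨β, h1, h2⟩ := mem_nhdsGE_iff_exists_Icc_subset.1 h.2
  refine ⟨β, h1, fun x hx => (le_total x α).elim (h.1 x) fun h3 => ?_⟩
  simpa using h2 ⟨h3, hx⟩

theorem Par.unique {f : Pm} {α c c' : ℝ} (h : Par f α c) (h' : Par f α c') : c = c' := by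
  obtain ⟨β, h1, h2⟩ := mem_nhdsGE_iff_exists_Icc_subset.1 (h.2.and h'.2)
  obtain ⟨h3, h4⟩ := h2 ⟨le_of_lt h1, le_rfl⟩
  have h5 : β - α ≠ 0 := sub_ne_zero.2 (ne_of_gt h1)
  have h6 : f β - α ≠ 0 := fun e => h5 (by rw [← h3, e, zero_mul])
  exact mul_right_cancel₀ h5 (add_left_cancel (mul_left_cancel₀ h6 (h3.trans h4.symm)))

theorem Par.unique' {f : Pm} {α β c c' : ℝ} (h : Par f α c) (h' : Par f β c') (h1 : c ≠ 0)
    (h2 : c' ≠ 0) : c = c' := by
  rcases lt_trichotomy α β with h3 | rfl | h3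
  · exact absurd (h.unique (par_zero h'.1 h3)) h1
  · exact h.unique h'
  · exact absurd (h'.unique (par_zero h.1 h3)) h2

theorem Par.moves {f : Pm} {α β c : ℝ} (h : Par f α c) (h1 : c ≠ 0) (h2 : α < β) :
    ∃ x, x < β ∧ f x ≠ x := by
  by_contra h3
  push Not at h3
  exact h1 (h.unique (par_zero (β := (α + β) / 2) (fun x hx => h3 x (by linarith)) (by linarith)))

theorem Par.conj {f F : Pm} {α c δ : ℝ} (h : Par f α c) (hf : StrictMono f) (hF : StrictMono F)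
    (hs : Sm K F α δ) : Par (F * f * F⁻¹) (F α) (δ ^ 2 * c) := by
  refine ⟨h.1.conj hF, ?_⟩
  obtain ⟨M, -, e, -, h1, -⟩ := hs
  have h0 := ev_ge h1
  have key : ∀ x, On M F x → (F x - F α) * δ * (δ + M.c * (x - α)) = x - α := fun x hx => by
    have a1 := hx.2
    have a2 := h0.2
    rw [e] at a2
    simp only [Mo.den] at a1 e
    linear_combination δ * a1 - (δ + M.c * (x - α)) * a2 + (x - α) * M.det -
      (F x * δ + M.a * α + M.b + M.a * (x - α) - (M.a * x + M.b) - M.a * α + M.a * x) * e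
  have t1 := tend_ge hf α
  rw [h.1 α le_rfl] at t1
  have t2 := tend_ge (mono_inv hF) (F α)
  rw [show F⁻¹ (F α) = α by simp] at t2
  refine (t2.eventually ((h1.and (t1.eventually h1)).and h.2)).mono fun y hy => ?_
  obtain ⟨x, rfl⟩ := F.surjective y
  rw [Perm.mul_apply, Perm.mul_apply]
  rw [show F⁻¹ (F x) = x by simp] at hy ⊢
  have a1 := key _ hy.1.1
  have a2 := key _ hy.1.2
  have a3 : δ * (δ + M.c * (x - α)) ≠ 0 := by
    refine mul_ne_zero (e ▸ h0.1.ne') ?_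
    have := hy.1.1.1
    simp only [Mo.den] at this e
    linarith
  refine mul_right_cancel₀ a3 ?_
  linear_combination ((F (f x) - F α) * δ ^ 2 * c - 1) * a1 + (1 + c * (x - α)) * a2 +
    (1 - (F (f x) - F α) * δ * M.c) * hy.2

theorem exists_par {g : Pm} (hg : g ∈ GG K) (h1 : g ≠ 1) :
    ∃ α ∈ K, ∃ c ∈ K, c ≠ 0 ∧ Par g α c := by
  obtain ⟨hP, a, hr⟩ := hg
  have hm := hP.1
  have hne : {x | g x ≠ x}.Nonempty := by
    by_contra h
    refine h1 (Equiv.ext fun x => ?_)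
    by_contra hx
    exact h ⟨x, hx⟩
  have hbd : BddBelow {x | g x ≠ x} := ⟨a, fun x hx => by
    by_contra h
    exact hx (hr x (not_le.1 h).le)⟩
  obtain ⟨p, hp⟩ : ∃ p, p = sInf {x | g x ≠ x} := ⟨_, rfl⟩
  have h2 : ∀ x, x < p → g x = x := fun x hx => by
    by_contra h
    exact absurd (csInf_le hbd h) (not_le.2 (hp ▸ hx))
  have h3 : g p = p := by
    rcases lt_trichotomy (g p) p with h | h | h
    · exact g.injective (h2 _ h)
    · exact h
    · have h4 : g⁻¹ p < p := by rw [← hm.lt_iff_lt]; simpa using h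
      have h5 := h2 _ h4
      rw [show g (g⁻¹ p) = p by simp] at h5
      exact absurd h5 h4.ne'
  have h4 : Rgt g p := fun x hx => hx.lt_or_eq.elim (h2 x) fun h => h ▸ h3
  obtain ⟨M, N, e, m1, m2⟩ := hP.2 p
  have e1 : N.den p = 1 := by
    obtain ⟨l, l1, l2⟩ := mem_nhdsLE_iff_exists_Icc_subset.1 m2
    have l1' : l < p := l1
    have a1 := (l2 ⟨le_rfl, l1'.le⟩).2
    have a2 := (l2 (show (l + p) / 2 ∈ Icc l p from ⟨by linarith, by linarith⟩)).2
    have a3 := (ev_le m2).2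
    have a4 := (ev_le m2).1
    rw [h4 _ l1'.le] at a1
    rw [h4 _ (by linarith)] at a2
    rw [h3] at a3
    have det := N.det
    simp only [Mo.den] at a1 a2 a3 a4 ⊢
    have hl : p - l ≠ 0 := by linarith
    have c0 : N.c = 0 := by
      have : N.c * ((p - l) * (p - l)) = 0 := by linear_combination 2 * a1 - 4 * a2 + 2 * a3
      exact (mul_eq_zero.1 this).resolve_right (mul_ne_zero hl hl)
    rw [c0] at a1 a3 a4 det ⊢
    have d0 : N.d = N.a := mul_right_cancel₀ hl (by linear_combination a3 - a1)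
    rw [← d0] at det
    nlinarith
  rw [e1] at e
  have a3 := (ev_ge m1).2
  rw [h3, e] at a3
  have par : Par g p M.c := ⟨h4, m1.mono fun x hx => by
    have a1 := hx.2
    simp only [Mo.den] at a1 e
    linear_combination a1 - a3 + (x - p) * M.det - M.c * (x - p) * a3 - (g x + M.a * (x - p)) * e⟩
  have c0 : M.c ≠ 0 := fun c0 => by
    obtain ⟨β, b1, b2⟩ := (c0 ▸ par).rgt
    have : β ≤ sInf {x | g x ≠ x} := le_csInf hne fun x hx => by
      by_contra h5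
      exact hx (b2 x (not_le.1 h5).le)
    linarith
  refine ⟨p, ?_, M.c, M.hc, c0, par⟩
  have : p = (1 - M.d) / M.c := by
    rw [eq_div_iff c0, ← e, Mo.den]; ring
  exact this ▸ div_mem (sub_mem (one_mem _) M.hd) M.hc

theorem sm_tr {t : ℝ} (ht : t ∈ K) (p : ℝ) : Sm K (tr t) p 1 :=
  ⟨Mo.tr t ht, Mo.tr t ht, by simp [Mo.den, Mo.tr], by simp [Mo.den, Mo.tr],
    Eventually.of_forall (on_tr t ht), Eventually.of_forall (on_tr t ht)⟩

theorem par_exists {c : ℝ} (hc : c ∈ K) : ∃ f ∈ GG K, Par f 0 c := by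
  obtain ⟨L, l1, l2⟩ := exists_rat_btwn (show 0 < 1 / (|c| + 1) by positivity)
  have l3 : 0 < 1 + c * L := by
    rw [lt_div_iff₀ (by positivity)] at l2
    nlinarith [neg_abs_le c]
  obtain ⟨k, hk, a1, -, a2, -, a3⟩ := arc (zero_mem K) (rat_mem L) (zero_mem _) (one_mem _)
    (add_mem (one_mem _) (mul_mem hc (rat_mem L))) l1 one_pos l3 rfl
  obtain ⟨f, hf, b1, b2⟩ := glue1 (tr_PM (zero_mem _)) hk (by simp [a1]) (sm_tr (zero_mem _) 0) a2
  have r : Rgt f 0 := fun x hx => by simpa using b1 x hx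
  refine ⟨f, ⟨hf, 0, r⟩, r, mem_of_superset (Icc_mem_nhdsGE l1) fun x hx => ?_⟩
  have : 0 < 1 + c * x := by
    rcases le_total 0 c with h | h
    · nlinarith [mul_nonneg h hx.1]
    · nlinarith [mul_nonneg_of_nonpos_of_nonpos h (sub_nonpos.2 hx.2)]
  have e : (1 + c * L - 1) / (L - 0) = c := by field_simp; ring
  change (f x - 0) * _ = _
  rw [b2 x hx.1, a3 x hx.1 hx.2, e]
  simp only [sub_zero, zero_add, one_mul]
  exact div_mul_cancel₀ _ this.ne'

structure SO {F : Type*} [Field F] (Q : Set F) : Prop where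
  add : ∀ a ∈ Q, ∀ b ∈ Q, a + b ∈ Q
  sq : ∀ a ∈ Q, ∀ δ, δ ≠ 0 → δ ^ 2 * a ∈ Q
  zero : 0 ∉ Q
  total : ∀ a, a ≠ 0 → a ∈ Q ∨ -a ∈ Q

def PQ (Q : Set K) : Set Pm := {f | f ∈ GG K ∧ ∃ α ∈ K, ∃ c ∈ Q, Par f α c}

theorem PQ_tot {Q : Set K} (h : SO Q) : Tot K (PQ Q) where
  sub _ h := h.1
  mul := by
    rintro f ⟨hf, α, hα, c, hc, h1⟩ g ⟨hg, β, hβ, c', hc', h2⟩
    refine ⟨mul_mem hf hg, ?_⟩
    rcases lt_trichotomy α β with h3 | rfl | h3
    · exact ⟨α, hα, c, hc, by simpa using h1.mul (par_zero h2.1 h3) hg.1.1⟩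
    · exact ⟨α, hα, _, h.add _ hc _ hc', h1.mul h2 hg.1.1⟩
    · exact ⟨β, hβ, c', hc', by simpa using (par_zero h1.1 h3).mul h2 hg.1.1⟩
  conj := by
    rintro f ⟨hf, α, hα, c, hc, h1⟩ y hy
    obtain ⟨a1, δ, a2, a3, a4⟩ := sm_at hy.1 hα
    exact ⟨mul_mem (mul_mem hy hf) (inv_mem hy), _, a1, _,
      h.sq c hc ⟨δ, a2⟩ (fun e => a3.ne' (congrArg Subtype.val e)), h1.conj hf.1.1 hy.1.1 a4⟩
  one := by
    rintro ⟨-, α, -, c, hc, h1⟩
    have : c = 0 := Subtype.ext (h1.unique (par_zero (β := α + 1) (fun _ _ => rfl) (lt_add_one α)))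
    exact h.zero (this ▸ hc)
  total a ha h1 := by
    obtain ⟨α, hα, c, hc, h2, h3⟩ := exists_par ha h1
    rcases h.total ⟨c, hc⟩ (fun e => h2 (congrArg Subtype.val e)) with h4 | h4
    · exact Or.inl ⟨ha, α, hα, _, h4, h3⟩
    · exact Or.inr ⟨inv_mem ha, α, hα, _, h4, h3.inv ha.1.1⟩

theorem PQ_inj {Q Q' : Set K} (h : SO Q) (h' : SO Q') (e : PQ Q ⊆ PQ Q') : Q ⊆ Q' := by
  intro c hc
  obtain ⟨f, hf, h1⟩ := par_exists c.2
  obtain ⟨-, α, -, c', hc', h2⟩ := e ⟨hf, 0, zero_mem _, c, hc, h1⟩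
  have : c = c' := Subtype.ext (h1.unique' h2 (fun e => h.zero ((Subtype.ext e : c = 0) ▸ hc))
    fun e => h'.zero ((Subtype.ext e : c' = 0) ▸ hc'))
  exact this ▸ hc'

theorem Tot.same {P : Set Pm} (hP : Tot K P) {f g : Pm} (hf : f ∈ P) (hg : g ∈ PM K) {α c : ℝ}
    (h1 : Par f α c) (h2 : Par g α c) (hc : c ≠ 0) : g ∈ P := by
  have fP := (hP.sub f hf).1
  obtain ⟨β, b1, b2⟩ := Par.rgt (by simpa using (h1.inv fP.1).mul h2 hg.1)
  obtain ⟨x, x1, x2⟩ := h1.moves hc b1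
  simpa using T1 hP hf x2 x1 (mul_mem (inv_mem fP) hg) b2

theorem Tot.exists_SO {P : Set Pm} (hP : Tot K P) : ∃ Q : Set K, SO Q ∧ P = PQ Q := by
  have hQ : SO {c : K | c ≠ 0 ∧ ∃ f ∈ P, Par f 0 c} := by
    refine ⟨?_, ?_, fun h => h.1 rfl, fun c hc => ?_⟩
    · rintro a ⟨ha, f, hf, h1⟩ b ⟨-, g, hg, h2⟩
      refine ⟨fun e => ?_, _, hP.mul _ hf _ hg, h1.mul h2 (hP.sub _ hg).1.1⟩
      have e' : -(b : ℝ) = a := by
        rw [show a = -b from eq_neg_of_add_eq_zero_left e]; rfl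
      exact hP.not_inv hg (hP.same hf (inv_mem (hP.sub _ hg).1) h1 (e' ▸ h2.inv (hP.sub _ hg).1.1)
        fun e => ha (Subtype.ext e))
    · rintro a ⟨ha, f, hf, h1⟩ δ hδ
      have d0 : 0 < |(δ : ℝ)| := abs_pos.2 fun e => hδ (Subtype.ext e)
      have dK : |(δ : ℝ)| ∈ K := by
        rcases abs_choice (δ : ℝ) with h | h <;> rw [h]
        · exact δ.2
        · exact neg_mem δ.2
      obtain ⟨k, hk, a1, -, a2, -⟩ := arc (zero_mem K) (one_mem K) (zero_mem _) dK dK one_pos d0 d0 rfl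
      have := h1.conj (hP.sub _ hf).1.1 hk.1 a2
      rw [a1, sq_abs] at this
      exact ⟨mul_ne_zero (pow_ne_zero _ hδ) ha, _, hP.conjPM hf hk, this⟩
    · obtain ⟨f, hf, h1⟩ := par_exists c.2
      rcases hP.total f hf (by
        rintro rfl
        exact hc (Subtype.ext (h1.unique (par_zero (β := 1) (fun _ _ => rfl) one_pos)))) with h | h
      · exact Or.inl ⟨hc, f, h, h1⟩
      · exact Or.inr ⟨neg_ne_zero.2 hc, _, h, h1.inv hf.1.1⟩
  have sub : P ⊆ PQ {c : K | c ≠ 0 ∧ ∃ f ∈ P, Par f 0 c} := fun f hf => by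
    obtain ⟨α, hα, c, hc, h2, h3⟩ := exists_par (hP.sub f hf) (by rintro rfl; exact hP.one hf)
    refine ⟨hP.sub f hf, α, hα, ⟨c, hc⟩, ⟨fun e => h2 (congrArg Subtype.val e), _,
      hP.conjPM hf (tr_PM (neg_mem hα)), ?_⟩, h3⟩
    simpa using h3.conj (hP.sub f hf).1.1 (tr_PM (neg_mem hα)).1 (sm_tr (neg_mem hα) α)
  refine ⟨_, hQ, sub.antisymm fun f hf => ?_⟩
  have t := PQ_tot hQ
  exact (hP.total f hf.1 (by rintro rfl; exact t.one hf)).resolve_right fun h => t.not_inv hf (sub h)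

def ord (Q : Set K) (a b : GG K) : Prop := a = b ∨ ((a⁻¹ * b : GG K) : Pm) ∈ PQ Q

theorem ord_spec {Q : Set K} (h : SO Q) : IsLinearOrder (GG K) (ord Q) ∧
    ∀ a b c d : GG K, ord Q a b → ord Q (c * a * d) (c * b * d) := by
  have t := PQ_tot h
  refine ⟨{ refl := fun _ => Or.inl rfl, trans := ?_, antisymm := ?_, total := ?_ }, ?_⟩
  · rintro a b c (rfl | h) (rfl | h')
    · exact Or.inl rfl
    · exact Or.inr h'
    · exact Or.inr h
    · exact Or.inr (by simpa [mul_assoc] using t.mul _ h _ h')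
  · rintro a b (rfl | h) (h' | h')
    · rfl
    · rfl
    · exact h'.symm
    · exact absurd (by simpa [mul_assoc] using t.mul _ h _ h') t.one
  · intro a b
    by_cases h : a = b
    · exact Or.inl (Or.inl h)
    · rcases t.total _ (a⁻¹ * b).2 (fun h' => h (inv_mul_eq_one.1 (Subtype.ext h'))) with h' | h'
      · exact Or.inl (Or.inr h')
      · exact Or.inr (Or.inr (by simpa using h'))
  · rintro a b c d (rfl | h)
    · exact Or.inl rfl
    · exact Or.inr (by simpa [mul_assoc] using t.conj _ h _ (d⁻¹).2)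

theorem ord_inj {Q Q' : Set K} (h : SO Q) (h' : SO Q') (e : ord Q = ord Q') : Q = Q' := by
  have key : ∀ {Q Q' : Set K}, SO Q → SO Q' → ord Q = ord Q' → Q ⊆ Q' := fun h h' e =>
    PQ_inj h h' fun f hf => by
      have : ord _ 1 ⟨f, hf.1⟩ := Or.inr (by simpa using hf)
      rw [e] at this
      rcases this with h1 | h1
      · obtain rfl : 1 = f := congrArg Subtype.val h1
        exact absurd hf (PQ_tot h).one
      · simpa using h1
  exact (key h h' e).antisymm (key h' h e.symm)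

theorem ord_surj (r : GG K → GG K → Prop) (h1 : IsLinearOrder (GG K) r)
    (h2 : ∀ a b c d : GG K, r a b → r (c * a * d) (c * b * d)) : ∃ Q, SO Q ∧ r = ord Q := by
  have t : Tot K (Subtype.val '' {x : GG K | r 1 x ∧ x ≠ 1}) := by
    refine ⟨?_, ?_, ?_, ?_, fun a ha h => ?_⟩
    · rintro _ ⟨a, -, rfl⟩
      exact a.2
    · rintro _ ⟨a, ha, rfl⟩ _ ⟨b, hb, rfl⟩
      have h3 : r a (a * b) := by simpa using h2 _ _ a 1 hb.1
      refine ⟨a * b, ⟨h1.trans _ _ _ ha.1 h3, fun e => ha.2 ?_⟩, rfl⟩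
      exact h1.antisymm _ _ (e ▸ h3) ha.1
    · rintro _ ⟨a, ha, rfl⟩ y hy
      refine ⟨⟨y, hy⟩ * a * ⟨y, hy⟩⁻¹, ⟨by simpa using h2 _ _ ⟨y, hy⟩ ⟨y, hy⟩⁻¹ ha.1,
        fun e => ha.2 ?_⟩, rfl⟩
      simpa [mul_inv_eq_one] using e
    · rintro ⟨a, ha, e⟩
      exact ha.2 (Subtype.ext e)
    · have h' : (⟨a, ha⟩ : GG K) ≠ 1 := fun e => h (congrArg Subtype.val e)
      rcases h1.total 1 ⟨a, ha⟩ with h3 | h3
      · exact Or.inl ⟨_, ⟨h3, h'⟩, rfl⟩
      · exact Or.inr ⟨⟨a, ha⟩⁻¹, ⟨by simpa using h2 _ _ ⟨a, ha⟩⁻¹ 1 h3, inv_ne_one.2 h'⟩, rfl⟩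
  obtain ⟨Q, hQ, e⟩ := t.exists_SO
  refine ⟨Q, hQ, funext₂ fun a b => propext ?_⟩
  rw [ord, ← e]
  constructor
  · intro h
    by_cases hab : a = b
    · exact Or.inl hab
    · exact Or.inr ⟨_, ⟨by simpa using h2 _ _ a⁻¹ 1 h, fun e => hab (inv_mul_eq_one.1 e)⟩, rfl⟩
  · rintro (rfl | ⟨x, hx, e⟩)
    · exact h1.refl _
    · rw [show x = a⁻¹ * b from Subtype.ext e] at hx
      simpa using h2 _ _ a 1 hx.1

end Pool.Agent.H22.Ord
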