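import Pool.Agent.H22.Ord3

set_option autoImplicit false

namespace Pool.Agent.H22.Ord

open Polynomial

section Semi

variable {F : Type*} [Field F] [CharZero F] {Q : Set F}

theorem SO.ne (h : SO Q) {a : F} (ha : a ∈ Q) : a ≠ 0 := fun e => h.zero (e ▸ ha)

theorem SO.of_eq {a b : F} (ha : a ∈ Q) (e : a = b) : b ∈ Q := e ▸ ha

theorem SO.inv (h : SO Q) {a : F} (ha : a ∈ Q) : a⁻¹ ∈ Q :=
  SO.of_eq (h.sq a ha a⁻¹ (inv_ne_zero (h.ne ha))) (by have := h.ne ha; field_simp)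

theorem SO.nat (h : SO Q) {a : F} (ha : a ∈ Q) : ∀ n : ℕ, ((n + 1 : ℕ) : F) * a ∈ Q
  | 0 => by simpa using ha
  | n + 1 => SO.of_eq (h.add _ (SO.nat h ha n) _ ha) (by push_cast; ring)

theorem SO.rat (h : SO Q) {a : F} (ha : a ∈ Q) {q : ℚ} (hq : 0 < q) : (q : F) * a ∈ Q := by
  have h1 : 0 < q.num.natAbs * q.den := Nat.mul_pos (Int.natAbs_pos.2 (Rat.num_pos.2 hq).ne') q.pos
  obtain ⟨m, hm⟩ := Nat.exists_eq_add_one_of_ne_zero h1.ne'
  have h2 : (q.den : F) ≠ 0 := Nat.cast_ne_zero.2 q.den_nz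
  refine SO.of_eq (h.sq _ (h.nat ha m) (q.den : F)⁻¹ (inv_ne_zero h2)) ?_
  rw [← hm, Rat.cast_def, Nat.cast_mul, ← Int.cast_natCast (R := F) q.num.natAbs,
    Int.natAbs_of_nonneg (Rat.num_pos.2 hq).le]
  field_simp

theorem SO.invmono (h : SO Q) {a b : F} (ha : a ∈ Q) (hb : b - a ∈ Q) : a⁻¹ - b⁻¹ ∈ Q := by
  have h1 := h.ne ha
  have h2 := h.ne hb
  have h3 : b ≠ 0 := h.ne (SO.of_eq (h.add _ ha _ hb) (by ring))
  refine SO.of_eq (h.inv (h.add _ ha _ (h.sq _ (h.inv hb) a h1))) ?_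
  rw [show a + a ^ 2 * (b - a)⁻¹ = a * b / (b - a) by field_simp; ring]
  field_simp

theorem SO.tri (h : SO Q) {a : F} (ha : a ∉ Q) {b : F} (hb : b ∈ Q) : b - a ∈ Q := by
  by_cases h0 : a = 0
  · simpa [h0] using hb
  · exact SO.of_eq (h.add _ hb _ ((h.total a h0).resolve_left ha)) (by ring)

theorem SO.arch [Algebra ℚ F] [FiniteDimensional ℚ F] (h : SO Q) (h1 : (1 : F) ∈ Q) (x : F) :
    ∃ n : ℕ, (n : F) - x ∈ Q := by
  let V : Submodule ℚ F :=
    { carrier := {x | ∃ q : ℚ, (q : F) - x ∈ Q ∧ (q : F) + x ∈ Q}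
      zero_mem' := ⟨1, by simpa using h1, by simpa using h1⟩
      add_mem' := by
        rintro a b ⟨p, a1, a2⟩ ⟨q, b1, b2⟩
        exact ⟨p + q, SO.of_eq (h.add _ a1 _ b1) (by push_cast; ring),
          SO.of_eq (h.add _ a2 _ b2) (by push_cast; ring)⟩
      smul_mem' := by
        rintro c a ⟨p, a1, a2⟩
        rw [Algebra.smul_def, eq_ratCast]
        rcases lt_trichotomy c 0 with hc | rfl | hc
        · exact ⟨-c * p, SO.of_eq (h.rat a2 (neg_pos.2 hc)) (by push_cast; ring),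
            SO.of_eq (h.rat a1 (neg_pos.2 hc)) (by push_cast; ring)⟩
        · exact ⟨1, by simpa using h1, by simpa using h1⟩
        · exact ⟨c * p, SO.of_eq (h.rat a1 hc) (by push_cast; ring),
            SO.of_eq (h.rat a2 hc) (by push_cast; ring)⟩ }
  have hsq : ∀ δ : F, δ ^ 2 ∈ V := fun δ => by
    by_cases h0 : δ = 0
    · rw [h0, zero_pow two_ne_zero]; exact V.zero_mem
    by_contra hn
    have hm : ∀ x ∈ V, LinearMap.mulLeft ℚ (δ⁻¹ ^ 2) x ∈ V := by
      rintro x ⟨q, a1, a2⟩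
      have b1 : ((|q| + 1 : ℚ) : F) - δ ^ 2 ∉ Q := fun e => hn ⟨|q| + 1, e, h.add _
        (by simpa using h.rat h1 (show 0 < |q| + 1 by positivity)) _ (by simpa using h.sq _ h1 δ h0)⟩
      have b2 := h.tri b1 (h.rat h1 (show 0 < |q| + 1 - q by linarith [le_abs_self q]))
      refine ⟨1, SO.of_eq (h.sq _ (h.add _ b2 _ a1) δ⁻¹ (inv_ne_zero h0)) ?_,
        SO.of_eq (h.sq _ (h.add _ b2 _ a2) δ⁻¹ (inv_ne_zero h0)) ?_⟩ <;>
      · simp only [LinearMap.mulLeft_apply]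
        push_cast; field_simp; ring
    have hi : Function.Injective ((LinearMap.mulLeft ℚ (δ⁻¹ ^ 2)).restrict hm) := fun a b e =>
      Subtype.ext (mul_left_cancel₀ (pow_ne_zero 2 (inv_ne_zero h0)) (congrArg Subtype.val e))
    obtain ⟨⟨y, hy⟩, e⟩ := LinearMap.injective_iff_surjective.1 hi ⟨1, 2, by
      norm_num; exact h1, SO.of_eq (h.nat h1 2) (by norm_num)⟩
    have e' : δ⁻¹ ^ 2 * y = 1 := congrArg Subtype.val e
    refine hn ((congrArg (· ∈ V) ?_).mp hy)
    field_simp at e'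
    exact e'
  obtain ⟨q, a1, -⟩ : x ∈ V := by
    refine (congrArg (· ∈ V) ?_).mp (V.sub_mem (hsq ((x + 1) / 2)) (hsq ((x - 1) / 2)))
    ring
  obtain ⟨n, hn⟩ := exists_nat_gt q
  exact ⟨n, SO.of_eq (h.add _ a1 _ (h.rat h1 (sub_pos.2 hn))) (by push_cast; ring)⟩

theorem SO.dense [Algebra ℚ F] [FiniteDimensional ℚ F] (h : SO Q) (h1 : (1 : F) ∈ Q) {x y : F}
    (hxy : y - x ∈ Q) : ∃ q : ℚ, (q : F) - x ∈ Q ∧ y - q ∈ Q := by
  obtain ⟨n, hn⟩ := h.arch h1 (y - x)⁻¹
  have a1 := h.invmono (h.inv hxy) hn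
  rw [inv_inv] at a1
  have n0 : 0 < n := Nat.pos_of_ne_zero (by
    rintro rfl
    exact h.zero (SO.of_eq (h.add _ hn _ (h.inv hxy)) (by simp)))
  have n1 : (n : F) ≠ 0 := Nat.cast_ne_zero.2 n0.ne'
  have n2 : (0 : ℚ) < n := by exact_mod_cast n0
  obtain ⟨a, ha⟩ := h.arch h1 (n * x)
  obtain ⟨b, hb⟩ := h.arch h1 (-(n * x))
  obtain ⟨m, m1, m2⟩ := Int.exists_least_of_bdd (P := fun m : ℤ => (m : F) - n * x ∈ Q)
    ⟨-b, fun m hm => by
      by_contra h2
      have h3 : (0 : ℚ) < -b - m := by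
        have : m < -b := not_le.1 h2
        have : (m : ℚ) < -b := by exact_mod_cast this
        linarith
      exact h.zero (SO.of_eq (h.add _ (h.add _ hm _ hb) _ (h.rat h1 h3)) (by push_cast; ring))⟩
    ⟨a, by simpa using ha⟩
  refine ⟨m / n, SO.of_eq (h.rat m1 (inv_pos.2 n2)) (by push_cast; field_simp), ?_⟩
  have m3 : ((m - 1 : ℤ) : F) - n * x ∉ Q := fun e => by have := m2 _ e; omega
  refine SO.of_eq (h.rat (h.tri m3 (h.rat a1 n2)) (inv_pos.2 n2)) ?_
  push_cast; field_simp; ring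

theorem SO.mul [Algebra ℚ F] [FiniteDimensional ℚ F] (h : SO Q) (h1 : (1 : F) ∈ Q) {a b : F}
    (ha : a ∈ Q) (hb : b ∈ Q) : a * b ∈ Q := by
  have key : ∀ x y : F, x ∈ Q → y - x ∈ Q → y ^ 2 - x ^ 2 ∈ Q := fun x y hx hxy => by
    obtain ⟨q, q1, q2⟩ := h.dense h1 hxy
    have q3 : (q : F) ∈ Q := SO.of_eq (h.add _ q1 _ hx) (by ring)
    have q4 : 0 < q := by
      by_contra h2
      rcases (not_lt.1 h2).eq_or_lt with rfl | h2
      · exact h.zero (by simpa using q3)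
      · exact h.zero (SO.of_eq (h.add _ q3 _ (h.rat h1 (neg_pos.2 h2))) (by push_cast; ring))
    have q5 := h.ne q3
    have b1 := h.add _ q3 _ hx
    have b2 : y + q ∈ Q := SO.of_eq (h.add _ q2 _ (h.nat q3 1)) (by push_cast; ring)
    have c1 := h.rat (h.inv (h.add _ (h.inv q1) _ (h.inv b1))) (mul_pos two_pos q4)
    have c2 := h.rat (h.inv (h.invmono (b := y + q) q2 (SO.of_eq (h.nat q3 1) (by push_cast; ring))))
      (mul_pos two_pos q4)
    have d1 := h.ne q1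
    have d2 := h.ne q2
    have d3 := h.ne b1
    have d4 := h.ne b2
    rw [show ((q : F) - x)⁻¹ + ((q : F) + x)⁻¹ = 2 * q / ((q - x) * (q + x)) by field_simp; ring] at c1
    rw [show (y - q)⁻¹ - (y + q)⁻¹ = 2 * q / ((y - q) * (y + q)) by field_simp; ring] at c2
    refine SO.of_eq (h.add _ c1 _ c2) ?_
    push_cast; field_simp; ring
  have h4 : (0 : ℚ) < 1 / 4 := by norm_num
  by_cases e : a - b = 0
  · rw [sub_eq_zero.1 e]
    exact SO.of_eq (h.sq _ h1 b (h.ne hb)) (by ring)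
  rcases h.total _ e with h2 | h2
  · exact SO.of_eq (h.rat (key _ (a + b) h2 (SO.of_eq (h.nat hb 1) (by push_cast; ring))) h4)
      (by push_cast; ring)
  · exact SO.of_eq (h.rat (key _ (a + b) h2 (SO.of_eq (h.nat ha 1) (by push_cast; ring))) h4)
      (by push_cast; ring)

theorem SO.hom [Algebra ℚ F] [FiniteDimensional ℚ F] (h : SO Q) (h1 : (1 : F) ∈ Q) :
    ∃ σ : F →+* ℝ, Q = {x | 0 < σ x} := by
  classical
  have : IsStrictTotalOrder F fun a b => b - a ∈ Q :=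
    { trichotomous := fun a b h2 h3 => by
        by_contra e
        rcases h.total _ (sub_ne_zero.2 e) with h4 | h4
        · exact h3 h4
        · exact h2 (by simpa using h4)
      irrefl := fun a e => h.zero (by simpa using e)
      trans := fun a b c h2 h3 => SO.of_eq (h.add _ h2 _ h3) (by ring) }
  let _ : LinearOrder F := linearOrderOfSTO fun a b => b - a ∈ Q
  have lt : ∀ a b : F, a < b ↔ b - a ∈ Q := fun _ _ => Iff.rfl
  have : IsOrderedAddMonoid F := ⟨fun a b hab c => by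
      rcases hab.eq_or_lt with rfl | hab
      · exact le_rfl
      · exact le_of_lt ((lt _ _).2 (by simpa using (lt _ _).1 hab)), fun a b hab c => by
      rcases hab.eq_or_lt with rfl | hab
      · exact le_rfl
      · exact le_of_lt ((lt _ _).2 (by simpa using (lt _ _).1 hab))⟩
  have : ZeroLEOneClass F := ⟨le_of_lt ((lt _ _).2 (by simpa using h1))⟩
  have : IsStrictOrderedRing F := .of_mul_pos fun a b ha hb => (lt _ _).2 (by
    simpa using h.mul h1 (by simpa using (lt _ _).1 ha) (by simpa using (lt _ _).1 hb))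
  have : Archimedean F := archimedean_iff_nat_lt.2 fun x => h.arch h1 x
  let σ := ConditionallyCompleteLinearOrderedField.inducedOrderRingHom F ℝ
  have hs : StrictMono σ := σ.monotone'.strictMono_of_injective σ.toRingHom.injective
  refine ⟨σ.toRingHom, Set.ext fun x => ?_⟩
  have := hs.lt_iff_lt (a := 0) (b := x)
  rw [map_zero, lt, sub_zero] at this
  exact this.symm

def cone (σ : F →+* ℝ) (ε : ℤˣ) : Set F := {x | 0 < ((ε : ℤ) : ℝ) * σ x}

theorem cone_SO (σ : F →+* ℝ) (ε : ℤˣ) : SO (cone σ ε) where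
  add a ha b hb := by
    simp only [cone, Set.mem_ofPred_eq, map_add, mul_add] at *
    exact add_pos ha hb
  sq a ha δ hδ := by
    simp only [cone, Set.mem_ofPred_eq, map_mul, map_pow] at *
    rw [mul_left_comm]
    exact mul_pos (pow_two_pos_of_ne_zero ((map_ne_zero σ).2 hδ)) ha
  zero := by simp [cone]
  total a ha := by
    simp only [cone, Set.mem_ofPred_eq, map_neg, mul_neg, neg_pos]
    exact (lt_or_gt_of_ne (mul_ne_zero (by simp) ((map_ne_zero σ).2 ha))).symm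

theorem cone_inj : Function.Injective fun p : (F →+* ℝ) × ℤˣ => cone p.1 p.2 := by
  rintro ⟨σ, ε⟩ ⟨τ, η⟩ e
  have e' : ∀ x, 0 < ((ε : ℤ) : ℝ) * σ x ↔ 0 < ((η : ℤ) : ℝ) * τ x := fun x => Set.ext_iff.1 e x
  obtain rfl : ε = η := by
    have := e' 1
    rcases Int.units_eq_one_or ε with rfl | rfl <;> rcases Int.units_eq_one_or η with rfl | rfl <;>
      simp at this ⊢ <;> linarith
  have key : ∀ σ τ : F →+* ℝ, (∀ x, 0 < ((ε : ℤ) : ℝ) * σ x ↔ 0 < ((ε : ℤ) : ℝ) * τ x) →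
      ∀ x, ¬ σ x < τ x := fun σ τ e x hx => by
    obtain ⟨q, q1, q2⟩ := exists_rat_btwn hx
    have := e (x - q)
    rcases Int.units_eq_one_or ε with rfl | rfl <;> simp at this <;> [linarith [this.2 q2]; linarith [this.1 q1]]
  congr 1
  exact RingHom.ext fun x => le_antisymm (not_lt.1 (key τ σ (fun x => (e' x).symm) x))
    (not_lt.1 (key σ τ e' x))

theorem SO.cone [Algebra ℚ F] [FiniteDimensional ℚ F] (h : SO Q) : ∃ σ ε, Q = cone σ ε := by
  rcases h.total 1 one_ne_zero with h1 | h1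
  · obtain ⟨σ, e⟩ := h.hom h1
    exact ⟨σ, 1, by simpa [Ord.cone] using e⟩
  · obtain ⟨σ, e⟩ := SO.hom (Q := {x | -x ∈ Q}) ⟨fun a ha b hb => SO.of_eq (Q := Q) (b := -(a + b)) (h.add _ ha _ hb) (by ring),
      fun a ha δ hδ => SO.of_eq (Q := Q) (b := -(δ ^ 2 * a)) (h.sq _ ha δ hδ) (by ring), by simpa using h.zero,
      fun a ha => by simpa using (h.total a ha).symm⟩ h1
    refine ⟨σ, -1, Set.ext fun x => ?_⟩
    simpa [Ord.cone] using Set.ext_iff.1 e (-x)

end Semi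

noncomputable def pol (k : ℕ) : ℤ[X] := ∏ i ∈ Finset.range k, (X - C (8 * (i : ℤ) + 4)) + C 2

theorem pol_monic {k : ℕ} (hk : 0 < k) : (pol k).Monic ∧ (pol k).natDegree = k := by
  have h1 := monic_prod_X_sub_C (fun i : ℕ => 8 * (i : ℤ) + 4) (Finset.range k)
  have h2 : (∏ i ∈ Finset.range k, (X - C (8 * (i : ℤ) + 4))).natDegree = k := by
    rw [natDegree_prod_of_monic _ _ fun _ _ => monic_X_sub_C _]; simp only [natDegree_X_sub_C]; simp
  refine ⟨h1.add_of_left ?_, by rw [pol, natDegree_add_C, h2]⟩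
  rw [degree_eq_natDegree h1.ne_zero, h2]
  exact degree_C_le.trans_lt (by exact_mod_cast hk)

theorem pol_irr {k : ℕ} (hk : 0 < k) : Irreducible (pol k) := by
  obtain ⟨h1, h2⟩ := pol_monic hk
  have hd : (pol k).degree = k := by rw [degree_eq_natDegree h1.ne_zero, h2]
  have h4 : ∃ g : ℤ[X], ∏ i ∈ Finset.range k, (X - C (8 * (i : ℤ) + 4)) = X ^ k + C 4 * g := by
    clear h1 h2 hd hk
    induction k with
    | zero => exact ⟨0, by simp⟩
    | succ k ih =>
      obtain ⟨g, hg⟩ := ih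
      refine ⟨g * (X - C (8 * (k : ℤ) + 4)) - C (2 * (k : ℤ) + 1) * X ^ k, ?_⟩
      rw [Finset.prod_range_succ, hg]
      simp only [map_add, map_mul, map_ofNat, map_one]
      ring
  obtain ⟨g, hg⟩ := h4
  refine irreducible_of_eisenstein_criterion (P := Ideal.span {2})
    ((Ideal.span_singleton_prime two_ne_zero).2 Int.prime_two) ?_ (fun n hn => ?_)
    (by rw [hd]; exact_mod_cast hk) ?_ h1.isPrimitive
  · rw [h1.leadingCoeff, Ideal.mem_span_singleton]; norm_num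
  · rw [hd] at hn
    have hn' : n ≠ k := ne_of_lt (by exact_mod_cast hn)
    rw [Ideal.mem_span_singleton, pol, hg, coeff_add, coeff_add, coeff_X_pow, if_neg hn', coeff_C_mul,
      coeff_C]
    split_ifs <;> omega
  · rw [Ideal.span_singleton_pow, Ideal.mem_span_singleton, pol, hg, coeff_add, coeff_add,
      coeff_X_pow, if_neg hk.ne, coeff_C_mul, coeff_C_zero]
    omega

theorem pol_sign {k j : ℕ} (hk : 0 < k) (hj : j ≤ k) :
    0 < (-1) ^ (k - j) * aeval (8 * (j : ℝ)) (pol k) := by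
  have key : ∀ k : ℕ, (4 : ℝ) ^ k ≤
      (-1) ^ (k - j) * ∏ i ∈ Finset.range k, (8 * (j : ℝ) - (8 * i + 4)) := by
    intro k
    induction k with
    | zero => simp
    | succ k ih =>
      rw [Finset.prod_range_succ, pow_succ]
      rcases le_or_gt j k with h | h
      · have : (j : ℝ) ≤ k := by exact_mod_cast h
        rw [Nat.succ_sub h, pow_succ]
        nlinarith [pow_pos (show (0 : ℝ) < 4 by norm_num) k]
      · have : (k : ℝ) + 1 ≤ j := by exact_mod_cast h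
        rw [Nat.sub_eq_zero_of_le h.le] at ih
        rw [Nat.sub_eq_zero_of_le h]
        nlinarith [pow_pos (show (0 : ℝ) < 4 by norm_num) k]
  have h1 := key k
  have h2 : (4 : ℝ) ^ 1 ≤ 4 ^ k := pow_le_pow_right₀ (by norm_num) hk
  have e : aeval (8 * (j : ℝ)) (pol k) = ∏ i ∈ Finset.range k, (8 * (j : ℝ) - (8 * i + 4)) + 2 := by
    simp [pol, map_prod, map_ofNat]
  rw [e, mul_add]
  rcases neg_one_pow_eq_or ℝ (k - j) with h | h <;> rw [h] at h1 ⊢ <;> linarith

theorem pol_root {k j : ℕ} (hj : j < k) :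
    ∃ x : ℝ, 8 * j < x ∧ x < 8 * (j + 1 : ℕ) ∧ aeval x (pol k) = 0 := by
  have h1 := pol_sign (by omega : 0 < k) hj.le
  have h2 := pol_sign (by omega : 0 < k) (Nat.succ_le_of_lt hj)
  rw [show k - j = k - (j + 1) + 1 by omega, pow_succ] at h1
  have hc : Continuous fun x : ℝ => (-1) ^ (k - (j + 1)) * aeval x (pol k) :=
    continuous_const.mul (Polynomial.continuous_aeval _)
  obtain ⟨x, hx, e⟩ := intermediate_value_Ioo (show 8 * (j : ℝ) ≤ 8 * (j + 1 : ℕ) by
    push_cast; linarith) hc.continuousOn (show (0 : ℝ) ∈ _ from ⟨by linarith, h2⟩)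
  exact ⟨x, hx.1, hx.2, (mul_eq_zero.1 e).resolve_left (pow_ne_zero _ (by norm_num))⟩

open IntermediateField in
theorem exists_field {k : ℕ} (hk : 0 < k) :
    ∃ K : IntermediateField ℚ ℝ, FiniteDimensional ℚ K ∧ Nonempty ((K →+* ℝ) ≃ Fin k) := by
  classical
  obtain ⟨h1, h2⟩ := pol_monic hk
  choose x x1 x2 x3 using fun j : Fin k => pol_root j.2
  obtain ⟨p, hp⟩ : ∃ p, p = (pol k).map (algebraMap ℤ ℚ) := ⟨_, rfl⟩
  have p1 : p.Monic := hp ▸ h1.map _
  have p2 : Irreducible p := hp ▸ h1.irreducible_iff_irreducible_map_fraction_map.1 (pol_irr hk)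
  have p3 : ∀ j, aeval (x j) p = 0 := fun j => by rw [hp, aeval_map_algebraMap, x3]
  have p4 : p.natDegree = k := by rw [hp, h1.natDegree_map, h2]
  have hi : IsIntegral ℚ (x ⟨0, hk⟩) := ⟨p, p1, p3 _⟩
  have hm : p = minpoly ℚ (x ⟨0, hk⟩) := minpoly.eq_of_irreducible_of_monic p2 (p3 _) p1
  refine ⟨ℚ⟮x ⟨0, hk⟩⟯, adjoin.finiteDimensional hi, ⟨(RingHom.equivRatAlgHom _ _).trans
    ((algHomAdjoinIntegralEquiv ℚ hi).trans (Equiv.ofBijective
      (fun j => ⟨x j, by rw [← hm, mem_aroots]; exact ⟨p1.ne_zero, p3 j⟩⟩) ?_).symm)⟩⟩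
  have xi : Function.Injective x := (show StrictMono x from fun i j hij => by
    have : ((i + 1 : ℕ) : ℝ) ≤ j := by exact_mod_cast hij
    linarith [x2 i, x1 j]).injective
  suffices h : ∀ f : Fin k → { y // y ∈ (minpoly ℚ (x ⟨0, hk⟩)).aroots ℝ }, Function.Injective f →
      Function.Bijective f from h _ fun i j e => xi (congrArg Subtype.val e)
  intro f hf
  rw [Fintype.bijective_iff_injective_and_card]
  refine ⟨hf, le_antisymm (Fintype.card_le_of_injective _ hf) ?_⟩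
  rw [Fintype.card_of_subtype ((minpoly ℚ (x ⟨0, hk⟩)).aroots ℝ).toFinset (fun _ => Multiset.mem_toFinset),
    Fintype.card_fin, ← hm]
  exact (Multiset.toFinset_card_le _).trans ((card_roots' _).trans (natDegree_map_le.trans p4.le))

theorem main {k : ℕ} (hk : 0 < k) : ∃ (G : Type) (_ : Group G),
    {r : G → G → Prop | IsLinearOrder G r ∧
      ∀ a b c d : G, r a b → r (c * a * d) (c * b * d)}.encard = ((2 * k : ℕ) : ℕ∞) := by
  obtain ⟨K, hK, ⟨e⟩⟩ := exists_field hk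
  refine ⟨GG K, inferInstance, ?_⟩
  have h1 : {r : GG K → GG K → Prop | IsLinearOrder (GG K) r ∧
      ∀ a b c d : GG K, r a b → r (c * a * d) (c * b * d)} =
      (fun p : (K →+* ℝ) × ℤˣ => ord (cone p.1 p.2)) '' Set.univ := by
    ext r
    constructor
    · rintro ⟨h1, h2⟩
      obtain ⟨Q, hQ, rfl⟩ := ord_surj r h1 h2
      obtain ⟨σ, ε, rfl⟩ := hQ.cone
      exact ⟨⟨σ, ε⟩, trivial, rfl⟩
    · rintro ⟨p, -, rfl⟩
      exact ord_spec (cone_SO _ _)
  rw [h1, Function.Injective.encard_image fun p q h =>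
    cone_inj (ord_inj (cone_SO _ _) (cone_SO _ _) h), Set.encard_univ,
    ENat.card_congr (e.prodCongr (Equiv.refl _)), ENat.card_eq_coe_fintype_card]
  simp [mul_comm]

end Pool.Agent.H22.Ord
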