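import Mathlib

set_option autoImplicit false

namespace H22.Part

abbrev Γ := FreeGroup ℕ

def x (k : ℕ) : Γ := FreeGroup.of k

def H (k : ℕ) : Subgroup Γ := Subgroup.closure {g | ∃ m < k, g = x m}

def wt (t : Fin 9) : ℕ := 3 ^ t.val * 2 ^ (8 - t.val)

/-- token vectors the colourer can live with -/
def Safe (a : Fin 9 → ℕ) : Prop :=
  ∃ σ : Equiv.Perm (Fin 9), ∑ j, wt (σ j) * a j < 19171

theorem safe_mono {a b : Fin 9 → ℕ} (h : ∀ j, a j ≤ b j) (hb : Safe b) : Safe a := by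
  obtain ⟨σ, hσ⟩ := hb
  exact ⟨σ, lt_of_le_of_lt (Finset.sum_le_sum fun j _ => Nat.mul_le_mul_left _ (h j)) hσ⟩

theorem sum_wt : ∑ j, wt j = 19171 := by decide

theorem not_safe {a : Fin 9 → ℕ} (h : ∀ j, 1 ≤ a j) : ¬ Safe a := by
  rintro ⟨σ, hσ⟩
  have h1 : ∑ j, wt (σ j) = 19171 := by rw [Equiv.sum_comp σ wt]; exact sum_wt
  have h2 : ∑ j, wt (σ j) ≤ ∑ j, wt (σ j) * a j :=
    Finset.sum_le_sum fun j _ => Nat.le_mul_of_pos_right _ (h j)
  omega

theorem cyc : ∀ m k : Fin 9, 2 * wt (Fin.cycleRange m k) ≤ 3 * wt k := by decide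

theorem safe_add {b : Fin 9 → ℕ} (σ : Equiv.Perm (Fin 9)) (i : Fin 9)
    (h : 2 * ∑ j, wt (σ j) * b j < 19171) :
    Safe (fun j => b j + if j = i then 18 else 0) := by
  refine ⟨σ.trans (Fin.cycleRange (σ i)), ?_⟩
  have h1 : ∑ j, wt ((σ.trans (Fin.cycleRange (σ i))) j) * (b j + if j = i then 18 else 0)
      = ∑ j, wt (Fin.cycleRange (σ i) (σ j)) * b j + 256 * 18 := by
    simp only [Equiv.trans_apply, mul_add, Finset.sum_add_distrib, mul_ite, mul_zero,
      Finset.sum_ite_eq', Finset.mem_univ, if_true, Fin.cycleRange_self]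
    rfl
  have h2 : 2 * ∑ j, wt (Fin.cycleRange (σ i) (σ j)) * b j ≤ 3 * ∑ j, wt (σ j) * b j := by
    rw [Finset.mul_sum, Finset.mul_sum]
    refine Finset.sum_le_sum fun j _ => ?_
    rw [← mul_assoc, ← mul_assoc]
    exact Nat.mul_le_mul_right _ (cyc _ _)
  rw [h1]
  omega

theorem safe_split {a b c : Fin 9 → ℕ} (i : Fin 9) (h : ∀ j, b j + c j ≤ a j) (ha : Safe a) :
    Safe (fun j => b j + if j = i then 18 else 0) ∨
      Safe (fun j => c j + if j = i then 18 else 0) := by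
  obtain ⟨σ, hσ⟩ := ha
  have h1 : ∑ j, wt (σ j) * b j + ∑ j, wt (σ j) * c j ≤ ∑ j, wt (σ j) * a j := by
    rw [← Finset.sum_add_distrib]
    refine Finset.sum_le_sum fun j _ => ?_
    rw [← mul_add]
    exact Nat.mul_le_mul_left _ (h j)
  by_cases hb : 2 * ∑ j, wt (σ j) * b j < 19171
  · exact Or.inl (safe_add σ i hb)
  · exact Or.inr (safe_add σ i (by omega))

/-- `z` and `z'` are not separated by functions constant along the edges in `D` -/
def Rel (D : Set (ℕ × Γ)) (z z' : Γ) : Prop :=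
  ∀ ψ : Γ → ZMod 2, (∀ e ∈ D, ψ (x e.1 * e.2) = ψ e.2) → ψ z = ψ z'

theorem Rel.refl (D : Set (ℕ × Γ)) (z : Γ) : Rel D z z := fun _ _ => rfl

theorem Rel.symm {D : Set (ℕ × Γ)} {z z' : Γ} (h : Rel D z z') : Rel D z' z :=
  fun ψ hψ => (h ψ hψ).symm

theorem Rel.trans {D : Set (ℕ × Γ)} {a b c : Γ} (h : Rel D a b) (h' : Rel D b c) : Rel D a c :=
  fun ψ hψ => (h ψ hψ).trans (h' ψ hψ)

theorem Rel.mono {D D' : Set (ℕ × Γ)} (hD : D ⊆ D') {a b : Γ} (h : Rel D a b) : Rel D' a b :=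
  fun ψ hψ => h ψ fun e he => hψ e (hD he)

theorem rel_edge {D : Set (ℕ × Γ)} {k : ℕ} {y : Γ} (h : (k, y) ∈ D) : Rel D y (x k * y) :=
  fun ψ hψ => (hψ (k, y) h).symm

theorem rel_H {D : Set (ℕ × Γ)} {k : ℕ} (hD : ∀ m < k, ∀ z, (m, z) ∈ D) {s : Γ} (hs : s ∈ H k)
    (z : Γ) : Rel D z (s * z) := by
  induction hs using Subgroup.closure_induction generalizing z with
  | mem g hg =>
    obtain ⟨m, hm, rfl⟩ := hg
    exact rel_edge (hD m hm z)
  | one => rw [one_mul]; exact Rel.refl _ _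
  | mul a b _ _ ha hb => rw [mul_assoc]; exact (hb z).trans (ha _)
  | inv a _ ha =>
    have := ha (a⁻¹ * z)
    rw [mul_inv_cancel_left] at this
    exact this.symm

open Classical in
/-- the permutation of `Γ × ZMod 2` by which a generator acts, twisted on one edge -/
noncomputable def tw (k : ℕ) (y : Γ) (m : ℕ) : Equiv.Perm (Γ × ZMod 2) where
  toFun p := (x m * p.1, p.2 + if (m, p.1) = (k, y) then 1 else 0)
  invFun p := ((x m)⁻¹ * p.1, p.2 - if (m, (x m)⁻¹ * p.1) = (k, y) then 1 else 0)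
  left_inv p := by simp
  right_inv p := by simp

theorem tw_fst (k : ℕ) (y w : Γ) (p : Γ × ZMod 2) :
    (FreeGroup.lift (tw k y) w p).1 = w * p.1 := by
  induction w using FreeGroup.induction_on generalizing p with
  | C1 => simp
  | of m => rw [FreeGroup.lift_apply_of]; rfl
  | inv_of m _ => rw [map_inv, FreeGroup.lift_apply_of]; rfl
  | mul a b ha hb => rw [map_mul, Equiv.Perm.mul_apply, ha, hb, mul_assoc]

/-- the Cayley graph of a free group is a tree: removing an edge separates its ends -/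
theorem not_rel {D : Set (ℕ × Γ)} {k : ℕ} {y : Γ} (h : (k, y) ∉ D) : ¬ Rel D y (x k * y) := by
  classical
  intro hr
  have key : ∀ (m : ℕ) (z : Γ), (FreeGroup.lift (tw k y) (x m * z) (1, 0)).2
      = (FreeGroup.lift (tw k y) z (1, 0)).2 + if (m, z) = (k, y) then 1 else 0 := by
    intro m z
    rw [map_mul, Equiv.Perm.mul_apply]
    have h1 := tw_fst k y z (1, 0)
    rw [mul_one] at h1
    have h2 : FreeGroup.lift (tw k y) (x m) = tw k y m := FreeGroup.lift_apply_of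
    rw [h2]
    show _ + _ = _
    rw [h1]
  have := hr (fun z => (FreeGroup.lift (tw k y) z (1, 0)).2) (by
    intro e he
    rw [key, if_neg, add_zero]
    intro h'
    exact h (h' ▸ he))
  simp only [key, if_true] at this
  have h3 : ∀ t : ZMod 2, t ≠ t + 1 := by decide
  exact h3 _ this

theorem mem_H (g : Γ) : ∃ k, g ∈ H k := by
  have hm : ∀ {a b : ℕ}, a ≤ b → H a ≤ H b := fun h =>
    Subgroup.closure_mono fun g ⟨m, hm, hg⟩ => ⟨m, lt_of_lt_of_le hm h, hg⟩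
  induction g using FreeGroup.induction_on with
  | C1 => exact ⟨0, one_mem _⟩
  | of m => exact ⟨m + 1, Subgroup.subset_closure ⟨m, Nat.lt_succ_self m, rfl⟩⟩
  | inv_of m h => obtain ⟨k, hk⟩ := h; exact ⟨k, inv_mem hk⟩
  | mul a b ha hb =>
    obtain ⟨k, hk⟩ := ha
    obtain ⟨l, hl⟩ := hb
    exact ⟨max k l, mul_mem (hm (le_max_left _ _) hk) (hm (le_max_right _ _) hl)⟩

theorem H_mono {a b : ℕ} (h : a ≤ b) : H a ≤ H b :=
  Subgroup.closure_mono fun _ ⟨m, hm, hg⟩ => ⟨m, lt_of_lt_of_le hm h, hg⟩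

end H22.Part
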