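import Pool.Agent.H22.Part1

set_option autoImplicit false

namespace H22.Part

open Classical in
/-- numbers of tokens of each colour in the class of `z` -/
noncomputable def vec (T : Fin 9 → Finset Γ) (D : Set (ℕ × Γ)) (z : Γ) : Fin 9 → ℕ :=
  fun j => ((T j).filter (Rel D z)).card

def L (k : ℕ) : Set (ℕ × Γ) := {e | e.1 < k}

def DE (E : Finset (ℕ × Γ)) : Set (ℕ × Γ) := {e | e ∈ E ∨ ∃ e' ∈ E, e.1 < e'.1}

theorem vec_mono (T : Fin 9 → Finset Γ) {D D' : Set (ℕ × Γ)} (h : D ⊆ D') (z : Γ) (j : Fin 9) :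
    vec T D z j ≤ vec T D' z j := by
  classical
  unfold vec
  refine Finset.card_le_card fun t ht => ?_
  simp only [Finset.mem_filter] at ht ⊢
  exact ⟨ht.1, ht.2.mono h⟩

theorem not_rel_H {k : ℕ} {t : Γ} (ht : t ∉ H k) : ¬ Rel (L k) 1 t := by
  classical
  intro h
  have := h (fun z => if z ∈ H k then 1 else 0) (by
    intro e he
    have hx : x e.1 ∈ H k := Subgroup.subset_closure ⟨e.1, he, rfl⟩
    simp only [mul_mem_cancel_left hx])
  simp [ht, one_mem] at this

def Cov (col : ℕ → Fin 9) (S : ℕ → Finset Γ) (T : Fin 9 → Finset Γ) (e : ℕ × Γ) : Prop :=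
  (∀ s ∈ S e.1, s * e.2 ∈ T (col e.1)) ∨ (∀ s ∈ S e.1, s * (x e.1 * e.2) ∈ T (col e.1))

theorem add_tokens (T : Fin 9 → Finset Γ) (i : Fin 9) (A : Finset Γ) (hA : A.card ≤ 18)
    (D : Set (ℕ × Γ)) (p : Γ) (hp : ∀ s ∈ A, Rel D p (s * p))
    (h1 : ∀ z, Safe (vec T D z))
    (h2 : Safe (fun j => vec T D p j + if j = i then 18 else 0)) :
    ∃ T1 : Fin 9 → Finset Γ, (∀ j, T j ⊆ T1 j) ∧ (∀ z, Safe (vec T1 D z)) ∧
      (∀ s ∈ A, s * p ∈ T1 i) ∧ ∀ j, ∀ t ∈ T1 j, t ∈ T j ∨ ∃ s ∈ A, t = s * p := by
  classical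
  refine ⟨fun j => if j = i then T j ∪ A.image (· * p) else T j, ?_, ?_, ?_, ?_⟩
  · intro j
    by_cases hj : j = i
    · simp only [hj, if_true]; exact Finset.subset_union_left
    · simp only [hj, if_false]; exact subset_rfl
  · intro z
    by_cases hz : Rel D z p
    · refine safe_mono (fun j => ?_) h2
      have hv : ∀ U : Finset Γ, U.filter (Rel D z) = U.filter (Rel D p) := by
        intro U
        refine Finset.filter_congr fun t _ => ⟨fun h => hz.symm.trans h, fun h => hz.trans h⟩
      unfold vec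
      by_cases hj : j = i
      · simp only [hj, if_true]
        rw [Finset.filter_union]
        refine (Finset.card_union_le _ _).trans ?_
        refine Nat.add_le_add ?_ ?_
        · exact le_of_eq (by convert congrArg Finset.card (hv (T i)))
        · exact (Finset.card_filter_le _ _).trans (Finset.card_image_le.trans hA)
      · simp only [hj, if_false, add_zero]
        exact le_of_eq (by convert congrArg Finset.card (hv (T j)))
    · refine safe_mono (fun j => ?_) (h1 z)
      unfold vec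
      refine Finset.card_le_card fun t ht => ?_
      simp only [Finset.mem_filter] at ht ⊢
      refine ⟨?_, ht.2⟩
      by_cases hj : j = i
      · simp only [hj, if_true, Finset.mem_union, Finset.mem_image] at ht
        rcases ht.1 with h | ⟨s, hs, rfl⟩
        · exact hj ▸ h
        · exact absurd (ht.2.trans (hp s hs).symm) hz
      · simpa only [hj, if_false] using ht.1
  · intro s hs
    simp only [if_true, Finset.mem_union, Finset.mem_image]
    exact Or.inr ⟨s, hs, rfl⟩
  · intro j t ht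
    by_cases hj : j = i
    · simp only [hj, if_true, Finset.mem_union, Finset.mem_image] at ht
      rcases ht with h | ⟨s, hs, rfl⟩
      · exact Or.inl (hj ▸ h)
      · exact Or.inr ⟨s, hs, rfl⟩
    · exact Or.inl (by simpa only [hj, if_false] using ht)

theorem safe_zero (i : Fin 9) : Safe (fun j => 0 + if j = i then 18 else 0) :=
  safe_add 1 i (by simp)

theorem main (col : ℕ → Fin 9) (S : ℕ → Finset Γ) (hS : ∀ k, ∀ s ∈ S k, s ∈ H k)
    (hc : ∀ k, (S k).card ≤ 18) (k0 : ℕ) (n : ℕ) :
    ∀ E : Finset (ℕ × Γ), E.card = n → (∀ e ∈ E, ¬ (e.1 < k0 ∧ e.2 ∈ H k0)) →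
    ∀ T : Fin 9 → Finset Γ, (∀ z, Safe (vec T (DE E) z)) →
      (∀ j, ∀ t ∈ T j, ¬ Rel (DE E ∪ L k0) 1 t) →
      ∃ T' : Fin 9 → Finset Γ, (∀ j, T j ⊆ T' j) ∧ (∀ z, ∃ j, z ∉ T' j) ∧
        (∀ j, ∀ t ∈ T' j, t ∉ H k0) ∧ ∀ e ∈ E, Cov col S T' e := by
  classical
  induction n with
  | zero =>
    intro E hE _ T h1 h2
    rw [Finset.card_eq_zero] at hE
    subst hE
    refine ⟨T, fun _ => subset_rfl, fun z => ?_, fun j t ht hH => ?_, by simp⟩
    · by_contra hz
      push Not at hz
      refine not_safe (fun j => ?_) (h1 z)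
      unfold vec
      exact Finset.card_pos.2 ⟨z, by simp only [Finset.mem_filter]; exact ⟨hz j, Rel.refl _ _⟩⟩
    · refine h2 j t ht ?_
      have := rel_H (D := DE ∅ ∪ L k0) (k := k0) (fun m hm z => Or.inr hm) hH 1
      rwa [mul_one] at this
  | succ n ih =>
    intro E hE hroot T h1 h2
    obtain ⟨⟨k, y⟩, he, hmax⟩ := E.exists_max_image Prod.fst (Finset.card_pos.1 (by omega))
    set E' := E.erase (k, y) with hE'
    set D2 : Set (ℕ × Γ) := DE E \ {(k, y)} with hD2
    have hlow : ∀ m < k, ∀ z, (m, z) ∈ D2 := by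
      intro m hm z
      refine ⟨Or.inr ⟨(k, y), he, hm⟩, fun h => ?_⟩
      have := congrArg Prod.fst (Set.mem_singleton_iff.1 h)
      simp only at this
      omega
    have hsub : DE E' ⊆ D2 := by
      rintro e (h | ⟨e', h', hlt⟩)
      · exact ⟨Or.inl (Finset.mem_of_mem_erase h), Finset.ne_of_mem_erase h⟩
      · have := hmax e' (Finset.mem_of_mem_erase h')
        exact hlow e.1 (lt_of_lt_of_le hlt this) e.2
    have hsub2 : D2 ⊆ DE E := Set.sdiff_subset
    have hnr : ¬ Rel D2 y (x k * y) := not_rel fun h => h.2 rfl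
    have hedge : Rel (DE E) y (x k * y) := rel_edge (Or.inl he)
    obtain ⟨R, R1, R2, R3, R4⟩ : ∃ R : Set (ℕ × Γ), DE E' ∪ L k0 ⊆ R ∧
        (∀ m < k, ∀ z, (m, z) ∈ R) ∧ R ⊆ DE E ∪ L k0 ∧ ¬ (Rel R 1 y ∧ Rel R 1 (x k * y)) := by
      by_cases hk : k < k0
      · refine ⟨L k0, ?_, fun m hm z => lt_trans hm hk, Set.subset_union_right, fun h => ?_⟩
        · rintro e (h | h)
          · rcases hsub2 (hsub h) with h' | ⟨e', h', hlt⟩
            · exact lt_of_le_of_lt (hmax e h') hk
            · exact lt_trans (lt_of_lt_of_le hlt (hmax e' h')) hk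
          · exact h
        · exact not_rel_H (fun hy => hroot _ he ⟨hk, hy⟩) h.1
      · refine ⟨D2, ?_, hlow, hsub2.trans Set.subset_union_left, fun h => hnr (h.1.symm.trans h.2)⟩
        rintro e (h | h)
        · exact hsub h
        · exact hlow e.1 (lt_of_lt_of_le h (not_lt.1 hk)) e.2
    have hzero : ∀ p, Rel (DE E ∪ L k0) 1 p →
        Safe (fun j => vec T D2 p j + if j = col k then 18 else 0) := by
      intro p hp
      refine safe_mono (fun j => ?_) (safe_zero (col k))
      refine Nat.add_le_add_right (le_of_eq ?_) _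
      unfold vec
      rw [Finset.card_eq_zero, Finset.filter_eq_empty_iff]
      intro t ht hr
      exact h2 j t ht (hp.trans (hr.mono (hsub2.trans Set.subset_union_left)))
    obtain ⟨p, hp, hp1, hp2⟩ : ∃ p, (p = y ∨ p = x k * y) ∧ ¬ Rel R 1 p ∧
        Safe (fun j => vec T D2 p j + if j = col k then 18 else 0) := by
      by_cases ha : Rel R 1 y
      · exact ⟨x k * y, Or.inr rfl, fun h => R4 ⟨ha, h⟩,
          hzero _ ((ha.mono R3).trans (hedge.mono Set.subset_union_left))⟩
      by_cases hb : Rel R 1 (x k * y)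
      · exact ⟨y, Or.inl rfl, ha,
          hzero _ ((hb.mono R3).trans (hedge.mono Set.subset_union_left).symm)⟩
      have hle : ∀ j, vec T D2 y j + vec T D2 (x k * y) j ≤ vec T (DE E) y j := by
        intro j
        unfold vec
        rw [← Finset.card_union_of_disjoint]
        · refine Finset.card_le_card fun t ht => ?_
          simp only [Finset.mem_union, Finset.mem_filter] at ht ⊢
          rcases ht with h | h
          · exact ⟨h.1, h.2.mono hsub2⟩
          · exact ⟨h.1, hedge.trans (h.2.mono hsub2)⟩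
        · rw [Finset.disjoint_left]
          intro t h h'
          simp only [Finset.mem_filter] at h h'
          exact hnr (h.2.trans h'.2.symm)
      rcases safe_split (col k) hle (h1 y) with h | h
      · exact ⟨y, Or.inl rfl, ha, h⟩
      · exact ⟨x k * y, Or.inr rfl, hb, h⟩
    obtain ⟨T1, t1, t2, t3, t4⟩ := add_tokens T (col k) (S k) (hc k) D2 p
      (fun s hs => rel_H hlow (hS k s hs) p)
      (fun z => safe_mono (vec_mono T hsub2 z) (h1 z)) hp2
    obtain ⟨T', u1, u2, u3, u4⟩ := ih E' (by rw [hE', Finset.card_erase_of_mem he]; omega)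
      (fun e h => hroot e (Finset.mem_of_mem_erase h)) T1
      (fun z => safe_mono (vec_mono T1 hsub z) (t2 z)) (by
        intro j t ht hr
        rcases t4 j t ht with h | ⟨s, hs, rfl⟩
        · exact h2 j t h (hr.mono (R1.trans R3))
        · exact hp1 ((hr.mono R1).trans (rel_H R2 (hS k s hs) p).symm))
    refine ⟨T', fun j => (t1 j).trans (u1 j), u2, u3, fun e hE0 => ?_⟩
    by_cases hek : e = (k, y)
    · subst hek
      rcases hp with rfl | rfl
      · exact Or.inl fun s hs => u1 _ (t3 s hs)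
      · exact Or.inr fun s hs => u1 _ (t3 s hs)
    · exact u4 e (Finset.mem_erase.2 ⟨hek, hE0⟩)

end H22.Part
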