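import Pool.Agent.H22.Part2

set_option autoImplicit false

namespace H22.Part

def Con (col : ℕ → Fin 9) (S : ℕ → Finset Γ) (χ : Γ → Fin 9) (k : ℕ) (y : Γ) : Prop :=
  (∀ s ∈ S k, χ (s * y) ≠ col k) ∨ (∀ s ∈ S k, χ (s * (x k * y)) ≠ col k)

theorem con_congr {col : ℕ → Fin 9} {S : ℕ → Finset Γ} (hS : ∀ k, ∀ s ∈ S k, s ∈ H k)
    {χ χ' : Γ → Fin 9} {K m : ℕ} {y : Γ} (hm : m < K) (hy : y ∈ H K)
    (h : ∀ z ∈ H K, χ' z = χ z) (hc : Con col S χ m y) : Con col S χ' m y := by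
  have hx : x m ∈ H K := Subgroup.subset_closure ⟨m, hm, rfl⟩
  rcases hc with hc | hc
  · refine Or.inl fun s hs => ?_
    rw [h _ (mul_mem (H_mono hm.le (hS m s hs)) hy)]
    exact hc s hs
  · refine Or.inr fun s hs => ?_
    rw [h _ (mul_mem (H_mono hm.le (hS m s hs)) (mul_mem hx hy))]
    exact hc s hs

theorem stage (col : ℕ → Fin 9) (S : ℕ → Finset Γ) (hS : ∀ k, ∀ s ∈ S k, s ∈ H k)
    (hc : ∀ k, (S k).card ≤ 18) (k0 : ℕ) (χ0 : Γ → Fin 9)
    (h0 : ∀ m < k0, ∀ y ∈ H k0, Con col S χ0 m y) (P : ℕ → Prop)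
    (hP : ∀ a b, a < b → P b → P a) (T : Fin 9 → Finset Γ)
    (h1 : ∀ z, Safe (vec T {e | P e.1} z))
    (h2 : ∀ j, ∀ t ∈ T j, ¬ Rel ({e | P e.1} ∪ L k0) 1 t) :
    ∃ χ : Γ → Fin 9, (∀ y ∈ H k0, χ y = χ0 y) ∧ (∀ j, ∀ t ∈ T j, χ t ≠ j) ∧
      ∀ m, P m → ∀ y, Con col S χ m y := by
  classical
  let B : Set (Γ → Fin 9) := {χ | (∀ y ∈ H k0, χ y = χ0 y) ∧ ∀ j, ∀ t ∈ T j, χ t ≠ j}
  have hcl : ∀ (z : Γ) (Q : Fin 9 → Prop), IsClosed {χ : Γ → Fin 9 | Q (χ z)} := fun z Q =>
    (isClosed_discrete {c | Q c}).preimage (continuous_apply z)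
  have hB : IsClosed B := by
    simp only [B, Set.ofPred_and, Set.ofPred_forall]
    refine IsClosed.inter ?_ ?_
    · exact isClosed_iInter fun y => isClosed_iInter fun _ => hcl y (· = χ0 y)
    · exact isClosed_iInter fun j => isClosed_iInter fun t => isClosed_iInter fun _ =>
        hcl t (· ≠ j)
  let C : {e : ℕ × Γ // P e.1} → Set (Γ → Fin 9) := fun e => {χ | Con col S χ e.1.1 e.1.2}
  have hC : ∀ e, IsClosed (C e) := by
    intro e
    simp only [C, Con, Set.ofPred_or, Set.ofPred_forall]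
    refine IsClosed.union ?_ ?_
    · exact isClosed_iInter fun s => isClosed_iInter fun _ => hcl _ (· ≠ col e.1.1)
    · exact isClosed_iInter fun s => isClosed_iInter fun _ => hcl _ (· ≠ col e.1.1)
  obtain ⟨χ, hχ, hχ'⟩ := hB.isCompact.inter_iInter_nonempty C hC (by
    intro u
    set E : Finset (ℕ × Γ) := (u.image Subtype.val).filter
      (fun e => ¬ (e.1 < k0 ∧ e.2 ∈ H k0)) with hE
    have hEP : DE E ⊆ {e | P e.1} := by
      have hq : ∀ e ∈ E, P e.1 := by
        intro e he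
        simp only [hE, Finset.mem_filter, Finset.mem_image] at he
        obtain ⟨⟨a, _, rfl⟩, _⟩ := he
        exact a.2
      rintro e (h | ⟨e', h', hlt⟩)
      · exact hq e h
      · exact hP _ _ hlt (hq e' h')
    obtain ⟨T', u1, u2, u3, u4⟩ := main col S hS hc k0 _ E rfl
      (fun e he => (Finset.mem_filter.1 he).2) T
      (fun z => safe_mono (vec_mono T hEP z) (h1 z))
      (fun j t ht hr => h2 j t ht (hr.mono (Set.union_subset_union_left _ hEP)))
    choose c hcz using u2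
    have key : ∀ j, ∀ t ∈ T' j, (if t ∈ H k0 then χ0 t else c t) ≠ j := by
      intro j t ht
      rw [if_neg (u3 j t ht)]
      rintro rfl
      exact hcz t ht
    refine ⟨fun z => if z ∈ H k0 then χ0 z else c z,
      ⟨fun y hy => if_pos hy, fun j t ht => key j t (u1 j ht)⟩, ?_⟩
    simp only [Set.mem_iInter]
    intro e he
    by_cases hr : e.1.1 < k0 ∧ e.1.2 ∈ H k0
    · exact con_congr hS hr.1 hr.2 (fun z hz => if_pos hz) (h0 _ hr.1 _ hr.2)
    · have : e.1 ∈ E := Finset.mem_filter.2 ⟨Finset.mem_image_of_mem _ he, hr⟩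
      rcases u4 _ this with h | h
      · exact Or.inl fun s hs => key _ _ (h s hs)
      · exact Or.inr fun s hs => key _ _ (h s hs))
  refine ⟨χ, hχ.1, hχ.2, fun m hm y => ?_⟩
  exact Set.mem_iInter.1 hχ' ⟨(m, y), hm⟩

/-- exponent sum of the generator `x k` -/
noncomputable def dg (k : ℕ) : Γ →* Multiplicative ℤ :=
  FreeGroup.lift fun m => if m = k then Multiplicative.ofAdd 1 else 1

theorem dg_x (k m : ℕ) : dg k (x m) = if m = k then Multiplicative.ofAdd 1 else 1 :=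
  FreeGroup.lift_apply_of

theorem dg_rel {k : ℕ} {a b : Γ} (h : Rel (L k) a b) : dg k a = dg k b := by
  classical
  have := h (fun z => if dg k z = dg k a then 1 else 0) (by
    intro e he
    have : e.1 ≠ k := ne_of_lt he
    simp only [map_mul, dg_x, if_neg this, one_mul])
  by_contra hne
  simp [Ne.symm hne] at this

theorem safe_ind (i : Fin 9) : Safe (fun j => if j = i then 0 else 1) := by
  refine ⟨1, ?_⟩
  revert i
  decide

theorem witness (col : ℕ → Fin 9) (S : ℕ → Finset Γ) (hS : ∀ k, ∀ s ∈ S k, s ∈ H k)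
    (hc : ∀ k, (S k).card ≤ 18) (k : ℕ) (χ0 : Γ → Fin 9)
    (h0 : ∀ m < k, ∀ y ∈ H k, Con col S χ0 m y) (g : Γ) (hg : g ∈ H k) (i j : Fin 9) :
    ∃ χ : Γ → Fin 9, (∀ y ∈ H k, χ y = χ0 y) ∧ χ (x k) = i ∧ χ ((x k)⁻¹ * g) = j ∧
      ∀ m < k, ∀ y, Con col S χ m y := by
  classical
  have hg1 : dg k g = 1 := by
    have := dg_rel (rel_H (D := L k) (k := k) (fun m hm z => hm) hg 1)
    rw [mul_one, map_one] at this
    exact this.symm
  have ha : dg k (x k) = Multiplicative.ofAdd 1 := by rw [dg_x, if_pos rfl]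
  have hb : dg k ((x k)⁻¹ * g) = Multiplicative.ofAdd (-1) := by
    rw [map_mul, map_inv, ha, hg1, mul_one]; rfl
  let T : Fin 9 → Finset Γ := fun c =>
    (if c = i then ∅ else {x k}) ∪ (if c = j then ∅ else {(x k)⁻¹ * g})
  have hT : ∀ c t, t ∈ T c ↔ (c ≠ i ∧ t = x k) ∨ (c ≠ j ∧ t = (x k)⁻¹ * g) := by
    intro c t
    simp only [T, Finset.mem_union]
    have hh : ∀ (p : Prop) [Decidable p] (u : Γ),
        t ∈ (if p then ∅ else {u} : Finset Γ) ↔ ¬ p ∧ t = u := by
      intro p _ u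
      split_ifs <;> simp [*]
    rw [hh, hh]
  obtain ⟨χ, c1, c2, c3⟩ := stage col S hS hc k χ0 h0 (· < k) (fun a b h h' => lt_trans h h') T
    (by
      intro z
      by_cases hz : Rel (L k) z (x k)
      · refine safe_mono (fun c => ?_) (safe_ind i)
        unfold vec
        have : ∀ t ∈ T c, Rel (L k) z t → c ≠ i ∧ t = x k := by
          intro t ht hr
          rcases (hT c t).1 ht with h | ⟨_, rfl⟩
          · exact h
          · have := dg_rel (hz.symm.trans hr)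
            rw [ha, hb] at this
            exact absurd (Multiplicative.ofAdd.injective this) (by decide)
        split_ifs with hci
        · rw [Nat.le_zero, Finset.card_eq_zero, Finset.filter_eq_empty_iff]
          exact fun t ht hr => (this t ht hr).1 hci
        · refine Finset.card_le_one.2 fun a ha' b hb' => ?_
          simp only [Finset.mem_filter] at ha' hb'
          rw [(this a ha'.1 ha'.2).2, (this b hb'.1 hb'.2).2]
      · refine safe_mono (fun c => ?_) (safe_ind j)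
        unfold vec
        have : ∀ t ∈ T c, Rel (L k) z t → c ≠ j ∧ t = (x k)⁻¹ * g := by
          intro t ht hr
          rcases (hT c t).1 ht with ⟨_, rfl⟩ | h
          · exact absurd hr hz
          · exact h
        split_ifs with hci
        · rw [Nat.le_zero, Finset.card_eq_zero, Finset.filter_eq_empty_iff]
          exact fun t ht hr => (this t ht hr).1 hci
        · refine Finset.card_le_one.2 fun a ha' b hb' => ?_
          simp only [Finset.mem_filter] at ha' hb'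
          rw [(this a ha'.1 ha'.2).2, (this b hb'.1 hb'.2).2])
    (by
      intro c t ht hr
      have hr' : Rel (L k) 1 t := hr.mono (Set.union_subset subset_rfl subset_rfl)
      have := dg_rel hr'
      rw [map_one] at this
      rcases (hT c t).1 ht with ⟨_, rfl⟩ | ⟨_, rfl⟩
      · rw [ha] at this
        exact absurd (Multiplicative.ofAdd.injective (a₁ := 0) this) (by decide)
      · rw [hb] at this
        exact absurd (Multiplicative.ofAdd.injective (a₁ := 0) this) (by decide))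
  refine ⟨χ, c1, ?_, ?_, c3⟩
  · by_contra h
    exact c2 _ _ ((hT _ _).2 (Or.inl ⟨h, rfl⟩)) rfl
  · by_contra h
    exact c2 _ _ ((hT _ _).2 (Or.inr ⟨h, rfl⟩)) rfl

instance : Countable Γ := inferInstanceAs (Countable (Quot _))

theorem exists_coloring : ∃ χ : Γ → Fin 9,
    (∀ (i : Fin 9) (F : Finset Γ), F.card ≤ 18 → ∃ g : Γ, ∀ y : Γ,
      (∀ s ∈ F, χ (s * y) ≠ i) ∨ (∀ s ∈ F, χ (s * (g * y)) ≠ i)) ∧
    ∀ (i j : Fin 9) (g : Γ), ∃ a : Γ, χ a = i ∧ χ (a⁻¹ * g) = j := by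
  classical
  obtain ⟨e, he⟩ := exists_surjective_nat ((Fin 9 × Finset Γ) ⊕ (Γ × Fin 9 × Fin 9))
  let d : ℕ → (Fin 9 × Finset Γ) ⊕ (Γ × Fin 9 × Fin 9) := fun k => e (Nat.unpair k).1
  have hd : ∀ v K, ∃ k, K ≤ k ∧ d k = v := by
    intro v K
    obtain ⟨a, rfl⟩ := he v
    exact ⟨Nat.pair a K, Nat.right_le_pair _ _, by simp only [d, Nat.unpair_pair]⟩
  let col : ℕ → Fin 9 := fun k => Sum.elim Prod.fst (fun _ => 0) (d k)
  let S : ℕ → Finset Γ := fun k => Sum.elim
    (fun p => if (∀ s ∈ p.2, s ∈ H k) ∧ p.2.card ≤ 18 then p.2 else ∅) (fun _ => ∅) (d k)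
  have hS : ∀ k, (∀ s ∈ S k, s ∈ H k) ∧ (S k).card ≤ 18 := by
    intro k
    simp only [S]
    rcases d k with p | p
    · simp only [Sum.elim_inl]
      split_ifs with h
      · exact h
      · simp
    · simp
  let Good : ℕ → (Γ → Fin 9) → Prop := fun k χ => ∀ m < k, ∀ y ∈ H k, Con col S χ m y
  have step : ∀ k χ0, Good k χ0 → ∃ χ, (∀ y ∈ H k, χ y = χ0 y) ∧ Good (k + 1) χ ∧
      ∀ g i j, d k = Sum.inr (g, i, j) → g ∈ H k → χ (x k) = i ∧ χ ((x k)⁻¹ * g) = j := by
    intro k χ0 h0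
    by_cases hw : ∃ g i j, d k = Sum.inr (g, i, j) ∧ g ∈ H k
    · obtain ⟨g, i, j, h1, h2⟩ := hw
      obtain ⟨χ, c1, c2, c3, c4⟩ := witness col S (fun k => (hS k).1) (fun k => (hS k).2) k χ0
        h0 g h2 i j
      refine ⟨χ, c1, fun m hm y _ => ?_, fun g' i' j' h _ => ?_⟩
      · rcases Nat.lt_succ_iff_lt_or_eq.1 hm with h | rfl
        · exact c4 m h y
        · left
          simp only [S, h1, Sum.elim_inr]
          simp
      · rw [h1] at h
        simp only [Sum.inr.injEq, Prod.mk.injEq] at h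
        obtain ⟨rfl, rfl, rfl⟩ := h
        exact ⟨c2, c3⟩
    · obtain ⟨χ, c1, _, c3⟩ := stage col S (fun k => (hS k).1) (fun k => (hS k).2) k χ0 h0
        (fun _ => True) (fun _ _ _ _ => trivial) (fun _ => ∅)
        (fun z => safe_mono (fun j => by simp [vec]) (safe_ind 0)) (by simp)
      exact ⟨χ, c1, fun m _ y _ => c3 m trivial y,
        fun g i j h h' => absurd ⟨g, i, j, h, h'⟩ hw⟩
  choose nx n1 n2 n3 using step
  let sq : ∀ k, {χ // Good k χ} := fun k => Nat.rec ⟨fun _ => 0, fun m hm => absurd hm (Nat.not_lt_zero m)⟩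
    (fun k p => ⟨nx k p.1 p.2, n2 k p.1 p.2⟩) k
  have hsq : ∀ k, (sq (k + 1)).1 = nx k (sq k).1 (sq k).2 := fun k => rfl
  have hagree : ∀ k l, k ≤ l → ∀ y ∈ H k, (sq l).1 y = (sq k).1 y := by
    intro k l hkl y hy
    induction l, hkl using Nat.le_induction with
    | base => rfl
    | succ l hl ih => rw [hsq, n1 l _ _ y (H_mono hl hy), ih]
  choose lv hlv using mem_H
  have hfin : ∀ k, ∀ y ∈ H k, (sq (lv y)).1 y = (sq k).1 y := by
    intro k y hy
    rcases le_total k (lv y) with h | h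
    · exact hagree _ _ h y hy
    · exact (hagree _ _ h y (hlv y)).symm
  refine ⟨fun y => (sq (lv y)).1 y, fun i F hF => ?_, fun i j g => ?_⟩
  · obtain ⟨k, hk, hdk⟩ := hd (Sum.inl (i, F)) (F.sup lv)
    have hFk : ∀ s ∈ F, s ∈ H k := fun s hs =>
      H_mono ((Finset.le_sup hs).trans hk) (hlv s)
    have e1 : S k = F := by
      simp only [S, hdk, Sum.elim_inl]
      exact if_pos ⟨hFk, hF⟩
    have e2 : col k = i := by simp only [col, hdk, Sum.elim_inl]
    refine ⟨x k, fun y => ?_⟩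
    have hy : y ∈ H (max (k + 1) (lv y)) := H_mono (le_max_right _ _) (hlv y)
    have hm : k < max (k + 1) (lv y) := lt_of_lt_of_le (Nat.lt_succ_self k) (le_max_left _ _)
    have := con_congr (fun k => (hS k).1) hm hy (χ' := fun y => (sq (lv y)).1 y)
      (hfin _) ((sq _).2 k hm y hy)
    unfold Con at this
    rwa [e1, e2] at this
  · obtain ⟨k, hk, hdk⟩ := hd (Sum.inr (g, i, j)) (lv g)
    have hg : g ∈ H k := H_mono hk (hlv g)
    have hx : x k ∈ H (k + 1) := Subgroup.subset_closure ⟨k, Nat.lt_succ_self k, rfl⟩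
    obtain ⟨w1, w2⟩ := n3 k (sq k).1 (sq k).2 g i j hdk hg
    refine ⟨x k, ?_, ?_⟩
    · exact (hfin _ _ hx).trans w1
    · exact (hfin _ _ (mul_mem (inv_mem hx) (H_mono (Nat.le_succ k) hg))).trans w2

/-- no cell `A` of the colouring has `F A A⁻¹ F⁻¹ = Γ` with `|F| ≤ 18` -/
theorem exists_partition : ∃ χ : Γ → Fin 9,
    (∀ (i : Fin 9) (F : Finset Γ), F.card ≤ 18 → ∃ g : Γ, ∀ f ∈ F, ∀ f' ∈ F, ∀ a b : Γ,
      χ a = i → χ b = i → g ≠ f * a * b⁻¹ * f'⁻¹) ∧
    ∀ (i j : Fin 9) (g : Γ), ∃ a b : Γ, χ a = i ∧ χ b = j ∧ a * b = g := by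
  classical
  obtain ⟨χ, h1, h2⟩ := exists_coloring
  refine ⟨χ, fun i F hF => ?_, fun i j g => ?_⟩
  · obtain ⟨g, hg⟩ := h1 i (F.image (·⁻¹)) (Finset.card_image_le.trans hF)
    refine ⟨g, fun f hf f' hf' a b ha hb h => ?_⟩
    rcases hg (f' * b) with h' | h'
    · refine h' f'⁻¹ (Finset.mem_image_of_mem _ hf') ?_
      rw [inv_mul_cancel_left, hb]
    · refine h' f⁻¹ (Finset.mem_image_of_mem _ hf) ?_
      rw [h, ← ha]
      congr 1
      group
  · obtain ⟨a, ha, hb⟩ := h2 i j g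
    exact ⟨a, _, ha, hb, mul_inv_cancel_left a g⟩

end H22.Part
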