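import Mathlib

namespace Pool.Agent.H22.PiLen

open Subgroup Function
open scoped commutatorElement

theorem it_eq {G : Type} [Group G] (N : Subgroup G) (c : ℕ) :
    (fun K : Subgroup G => ⁅K, N⁆)^[c] N = N.lowerCentralSeries c := by
  induction c with
  | zero => rfl
  | succ c ih => rw [iterate_succ_apply', ih]; rfl

theorem ratio {G : Type} [Group G] [Finite G] {A B : Subgroup G} (h : A ≤ B) :
    Nat.card B / Nat.card A = A.relIndex B := by
  have := relIndex_mul_relIndex ⊥ A B bot_le h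
  rw [relIndex_bot_left, relIndex_bot_left] at this
  rw [← this, Nat.mul_div_cancel_left _ Nat.card_pos]

theorem rel_map {G H : Type} [Group G] [Group H] (φ : G →* H) {A B : Subgroup G} (h : A ≤ B) :
    (A.map φ).relIndex (B.map φ) ∣ A.relIndex B := by
  have := index_map_dvd (A.subgroupOf B) (φ.subgroupMap_surjective B)
  have e : (A.subgroupOf B).map (φ.subgroupMap B) = (A.map φ).subgroupOf (B.map φ) := by
    ext y
    constructor
    · rintro ⟨x, hx, rfl⟩
      exact ⟨x, hx, rfl⟩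
    · rintro ⟨x, hx, e⟩
      exact ⟨⟨x, h hx⟩, hx, Subtype.ext e⟩
  rwa [e] at this

def Len (π : Set ℕ) (G : Type) [Group G] (m : ℕ) : Prop :=
  ∃ (k : ℕ) (s : ℕ → Subgroup G) (T : Finset ℕ), T.card ≤ m ∧
    s 0 = ⊥ ∧ s k = ⊤ ∧ (∀ i ≤ k, (s i).Normal) ∧ (∀ i < k, s i ≤ s (i + 1)) ∧
    ∀ i < k, (∀ q : ℕ, q.Prime → q ∣ Nat.card (s (i + 1)) / Nat.card (s i) → q ∉ π) ∨
      (i ∈ T ∧ (∀ q : ℕ, q.Prime → q ∣ Nat.card (s (i + 1)) / Nat.card (s i) → q ∈ π) ∧
        ∃ c : ℕ, (fun K : Subgroup G => ⁅K, s (i + 1)⁆)^[c] (s (i + 1)) ≤ s i)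

variable {π : Set ℕ} {G H : Type} [Group G] [Group H] [Finite G]

theorem push (φ : G →* H) (hφ : Surjective φ) {k : ℕ} {s : ℕ → Subgroup G} {T T' : Finset ℕ}
    {m : ℕ} (hm : T'.card ≤ m) (h0 : s 0 = ⊥) (hk : s k = ⊤) (hn : ∀ i ≤ k, (s i).Normal)
    (hle : ∀ i < k, s i ≤ s (i + 1))
    (hf : ∀ i < k, (∀ q : ℕ, q.Prime → q ∣ Nat.card (s (i + 1)) / Nat.card (s i) → q ∉ π) ∨
      (i ∈ T ∧ (∀ q : ℕ, q.Prime → q ∣ Nat.card (s (i + 1)) / Nat.card (s i) → q ∈ π) ∧
        ∃ c : ℕ, (fun K : Subgroup G => ⁅K, s (i + 1)⁆)^[c] (s (i + 1)) ≤ s i))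
    (hT : ∀ i ∈ T, i ∈ T' ∨ s (i + 1) ≤ φ.ker) : Len π H m := by
  have : Finite H := Finite.of_surjective φ hφ
  refine ⟨k, fun i => (s i).map φ, T', hm, by simp [h0], by
    simp only [hk]; exact map_top_of_surjective φ hφ, fun i hi => (hn i hi).map φ hφ,
    fun i hi => map_mono (hle i hi), fun i hi => ?_⟩
  have d := rel_map φ (hle i hi)
  rw [← ratio (hle i hi), ← ratio (map_mono (hle i hi))] at d
  rcases hf i hi with h | ⟨h1, h2, c, h3⟩
  · exact Or.inl fun q hq hd => h q hq (hd.trans d)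
  rcases hT i h1 with h | h
  · refine Or.inr ⟨h, fun q hq hd => h2 q hq (hd.trans d), c, ?_⟩
    rw [it_eq] at h3 ⊢
    rw [← map_lowerCentralSeries]
    exact map_mono h3
  · refine Or.inl fun q hq hd => absurd hd ?_
    beta_reduce
    rw [(Subgroup.map_eq_bot_iff _).2 h, (Subgroup.map_eq_bot_iff _).2 ((hle i hi).trans h)]
    simpa using hq.one_lt.ne'

theorem Len.quot (φ : G →* H) (hφ : Surjective φ) {m : ℕ} (h : Len π G m) : Len π H m := by
  obtain ⟨k, s, T, a, b, c, d, e, f⟩ := h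
  exact push φ hφ a b c d e f fun i hi => Or.inl hi

structure Layer (p : ℕ) (φ : G →* H) : Prop where
  surj : Surjective φ
  ne : Nontrivial G
  ex : ∀ b ∈ φ.ker, b ^ p = 1
  cent : ∀ g, g ∈ φ.ker ↔ ∀ b ∈ φ.ker, g * b = b * g
  card : ∃ e, Nat.card G = p ^ e * Nat.card H

omit [Finite G] in
theorem Layer.meet {p : ℕ} (hp : p.Prime) {φ : G →* H} (L : Layer p φ) (N : Subgroup G)
    [N.Normal] (hN : N ≠ ⊥) : ∃ x ∈ N, orderOf x = p := by
  have : Fact p.Prime := ⟨hp⟩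
  obtain ⟨⟨n, hn⟩, hn1⟩ := ne_bot_iff_exists_ne_one.1 hN
  have hn1' : n ≠ 1 := fun e => hn1 (Subtype.ext e)
  by_cases h : n ∈ φ.ker
  · exact ⟨n, hn, orderOf_eq_prime (L.ex n h) hn1'⟩
  rw [L.cent] at h
  push Not at h
  obtain ⟨b, hb, h⟩ := h
  refine ⟨⁅n, b⁆, ?_, orderOf_eq_prime (L.ex _ ?_) fun e => h (commutatorElement_eq_one_iff_mul_comm.1 e)⟩
  · exact commutator_le_left N ⊤ (commutator_mem_commutator hn (mem_top b))
  · exact commutator_le_right ⊤ φ.ker (commutator_mem_commutator (mem_top n) hb)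

theorem Layer.drop {p : ℕ} (hp : p.Prime) (hπ : p ∈ π) {φ : G →* H} (L : Layer p φ)
    (hO : ∀ N : Subgroup H, N.Normal → N ≠ ⊥ → ∃ x ∈ N, x ≠ 1 ∧ (orderOf x).Coprime p)
    {m : ℕ} (h : Len π G m) : 1 ≤ m ∧ Len π H (m - 1) := by
  classical
  obtain ⟨k, s, T, hm, h0, hk, hn, hle, hf⟩ := h
  have ex : ∃ i, i < k ∧ s (i + 1) ≠ ⊥ := by
    have := L.ne
    rcases k with _ | k
    · exact absurd (h0.symm.trans hk) bot_ne_top
    · exact ⟨k, Nat.lt_succ_self k, hk ▸ top_ne_bot⟩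
  obtain ⟨hi, hN⟩ := Nat.find_spec ex
  have hb : s (Nat.find ex) = ⊥ := by
    rcases e : Nat.find ex with _ | j
    · exact h0
    · by_contra hne
      exact Nat.find_min ex (m := j) (by omega) ⟨by omega, hne⟩
  generalize Nat.find ex = i at *
  have hNn := hn (i + 1) hi
  obtain ⟨x0, hx0, ho⟩ := L.meet hp _ hN
  rcases hf i hi with h | ⟨h1, -, c, h3⟩
  · exfalso
    refine h p hp ?_ hπ
    rw [hb, card_bot, Nat.div_one, ← ho, ← orderOf_mk x0 hx0]
    exact orderOf_dvd_natCard _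
  refine ⟨(Finset.card_pos.2 ⟨i, h1⟩).trans_le hm, push φ L.surj (T' := T.erase i)
    (by rw [Finset.card_erase_of_mem h1]; omega) h0 hk hn hle hf fun j hj => ?_⟩
  by_cases e : j = i
  swap
  · exact Or.inl (Finset.mem_erase.2 ⟨e, hj⟩)
  subst e
  right
  rw [it_eq, hb] at h3
  generalize s (j + 1) = N at *
  by_contra hc
  obtain ⟨_, ⟨x, hx, rfl⟩, hx1, hco⟩ := hO (N.map φ) (hNn.map φ L.surj)
    fun e => hc ((Subgroup.map_eq_bot_iff _).1 e)
  have mk : ∀ b ∈ φ.ker, ⁅b, x⁆ ∈ φ.ker := fun b hb =>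
    commutator_le_left φ.ker ⊤ (commutator_mem_commutator hb (mem_top x))
  have key : ∀ b ∈ φ.ker, ⁅⁅b, x⁆, x⁆ = 1 → ⁅b, x⁆ = 1 := by
    intro b hb h
    have hc : Commute ⁅b, x⁆ x := commutatorElement_eq_one_iff_mul_comm.1 h
    have h1 : x ^ orderOf (φ x) ∈ φ.ker := by
      rw [MonoidHom.mem_ker, map_pow, pow_orderOf_eq_one]
    have h2 : (⁅b, x⁆ * x) ^ orderOf (φ x) = x ^ orderOf (φ x) := by
      rw [commutatorElement_def, inv_mul_cancel_right, conj_pow, ← (L.cent _).1 h1 b hb,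
        mul_inv_cancel_right]
    rw [hc.mul_pow, mul_eq_right] at h2
    have := Nat.dvd_gcd (orderOf_dvd_of_pow_eq_one h2) (orderOf_dvd_of_pow_eq_one (L.ex _ (mk b hb)))
    rwa [hco, Nat.dvd_one, orderOf_eq_one_iff] at this
  have down : ∀ d j, j + d = c → ∀ b ∈ φ.ker, b ∈ N.lowerCentralSeries j → ⁅b, x⁆ = 1 := by
    intro d
    induction d with
    | zero =>
      intro j e b _ hb
      rw [show j = c from e] at hb
      rw [mem_bot.1 (h3 hb), commutatorElement_one_left]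
    | succ d ih =>
      intro j e b hb hb'
      exact key b hb (ih (j + 1) (by omega) _ (mk b hb) (commutator_mem_commutator hb' hx))
  refine hx1 ((L.cent x).2 fun b hb => (commutatorElement_eq_one_iff_mul_comm.1 ?_).symm)
  exact key b hb (down c 0 (by omega) _ (mk b hb)
    (commutator_le_right ⊤ N (commutator_mem_commutator (mem_top b) hx)))

omit [Finite G] in
theorem Layer.cop {p r : ℕ} (hp : p.Prime) (hr : r.Prime) (hne : p ≠ r) {φ : G →* H}
    (L : Layer p φ) (N : Subgroup G) (_ : N.Normal) (hN : N ≠ ⊥) :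
    ∃ x ∈ N, x ≠ 1 ∧ (orderOf x).Coprime r := by
  obtain ⟨x, hx, ho⟩ := L.meet hp N hN
  refine ⟨x, hx, fun e => hp.one_lt.ne (by rw [← ho, e, orderOf_one]), ?_⟩
  rw [ho]
  exact (Nat.coprime_primes hp hr).2 hne

theorem Layer.ratio {A B : Type} [Group A] [Group B] {p : ℕ} {φ : A →* B} (L : Layer p φ)
    (ψ : G →* A) (hψ : Surjective ψ) :
    ∃ e, Nat.card (φ.comp ψ).ker / Nat.card ψ.ker = p ^ e := by
  obtain ⟨e, he⟩ := L.card
  have : Finite A := Finite.of_surjective ψ hψ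
  have : Finite B := Finite.of_surjective φ L.surj
  have h1 := card_mul_index ψ.ker
  have h2 := card_mul_index (φ.comp ψ).ker
  rw [index_ker, MonoidHom.range_eq_top.2 hψ, card_top, he] at h1
  rw [index_ker, (MonoidHom.range_eq_top (f := φ.comp ψ)).2 (L.surj.comp hψ), card_top, ← h1, ← mul_assoc] at h2
  refine ⟨e, ?_⟩
  rw [Nat.eq_of_mul_eq_mul_right Nat.card_pos h2, Nat.mul_div_cancel_left _ Nat.card_pos]

abbrev W (p : ℕ) (Q : Type) [Group Q] := Multiplicative (ZMod p) ≀ᵣ Q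

theorem layer (p : ℕ) [Fact p.Prime] (Q : Type) [Group Q] [Finite Q] :
    Layer p (RegularWreathProduct.rightHom : W p Q →* Q) := by
  classical
  have mem : ∀ g : W p Q, g ∈ (RegularWreathProduct.rightHom : W p Q →* Q).ker ↔ g.right = 1 :=
    fun g => Iff.rfl
  refine ⟨fun q => ⟨⟨1, q⟩, rfl⟩, ⟨⟨1, ⟨fun _ => Multiplicative.ofAdd 1, 1⟩, fun h => ?_⟩⟩,
    fun b hb => ?_, fun g => ⟨fun hg b hb => ?_, fun h => ?_⟩, Nat.card Q, ?_⟩
  · have := congrFun (congrArg RegularWreathProduct.left h) 1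
    exact zero_ne_one (α := ZMod p) this
  · have : ∀ n : ℕ, b ^ n = ⟨b.left ^ n, 1⟩ := by
      intro n
      induction n with
      | zero => rw [pow_zero, pow_zero]; rfl
      | succ n ih => rw [pow_succ, ih]; ext <;> simp [(mem b).1 hb, pow_succ]
    rw [this]
    ext x
    · change p • (b.left x).toAdd = 0
      simp
    · rfl
  · ext <;> simp [(mem g).1 hg, (mem b).1 hb, mul_comm]
  · have := congrFun (congrArg RegularWreathProduct.left
      (h ⟨Pi.mulSingle 1 (Multiplicative.ofAdd 1), 1⟩ rfl)) 1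
    simp only [RegularWreathProduct.mul_left, Pi.mul_apply, mul_one, inv_one,
      Pi.mulSingle_eq_same] at this
    rw [mul_comm, mul_left_inj] at this
    by_contra hg
    rw [Pi.mulSingle_eq_of_ne (fun e => hg ((mem g).2 (inv_eq_one.1 e)))] at this
    exact zero_ne_one (α := ZMod p) this
  · rw [RegularWreathProduct.card]
    simp

instance : Fact (Nat.Prime 5) := ⟨by norm_num⟩

abbrev G1 := W 2 Unit
abbrev G2 := W 5 G1
abbrev G3 := W 2 G2
abbrev G4 := W 3 G3
abbrev G5 := W 5 G4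
abbrev G6 := W 3 G5

open RegularWreathProduct

theorem notLen : ¬ Len {2, 3} G6 3 := fun h => by
  have h5 := ((layer 3 G5).drop Nat.prime_three (by simp)
    ((layer 5 G4).cop Fact.out Nat.prime_three (by norm_num)) h).2
  have h4 := h5.quot _ (layer 5 G4).surj
  have h3 := ((layer 3 G3).drop Nat.prime_three (by simp)
    ((layer 2 G2).cop Nat.prime_two Nat.prime_three (by norm_num)) h4).2
  have h2 := ((layer 2 G2).drop Nat.prime_two (by simp)
    ((layer 5 G1).cop Fact.out Nat.prime_two (by norm_num)) h3).2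
  have h1 := h2.quot _ (layer 5 G1).surj
  have h0 := ((layer 2 Unit).drop Nat.prime_two (by simp)
    (fun N _ hN => absurd (Subsingleton.elim _ _) hN) h1).1
  omega

def f0 : G6 →* G6 := MonoidHom.id _
def f1 : G6 →* G5 := rightHom.comp f0
def f2 : G6 →* G4 := rightHom.comp f1
def f3 : G6 →* G3 := rightHom.comp f2
def f4 : G6 →* G2 := rightHom.comp f3
def f5 : G6 →* G1 := rightHom.comp f4
def f6 : G6 →* Unit := rightHom.comp f5

theorem s0 : Surjective f0 := surjective_id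
theorem s1 : Surjective f1 := (layer 3 _).surj.comp s0
theorem s2 : Surjective f2 := (layer 5 _).surj.comp s1
theorem s3 : Surjective f3 := (layer 3 _).surj.comp s2
theorem s4 : Surjective f4 := (layer 2 _).surj.comp s3
theorem s5 : Surjective f5 := (layer 5 _).surj.comp s4

def ser : ℕ → Subgroup G6
  | 0 => f0.ker
  | 1 => f1.ker
  | 2 => f2.ker
  | 3 => f3.ker
  | 4 => f4.ker
  | 5 => f5.ker
  | _ => f6.ker

def pr : ℕ → ℕ
  | 0 => 3
  | 1 => 5
  | 2 => 3
  | 3 => 2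
  | 4 => 5
  | _ => 2

theorem ser0 : ser 0 = ⊥ := MonoidHom.ker_id
theorem ser6 : ser 6 = ⊤ := eq_top_iff.2 fun _ _ => rfl
theorem serN : ∀ i ≤ 6, (ser i).Normal := fun i hi => by
  interval_cases i <;> exact MonoidHom.normal_ker _
theorem serLe : ∀ i < 6, ser i ≤ ser (i + 1) := fun i hi => by
  interval_cases i <;> exact ker_le_comap _ (MonoidHom.ker rightHom)
theorem serR : ∀ i < 6, ∃ e, Nat.card (ser (i + 1)) / Nat.card (ser i) = pr i ^ e := fun i hi => by
  interval_cases i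
  exacts [(layer 3 _).ratio f0 s0, (layer 5 _).ratio f1 s1, (layer 3 _).ratio f2 s2,
    (layer 2 _).ratio f3 s3, (layer 5 _).ratio f4 s4, (layer 2 _).ratio f5 s5]

noncomputable def H3 : Sylow 2 G3 := default
noncomputable def H4 : Subgroup G4 := H3.1.comap rightHom
noncomputable def H5 : Subgroup G5 := H4.map inl
noncomputable def H6 : Subgroup G6 := H5.comap rightHom

theorem mem3 {g : G6} (h : g ∈ H6) : f3 g ∈ H3.1 := by
  obtain ⟨x, hx, e⟩ := h
  change rightHom (rightHom (rightHom g)) ∈ H3.1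
  rw [← e]
  exact hx

theorem pow9 {g : G6} (h : g ∈ H6) (h' : f3 g = 1) : g ^ 3 ^ 2 = 1 := by
  obtain ⟨x, hx, e⟩ := h
  have h1 : rightHom x = 1 := by
    change rightHom (rightHom (rightHom g)) = 1 at h'
    rw [← e] at h'
    exact h'
  rw [pow_two, pow_mul]
  refine (layer 3 G5).ex _ ?_
  rw [MonoidHom.mem_ker, map_pow, ← e, ← map_pow, (layer 3 G3).ex x h1, map_one]

theorem hall1 (q : ℕ) (hq : q.Prime) (h : q ∣ Nat.card H6) : q ∈ ({2, 3} : Set ℕ) := by
  have : Fact q.Prime := ⟨hq⟩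
  obtain ⟨g, hg⟩ := exists_prime_orderOf_dvd_card' q h
  obtain ⟨j, hj⟩ := H3.isPGroup' ⟨_, mem3 g.2⟩
  have h1 := pow9 (H6.pow_mem g.2 (2 ^ j)) (by rw [map_pow]; exact congrArg Subtype.val hj)
  rw [← pow_mul] at h1
  have h2 := orderOf_dvd_of_pow_eq_one h1
  rw [orderOf_coe, hg] at h2
  rcases (Nat.Prime.dvd_mul hq).1 h2 with h | h
  · exact Or.inl ((Nat.prime_dvd_prime_iff_eq hq Nat.prime_two).1 (hq.dvd_of_dvd_pow h))
  · exact Or.inr ((Nat.prime_dvd_prime_iff_eq hq Nat.prime_three).1 (hq.dvd_of_dvd_pow h))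

theorem hall2 (q : ℕ) (hq : q.Prime) (h : q ∣ H6.index) : q ∉ ({2, 3} : Set ℕ) := by
  obtain ⟨e, he⟩ := (layer 5 G4).card
  obtain ⟨e3, he3⟩ := (layer 2 G2).card
  obtain ⟨e2, he2⟩ := (layer 5 G1).card
  obtain ⟨e1, he1⟩ := (layer 2 Unit).card
  have i6 : H6.index = H5.index := index_comap_of_surjective _ (layer 3 G5).surj
  have i4 : H4.index = H3.1.index := index_comap_of_surjective _ (layer 3 G3).surj
  have c5 : Nat.card H5 = Nat.card H4 :=
    card_map_of_injective (fun a b h => congrArg RegularWreathProduct.right h)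
  have i5 : H5.index = 5 ^ e * H4.index := by
    have h1 := card_mul_index H5
    rw [c5, he, ← card_mul_index H4, mul_left_comm] at h1
    exact Nat.eq_of_mul_eq_mul_left Nat.card_pos h1
  rw [i6, i5, i4] at h
  have d := H3.1.index_dvd_card
  rw [he3, he2, he1, Nat.card_unique] at d
  have n2 := H3.not_dvd_index
  rintro (rfl | rfl)
  · exact n2 ((Nat.Coprime.pow_right e (by norm_num)).dvd_of_dvd_mul_left h)
  · have := ((Nat.Coprime.pow_right e (by norm_num)).dvd_of_dvd_mul_left h).trans d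
    have := (Nat.Coprime.pow_right e3 (by norm_num)).dvd_of_dvd_mul_left this
    have := (Nat.Coprime.pow_right e2 (by norm_num)).dvd_of_dvd_mul_left this
    have := (Nat.Coprime.pow_right e1 (by norm_num)).dvd_of_dvd_mul_left this
    omega

noncomputable def tt : ℕ → Subgroup H6
  | 0 => ⊥
  | 1 => (f3.comp H6.subtype).ker
  | _ => ⊤

theorem nil0 : ∃ c, (tt 1).lowerCentralSeries c ≤ tt 0 := by
  have h : IsPGroup 3 (tt 1) := fun g => ⟨2, Subtype.ext (Subtype.ext (pow9 g.1.2 g.2))⟩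
  obtain ⟨c, hc⟩ := (isNilpotent_iff_lowerCentralSeries _).1 h.isNilpotent
  exact ⟨c, hc.le⟩

theorem nil1 : ∃ c, (tt 2).lowerCentralSeries c ≤ tt 1 := by
  have h : IsPGroup 2 ((⊤ : Subgroup H6).map (f3.comp H6.subtype)) :=
    H3.isPGroup'.to_le (by rintro _ ⟨x, -, rfl⟩; exact mem3 x.2)
  obtain ⟨c, hc⟩ := (isNilpotent_iff_lowerCentralSeries _).1 h.isNilpotent
  rw [← map_lowerCentralSeries] at hc
  exact ⟨c, (Subgroup.map_eq_bot_iff _).1 hc⟩

end Pool.Agent.H22.PiLen
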