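import Pool.Agent.H22.SkewR
import Pool.Agent.H22.Cliff2

set_option autoImplicit false

namespace Pool.Agent.H22.PriEx

open Pool.Agent.H22.Cliff hiding X
open Pool.Agent.H22.SkewR Polynomial

theorem not_prod {R : Type} [Ring R] (x a d : R) (hx : ∀ f, x * f = 0 → f = 0)
    (hn : ∀ f, ∃ g, f * x = x * g)
    (hp : ∀ p, (∃ g, p = x * g) ∨ ∃ p' w, (p - x * p') * x * w = x)
    (hxa : ∃ w, x = a * w) (ha : ∀ r, 1 ≠ a * r) (hd : ∀ r, d * a ≠ a * r)
    (I : AddSubmonoid R) (hI : ∀ f, f ∈ I ↔ ∃ r, f = x * a * r)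
    (L : List (AddSubmonoid R))
    (hL : ∀ P ∈ L, (∀ x r : R, x ∈ P → r * x ∈ P ∧ x * r ∈ P) ∧ (1 : R) ∉ P ∧
              ∀ a b : R, (∀ r : R, a * r * b ∈ P) → a ∈ P ∨ b ∈ P) :
    L.foldr (fun P J => AddSubmonoid.closure {x : R | ∃ a ∈ P, ∃ b ∈ J, x = a * b}) ⊤ ≠ I := by
  have hc : ∀ f g, x * f = x * g → f = g := fun f g h =>
    sub_eq_zero.1 (hx _ (by rw [mul_sub, h, sub_self]))
  obtain ⟨F, hF⟩ : ∃ F : List (AddSubmonoid R) → AddSubmonoid R, ∀ L, F L =
    L.foldr (fun P J => AddSubmonoid.closure {x : R | ∃ a ∈ P, ∃ b ∈ J, x = a * b}) ⊤ :=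
    ⟨_, fun _ => rfl⟩
  have F0 : F [] = ⊤ := hF _
  have Fc : ∀ P L, F (P :: L) = AddSubmonoid.closure {x : R | ∃ a ∈ P, ∃ b ∈ F L, x = a * b} :=
    fun P L => by rw [hF, hF]; rfl
  have hideal : ∀ L : List (AddSubmonoid R),
      (∀ P ∈ L, ∀ x r : R, x ∈ P → r * x ∈ P ∧ x * r ∈ P) →
      (∀ y r : R, y ∈ F L → r * y ∈ F L) ∧ ∀ P ∈ L, F L ≤ P := by
    intro L
    induction L with
    | nil => intro _; simp [F0]
    | cons P L ih =>
      intro h
      obtain ⟨h1, h2⟩ := ih fun Q hQ => h Q (List.mem_cons_of_mem _ hQ)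
      have hP := h P List.mem_cons_self
      rw [Fc]
      refine ⟨fun y r hy => ?_, fun Q hQ => ?_⟩
      · induction hy using AddSubmonoid.closure_induction with
        | mem y hy =>
          obtain ⟨p, hp, j, hj, rfl⟩ := hy
          exact AddSubmonoid.subset_closure ⟨r * p, (hP p r hp).1, j, hj, (mul_assoc _ _ _).symm⟩
        | zero => simp
        | add y z _ _ hy hz => rw [mul_add]; exact add_mem hy hz
      · rw [AddSubmonoid.closure_le]
        rintro _ ⟨p, hp, j, hj, rfl⟩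
        rcases List.mem_cons.1 hQ with rfl | hQ
        · exact (hP p j hp).2
        · exact h2 Q hQ (h1 j p hj)
  have main : ∀ L : List (AddSubmonoid R),
      (∀ P ∈ L, (∀ x r : R, x ∈ P → r * x ∈ P ∧ x * r ∈ P) ∧ x ∈ P) →
      ((∀ f ∈ F L, ∃ g, f = x * g) ∧ ∀ g b, x * g ∈ F L → x * (b * g) ∈ F L) ∨
        ∀ r, x * r ∈ F L := by
    intro L
    induction L with
    | nil => intro _; right; simp [F0]
    | cons P L ih =>
      intro h
      have ih' := ih fun Q hQ => h Q (List.mem_cons_of_mem _ hQ)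
      obtain ⟨hP, hxP⟩ := h P List.mem_cons_self
      have h1 := (hideal L fun Q hQ => (h Q (List.mem_cons_of_mem _ hQ)).1).1
      have hle : F (P :: L) ≤ F L := by
        rw [Fc, AddSubmonoid.closure_le]
        rintro _ ⟨p, _, j, hj, rfl⟩
        exact h1 j p hj
      by_cases hPx : ∀ p ∈ P, ∃ g, p = x * g
      · left
        have : ∀ f ∈ F (P :: L), ∃ g ∈ F L, f = x * g := by
          intro f hf
          rw [Fc] at hf
          induction hf using AddSubmonoid.closure_induction with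
          | mem y hy =>
            obtain ⟨p, hp, j, hj, rfl⟩ := hy
            obtain ⟨g, rfl⟩ := hPx p hp
            exact ⟨g * j, h1 j g hj, mul_assoc _ _ _⟩
          | zero => exact ⟨0, zero_mem _, by simp⟩
          | add y z _ _ hy hz =>
            obtain ⟨g, hg, rfl⟩ := hy
            obtain ⟨g', hg', rfl⟩ := hz
            exact ⟨g + g', add_mem hg hg', (mul_add _ _ _).symm⟩
        refine ⟨fun f hf => (this f hf).imp fun g hg => hg.2, fun g b hg => ?_⟩
        obtain ⟨g', hg', h2⟩ := this _ hg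
        rw [Fc]
        exact AddSubmonoid.subset_closure ⟨x, hxP, b * g, h1 g b (hc _ _ h2 ▸ hg'), rfl⟩
      · push Not at hPx
        obtain ⟨p, hpP, hpx⟩ := hPx
        obtain ⟨p', w, hw⟩ := (hp p).resolve_left (by rintro ⟨g, hg⟩; exact hpx g hg)
        have hp0 : p - x * p' ∈ P := by
          rw [sub_eq_add_neg, ← mul_neg]
          exact add_mem hpP (hP x _ hxP).2
        have hgen : ∀ r, x * (w * r) ∈ F L → x * r ∈ F (P :: L) := by
          intro r hr
          rw [Fc]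
          refine AddSubmonoid.subset_closure ⟨_, hp0, _, hr, ?_⟩
          rw [← mul_assoc, ← mul_assoc, hw]
        rcases ih' with ⟨h2, h3⟩ | h2
        · left
          refine ⟨fun f hf => h2 f (hle hf), fun g b hg => hgen _ ?_⟩
          rw [← mul_assoc w]
          exact h3 g _ (hle hg)
        · exact Or.inr fun r => hgen _ (h2 _)
  rw [← hF]
  intro hFI
  have hxP : ∀ P ∈ L, x ∈ P := by
    intro P hP
    have h1 := (hideal L fun Q hQ => (hL Q hQ).1).2 P hP
    refine ((hL P hP).2.2 x x fun r => h1 ?_).elim id id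
    obtain ⟨g, hg⟩ := hn r
    obtain ⟨w, hw⟩ := hxa
    rw [hFI, hI]
    refine ⟨w * g, ?_⟩
    rw [mul_assoc, hg, mul_assoc, ← mul_assoc a, ← hw]
  rcases main L fun P hP => ⟨(hL P hP).1, hxP P hP⟩ with ⟨_, h3⟩ | h2
  · have := h3 a d (by rw [hFI, hI]; exact ⟨1, (mul_one _).symm⟩)
    rw [hFI, hI] at this
    obtain ⟨r, hr⟩ := this
    exact hd r (hc _ _ (by rw [hr, mul_assoc]))
  · have := h2 1
    rw [hFI, hI] at this
    obtain ⟨r, hr⟩ := this
    exact ha r (hc _ _ (by rw [hr, mul_assoc]))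

noncomputable def bb (i : ℕ) : K := HahnSeries.single (gam i) 1

theorem bb_ne (i : ℕ) : bb i ≠ 0 := HahnSeries.single_ne_zero one_ne_zero

theorem bb_order (i : ℕ) : (bb i).order = gam i := HahnSeries.order_single one_ne_zero

theorem prod_order (n : ℕ) (l : List ℕ) (hl : ∀ i ∈ l, i < n) :
    (l.map bb).prod ≠ 0 ∧ ofLex ((l.map bb).prod).order n = 0 := by
  induction l with
  | nil => simp
  | cons j l ih =>
    obtain ⟨h1, h2⟩ := ih fun i hi => hl i (List.mem_cons_of_mem _ hi)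
    have hj := hl j List.mem_cons_self
    rw [List.map_cons, List.prod_cons]
    refine ⟨mul_ne_zero (bb_ne j) h1, ?_⟩
    rw [HahnSeries.order_mul (bb_ne j) h1, bb_order, ofLex_add, Finsupp.add_apply, h2]
    simp [gam, hj.ne]

theorem indep (n : ℕ) (g : K) (l : List ℕ) (hg : g ≠ 0) (hl : ∀ i ∈ l, i < n) :
    vv (g ^ 2 * (l.map bb).prod * bb n) ≠ 1 := by
  obtain ⟨h1, h2⟩ := prod_order n l hl
  have h3 : g ^ 2 * (l.map bb).prod ≠ 0 := mul_ne_zero (pow_ne_zero 2 hg) h1
  rw [Ne, vv_eq_one (mul_ne_zero h3 (bb_ne n)), HahnSeries.order_mul h3 (bb_ne n),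
    HahnSeries.order_mul (pow_ne_zero 2 hg) h1, pow_two, HahnSeries.order_mul hg hg, bb_order]
  intro h
  have h4 := congrArg (fun x : G => ofLex x n) h
  simp only [ofLex_add, Finsupp.add_apply, h2, gam, ofLex_toLex,
    Finsupp.single_eq_same, ofLex_zero, Finsupp.zero_apply] at h4
  omega

noncomputable def B : LinearMap.BilinForm K V :=
  Finsupp.linearCombination K fun i => bb i • Finsupp.lapply i

theorem B_single (i : ℕ) (y : V) : B (Finsupp.single i 1) y = bb i * y i := by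
  simp [B]

noncomputable def Q : QuadraticForm K V := B.toQuadraticMap

abbrev D : Type := CliffordAlgebra Q

theorem polar_single (i j : ℕ) : QuadraticMap.polar Q (Finsupp.single i 1) (Finsupp.single j 1) =
    if i = j then 2 * bb i else 0 := by
  rw [Q, LinearMap.BilinMap.polar_toQuadraticMap, B_single, B_single]
  split_ifs with h
  · subst h
    simp [two_mul]
  · simp [h, Ne.symm h]

noncomputable def Y : Data K D (Multiplicative (WithTop G)ᵒᵈ) where
  v := vv
  a := bb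
  e := fun i => CliffordAlgebra.ι Q (Finsupp.single i 1)
  a_ne := bb_ne
  sq := fun i => by
    rw [CliffordAlgebra.ι_sq_scalar]
    congr 1
    change B _ _ = _
    rw [B_single]
    simp
  anti := fun i j hij => by
    rw [eq_neg_iff_add_eq_zero, CliffordAlgebra.ι_mul_ι_add_swap, polar_single, if_neg hij,
      map_zero]
  indep := indep

theorem D_ind {p : D → Prop} (h1 : ∀ r, p (algebraMap K D r)) (h2 : ∀ i, p (Y.e i))
    (h3 : ∀ a b, p a → p b → p (a * b)) (h4 : ∀ a b, p a → p b → p (a + b)) (x : D) : p x := by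
  induction x using CliffordAlgebra.induction with
  | algebraMap r => exact h1 r
  | ι v =>
    induction v using Finsupp.induction_linear with
    | zero => simpa using h1 0
    | add f g hf hg => rw [map_add]; exact h4 _ _ hf hg
    | single i c =>
      rw [← mul_one c, ← smul_eq_mul, ← Finsupp.smul_single, map_smul, Algebra.smul_def]
      exact h3 _ _ (h1 c) (h2 i)
  | mul a b ha hb => exact h3 _ _ ha hb
  | add a b ha hb => exact h4 _ _ ha hb

theorem mem_Dn (x : D) : ∃ n, x ∈ Y.Dn n := by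
  induction x using D_ind with
  | h1 r =>
    refine ⟨0, ?_⟩
    rw [Algebra.algebraMap_eq_smul_one]
    exact Submodule.smul_mem _ _ (Y.one_mem_Dn 0)
  | h2 i => exact ⟨i + 1, Submodule.subset_span ⟨[i], by simp, (Y.P_single i).symm⟩⟩
  | h3 a b ha hb =>
    obtain ⟨n, hn⟩ := ha
    obtain ⟨m, hm⟩ := hb
    exact ⟨max n m, Y.Dn_mul _ _ (Y.Dn_mono (le_max_left _ _) hn) (Y.Dn_mono (le_max_right _ _) hm)⟩
  | h4 a b ha hb =>
    obtain ⟨n, hn⟩ := ha
    obtain ⟨m, hm⟩ := hb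
    exact ⟨max n m, add_mem (Y.Dn_mono (le_max_left _ _) hn) (Y.Dn_mono (le_max_right _ _) hm)⟩

theorem D_left_inv (x : D) (hx : x ≠ 0) : ∃ z, z * x = 1 := by
  obtain ⟨n, hn⟩ := mem_Dn x
  exact Y.left_inv hn hx

theorem D_inv (x : D) (hx : x ≠ 0) : ∃ z, z * x = 1 ∧ x * z = 1 := by
  obtain ⟨z, hz⟩ := D_left_inv x hx
  have hz0 : z ≠ 0 := by
    rintro rfl
    simp at hz
  obtain ⟨w, hw⟩ := D_left_inv z hz0
  have : w = x := by rw [← mul_one w, ← hz, ← mul_assoc, hw, one_mul]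
  exact ⟨z, hz, this ▸ hw⟩

instance : NoZeroDivisors D := ⟨fun {a b} h => by
  by_cases ha : a = 0
  · exact Or.inl ha
  · obtain ⟨z, hz⟩ := D_left_inv a ha
    right
    rw [← one_mul b, ← hz, mul_assoc, h, mul_zero]⟩

def sh : ℕ ↪ ℕ := ⟨fun i => i + 2, fun _ _ h => by simpa using h⟩

noncomputable def psi : G →+ G where
  toFun g := toLex (Finsupp.embDomain sh (ofLex g))
  map_zero' := by simp
  map_add' a b := by rw [ofLex_add, Finsupp.embDomain_add, toLex_add]

theorem psi_two (g : G) (i : ℕ) : ofLex (psi g) (i + 2) = ofLex g i :=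
  Finsupp.embDomain_apply_self sh (ofLex g) i

theorem psi_lt (g : G) (i : ℕ) (h : i < 2) : ofLex (psi g) i = 0 :=
  Finsupp.embDomain_of_notMem_range sh (ofLex g) i (by
    rintro ⟨j, hj⟩
    change j + 2 = i at hj
    omega)

theorem psi_mono : StrictMono psi := by
  intro g g' h
  rw [Finsupp.Lex.lt_iff] at h ⊢
  obtain ⟨i, h1, h2⟩ := h
  refine ⟨i + 2, fun j hj => ?_, by rwa [psi_two, psi_two]⟩
  by_cases h3 : j < 2
  · rw [psi_lt _ _ h3, psi_lt _ _ h3]
  · obtain ⟨k, rfl⟩ : ∃ k, j = k + 2 := ⟨j - 2, by omega⟩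
    rw [psi_two, psi_two, h1 k (by omega)]

noncomputable def rF : K →+* K :=
  HahnSeries.embDomainRingHom psi psi_mono.injective fun _ _ => psi_mono.le_iff_le

theorem rF_order {x : K} (hx : x ≠ 0) : (rF x).order = psi x.order := by
  have h1 : rF x ≠ 0 := (map_ne_zero rF).2 hx
  have h2 : (rF x).orderTop = WithTop.map psi x.orderTop := HahnSeries.orderTop_embDomain
  rw [← HahnSeries.order_eq_orderTop_of_ne_zero h1, ← HahnSeries.order_eq_orderTop_of_ne_zero hx,
    WithTop.map_coe] at h2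
  exact WithTop.coe_injective h2

theorem vv_lt {x y : K} (hx : x ≠ 0) (hy : y ≠ 0) : vv x < vv y ↔ y.order < x.order := by
  rw [vv, AddValuation.toValuation_apply, AddValuation.toValuation_apply,
    HahnSeries.addVal_apply_of_ne hx, HahnSeries.addVal_apply_of_ne hy]
  exact WithTop.coe_lt_coe

theorem vv_rF {x : K} (h : vv x < 1) : vv (rF x) < 1 := by
  by_cases hx : x = 0
  · simp [hx]
  rw [← map_one vv, vv_lt hx one_ne_zero, HahnSeries.order_one] at h
  rw [← map_one vv, vv_lt ((map_ne_zero rF).2 hx) one_ne_zero, HahnSeries.order_one, rF_order hx,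
    ← map_zero psi]
  exact psi_mono h

theorem rF_bb (i : ℕ) : rF (bb i) = bb (i + 2) := by
  have : psi (gam i) = gam (i + 2) := congrArg toLex (Finsupp.embDomain_single sh i 1)
  rw [bb, bb, ← this]
  exact HahnSeries.embDomain_single

def D' : Type := D

noncomputable instance : Ring D' := inferInstanceAs (Ring D)

noncomputable def am : K →+* D' := (algebraMap K D).comp rF

theorem am_comm (c : K) (x : D') : am c * x = x * am c :=
  Algebra.commutes (R := K) (A := D) (rF c) x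

noncomputable instance : Algebra K D' := am.toAlgebra' am_comm

noncomputable def fl : V →ₗ[K] D' := Finsupp.linearCombination K fun i => (Y.e (i + 2) : D')

theorem fl_single (i : ℕ) : fl (Finsupp.single i 1) = Y.e (i + 2) := by simp [fl]

theorem fl_sq (m : V) : fl m * fl m = algebraMap K D' (Q m) := by
  have h2 : IsUnit (2 : D') := by
    have := (isUnit_of_invertible (2 : K)).map (algebraMap K D')
    rwa [map_ofNat] at this
  refine (CliffordAlgebra.forall_mul_self_eq_iff h2 fl).2 ?_ m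
  apply Finsupp.lhom_ext'
  intro i
  apply LinearMap.ext_ring
  apply Finsupp.lhom_ext'
  intro j
  apply LinearMap.ext_ring
  change fl (Finsupp.single i 1) * fl (Finsupp.single j 1) +
    fl (Finsupp.single j 1) * fl (Finsupp.single i 1) =
    algebraMap K D' (QuadraticMap.polar Q (Finsupp.single i 1) (Finsupp.single j 1))
  rw [fl_single, fl_single, polar_single]
  change (Y.e (i + 2) * Y.e (j + 2) + Y.e (j + 2) * Y.e (i + 2) : D) = algebraMap K D (rF _)
  split_ifs with h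
  · subst h
    rw [Y.sq, map_mul, rF_bb, map_ofNat, two_mul, map_add]
    rfl
  · rw [Y.anti _ _ (by omega : i + 2 ≠ j + 2)]
    simp

noncomputable def rho : D →+* D := (CliffordAlgebra.lift Q ⟨fl, fl_sq⟩ : D →ₐ[K] D').toRingHom

theorem rho_alg (c : K) : rho (algebraMap K D c) = algebraMap K D (rF c) :=
  (CliffordAlgebra.lift Q ⟨fl, fl_sq⟩ : D →ₐ[K] D').commutes c

theorem rho_e (i : ℕ) : rho (Y.e i) = Y.e (i + 2) :=
  (CliffordAlgebra.lift_ι_apply fl fl_sq _).trans (fl_single i)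

theorem rho_smul (c : K) (x : D) : rho (c • x) = rF c • rho x := by
  rw [Algebra.smul_def, map_mul, rho_alg, Algebra.smul_def]

theorem rho_P (l : List ℕ) : rho (Y.P l) = Y.P (l.map (· + 2)) := by
  induction l with
  | nil => exact map_one _
  | cons i l ih => rw [Y.P_cons, map_mul, ih, rho_e, List.map_cons, Y.P_cons]

theorem rF_A (l : List ℕ) : rF (Y.A l) = Y.A (l.map (· + 2)) := by
  induction l with
  | nil => exact map_one _
  | cons i l ih =>
    rw [Y.A_cons, map_mul, ih, List.map_cons, Y.A_cons]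
    exact congrArg (· * _) (rF_bb i)

theorem map_lt {n : ℕ} {l : List ℕ} (h : ∀ i ∈ l, i < n) : ∀ i ∈ l.map (· + 2), i < n + 2 := by
  intro i hi
  obtain ⟨j, hj, rfl⟩ := List.mem_map.1 hi
  have := h j hj
  omega

theorem rho_L {n : ℕ} {y : D} (hy : y ∈ Y.L n) : rho y ∈ Y.L (n + 2) := by
  induction hy using AddSubgroup.closure_induction with
  | mem x hx =>
    obtain ⟨g, l, hl, hv, rfl⟩ := hx
    refine AddSubgroup.subset_closure ⟨rF g, _, map_lt hl, ?_, by rw [rho_smul, rho_P]⟩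
    rw [← rF_A, ← map_pow, ← map_mul]
    exact vv_rF hv
  | zero => simp
  | add x y _ _ hx hy => rw [map_add]; exact add_mem hx hy
  | neg x _ hx => rw [map_neg]; exact neg_mem hx

def NF (x : D) (k : ℤ) : Prop := ∃ (n : ℕ) (g : K) (l : List ℕ) (y : D), g ≠ 0 ∧
  (∀ i ∈ l, i < n) ∧ y ∈ Y.L n ∧ x = g • Y.P l * (1 + y) ∧ ofLex (g ^ 2 * Y.A l).order 0 = k

theorem NF_ne {x : D} {k : ℤ} (h : NF x k) : x ≠ 0 := by
  obtain ⟨n, g, l, y, hg, _, hy, rfl, _⟩ := h
  obtain ⟨y', _, h⟩ := Y.inv_L n y hy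
  obtain ⟨ε, hε, he⟩ := Y.P_sq l
  have hε0 : ε ≠ 0 := by rintro rfl; simp at hε
  refine mul_ne_zero (smul_ne_zero hg ?_) ?_
  · intro h0
    rw [h0, mul_zero] at he
    exact smul_ne_zero (mul_ne_zero hε0 (Y.A_ne l)) one_ne_zero he.symm
  · intro h0
    rw [h0, mul_zero] at h
    exact zero_ne_one h

theorem NF_rho {d : D} (hd : d ≠ 0) : NF (rho d) 0 := by
  obtain ⟨n, hn⟩ := mem_Dn d
  obtain ⟨g, l, y, hg, hl, hy, rfl⟩ := Y.normal n d hn hd
  refine ⟨n + 2, rF g, _, rho y, (map_ne_zero rF).2 hg, map_lt hl, rho_L hy, ?_, ?_⟩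
  · rw [map_mul, rho_smul, rho_P, map_add, map_one]
  · rw [← rF_A, ← map_pow, ← map_mul, rF_order (mul_ne_zero (pow_ne_zero 2 hg) (Y.A_ne l))]
    exact psi_lt _ _ (by norm_num)

noncomputable def s : D := algebraMap K D (bb 0)

theorem NF_s {x : D} {k : ℤ} (h : NF x k) : NF (x * s) (k + 2) := by
  obtain ⟨n, g, l, y, hg, hl, hy, rfl, hk⟩ := h
  refine ⟨n, bb 0 * g, l, y, mul_ne_zero (bb_ne 0) hg, hl, hy, ?_, ?_⟩
  · rw [s, ← Algebra.commutes, ← Algebra.smul_def, mul_smul, smul_mul_assoc (bb 0)]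
  · have h1 := mul_ne_zero (pow_ne_zero 2 hg) (Y.A_ne l)
    have : (bb 0 * g) ^ 2 * Y.A l = bb 0 * (bb 0 * (g ^ 2 * Y.A l)) := by ring
    rw [this, HahnSeries.order_mul (bb_ne 0) (mul_ne_zero (bb_ne 0) h1),
      HahnSeries.order_mul (bb_ne 0) h1, bb_order]
    simp only [ofLex_add, Finsupp.add_apply, hk, gam, ofLex_toLex, Finsupp.single_eq_same]
    ring

theorem L_mono {n m : ℕ} (h : n ≤ m) {y : D} (hy : y ∈ Y.L n) : y ∈ Y.L m := by
  induction m, h using Nat.le_induction with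
  | base => exact hy
  | succ m _ ih => exact Y.L_le ih

theorem NF_add {x x' : D} {k : ℤ} (h : NF x 0) (h' : NF x' k) (hk : 0 < k) : NF (x + x') 0 := by
  obtain ⟨n, g, l, y, hg, hl, hy, rfl, h0⟩ := h
  obtain ⟨n', g', l', y', hg', hl', hy', rfl, h0'⟩ := h'
  have hl1 : ∀ i ∈ l, i < max n n' := fun i hi => lt_of_lt_of_le (hl i hi) (le_max_left _ _)
  obtain ⟨z, hz, h⟩ := Y.merge (g' := g') hg hl1
    (fun i hi => lt_of_lt_of_le (hl' i hi) (le_max_right _ _))
    (L_mono (le_max_left _ _) hy) (L_mono (le_max_right _ _) hy') (by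
      change vv _ < vv _
      rw [vv_lt (mul_ne_zero (pow_ne_zero 2 hg') (Y.A_ne _))
        (mul_ne_zero (pow_ne_zero 2 hg) (Y.A_ne _)), Finsupp.Lex.lt_iff]
      exact ⟨0, by simp, by rw [h0, h0']; exact hk⟩)
  exact ⟨_, g, l, z, hg, hl1, hz, h, h0⟩

noncomputable def evs : D[X] →+* D :=
  eval₂RingHom' rho s fun a => (Algebra.commutes (bb 0) (rho a)).symm

theorem evs_C (a : D) : evs (C a) = rho a := eval₂_C _ _
theorem evs_X : evs X = s := eval₂_X _ _

theorem evs_NF (p : D[X]) : p ≠ 0 → ∃ k, 0 ≤ k ∧ NF (evs p) k ∧ (p.coeff 0 = 0 → 0 < k) := by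
  induction p using Polynomial.recOnHorner with
  | M0 => intro h; exact absurd rfl h
  | MC p a hp ha ih =>
    intro _
    refine ⟨0, le_rfl, ?_, fun h => absurd (by simpa [hp] using h) ha⟩
    rw [map_add, evs_C]
    by_cases h0 : p = 0
    · rw [h0, map_zero, zero_add]
      exact NF_rho ha
    · obtain ⟨k, _, h1, h2⟩ := ih h0
      rw [add_comm]
      exact NF_add (NF_rho ha) h1 (h2 hp)
  | MX p hp ih =>
    intro _
    obtain ⟨k, h0, h1, _⟩ := ih hp
    exact ⟨k + 2, by omega, by rw [map_mul, evs_X]; exact NF_s h1, fun _ => by omega⟩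

theorem evs_ne {p : D[X]} (hp : p ≠ 0) : evs p ≠ 0 := by
  obtain ⟨k, _, h, _⟩ := evs_NF p hp
  exact NF_ne h

noncomputable def ii : D := Y.e 0 * Y.e 1

theorem rho_comm (d : D) : Commute (rho d) ii := by
  induction d using D_ind with
  | h1 r => rw [rho_alg]; exact Algebra.commutes _ _
  | h2 i =>
    rw [rho_e]
    change _ * (_ * _) = _ * _ * _
    rw [← mul_assoc, Y.anti (i + 2) 0 (by omega), neg_mul, mul_assoc, Y.anti (i + 2) 1 (by omega),
      mul_neg, neg_neg, mul_assoc]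
  | h3 a b ha hb => rw [map_mul]; exact ha.mul_left hb
  | h4 a b ha hb => rw [map_add]; exact ha.add_left hb

theorem evs_comm (p : D[X]) : Commute (evs p) ii := by
  induction p using Polynomial.recOnHorner with
  | M0 => simp
  | MC p a _ _ ih => rw [map_add, evs_C]; exact ih.add_left (rho_comm a)
  | MX p _ ih => rw [map_mul, evs_X]; exact ih.mul_left (Algebra.commutes _ _)

theorem e0_not_comm : Y.e 0 * ii ≠ ii * Y.e 0 := by
  intro h
  rw [ii, mul_assoc, Y.anti 1 0 (by norm_num), mul_neg, eq_neg_iff_add_eq_zero, ← two_smul K] at h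
  have he : ∀ i, Y.e i ≠ 0 := fun i h0 => by
    have := Y.sq i
    rw [h0, mul_zero] at this
    exact Y.a_ne i ((map_eq_zero (algebraMap K D)).1 this.symm)
  exact smul_ne_zero two_ne_zero (mul_ne_zero (he 0) (mul_ne_zero (he 0) (he 1))) h

theorem poly_pri (I : AddSubmonoid D[X]) (hI : ∀ x r, x ∈ I → x * r ∈ I) :
    ∃ a, ∀ x, x ∈ I ↔ ∃ r, x = a * r := by
  classical
  by_cases h0 : ∀ f ∈ I, f = 0
  · exact ⟨0, fun f => ⟨fun hf => ⟨0, by simp [h0 f hf]⟩, by rintro ⟨r, rfl⟩; simp⟩⟩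
  have hmon : ∀ f ∈ I, f ≠ 0 → ∃ g ∈ I, g.Monic ∧ g.natDegree = f.natDegree := by
    intro f hf hf0
    obtain ⟨z, _, hz⟩ := D_inv _ (leadingCoeff_ne_zero.2 hf0)
    have hz0 : z ≠ 0 := by rintro rfl; simp at hz
    refine ⟨f * C z, hI _ _ hf, ?_, natDegree_mul_C hz0⟩
    rw [Monic, leadingCoeff_mul, leadingCoeff_C, hz]
  have hex : ∃ n, ∃ g ∈ I, g.Monic ∧ g.natDegree = n := by
    push Not at h0
    obtain ⟨f, hf, hf0⟩ := h0
    exact ⟨_, hmon f hf hf0⟩
  obtain ⟨g, hg, hm, hd⟩ := Nat.find_spec hex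
  refine ⟨g, fun f => ⟨fun hf => ⟨f /ₘ g, ?_⟩, by rintro ⟨r, rfl⟩; exact hI _ _ hg⟩⟩
  have h1 : f %ₘ g ∈ I := by
    rw [modByMonic_eq_sub_mul_div, sub_eq_add_neg, ← mul_neg]
    exact add_mem hf (hI _ _ hg)
  have h2 : f %ₘ g = 0 := by
    by_contra h
    have h3 := natDegree_lt_natDegree h (degree_modByMonic_lt f hm)
    rw [hd] at h3
    exact Nat.find_min hex h3 (hmon _ h1 h)
  conv_lhs => rw [← modByMonic_add_div f g, h2, zero_add]

noncomputable def sg : D[X] →+* D[X] := C.comp evs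

theorem sg_inj : Function.Injective sg :=
  (injective_iff_map_eq_zero sg).2 fun p hp => by
    by_contra h
    exact evs_ne h (C_eq_zero.1 hp)

theorem sg_unit (c : D[X]) (hc : c ≠ 0) : ∃ w, sg c * w = 1 := by
  obtain ⟨z, _, hz⟩ := D_inv _ (evs_ne hc)
  exact ⟨C z, by change C _ * _ = _; rw [← C_mul, hz, C_1]⟩

abbrev RR : Type := R sg

noncomputable def a0 : D[X] := X - C ii

theorem a0_ne : a0 ≠ 0 := X_sub_C_ne_zero ii

theorem ι_x_unit (c : D[X]) (hc : c ≠ 0) : ∃ w, ι sg c * x sg * w = x sg := by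
  obtain ⟨w, hw⟩ := sg_unit c hc
  exact ⟨ι sg w, by rw [ι_x, mul_assoc, ← map_mul, hw, map_one, mul_one]⟩

theorem hxa : ∃ w, x sg = ι sg a0 * w := by
  obtain ⟨w, hw⟩ := ι_x_unit a0 a0_ne
  exact ⟨x sg * w, by rw [← mul_assoc, hw]⟩

theorem ha (r : RR) : 1 ≠ ι sg a0 * r := by
  intro h
  have h1 := congrArg (fun t => co sg t 0) h
  simp only [co_mul_zero, co_ι] at h1
  rw [← map_one (ι sg), co_ι] at h1
  have h2 : co sg r 0 ≠ 0 := by
    intro h0
    rw [h0, mul_zero] at h1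
    exact one_ne_zero h1
  have h3 := congrArg natDegree h1
  rw [natDegree_mul a0_ne h2, a0, natDegree_X_sub_C, natDegree_one] at h3
  omega

theorem hd (r : RR) : ι sg (C (Y.e 0)) * ι sg a0 ≠ ι sg a0 * r := by
  intro h
  have h1 := congrArg (fun t => co sg t 0) h
  simp only [co_mul_zero, co_ι] at h1
  obtain ⟨q, hq⟩ : ∃ q, q = co sg r 0 := ⟨_, rfl⟩
  rw [← hq] at h1
  have h4 : q.natDegree = 0 := by
    by_cases h2 : q = 0
    · simp [h2]
    have h3 := congrArg natDegree h1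
    have h5 := natDegree_C_mul_le (Y.e 0) a0
    rw [h3, natDegree_mul a0_ne h2] at h5
    omega
  rw [eq_C_of_natDegree_eq_zero h4, a0] at h1
  have c1 := congrArg (fun p => coeff p 1) h1
  have c0 := congrArg (fun p => coeff p 0) h1
  simp only [coeff_C_mul, coeff_mul_C, coeff_sub, coeff_X_one, coeff_C_succ, sub_zero, mul_one,
    one_mul, coeff_X_zero, coeff_C_zero, zero_sub, mul_neg, neg_mul, neg_inj] at c1 c0
  rw [← c1] at c0
  exact e0_not_comm c0

theorem hp (p : RR) : (∃ g, p = x sg * g) ∨ ∃ p' w, (p - x sg * p') * x sg * w = x sg := by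
  obtain ⟨g, hg⟩ := decomp sg p
  by_cases h : co sg p 0 = 0
  · exact Or.inl ⟨g, by rw [h, map_zero, zero_add] at hg; exact hg⟩
  · obtain ⟨w, hw⟩ := ι_x_unit _ h
    exact Or.inr ⟨g, w, by rw [← eq_sub_of_add_eq hg.symm, hw]⟩

theorem left_closed (r : RR) : ∃ r', r * (x sg * ι sg a0) = x sg * ι sg a0 * r' := by
  obtain ⟨g, hg⟩ := decomp sg r
  obtain ⟨g', hg'⟩ := x_normal sg g
  obtain ⟨w, hw⟩ := hxa
  have h1 : sg (co sg r 0) * a0 = a0 * sg (co sg r 0) := by
    change C _ * (X - C ii) = (X - C ii) * C _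
    rw [mul_sub, sub_mul, X_mul_C, ← C_mul, ← C_mul, (evs_comm _).eq]
  refine ⟨ι sg (sg (co sg r 0)) + w * g' * ι sg a0, ?_⟩
  conv_lhs => rw [hg]
  rw [add_mul, ← mul_assoc, ι_x, mul_assoc, ← map_mul, h1, map_mul, mul_add, mul_assoc (x sg) g,
    ← mul_assoc g, hg', mul_assoc (x sg) (ι sg a0) (w * g' * _), ← mul_assoc (ι sg a0),
    ← mul_assoc (ι sg a0), ← hw, mul_assoc (x sg) (ι sg a0)]

noncomputable def II : AddSubmonoid RR where
  carrier := {f | ∃ r, f = x sg * ι sg a0 * r}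
  add_mem' := by
    rintro _ _ ⟨r, rfl⟩ ⟨r', rfl⟩
    exact ⟨r + r', (mul_add _ _ _).symm⟩
  zero_mem' := ⟨0, (mul_zero _).symm⟩

theorem II_ideal (f r : RR) (hf : f ∈ II) : r * f ∈ II ∧ f * r ∈ II := by
  obtain ⟨t, rfl⟩ := hf
  obtain ⟨r', hr⟩ := left_closed r
  exact ⟨⟨r' * t, by rw [← mul_assoc, hr, mul_assoc]⟩, ⟨t * r, mul_assoc _ _ _⟩⟩

theorem RR_nontrivial : Nontrivial RR := ⟨⟨1, _, ha 0⟩⟩

theorem RR_prime (a b : RR) (h : ∀ r, a * r * b = 0) : a = 0 ∨ b = 0 := by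
  by_contra h1
  push Not at h1
  exact domain sg sg_inj h1.1 h1.2 (by simpa using h 1)

end Pool.Agent.H22.PriEx
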