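import Mathlib

set_option autoImplicit false

namespace H22.Prim

open MonoidAlgebra

/-- The integral Heisenberg group; `⟨a, b, c⟩` stands for `y^b x^a z^c`. -/
@[ext] structure Hs where
  a : ℤ
  b : ℤ
  c : ℤ
deriving DecidableEq

instance : Mul Hs := ⟨fun p q => ⟨p.a + q.a, p.b + q.b, p.c + q.c + p.a * q.b⟩⟩
instance : One Hs := ⟨⟨0, 0, 0⟩⟩
instance : Inv Hs := ⟨fun p => ⟨-p.a, -p.b, -p.c + p.a * p.b⟩⟩

@[simp] theorem mul_a (p q : Hs) : (p * q).a = p.a + q.a := rfl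
@[simp] theorem mul_b (p q : Hs) : (p * q).b = p.b + q.b := rfl
@[simp] theorem mul_c (p q : Hs) : (p * q).c = p.c + q.c + p.a * q.b := rfl
@[simp] theorem one_a : (1 : Hs).a = 0 := rfl
@[simp] theorem one_b : (1 : Hs).b = 0 := rfl
@[simp] theorem one_c : (1 : Hs).c = 0 := rfl
@[simp] theorem inv_a (p : Hs) : (p⁻¹).a = -p.a := rfl
@[simp] theorem inv_b (p : Hs) : (p⁻¹).b = -p.b := rfl
@[simp] theorem inv_c (p : Hs) : (p⁻¹).c = -p.c + p.a * p.b := rfl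

instance : Group Hs := Group.ofLeftAxioms
  (fun p q r => by ext <;> simp <;> ring) (fun p => by ext <;> simp)
  (fun p => by ext <;> simp)

def hx : Hs := ⟨1, 0, 0⟩
def hy : Hs := ⟨0, 1, 0⟩
def hz : Hs := ⟨0, 0, 1⟩

theorem nf_mul {G : Type*} [Group G] (g h k : G) (hk : g * h = k * h * g) (c1 : Commute k g)
    (c2 : Commute k h) (p q : Hs) :
    h ^ (p * q).b * g ^ (p * q).a * k ^ (p * q).c =
      (h ^ p.b * g ^ p.a * k ^ p.c) * (h ^ q.b * g ^ q.a * k ^ q.c) := by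
  have e1 : ∀ n : ℤ, g * h ^ n = h ^ n * (g * k ^ n) := by
    intro n
    have : g * h ^ n * g⁻¹ = k ^ n * h ^ n := by
      rw [← conj_zpow, hk, mul_inv_cancel_right, c2.mul_zpow]
    rw [mul_inv_eq_iff_eq_mul] at this
    rw [this, ← (c1.zpow_left n).eq, ← mul_assoc, (c2.zpow_zpow n n).eq]
  have e2 : ∀ m n : ℤ, g ^ m * h ^ n = h ^ n * g ^ m * k ^ (m * n) := by
    intro m n
    have : (h ^ n)⁻¹ * g ^ m * (h ^ n)⁻¹⁻¹ = g ^ m * k ^ (m * n) := by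
      rw [← conj_zpow, inv_inv, mul_assoc, e1, inv_mul_cancel_left,
        (c1.zpow_left n).symm.mul_zpow, ← zpow_mul, mul_comm n m]
    rw [mul_assoc, ← this]
    group
  simp only [mul_a, mul_b, mul_c, zpow_add]
  have e3 : k ^ p.c * (h ^ q.b * g ^ q.a) = h ^ q.b * g ^ q.a * k ^ p.c :=
    ((c2.zpow_zpow _ _).mul_right (c1.zpow_zpow _ _)).eq
  have e4 : k ^ (p.a * q.b) * g ^ q.a = g ^ q.a * k ^ (p.a * q.b) := (c1.zpow_zpow _ _).eq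
  have e5 : k ^ (p.a * q.b) * (k ^ p.c * k ^ q.c) = k ^ p.c * k ^ q.c * k ^ (p.a * q.b) := by
    group
  calc _ = h ^ p.b * (h ^ q.b * g ^ p.a * (g ^ q.a * k ^ (p.a * q.b))) * (k ^ p.c * k ^ q.c) := by
        simp only [mul_assoc] at e5 ⊢
        rw [e5]
    _ = h ^ p.b * (g ^ p.a * h ^ q.b) * g ^ q.a * (k ^ p.c * k ^ q.c) := by
        rw [e2, ← e4]
        simp only [mul_assoc]
    _ = h ^ p.b * g ^ p.a * (h ^ q.b * g ^ q.a * k ^ p.c) * k ^ q.c := by simp only [mul_assoc]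
    _ = _ := by
        rw [← e3]
        simp only [mul_assoc]

theorem endo (g h : Hs) : ∃ φ : Hs →* Hs, φ hx = g ∧ φ hy = h := by
  let k : Hs := ⟨0, 0, g.a * h.b - h.a * g.b⟩
  have c : ∀ t, Commute k t := fun t => by
    show k * t = t * k
    ext <;> simp [k] <;> ring
  refine ⟨MonoidHom.mk' (fun p => h ^ p.b * g ^ p.a * k ^ p.c)
    (nf_mul g h k (by ext <;> simp [k] <;> ring) (c g) (c h)), ?_, ?_⟩ <;> simp [hx, hy]

theorem nf (p : Hs) : p = hy ^ p.b * hx ^ p.a * hz ^ p.c := by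
  have k1 : ∀ n : ℤ, hx ^ n = ⟨n, 0, 0⟩ := fun n => by
    induction n using Int.induction_on with
    | zero => rfl
    | succ n ih => rw [zpow_add_one, ih]; ext <;> simp [hx]
    | pred n ih => rw [zpow_sub_one, ih]; ext <;> simp [hx]; ring
  have k2 : ∀ n : ℤ, hy ^ n = ⟨0, n, 0⟩ := fun n => by
    induction n using Int.induction_on with
    | zero => rfl
    | succ n ih => rw [zpow_add_one, ih]; ext <;> simp [hy]
    | pred n ih => rw [zpow_sub_one, ih]; ext <;> simp [hy]; ring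
  have k3 : ∀ n : ℤ, hz ^ n = ⟨0, 0, n⟩ := fun n => by
    induction n using Int.induction_on with
    | zero => rfl
    | succ n ih => rw [zpow_add_one, ih]; ext <;> simp [hz]
    | pred n ih => rw [zpow_sub_one, ih]; ext <;> simp [hz]; ring
  rw [k1, k2, k3]
  ext <;> simp

abbrev R := MonoidAlgebra (ZMod 2) Hs

noncomputable def o (g : Hs) : R := single g 1

theorem o_mul (g h : Hs) : o g * o h = o (g * h) := by simp [o, single_mul_single]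
theorem o_one : o 1 = 1 := rfl

theorem two (f : R) : f + f = 0 := by
  ext t
  simp [CharTwo.add_self_eq_zero]

theorem neg_eq (f : R) : -f = f := neg_eq_of_add_eq_zero_left (two f)

theorem lead (s : ℤ) (hs : s ≠ 0) (f g : R) (hf : f ≠ 0) (hg : g ≠ 0) :
    ∃ p q : Hs, (∀ t, f.coeff t ≠ 0 → s * t.b ≤ s * p.b) ∧
      (∀ t, g.coeff t ≠ 0 → s * t.b ≤ s * q.b) ∧
      f.coeff p ≠ 0 ∧ g.coeff q ≠ 0 ∧ (f * g).coeff (p * q) ≠ 0 := by
  let κ : Hs → ℤ ×ₗ ℤ ×ₗ ℤ := fun t => toLex (s * t.b, toLex (t.a, t.c))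
  obtain ⟨p, hp, mp⟩ := Finset.exists_max_image f.coeff.support κ
    (Finsupp.support_nonempty_iff.2 (fun e => hf (coeff_eq_zero.1 e)))
  obtain ⟨q, hq, mq⟩ := Finset.exists_max_image g.coeff.support κ
    (Finsupp.support_nonempty_iff.2 (fun e => hg (coeff_eq_zero.1 e)))
  simp only [κ, Prod.Lex.toLex_le_toLex] at mp mq
  have u : UniqueMul f.coeff.support g.coeff.support p q := by
    intro p' q' h1 h2 e
    have e1 := congrArg Hs.a e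
    have e2 := congrArg Hs.b e
    have e3 := congrArg Hs.c e
    simp only [mul_a, mul_b, mul_c] at e1 e2 e3
    have m1 := mp p' h1
    have m2 := mq q' h2
    have e4 : s * p'.b + s * q'.b = s * p.b + s * q.b := by rw [← mul_add, e2, mul_add]
    have f1 : p'.b = p.b := mul_left_cancel₀ hs (by omega)
    have f2 : q'.b = q.b := by omega
    rw [f1] at m1
    rw [f2] at m2
    have f3 : p'.a = p.a := by omega
    have f4 : q'.a = q.a := by omega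
    rw [f3, f2] at e3
    exact ⟨Hs.ext f3 f1 (by omega), Hs.ext f4 f2 (by omega)⟩
  refine ⟨p, q, fun t ht => ?_, fun t ht => ?_, Finsupp.mem_support_iff.1 hp,
    Finsupp.mem_support_iff.1 hq, ?_⟩
  · have := mp t (Finsupp.mem_support_iff.2 ht)
    omega
  · have := mq t (Finsupp.mem_support_iff.2 ht)
    omega
  · rw [coeff_mul_mul_of_uniqueMul u]
    exact mul_ne_zero (Finsupp.mem_support_iff.1 hp) (Finsupp.mem_support_iff.1 hq)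

instance : NoZeroDivisors R := ⟨fun {f g} e => by
  by_contra hh
  push Not at hh
  obtain ⟨p, q, -, -, -, -, h⟩ := lead 1 one_ne_zero f g hh.1 hh.2
  rw [e] at h
  exact h rfl⟩

theorem homog (f g : R) (h0 : f * g ≠ 0) (h : ∀ t, (f * g).coeff t ≠ 0 → t.b = 0) :
    ∃ n, ∀ t, f.coeff t ≠ 0 → t.b = n := by
  have hf : f ≠ 0 := fun e => h0 (by rw [e, zero_mul])
  have hg : g ≠ 0 := fun e => h0 (by rw [e, mul_zero])
  obtain ⟨p, q, a1, a2, a3, a4, a5⟩ := lead 1 one_ne_zero f g hf hg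
  obtain ⟨p', q', b1, b2, b3, b4, b5⟩ := lead (-1) (by norm_num) f g hf hg
  have e1 := h _ a5
  have e2 := h _ b5
  simp only [mul_b] at e1 e2
  have := a1 _ b3
  have := a2 _ b4
  refine ⟨p.b, fun t ht => ?_⟩
  have := a1 t ht
  have := b1 t ht
  omega

/-- The component of `y`-degree `n`. -/
noncomputable def pr (n : ℤ) (f : R) : R := ofCoeff (f.coeff.filter (fun t => t.b = n))

theorem pr_coeff (n : ℤ) (f : R) (t : Hs) :
    (pr n f).coeff t = if t.b = n then f.coeff t else 0 := Finsupp.filter_apply _ _ _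

theorem pr_add (n : ℤ) (f g : R) : pr n (f + g) = pr n f + pr n g := by
  ext t
  simp only [pr_coeff, coeff_add, Finsupp.add_apply]
  split_ifs <;> simp

theorem pr_o (n : ℤ) (g : Hs) (f : R) : pr n (o g * f) = o g * pr (n - g.b) f := by
  ext t
  simp only [pr_coeff, o, coeff_single_mul_apply, one_mul, mul_b, inv_b]
  congr 1
  apply propext
  omega

noncomputable def ph : R →+ ZMod 2 :=
  (Finsupp.liftAddHom (fun t : Hs => if t.b = 0 ∧ t.c = 4 then AddMonoidHom.id (ZMod 2) else 0)).comp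
    coeffAddEquiv.toAddMonoidHom

theorem ph_single (t : Hs) (v : ZMod 2) : ph (single t v) = if t.b = 0 ∧ t.c = 4 then v else 0 := by
  simp only [ph, AddMonoidHom.comp_apply, AddEquiv.toAddMonoidHom_eq_coe, AddMonoidHom.coe_coe,
    coeffAddEquiv_apply, coeff_single, Finsupp.liftAddHom_apply_single]
  split_ifs <;> rfl

theorem ph_x (f : R) : ph ((o hx + 1) * f) = 0 := by
  induction f using MonoidAlgebra.induction_linear with
  | zero => simp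
  | add f g hf hg => rw [mul_add, map_add, hf, hg, add_zero]
  | single t v =>
    rw [add_mul, one_mul, map_add, o, single_mul_single, ph_single, ph_single, one_mul]
    have : ((hx * t).b = 0 ∧ (hx * t).c = 4) ↔ (t.b = 0 ∧ t.c = 4) := by
      simp only [mul_b, mul_c, hx]
      omega
    simp only [this]
    exact CharTwo.add_self_eq_zero _

/-- Sums of group elements given by lists. -/
noncomputable def ev : List Hs → R
  | [] => 0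
  | t :: l => o t + ev l

def tog (t : Hs) : List Hs → List Hs
  | [] => [t]
  | s :: l => if s = t then l else s :: tog t l

def nm : List Hs → List Hs
  | [] => []
  | t :: l => tog t (nm l)

def ml : List Hs → List Hs → List Hs
  | [], _ => []
  | t :: l, m => m.map (t * ·) ++ ml l m

theorem ev_tog (t : Hs) (l : List Hs) : ev (tog t l) = o t + ev l := by
  induction l with
  | nil => rfl
  | cons s l ih =>
    unfold tog
    split_ifs with h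
    · rw [h, ev, ← add_assoc, two, zero_add]
    · rw [ev, ev, ih, add_left_comm]

theorem ev_nm (l : List Hs) : ev (nm l) = ev l := by
  induction l with
  | nil => rfl
  | cons s l ih => rw [nm, ev_tog, ih, ev]

theorem ev_app (l m : List Hs) : ev l + ev m = ev (l ++ m) := by
  induction l with
  | nil => simp [ev]
  | cons s l ih => rw [List.cons_append, ev, ev, add_assoc, ih]

theorem ev_map (t : Hs) (m : List Hs) : o t * ev m = ev (m.map (t * ·)) := by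
  induction m with
  | nil => simp [ev]
  | cons s l ih => rw [List.map_cons, ev, ev, mul_add, ih, o_mul]

theorem ev_ml (l m : List Hs) : ev l * ev m = ev (ml l m) := by
  induction l with
  | nil => simp [ev, ml]
  | cons s l ih => rw [ml, ev, add_mul, ih, ev_map, ev_app]

theorem ev_eq (l m : List Hs) (h : nm (l ++ m) = []) : ev l = ev m := by
  have : ev l + ev m = 0 := by rw [ev_app, ← ev_nm, h, ev]
  rw [eq_neg_of_add_eq_zero_left this, neg_eq]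

theorem ev_o (t : Hs) : o t = ev [t] := by simp [ev]

def la : List Hs := [⟨0, 0, 0⟩, ⟨0, 1, 1⟩, ⟨0, 2, 1⟩, ⟨1, 1, 0⟩, ⟨1, 2, 2⟩]
def lu : List Hs := [⟨0, 1, 1⟩, ⟨0, 2, 1⟩, ⟨1, 1, 0⟩, ⟨1, 2, 2⟩]
def lb : List Hs := [⟨0, 1, 1⟩, ⟨1, 1, 0⟩, ⟨1, 1, 1⟩, ⟨2, 1, 0⟩]
def lc : List Hs := [⟨0, 0, -3⟩, ⟨0, 0, -1⟩, ⟨0, 0, 0⟩, ⟨0, 1, -5⟩, ⟨0, 1, -3⟩, ⟨0, 1, -2⟩, ⟨0, 1, -1⟩,
  ⟨0, 1, 0⟩, ⟨0, 2, -3⟩, ⟨0, 3, -4⟩, ⟨0, 6, -5⟩, ⟨1, 0, -5⟩, ⟨1, 0, -4⟩, ⟨1, 0, -3⟩,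
  ⟨1, 0, -2⟩, ⟨1, 1, -6⟩, ⟨1, 1, -1⟩, ⟨1, 1, 1⟩, ⟨1, 2, -5⟩, ⟨1, 2, -3⟩, ⟨1, 2, -2⟩,
  ⟨1, 3, -4⟩, ⟨1, 3, -2⟩, ⟨1, 4, -3⟩, ⟨1, 4, -2⟩, ⟨1, 5, -2⟩, ⟨1, 5, 0⟩, ⟨1, 6, 0⟩,
  ⟨1, 6, 1⟩, ⟨2, 0, -6⟩, ⟨2, 0, -4⟩, ⟨2, 1, -5⟩, ⟨2, 1, -4⟩, ⟨2, 1, -3⟩, ⟨2, 1, 0⟩,
  ⟨2, 2, -3⟩, ⟨2, 2, -2⟩, ⟨2, 2, -1⟩, ⟨2, 2, 2⟩, ⟨2, 3, -1⟩, ⟨2, 3, 0⟩, ⟨2, 3, 3⟩,
  ⟨2, 4, 1⟩, ⟨2, 4, 4⟩, ⟨2, 5, 3⟩, ⟨2, 5, 5⟩, ⟨2, 6, 6⟩]
def ld : List Hs := [⟨0, -1, -4⟩, ⟨0, -1, -2⟩, ⟨0, 0, -6⟩, ⟨0, 0, -4⟩, ⟨0, 0, -2⟩, ⟨0, 0, 0⟩, ⟨0, 1, -5⟩,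
  ⟨0, 1, -4⟩, ⟨0, 1, -2⟩, ⟨0, 2, -2⟩, ⟨0, 2, -1⟩, ⟨0, 2, 0⟩, ⟨0, 3, -4⟩, ⟨0, 3, -3⟩,
  ⟨0, 4, -4⟩, ⟨0, 5, -6⟩, ⟨0, 6, -5⟩, ⟨0, 7, -5⟩, ⟨1, 0, -6⟩, ⟨1, 0, -4⟩, ⟨1, 1, -5⟩,
  ⟨1, 1, -1⟩, ⟨1, 2, -6⟩, ⟨1, 2, -3⟩, ⟨1, 2, -1⟩, ⟨1, 2, 0⟩, ⟨1, 3, -5⟩, ⟨1, 4, -4⟩,
  ⟨1, 5, -3⟩, ⟨1, 5, -2⟩, ⟨1, 6, -2⟩, ⟨1, 7, 0⟩]
def c1 : List Hs := [⟨0, 0, 3⟩, ⟨1, 0, 1⟩, ⟨1, 0, 2⟩, ⟨1, 0, 3⟩, ⟨2, 0, 0⟩, ⟨2, 0, 1⟩, ⟨2, 0, 2⟩,
  ⟨3, 0, 0⟩]
def d1 : List Hs := [⟨0, -1, 2⟩, ⟨0, 0, 3⟩, ⟨0, 1, 3⟩, ⟨1, -1, 2⟩, ⟨1, 0, 1⟩, ⟨1, 0, 2⟩, ⟨1, 1, 1⟩,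
  ⟨1, 1, 2⟩, ⟨2, 0, 0⟩, ⟨2, 1, 0⟩]
def c2 : List Hs := [⟨0, 0, 4⟩, ⟨0, 1, 2⟩, ⟨0, 1, 4⟩, ⟨0, 2, 2⟩, ⟨0, 2, 3⟩, ⟨1, 0, 2⟩, ⟨1, 0, 3⟩,
  ⟨1, 1, 1⟩, ⟨1, 1, 5⟩, ⟨1, 2, 3⟩, ⟨1, 2, 5⟩, ⟨2, 0, 1⟩, ⟨2, 1, 2⟩, ⟨2, 1, 4⟩,
  ⟨2, 2, 5⟩, ⟨2, 2, 6⟩]
def d2 : List Hs := [⟨0, -1, 3⟩, ⟨0, 0, 1⟩, ⟨0, 0, 3⟩, ⟨0, 0, 4⟩, ⟨0, 1, 1⟩, ⟨0, 2, 3⟩, ⟨0, 2, 4⟩,
  ⟨0, 3, 2⟩, ⟨0, 3, 3⟩, ⟨1, 0, 1⟩, ⟨1, 1, 3⟩, ⟨1, 2, 1⟩, ⟨1, 2, 4⟩, ⟨1, 3, 3⟩,
  ⟨1, 3, 4⟩]

theorem uni : ev la * ev lc + ev lb * ev ld = 1 := by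
  rw [ev_ml, ev_ml, ev_app, ← o_one, ev_o]
  exact ev_eq _ _ (by decide +kernel)

theorem k1 : ev la * ev c1 + ev lb * ev d1 = 0 := by
  rw [ev_ml, ev_ml, ev_app]
  exact ev_eq _ [] (by decide +kernel)

theorem k2 : ev la * ev c2 + ev lb * ev d2 = 0 := by
  rw [ev_ml, ev_ml, ev_app]
  exact ev_eq _ [] (by decide +kernel)

theorem ph_c2 : ph (ev c2) = 1 := by
  simp only [c2, ev, map_add, o, ph_single, map_zero]
  decide

theorem c1_ne : ev c1 ≠ 0 := by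
  intro e
  have := congrArg (fun f : R => f.coeff ⟨3, 0, 0⟩) e
  simp only [c1, ev, o, coeff_add, coeff_single, Finsupp.add_apply, Finsupp.single_apply,
    coeff_zero, Finsupp.zero_apply] at this
  revert this
  decide

theorem c1_h (t : Hs) (h : (ev c1).coeff t ≠ 0) : t.b = 0 := by
  by_contra hh
  apply h
  have k : ∀ a c : ℤ, (o ⟨a, 0, c⟩).coeff t = 0 := fun a c => by
    rw [o, coeff_single, Finsupp.single_apply, if_neg]
    rintro rfl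
    exact hh rfl
  simp only [c1, ev, coeff_add, Finsupp.add_apply, k]
  simp

theorem lc_ne : ev lc ≠ 0 := by
  intro e
  have := congrArg (fun f : R => f.coeff ⟨0, 0, 0⟩) e
  simp only [lc, ev, o, coeff_add, coeff_single, Finsupp.add_apply, Finsupp.single_apply,
    coeff_zero, Finsupp.zero_apply] at this
  revert this
  decide

/-- The row `(a, b)` is not a row of a left invertible matrix. -/
theorem noncomp (w1 w2 n1 n2 m1 m2 : R) (e1 : n1 * ev la + n2 * w1 = 1)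
    (e2 : n1 * ev lb + n2 * w2 = 0) (e3 : m1 * ev la + m2 * w1 = 0)
    (e4 : m1 * ev lb + m2 * w2 = 1) : False := by
  have key : ∀ c d : R, ev la * c + ev lb * d = 0 →
      c = n2 * (w1 * c + w2 * d) ∧ d = m2 * (w1 * c + w2 * d) := by
    intro c d h
    constructor
    · calc c = (n1 * ev la + n2 * w1) * c + (n1 * ev lb + n2 * w2) * d := by rw [e1, e2]; simp
        _ = n1 * (ev la * c + ev lb * d) + n2 * (w1 * c + w2 * d) := by noncomm_ring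
        _ = _ := by rw [h]; simp
    · calc d = (m1 * ev la + m2 * w1) * c + (m1 * ev lb + m2 * w2) * d := by rw [e3, e4]; simp
        _ = m1 * (ev la * c + ev lb * d) + m2 * (w1 * c + w2 * d) := by noncomm_ring
        _ = _ := by rw [h]; simp
  obtain ⟨a1, a2⟩ := key _ _ k1
  obtain ⟨a3, -⟩ := key _ _ k2
  generalize w1 * ev c1 + w2 * ev d1 = e at a1 a2
  have he : e ≠ 0 := fun h => c1_ne (by rw [a1, h, mul_zero])
  have h0 : ev la * n2 + ev lb * m2 = 0 := by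
    apply (mul_eq_zero.1 (show (ev la * n2 + ev lb * m2) * e = 0 from ?_)).resolve_right he
    rw [add_mul, mul_assoc, mul_assoc, ← a1, ← a2, k1]
  obtain ⟨n, hn⟩ := homog n2 e (a1 ▸ c1_ne) (a1 ▸ c1_h)
  have p0 : pr n n2 = n2 := by
    ext t
    rw [pr_coeff]
    split_ifs with h
    · rfl
    · by_contra hh
      exact h (hn t (Ne.symm hh))
  have p1 : ∀ m, m ≠ n → pr m n2 = 0 := fun m hm => by
    ext t
    rw [pr_coeff]
    split_ifs with h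
    · by_contra hh
      exact hm (h.symm.trans (hn t hh))
    · rfl
  have h1 := congrArg (pr (n + 1)) h0
  have z0 : pr (n + 1) 0 = 0 := by
    ext t
    simp [pr_coeff]
  simp only [la, lb, ev, add_mul, add_zero, pr_add, pr_o, add_sub_cancel_right, p0, z0] at h1
  rw [p1 _ (by omega), p1 (n + 1 - 2) (by omega)] at h1
  have h2 : ev [⟨0, 1, 1⟩, ⟨1, 1, 0⟩] * (n2 + (o hx + 1) * pr n m2) = 0 := by
    have : ev [⟨0, 1, 1⟩, ⟨1, 1, 0⟩] * (o hx + 1) = ev lb := by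
      rw [← o_one, ev_o, ev_o, ev_app, ev_ml]
      exact ev_eq _ _ (by decide +kernel)
    rw [mul_add, ← mul_assoc, this, ← h1]
    simp only [lb, ev, add_mul, add_zero, mul_zero, zero_add]
  have h3 : ev [⟨0, 1, 1⟩, ⟨1, 1, 0⟩] ≠ 0 := by
    intro e
    have := congrArg (fun f : R => f.coeff ⟨1, 1, 0⟩) e
    simp only [ev, o, coeff_add, coeff_single, Finsupp.add_apply, Finsupp.single_apply,
      coeff_zero, Finsupp.zero_apply] at this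
    revert this
    decide
  have h4 := eq_neg_of_add_eq_zero_left ((mul_eq_zero.1 h2).resolve_left h3)
  rw [neg_eq] at h4
  have h5 := ph_c2
  rw [a3, h4, mul_assoc, ph_x] at h5
  exact zero_ne_one h5

end H22.Prim
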