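import Pool.Agent.H22.Prim1

set_option autoImplicit false

namespace H22.Prim

open MonoidAlgebra

/-- The semidirect product of the free module of rank two with the Heisenberg group. -/
@[ext] structure Mg where
  v : R
  w : R
  g : Hs

noncomputable instance : Mul Mg := ⟨fun p q => ⟨p.v + o p.g * q.v, p.w + o p.g * q.w, p.g * q.g⟩⟩
noncomputable instance : One Mg := ⟨⟨0, 0, 1⟩⟩
noncomputable instance : Inv Mg := ⟨fun p => ⟨o p.g⁻¹ * p.v, o p.g⁻¹ * p.w, p.g⁻¹⟩⟩

@[simp] theorem mul_v (p q : Mg) : (p * q).v = p.v + o p.g * q.v := rfl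
@[simp] theorem mul_w (p q : Mg) : (p * q).w = p.w + o p.g * q.w := rfl
@[simp] theorem mul_g (p q : Mg) : (p * q).g = p.g * q.g := rfl
@[simp] theorem one_v : (1 : Mg).v = 0 := rfl
@[simp] theorem one_w : (1 : Mg).w = 0 := rfl
@[simp] theorem one_g : (1 : Mg).g = 1 := rfl
@[simp] theorem inv_v (p : Mg) : (p⁻¹).v = o p.g⁻¹ * p.v := rfl
@[simp] theorem inv_w (p : Mg) : (p⁻¹).w = o p.g⁻¹ * p.w := rfl
@[simp] theorem inv_g (p : Mg) : (p⁻¹).g = p.g⁻¹ := rfl

noncomputable instance : Group Mg := Group.ofLeftAxioms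
  (fun p q r => Mg.ext (by simp [mul_add, ← o_mul, mul_assoc, add_assoc])
    (by simp [mul_add, ← o_mul, mul_assoc, add_assoc]) (mul_assoc _ _ _))
  (fun p => Mg.ext (by simp [o_one]) (by simp [o_one]) (one_mul _))
  (fun p => Mg.ext (two _) (two _) (inv_mul_cancel _))

noncomputable def gen : Fin 2 → Mg := ![⟨1, 0, hx⟩, ⟨0, 1, hy⟩]
noncomputable def mu : FreeGroup (Fin 2) →* Mg := FreeGroup.lift gen

theorem mu0 : mu (FreeGroup.of 0) = ⟨1, 0, hx⟩ := by simp [mu, gen]
theorem mu1 : mu (FreeGroup.of 1) = ⟨0, 1, hy⟩ := by simp [mu, gen]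

theorem univ (p q : Mg) : ∃ θ : Mg →* Mg, θ ⟨1, 0, hx⟩ = p ∧ θ ⟨0, 1, hy⟩ = q := by
  obtain ⟨φ, h1, h2⟩ := endo p.g q.g
  let ψ : R →+* R := mapDomainRingHom (ZMod 2) φ
  have hψ : ∀ g, ψ (o g) = o (φ g) := fun g => by simp [ψ, o]
  refine ⟨MonoidHom.mk' (fun s => ⟨ψ s.v * p.v + ψ s.w * q.v, ψ s.v * p.w + ψ s.w * q.w, φ s.g⟩)
    (fun s t => Mg.ext ?_ ?_ (map_mul φ _ _)), ?_, ?_⟩
  · simp only [mul_v, mul_w, map_add, map_mul, hψ]
    noncomm_ring
  · simp only [mul_v, mul_w, map_add, map_mul, hψ]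
    noncomm_ring
  · exact Mg.ext (by simp) (by simp) h1
  · exact Mg.ext (by simp) (by simp) h2

def Laws : Set (FreeGroup ℕ) := {w | ∀ f : ℕ → Mg, FreeGroup.lift f w = 1}

theorem verbal : Subgroup.closure
    {x : FreeGroup (Fin 2) | ∃ (f : ℕ → FreeGroup (Fin 2)) (w : FreeGroup ℕ),
      w ∈ Laws ∧ FreeGroup.lift f w = x} = mu.ker := by
  apply le_antisymm
  · rw [Subgroup.closure_le]
    rintro _ ⟨f, w, hw, rfl⟩
    have : mu.comp (FreeGroup.lift f) = FreeGroup.lift (fun n => mu (f n)) := by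
      ext n : 1
      simp
    exact (DFunLike.congr_fun this w).trans (hw _)
  · intro x hx'
    apply Subgroup.subset_closure
    refine ⟨fun n => if n = 0 then FreeGroup.of 0 else FreeGroup.of 1,
      FreeGroup.map (fun i : Fin 2 => (i : ℕ)) x, fun f => ?_, ?_⟩
    · obtain ⟨θ, h1, h2⟩ := univ (f 0) (f 1)
      have : (FreeGroup.lift f).comp (FreeGroup.map (fun i : Fin 2 => (i : ℕ))) = θ.comp mu := by
        ext i : 1
        fin_cases i
        · simp [mu0, h1]
        · simp [mu1, h2]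
      refine (DFunLike.congr_fun this x).trans ?_
      rw [MonoidHom.comp_apply, (MonoidHom.mem_ker).1 hx', map_one]
    · have : (FreeGroup.lift (fun n : ℕ => if n = 0 then FreeGroup.of (0 : Fin 2)
          else FreeGroup.of 1)).comp (FreeGroup.map (fun i : Fin 2 => (i : ℕ))) =
          MonoidHom.id _ := by
        ext i : 1
        fin_cases i <;> simp
      exact DFunLike.congr_fun this x

noncomputable def pg : Mg →* Hs := MonoidHom.mk' Mg.g (fun _ _ => rfl)

theorem surj (g : Hs) : ∃ n, (mu n).g = g := by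
  refine ⟨FreeGroup.of 1 ^ g.b * FreeGroup.of 0 ^ g.a *
    (FreeGroup.of 0 * FreeGroup.of 1 * (FreeGroup.of 0)⁻¹ * (FreeGroup.of 1)⁻¹) ^ g.c, ?_⟩
  change (pg.comp mu) _ = g
  simp only [map_mul, map_zpow, map_inv, MonoidHom.comp_apply, mu0, mu1]
  exact (nf g).symm

theorem smulU (ρ v w : R) (h : ∃ n, mu n = ⟨v, w, 1⟩) : ∃ n, mu n = ⟨ρ * v, ρ * w, 1⟩ := by
  obtain ⟨n, hn⟩ := h
  induction ρ using MonoidAlgebra.induction_linear with
  | zero => exact ⟨1, by rw [map_one, zero_mul, zero_mul]; rfl⟩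
  | add f g hf hg =>
    obtain ⟨a, ha⟩ := hf
    obtain ⟨b, hb⟩ := hg
    refine ⟨a * b, ?_⟩
    rw [map_mul, ha, hb]
    exact Mg.ext (by simp [o_one, add_mul]) (by simp [o_one, add_mul]) (one_mul _)
  | single t c =>
    have hc : c = 0 ∨ c = 1 := by revert c; decide
    rcases hc with rfl | rfl
    · exact ⟨1, by rw [map_one, single_zero, zero_mul, zero_mul]; rfl⟩
    · obtain ⟨m, rfl⟩ := surj t
      refine ⟨m * n * m⁻¹, ?_⟩
      rw [map_mul, map_mul, map_inv, hn]
      refine Mg.ext ?_ ?_ (by simp)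
      · simp only [mul_v, mul_g, inv_v, mul_one, ← mul_assoc, o_mul, mul_inv_cancel, o_one, one_mul]
        rw [add_right_comm, two, zero_add]
        rfl
      · simp only [mul_w, mul_g, inv_w, mul_one, ← mul_assoc, o_mul, mul_inv_cancel, o_one, one_mul]
        rw [add_right_comm, two, zero_add]
        rfl

noncomputable def el (l m : List Hs) (g : Hs) : Mg := ⟨ev l, ev m, g⟩

theorem el_mul (l m l' m' : List Hs) (g g' : Hs) : el l m g * el l' m' g' =
    el (l ++ l'.map (g * ·)) (m ++ m'.map (g * ·)) (g * g') :=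
  Mg.ext (by simp only [el, mul_v, ev_map, ev_app]) (by simp only [el, mul_w, ev_map, ev_app]) rfl

theorem el_inv (l m : List Hs) (g : Hs) :
    (el l m g)⁻¹ = el (l.map (g⁻¹ * ·)) (m.map (g⁻¹ * ·)) g⁻¹ :=
  Mg.ext (by simp only [el, inv_v, ev_map]) (by simp only [el, inv_w, ev_map]) rfl

theorem memU : ∃ n, mu n = ⟨ev lu, ev lb, 1⟩ := by
  let x : FreeGroup (Fin 2) := FreeGroup.of 0
  let y : FreeGroup (Fin 2) := FreeGroup.of 1
  have e0 : mu x = el [1] [] hx := by rw [mu0]; exact Mg.ext (by simp [el, ev, o_one]) rfl rfl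
  have e1 : mu y = el [] [1] hy := by rw [mu1]; exact Mg.ext rfl (by simp [el, ev, o_one]) rfl
  refine ⟨y * (x * (x * y * x⁻¹ * y⁻¹) * x⁻¹ * (x * y * x⁻¹ * y⁻¹)⁻¹) * y⁻¹, ?_⟩
  simp only [map_mul, map_inv, e0, e1, el_mul, el_inv]
  exact Mg.ext (ev_eq _ _ (by decide +kernel)) (ev_eq _ _ (by decide +kernel)) (by decide +kernel)

theorem la_eq : ev la = ev lu + 1 := by
  rw [add_comm]
  rfl

noncomputable def th : Mg →* Mg := MonoidHom.mk'
  (fun s => ⟨s.v + (s.v * ev lc + s.w * ev ld) * ev lu,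
    s.w + (s.v * ev lc + s.w * ev ld) * ev lb, s.g⟩)
  (fun s t => Mg.ext (by simp only [mul_v, mul_w]; noncomm_ring)
    (by simp only [mul_v, mul_w]; noncomm_ring) rfl)

theorem th_inj (s : Mg) (h : th s = 1) : s = 1 := by
  have h1 : s.v + (s.v * ev lc + s.w * ev ld) * ev lu = 0 := congrArg Mg.v h
  have h2 : s.w + (s.v * ev lc + s.w * ev ld) * ev lb = 0 := congrArg Mg.w h
  have h3 : s.g = 1 := congrArg Mg.g h
  have h4 := uni
  rw [la_eq] at h4
  have h5 : (s.v * ev lc + s.w * ev ld) * ev lc = 0 := by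
    generalize hl : s.v * ev lc + s.w * ev ld = l at h1 h2
    have a1 : s.v = l * ev lu := by rw [eq_neg_of_add_eq_zero_left h1, neg_eq]
    have a2 : s.w = l * ev lb := by rw [eq_neg_of_add_eq_zero_left h2, neg_eq]
    rw [a1, a2] at hl
    calc l * ev lc = l * ((ev lu + 1) * ev lc + ev lb * ev ld) -
          (l * ev lu * ev lc + l * ev lb * ev ld) := by noncomm_ring
      _ = 0 := by rw [h4, hl, mul_one, sub_self]
  have h6 := (mul_eq_zero.1 h5).resolve_right lc_ne
  rw [h6, zero_mul, add_zero] at h1 h2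
  exact Mg.ext h1 h2 h3

theorem main : ∃ (h : FreeGroup (Fin 2)) (g : Fin 2 → FreeGroup (Fin 2)),
    (¬ ∃ (a b : Fin 2 → FreeGroup (Fin 2)) (i : Fin 2),
      (∀ j, (FreeGroup.lift a (b j))⁻¹ * FreeGroup.of j ∈ mu.ker) ∧ (a i)⁻¹ * h ∈ mu.ker) ∧
    (∀ w, FreeGroup.lift g w ∈ mu.ker → w ∈ mu.ker) ∧
    (FreeGroup.of 0)⁻¹ * FreeGroup.lift g h ∈ mu.ker := by
  obtain ⟨n, hn⟩ := memU
  obtain ⟨n1, h1⟩ := smulU (ev lc) _ _ memU
  obtain ⟨n2, h2⟩ := smulU (ev ld) _ _ memU
  have hh : mu (n * FreeGroup.of 0) = ⟨ev la, ev lb, hx⟩ := by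
    rw [map_mul, hn, mu0]
    exact Mg.ext (by simp [o_one, la_eq]) (by simp) (one_mul _)
  have key : mu.comp (FreeGroup.lift ![n1 * FreeGroup.of 0, n2 * FreeGroup.of 1]) = th.comp mu := by
    ext i : 1
    fin_cases i
    · simp only [Fin.zero_eta, MonoidHom.comp_apply, FreeGroup.lift_apply_of, Matrix.cons_val_zero,
        map_mul, h1, mu0]
      exact Mg.ext (by simp [th, o_one, add_comm]) (by simp [th]) (one_mul _)
    · simp only [Fin.mk_one, MonoidHom.comp_apply, FreeGroup.lift_apply_of, Matrix.cons_val_one,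
        Matrix.cons_val_zero, map_mul, h2, mu1]
      exact Mg.ext (by simp [th]) (by simp [th, o_one, add_comm]) (one_mul _)
  refine ⟨n * FreeGroup.of 0, ![n1 * FreeGroup.of 0, n2 * FreeGroup.of 1], ?_, fun w hw => ?_, ?_⟩
  · rintro ⟨a, b, i, ha, hi⟩
    have hi' : mu (a i) = ⟨ev la, ev lb, hx⟩ := by
      rw [MonoidHom.mem_ker, map_mul, map_inv, inv_mul_eq_one] at hi
      exact hi.trans hh
    let k := mu (a (i + 1))
    let S : Subgroup Mg :=
      { carrier := {s | ∃ c d : R, c * ev la + d * k.v = s.v ∧ c * ev lb + d * k.w = s.w}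
        one_mem' := ⟨0, 0, by simp, by simp⟩
        mul_mem' := by
          rintro s t ⟨c, d, e1, e2⟩ ⟨c', d', e3, e4⟩
          refine ⟨c + o s.g * c', d + o s.g * d', ?_, ?_⟩
          · rw [mul_v, ← e1, ← e3]
            noncomm_ring
          · rw [mul_w, ← e2, ← e4]
            noncomm_ring
        inv_mem' := by
          rintro s ⟨c, d, e1, e2⟩
          refine ⟨o s.g⁻¹ * c, o s.g⁻¹ * d, ?_, ?_⟩
          · rw [inv_v, ← e1]
            noncomm_ring
          · rw [inv_w, ← e2]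
            noncomm_ring }
    have hS : ∀ j, mu (a j) ∈ S := by
      intro j
      have : j = i ∨ j = i + 1 := (by decide : ∀ i j : Fin 2, j = i ∨ j = i + 1) i j
      rcases this with rfl | rfl
      · exact ⟨1, 0, by simp [hi'], by simp [hi']⟩
      · exact ⟨0, 1, by simp [k], by simp [k]⟩
    have hA : ∀ w, mu (FreeGroup.lift a w) ∈ S := by
      intro w
      induction w using FreeGroup.induction_on with
      | C1 => simp
      | of j => simpa using hS j
      | inv_of j ih => simpa using hS j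
      | mul x y h1 h2 => simpa using S.mul_mem h1 h2
    have hB : ∀ j, mu (FreeGroup.of j) ∈ S := by
      intro j
      have := ha j
      rw [MonoidHom.mem_ker, map_mul, map_inv, inv_mul_eq_one] at this
      exact this ▸ hA _
    obtain ⟨c, d, e1, e2⟩ := hB 0
    obtain ⟨c', d', e3, e4⟩ := hB 1
    rw [mu0] at e1 e2
    rw [mu1] at e3 e4
    exact noncomp _ _ _ _ _ _ e1 e2 e3 e4
  · exact th_inj _ ((DFunLike.congr_fun key w).symm.trans hw)
  · rw [MonoidHom.mem_ker, map_mul, map_inv, inv_mul_eq_one]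
    refine Eq.trans ?_ (DFunLike.congr_fun key _).symm
    rw [MonoidHom.comp_apply, hh, mu0]
    refine Mg.ext ?_ ?_ rfl
    · show (1 : R) = ev la + (ev la * ev lc + ev lb * ev ld) * ev lu
      rw [uni, one_mul, la_eq, add_right_comm, two, zero_add]
    · show (0 : R) = ev lb + (ev la * ev lc + ev lb * ev ld) * ev lb
      rw [uni, one_mul, two]

end H22.Prim
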