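import Pool.Agent.H22.Prim2

set_option autoImplicit false

namespace H22.Prim

open MonoidAlgebra

theorem inv2 {S : Type*} [Ring S] [NoZeroDivisors S] (n α σ e : S) (hn : n ≠ 0)
    (h1 : ∀ f, f * n = n * f) (base : α + (1 + α * n) * σ - e * n = 0) :
    ∃ M' : Matrix (Fin 2) (Fin 2) S, !![1 + α * n, e; n * n, 1 + n * σ] * M' = 1 ∧
      M' * !![1 + α * n, e; n * n, 1 + n * σ] = 1 := by
  have h2 : ∀ f g, f * (n * g) = n * (f * g) := fun f g => by rw [← mul_assoc, h1, mul_assoc]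
  have i1 : (1 + α * n) * (1 + n * σ) = 1 + n * (n * e) := by
    have := congrArg (n * ·) base
    simp only [mul_add, add_mul, mul_sub, mul_one, one_mul, mul_assoc, h1, h2, mul_zero] at this ⊢
    rw [sub_eq_zero] at this
    rw [← this]
    abel
  have i2 : (1 + n * σ) * (1 + α * n) = 1 + n * (n * (σ * α - α * σ + e)) := by
    have := congrArg (n * ·) base
    simp only [mul_add, add_mul, mul_sub, mul_one, one_mul, mul_assoc, h1, h2, mul_zero] at this ⊢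
    rw [sub_eq_zero] at this
    rw [← this]
    abel
  generalize σ * α - α * σ + e = κ at i2
  generalize 1 + α * n = a at *
  generalize 1 + n * σ = c at *
  have i3 : a * κ = e * a := by
    apply mul_left_cancel₀ hn
    apply mul_left_cancel₀ hn
    have : a * (c * a) = (a * c) * a := (mul_assoc _ _ _).symm
    rw [i1, i2] at this
    simp only [mul_add, add_mul, mul_one, one_mul, mul_assoc, h2] at this
    exact add_left_cancel this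
  have i4 : κ * c = c * e := by
    apply mul_left_cancel₀ hn
    apply mul_left_cancel₀ hn
    have : (c * a) * c = c * (a * c) := mul_assoc _ _ _
    rw [i1, i2] at this
    simp only [mul_add, add_mul, mul_one, one_mul, mul_assoc, h2] at this
    exact add_left_cancel this
  refine ⟨!![c, -κ; -(n * n), a], ?_, ?_⟩
  · ext i j
    fin_cases i <;> fin_cases j <;>
      simp [Matrix.mul_apply, Fin.sum_univ_two, i1, i2, i3, mul_assoc, h1, h2]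
  · ext i j
    fin_cases i <;> fin_cases j <;>
      simp [Matrix.mul_apply, Fin.sum_univ_two, i1, i2, i4, mul_assoc, h1, h2]

def lal : List Hs := [⟨0, 0, 0⟩, ⟨0, 1, 0⟩, ⟨0, 1, 1⟩, ⟨0, 2, 1⟩]
def lbe : List Hs := [⟨0, 0, 0⟩, ⟨0, 1, 1⟩, ⟨1, 0, 0⟩, ⟨1, 1, 0⟩]
def lnu : List Hs := [⟨0, 0, 0⟩, ⟨0, 0, 1⟩]
def lp1 : List Hs := [⟨0, 0, 0⟩, ⟨0, 1, 1⟩]
def lp2 : List Hs := [⟨1, 0, 0⟩, ⟨0, 0, 1⟩]
def lsi : List Hs := [⟨-1, -2, -12⟩, ⟨-1, -2, -7⟩, ⟨-1, -2, -6⟩, ⟨-1, -2, -5⟩, ⟨-1, -2, -4⟩, ⟨-1, -2, -2⟩,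
  ⟨-1, -1, -14⟩, ⟨-1, -1, -10⟩, ⟨-1, -1, -6⟩, ⟨-1, -1, -4⟩, ⟨-1, -1, -3⟩, ⟨-1, -1, -1⟩,
  ⟨-1, 0, -13⟩, ⟨-1, 0, -10⟩, ⟨-1, 0, -9⟩, ⟨-1, 0, -4⟩, ⟨-1, 1, -14⟩, ⟨-1, 1, -12⟩,
  ⟨-1, 2, -14⟩, ⟨-1, 2, -13⟩, ⟨-1, 2, -12⟩, ⟨-1, 2, -11⟩, ⟨-1, 3, -13⟩, ⟨-1, 3, -11⟩,
  ⟨-1, 6, -14⟩, ⟨-1, 6, -12⟩, ⟨-1, 7, -14⟩, ⟨-1, 7, -13⟩, ⟨-1, 7, -12⟩, ⟨-1, 7, -11⟩,
  ⟨-1, 8, -13⟩, ⟨-1, 8, -11⟩, ⟨-1, 9, -14⟩, ⟨-1, 9, -12⟩, ⟨-1, 10, -13⟩, ⟨-1, 10, -11⟩,
  ⟨0, -2, -14⟩, ⟨0, -2, -9⟩, ⟨0, -2, -8⟩, ⟨0, -2, -7⟩, ⟨0, -2, -6⟩, ⟨0, -2, -4⟩,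
  ⟨0, -1, -13⟩, ⟨0, -1, -11⟩, ⟨0, -1, -10⟩, ⟨0, -1, -9⟩, ⟨0, -1, -7⟩, ⟨0, -1, -6⟩,
  ⟨0, -1, -5⟩, ⟨0, -1, -4⟩, ⟨0, -1, -3⟩, ⟨0, -1, -2⟩, ⟨0, 0, -14⟩, ⟨0, 0, -10⟩,
  ⟨0, 0, -8⟩, ⟨0, 0, -2⟩, ⟨0, 0, -1⟩, ⟨0, 1, -13⟩, ⟨0, 1, -11⟩, ⟨0, 1, -9⟩,
  ⟨0, 1, -7⟩, ⟨0, 1, -6⟩, ⟨0, 1, -3⟩, ⟨0, 2, -11⟩, ⟨0, 2, -10⟩, ⟨0, 2, -6⟩,
  ⟨0, 2, -5⟩, ⟨0, 2, -3⟩, ⟨0, 3, -11⟩, ⟨0, 3, -8⟩, ⟨0, 3, -6⟩, ⟨0, 3, -3⟩,
  ⟨0, 4, -10⟩, ⟨0, 4, -8⟩, ⟨0, 4, -7⟩, ⟨0, 4, -6⟩, ⟨0, 4, -5⟩, ⟨0, 4, -3⟩,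
  ⟨0, 5, -9⟩, ⟨0, 5, -8⟩, ⟨0, 5, -6⟩, ⟨0, 5, -3⟩, ⟨0, 6, -8⟩, ⟨0, 6, -6⟩,
  ⟨0, 6, -5⟩, ⟨0, 6, -3⟩, ⟨0, 7, -6⟩, ⟨0, 7, -5⟩, ⟨0, 7, -4⟩, ⟨0, 7, -3⟩,
  ⟨0, 8, -6⟩, ⟨0, 8, -4⟩, ⟨0, 9, -5⟩, ⟨0, 9, -3⟩, ⟨0, 10, -3⟩, ⟨0, 10, -1⟩]
def lde : List Hs := [⟨-1, -2, -11⟩, ⟨-1, -2, -9⟩, ⟨-1, -2, -7⟩, ⟨-1, -2, -6⟩, ⟨-1, -2, -3⟩, ⟨-1, -1, -13⟩,
  ⟨-1, -1, -12⟩, ⟨-1, -1, -11⟩, ⟨-1, -1, -10⟩, ⟨-1, -1, -8⟩, ⟨-1, -1, -7⟩, ⟨-1, -1, -5⟩,
  ⟨-1, -1, -4⟩, ⟨-1, -1, -2⟩, ⟨-1, 0, -14⟩, ⟨-1, 0, -9⟩, ⟨-1, 0, -8⟩, ⟨-1, 0, -7⟩,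
  ⟨-1, 0, -3⟩, ⟨-1, 0, -2⟩, ⟨-1, 1, -12⟩, ⟨-1, 1, -11⟩, ⟨-1, 1, -9⟩, ⟨-1, 1, -8⟩,
  ⟨-1, 1, -7⟩, ⟨-1, 1, -6⟩, ⟨-1, 1, -5⟩, ⟨-1, 2, -14⟩, ⟨-1, 2, -13⟩, ⟨-1, 2, -12⟩,
  ⟨-1, 3, -14⟩, ⟨-1, 3, -13⟩, ⟨-1, 4, -13⟩, ⟨-1, 4, -12⟩, ⟨-1, 6, -13⟩, ⟨-1, 7, -14⟩,
  ⟨-1, 7, -13⟩, ⟨-1, 7, -12⟩, ⟨-1, 8, -14⟩, ⟨-1, 8, -13⟩, ⟨-1, 9, -12⟩, ⟨-1, 10, -14⟩,
  ⟨-1, 10, -12⟩, ⟨-1, 11, -13⟩, ⟨-1, 11, -12⟩]

theorem nu_eq : ev lnu = 1 + o hz := by simp [lnu, ev, hz, ← o_one]; rfl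

theorem o_comm (k : Hs) (hk : ∀ t, t * k = k * t) (f : R) : f * (1 + o k) = (1 + o k) * f := by
  induction f using MonoidAlgebra.induction_linear with
  | zero => simp
  | add f g hf hg => rw [add_mul, mul_add _ f, hf, hg]
  | single t c => simp [mul_add, add_mul, o, single_mul_single, hk]

theorem hz_comm (t : Hs) : t * hz = hz * t := by ext <;> simp [hz, add_comm]

theorem nu_ne : ev lnu ≠ 0 := by
  intro e
  have := congrArg (fun f : R => f.coeff ⟨0, 0, 0⟩) e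
  simp only [lnu, ev, o, coeff_add, coeff_single, Finsupp.add_apply, Finsupp.single_apply,
    coeff_zero, Finsupp.zero_apply] at this
  revert this
  decide

theorem base : ev lal + (1 + ev lal * ev lnu) * ev lsi - ev lbe * ev lnu * ev lde * ev lnu = 0 := by
  rw [sub_eq_zero, ← o_one, ev_o]
  have e1 : ev [1] + ev lal * ev lnu = ev (nm ([1] ++ ml lal lnu)) := by
    rw [ev_nm, ev_ml, ev_app]
  rw [e1, ev_ml, ev_app, ev_ml, ev_ml, ev_ml]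
  exact ev_eq _ _ (by decide +kernel)

noncomputable def M0 : Matrix (Fin 2) (Fin 2) R :=
  !![1 + ev lal * ev lnu, ev lbe * ev lnu * ev lde; ev lnu * ev lnu, 1 + ev lnu * ev lsi]

theorem M0_inv : ∃ M' : Matrix (Fin 2) (Fin 2) R, M0 * M' = 1 ∧ M' * M0 = 1 :=
  inv2 _ _ _ _ nu_ne (fun f => by rw [nu_eq]; exact o_comm hz hz_comm f) base

noncomputable def fi (g : Fin 3 → Hs) : Hs →* Hs := (endo (g 0) (g 1)).choose
theorem fi_x (g : Fin 3 → Hs) : fi g hx = g 0 := (endo (g 0) (g 1)).choose_spec.1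
theorem fi_y (g : Fin 3 → Hs) : fi g hy = g 1 := (endo (g 0) (g 1)).choose_spec.2
noncomputable def ps (g : Fin 3 → Hs) : R →+* R := mapDomainRingHom (ZMod 2) (fi g)
theorem ps_o (g : Fin 3 → Hs) (t : Hs) : ps g (o t) = o (fi g t) := by simp [ps, o]

theorem fi_comm (g : Fin 3 → Hs) (t : Hs) : t * fi g hz = fi g hz * t := by
  have : hz = hx * hy * hx⁻¹ * hy⁻¹ := by decide
  rw [this]
  simp only [map_mul, map_inv, fi_x, fi_y]
  ext <;> simp <;> ring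

theorem N_comm (g : Fin 3 → Hs) (f : R) : f * ps g (ev lnu) = ps g (ev lnu) * f := by
  rw [nu_eq, map_add, map_one, ps_o]
  exact o_comm _ (fi_comm g) f

def tp (f : Fin 3 → Mg) : Fin 3 → Hs := fun j => (f j).g

def inc : FreeGroup (Fin 2) →* FreeGroup (Fin 3) :=
  FreeGroup.map (Fin.castLE (show 2 < 3 by norm_num).le)

theorem lift_inc (f : Fin 3 → Mg) (n : FreeGroup (Fin 2)) : FreeGroup.lift f (inc n) =
    ⟨ps (tp f) (mu n).v * (f 0).v + ps (tp f) (mu n).w * (f 1).v,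
      ps (tp f) (mu n).v * (f 0).w + ps (tp f) (mu n).w * (f 1).w, fi (tp f) (mu n).g⟩ := by
  let θ : Mg →* Mg := MonoidHom.mk' (fun s => ⟨ps (tp f) s.v * (f 0).v + ps (tp f) s.w * (f 1).v,
      ps (tp f) s.v * (f 0).w + ps (tp f) s.w * (f 1).w, fi (tp f) s.g⟩)
    (fun s t => Mg.ext (by simp only [mul_v, mul_w, map_add, map_mul, ps_o]; noncomm_ring)
      (by simp only [mul_v, mul_w, map_add, map_mul, ps_o]; noncomm_ring) (map_mul _ _ _))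
  have : (FreeGroup.lift f).comp inc = θ.comp mu := by
    ext i : 1
    fin_cases i
    · simp only [Fin.zero_eta, MonoidHom.comp_apply, inc, FreeGroup.map.of,
        FreeGroup.lift_apply_of, mu0]
      exact Mg.ext (by simp [θ]) (by simp [θ]) (fi_x (tp f)).symm
    · simp only [Fin.mk_one, MonoidHom.comp_apply, inc, FreeGroup.map.of,
        FreeGroup.lift_apply_of, mu1]
      exact Mg.ext (by simp [θ]) (by simp [θ]) (fi_y (tp f)).symm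
  exact DFunLike.congr_fun this n

/-- Coefficient rows that are realised by a word with trivial top part. -/
def Re (F : (Fin 3 → Hs) → Fin 3 → R) : Prop :=
  ∃ n : FreeGroup (Fin 3), ∀ f : Fin 3 → Mg, FreeGroup.lift f n =
    ⟨∑ k, F (tp f) k * (f k).v, ∑ k, F (tp f) k * (f k).w, 1⟩

def Gd (ρ : (Fin 3 → Hs) → R) : Prop := ∀ F, Re F → Re (fun g k => ρ g * F g k)

theorem Re.add {F G : (Fin 3 → Hs) → Fin 3 → R} (h : Re F) (h' : Re G) :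
    Re (fun g k => F g k + G g k) := by
  obtain ⟨n, hn⟩ := h
  obtain ⟨m, hm⟩ := h'
  refine ⟨n * m, fun f => ?_⟩
  rw [map_mul, hn, hm]
  exact Mg.ext (by simp [o_one, add_mul, Finset.sum_add_distrib])
    (by simp [o_one, add_mul, Finset.sum_add_distrib]) (one_mul _)

theorem Gd.add {ρ ρ' : (Fin 3 → Hs) → R} (h : Gd ρ) (h' : Gd ρ') : Gd (fun g => ρ g + ρ' g) :=
  fun F hF => by simpa only [add_mul] using (h F hF).add (h' F hF)

theorem Gd.mul {ρ ρ' : (Fin 3 → Hs) → R} (h : Gd ρ) (h' : Gd ρ') : Gd (fun g => ρ g * ρ' g) :=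
  fun F hF => by simpa only [mul_assoc] using h _ (h' F hF)

theorem Gd.neg {ρ : (Fin 3 → Hs) → R} (h : Gd ρ) : Gd (fun g => -ρ g) := by
  simpa only [neg_eq] using h

theorem Gd.zero : Gd (fun _ => 0) := fun F _ =>
  ⟨1, fun f => by rw [map_one]; exact Mg.ext (by simp) (by simp) rfl⟩

theorem Gd.one : Gd (fun _ => 1) := fun F hF => by simpa only [one_mul] using hF

theorem Gd.word (m : FreeGroup (Fin 3)) (t : (Fin 3 → Hs) → Hs)
    (hm : ∀ f : Fin 3 → Mg, (FreeGroup.lift f m).g = t (tp f)) : Gd (fun g => o (t g)) := by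
  rintro F ⟨n, hn⟩
  refine ⟨m * n * m⁻¹, fun f => ?_⟩
  rw [map_mul, map_mul, map_inv, hn]
  refine Mg.ext ?_ ?_ (by simp)
  · simp only [mul_v, mul_g, inv_v, mul_one, ← mul_assoc, o_mul, mul_inv_cancel, o_one, one_mul]
    rw [add_right_comm, two, zero_add, hm, Finset.mul_sum]
    simp only [mul_assoc]
  · simp only [mul_w, mul_g, inv_w, mul_one, ← mul_assoc, o_mul, mul_inv_cancel, o_one, one_mul]
    rw [add_right_comm, two, zero_add, hm, Finset.mul_sum]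
    simp only [mul_assoc]

theorem Gd.tau : Gd (fun g => o (g 2)) :=
  Gd.word (FreeGroup.of 2) (fun g => g 2) (fun f => by simp [tp])

theorem Gd.ps (r : R) : Gd (fun g => ps g r) := by
  induction r using MonoidAlgebra.induction_linear with
  | zero => simpa only [map_zero] using Gd.zero
  | add f g hf hg => simpa only [map_add] using hf.add hg
  | single t c =>
    have hc : c = 0 ∨ c = 1 := by revert c; decide
    rcases hc with rfl | rfl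
    · simpa only [single_zero, map_zero] using Gd.zero
    · obtain ⟨m, rfl⟩ := surj t
      have := Gd.word (inc m) (fun g => fi g (mu m).g) (fun f => by rw [lift_inc])
      simp only [← ps_o] at this
      exact this

theorem el0 : mu (FreeGroup.of 0) = el [1] [] hx := by
  rw [mu0]; exact Mg.ext (by simp [el, ev, o_one]) rfl rfl
theorem el1 : mu (FreeGroup.of 1) = el [] [1] hy := by
  rw [mu1]; exact Mg.ext rfl (by simp [el, ev, o_one]) rfl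

def wz : FreeGroup (Fin 2) :=
  FreeGroup.of 0 * FreeGroup.of 1 * (FreeGroup.of 0)⁻¹ * (FreeGroup.of 1)⁻¹

theorem mu_z : mu wz = el lp1 lp2 hz := by
  simp only [wz, map_mul, map_inv, el0, el1, el_mul, el_inv]
  exact Mg.ext (ev_eq _ _ (by decide +kernel)) (ev_eq _ _ (by decide +kernel)) (by decide +kernel)

theorem memO : ∃ n, mu n = ⟨ev lal, ev lbe, 1⟩ := by
  let x : FreeGroup (Fin 2) := FreeGroup.of 0
  let y : FreeGroup (Fin 2) := FreeGroup.of 1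
  refine ⟨(y * x⁻¹) * (x * wz * x⁻¹ * wz⁻¹) * (y * x⁻¹)⁻¹ * (x⁻¹ * (x * wz * x⁻¹ * wz⁻¹) * x) *
    ((x⁻¹ * wz) * (y * wz * y⁻¹ * wz⁻¹) * (x⁻¹ * wz)⁻¹), ?_⟩
  simp only [x, y, map_mul, map_inv, el0, el1, mu_z, el_mul, el_inv]
  exact Mg.ext (ev_eq _ _ (by decide +kernel)) (ev_eq _ _ (by decide +kernel)) (by decide +kernel)

noncomputable def Lm (g : Fin 3 → Hs) : Matrix (Fin 2) (Fin 3) R :=
  !![ps g (ev lal), ps g (ev lbe), 0;
    (o (g 2) + 1) * ps g (ev lp1), (o (g 2) + 1) * ps g (ev lp2), ps g (ev lnu)]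

noncomputable def Cm (g : Fin 3 → Hs) : Matrix (Fin 3) (Fin 2) R :=
  !![ps g (ev lnu), 0; 0, ps g (ev lnu) * ps g (ev lde);
    ps g (ev lnu) + -((o (g 2) + 1) * ps g (ev lp1)),
    ps g (ev lsi) + -((o (g 2) + 1) * ps g (ev lp2) * ps g (ev lde))]

theorem Re_L (i : Fin 2) : Re (fun g k => Lm g i k) := by
  fin_cases i
  · obtain ⟨n, hn⟩ := memO
    refine ⟨inc n, fun f => ?_⟩
    rw [lift_inc, hn]
    exact Mg.ext (by simp [Lm, Fin.sum_univ_three]) (by simp [Lm, Fin.sum_univ_three]) (map_one _)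
  · refine ⟨FreeGroup.of 2 * inc wz * (FreeGroup.of 2)⁻¹ * (inc wz)⁻¹, fun f => ?_⟩
    simp only [map_mul, map_inv, lift_inc, mu_z, FreeGroup.lift_apply_of]
    have e1 : (f 2).g * fi (tp f) hz * (f 2).g⁻¹ = fi (tp f) hz := by
      rw [fi_comm, mul_inv_cancel_right]
    have e2 : ps (tp f) (ev lnu) = 1 + o (fi (tp f) hz) := by rw [nu_eq, map_add, map_one, ps_o]
    have e3 : ∀ a b c : R, a + b + c + (c + c) = a + b + c := fun a b c => by rw [two, add_zero]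
    refine Mg.ext ?_ ?_ ?_
    · simp only [mul_v, mul_g, inv_v, inv_g, el, ← mul_assoc, o_mul, e1, mul_inv_cancel, o_one]
      simp [Lm, Fin.sum_univ_three, e2, tp]
      noncomm_ring
    · simp only [mul_w, mul_g, inv_w, inv_g, el, ← mul_assoc, o_mul, e1, mul_inv_cancel, o_one]
      simp [Lm, Fin.sum_univ_three, e2, tp]
      noncomm_ring
    · simp only [mul_g, inv_g, el, e1, mul_inv_cancel]

theorem Gd_C (i : Fin 3) (j : Fin 2) : Gd (fun g => Cm g i j) := by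
  fin_cases i <;> fin_cases j
  · exact Gd.ps _
  · exact Gd.zero
  · exact Gd.zero
  · exact (Gd.ps _).mul (Gd.ps _)
  · exact (Gd.ps _).add ((Gd.tau.add Gd.one).mul (Gd.ps _)).neg
  · exact (Gd.ps _).add (((Gd.tau.add Gd.one).mul (Gd.ps _)).mul (Gd.ps _)).neg

theorem LC (g : Fin 3 → Hs) : 1 + Lm g * Cm g = M0.map (ps g) := by
  have h1 := N_comm g
  have h2 : ∀ f h, f * (ps g (ev lnu) * h) = ps g (ev lnu) * (f * h) := fun f h => by
    rw [← mul_assoc, h1, mul_assoc]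
  ext i j : 1
  fin_cases i <;> fin_cases j <;>
    simp [Lm, Cm, M0, Matrix.mul_apply, Fin.sum_univ_three, mul_add, add_mul, mul_assoc, h1, h2]
  all_goals abel

noncomputable def act (A : Matrix (Fin 3) (Fin 3) R) (f : Fin 3 → Mg) : Fin 3 → Mg :=
  fun j => ⟨∑ k, A j k * (f k).v, ∑ k, A j k * (f k).w, (f j).g⟩

theorem act_act (A B : Matrix (Fin 3) (Fin 3) R) (h : A * B = 1) (f : Fin 3 → Mg) :
    act A (act B f) = f := by
  have k : ∀ (u : Fin 3 → R) (j : Fin 3), ∑ k, A j k * ∑ l, B k l * u l = u j := by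
    intro u j
    have := congrFun (Matrix.mulVec_mulVec u A B) j
    rw [h, Matrix.one_mulVec] at this
    exact this
  funext j
  exact Mg.ext (k (fun l => (f l).v) j) (k (fun l => (f l).w) j) rfl

theorem words (C : (Fin 3 → Hs) → Matrix (Fin 3) (Fin 2) R) (hC : ∀ i j, Gd (fun g => C g i j)) :
    ∃ a : Fin 3 → FreeGroup (Fin 3), ∀ f j,
      FreeGroup.lift f (a j) = act (1 + C (tp f) * Lm (tp f)) f j := by
  choose n hn using fun j => (hC j 0 _ (Re_L 0)).add (hC j 1 _ (Re_L 1))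
  refine ⟨fun j => n j * FreeGroup.of j, fun f j => ?_⟩
  rw [map_mul, hn, FreeGroup.lift_apply_of]
  refine Mg.ext ?_ ?_ (one_mul _) <;>
    simp [act, o_one, Matrix.mul_apply, Fin.sum_univ_two, add_mul, Finset.sum_add_distrib,
      Matrix.one_apply, add_comm]

theorem lift_lift (f : Fin 3 → Mg) (b : Fin 3 → FreeGroup (Fin 3)) (w : FreeGroup (Fin 3)) :
    FreeGroup.lift f (FreeGroup.lift b w) = FreeGroup.lift (fun i => FreeGroup.lift f (b i)) w := by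
  have : (FreeGroup.lift f).comp (FreeGroup.lift b) =
      FreeGroup.lift (fun i => FreeGroup.lift f (b i)) := by
    ext i : 1
    simp
  exact DFunLike.congr_fun this w

theorem stable : ∃ (h : FreeGroup (Fin 2)) (a b : Fin 3 → FreeGroup (Fin 3)),
    mu h = ⟨1 + ev lnu * ev lal, ev lnu * ev lbe, hx⟩ ∧
    (∀ (f : Fin 3 → Mg) j, FreeGroup.lift f (FreeGroup.lift b (a j)) = f j) ∧
    (∀ (f : Fin 3 → Mg) j, FreeGroup.lift f (FreeGroup.lift a (b j)) = f j) ∧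
    ∀ f : Fin 3 → Mg, FreeGroup.lift f (a 0) = FreeGroup.lift f (inc h) := by
  obtain ⟨M', m1, m2⟩ := M0_inv
  obtain ⟨a, ha⟩ := words Cm Gd_C
  obtain ⟨b, hb⟩ := words (fun g => -(Cm g * M'.map (ps g))) (fun i j => by
    simp only [Matrix.neg_apply, Matrix.mul_apply, Fin.sum_univ_two, Matrix.map_apply]
    exact (((Gd_C i 0).mul (Gd.ps _)).add ((Gd_C i 1).mul (Gd.ps _))).neg)
  obtain ⟨n, hn⟩ := smulU (ev lnu) _ _ memO
  have hh : mu (n * FreeGroup.of 0) = ⟨1 + ev lnu * ev lal, ev lnu * ev lbe, hx⟩ := by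
    rw [map_mul, hn, mu0]
    exact Mg.ext (by simp [o_one, add_comm]) (by simp) (one_mul _)
  have k1 : ∀ g, (1 + Lm g * Cm g) * M'.map (ps g) = 1 := fun g => by
    rw [LC, ← Matrix.map_mul, m1, Matrix.map_one _ (map_zero _) (map_one _)]
  have k2 : ∀ g, M'.map (ps g) * (1 + Lm g * Cm g) = 1 := fun g => by
    rw [LC, ← Matrix.map_mul, m2, Matrix.map_one _ (map_zero _) (map_one _)]
  refine ⟨n * FreeGroup.of 0, a, b, hh, fun f j => ?_, fun f j => ?_, fun f => ?_⟩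
  · rw [lift_lift, funext (hb f), ha]
    refine congrFun (act_act _ _ ?_ f) j
    show (1 + Cm (tp f) * Lm (tp f)) * _ = 1
    have : (1 + Cm (tp f) * Lm (tp f)) * (1 + -(Cm (tp f) * M'.map (ps (tp f))) * Lm (tp f)) =
        1 + Cm (tp f) * Lm (tp f) -
          Cm (tp f) * ((1 + Lm (tp f) * Cm (tp f)) * M'.map (ps (tp f))) * Lm (tp f) := by
      simp only [Matrix.mul_add, Matrix.add_mul, Matrix.mul_one, Matrix.one_mul, Matrix.neg_mul,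
        Matrix.mul_neg, Matrix.mul_assoc]
      abel
    rw [this, k1, Matrix.mul_one, add_sub_cancel_right]
  · rw [lift_lift, funext (ha f), hb]
    refine congrFun (act_act _ _ ?_ f) j
    show (1 + -(Cm (tp f) * M'.map (ps (tp f))) * Lm (tp f)) * _ = 1
    have : (1 + -(Cm (tp f) * M'.map (ps (tp f))) * Lm (tp f)) * (1 + Cm (tp f) * Lm (tp f)) =
        1 + Cm (tp f) * Lm (tp f) -
          Cm (tp f) * (M'.map (ps (tp f)) * (1 + Lm (tp f) * Cm (tp f))) * Lm (tp f) := by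
      simp only [Matrix.mul_add, Matrix.add_mul, Matrix.mul_one, Matrix.one_mul, Matrix.neg_mul,
        Matrix.mul_neg, Matrix.mul_assoc]
      abel
    rw [this, k2, Matrix.mul_one, add_sub_cancel_right]
  · rw [ha, lift_inc, hh]
    refine Mg.ext ?_ ?_ (fi_x (tp f)).symm <;>
      simp [act, Lm, Cm, Matrix.mul_apply, Fin.sum_univ_two, Fin.sum_univ_three, Matrix.one_apply]

theorem nogen (S : Subgroup Mg) (k : Mg) (hS : S ≤ Subgroup.closure {⟨ev la, ev lb, hx⟩, k})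
    (h : ∀ j, mu (FreeGroup.of j) ∈ S) : False := by
  let T : Subgroup Mg :=
    { carrier := {s | ∃ c d : R, c * ev la + d * k.v = s.v ∧ c * ev lb + d * k.w = s.w}
      one_mem' := ⟨0, 0, by simp, by simp⟩
      mul_mem' := by
        rintro s t ⟨c, d, e1, e2⟩ ⟨c', d', e3, e4⟩
        refine ⟨c + o s.g * c', d + o s.g * d', ?_, ?_⟩
        · rw [mul_v, ← e1, ← e3]
          noncomm_ring
        · rw [mul_w, ← e2, ← e4]
          noncomm_ring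
      inv_mem' := by
        rintro s ⟨c, d, e1, e2⟩
        refine ⟨o s.g⁻¹ * c, o s.g⁻¹ * d, ?_, ?_⟩
        · rw [inv_v, ← e1]
          noncomm_ring
        · rw [inv_w, ← e2]
          noncomm_ring }
  have hT : Subgroup.closure {⟨ev la, ev lb, hx⟩, k} ≤ T := by
    rw [Subgroup.closure_le]
    rintro _ (rfl | rfl)
    · exact ⟨1, 0, by simp, by simp⟩
    · exact ⟨0, 1, by simp, by simp⟩
  obtain ⟨c, d, e1, e2⟩ := hT (hS (h 0))
  obtain ⟨c', d', e3, e4⟩ := hT (hS (h 1))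
  rw [mu0] at e1 e2
  rw [mu1] at e3 e4
  exact noncomp _ _ _ _ _ _ e1 e2 e3 e4

theorem conj_eq : ∃ g : FreeGroup (Fin 2),
    (mu g)⁻¹ * ⟨1 + ev lnu * ev lal, ev lnu * ev lbe, hx⟩ * mu g = ⟨ev la, ev lb, hx⟩ := by
  refine ⟨FreeGroup.of 1 * wz * (FreeGroup.of 1)⁻¹, ?_⟩
  have : (⟨1 + ev lnu * ev lal, ev lnu * ev lbe, hx⟩ : Mg) =
      el ([1] ++ ml lnu lal) (ml lnu lbe) hx := by
    rw [← o_one, ev_o, ev_ml, ev_ml, ev_app]
    rfl
  simp only [this, map_mul, map_inv, el1, mu_z, el_mul, el_inv]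
  exact Mg.ext (ev_eq _ _ (by decide +kernel)) (ev_eq _ _ (by decide +kernel)) (by decide +kernel)

theorem ncl2 : Subgroup.normalClosure {x : FreeGroup (Fin 2) | ∃ u ∈ Laws,
    ∃ g : ℕ → FreeGroup (Fin 2), FreeGroup.lift g u = x} ≤ mu.ker := by
  apply Subgroup.normalClosure_le_normal
  rintro _ ⟨u, hu, g, rfl⟩
  rw [← verbal]
  exact Subgroup.subset_closure ⟨g, u, hu, rfl⟩

theorem ncl3 (q : FreeGroup (Fin 3)) (hq : ∀ f : Fin 3 → Mg, FreeGroup.lift f q = 1) :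
    q ∈ Subgroup.normalClosure {x : FreeGroup (Fin 3) | ∃ u ∈ Laws,
      ∃ g : ℕ → FreeGroup (Fin 3), FreeGroup.lift g u = x} := by
  apply Subgroup.subset_normalClosure
  refine ⟨FreeGroup.map (fun i : Fin 3 => (i : ℕ)) q, fun f => ?_,
    fun n => FreeGroup.of (Fin.ofNat 3 n), ?_⟩
  · have : (FreeGroup.lift f).comp (FreeGroup.map (fun i : Fin 3 => (i : ℕ))) =
        FreeGroup.lift (fun i : Fin 3 => f i) := by
      ext i : 1
      simp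
    exact (DFunLike.congr_fun this q).trans (hq _)
  · have : (FreeGroup.lift (fun n : ℕ => FreeGroup.of (Fin.ofNat 3 n))).comp
        (FreeGroup.map (fun i : Fin 3 => (i : ℕ))) = MonoidHom.id _ := by
      ext i : 1
      simp
    exact DFunLike.congr_fun this q

theorem desc {ι : Type} (W : Set (FreeGroup ℕ)) (a : ι → FreeGroup ι) :
    Subgroup.normalClosure {x : FreeGroup ι | ∃ u ∈ W, ∃ g : ℕ → FreeGroup ι,
      FreeGroup.lift g u = x} ≤ (Subgroup.normalClosure {x : FreeGroup ι | ∃ u ∈ W,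
      ∃ g : ℕ → FreeGroup ι, FreeGroup.lift g u = x}).comap (FreeGroup.lift a) := by
  apply Subgroup.normalClosure_le_normal
  rintro _ ⟨u, hu, g, rfl⟩
  apply Subgroup.subset_normalClosure
  refine ⟨u, hu, fun n => FreeGroup.lift a (g n), ?_⟩
  have : FreeGroup.lift (fun n => FreeGroup.lift a (g n)) =
      (FreeGroup.lift a).comp (FreeGroup.lift g) := by
    ext i : 1
    simp
  exact DFunLike.congr_fun this u

theorem nonprim (N : Subgroup (FreeGroup (Fin 2))) [N.Normal] (hN : N ≤ mu.ker)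
    (h : FreeGroup (Fin 2)) (hh : mu h = ⟨1 + ev lnu * ev lal, ev lnu * ev lbe, hx⟩)
    (φ : (FreeGroup (Fin 2) ⧸ N) ≃* (FreeGroup (Fin 2) ⧸ N)) (i : Fin 2)
    (e : φ (QuotientGroup.mk (FreeGroup.of i)) = QuotientGroup.mk h) : False := by
  obtain ⟨g, hg⟩ := conj_eq
  let m : (FreeGroup (Fin 2) ⧸ N) →* Mg := QuotientGroup.lift N mu hN
  let χ : FreeGroup (Fin 2) →* Mg := (MulAut.conj (mu g)⁻¹).toMonoidHom.comp
    (m.comp (φ.toMonoidHom.comp (QuotientGroup.mk' N)))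
  have c : ∀ w, χ w = (mu g)⁻¹ * m (φ (QuotientGroup.mk w)) * mu g := fun w => by simp [χ]
  apply nogen χ.range (χ (FreeGroup.of (i + 1)))
  · rintro _ ⟨w, rfl⟩
    have k : ∀ j, χ (FreeGroup.of j) ∈
        Subgroup.closure {⟨ev la, ev lb, hx⟩, χ (FreeGroup.of (i + 1))} := by
      intro j
      apply Subgroup.subset_closure
      rcases (by decide : ∀ i j : Fin 2, j = i ∨ j = i + 1) i j with rfl | rfl
      · left
        rw [c, e, ← hg, ← hh]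
        rfl
      · right
        rfl
    induction w using FreeGroup.induction_on with
    | C1 => simp
    | of j => exact k j
    | inv_of j ih => rw [map_inv]; exact Subgroup.inv_mem _ (k j)
    | mul x y h1 h2 => rw [map_mul]; exact Subgroup.mul_mem _ h1 h2
  · intro j
    obtain ⟨w, hw⟩ := QuotientGroup.mk_surjective
      (φ.symm (QuotientGroup.mk (g * FreeGroup.of j * g⁻¹)))
    refine ⟨w, ?_⟩
    rw [c, hw, MulEquiv.apply_symm_apply]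
    simp [m, mul_assoc]

end H22.Prim
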