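import Mathlib

set_option autoImplicit false

namespace Pool.Agent.H22.RealClosure

open Matrix

variable {Ω : Type} [Fintype Ω]

/-- A symmetric projection matrix onto a subspace, with its characterisation. -/
theorem exists_proj (W : Submodule ℝ (Ω → ℝ)) :
    ∃ P : (Ω → ℝ) →ₗ[ℝ] (Ω → ℝ), (∀ v, P v ∈ W) ∧
      (∀ u v, P u ⬝ᵥ v = u ⬝ᵥ P v) ∧
      (∀ u w, w ∈ W → (u - P u) ⬝ᵥ w = 0) ∧
      (∀ u v, v ∈ W → (∀ w ∈ W, (u - v) ⬝ᵥ w = 0) → P u = v) := by
  let e := WithLp.linearEquiv 2 ℝ (Ω → ℝ)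
  let K : Submodule ℝ (EuclideanSpace ℝ Ω) := W.comap e.toLinearMap
  have hin : ∀ a b : Ω → ℝ, inner ℝ (WithLp.toLp 2 a : EuclideanSpace ℝ Ω) (WithLp.toLp 2 b) =
      a ⬝ᵥ b := by
    intro a b
    rw [EuclideanSpace.inner_eq_star_dotProduct]
    simp [dotProduct_comm]
  refine ⟨e.toLinearMap ∘ₗ K.starProjection.toLinearMap ∘ₗ e.symm.toLinearMap, ?_, ?_, ?_, ?_⟩
  · intro v
    exact K.starProjection_apply_mem _
  · intro u v
    have := K.inner_starProjection_left_eq_right (WithLp.toLp 2 u) (WithLp.toLp 2 v)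
    rw [← hin, ← hin]
    exact this
  · intro u w hw
    have := K.starProjection_inner_eq_zero (WithLp.toLp 2 u) (WithLp.toLp 2 w) hw
    rw [← hin]
    exact this
  · intro u v hv h
    have := K.eq_starProjection_of_mem_of_inner_eq_zero (u := WithLp.toLp 2 u)
      (v := WithLp.toLp 2 v) hv (fun w hw => by
        have h1 := h (WithLp.ofLp w) hw
        rw [← hin] at h1
        exact h1)
    show WithLp.ofLp (K.starProjection (WithLp.toLp 2 u)) = v
    rw [this]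

theorem dot_comp (u w : Ω → ℝ) (g : Equiv.Perm Ω) :
    (fun x => u (g x)) ⬝ᵥ w = u ⬝ᵥ (fun x => w (g⁻¹ x)) := by
  unfold dotProduct
  rw [← Equiv.sum_comp g (fun x => u x * w (g⁻¹ x))]
  simp

theorem point_orbit (h3 : 3 ≤ Fintype.card Ω) (G : Subgroup (Equiv.Perm Ω)) (σ : Equiv.Perm Ω)
    (hσ : ∀ a b : Ω, a ≠ b → ∃ g ∈ G, ({g a, g b} : Set Ω) = {σ a, σ b}) (a : Ω) :
    ∃ g ∈ G, g a = σ a := by
  classical
  by_contra hne
  push Not at hne
  have key : ∀ b, b ≠ a → ∃ g ∈ G, g b = σ a ∧ g a = σ b := by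
    intro b hb
    obtain ⟨g, hg, h⟩ := hσ a b (Ne.symm hb)
    rcases Set.pair_eq_pair_iff.1 h with ⟨h1, _⟩ | ⟨h1, h2⟩
    · exact absurd h1 (hne g hg)
    · exact ⟨g, hg, h2, h1⟩
  obtain ⟨b, c, hb, hc, hbc⟩ : ∃ b c : Ω, b ≠ a ∧ c ≠ a ∧ b ≠ c := by
    have h2 : 1 < (Finset.univ.erase a).card := by
      rw [Finset.card_erase_of_mem (Finset.mem_univ a), Finset.card_univ]; omega
    obtain ⟨b, hb, c, hc, hbc⟩ := Finset.one_lt_card.1 h2
    exact ⟨b, c, Finset.ne_of_mem_erase hb, Finset.ne_of_mem_erase hc, hbc⟩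
  obtain ⟨g1, hg1, a1, b1⟩ := key b hb
  obtain ⟨g2, hg2, a2, b2⟩ := key c hc
  obtain ⟨g, hg, h⟩ := hσ b c hbc
  rcases Set.pair_eq_pair_iff.1 h with ⟨h1, _⟩ | ⟨h1, _⟩
  · refine hne (g1 * g⁻¹ * g1) (G.mul_mem (G.mul_mem hg1 (G.inv_mem hg)) hg1) ?_
    simp only [Equiv.Perm.mul_apply]
    rw [b1, ← h1]; simpa using a1
  · refine hne (g1 * g⁻¹ * g2) (G.mul_mem (G.mul_mem hg1 (G.inv_mem hg)) hg2) ?_
    simp only [Equiv.Perm.mul_apply]
    rw [b2, ← h1]; simpa using a1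

theorem strong_to_real (h3 : 3 ≤ Fintype.card Ω) (G : Subgroup (Equiv.Perm Ω))
    (σ : Equiv.Perm Ω)
    (hσ : ∀ a b : Ω, a ≠ b → ∃ g ∈ G, ({g a, g b} : Set Ω) = {σ a, σ b})
    (W : Submodule ℝ (Ω → ℝ)) (hW : ∀ g ∈ G, ∀ f ∈ W, (fun x => f (g x)) ∈ W)
    (f : Ω → ℝ) (hf : f ∈ W) : (fun x => f (σ x)) ∈ W := by
  classical
  obtain ⟨P, hP1, hP2, hP3, hP4⟩ := exists_proj W
  have comm : ∀ g ∈ G, ∀ v, P (fun x => v (g x)) = fun x => P v (g x) := by
    intro g hg v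
    refine hP4 _ _ (hW g hg _ (hP1 v)) fun w hw => ?_
    have := dot_comp (v - P v) w g
    rw [hP3 v _ (hW g⁻¹ (G.inv_mem hg) w hw)] at this
    exact this
  let M : Ω → Ω → ℝ := fun x y => P (Pi.single y 1) x
  have Msymm : ∀ x y, M x y = M y x := by
    intro x y
    have := hP2 (Pi.single y 1) (Pi.single x 1)
    simpa [M] using this
  have Minv : ∀ g ∈ G, ∀ x y, M (g x) (g y) = M x y := by
    intro g hg x y
    have h := congrFun (comm g hg (Pi.single (g y) 1)) x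
    have e : (fun x => (Pi.single (g y) (1 : ℝ) : Ω → ℝ) (g x)) = Pi.single y 1 := by
      funext z
      simp [Pi.single_apply]
    rw [e] at h
    exact h.symm
  have Mσ : ∀ x y, M (σ x) (σ y) = M x y := by
    intro x y
    by_cases hxy : x = y
    · subst hxy
      obtain ⟨g, hg, h⟩ := point_orbit h3 G σ hσ x
      rw [← h]; exact Minv g hg x x
    · obtain ⟨g, hg, h⟩ := hσ x y hxy
      rcases Set.pair_eq_pair_iff.1 h with ⟨h1, h2⟩ | ⟨h1, h2⟩
      · rw [← h1, ← h2]; exact Minv g hg x y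
      · rw [← h1, ← h2, Minv g hg, Msymm]
  have expand : ∀ (v : Ω → ℝ) x, P v x = ∑ y, v y * M x y := by
    intro v x
    conv_lhs => rw [pi_eq_sum_univ' v]
    simp [M, map_sum, Finset.sum_apply]
  have hPf : P f = f := hP4 f f hf (by simp)
  have : (fun x => f (σ x)) = P (fun x => f (σ x)) := by
    funext x
    rw [expand]
    conv_lhs => rw [← hPf, expand, ← Equiv.sum_comp σ]
    simp only [Mσ]
  rw [this]
  exact hP1 _

theorem real_to_strong (G : Subgroup (Equiv.Perm Ω)) (σ : Equiv.Perm Ω)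
    (hσ : ∀ W : Submodule ℝ (Ω → ℝ), (∀ g ∈ G, ∀ f ∈ W, (fun x => f (g x)) ∈ W) →
      ∀ f ∈ W, (fun x => f (σ x)) ∈ W) (a b : Ω) :
    ∃ g ∈ G, ({g a, g b} : Set Ω) = {σ a, σ b} := by
  classical
  let A : Matrix Ω Ω ℝ := fun x y => if ∃ g ∈ G, ({g a, g b} : Set Ω) = {x, y} then 1 else 0
  have hA : A.IsHermitian := by
    ext x y
    simp only [A, conjTranspose_apply, star_trivial, Set.pair_comm y x]
  have Ainv : ∀ k ∈ G, ∀ x y, A (k x) (k y) = A x y := by
    intro k hk x y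
    simp only [A]
    congr 1
    apply propext
    constructor
    · rintro ⟨g, hg, h⟩
      refine ⟨k⁻¹ * g, G.mul_mem (G.inv_mem hk) hg, ?_⟩
      have := congrArg (Set.image (k⁻¹ : Equiv.Perm Ω)) h
      simpa [Set.image_pair] using this
    · rintro ⟨g, hg, h⟩
      refine ⟨k * g, G.mul_mem hk hg, ?_⟩
      have := congrArg (Set.image k) h
      simpa [Set.image_pair] using this
  have comm : ∀ k ∈ G, ∀ v : Ω → ℝ, A *ᵥ (fun x => v (k x)) = fun x => (A *ᵥ v) (k x) := by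
    intro k hk v
    funext x
    simp only [mulVec, dotProduct]
    rw [← Equiv.sum_comp k (fun y => A (k x) y * v y)]
    simp only [Ainv k hk]
  have eig : ∀ (c : ℝ) (v : Ω → ℝ), A *ᵥ v = c • v →
      A *ᵥ (fun x => v (σ x)) = fun x => (A *ᵥ v) (σ x) := by
    intro c v hv
    let W : Submodule ℝ (Ω → ℝ) :=
      { carrier := {u | A *ᵥ u = c • u}
        add_mem' := fun {u w} hu hw => by
          simp only [Set.mem_setOf_eq] at hu hw ⊢
          rw [mulVec_add, hu, hw, smul_add]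
        zero_mem' := by simp
        smul_mem' := fun r u hu => by
          simp only [Set.mem_setOf_eq] at hu ⊢
          rw [mulVec_smul, hu, smul_comm] }
    have := hσ W (fun g hg u hu => by
      have hu' : A *ᵥ u = c • u := hu
      show A *ᵥ (fun x => u (g x)) = c • (fun x => u (g x))
      rw [comm g hg, hu']; rfl) v hv
    have h' : A *ᵥ (fun x => v (σ x)) = c • (fun x => v (σ x)) := this
    rw [h', hv]; rfl
  let S : (Ω → ℝ) →ₗ[ℝ] (Ω → ℝ) := LinearMap.funLeft ℝ ℝ σ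
  have hcomm : A.mulVecLin ∘ₗ S = S ∘ₗ A.mulVecLin := by
    apply (hA.eigenvectorBasis.toBasis.map (WithLp.linearEquiv 2 ℝ (Ω → ℝ))).ext
    intro j
    exact eig _ _ (hA.mulVec_eigenvectorBasis j)
  have h1 := congrFun (LinearMap.congr_fun hcomm (Pi.single (σ b) 1)) a
  have e : S (Pi.single (σ b) 1) = Pi.single b 1 := by
    funext z
    simp [S, LinearMap.funLeft, Pi.single_apply]
  simp only [LinearMap.comp_apply, e, mulVecLin_apply] at h1
  have h2 : A a b = A (σ a) (σ b) := by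
    simpa [S, LinearMap.funLeft] using h1
  have h3 : A a b = 1 := by
    simp only [A]
    rw [if_pos ⟨1, G.one_mem, rfl⟩]
  by_contra hne
  have h4 : A (σ a) (σ b) = 0 := by
    simp only [A]
    rw [if_neg hne]
  rw [h3, h4] at h2
  exact one_ne_zero h2

end Pool.Agent.H22.RealClosure
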