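import Mathlib

set_option autoImplicit false

namespace Pool.Agent.H22.RealClosure

open Equiv Matrix

universe u

variable {Ω : Type u}

/-- The linear extension of a permutation to the real permutation module: it sends the basis
vector at x to the basis vector at the image of x. -/
def act (σ : Perm Ω) : (Ω → ℝ) →ₗ[ℝ] (Ω → ℝ) := LinearMap.funLeft ℝ ℝ σ.symm

/-- Permutations mapping every G-invariant subspace of the real permutation module onto itself. -/
def realClosure (G : Subgroup (Perm Ω)) : Set (Perm Ω) :=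
  {σ | ∀ W : Submodule ℝ (Ω → ℝ), (∀ g ∈ G, ∀ w ∈ W, act g w ∈ W) → W.map (act σ) = W}

/-- The G-orbit of a subset of the domain. -/
def orb (G : Subgroup (Perm Ω)) (s : Set Ω) : Set (Set Ω) := {t | ∃ g ∈ G, t = g '' s}

/-- Permutations mapping every G-orbit on 2-element subsets onto itself. -/
def strongTwoClosure (G : Subgroup (Perm Ω)) : Set (Perm Ω) :=
  {σ | ∀ s : Set Ω, s.ncard = 2 → (fun t => σ '' t) '' orb G s = orb G s}

def Q (G : Subgroup (Perm Ω)) (σ : Perm Ω) (x y : Ω) : Prop :=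
  ∃ g ∈ G, (σ x = g x ∧ σ y = g y) ∨ (σ x = g y ∧ σ y = g x)

theorem ai (σ : Perm Ω) (x : Ω) : σ (σ⁻¹ x) = x := σ.apply_symm_apply x

theorem ia (σ : Perm Ω) (x : Ω) : σ⁻¹ (σ x) = x := σ.symm_apply_apply x

theorem Q.inv {G : Subgroup (Perm Ω)} {σ : Perm Ω} {x y : Ω} (h : Q G σ (σ⁻¹ x) (σ⁻¹ y)) :
    Q G σ⁻¹ x y := by
  obtain ⟨g, hg, h⟩ := h
  refine ⟨g⁻¹, inv_mem hg, ?_⟩
  simp only [Perm.eq_inv_iff_eq, ai] at h ⊢
  rcases h with h | h
  · exact Or.inl ⟨h.1.symm, h.2.symm⟩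
  · exact Or.inr ⟨h.2.symm, h.1.symm⟩

theorem act_apply (σ : Perm Ω) (w : Ω → ℝ) (x : Ω) : act σ w x = w (σ⁻¹ x) := rfl

theorem act_comm [Fintype Ω] {A : Matrix Ω Ω ℝ} {σ : Perm Ω} (h : ∀ x y, A (σ x) (σ y) = A x y)
    (v : Ω → ℝ) : act σ (A *ᵥ v) = A *ᵥ act σ v := by
  funext x
  simp only [act_apply, mulVec, dotProduct]
  refine Fintype.sum_equiv σ _ _ fun y => ?_
  rw [← h, ai, ia]

theorem mem_of_Q [Fintype Ω] {G : Subgroup (Perm Ω)} {σ : Perm Ω} (h : ∀ x y, Q G σ x y)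
    (W : Submodule ℝ (Ω → ℝ)) (hW : ∀ g ∈ G, ∀ w ∈ W, act g w ∈ W) (w : Ω → ℝ) (hw : w ∈ W) :
    act σ w ∈ W := by
  classical
  let B : Matrix Ω G ℝ := fun x g => w (g.1⁻¹ x)
  have h1 : ∀ g ∈ G, ∀ x y, (B * Bᵀ) (g x) (g y) = (B * Bᵀ) x y := fun g hg x y => by
    simp only [mul_apply, transpose_apply, B]
    exact (Fintype.sum_equiv (Equiv.mulLeft ⟨g, hg⟩) _ _ fun k => by simp).symm
  have h2 : ∀ x y, (B * Bᵀ) (σ x) (σ y) = (B * Bᵀ) x y := fun x y => by
    obtain ⟨g, hg, h | h⟩ := h x y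
    · rw [h.1, h.2, h1 g hg]
    · rw [h.1, h.2, h1 g hg]
      simp only [mul_apply, transpose_apply, mul_comm]
  have h3 : LinearMap.range (B * Bᵀ).mulVecLin = LinearMap.range B.mulVecLin :=
    Submodule.eq_of_le_of_finrank_eq (by rw [mulVecLin_mul]; exact LinearMap.range_comp_le_range _ _)
      (rank_self_mul_transpose B)
  have h4 : LinearMap.range B.mulVecLin ≤ W := by
    rw [range_mulVecLin, Submodule.span_le]
    rintro _ ⟨g, rfl⟩
    exact hW g.1 g.2 w hw
  have h5 : w ∈ LinearMap.range B.mulVecLin := by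
    rw [range_mulVecLin]
    exact Submodule.subset_span ⟨1, rfl⟩
  rw [← h3] at h4 h5
  obtain ⟨v, hv⟩ := h5
  refine h4 ⟨act σ v, ?_⟩
  rw [mulVecLin_apply, ← act_comm h2]
  exact congrArg _ hv

theorem real_iff [Fintype Ω] {G : Subgroup (Perm Ω)} {σ : Perm Ω} :
    σ ∈ realClosure G ↔ ∀ x y, Q G σ x y := by
  classical
  refine ⟨fun h x y => ?_, fun h W hW => le_antisymm ?_ fun w hw => ?_⟩
  · let P : Ω → Ω → Prop := fun a b => ∃ g ∈ G, (a = g x ∧ b = g y) ∨ (a = g y ∧ b = g x)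
    let A : Matrix Ω Ω ℝ := fun a b => if P a b then 1 else 0
    have s1 : ∀ a b, P a b → P b a := fun a b ⟨g, hg, e⟩ => ⟨g, hg, e.symm.imp And.symm And.symm⟩
    have hA : A.IsHermitian := by
      ext a b
      simp only [conjTranspose_apply, star_trivial, A]
      exact if_congr ⟨s1 _ _, s1 _ _⟩ rfl rfl
    have s2 : ∀ k ∈ G, ∀ a b, P a b → P (k a) (k b) := fun k hk a b ⟨g, hg, e⟩ =>
      ⟨k * g, mul_mem hk hg, e.imp (And.imp (congrArg k) (congrArg k))
        (And.imp (congrArg k) (congrArg k))⟩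
    have s3 : ∀ k ∈ G, ∀ a b, A (k a) (k b) = A a b := fun k hk a b =>
      if_congr ⟨fun e => by simpa using s2 _ (inv_mem hk) _ _ e, s2 k hk a b⟩ rfl rfl
    have s4 : act σ ∘ₗ A.mulVecLin = A.mulVecLin ∘ₗ act σ := by
      refine (hA.eigenvectorBasis.toBasis.map (WithLp.linearEquiv 2 ℝ (Ω → ℝ))).ext fun j => ?_
      have e1 := hA.mulVec_eigenvectorBasis j
      have e2 := (h (Module.End.eigenspace A.mulVecLin (hA.eigenvalues j)) fun g hg w hw => by
        rw [Module.End.mem_eigenspace_iff] at hw ⊢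
        rw [mulVecLin_apply] at hw ⊢
        rw [← act_comm (s3 g hg), hw, map_smul]).le
          ⟨_, Module.End.mem_eigenspace_iff.2 e1, rfl⟩
      rw [Module.End.mem_eigenspace_iff] at e2
      change act σ (A *ᵥ (hA.eigenvectorBasis j).ofLp) = A.mulVecLin (act σ (hA.eigenvectorBasis j).ofLp)
      rw [e1, e2, map_smul]
    have s5 := congrFun (LinearMap.congr_fun s4 (Pi.single y 1)) (σ x)
    have s6 : act σ (Pi.single y 1) = Pi.single (σ y) 1 := by
      funext z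
      simp only [act_apply, Pi.single_apply, Perm.inv_eq_iff_eq]
    have s7 : P x y := ⟨1, one_mem _, Or.inl ⟨rfl, rfl⟩⟩
    simp only [LinearMap.comp_apply, s6, act_apply, mulVecLin_apply, mulVec_single_one,
      ia, col_apply, A, if_pos s7] at s5
    by_contra hc
    exact one_ne_zero (s5.trans (if_neg hc))
  · rintro _ ⟨w, hw, rfl⟩
    exact mem_of_Q h W hW w hw
  · exact ⟨_, mem_of_Q (fun x y => (h _ _).inv) W hW w hw, funext fun x => by simp [act_apply]⟩

theorem strong_iff {G : Subgroup (Perm Ω)} {σ : Perm Ω} :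
    σ ∈ strongTwoClosure G ↔ ∀ x y, x ≠ y → Q G σ x y := by
  have key : ∀ τ : Perm Ω, (∀ x y, x ≠ y → Q G τ x y) → ∀ s : Set Ω, s.ncard = 2 →
      ∀ t ∈ orb G s, τ '' t ∈ orb G s := by
    rintro τ h s hs _ ⟨g, hg, rfl⟩
    obtain ⟨x, y, hxy, rfl⟩ := Set.ncard_eq_two.1 hs
    obtain ⟨k, hk, e⟩ := h (g x) (g y) (g.injective.ne hxy)
    refine ⟨k * g, mul_mem hk hg, ?_⟩
    simp only [Set.image_pair, Perm.mul_apply]
    rcases e with e | e
    · rw [e.1, e.2]
    · rw [e.1, e.2, Set.pair_comm]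
  refine ⟨fun h x y hxy => ?_, fun h s hs => Set.Subset.antisymm ?_ fun t ht => ?_⟩
  · obtain ⟨g, hg, e⟩ := (h {x, y} (Set.ncard_pair hxy)).subset
      ⟨{x, y}, ⟨1, one_mem _, by simp⟩, rfl⟩
    simp only [Set.image_pair, Set.pair_eq_pair_iff] at e
    exact ⟨g, hg, e⟩
  · rintro _ ⟨t, ht, rfl⟩
    exact key σ h s hs t ht
  · exact ⟨_, key σ⁻¹ (fun x y hxy => (h _ _ (σ⁻¹.injective.ne hxy)).inv) s hs t ht, by
      simp [Set.image_image]⟩

/-- The real closure equals the strong 2-closure for every finite permutation group except the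
trivial group on two points. -/
theorem result (Ω : Type u) [Fintype Ω] (G : Subgroup (Perm Ω)) :
    realClosure G = strongTwoClosure G ↔ ¬ (Fintype.card Ω = 2 ∧ G = ⊥) := by
  classical
  constructor
  · rintro h ⟨h1, rfl⟩
    obtain ⟨x, y, hxy, e⟩ := Finset.card_eq_two.1 h1
    have e' : ∀ z, z = x ∨ z = y := fun z => by simpa [e] using Finset.mem_univ z
    have : swap x y ∈ realClosure ⊥ := h ▸ strong_iff.2 fun a b hab => ⟨1, one_mem _, Or.inr (by
      rcases e' a with rfl | rfl <;> rcases e' b with rfl | rfl <;> simp_all)⟩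
    obtain ⟨g, hg, e⟩ := real_iff.1 this x x
    rw [Subgroup.mem_bot.1 hg] at e
    simp [hxy.symm] at e
  · intro h
    ext σ
    rw [real_iff, strong_iff]
    refine ⟨fun h x y _ => h x y, fun H x y => ?_⟩
    by_cases hxy : x = y
    swap
    · exact H x y hxy
    subst hxy
    suffices ∃ g ∈ G, σ x = g x from this.imp fun g e => ⟨e.1, Or.inl ⟨e.2, e.2⟩⟩
    by_contra hc
    push Not at hc
    have f1 : ∀ k ∈ G, k x = x := fun k hk => by
      by_contra e
      obtain ⟨g, hg, e | e⟩ := H x (k x) (Ne.symm e)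
      · exact hc g hg e.1
      · exact hc (g * k) (mul_mem hg hk) e.1
    have f2 : ∀ y, y ≠ x → y = σ⁻¹ x := fun y e => by
      obtain ⟨g, hg, e | e⟩ := H x y e.symm
      · exact absurd e.1 (hc g hg)
      · rw [Perm.eq_inv_iff_eq, e.2, f1 g hg]
    have f3 : x ≠ σ⁻¹ x := fun e => hc 1 (one_mem _) (Perm.eq_inv_iff_eq.1 e)
    refine h ⟨Finset.card_eq_two.2 ⟨x, σ⁻¹ x, f3, ?_⟩, (Subgroup.eq_bot_iff_forall _).2 fun k hk => ?_⟩
    · ext z
      simpa using (em (z = x)).imp_right (f2 z)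
    · ext z
      by_cases e : z = x
      · rw [e, f1 k hk]; rfl
      · rw [f2 (k z) fun e' => e (k.injective (e'.trans (f1 k hk).symm)), ← f2 z e]; rfl

end Pool.Agent.H22.RealClosure
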