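import Mathlib

set_option autoImplicit false

namespace Pool.Agent.H22.RingSquare

abbrev F : Type := FreeAlgebra ℤ (Fin 5)

/-- Relations `y_i x_j = δ_ij`, with generators `0,1 = x_1,x_2`, `2,3 = y_1,y_2`, `4 = t`. -/
inductive Rel : F → F → Prop
  | r11 : Rel (FreeAlgebra.ι ℤ 2 * FreeAlgebra.ι ℤ 0) 1
  | r12 : Rel (FreeAlgebra.ι ℤ 2 * FreeAlgebra.ι ℤ 1) 0
  | r21 : Rel (FreeAlgebra.ι ℤ 3 * FreeAlgebra.ι ℤ 0) 0
  | r22 : Rel (FreeAlgebra.ι ℤ 3 * FreeAlgebra.ι ℤ 1) 1

abbrev T : Type := RingQuot Rel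

noncomputable def g (i : Fin 5) : T := RingQuot.mkAlgHom ℤ Rel (FreeAlgebra.ι ℤ i)

theorem g11 : g 2 * g 0 = 1 := by
  have := RingQuot.mkAlgHom_rel ℤ Rel.r11
  simpa [g] using this
theorem g12 : g 2 * g 1 = 0 := by
  have := RingQuot.mkAlgHom_rel ℤ Rel.r12
  simpa [g] using this
theorem g21 : g 3 * g 0 = 0 := by
  have := RingQuot.mkAlgHom_rel ℤ Rel.r21
  simpa [g] using this
theorem g22 : g 3 * g 1 = 1 := by
  have := RingQuot.mkAlgHom_rel ℤ Rel.r22
  simpa [g] using this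

theorem g11' (a : T) : g 2 * (g 0 * a) = a := by rw [← mul_assoc, g11, one_mul]
theorem g12' (a : T) : g 2 * (g 1 * a) = 0 := by rw [← mul_assoc, g12, zero_mul]
theorem g21' (a : T) : g 3 * (g 0 * a) = 0 := by rw [← mul_assoc, g21, zero_mul]
theorem g22' (a : T) : g 3 * (g 1 * a) = a := by rw [← mul_assoc, g22, one_mul]

/-- Universal property. -/
noncomputable def liftT {S : Type} [Ring S] (v : Fin 5 → S) (h11 : v 2 * v 0 = 1)
    (h12 : v 2 * v 1 = 0) (h21 : v 3 * v 0 = 0) (h22 : v 3 * v 1 = 1) : T →ₐ[ℤ] S :=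
  RingQuot.liftAlgHom ℤ ⟨FreeAlgebra.lift ℤ v, by
    rintro x y ⟨⟩ <;> simp [h11, h12, h21, h22]⟩

theorem liftT_g {S : Type} [Ring S] (v : Fin 5 → S) (h11 : v 2 * v 0 = 1)
    (h12 : v 2 * v 1 = 0) (h21 : v 3 * v 0 = 0) (h22 : v 3 * v 1 = 1) (i : Fin 5) :
    liftT v h11 h12 h21 h22 (g i) = v i := by
  simp [liftT, g]

theorem induct (P : T → Prop) (h1 : P 1) (hneg : ∀ a, P a → P (-a)) (hg : ∀ i, P (g i))
    (hadd : ∀ a b, P a → P b → P (a + b)) (hmul : ∀ a b, P a → P b → P (a * b)) (h0 : P 0)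
    (a : T) : P a := by
  obtain ⟨a, rfl⟩ := RingQuot.mkAlgHom_surjective ℤ Rel a
  induction a using FreeAlgebra.induction with
  | grade0 r =>
    rw [AlgHom.commutes]
    simp only [eq_intCast]
    induction r using Int.induction_on with
    | zero => simpa using h0
    | succ n ih => push_cast at ih ⊢; exact hadd _ _ ih h1
    | pred n ih => push_cast at ih ⊢; rw [sub_eq_add_neg]; exact hadd _ _ ih (hneg _ h1)
  | grade1 i => exact hg i
  | mul a b ha hb => rw [map_mul]; exact hmul _ _ ha hb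
  | add a b ha hb => rw [map_add]; exact hadd _ _ ha hb

def x1 : Module.End ℤ (ℕ → ℤ) where
  toFun f n := if n % 2 = 0 then f (n / 2) else 0
  map_add' f g := by funext n; by_cases h : n % 2 = 0 <;> simp [h]
  map_smul' c f := by funext n; by_cases h : n % 2 = 0 <;> simp [h]
def x2 : Module.End ℤ (ℕ → ℤ) where
  toFun f n := if n % 2 = 0 then 0 else f (n / 2)
  map_add' f g := by funext n; by_cases h : n % 2 = 0 <;> simp [h]
  map_smul' c f := by funext n; by_cases h : n % 2 = 0 <;> simp [h]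
def y1 : Module.End ℤ (ℕ → ℤ) where
  toFun f n := f (2 * n)
  map_add' _ _ := rfl
  map_smul' _ _ := rfl
def y2 : Module.End ℤ (ℕ → ℤ) where
  toFun f n := f (2 * n + 1)
  map_add' _ _ := rfl
  map_smul' _ _ := rfl

instance : Nontrivial T := by
  have h11 : y1 * x1 = 1 := by
    refine LinearMap.ext fun f => funext fun n => ?_
    show (if (2 * n) % 2 = 0 then f (2 * n / 2) else 0) = f n
    rw [if_pos (by omega)]; congr 1; omega
  have h12 : y1 * x2 = 0 := by
    refine LinearMap.ext fun f => funext fun n => ?_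
    show (if (2 * n) % 2 = 0 then 0 else f (2 * n / 2)) = 0
    rw [if_pos (by omega)]
  have h21 : y2 * x1 = 0 := by
    refine LinearMap.ext fun f => funext fun n => ?_
    show (if (2 * n + 1) % 2 = 0 then f ((2 * n + 1) / 2) else 0) = 0
    rw [if_neg (by omega)]
  have h22 : y2 * x2 = 1 := by
    refine LinearMap.ext fun f => funext fun n => ?_
    show (if (2 * n + 1) % 2 = 0 then 0 else f ((2 * n + 1) / 2)) = f n
    rw [if_neg (by omega)]; congr 1; omega
  exact (liftT ![x1, x2, y1, y2, 0] h11 h12 h21 h22).toRingHom.domain_nontrivial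

noncomputable def vv : Fin 5 → T × T :=
  ![(g 0, g 0), (g 1, g 1), (g 2, g 2), (g 3, g 3),
    (g 0 * g 2 + g 1 * (g 0 * (g 4 * (g 2 * g 3))), g 1 * (g 1 * (g 4 * (g 3 * g 3))))]

noncomputable def Phi : T →+* T × T :=
  (liftT vv (by simp [vv, g11]) (by simp [vv, g12]) (by simp [vv, g21])
    (by simp [vv, g22])).toRingHom

theorem Phi_g (i : Fin 5) : Phi (g i) = vv i := liftT_g _ _ _ _ _ i

theorem Phi_e : Phi (g 2 * (g 4 * g 0)) = (1, 0) := by
  simp [Phi_g, vv, mul_add, add_mul, mul_assoc, g11, g12, g21, g22, g11', g12', g21', g22']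

theorem Phi_t1 : Phi (g 2 * (g 3 * (g 4 * (g 1 * g 0)))) = (g 4, 0) := by
  simp [Phi_g, vv, mul_add, add_mul, mul_assoc, g11, g12, g21, g22, g11', g12', g21', g22']

theorem Phi_t2 : Phi (g 3 * (g 3 * (g 4 * (g 1 * g 1)))) = (0, g 4) := by
  simp [Phi_g, vv, mul_add, add_mul, mul_assoc, g11, g12, g21, g22, g11', g12', g21', g22']

theorem Phi_surj : Function.Surjective Phi := by
  have e : ((1 : T), (0 : T)) ∈ Phi.range := ⟨_, Phi_e⟩
  have e' : ((0 : T), (1 : T)) ∈ Phi.range := by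
    have := Phi.range.sub_mem Phi.range.one_mem e
    have h : (1 : T × T) - (1, 0) = (0, 1) := by ext <;> simp
    rwa [h] at this
  have d : ∀ i : Fin 5, i ≠ 4 → (g i, g i) ∈ Phi.range := by
    intro i hi
    refine ⟨g i, ?_⟩
    rw [Phi_g]
    fin_cases i <;> first | rfl | exact absurd rfl hi
  have L : ∀ a : T, (a, (0 : T)) ∈ Phi.range := by
    refine induct _ e (fun a ha => ?_) (fun i => ?_) (fun a b ha hb => ?_) (fun a b ha hb => ?_)
      Phi.range.zero_mem
    · simpa using Phi.range.neg_mem ha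
    · by_cases hi : i = 4
      · subst hi; exact ⟨_, Phi_t1⟩
      · simpa using Phi.range.mul_mem e (d i hi)
    · simpa using Phi.range.add_mem ha hb
    · simpa using Phi.range.mul_mem ha hb
  have R : ∀ a : T, ((0 : T), a) ∈ Phi.range := by
    refine induct _ e' (fun a ha => ?_) (fun i => ?_) (fun a b ha hb => ?_) (fun a b ha hb => ?_)
      Phi.range.zero_mem
    · simpa using Phi.range.neg_mem ha
    · by_cases hi : i = 4
      · subst hi; exact ⟨_, Phi_t2⟩
      · simpa using Phi.range.mul_mem e' (d i hi)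
    · simpa using Phi.range.add_mem ha hb
    · simpa using Phi.range.mul_mem ha hb
  rintro ⟨a, b⟩
  simpa using Phi.range.add_mem (L a) (R b)

/-- `P n a`: the element `a` is killed by the `n`-fold iterate of `Phi`. -/
def P : ℕ → T → Prop
  | 0, a => a = 0
  | n + 1, a => P n (Phi a).1 ∧ P n (Phi a).2

theorem P_zero : ∀ n, P n 0
  | 0 => rfl
  | n + 1 => by
    refine ⟨?_, ?_⟩ <;> rw [map_zero] <;> exact P_zero n

theorem P_succ : ∀ n a, P n a → P (n + 1) a
  | 0, a, h => by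
    have h' : a = 0 := h
    rw [h']; exact P_zero 1
  | n + 1, _, h => ⟨P_succ n _ h.1, P_succ n _ h.2⟩

theorem P_mono {n m : ℕ} (h : n ≤ m) {a : T} (ha : P n a) : P m a := by
  induction h with
  | refl => exact ha
  | step _ ih => exact P_succ _ _ ih

theorem P_add : ∀ n a b, P n a → P n b → P n (a + b)
  | 0, a, b, ha, hb => by
    have h1 : a = 0 := ha
    have h2 : b = 0 := hb
    rw [h1, h2, add_zero]; rfl
  | n + 1, a, b, ha, hb => by
    refine ⟨?_, ?_⟩ <;> rw [map_add]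
    · exact P_add n _ _ ha.1 hb.1
    · exact P_add n _ _ ha.2 hb.2

theorem P_mul : ∀ n a b c, P n b → P n (a * b * c)
  | 0, a, b, c, hb => by
    have h2 : b = 0 := hb
    rw [h2, mul_zero, zero_mul]; rfl
  | n + 1, a, b, c, hb => by
    refine ⟨?_, ?_⟩ <;> rw [map_mul, map_mul]
    · exact P_mul n _ _ _ hb.1
    · exact P_mul n _ _ _ hb.2

theorem not_P_one : ∀ n, ¬ P n 1
  | 0 => one_ne_zero
  | n + 1 => fun h => by
    have := h.1
    rw [map_one] at this
    exact not_P_one n this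

def I : Ideal T where
  carrier := {a | ∃ n, P n a}
  add_mem' := by
    rintro a b ⟨n, hn⟩ ⟨m, hm⟩
    exact ⟨max n m, P_add _ _ _ (P_mono (le_max_left _ _) hn) (P_mono (le_max_right _ _) hm)⟩
  zero_mem' := ⟨0, rfl⟩
  smul_mem' := by
    rintro c a ⟨n, hn⟩
    exact ⟨n, by simpa using P_mul n c a 1 hn⟩

instance : I.IsTwoSided := ⟨by
  rintro a b ⟨n, hn⟩
  exact ⟨n, by simpa using P_mul n 1 a b hn⟩⟩

theorem mem_I (a : T) : a ∈ I ↔ ∃ n, P n a := Iff.rfl

abbrev R : Type := T ⧸ I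

noncomputable def Psi : T →+* R × R :=
  ((Ideal.Quotient.mk I).prodMap (Ideal.Quotient.mk I)).comp Phi

theorem Psi_surj : Function.Surjective Psi := by
  rintro ⟨a, b⟩
  obtain ⟨a, rfl⟩ := Ideal.Quotient.mk_surjective a
  obtain ⟨b, rfl⟩ := Ideal.Quotient.mk_surjective b
  obtain ⟨c, hc⟩ := Phi_surj (a, b)
  exact ⟨c, by simp [Psi, hc]⟩

theorem ker_Psi : I = RingHom.ker Psi := by
  ext a
  rw [RingHom.mem_ker]
  have h : Psi a = (Ideal.Quotient.mk I (Phi a).1, Ideal.Quotient.mk I (Phi a).2) := rfl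
  rw [h, Prod.mk_eq_zero, Ideal.Quotient.eq_zero_iff_mem, Ideal.Quotient.eq_zero_iff_mem,
    mem_I, mem_I, mem_I]
  constructor
  · rintro ⟨n, hn⟩
    have := P_succ n a hn
    exact ⟨⟨n, this.1⟩, ⟨n, this.2⟩⟩
  · rintro ⟨⟨n, hn⟩, ⟨m, hm⟩⟩
    exact ⟨max n m + 1, P_mono (le_max_left _ _) hn, P_mono (le_max_right _ _) hm⟩

noncomputable def iso : R ≃+* R × R :=
  (Ideal.quotEquivOfEq ker_Psi).trans (RingHom.quotientKerEquivOfSurjective Psi_surj)

theorem nontrivial_R : Nontrivial R := by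
  refine ⟨1, 0, fun h => ?_⟩
  have h1 : Ideal.Quotient.mk I 1 = 0 := h
  rw [Ideal.Quotient.eq_zero_iff_mem] at h1
  obtain ⟨n, hn⟩ := h1
  exact not_P_one n hn

theorem fg_R : ∃ S : Finset R, Subring.closure (S : Set R) = ⊤ := by
  classical
  refine ⟨Finset.univ.image (fun i => Ideal.Quotient.mk I (g i)), ?_⟩
  rw [eq_top_iff]
  intro a _
  obtain ⟨a, rfl⟩ := Ideal.Quotient.mk_surjective a
  refine induct (fun a => Ideal.Quotient.mk I a ∈ Subring.closure _) ?_ (fun a ha => ?_)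
    (fun i => ?_) (fun a b ha hb => ?_) (fun a b ha hb => ?_) ?_ a
  · rw [map_one]; exact Subring.one_mem _
  · rw [map_neg]; exact Subring.neg_mem _ ha
  · exact Subring.subset_closure (by simp)
  · rw [map_add]; exact Subring.add_mem _ ha hb
  · rw [map_mul]; exact Subring.mul_mem _ ha hb
  · rw [map_zero]; exact Subring.zero_mem _

end Pool.Agent.H22.RingSquare
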