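import Pool.Agent.H22.SubF

namespace Pool.Agent.H22.Comp

open Function Subgroup
open scoped commutatorElement

variable {E L : Type} [Group E] [Group L]

def Cm (D : Subgroup E) (y : E) : Subgroup E where
  carrier := {m | m ∈ normalizer (D : Set E) ∧ ⁅m, y⁆ ∈ D}
  one_mem' := ⟨one_mem _, by simp⟩
  mul_mem' := fun {a b} u v => ⟨mul_mem u.1 v.1, by
    rw [show ⁅a * b, y⁆ = a * ⁅b, y⁆ * a⁻¹ * ⁅a, y⁆ by simp only [commutatorElement_def]; group]
    exact D.mul_mem ((mem_normalizer_iff.1 u.1 _).1 v.2) u.2⟩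
  inv_mem' := fun {a} u => ⟨inv_mem u.1, (mem_normalizer_iff.1 u.1 _).2 (by
    rw [show a * ⁅a⁻¹, y⁆ * a⁻¹ = ⁅a, y⁆⁻¹ by simp only [commutatorElement_def]; group]
    exact D.inv_mem u.2)⟩

theorem focal (X : Subgroup E) (r : E) (c : ∀ x ∈ X, ∀ y ∈ X, Commute x y)
    (n : r ∈ normalizer (X : Set E)) {z : E} (h : z ∈ ⁅X ⊔ zpowers r, X ⊔ zpowers r⁆) :
    ∃ x ∈ X, z = ⁅r, x⁆ := by
  have n1 : ∀ x ∈ X, r * x * r⁻¹ ∈ X := fun x => (mem_normalizer_iff.1 n x).1
  let D : Subgroup E :=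
    { carrier := {z | ∃ x ∈ X, z = ⁅r, x⁆}
      one_mem' := ⟨1, one_mem _, by simp⟩
      mul_mem' := by
        rintro _ _ ⟨x, a, rfl⟩ ⟨y, b, rfl⟩
        refine ⟨x * y, mul_mem a b, ?_⟩
        simp only [commutatorElement_def]
        rw [mul_assoc _ x⁻¹, ← mul_assoc x⁻¹, (c _ (inv_mem a) _ (n1 y b)).eq, (c x a y b).eq,
          mul_inv_rev, ← (c x a y b).eq]
        group
      inv_mem' := by
        rintro _ ⟨x, a, rfl⟩
        refine ⟨x⁻¹, inv_mem a, ?_⟩
        simp only [commutatorElement_def, inv_inv]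
        rw [← (c x a _ (n1 _ (inv_mem a))).eq]
        group }
  have d : D ≤ X := by
    rintro _ ⟨x, a, rfl⟩
    exact mul_mem (n1 x a) (inv_mem a)
  have x1 : X ≤ normalizer (D : Set E) := fun x a => mem_normalizer_iff.2 fun z =>
    ⟨fun b => by rwa [(c x a z (d b)).eq, mul_inv_cancel_right], fun b => by
      have := (mem_normalizer_iff.1 (le_normalizer a) z).2 (d b)
      rwa [(c x a z this).eq, mul_inv_cancel_right] at b⟩
  have r1 : r ∈ normalizer (D : Set E) := mem_normalizer_iff.2 fun z => ⟨by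
    rintro ⟨x, a, rfl⟩
    exact ⟨_, n1 x a, by simp only [commutatorElement_def]; group⟩, fun ⟨x, a, e⟩ =>
      ⟨r⁻¹ * x * r, (mem_normalizer_iff.1 n _).2 (by simpa [mul_assoc] using a), by
        rw [← mul_inv_cancel_right z r⁻¹, ← inv_mul_cancel_left r z, mul_assoc r⁻¹, e]
        simp only [commutatorElement_def]; group⟩⟩
  have k : ∀ y, (∀ x ∈ X, ⁅x, y⁆ ∈ D) → ⁅r, y⁆ ∈ D → X ⊔ zpowers r ≤ Cm D y := fun y a b =>
    sup_le (fun x u => ⟨x1 u, a x u⟩) (zpowers_le.2 ⟨r1, b⟩)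
  refine (commutator_le.2 fun m a y b => (k y (fun x u => ?_) ?_ a).2 : _ ≤ D) h
  · rw [← commutatorElement_inv]
    exact inv_mem (k x (fun y v => by simp [(c y v x u).commutator_eq]) ⟨x, u, rfl⟩ b).2
  · rw [← commutatorElement_inv]
    exact inv_mem (k r (fun x v => by rw [← commutatorElement_inv]; exact inv_mem ⟨x, v, rfl⟩)
      (by simp) b).2

theorem closed [Finite L] (T : Subgroup L) (h1 h2 w r : L) (a : ∀ x ∈ T, ∃ i j : ℤ, x = h1 ^ i * h2 ^ j)
    (c : Commute h1 h2) (w1 : w * h1 * w⁻¹ = h2) (w2 : w * h2 * w⁻¹ = h1)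
    (n : r ∈ normalizer (T : Set L)) (i : ¬ 3 ∣ (T ⊔ zpowers r).index)
    (f : ∀ x ∈ T, Commute r x → x ∈ center L) (π : E →* L) (hs : Surjective π)
    (pf : commutator E = ⊤) (z : ∀ t, π t = 1 → t ∈ center E ∧ t ^ 3 = 1) (t : E) (ht : π t = 1) :
    t = 1 := by
  obtain ⟨h1, rfl⟩ := hs h1
  obtain ⟨h2, rfl⟩ := hs h2
  obtain ⟨w, rfl⟩ := hs w
  obtain ⟨r, rfl⟩ := hs r
  have e : ∀ x y, π x = π y → ∃ s, (∀ g, Commute g s) ∧ x = y * s := fun x y h =>
    ⟨y⁻¹ * x, mem_center_iff.1 (z _ (by simp [h])).1, by simp⟩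
  have cc : ∀ x y s : E, (∀ g, Commute g s) → ⁅x * s, y⁆ = ⁅x, y⁆ := fun x y s h => by
    rw [commutatorElement_def, mul_assoc x, ← (h y).eq]; simp [commutatorElement_def, mul_assoc]
  have c' : Commute h1 h2 := by
    obtain ⟨z1, z2⟩ := z ⁅h1, h2⁆ (by rw [map_commutatorElement, c.commutator_eq])
    obtain ⟨s, s1, s2⟩ := e (w * h1 * w⁻¹) h2 (by simpa using w1)
    obtain ⟨u, u1, u2⟩ := e (w * h2 * w⁻¹) h1 (by simpa using w2)
    have k : ⁅h1, h2⁆ = ⁅h1, h2⁆⁻¹ := calc
      _ = w * ⁅h1, h2⁆ * w⁻¹ := by rw [mem_center_iff.1 z1, mul_inv_cancel_right]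
      _ = ⁅h2 * s, h1 * u⁆ := by rw [← s2, ← u2]; simp only [commutatorElement_def]; group
      _ = _ := by rw [cc _ _ _ s1, ← commutatorElement_inv, cc _ _ _ u1]
    rw [← commutatorElement_eq_one_iff_commute, ← z2, pow_three, mul_eq_one_iff_eq_inv.2 k, mul_one]
  have cx : ∀ x ∈ T.comap π, ∀ y ∈ T.comap π, Commute x y := fun x hx y hy => by
    obtain ⟨i, j, p⟩ := a _ hx
    obtain ⟨k, l, q⟩ := a _ hy
    obtain ⟨s, s1, rfl⟩ := e x (h1 ^ i * h2 ^ j) (by simpa using p)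
    obtain ⟨u, u1, rfl⟩ := e y (h1 ^ k * h2 ^ l) (by simpa using q)
    exact Commute.mul_left (Commute.mul_right (Commute.mul_left (((Commute.refl _).zpow_zpow _ _).mul_right
      (c'.zpow_zpow _ _)) ((c'.symm.zpow_zpow _ _).mul_right ((Commute.refl _).zpow_zpow _ _))) (u1 _))
      (s1 _).symm
  have ix : (T.comap π ⊔ zpowers r).index = (T ⊔ zpowers (π r)).index := by
    rw [← index_map_eq _ hs (le_sup_of_le_left (ker_le_comap π T)), Subgroup.map_sup,
      map_comap_eq_self_of_surjective hs, MonoidHom.map_zpowers]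
  have : (T.comap π ⊔ zpowers r).FiniteIndex := ⟨ix ▸ FiniteIndex.index_ne_zero⟩
  have tr := MonoidHom.transfer_eq_pow (Abelianization.of (G := ↥(T.comap π ⊔ zpowers r))) t
    fun k g _ => by rw [mul_assoc, ← mem_center_iff.1 (pow_mem (z t ht).1 k), inv_mul_cancel_left]
  replace tr := (MonoidHom.mem_ker.1 (Abelianization.commutator_subset_ker (G := E) _
    (pf.ge (mem_top t)))).symm.trans tr
  obtain ⟨x, x1, x2⟩ := focal (T.comap π) r cx (mem_normalizer_iff.2 fun x => by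
    simpa using mem_normalizer_iff.1 n (π x)) (z := t ^ (T.comap π ⊔ zpowers r).index)
      ((map_subtype_commutator _).le ⟨_, (Abelianization.ker_of _).le tr.symm, rfl⟩)
  have x3 : x ∈ Ce (⊤ : Subgroup E) := three (L := (center L).comap π) pf (commutator_le.2
    fun y p g _ k _ => mem_center_iff.1 (z _ (by
      rw [map_commutatorElement, commutatorElement_eq_one_iff_mul_comm, mem_center_iff.1 p])).1 k)
    (f _ x1 (commutatorElement_eq_one_iff_commute.1 (by
      rw [← map_commutatorElement, ← x2, map_pow, ht, one_pow])))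
  rw [commutatorElement_eq_one_iff_mul_comm.2 (x3 r trivial)] at x2
  exact (pow_eq_one_iff_of_coprime ((Nat.Prime.coprime_iff_not_dvd Nat.prime_three).2 (ix ▸ i))).1
    ⟨(z t ht).2, x2⟩

open SemidirectProduct in
theorem mkSd {A : Type} [Group A] [Finite L] [Nontrivial L] (θ : A →* MulAut L) (a : A)
    (ha : ∀ b, b ∈ zpowers a) (pf : commutator L = ⊤) [IsSimpleGroup (L ⧸ center L)] (t : L ≃* L)
    (tc : ∀ b x, t (θ b x) = θ b (t x)) (zc : ∀ z ∈ center L, (∀ b, θ b z = z) ∧ z ^ 3 = 1 ∧ t z = z⁻¹)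
    (ni : ∀ b n, (∀ x, n * θ b x = x * n) → b = 1)
    (cl : ∀ (E : Type) [Group E] (π : E →* L), Surjective π → commutator E = ⊤ →
      (∀ t, π t = 1 → t ∈ center E ∧ t ^ 3 = 1) → ∀ t, π t = 1 → t = 1) :
    ∃ d : Sd (L ⋊[θ] A), Nat.card (Ce d.K) = Nat.card (center L) ∧ d.K.index = Nat.card A := by
  have e : (⊤ : Subgroup L).map (inl : L →* L ⋊[θ] A) = rightHom.ker := by
    rw [← range_inl_eq_ker_rightHom, MonoidHom.range_eq_map]
  have c : Ce (rightHom : L ⋊[θ] A →* A).ker = (center L).map inl := by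
    refine le_antisymm (fun x hx => ?_) ?_
    · have h : ∀ y, x.left * θ x.right y = y * x.left := fun y => by
        simpa using (congrArg left (hx (inl y) (rightHom_inl y))).symm
      have k := ni _ _ h
      exact ⟨x.left, mem_center_iff.2 fun y => by simpa [k] using (h y).symm, by ext <;> simp [k]⟩
    · rintro _ ⟨z, hz, rfl⟩ g hg
      obtain ⟨g, -, rfl⟩ := e.ge hg
      rw [← map_mul, mem_center_iff.1 hz, map_mul]
  refine ⟨⟨rightHom.ker, inr a, map t.toMonoidHom (MonoidHom.id A) fun b => MonoidHom.ext (tc b),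
    e ▸ (cp_top pf).map _ (fun c => top_ne_bot ((map_eq_bot_iff_of_injective _ inl_injective).1 c))
      (e ▸ inferInstance), c.le.trans ((map_mono le_top).trans e.le), ?_, fun g => ?_,
      fun g => ⟨⟨t.symm g.left, g.right⟩, by ext <;> simp⟩, fun g => by simp,
      fun S _ _ M π p q r s u v => ?_⟩, ?_, ?_⟩
  · rw [c]
    rintro _ ⟨z, hz, rfl⟩
    exact ⟨fun g => by ext <;> simp [(zc z hz).1, mem_center_iff.1 hz],
      by rw [← map_pow, (zc z hz).2.1, map_one], by simp [(zc z hz).2.2]⟩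
  · obtain ⟨n, h⟩ := ha g.right
    exact ⟨inl g.left, rightHom_inl _, n, by rw [← map_zpow, show a ^ n = _ from h, inl_left_mul_inr_right]⟩
  · have k : ∀ x : M, (π x).right = 1 := fun x => q.le ⟨x, x.2, rfl⟩
    have k' : ∀ x : M, (π x).left = 1 → π x = 1 := fun x h => by ext <;> simp [h, k]
    refine congrArg Subtype.val (cl M (MonoidHom.mk' (fun x => (π x).left) fun x y => by simp [k])
      (fun l => (q.ge (rightHom_inl l)).elim fun x h => ⟨⟨x, h.1⟩, congrArg left h.2⟩)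
      (map_injective (subtype_injective M) (by
        rw [map_subtype_commutator, p, ← MonoidHom.range_eq_map, range_subtype]))
      (fun x h => ?_) ⟨s, u⟩ (congrArg left v))
    have := r x x.2 (k' x h)
    exact ⟨mem_center_iff.2 fun y => Subtype.ext (this.1 y y.2), Subtype.ext this.2⟩
  · rw [c]
    exact card_map_of_injective inl_injective
  · rw [index_ker, MonoidHom.range_eq_top.2 rightHom_surjective, card_top]

end Pool.Agent.H22.Comp
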