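import Pool.Agent.H22.SL3

namespace Pool.Agent.H22.Comp

open Function Subgroup Matrix MatrixGroups SpecialLinearGroup
open scoped commutatorElement LinearAlgebra.Projectivization

variable {F : Type} [Field F]

theorem sl_top (N : Subgroup SL(3, F)) (h : ∀ (i j : Fin 3) (h : i ≠ j) (c : F),
    SpecialLinearGroup.transvection h c ∈ N) : N = ⊤ :=
  eq_top_iff.2 fun A _ => diagonal_transvection_induction' (· ∈ N) A (fun i j hij a ha => by
    rw [show diag2n hij a ha = SpecialLinearGroup.transvection hij a *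
        SpecialLinearGroup.transvection hij.symm (- a⁻¹) * SpecialLinearGroup.transvection hij a *
        SpecialLinearGroup.transvection hij (-1) * SpecialLinearGroup.transvection hij.symm 1 *
        SpecialLinearGroup.transvection hij (-1) by
      ext k l
      fin_cases i <;> fin_cases j <;> (try exact absurd rfl hij) <;> fin_cases k <;> fin_cases l <;>
        simp [diag2n_coe, transvection_coe, mul_add, add_mul, mul_inv_cancel₀ ha, inv_mul_cancel₀ ha]]
    exact mul_mem (mul_mem (mul_mem (mul_mem (mul_mem (h ..) (h ..)) (h ..)) (h ..)) (h ..)) (h ..))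
    h fun _ _ => mul_mem

theorem sl_pf : commutator SL(3, F) = ⊤ := sl_top _ fun i j h c => by
  obtain ⟨k, a, b⟩ : ∃ k, i ≠ k ∧ k ≠ j := by revert i j; decide
  rw [show SpecialLinearGroup.transvection h c =
      ⁅SpecialLinearGroup.transvection a c, SpecialLinearGroup.transvection b (1 : F)⁆ by
    rw [commutatorElement_def, transvection_inv, transvection_inv]
    exact Subtype.ext (by
      simp [transvection_coe, mul_add, add_mul, single_mul_single_of_ne, h, a, b,
        h.symm, a.symm, b.symm, ← single_neg]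
      abel)]
  exact commutator_mem_commutator (mem_top _) (mem_top _)

theorem sl_simple : IsSimpleGroup (SL(3, F) ⧸ center _) := by
  have : Group.IsPerfect SL(3, F) := ⟨sl_pf⟩
  refine MulAction.IwasawaStructure.isSimpleGroup (M := PSL(3, F)) (α := ℙ F (Fin 3 → F))
    Group.IsPerfect.commutator_eq_top ⟨PSL.iwasawaT, fun p => ?_, fun g p => ?_, ?_⟩ inferInstance
  · have : IsMulCommutative (lineStab (F := F) (ι := Fin 3) p.submodule) := by
      rw [← Projectivization.mk_rep p, Projectivization.submodule_mk]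
      exact lineStab_isMulCommutative_of_span p.rep p.rep_nonzero
    exact map_isMulCommutative _ _
  · obtain ⟨g, rfl⟩ := QuotientGroup.mk_surjective g
    rw [ProjectiveSpecialLinearGroup.smul_proj_mk]
    change Subgroup.map _ _ = _
    rw [PSL.smul_submodule, lineStab_smul, PSL.iwasawaT_map_conj]
  · rw [← Subgroup.map_iSup, sl_top (⨆ p : ℙ F (Fin 3 → F), lineStab p.submodule) fun i j h c =>
      mem_iSup_of_mem (Projectivization.mk F (Pi.single i 1) (by simp)) (by
        rw [Projectivization.submodule_mk]; exact SL2Gen.transvection_mem_lineStab h c)]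
    exact map_top_of_surjective _ (QuotientGroup.mk'_surjective _)

theorem sl_card [Fintype F] (h : Fintype.card F = 64) : ¬ 3 ^ 6 ∣ Nat.card SL(3, F) := by
  have a := (GeneralLinearGroup.det : GL (Fin 3) F →* _).ker.card_mul_index
  rw [index_ker, MonoidHom.range_eq_top.2 GeneralLinearGroup.det_surjective, card_top,
    Nat.card_units, card_GL_field, Nat.card_eq_fintype_card (α := F), h,
    ← Nat.card_congr (show SL(3, F) ≃ (GeneralLinearGroup.det : GL (Fin 3) F →* _).ker from
      ⟨fun g => ⟨toGL g, coeToGL_det g⟩,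
      fun g => ⟨g.1, congrArg Units.val g.2⟩, fun _ => rfl, fun _ => Subtype.ext (Units.ext rfl)⟩)] at a
  simp only [Fin.prod_univ_three] at a
  norm_num at a
  omega

def dg : Fˣ × Fˣ →* SL(3, F) := MonoidHom.mk' (fun u => ⟨diagonal ![u.1, u.2, (u.1 * u.2)⁻¹], by
    simp [Fin.prod_univ_three]
    field_simp⟩) fun u v => by
  ext i j
  fin_cases i <;> fin_cases j <;> simp [mul_comm, mul_left_comm, mul_assoc]

def rr : SL(3, F) := ⟨!![0, 1, 0; 0, 0, 1; 1, 0, 0], by simp [det_fin_three]⟩

def ww : SL(3, F) := ⟨!![0, 1, 0; 1, 0, 0; 0, 0, -1], by simp [det_fin_three]⟩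

theorem rr_dg (u : Fˣ × Fˣ) : rr * dg u = dg (u.2, (u.1 * u.2)⁻¹) * rr := by
  ext i j
  fin_cases i <;> fin_cases j <;> simp [rr, dg, mul_apply, Fin.sum_univ_three]

theorem ww_dg (u : Fˣ × Fˣ) : ww * dg u = dg u.swap * ww := by
  ext i j
  fin_cases i <;> fin_cases j <;> simp [ww, dg, mul_apply, Fin.sum_univ_three, mul_comm]

theorem dg_inj : Injective (dg (F := F)) := (injective_iff_map_eq_one _).2 fun u h =>
  Prod.ext (Units.ext (by simpa [dg] using congrArg (· 0 0) h))
    (Units.ext (by simpa [dg] using congrArg (· 1 1) h))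

theorem sl_cl [Fintype F] (h : Fintype.card F = 64) (E : Type) [Group E] (π : E →* SL(3, F))
    (hs : Surjective π) (pf : commutator E = ⊤) (z : ∀ t, π t = 1 → t ∈ center E ∧ t ^ 3 = 1) :
    ∀ t, π t = 1 → t = 1 := by
  classical
  obtain ⟨a, ha⟩ := IsCyclic.exists_generator (α := Fˣ)
  have r3 : (rr : SL(3, F)) ^ 3 = 1 := by
    ext i j
    fin_cases i <;> fin_cases j <;> simp [rr, pow_succ]
  have n1 : ∀ x ∈ (dg (F := F)).range, rr * x * rr⁻¹ ∈ (dg (F := F)).range := by
    rintro _ ⟨u, rfl⟩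
    exact ⟨_, by rw [rr_dg, mul_inv_cancel_right]⟩
  have n : rr ∈ normalizer ((dg (F := F)).range : Set SL(3, F)) := mem_normalizer_iff.2 fun x =>
    ⟨n1 x, fun b => by
      have := n1 _ (n1 _ b)
      rwa [show rr * (rr * (rr * x * rr⁻¹) * rr⁻¹) * rr⁻¹ = rr ^ 3 * x * (rr ^ 3)⁻¹ by
        simp only [pow_three, _root_.mul_inv_rev, mul_assoc], r3, one_mul,
        inv_one, mul_one] at this⟩
  refine closed dg.range (dg (a, 1)) (dg (1, a)) ww rr ?_ ((Commute.all _ _).map _)
    (by rw [ww_dg, mul_inv_cancel_right]; rfl) (by rw [ww_dg, mul_inv_cancel_right]; rfl) n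
    (fun i => sl_card h ?_) ?_ π hs pf z
  · rintro _ ⟨⟨s, t⟩, rfl⟩
    obtain ⟨i, rfl⟩ := ha s
    obtain ⟨j, rfl⟩ := ha t
    exact ⟨i, j, by simp [← map_zpow, ← map_mul]⟩
  · have := normal_subgroupOf_of_le_normalizer (sup_le le_normalizer (zpowers_le.2 n))
    have k : 3 ∣ (dg (F := F)).range.relIndex (dg.range ⊔ zpowers rr) := by
      by_contra c
      obtain ⟨u, e⟩ : rr ∈ (dg (F := F)).range := by
        have := pow_index_mem ((dg (F := F)).range.subgroupOf (dg.range ⊔ zpowers rr))
          ⟨rr, mem_sup_right (mem_zpowers _)⟩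
        obtain ⟨m, e⟩ := exists_pow_eq_self_of_coprime (x := (rr : SL(3, F)))
          (((Nat.Prime.coprime_iff_not_dvd Nat.prime_three).2 c).symm.coprime_dvd_right
            (orderOf_dvd_of_pow_eq_one r3))
        exact e ▸ pow_mem this m
      simpa [dg, rr] using congrArg (· 0 1) e
    rw [← (dg (F := F)).range.card_mul_index, ← relIndex_mul_index (le_sup_left (b := zpowers rr)),
      ← Nat.card_congr (MonoidHom.ofInjective dg_inj).toEquiv, Nat.card_prod, Nat.card_units,
      Nat.card_eq_fintype_card, h]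
    exact (by norm_num : 3 ^ 6 = 3 ^ 4 * (3 * 3)) ▸ mul_dvd_mul (by norm_num) (mul_dvd_mul k i)
  · rintro _ ⟨u, rfl⟩ c
    have e := dg_inj (mul_right_cancel ((rr_dg u).symm.trans c.eq))
    have e1 : u.2 = u.1 := congrArg Prod.fst e
    have e2 : (u.1 * u.2)⁻¹ = u.2 := congrArg Prod.snd e
    refine Matrix.SpecialLinearGroup.mem_center_iff.2 ⟨u.1, ?_, ?_⟩
    · rw [e1, inv_eq_iff_mul_eq_one] at e2
      simpa [pow_three'] using congrArg Units.val e2
    · have e3 : ((u.2 : F))⁻¹ * (u.1 : F)⁻¹ = u.1 := by simpa using congrArg Units.val (e2.trans e1)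
      have e4 := congrArg Units.val e1
      ext i j
      fin_cases i <;> fin_cases j <;> simp [dg, e3] <;> simp [e4]

def mp : RingAut F →* MulAut SL(3, F) := MonoidHom.mk' (fun α => MonoidHom.toMulEquiv
  (SpecialLinearGroup.map α.toRingHom) (SpecialLinearGroup.map α.symm.toRingHom)
  (by ext x i j; simp) (by ext x i j; simp)) fun _ _ => rfl

theorem mp_apply (α : RingAut F) (x : SL(3, F)) (i j : Fin 3) : mp α x i j = α (x i j) := rfl

theorem ex : ∃ (G : Type) (_ : Group G) (_ : Finite G) (d : Sd G),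
    Nat.card (Ce d.K) = 3 ∧ d.K.index = 3 := by
  classical
  let F := GaloisField 2 6
  have := Fintype.ofFinite F
  have h : Fintype.card F = 64 := Nat.card_eq_fintype_card.symm.trans (GaloisField.card 2 6 (by norm_num))
  let σ : RingAut F := frobeniusEquiv F 2
  have s : ∀ (n : ℕ) x, (σ ^ n) x = x ^ 2 ^ n := fun n => by
    induction n with
    | zero => simp
    | succ n ih => exact fun x => by rw [pow_succ', RingAut.mul_apply, ih, pow_succ, pow_mul]; rfl
  obtain ⟨a, ha⟩ := IsCyclic.exists_generator (α := Fˣ)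
  have o : orderOf a = 63 := by
    rw [orderOf_eq_card_of_forall_mem_zpowers ha, Nat.card_units, Nat.card_eq_fintype_card, h]
  have : Fact (Nat.Prime 3) := ⟨Nat.prime_three⟩
  have o3 : orderOf (σ ^ 2) = 3 := orderOf_eq_prime (RingEquiv.ext fun x => by
    rw [← pow_mul, s, show 2 ^ (2 * 3) = Fintype.card F from h.symm]; exact FiniteField.pow_card x) fun e => by
      have := s 2 a
      rw [e] at this
      have : a ^ 3 = 1 := mul_right_cancel (b := a) (Units.ext (by simpa [← pow_succ] using this.symm))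
      exact absurd (o ▸ orderOf_dvd_of_pow_eq_one this) (by norm_num)
  have fa : Finite (zpowers (σ ^ 2)) := Nat.finite_of_card_ne_zero (by rw [Nat.card_zpowers, o3]; norm_num)
  have := sl_simple (F := F)
  have : Nontrivial SL(3, F) := (QuotientGroup.mk'_surjective (center _)).nontrivial
  obtain ⟨d, d1, d2⟩ := mkSd (mp.comp (zpowers (σ ^ 2)).subtype) ⟨_, mem_zpowers _⟩
    (fun ⟨_, n, e⟩ => ⟨n, Subtype.ext e⟩) sl_pf (mp σ) (fun ⟨_, n, e⟩ x => by
      subst e
      exact congrArg (fun u => mp u x) (((Commute.refl σ).pow_right 2).zpow_right n).eq)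
    (fun z hz => by
      obtain ⟨r, r1, r2⟩ := Matrix.SpecialLinearGroup.mem_center_iff.1 hz
      have r1 : r ^ 3 = 1 := r1
      have z3 : z ^ 3 = 1 := Subtype.ext (by
        rw [Matrix.SpecialLinearGroup.coe_pow, ← r2, ← map_pow, r1, map_one]; rfl)
      have k : ∀ n : ℕ, mp (σ ^ n) z = z ^ 2 ^ n := fun n => Subtype.ext (by
        ext i j
        rw [Matrix.SpecialLinearGroup.coe_pow, mp_apply, ← r2, ← map_pow]
        by_cases e : i = j <;> simp [e, s])
      refine ⟨fun ⟨_, n, e⟩ => ?_, z3, ?_⟩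
      · subst e
        have : mp (σ ^ 2) ∈ MulAction.stabilizer (MulAut SL(3, F)) z := (k 2).trans (by
          rw [show 2 ^ 2 = 3 + 1 from rfl, pow_succ, z3, one_mul])
        exact MulAction.mem_stabilizer_iff.1 ((map_zpow mp (σ ^ 2) n).symm ▸ zpow_mem this n)
      · rw [← pow_one σ, k, eq_inv_iff_mul_eq_one, pow_one, ← pow_succ, z3])
    (fun b n e => Subtype.ext (RingEquiv.ext fun c => by
      have k : ∀ x y : SL(3, F), n * y = x * n → y.1.trace = x.1.trace := fun x y e => by
        rw [eq_inv_mul_of_mul_eq e, Matrix.SpecialLinearGroup.coe_mul, trace_mul_comm,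
          ← Matrix.SpecialLinearGroup.coe_mul, mul_inv_cancel_right]
      simpa [trace_fin_three, mp_apply] using
        k _ _ (e ⟨!![c, 1, 0; -1, 0, 0; 0, 0, 1], by simp [det_fin_three]⟩))) (sl_cl h)
  refine ⟨_, _, Finite.of_equiv _ SemidirectProduct.equivProd.symm, d, d1.trans ?_,
    d2.trans (by rw [Nat.card_zpowers, o3])⟩
  rw [Nat.card_congr (center_equiv_rootsOfUnity' (0 : Fin 3)).toEquiv]
  exact IsPrimitiveRoot.card_rootsOfUnity' (ζ := a ^ 21) (IsPrimitiveRoot.iff_orderOf.2 (by
    rw [orderOf_pow', o] <;> norm_num))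

end Pool.Agent.H22.Comp
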