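import Mathlib
import Pool.Agent.H22.Scott1

namespace Pool.Agent.H22.Scott2
open Pool.Agent.H22.Scott1 MulAction Representation

noncomputable def qe {Γ Y : Type} [Group Γ] [MulAction Γ Y] (y : Y) (h : ∀ z, ∃ g : Γ, g • y = z) :
    Γ ⧸ stabilizer Γ y ≃ Y :=
  Equiv.ofBijective (ofQuotientStabilizer Γ y) ⟨injective_ofQuotientStabilizer Γ y, fun z => by
    obtain ⟨g, rfl⟩ := h z
    exact ⟨QuotientGroup.mk g, rfl⟩⟩

theorem qe_smul {Γ Y : Type} [Group Γ] [MulAction Γ Y] (y : Y) (h : ∀ z, ∃ g : Γ, g • y = z)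
    (g : Γ) (z : Y) : (qe y h).symm (g • z) = g • (qe y h).symm z := by
  apply (qe y h).injective
  rw [Equiv.apply_symm_apply]
  show _ = ofQuotientStabilizer Γ y _
  rw [ofQuotientStabilizer_smul]
  congr 1
  exact ((qe y h).apply_symm_apply z).symm

noncomputable def ce {Γ Y : Type} [Group Γ] [Finite Γ] [MulAction Γ Y] (y : Y)
    (h : ∀ z, ∃ g : Γ, g • y = z) : MonoidAlgebra ℤ (Γ ⧸ stabilizer Γ y) ≃ₗ[ℤ] (Y → ℤ) :=
  (MonoidAlgebra.coeffLinearEquiv ℤ).trans ((Finsupp.linearEquivFunOnFinite ℤ ℤ _).trans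
    (LinearEquiv.funCongrLeft ℤ ℤ (qe y h).symm))

theorem ce_apply {Γ Y : Type} [Group Γ] [Finite Γ] [MulAction Γ Y] (y : Y)
    (h : ∀ z, ∃ g : Γ, g • y = z) (f : MonoidAlgebra ℤ (Γ ⧸ stabilizer Γ y)) (z : Y) :
    ce y h f z = f.coeff ((qe y h).symm z) := rfl

theorem ce_act {Γ Y : Type} [Group Γ] [Finite Γ] [MulAction Γ Y] (y : Y)
    (h : ∀ z, ∃ g : Γ, g • y = z) (g : Γ) (f : MonoidAlgebra ℤ (Γ ⧸ stabilizer Γ y)) :
    ce y h (ofMulAction ℤ Γ (Γ ⧸ stabilizer Γ y) g f) = fun z => ce y h f (g⁻¹ • z) := by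
  funext z
  rw [ce_apply, ce_apply, coeff_ofMulAction, qe_smul]

theorem coset_equiv {Γ Y1 Y2 : Type} [Group Γ] [Finite Γ] [MulAction Γ Y1] [MulAction Γ Y2]
    (y1 : Y1) (y2 : Y2) (h1 : ∀ z, ∃ g : Γ, g • y1 = z) (h2 : ∀ z, ∃ g : Γ, g • y2 = z)
    (E : (Y1 → ℤ) ≃ₗ[ℤ] (Y2 → ℤ))
    (hE : ∀ (g : Γ) (v : Y1 → ℤ), E (fun p => v (g • p)) = fun q => E v (g • q)) :
    Nonempty ((ofMulAction ℤ Γ (Γ ⧸ stabilizer Γ y1)).Equiv
      (ofMulAction ℤ Γ (Γ ⧸ stabilizer Γ y2))) := by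
  refine ⟨Representation.Equiv.mk ((ce y1 h1).trans (E.trans (ce y2 h2).symm)) fun g => ?_⟩
  refine LinearMap.ext fun f => ?_
  apply (ce y2 h2).injective
  simp only [LinearMap.comp_apply, LinearEquiv.coe_coe, LinearEquiv.trans_apply,
    LinearEquiv.apply_symm_apply, ce_act, hE]

theorem core_bot {Γ Y : Type} [Group Γ] [MulAction Γ Y] (y : Y) (h : ∀ z, ∃ g : Γ, g • y = z)
    (hf : ∀ g : Γ, (∀ z : Y, g • z = z) → g = 1) : (stabilizer Γ y).normalCore = ⊥ := by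
  rw [eq_bot_iff]
  intro g hg
  refine hf g fun z => ?_
  obtain ⟨k, rfl⟩ := h z
  have := hg k⁻¹
  rw [mem_stabilizer_iff, inv_inv, mul_smul, mul_smul, inv_smul_eq_iff] at this
  exact this

def G : Subgroup (Equiv.Perm X × Equiv.Perm X) where
  carrier := {g | ∀ x y, orb (g.1 x) (g.2 y) = orb x y}
  mul_mem' {a b} ha hb x y := (ha _ _).trans (hb x y)
  one_mem' _ _ := rfl
  inv_mem' {a} ha x y := by
    have := ha (a.1⁻¹ x) (a.2⁻¹ y)
    simp only [Equiv.Perm.coe_inv, Equiv.apply_symm_apply] at this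
    exact this.symm

def g0 : G := ⟨(p0, q0), inv0⟩
def g1 : G := ⟨(p1, q1), inv1⟩
def g2 : G := ⟨(p2, q2), inv2⟩

theorem tr1 (x : X) : ∃ g : G, g.1.1 0 = x := by
  induction x using WellFoundedLT.induction with
  | ind x ih =>
    by_cases hx : x = 0
    · exact ⟨1, hx.symm⟩
    obtain ⟨h1, h2⟩ := par1 x hx
    obtain ⟨g, hg⟩ := ih _ h1
    rcases h2 with h | h | h
    · exact ⟨g0 * g, by rw [← h, ← hg]; rfl⟩
    · exact ⟨g1 * g, by rw [← h, ← hg]; rfl⟩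
    · exact ⟨g2 * g, by rw [← h, ← hg]; rfl⟩

theorem tr2 (x : X) : ∃ g : G, g.1.2 0 = x := by
  induction x using WellFoundedLT.induction with
  | ind x ih =>
    by_cases hx : x = 0
    · exact ⟨1, hx.symm⟩
    obtain ⟨h1, h2⟩ := par2 x hx
    obtain ⟨g, hg⟩ := ih _ h1
    rcases h2 with h | h | h
    · exact ⟨g0 * g, by rw [← h, ← hg]; rfl⟩
    · exact ⟨g1 * g, by rw [← h, ← hg]; rfl⟩
    · exact ⟨g2 * g, by rw [← h, ← hg]; rfl⟩

def A : Matrix X X ℤ := fun x y => av (orb x y)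
def B : Matrix X X ℤ := fun y x => bv (orb x y)

theorem A_inv (g : G) (x y : X) : A (g.1.1 x) (g.1.2 y) = A x y := congrArg av (g.2 x y)
theorem B_inv (g : G) (x y : X) : B (g.1.2 y) (g.1.1 x) = B y x := congrArg bv (g.2 x y)

theorem AB : A * B = 1 := by
  ext x z
  obtain ⟨g, rfl⟩ := tr1 x
  obtain ⟨z, rfl⟩ := g.1.1.surjective z
  rw [Matrix.mul_apply, ← Equiv.sum_comp g.1.2]
  simp only [A_inv, B_inv, Matrix.one_apply, g.1.1.apply_eq_iff_eq]
  exact row0 z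

theorem BA : B * A = 1 := mul_eq_one_comm.1 AB

theorem faithful (g : G) (h : g.1.1 = 1) : g = 1 := by
  have h2 : g.1.2 = 1 := by
    ext1 y
    have e : (B * A) y (g.1.2 y) = (B * A) y y := by
      rw [Matrix.mul_apply, Matrix.mul_apply]
      refine Finset.sum_congr rfl fun x _ => ?_
      rw [← A_inv g x y, h]
      rfl
    rw [BA, Matrix.one_apply_eq, Matrix.one_apply] at e
    by_contra hne
    rw [if_neg (fun h' => hne h'.symm)] at e
    exact zero_ne_one e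
  exact Subtype.ext (Prod.ext h h2)

abbrev S4 := Equiv.Perm (Fin 4)

@[ext] structure Γ where
  f : X → S4
  g : G

instance : Mul Γ := ⟨fun a b => ⟨fun x => a.f x * b.f (a.g.1.1⁻¹ x), a.g * b.g⟩⟩
instance : One Γ := ⟨⟨1, 1⟩⟩
instance : Inv Γ := ⟨fun a => ⟨fun x => (a.f (a.g.1.1 x))⁻¹, a.g⁻¹⟩⟩

theorem mul_f (a b : Γ) (x : X) : (a * b).f x = a.f x * b.f (a.g.1.1⁻¹ x) := rfl
theorem mul_g (a b : Γ) : (a * b).g = a.g * b.g := rfl
theorem one_f (x : X) : (1 : Γ).f x = 1 := rfl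
theorem one_g : (1 : Γ).g = 1 := rfl
theorem inv_f (a : Γ) (x : X) : a⁻¹.f x = (a.f (a.g.1.1 x))⁻¹ := rfl
theorem inv_g (a : Γ) : a⁻¹.g = a.g⁻¹ := rfl

instance : Group Γ := Group.ofLeftAxioms
  (fun a b c => by
    ext1
    · funext x
      simp [mul_f, mul_g, mul_assoc]
    · simp [mul_g, mul_assoc])
  (fun a => by
    ext1
    · funext x
      simp [mul_f, one_f, one_g]
    · simp [mul_g, one_g])
  (fun a => by
    ext1
    · funext x
      simp [mul_f, one_f, inv_f, inv_g]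
    · simp [mul_g, one_g, inv_g])

instance : Finite Γ := Finite.of_injective (fun a : Γ => (a.f, a.g)) fun a b h =>
  Γ.ext (congrArg Prod.fst h) (congrArg Prod.snd h)

abbrev Φ := X → Fin 4

instance : MulAction Γ Φ where
  smul a φ := fun x => a.f x (φ (a.g.1.1⁻¹ x))
  one_smul _ := rfl
  mul_smul a b φ := by
    funext x
    show (a * b).f x (φ ((a * b).g.1.1⁻¹ x)) = a.f x (b.f _ (φ _))
    simp [mul_f, mul_g]

theorem smul_Φ (a : Γ) (φ : Φ) (x : X) : (a • φ) x = a.f x (φ (a.g.1.1⁻¹ x)) := rfl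

@[ext] structure Y1 where
  φ : Φ
  x : X
@[ext] structure Y2 where
  φ : Φ
  x : X

instance : MulAction Γ Y1 where
  smul a y := ⟨a • y.φ, a.g.1.1 y.x⟩
  one_smul y := Y1.ext (one_smul Γ y.φ) rfl
  mul_smul a b y := Y1.ext (mul_smul a b y.φ) rfl
instance : MulAction Γ Y2 where
  smul a y := ⟨a • y.φ, a.g.1.2 y.x⟩
  one_smul y := Y2.ext (one_smul Γ y.φ) rfl
  mul_smul a b y := Y2.ext (mul_smul a b y.φ) rfl

theorem smul1 (a : Γ) (y : Y1) : a • y = ⟨a • y.φ, a.g.1.1 y.x⟩ := rfl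
theorem smul2 (a : Γ) (y : Y2) : a • y = ⟨a • y.φ, a.g.1.2 y.x⟩ := rfl

def y1 : Y1 := ⟨fun _ => 3, 0⟩
def y2 : Y2 := ⟨fun _ => 3, 0⟩

theorem trY1 (z : Y1) : ∃ a : Γ, a • y1 = z := by
  obtain ⟨g, hg⟩ := tr1 z.x
  refine ⟨⟨fun x => Equiv.swap 3 (z.φ x), g⟩, Y1.ext ?_ hg⟩
  funext x
  simp [smul1, smul_Φ, y1]

theorem trY2 (z : Y2) : ∃ a : Γ, a • y2 = z := by
  obtain ⟨g, hg⟩ := tr2 z.x
  refine ⟨⟨fun x => Equiv.swap 3 (z.φ x), g⟩, Y2.ext ?_ hg⟩
  funext x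
  simp [smul2, smul_Φ, y2]

theorem faithΦ (a : Γ) (h : ∀ φ : Φ, a • φ = φ) : a = 1 := by
  have h1 : ∀ x, a.f x = 1 := fun x => by
    ext1 i
    exact congrFun (h fun _ => i) x
  have h2 : a.g.1.1⁻¹ = 1 := by
    ext1 x
    have := congrFun (h (Pi.single x 1)) x
    rw [smul_Φ, h1, Pi.single_eq_same] at this
    by_contra hne
    have hne' : a.g.1.1⁻¹ x ≠ x := hne
    rw [Pi.single_eq_of_ne hne'] at this
    exact absurd this (by decide)
  exact Γ.ext (funext h1) (faithful _ (inv_eq_one.1 h2))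

theorem core1 : (stabilizer Γ y1).normalCore = ⊥ :=
  core_bot y1 trY1 fun a h => faithΦ a fun φ => congrArg Y1.φ (h ⟨φ, 0⟩)
theorem core2 : (stabilizer Γ y2).normalCore = ⊥ :=
  core_bot y2 trY2 fun a h => faithΦ a fun φ => congrArg Y2.φ (h ⟨φ, 0⟩)

def E : (Y1 → ℤ) ≃ₗ[ℤ] (Y2 → ℤ) where
  toFun v q := Matrix.vecMul (fun x => v ⟨q.φ, x⟩) A q.x
  invFun w p := Matrix.vecMul (fun y => w ⟨p.φ, y⟩) B p.x
  map_add' v w := by
    funext q
    exact congrFun (Matrix.add_vecMul A (fun x => v ⟨q.φ, x⟩) (fun x => w ⟨q.φ, x⟩)) q.x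
  map_smul' c v := by
    funext q
    exact congrFun (Matrix.smul_vecMul c (fun x => v ⟨q.φ, x⟩) A) q.x
  left_inv v := by
    funext p
    show Matrix.vecMul (Matrix.vecMul (fun x => v ⟨p.φ, x⟩) A) B p.x = _
    rw [Matrix.vecMul_vecMul, AB, Matrix.vecMul_one]
  right_inv w := by
    funext p
    show Matrix.vecMul (Matrix.vecMul (fun x => w ⟨p.φ, x⟩) B) A p.x = _
    rw [Matrix.vecMul_vecMul, BA, Matrix.vecMul_one]

theorem E_act (a : Γ) (v : Y1 → ℤ) : E (fun p => v (a • p)) = fun q => E v (a • q) := by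
  funext q
  show ∑ x, v ⟨a • q.φ, a.g.1.1 x⟩ * A x q.x = ∑ x, v ⟨a • q.φ, x⟩ * A x (a.g.1.2 q.x)
  rw [← Equiv.sum_comp a.g.1.1 (fun x => v ⟨a • q.φ, x⟩ * A x (a.g.1.2 q.x))]
  simp only [A_inv]

/-- Some element other than the identity is conjugate only to itself and its inverse. -/
def Pr (H : Type) [Group H] : Prop :=
  ∃ y : H, y ≠ 1 ∧ ∀ h : H, h * y * h⁻¹ = y ∨ h * y * h⁻¹ = y⁻¹

theorem Pr_congr {H K : Type} [Group H] [Group K] (e : H ≃* K) (h : Pr H) : Pr K := by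
  obtain ⟨y, hy, h⟩ := h
  refine ⟨e y, by simpa using hy, fun k => ?_⟩
  obtain ⟨k, rfl⟩ := e.surjective k
  rcases h k with h | h
  · left; rw [← map_inv, ← map_mul, ← map_mul, h]
  · right; rw [← map_inv, ← map_mul, ← map_mul, h, map_inv]

theorem mem1 (a : Γ) : a ∈ stabilizer Γ y1 ↔ (∀ x, a.f x 3 = 3) ∧ a.g.1.1 0 = 0 := by
  rw [mem_stabilizer_iff, Y1.ext_iff, funext_iff]
  rfl
theorem mem2 (a : Γ) : a ∈ stabilizer Γ y2 ↔ (∀ x, a.f x 3 = 3) ∧ a.g.1.2 0 = 0 := by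
  rw [mem_stabilizer_iff, Y2.ext_iff, funext_iff]
  rfl

def c3 : S4 := Equiv.swap 0 1 * Equiv.swap 1 2

/-- The base element with value s at the point x. -/
def bs (x : X) (s : S4) : Γ := ⟨Pi.mulSingle x s, 1⟩

theorem bs_fix (x : X) (s : S4) (hs : s 3 = 3) (z : X) : (bs x s).f z 3 = 3 := by
  by_cases h : z = x
  · subst h
    simpa [bs] using hs
  · simp [bs, Pi.mulSingle_eq_of_ne h]

theorem conj_f (a b : Γ) (hb : b.g = 1) (x : X) :
    (a * b * a⁻¹).f x = a.f x * b.f (a.g.1.1⁻¹ x) * (a.f x)⁻¹ := by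
  simp [mul_f, mul_g, inv_f, hb]

theorem Pr1 : Pr (stabilizer Γ y1) := by
  refine ⟨⟨bs 0 c3, (mem1 _).2 ⟨bs_fix 0 c3 (by decide), rfl⟩⟩, ?_, ?_⟩
  · intro h
    have := congrArg (fun a : stabilizer Γ y1 => a.1.f 0) h
    simp only [bs, Pi.mulSingle_eq_same] at this
    exact absurd this (by decide)
  · rintro ⟨a, ha⟩
    obtain ⟨h1, h2⟩ := (mem1 a).1 ha
    have h3 : a.g.1.1⁻¹ 0 = 0 := by
      rw [Equiv.Perm.inv_eq_iff_eq]; exact h2.symm
    have h4 : ∀ x, x ≠ 0 → a.g.1.1⁻¹ x ≠ 0 := fun x hx h => hx (by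
      rw [Equiv.Perm.inv_eq_iff_eq] at h; rw [h, h2])
    have k : ∀ s : S4, s 3 = 3 → s * c3 * s⁻¹ = c3 ∨ s * c3 * s⁻¹ = c3⁻¹ := by decide
    have hg : (a * bs 0 c3 * a⁻¹).g = 1 := by simp [mul_g, inv_g, bs]
    rcases k _ (h1 0) with h | h
    · left
      refine Subtype.ext (Γ.ext (funext fun x => ?_) hg)
      show (a * bs 0 c3 * a⁻¹).f x = (bs 0 c3).f x
      rw [conj_f _ _ rfl]
      by_cases hx : x = 0
      · subst hx
        rw [h3]
        simpa [bs] using h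
      · simp only [bs, Pi.mulSingle_eq_of_ne hx, Pi.mulSingle_eq_of_ne (h4 x hx)]
        simp
    · right
      refine Subtype.ext (Γ.ext (funext fun x => ?_) (hg.trans inv_one.symm))
      show (a * bs 0 c3 * a⁻¹).f x = ((bs 0 c3).f x)⁻¹
      rw [conj_f _ _ rfl]
      by_cases hx : x = 0
      · subst hx
        rw [h3]
        simpa [bs] using h
      · simp only [bs, Pi.mulSingle_eq_of_ne hx, Pi.mulSingle_eq_of_ne (h4 x hx)]
        simp

theorem nPr2 : ¬ Pr (stabilizer Γ y2) := by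
  rintro ⟨⟨y, hy⟩, hne, h⟩
  have H : ∀ a : Γ, a ∈ stabilizer Γ y2 → a * y * a⁻¹ = y ∨ a * y * a⁻¹ = y⁻¹ := fun a ha => by
    rcases h ⟨a, ha⟩ with h | h
    · exact Or.inl (congrArg Subtype.val h)
    · exact Or.inr (congrArg Subtype.val h)
  have hb : ∀ x s, s 3 = 3 → bs x s ∈ stabilizer Γ y2 := fun x s hs =>
    (mem2 _).2 ⟨bs_fix x s hs, rfl⟩
  have hg : y.g = 1 := by
    apply faithful
    rw [← inv_eq_one]
    ext1 x
    by_contra hx
    have e : ∀ s : S4, (bs x s * y * (bs x s)⁻¹).f x = s * y.f x := fun s => by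
      simp [mul_f, mul_g, inv_f, bs]
      have hx' : y.g.1.1⁻¹ x ≠ x := hx
      exact Pi.mulSingle_eq_of_ne (M := fun _ => S4) hx' s
    have e2 : ∀ s : S4, s 3 = 3 → s * y.f x = y.f x ∨ s * y.f x = y⁻¹.f x := fun s hs => by
      rcases H _ (hb x s hs) with h | h
      · left; rw [← e, h]
      · right; rw [← e, h]
    rcases e2 c3 (by decide) with h1 | h1
    · exact absurd (mul_eq_right.1 h1) (by decide)
    rcases e2 c3⁻¹ (by decide) with h2 | h2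
    · exact absurd (mul_eq_right.1 h2) (by decide)
    exact absurd (mul_right_cancel (h1.trans h2.symm)) (by decide)
  have hinv : ∀ x, y⁻¹.f x = (y.f x)⁻¹ := fun x => by simp [inv_f, hg]
  obtain ⟨x, hx⟩ : ∃ x, y.f x ≠ 1 := by
    by_contra hc
    push Not at hc
    exact hne (Subtype.ext (Γ.ext (funext hc) hg))
  have hy3 := ((mem2 y).1 hy).1
  have e : ∀ (s : S4) (u z : X), (bs u s * y * (bs u s)⁻¹).f z
      = Pi.mulSingle (M := fun _ => S4) u s z * y.f z * (Pi.mulSingle (M := fun _ => S4) u s z)⁻¹ :=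
    fun s u z => conj_f _ _ hg z
  have k1 : ∀ t : S4, t 3 = 3 → t ≠ 1 →
      (∀ s : S4, s 3 = 3 → s * t * s⁻¹ = t ∨ s * t * s⁻¹ = t⁻¹) →
      t ≠ t⁻¹ ∧ Equiv.swap 0 1 * t * (Equiv.swap 0 1)⁻¹ ≠ t := by decide +kernel
  have k2 : ∀ z, y.f z ≠ 1 → y.f z ≠ (y.f z)⁻¹ ∧
      Equiv.swap 0 1 * y.f z * (Equiv.swap 0 1)⁻¹ ≠ y.f z := fun z hz =>
    k1 _ (hy3 z) hz fun s hs => by
      have e1 := e s z z
      rw [Pi.mulSingle_eq_same] at e1
      rcases H _ (hb z s hs) with h | h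
      · left; rw [← e1, h]
      · right; rw [← e1, h, hinv]
  have uniq : ∀ z, y.f z ≠ 1 → z = x := fun z hz => by
    by_contra hzx
    have e1 := e (Equiv.swap 0 1) x x
    have e2 := e (Equiv.swap 0 1) x z
    rw [Pi.mulSingle_eq_same] at e1
    rw [Pi.mulSingle_eq_of_ne hzx, one_mul, inv_one, mul_one] at e2
    rcases H _ (hb x (Equiv.swap 0 1) (by decide)) with h | h
    · rw [h] at e1
      exact (k2 x hx).2 e1.symm
    · rw [h, hinv] at e2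
      exact (k2 z hz).1 e2.symm
  have fx : ∀ g : G, g.1.2 0 = 0 → g.1.1 x = x := fun g hg0 => by
    apply uniq
    have e1 := conj_f ⟨1, g⟩ y hg (g.1.1 x)
    simp only [Pi.one_apply, one_mul, inv_one, mul_one, Equiv.Perm.coe_inv,
      Equiv.symm_apply_apply] at e1
    rcases H ⟨1, g⟩ ((mem2 _).2 ⟨fun _ => rfl, hg0⟩) with h | h
    · rw [h] at e1
      rw [e1]; exact hx
    · rw [h, hinv] at e1
      intro h1
      rw [h1, inv_one] at e1
      exact hx e1.symm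
  exact nofix x ⟨fx g0 fix2.1, fx g1 fix2.2⟩

end Pool.Agent.H22.Scott2
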