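import Mathlib

set_option autoImplicit false

namespace Pool.Agent.H22.SemiAlg

open Polynomial TrivSqZeroExt DualNumber

abbrev F0 : Type := FractionRing ℚ[X]
abbrev K0 : Type := AlgebraicClosure F0

def B : Type := DualNumber K0

noncomputable instance : CommRing B := inferInstanceAs (CommRing (DualNumber K0))

noncomputable def t0 : K0 := algebraMap ℚ[X] K0 X

noncomputable def hB : ℚ[X] →+* DualNumber K0 :=
  eval₂RingHom (algebraMap ℚ (DualNumber K0)) (inl t0 + ε)

noncomputable instance : Algebra ℚ[X] B := RingHom.toAlgebra (S := B) hB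

theorem ex_lift : ∃ ψ : K0 →+* DualNumber K0, (∀ a, (ψ a).fst = a) ∧ ψ t0 = inl t0 + ε := by
  have h1 : Algebra.FormallyEtale ℚ[X] F0 :=
    Algebra.FormallyEtale.of_isLocalization (nonZeroDivisors ℚ[X])
  have h2 : Algebra.FormallyEtale F0 K0 := Algebra.FormallyEtale.of_isSeparable F0 K0
  have h3 : Algebra.FormallyEtale ℚ[X] K0 := Algebra.FormallyEtale.comp ℚ[X] F0 K0
  have h4 : (fstHom K0 K0 K0).toRingHom.comp hB = algebraMap ℚ[X] K0 := by
    refine Polynomial.ringHom_ext' (RingHom.ext_rat _ _) ?_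
    simp [hB, t0]
  obtain ⟨g, hg⟩ : ∃ g : B →ₐ[ℚ[X]] K0, ∀ x : DualNumber K0, g x = x.fst :=
    ⟨⟨(fstHom K0 K0 K0).toRingHom, fun p => DFunLike.congr_fun h4 p⟩, fun _ => rfl⟩
  have h5 : Function.Surjective g := fun a => ⟨(inl a : DualNumber K0), by rw [hg]; rfl⟩
  have h6 : IsNilpotent (RingHom.ker (g : B →+* K0)) := by
    refine ⟨2, ?_⟩
    rw [pow_two, Ideal.zero_eq_bot, eq_bot_iff, Ideal.mul_le]
    intro x hx y hy
    have hx' : TrivSqZeroExt.fst (R := K0) (M := K0) x = 0 := (hg x).symm.trans hx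
    have hy' : TrivSqZeroExt.fst (R := K0) (M := K0) y = 0 := (hg y).symm.trans hy
    have : ∀ x y : DualNumber K0, x.fst = 0 → y.fst = 0 → x * y = 0 := fun x y h1 h2 => by
      ext <;> simp [h1, h2]
    exact this x y hx' hy'
  refine ⟨(Algebra.FormallySmooth.liftOfSurjective (AlgHom.id _ _) g h5 h6).toRingHom,
    fun a => ?_, ?_⟩
  · exact (hg _).symm.trans (Algebra.FormallySmooth.liftOfSurjective_apply _ g h5 h6 a)
  · refine ((Algebra.FormallySmooth.liftOfSurjective (AlgHom.id _ _) g h5 h6).commutes X).trans ?_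
    change hB X = _
    simp [hB]

theorem ex_aut : ∃ (l : K0) (φ : DualNumber K0 ≃+* DualNumber K0), l ≠ 0 ∧ l ≠ 1 ∧
    φ (inl l) = inl l + ε := by
  obtain ⟨ψ, h1, h2⟩ := ex_lift
  obtain ⟨f, hf⟩ : ∃ f : DualNumber K0 →+* DualNumber K0, ∀ x, f x = ψ x.fst + inr x.snd := by
    refine ⟨⟨⟨⟨fun x => ψ x.fst + inr x.snd, by simp⟩, fun x y => ?_⟩, by simp, fun x y => ?_⟩,
      fun _ => rfl⟩
    · ext
      · simp [h1]
      · simp only [fst_mul, map_mul, DualNumber.snd_mul, snd_add, snd_inr, fst_add, fst_inr, h1]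
        ring
    · simp only [fst_add, snd_add, map_add, inr_add]
      abel
  have hi : Function.Injective (algebraMap ℚ[X] K0) := by
    rw [IsScalarTower.algebraMap_eq ℚ[X] F0 K0]
    exact (algebraMap F0 K0).injective.comp (IsFractionRing.injective _ _)
  refine ⟨t0, RingEquiv.ofBijective f ⟨(injective_iff_map_eq_zero f).mpr fun x hx => ?_,
    fun y => ⟨inl y.fst + inr (y.snd - (ψ y.fst).snd), ?_⟩⟩, ?_, ?_, ?_⟩
  · rw [hf] at hx
    have k1 : x.fst = 0 := by simpa [h1] using congrArg TrivSqZeroExt.fst hx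
    have k2 : x.snd = 0 := by simpa [k1] using congrArg TrivSqZeroExt.snd hx
    ext <;> assumption
  · rw [hf]
    ext <;> simp [h1]
  · exact (map_ne_zero_iff _ hi).mpr X_ne_zero
  · intro h
    have := hi (h.trans (map_one _).symm)
    simpa using congrArg (eval 0) this
  · simp [hf, h2]

end Pool.Agent.H22.SemiAlg
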