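import Mathlib

set_option autoImplicit false

namespace Pool.Agent.H22.SemiAlg

@[ext] structure G {A : Type} [CommRing A] (a : A) where
  u : Aˣ
  s : A
  r : A
  m : Fin 6 → A

section

variable {A : Type} [CommRing A]

def act (a u s r : A) (m : Fin 6 → A) : Fin 6 → A :=
  ![u * m 0, u * (m 1 + s * m 0), u * (m 2 + 2 * s * m 1 + (s ^ 2 + r) * m 0),
    u * m 3, u * (m 4 + s * m 3), u * (m 5 + 2 * s * m 4 + (s ^ 2 + r * a) * m 3)]

theorem act_mul (a u s r u' s' r' : A) (m : Fin 6 → A) :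
    act a (u * u') (s + s') (r + r') m = act a u s r (act a u' s' r' m) := by
  ext i
  fin_cases i <;> simp [act] <;> ring

theorem act_add (a u s r : A) (m m' : Fin 6 → A) :
    act a u s r (m + m') = act a u s r m + act a u s r m' := by
  ext i
  fin_cases i <;> simp [act] <;> ring

theorem act_smul (a u s r c : A) (m : Fin 6 → A) : act a u s r (c • m) = c • act a u s r m := by
  ext i
  fin_cases i <;> simp [act] <;> ring

theorem act_scal (a u : A) (m : Fin 6 → A) : act a u 0 0 m = u • m := by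
  ext i
  fin_cases i <;> simp [act]

theorem act_zero (a u s r : A) : act a u s r 0 = 0 := by
  ext i
  fin_cases i <;> simp [act]

theorem act_neg (a u s r : A) (m : Fin 6 → A) : act a u s r (-m) = -act a u s r m := by
  rw [← neg_one_smul A m, act_smul, neg_one_smul]

theorem act_fix (a u s r : A) (m : Fin 6 → A) (hu : IsUnit (u - 1)) (h : act a u s r m = m) :
    m = 0 := by
  have k : ∀ x : A, u * x = x → x = 0 := fun x hx =>
    (hu.mul_right_eq_zero).mp (by rw [sub_mul, hx, one_mul, sub_self])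
  have h0 := congrFun h 0
  have h1 := congrFun h 1
  have h2 := congrFun h 2
  have h3 := congrFun h 3
  have h4 := congrFun h 4
  have h5 := congrFun h 5
  simp [act] at h0 h1 h2 h3 h4 h5
  have e0 := k _ h0
  have e3 := k _ h3
  have e1 := k (m 1) (by simpa [e0] using h1)
  have e4 := k (m 4) (by simpa [e3] using h4)
  have e2 := k (m 2) (by simpa [e0, e1] using h2)
  have e5 := k (m 5) (by simpa [e3, e4] using h5)
  ext i
  fin_cases i <;> simpa

theorem act_faith (a u s r : A) (h : ∀ m, act a u s r m = m) : u = 1 ∧ s = 0 ∧ r = 0 := by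
  have h0 := congrFun (h (Pi.single 0 1)) 0
  have h1 := congrFun (h (Pi.single 0 1)) 1
  have h2 := congrFun (h (Pi.single 0 1)) 2
  simp [act] at h0 h1 h2
  subst h0
  have : s = 0 := by simpa using h1
  subst this
  exact ⟨rfl, rfl, by simpa using h2⟩

variable {a : A}

instance : Mul (G a) :=
  ⟨fun g h => ⟨g.u * h.u, g.s + h.s, g.r + h.r, g.m + act a g.u g.s g.r h.m⟩⟩

instance : One (G a) := ⟨⟨1, 0, 0, 0⟩⟩

instance : Inv (G a) := ⟨fun g => ⟨g.u⁻¹, -g.s, -g.r, -act a ↑g.u⁻¹ (-g.s) (-g.r) g.m⟩⟩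

theorem mul_def (g h : G a) :
    g * h = ⟨g.u * h.u, g.s + h.s, g.r + h.r, g.m + act a g.u g.s g.r h.m⟩ := rfl

theorem one_def : (1 : G a) = ⟨1, 0, 0, 0⟩ := rfl

theorem inv_def (g : G a) : g⁻¹ = ⟨g.u⁻¹, -g.s, -g.r, -act a ↑g.u⁻¹ (-g.s) (-g.r) g.m⟩ := rfl

instance : Group (G a) := Group.ofLeftAxioms
  (fun x y z => by simp only [mul_def, mul_assoc, add_assoc, act_add, Units.val_mul, act_mul])
  (fun x => by simp [mul_def, one_def, act_scal])
  (fun x => by simp [mul_def, one_def, inv_def])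

def iM (m : Fin 6 → A) : G a := ⟨1, 0, 0, m⟩

theorem iM_add (m m' : Fin 6 → A) : (iM (m + m') : G a) = iM m * iM m' := by
  simp [iM, mul_def, act_scal]

theorem iM_inj {m m' : Fin 6 → A} (h : (iM m : G a) = iM m') : m = m' := congrArg G.m h

theorem conj (g : G a) (m : Fin 6 → A) : g * iM m = iM (act a g.u g.s g.r m) * g := by
  simp [iM, mul_def, act_scal, add_comm]

theorem comm_M (g h : G a) : ∃ m, g * h = iM m * (h * g) :=
  ⟨(g * h).m - (h * g).m, by
    simp [iM, mul_def, act_scal, add_comm, mul_comm]⟩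

theorem comm_S (g h : G a) (hg : g.m = 0) (hu : IsUnit ((g.u : A) - 1)) (e : g * h = h * g) :
    h.m = 0 := by
  have := congrArg G.m e
  simp only [mul_def, hg, zero_add, act_zero, add_zero] at this
  exact act_fix _ _ _ _ _ hu this

theorem triv (g : G a) (hg : g.m = 0) (h : ∀ m, act a g.u g.s g.r m = m) : g = 1 := by
  obtain ⟨h1, h2, h3⟩ := act_faith _ _ _ _ h
  exact G.ext (Units.ext h1) h2 h3 hg

theorem center_triv (z : Aˣ) (hz : IsUnit ((z : A) - 1)) : Subgroup.center (G a) = ⊥ := by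
  rw [eq_bot_iff]
  intro g hg
  rw [Subgroup.mem_center_iff] at hg
  refine triv g (comm_S ⟨z, 0, 0, 0⟩ g rfl hz (hg _)) fun m => ?_
  have := conj g m
  rw [← hg] at this
  exact (iM_inj (mul_right_cancel this)).symm

theorem indec_aux {G1 G2 : Type} [Group G1] [Group G2] (e : G1 × G2 ≃* G a) (x : G1)
    (h1 : (e (x, 1)).m = 0) (h2 : IsUnit (((e (x, 1)).u : A) - 1)) : Subsingleton G2 := by
  have k : ∀ y, (e (1, y)).m = 0 := fun y => comm_S _ _ h1 h2 (by simp [← map_mul])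
  refine subsingleton_of_forall_eq 1 fun y => ?_
  have : e (1, y) = 1 := by
    refine triv _ (k y) fun m => ?_
    obtain ⟨⟨p, q⟩, hp⟩ := e.surjective (iM m)
    have k1 : e (1, y) * iM m = e (1, y * q * y⁻¹ * q⁻¹) * (iM m * e (1, y)) := by
      simp [← hp, ← map_mul, mul_assoc]
    rw [conj, ← mul_assoc] at k1
    have k2 := mul_right_cancel k1
    have k3 : e (1, y * q * y⁻¹ * q⁻¹) = iM (act a (e (1, y)).u (e (1, y)).s (e (1, y)).r m - m) := by
      rw [← mul_right_cancel_iff (a := iM m), ← k2, ← iM_add, sub_add_cancel]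
    have k4 := k (y * q * y⁻¹ * q⁻¹)
    rw [k3] at k4
    exact sub_eq_zero.mp k4
  simpa using (map_eq_one_iff e e.injective).mp this

theorem indec (z : Aˣ) (hz : IsUnit ((z : A) - 1))
    (hl : ∀ x y : A, IsUnit (x * y - 1) → IsUnit (x - 1) ∨ IsUnit (y - 1))
    (G1 G2 : Type) [Group G1] [Group G2] (e : G a ≃* G1 × G2) : Subsingleton G1 ∨ Subsingleton G2 := by
  obtain ⟨⟨x, y⟩, hp⟩ := e.symm.surjective ⟨z, 0, 0, 0⟩
  have k1 : (e.symm (x, 1)).m = 0 := comm_S ⟨z, 0, 0, 0⟩ _ rfl hz (by simp [← hp, ← map_mul])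
  have k2 : (e.symm (1, y)).m = 0 := comm_S ⟨z, 0, 0, 0⟩ _ rfl hz (by simp [← hp, ← map_mul])
  have k3 : e.symm (x, 1) * e.symm (1, y) = ⟨z, 0, 0, 0⟩ := by simp [← hp, ← map_mul]
  have k4 : ((e.symm (x, 1)).u : A) * (e.symm (1, y)).u = z :=
    congrArg (fun g : G a => (g.u : A)) k3
  rcases hl _ _ (k4 ▸ hz) with h | h
  · exact Or.inr (indec_aux e.symm x k1 h)
  · exact Or.inl (indec_aux (MulEquiv.prodComm.trans e.symm) y k2 h)

def gmap (φ : A ≃+* A) {a b : A} (h : φ a = b) : G a ≃* G b where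
  toFun g := ⟨Units.map φ.toMonoidHom g.u, φ g.s, φ g.r, fun i => φ (g.m i)⟩
  invFun g := ⟨Units.map φ.symm.toMonoidHom g.u, φ.symm g.s, φ.symm g.r, fun i => φ.symm (g.m i)⟩
  left_inv g := by ext <;> simp
  right_inv g := by ext <;> simp
  map_mul' g g' := by
    subst h
    simp only [mul_def, map_mul, map_add, G.mk.injEq, true_and]
    ext i
    fin_cases i <;> simp [act, map_ofNat]

theorem map_M {b : A} (z : Aˣ) (hz : (z : A) = 2) (φ : G a ≃* G b) (m : Fin 6 → A) :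
    ∃ m', φ (iM m) = iM m' := by
  obtain ⟨m', h⟩ := comm_M (φ ⟨z, 0, 0, 0⟩) (φ (iM m))
  refine ⟨m', ?_⟩
  rw [← map_mul, conj, act_scal, hz, two_smul, iM_add, map_mul, map_mul, mul_assoc] at h
  exact mul_right_cancel h

theorem pow_S (u : Aˣ) (s r : A) (n : ℕ) : (⟨u, s, r, 0⟩ : G a) ^ n = ⟨u ^ n, n * s, n * r, 0⟩ := by
  induction n with
  | zero => simp [one_def]
  | succ n ih => simp [pow_succ, ih, mul_def, act_zero, add_mul]

theorem pow_M (m : Fin 6 → A) (n : ℕ) : (iM m : G a) ^ n = iM ((n : A) • m) := by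
  induction n with
  | zero => simp [one_def, iM]
  | succ n ih => rw [pow_succ, ih, ← iM_add, Nat.cast_succ, add_smul, one_smul]

theorem conn (h1 : ∀ n : ℕ, n ≠ 0 → ∃ c : A, n * c = 1) (h2 : ∀ n : ℕ, n ≠ 0 → ∀ u : Aˣ, ∃ v, v ^ n = u)
    (H : Subgroup (G a)) (hH : H.FiniteIndex) : H = ⊤ := by
  have hn : H.normalCore.index ≠ 0 := Subgroup.FiniteIndex.index_ne_zero
  have k : ∀ g : G a, g ^ H.normalCore.index ∈ H := fun g =>
    H.normalCore_le (Subgroup.pow_index_mem _ g)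
  obtain ⟨c, hc⟩ := h1 _ hn
  rw [eq_top_iff]
  rintro ⟨u, s, r, m⟩ -
  obtain ⟨v, hv⟩ := h2 _ hn u
  have := H.mul_mem (k (iM (c • m))) (k ⟨v, c * s, c * r, 0⟩)
  rw [pow_M, pow_S, smul_smul, ← mul_assoc, ← mul_assoc, hc, hv] at this
  simpa [iM, mul_def, act_zero] using this

end

end Pool.Agent.H22.SemiAlg
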