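import Pool.Agent.H22.SemiAlg2

set_option autoImplicit false

namespace Pool.Agent.H22.SemiAlg

open TrivSqZeroExt DualNumber

def T {A : Type} [CommRing A] {a : A} (g : G a) (m : Fin 6 → A) : Fin 6 → A :=
  act a g.u g.s g.r m - m

section

variable {A : Type} [CommRing A] {a : A} (g : G a) (m : Fin 6 → A)

theorem T0 : T g m 0 = g.u * m 0 - m 0 := rfl
theorem T1 : T g m 1 = g.u * (m 1 + g.s * m 0) - m 1 := rfl
theorem T2 : T g m 2 = g.u * (m 2 + 2 * g.s * m 1 + (g.s ^ 2 + g.r) * m 0) - m 2 := rfl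
theorem T3 : T g m 3 = g.u * m 3 - m 3 := rfl
theorem T4 : T g m 4 = g.u * (m 4 + g.s * m 3) - m 4 := rfl
theorem T5 : T g m 5 = g.u * (m 5 + 2 * g.s * m 4 + (g.s ^ 2 + g.r * a) * m 3) - m 5 := rfl

theorem ext6 {x y : Fin 6 → A} (h0 : x 0 = y 0) (h1 : x 1 = y 1) (h2 : x 2 = y 2) (h3 : x 3 = y 3)
    (h4 : x 4 = y 4) (h5 : x 5 = y 5) : x = y := by
  funext i
  fin_cases i <;> assumption

end

variable {K : Type} [Field K]

theorem idem (ρ : DualNumber K) (μ : K) (q : DualNumber K) (hq : q.fst ≠ 0) (h1 : μ ≠ 1)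
    (x y : DualNumber K) (hxy : x + y = 1) (k1 : (ρ - q) * x = 0) (k2 : (ρ - inl μ * q) * y = 0) :
    (ρ.fst = q.fst ∧ ρ.snd = q.snd) ∨ (ρ.fst = μ * q.fst ∧ ρ.snd = μ * q.snd) := by
  have h : (ρ - q) * (ρ - inl μ * q) = 0 := by
    linear_combination (ρ - inl μ * q) * k1 + (ρ - q) * k2 - (ρ - q) * (ρ - inl μ * q) * hxy
  have e1 := congrArg TrivSqZeroExt.fst h
  have e2 := congrArg TrivSqZeroExt.snd h
  simp only [fst_mul, fst_sub, fst_inl, fst_zero, DualNumber.snd_mul, snd_sub, snd_inl, snd_zero,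
    zero_mul, add_zero] at e1 e2
  have h2 : (1 - μ) * q.fst ≠ 0 := mul_ne_zero (sub_ne_zero.mpr h1.symm) hq
  rcases mul_eq_zero.mp e1 with e | e
  · refine Or.inl ⟨sub_eq_zero.mp e, mul_left_cancel₀ h2 ?_⟩
    linear_combination e2 - (2 * ρ.snd - q.snd - μ * q.snd) * e
  · refine Or.inr ⟨sub_eq_zero.mp e, mul_left_cancel₀ h2 ?_⟩
    linear_combination (2 * ρ.snd - q.snd - μ * q.snd) * e - e2

theorem contra [CharZero K] (l μ : K) (h0 : μ ≠ 0) (h1 : μ ≠ 1)
    (n w e : G (inl l + ε : DualNumber K))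
    (ha : ∀ m, T n (T n (T n m)) = 0) (hb : ∀ m, T w (T w m) = 0) (hc : ∀ m, T e (T e m) = 0)
    (hd : ∃ m, T e (T n (T n m)) ≠ 0)
    (he : ∀ m, ∃ x y, x + y = m ∧ T w x + T w x = T n (T n x) ∧
      T w y + T w y = (inl μ : DualNumber K) • T n (T n y)) : False := by
  have a0 : (n.u : DualNumber K).fst = 1 := by
    have := congrArg TrivSqZeroExt.fst (congrFun (ha (Pi.single 0 1)) 0)
    simp [T0] at this
    exact sub_eq_zero.mp (pow_eq_zero_iff three_ne_zero |>.mp (by linear_combination this))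
  have c0 : (e.u : DualNumber K).fst = 1 := by
    have := congrArg TrivSqZeroExt.fst (congrFun (hc (Pi.single 0 1)) 0)
    simp [T0] at this
    exact sub_eq_zero.mp (pow_eq_zero_iff two_ne_zero |>.mp (by linear_combination this))
  have s0 : n.s.fst ≠ 0 := by
    intro hs
    obtain ⟨m, hm⟩ := hd
    refine hm (ext6 ?_ ?_ ?_ ?_ ?_ ?_) <;> ext <;>
      simp [T0, T1, T2, T3, T4, T5, two_mul, pow_two, a0, c0, hs]
  have a1 : (n.u : DualNumber K) = 1 := by
    have := congrArg TrivSqZeroExt.snd (congrFun (ha (Pi.single 0 1)) 2)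
    simp [T0, T1, T2, two_mul, pow_two, a0] at this
    have k : 6 * n.s.fst ^ 2 * (n.u : DualNumber K).snd = 0 := by linear_combination this
    ext
    · exact a0
    · simpa [s0] using k
  have nn : ∀ m, T n (T n m) = ![0, 0, 2 * n.s ^ 2 * m 0, 0, 0, 2 * n.s ^ 2 * m 3] := fun m => by
    refine ext6 ?_ ?_ ?_ ?_ ?_ ?_ <;> simp [T0, T1, T2, T3, T4, T5, a1] <;> ring
  simp only [nn] at he
  generalize n.s = s at *
  have two : ∀ x : DualNumber K, 2 * x = 0 → x = 0 := fun x hx => by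
    rw [two_mul] at hx
    ext
    · exact add_self_eq_zero.mp (congrArg TrivSqZeroExt.fst hx)
    · exact add_self_eq_zero.mp (congrArg TrivSqZeroExt.snd hx)
  obtain ⟨x, y, p0, p1, p2⟩ := he (Pi.single 0 1)
  obtain ⟨x', y', q0, q1, q2⟩ := he (Pi.single 3 1)
  have p3 : x 0 + y 0 = 1 := by simpa using congrFun p0 0
  have q3 : x' 3 + y' 3 = 1 := by simpa using congrFun q0 3
  have b0 : (w.u : DualNumber K) = 1 := by
    have e1 := congrFun p1 0
    have e2 := congrFun p2 0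
    simp [T0] at e1 e2
    refine sub_eq_zero.mp (two _ ?_)
    linear_combination e1 + e2 - 2 * ((w.u : DualNumber K) - 1) * p3
  have b1 : w.s = 0 := by
    have e1 := congrFun p1 1
    have e2 := congrFun p2 1
    simp [T1, b0] at e1 e2
    refine two _ ?_
    linear_combination e1 + e2 - 2 * w.s * p3
  have hq : (s ^ 2).fst ≠ 0 := by simpa using s0
  have r1 := idem w.r μ (s ^ 2) hq h1 _ _ p3 (two _ (by
    have e1 := congrFun p1 2
    simp [T2, T5, b0, b1] at e1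
    linear_combination e1)) (two _ (by
    have e1 := congrFun p2 2
    simp [T2, T5, b0, b1] at e1
    linear_combination e1))
  have r2 := idem (w.r * (inl l + ε)) μ (s ^ 2) hq h1 _ _ q3 (two _ (by
    have e1 := congrFun q1 5
    simp [T2, T5, b0, b1] at e1
    linear_combination e1)) (two _ (by
    have e1 := congrFun q2 5
    simp [T2, T5, b0, b1] at e1
    linear_combination e1))
  generalize s ^ 2 = q at *
  generalize w.r = r' at *
  simp only [fst_mul, fst_add, fst_inl, fst_eps, add_zero, DualNumber.snd_mul, snd_add, snd_inl,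
    snd_eps, zero_add, mul_one] at r2
  have k : r'.snd * q.fst = r'.fst * q.snd := by
    rcases r1 with ⟨e1, e2⟩ | ⟨e1, e2⟩ <;> rw [e1, e2] <;> ring
  have k2 : r'.fst * q.fst = 0 := by
    rcases r2 with ⟨e1, e2⟩ | ⟨e1, e2⟩
    · linear_combination q.fst * e2 - l * k - q.snd * e1
    · linear_combination q.fst * e2 - l * k - q.snd * e1
  rcases r1 with ⟨e1, -⟩ | ⟨e1, -⟩
  · exact mul_ne_zero hq hq (e1 ▸ k2)
  · exact mul_ne_zero (mul_ne_zero h0 hq) hq (e1 ▸ k2)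

def uE : (DualNumber K)ˣ := ⟨1 + ε, 1 - ε, by ext <;> simp, by ext <;> simp⟩

theorem nonex [CharZero K] (l : K) (h0 : l ≠ 0) (h1 : l ≠ 1) (σ : K ≃+* K)
    (φ : G (inl l : DualNumber K) ≃* G (inl l + ε : DualNumber K))
    (f : (Fin 6 → DualNumber K) → Fin 6 → DualNumber K) (hf : ∀ m, φ (iM m) = iM (f m))
    (hs : Function.Surjective f)
    (hl : ∀ (c : K) m, f ((inl c : DualNumber K) • m) = (inl (σ c) : DualNumber K) • f m) : False := by
  have fa : ∀ x y, f (x + y) = f x + f y := fun x y =>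
    iM_inj (by rw [← hf, iM_add, map_mul, hf, hf, iM_add])
  have fi : Function.Injective f := fun x y h => iM_inj (φ.injective (by rw [hf, hf, h]))
  have fz : f 0 = 0 := by simpa using fa 0 0
  have fT : ∀ g m, T (φ g) (f m) = f (T g m) := fun g m => by
    have := congrArg φ (conj g m)
    rw [map_mul, map_mul, hf, hf, conj] at this
    rw [T, T, iM_inj (mul_right_cancel this), sub_eq_iff_eq_add, ← fa, sub_add_cancel]
  refine contra l (σ l) (by simpa using h0) (by simpa using h1) (φ ⟨1, 1, 0, 0⟩) (φ ⟨1, 0, 1, 0⟩)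
    (φ ⟨uE, 0, 0, 0⟩) (fun m => ?_) (fun m => ?_) (fun m => ?_) ⟨f (Pi.single 0 1), ?_⟩ fun m => ?_
  · obtain ⟨m, rfl⟩ := hs m
    rw [fT, fT, fT, ← fz]
    congr 1
    refine ext6 ?_ ?_ ?_ ?_ ?_ ?_ <;> simp [T0, T1, T2, T3, T4, T5]
  · obtain ⟨m, rfl⟩ := hs m
    rw [fT, fT, ← fz]
    congr 1
    refine ext6 ?_ ?_ ?_ ?_ ?_ ?_ <;> simp [T0, T1, T2, T3, T4, T5]
  · obtain ⟨m, rfl⟩ := hs m
    rw [fT, fT, ← fz]
    congr 1
    refine ext6 ?_ ?_ ?_ ?_ ?_ ?_ <;> ext <;> simp [T0, T1, T2, T3, T4, T5, uE]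
  · rw [fT, fT, fT, ← fz]
    intro h
    have := congrArg TrivSqZeroExt.snd (congrFun (fi h) 2)
    simp [T0, T1, T2, uE, two_mul] at this
    exact two_ne_zero (α := K) this
  · obtain ⟨m, rfl⟩ := hs m
    refine ⟨f ![m 0, m 1, m 2, 0, 0, 0], f ![0, 0, 0, m 3, m 4, m 5], ?_, ?_, ?_⟩
    · rw [← fa]
      congr 1
      funext i
      fin_cases i <;> simp
    · rw [fT, fT, fT, ← fa]
      congr 1
      refine ext6 ?_ ?_ ?_ ?_ ?_ ?_ <;> simp [T0, T1, T2, T3, T4, T5] <;> ring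
    · rw [fT, fT, fT, ← fa, ← hl]
      congr 1
      refine ext6 ?_ ?_ ?_ ?_ ?_ ?_ <;> simp [T0, T1, T2, T3, T4, T5] <;> ring

end Pool.Agent.H22.SemiAlg
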