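import Mathlib

set_option autoImplicit false

namespace Pool.Agent.H22.SemiLin

@[ext] structure K where
  x : ℤ
  y : ℤ

def sg (y : ℤ) : ℤ := (y.negOnePow : ℤˣ)

theorem sg_add (a b : ℤ) : sg (a + b) = sg a * sg b := by simp [sg, Int.negOnePow_add]
theorem sg_neg (a : ℤ) : sg (-a) = sg a := by simp [sg, Int.negOnePow_neg]
theorem sg_zero : sg 0 = 1 := rfl
theorem sg_even {a : ℤ} (h : Even a) : sg a = 1 := by simp [sg, Int.negOnePow_even _ h]
theorem sg_odd {a : ℤ} (h : Odd a) : sg a = -1 := by simp [sg, Int.negOnePow_odd _ h]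

instance : Mul K := ⟨fun a b => ⟨a.x + sg a.y * b.x, a.y + b.y⟩⟩
instance : One K := ⟨⟨0, 0⟩⟩
instance : Inv K := ⟨fun a => ⟨-(sg a.y * a.x), -a.y⟩⟩

theorem K.mul_def (a b : K) : a * b = ⟨a.x + sg a.y * b.x, a.y + b.y⟩ := rfl
theorem K.one_def : (1 : K) = ⟨0, 0⟩ := rfl
theorem K.inv_def (a : K) : a⁻¹ = ⟨-(sg a.y * a.x), -a.y⟩ := rfl

instance : Group K := Group.ofLeftAxioms
  (fun a b c => by simp only [K.mul_def, sg_add]; refine K.ext ?_ ?_ <;> dsimp only <;> ring)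
  (fun a => by simp [K.mul_def, K.one_def, sg_zero])
  (fun a => by simp [K.mul_def, K.one_def, K.inv_def, sg_neg])

def D (i : ℤ) : Subgroup K where
  carrier := {a | (i < 0 → a = 1) ∧ (i = 0 → Even a.y)}
  one_mem' := ⟨fun _ => rfl, fun _ => Even.zero⟩
  mul_mem' h h' := ⟨fun hi => by rw [h.1 hi, h'.1 hi, mul_one], fun hi => (h.2 hi).add (h'.2 hi)⟩
  inv_mem' h := ⟨fun hi => by rw [h.1 hi, inv_one], fun hi => (h.2 hi).neg⟩

theorem D_mono {i j : ℤ} (h : i ≤ j) {a : K} (ha : a ∈ D i) : a ∈ D j := by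
  rcases h.eq_or_lt with rfl | h
  · exact ha
  · exact ⟨fun hj => ha.1 (by omega), fun hj => by rw [ha.1 (by omega)]; exact Even.zero⟩

def C (i : ℤ) (a : K) : Prop :=
  (i = 0 ∧ Even a.y ∧ (0 < a.x ∨ a.x = 0 ∧ 0 < a.y)) ∨ (i ≠ 0 ∧ (0 < a.y ∨ a.y = 0 ∧ 0 < a.x))

theorem C_mul {i : ℤ} {a b : K} (h : C i a) (h' : C i b) : C i (a * b) := by
  rcases h with ⟨h0, h1, h2⟩ | ⟨h0, h1⟩ <;> rcases h' with ⟨h0', h1', h2'⟩ | ⟨h0', h1'⟩
  · refine Or.inl ⟨h0, h1.add h1', ?_⟩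
    simp only [K.mul_def, sg_even h1]
    omega
  · exact absurd h0 h0'
  · exact absurd h0' h0
  · refine Or.inr ⟨h0, ?_⟩
    simp only [K.mul_def]
    rcases h1 with h1 | h1
    · omega
    · rw [h1.1, sg_zero]; omega

theorem C_ne {i : ℤ} {a : K} (h : C i a) : a ≠ 1 := by
  rintro rfl
  simp [C, K.one_def] at h

theorem C_total {i : ℤ} {a : K} (h : a ∈ D i) (h1 : a ≠ 1) : C i a ∨ C i a⁻¹ := by
  have h2 : a.x ≠ 0 ∨ a.y ≠ 0 := by
    by_contra h3
    push Not at h3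
    exact h1 (K.ext h3.1 h3.2)
  by_cases hi : i = 0
  · have := h.2 hi
    simp only [C, K.inv_def, sg_even this, hi, this, this.neg]
    simp; omega
  · simp only [C, K.inv_def, hi]
    by_cases hy : a.y = 0
    · simp [hy, sg_zero]; omega
    · simp; omega

@[ext] structure W where
  f : ℤ → K
  n : ℤ

instance : Mul W := ⟨fun a b => ⟨fun i => a.f i * b.f (i - a.n), a.n + b.n⟩⟩
instance : One W := ⟨⟨fun _ => 1, 0⟩⟩
instance : Inv W := ⟨fun a => ⟨fun i => (a.f (i + a.n))⁻¹, -a.n⟩⟩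

theorem W.mul_def (a b : W) : a * b = ⟨fun i => a.f i * b.f (i - a.n), a.n + b.n⟩ := rfl
theorem W.one_def : (1 : W) = ⟨fun _ => 1, 0⟩ := rfl
theorem W.inv_def (a : W) : a⁻¹ = ⟨fun i => (a.f (i + a.n))⁻¹, -a.n⟩ := rfl

instance : Group W := Group.ofLeftAxioms
  (fun a b c => by simp only [W.mul_def, mul_assoc, add_assoc, sub_sub])
  (fun a => by simp [W.mul_def, W.one_def])
  (fun a => by simp [W.mul_def, W.one_def, W.inv_def])

def G : Subgroup W where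
  carrier := {a | ∃ N, ∀ i < N, a.f i = 1}
  one_mem' := ⟨0, fun _ _ => rfl⟩
  mul_mem' := by
    rintro a b ⟨N, h⟩ ⟨M, h'⟩
    exact ⟨min N (M + a.n), fun i hi => by
      simp only [W.mul_def]; rw [h i (by omega), h' _ (by omega), mul_one]⟩
  inv_mem' := by
    rintro a ⟨N, h⟩
    exact ⟨N - a.n, fun i hi => by simp only [W.inv_def]; rw [h _ (by omega), inv_one]⟩

def Lx (f : ℤ → K) : Prop := ∃ j, (∀ i < j, f i = 1) ∧ C j (f j)

theorem Lx.mul {f g : ℤ → K} (h : Lx f) (h' : Lx g) : Lx fun i => f i * g i := by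
  obtain ⟨j, h1, h2⟩ := h
  obtain ⟨k, h3, h4⟩ := h'
  refine ⟨min j k, fun i hi => by
    dsimp only; rw [h1 i (by omega), h3 i (by omega), mul_one], ?_⟩
  dsimp only
  rcases lt_trichotomy j k with h | rfl | h
  · rw [min_eq_left h.le, h3 j h, mul_one]; exact h2
  · rw [min_self]; exact C_mul h2 h4
  · rw [min_eq_right h.le, h1 k h, one_mul]; exact h4

def P (a : W) : Prop := (∀ i, a.f i ∈ D i) ∧ (0 < a.n ∨ a.n = 0 ∧ Lx a.f)

theorem P.mul {a b : W} (h : P a) (h' : P b) : P (a * b) := by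
  have h0 : 0 ≤ a.n := by have := h.2; omega
  refine ⟨fun i => mul_mem (h.1 i) (D_mono (by omega) (h'.1 (i - a.n))), ?_⟩
  simp only [W.mul_def]
  rcases h.2 with h1 | h1 <;> rcases h'.2 with h2 | h2
  · omega
  · omega
  · omega
  · exact Or.inr ⟨by omega, by simpa [h1.1] using h1.2.mul h2.2⟩

theorem P_one : ¬ P 1 := by
  rintro ⟨-, h | ⟨-, j, -, h⟩⟩
  · exact lt_irrefl _ h
  · exact C_ne h rfl

theorem P_chain {a b : W} (ha : ∀ i, a.f i ∈ D i) (hb : ∀ i, b.f i ∈ D i) (h : a ≠ b) :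
    P (b * a⁻¹) ∨ P (a * b⁻¹) := by
  have key : ∀ {a b : W}, (∀ i, a.f i ∈ D i) → (∀ i, b.f i ∈ D i) → a.n ≤ b.n →
      ∀ i, (b * a⁻¹).f i ∈ D i := fun ha hb h i =>
    mul_mem (hb i) (inv_mem (D_mono (by omega) (ha _)))
  rcases lt_trichotomy a.n b.n with h1 | h1 | h1
  · exact Or.inl ⟨key ha hb h1.le, Or.inl (by simp only [W.mul_def, W.inv_def]; omega)⟩
  · obtain ⟨j, hj, hj'⟩ := Int.exists_least_of_bdd (P := fun i => a.f i ≠ b.f i)
      ⟨0, fun i hi => by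
        by_contra h2
        exact hi (by rw [(ha i).1 (by omega), (hb i).1 (by omega)])⟩ (by
        by_contra h2
        push Not at h2
        exact h (W.ext (funext h2) h1))
    have h3 : ∀ i < j, a.f i = b.f i := fun i hi => by
      by_contra h2
      exact absurd (hj' i h2) (not_le.2 hi)
    rcases C_total (mul_mem (hb j) (inv_mem (ha j))) (fun e => hj (mul_inv_eq_one.1 e).symm) with
      h4 | h4
    · refine Or.inl ⟨key ha hb h1.le, Or.inr ⟨by simp [W.mul_def, W.inv_def, h1], j, ?_, ?_⟩⟩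
      · intro i hi; simp [W.mul_def, W.inv_def, h1, h3 i hi]
      · simpa [W.mul_def, W.inv_def, h1] using h4
    · refine Or.inr ⟨key hb ha h1.ge, Or.inr ⟨by simp [W.mul_def, W.inv_def, h1], j, ?_, ?_⟩⟩
      · intro i hi; simp [W.mul_def, W.inv_def, h1, h3 i hi]
      · simpa [W.mul_def, W.inv_def, h1] using h4
  · exact Or.inr ⟨key hb ha h1.le, Or.inl (by simp only [W.mul_def, W.inv_def]; omega)⟩

theorem P_dir {a : W} (ha : a ∈ G) : ∃ N : ℤ, ∀ M, N ≤ M → P (⟨fun _ => 1, M⟩ * a⁻¹) := by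
  obtain ⟨N, h⟩ := ha
  refine ⟨max (a.n + 1) (a.n + 1 - N), fun M hM => ⟨fun i => ⟨fun hi => ?_, fun hi => ?_⟩,
    Or.inl (by simp only [W.mul_def, W.inv_def]; omega)⟩⟩
  · simp only [W.mul_def, W.inv_def]; rw [h _ (by omega)]; simp
  · simp only [W.mul_def, W.inv_def]; rw [h _ (by omega)]; simp [K.one_def, K.mul_def, K.inv_def]

def ι : K →* G := MonoidHom.mk' (fun a => ⟨⟨fun i => if i = 0 then a else 1, 0⟩, 0, fun i hi => by
    simp [hi.ne]⟩) fun a b => Subtype.ext (W.ext (funext fun i => by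
      simp only [Subgroup.coe_mul, W.mul_def, sub_zero]
      split_ifs <;> simp) rfl)

theorem P_ι {a : K} (h1 : Even a.y) (h2 : 0 < a.x) : P (ι a) := by
  refine ⟨fun i => ⟨fun hi => if_neg hi.ne, fun hi => ?_⟩, Or.inr ⟨rfl, 0, fun i hi => if_neg hi.ne,
    Or.inl ⟨rfl, h1, Or.inl h2⟩⟩⟩
  subst hi
  exact h1

theorem ι_ne : ι ⟨0, 2⟩ ≠ 1 ∧ ι ⟨0, -2⟩ ≠ 1 := by
  constructor <;> intro h <;> have := congrArg (fun a : G => (a.1.f 0).y) h <;>
    simp [ι, W.one_def, K.one_def] at this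

theorem main : ∃ r : G → G → Prop, (∀ a, r a a) ∧ (∀ a b, r a b → r b a → a = b) ∧
    (∀ a b c, r a b → r b c → r a c) ∧ (∀ a b c, r a b → r (a * c) (b * c)) ∧
    (∀ a b, ∃ c, r a c ∧ r b c) ∧ (∀ a b, r 1 a → r 1 b → r a b ∨ r b a) ∧
    ∀ s : G → G → Prop, (∀ a b, s a b → s b a → a = b) → (∀ a b c, s a b → s b c → s a c) →
      (∀ a b, s a b ∨ s b a) → (∀ a b c, s a b → s (a * c) (b * c)) → ¬ ∀ a b, r a b → s a b := by
  refine ⟨fun a b => a = b ∨ P (b * a⁻¹ : G), fun _ => Or.inl rfl, ?_, ?_, ?_, ?_, ?_, ?_⟩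
  · rintro a b (rfl | h) (h' | h')
    · rfl
    · rfl
    · exact h'.symm
    · exact absurd (by simpa [mul_assoc] using h.mul h') P_one
  · rintro a b c (rfl | h) (rfl | h')
    · exact Or.inl rfl
    · exact Or.inr h'
    · exact Or.inr h
    · exact Or.inr (by simpa [mul_assoc] using h'.mul h)
  · rintro a b c (rfl | h)
    · exact Or.inl rfl
    · exact Or.inr (by simpa [mul_assoc] using h)
  · intro a b
    obtain ⟨N, h⟩ := P_dir a.2
    obtain ⟨M, h'⟩ := P_dir b.2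
    exact ⟨⟨⟨fun _ => 1, max N M⟩, 0, fun _ _ => rfl⟩, Or.inr (h _ (le_max_left _ _)),
      Or.inr (h' _ (le_max_right _ _))⟩
  · intro a b ha hb
    have key : ∀ a : G, (1 = a ∨ P (a * 1⁻¹ : G)) → ∀ i, a.1.f i ∈ D i := by
      rintro a (rfl | h)
      · exact fun _ => one_mem _
      · simpa using h.1
    by_cases h : a = b
    · exact Or.inl (Or.inl h)
    · exact (P_chain (key a ha) (key b hb) fun e => h (Subtype.ext e)).imp Or.inr Or.inr
  · intro s h1 h2 h3 h4 h5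
    have mul : ∀ a b, s 1 a → s 1 b → s 1 (a * b) := fun a b ha hb =>
      h2 _ _ _ hb (by simpa using h4 _ _ b ha)
    have key : ∀ e : ℤ, Odd e → s 1 (ι ⟨0, e⟩) → ι ⟨0, e + e⟩ = 1 := fun e he hb => by
      have a1 := mul _ _ (h5 1 (ι ⟨1, -(e + e)⟩) (Or.inr (by
        simpa using P_ι (a := ⟨1, -(e + e)⟩) (Even.neg ⟨e, rfl⟩) one_pos))) hb
      have a2 := h4 _ _ (ι ⟨0, e + e⟩) (mul _ _ a1 a1)
      have a3 := mul _ _ hb hb
      rw [← map_mul, ← map_mul, ← map_mul, one_mul] at a2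
      rw [← map_mul] at a3
      have e1 : (⟨1, -(e + e)⟩ * ⟨0, e⟩ * (⟨1, -(e + e)⟩ * ⟨0, e⟩) * ⟨0, e + e⟩ : K) = 1 := by
        have : sg (-(e + e) + e) = -1 := sg_odd (by simpa using he)
        simp only [K.mul_def, K.one_def, this]
        refine K.ext ?_ ?_ <;> dsimp only <;> ring
      have e2 : (⟨0, e⟩ * ⟨0, e⟩ : K) = ⟨0, e + e⟩ := by simp [K.mul_def]
      rw [e1, map_one] at a2
      rw [e2] at a3
      exact h1 _ _ a2 a3
    rcases h3 1 (ι ⟨0, 1⟩) with h | h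
    · exact ι_ne.1 (key 1 odd_one h)
    · have := h4 _ _ (ι ⟨0, -1⟩) h
      rw [← map_mul, one_mul, show (⟨0, 1⟩ * ⟨0, -1⟩ : K) = 1 by simp [K.mul_def, K.one_def],
        map_one] at this
      exact ι_ne.2 (key (-1) odd_neg_one this)

end Pool.Agent.H22.SemiLin
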