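import Mathlib

set_option autoImplicit false

namespace Pool.Agent.H22.SgRing

open Topology Filter

section Abstract

structure Bim (A N : Type) [AddCommGroup A] [Module ℚ A] [AddCommGroup N] [Module ℚ N] where
  L : A →ₗ[ℚ] N →ₗ[ℚ] N
  R : A →ₗ[ℚ] N →ₗ[ℚ] N
  LL : ∀ a b x, L a (L b x) = 0
  RR : ∀ a b x, R a (R b x) = 0
  LR : ∀ a b x, L a (R b x) = R b (L a x)
  An : ℕ → Submodule ℚ A
  D : ℕ → Set N
  An_anti : Antitone An
  D_anti : Antitone D
  D_zero : ∀ n, 0 ∈ D n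
  D_add : ∀ n, ∀ x ∈ D (2 * n + 1), ∀ y ∈ D (2 * n + 1), x + y ∈ D n
  D_smul : ∀ n (l : ℚ), ∀ x ∈ D n, l • x ∈ D n
  D_L : ∀ n a, ∀ x ∈ D n, L a x ∈ D n
  D_R : ∀ n a, ∀ x ∈ D n, R a x ∈ D n
  kill : ∀ x, ∃ n, ∀ a ∈ An n, L a x = 0 ∧ R a x = 0
  An_inf : ∀ a, (∀ n, a ∈ An n) → a = 0
  D_inf : ∀ x, (∀ n, x ∈ D n) → x = 0

variable {A N : Type} [AddCommGroup A] [Module ℚ A] [AddCommGroup N] [Module ℚ N] (B : Bim A N)

@[ext] structure Ex (B : Bim A N) where
  l : ℚ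
  a : A
  x : N

instance : Add (Ex B) := ⟨fun p q => ⟨p.l + q.l, p.a + q.a, p.x + q.x⟩⟩
instance : Neg (Ex B) := ⟨fun p => ⟨-p.l, -p.a, -p.x⟩⟩
instance : Zero (Ex B) := ⟨⟨0, 0, 0⟩⟩
instance : One (Ex B) := ⟨⟨1, 0, 0⟩⟩
instance : Mul (Ex B) := ⟨fun p q => ⟨p.l * q.l, p.l • q.a + q.l • p.a,
  p.l • q.x + B.L p.a q.x + q.l • p.x + B.R q.a p.x⟩⟩

variable {B}
theorem add_def (p q : Ex B) : p + q = ⟨p.l + q.l, p.a + q.a, p.x + q.x⟩ := rfl
theorem neg_def (p : Ex B) : -p = ⟨-p.l, -p.a, -p.x⟩ := rfl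
theorem zero_def : (0 : Ex B) = ⟨0, 0, 0⟩ := rfl
theorem one_def : (1 : Ex B) = ⟨1, 0, 0⟩ := rfl
theorem mul_def (p q : Ex B) : p * q = ⟨p.l * q.l, p.l • q.a + q.l • p.a,
  p.l • q.x + B.L p.a q.x + q.l • p.x + B.R q.a p.x⟩ := rfl

instance : Ring (Ex B) := Ring.ofMinimalAxioms
  (fun a b c => by simp only [add_def, add_assoc])
  (fun a => by simp only [add_def, zero_def, zero_add])
  (fun a => by simp only [add_def, zero_def, neg_def, neg_add_cancel])
  (fun a b c => by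
    simp only [mul_def, map_add, map_smul, LinearMap.add_apply, LinearMap.smul_apply, B.LL, B.RR,
      B.LR]
    ext
    · ring
    · module
    · module)
  (fun a => by simp [mul_def, one_def])
  (fun a => by simp [mul_def, one_def])
  (fun a b c => by
    simp only [mul_def, add_def, map_add, LinearMap.add_apply]
    ext
    · ring
    · module
    · module)
  (fun a b c => by
    simp only [mul_def, add_def, map_add, LinearMap.add_apply]
    ext
    · ring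
    · module
    · module)

variable (B)

def U (n : ℕ) : Set (Ex B) := {r | r.l = 0 ∧ r.a ∈ B.An n ∧ r.x ∈ B.D n}

theorem U_anti {m n : ℕ} (h : m ≤ n) : U B n ⊆ U B m :=
  fun _ hr => ⟨hr.1, B.An_anti h hr.2.1, B.D_anti h hr.2.2⟩

@[instance_reducible] def basis : RingFilterBasis (Ex B) where
  sets := Set.range (U B)
  nonempty := ⟨_, 0, rfl⟩
  inter_sets := by
    rintro _ _ ⟨m, rfl⟩ ⟨n, rfl⟩
    exact ⟨_, ⟨m + n, rfl⟩, Set.subset_inter (U_anti B (by omega)) (U_anti B (by omega))⟩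
  zero' := by
    rintro _ ⟨n, rfl⟩
    exact ⟨rfl, zero_mem _, B.D_zero n⟩
  add' := by
    rintro _ ⟨n, rfl⟩
    refine ⟨_, ⟨2 * n + 1, rfl⟩, ?_⟩
    rintro _ ⟨p, hp, q, hq, rfl⟩
    exact ⟨by simp [add_def, hp.1, hq.1],
      B.An_anti (by omega : n ≤ 2 * n + 1) (add_mem hp.2.1 hq.2.1), B.D_add n _ hp.2.2 _ hq.2.2⟩
  neg' := by
    rintro _ ⟨n, rfl⟩
    refine ⟨_, ⟨n, rfl⟩, fun p hp => ⟨by simp [neg_def, hp.1], neg_mem hp.2.1, ?_⟩⟩
    simpa [neg_def] using B.D_smul n (-1) _ hp.2.2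
  conj' := by
    rintro x _ ⟨n, rfl⟩
    exact ⟨_, ⟨n, rfl⟩, fun p hp => by simpa using hp⟩
  mul' := by
    rintro _ ⟨n, rfl⟩
    refine ⟨_, ⟨2 * n + 1, rfl⟩, ?_⟩
    rintro _ ⟨p, hp, q, hq, rfl⟩
    refine ⟨by simp [mul_def, hp.1], by simp [mul_def, hp.1, hq.1], ?_⟩
    simpa [mul_def, hp.1, hq.1] using B.D_add n _ (B.D_L _ _ _ hq.2.2) _ (B.D_R _ _ _ hp.2.2)
  mul_left' := by
    rintro p _ ⟨n, rfl⟩
    obtain ⟨m, hm⟩ := B.kill p.x
    refine ⟨_, ⟨2 * n + 1 + m, rfl⟩, fun q hq => ⟨by simp [mul_def, hq.1], ?_, ?_⟩⟩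
    · simpa [mul_def, hq.1] using
        Submodule.smul_mem _ p.l (B.An_anti (by omega : n ≤ 2 * n + 1 + m) hq.2.1)
    · have h1 := B.D_anti (by omega : 2 * n + 1 ≤ 2 * n + 1 + m) hq.2.2
      simpa [mul_def, hq.1, (hm _ (B.An_anti (by omega) hq.2.1)).2] using
        B.D_add n _ (B.D_smul _ p.l _ h1) _ (B.D_L _ p.a _ h1)
  mul_right' := by
    rintro p _ ⟨n, rfl⟩
    obtain ⟨m, hm⟩ := B.kill p.x
    refine ⟨_, ⟨2 * n + 1 + m, rfl⟩, fun q hq => ⟨by simp [mul_def, hq.1], ?_, ?_⟩⟩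
    · simpa [mul_def, hq.1] using
        Submodule.smul_mem _ p.l (B.An_anti (by omega : n ≤ 2 * n + 1 + m) hq.2.1)
    · have h1 := B.D_anti (by omega : 2 * n + 1 ≤ 2 * n + 1 + m) hq.2.2
      simpa [mul_def, hq.1, (hm _ (B.An_anti (by omega) hq.2.1)).1] using
        B.D_add n _ (B.D_smul _ p.l _ h1) _ (B.D_R _ p.a _ h1)

instance : TopologicalSpace (Ex B) := (basis B).topology
instance : IsTopologicalRing (Ex B) := (basis B).isTopologicalRing

instance : T2Space (Ex B) :=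
  ((basis B).toAddGroupFilterBasis.t2Space_iff_sInter_subset rfl).2 fun p hp => by
    have h : ∀ n, p ∈ U B n := fun n => hp _ ⟨n, rfl⟩
    exact Ex.ext (h 0).1 (B.An_inf _ fun n => (h n).2.1) (B.D_inf _ fun n => (h n).2.2)

theorem nhds_iff {V : Set (Ex B)} : V ∈ 𝓝 (0 : Ex B) ↔ ∃ n, U B n ⊆ V := by
  rw [(basis B).toAddGroupFilterBasis.nhds_zero_hasBasis.mem_iff]
  exact ⟨fun ⟨_, ⟨n, e⟩, h⟩ => ⟨n, e ▸ h⟩, fun ⟨n, h⟩ => ⟨_, ⟨n, rfl⟩, h⟩⟩

end Abstract

inductive G : Type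
  | one | x (k : ℕ) | z (k : ℕ) | g | t
  deriving DecidableEq

def G.mul : G → G → G
  | .one, b => b
  | a, .one => a
  | .x k, .z l => if k = l then .g else .t
  | _, _ => .t

instance : Monoid G where
  mul := G.mul
  one := G.one
  one_mul _ := rfl
  mul_one a := by cases a <;> rfl
  mul_assoc a b c := by
    change G.mul (G.mul a b) c = G.mul a (G.mul b c)
    cases a <;> cases b <;> cases c <;> simp only [G.mul] <;> split_ifs <;> rfl

theorem xz (k l : ℕ) : G.x k * 1 * G.z l = if k = l then G.g else G.t := rfl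

theorem main {R : Type} [Ring R] [TopologicalSpace R] (U : ℕ → Set R)
    (hU : ∀ V ∈ 𝓝 (0 : R), ∃ n, U n ⊆ V) (r : R) (hr : r ≠ 0) (e : ℕ → ℕ → R)
    (he : ∀ k, Tendsto (fun j => e j k) atTop (𝓝 0)) (b : ℕ → ℕ → R)
    (hb : ∀ m n, ∃ K, ∀ j, b K j ∈ U m ∧
      (∑ k ∈ Finset.range K, e j k) * b K j * (∑ k ∈ Finset.range K, e j k) ∈ U n ∧
      ∑ k ∈ Finset.range K, e j k * b K j * e j k = r)
    [TopologicalSpace (MonoidAlgebra R G)] [IsTopologicalRing (MonoidAlgebra R G)]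
    [T2Space (MonoidAlgebra R G)] :
    ¬ Continuous fun s : R => (MonoidAlgebra.single 1 s : MonoidAlgebra R G) := by
  intro hc
  have hc' : ∀ h : G, Tendsto (fun s : R => (MonoidAlgebra.single h s : MonoidAlgebra R G))
      (𝓝 0) (𝓝 0) := fun h => by
    have := (hc.mul_const (MonoidAlgebra.single h (1 : R))).tendsto 0
    simpa [MonoidAlgebra.single_mul_single] using this
  let w : MonoidAlgebra R G := MonoidAlgebra.single G.g r - MonoidAlgebra.single G.t r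
  have hw : w ≠ 0 := fun h => by
    have := MonoidAlgebra.single_left_injective hr (sub_eq_zero.1 h)
    cases this
  have h1 : Tendsto (fun p : (MonoidAlgebra R G × MonoidAlgebra R G) ×
      (MonoidAlgebra R G × MonoidAlgebra R G) => p.1.1 * p.1.2 * p.2.1 - p.2.2) (𝓝 0) (𝓝 0) := by
    have : Continuous (fun p : (MonoidAlgebra R G × MonoidAlgebra R G) ×
      (MonoidAlgebra R G × MonoidAlgebra R G) => p.1.1 * p.1.2 * p.2.1 - p.2.2) := by fun_prop
    simpa using this.tendsto 0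
  have h2 := h1 (isOpen_compl_singleton.mem_nhds hw.symm)
  rw [Filter.mem_map, ← Prod.mk_zero_zero, mem_nhds_prod_iff] at h2
  obtain ⟨S, hS, T, hT, hST⟩ := h2
  rw [← Prod.mk_zero_zero, mem_nhds_prod_iff] at hS hT
  obtain ⟨V1, hV1, V2, hV2, hS⟩ := hS
  obtain ⟨V3, hV3, V4, hV4, hT⟩ := hT
  obtain ⟨m, hm⟩ := hU _ (hc' 1 hV2)
  obtain ⟨n, hn⟩ := hU _ (hc' G.t hV4)
  obtain ⟨K, hK⟩ := hb m n
  have t1 : ∀ f : ℕ → G, Tendsto (fun j => ∑ k ∈ Finset.range K,
      (MonoidAlgebra.single (f k) (e j k) : MonoidAlgebra R G)) atTop (𝓝 0) := fun f => by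
    simpa using tendsto_finsetSum (Finset.range K) fun k _ => (hc' (f k)).comp (he k)
  obtain ⟨j, j1, j3⟩ := ((t1 G.x).eventually hV1 |>.and ((t1 G.z).eventually hV3)).exists
  obtain ⟨k1, k2, k3⟩ := hK j
  refine hST (Set.mk_mem_prod (hS (Set.mk_mem_prod j1 (hm k1))) (hT (Set.mk_mem_prod j3 (hn k2)))) ?_
  simp only [Set.mem_singleton_iff, w, ← k3, Finset.sum_mul, Finset.mul_sum,
    MonoidAlgebra.single_mul_single, xz]
  rw [← MonoidAlgebra.singleAddHom_apply, ← MonoidAlgebra.singleAddHom_apply G.g,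
    ← MonoidAlgebra.singleAddHom_apply G.t]
  simp only [map_sum, MonoidAlgebra.singleAddHom_apply, ← Finset.sum_sub_distrib]
  refine Finset.sum_congr rfl fun l hl => ?_
  rw [Finset.sum_eq_single l]
  · simp
  · intro k _ hk
    simp [hk]
  · exact fun h => absurd hl h

section Concrete

abbrev Mt (K : ℕ) := Matrix (Option (Fin K)) (Option (Fin K)) ℚ
abbrev P := ∀ s : ℕ × ℕ, Mt s.1
abbrev AA := ℕ → ℕ → ℚ

theorem rank_add {K : ℕ} (X Y : Mt K) : (X + Y).rank ≤ X.rank + Y.rank := by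
  unfold Matrix.rank
  rw [Matrix.mulVecLin_add]
  exact (Submodule.finrank_mono (LinearMap.range_add_le _ _)).trans
    (Submodule.finrank_add_le_finrank_add_finrank _ _)

theorem rank_zero' {K : ℕ} {X : Mt K} (h : X.rank = 0) : X = 0 := by
  unfold Matrix.rank at h
  rw [Submodule.finrank_eq_zero, LinearMap.range_eq_bot] at h
  ext i j
  simpa using congrFun (LinearMap.congr_fun h (Pi.single j 1)) i

def col (K : ℕ) (v : ℕ → ℚ) : Option (Fin K) → ℚ := fun i => i.elim 0 fun k => v k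
def e0 (K : ℕ) : Option (Fin K) → ℚ := fun i => i.elim 1 fun _ => 0
def Lm (a : AA) : P := fun s => Matrix.vecMulVec (col s.1 (a s.2)) (e0 s.1)
def Rm (a : AA) : P := fun s => Matrix.vecMulVec (e0 s.1) (col s.1 (a s.2))
def Id (K : ℕ) : Mt K := Matrix.diagonal (col K fun _ => 1)

theorem col_add (K : ℕ) (v w : ℕ → ℚ) : col K (v + w) = col K v + col K w := by
  ext i; cases i <;> simp [col]
theorem col_smul (K : ℕ) (c : ℚ) (w : ℕ → ℚ) : col K (c • w) = c • col K w := by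
  ext i; cases i <;> simp [col]
theorem col_zero (K : ℕ) : col K 0 = 0 := by ext i; cases i <;> simp [col]
theorem e0_col (K : ℕ) (w : ℕ → ℚ) : e0 K ⬝ᵥ col K w = 0 := by simp [dotProduct, e0, col]
theorem e0_e0 (K : ℕ) : e0 K ⬝ᵥ e0 K = 1 := by simp [dotProduct, e0]
theorem L_Id (a : AA) (s : ℕ × ℕ) : Lm a s * Id s.1 = 0 := by
  ext i j; cases j <;> simp [Lm, Id, Matrix.vecMulVec_apply, e0, col]
theorem Id_R (a : AA) (s : ℕ × ℕ) : Id s.1 * Rm a s = 0 := by
  ext i j; cases i <;> simp [Rm, Id, Matrix.vecMulVec_apply, e0, col]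
theorem rank_Id (K : ℕ) : (Id K).rank = K := by
  rw [Id, Matrix.rank_diagonal, Fintype.card_subtype]
  simp only [Finset.card_filter, Fintype.sum_option, col]
  simp

def N0 : Submodule ℚ P where
  carrier := {X | ∃ n, ∀ s : ℕ × ℕ, n ≤ s.1 + s.2 → X s = 0}
  add_mem' := by
    rintro X Y ⟨m, hm⟩ ⟨n, hn⟩
    exact ⟨m + n, fun s hs => by simp [hm s (by omega), hn s (by omega)]⟩
  zero_mem' := ⟨0, fun _ _ => rfl⟩
  smul_mem' := by
    rintro c X ⟨m, hm⟩
    exact ⟨m, fun s hs => by simp [hm s hs]⟩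

def Gl : Submodule ℚ N0 where
  carrier := {X | ∃ ε : ℕ × ℕ →₀ ℚ, ε.sum (fun s x => min s.1 1 * x) = 0 ∧
    ∀ s, X.1 s = ε s • Id s.1}
  add_mem' := by
    rintro X Y ⟨a, ha, ha'⟩ ⟨b, hb, hb'⟩
    exact ⟨a + b, by rw [Finsupp.sum_add_index' (by simp) (by simp [mul_add]), ha, hb, add_zero],
      fun s => by simp [ha', hb', add_smul]⟩
  zero_mem' := ⟨0, by simp, fun s => by simp⟩
  smul_mem' := by
    rintro c X ⟨a, ha, ha'⟩
    exact ⟨c • a, by
      rw [Finsupp.sum_smul_index' (by simp)]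
      simp only [smul_eq_mul, mul_left_comm _ c, ← Finsupp.mul_sum, ha, mul_zero], fun s => by simp [ha', smul_smul]⟩

def mulN (p q : P) : N0 →ₗ[ℚ] N0 :=
  ((LinearMap.mulLeft ℚ p).comp (LinearMap.mulRight ℚ q)).restrict fun X ⟨n, hn⟩ =>
    ⟨n, fun s hs => by simp [hn s hs]⟩

theorem mulN_val (p q : P) (X : N0) (s : ℕ × ℕ) : (mulN p q X).1 s = p s * (X.1 s * q s) := rfl

abbrev NN := N0 ⧸ Gl

def LQ : AA →ₗ[ℚ] NN →ₗ[ℚ] NN where
  toFun a := Gl.mapQ Gl (mulN (Lm a) 1) fun X ⟨ε, _, h⟩ =>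
    ⟨0, by simp, fun s => by simp [mulN_val, h, L_Id]⟩
  map_add' a b := Gl.linearMap_qext (by
    ext X
    simp only [LinearMap.comp_apply, Submodule.mkQ_apply, LinearMap.add_apply, Submodule.mapQ_apply,
      ← Submodule.Quotient.mk_add]
    congr 1
    ext s : 2
    simp [mulN_val, Lm, col_add, Matrix.add_vecMulVec, add_mul])
  map_smul' c a := Gl.linearMap_qext (by
    ext X
    simp only [LinearMap.comp_apply, Submodule.mkQ_apply, LinearMap.smul_apply,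
      Submodule.mapQ_apply, RingHom.id_apply, ← Submodule.Quotient.mk_smul]
    congr 1
    ext s : 2
    simp [mulN_val, Lm, col_smul, Matrix.smul_vecMulVec])

def RQ : AA →ₗ[ℚ] NN →ₗ[ℚ] NN where
  toFun a := Gl.mapQ Gl (mulN 1 (Rm a)) fun X ⟨ε, _, h⟩ =>
    ⟨0, by simp, fun s => by simp [mulN_val, h, Id_R]⟩
  map_add' a b := Gl.linearMap_qext (by
    ext X
    simp only [LinearMap.comp_apply, Submodule.mkQ_apply, LinearMap.add_apply, Submodule.mapQ_apply,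
      ← Submodule.Quotient.mk_add]
    congr 1
    ext s : 2
    simp [mulN_val, Rm, col_add, Matrix.vecMulVec_add, mul_add])
  map_smul' c a := Gl.linearMap_qext (by
    ext X
    simp only [LinearMap.comp_apply, Submodule.mkQ_apply, LinearMap.smul_apply,
      Submodule.mapQ_apply, RingHom.id_apply, ← Submodule.Quotient.mk_smul]
    congr 1
    ext s : 2
    simp [mulN_val, Rm, col_smul, Matrix.vecMulVec_smul])

theorem LQ_mk (a : AA) (X : N0) : LQ a (Gl.mkQ X) = Gl.mkQ (mulN (Lm a) 1 X) := rfl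
theorem RQ_mk (a : AA) (X : N0) : RQ a (Gl.mkQ X) = Gl.mkQ (mulN 1 (Rm a) X) := rfl

theorem mk_congr {X Y : N0} (h : ∀ s, X.1 s = Y.1 s) : Gl.mkQ X = Gl.mkQ Y :=
  congrArg _ (Subtype.ext (funext h))

def DD (n : ℕ) : Set NN := {x | ∃ X : N0, Gl.mkQ X = x ∧ ∀ s, (n + 1) * (X.1 s).rank ≤ s.1}

theorem DD_mul {n : ℕ} (p q : P) {X : N0} (h : ∀ s, (n + 1) * (X.1 s).rank ≤ s.1) :
    Gl.mkQ (mulN p q X) ∈ DD n :=
  ⟨_, rfl, fun s => by
    rw [mulN_val]
    exact le_trans (Nat.mul_le_mul_left _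
      ((Matrix.rank_mul_le_right _ _).trans (Matrix.rank_mul_le_left _ _))) (h s)⟩

def BB : Bim AA NN where
  L := LQ
  R := RQ
  LL a b x := by
    obtain ⟨X, rfl⟩ := Gl.mkQ_surjective x
    rw [LQ_mk, LQ_mk, ← map_zero Gl.mkQ]
    exact mk_congr fun s => by
      simp [mulN_val, ← mul_assoc, Lm, Matrix.vecMulVec_mul_vecMulVec, e0_col]
  RR a b x := by
    obtain ⟨X, rfl⟩ := Gl.mkQ_surjective x
    rw [RQ_mk, RQ_mk, ← map_zero Gl.mkQ]
    exact mk_congr fun s => by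
      simp [mulN_val, mul_assoc, Rm, Matrix.vecMulVec_mul_vecMulVec, dotProduct_comm _ (e0 _),
        e0_col]
  LR a b x := by
    obtain ⟨X, rfl⟩ := Gl.mkQ_surjective x
    rw [RQ_mk, LQ_mk, LQ_mk, RQ_mk]
    exact mk_congr fun s => by simp [mulN_val, mul_assoc]
  An n := Submodule.pi {j | j < n} fun _ => ⊥
  D := DD
  An_anti m n h a ha j hj := ha j (lt_of_lt_of_le hj h)
  D_anti m n h := by
    rintro _ ⟨X, rfl, hX⟩
    exact ⟨X, rfl, fun s => le_trans (Nat.mul_le_mul_right _ (by omega)) (hX s)⟩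
  D_zero n := ⟨0, rfl, fun s => by simp⟩
  D_add n := by
    rintro _ ⟨X, rfl, hX⟩ _ ⟨Y, rfl, hY⟩
    refine ⟨X + Y, rfl, fun s => ?_⟩
    have := Nat.mul_le_mul_left (n + 1) (rank_add (X.1 s) (Y.1 s))
    have h1 := hX s
    have h2 := hY s
    change (n + 1) * (X.1 s + Y.1 s).rank ≤ s.1
    nlinarith
  D_smul n l := by
    rintro _ ⟨X, rfl, hX⟩
    have := DD_mul (l • 1) 1 hX
    rwa [← map_smul, mk_congr (Y := mulN (l • 1) 1 X) fun s => by simp [mulN_val]]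
  D_L n a := by
    rintro _ ⟨X, rfl, hX⟩
    exact DD_mul _ _ hX
  D_R n a := by
    rintro _ ⟨X, rfl, hX⟩
    exact DD_mul _ _ hX
  kill x := by
    obtain ⟨⟨X, n, hn⟩, rfl⟩ := Gl.mkQ_surjective x
    refine ⟨n, fun a ha => ?_⟩
    rw [RQ_mk, LQ_mk, ← map_zero Gl.mkQ]
    refine ⟨mk_congr fun s => ?_, mk_congr fun s => ?_⟩
    all_goals
      by_cases hs : s.2 < n
      · have : a s.2 = 0 := ha _ hs
        simp [mulN_val, Lm, Rm, this, col_zero]
      · simp [mulN_val, hn s (by omega)]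
  An_inf a h := funext fun j => h (j + 1) j (Nat.lt_succ_self j)
  D_inf x h := by
    obtain ⟨⟨X, n, hn⟩, rfl⟩ := Gl.mkQ_surjective x
    obtain ⟨Y, e, hY⟩ := h (n + 1)
    obtain ⟨ε, -, hε⟩ := (Submodule.Quotient.eq _).1 e
    rw [← e, ← map_zero Gl.mkQ]
    refine mk_congr fun s => rank_zero' ?_
    have h1 := hY s
    by_cases hs : n ≤ s.1 + s.2
    · have h2 : Y.1 s = ε s • Id s.1 := by simpa [hn s hs] using hε s
      by_cases h0 : ε s = 0
      · simp [h2, h0]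
      · rw [h2, Matrix.rank_smul_of_mem_nonZeroDivisors _ (mem_nonZeroDivisors_of_ne_zero h0),
          rank_Id] at h1 ⊢
        nlinarith
    · by_contra h0
      have : 1 ≤ (Y.1 s).rank := Nat.pos_of_ne_zero h0
      nlinarith

def sing (s : ℕ × ℕ) (X : Mt s.1) : N0 :=
  ⟨Pi.single s X, s.1 + s.2 + 1, fun t ht => Pi.single_eq_of_ne (by rintro rfl; omega) _⟩

theorem sing_Id (s t : ℕ × ℕ) (hs : 1 ≤ s.1) (ht : 1 ≤ t.1) : Gl.mkQ (sing s (Id s.1)) = Gl.mkQ (sing t (Id t.1)) := by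
  refine (Submodule.Quotient.eq _).2 ⟨Finsupp.single s 1 - Finsupp.single t 1, ?_, fun u => ?_⟩
  · rw [Finsupp.sum_sub_index (by simp [mul_sub])]
    have h1 : min (s.1 : ℚ) 1 = 1 := min_eq_right (by exact_mod_cast hs)
    have h2 : min (t.1 : ℚ) 1 = 1 := min_eq_right (by exact_mod_cast ht)
    simp [h1, h2]
  · change (Pi.single s (Id s.1) : P) u - (Pi.single t (Id t.1) : P) u = _
    rw [Finsupp.sub_apply, sub_smul]
    congr 1
    · by_cases h : u = s
      · subst h; simp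
      · simp [h]
    · by_cases h : u = t
      · subst h; simp
      · simp [h]

theorem r_ne : Gl.mkQ (sing (1, 0) (Id 1)) ≠ 0 := by
  intro h
  obtain ⟨ε, h0, hε⟩ := (Submodule.Quotient.mk_eq_zero _).1 h
  have hId : ∀ K, 1 ≤ K → ∀ c : ℚ, c • Id K = 0 → c = 0 := fun K hK c hc => by
    simpa [Id, col] using congrFun (congrFun hc (some ⟨0, hK⟩)) (some ⟨0, hK⟩)
  rw [Finsupp.sum, Finset.sum_eq_single (1, 0)] at h0
  · have h1 : Id 1 = ε (1, 0) • Id 1 := by simpa [sing] using hε (1, 0)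
    have h2 : ε (1, 0) = 0 := by simpa using h0
    rw [h2, zero_smul] at h1
    exact one_ne_zero (hId 1 le_rfl 1 (by rw [h1, smul_zero]))
  · intro t _ ht
    rcases Nat.eq_zero_or_pos t.1 with h1 | h1
    · simp [h1]
    · have : (Pi.single (1, 0) (Id 1) : P) t = _ := hε t
      rw [Pi.single_eq_of_ne ht] at this
      rw [hId _ h1 _ this.symm, mul_zero]
  · intro h1
    rw [Finsupp.notMem_support_iff.1 h1, mul_zero]

def inN : NN →+ Ex BB where
  toFun x := ⟨0, 0, x⟩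
  map_zero' := rfl
  map_add' x y := by simp [add_def]

def inA : AA →+ Ex BB where
  toFun a := ⟨0, a, 0⟩
  map_zero' := rfl
  map_add' x y := by simp [add_def]

theorem aNa (a c : AA) (x : NN) : inA a * inN x * inA c = inN (RQ c (LQ a x)) := by
  change (⟨0, a, 0⟩ * ⟨0, 0, x⟩ * ⟨0, c, 0⟩ : Ex BB) = ⟨0, 0, BB.R c (BB.L a x)⟩
  simp [mul_def]

def ee (j k : ℕ) : AA := Pi.single j (Pi.single k 1)
def bb (K j : ℕ) : N0 := sing (K, j) (Matrix.vecMulVec (e0 K) (e0 K))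

theorem bb_mem {m K : ℕ} (j : ℕ) (h : m + 1 ≤ K) : Gl.mkQ (bb K j) ∈ DD m := by
  refine ⟨_, rfl, fun s => ?_⟩
  by_cases hs : s = (K, j)
  · subst hs
    have := Matrix.rank_vecMulVec_le (e0 K) (e0 K)
    simp only [bb, sing, Pi.single_eq_same]
    nlinarith
  · simp [bb, sing, Pi.single_eq_of_ne hs]

theorem trace (K j : ℕ) : ∑ k ∈ Finset.range K, RQ (ee j k) (LQ (ee j k) (Gl.mkQ (bb K j))) =
    Gl.mkQ (sing (K, j) (Id K)) := by
  simp only [LQ_mk, RQ_mk, ← map_sum]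
  refine mk_congr fun s => ?_
  rw [Submodule.coe_sum, Finset.sum_apply]
  simp only [mulN_val]
  by_cases hs : s = (K, j)
  · subst hs
    simp only [bb, sing, Pi.single_eq_same, Pi.one_apply, mul_one, one_mul, Lm, Rm, ee,
      Matrix.vecMulVec_mul_vecMulVec, e0_e0, one_smul]
    ext a b
    rw [Matrix.sum_apply]
    cases a with
    | none => simp [Matrix.vecMulVec_apply, col, Id, Matrix.diagonal_apply]
    | some a =>
      cases b with
      | none => simp [Matrix.vecMulVec_apply, col, Id]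
      | some b =>
        rw [Finset.sum_eq_single a.1]
        · simp [Matrix.vecMulVec_apply, col, Id, Matrix.diagonal_apply, Pi.single_apply,
            Fin.ext_iff, eq_comm]
        · intro k _ hk
          simp [Matrix.vecMulVec_apply, col, Pi.single_apply, hk.symm]
        · simp
  · simp [bb, sing, Pi.single_eq_of_ne hs]

theorem final [TopologicalSpace (MonoidAlgebra (Ex BB) G)]
    [IsTopologicalRing (MonoidAlgebra (Ex BB) G)] [T2Space (MonoidAlgebra (Ex BB) G)] :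
    ¬ Continuous fun s : Ex BB => (MonoidAlgebra.single 1 s : MonoidAlgebra (Ex BB) G) := by
  refine main (U BB) (fun V hV => (nhds_iff BB).1 hV) (inN (Gl.mkQ (sing (1, 0) (Id 1))))
    (fun h => r_ne (congrArg Ex.x h)) (fun j k => inA (ee j k)) (fun k V hV => ?_)
    (fun K j => inN (Gl.mkQ (bb K j))) (fun m n => ⟨m + n + 1, fun j => ⟨?_, ?_, ?_⟩⟩)
  · obtain ⟨n, hn⟩ := (nhds_iff BB).1 hV
    refine mem_map.2 (mem_of_superset (mem_atTop n) fun j hj => hn ⟨rfl, fun i hi => ?_, BB.D_zero n⟩)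
    exact Pi.single_eq_of_ne (ne_of_lt (lt_of_lt_of_le hi hj)) _
  · exact ⟨rfl, zero_mem _, bb_mem j (by omega)⟩
  · rw [← map_sum, aNa]
    exact ⟨rfl, zero_mem _, BB.D_R _ _ _ (BB.D_L _ _ _ (bb_mem j (by omega)))⟩
  · simp only [aNa, ← map_sum, trace]
    exact congrArg _ (sing_Id (m + n + 1, j) (1, 0) (by simp) le_rfl)

end Concrete

end Pool.Agent.H22.SgRing
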