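import Mathlib

set_option autoImplicit false

namespace H22.Simp

open scoped Pointwise nonZeroDivisors

/-- the affine maps `r ↦ exp a * r + b`, composed from left to right -/
@[ext] structure G where
  a : ℝ
  b : ℝ

noncomputable instance : Group G where
  mul g h := ⟨g.a + h.a, Real.exp h.a * g.b + h.b⟩
  one := ⟨0, 0⟩
  inv g := ⟨-g.a, -(Real.exp (-g.a) * g.b)⟩
  mul_assoc g h k := by
    apply G.ext
    · show g.a + h.a + k.a = g.a + (h.a + k.a)
      ring
    · show Real.exp k.a * (Real.exp h.a * g.b + h.b) + k.b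
        = Real.exp (h.a + k.a) * g.b + (Real.exp k.a * h.b + k.b)
      rw [Real.exp_add]; ring
  one_mul g := by
    apply G.ext
    · show 0 + g.a = g.a
      ring
    · show Real.exp g.a * 0 + g.b = g.b
      ring
  mul_one g := by
    apply G.ext
    · show g.a + 0 = g.a
      ring
    · show Real.exp 0 * g.b + 0 = g.b
      simp
  inv_mul_cancel g := by
    apply G.ext
    · show -g.a + g.a = 0
      ring
    · show Real.exp g.a * -(Real.exp (-g.a) * g.b) + g.b = 0
      rw [mul_neg, ← mul_assoc, ← Real.exp_add]; simp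

theorem mul_a (g h : G) : (g * h).a = g.a + h.a := rfl
theorem mul_b (g h : G) : (g * h).b = Real.exp h.a * g.b + h.b := rfl

noncomputable def act (g : G) (r : ℝ) : ℝ := Real.exp g.a * r + g.b

theorem act_mul (g h : G) (r : ℝ) : act (g * h) r = act h (act g r) := by
  unfold act
  rw [mul_a, mul_b, Real.exp_add]; ring

theorem act_one (r : ℝ) : act 1 r = r := by
  show Real.exp 0 * r + 0 = r
  simp

theorem act_strict (g : G) : StrictMono (act g) := fun r s h => by
  unfold act
  have := Real.exp_pos g.a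
  nlinarith

instance : UniqueProds G where
  uniqueMul_of_nonempty {A B} hA hB := by
    classical
    obtain ⟨a1, ha1, h1⟩ := A.exists_max_image G.a hA
    obtain ⟨b1, hb1, h2⟩ := B.exists_max_image G.a hB
    obtain ⟨a0, ha0, h3⟩ := (A.filter fun g => g.a = a1.a).exists_max_image G.b
      ⟨a1, by simp [ha1]⟩
    obtain ⟨b0, hb0, h4⟩ := (B.filter fun g => g.a = b1.a).exists_max_image G.b
      ⟨b1, by simp [hb1]⟩
    simp only [Finset.mem_filter] at ha0 hb0 h3 h4
    refine ⟨a0, ha0.1, b0, hb0.1, fun x y hx hy h => ?_⟩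
    have e1 := congrArg G.a h
    have e2 := congrArg G.b h
    rw [mul_a, mul_a] at e1
    rw [mul_b, mul_b] at e2
    have f1 := h1 x hx
    have f2 := h2 y hy
    have g1 : x.a = a1.a := by linarith [ha0.2, hb0.2]
    have g2 : y.a = b1.a := by linarith [ha0.2, hb0.2]
    have f3 := h3 x ⟨hx, g1⟩
    have f4 := h4 y ⟨hy, g2⟩
    rw [g2, hb0.2] at e2
    have hp := Real.exp_pos b1.a
    have g3 : x.b = a0.b := by nlinarith
    have g4 : y.b = b0.b := by rw [g3] at e2; linarith
    exact ⟨G.ext (g1.trans ha0.2.symm) g3, G.ext (g2.trans hb0.2.symm) g4⟩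

abbrev B := MonoidAlgebra ℚ G
abbrev C := MonoidAlgebra ℚ (Multiplicative ℝ)

noncomputable def τ : Multiplicative ℝ →* G where
  toFun b := ⟨0, b.toAdd⟩
  map_one' := rfl
  map_mul' x y := by
    apply G.ext
    · rw [mul_a]; simp
    · rw [mul_b]; simp

noncomputable def ι : C →+* B := MonoidAlgebra.mapDomainRingHom ℚ τ

noncomputable def d (a : ℝ) : B := MonoidAlgebra.single ⟨a, 0⟩ 1

theorem ι_single (b : Multiplicative ℝ) (c : ℚ) :
    ι (MonoidAlgebra.single b c) = MonoidAlgebra.single (τ b) c :=
  MonoidAlgebra.mapDomain_single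

theorem coeff_ι_d (c : C) (a a' : ℝ) (b : Multiplicative ℝ) :
    (ι c * d a).coeff (τ b * ⟨a', 0⟩) = if a = a' then c.coeff b else 0 := by
  classical
  induction c using MonoidAlgebra.induction_linear with
  | zero => simp
  | add x y hx hy =>
    rw [map_add, add_mul, MonoidAlgebra.coeff_add, Finsupp.add_apply, hx, hy,
      MonoidAlgebra.coeff_add, Finsupp.add_apply]
    split_ifs <;> simp
  | single b' q =>
    rw [ι_single, d, MonoidAlgebra.single_mul_single, mul_one, MonoidAlgebra.coeff_single,
      MonoidAlgebra.coeff_single, Finsupp.single_apply, Finsupp.single_apply]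
    by_cases h : a = a'
    · subst h
      have : τ b' * ⟨a, 0⟩ = τ b * ⟨a, 0⟩ ↔ b' = b := by
        rw [mul_left_inj]
        exact ⟨fun h => Multiplicative.toAdd.injective (congrArg G.b h), fun h => h ▸ rfl⟩
      simp only [this, if_true]
    · rw [if_neg h, if_neg]
      intro h'
      have := congrArg G.a h'
      rw [mul_a, mul_a] at this
      exact h (add_left_cancel this)

theorem folner (T : Finset ℝ) : ∃ W V : Finset ℝ,
    (∀ w ∈ W, ∀ t ∈ T, w + t ∈ V) ∧ V.card < 2 * W.card := by
  classical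
  let W : ℕ → Finset ℝ := fun n =>
    (Fintype.piFinset fun _ : T => Finset.range (n + 1)).image fun c => ∑ t : T, (c t : ℝ) * t
  have h1 : ∀ n, ∀ w ∈ W n, ∀ t ∈ T, w + t ∈ W (n + 1) := by
    intro n w hw t ht
    obtain ⟨c, hc, rfl⟩ := Finset.mem_image.1 hw
    refine Finset.mem_image.2 ⟨fun s => c s + if s = ⟨t, ht⟩ then 1 else 0, ?_, ?_⟩
    · rw [Fintype.mem_piFinset] at hc ⊢
      intro s
      have := hc s
      rw [Finset.mem_range] at this ⊢
      split_ifs <;> omega
    · simp [add_mul, Finset.sum_add_distrib]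
  have h2 : ∀ n, (W n).card ≤ (n + 1) ^ T.card := fun n =>
    Finset.card_image_le.trans (by simp)
  by_contra hc
  push Not at hc
  have h3 : ∀ n, 2 ^ n ≤ (W n).card := by
    intro n
    induction n with
    | zero =>
      exact Finset.card_pos.2 ⟨_, Finset.mem_image.2 ⟨fun _ => 0, by simp, rfl⟩⟩
    | succ n ih =>
      have := hc (W n) (W (n + 1)) (h1 n)
      rw [pow_succ]; omega
  have h4 := tendsto_pow_const_div_const_pow_of_one_lt T.card (r := 2) (by norm_num)
  have h5 := (h4.comp (Filter.tendsto_add_atTop_nat 1)).eventually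
    (gt_mem_nhds (show (0 : ℝ) < 1 / 2 by norm_num))
  obtain ⟨n, hn⟩ := h5.exists
  simp only [Function.comp] at hn
  rw [div_lt_iff₀ (by positivity)] at hn
  have h6 : ((2 ^ n : ℕ) : ℝ) ≤ (((n + 1) ^ T.card : ℕ) : ℝ) := by
    exact_mod_cast (h3 n).trans (h2 n)
  push_cast at h6 hn
  rw [pow_succ] at hn
  linarith

theorem ore (f g : B) : ∃ p q : B, (p ≠ 0 ∨ q ≠ 0) ∧ p * f = q * g := by
  classical
  by_contra hc
  push Not at hc
  let : Module C B := Module.compHom B ι
  have hsm : ∀ (c : C) (x : B), c • x = ι c * x := fun _ _ => rfl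
  obtain ⟨W, V, h1, h2⟩ := folner ((f.coeff.support ∪ g.coeff.support).image G.a)
  have hspan : ∀ x : B, (∀ h ∈ x.coeff.support, h.a ∈ V) →
      x ∈ Submodule.span C (V.image d : Set B) := by
    intro x hx
    rw [← MonoidAlgebra.sum_coeff_single x]
    refine Submodule.sum_mem _ fun h hh => ?_
    have : MonoidAlgebra.single h (x.coeff h) = (MonoidAlgebra.single
        (Multiplicative.ofAdd (Real.exp (-h.a) * h.b)) (x.coeff h) : C) • d h.a := by
      rw [hsm, ι_single, d, MonoidAlgebra.single_mul_single, mul_one]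
      congr 1
      apply G.ext
      · rw [mul_a]; exact (zero_add _).symm
      · rw [mul_b]
        show h.b = Real.exp h.a * (Real.exp (-h.a) * h.b) + 0
        rw [← mul_assoc, ← Real.exp_add]; simp
    rw [this]
    exact Submodule.smul_mem _ _ (Submodule.subset_span
      (Finset.mem_coe.2 (Finset.mem_image_of_mem d (hx h hh))))
  have hz : ∀ c : W → C, ∑ w : W, ι (c w) * d w = 0 → ∀ w, c w = 0 := by
    intro c hc w
    ext b
    have := congrArg (fun x : B => x.coeff (τ b * ⟨w, 0⟩)) hc
    simp only [MonoidAlgebra.coeff_sum, Finsupp.finsetSum_apply, coeff_ι_d, Subtype.val_inj,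
      Finset.sum_ite_eq', Finset.mem_univ, if_true] at this
    exact this
  let v : W ⊕ W → B := Sum.elim (fun w => d w * f) (fun w => d w * g)
  have hli : LinearIndependent C v := by
    rw [Fintype.linearIndependent_iff]
    intro c hc0
    rw [Fintype.sum_sum_type] at hc0
    simp only [v, Sum.elim_inl, Sum.elim_inr, hsm, ← mul_assoc, ← Finset.sum_mul] at hc0
    have e : (∑ w : W, ι (c (Sum.inl w)) * d w) * f = (-∑ w : W, ι (c (Sum.inr w)) * d w) * g := by
      rw [neg_mul]; exact eq_neg_of_add_eq_zero_left hc0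
    have e1 : (∑ w : W, ι (c (Sum.inl w)) * d w) = 0 := by
      by_contra h; exact hc _ _ (Or.inl h) e
    have e2 : (∑ w : W, ι (c (Sum.inr w)) * d w) = 0 := by
      by_contra h; exact hc _ _ (Or.inr (neg_ne_zero.2 h)) e
    rintro (w | w)
    · exact hz _ e1 w
    · exact hz _ e2 w
  have hd : ∀ (w : W) (x : B), x.coeff.support ⊆ f.coeff.support ∪ g.coeff.support →
      d w * x ∈ Submodule.span C (V.image d : Set B) := by
    intro w x hx
    refine hspan _ fun h hh => ?_
    obtain ⟨k, hk, rfl⟩ := Finset.mem_image.1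
      (MonoidAlgebra.support_coeff_single_mul_subset x 1 _ hh)
    exact h1 w w.2 k.a (Finset.mem_image_of_mem _ (hx hk))
  have := linearIndependent_le_span' v hli (V.image d : Set B) (by
    rintro _ ⟨w | w, rfl⟩
    · exact hd w f Finset.subset_union_left
    · exact hd w g Finset.subset_union_right)
  rw [Cardinal.mk_fintype, Nat.cast_le] at this
  simp only [Fintype.card_sum, Fintype.card_coe, Finset.coe_sort_coe] at this
  have h3 := Finset.card_image_le (s := V) (f := d)
  omega

theorem nonempty_ore : Nonempty (OreLocalization.OreSet B⁰) := by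
  rw [OreLocalization.nonempty_oreSet_iff_of_noZeroDivisors]
  intro r s
  obtain ⟨p, q, h, e⟩ := ore r s
  have hp : p ≠ 0 := by
    rintro rfl
    rw [zero_mul, eq_comm, mul_eq_zero] at e
    rcases e with e | e
    · simp [e] at h
    · exact nonZeroDivisors.coe_ne_zero s e
  exact ⟨q, ⟨p, mem_nonZeroDivisors_of_ne_zero hp⟩, e⟩

end H22.Simp
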