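import Pool.Agent.H22.Simp1

set_option autoImplicit false

namespace H22.Simp

open scoped Pointwise nonZeroDivisors

open Classical in
noncomputable def val (f : B) (r : ℝ) : ℝ :=
  if h : f.coeff.support.Nonempty then f.coeff.support.inf' h fun g => act g r else 0

theorem supp_ne {f : B} (hf : f ≠ 0) : f.coeff.support.Nonempty := by
  rw [Finsupp.support_nonempty_iff]
  exact fun h => hf (MonoidAlgebra.coeff_eq_zero.1 h)

theorem val_le {f : B} {g : G} (hg : g ∈ f.coeff.support) (r : ℝ) : val f r ≤ act g r := by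
  unfold val
  rw [dif_pos ⟨g, hg⟩]
  exact Finset.inf'_le (fun g => act g r) hg

theorem val_ex {f : B} (hf : f ≠ 0) (r : ℝ) : ∃ g ∈ f.coeff.support, val f r = act g r := by
  unfold val
  rw [dif_pos (supp_ne hf)]
  exact Finset.exists_mem_eq_inf' _ _

theorem val_strict {f : B} (hf : f ≠ 0) : StrictMono (val f) := fun r s h => by
  obtain ⟨g, hg, e⟩ := val_ex hf s
  rw [e]
  exact lt_of_le_of_lt (val_le hg r) (act_strict g h)

theorem val_surj {f : B} (hf : f ≠ 0) : Function.Surjective (val f) := fun s => by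
  obtain ⟨g, hg, h⟩ := f.coeff.support.exists_max_image (fun g => act g⁻¹ s) (supp_ne hf)
  refine ⟨act g⁻¹ s, le_antisymm ?_ ?_⟩
  · refine (val_le hg _).trans (le_of_eq ?_)
    rw [← act_mul, inv_mul_cancel, act_one]
  · obtain ⟨k, hk, e⟩ := val_ex hf (act g⁻¹ s)
    rw [e]
    refine le_trans (le_of_eq ?_) ((act_strict k).monotone (h k hk))
    rw [← act_mul, inv_mul_cancel, act_one]

theorem val_mul {f s : B} (hf : f ≠ 0) (hs : s ≠ 0) (r : ℝ) :
    val (f * s) r = val s (val f r) := by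
  classical
  apply le_antisymm
  · obtain ⟨g1, hg1, e1⟩ := val_ex hf r
    obtain ⟨g2, hg2, e2⟩ := val_ex hs (val f r)
    obtain ⟨a0, ha0, b0, hb0, hu⟩ := UniqueProds.uniqueMul_of_nonempty
      (A := f.coeff.support.filter fun g => act g r = val f r)
      (B := s.coeff.support.filter fun g => act g (val f r) = val s (val f r))
      ⟨g1, Finset.mem_filter.2 ⟨hg1, e1.symm⟩⟩ ⟨g2, Finset.mem_filter.2 ⟨hg2, e2.symm⟩⟩
    rw [Finset.mem_filter] at ha0 hb0
    have e3 : act (a0 * b0) r = val s (val f r) := by rw [act_mul, ha0.2, hb0.2]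
    have hu' : UniqueMul f.coeff.support s.coeff.support a0 b0 := by
      intro a b ha hb h
      have e4 : act b (act a r) = val s (val f r) := by rw [← act_mul, h, e3]
      have l1 := val_le ha r
      have l2 := val_le hb (val f r)
      have l3 := (act_strict b).monotone l1
      have e5 : act b (val f r) = val s (val f r) := le_antisymm (e4 ▸ l3) l2
      have e6 : act a r = val f r := (act_strict b).injective (e4.trans e5.symm)
      exact hu (Finset.mem_filter.2 ⟨ha, e6⟩) (Finset.mem_filter.2 ⟨hb, e5⟩) h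
    rw [← e3]
    refine val_le ?_ r
    rw [Finsupp.mem_support_iff, MonoidAlgebra.coeff_mul_mul_of_uniqueMul hu']
    exact mul_ne_zero (Finsupp.mem_support_iff.1 ha0.1) (Finsupp.mem_support_iff.1 hb0.1)
  · obtain ⟨g, hg, e⟩ := val_ex (mul_ne_zero hf hs) r
    obtain ⟨a, ha, b, hb, rfl⟩ := Finset.mem_mul.1 (MonoidAlgebra.support_coeff_mul_subset f s hg)
    rw [e, act_mul]
    exact (val_le hb _).trans ((act_strict b).monotone (val_le ha r))

theorem val_add {f g : B} (h : f + g ≠ 0) (r : ℝ) :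
    min (val f r) (val g r) ≤ val (f + g) r := by
  classical
  obtain ⟨k, hk, e⟩ := val_ex h r
  rw [e]
  rcases Finset.mem_union.1 (Finsupp.support_add hk) with h' | h'
  · exact (min_le_left _ _).trans (val_le h' r)
  · exact (min_le_right _ _).trans (val_le h' r)

theorem val_neg (f : B) (r : ℝ) : val (-f) r = val f r := by
  unfold val
  simp only [MonoidAlgebra.coeff_neg, Finsupp.support_neg]

theorem single_ne (g : G) : (MonoidAlgebra.single g 1 : B) ≠ 0 := by
  simp [MonoidAlgebra.single_eq_zero]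

theorem val_single (g : G) (r : ℝ) : val (MonoidAlgebra.single g 1) r = act g r := by
  obtain ⟨k, hk, e⟩ := val_ex (single_ne g) r
  rw [e, Finset.mem_singleton.1 (Finsupp.support_single_subset hk)]

theorem val_one (r : ℝ) : val 1 r = r := (val_single 1 r).trans (act_one r)

theorem ore' {f g : B} (hf : f ≠ 0) (hg : g ≠ 0) :
    ∃ p q : B, p ≠ 0 ∧ q ≠ 0 ∧ p * f = q * g := by
  obtain ⟨p, q, h, e⟩ := ore f g
  refine ⟨p, q, ?_, ?_, e⟩
  · rintro rfl
    rw [zero_mul, eq_comm, mul_eq_zero] at e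
    simp [e.resolve_right hg] at h
  · rintro rfl
    rw [zero_mul, mul_eq_zero] at e
    simp [e.resolve_right hf] at h

theorem exists_frac : ∃ (D : Type) (_ : DivisionRing D) (j : B →+* D), Function.Injective j ∧
    ∀ x : D, ∃ s f : B, s ≠ 0 ∧ j s * x = j f := by
  obtain ⟨inst⟩ := nonempty_ore
  refine ⟨OreLocalization B⁰ B, inferInstance, OreLocalization.numeratorRingHom,
    OreLocalization.numeratorHom_inj (S := B⁰) inf_le_left, fun x => ?_⟩
  induction x using OreLocalization.ind with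
  | _ f s => exact ⟨s, f, nonZeroDivisors.coe_ne_zero s, OreLocalization.mul_cancel⟩

theorem exists_D : ∃ (D : Type) (_ : DivisionRing D) (γ : D → ℝ → ℝ),
    (∀ x y, x ≠ 0 → y ≠ 0 → ∀ r, γ (x * y) r = γ y (γ x r)) ∧
    (∀ x, x ≠ 0 → StrictMono (γ x)) ∧
    (∀ x y, x ≠ 0 → y ≠ 0 → x + y ≠ 0 → ∀ r, min (γ x r) (γ y r) ≤ γ (x + y) r) ∧
    (∀ x, x ≠ 0 → ∀ r, γ (-x) r = γ x r) ∧ (∀ r, γ 1 r = r) ∧
    ∀ a b : ℝ, 0 < a → ∃ z, z ≠ 0 ∧ ∀ r, γ z r = a * r + b := by
  obtain ⟨D, inst, j, hj, hden⟩ := exists_frac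
  have hne : ∀ {x : D} {s f : B}, x ≠ 0 → s ≠ 0 → j s * x = j f → f ≠ 0 := by
    rintro x s f hx hs h rfl
    rw [map_zero, mul_eq_zero] at h
    rcases h with h | h
    · exact hs (hj (h.trans (map_zero j).symm))
    · exact hx h
  have hex : ∀ x : D, ∃ γ : ℝ → ℝ, x ≠ 0 → ∀ s f : B, s ≠ 0 → j s * x = j f →
      ∀ r, γ (val s r) = val f r := by
    intro x
    obtain ⟨s0, f0, hs0, e0⟩ := hden x
    refine ⟨fun r => val f0 (Function.surjInv (val_surj hs0) r), fun hx s f hs e r => ?_⟩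
    obtain ⟨p, q, hp, hq, e1⟩ := ore' hs0 hs
    have e2 : p * f0 = q * f := by
      apply hj
      rw [map_mul, map_mul, ← e0, ← e, ← mul_assoc, ← mul_assoc, ← map_mul, ← map_mul, e1]
    obtain ⟨r0, rfl⟩ := val_surj hq r
    have e3 : Function.surjInv (val_surj hs0) (val s (val q r0)) = val p r0 := by
      apply (val_strict hs0).injective
      rw [Function.surjInv_eq (val_surj hs0), ← val_mul hq hs, ← val_mul hp hs0, e1]
    simp only [e3]
    rw [← val_mul hp (hne hx hs0 e0), ← val_mul hq (hne hx hs e), e2]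
  choose γ hγ using hex
  refine ⟨D, inst, γ, fun x y hx hy r => ?_, fun x hx => ?_, fun x y hx hy hxy r => ?_,
    fun x hx r => ?_, fun r => ?_, fun a b ha => ?_⟩
  · obtain ⟨s, f, hs, e⟩ := hden x
    obtain ⟨t, g, ht, e'⟩ := hden y
    have hf := hne hx hs e
    have hg := hne hy ht e'
    obtain ⟨p, q, hp, hq, e1⟩ := ore' hf ht
    have e2 : j (p * s) * (x * y) = j (q * g) := by
      rw [map_mul, map_mul, mul_assoc, ← mul_assoc (j s), e, ← mul_assoc, ← map_mul, e1, map_mul,
        mul_assoc, e']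
    obtain ⟨r0, rfl⟩ := val_surj (mul_ne_zero hp hs) r
    rw [hγ _ (mul_ne_zero hx hy) _ _ (mul_ne_zero hp hs) e2, val_mul hp hs, hγ x hx s f hs e,
      ← val_mul hp hf, e1, val_mul hq ht, hγ y hy t g ht e', val_mul hq hg]
  · obtain ⟨s, f, hs, e⟩ := hden x
    intro r r' h
    obtain ⟨r0, rfl⟩ := val_surj hs r
    obtain ⟨r1, rfl⟩ := val_surj hs r'
    rw [hγ x hx s f hs e, hγ x hx s f hs e]
    exact val_strict (hne hx hs e) ((val_strict hs).lt_iff_lt.1 h)
  · obtain ⟨s, f, hs, e⟩ := hden x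
    obtain ⟨t, g, ht, e'⟩ := hden y
    obtain ⟨p, q, hp, hq, e1⟩ := ore' hs ht
    have hps := mul_ne_zero hp hs
    have e2 : j (p * s) * x = j (p * f) := by rw [map_mul, map_mul, mul_assoc, e]
    have e3 : j (p * s) * y = j (q * g) := by rw [e1, map_mul, map_mul, mul_assoc, e']
    have e4 : j (p * s) * (x + y) = j (p * f + q * g) := by rw [mul_add, e2, e3, map_add]
    obtain ⟨r0, rfl⟩ := val_surj hps r
    rw [hγ x hx _ _ hps e2, hγ y hy _ _ hps e3, hγ _ hxy _ _ hps e4]
    exact val_add (hne hxy hps e4) r0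
  · obtain ⟨s, f, hs, e⟩ := hden x
    obtain ⟨r0, rfl⟩ := val_surj hs r
    rw [hγ x hx s f hs e, hγ (-x) (neg_ne_zero.2 hx) s (-f) hs (by rw [mul_neg, e, map_neg]),
      val_neg]
  · have := hγ 1 one_ne_zero 1 1 one_ne_zero (mul_one _) r
    rwa [val_one] at this
  · have hz : j (MonoidAlgebra.single ⟨Real.log a, b⟩ 1) ≠ 0 := fun h =>
      single_ne _ (hj (h.trans (map_zero j).symm))
    refine ⟨_, hz, fun r => ?_⟩
    have := hγ _ hz 1 (MonoidAlgebra.single ⟨Real.log a, b⟩ 1) one_ne_zero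
      (by rw [map_one, one_mul]) r
    rw [val_one, val_single] at this
    rw [this, act, Real.exp_log ha]

end H22.Simp
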