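import Mathlib

set_option autoImplicit false

namespace Pool.Agent.H22.SkewR

variable {A : Type} [Ring A] (σ : A →+* A)

abbrev W (A : Type) [Ring A] : Type := ℕ →₀ A

noncomputable def Xo : AddMonoid.End (W A) := Finsupp.mapDomain.addMonoidHom Nat.succ

noncomputable def Lo (a : A) : AddMonoid.End (W A) :=
  Finsupp.liftAddHom fun i => (Finsupp.singleAddHom i).comp (AddMonoidHom.mulLeft (σ^[i] a))

theorem Xo_single (i : ℕ) (c : A) : Xo (Finsupp.single i c) = Finsupp.single (i + 1) c :=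
  Finsupp.mapDomain_single

theorem Lo_single (a : A) (i : ℕ) (c : A) :
    Lo σ a (Finsupp.single i c) = Finsupp.single i (σ^[i] a * c) :=
  Finsupp.liftAddHom_apply_single _ _ _

theorem Emul (f g : AddMonoid.End (W A)) (v : W A) : (f * g) v = f (g v) := rfl
theorem Eadd (f g : AddMonoid.End (W A)) (v : W A) : (f + g) v = f v + g v := rfl

theorem End_ext {f g : AddMonoid.End (W A)}
    (h : ∀ i c, f (Finsupp.single i c) = g (Finsupp.single i c)) : f = g :=
  Finsupp.addHom_ext h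

noncomputable def Lh : A →+* AddMonoid.End (W A) where
  toFun := Lo σ
  map_one' := End_ext fun i c => by simp [Lo_single]
  map_mul' a b := End_ext fun i c => by
    rw [Emul, Lo_single, Lo_single, Lo_single, iterate_map_mul, mul_assoc]
  map_zero' := End_ext fun i c => by simp [Lo_single]
  map_add' a b := End_ext fun i c => by
    rw [Eadd, Lo_single, Lo_single, Lo_single, iterate_map_add, add_mul,
      Finsupp.single_add]

theorem Lh_X (a : A) : Lh σ a * Xo = Xo * Lh σ (σ a) := End_ext fun i c => by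
  change Lo σ a (Xo _) = Xo (Lo σ (σ a) _)
  rw [Xo_single, Lo_single, Lo_single, Xo_single, Function.iterate_succ_apply]

theorem Lh_Xpow (a : A) (n : ℕ) : Lh σ a * Xo ^ n = Xo ^ n * Lh σ (σ^[n] a) := by
  induction n with
  | zero => simp
  | succ n ih => rw [pow_succ, ← mul_assoc, ih, mul_assoc, Lh_X, mul_assoc,
      Function.iterate_succ_apply']

noncomputable def ev : W A →+ AddMonoid.End (W A) :=
  Finsupp.liftAddHom fun i => (AddMonoidHom.mulLeft (Xo ^ i)).comp (Lh σ).toAddMonoidHom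

theorem ev_single (i : ℕ) (a : A) : ev σ (Finsupp.single i a) = Xo ^ i * Lh σ a := by
  simp [ev]

theorem Xpow_single (n i : ℕ) (c : A) :
    (Xo ^ n : AddMonoid.End (W A)) (Finsupp.single i c) = Finsupp.single (i + n) c := by
  induction n with
  | zero => simp
  | succ n ih => rw [pow_succ', Emul, ih, Xo_single, add_assoc]

theorem ev_apply (c : W A) : ev σ c (Finsupp.single 0 1) = c := by
  induction c using Finsupp.induction_linear with
  | zero => simp
  | add f g hf hg => rw [map_add, Eadd, hf, hg]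
  | single i a =>
    rw [ev_single, Emul]
    change (Xo ^ i : AddMonoid.End (W A)) (Lo σ a _) = _
    rw [Lo_single, Xpow_single]
    simp

theorem ev_mul (c d : W A) : ev σ c * ev σ d = ev σ (ev σ c d) := by
  induction c using Finsupp.induction_linear with
  | zero => simp
  | add f g hf hg => rw [map_add, add_mul, hf, hg, Eadd, map_add]
  | single i a =>
    induction d using Finsupp.induction_linear with
    | zero => simp
    | add f g hf hg => rw [map_add, mul_add, hf, hg, map_add, map_add]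
    | single j b =>
      rw [ev_single, ev_single, Emul]
      change _ = ev σ ((Xo ^ i : AddMonoid.End (W A)) (Lo σ a _))
      rw [Lo_single, Xpow_single, ev_single, mul_assoc, ← mul_assoc (Lh σ a), Lh_Xpow, map_mul,
        add_comm j, pow_add]
      simp only [mul_assoc]

noncomputable def R : Subring (AddMonoid.End (W A)) where
  carrier := Set.range (ev σ)
  mul_mem' := by
    rintro _ _ ⟨c, rfl⟩ ⟨d, rfl⟩
    exact ⟨_, (ev_mul σ c d).symm⟩
  one_mem' := ⟨Finsupp.single 0 1, by simp [ev_single]⟩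
  add_mem' := by
    rintro _ _ ⟨c, rfl⟩ ⟨d, rfl⟩
    exact ⟨_, map_add _ _ _⟩
  zero_mem' := ⟨0, map_zero _⟩
  neg_mem' := by
    rintro _ ⟨c, rfl⟩
    exact ⟨_, map_neg _ _⟩

noncomputable def x : R σ := ⟨Xo, Finsupp.single 1 1, by simp [ev_single]⟩

noncomputable def ι : A →+* R σ :=
  (Lh σ).codRestrict _ fun a => ⟨Finsupp.single 0 a, by simp [ev_single]⟩

theorem ι_x (a : A) : ι σ a * x σ = x σ * ι σ (σ a) := Subtype.ext (Lh_X σ a)

noncomputable def co : R σ →+ W A where
  toFun f := (f : AddMonoid.End (W A)) (Finsupp.single 0 1)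
  map_zero' := rfl
  map_add' _ _ := rfl

theorem co_inj {f : R σ} (h : co σ f = 0) : f = 0 := by
  obtain ⟨_, c, rfl⟩ := f
  have : c = 0 := by rw [← ev_apply σ c]; exact h
  subst this
  exact Subtype.ext (map_zero _)

theorem co_mono (i : ℕ) (a : A) : co σ (x σ ^ i * ι σ a) = Finsupp.single i a := by
  rw [← ev_apply σ (Finsupp.single i a), ev_single]
  simp [co, x, ι]

theorem R_ind {p : R σ → Prop} (h0 : p 0) (hadd : ∀ f g, p f → p g → p (f + g))
    (hm : ∀ i a, p (x σ ^ i * ι σ a)) (f : R σ) : p f := by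
  obtain ⟨_, c, rfl⟩ := f
  induction c using Finsupp.induction_linear with
  | zero =>
    have : (⟨ev σ 0, 0, rfl⟩ : R σ) = 0 := Subtype.ext (map_zero _)
    rw [this]; exact h0
  | add f g hf hg =>
    have : (⟨ev σ (f + g), _, rfl⟩ : R σ) = ⟨ev σ f, _, rfl⟩ + ⟨ev σ g, _, rfl⟩ :=
      Subtype.ext (map_add _ _ _)
    rw [this]; exact hadd _ _ hf hg
  | single i a =>
    have : (⟨ev σ (Finsupp.single i a), _, rfl⟩ : R σ) = x σ ^ i * ι σ a := by
      apply Subtype.ext
      simp [ev_single, x, ι]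
    rw [this]; exact hm i a

theorem co_mul_ι (f : R σ) (a : A) (n : ℕ) : co σ (f * ι σ a) n = co σ f n * a := by
  induction f using R_ind with
  | h0 => simp
  | hadd f g hf hg => rw [add_mul, map_add, map_add, Finsupp.add_apply, Finsupp.add_apply, hf, hg,
      add_mul]
  | hm i b =>
    rw [mul_assoc, ← map_mul, co_mono, co_mono, Finsupp.single_apply, Finsupp.single_apply]
    split_ifs <;> simp

theorem mono_x (i : ℕ) (b : A) : x σ ^ i * ι σ b * x σ = x σ ^ (i + 1) * ι σ (σ b) := by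
  rw [mul_assoc, ι_x, pow_succ, mul_assoc]

theorem co_mul_x (f : R σ) (n : ℕ) : co σ (f * x σ) (n + 1) = σ (co σ f n) := by
  induction f using R_ind with
  | h0 => simp
  | hadd f g hf hg => rw [add_mul, map_add (co σ), map_add (co σ), Finsupp.add_apply,
      Finsupp.add_apply, hf, hg, map_add]
  | hm i b =>
    rw [mono_x, co_mono, co_mono, Finsupp.single_apply, Finsupp.single_apply]
    by_cases h : i = n <;> simp [h]

theorem co_mul_xpow (f : R σ) (n k : ℕ) : co σ (f * x σ ^ k) (n + k) = σ^[k] (co σ f n) := by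
  induction k with
  | zero => simp
  | succ k ih => rw [pow_succ, ← mul_assoc, ← add_assoc, co_mul_x, ih, Function.iterate_succ_apply']

theorem co_x_mul (f : R σ) : co σ (x σ * f) = Xo (co σ f) := rfl

theorem x_cancel {f : R σ} (h : x σ * f = 0) : f = 0 := by
  apply co_inj
  have h1 := co_x_mul σ f
  rw [h, map_zero] at h1
  exact Finsupp.mapDomain_injective Nat.succ_injective (h1.symm.trans Finsupp.mapDomain_zero.symm)

theorem co_x_mul_zero (f : R σ) : co σ (x σ * f) 0 = 0 := by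
  rw [co_x_mul]
  exact Finsupp.mapDomain_of_notMem_range _ _ (by simp)

theorem co_ι (a : A) : co σ (ι σ a) 0 = a := by
  have := co_mono σ 0 a
  rw [pow_zero, one_mul] at this
  rw [this, Finsupp.single_eq_same]

theorem decomp (f : R σ) : ∃ g, f = ι σ (co σ f 0) + x σ * g := by
  induction f using R_ind with
  | h0 => exact ⟨0, by simp⟩
  | hadd f g hf hg =>
    obtain ⟨f', hf⟩ := hf
    obtain ⟨g', hg⟩ := hg
    refine ⟨f' + g', ?_⟩
    rw [map_add, Finsupp.add_apply, map_add, mul_add]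
    conv_lhs => rw [hf, hg]
    abel
  | hm i b =>
    rw [co_mono]
    cases i with
    | zero => exact ⟨0, by simp⟩
    | succ i => exact ⟨x σ ^ i * ι σ b, by simp [pow_succ', mul_assoc]⟩

theorem x_normal (f : R σ) : ∃ g, f * x σ = x σ * g := by
  obtain ⟨g, hg⟩ := decomp σ f
  exact ⟨ι σ (σ (co σ f 0)) + g * x σ, by
    conv_lhs => rw [hg]
    rw [add_mul, ι_x, mul_add, mul_assoc]⟩

theorem co_mul_zero (f g : R σ) : co σ (f * g) 0 = co σ f 0 * co σ g 0 := by
  obtain ⟨g', hg⟩ := decomp σ g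
  obtain ⟨f', hf⟩ := x_normal σ f
  conv_lhs => rw [hg]
  rw [mul_add, map_add, Finsupp.add_apply, co_mul_ι, ← mul_assoc, hf, mul_assoc, co_x_mul_zero,
    add_zero]

theorem xpow_cancel (n : ℕ) {f : R σ} (h : x σ ^ n * f = 0) : f = 0 := by
  induction n with
  | zero => simpa using h
  | succ n ih =>
    rw [pow_succ', mul_assoc] at h
    exact ih (x_cancel σ h)

theorem factor (f : R σ) (hf : f ≠ 0) : ∃ n g, f = x σ ^ n * g ∧ co σ g 0 ≠ 0 := by
  have key : ∀ N, ∀ f : R σ, f ≠ 0 → (∀ i, N ≤ i → co σ f i = 0) →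
      ∃ n g, f = x σ ^ n * g ∧ co σ g 0 ≠ 0 := by
    intro N
    induction N with
    | zero =>
      intro f hf h
      exact absurd (co_inj σ (Finsupp.ext fun i => h i (Nat.zero_le i))) hf
    | succ N ih =>
      intro f hf h
      by_cases h0 : co σ f 0 = 0
      · obtain ⟨g, hg⟩ := decomp σ f
        rw [h0, map_zero, zero_add] at hg
        obtain ⟨n, g', h1, h2⟩ := ih g (by rintro rfl; simp [hg] at hf) fun i hi => by
          have := h (i + 1) (by omega)
          rw [hg, co_x_mul] at this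
          rw [← this]
          exact (Finsupp.mapDomain_apply Nat.succ_injective _ i).symm
        exact ⟨n + 1, g', by rw [hg, h1, pow_succ', mul_assoc], h2⟩
      · exact ⟨0, f, by simp, h0⟩
  obtain ⟨N, hN⟩ := (co σ f).support.bddAbove
  refine key (N + 1) f hf fun i hi => ?_
  by_contra h
  have := hN (Finsupp.mem_support_iff.2 h)
  omega

theorem domain [NoZeroDivisors A] (hσ : Function.Injective σ) {f g : R σ} (hf : f ≠ 0)
    (hg : g ≠ 0) : f * g ≠ 0 := by
  obtain ⟨n, f', rfl, h1⟩ := factor σ f hf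
  obtain ⟨m, g', rfl, h2⟩ := factor σ g hg
  have : ∀ m, ∃ u, f' * x σ ^ m = x σ ^ m * u ∧ co σ u 0 ≠ 0 := by
    intro m
    induction m with
    | zero => exact ⟨f', by simp, h1⟩
    | succ m ih =>
      obtain ⟨u, hu, hu0⟩ := ih
      obtain ⟨u', hu'⟩ := decomp σ u
      refine ⟨ι σ (σ (co σ u 0)) + u' * x σ, ?_, ?_⟩
      · rw [pow_succ, ← mul_assoc, hu, mul_assoc, mul_assoc]
        conv_lhs => rw [hu']
        rw [add_mul, ι_x, mul_add (x σ), mul_assoc]
      · obtain ⟨w, hw⟩ := x_normal σ u'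
        rw [map_add, Finsupp.add_apply, co_ι, hw, co_x_mul_zero, add_zero]
        exact (map_ne_zero_iff σ hσ).2 hu0
  obtain ⟨u, hu, hu0⟩ := this m
  intro h
  rw [mul_assoc, ← mul_assoc f', hu, mul_assoc] at h
  have h3 := congrArg (fun t => co σ t 0) (xpow_cancel σ _ (xpow_cancel σ _ h))
  simp only [co_mul_zero, map_zero, Finsupp.zero_apply] at h3
  exact mul_ne_zero hu0 h2 h3

theorem pri (hA : ∀ I : AddSubmonoid A, (∀ x r : A, x ∈ I → x * r ∈ I) →
      ∃ a : A, ∀ x : A, x ∈ I ↔ ∃ r : A, x = a * r)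
    (hσ : Function.Injective σ) (hu : ∀ c, c ≠ 0 → ∃ w, σ c * w = 1)
    (I : AddSubmonoid (R σ)) (hI : ∀ x r, x ∈ I → x * r ∈ I) :
    ∃ a, ∀ x, x ∈ I ↔ ∃ r, x = a * r := by
  classical
  have hsub : ∀ f g, f ∈ I → g ∈ I → f - g ∈ I := fun f g hf hg => by
    rw [sub_eq_add_neg, ← mul_neg_one]
    exact add_mem hf (hI _ _ hg)
  by_cases h0 : ∀ f ∈ I, f = 0
  · exact ⟨0, fun f => ⟨fun hf => ⟨0, by simp [h0 f hf]⟩, by rintro ⟨r, rfl⟩; simp⟩⟩
  have hdeg : ∀ f : R σ, ∃ n, ∀ i, n ≤ i → co σ f i = 0 := by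
    intro f
    obtain ⟨N, hN⟩ := (co σ f).support.bddAbove
    refine ⟨N + 1, fun i hi => ?_⟩
    by_contra h
    have := hN (Finsupp.mem_support_iff.2 h)
    omega
  have hex : ∃ n, ∃ f ∈ I, f ≠ 0 ∧ ∀ i, n < i → co σ f i = 0 := by
    push Not at h0
    obtain ⟨f, hf, hf0⟩ := h0
    obtain ⟨n, hn⟩ := hdeg f
    exact ⟨n, f, hf, hf0, fun i hi => hn i hi.le⟩
  obtain ⟨n, hn⟩ : ∃ n, n = Nat.find hex := ⟨_, rfl⟩
  have hmin : ∀ f ∈ I, (∀ i, n ≤ i → co σ f i = 0) → f = 0 := by
    intro f hf h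
    by_contra hf0
    rcases Nat.eq_zero_or_pos n with h1 | h1
    · exact hf0 (co_inj σ (Finsupp.ext fun i => h i (by omega)))
    · exact Nat.find_min hex (show n - 1 < Nat.find hex by omega)
        ⟨f, hf, hf0, fun i hi => h i (by omega)⟩
  let L : AddSubmonoid A :=
    { carrier := {c | ∃ f ∈ I, (∀ i, n < i → co σ f i = 0) ∧ co σ f n = c}
      add_mem' := by
        rintro _ _ ⟨f, hf, h1, rfl⟩ ⟨g, hg, h2, rfl⟩
        exact ⟨f + g, add_mem hf hg, fun i hi => by simp [h1 i hi, h2 i hi], by simp⟩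
      zero_mem' := ⟨0, zero_mem _, by simp, by simp⟩ }
  obtain ⟨c, hc⟩ := hA L (by
    rintro _ r ⟨f, hf, h1, rfl⟩
    exact ⟨f * ι σ r, hI _ _ hf, fun i hi => by rw [co_mul_ι, h1 i hi, zero_mul], co_mul_ι _ _ _ _⟩)
  obtain ⟨f0, hf0, h1, h2⟩ := (hc c).2 ⟨1, (mul_one c).symm⟩
  have hc0 : c ≠ 0 := by
    rintro rfl
    obtain ⟨f, hf, hf0', h3⟩ := hn ▸ Nat.find_spec hex
    obtain ⟨r, hr⟩ := (hc _).1 ⟨f, hf, h3, rfl⟩
    refine hf0' (hmin f hf fun i hi => ?_)
    rcases hi.eq_or_lt with rfl | hi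
    · rw [hr, zero_mul]
    · exact h3 i hi
  refine ⟨f0, fun g => ⟨fun hg => ?_, by rintro ⟨r, rfl⟩; exact hI _ _ hf0⟩⟩
  have key : ∀ k, ∀ g ∈ I, (∀ i, n + k ≤ i → co σ g i = 0) → ∃ r, g = f0 * r := by
    intro k
    induction k with
    | zero => intro g hg h; exact ⟨0, by rw [hmin g hg h, mul_zero]⟩
    | succ k ih =>
      intro g hg h
      have : ∃ w, σ^[k] c * w = co σ g (n + k) := by
        cases k with
        | zero =>
          obtain ⟨r, hr⟩ := (hc _).1 ⟨g, hg, fun i hi => h i hi, rfl⟩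
          exact ⟨r, hr.symm⟩
        | succ k =>
          obtain ⟨w, hw⟩ := hu (σ^[k] c) fun h => hc0 ((hσ.iterate k) (by
            rw [h, iterate_map_zero]))
          exact ⟨w * co σ g (n + (k + 1)), by
            rw [Function.iterate_succ_apply', ← mul_assoc, hw, one_mul]⟩
      obtain ⟨w, hw⟩ := this
      obtain ⟨r, hr⟩ := ih (g - f0 * (x σ ^ k * ι σ w)) (hsub _ _ hg (hI _ _ hf0)) fun i hi => by
        obtain ⟨j, rfl⟩ : ∃ j, i = j + k := ⟨i - k, by omega⟩
        rw [map_sub, Finsupp.sub_apply, ← mul_assoc, co_mul_ι, co_mul_xpow]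
        rcases (show n ≤ j by omega).eq_or_lt with rfl | hj
        · rw [h2, hw, sub_self]
        · rw [h1 j hj, h _ (by omega), iterate_map_zero]
          simp
      exact ⟨r + x σ ^ k * ι σ w, by rw [mul_add, ← hr, sub_add_cancel]⟩
  obtain ⟨m, hm⟩ := hdeg g
  exact key m g hg fun i hi => hm i (by omega)

end Pool.Agent.H22.SkewR
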