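import Pool.Agent.H22.Comp2

namespace Pool.Agent.H22.Comp

open Function Subgroup FormLat GLS
open scoped commutatorElement

structure Sd (G : Type) [Group G] where
  K : Subgroup G
  φ : G
  τ : G →* G
  cp : Cp K
  le : Ce K ≤ K
  zc : ∀ z ∈ Ce K, (∀ g, g * z = z * g) ∧ z ^ 3 = 1 ∧ τ z = z⁻¹
  gen : ∀ g, ∃ k ∈ K, ∃ a : ℤ, g = k * φ ^ a
  ts : Surjective τ
  tk : ∀ g, g⁻¹ * τ g ∈ K
  cl : ∀ (S : Type) [Group S] [Finite S] (L : Subgroup S) (π : S →* G), ⁅L, L⁆ = L → L.map π = K →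
    (∀ t ∈ L, π t = 1 → t ∈ Ce L ∧ t ^ 3 = 1) → ∀ t ∈ L, π t = 1 → t = 1

variable {G S H ι : Type} [Group G] [Group S] [Group H] (d : Sd G)

instance : d.K.Normal := d.cp.n

theorem Sd.dl (x y : G) : ⁅x, y⁆ ∈ d.K := by
  obtain ⟨k, hk, a, rfl⟩ := d.gen x
  obtain ⟨l, hl, b, rfl⟩ := d.gen y
  rw [← QuotientGroup.eq_one_iff, ← QuotientGroup.mk'_apply, map_commutatorElement, map_mul, map_mul,
    QuotientGroup.mk'_apply, QuotientGroup.mk'_apply _ l, (QuotientGroup.eq_one_iff _).2 hk,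
    (QuotientGroup.eq_one_iff _).2 hl, one_mul, one_mul, map_zpow, map_zpow,
    commutatorElement_eq_one_iff_commute]
  exact (Commute.refl _).zpow_zpow a b

theorem Sd.comp [Finite S] (π : ι → S →* G) (hs : ∀ l, Surjective (π l))
    (hi : ∀ x, (∀ l, π l x = 1) → x = 1) (j : ι) : ∃ L : Subgroup S, L.Normal ∧ L.map (π j) = d.K ∧
      (∀ t ∈ L, π j t = 1 → t = 1) ∧
      ∀ l, L ≤ (π l).ker ∨ ∀ s, π j s ∈ Ce d.K → π l s ∈ Ce d.K := by
  obtain ⟨L, ⟨_, k1⟩, k2⟩ := (wellFounded_lt (α := Subgroup S)).has_min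
    {L | L.Normal ∧ L.map (π j) = d.K} ⟨d.K.comap (π j), inferInstance,
      map_comap_eq_self_of_surjective (hs j) _⟩
  have m : ∀ M ≤ L, M.Normal → M.map (π j) = d.K → M = L := fun M a b c =>
    a.eq_or_lt.resolve_right (k2 M ⟨b, c⟩)
  have pf : ⁅L, L⁆ = L := m _ (commutator_le_left _ _) inferInstance
    (by rw [map_commutator, k1, d.cp.pf])
  have t : ∀ t ∈ L, π j t = 1 → ∀ l, π l t ∈ Ce d.K := fun t a b l => by
    have : ((L ⊓ (π j).ker).map (π l)).Normal := Normal.map inferInstance _ (hs l)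
    refine (d.cp.dich ((L ⊓ (π j).ker).map (π l))).resolve_left (fun c => d.cp.ne (le_bot_iff.1
      (c.trans ?_))) ⟨t, ⟨a, b⟩, rfl⟩
    have e := m (L ⊓ (π l).ker) inf_le_left inferInstance (le_antisymm (k1 ▸ map_mono inf_le_left)
      (k1 ▸ by
        rintro _ ⟨x, hx, rfl⟩
        obtain ⟨u, hu, e⟩ := c ((pf.ge.trans (commutator_le.2 fun x _ y _ => by
          simpa using d.dl _ _) : L ≤ d.K.comap (π l)) hx)
        exact ⟨u⁻¹ * x, ⟨L.mul_mem (L.inv_mem hu.1) hx, by simp [e]⟩, by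
          simp [show π j u = 1 from hu.2]⟩))
    rintro _ ⟨u, hu, rfl⟩
    exact (e.ge hu.1).2
  have i := d.cl S L (π j) pf k1 fun u a b => ⟨fun k _ => commutatorElement_eq_one_iff_mul_comm.1
    (hi _ fun l => by
      rw [map_commutatorElement, commutatorElement_eq_one_iff_mul_comm, (d.zc _ (t u a b l)).1]),
    hi _ fun l => by rw [map_pow, (d.zc _ (t u a b l)).2.1]⟩
  refine ⟨L, ‹_›, k1, i, fun l => ?_⟩
  have := Normal.map ‹L.Normal› _ (hs l)
  refine (d.cp.dich (L.map (π l))).symm.imp (fun c => pf.ge.trans (commutator_le.2 fun x a y _ => ?_))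
    fun c s a k hk => ?_
  · rw [MonoidHom.mem_ker, map_commutatorElement, commutatorElement_eq_one_iff_mul_comm,
      (d.zc _ (c ⟨x, a, rfl⟩)).1]
  · obtain ⟨u, hu, rfl⟩ := c hk
    rw [← map_mul, ← map_mul, commutatorElement_eq_one_iff_mul_comm.1 (i _ (commutator_le_left L ⊤
      (commutator_mem_commutator hu (mem_top s))) (by
      rw [map_commutatorElement, commutatorElement_eq_one_iff_mul_comm, (d.zc _ a).1]))]

theorem Sd.ab [Finite ι] (π : ι → S →* G) (hs : ∀ l, Surjective (π l))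
    (hi : ∀ x, (∀ l, π l x = 1) → x = 1) (f : S →* H) (L : ι → Subgroup S)
    (a : ∀ j, (L j).map (π j) = d.K) (b : ∀ j l, L j ≤ (π l).ker ∨ ∀ s, π j s ∈ Ce d.K → π l s ∈ Ce d.K)
    (c : ∀ j, L j ≤ f.ker) (x y : S) : Commute (f x) (f y) := by
  classical
  have := Fintype.ofFinite ι
  have k : ∀ I : Finset ι, ∃ x' y', f x' = f x ∧ f y' = f y ∧ ∀ l ∈ I, Commute (π l x') (π l y') := by
    intro I
    induction I using Finset.induction_on with
    | empty => exact ⟨x, y, rfl, rfl, by simp⟩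
    | insert j I _ ih =>
      obtain ⟨u, v, e1, e2, e3⟩ := ih
      obtain ⟨s, hs⟩ := hs j d.φ
      have m : ∀ u, ∃ k ∈ L j, ∃ n : ℤ, π j (k⁻¹ * u * (s ^ n)⁻¹) = 1 := fun u => by
        obtain ⟨g, hg, n, e⟩ := d.gen (π j u)
        obtain ⟨k, hk, rfl⟩ := (a j).ge hg
        exact ⟨k, hk, n, by simp [e, hs]⟩
      obtain ⟨k, k1, n, k2⟩ := m u
      obtain ⟨k', k3, n', k4⟩ := m v
      have q : ∀ l, (∀ s, π j s ∈ Ce d.K → π l s ∈ Ce d.K) → Commute (π l (k⁻¹ * u)) (π l (k'⁻¹ * v)) :=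
        fun l h => by
          have h1 := (d.zc _ (h _ (k2 ▸ one_mem _))).1
          have h2 := (d.zc _ (h _ (k4 ▸ one_mem _))).1
          rw [← inv_mul_cancel_right (k⁻¹ * u) (s ^ n), ← inv_mul_cancel_right (k'⁻¹ * v) (s ^ n'),
            map_mul _ _ (s ^ n), map_mul _ _ (s ^ n'), map_zpow, map_zpow]
          exact Commute.mul_left (h1 _).symm (Commute.mul_right (h2 _) ((Commute.refl _).zpow_zpow _ _))
      refine ⟨k⁻¹ * u, k'⁻¹ * v, by simp [e1, show f k = 1 from c j k1],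
        by simp [e2, show f k' = 1 from c j k3], fun l hl => (b j l).elim (fun h => ?_) (q l)⟩
      rcases Finset.mem_insert.1 hl with rfl | hl
      · exact q l fun _ h => h
      · simpa [show π l k = 1 from h k1, show π l k' = 1 from h k3] using e3 l hl
  obtain ⟨u, v, e1, e2, e3⟩ := k Finset.univ
  rw [← e1, ← e2]
  exact Commute.map (commutatorElement_eq_one_iff_commute.1 (hi _ fun l => by
    rw [map_commutatorElement, (e3 l (Finset.mem_univ l)).commutator_eq])) f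

instance : (Ce d.K).Normal := inferInstance

def Sd.St (H : Type) [Group H] : Prop := ∃ (ψ : H →* G ⧸ Ce d.K) (i : d.K →* H), Surjective ψ ∧
  (∀ g, ψ (i g) = g.1) ∧ ∀ h (γ : G), ψ h = γ → ∀ g g' : d.K, g'.1 = γ * g * γ⁻¹ → h * i g * h⁻¹ = i g'

theorem Sd.st (π : S →* G) (hs : Surjective π) (f : S →* H) (hf : Surjective f) (L : Subgroup S)
    [n : L.Normal] (a : L.map π = d.K) (b : ∀ t ∈ L, π t = 1 → t = 1) (c : ¬ L ≤ f.ker) : d.St H := by
  have := Normal.map (inferInstance : f.ker.Normal) π hs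
  have k : f.ker ≤ ((QuotientGroup.mk' (Ce d.K)).comp π).ker := fun x hx => (QuotientGroup.eq_one_iff _).2
    ((d.cp.dich (f.ker.map π)).resolve_left (fun e => c fun t ht => by
      obtain ⟨u, hu, e⟩ := (d.cp.pf.ge.trans ((commutator_mono a.ge e).trans
        (map_commutator L f.ker π).ge)) (a.le ⟨t, ht, rfl⟩)
      rw [← mul_inv_cancel_left u t, b (u⁻¹ * t) (L.mul_mem (L.inv_mem (commutator_le_left _ _ hu)) ht)
        (by simp [e]), mul_one]
      exact commutator_le_right _ _ hu) ⟨x, hx, rfl⟩)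
  let e : L ≃* d.K := MulEquiv.ofBijective ((π.comp L.subtype).codRestrict d.K fun x => a.le ⟨x, x.2, rfl⟩)
    ⟨(injective_iff_map_eq_one _).2 fun x h => Subtype.ext (b x x.2 (congrArg Subtype.val h)),
      fun g => (a.ge g.2).elim fun x h => ⟨⟨x, h.1⟩, Subtype.ext h.2⟩⟩
  have u : ∀ s, f.liftOfSurjective hf ⟨_, k⟩ (f s) = π s := fun s =>
    MonoidHom.liftOfRightInverse_comp_apply _ _ _ _ _
  have v : ∀ g, π (e.symm g) = g := fun g => congrArg Subtype.val (e.apply_symm_apply g)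
  refine ⟨f.liftOfSurjective hf ⟨_, k⟩, (f.comp L.subtype).comp e.symm.toMonoidHom, fun q => ?_,
    fun g => (u _).trans (congrArg _ (v g)), fun h γ r g g' w => ?_⟩
  · obtain ⟨g, rfl⟩ := QuotientGroup.mk_surjective q
    obtain ⟨s, rfl⟩ := hs g
    exact ⟨f s, u s⟩
  · obtain ⟨s, rfl⟩ := hf h
    have z := (d.zc _ (QuotientGroup.eq.1 ((u s).symm.trans r))).1 g
    obtain rfl : g' = e ⟨_, n.conj_mem _ (e.symm g).2 s⟩ := Subtype.ext (w.trans (by
      change _ = π (s * e.symm g * s⁻¹)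
      rw [map_mul, map_mul, map_inv, v, ← mul_inv_cancel_left (π s) γ, mul_assoc (π s), ← z]
      group))
    simp

def InF (G : Type) [Group G] : Cls := fun H _ => ∃ n : ℕ, ∃ S : Subgroup (Fin n → G),
  (∀ (i : Fin n) (g : G), ∃ s ∈ S, s i = g) ∧ ∃ f : S →* H, Surjective f

theorem Sd.alt [Finite G] (h : InF G H) : (∀ x y : H, x * y = y * x) ∨ d.St H := by
  obtain ⟨n, S, a, f, hf⟩ := h
  let π : Fin n → S →* G := fun l => (Pi.evalMonoidHom _ l).comp S.subtype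
  have hs : ∀ l, Surjective (π l) := fun l g => (a l g).elim fun s h => ⟨⟨s, h.1⟩, h.2⟩
  have hi : ∀ x, (∀ l, π l x = 1) → x = 1 := fun x h => Subtype.ext (funext h)
  choose L l1 l2 l3 l4 using d.comp π hs hi
  by_cases c : ∀ j, L j ≤ f.ker
  · refine Or.inl fun x y => ?_
    obtain ⟨x, rfl⟩ := hf x
    obtain ⟨y, rfl⟩ := hf y
    exact d.ab π hs hi f L l2 l4 c x y
  · obtain ⟨j, c⟩ := not_forall.1 c
    have := l1 j
    exact Or.inr (d.st (π j) (hs j) f hf (L j) (l2 j) (l3 j) c)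

theorem Sd.step {F1 F2 : Cls} [Finite G] (f1 : IsForm F1) (f2 : IsForm F2) (a : F1 H) (s : d.St H)
    (b : ∀ (R : Type) [Group R], F1 R → Nat.card R ≤ Nat.card G ^ 2 ∨ Nat.card R < Nat.card H → F2 R) :
    F2 H := by
  classical
  have := f1.1 _ a
  obtain ⟨ψ, i, s1, s2, s3⟩ := s
  have tK : ∀ g ∈ d.K, d.τ g ∈ d.K := fun g h => by simpa using d.K.mul_mem h (d.tk g)
  let t : d.K →* d.K := (d.τ.comp d.K.subtype).codRestrict _ fun g => tK g g.2
  let t' := QuotientGroup.map _ (Ce d.K) d.τ fun z h =>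
    mem_comap.2 ((d.zc z h).2.2 ▸ inv_mem h)
  have n : i.range.Normal := ⟨by
    rintro _ ⟨g, rfl⟩ h
    obtain ⟨γ, e⟩ := QuotientGroup.mk_surjective (ψ h)
    exact ⟨⟨_, d.cp.n.conj_mem _ g.2 γ⟩, (s3 h γ e.symm g _ rfl).symm⟩⟩
  have cc : ∀ c, ψ c = 1 → ∀ k ∈ i.range, c * k * c⁻¹ = k := by
    rintro c h _ ⟨g, rfl⟩
    exact s3 c 1 h g g (by simp)
  let D : Subgroup (H × H) := ((t'.comp ψ).comp (MonoidHom.fst _ _)).eqLocus (ψ.comp (MonoidHom.snd _ _)) ⊓
    ((QuotientGroup.mk' i.range).comp (MonoidHom.fst _ _)).eqLocus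
      ((QuotientGroup.mk' i.range).comp (MonoidHom.snd _ _))
  have mD : ∀ x, x ∈ D ↔ t' (ψ x.1) = ψ x.2 ∧ x.1⁻¹ * x.2 ∈ i.range := fun x =>
    and_congr Iff.rfl QuotientGroup.eq
  let p := (MonoidHom.fst _ _).comp D.subtype
  let q := (MonoidHom.snd _ _).comp D.subtype
  have hp : Surjective p := fun h => by
    obtain ⟨γ, e⟩ := QuotientGroup.mk_surjective (ψ h)
    exact ⟨⟨(h, h * i ⟨_, d.tk γ⟩), (mD _).2 ⟨by simp [s2, ← e, t'], by simp⟩⟩, rfl⟩
  have hq : Surjective q := fun h => by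
    obtain ⟨γ, e⟩ := QuotientGroup.mk_surjective (ψ h)
    obtain ⟨γ, rfl⟩ := d.ts γ
    exact ⟨⟨(h * (i ⟨_, d.tk γ⟩)⁻¹, h), (mD _).2 ⟨by simp [s2, ← e, t'], by simp⟩⟩, rfl⟩
  have hD : F1 D := sub2 f1 p hp q hq (MonoidHom.id _) surjective_id
    (fun x u v => Subtype.ext (Prod.ext u v)) a a
  let A : Subgroup D := p.eqLocus q ⊓ (ψ.comp p).ker
  have : A.Normal := ⟨fun x hx y => ⟨by
    have e : p x = q x := hx.1
    have := cc _ hx.2 _ ((mD _).1 y.2).2
    change p y * p x * (p y)⁻¹ = q y * q x * (q y)⁻¹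
    rw [← e, ← mul_inv_cancel_left (p y) (q y), mul_assoc (p y) _ (p x),
      show (p y)⁻¹ * q y * p x = p x * ((p y)⁻¹ * q y) from (eq_mul_of_mul_inv_eq this).symm]
    group, (inferInstance : (ψ.comp p).ker.Normal).conj_mem _ hx.2 y⟩⟩
  let β : d.K →* D := (i.prod (i.comp t)).codRestrict D fun g => (mD _).2 ⟨by simp [s2, t, t'], by
    exact i.range.mul_mem (i.range.inv_mem ⟨_, rfl⟩) ⟨_, rfl⟩⟩
  have : β.range.Normal := ⟨by
    rintro _ ⟨g, rfl⟩ y
    obtain ⟨γ, e⟩ := QuotientGroup.mk_surjective (ψ y.1.1)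
    exact ⟨⟨_, d.cp.n.conj_mem _ g.2 γ⟩, Subtype.ext (Prod.ext (s3 _ γ e.symm g _ rfl).symm
      (s3 _ (d.τ γ) (((mD _).1 y.2).1.symm.trans (by rw [← e]; rfl)) (t g) _ (by simp [t])).symm)⟩⟩
  refine surj f2 p hp (f2.2.2.2 D A β.range (eq_bot_iff.2 ?_) (b _ (f1.2.2.1 _ _ hD) (Or.inl ?_))
    (b _ (f1.2.2.1 _ _ hD) (Or.inr ?_)))
  · rintro _ ⟨⟨e, c⟩, g, rfl⟩
    have z := d.zc _ ((QuotientGroup.eq_one_iff _).1 ((s2 g).symm.trans c))
    have e : i g = i (t g) := e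
    have e2 : i (t g) = (i g)⁻¹ := by rw [← map_inv]; exact congrArg i (Subtype.ext z.2.2)
    have e3 : i g ^ 3 = 1 := by rw [← map_pow, show g ^ 3 = 1 from Subtype.ext z.2.1, map_one]
    have : i g = 1 := by
      rw [← e3, pow_three, mul_eq_one_iff_eq_inv.2 (e.trans e2), mul_one]
    exact Subtype.ext (Prod.ext this (e.symm.trans this))
  · rw [sq, ← Nat.card_prod]
    refine (Nat.card_le_card_of_injective (fun x : D ⧸ A => (ψ (p x.out), (⟨_, ((mD _).1 x.out.2).2⟩ :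
      i.range))) fun x y e => ?_).trans (Nat.card_le_card_of_surjective (Prod.map QuotientGroup.mk
        fun g => if h : g ∈ d.K then i.rangeRestrict ⟨g, h⟩ else 1) (Surjective.prodMap
          QuotientGroup.mk_surjective fun k => (i.rangeRestrict_surjective k).elim fun g e =>
            ⟨g, by simpa using e⟩))
    have e1 : ψ (p x.out) = ψ (p y.out) := congrArg Prod.fst e
    have e2 : (p x.out)⁻¹ * q x.out = (p y.out)⁻¹ * q y.out := congrArg (fun u => u.2.1) e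
    have e3 : ψ ((p x.out)⁻¹ * p y.out) = 1 := by simp [e1]
    have e4 := cc _ e3 _ ((mD _).1 y.out.2).2
    rw [← x.out_eq, ← y.out_eq]
    refine QuotientGroup.eq.2 ⟨?_, by simpa using e3⟩
    change (p x.out)⁻¹ * p y.out = (q x.out)⁻¹ * q y.out
    change _ * ((p y.out)⁻¹ * q y.out) * _ = (p y.out)⁻¹ * q y.out at e4
    rw [← mul_inv_cancel_left (p x.out) (q x.out), e2, ← e4]
    group
  · have h1 := p.ker.card_mul_index
    have h2 := β.range.card_mul_index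
    rw [index_ker, MonoidHom.range_eq_top.2 hp, card_top] at h1
    have h3 : Nat.card p.ker < Nat.card β.range := calc
      _ ≤ Nat.card ↥(i.range ⊓ ψ.ker) := Nat.card_le_card_of_injective (fun x : p.ker => ⟨q x, by
          have := (mD _).1 x.1.2
          have e : x.1.1.1 = 1 := x.2
          rw [e, inv_one, one_mul, map_one, map_one] at this
          exact ⟨this.2, this.1.symm⟩⟩) fun x y e => Subtype.ext (Subtype.ext (Prod.ext
            ((show p x = 1 from x.2).trans (show p y = 1 from y.2).symm) (congrArg Subtype.val e)))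
      _ < Nat.card i.range := Set.ncard_lt_ncard (show i.range ⊓ ψ.ker < i.range from
          inf_le_left.lt_of_ne fun e => d.cp.nab fun g hg => (QuotientGroup.eq_one_iff _).1
            ((s2 ⟨g, hg⟩).symm.trans ((inf_eq_left.1 e) ⟨_, rfl⟩)))
      _ ≤ _ := Nat.card_le_card_of_surjective (fun x : β.range => ⟨p x, x.2.elim fun g e => ⟨g, by rw [← e]; rfl⟩⟩)
          (by rintro ⟨_, g, rfl⟩; exact ⟨⟨β g, g, rfl⟩, rfl⟩)
    exact Nat.lt_of_mul_lt_mul_left (a := Nat.card β.range) ((h2.trans h1.symm).trans_lt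
      (Nat.mul_lt_mul_of_pos_right h3 Nat.card_pos))

theorem InF.fin [Finite G] (h : InF G H) : Finite H ∧ ∀ x : H, x ^ Nat.card G = 1 := by
  obtain ⟨n, S, -, f, hf⟩ := h
  refine ⟨Finite.of_surjective f hf, fun x => ?_⟩
  obtain ⟨s, rfl⟩ := hf x
  rw [← map_pow, show s ^ Nat.card G = 1 from Subtype.ext (funext fun _ => pow_card_eq_one'), map_one]

include d in
theorem Sd.key {F1 F2 : Cls} [Finite G] (f1 : IsForm F1) (f2 : IsForm F2) (l : Le F1 (InF G))
    (b : ∀ (R : Type) [Group R], F1 R → Nat.card R ≤ Nat.card G ^ 2 → F2 R) (a : F1 H) : F2 H := by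
  induction hn : Nat.card H using Nat.strong_induction_on generalizing H with | _ n ih =>
  obtain ⟨_, e⟩ := (l H a).fin
  have p : 0 < Nat.card G := Nat.card_pos
  refine (d.alt (l H a)).elim (fun c => ?_) fun s => d.step f1 f2 a s fun R _ u v =>
    v.elim (b R u) fun v => ih _ (hn ▸ v) u rfl
  let _ : CommGroup H := { ‹Group H› with mul_comm := c }
  have : NeZero (Nat.card G) := ⟨p.ne'⟩
  refine sub_pi ⟨f2, b _ (triv_mem f1 a) (Nat.card_unique.trans_le (Nat.pow_pos p))⟩ (fun χ : H →* ℂˣ => χ)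
    (fun χ => b _ (surj f1 _ χ.rangeRestrict_surjective a) (((card_le_of_le ?_).trans
      (card_rootsOfUnity ℂ (Nat.card G))).trans (Nat.le_self_pow two_ne_zero _))) fun x h => ?_
  · rintro _ ⟨x, rfl⟩
    rw [mem_rootsOfUnity, ← map_pow, e, map_one]
  · by_contra n
    obtain ⟨χ, h'⟩ := CommGroup.exists_apply_ne_one_of_hasEnoughRootsOfUnity H ℂ n
    exact h' (h χ)

include d in
theorem Sd.fin [Finite G] : {F : Cls | IsForm F ∧ Le F (InF G)}.Finite := by
  have : ∀ n, Finite (Group (Fin n)) := fun n => Finite.of_injective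
    (fun g : Group (Fin n) => g.mul) fun _ _ h => Group.ext h
  have k : ∀ F1 F2 : Cls, IsForm F1 ∧ Le F1 (InF G) → IsForm F2 → (∀ (n : Fin (Nat.card G ^ 2 + 1))
      (g : Group (Fin n)), @F1 _ g → @F2 _ g) → Le F1 F2 := fun F1 F2 a b c H _ =>
    d.key a.1 b a.2 fun R _ u v => by
      have := a.1.1 R u
      let e := Finite.equivFin R
      have φ : @MulEquiv _ R e.symm.mul _ := e.symm.mulEquiv
      exact @b.2.1 _ _ e.symm.group _ ⟨φ⟩ (c ⟨_, Nat.lt_succ_of_le v⟩ _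
        (@a.1.2.1 _ _ _ e.symm.group ⟨@MulEquiv.symm _ _ e.symm.mul _ φ⟩ u))
  refine Set.Finite.of_finite_image (f := fun F (n : Fin (Nat.card G ^ 2 + 1)) (g : Group (Fin n)) =>
    @F _ g) (Set.toFinite _) fun A a B b e => cls_ext (k A B a b.1 fun n g => (congrFun₂ e n g).mp)
      (k B A b a.1 fun n g => (congrFun₂ e n g).mpr)

theorem Sd.simp : IsSimpleGroup (d.K ⧸ (Ce d.K).subgroupOf d.K) ∧
    ¬ ∀ a b : d.K ⧸ (Ce d.K).subgroupOf d.K, a * b = b * a := by
  have n : ¬ ∀ a b : d.K ⧸ (Ce d.K).subgroupOf d.K, a * b = b * a := fun h =>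
    d.cp.nab (d.cp.pf.ge.trans (commutator_le.2 fun x a y b => (QuotientGroup.eq_one_iff
      (N := (Ce d.K).subgroupOf d.K) ⁅(⟨x, a⟩ : d.K), ⟨y, b⟩⁆).1
        (commutatorElement_eq_one_iff_mul_comm.2 (h (.mk _ ⟨x, a⟩) (.mk _ ⟨y, b⟩)))))
  have : Nontrivial (d.K ⧸ (Ce d.K).subgroupOf d.K) := not_subsingleton_iff_nontrivial.1
    fun _ => n fun _ _ => Subsingleton.elim _ _
  refine ⟨⟨fun N _ => ((d.cp.qs ((N.comap (QuotientGroup.mk' _)).map d.K.subtype) (map_subtype_le _)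
    (commutator_le.2 ?_)).imp (fun e => top_le_iff.1 fun x _ => ?_) fun e => le_bot_iff.1
      fun x hx => ?_).symm⟩, n⟩
  · rintro _ ⟨x, a, rfl⟩ y b
    exact ⟨⁅x, ⟨y, b⟩⁆, commutator_le_left _ ⊤ (commutator_mem_commutator a (mem_top _)), rfl⟩
  · obtain ⟨x, rfl⟩ := QuotientGroup.mk_surjective x
    obtain ⟨y, a, b⟩ := e.ge x.2
    exact (Subtype.ext b : y = x) ▸ a
  · obtain ⟨x, rfl⟩ := QuotientGroup.mk_surjective x
    exact (QuotientGroup.eq_one_iff x).2 (e ⟨x, hx, rfl⟩)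

theorem Sd.uniq [Finite G] (c : Nat.card (Ce d.K) = 3) (i : d.K.index = 3) (A B : Subgroup G)
    [n : (A.subgroupOf B).Normal] [B.Normal] (l : A ≤ B) (a : IsSimpleGroup A)
    (b : IsSimpleGroup (B ⧸ A.subgroupOf B)) (g : IsSimpleGroup (G ⧸ B)) : A = Ce d.K ∧ B = d.K := by
  have t : B ≠ ⊤ := QuotientGroup.nontrivial_iff.1 inferInstance
  have u : d.K ≤ B := (d.cp.dich B).resolve_right fun e => ((d.cp.n.map _
    (QuotientGroup.mk'_surjective B)).eq_bot_or_eq_top).elim (fun h => d.cp.nab (le_trans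
      (by simpa using (Subgroup.map_eq_bot_iff _).1 h) e)) fun h => by
      have := congrArg (comap (QuotientGroup.mk' B)) h
      rw [comap_map_eq, QuotientGroup.ker_mk', sup_eq_left.2 (e.trans d.le), comap_top] at this
      simp [this] at i
  have v := relIndex_mul_index u
  obtain rfl : B = d.K := le_antisymm (relIndex_eq_one.1 (((Nat.dvd_prime Nat.prime_three).1
    (i ▸ index_dvd_of_le u)).elim (fun e => absurd (index_eq_one.1 e) t) fun e => by
      rw [e, i] at v; omega)) u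
  refine ⟨(d.cp.qs A l (commutator_le.2 fun x hx y hy => commutator_le_left (A.subgroupOf d.K) ⊤
    (commutator_mem_commutator (show (⟨x, l hx⟩ : d.K) ∈ _ from hx) (mem_top ⟨y, hy⟩)))).elim
    (fun e => absurd (subgroupOf_eq_top.2 e.ge) (QuotientGroup.nontrivial_iff.1 inferInstance))
    fun e => eq_of_le_of_card_ge e (c ▸ ?_), rfl⟩
  exact (((Nat.dvd_prime Nat.prime_three).1 (c ▸ card_dvd_of_le e)).resolve_left
    Finite.one_lt_card.ne').ge

end Pool.Agent.H22.Comp
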