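import Mathlib

set_option autoImplicit false

universe u

namespace Pool.Agent.H22.SupEmbed

section Aut

/-- Order automorphisms of a chain, with the pointwise order. -/
def Aut (T : Type u) [LinearOrder T] : Type u := T ≃o T

variable {T : Type u} [LinearOrder T]

instance : Group (Aut T) := inferInstanceAs (Group (T ≃o T))

def Aut.app (f : Aut T) : T ≃o T := f

theorem Aut.mul_app (f g : Aut T) (x : T) : (f * g).app x = f.app (g.app x) := rfl

noncomputable def Aut.sup (f g : Aut T) : Aut T :=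
  StrictMono.orderIsoOfSurjective (fun x => max (f.app x) (g.app x))
    (fun _ _ h => max_lt_max (f.app.strictMono h) (g.app.strictMono h))
    (fun y => ⟨min (f.app.symm y) (g.app.symm y), by
      rcases le_total (f.app.symm y) (g.app.symm y) with h | h
      · rw [min_eq_left h]
        have := g.app.monotone h
        simp only [OrderIso.apply_symm_apply] at this ⊢
        exact max_eq_left this
      · rw [min_eq_right h]
        have := f.app.monotone h
        simp only [OrderIso.apply_symm_apply] at this ⊢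
        exact max_eq_right this⟩)

noncomputable def Aut.inf (f g : Aut T) : Aut T :=
  StrictMono.orderIsoOfSurjective (fun x => min (f.app x) (g.app x))
    (fun _ _ h => min_lt_min (f.app.strictMono h) (g.app.strictMono h))
    (fun y => ⟨max (f.app.symm y) (g.app.symm y), by
      rcases le_total (f.app.symm y) (g.app.symm y) with h | h
      · rw [max_eq_right h]
        have := f.app.monotone h
        simp only [OrderIso.apply_symm_apply] at this ⊢
        exact min_eq_right this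
      · rw [max_eq_left h]
        have := g.app.monotone h
        simp only [OrderIso.apply_symm_apply] at this ⊢
        exact min_eq_left this⟩)

noncomputable instance : Lattice (Aut T) where
  le f g := ∀ x, f.app x ≤ g.app x
  le_refl _ _ := le_rfl
  le_trans _ _ _ h k x := (h x).trans (k x)
  le_antisymm _ _ h k := OrderIso.ext (funext fun x => le_antisymm (h x) (k x))
  sup := Aut.sup
  inf := Aut.inf
  le_sup_left _ _ _ := le_max_left _ _
  le_sup_right _ _ _ := le_max_right _ _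
  sup_le _ _ _ h k x := max_le (h x) (k x)
  inf_le_left _ _ _ := min_le_left _ _
  inf_le_right _ _ _ := min_le_right _ _
  le_inf _ _ _ h k x := le_min (h x) (k x)

theorem Aut.le_iff (f g : Aut T) : f ≤ g ↔ ∀ x, f.app x ≤ g.app x := Iff.rfl

instance : MulLeftMono (Aut T) := ⟨fun a _ _ h x => a.app.monotone (h x)⟩
instance : MulRightMono (Aut T) := ⟨fun a _ _ h x => h (a.app x)⟩

instance piL {I : Type u} {T : I → Type u} [∀ i, LinearOrder (T i)] :
    MulLeftMono (∀ i, Aut (T i)) := ⟨fun a _ _ h r => mul_le_mul_right (h r) (a r)⟩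
instance piR {I : Type u} {T : I → Type u} [∀ i, LinearOrder (T i)] :
    MulRightMono (∀ i, Aut (T i)) := ⟨fun a _ _ h r => mul_le_mul_left (h r) (a r)⟩

end Aut

section Embed

variable {G : Type u} [Group G]

/-- A copy of `G` carrying the left order associated with a right order. -/
def Cp (_r : LinearOrder G) : Type u := G

def Cp.val {r : LinearOrder G} (a : Cp r) : G := a

noncomputable instance (r : LinearOrder G) : LinearOrder (Cp r) :=
  @LinearOrder.lift' (Cp r) Gᵒᵈ (@OrderDual.instLinearOrder G r)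
    (fun a => OrderDual.toDual (a.val)⁻¹) (fun a b h => @inv_injective G _ a.val b.val h)

theorem Cp.le_iff {r : LinearOrder G} (a b : Cp r) : a ≤ b ↔ r.le (b.val)⁻¹ (a.val)⁻¹ := Iff.rfl

noncomputable def lam (r : LinearOrder G) (hr : ∀ a b c : G, r.le a b → r.le (a * c) (b * c)) :
    G →* Aut (Cp r) where
  toFun g :=
    ({ toEquiv := (Equiv.mulLeft g : G ≃ G)
       map_rel_iff' := by
        intro a b
        show r.le (g * b.val)⁻¹ (g * a.val)⁻¹ ↔ r.le (b.val)⁻¹ (a.val)⁻¹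
        rw [mul_inv_rev, mul_inv_rev]
        refine ⟨fun h => ?_, fun h => hr _ _ _ h⟩
        simpa using hr _ _ g h } : Cp r ≃o Cp r)
  map_one' := OrderIso.ext (funext fun a => one_mul a.val)
  map_mul' g h := OrderIso.ext (funext fun a => mul_assoc g h a.val)

theorem exists_embed [PartialOrder G] [MulLeftMono G] [MulRightMono G] (R : Set (LinearOrder G))
    (hR : ∀ r ∈ R, ∀ a b c : G, r.le a b → r.le (a * c) (b * c))
    (hint : ∀ a b : G, a ≤ b ↔ ∀ r ∈ R, r.le a b) :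
    ∃ φ : G →* (∀ r : R, Aut (Cp r.1)), ∀ a b, a ≤ b ↔ φ a ≤ φ b := by
  refine ⟨MonoidHom.pi fun r => lam r.1 (hR r.1 r.2), fun a b => ⟨fun h r x => ?_, fun h => ?_⟩⟩
  · show r.1.le (b * x.val)⁻¹ (a * x.val)⁻¹
    exact (hint _ _).1 (inv_le_inv_iff.2 (mul_le_mul_left h _)) r.1 r.2
  · rw [← inv_le_inv_iff, hint]
    intro r hr
    have := h ⟨r, hr⟩ (1 : G)
    have h2 : r.le (b * 1)⁻¹ (a * 1)⁻¹ := this
    simpa using h2

end Embed

section Main

variable {G : Type u} [Group G] [PartialOrder G] [MulLeftMono G] [MulRightMono G]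
variable {F : Type u} [Group F] [Lattice F] [MulLeftMono F] [MulRightMono F]
variable (φ : G →* F)

structure Good (M : Set F) : Prop where
  one : (1 : F) ∈ M
  pos : ∀ m ∈ M, 1 ≤ m
  mul : ∀ a ∈ M, ∀ b ∈ M, a * b ∈ M
  conj : ∀ g : G, ∀ m ∈ M, (φ g)⁻¹ * m * φ g ∈ M
  small : ∀ x : G, ∀ m ∈ M, φ x ≤ m → x ≤ 1

def Theta (M : Set F) : Set F :=
  {w | 1 ≤ w ∧ ∃ T : Set G, IsGLB T 1 ∧ ∀ t ∈ T, ∃ m ∈ M, w ≤ φ t * m}

theorem Good.le {M : Set F} (h : Good φ M) {x y : G} {m : F} (hm : m ∈ M)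
    (hxy : φ x ≤ φ y * m) : x ≤ y := by
  have := h.small (y⁻¹ * x) m hm (by rw [map_mul, map_inv]; exact inv_mul_le_iff_le_mul.2 hxy)
  simpa using this

theorem sub_Theta {M : Set F} (h : Good φ M) : M ⊆ Theta φ M := fun m hm =>
  ⟨h.pos m hm, {1}, isGLB_singleton, by
    rintro t rfl
    exact ⟨m, hm, by simp⟩⟩

theorem good_Theta {M : Set F} (h : Good φ M) : Good φ (Theta φ M) where
  one := sub_Theta φ h h.one
  pos m hm := hm.1
  mul := by
    rintro a ⟨a1, S, hS, ha⟩ b ⟨b1, T, hT, hb⟩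
    refine ⟨one_le_mul a1 b1, {z | ∃ s ∈ S, ∃ t ∈ T, z = s * t}, ⟨?_, ?_⟩, ?_⟩
    · rintro z ⟨s, hs, t, ht, rfl⟩
      exact one_le_mul (hS.1 hs) (hT.1 ht)
    · intro y hy
      refine hS.2 fun s hs => ?_
      have : s⁻¹ * y ≤ 1 := hT.2 fun t ht => inv_mul_le_iff_le_mul.2 (hy ⟨s, hs, t, ht, rfl⟩)
      simpa using this
    · rintro z ⟨s, hs, t, ht, rfl⟩
      obtain ⟨m, hm, h1⟩ := ha s hs
      obtain ⟨n, hn, h2⟩ := hb t ht
      refine ⟨_, h.mul _ (h.conj t m hm) n hn, (mul_le_mul' h1 h2).trans_eq ?_⟩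
      rw [map_mul]; group
  conj := by
    rintro g w ⟨w1, T, hT, hw⟩
    refine ⟨?_, {z | ∃ t ∈ T, z = g⁻¹ * t * g}, ⟨?_, ?_⟩, ?_⟩
    · have := mul_le_mul_left (mul_le_mul_right w1 (φ g)⁻¹) (φ g)
      simpa using this
    · rintro z ⟨t, ht, rfl⟩
      have := mul_le_mul_left (mul_le_mul_right (hT.1 ht) g⁻¹) g
      simpa using this
    · intro y hy
      have : g * y * g⁻¹ ≤ 1 := hT.2 fun t ht => by
        have := mul_le_mul_left (mul_le_mul_right (hy ⟨t, ht, rfl⟩) g) g⁻¹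
        simpa [mul_assoc] using this
      have := mul_le_mul_left (mul_le_mul_right this g⁻¹) g
      simpa [mul_assoc] using this
    · rintro z ⟨t, ht, rfl⟩
      obtain ⟨m, hm, h1⟩ := hw t ht
      refine ⟨_, h.conj g m hm,
        (mul_le_mul_left (mul_le_mul_right h1 (φ g)⁻¹) (φ g)).trans_eq ?_⟩
      rw [map_mul, map_mul, map_inv]; group
  small := by
    rintro x w ⟨_, T, hT, hw⟩ hx
    refine hT.2 fun t ht => ?_
    obtain ⟨m, hm, h1⟩ := hw t ht
    exact h.le φ hm (hx.trans h1)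

theorem exists_fixed (hφ : ∀ a b, a ≤ b ↔ φ a ≤ φ b) :
    ∃ M : Set F, Good φ M ∧ Theta φ M ⊆ M := by
  have h0 : Good φ {1} :=
    { one := rfl
      pos := by rintro m rfl; exact le_rfl
      mul := by rintro a rfl b rfl; simp
      conj := by rintro g m rfl; simp
      small := by rintro x m rfl hx; exact (hφ x 1).2 (by simpa using hx) }
  obtain ⟨M, _, hM⟩ := zorn_subset_nonempty {M | Good φ M} (fun c hc hch hne => by
    refine ⟨⋃₀ c, ?_, fun s hs => Set.subset_sUnion_of_mem hs⟩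
    obtain ⟨s0, hs0⟩ := hne
    exact
      { one := ⟨s0, hs0, (hc hs0).one⟩
        pos := fun m ⟨s, hs, hm⟩ => (hc hs).pos m hm
        mul := fun a ⟨s, hs, ha⟩ b ⟨t, ht, hb⟩ => by
          rcases hch.total hs ht with h | h
          · exact ⟨t, ht, (hc ht).mul a (h ha) b hb⟩
          · exact ⟨s, hs, (hc hs).mul a ha b (h hb)⟩
        conj := fun g m ⟨s, hs, hm⟩ => ⟨s, hs, (hc hs).conj g m hm⟩
        small := fun x m ⟨s, hs, hm⟩ => (hc hs).small x m hm }) {1} h0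
  exact ⟨M, hM.1, hM.2 (good_Theta φ hM.1) (sub_Theta φ hM.1)⟩

variable {φ} {M : Set F} (hM : Good φ M)

/-- Elements normalising `M` up to the order. -/
def Nrm : Subgroup F where
  carrier := {c | ∀ m ∈ M, (∃ n ∈ M, c⁻¹ * m * c ≤ n) ∧ (∃ n ∈ M, c * m * c⁻¹ ≤ n)}
  one_mem' m hm := ⟨⟨m, hm, by simp⟩, ⟨m, hm, by simp⟩⟩
  mul_mem' := by
    intro c d hc hd m hm
    constructor
    · obtain ⟨n, hn, h1⟩ := (hc m hm).1
      obtain ⟨k, hk, h2⟩ := (hd n hn).1
      refine ⟨k, hk, le_trans ?_ h2⟩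
      have := mul_le_mul_left (mul_le_mul_right h1 d⁻¹) d
      simpa [mul_assoc] using this
    · obtain ⟨n, hn, h1⟩ := (hd m hm).2
      obtain ⟨k, hk, h2⟩ := (hc n hn).2
      refine ⟨k, hk, le_trans ?_ h2⟩
      have := mul_le_mul_left (mul_le_mul_right h1 c) c⁻¹
      simpa [mul_assoc] using this
  inv_mem' := by
    intro c hc m hm
    simpa using (hc m hm).symm

include hM

theorem le_mul_l {a b : F} (hb : b ∈ M) : a ≤ a * b := le_mul_of_one_le_right' (hM.pos b hb)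
theorem le_mul_r {a b : F} (hb : b ∈ M) : a ≤ b * a := le_mul_of_one_le_left' (hM.pos b hb)

theorem sup_mem {a b : F} (ha : a ∈ Nrm (M := M)) (hb : b ∈ Nrm (M := M)) :
    a ⊔ b ∈ Nrm (M := M) := by
  intro m hm
  constructor
  · obtain ⟨n, hn, h1⟩ := (ha m hm).1
    obtain ⟨k, hk, h2⟩ := (hb m hm).1
    refine ⟨n * k, hM.mul _ hn _ hk, ?_⟩
    rw [mul_sup]
    refine sup_le (le_trans ?_ (h1.trans (le_mul_l hM hk)))
      (le_trans ?_ (h2.trans (le_mul_r hM hn)))
    · exact mul_le_mul_left (mul_le_mul_left (inv_le_inv_iff.2 le_sup_left) _) _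
    · exact mul_le_mul_left (mul_le_mul_left (inv_le_inv_iff.2 le_sup_right) _) _
  · obtain ⟨n, hn, h1⟩ := (ha m hm).2
    obtain ⟨k, hk, h2⟩ := (hb m hm).2
    refine ⟨n * k, hM.mul _ hn _ hk, ?_⟩
    rw [sup_mul, sup_mul]
    refine sup_le (le_trans ?_ (h1.trans (le_mul_l hM hk)))
      (le_trans ?_ (h2.trans (le_mul_r hM hn)))
    · exact mul_le_mul_right (inv_le_inv_iff.2 le_sup_left) _
    · exact mul_le_mul_right (inv_le_inv_iff.2 le_sup_right) _

theorem inf_mem {a b : F} (ha : a ∈ Nrm (M := M)) (hb : b ∈ Nrm (M := M)) :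
    a ⊓ b ∈ Nrm (M := M) := by
  have := (Nrm (M := M)).inv_mem (sup_mem hM ((Nrm (M := M)).inv_mem ha) ((Nrm (M := M)).inv_mem hb))
  rwa [inv_sup, inv_inv, inv_inv] at this

theorem φ_mem (g : G) : φ g ∈ Nrm (M := M) := fun m hm =>
  ⟨⟨_, hM.conj g m hm, le_rfl⟩, ⟨_, hM.conj g⁻¹ m hm, by simp⟩⟩

omit hM in
def Le (a b : Nrm (M := M)) : Prop := ∃ m ∈ M, (a : F) ≤ b * m

theorem Le.refl (a : Nrm (M := M)) : Le a a := ⟨1, hM.one, by simp⟩

theorem Le.trans {a b c : Nrm (M := M)} (h : Le a b) (k : Le b c) : Le a c := by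
  obtain ⟨m, hm, h1⟩ := h
  obtain ⟨n, hn, h2⟩ := k
  exact ⟨n * m, hM.mul _ hn _ hm, h1.trans (by rw [← mul_assoc]; exact mul_le_mul_left h2 _)⟩

omit hM in
theorem Le.mul_left {a b : Nrm (M := M)} (c : Nrm (M := M)) (h : Le a b) : Le (c * a) (c * b) := by
  obtain ⟨m, hm, h1⟩ := h
  refine ⟨m, hm, ?_⟩
  rw [Subgroup.coe_mul, Subgroup.coe_mul, mul_assoc]
  exact mul_le_mul_right h1 _

omit hM in
theorem Le.mul_right {a b : Nrm (M := M)} (c : Nrm (M := M)) (h : Le a b) :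
    Le (a * c) (b * c) := by
  obtain ⟨m, hm, h1⟩ := h
  obtain ⟨n, hn, h2⟩ := (c.2 m hm).1
  refine ⟨n, hn, ?_⟩
  rw [Subgroup.coe_mul, Subgroup.coe_mul]
  calc (a : F) * c ≤ b * m * c := mul_le_mul_left h1 _
    _ = b * c * ((c : F)⁻¹ * m * c) := by group
    _ ≤ b * c * n := mul_le_mul_right h2 _

def con : Con (Nrm (M := M)) where
  r a b := Le a b ∧ Le b a
  iseqv := ⟨fun a => ⟨Le.refl hM a, Le.refl hM a⟩, fun h => h.symm,
    fun h k => ⟨h.1.trans hM k.1, k.2.trans hM h.2⟩⟩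
  mul' h k := ⟨(h.1.mul_right _).trans hM (k.1.mul_left _), (h.2.mul_right _).trans hM (k.2.mul_left _)⟩

/-- The quotient lattice-ordered group. -/
def H : Type u := (con hM).Quotient

instance : Group (H hM) := inferInstanceAs (Group (con hM).Quotient)

def mkH : Nrm (M := M) →* H hM := (con hM).mk'

theorem mkH_surj : Function.Surjective (mkH hM) := Con.mk'_surjective

theorem mkH_eq (a b : Nrm (M := M)) : mkH hM a = mkH hM b ↔ Le a b ∧ Le b a := Con.eq _

noncomputable def out (x : H hM) : Nrm (M := M) := (mkH_surj hM x).choose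

theorem mk_out (x : H hM) : mkH hM (out hM x) = x := (mkH_surj hM x).choose_spec

theorem out_mk (a : Nrm (M := M)) : Le (out hM (mkH hM a)) a ∧ Le a (out hM (mkH hM a)) :=
  (mkH_eq hM _ _).1 (mk_out hM _)

noncomputable instance : Lattice (H hM) where
  le x y := Le (out hM x) (out hM y)
  le_refl x := Le.refl hM _
  le_trans _ _ _ h k := h.trans hM k
  le_antisymm x y h k := by rw [← mk_out hM x, ← mk_out hM y]; exact (mkH_eq hM _ _).2 ⟨h, k⟩
  sup x y := mkH hM ⟨(out hM x : F) ⊔ out hM y, sup_mem hM (out hM x).2 (out hM y).2⟩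
  inf x y := mkH hM ⟨(out hM x : F) ⊓ out hM y, inf_mem hM (out hM x).2 (out hM y).2⟩
  le_sup_left x y := Le.trans hM ⟨1, hM.one, by simp⟩ (out_mk hM _).2
  le_sup_right x y := Le.trans hM ⟨1, hM.one, by simp⟩ (out_mk hM _).2
  sup_le x y z h k := (out_mk hM _).1.trans hM (by
    obtain ⟨m, hm, h1⟩ := h
    obtain ⟨n, hn, h2⟩ := k
    exact ⟨m * n, hM.mul _ hm _ hn, sup_le (h1.trans (mul_le_mul_right (le_mul_l hM hn) _))
      (h2.trans (mul_le_mul_right (le_mul_r hM hm) _))⟩)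
  inf_le_left x y := (out_mk hM _).1.trans hM ⟨1, hM.one, by simp⟩
  inf_le_right x y := (out_mk hM _).1.trans hM ⟨1, hM.one, by simp⟩
  le_inf x y z h k := Le.trans hM (by
    obtain ⟨m, hm, h1⟩ := h
    obtain ⟨n, hn, h2⟩ := k
    refine ⟨m * n, hM.mul _ hm _ hn, ?_⟩
    show _ ≤ ((out hM y : F) ⊓ out hM z) * (m * n)
    rw [inf_mul]
    exact le_inf (h1.trans (mul_le_mul_right (le_mul_l hM hn) _))
      (h2.trans (mul_le_mul_right (le_mul_r hM hm) _))) (out_mk hM _).2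

theorem mk_le (a b : Nrm (M := M)) : mkH hM a ≤ mkH hM b ↔ Le a b :=
  ⟨fun h => ((out_mk hM a).2.trans hM h).trans hM (out_mk hM b).1,
    fun h => ((out_mk hM a).1.trans hM h).trans hM (out_mk hM b).2⟩

instance : MulLeftMono (H hM) := ⟨fun a b c h => by
  obtain ⟨a, rfl⟩ := mkH_surj hM a
  obtain ⟨b, rfl⟩ := mkH_surj hM b
  obtain ⟨c, rfl⟩ := mkH_surj hM c
  rw [← map_mul, ← map_mul, mk_le]
  exact ((mk_le hM _ _).1 h).mul_left _⟩

instance : MulRightMono (H hM) := ⟨fun a b c h => by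
  obtain ⟨a, rfl⟩ := mkH_surj hM a
  obtain ⟨b, rfl⟩ := mkH_surj hM b
  obtain ⟨c, rfl⟩ := mkH_surj hM c
  show mkH hM b * mkH hM a ≤ mkH hM c * mkH hM a
  rw [← map_mul, ← map_mul, mk_le]
  exact ((mk_le hM _ _).1 h).mul_right _⟩

def ψ : G →* H hM := (mkH hM).comp (φ.codRestrict _ (φ_mem hM))

theorem ψ_le (hφ : ∀ a b, a ≤ b ↔ φ a ≤ φ b) (a b : G) : a ≤ b ↔ ψ hM a ≤ ψ hM b := by
  refine Iff.trans ?_ (mk_le hM _ _).symm
  constructor
  · intro h; exact ⟨1, hM.one, by simpa using (hφ a b).1 h⟩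
  · rintro ⟨m, hm, h⟩; exact hM.le φ hm h

theorem ψ_glb (hφ : ∀ a b, a ≤ b ↔ φ a ≤ φ b) (hT : Theta φ M ⊆ M) (S : Set G) (s : G)
    (hs : IsGLB S s) : IsGLB (ψ hM '' S) (ψ hM s) := by
  constructor
  · rintro _ ⟨t, ht, rfl⟩
    exact (ψ_le hM hφ _ _).1 (hs.1 ht)
  · intro c hc
    obtain ⟨c, rfl⟩ := mkH_surj hM c
    refine (mk_le hM _ _).2 ⟨((φ s)⁻¹ * c) ⊔ 1, hT ⟨le_sup_right,
      {z | ∃ t ∈ S, z = s⁻¹ * t}, ⟨?_, ?_⟩, ?_⟩, ?_⟩
    · rintro z ⟨t, ht, rfl⟩
      simpa using hs.1 ht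
    · intro y hy
      have : s * y ≤ s := hs.2 fun t ht => le_inv_mul_iff_mul_le.1 (hy ⟨t, ht, rfl⟩)
      simpa using this
    · rintro z ⟨t, ht, rfl⟩
      obtain ⟨m, hm, h1⟩ := (mk_le hM _ _).1 (hc ⟨t, ht, rfl⟩)
      refine ⟨m, hm, sup_le ?_ (one_le_mul ?_ (hM.pos m hm))⟩
      · rw [map_mul, map_inv, mul_assoc]
        exact mul_le_mul_right h1 _
      · have := (hφ 1 (s⁻¹ * t)).1 (by simpa using hs.1 ht)
        simpa using this
    · show (c : F) ≤ φ s * (((φ s)⁻¹ * c) ⊔ 1)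
      exact inv_mul_le_iff_le_mul.1 le_sup_left

theorem ψ_lub (hφ : ∀ a b, a ≤ b ↔ φ a ≤ φ b) (hT : Theta φ M ⊆ M) (S : Set G) (s : G)
    (hs : IsLUB S s) : IsLUB (ψ hM '' S) (ψ hM s) := by
  have h1 : IsGLB {z | z⁻¹ ∈ S} s⁻¹ :=
    ⟨fun z hz => inv_le'.1 (hs.1 hz), fun y hy =>
      le_inv'.1 (hs.2 fun t ht => le_inv'.1 (hy (by simpa using ht)))⟩
  have h2 := ψ_glb hM hφ hT _ _ h1
  constructor
  · rintro _ ⟨t, ht, rfl⟩
    exact (ψ_le hM hφ _ _).1 (hs.1 ht)
  · intro c hc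
    have : c⁻¹ ≤ ψ hM s⁻¹ := h2.2 (by
      rintro _ ⟨t, ht, rfl⟩
      have := hc ⟨t⁻¹, ht, rfl⟩
      rw [map_inv] at this
      exact inv_le'.1 this)
    rw [map_inv] at this
    exact inv_le_inv_iff.1 this

end Main

end Pool.Agent.H22.SupEmbed
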