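import Pool.Agent.H22.LatF

namespace Pool.Agent.H22.GLS

open Function Subgroup FormLat
open Pool.Agent.H22.Fit (pel pgrp)
open scoped commutatorElement

variable {F : Cls} {A G H : Type} [Group G] [Group H] {p q : ℕ}

def Rq (q : ℕ) (G : Type) [Group G] : Subgroup G :=
  closure {z | ∃ Q : Subgroup G, IsPGroup q Q ∧ ∃ x ∈ Q, ∃ y ∈ Q, ⁅x, y⁆ = z}

def Hp (p q : ℕ) (G : Type) [Group G] : Prop := ∀ x ∈ Rq q G, pel p x → x = 1

theorem Rq_map_le (φ : G →* H) : (Rq q G).map φ ≤ Rq q H :=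
  map_le_iff_le_comap.2 ((closure_le _).2 (by
    rintro _ ⟨Q, a, x, hx, y, hy, rfl⟩
    exact subset_closure ⟨Q.map φ, a.map φ, _, ⟨x, hx, rfl⟩, _, ⟨y, hy, rfl⟩,
      (map_commutatorElement φ x y).symm⟩))

theorem Rq_map [Finite G] [Fact q.Prime] (φ : G →* H) (h : Surjective φ) :
    (Rq q G).map φ = Rq q H :=
  le_antisymm (Rq_map_le φ) ((closure_le _).2 (by
    rintro _ ⟨Q, a, x, hx, y, hy, rfl⟩
    have e := map_comap_eq_self_of_surjective h Q
    obtain ⟨S, -, b, c⟩ := Syl.lift (r := q) φ (Q.comap φ) (e.symm ▸ a)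
    obtain ⟨x, hx', rfl⟩ := (c.trans e).ge hx
    obtain ⟨y, hy', rfl⟩ := (c.trans e).ge hy
    exact ⟨_, subset_closure ⟨S, b, x, hx', y, hy', rfl⟩, map_commutatorElement φ x y⟩))

instance : (Rq q G).Normal := ⟨fun n hn g => Rq_map_le (MulAut.conj g).toMonoidHom ⟨n, hn, rfl⟩⟩

theorem Hp.two {K : Type} [Group K] (f : G →* H) (g : G →* K) (h : ∀ x, f x = 1 → g x = 1 → x = 1)
    (a : Hp p q H) (b : Hp p q K) : Hp p q G := fun x hx hp =>
  h x (a _ (Rq_map_le f ⟨x, hx, rfl⟩) (hp.map f)) (b _ (Rq_map_le g ⟨x, hx, rfl⟩) (hp.map g))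

theorem Hp.inj (f : G →* H) (h : Injective f) (a : Hp p q H) : Hp p q G :=
  a.two f f (fun x e _ => (injective_iff_map_eq_one f).1 h x e) a

theorem Hp.surj [Finite G] (hp : p.Prime) [Fact q.Prime] (f : G →* H) (h : Surjective f)
    (a : Hp p q G) : Hp p q H := fun x hx hx' => by
  rw [← Rq_map f h] at hx
  obtain ⟨y, h1, h2⟩ := pel.lift (y := ⟨x, hx⟩) hp _ (f.subgroupMap_surjective (Rq q G))
    (hx'.imp fun k hk => Subtype.ext hk)
  rw [← show f y = x from congrArg Subtype.val h2, a y y.2 (h1.map (Rq q G).subtype), map_one]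

theorem pel_mul {x y : G} (a : pel p x) (b : pel p y) (h : x * y = y * x) : pel p (x * y) := by
  obtain ⟨j, hj⟩ := a
  obtain ⟨k, hk⟩ := b
  exact ⟨j + k, by rw [Commute.mul_pow h, pow_add, pow_mul, hj, one_pow, mul_comm (p ^ j), pow_mul,
    hk, one_pow, one_mul]⟩

theorem pel_inv {x : G} (a : pel p x) : pel p x⁻¹ := a.imp fun k hk => by rw [inv_pow, hk, inv_one]

theorem Hp.idx [Finite G] [Fact p.Prime] (π : G →* H) (a : Hp p q H) :
    ¬ p ∣ (π.ker.subgroupOf (Rq q G)).index := fun d => by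
  have : Finite ((Rq q G).map π) := Finite.of_surjective _ (π.subgroupMap_surjective _)
  obtain ⟨x, hx⟩ := exists_prime_orderOf_dvd_card' p (d.trans (relIndex_ker (K := Rq q G) π).dvd)
  have := a x (Rq_map_le π x.2) ⟨1, by rw [pow_one, ← hx, ← orderOf_coe, pow_orderOf_eq_one]⟩
  rw [← orderOf_coe, this, orderOf_one] at hx
  exact (Fact.out : p.Prime).one_lt.ne hx

theorem Hp.cen [Finite G] (hp : p.Prime) (hq : q.Prime) (hne : p ≠ q) (π : G →* H) (a : Hp p q H)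
    (hc : ∀ v ∈ π.ker, v ∈ Rq q G → ∀ r ∈ Rq q G, r * v = v * r) : Hp p q G := fun x hx hx' => by
  have := Fact.mk hp
  obtain ⟨θ, hθ⟩ := Fit.cpow (π.ker.subgroupOf (Rq q G)) fun v hv =>
    mem_center_iff.2 fun r => Subtype.ext (hc _ hv v.2 _ r.2)
  have key : ∀ g (hg : g ∈ Rq q G), pel q (θ ⟨g, hg⟩) := fun g hg => by
    refine closure_induction (p := fun g hg => pel q (θ ⟨g, hg⟩)) ?_ ⟨0, (pow_one _).trans (map_one θ)⟩
      (fun a b ha hb u v => ?_) (fun a ha u => ?_) hg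
    · rintro _ ⟨Q, b, x, hx, y, hy, rfl⟩
      obtain ⟨k, hk⟩ := pel.of_mem b (commutator_le_self Q (commutator_mem_commutator hx hy))
      exact pel.map ⟨k, Subtype.ext hk⟩ θ
    · exact (map_mul θ ⟨a, ha⟩ ⟨b, hb⟩).symm ▸ pel_mul u v
        (Subtype.ext (hc _ (hθ _).2 (SetLike.coe_mem _) _ (SetLike.coe_mem _)))
    · exact (map_inv θ ⟨a, ha⟩).symm ▸ pel_inv u
  have h1 : pel p (⟨x, hx⟩ : Rq q G) := hx'.imp fun k hk => Subtype.ext hk
  exact congrArg Subtype.val (h1.eq_one (hp.coprime_iff_not_dvd.2 (a.idx π))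
    ((hθ _).1.symm.trans ((h1.map θ).two hp hq hne (key x hx))))

open scoped IsMulCommutative in
theorem conj_compl [Finite G] (hp : p.Prime) {V L M : Subgroup G} [V.Normal]
    (hc : ∀ a ∈ V, ∀ b ∈ V, a * b = b * a) (he : ∀ a ∈ V, a ^ p = 1) (hL : ¬ p ∣ Nat.card L)
    (hM : V ⊓ M = ⊥) (l : L ≤ V ⊔ M) : ∃ v ∈ V, ∀ x ∈ L, v * x * v⁻¹ ∈ M := by
  classical
  have : IsMulCommutative V := ⟨⟨fun a b => Subtype.ext (hc a a.2 b b.2)⟩⟩
  have := Fintype.ofFinite L
  have : ∀ x : L, ∃ d : V, d.1 * x ∈ M := fun x => by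
    obtain ⟨u, hu, m, hm, e⟩ := mem_sup_of_normal_left.1 (l x.2)
    exact ⟨⟨u⁻¹, V.inv_mem hu⟩, by simpa [← e] using hm⟩
  choose d hd using this
  have co : ∀ a b : L, d (a * b) = d a * MulAut.conjNormal a.1 (d b) := fun a b => by
    rw [← mul_inv_eq_one]
    refine Subtype.ext (hM.le ⟨SetLike.coe_mem _, ?_⟩)
    convert M.mul_mem (hd (a * b)) (M.inv_mem (M.mul_mem (hd a) (hd b))) using 1
    simp [mul_assoc]
  obtain ⟨m, hm⟩ := Nat.exists_mul_mod_eq_one_of_coprime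
    (hp.coprime_iff_not_dvd.2 hL).symm hp.one_lt
  refine ⟨((∏ b, d b) ^ m : V), SetLike.coe_mem _, fun x hx => ?_⟩
  have h1 : ∏ b, d b = d ⟨x, hx⟩ ^ Nat.card L * MulAut.conjNormal x (∏ b, d b) := by
    rw [map_prod, Nat.card_eq_fintype_card, ← Finset.card_univ, ← Finset.prod_const,
      ← Finset.prod_mul_distrib]
    exact (Fintype.prod_equiv (Equiv.mulLeft (⟨x, hx⟩ : L)) _ _ fun b => (co _ b).symm).symm
  have h2 := congrArg (· ^ m) h1
  simp only [mul_pow, ← pow_mul, ← map_pow] at h2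
  rw [pow_eq_pow_mod (Nat.card L * m) (Subtype.ext (he _ (d ⟨x, hx⟩).2) : d ⟨x, hx⟩ ^ p = 1), hm.2,
    pow_one, mul_comm] at h2
  have h3 := congrArg Subtype.val h2
  generalize (∏ b, d b) ^ m = v at h2 h3 ⊢
  convert hd ⟨x, hx⟩ using 1
  have h4 : d ⟨x, hx⟩ = v * (MulAut.conjNormal x v)⁻¹ := by
    rw [eq_mul_inv_iff_mul_eq, mul_comm, ← h2]
  simp [h4, mul_assoc]

theorem card_quot_lt [Finite G] {N : Subgroup G} [N.Normal] (h : N ≠ ⊥) :
    Nat.card (G ⧸ N) < Nat.card G := by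
  rw [card_eq_card_quotient_mul_card_subgroup N]
  exact (Nat.lt_mul_iff_one_lt_right Nat.card_pos).2 ((one_lt_card_iff_ne_bot N).2 h)

theorem Hp.sat [Finite G] (hp : p.Prime) (hq : q.Prime) (hne : p ≠ q) (π : G →* H)
    (hk : π.ker ≤ frattini G) (a : Hp p q H) : Hp p q G := by
  induction hn : Nat.card G using Nat.strong_induction_on generalizing G with
  | _ n ih =>
  have := Fact.mk hp
  by_cases e : π.ker = ⊥
  · exact a.inj π ((MonoidHom.ker_eq_bot_iff π).1 e)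
  obtain ⟨V, v1, hV⟩ := exists_minN (inferInstance : π.ker.Normal) e
  have := hV.1
  have b := ih _ (hn ▸ card_quot_lt hV.2.1) (QuotientGroup.lift V π v1) (fun x hx => by
    obtain ⟨x, rfl⟩ := QuotientGroup.mk_surjective x
    exact frattini_le_comap_frattini_of_surjective (QuotientGroup.mk'_surjective V) (hk hx)) rfl
  have hc : ∀ a ∈ V, ∀ b ∈ V, a * b = b * a := hV.cases.resolve_right fun h => by
    have := frattini_nilpotent (G := G)
    have : Group.IsSolvable V := Group.isSolvable_of_isSolvable_injective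
      (inclusion_injective (v1.trans hk))
    exact (comm_lt hV.2.1).ne h
  intro x hx ⟨k, hk'⟩
  by_contra x1
  have xV : x ∈ V := (QuotientGroup.eq_one_iff x).1 (b _ (Rq_map_le (QuotientGroup.mk' V) ⟨x, hx, rfl⟩)
    (pel.map ⟨k, hk'⟩ (QuotientGroup.mk' V)))
  obtain ⟨y, y1, y2, y3⟩ := cauchy (N := V) (Fit.dv hp (z := ⟨x, xV⟩) ⟨k, Subtype.ext hk'⟩
    fun c => x1 (congrArg Subtype.val c))
  have he := hV.exp hc y1 y2 y3
  have VR : V ≤ Rq q G := inf_eq_left.1 (hV.2.2 _ inferInstance inf_le_left fun c => x1 (c.le ⟨xV, hx⟩))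
  have ix := b.idx (QuotientGroup.mk' V)
  rw [QuotientGroup.ker_mk'] at ix
  obtain ⟨j, hj⟩ := (pgrp (P := V.subgroupOf (Rq q G)) fun x hx =>
    ⟨1, Subtype.ext ((pow_one p).symm ▸ he _ hx)⟩).exists_card_eq
  obtain ⟨L, hL⟩ := exists_right_complement'_of_coprime (N := V.subgroupOf (Rq q G))
    (hj ▸ (hp.coprime_iff_not_dvd.2 ix).pow_left j)
  have l1 : V ⊔ L.map (Rq q G).subtype = Rq q G := by
    have := congrArg (map (Rq q G).subtype) hL.sup_eq_top
    rwa [Subgroup.map_sup, subgroupOf_map_subtype, inf_eq_left.2 VR, ← MonoidHom.range_eq_map,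
      range_subtype] at this
  have l2 : V ⊓ L.map (Rq q G).subtype = ⊥ := eq_bot_iff.2 (by
    rintro _ ⟨h, z, hz, rfl⟩
    exact congrArg Subtype.val (hL.disjoint.le_bot ⟨h, hz⟩))
  have l3 : ¬ p ∣ Nat.card (L.map (Rq q G).subtype) := by
    rwa [card_map_of_injective (subtype_injective _), ← hL.symm.index_eq_card]
  generalize L.map (Rq q G).subtype = L at l1 l2 l3
  have nL : L.Normal := normalizer_eq_top_iff.1 (frattini_nongenerating (eq_top_iff.2 fun g _ => by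
    obtain ⟨v, hv, h⟩ := conj_compl hp hc he l3 (M := L.comap (MulAut.conj g).toMonoidHom)
      (eq_bot_iff.2 fun z hz => by
        simpa using l2.le ⟨Normal.conj_mem inferInstance z hz.1 g, hz.2⟩) fun z hz => by
        obtain ⟨u, hu, w, hw, e⟩ := mem_sup_of_normal_left.1 (l1.ge (Normal.conj_mem inferInstance z
          (l1.le (mem_sup_right hz)) g))
        refine mem_sup_of_normal_left.2 ⟨g⁻¹ * u * g, Normal.conj_mem' inferInstance u hu g,
          g⁻¹ * w * g, by simpa [mul_assoc] using hw, ?_⟩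
        calc _ = g⁻¹ * (u * w) * g := by group
          _ = z := by rw [e]; group
    have : g * v ∈ normalizer (L : Set G) := mem_normalizer_fintype fun z hz => by
      simpa [mul_assoc] using h z hz
    simpa using mul_mem (mem_sup_left this) (mem_sup_right (hk (v1 (V.inv_mem hv))))))
  refine x1 (Hp.cen hp hq hne (QuotientGroup.mk' V) b (fun v hv _ r hr => ?_) x hx ⟨k, hk'⟩)
  rw [QuotientGroup.ker_mk'] at hv
  obtain ⟨u, hu, w, hw, rfl⟩ := mem_sup_of_normal_left.1 (l1.ge hr)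
  rw [mul_assoc, ← commute_of_normal_of_disjoint V L inferInstance nL (disjoint_iff.2 l2) v w hv hw,
    ← mul_assoc, hc u hu v hv, mul_assoc]

inductive Ch : Subgroup G → Prop
  | bot : Ch ⊥
  | step (N M : Subgroup G) : Ch N → M.Normal → N ≤ M →
      (∃ g ∈ M, ∀ x ∈ M, ∃ k : ℤ, x * (g ^ k)⁻¹ ∈ N) → Ch M

theorem Ch.normal {N : Subgroup G} (h : Ch N) : N.Normal := by
  cases h with
  | bot => infer_instance
  | step _ _ _ a => exact a

def SS (G : Type) [Group G] : Prop := Ch (⊤ : Subgroup G)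

theorem ss_iff : SS G ↔ ∃ (n : ℕ) (s : Fin (n + 1) → Subgroup G), s 0 = ⊥ ∧ s (Fin.last n) = ⊤ ∧
    (∀ i, (s i).Normal) ∧ ∀ i : Fin n, s i.castSucc ≤ s i.succ ∧
      ∃ g ∈ s i.succ, ∀ x ∈ s i.succ, ∃ k : ℤ, x * (g ^ k)⁻¹ ∈ s i.castSucc := by
  constructor
  · unfold SS
    generalize (⊤ : Subgroup G) = M
    intro h
    induction h with
    | bot => exact ⟨0, fun _ => ⊥, rfl, rfl, fun _ => inferInstance, fun i => i.elim0⟩
    | step N M _ a b c ih =>
      obtain ⟨n, s, s1, s2, s3, s4⟩ := ih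
      refine ⟨n + 1, Fin.snoc s M, ?_, by simp, fun i => ?_, fun i => ?_⟩
      · rw [← s1, ← Fin.castSucc_zero, Fin.snoc_castSucc]
      · refine Fin.lastCases ?_ (fun i => ?_) i
        · simpa using a
        · simpa using s3 i
      · refine Fin.lastCases ?_ (fun i => ?_) i
        · rw [Fin.succ_last, Fin.snoc_last, Fin.snoc_castSucc, s2]
          exact ⟨b, c⟩
        · rw [Fin.succ_castSucc, Fin.snoc_castSucc, Fin.snoc_castSucc]
          exact s4 i
  · rintro ⟨n, s, s1, s2, s3, s4⟩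
    have : ∀ i, Ch (s i) := fun i => by
      induction i using Fin.induction with
      | zero => exact s1 ▸ Ch.bot
      | succ i ih => exact ih.step _ _ (s3 _) (s4 i).1 (s4 i).2
    exact show Ch ⊤ from s2 ▸ this _

theorem SS.surj (f : G →* H) (hf : Surjective f) (h : SS G) : SS H := by
  have : ∀ M : Subgroup G, Ch M → Ch (M.map f) := fun M h => by
    induction h with
    | bot => rw [Subgroup.map_bot]; exact Ch.bot
    | step N M _ a b c ih =>
      obtain ⟨g, c, d⟩ := c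
      refine ih.step _ _ (a.map f hf) (map_mono b) ⟨_, ⟨g, c, rfl⟩, ?_⟩
      rintro _ ⟨x, hx, rfl⟩
      exact (d x hx).imp fun k hk => ⟨_, hk, by simp⟩
  exact show Ch ⊤ from map_top_of_surjective f hf ▸ this _ h

theorem SS.ext {v : G} [(zpowers v).Normal] (h : SS (G ⧸ zpowers v)) : SS G := by
  have sj := QuotientGroup.mk'_surjective (zpowers v)
  have : ∀ M : Subgroup (G ⧸ zpowers v), Ch M → Ch (M.comap (QuotientGroup.mk' _)) := fun M h => by
    induction h with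
    | bot =>
      rw [MonoidHom.comap_bot, QuotientGroup.ker_mk']
      refine Ch.bot.step _ _ inferInstance bot_le ⟨v, mem_zpowers v, ?_⟩
      rintro _ ⟨k, rfl⟩
      exact ⟨k, by simp⟩
    | step N M _ a b c ih =>
      obtain ⟨g, c, d⟩ := c
      obtain ⟨g, rfl⟩ := sj g
      exact ih.step _ _ (a.comap _) (comap_mono b) ⟨g, c, fun x hx => (d _ hx).imp fun k hk => by
        simpa using hk⟩
  exact this _ h

theorem ss_of (P : Cls) (h1 : ∀ (G : Type) [Group G] [Finite G] (N : Subgroup G) [N.Normal],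
      P G → P (G ⧸ N)) (h2 : ∀ (G : Type) [Group G] [Finite G] [Nontrivial G],
      P G → ∃ v : G, v ≠ 1 ∧ (zpowers v).Normal) [Finite G] (h : P G) : SS G := by
  induction hn : Nat.card G using Nat.strong_induction_on generalizing G with
  | _ n ih =>
  rcases subsingleton_or_nontrivial G with _ | _
  · exact show Ch ⊤ from Subsingleton.elim (⊥ : Subgroup G) ⊤ ▸ Ch.bot
  obtain ⟨v, a, b⟩ := h2 G h
  exact SS.ext (v := v) (ih _ (hn ▸ card_quot_lt (mt zpowers_eq_bot.1 a)) (h1 _ _ h) rfl)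

theorem SS.cyc (h : SS G) {V : Subgroup G} [V.Normal] (hV : V ≠ ⊥) :
    ∃ v ∈ V, v ≠ 1 ∧ (zpowers v).Normal := by
  have : ∀ M : Subgroup G, Ch M → V ⊓ M ≠ ⊥ → ∃ v ∈ V, v ≠ 1 ∧ (zpowers v).Normal := fun M h => by
    induction h with
    | bot => simp
    | step N M c a b d ih =>
      intro e
      by_cases n : V ⊓ N = ⊥
      swap
      · exact ih n
      obtain ⟨g, -, d⟩ := d
      have := c.normal
      have : IsCyclic ↥(V ⊓ M) := isCyclic_of_injective
        (((QuotientGroup.mk' N).comp (V ⊓ M).subtype).codRestrict (zpowers (g : G ⧸ N)) fun x => by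
          obtain ⟨k, hk⟩ := d x x.2.2
          exact ⟨k, (QuotientGroup.eq_iff_div_mem.2 (div_eq_mul_inv x.1 _ ▸ hk)).symm⟩)
        ((injective_iff_map_eq_one _).2 fun x hx => Subtype.ext (n.le
          ⟨x.2.1, (QuotientGroup.eq_one_iff _).1 (congrArg Subtype.val hx)⟩))
      obtain ⟨v, hv⟩ := (Subgroup.isCyclic_iff_exists_zpowers_eq_top _).1 this
      exact ⟨v, (hv.le (mem_zpowers v)).1, fun c => e (hv.symm.trans (zpowers_eq_bot.2 c)),
        hv ▸ inferInstance⟩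
  exact this _ h (by simpa using hV)

theorem cyc_cent [Finite G] {v a b : G} (ha : a ∈ normalizer (zpowers v : Set G))
    (hb : b ∈ normalizer (zpowers v : Set G)) :
    v * ⁅a, b⁆ = ⁅a, b⁆ * v ∧ (p.Prime → orderOf v = p → v * a ^ (p - 1) = a ^ (p - 1) * v) := by
  have k : ∀ x : normalizer (zpowers v : Set G), (zpowers v).normalizerMonoidHom x = 1 →
      v * x = x * v := fun x hx => ((zpowers v).normalizerMonoidHom_ker.le hx) v (mem_zpowers v)
  refine ⟨k ⁅(⟨a, ha⟩ : normalizer (zpowers v : Set G)), ⟨b, hb⟩⁆ ?_, fun hp h => k (⟨a, ha⟩ ^ (p - 1)) ?_⟩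
  · rw [map_commutatorElement, commutatorElement_eq_one_iff_mul_comm]
    exact (IsCyclic.mulAutMulEquiv (zpowers v)).injective (by simp only [map_mul, mul_comm])
  · rw [map_pow, ← Nat.totient_prime hp, ← h, ← Nat.card_zpowers, ← IsCyclic.card_mulAut,
      pow_card_eq_one']

theorem SS.hp [Finite G] (hp : p.Prime) (hq : q.Prime) (hne : p ≠ q) (h : SS G) : Hp p q G := by
  induction hn : Nat.card G using Nat.strong_induction_on generalizing G with
  | _ n ih =>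
  rcases subsingleton_or_nontrivial G with _ | _
  · exact fun _ _ _ => Subsingleton.elim _ _
  obtain ⟨v, -, a, b⟩ := h.cyc (V := ⊤) top_ne_bot
  refine (ih _ (hn ▸ card_quot_lt (mt zpowers_eq_bot.1 a))
    (h.surj _ (QuotientGroup.mk'_surjective _)) rfl).cen hp hq hne (QuotientGroup.mk' _) fun w hw _ r hr => ?_
  have : Rq q G ≤ centralizer {v} := (closure_le _).2 (by
    rintro _ ⟨Q, -, x, -, y, -, rfl⟩
    exact mem_centralizer_singleton_iff.2 (cyc_cent (p := p) (normalizer_eq_top (zpowers v) ▸ mem_top x)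
      (normalizer_eq_top (zpowers v) ▸ mem_top y)).1.symm)
  rw [QuotientGroup.ker_mk'] at hw
  obtain ⟨k, rfl⟩ := hw
  exact (Commute.zpow_left (this hr v rfl) k).symm

theorem MinN.cent {V : Subgroup G} (h : MinN V) {S : Set G} (hS : ∀ g, ∀ s ∈ S, g * s * g⁻¹ ∈ S)
    {v : G} (hv : v ∈ V) (v1 : v ≠ 1) (hc : ∀ s ∈ S, v * s = s * v) : ∀ s ∈ S, ∀ w ∈ V, w * s = s * w := by
  have := h.1
  have : (centralizer S).Normal := ⟨fun x hx g s hs => by
    have := hx _ (hS g⁻¹ s hs)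
    calc _ = g * (g⁻¹ * s * g⁻¹⁻¹ * x) * g⁻¹ := by group
      _ = _ := by rw [this]; group⟩
  exact fun s hs w hw => (((h.2.2 (V ⊓ centralizer S) inferInstance inf_le_left fun c =>
    v1 (c.le ⟨hv, fun s hs => (hc s hs).symm⟩)).ge hw).2 s hs).symm

theorem MinN.pow [Finite G] {V : Subgroup G} (h : MinN V) (hc : ∀ a ∈ V, ∀ b ∈ V, a * b = b * a)
    (hG : ∀ a b : G, ∀ w ∈ V, w * ⁅a, b⁆ = ⁅a, b⁆ * w) {a v : G} (hv : v ∈ V) (v1 : v ≠ 1)
    (e : a * v * a⁻¹ ∈ zpowers v) {w : G} (hw : w ∈ V) : a ∈ normalizer (zpowers w : Set G) := by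
  obtain ⟨k, e⟩ := e
  let E : Subgroup G :=
    { carrier := {w | w ∈ V ∧ w ^ k = a * w * a⁻¹}
      one_mem' := ⟨V.one_mem, by simp⟩
      mul_mem' := fun {x y} u v => ⟨V.mul_mem u.1 v.1, by
        rw [Commute.mul_zpow (hc x u.1 y v.1), u.2, v.2]; group⟩
      inv_mem' := fun {x} u => ⟨V.inv_mem u.1, by rw [inv_zpow, u.2]; group⟩ }
  have := ((h.2.2 E ⟨fun x u g => ⟨h.1.conj_mem x u.1 g, by
    have := hG a⁻¹ g⁻¹ x u.1
    rw [conj_zpow, u.2]
    calc _ = g * a * (x * ⁅a⁻¹, g⁻¹⁆) * (g⁻¹ * a⁻¹) := by simp only [commutatorElement_def]; group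
      _ = _ := by rw [this]; simp only [commutatorElement_def]; group⟩⟩ (fun _ u => u.1)
    fun c => v1 (c.le ⟨hv, e⟩)).ge hw).2
  refine mem_normalizer_fintype ?_
  rintro _ ⟨j, rfl⟩
  exact ⟨k * j, by simp only; rw [zpow_mul, this, conj_zpow]⟩

def H0 (G : Type) [Group G] : Prop := ∀ p q : ℕ, p.Prime → q.Prime → q ∣ p - 1 → Hp p q G

theorem ne_of_dvd (hp : p.Prime) (h : q ∣ p - 1) : p ≠ q := by
  rintro rfl
  have := hp.two_le
  exact absurd (Nat.le_of_dvd (by omega) h) (by omega)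

def qp (q : ℕ) (M : Subgroup G) (hc : ∀ a ∈ M, ∀ b ∈ M, a * b = b * a) : Subgroup G where
  carrier := {x | x ∈ M ∧ pel q x}
  one_mem' := ⟨M.one_mem, 0, by simp⟩
  mul_mem' := fun a b => ⟨M.mul_mem a.1 b.1, pel_mul a.2 b.2 (hc _ a.1 _ b.1)⟩
  inv_mem' := fun a => ⟨M.inv_mem a.1, pel_inv a.2⟩

instance (M : Subgroup G) [h : M.Normal] (hc) : (qp q M hc).Normal :=
  ⟨fun x hx g => ⟨h.conj_mem x hx.1 g, hx.2.conj g⟩⟩

theorem two_ab [Finite G] {M N : Subgroup G} [M.Normal] [N.Normal]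
    (a : ∀ x ∈ M, ∀ y ∈ M, x * y = y * x) (b : ∀ x ∈ N, ∀ y ∈ N, x * y = y * x) {n : ℕ}
    (e : ∀ x ∈ M, x ^ n = 1) (h : ∀ q : ℕ, q.Prime → q ∣ n → Rq q G = ⊥) (t : M ⊔ N = ⊤) (x y : G) :
    x * y = y * x := by
  have k : N ≤ centralizer M := Fit.gen fun r hr y hy y1 x hx =>
    (mem_centralizer_singleton_iff.1 (Fit.gen (M := M) (W := centralizer {y})
      (fun s hs x hx x1 => mem_centralizer_singleton_iff.2
        (commutatorElement_eq_one_iff_mul_comm.1 ?_)) hx))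
  · have c : ∀ S : Subgroup G, (∀ x ∈ S, ∀ y ∈ M, x * y = y * x) → (∀ x ∈ S, ∀ y ∈ N, x * y = y * x) →
        S ≤ center G := fun S u v x hx => mem_center_iff.2 fun g => mem_centralizer_singleton_iff.1
      ((show M ⊔ N ≤ centralizer {x} from
        sup_le (fun y hy => mem_centralizer_singleton_iff.2 (u x hx y hy).symm)
        (fun y hy => mem_centralizer_singleton_iff.2 (v x hx y hy).symm)) (t.ge (mem_top g)))
    exact mem_center_iff.1 (sup_le (c M a fun x hx y hy => k hy x hx)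
      (c N (fun x hx y hy => (k hx y hy).symm) b) (t.ge (mem_top y))) x
  by_cases c : s = r
  · subst c
    by_cases d : s ∣ n
    · exact (h s hs d).le (Subgroup.subset_closure ⟨qp s M a ⊔ qp s N b,
        (pgrp (P := qp s M a) fun _ h => h.2).to_sup_of_normal_left (pgrp fun _ h => h.2),
        x, mem_sup_left ⟨hx, x1⟩, y, mem_sup_right ⟨hy, y1⟩, rfl⟩)
    · rw [x1.eq_one (hs.coprime_iff_not_dvd.2 d) (e x hx), commutatorElement_one_left]
  · have := commutator_le_inf (qp s M a) (qp r N b) (commutator_mem_commutator ⟨hx, x1⟩ ⟨hy, y1⟩)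
    exact this.1.2.two hs hr c this.2.2

theorem MinN.nv {V M : Subgroup G} (h : MinN V) [M.Normal] (s : SS M) :
    ∃ v ∈ V, v ≠ 1 ∧ M ≤ normalizer (zpowers v : Set G) := by
  have := h.1
  by_cases e : V.subgroupOf M = ⊥
  · obtain ⟨v, v1⟩ := ne_bot_iff_exists_ne_one.1 h.2.1
    refine ⟨v, v.2, fun c => v1 (Subtype.ext c), le_trans (fun m hm => ?_) (centralizer_le_normalizer _)⟩
    rintro _ ⟨k, rfl⟩
    exact ((commute_of_normal_of_disjoint V M inferInstance inferInstance (subgroupOf_eq_bot.1 e)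
      v m v.2 hm).zpow_left k).eq
  obtain ⟨v, a, b, c⟩ := s.cyc e
  refine ⟨v, a, fun c => b (Subtype.ext c), fun m hm x => ?_⟩
  have k : ∀ m ∈ M, ∀ x ∈ zpowers v.1, m * x * m⁻¹ ∈ zpowers v.1 := by
    rintro m hm _ ⟨k, rfl⟩
    obtain ⟨j, hj⟩ := c.conj_mem _ (zpow_mem_zpowers v k) ⟨m, hm⟩
    exact ⟨j, congrArg Subtype.val hj⟩
  exact ⟨k m hm x, fun hx => by simpa [mul_assoc] using k _ (M.inv_mem hm) _ hx⟩

theorem rad_top [Finite G] [Nontrivial G] (h : H0 G) {M N : Subgroup G} [M.Normal] [N.Normal]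
    (a : SS M) (b : SS N) (t : M ⊔ N = ⊤) : ∃ v : G, v ≠ 1 ∧ (zpowers v).Normal := by
  obtain ⟨V, -, hV⟩ := exists_minN (M := (⊤ : Subgroup G)) inferInstance top_ne_bot
  have := hV.1
  have k1 : ∀ M : Subgroup G, M.Normal → SS M → ⁅M, M⁆ ≤ centralizer V := fun M _ s => by
    obtain ⟨v, v1, v2, v3⟩ := hV.nv s
    have : ⁅M, M⁆ ≤ centralizer {v} := commutator_le.2 fun x hx y hy =>
      mem_centralizer_singleton_iff.2 (cyc_cent (p := 0) (v3 hx) (v3 hy)).1.symm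
    exact fun x hx w hw => hV.cent (S := (⁅M, M⁆ : Subgroup G)) (fun g s hs => Normal.conj_mem inferInstance s hs g)
      v1 v2 (fun s hs => this hs v rfl) x hx w hw
  have hc : ∀ x ∈ V, ∀ y ∈ V, x * y = y * x := by
    refine hV.cases.elim id fun e x hx y hy => ?_
    have k : ∀ M : Subgroup G, M.Normal → SS M → y ∈ centralizer V ∨ M ≤ centralizer V := fun M c s => by
      by_cases d : V ⊓ M = ⊥
      · exact Or.inr fun m hm w hw =>
          (commute_of_normal_of_disjoint V M inferInstance c (disjoint_iff.2 d) w m hw hm).eq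
      · have l := inf_eq_left.1 (hV.2.2 _ inferInstance inf_le_left d)
        exact Or.inl (k1 M c s (commutator_mono l l (e.ge hy)))
    rcases k M ‹_› a with u | u
    · exact u x hx
    rcases k N ‹_› b with w | w
    · exact w x hx
    exact sup_le u w (t.ge (mem_top y)) x hx
  obtain ⟨r, hr, hd⟩ := Nat.exists_prime_and_dvd ((one_lt_card_iff_ne_bot V).2 hV.2.1).ne'
  have := Fact.mk hr
  obtain ⟨x, hx, x1, ox⟩ := cauchy hd
  have he := hV.exp hc hx x1 ox
  have sj := QuotientGroup.mk'_surjective (centralizer (V : Set G))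
  have ab : ∀ M : Subgroup G, M.Normal → SS M → ∀ x ∈ M.map (QuotientGroup.mk' (centralizer (V : Set G))),
      ∀ y ∈ M.map (QuotientGroup.mk' (centralizer (V : Set G))), x * y = y * x := by
    rintro M c s _ ⟨x, hx, rfl⟩ _ ⟨y, hy, rfl⟩
    rw [← commutatorElement_eq_one_iff_mul_comm, ← map_commutatorElement]
    exact (QuotientGroup.eq_one_iff _).2 (k1 M c s (commutator_mem_commutator hx hy))
  have := (inferInstance : M.Normal).map _ sj
  have := (inferInstance : N.Normal).map _ sj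
  have k2 := two_ab (ab M ‹_› a) (ab N ‹_› b) (n := r - 1) (by
    rintro _ ⟨x, hx, rfl⟩
    obtain ⟨v, v1, v2, v3⟩ := hV.nv a
    refine (QuotientGroup.eq_one_iff (x ^ (r - 1))).2 fun w hw =>
      hV.cent (S := {s | ∃ m ∈ M, m ^ (r - 1) = s}) ?_ v1 v2 ?_ _ ⟨x, hx, rfl⟩ w hw
    · rintro g _ ⟨m, hm, rfl⟩
      exact ⟨_, Normal.conj_mem inferInstance m hm g, conj_pow⟩
    · rintro _ ⟨m, hm, rfl⟩
      exact (cyc_cent (v3 hm) (v3 hm)).2 hr (orderOf_eq_prime (he v v1) v2)) (fun s hs d => by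
    have := Fact.mk hs
    rw [← Rq_map _ sj, Subgroup.map_eq_bot_iff, QuotientGroup.ker_mk']
    exact fun z hz w hw => (commute_of_normal_of_disjoint V (Rq s G) inferInstance inferInstance
      (disjoint_def.2 fun u v => h r s hr hs d _ v ⟨1, (pow_one r).symm ▸ he _ u⟩) w z hw hz).eq)
    (by rw [← Subgroup.map_sup, t, map_top_of_surjective _ sj])
  have k3 : ∀ M : Subgroup G, M.Normal → SS M → M ≤ normalizer (zpowers x : Set G) := fun M _ s m hm => by
    obtain ⟨v, v1, v2, v3⟩ := hV.nv s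
    exact hV.pow hc (fun a b => (QuotientGroup.eq_one_iff (N := centralizer (V : Set G)) ⁅a, b⁆).1
      (commutatorElement_eq_one_iff_mul_comm.2 (k2 a b))) v1 v2
      ((v3 hm v).1 (mem_zpowers v)) hx
  exact ⟨x, x1, normalizer_eq_top_iff.1 (top_le_iff.1 (t.ge.trans (sup_le (k3 M ‹_› a) (k3 N ‹_› b))))⟩

theorem H0.surj [Finite G] (f : G →* H) (hf : Surjective f) (h : H0 G) : H0 H :=
  fun p q hp hq d => have := Fact.mk hq; (h p q hp hq d).surj hp f hf

theorem H0.rad [Finite G] (h : H0 G) {M N : Subgroup G} [M.Normal] [N.Normal]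
    (a : SS M) (b : SS N) : SS ↥(M ⊔ N) := by
  refine ss_of (fun G _ => H0 G ∧ ∃ M N : Subgroup G, M.Normal ∧ N.Normal ∧ SS M ∧ SS N ∧ M ⊔ N = ⊤)
    ?_ (fun G _ _ _ ⟨h, M, N, _, _, a, b, t⟩ => rad_top h a b t)
    ⟨fun p q hp hq d => (h p q hp hq d).inj _ (subtype_injective _), M.subgroupOf _, N.subgroupOf _,
      inferInstance, inferInstance,
      a.surj (subgroupOfEquivOfLe le_sup_left).symm.toMonoidHom (MulEquiv.surjective _),
      b.surj (subgroupOfEquivOfLe le_sup_right).symm.toMonoidHom (MulEquiv.surjective _),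
      by rw [← subgroupOf_sup le_sup_left le_sup_right, subgroupOf_self]⟩
  rintro G _ _ K _ ⟨h, M, N, c, d, a, b, t⟩
  have sj := QuotientGroup.mk'_surjective K
  exact ⟨h.surj _ sj, M.map _, N.map _, c.map _ sj, d.map _ sj,
    a.surj _ (MonoidHom.subgroupMap_surjective _ M), b.surj _ (MonoidHom.subgroupMap_surjective _ N),
    by rw [← Subgroup.map_sup, t, map_top_of_surjective _ sj]⟩

open Polynomial in
theorem eig0 [Fact p.Prime] [AddCommGroup A] [Module (ZMod p) A] [Nontrivial A] (T : A →+ A)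
    (h : ∀ a, T^[p] a = T a) : ∃ v, v ≠ 0 ∧ ∃ k : ℕ, T v = k • v := by
  by_contra n
  push Not at n
  let S : Module.End (ZMod p) A := T.toZModLinearMap p
  have k : ∀ s : Multiset (ZMod p), Injective (aeval S (s.map fun c => X - C c).prod) := fun s => by
    induction s using Multiset.induction_on with
    | empty => exact fun a b h => by simpa using h
    | cons c s ih =>
      rw [Multiset.map_cons, Multiset.prod_cons, map_mul, Module.End.coe_mul]
      refine Injective.comp ((injective_iff_map_eq_zero _).2 fun v hv => ?_) ih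
      by_contra e
      refine n v e c.val ?_
      rw [← Nat.cast_smul_eq_nsmul (ZMod p), ZMod.natCast_zmod_val]
      simpa [sub_eq_zero, S] using hv
  have h1 := (Fact.out : p.Prime).one_lt
  have := k (X ^ p - X : (ZMod p)[X]).roots
  rw [prod_multiset_X_sub_C_of_monic_of_roots_card_eq (monic_X_pow_sub (by
    rw [degree_X]; exact_mod_cast h1)) (splits_iff_card_roots.1
      (GaloisField.splits_zmod_X_pow_sub_X p))] at this
  obtain ⟨v, hv⟩ := exists_ne (0 : A)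
  refine hv ((injective_iff_map_eq_zero _).1 this v ?_)
  simpa [S, Module.End.pow_apply, sub_eq_zero] using h v

open scoped IsMulCommutative in
theorem eig [Fact p.Prime] {V : Subgroup G} [V.Normal] (hc : ∀ a ∈ V, ∀ b ∈ V, a * b = b * a)
    (he : ∀ a ∈ V, a ^ p = 1) (hV : V ≠ ⊥) {g : G} (h : ∀ v ∈ V, v * g ^ (p - 1) = g ^ (p - 1) * v) :
    ∃ v ∈ V, v ≠ 1 ∧ g * v * g⁻¹ ∈ zpowers v := by
  have : IsMulCommutative V := ⟨⟨fun a b => Subtype.ext (hc a a.2 b b.2)⟩⟩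
  have := (nontrivial_iff_ne_bot V).2 hV
  have it : ∀ (n : ℕ) (a : Additive V),
      (((MonoidHom.toAdditive (MulAut.conjNormal (H := V) g).toMonoidHom)^[n] a).toMul : G) =
        g ^ n * a.toMul * (g ^ n)⁻¹ := fun n a => by
    induction n with
    | zero => simp
    | succ n ih =>
      rw [Function.iterate_succ_apply']
      simp only [MonoidHom.toAdditive_apply_apply, toMul_ofMul, MulEquiv.toMonoidHom_eq_coe,
        MonoidHom.coe_coe, MulAut.conjNormal_apply] at ih ⊢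
      rw [ih]
      group
  obtain ⟨v, a, k, b⟩ := @eig0 (Additive V) p _ _
    (AddCommGroup.zmodModule fun x => Subtype.ext (he _ x.toMul.2)) _
    (MonoidHom.toAdditive (MulAut.conjNormal (H := V) g).toMonoidHom) fun a =>
      Subtype.ext ((it p a).trans (Eq.trans (by
        rw [← Nat.add_sub_cancel' (Fact.out : p.Prime).one_le, pow_add, mul_assoc (g ^ 1),
          ← h _ a.toMul.2]
        group) (it 1 a).symm))
  exact ⟨v.toMul, v.toMul.2, fun e => a (Subtype.ext e),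
    ⟨k, (zpow_natCast _ _).trans (congrArg (fun x : Additive V => (x.toMul : G)) b).symm⟩⟩

theorem ss_meta [Finite G] [Fact p.Prime] (T : Subgroup G) (hc : ∀ a ∈ T, ∀ b ∈ T, a * b = b * a)
    (he : ∀ a ∈ T, a ^ p = 1) (h1 : ∀ a b : G, ⁅a, b⁆ ∈ T) (h2 : ∀ a : G, a ^ (p - 1) ∈ T) : SS G := by
  refine ss_of (fun G _ => ∃ T : Subgroup G, (∀ a ∈ T, ∀ b ∈ T, a * b = b * a) ∧
    (∀ a ∈ T, a ^ p = 1) ∧ (∀ a b : G, ⁅a, b⁆ ∈ T) ∧ ∀ a : G, a ^ (p - 1) ∈ T) ?_ ?_ ⟨T, hc, he, h1, h2⟩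
  · rintro G _ _ N _ ⟨T, hc, he, h1, h2⟩
    refine ⟨T.map (QuotientGroup.mk' N), ?_, ?_, fun a b => ?_, fun a => ?_⟩
    · rintro _ ⟨a, ha, rfl⟩ _ ⟨b, hb, rfl⟩
      rw [← map_mul, hc a ha b hb, map_mul]
    · rintro _ ⟨a, ha, rfl⟩
      rw [← map_pow, he a ha, map_one]
    · obtain ⟨a, rfl⟩ := QuotientGroup.mk_surjective a
      obtain ⟨b, rfl⟩ := QuotientGroup.mk_surjective b
      exact ⟨_, h1 a b, rfl⟩
    · obtain ⟨a, rfl⟩ := QuotientGroup.mk_surjective a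
      exact ⟨_, h2 a, rfl⟩
  rintro G _ _ _ ⟨T, hc, he, h1, h2⟩
  by_cases e : T = ⊥
  · obtain ⟨v, hv⟩ := exists_ne (1 : G)
    exact ⟨v, hv, Fit.normal_of_comm fun a b => mem_bot.1 (e.le (h1 a b)) ▸ one_mem _⟩
  obtain ⟨V, l, hV⟩ := exists_minN (Fit.normal_of_comm h1) e
  have := hV.1
  obtain ⟨w, w1⟩ := ne_bot_iff_exists_ne_one.1 hV.2.1
  refine ⟨w, fun c => w1 (Subtype.ext c), normalizer_eq_top_iff.1 (eq_top_iff.2 fun g _ => ?_)⟩
  obtain ⟨v, a, b, c⟩ := eig (fun a ha b hb => hc a (l ha) b (l hb)) (fun a ha => he a (l ha)) hV.2.1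
    (g := g) fun v hv => hc v (l hv) _ (h2 g)
  exact hV.pow (fun a ha b hb => hc a (l ha) b (l hb)) (fun a b w hw => hc w (l hw) _ (h1 a b)) a b c w.2

theorem comm_pow {x y : G} (h : ⁅x, y⁆ ∈ center G) (n : ℕ) : ⁅x ^ n, y⁆ = ⁅x, y⁆ ^ n := by
  induction n with
  | zero => simp
  | succ n ih =>
    have := mem_center_iff.1 (pow_mem h n) x
    rw [← ih] at this
    rw [pow_succ ⁅x, y⁆, ← ih]
    calc _ = x * ⁅x ^ n, y⁆ * x⁻¹ * ⁅x, y⁆ := by simp only [commutatorElement_def]; group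
      _ = _ := by rw [this]; group

theorem bad0 (hr : ∀ (G : Type) [Group G] [Finite G], F G → ∀ M N : Subgroup G, M.Normal → N.Normal →
      SS M → SS N → SS ↥(M ⊔ N)) [Fact p.Prime] [Fact q.Prime] (d : q ∣ p - 1) [Finite G]
    (h : Gd F p G) (hq : IsPGroup q G) {Z : Subgroup G} (d1 : ∀ a b : G, ⁅a, b⁆ ∈ Z)
    (d2 : ∀ a ∈ Z, a ^ q = 1 ∧ ∀ b, b * a = a * b) {x y : G} (hx : x ^ q = 1) (hy : y ^ q = 1) :
    ⁅x, y⁆ = 1 := by
  have := Fit.normal_of_comm d1
  have n : ∀ x : G, ((Z ⊔ zpowers x).comap (sg : Wr (ZMod p) G G →* G)).Normal := fun x =>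
    (Fit.normal_of_comm fun a b => mem_sup_left (d1 a b)).comap _
  have s : ∀ x : G, x ^ q = 1 → SS ((Z ⊔ zpowers x).comap (sg : Wr (ZMod p) G G →* G)) := fun x hx => by
    refine ss_meta (p := p) (sg.ker.subgroupOf _) (fun a ha b hb => Subtype.ext (tr_comm ha hb))
      (fun a ha => Subtype.ext (tr_pow ha)) (fun a b => ?_) fun a => ?_
    · obtain ⟨u, hu, _, ⟨i, rfl⟩, e⟩ := mem_sup_of_normal_left.1 a.2
      obtain ⟨v, hv, _, ⟨j, rfl⟩, e'⟩ := mem_sup_of_normal_left.1 b.2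
      refine (map_commutatorElement sg a.1 b.1).trans (commutatorElement_eq_one_iff_mul_comm.2 ?_)
      rw [← e, ← e']
      exact Commute.mul_left ((d2 u hu).2 _).symm (Commute.mul_right ((d2 v hv).2 _) (zpow_mul_comm x i j))
    · obtain ⟨u, hu, _, ⟨i, rfl⟩, e⟩ := mem_sup_of_normal_left.1 a.2
      obtain ⟨c, hc⟩ := d
      refine (map_pow sg a.1 _).trans ?_
      rw [← e, hc, pow_mul, Commute.mul_pow ((d2 u hu).2 _).symm, (d2 u hu).1, ← zpow_natCast (x ^ i),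
        ← zpow_mul, mul_comm i, zpow_mul, zpow_natCast, hx]
      simp
  have k := (hr _ h _ _ (n x) (n y) (s x hx) (s y hy)).hp (Fact.out : p.Prime) (Fact.out : q.Prime)
    (ne_of_dvd Fact.out d)
  have x1 : inr x ∈ (Z ⊔ zpowers x).comap (sg : Wr (ZMod p) G G →* G) ⊔ (Z ⊔ zpowers y).comap sg :=
    mem_sup_left (mem_sup_right (mem_zpowers x))
  have y1 : inr y ∈ (Z ⊔ zpowers x).comap (sg : Wr (ZMod p) G G →* G) ⊔ (Z ⊔ zpowers y).comap sg :=
    mem_sup_right (mem_sup_right (mem_zpowers y))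
  have t : ∀ f, ⟨f, 1⟩ ∈ (Z ⊔ zpowers x).comap (sg : Wr (ZMod p) G G →* G) ⊔ (Z ⊔ zpowers y).comap sg :=
    fun f => mem_sup_left (show _ ∈ comap _ _ from one_mem (Z ⊔ zpowers x))
  generalize (Z ⊔ zpowers x).comap (sg : Wr (ZMod p) G G →* G) ⊔ (Z ⊔ zpowers y).comap sg = M at *
  have m : ⁅(⟨_, x1⟩ : M), (⟨_, y1⟩ : M)⁆ ∈ Rq q M := subset_closure ⟨inr.range.subgroupOf M,
    (hq.of_surjective _ inr.rangeRestrict_surjective).comap_subtype, _, ⟨x, rfl⟩, _, ⟨y, rfl⟩, rfl⟩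
  refine tr_cent (p := p) fun f => (comm_iff (a := inr ⁅x, y⁆) (b := ⟨f, 1⟩) rfl).1 ?_
  have e : ⁅⁅(inr x : Wr (ZMod p) G G), (inr y : Wr (ZMod p) G G)⁆, (⟨f, 1⟩ : Wr (ZMod p) G G)⁆ = 1 :=
    congrArg Subtype.val (k ⁅⁅(⟨_, x1⟩ : M), (⟨_, y1⟩ : M)⁆, (⟨_, t f⟩ : M)⁆
    (commutator_le_left _ ⊤ (commutator_mem_commutator m (mem_top _)))
    ⟨1, Subtype.ext ((pow_one p).symm ▸ tr_pow (by simp [commutatorElement_def]))⟩)
  rw [map_commutatorElement]
  exact commutatorElement_eq_one_iff_mul_comm.1 e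

theorem bad (hF : IsForm F) (hS : IsSat F) (hs : ∀ (G : Type) [Group G] (K : Subgroup G), F G → F K)
    (hr : ∀ (G : Type) [Group G] [Finite G], F G → ∀ M N : Subgroup G, M.Normal → N.Normal →
      SS M → SS N → SS ↥(M ⊔ N)) [Fact p.Prime] [Fact q.Prime] (d : q ∣ p - 1) [Finite G]
    (h : Gd F p G) (hq : IsPGroup q G) (x y : G) : x * y = y * x := by
  induction hn : Nat.card G using Nat.strong_induction_on generalizing G with
  | _ n ih =>
  by_contra ne
  have : Nontrivial G := by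
    by_contra c
    exact ne ((not_nontrivial_iff_subsingleton.1 c).elim _ _)
  have := hq.center_nontrivial
  obtain ⟨k, hk, e⟩ := (hq.to_subgroup (center G)).nontrivial_iff_card.1 inferInstance
  obtain ⟨z, z1, z2, z3⟩ := cauchy (p := q) (e ▸ dvd_pow_self q hk.ne')
  have l : zpowers z ≤ center G := zpowers_le.2 z1
  have : (zpowers z).Normal := ⟨fun n hn g => by rwa [mem_center_iff.1 (l hn) g, mul_inv_cancel_right]⟩
  have c1 : ∀ a b : G, ⁅a, b⁆ ∈ zpowers z := fun a b => (QuotientGroup.eq_one_iff _).1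
    (commutatorElement_eq_one_iff_mul_comm.2 (ih _ (hn ▸ card_quot_lt (mt zpowers_eq_bot.1 z2))
      (h.quot hF hS _ (QuotientGroup.mk'_surjective (zpowers z))) (hq.to_quotient _) a b rfl))
  have c2 : ∀ a ∈ zpowers z, a ^ q = 1 := by
    rintro _ ⟨j, rfl⟩
    simp only
    rw [← zpow_natCast, ← zpow_mul, mul_comm, zpow_mul, zpow_natCast, z3, one_zpow]
  have c3 : ∀ a : G, a ^ q ∈ center G := fun a => mem_center_iff.2 fun g =>
    (commutatorElement_eq_one_iff_mul_comm.1 ((comm_pow (l (c1 a g)) q).trans (c2 _ (c1 a g)))).symm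
  let W : Subgroup (G × G × G) :=
    { carrier := {t | t.1 ∈ center G ∧ t.2.1 ∈ center G ∧ t.2.2 ∈ center G ∧ t.1 * t.2.1 * t.2.2 = 1}
      one_mem' := ⟨one_mem _, one_mem _, one_mem _, by simp⟩
      mul_mem' := fun {a b} u v => ⟨mul_mem u.1 v.1, mul_mem u.2.1 v.2.1, mul_mem u.2.2.1 v.2.2.1, by
        have h1 := mem_center_iff.1 u.2.1 b.1
        have h2 := mem_center_iff.1 u.2.2.1 (b.1 * b.2.1)
        calc _ = a.1 * (b.1 * a.2.1) * b.2.1 * a.2.2 * b.2.2 := by simp [mul_assoc]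
          _ = a.1 * a.2.1 * (b.1 * b.2.1 * a.2.2) * b.2.2 := by rw [h1]; group
          _ = (a.1 * a.2.1 * a.2.2) * (b.1 * b.2.1 * b.2.2) := by rw [h2]; group
          _ = 1 := by rw [u.2.2.2, v.2.2.2, mul_one]⟩
      inv_mem' := fun {a} u => ⟨inv_mem u.1, inv_mem u.2.1, inv_mem u.2.2.1, by
        have h1 := mem_center_iff.1 u.1 (a.2.2 * a.2.1)
        have h2 := mem_center_iff.1 u.2.1 a.2.2
        rw [← inv_eq_one, ← u.2.2.2]
        simp only [mul_inv_rev, Prod.fst_inv, Prod.snd_inv, inv_inv]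
        rw [← mul_assoc, h1, h2, mul_assoc]⟩ }
  have : W.Normal := ⟨fun a u g => by
    rwa [show g * a = a * g from Prod.ext (mem_center_iff.1 u.1 _)
      (Prod.ext (mem_center_iff.1 u.2.1 _) (mem_center_iff.1 u.2.2.1 _)), mul_inv_cancel_right]⟩
  have sj := QuotientGroup.mk'_surjective W
  have g := ((h.prod hF hS (h.prod hF hS h)).quot hF hS _ sj)
  have gq : IsPGroup q ((G × G × G) ⧸ W) := IsPGroup.to_quotient (fun t =>
    pel_mul (pel.map (hq t.1) (MonoidHom.inl G (G × G))) (pel_mul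
      (pel.map (hq t.2.1) ((MonoidHom.inr G (G × G)).comp (MonoidHom.inl G G)))
      (pel.map (hq t.2.2) ((MonoidHom.inr G (G × G)).comp (MonoidHom.inr G G))) (by simp)) (by simp)
      |> Eq.mp (by simp [pel])) W
  let Z := ((zpowers z).prod ((zpowers z).prod (zpowers z))).map (QuotientGroup.mk' W)
  have d1 : ∀ a b, ⁅a, b⁆ ∈ Z := fun a b => by
    obtain ⟨a, rfl⟩ := sj a
    obtain ⟨b, rfl⟩ := sj b
    exact ⟨⁅a, b⁆, ⟨c1 a.1 b.1, c1 a.2.1 b.2.1, c1 a.2.2 b.2.2⟩, rfl⟩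
  have d2 : ∀ a ∈ Z, a ^ q = 1 ∧ ∀ b, b * a = a * b := by
    rintro _ ⟨a, ha, rfl⟩
    refine ⟨congrArg (QuotientGroup.mk' W) (Prod.ext (c2 _ ha.1) (Prod.ext (c2 _ ha.2.1) (c2 _ ha.2.2))),
      fun b => ?_⟩
    obtain ⟨b, rfl⟩ := sj b
    exact congrArg (QuotientGroup.mk' W) (Prod.ext (mem_center_iff.1 (l ha.1) _)
      (Prod.ext (mem_center_iff.1 (l ha.2.1) _) (mem_center_iff.1 (l ha.2.2) _)))
  have x1 : QuotientGroup.mk' W (x, x⁻¹, 1) ^ q = 1 := (QuotientGroup.eq_one_iff ((x, x⁻¹, 1) ^ q)).2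
    ⟨c3 _, c3 _, c3 _, by simp⟩
  have y1 : QuotientGroup.mk' W (y, 1, y⁻¹) ^ q = 1 := (QuotientGroup.eq_one_iff ((y, 1, y⁻¹) ^ q)).2
    ⟨c3 _, c3 _, c3 _, by simp⟩
  have n1 : ⁅QuotientGroup.mk' W (x, x⁻¹, 1), QuotientGroup.mk' W (y, 1, y⁻¹)⁆ ≠ 1 := fun c => ne (by
    simpa [commutatorElement_def, mul_inv_eq_one, mul_inv_eq_iff_eq_mul] using
      ((QuotientGroup.eq_one_iff ⁅(x, x⁻¹, (1 : G)), (y, (1 : G), y⁻¹)⁆).1 c).2.2.2)
  exact n1 (bad0 hr d g gq d1 d2 x1 y1)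

theorem max_hp (hF : IsForm F) (hS : IsSat F) (hs : ∀ (G : Type) [Group G] (K : Subgroup G), F G → F K)
    (hr : ∀ (G : Type) [Group G] [Finite G], F G → ∀ M N : Subgroup G, M.Normal → N.Normal →
      SS M → SS N → SS ↥(M ⊔ N)) (hG : F G) : H0 G := by
  intro p q hp hq d
  have := Fact.mk hp
  have := Fact.mk hq
  induction hn : Nat.card G using Nat.strong_induction_on generalizing G with
  | _ n ih =>
  have := hF.1 _ hG
  intro x hx hx'
  by_contra x1
  have a : ∀ N : Subgroup G, ∀ _ : N.Normal, N ≠ ⊥ → Hp p q (G ⧸ N) := fun N _ h =>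
    ih _ (hn ▸ card_quot_lt h) (hF.2.2.1 _ N hG) rfl
  have b : ∀ N : Subgroup G, N.Normal → N ≠ ⊥ → x ∈ N := fun N _ h => (QuotientGroup.eq_one_iff x).1
    (a N ‹_› h _ (Rq_map_le (QuotientGroup.mk' N) ⟨x, hx, rfl⟩) (hx'.map (QuotientGroup.mk' N)))
  obtain ⟨N, -, hN⟩ := exists_minN (M := Rq q G) inferInstance fun c => x1 (c.le hx)
  have := hN.1
  have xN := b N hN.1 hN.2.1
  have g := stepA hF hS hG hN (fun K u v => inf_eq_left.1 (hN.2.2 _ inferInstance inf_le_left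
    fun c => x1 (c.le ⟨xN, b K u v⟩))) (Fit.dv hp (z := ⟨x, xN⟩) (hx'.imp fun k hk => Subtype.ext hk)
      fun c => x1 (congrArg Subtype.val c))
  have l : Rq q G ≤ centralizer N := (closure_le _).2 (by
    rintro _ ⟨Q, hQ, u, hu, v, hv, rfl⟩
    exact (QuotientGroup.eq_one_iff ⁅u, v⁆).1 (commutatorElement_eq_one_iff_mul_comm.2
      (congrArg Subtype.val (bad hF hS hs hr d (Gd.sub hF hS (Q.map (QuotientGroup.mk' _)) (hs _ _ g))
        (hQ.map _) ⟨_, u, hu, rfl⟩ ⟨_, v, hv, rfl⟩))))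
  exact x1 ((a N hN.1 hN.2.1).cen hp hq (ne_of_dvd hp d) (QuotientGroup.mk' N)
    (fun v hv _ r hr => (l hr v (QuotientGroup.ker_mk' N ▸ hv)).symm) x hx hx')

end Pool.Agent.H22.GLS
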