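import Mathlib

set_option autoImplicit false

namespace Pool.Agent.H22.Sym

open Equiv Set

abbrev G := Perm ℤ

def Sy (B : Set ℤ) : Subgroup G where
  carrier := {g | ∀ x, x ∉ B → g x = x}
  mul_mem' {a b} ha hb x hx := by rw [Perm.mul_apply, hb x hx, ha x hx]
  one_mem' _ _ := rfl
  inv_mem' {a} ha x hx := by rw [Perm.inv_eq_iff_eq, ha x hx]

theorem Sy.mono {B C : Set ℤ} (h : B ⊆ C) : Sy B ≤ Sy C := fun _ hg x hx => hg x fun k => hx (h k)

theorem Sy.maps {B : Set ℤ} {g : G} (hg : g ∈ Sy B) {x : ℤ} (hx : x ∈ B) : g x ∈ B := by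
  by_contra h
  have := g.injective (hg _ h)
  exact h (this.symm ▸ hx)

theorem Sy.comm {B C : Set ℤ} (h : Disjoint B C) {g k : G} (hg : g ∈ Sy B) (hk : k ∈ Sy C) :
    g * k = k * g := by
  ext x
  simp only [Perm.mul_apply]
  by_cases hB : x ∈ B
  · rw [hk x (disjoint_left.1 h hB), hk _ (disjoint_left.1 h (Sy.maps hg hB))]
  · rw [hg x hB]
    by_cases hC : x ∈ C
    · rw [hg _ (disjoint_right.1 h (Sy.maps hk hC))]
    · rw [hk x hC, hg x hB]

theorem Sy.conj {B : Set ℤ} {z : G} (hz : z ∈ Sy B) (h : G) : h * z * h⁻¹ ∈ Sy (h '' B) := by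
  intro x hx
  have : h⁻¹ x ∉ B := fun k => hx ⟨_, k, by simp⟩
  simp [hz _ (by simpa using this)]

theorem conj_agree {D : Set ℤ} {z x y : G} (hz : z ∈ Sy D) (h : ∀ p ∈ D, x p = y p) :
    x * z * x⁻¹ = y * z * y⁻¹ := by
  have hw : y⁻¹ * x ∈ Sy Dᶜ := fun p hp => by
    rw [Perm.mul_apply, h p (not_not.1 hp), Perm.inv_eq_iff_eq]
  have := Sy.comm disjoint_compl_right hz hw
  calc x * z * x⁻¹ = y * (y⁻¹ * x * z) * x⁻¹ := by group
    _ = y * z * y⁻¹ := by rw [← this]; group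

theorem ext_perm {B Y : Set ℤ} (φ : ℤ → ℤ) (hY : Y ⊆ B) (hφ : InjOn φ Y) (hm : MapsTo φ Y B)
    (h1 : (B \ Y).Infinite) (h2 : (B \ φ '' Y).Infinite) :
    ∃ g ∈ Sy B, ∀ y ∈ Y, g y = φ y := by
  classical
  have := h1.to_subtype
  have := h2.to_subtype
  obtain ⟨e⟩ : Nonempty (↥(B \ Y) ≃ ↥(B \ φ '' Y)) := inferInstance
  let f : ℤ → ℤ := fun x => if x ∈ Y then φ x else if h : x ∈ B \ Y then e ⟨x, h⟩ else x
  have fY : ∀ x ∈ Y, f x = φ x := fun x hx => if_pos hx
  have fB : ∀ x (h : x ∈ B \ Y), f x = e ⟨x, h⟩ := fun x h => (if_neg h.2).trans (dif_pos h)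
  have fO : ∀ x ∉ B, f x = x := fun x h =>
    (if_neg fun k => h (hY k)).trans (dif_neg fun k => h k.1)
  have tri : ∀ x, x ∈ Y ∨ x ∈ B \ Y ∨ x ∉ B := fun x => by simp only [mem_sdiff]; tauto
  have hb : Function.Bijective f := by
    constructor
    · intro a b hab
      rcases tri a with ha | ha | ha <;> rcases tri b with hb | hb | hb
      · exact hφ ha hb (by rw [← fY a ha, hab, fY b hb])
      · exact absurd ⟨a, ha, by rw [← fY a ha, hab, fB b hb]⟩ (e ⟨b, hb⟩).2.2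
      · exact absurd (by rw [← fO b hb, ← hab, fY a ha]; exact hm ha) hb
      · exact absurd ⟨b, hb, by rw [← fY b hb, ← hab, fB a ha]⟩ (e ⟨a, ha⟩).2.2
      · rw [fB a ha, fB b hb] at hab
        exact congrArg Subtype.val (e.injective (Subtype.ext hab))
      · exact absurd (by rw [← fO b hb, ← hab, fB a ha]; exact (e _).2.1) hb
      · exact absurd (by rw [← fO a ha, hab, fY b hb]; exact hm hb) ha
      · exact absurd (by rw [← fO a ha, hab, fB b hb]; exact (e _).2.1) ha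
      · rwa [fO a ha, fO b hb] at hab
    · intro y
      by_cases hy : y ∈ B
      · by_cases hy' : y ∈ φ '' Y
        · obtain ⟨x, hx, rfl⟩ := hy'
          exact ⟨x, fY x hx⟩
        · exact ⟨e.symm ⟨y, hy, hy'⟩, by rw [fB _ (e.symm _).2]; simp⟩
      · exact ⟨y, fO y hy⟩
  exact ⟨Equiv.ofBijective f hb, fO, fY⟩

theorem glue {ι : Type} (B : ι → Set ℤ) (hB : Pairwise fun i j => Disjoint (B i) (B j))
    (x : ι → G) (hx : ∀ i, x i ∈ Sy (B i)) :
    ∃ X ∈ Sy (⋃ i, B i), ∀ i, ∀ p ∈ B i, X p = x i p := by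
  classical
  let F : (ι → G) → ℤ → ℤ := fun y p => if h : ∃ i, p ∈ B i then y h.choose p else p
  have F1 : ∀ y i, ∀ p ∈ B i, F y p = y i p := fun y i p hp => by
    have h : ∃ i, p ∈ B i := ⟨i, hp⟩
    have : h.choose = i := by
      by_contra hne
      exact disjoint_left.1 (hB hne) h.choose_spec hp
    simp only [F, dif_pos h, this]
  have F2 : ∀ y p, p ∉ ⋃ i, B i → F y p = p := fun y p hp => dif_neg (by simpa using hp)
  have F3 : ∀ y y' : ι → G, (∀ i, y i ∈ Sy (B i)) → (∀ i, y' i * y i = 1) → ∀ p, F y' (F y p) = p := by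
    intro y y' hy hy' p
    by_cases hp : p ∈ ⋃ i, B i
    · obtain ⟨i, hi⟩ := mem_iUnion.1 hp
      rw [F1 y i p hi, F1 y' i _ (Sy.maps (hy i) hi), ← Perm.mul_apply, hy', Perm.one_apply]
    · rw [F2 y p hp, F2 y' p hp]
  exact ⟨⟨F x, F fun i => (x i)⁻¹, F3 x _ hx (fun _ => inv_mul_cancel _),
    F3 _ x (fun i => inv_mem (hx i)) (fun _ => mul_inv_cancel _)⟩,
    F2 x, F1 x⟩

structure Std (B : Set ℤ) (t : G) : Prop where
  sy : t ∈ Sy B
  sq : ∀ x, t (t x) = x
  mv : {x | t x ≠ x}.Infinite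
  fx : {x | x ∈ B ∧ t x = x}.Infinite

theorem Std.lt_inf {B : Set ℤ} {t : G} (h : Std B t) : {x | x < t x}.Infinite := by
  intro hf
  refine h.mv ((hf.union (hf.image t)).subset fun x hx => ?_)
  rcases lt_or_gt_of_ne (show t x ≠ x from hx) with k | k
  · exact Or.inr ⟨t x, by simpa [h.sq] using k, h.sq x⟩
  · exact Or.inl k

theorem Std.conj {B : Set ℤ} {t s : G} (ht : Std B t) (hs : Std B s) :
    ∃ g ∈ Sy B, g * t * g⁻¹ = s := by
  classical
  have := ht.lt_inf.to_subtype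
  have := hs.lt_inf.to_subtype
  obtain ⟨e⟩ : Nonempty (↥{x | x < t x} ≃ ↥{x | x < s x}) := inferInstance
  let φ : ℤ → ℤ := fun x => if h : x < t x then e ⟨x, h⟩ else
    if h : t x < t (t x) then s (e ⟨t x, h⟩) else x
  have p1 : ∀ x (h : x < t x), φ x = e ⟨x, h⟩ := fun x h => dif_pos h
  have p2 : ∀ x (h : x < t x), φ (t x) = s (e ⟨x, h⟩) := fun x h => by
    have h1 : ¬ t x < t (t x) := by rw [ht.sq]; omega
    have h2 : t (t x) < t (t (t x)) := by rw [ht.sq]; exact h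
    simp only [φ, dif_neg h1, dif_pos h2]
    exact congrArg (fun a => s (e a)) (Subtype.ext (ht.sq x))
  have cs : ∀ x, t x ≠ x → x < t x ∨ ∃ y, y < t y ∧ x = t y := fun x hx => by
    rcases lt_or_gt_of_ne hx with k | k
    · exact Or.inr ⟨t x, by simpa [ht.sq] using k, (ht.sq x).symm⟩
    · exact Or.inl k
  have elt : ∀ a, (e a : ℤ) < s (e a) := fun a => (e a).2
  have him : φ '' {x | t x ≠ x} = {x | s x ≠ x} := by
    ext y
    constructor
    · rintro ⟨x, hx, rfl⟩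
      rcases cs x hx with h | ⟨z, h, rfl⟩
      · rw [p1 x h]; exact (elt _).ne'
      · rw [p2 z h]
        change s (s _) ≠ _
        rw [hs.sq]
        exact (elt _).ne
    · intro hy
      rcases lt_or_gt_of_ne (show s y ≠ y from hy) with k | k
      · have k' : s y < s (s y) := by rwa [hs.sq]
        have h0 := (e.symm ⟨s y, k'⟩).2
        refine ⟨t (e.symm ⟨s y, k'⟩), ?_, ?_⟩
        · change t (t _) ≠ _
          rw [ht.sq]
          exact ne_of_lt h0
        · rw [p2 _ h0]; simp [hs.sq]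
      · have h0 := (e.symm ⟨y, k⟩).2
        exact ⟨_, ne_of_gt h0, by rw [p1 _ h0]; simp⟩
  have mvB : ∀ {u : G}, u ∈ Sy B → {x | u x ≠ x} ⊆ B := fun hu x hx => by
    by_contra k
    exact hx (hu x k)
  obtain ⟨g, hg, hg'⟩ := ext_perm (B := B) (Y := {x | t x ≠ x}) φ (mvB ht.sy) (by
      intro a ha b hb hab
      rcases cs a ha with h | ⟨z, h, rfl⟩ <;> rcases cs b hb with h' | ⟨z', h', rfl⟩
      · rw [p1 a h, p1 b h'] at hab
        exact congrArg Subtype.val (e.injective (Subtype.ext hab))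
      · rw [p1 a h, p2 z' h'] at hab
        have k1 := elt ⟨a, h⟩
        have k2 := elt ⟨z', h'⟩
        rw [hab, hs.sq] at k1
        omega
      · rw [p2 z h, p1 b h'] at hab
        have k1 := elt ⟨b, h'⟩
        have k2 := elt ⟨z, h⟩
        rw [← hab, hs.sq] at k1
        omega
      · rw [p2 z h, p2 z' h'] at hab
        exact congrArg (fun a => t a.1) (e.injective (Subtype.ext (s.injective hab))))
    (fun x hx => mvB hs.sy (him ▸ mem_image_of_mem φ hx))
    (ht.fx.mono fun x hx => ⟨hx.1, not_not.2 hx.2⟩)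
    (him ▸ hs.fx.mono fun x hx => ⟨hx.1, not_not.2 hx.2⟩)
  refine ⟨g, hg, ?_⟩
  rw [mul_inv_eq_iff_eq_mul]
  ext x
  simp only [Perm.mul_apply]
  by_cases hx : t x = x
  · rw [hx]
    by_contra k
    obtain ⟨y, hy, e'⟩ : g x ∈ φ '' {x | t x ≠ x} := him ▸ fun k' => k k'.symm
    rw [← hg' y hy] at e'
    exact hy (by rw [g.injective e', hx])
  · have hx' : t (t x) ≠ t x := fun k => hx (t.injective k)
    rw [hg' x hx, hg' _ hx']
    rcases cs x hx with h | ⟨z, h, rfl⟩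
    · rw [p1 x h, p2 x h]
    · rw [p2 z h, ht.sq, hs.sq, p1 z h]

theorem two_inv (g : G) : ∃ s t : G, g = s * t ∧ (∀ x, s (s x) = x) ∧ (∀ x, t (t x) = x) ∧
    (∀ x, g x = x → s x = x) ∧ ∀ x, g x = x → t x = x := by
  let b : ℤ → ℤ := fun x => (Quotient.mk (Perm.SameCycle.setoid g) x).out
  have hb : ∀ x, ∃ n : ℤ, (g ^ n) (b x) = x := fun x =>
    Quotient.mk_out (s := Perm.SameCycle.setoid g) x
  choose n hn using hb
  let f : ℤ → ℤ := fun x => (g ^ (-n x)) (b x)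
  have hf : ∀ x (m : ℤ), f ((g ^ m) x) = (g ^ (-m)) (f x) := by
    intro x m
    have h1 : b ((g ^ m) x) = b x :=
      congrArg Quotient.out (Quotient.sound (Perm.SameCycle.symm ⟨m, rfl⟩))
    have h2 := hn ((g ^ m) x)
    rw [h1] at h2
    conv_rhs at h2 => rw [← hn x]
    have h3 := congrArg (g ^ (-n ((g ^ m) x) - m - n x)) h2
    simp only [← Perm.mul_apply, ← zpow_add] at h3
    simp only [f, h1, ← Perm.mul_apply, ← zpow_add]
    rw [show -m + -n x = -n ((g ^ m) x) - m - n x + n ((g ^ m) x) by ring, h3]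
    congr 2
    ring
  have hb0 : ∀ x, f (b x) = b x := fun x => by
    have := hf x (-n x)
    have h1 : (g ^ (-n x)) x = b x := by
      rw [zpow_neg, Perm.inv_eq_iff_eq, hn]
    rw [h1] at this
    rw [this]
    simp only [f, ← Perm.mul_apply, ← zpow_add]
    simp
  have hff : ∀ x, f (f x) = x := fun x => by
    change f ((g ^ (-n x)) (b x)) = x
    rw [hf, hb0, neg_neg, hn]
  have hfix : ∀ x, g x = x → f x = x := fun x hx => by
    have h1 : b x = x := by
      have := Perm.zpow_apply_eq_self_of_apply_eq_self hx (n x)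
      exact (g ^ n x).injective ((hn x).trans this.symm)
    simp only [f, h1]
    exact Perm.zpow_apply_eq_self_of_apply_eq_self hx _
  let s : G := ⟨f, f, hff, hff⟩
  refine ⟨s, s * g, by ext x; exact (hff _).symm, hff, fun x => ?_, hfix, fun x hx => ?_⟩
  · change f (g (f (g x))) = x
    have h1 := hf (f (g x)) 1
    rw [zpow_one, hff] at h1
    rw [h1]
    simp
  · change f (g x) = x
    rw [hx, hfix x hx]

theorem ex_std {C : Set ℤ} (hC : C.Infinite) : ∃ t, Std C t := by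
  let f : ℕ ↪ ℤ := ⟨fun n => hC.natEmbedding C n, fun a b h => (hC.natEmbedding C).injective
    (Subtype.ext h)⟩
  let r : ℕ → ℕ := fun n => if n % 3 = 0 then n + 1 else if n % 3 = 1 then n - 1 else n
  have hr : ∀ n, r (r n) = n := fun n => by simp only [r]; split_ifs <;> omega
  let e : Perm ℕ := ⟨r, r, hr, hr⟩
  have he : ∀ n, e.viaEmbedding f (f n) = f (r n) := fun n => Perm.viaEmbedding_apply e f n
  refine ⟨e.viaEmbedding f, fun x hx => Perm.viaEmbedding_apply_of_notMem _ _ _ ?_, fun x => ?_,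
    ?_, ?_⟩
  · rintro ⟨n, rfl⟩
    exact hx (hC.natEmbedding C n).2
  · by_cases hx : x ∈ range f
    · obtain ⟨n, rfl⟩ := hx
      rw [he, he, hr]
    · rw [Perm.viaEmbedding_apply_of_notMem _ _ _ hx, Perm.viaEmbedding_apply_of_notMem _ _ _ hx]
  · refine infinite_of_injective_forall_mem (f := fun n => f (3 * n))
      (fun a b h => by have := f.injective h; omega) fun n k => ?_
    rw [he] at k
    have := f.injective k
    simp [r] at this
  · refine infinite_of_injective_forall_mem (f := fun n => f (3 * n + 2))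
      (fun a b h => by have := f.injective h; omega) fun n => ⟨(hC.natEmbedding C _).2, ?_⟩
    rw [he]
    congr 1
    simp only [r]
    split_ifs <;> omega

theorem prod_std {B B' : Set ℤ} (h : B' ⊆ B) (hi : (B \ B').Infinite) {g : G} (hg : g ∈ Sy B') :
    ∃ s t, Std B s ∧ Std B t ∧ g = s * t := by
  obtain ⟨s, t, e, hs, ht, hs', ht'⟩ := two_inv g
  obtain ⟨r, hr⟩ := ex_std hi
  have key : ∀ u : G, (∀ x, u (u x) = x) → (∀ x, g x = x → u x = x) → Std B (u * r) ∧ u * r = r * u := by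
    intro u h1 h2
    have hu : u ∈ Sy B' := fun x hx => h2 x (hg x hx)
    have hc := Sy.comm disjoint_sdiff_right hu hr.sy
    refine ⟨⟨mul_mem (Sy.mono h hu) (Sy.mono sdiff_subset hr.sy), fun x => ?_,
      hr.mv.mono fun x hx => ?_, hr.fx.mono fun x hx => ⟨hx.1.1, ?_⟩⟩, hc⟩
    · conv_lhs => rw [hc]
      change r (u (r (u x))) = x
      rw [← Perm.mul_apply u r, hc, Perm.mul_apply, hr.sq, h1]
    · have hx' : x ∈ B \ B' := by
        by_contra k
        exact hx (hr.sy x k)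
      change u (r x) ≠ x
      rw [hu _ (Sy.maps hr.sy hx').2]
      exact hx
    · rw [Perm.mul_apply, hx.2, hu x hx.1.2]
  refine ⟨s * r, t * r, (key s hs hs').1, (key t ht ht').1, ?_⟩
  rw [(key t ht ht').2, e]
  ext x
  simp [hr.sq]

theorem split_inf {E : Set ℤ} (hE : E.Infinite) :
    ∃ φ : ℤ → ℤ, Function.Injective φ ∧ range φ ⊆ E ∧ (E \ range φ).Infinite := by
  let f := hE.natEmbedding E
  have hf : ∀ a b, (f a : ℤ) = f b → a = b := fun a b h => f.injective (Subtype.ext h)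
  refine ⟨fun x => f (2 * Encodable.encode x), fun a b h => Encodable.encode_injective
    (by have := hf _ _ h; omega), ?_, ?_⟩
  · rintro _ ⟨x, rfl⟩
    exact (f _).2
  · refine infinite_of_injective_forall_mem (f := fun n => (f (2 * n + 1) : ℤ))
      (fun a b h => by have := hf _ _ h; omega) fun n => ⟨(f _).2, ?_⟩
    rintro ⟨x, hx⟩
    have := hf _ _ hx
    omega

theorem dnt_aux {B B' : Set ℤ} (hE : (B ∩ B').Infinite) {g : G} (hg : g ∈ Sy (B ∪ B'))
    (h : (B \ g '' (B' \ B)).Infinite) :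
    ∃ a ∈ Sy B, ∃ b ∈ Sy B', ∃ c ∈ Sy B, g = a * b * c := by
  obtain ⟨φ, hφ, h1, h2⟩ := split_inf hE
  obtain ⟨a, ha, ha'⟩ := ext_perm (B := B) (Y := g '' (B' \ B) ∩ B) φ inter_subset_right hφ.injOn
    (fun x _ => (h1 ⟨x, rfl⟩).1) (h.mono fun x hx => ⟨hx.1, fun k => hx.2 k.1⟩)
    (h2.mono fun x hx => ⟨hx.1.1, fun k => hx.2 (image_subset_range _ _ k)⟩)
  have hY : ∀ d ∈ B' \ B, a (g d) ∈ range φ ∨ a (g d) ∈ B' \ B := fun d hd => by
    by_cases k : g d ∈ B
    · exact Or.inl ⟨_, (ha' _ ⟨⟨d, hd, rfl⟩, k⟩).symm⟩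
    · rw [ha _ k]
      exact Or.inr ⟨(Sy.maps hg (Or.inr hd.1)).resolve_left k, k⟩
  obtain ⟨b, hb, hb'⟩ := ext_perm (B := B') (Y := (a * g) '' (B' \ B)) ((a * g)⁻¹ : G)
    (by
      rintro _ ⟨d, hd, rfl⟩
      exact (hY d hd).elim (fun k => (h1 k).2) fun k => k.1)
    (Equiv.injective _).injOn
    (by
      rintro _ ⟨d, hd, rfl⟩
      simpa using hd.1)
    (h2.mono fun x hx => ⟨hx.1.2, by
      rintro ⟨d, hd, rfl⟩
      exact (hY d hd).elim hx.2 fun k => k.2 hx.1.1⟩)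
    (hE.mono fun x hx => ⟨hx.2, by
      rintro ⟨_, ⟨d, hd, rfl⟩, rfl⟩
      exact hd.2 (by simpa using hx.1)⟩)
  refine ⟨a⁻¹, inv_mem ha, b⁻¹, inv_mem hb, b * (a * g), fun x hx => ?_, by group⟩
  by_cases k : x ∈ B'
  · rw [Perm.mul_apply, hb' _ ⟨x, ⟨k, hx⟩, rfl⟩]
    simp
  · simp only [Perm.mul_apply]
    rw [hg x (by simp [hx, k]), ha x hx, hb x k]

theorem dnt {B B' : Set ℤ} (hE : (B ∩ B').Infinite) {g : G} (hg : g ∈ Sy (B ∪ B')) :
    ∃ a ∈ (Sy B : Set G) ∪ Sy B', ∃ b ∈ (Sy B : Set G) ∪ Sy B', ∃ c ∈ (Sy B : Set G) ∪ Sy B',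
      g = a * b * c := by
  by_cases h : (B \ g '' (B' \ B)).Infinite
  · obtain ⟨a, ha, b, hb, c, hc, e⟩ := dnt_aux hE hg h
    exact ⟨a, Or.inl ha, b, Or.inr hb, c, Or.inl hc, e⟩
  · obtain ⟨a, ha, b, hb, c, hc, e⟩ := dnt_aux (B := B') (B' := B) (inter_comm _ _ ▸ hE)
      (union_comm _ _ ▸ hg) ((hE.sdiff (not_infinite.1 h)).mono fun x hx => ⟨hx.1.2, by
        rintro ⟨d, hd, rfl⟩
        refine hx.2 ⟨hx.1.1, ?_⟩
        rintro ⟨d', hd', e⟩
        exact hd'.2 (g.injective e ▸ hd.1)⟩)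
    exact ⟨a, Or.inr ha, b, Or.inl hb, c, Or.inr hc, e⟩

end Pool.Agent.H22.Sym
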