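import Mathlib
import Pool.Agent.H22.SymA

set_option autoImplicit false

namespace Pool.Agent.H22.Sym

open Equiv Set Topology Filter

variable [TopologicalSpace G] [IsTopologicalGroup G]

def Bd (S U : Set G) : Prop := ∃ V ∈ 𝓝 (1 : G), ∀ g ∈ S, ∀ v ∈ V, g * v * g⁻¹ ∈ U

def Eqc (S : Set G) : Prop := ∀ U ∈ 𝓝 (1 : G), Bd S U

omit [IsTopologicalGroup G] in
theorem Bd.mono {S T U : Set G} (h : Bd S U) (k : T ⊆ S) : Bd T U :=
  let ⟨V, hV, h⟩ := h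
  ⟨V, hV, fun g hg => h g (k hg)⟩

omit [IsTopologicalGroup G] in
theorem Bd.union {S T U : Set G} (h : Bd S U) (k : Bd T U) : Bd (S ∪ T) U :=
  let ⟨V, hV, h⟩ := h
  let ⟨W, hW, k⟩ := k
  ⟨V ∩ W, inter_mem hV hW, fun g hg v hv => hg.elim (fun a => h g a v hv.1) fun a => k g a v hv.2⟩

theorem eqc_single (g : G) : Eqc {g} := fun U hU => by
  have : Continuous fun v : G => g * v * g⁻¹ := by fun_prop
  refine ⟨_, this.continuousAt.preimage_mem_nhds (by simpa using hU), ?_⟩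
  rintro _ rfl v hv
  exact hv

theorem eqc_finite {S : Set G} (hS : S.Finite) : Eqc S := fun U hU => by
  induction S, hS using Set.Finite.induction_on with
  | empty => exact ⟨univ, univ_mem, by simp⟩
  | insert _ _ ih => exact (eqc_single _ U hU).union ih

omit [IsTopologicalGroup G] in
theorem Eqc.mul {S T : Set G} (h : Eqc S) (k : Eqc T) : Eqc {g | ∃ a ∈ S, ∃ b ∈ T, g = a * b} := by
  intro U hU
  obtain ⟨V, hV, h⟩ := h U hU
  obtain ⟨W, hW, k⟩ := k V hV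
  refine ⟨W, hW, ?_⟩
  rintro _ ⟨a, ha, b, hb, rfl⟩ v hv
  have := h a ha _ (k b hb v hv)
  rwa [show a * (b * v * b⁻¹) * a⁻¹ = a * b * v * (a * b)⁻¹ by group] at this

theorem step (u : ℕ → Set G) (hu : (𝓝 (1 : G)).HasAntitoneBasis u) (Y : ℝ → G) (n : ℕ)
    (R : {R : Set ℝ // ¬ R.Countable}) : ∃ (a b : ℝ) (R1 : Set ℝ) (R' : {R : Set ℝ // ¬ R.Countable}),
      a < b ∧ a ∈ R1 ∧ b ∈ R1 ∧ R'.1 ⊆ R1 ∧ R1 ⊆ R.1 ∧ Bd (Y '' R1) (u n) ∧
      ((∀ r ∈ R'.1, r < a) ∨ ∀ r ∈ R'.1, b < r) := by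
  obtain ⟨m, hm⟩ : ∃ m, ¬ {r | r ∈ R.1 ∧ ∀ v ∈ u m, Y r * v * (Y r)⁻¹ ∈ u n}.Countable := by
    by_contra h
    push Not at h
    refine R.2 ((countable_iUnion h).mono fun r hr => ?_)
    obtain ⟨V, hV, k⟩ := eqc_single (Y r) _ (hu.mem n)
    obtain ⟨m, hm⟩ := hu.mem_iff.1 hV
    exact mem_iUnion.2 ⟨m, hr, fun v hv => k _ rfl v (hm hv)⟩
  set R1 := {r | r ∈ R.1 ∧ ∀ v ∈ u m, Y r * v * (Y r)⁻¹ ∈ u n}
  have hB : Bd (Y '' R1) (u n) := ⟨u m, hu.mem m, by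
    rintro _ ⟨r, hr, rfl⟩
    exact hr.2⟩
  have hi : R1.Infinite := fun h => hm h.countable
  obtain ⟨a, b, c, ha, hb, hc, hab, hbc⟩ : ∃ a b c, a ∈ R1 ∧ b ∈ R1 ∧ c ∈ R1 ∧ a < b ∧ b < c := by
    obtain ⟨t, ht, hc⟩ := hi.exists_subset_card_eq 3
    let e := t.orderEmbOfFin hc
    exact ⟨e 0, e 1, e 2, ht (t.orderEmbOfFin_mem hc _), ht (t.orderEmbOfFin_mem hc _),
      ht (t.orderEmbOfFin_mem hc _), e.strictMono (by decide), e.strictMono (by decide)⟩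
  by_cases h : (R1 ∩ Ioi b).Countable
  · refine ⟨b, c, R1, ⟨R1 ∩ Iio b, fun k => hm (((h.union k).insert b).mono fun r hr => ?_)⟩, hbc,
      hb, hc, inter_subset_left, fun r hr => hr.1, hB, Or.inl fun r hr => hr.2⟩
    rcases lt_trichotomy r b with e | e | e
    · exact Or.inr (Or.inr ⟨hr, e⟩)
    · exact Or.inl e
    · exact Or.inr (Or.inl ⟨hr, e⟩)
  · exact ⟨a, b, R1, ⟨_, h⟩, hab, ha, hb, inter_subset_left, fun r hr => hr.1, hB,
      Or.inr fun r hr => hr.2⟩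

theorem seq_ex (u : ℕ → Set G) (hu : (𝓝 (1 : G)).HasAntitoneBasis u) (Y : ℝ → G) :
    ∃ a b : ℕ → ℝ, (∀ n, a n < b n) ∧ (Pairwise fun m n => Disjoint (Ico (a m) (b m)) (Ico (a n) (b n))) ∧
      Eqc (Y '' (range a ∪ range b)) := by
  choose a b R1 R' h1 h2 h3 h4 h5 h6 h7 using step u hu Y
  let R : ℕ → {R : Set ℝ // ¬ R.Countable} := fun n =>
    Nat.rec ⟨univ, not_countable_univ⟩ (fun n R => R' n R) n
  have hR : ∀ n, R (n + 1) = R' n (R n) := fun n => rfl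
  have anti : Antitone fun n => (R n).1 :=
    antitone_nat_of_succ_le fun n => (h4 n (R n)).trans (h5 n (R n))
  have hin : ∀ m n, m < n → a n (R n) ∈ (R' m (R m)).1 ∧ b n (R n) ∈ (R' m (R m)).1 :=
    fun m n h => ⟨anti (Nat.succ_le_of_lt h) (h5 _ _ (h2 _ _)),
      anti (Nat.succ_le_of_lt h) (h5 _ _ (h3 _ _))⟩
  have hd : ∀ m n, m < n → Disjoint (Ico (a m (R m)) (b m (R m))) (Ico (a n (R n)) (b n (R n))) := by
    intro m n h
    rw [disjoint_left]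
    intro x hx hx'
    rcases h7 m (R m) with k | k
    · linarith [k _ (hin m n h).2, hx.1, hx'.2]
    · linarith [k _ (hin m n h).1, hx.2, hx'.1]
  refine ⟨fun n => a n (R n), fun n => b n (R n), fun n => h1 _ _, fun m n h => ?_, fun U hU => ?_⟩
  · rcases lt_or_gt_of_ne h with k | k
    · exact hd m n k
    · exact (hd n m k).symm
  · obtain ⟨n, hn⟩ := hu.mem_iff.1 hU
    obtain ⟨V, hV, k⟩ := h6 n (R n)
    have f : (Y '' ((fun m => a m (R m)) '' Iic n ∪ (fun m => b m (R m)) '' Iic n)).Finite :=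
      (((finite_Iic n).image _).union ((finite_Iic n).image _)).image _
    refine (Bd.union (S := Y '' R1 n (R n)) ⟨V, hV, fun g hg v hv => hn (k g hg v hv)⟩
      (eqc_finite f U hU)).mono ?_
    rintro _ ⟨_, ⟨m, rfl⟩ | ⟨m, rfl⟩, rfl⟩
    · rcases le_or_gt m n with e | e
      · exact Or.inr ⟨_, Or.inl ⟨m, e, rfl⟩, rfl⟩
      · exact Or.inl ⟨_, h4 _ _ (hin n m e).1, rfl⟩
    · rcases le_or_gt m n with e | e
      · exact Or.inr ⟨_, Or.inr ⟨m, e, rfl⟩, rfl⟩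
      · exact Or.inl ⟨_, h4 _ _ (hin n m e).2, rfl⟩

theorem fam (u : ℕ → Set G) (hu : (𝓝 (1 : G)).HasAntitoneBasis u) {C : Set ℤ} (hC : C.Infinite) :
    ∃ (D : ℕ → Set ℤ) (z : ℕ → G), (∀ n, D n ⊆ C) ∧ (Pairwise fun m n => Disjoint (D m) (D n)) ∧
      (∀ n, Std (D n) (z n)) ∧ Eqc (range z) := by
  classical
  obtain ⟨φ, hφ, hφC, -⟩ := split_inf hC
  obtain ⟨e⟩ : Nonempty (ℚ × ℕ ≃ ℤ) := inferInstance
  let B : ℚ → Set ℤ := fun q => range fun n => φ (e (q, n))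
  have hBd : Pairwise fun p q => Disjoint (B p) (B q) := fun p q h => disjoint_left.2 (by
    rintro _ ⟨m, rfl⟩ ⟨n, k⟩
    exact h (congrArg Prod.fst (e.injective (hφ k))).symm)
  have hBi : ∀ q, (B q).Infinite := fun q =>
    infinite_range_of_injective fun m n k => congrArg Prod.snd (e.injective (hφ k))
  choose y hy using fun q => ex_std (hBi q)
  choose Y hY hY' using fun r : ℝ => glue B hBd (fun q => if (q : ℝ) < r then y q else 1)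
    (fun q => by split_ifs; exacts [(hy q).sy, one_mem _])
  obtain ⟨a, b, hab, hd, hE⟩ := seq_ex u hu Y
  have hz : ∀ n q, ∀ p ∈ B q, (Y (b n) * Y (a n)) p =
      if (q : ℝ) ∈ Ico (a n) (b n) then y q p else p := by
    intro n q p hp
    rw [Perm.mul_apply, hY' _ q p hp]
    by_cases h1 : (q : ℝ) < a n
    · rw [if_pos h1, hY' _ q _ (Sy.maps (hy q).sy hp), if_pos (h1.trans (hab n)), (hy q).sq,
        if_neg fun k => absurd k.1 (not_le.2 h1)]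
    · rw [if_neg h1, Perm.one_apply, hY' _ q _ hp]
      by_cases h2 : (q : ℝ) < b n
      · rw [if_pos h2, if_pos ⟨not_lt.1 h1, h2⟩]
      · rw [if_neg h2, if_neg fun k => h2 k.2, Perm.one_apply]
  have hz0 : ∀ n p, p ∉ ⋃ q, B q → (Y (b n) * Y (a n)) p = p := fun n =>
    mul_mem (hY (b n)) (hY (a n))
  refine ⟨fun n => ⋃ q : ℚ, ⋃ _ : (q : ℝ) ∈ Ico (a n) (b n), B q, fun n => Y (b n) * Y (a n),
    fun n => ?_, fun m n h => ?_, fun n => ?_, ?_⟩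
  · simp only [iUnion_subset_iff]
    rintro q - _ ⟨m, rfl⟩
    exact hφC ⟨_, rfl⟩
  · simp only [disjoint_iUnion_left, disjoint_iUnion_right]
    intro p hp q hq
    refine hBd ?_
    rintro rfl
    exact disjoint_left.1 (hd h) hq hp
  · obtain ⟨q, q1, q2⟩ := exists_rat_btwn (hab n)
    have hq : (q : ℝ) ∈ Ico (a n) (b n) := ⟨q1.le, q2⟩
    refine ⟨fun p hp => ?_, fun p => ?_, (hy q).mv.mono fun p hp => ?_,
      (hy q).fx.mono fun p hp => ⟨mem_iUnion₂.2 ⟨q, hq, hp.1⟩, ?_⟩⟩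
    · by_cases k : p ∈ ⋃ q, B q
      · obtain ⟨r, hr⟩ := mem_iUnion.1 k
        rw [hz n r p hr, if_neg fun k' => hp (mem_iUnion₂.2 ⟨r, k', hr⟩)]
      · exact hz0 n p k
    · by_cases k : p ∈ ⋃ q, B q
      · obtain ⟨r, hr⟩ := mem_iUnion.1 k
        rw [hz n r p hr]
        split_ifs with k'
        · rw [hz n r _ (Sy.maps (hy r).sy hr), if_pos k', (hy r).sq]
        · rw [hz n r p hr, if_neg k']
      · rw [hz0 n p k, hz0 n p k]
    · have : p ∈ B q := by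
        by_contra k
        exact hp ((hy q).sy p k)
      change (Y (b n) * Y (a n)) p ≠ p
      rw [hz n q p this, if_pos hq]
      exact hp
    · rw [hz n q p hp.1, if_pos hq, hp.2]
  · intro U hU
    refine (hE.mul hE U hU).mono ?_
    rintro _ ⟨n, rfl⟩
    exact ⟨_, ⟨_, Or.inr ⟨n, rfl⟩, rfl⟩, _, ⟨_, Or.inl ⟨n, rfl⟩, rfl⟩, rfl⟩

theorem sub_bd (u : ℕ → Set G) (hu : (𝓝 (1 : G)).HasAntitoneBasis u) {C : Set ℤ}
    (hC : C.Infinite) {U : Set G} (hU : U ∈ 𝓝 (1 : G)) :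
    ∃ B ⊆ C, B.Infinite ∧ Bd (Sy B) U := by
  by_contra hc
  obtain ⟨D, z, h1, h2, h3, h4⟩ := fam u hu hC
  have : ∀ n, ∃ x ∈ Sy (D n), ∃ x' ∈ Sy (D n), ∃ v ∈ u n,
      (x * z n * x⁻¹ * (x' * z n * x'⁻¹)) * v * (x * z n * x⁻¹ * (x' * z n * x'⁻¹))⁻¹ ∉ U := by
    intro n
    obtain ⟨φ, hφ, k1, k2⟩ := split_inf ((h3 n).fx.mono fun x hx => hx.1)
    by_contra hh
    push Not at hh
    refine hc ⟨range φ, k1.trans (h1 n), infinite_range_of_injective hφ, u n, hu.mem n,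
      fun g hg v hv => ?_⟩
    obtain ⟨s, t, hs, ht, rfl⟩ := prod_std k1 k2 hg
    obtain ⟨x, hx, rfl⟩ := (h3 n).conj hs
    obtain ⟨x', hx', rfl⟩ := (h3 n).conj ht
    exact hh x hx x' hx' v hv
  choose x hx x' hx' v hv hn using this
  obtain ⟨X, -, hX⟩ := glue D h2 x hx
  obtain ⟨X', -, hX'⟩ := glue D h2 x' hx'
  obtain ⟨V, hV, k⟩ := (((eqc_single X).mul h4).mul (eqc_single X⁻¹)).mul
    (((eqc_single X').mul h4).mul (eqc_single X'⁻¹)) U hU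
  obtain ⟨n, hn'⟩ := hu.mem_iff.1 hV
  apply hn n
  rw [← conj_agree (h3 n).sy (hX n), ← conj_agree (h3 n).sy (hX' n)]
  exact k _ ⟨_, ⟨_, ⟨_, rfl, _, ⟨n, rfl⟩, rfl⟩, _, rfl, rfl⟩,
    _, ⟨_, ⟨_, rfl, _, ⟨n, rfl⟩, rfl⟩, _, rfl, rfl⟩, rfl⟩ _ (hn' (hv n))

def Good (B : Set ℤ) : Prop := ∀ U ∈ 𝓝 (1 : G), ∃ F : Set ℤ, F.Finite ∧ Bd (Sy (B \ F)) U

theorem ex_good (u : ℕ → Set G) (hu : (𝓝 (1 : G)).HasAntitoneBasis u) :
    ∃ B : Set ℤ, B.Infinite ∧ Good B := by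
  choose f h1 h2 h3 using fun n (C : {C : Set ℤ // C.Infinite}) => sub_bd u hu C.2 (hu.mem n)
  let C : ℕ → {C : Set ℤ // C.Infinite} := fun n =>
    Nat.rec ⟨univ, infinite_univ⟩ (fun n C => ⟨f n C, h2 n C⟩) n
  have anti : Antitone fun n => (C n).1 := antitone_nat_of_succ_le fun n => h1 n (C n)
  obtain ⟨p, hp, hp'⟩ := exists_seq_of_forall_finset_exists (α := ℕ × ℤ) (fun a => a.2 ∈ (C a.1).1)
    (fun a b => a.1 < b.1 ∧ a.2 ≠ b.2) (fun s _ => by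
      obtain ⟨y, hy, hy'⟩ := (C (s.sup Prod.fst + 1)).2.exists_notMem_finset (s.image Prod.snd)
      exact ⟨(_, y), hy, fun a ha => ⟨Nat.lt_succ_of_le (Finset.le_sup (f := Prod.fst) ha),
        fun e => hy' (Finset.mem_image.2 ⟨a, ha, e⟩)⟩⟩)
  have hm : StrictMono fun n => (p n).1 := fun a b h => (hp' a b h).1
  refine ⟨range fun n => (p n).2, infinite_range_of_injective fun a b h => ?_, fun U hU => ?_⟩
  · by_contra k
    rcases lt_or_gt_of_ne k with k | k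
    · exact (hp' _ _ k).2 h
    · exact (hp' _ _ k).2 h.symm
  · obtain ⟨n, hn⟩ := hu.mem_iff.1 hU
    obtain ⟨V, hV, k⟩ := h3 n (C n)
    refine ⟨(fun n => (p n).2) '' Iic n, (finite_Iic n).image _, V, hV, fun g hg v hv =>
      hn (k g (Sy.mono ?_ hg) v hv)⟩
    rintro _ ⟨⟨m, rfl⟩, hm'⟩
    have : n + 1 ≤ m := by
      by_contra e
      exact hm' ⟨m, by simpa using e, rfl⟩
    exact anti (this.trans (hm.le_apply)) (hp m)

theorem good_of (u : ℕ → Set G) (hu : (𝓝 (1 : G)).HasAntitoneBasis u) {E : Set ℤ}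
    (hE : Eᶜ.Infinite) : Good E := by
  obtain ⟨B, hB, hG⟩ := ex_good u hu
  obtain ⟨φ, hφ, k1, k2⟩ := split_inf hB
  obtain ⟨h, -, hh⟩ := ext_perm (B := univ) (Y := E) φ (subset_univ _) hφ.injOn (mapsTo_univ _ _)
    (by rwa [← compl_eq_univ_sdiff])
    (k2.mono fun x hx => ⟨trivial, fun k => hx.2 (image_subset_range _ _ k)⟩)
  intro U hU
  obtain ⟨V1, hV1, e1⟩ := eqc_single h⁻¹ U hU
  obtain ⟨F, hF, V2, hV2, e2⟩ := hG V1 hV1
  obtain ⟨V3, hV3, e3⟩ := eqc_single h V2 hV2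
  refine ⟨h ⁻¹' F, hF.preimage h.injective.injOn, V3, hV3, fun g hg v hv => ?_⟩
  have := e1 _ rfl _ (e2 _ (Sy.mono (by
    rintro _ ⟨x, hx, rfl⟩
    exact ⟨k1 ⟨x, (hh x hx.1).symm⟩, hx.2⟩) (Sy.conj hg h)) _ (e3 _ rfl v hv))
  rwa [show h⁻¹ * (h * g * h⁻¹ * (h * v * h⁻¹) * (h * g * h⁻¹)⁻¹) * h⁻¹⁻¹ = g * v * g⁻¹ by group]
    at this

def B1 : Set ℤ := {n | n % 3 ≠ 0}
def B2 : Set ℤ := {n | n % 3 ≠ 1}

omit [TopologicalSpace G] [IsTopologicalGroup G] in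
theorem inf_mod (r : ℤ) {S : Set ℤ} (h : ∀ n, 3 * n + r ∈ S) : S.Infinite :=
  infinite_of_injective_forall_mem (f := fun n : ℤ => 3 * n + r) (fun a b e => by simpa using e) h

omit [TopologicalSpace G] [IsTopologicalGroup G] in
theorem dnt' {F : Set ℤ} (hF : F.Finite) {g : G} (hg : g ∈ Sy Fᶜ) :
    ∃ a ∈ (Sy (B1 \ F) : Set G) ∪ Sy (B2 \ F), ∃ b ∈ (Sy (B1 \ F) : Set G) ∪ Sy (B2 \ F),
      ∃ c ∈ (Sy (B1 \ F) : Set G) ∪ Sy (B2 \ F), g = a * b * c := by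
  have h0 : (B1 ∩ B2).Infinite := inf_mod 2 fun n => ⟨by simp only [B1, mem_ofPred_eq]; omega,
    by simp only [B2, mem_ofPred_eq]; omega⟩
  have h1 : ((B1 \ F) ∩ (B2 \ F)).Infinite :=
    (h0.sdiff hF).mono fun x hx => ⟨⟨hx.1.1, hx.2⟩, hx.1.2, hx.2⟩
  refine dnt h1 (Sy.mono (fun x hx => ?_) hg)
  by_cases k : x % 3 = 0
  · exact Or.inr ⟨by simp only [B2, mem_ofPred_eq]; omega, hx⟩
  · exact Or.inl ⟨k, hx⟩

theorem inv1 (u : ℕ → Set G) (hu : (𝓝 (1 : G)).HasAntitoneBasis u) {U : Set G}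
    (hU : U ∈ 𝓝 (1 : G)) : ∃ F : Set ℤ, F.Finite ∧ Bd (Sy Fᶜ) U := by
  have g1 := good_of u hu (E := B1) (inf_mod 0 fun n => by simp [B1])
  have g2 := good_of u hu (E := B2) (inf_mod 1 fun n => by simp [B2])
  have g3 : ∀ U ∈ 𝓝 (1 : G), ∃ F : Set ℤ, F.Finite ∧ ∃ V ∈ 𝓝 (1 : G), ∀ F', F ⊆ F' →
      ∀ g ∈ (Sy (B1 \ F') : Set G) ∪ Sy (B2 \ F'), ∀ v ∈ V, g * v * g⁻¹ ∈ U := by
    intro U hU
    obtain ⟨F1, f1, k1⟩ := g1 U hU
    obtain ⟨F2, f2, k2⟩ := g2 U hU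
    obtain ⟨V, hV, k⟩ := k1.union k2
    refine ⟨F1 ∪ F2, f1.union f2, V, hV, fun F' hF' g hg => k g (hg.imp (Sy.mono ?_ ·) (Sy.mono ?_ ·))⟩
    · exact sdiff_subset_sdiff_right (subset_union_left.trans hF')
    · exact sdiff_subset_sdiff_right (subset_union_right.trans hF')
  obtain ⟨F1, f1, V1, v1, k1⟩ := g3 U hU
  obtain ⟨F2, f2, V2, v2, k2⟩ := g3 V1 v1
  obtain ⟨F3, f3, V3, v3, k3⟩ := g3 V2 v2
  refine ⟨F1 ∪ F2 ∪ F3, (f1.union f2).union f3, V3, v3, fun g hg v hv => ?_⟩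
  obtain ⟨a, ha, b, hb, c, hc, rfl⟩ := dnt' ((f1.union f2).union f3) hg
  have := k1 _ (subset_union_left.trans subset_union_left) a ha _
    (k2 _ (subset_union_right.trans subset_union_left) b hb _ (k3 _ subset_union_right c hc v hv))
  rwa [show a * (b * (c * v * c⁻¹) * b⁻¹) * a⁻¹ = a * b * c * v * (a * b * c)⁻¹ by group] at this

end Pool.Agent.H22.Sym
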