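import Mathlib

set_option autoImplicit false

namespace Pool.Agent.H22.Sym

/-- Permutations of `ℤ` moving only finitely many points. -/
def Finitary : Set (Equiv.Perm ℤ) := {g | {n | g n ≠ n}.Finite}

/-- Even finitary permutations: the subgroup generated by products of two transpositions. -/
def EvenFinitary : Set (Equiv.Perm ℤ) :=
  Subgroup.closure {g | ∃ a b c d : ℤ, a ≠ b ∧ c ≠ d ∧ g = Equiv.swap a b * Equiv.swap c d}

/-- The sets `Stab F ∩ N`, `F` finite, form a neighbourhood base of the identity. -/
def IsStandard (τ : TopologicalSpace (Equiv.Perm ℤ)) (N : Set (Equiv.Perm ℤ)) : Prop :=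
  (@nhds _ τ 1).HasBasis (fun _ : Finset ℤ => True) fun F => {g | g ∈ N ∧ ∀ n ∈ F, g n = n}

end Pool.Agent.H22.Sym
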