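import Mathlib
import Pool.Agent.H22.SymB
import Pool.Agent.H22.SymDefs

set_option autoImplicit false

namespace Pool.Agent.H22.Sym

open Equiv Set Topology Filter Pointwise

section Alg

def Al (F : Set ℤ) : Subgroup G := Subgroup.closure
  {g | ∃ a b c d : ℤ, a ≠ b ∧ c ≠ d ∧ a ∉ F ∧ b ∉ F ∧ c ∉ F ∧ d ∉ F ∧ g = swap a b * swap c d}

theorem swap_mem {F : Set ℤ} {a b : ℤ} (ha : a ∉ F) (hb : b ∉ F) : swap a b ∈ Sy Fᶜ :=
  fun x hx => swap_apply_of_ne_of_ne (by rintro rfl; exact hx ha) (by rintro rfl; exact hx hb)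

theorem Al_le (F : Set ℤ) : (Al F : Set G) ⊆ EvenFinitary := Subgroup.closure_mono (by
  rintro _ ⟨a, b, c, d, h1, h2, -, -, -, -, rfl⟩
  exact ⟨a, b, c, d, h1, h2, rfl⟩)

theorem fin_iff {g : G} : g ∈ Finitary ↔ g ∈ Subgroup.closure {σ : G | σ.IsSwap} :=
  mem_closure_isSwap'.symm

theorem even_fin : EvenFinitary ⊆ Finitary := fun g hg => fin_iff.2 (by
  refine (Subgroup.closure_le _).2 ?_ hg
  rintro _ ⟨a, b, c, d, h1, h2, rfl⟩
  exact mul_mem (Subgroup.subset_closure ⟨a, b, h1, rfl⟩) (Subgroup.subset_closure ⟨c, d, h2, rfl⟩))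

theorem swap_not_even {a b : ℤ} (h : a ≠ b) : swap a b ∉ EvenFinitary := by
  classical
  have key : ∀ g ∈ EvenFinitary, ∃ T0 : Finset ℤ, ∀ T : Finset ℤ, T0 ⊆ T →
      ∃ g' : Perm {x // x ∈ T}, Perm.sign g' = 1 ∧ Perm.ofSubtype g' = g := by
    intro g hg
    induction hg using Subgroup.closure_induction with
    | mem x hx =>
      obtain ⟨a, b, c, d, h1, h2, rfl⟩ := hx
      refine ⟨{a, b, c, d}, fun T hT => ⟨swap ⟨a, hT (by simp)⟩ ⟨b, hT (by simp)⟩ *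
        swap ⟨c, hT (by simp)⟩ ⟨d, hT (by simp)⟩, ?_, ?_⟩⟩
      · rw [map_mul, Perm.sign_swap (by simpa using h1), Perm.sign_swap (by simpa using h2)]
        simp
      · rw [map_mul, Perm.ofSubtype_swap_eq, Perm.ofSubtype_swap_eq]
    | one => exact ⟨∅, fun T _ => ⟨1, by simp, by simp⟩⟩
    | mul x y _ _ hx hy =>
      obtain ⟨S, hS⟩ := hx
      obtain ⟨S', hS'⟩ := hy
      refine ⟨S ∪ S', fun T hT => ?_⟩
      obtain ⟨u, h1, rfl⟩ := hS T (Finset.subset_union_left.trans hT)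
      obtain ⟨v, h2, rfl⟩ := hS' T (Finset.subset_union_right.trans hT)
      exact ⟨u * v, by simp [h1, h2], by simp⟩
    | inv x _ hx =>
      obtain ⟨S, hS⟩ := hx
      refine ⟨S, fun T hT => ?_⟩
      obtain ⟨u, h1, rfl⟩ := hS T hT
      exact ⟨u⁻¹, by simp [h1], by simp⟩
  intro hs
  obtain ⟨T, hT⟩ := key _ hs
  obtain ⟨g, h1, h2⟩ := hT (T ∪ {a, b}) Finset.subset_union_left
  rw [← Perm.ofSubtype_swap_eq (p := fun x => x ∈ T ∪ {a, b}) ⟨a, by simp⟩ ⟨b, by simp⟩] at h2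
  rw [Perm.ofSubtype_injective h2, Perm.sign_swap (by simpa using h)] at h1
  exact absurd h1 (by decide)

theorem parity {F : Set ℤ} {a b : ℤ} (h : a ≠ b) (ha : a ∉ F) (hb : b ∉ F) {g : G}
    (hg : g ∈ Finitary) (hF : g ∈ Sy Fᶜ) : g ∈ Al F ∨ g * swap a b ∈ Al F := by
  have : g ∈ Subgroup.closure {σ : G | ∃ c d, c ≠ d ∧ c ∉ F ∧ d ∉ F ∧ σ = swap c d} := by
    refine (mem_closure_isSwap ?_).2 ⟨hg, fun x => ?_⟩
    · rintro _ ⟨c, d, h, -, -, rfl⟩
      exact ⟨c, d, h, rfl⟩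
    · by_cases k : x = g x
      · rw [← k]
        exact MulAction.mem_orbit_self x
      · have hx : x ∉ F := fun e => k (hF x (not_not.2 e)).symm
        exact ⟨⟨swap x (g x), Subgroup.subset_closure ⟨x, g x, k, hx, Sy.maps hF hx, rfl⟩⟩,
          swap_apply_left x (g x)⟩
  clear hg hF
  have st : ∀ x y : G, (∃ c d, c ≠ d ∧ c ∉ F ∧ d ∉ F ∧ y = swap c d) →
      (x ∈ Al F ∨ x * swap a b ∈ Al F) → x * y ∈ Al F ∨ x * y * swap a b ∈ Al F := by
    rintro x _ ⟨c, d, h', hc, hd, rfl⟩ (k | k)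
    · rw [mul_assoc]
      exact Or.inr (mul_mem k (Subgroup.subset_closure ⟨c, d, a, b, h', h, hc, hd, ha, hb, rfl⟩))
    · left
      have := mul_mem k (Subgroup.subset_closure ⟨a, b, c, d, h, h', ha, hb, hc, hd, rfl⟩)
      rwa [mul_assoc, swap_mul_self_mul] at this
  induction this using Subgroup.closure_induction_right with
  | one => exact Or.inl (one_mem _)
  | mul_right x _ y hy ih => exact st x y hy ih
  | mul_inv_cancel x _ y hy ih =>
    obtain ⟨c, d, h', hc, hd, rfl⟩ := hy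
    rw [swap_inv]
    exact st x _ ⟨c, d, h', hc, hd, rfl⟩ ih

structure Inv (F : Set ℤ) (W : Set G) : Prop where
  fin : F.Finite
  sub : W ⊆ Sy Fᶜ
  one : 1 ∈ W
  inv : ∀ w ∈ W, w⁻¹ ∈ W
  conj : ∀ g ∈ Sy Fᶜ, ∀ w ∈ W, g * w * g⁻¹ ∈ W

theorem Inv.mul2 {F : Set ℤ} {W : Set G} (h : Inv F W) : Inv F (W * W) where
  fin := h.fin
  sub := by
    rintro _ ⟨a, ha, b, hb, rfl⟩
    exact mul_mem (h.sub ha) (h.sub hb)
  one := ⟨1, h.one, 1, h.one, mul_one 1⟩
  inv := by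
    rintro _ ⟨a, ha, b, hb, rfl⟩
    exact ⟨_, h.inv b hb, _, h.inv a ha, (mul_inv_rev a b).symm⟩
  conj := by
    rintro g hg _ ⟨a, ha, b, hb, rfl⟩
    exact ⟨_, h.conj g hg a ha, _, h.conj g hg b hb, by simp [mul_assoc]⟩

theorem Inv.comm {F : Set ℤ} {W : Set G} (h : Inv F W) {v t : G} (hv : v ∈ W) (ht : t ∈ Sy Fᶜ) :
    v * t * v⁻¹ * t⁻¹ ∈ W * W :=
  ⟨v, hv, _, h.conj t ht _ (h.inv v hv), by simp [mul_assoc]⟩

theorem Inv.std {F : Set ℤ} {W : Set G} (h : Inv F W) {v : G} (hv : v ∈ W) (hi : v ∉ Finitary)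
    {s : G} (hs : Std Fᶜ s) : s ∈ W * W := by
  classical
  have hi' : {n | v n ≠ n}.Infinite := hi
  obtain ⟨f, hf, hf'⟩ := exists_seq_of_forall_finset_exists (fun x => v x ≠ x)
    (fun x y => y ≠ x ∧ y ≠ v x ∧ v y ≠ x) (fun T _ => by
      obtain ⟨y, hy, hy'⟩ := hi'.exists_notMem_finset (T ∪ T.image v ∪ T.image v.symm)
      simp only [Finset.mem_union, Finset.mem_image, not_or, not_exists, not_and] at hy'
      refine ⟨y, hy, fun x hx => ⟨?_, fun e => hy'.1.2 x hx e.symm, fun e => hy'.2 x hx ?_⟩⟩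
      · rintro rfl
        exact hy'.1.1 hx
      · rw [← e]; simp)
  have hP : (range f).Infinite := infinite_range_of_injective fun a b e => by
    by_contra k
    rcases lt_or_gt_of_ne k with k | k
    · exact (hf' _ _ k).1 e.symm
    · exact (hf' _ _ k).1 e
  have hd : Disjoint (v '' range f) (range f) := disjoint_left.2 (by
    rintro _ ⟨_, ⟨m, rfl⟩, rfl⟩ ⟨n, e⟩
    rcases lt_trichotomy m n with k | k | k
    · exact (hf' _ _ k).2.1 e
    · exact hf m (k ▸ e.symm)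
    · exact (hf' _ _ k).2.2 e.symm)
  have hF : range f ⊆ Fᶜ := by
    rintro _ ⟨n, rfl⟩ k
    exact hf n (h.sub hv _ (not_not.2 k))
  obtain ⟨t, ht⟩ := ex_std hP
  have ht' := Sy.conj ht.sy v
  have hc := Sy.comm hd ht' ht.sy
  have htt : t⁻¹ = t := by
    rw [inv_eq_iff_mul_eq_one]
    ext x
    exact ht.sq x
  have he : Std Fᶜ (v * t * v⁻¹ * t) := by
    refine ⟨mul_mem (mul_mem (mul_mem (h.sub hv) (Sy.mono hF ht.sy)) (inv_mem (h.sub hv)))
      (Sy.mono hF ht.sy), fun x => ?_, ht.mv.mono fun x hx => ?_,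
      ht.fx.mono fun x hx => ⟨hF hx.1, ?_⟩⟩
    · conv_lhs => rw [← Perm.mul_apply]; lhs; rhs; rw [hc]
      simp [ht.sq]
    · have hx' : x ∈ range f := by
        by_contra k
        exact hx (ht.sy x k)
      change (v * t * v⁻¹) (t x) ≠ x
      rw [ht' _ (disjoint_right.1 hd (Sy.maps ht.sy hx'))]
      exact hx
    · rw [Perm.mul_apply, hx.2, ht' _ (disjoint_right.1 hd hx.1)]
  obtain ⟨g, hg, rfl⟩ := he.conj hs
  refine h.mul2.conj g hg _ ?_
  have := h.comm hv (Sy.mono hF ht.sy)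
  rwa [htt] at this

theorem Inv.all {F : Set ℤ} {W : Set G} (h : Inv F W) {v : G} (hv : v ∈ W) (hi : v ∉ Finitary)
    {g : G} (hg : g ∈ Sy Fᶜ) : g ∈ W ^ 12 := by
  have k : ∀ B : Set ℤ, Bᶜ.Infinite → ∀ a ∈ Sy (B \ F), a ∈ W ^ 4 := fun B hB a ha => by
    obtain ⟨s, t, hs, ht, rfl⟩ := prod_std (B := Fᶜ) (fun x hx => hx.2)
      ((hB.sdiff h.fin).mono fun x hx => ⟨hx.2, fun k => hx.1 k.1⟩) ha
    rw [show 4 = 2 + 2 from rfl, pow_add, sq]
    exact mul_mem_mul (h.std hv hi hs) (h.std hv hi ht)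
  have k' : ∀ a ∈ (Sy (B1 \ F) : Set G) ∪ Sy (B2 \ F), a ∈ W ^ 4 := fun a ha =>
    ha.elim (k B1 (inf_mod 0 fun n => by simp [B1]) a) (k B2 (inf_mod 1 fun n => by simp [B2]) a)
  obtain ⟨a, ha, b, hb, c, hc, rfl⟩ := dnt' h.fin hg
  rw [show 12 = 4 + 4 + 4 from rfl, pow_add, pow_add]
  exact mul_mem_mul (mul_mem_mul (k' a ha) (k' b hb)) (k' c hc)

theorem Inv.three {F : Set ℤ} {W : Set G} (h : Inv F W) {v : G} (hv : v ∈ W) (h1 : v ≠ 1)
    (hi : v ∈ Finitary) {x y z : ℤ} (hx : x ∉ F) (hy : y ∉ F) (hz : z ∉ F) (xz : x ≠ z)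
    (yz : y ≠ z) : swap x z * swap y z ∈ W * W := by
  classical
  by_cases xy : x = y
  · rw [xy, swap_mul_self]
    exact h.mul2.one
  obtain ⟨p, hp⟩ : ∃ p, v p ≠ p := by
    by_contra k
    push Not at k
    exact h1 (Equiv.ext k)
  have pF : p ∉ F := fun k => hp (h.sub hv p (not_not.2 k))
  have vF : v p ∉ F := Sy.maps (h.sub hv) pF
  obtain ⟨q, hq⟩ := (h.fin.union hi).infinite_compl.nonempty
  have qF : q ∉ F := fun k => hq (Or.inl k)
  have vq : v q = q := by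
    by_contra k
    exact hq (Or.inr k)
  have pq : p ≠ q := by
    rintro rfl
    exact hp vq
  have vpq : v p ≠ q := fun k => pq (v.injective (k.trans vq.symm))
  have h2 := h.comm hv (swap_mem pF qF)
  rw [← swap_apply_apply, vq, swap_inv] at h2
  obtain ⟨s, hs, hs'⟩ := ext_perm (B := Fᶜ) (Y := {v p, p, q})
    (fun a => if a = p then y else if a = q then z else x)
    (by rintro _ (rfl | rfl | rfl) <;> assumption)
    (by
      rintro _ (rfl | rfl | rfl) _ (rfl | rfl | rfl) <;>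
        simp [hp, vpq, pq.symm, xy, xz, yz, xz.symm, yz.symm, Ne.symm xy])
    (by rintro _ (rfl | rfl | rfl) <;> simp [hp, vpq, pq.symm, hx, hy, hz])
    (h.fin.infinite_compl.sdiff (toFinite _)) (h.fin.infinite_compl.sdiff (toFinite _))
  have := h.mul2.conj s hs _ h2
  rw [show s * (swap (v p) q * swap p q) * s⁻¹ = s * swap (v p) q * s⁻¹ * (s * swap p q * s⁻¹) by group,
    ← swap_apply_apply, ← swap_apply_apply, hs' _ (Or.inl rfl), hs' p (Or.inr (Or.inl rfl)),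
    hs' q (Or.inr (Or.inr rfl))] at this
  simpa [hp, vpq, pq.symm] using this

theorem Inv.dbl {F : Set ℤ} {W : Set G} (h : Inv F W) {v : G} (hv : v ∈ W) (h1 : v ≠ 1)
    (hi : v ∈ Finitary) {a b c d : ℤ} (ab : a ≠ b) (cd : c ≠ d) (ha : a ∉ F) (hb : b ∉ F)
    (hc : c ∉ F) (hd : d ∉ F) : swap a b * swap c d ∈ W ^ 6 := by
  obtain ⟨e, he⟩ := (h.fin.union (toFinite {b, c})).infinite_compl.nonempty
  simp only [mem_compl_iff, mem_union, mem_insert_iff, mem_singleton_iff, not_or] at he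
  have := mul_mem_mul (mul_mem_mul (h.three hv h1 hi ha he.1 hb ab he.2.1)
    (h.three hv h1 hi hb hc he.1 (Ne.symm he.2.1) (Ne.symm he.2.2)))
    (h.three hv h1 hi he.1 hd hc he.2.2 cd.symm)
  rw [← sq W, ← pow_add, ← pow_add] at this
  convert this using 1
  rw [swap_comm e b, swap_comm e c, swap_comm d c]
  simp only [mul_assoc, swap_mul_self_mul]

theorem Inv.pow_inv {F : Set ℤ} {W : Set G} (h : Inv F W) (k : ℕ) : ∀ w ∈ W ^ k, w⁻¹ ∈ W ^ k := by
  induction k with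
  | zero => simp
  | succ k ih =>
    intro w hw
    rw [pow_succ] at hw
    obtain ⟨a, ha, b, hb, rfl⟩ := hw
    rw [pow_succ', mul_inv_rev]
    exact mul_mem_mul (h.inv b hb) (ih a ha)

theorem Al_len {F : Set ℤ} {g : G} (hg : g ∈ Al F) : ∃ k : ℕ, ∃ T : Set ℤ, T.Finite ∧ T ⊆ Fᶜ ∧
    ∀ F' W, Inv F' W → (∃ v ∈ W, v ≠ 1 ∧ v ∈ Finitary) → ∀ s : G, (∀ x ∈ T, s x ∉ F') →
      s * g * s⁻¹ ∈ W ^ k := by
  induction hg using Subgroup.closure_induction with
  | mem x hx =>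
    obtain ⟨a, b, c, d, ab, cd, ha, hb, hc, hd, rfl⟩ := hx
    refine ⟨6, {a, b, c, d}, toFinite _, by rintro _ (rfl | rfl | rfl | rfl) <;> assumption, ?_⟩
    rintro F' W h ⟨v, hv, h1, hi⟩ s hs
    rw [show s * (swap a b * swap c d) * s⁻¹ = s * swap a b * s⁻¹ * (s * swap c d * s⁻¹) by group,
      ← swap_apply_apply, ← swap_apply_apply]
    exact h.dbl hv h1 hi (s.injective.ne ab) (s.injective.ne cd) (hs a (by simp)) (hs b (by simp))
      (hs c (by simp)) (hs d (by simp))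
  | one => exact ⟨0, ∅, finite_empty, empty_subset _, fun _ _ _ _ _ _ => by simp⟩
  | mul x y _ _ hx hy =>
    obtain ⟨k, T, h1, h2, h3⟩ := hx
    obtain ⟨k', T', h1', h2', h3'⟩ := hy
    refine ⟨k + k', T ∪ T', h1.union h1', union_subset h2 h2', fun F' W h hv s hs => ?_⟩
    rw [pow_add, show s * (x * y) * s⁻¹ = s * x * s⁻¹ * (s * y * s⁻¹) by group]
    exact mul_mem_mul (h3 F' W h hv s fun x hx => hs x (Or.inl hx))
      (h3' F' W h hv s fun x hx => hs x (Or.inr hx))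
  | inv x _ hx =>
    obtain ⟨k, T, h1, h2, h3⟩ := hx
    refine ⟨k, T, h1, h2, fun F' W h hv s hs => ?_⟩
    rw [show s * x⁻¹ * s⁻¹ = (s * x * s⁻¹)⁻¹ by group]
    exact h.pow_inv k _ (h3 F' W h hv s hs)

end Alg

variable [TopologicalSpace G] [IsTopologicalGroup G] [T1Space G]

theorem gau1 {p q : ℤ} (h : p ≠ q) : ∀ᶠ w in 𝓝 (1 : G), q = w p ∨ q = w q := by
  have key : ∀ r, r ≠ p → r ≠ q → ∀ᶠ w in 𝓝 (1 : G),
      q = w p ∨ q = w q ∨ r = w p ∨ r = w q := by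
    intro r rp rq
    have hc : Continuous fun w : G => (w * swap p q * w⁻¹ * swap p q)⁻¹ *
        (swap q r * (w * swap p q * w⁻¹ * swap p q) * (swap q r)⁻¹) := by fun_prop
    have hne : swap p q * swap p r ≠ 1 := fun k => by
      have := congrArg (fun g : G => g p) k
      simp only [Perm.mul_apply, swap_apply_left, Perm.one_apply] at this
      rw [swap_apply_of_ne_of_ne rp rq] at this
      exact rp this
    have := hc.continuousAt (x := 1) |>.eventually_ne (y := swap p q * swap p r) (by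
      simpa using hne.symm)
    refine this.mono fun w hw => ?_
    by_contra k
    simp only [not_or] at k
    apply hw
    rw [← swap_apply_apply, show swap q r * (swap (w p) (w q) * swap p q) * (swap q r)⁻¹ =
      swap q r * swap (w p) (w q) * (swap q r)⁻¹ * (swap q r * swap p q * (swap q r)⁻¹) by group,
      ← swap_apply_apply, ← swap_apply_apply, swap_apply_of_ne_of_ne (Ne.symm k.1) (Ne.symm k.2.2.1),
      swap_apply_of_ne_of_ne (Ne.symm k.2.1) (Ne.symm k.2.2.2), swap_apply_of_ne_of_ne h rp.symm,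
      swap_apply_left]
    simp [mul_assoc]
  filter_upwards [key (|p| + |q| + 1) (by cases abs_cases p <;> cases abs_cases q <;> omega)
      (by cases abs_cases p <;> cases abs_cases q <;> omega),
    key (|p| + |q| + 2) (by cases abs_cases p <;> cases abs_cases q <;> omega)
      (by cases abs_cases p <;> cases abs_cases q <;> omega),
    key (|p| + |q| + 3) (by cases abs_cases p <;> cases abs_cases q <;> omega)
      (by cases abs_cases p <;> cases abs_cases q <;> omega)] with w h1 h2 h3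
  omega

theorem gau {F : Set ℤ} (hF : F.Finite) : (Sy Fᶜ : Set G) ∈ 𝓝 (1 : G) := by
  have : ∀ p : ℤ, ∀ᶠ w in 𝓝 (1 : G), w p = p := fun p => by
    filter_upwards [gau1 (p := p + 1) (q := p) (by omega), gau1 (p := p + 2) (q := p) (by omega)]
      with w h1 h2
    by_contra k
    have := w.injective ((h1.resolve_right (Ne.symm k)).symm.trans (h2.resolve_right (Ne.symm k)))
    omega
  exact mem_of_superset ((eventually_all_finite hF).2 fun p _ => this p)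
    fun w hw x hx => hw x (not_not.1 hx)

theorem inv2 (u : ℕ → Set G) (hu : (𝓝 (1 : G)).HasAntitoneBasis u) {U : Set G}
    (hU : U ∈ 𝓝 (1 : G)) : ∃ F W, Inv F W ∧ W ∈ 𝓝 (1 : G) ∧ W ⊆ U := by
  obtain ⟨F, hF, V, hV, h⟩ := inv1 u hu hU
  have hV' : V ∩ V⁻¹ ∩ Sy Fᶜ ∈ 𝓝 (1 : G) := inter_mem (inter_mem hV (inv_mem_nhds_one _ hV)) (gau hF)
  refine ⟨F, {w | ∃ g ∈ Sy Fᶜ, ∃ v ∈ V ∩ V⁻¹ ∩ Sy Fᶜ, w = g * v * g⁻¹}, ⟨hF, ?_,
    ⟨1, one_mem _, 1, mem_of_mem_nhds hV', by simp⟩, ?_, ?_⟩,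
    mem_of_superset hV' fun v hv => ⟨1, one_mem _, v, hv, by simp⟩, ?_⟩
  · rintro _ ⟨g, hg, v, hv, rfl⟩
    exact mul_mem (mul_mem hg hv.2) (inv_mem hg)
  · rintro _ ⟨g, hg, v, hv, rfl⟩
    exact ⟨g, hg, v⁻¹, ⟨⟨hv.1.2, by simpa using hv.1.1⟩, inv_mem hv.2⟩, by group⟩
  · rintro k hk _ ⟨g, hg, v, hv, rfl⟩
    exact ⟨k * g, mul_mem hk hg, v, hv, by group⟩
  · rintro _ ⟨g, hg, v, hv, rfl⟩
    exact h g hg v hv.1.1

omit [T1Space G] in
theorem pow_nhds (k : ℕ) : ∀ U ∈ 𝓝 (1 : G), ∃ V ∈ 𝓝 (1 : G), V ^ k ⊆ U := by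
  induction k with
  | zero => exact fun U hU => ⟨U, hU, by simpa using mem_of_mem_nhds hU⟩
  | succ k ih =>
    intro U hU
    obtain ⟨V, hV, h⟩ := exists_nhds_one_split hU
    obtain ⟨W, hW, h'⟩ := ih V hV
    refine ⟨V ∩ W, inter_mem hV hW, ?_⟩
    rw [pow_succ]
    rintro _ ⟨a, ha, b, hb, rfl⟩
    exact h a (h' (pow_subset_pow_left inter_subset_right ha)) b hb.1

theorem std_of {N : Set G} (hN : N ∈ 𝓝 (1 : G))
    (h : ∀ U ∈ 𝓝 (1 : G), ∃ F : Set ℤ, F.Finite ∧ ∀ g ∈ N, g ∈ Sy Fᶜ → g ∈ U) :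
    IsStandard inferInstance N := by
  refine ⟨fun U => ⟨fun hU => ?_, ?_⟩⟩
  · obtain ⟨F, hF, k⟩ := h U hU
    exact ⟨hF.toFinset, trivial, fun g hg => k g hg.1 fun x hx => hg.2 x (by simpa using hx)⟩
  · rintro ⟨F, -, k⟩
    exact mem_of_superset (inter_mem hN (gau F.finite_toSet))
      fun g hg => k ⟨hg.1, fun n hn => hg.2 n (by simpa using hn)⟩

theorem classify (u : ℕ → Set G) (hu : (𝓝 (1 : G)).HasAntitoneBasis u) :
    IsStandard inferInstance ({1} : Set G) ∨ IsStandard inferInstance EvenFinitary ∨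
      IsStandard inferInstance Finitary ∨ IsStandard inferInstance (univ : Set G) := by
  by_cases h1 : ({1} : Set G) ∈ 𝓝 (1 : G)
  · exact Or.inl (std_of h1 fun U hU => ⟨∅, finite_empty, fun g hg _ => hg ▸ mem_of_mem_nhds hU⟩)
  by_cases h2 : Finitary ∈ 𝓝 (1 : G)
  swap
  · refine Or.inr (Or.inr (Or.inr (std_of univ_mem fun U hU => ?_)))
    obtain ⟨V, hV, k⟩ := pow_nhds 12 U hU
    obtain ⟨F, W, hI, hW, k'⟩ := inv2 u hu hV
    obtain ⟨v, hv, hv'⟩ := not_subset.1 fun e => h2 (mem_of_superset hW e)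
    exact ⟨F, hI.fin, fun g _ hg => k (pow_subset_pow_left k' (hI.all hv hv' hg))⟩
  have B1 : ∀ F W, Inv F W → W ∈ 𝓝 (1 : G) → ∀ g ∈ Al F, g ∈ W := by
    intro F W hI hW g hg
    obtain ⟨k, T, hT, hTF, h3⟩ := Al_len hg
    obtain ⟨V, hV, e⟩ := pow_nhds k W hW
    obtain ⟨F', W', hI', hW', e'⟩ := inv2 u hu hV
    obtain ⟨v, hv, hv'⟩ := not_subset.1 fun e => h1 (mem_of_superset (inter_mem hW' h2) e)
    obtain ⟨φ, hφ, k1, -⟩ := split_inf (hI.fin.union hI'.fin).infinite_compl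
    obtain ⟨s, hs, hs'⟩ := ext_perm (B := Fᶜ) φ hTF hφ.injOn (fun x _ k => k1 ⟨x, rfl⟩ (Or.inl k))
      (hI.fin.infinite_compl.sdiff hT) (hI.fin.infinite_compl.sdiff (hT.image _))
    have := hI.conj _ (inv_mem hs) _ (e (pow_subset_pow_left e' (h3 F' W' hI' ⟨v, hv.1, hv', hv.2⟩ s
      fun x hx k => k1 ⟨x, rfl⟩ (Or.inr (hs' x hx ▸ k)))))
    simpa [mul_assoc] using this
  have two : ∀ F : Set ℤ, F.Finite → ∃ a b, a ≠ b ∧ a ∉ F ∧ b ∉ F := fun F hF => by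
    obtain ⟨a, ha, b, hb, k⟩ := hF.infinite_compl.nontrivial
    exact ⟨a, b, k, ha, hb⟩
  by_cases h3 : EvenFinitary ∈ 𝓝 (1 : G)
  · refine Or.inr (Or.inl (std_of h3 fun U hU => ?_))
    obtain ⟨F, W, hI, hW, k'⟩ := inv2 u hu hU
    obtain ⟨a, b, ab, ha, hb⟩ := two F hI.fin
    refine ⟨F, hI.fin, fun g hg hg' => k' (B1 F W hI hW g
      ((parity ab ha hb (even_fin hg) hg').resolve_right fun e => swap_not_even ab ?_))⟩
    have := mul_mem (inv_mem (show g ∈ Subgroup.closure _ from hg))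
      (show g * swap a b ∈ Subgroup.closure _ from Al_le F e)
    rwa [inv_mul_cancel_left] at this
  · refine Or.inr (Or.inr (Or.inl (std_of h2 fun U hU => ?_)))
    obtain ⟨V, hV, k⟩ := exists_nhds_one_split hU
    obtain ⟨F, W, hI, hW, k'⟩ := inv2 u hu hV
    obtain ⟨a, b, ab, ha, hb⟩ := two F hI.fin
    obtain ⟨v, hv, hv'⟩ := not_subset.1 fun e => h3 (mem_of_superset (inter_mem hW h2) e)
    have hv2 := (parity ab ha hb hv.2 (hI.sub hv.1)).resolve_left fun e => hv' (Al_le F e)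
    refine ⟨F, hI.fin, fun g hg hg' => ?_⟩
    rcases parity ab ha hb hg hg' with e | e
    · simpa using k g (k' (B1 F W hI hW g e)) 1 (mem_of_mem_nhds hV)
    · have := k _ (k' (B1 F W hI hW _ (mul_mem e (inv_mem hv2)))) v (k' hv.1)
      simpa [mul_assoc] using this

end Pool.Agent.H22.Sym
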