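import Mathlib

set_option autoImplicit false

namespace Pool.Agent.H22.Syz

variable (k : Type) [Field k] {V E : Type} [Fintype V] (s t : E → V)

/-- Defining relations of the path algebra of the quiver with vertices `V`, arrows `E`,
source `s` and target `t`. -/
inductive Rel : FreeAlgebra k (V ⊕ E) → FreeAlgebra k (V ⊕ E) → Prop
  | idem (v : V) : Rel (.ι k (.inl v) * .ι k (.inl v)) (.ι k (.inl v))
  | orth (v w : V) (h : v ≠ w) : Rel (.ι k (.inl v) * .ι k (.inl w)) 0
  | sum : Rel (∑ v : V, .ι k (.inl v)) 1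
  | src (a : E) : Rel (.ι k (.inr a) * .ι k (.inl (s a))) (.ι k (.inr a))
  | tgt (a : E) : Rel (.ι k (.inl (t a)) * .ι k (.inr a)) (.ι k (.inr a))

/-- The path algebra. -/
abbrev PathAlg : Type := RingQuot (Rel k s t)

/-- The trivial path at a vertex. -/
noncomputable def vert (v : V) : PathAlg k s t := RingQuot.mkAlgHom k (Rel k s t) (.ι k (.inl v))

/-- An arrow. -/
noncomputable def arr (a : E) : PathAlg k s t := RingQuot.mkAlgHom k (Rel k s t) (.ι k (.inr a))

/-- The two-sided ideal generated by the arrows. -/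
noncomputable def arrowIdeal : Ideal (PathAlg k s t) :=
  (TwoSidedIdeal.span (Set.range (arr k s t))).asIdeal

/-- Admissible ideals. -/
def Admissible (I : Ideal (PathAlg k s t)) : Prop :=
  ∃ m : ℕ, 2 ≤ m ∧ arrowIdeal k s t ^ m ≤ I ∧ I ≤ arrowIdeal k s t ^ 2

/-- Any vertex is reached from any other by a directed path. -/
def StronglyConnected : Prop :=
  ∀ x y : V, Relation.ReflTransGen (fun v w => ∃ a : E, s a = v ∧ t a = w) x y

/-- `Ω n` is the `n`-th syzygy of `Ω 0` in a minimal projective resolution with terms `P n`: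
`Ω (n+1)` is the kernel of a projective cover `P n → Ω n`. -/
def IsMinimalSyzygies {Λ : Type} [Ring Λ] (Ω P : ℕ → ModuleCat.{0} Λ) : Prop :=
  ∀ n, Module.Projective Λ (P n) ∧ Module.Finite Λ (P n) ∧
    ∃ (ι : Ω (n + 1) →ₗ[Λ] P n) (π : P n →ₗ[Λ] Ω n),
      Function.Injective ι ∧ Function.Surjective π ∧ Function.Exact ι π ∧
      ∀ N : Submodule Λ (P n), N ⊔ LinearMap.range ι = ⊤ → N = ⊤

/-- The simple module `S = Ω 0` with `e S ≠ 0` has infinite projective dimension, and `e` kills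
all its syzygies `Ω n`, `n ≥ 1`. -/
def NonRecurrent {Λ : Type} [Ring Λ] (e : Λ) : Prop :=
  ∃ Ω P : ℕ → ModuleCat.{0} Λ, IsSimpleModule Λ (Ω 0) ∧ (∃ m : Ω 0, e • m ≠ 0) ∧
    IsMinimalSyzygies Ω P ∧ CategoryTheory.projectiveDimension (Ω 0) = ⊤ ∧
    ∀ n, 1 ≤ n → ∀ m : Ω n, e • m = 0

end Pool.Agent.H22.Syz
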