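import Mathlib
import Pool.Agent.H22.SyzDefs

set_option autoImplicit false

namespace Pool.Agent.H22.Syz

open CategoryTheory

section General

variable {A : Type} [Ring A]

theorem mem_sp {g u : A} : u ∈ Ideal.span {g} ↔ ∃ v, v * g = u := Ideal.mem_span_singleton'

theorem proj_idem {e : A} (he : e * e = e) : Module.Projective A (Ideal.span {e}) := by
  refine Module.Projective.of_split (Ideal.span {e}).subtype
    ((LinearMap.toSpanSingleton A A e).codRestrict _ fun u => mem_sp.2 ⟨u, rfl⟩) ?_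
  ext ⟨u, hu⟩
  obtain ⟨v, rfl⟩ := mem_sp.1 hu
  simp [mul_assoc, he]

theorem fin_sp (e : A) : Module.Finite A (Ideal.span {e}) :=
  Module.Finite.of_fg (Submodule.fg_span_singleton e)

theorem small {e g : A} (hg : g * e = g) (h2 : ∀ u, g * (u * g) = 0)
    (hle : Ideal.span {g} ≤ Ideal.span {e})
    (N : Submodule A (Ideal.span {e})) (h : N ⊔ LinearMap.range (Submodule.inclusion hle) = ⊤) :
    N = ⊤ := by
  have he : (⟨e, Ideal.subset_span rfl⟩ : Ideal.span {e}) ∈ N ⊔ LinearMap.range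
    (Submodule.inclusion hle) := h ▸ Submodule.mem_top
  obtain ⟨n, hn, _, ⟨⟨w, hw⟩, rfl⟩, hs⟩ := Submodule.mem_sup.1 he
  obtain ⟨u, rfl⟩ := mem_sp.1 hw
  have h1 : (n : A) + u * g = e := congrArg Subtype.val hs
  have hgN : (⟨g, hle (Ideal.subset_span rfl)⟩ : Ideal.span {e}) ∈ N := by
    have := N.smul_mem g hn
    convert this using 1
    ext
    simp only [SetLike.val_smul, smul_eq_mul]
    rw [eq_sub_of_add_eq h1, mul_sub, hg, h2, sub_zero]
  rw [← h, eq_comm, sup_eq_left]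
  rintro _ ⟨⟨w, hw⟩, rfl⟩
  obtain ⟨v, rfl⟩ := mem_sp.1 hw
  exact N.smul_mem v hgN

theorem pd_top (Ω P : ℕ → ModuleCat.{0} A) (h : IsMinimalSyzygies Ω P)
    (hne : ∀ n, Nontrivial (Ω n)) : projectiveDimension (Ω 0) = ⊤ := by
  by_contra hc
  obtain ⟨n, hn⟩ := (projectiveDimension_ne_top_iff _).1 hc
  have key : ∀ m j, ¬ HasProjectiveDimensionLT (Ω j) (m + 1) := by
    intro m
    induction m with
    | zero =>
      intro j hj
      have hp : Projective (Ω j) := projective_iff_hasProjectiveDimensionLT_one.2 hj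
      have hp' : Module.Projective A (Ω j) := (Ω j).projective_of_module_projective
      obtain ⟨-, -, ι, π, hι, hπ, hex, hs⟩ := h j
      obtain ⟨σ, hσ⟩ := Module.projective_lifting_property π LinearMap.id hπ
      have htop : LinearMap.range σ = ⊤ := hs _ (by
        rw [eq_top_iff]
        intro p _
        refine Submodule.mem_sup.2 ⟨σ (π p), ⟨_, rfl⟩, p - σ (π p), ?_, by simp⟩
        refine (hex _).1 ?_
        have := LinearMap.congr_fun hσ (π p)
        simp only [LinearMap.comp_apply, LinearMap.id_apply] at this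
        simp [this])
      obtain ⟨y, hy⟩ := exists_ne (0 : Ω (j + 1))
      obtain ⟨z, hz⟩ : ι y ∈ LinearMap.range σ := htop ▸ Submodule.mem_top
      have h0 : π (ι y) = 0 := (hex _).2 ⟨y, rfl⟩
      have := LinearMap.congr_fun hσ z
      simp only [LinearMap.comp_apply, LinearMap.id_apply] at this
      rw [hz, h0] at this
      rw [← this, map_zero] at hz
      exact hy (hι (by rw [← hz, map_zero]))
    | succ m ih =>
      intro j hj
      obtain ⟨hP, -, ι, π, hι, hπ, hex, -⟩ := h j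
      have hS := ModuleCat.shortComplex_shortExact
        (ShortComplex.mk (ModuleCat.ofHom ι) (ModuleCat.ofHom π) (by
          ext y
          exact (hex _).2 ⟨y, rfl⟩)) hex hι hπ
      exact ih (j + 1) ((hS.hasProjectiveDimensionLT_X₃_iff m
        (ModuleCat.projective_of_categoryTheory_projective (P j))).1 hj)
  exact key n 0 hn

def mulR (e g : A) : Ideal.span {e} →ₗ[A] Ideal.span {g} :=
  ((LinearMap.toSpanSingleton A A g).codRestrict _ fun u => mem_sp.2 ⟨u, rfl⟩).comp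
    (Ideal.span {e}).subtype

theorem mulR_val (e g : A) (u : Ideal.span {e}) : (mulR e g u : A) = u * g := rfl

theorem mulR_surj {e g : A} (h : e * g = g) : Function.Surjective (mulR e g) := by
  rintro ⟨w, hw⟩
  obtain ⟨v, rfl⟩ := mem_sp.1 hw
  exact ⟨⟨v * e, mem_sp.2 ⟨v, rfl⟩⟩, Subtype.ext (by rw [mulR_val, mul_assoc, h])⟩

variable {k : Type} [Field k] [Algebra k A]

structure Data (k : Type) [Field k] [Algebra k A] (ex ey a b c : A) : Prop where
  xx : ex * ex = ex
  yy : ey * ey = ey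
  ax : a * ex = a
  ya : ey * a = a
  cy : c * ey = c
  yc : ey * c = c
  ca : c * a = 0
  cc : c * c = 0
  cb : c * b = 0
  aa : a * a = 0
  ab : a * b = 0
  xa : ex * a = 0
  xb : ex * b = 0
  xc : ex * c = 0
  spy : ∀ u, ∃ α β γ δ : k, u * ey = α • ey + β • c + γ • b + δ • (b * c)
  spx : ∀ u, ∃ α β γ : k, u * ex = α • ex + β • a + γ • (b * a)
  inda : ∀ α γ : k, α • a + γ • (b * a) = 0 → α = 0 ∧ γ = 0
  indc : ∀ α γ : k, α • c + γ • (b * c) = 0 → α = 0 ∧ γ = 0

variable {ex ey a b c : A} (D : Data k ex ey a b c)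
include D

theorem Data.mul_g {g : A} (hg : ey * g = g) (hc : c * g = 0) (u : A) :
    ∃ α γ : k, u * g = α • g + γ • (b * g) ∧
      ∃ β δ : k, u * ey = α • ey + β • c + γ • b + δ • (b * c) := by
  obtain ⟨α, β, γ, δ, h⟩ := D.spy u
  refine ⟨α, γ, ?_, β, δ, h⟩
  rw [← hg, ← mul_assoc, h]
  simp [add_mul, mul_assoc, hg, hc]

theorem Data.cle : Ideal.span {c} ≤ Ideal.span {ey} :=
  (Ideal.span_singleton_le_iff_mem _).2 (mem_sp.2 ⟨c, D.cy⟩)

theorem Data.ale : Ideal.span {a} ≤ Ideal.span {ex} :=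
  (Ideal.span_singleton_le_iff_mem _).2 (mem_sp.2 ⟨a, D.ax⟩)

theorem Data.exact {g : A} (hg : ey * g = g) (hc : c * g = 0)
    (hi : ∀ α γ : k, α • g + γ • (b * g) = 0 → α = 0 ∧ γ = 0) :
    Function.Exact (Submodule.inclusion D.cle) (mulR ey g) := by
  rintro ⟨w, hw⟩
  obtain ⟨v, rfl⟩ := mem_sp.1 hw
  constructor
  · intro h
    have h1 : v * ey * g = 0 := congrArg Subtype.val h
    rw [mul_assoc, hg] at h1
    obtain ⟨α, γ, h2, β, δ, h3⟩ := D.mul_g hg hc v
    obtain ⟨rfl, rfl⟩ := hi α γ (h2 ▸ h1)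
    refine ⟨⟨v * ey, mem_sp.2 ⟨β • 1 + δ • b, ?_⟩⟩, rfl⟩
    rw [h3]
    simp [add_mul]
  · rintro ⟨⟨w, hw⟩, h⟩
    obtain ⟨u, rfl⟩ := mem_sp.1 hw
    have h1 : u * c = v * ey := congrArg Subtype.val h
    refine Subtype.ext ?_
    rw [mulR_val]
    change v * ey * g = 0
    rw [← h1, mul_assoc, hc, mul_zero]

noncomputable def Data.Om : ℕ → ModuleCat.{0} A
  | 0 => ModuleCat.of A (Ideal.span {ex} ⧸ LinearMap.range (Submodule.inclusion D.ale))
  | 1 => ModuleCat.of A (Ideal.span {a})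
  | _ + 2 => ModuleCat.of A (Ideal.span {c})

omit D in
noncomputable def Pr (ex ey : A) : ℕ → ModuleCat.{0} A
  | 0 => ModuleCat.of A (Ideal.span {ex})
  | _ + 1 => ModuleCat.of A (Ideal.span {ey})

theorem Data.cuc (u : A) : c * (u * c) = 0 := by
  obtain ⟨α, γ, h, -⟩ := D.mul_g D.yc D.cc u
  rw [h]
  simp [mul_add, ← mul_assoc, D.cc, D.cb]

theorem Data.aua (u : A) : a * (u * a) = 0 := by
  obtain ⟨α, γ, h, -⟩ := D.mul_g D.ya D.ca u
  rw [h]
  simp [mul_add, ← mul_assoc, D.aa, D.ab]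

theorem Data.minimal : IsMinimalSyzygies D.Om (Pr ex ey) := by
  intro n
  match n with
  | 0 =>
    exact ⟨proj_idem D.xx, fin_sp ex, Submodule.inclusion D.ale, Submodule.mkQ _,
      Submodule.inclusion_injective _, Submodule.mkQ_surjective _,
      fun _ => Submodule.Quotient.mk_eq_zero _, small D.ax D.aua D.ale⟩
  | 1 =>
    exact ⟨proj_idem D.yy, fin_sp ey, Submodule.inclusion D.cle, mulR ey a,
      Submodule.inclusion_injective _, mulR_surj D.ya, D.exact D.ya D.ca D.inda,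
      small D.cy D.cuc D.cle⟩
  | n + 2 =>
    exact ⟨proj_idem D.yy, fin_sp ey, Submodule.inclusion D.cle, mulR ey c,
      Submodule.inclusion_injective _, mulR_surj D.yc, D.exact D.yc D.cc D.indc,
      small D.cy D.cuc D.cle⟩

theorem Data.a_ne : a ≠ 0 := fun h => one_ne_zero (D.inda 1 0 (by simp [h])).1
theorem Data.c_ne : c ≠ 0 := fun h => one_ne_zero (D.indc 1 0 (by simp [h])).1

theorem Data.x_not : (⟨ex, Ideal.subset_span rfl⟩ : Ideal.span {ex}) ∉
    LinearMap.range (Submodule.inclusion D.ale) := by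
  rintro ⟨⟨w, hw⟩, h⟩
  obtain ⟨u, rfl⟩ := mem_sp.1 hw
  have h1 : u * a = ex := congrArg Subtype.val h
  exact D.a_ne (by rw [← D.ax, ← h1, D.aua])

theorem Data.simple : IsSimpleModule A (D.Om 0) := by
  change IsSimpleModule A (Ideal.span {ex} ⧸ LinearMap.range (Submodule.inclusion D.ale))
  rw [isSimpleModule_iff_isCoatom]
  refine ⟨fun h => D.x_not (h ▸ Submodule.mem_top), fun N hN => ?_⟩
  obtain ⟨⟨w, hw⟩, h1, h2⟩ := SetLike.exists_of_lt hN
  obtain ⟨u, rfl⟩ := mem_sp.1 hw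
  obtain ⟨α, β, γ, h⟩ := D.spx u
  have hr : (⟨β • a + γ • (b * a), D.ale (mem_sp.2 ⟨β • 1 + γ • b, by simp [add_mul]⟩)⟩ :
      Ideal.span {ex}) ∈ LinearMap.range (Submodule.inclusion D.ale) :=
    ⟨⟨_, mem_sp.2 ⟨β • 1 + γ • b, rfl⟩⟩, Subtype.ext (by simp [add_mul])⟩
  have hα : α ≠ 0 := by
    rintro rfl
    apply h2
    convert hr using 2
    simp [h]
  have h3 := N.smul_mem (algebraMap k A α⁻¹) (N.sub_mem h1 (hN.le hr))
  have h4 : (⟨ex, Ideal.subset_span rfl⟩ : Ideal.span {ex}) ∈ N := by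
    convert h3 using 1
    ext
    simp only [SetLike.val_smul, AddSubgroupClass.coe_sub, smul_eq_mul, h, add_assoc,
      add_sub_cancel_right, ← Algebra.smul_def, smul_smul, inv_mul_cancel₀ hα, one_smul]
  rw [eq_top_iff]
  rintro ⟨w, hw⟩ -
  obtain ⟨v, rfl⟩ := mem_sp.1 hw
  exact N.smul_mem v h4

theorem Data.supp0 : ∃ m : D.Om 0, ex • m ≠ 0 := by
  refine ⟨Submodule.mkQ _ (⟨ex, Ideal.subset_span rfl⟩ : Ideal.span {ex}), fun h => ?_⟩
  change ex • Submodule.mkQ (LinearMap.range (Submodule.inclusion D.ale)) _ = 0 at h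
  rw [← map_smul, Submodule.mkQ_apply, Submodule.Quotient.mk_eq_zero] at h
  apply D.x_not
  convert h using 1
  exact Subtype.ext D.xx.symm

theorem Data.nontriv (n : ℕ) : Nontrivial (D.Om n) := by
  match n with
  | 0 => exact D.simple.nontrivial
  | 1 => exact ⟨⟨⟨a, Ideal.subset_span rfl⟩, 0, fun h => D.a_ne (congrArg Subtype.val h)⟩⟩
  | n + 2 => exact ⟨⟨⟨c, Ideal.subset_span rfl⟩, 0, fun h => D.c_ne (congrArg Subtype.val h)⟩⟩

theorem Data.supp (n : ℕ) (hn : 1 ≤ n) (m : D.Om n) : ex • m = 0 := by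
  match n, m with
  | 1, ⟨w, hw⟩ =>
    obtain ⟨u, rfl⟩ := mem_sp.1 hw
    obtain ⟨α, γ, h, -⟩ := D.mul_g D.ya D.ca u
    refine Subtype.ext ?_
    change ex * (u * a) = 0
    rw [h]
    simp [mul_add, ← mul_assoc, D.xa, D.xb]
  | n + 2, ⟨w, hw⟩ =>
    obtain ⟨u, rfl⟩ := mem_sp.1 hw
    obtain ⟨α, γ, h, -⟩ := D.mul_g D.yc D.cc u
    refine Subtype.ext ?_
    change ex * (u * c) = 0
    rw [h]
    simp [mul_add, ← mul_assoc, D.xc, D.xb]

end General

section Concrete

variable (k : Type) [Field k]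

def sQ : Fin 4 → Fin 3 := ![0, 1, 2, 1]
def tQ : Fin 4 → Fin 3 := ![1, 2, 0, 1]

abbrev PA := PathAlg k sQ tQ

noncomputable def II : Ideal (PA k) :=
  (TwoSidedIdeal.span {arr k sQ tQ 3 * arr k sQ tQ 0, arr k sQ tQ 3 * arr k sQ tQ 3,
    arr k sQ tQ 2 * arr k sQ tQ 1}).asIdeal

instance : (II k).IsTwoSided := by unfold II; infer_instance
instance : (arrowIdeal k sQ tQ).IsTwoSided := by unfold arrowIdeal; infer_instance

abbrev La := PA k ⧸ II k

noncomputable def toL : FreeAlgebra k (Fin 3 ⊕ Fin 4) →ₐ[k] La k :=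
  (Ideal.Quotient.mkₐ k (II k)).comp (RingQuot.mkAlgHom k _)

theorem toL_surj : Function.Surjective (toL k) :=
  (Ideal.Quotient.mkₐ_surjective k _).comp (RingQuot.mkAlgHom_surjective k _)

theorem toL_rel {x y} (h : Rel k sQ tQ x y) : toL k x = toL k y :=
  congrArg (Ideal.Quotient.mkₐ k (II k)) (RingQuot.mkAlgHom_rel k h)

noncomputable def ee (v : Fin 3) : La k := toL k (.ι k (.inl v))
noncomputable def aa (α : Fin 4) : La k := toL k (.ι k (.inr α))

theorem ee_ee (v w : Fin 3) : ee k v * ee k w = if v = w then ee k v else 0 := by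
  split_ifs with h
  · subst h
    simpa [ee] using toL_rel k (Rel.idem v)
  · simpa [ee] using toL_rel k (Rel.orth v w h)

theorem ee_aa (v : Fin 3) (α : Fin 4) : ee k v * aa k α = if v = tQ α then aa k α else 0 := by
  have h1 : ee k (tQ α) * aa k α = aa k α := by simpa [ee, aa] using toL_rel k (Rel.tgt α)
  split_ifs with h
  · exact h ▸ h1
  · rw [← h1, ← mul_assoc, ee_ee, if_neg h, zero_mul]

theorem aa_ee (v : Fin 3) (α : Fin 4) : aa k α * ee k v = if sQ α = v then aa k α else 0 := by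
  have h1 : aa k α * ee k (sQ α) = aa k α := by simpa [ee, aa] using toL_rel k (Rel.src α)
  split_ifs with h
  · exact h ▸ h1
  · rw [← h1, mul_assoc, ee_ee, if_neg h, mul_zero]

theorem aa_aa (α β : Fin 4) (h : sQ α ≠ tQ β) : aa k α * aa k β = 0 := by
  have h1 : aa k α * ee k (sQ α) = aa k α := by rw [aa_ee, if_pos rfl]
  rw [← h1, mul_assoc, ee_aa, if_neg h, mul_zero]

theorem rel0 {x : PA k} (h : x ∈ ({arr k sQ tQ 3 * arr k sQ tQ 0, arr k sQ tQ 3 * arr k sQ tQ 3,
    arr k sQ tQ 2 * arr k sQ tQ 1} : Set (PA k))) : Ideal.Quotient.mk (II k) x = 0 :=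
  Ideal.Quotient.eq_zero_iff_mem.2 (TwoSidedIdeal.subset_span h)

theorem r30 : aa k 3 * aa k 0 = 0 := rel0 k (Or.inl rfl)
theorem r33 : aa k 3 * aa k 3 = 0 := rel0 k (Or.inr (Or.inl rfl))
theorem r21 : aa k 2 * aa k 1 = 0 := rel0 k (Or.inr (Or.inr rfl))
theorem r00 : aa k 0 * aa k 0 = 0 := aa_aa k _ _ (by decide)
theorem r01 : aa k 0 * aa k 1 = 0 := aa_aa k _ _ (by decide)
theorem r03 : aa k 0 * aa k 3 = 0 := aa_aa k _ _ (by decide)
theorem r11 : aa k 1 * aa k 1 = 0 := aa_aa k _ _ (by decide)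
theorem r12 : aa k 1 * aa k 2 = 0 := aa_aa k _ _ (by decide)
theorem r20 : aa k 2 * aa k 0 = 0 := aa_aa k _ _ (by decide)
theorem r22 : aa k 2 * aa k 2 = 0 := aa_aa k _ _ (by decide)
theorem r23 : aa k 2 * aa k 3 = 0 := aa_aa k _ _ (by decide)
theorem r31 : aa k 3 * aa k 1 = 0 := aa_aa k _ _ (by decide)
theorem r32 : aa k 3 * aa k 2 = 0 := aa_aa k _ _ (by decide)

theorem sum_ee : ee k 0 + ee k 1 + ee k 2 = 1 := by
  simpa [ee, Fin.sum_univ_three] using toL_rel k Rel.sum

noncomputable def pp : Fin 11 → La k :=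
  ![ee k 0, ee k 1, ee k 2, aa k 0, aa k 1, aa k 2, aa k 3, aa k 1 * aa k 0, aa k 1 * aa k 3,
    aa k 0 * aa k 2, aa k 1 * aa k 0 * aa k 2]

def TV : Fin 3 → Fin 11 → Option (Fin 11) :=
  ![![some 0, none, none, none, none, some 5, none, none, none, none, none],
    ![none, some 1, none, some 3, none, none, some 6, none, none, some 9, none],
    ![none, none, some 2, none, some 4, none, none, some 7, some 8, none, some 10]]

def TE : Fin 4 → Fin 11 → Option (Fin 11) :=
  ![![some 3, none, none, none, none, some 9, none, none, none, none, none],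
    ![none, some 4, none, some 7, none, none, some 8, none, none, some 10, none],
    ![none, none, some 5, none, none, none, none, none, none, none, none],
    ![none, some 6, none, none, none, none, none, none, none, none, none]]

theorem tabV (v : Fin 3) (i : Fin 11) : ee k v * pp k i = (TV v i).elim 0 (pp k) := by
  fin_cases v <;> fin_cases i <;> simp [pp, TV, ← mul_assoc, ee_ee, ee_aa, tQ]

theorem tabE (v : Fin 4) (i : Fin 11) : aa k v * pp k i = (TE v i).elim 0 (pp k) := by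
  fin_cases v <;> fin_cases i <;> simp [pp, TE, ← mul_assoc, aa_ee, sQ, r30, r33, r21, r00, r01,
    r03, r11, r12, r20, r22, r23, r31, r32]

noncomputable def Sp (S : Finset (Fin 11)) : Submodule k (La k) := Submodule.span k (pp k '' S)

theorem map_Sp {g : La k} {T : Fin 11 → Option (Fin 11)} (hg : ∀ i, g * pp k i = (T i).elim 0 (pp k))
    {S S' : Finset (Fin 11)} (h : ∀ i ∈ S, ∀ j, T i = some j → j ∈ S') {w : La k}
    (hw : w ∈ Sp k S) : g * w ∈ Sp k S' := by
  induction hw using Submodule.span_induction with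
  | mem x hx =>
    obtain ⟨i, hi, rfl⟩ := hx
    rw [hg]
    cases hT : T i with
    | none => exact zero_mem _
    | some j => exact Submodule.subset_span ⟨j, h i hi j hT, rfl⟩
  | zero => simp
  | add x y _ _ hx hy => rw [mul_add]; exact add_mem hx hy
  | smul r x _ hx => rw [mul_smul_comm]; exact Submodule.smul_mem _ _ hx

def Cl (S : Finset (Fin 11)) : Prop :=
  (∀ v, ∀ i ∈ S, ∀ j, TV v i = some j → j ∈ S) ∧ ∀ v, ∀ i ∈ S, ∀ j, TE v i = some j → j ∈ S

instance (S : Finset (Fin 11)) : Decidable (Cl S) := by unfold Cl; infer_instance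

theorem left_Sp {S : Finset (Fin 11)} (h : Cl S) (u : La k) : ∀ w ∈ Sp k S, u * w ∈ Sp k S := by
  obtain ⟨u, rfl⟩ := toL_surj k u
  induction u using FreeAlgebra.induction with
  | grade0 r =>
    intro w hw
    rw [AlgHom.commutes, ← Algebra.smul_def]
    exact Submodule.smul_mem _ _ hw
  | grade1 x =>
    intro w hw
    cases x with
    | inl v => exact map_Sp k (tabV k v) (h.1 v) hw
    | inr v => exact map_Sp k (tabE k v) (h.2 v) hw
  | mul x y hx hy => intro w hw; rw [map_mul, mul_assoc]; exact hx _ (hy _ hw)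
  | add x y hx hy => intro w hw; rw [map_add, add_mul]; exact add_mem (hx _ hw) (hy _ hw)

theorem pp_mem {S : Finset (Fin 11)} {i : Fin 11} (h : i ∈ S) : pp k i ∈ Sp k S :=
  Submodule.subset_span ⟨i, h, rfl⟩

theorem arrow_Sp {S S' : Finset (Fin 11)} (hS : Cl S) (hS' : Cl S')
    (h : ∀ v, ∀ i ∈ S, ∀ j, TE v i = some j → j ∈ S') {u : PA k} (hu : u ∈ arrowIdeal k sQ tQ) :
    ∀ w ∈ Sp k S, Ideal.Quotient.mk (II k) u * w ∈ Sp k S' := by
  have hu' : u ∈ TwoSidedIdeal.span (Set.range (arr k sQ tQ)) := hu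
  clear hu
  induction hu' using TwoSidedIdeal.span_induction with
  | mem x hx =>
    obtain ⟨v, rfl⟩ := hx
    exact fun w hw => map_Sp k (tabE k v) (h v) hw
  | zero => intro w _; simp
  | add x y _ _ hx hy => intro w hw; rw [map_add, add_mul]; exact add_mem (hx _ hw) (hy _ hw)
  | neg x _ hx => intro w hw; rw [map_neg, neg_mul]; exact neg_mem (hx _ hw)
  | left_absorb x y _ hy =>
    intro w hw; rw [map_mul, mul_assoc]; exact left_Sp k hS' _ _ (hy _ hw)
  | right_absorb x y _ hy =>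
    intro w hw; rw [map_mul, mul_assoc]; exact hy _ (left_Sp k hS _ _ hw)

def FF : ℕ → Finset (Fin 11)
  | 0 => ∅
  | 1 => {10}
  | 2 => {7, 8, 9, 10}
  | 3 => {3, 4, 5, 6, 7, 8, 9, 10}
  | _ + 4 => Finset.univ

theorem FF_cl (n : ℕ) : Cl (FF n) := by
  match n with
  | 0 => decide
  | 1 => decide
  | 2 => decide
  | 3 => decide
  | n + 4 => exact ⟨fun _ _ _ _ _ => Finset.mem_univ _, fun _ _ _ _ _ => Finset.mem_univ _⟩

theorem pow_Sp (n : ℕ) (hn : n ≤ 4) : ∀ u ∈ arrowIdeal k sQ tQ ^ n, ∀ w ∈ Sp k (FF n),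
    Ideal.Quotient.mk (II k) u * w = 0 := by
  induction n with
  | zero =>
    intro u _ w hw
    have : w = 0 := by simpa [Sp, FF] using hw
    rw [this, mul_zero]
  | succ n ih =>
    intro u hu w hw
    rw [Submodule.pow_succ] at hu
    refine Submodule.mul_induction_on hu (fun x hx y hy => ?_) (fun x y hx hy => ?_)
    · rw [map_mul, mul_assoc]
      refine ih (by omega) x hx _ (arrow_Sp k (FF_cl _) (FF_cl _) ?_ hy w hw)
      have : n < 4 := by omega
      interval_cases n <;> decide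
    · rw [map_add, add_mul, hx, hy, add_zero]

theorem adm : Admissible k sQ tQ (II k) := by
  refine ⟨4, by norm_num, fun u hu => ?_, fun u hu => ?_⟩
  · have h1 : (1 : La k) ∈ Sp k (FF 4) := by
      rw [← sum_ee]
      exact add_mem (add_mem (pp_mem k (i := 0) (Finset.mem_univ _))
        (pp_mem k (i := 1) (Finset.mem_univ _))) (pp_mem k (i := 2) (Finset.mem_univ _))
    have := pow_Sp k 4 le_rfl u hu 1 h1
    rw [mul_one] at this
    exact Ideal.Quotient.eq_zero_iff_mem.1 this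
  · have hu' : u ∈ TwoSidedIdeal.span _ := hu
    clear hu
    have h2 : ∀ α β, arr k sQ tQ α * arr k sQ tQ β ∈ arrowIdeal k sQ tQ ^ 2 := fun α β => by
      rw [Submodule.pow_succ, Submodule.pow_one]
      exact Submodule.mul_mem_mul (TwoSidedIdeal.subset_span ⟨α, rfl⟩)
        (TwoSidedIdeal.subset_span ⟨β, rfl⟩)
    induction hu' using TwoSidedIdeal.span_induction with
    | mem x hx => rcases hx with rfl | rfl | rfl <;> exact h2 _ _
    | zero => exact zero_mem _
    | add x y _ _ hx hy => exact add_mem hx hy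
    | neg x _ hx => exact neg_mem hx
    | left_absorb x y _ hy => exact Ideal.mul_mem_left _ _ hy
    | right_absorb x y _ hy => exact Ideal.mul_mem_right _ _ hy

theorem exists_rep {B : Type} [Ring B] [Algebra k B] (e : Fin 3 → B) (f : Fin 4 → B)
    (h1 : ∀ v w, e v * e w = if v = w then e v else 0) (h2 : e 0 + e 1 + e 2 = 1)
    (h3 : ∀ α, f α * e (sQ α) = f α) (h4 : ∀ α, e (tQ α) * f α = f α)
    (h5 : f 3 * f 0 = 0) (h6 : f 3 * f 3 = 0) (h7 : f 2 * f 1 = 0) :
    ∃ ρ : La k →ₐ[k] B, ∀ α, ρ (aa k α) = f α := by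
  let φ : PA k →ₐ[k] B := RingQuot.liftAlgHom k ⟨FreeAlgebra.lift k (Sum.elim e f), by
    intro x y h
    cases h with
    | idem v => simp [h1]
    | orth v w h => simp [h1, h]
    | sum => simpa [Fin.sum_univ_three] using h2
    | src α => simp [h3]
    | tgt α => simp [h4]⟩
  have hφ : ∀ α, φ (arr k sQ tQ α) = f α := fun α => by simp [φ, arr]
  refine ⟨Ideal.Quotient.liftₐ (II k) φ fun u hu => ?_, hφ⟩
  have hu' : u ∈ TwoSidedIdeal.span _ := hu
  clear hu
  induction hu' using TwoSidedIdeal.span_induction with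
  | mem x hx => rcases hx with rfl | rfl | rfl <;> simp [hφ, h5, h6, h7]
  | zero => simp
  | add x y _ _ hx hy => simp [hx, hy]
  | neg x _ hx => simp [hx]
  | left_absorb x y _ hy => simp [hy]
  | right_absorb x y _ hy => simp [hy]

theorem ind_of (e : Fin 3 → Matrix (Fin 3) (Fin 3) ℤ) (f : Fin 4 → Matrix (Fin 3) (Fin 3) ℤ)
    (h1 : ∀ v w, e v * e w = if v = w then e v else 0) (h2 : e 0 + e 1 + e 2 = 1)
    (h3 : ∀ α, f α * e (sQ α) = f α) (h4 : ∀ α, e (tQ α) * f α = f α)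
    (h5 : f 3 * f 0 = 0) (h6 : f 3 * f 3 = 0) (h7 : f 2 * f 1 = 0) (g : Fin 4)
    (h8 : f g 1 0 = 1) (h9 : f g 2 0 = 0) (h10 : (f 1 * f g) 1 0 = 0) (h11 : (f 1 * f g) 2 0 = 1)
    (α γ : k) (h : α • aa k g + γ • (aa k 1 * aa k g) = 0) : α = 0 ∧ γ = 0 := by
  let c := (Int.castRingHom k).mapMatrix (m := Fin 3)
  obtain ⟨ρ, hρ⟩ := exists_rep k (B := Matrix (Fin 3) (Fin 3) k) (fun v => c (e v))
    (fun v => c (f v))
    (fun v w => by rw [← map_mul, h1]; split_ifs <;> simp)
    (by rw [← map_add, ← map_add, h2, map_one]) (fun v => by rw [← map_mul, h3])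
    (fun v => by rw [← map_mul, h4]) (by rw [← map_mul, h5, map_zero])
    (by rw [← map_mul, h6, map_zero]) (by rw [← map_mul, h7, map_zero])
  have := congrArg ρ h
  rw [map_add, map_smul, map_smul, map_mul, hρ, hρ, map_zero, ← map_mul] at this
  have hc : ∀ M i j, c M i j = (M i j : k) := fun _ _ _ => rfl
  have t1 := congrFun (congrFun this 1) 0
  have t2 := congrFun (congrFun this 2) 0
  rw [Matrix.add_apply, Matrix.smul_apply, Matrix.smul_apply, hc, hc, Matrix.zero_apply] at t1 t2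
  rw [h8, h10] at t1
  rw [h9, h11] at t2
  exact ⟨by simpa using t1, by simpa using t2⟩

theorem data : Data k (ee k 0) (ee k 1) (aa k 0) (aa k 1) (aa k 3) where
  xx := by simp [ee_ee]
  yy := by simp [ee_ee]
  ax := by simp [aa_ee, sQ]
  ya := by simp [ee_aa, tQ]
  cy := by simp [aa_ee, sQ]
  yc := by simp [ee_aa, tQ]
  ca := r30 k
  cc := r33 k
  cb := r31 k
  aa := r00 k
  ab := r01 k
  xa := by simp [ee_aa, tQ]
  xb := by simp [ee_aa, tQ]
  xc := by simp [ee_aa, tQ]
  spy u := by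
    have := left_Sp k (S := {1, 6, 4, 8}) (by decide) u _ (pp_mem k (i := 1) (by decide))
    simp only [Sp, Finset.coe_insert, Finset.coe_singleton, Set.image_insert_eq,
      Set.image_singleton, Submodule.mem_span_insert, Submodule.mem_span_singleton] at this
    obtain ⟨α, _, ⟨β, _, ⟨γ, _, ⟨δ, rfl⟩, rfl⟩, rfl⟩, h⟩ := this
    exact ⟨α, β, γ, δ, by simpa [pp, add_assoc] using h⟩
  spx u := by
    have := left_Sp k (S := {0, 3, 7}) (by decide) u _ (pp_mem k (i := 0) (by decide))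
    simp only [Sp, Finset.coe_insert, Finset.coe_singleton, Set.image_insert_eq,
      Set.image_singleton, Submodule.mem_span_insert, Submodule.mem_span_singleton] at this
    obtain ⟨α, _, ⟨β, _, ⟨δ, rfl⟩, rfl⟩, h⟩ := this
    exact ⟨α, β, δ, by simpa [pp, add_assoc] using h⟩
  inda := ind_of k
    ![!![1, 0, 0; 0, 0, 0; 0, 0, 0], !![0, 0, 0; 0, 1, 0; 0, 0, 0], !![0, 0, 0; 0, 0, 0; 0, 0, 1]]
    ![!![0, 0, 0; 1, 0, 0; 0, 0, 0], !![0, 0, 0; 0, 0, 0; 0, 1, 0], 0, 0]
    (by decide) (by decide) (by decide) (by decide) (by decide) (by decide) (by decide) 0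
    (by decide) (by decide) (by decide) (by decide)
  indc := ind_of k
    ![0, !![1, 0, 0; 0, 1, 0; 0, 0, 0], !![0, 0, 0; 0, 0, 0; 0, 0, 1]]
    ![0, !![0, 0, 0; 0, 0, 0; 0, 1, 0], 0, !![0, 0, 0; 1, 0, 0; 0, 0, 0]]
    (by decide) (by decide) (by decide) (by decide) (by decide) (by decide) (by decide) 3
    (by decide) (by decide) (by decide) (by decide)

theorem strong : StronglyConnected sQ tQ := by
  have h01 : Relation.ReflTransGen (fun v w => ∃ a, sQ a = v ∧ tQ a = w) 0 1 :=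
    .single ⟨0, rfl, rfl⟩
  have h12 : Relation.ReflTransGen (fun v w => ∃ a, sQ a = v ∧ tQ a = w) 1 2 :=
    .single ⟨1, rfl, rfl⟩
  have h20 : Relation.ReflTransGen (fun v w => ∃ a, sQ a = v ∧ tQ a = w) 2 0 :=
    .single ⟨2, rfl, rfl⟩
  intro x y
  fin_cases x <;> fin_cases y
  exacts [.refl, h01, h01.trans h12, h12.trans h20, .refl, h12, h20, h20.trans h01, .refl]

end Concrete

end Pool.Agent.H22.Syz
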