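import Pool.Agent.H22.LocFit

namespace Pool.Agent.H22.Tn

open Subgroup Function Pool.Agent.H22.Syl Pool.Agent.H22.Fit
open scoped commutatorElement

variable {G H : Type} [Group G] [Group H]

abbrev Ce (K : Subgroup G) : Subgroup G := centralizer (K : Set G)

theorem t32 {x : G} (a : pel 3 x) (b : pel 2 x) : x = 1 :=
  a.two Nat.prime_three Nat.prime_two (by norm_num) b

theorem dec {M Q : Subgroup G} (h : Q ≤ normalizer (M : Set G)) {x : G} (hx : x ∈ M ⊔ Q) :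
    ∃ m ∈ M, ∃ q ∈ Q, m * q = x := by
  have : x ∈ ((M ⊔ Q : Subgroup G) : Set G) := hx
  rwa [coe_mul_of_right_le_normalizer_left M Q h] at this

theorem c1 {K : Subgroup G} {c f : G} (a : c ∈ Ce K) (b : f ∈ K) : ⁅c, f⁆ = 1 :=
  commutatorElement_eq_one_iff_mul_comm.2 (a f b).symm

theorem c1' {K : Subgroup G} {c f : G} (a : c ∈ Ce K) (b : f ∈ K) : ⁅f, c⁆ = 1 :=
  commutatorElement_eq_one_iff_mul_comm.2 (a f b)

theorem cj {K : Subgroup G} {c f : G} (a : c ∈ Ce K) (b : f ∈ K) : f * c * f⁻¹ = c := by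
  rw [a f b, mul_inv_cancel_right]

theorem ce_sup {A B : Subgroup G} {c : G} (a : c ∈ Ce A) (b : c ∈ Ce B) : c ∈ Ce (A ⊔ B) :=
  fun _ hx => (sup_le (fun x h => mem_centralizer_singleton_iff.2 (a x h))
    (fun x h => mem_centralizer_singleton_iff.2 (b x h)) : A ⊔ B ≤ centralizer {c}) hx c rfl |>.symm

theorem ce_mono {A B : Subgroup G} {c : G} (h : A ≤ B) (b : c ∈ Ce B) : c ∈ Ce A :=
  fun x hx => b x (h hx)

theorem sq3 {B : Subgroup G} {x : G} (h : pel 3 x) {j : ℕ} (a : x ^ 2 ^ j ∈ B) : x ∈ B := by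
  obtain ⟨k, hk⟩ := h
  have := Nat.gcd_eq_gcd_ab (2 ^ j) (3 ^ k)
  rw [Nat.Coprime.pow j k (by norm_num), Nat.cast_one] at this
  rw [← zpow_one x, this, zpow_add, zpow_mul, zpow_mul, zpow_natCast, zpow_natCast, hk]
  exact mul_mem (zpow_mem a _) (by simp)

/-- Coprime action. -/
theorem ca [Finite G] {D Q : Subgroup G} [D.Normal] (hD : IsPGroup 3 D) (hQ : IsPGroup 2 Q) {g : G}
    (hg : g ∈ D) : ∃ m ∈ ⁅D, Q⁆, ∃ c ∈ D, c ∈ Ce Q ∧ g = m * c := by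
  have l := commutator_le_left D Q
  have nr := normalizer_commutator_ge_right D Q
  have nl := le_normalizer_iff.1 (normalizer_commutator_ge_left D Q)
  have hm : MaxP 2 Q (⁅D, Q⁆ ⊔ Q) := ⟨le_sup_right, hQ, fun U a b c u hu => by
    obtain ⟨m, hm, q, hq, rfl⟩ := dec nr (a hu)
    have : m = 1 := t32 (pel.of_mem hD (l hm))
      (pel.of_mem b (by simpa using U.mul_mem hu (U.inv_mem (c hq))))
    simpa [this] using hq⟩
  obtain ⟨n, hn, e⟩ := hm.frattini (s := g) ((le_normalizer_iff (H := D)).2 (fun h hh k hk => by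
    obtain ⟨m, hm, q, hq, rfl⟩ := dec nr hk
    rw [show h * (m * q) * h⁻¹ = h * m * h⁻¹ * ⁅h, q⁆ * q by simp only [commutatorElement_def]; group]
    exact mul_mem (mem_sup_left (mul_mem (nl h hh m hm) (commutator_mem_commutator hh hq)))
      (mem_sup_right hq)) hg)
  obtain ⟨m, hm, q, hq, rfl⟩ := dec nr hn
  have e' : g * m ∈ normalizer (Q : Set G) := by
    simpa [mul_assoc] using mul_mem e (inv_mem (le_normalizer hq))
  have hc := D.mul_mem hg (l hm)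
  refine ⟨g * m * m⁻¹ * (g * m)⁻¹, nl _ hc _ (inv_mem hm), g * m, hc, fun y hy => ?_, by group⟩
  exact (commutatorElement_eq_one_iff_mul_comm.1 (t32 (pel.of_mem hD
    (l (commutator_mem_commutator hc hy))) (pel.of_mem hQ
      (Q.mul_mem ((mem_normalizer_iff.1 e' y).1 hy) (Q.inv_mem hy))))).symm

theorem op {R Q : Subgroup G} {c : G} (hc : c ∈ Ce Q) (h : ∀ f ∈ R, ⁅c, f⁆ ∈ Ce Q) :
    c ∈ Ce ⁅R, Q⁆ := fun x hx => by
  refine mem_centralizer_singleton_iff.1 ((commutator_le.2 fun f hf y hy =>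
    mem_centralizer_singleton_iff.2 ?_ : ⁅R, Q⁆ ≤ centralizer {c}) hx)
  have a : c * y * c⁻¹ = y := by rw [← hc y hy, mul_inv_cancel_right]
  have b := cj (h _ (R.inv_mem hf)) hy
  symm
  calc c * ⁅f, y⁆ = c * f * c⁻¹ * (c * y * c⁻¹) * ⁅c, f⁻¹⁆ * f⁻¹ * (c * y * c⁻¹)⁻¹ * c := by
        simp only [commutatorElement_def]; group
    _ = c * f * c⁻¹ * (y * ⁅c, f⁻¹⁆ * y⁻¹) * y * f⁻¹ * y⁻¹ * c := by rw [a]; group
    _ = _ := by rw [b]; simp only [commutatorElement_def]; group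

theorem zc [Finite G] {R Q : Subgroup G} [R.Normal] (hR : IsPGroup 3 R) (hQ : IsPGroup 2 Q)
    (h : R ≤ ⁅R, Q⁆) {c : G} (a : c ∈ R) (b : c ∈ Ce R) (d : c ∈ Ce Q) : c ∈ ⁅R, R⁆ := by
  let c' : ↥(R ⊔ Q) := ⟨c, mem_sup_left a⟩
  have key : ∀ (k : ℕ) (g : ↥(R ⊔ Q)), g⁻¹ * c' ^ k * g ∈ R.subgroupOf (R ⊔ Q) →
      g⁻¹ * c' ^ k * g = c' ^ k := fun k g _ => Subtype.ext (by
    simpa using cj (pow_mem (ce_sup b d) k) (inv_mem g.2))
  have e := MonoidHom.transfer_eq_pow (Abelianization.of (G := R.subgroupOf (R ⊔ Q))) c' key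
  have h1 : c' ∈ commutator ↥(R ⊔ Q) := by
    obtain ⟨x, hx, u⟩ := (map_subtype_commutator (R ⊔ Q)).ge
      (commutator_mono le_sup_left le_sup_right (h a))
    rwa [← show x = c' from Subtype.ext u]
  rw [Abelianization.commutator_subset_ker _ h1, eq_comm] at e
  have h2 := (map_commutator_eq _ ((R ⊔ Q).subtype.comp (R.subgroupOf (R ⊔ Q)).subtype)).le
    ⟨_, (QuotientGroup.eq_one_iff _).1 e, rfl⟩
  have h3 : c ^ (R.subgroupOf (R ⊔ Q)).index ∈ ⁅R, R⁆ := by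
    refine commutator_mono ?_ ?_ h2 <;> rintro _ ⟨x, rfl⟩ <;> exact x.2
  obtain ⟨k, hk⟩ := hQ.exists_card_eq
  obtain ⟨j, -, hj⟩ := (Nat.dvd_prime_pow Nat.prime_two).1
    (hk ▸ relIndex_sup_left Q R ▸ relIndex_dvd_card R Q : R.relIndex (R ⊔ Q) ∣ 2 ^ k)
  exact sq3 (pel.of_mem hR a) (j := j) (by rw [← hj]; exact h3)

def Rr (N : Subgroup G) : Subgroup G :=
  closure {z | ∃ x ∈ N, ∃ y ∈ N, pel 3 x ∧ pel 2 y ∧ z = ⁅x, y⁆}

theorem rr_mem {N : Subgroup G} {x y : G} (a : x ∈ N) (b : y ∈ N) (c : pel 3 x) (d : pel 2 y) :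
    ⁅x, y⁆ ∈ Rr N := subset_closure ⟨x, a, y, b, c, d, rfl⟩

theorem rr_le {N K : Subgroup G} (h : ∀ x ∈ N, ∀ y ∈ N, pel 3 x → pel 2 y → ⁅x, y⁆ ∈ K) :
    Rr N ≤ K := (closure_le K).2 fun _ ⟨x, a, y, b, c, d, e⟩ => e ▸ h x a y b c d

theorem rr_mono {N K : Subgroup G} (h : N ≤ K) : Rr N ≤ Rr K :=
  rr_le fun _ a _ b c d => rr_mem (h a) (h b) c d

instance (N : Subgroup G) [h : N.Normal] : (Rr N).Normal := ⟨fun _ hn g =>
  (rr_le (K := (Rr N).comap (MulAut.conj g).toMonoidHom) fun x a y b c d => by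
    rw [mem_comap, map_commutatorElement]
    exact rr_mem (h.conj_mem _ a g) (h.conj_mem _ b g) (c.conj g) (d.conj g)) hn⟩

theorem pel_inj {p : ℕ} {x : G} (φ : G →* H) (hφ : Injective φ) (h : pel p (φ x)) : pel p x :=
  h.imp fun k hk => hφ (by rw [map_pow, hk, map_one])

theorem rr_map (N : Subgroup G) (φ : G →* H) (hφ : Injective φ) : Rr (N.map φ) = (Rr N).map φ := by
  refine le_antisymm (rr_le ?_) (map_le_iff_le_comap.2 (rr_le fun x a y b c d => ?_))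
  · rintro _ ⟨x, a, rfl⟩ _ ⟨y, b, rfl⟩ c d
    exact ⟨_, rr_mem a b (pel_inj φ hφ c) (pel_inj φ hφ d), map_commutatorElement _ _ _⟩
  · rw [mem_comap, map_commutatorElement]
    exact rr_mem ⟨x, a, rfl⟩ ⟨y, b, rfl⟩ (c.map φ) (d.map φ)

structure Se (P : Subgroup G) : Prop where
  n : P.Normal
  p : IsPGroup 3 P
  q : ∀ g, ∃ k, g ^ 2 ^ k ∈ P

theorem Se.mem {P : Subgroup G} (s : Se P) {x : G} (h : pel 3 x) : x ∈ P :=
  have := s.n
  pel_mem Nat.prime_three Nat.prime_two (by norm_num) s.q h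

theorem Se.rr {P : Subgroup G} (s : Se P) (N : Subgroup G) : Rr N ≤ P :=
  have := s.n
  rr_le fun _ _ y _ c _ => commutator_le_left P ⊤ (commutator_mem_commutator (s.mem c) (mem_top y))

theorem Se.r3 {P : Subgroup G} (s : Se P) (N : Subgroup G) : IsPGroup 3 (Rr N) :=
  s.p.to_le (s.rr N)

structure Sy (P N Q : Subgroup G) : Prop where
  le : Q ≤ N
  two : IsPGroup 2 Q
  cov : N ≤ P ⊔ Q
  pq : ⁅P, Q⁆ ≤ Rr N
  rq : Rr N ≤ ⁅Rr N, Q⁆

theorem Se.sy [Finite G] {P : Subgroup G} (s : Se P) (N : Subgroup G) [N.Normal] :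
    ∃ Q, Sy P N Q := by
  have := s.n
  obtain ⟨S, s1, s2, s3⟩ := Syl.lift (r := 2) (QuotientGroup.mk' P) N (pgrp (by
    rintro _ ⟨x, -, rfl⟩
    exact (s.q x).imp fun k hk => (QuotientGroup.eq_one_iff _).2 hk))
  obtain ⟨Q, hQ, l⟩ := exists_maxP s2 s1
  have cov : N ≤ P ⊔ Q := fun x hx => by
    obtain ⟨y, hy, e⟩ := s3.ge ⟨x, hx, rfl⟩
    rw [show x = y * (y⁻¹ * x) by group]
    exact mul_mem (mem_sup_right (l hy)) (mem_sup_left (QuotientGroup.eq.1 e))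
  have k : ∀ x ∈ P, ∀ y ∈ Q, ∃ m ∈ ⁅P, Q⁆, ⁅x, y⁆ = ⁅m, y⁆ := fun x hx y hy => by
    obtain ⟨m, a, c, -, b, rfl⟩ := ca s.p hQ.2.1 hx
    exact ⟨m, a, by rw [commutatorElement_mul_left_eq_conj_mul, c1 b hy]; simp⟩
  have pq : ⁅P, Q⁆ ≤ Rr N := commutator_le.2 fun x hx y hy => by
    obtain ⟨m, a, e⟩ := k x hx y hy
    exact e ▸ rr_mem (commutator_le_right P N (commutator_mono le_rfl hQ.1 a)) (hQ.1 hy)
      (pel.of_mem s.p (commutator_le_left P Q a)) (pel.of_mem hQ.2.1 hy)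
  refine ⟨Q, hQ.1, hQ.2.1, cov, pq, le_trans (rr_le fun x _ y b c d => ?_)
    (commutator_le.2 fun x hx y hy => ?_ : ⁅P, Q⁆ ≤ _)⟩
  · obtain ⟨T, t1, t2⟩ := exists_maxP (r := 2) (Q := zpowers y) (pgrp (by
      obtain ⟨k, hk⟩ := d
      rintro _ ⟨j, rfl⟩
      exact ⟨k, by simp only; rw [← zpow_natCast, ← zpow_mul, mul_comm, zpow_mul, zpow_natCast, hk,
        one_zpow]⟩)) ((zpowers_le (G := G)).2 b)
    obtain ⟨n, hn, e⟩ := hQ.conj t1
    obtain ⟨a, ha, q, hq, rfl⟩ := mem_sup_of_normal_left.1 (cov hn)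
    have := Q.mul_mem (Q.mul_mem hq ((e y).1 (t2 (mem_zpowers y)))) (Q.inv_mem hq)
    have h2 := le_normalizer_iff.1 (normalizer_commutator_ge_left P Q) a ha _
      (commutator_mem_commutator (P.mul_mem (P.mul_mem (P.inv_mem ha) (s.mem c)) ha) this)
    convert h2 using 1
    simp only [commutatorElement_def]; group
  · obtain ⟨m, a, e⟩ := k x hx y hy
    exact e ▸ commutator_mem_commutator (pq a) hy

theorem Se.all {P N C : Subgroup G} (s : Se P) [C.Normal] (h : N ≤ P ⊔ C) {y : G} (a : y ∈ N)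
    (b : pel 2 y) : y ∈ C := by
  obtain ⟨x, hx, c, hc, rfl⟩ := mem_sup_of_normal_right.1 (h a)
  have := t32 ((pel.of_mem s.p hx).map (QuotientGroup.mk' C)) (by
    simpa [(QuotientGroup.eq_one_iff c).2 hc] using b.map (QuotientGroup.mk' C))
  exact C.mul_mem ((QuotientGroup.eq_one_iff x).1 this) hc

end Pool.Agent.H22.Tn
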