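import Pool.Agent.H22.Tn1

namespace Pool.Agent.H22.Tn

open Subgroup Function Pool.Agent.H22.Syl Pool.Agent.H22.Fit
open scoped commutatorElement

variable {G H : Type} [Group G] [Group H] {n : ℕ}

def Br (R : Subgroup G) (e : G) : Set G := (fun f => ⁅e, f⁆) '' R

def Sm (n : ℕ) (R : Subgroup G) : Set G := {e | e ∈ R ∧ (Br R e).ncard ≤ n}

structure Bl (n : ℕ) (R : Subgroup G) : Prop where
  c2 : ∀ e ∈ R, ∀ f ∈ R, ⁅e, f⁆ ∈ Ce R
  big : ∀ e ∈ R, e ∉ Ce R → n ≤ (Br R e).ncard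
  gen : R ≤ closure (Sm n R)
  sep : ∀ e ∈ Sm n R, ∀ f ∈ Sm n R, ⁅e, f⁆ ≠ 1 → Br R e = Br R f

def SR (n : ℕ) (N : Subgroup G) : Prop :=
  Bl n (Rr N) ∧ ∀ y ∈ N, pel 2 y → ∀ z ∈ Rr N, z ∈ Ce (Rr N) → z * y = y * z

theorem br_map (R : Subgroup G) (φ : G →* H) (e : G) : Br (R.map φ) (φ e) = φ '' Br R e := by
  simp only [Br, coe_map, Set.image_image, map_commutatorElement]

theorem ce_map {R : Subgroup G} (φ : G →* H) (hφ : Injective φ) {e : G} :
    φ e ∈ Ce (R.map φ) ↔ e ∈ Ce R :=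
  ⟨fun h x hx => hφ (by simpa using h _ ⟨x, hx, rfl⟩), by
    rintro h _ ⟨x, hx, rfl⟩; rw [← map_mul, h x hx, map_mul]⟩

theorem sm_map (R : Subgroup G) (φ : G →* H) (hφ : Injective φ) :
    Sm n (R.map φ) = φ '' Sm n R := by
  ext x
  constructor
  · rintro ⟨⟨e, a, rfl⟩, b⟩
    exact ⟨e, ⟨a, by rwa [br_map, Set.ncard_image_of_injective _ hφ] at b⟩, rfl⟩
  · rintro ⟨e, ⟨a, b⟩, rfl⟩
    exact ⟨⟨e, a, rfl⟩, by rwa [br_map, Set.ncard_image_of_injective _ hφ]⟩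

theorem bl_map {R : Subgroup G} (φ : G →* H) (hφ : Injective φ) : Bl n (R.map φ) ↔ Bl n R := by
  constructor
  · refine fun h => ⟨fun e a f b => ?_, fun e a b => ?_, ?_, fun e a f b c => ?_⟩
    · rw [← ce_map φ hφ, map_commutatorElement]
      exact h.c2 _ ⟨e, a, rfl⟩ _ ⟨f, b, rfl⟩
    · have := h.big _ ⟨e, a, rfl⟩ (mt (ce_map φ hφ).1 b)
      rwa [br_map, Set.ncard_image_of_injective _ hφ] at this
    · have := h.gen
      rwa [sm_map _ φ hφ, ← MonoidHom.map_closure, map_le_map_iff_of_injective hφ] at this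
    · have := h.sep (φ e) (by rw [sm_map _ φ hφ]; exact ⟨e, a, rfl⟩) (φ f)
        (by rw [sm_map _ φ hφ]; exact ⟨f, b, rfl⟩)
        fun u => c (hφ (by rw [map_commutatorElement, u, map_one]))
      rwa [br_map, br_map, (Set.image_injective.2 hφ).eq_iff] at this
  · refine fun h => ⟨?_, ?_, ?_, ?_⟩
    · rintro _ ⟨e, a, rfl⟩ _ ⟨f, b, rfl⟩
      rw [← map_commutatorElement, ce_map φ hφ]
      exact h.c2 e a f b
    · rintro _ ⟨e, a, rfl⟩ b
      rw [br_map, Set.ncard_image_of_injective _ hφ]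
      exact h.big e a (mt (ce_map φ hφ).2 b)
    · rw [sm_map _ φ hφ, ← MonoidHom.map_closure]
      exact map_mono h.gen
    · rw [sm_map _ φ hφ]
      rintro _ ⟨e, a, rfl⟩ _ ⟨f, b, rfl⟩ c
      rw [br_map, br_map, h.sep e a f b fun u => c (by rw [← map_commutatorElement, u, map_one])]

theorem sr_map {N : Subgroup G} (φ : G →* H) (hφ : Injective φ) : SR n (N.map φ) ↔ SR n N := by
  rw [SR, SR, rr_map N φ hφ, bl_map φ hφ]
  refine and_congr_right fun _ => ⟨fun h y a b z c d => hφ ?_, ?_⟩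
  · simpa using h _ ⟨y, a, rfl⟩ (b.map φ) _ ⟨z, c, rfl⟩ ((ce_map φ hφ).2 d)
  · rintro h _ ⟨y, a, rfl⟩ b _ ⟨z, c, rfl⟩ d
    rw [← map_mul, h y a (pel_inj φ hφ b) z c ((ce_map φ hφ).1 d), map_mul]

/-- R is the product of A and a subgroup of B centralising A. -/
structure CP (R A B : Subgroup G) : Prop where
  le : A ≤ R
  le' : B ≤ R
  dec : ∀ e ∈ R, ∃ m ∈ A, ∃ c ∈ B, c ∈ Ce A ∧ e = m * c

variable {R A B : Subgroup G} {e f m c : G}

theorem cm_l (a : c ∈ Ce A) (b : f ∈ A) : ⁅m * c, f⁆ = ⁅m, f⁆ := by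
  rw [commutatorElement_mul_left_eq_conj_mul, c1 a b]; simp

theorem cm_r (a : c ∈ Ce A) (b : f ∈ A) : ⁅f, m * c⁆ = ⁅f, m⁆ := by
  rw [commutatorElement_mul_right_eq_mul_conj, c1' a b]; simp

theorem CP.br (h : CP R A B) (a : e ∈ A) : Br R e = Br A e := by
  refine Set.Subset.antisymm ?_ (Set.image_mono h.le)
  rintro _ ⟨f, b, rfl⟩
  obtain ⟨m, u, c, -, v, rfl⟩ := h.dec f b
  exact ⟨m, u, (cm_r v a).symm⟩

theorem CP.ce (h : CP R A B) (a : e ∈ A) (b : e ∈ Ce A) : e ∈ Ce R := fun f d => by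
  obtain ⟨m, u, c, -, v, rfl⟩ := h.dec f d
  rw [mul_assoc, ← v e a, ← mul_assoc, b m u, mul_assoc]

theorem CP.sub (h : CP R A B) (a : c ∈ Ce A) : Br A m ⊆ Br R (m * c) := by
  rintro _ ⟨f, b, rfl⟩
  exact ⟨f, h.le b, cm_l a b⟩

theorem sm_ce (hn : 1 ≤ n) (a : e ∈ R) (b : e ∈ Ce R) : e ∈ Sm n R :=
  ⟨a, le_trans (Set.ncard_le_ncard (t := {1}) (by rintro _ ⟨f, d, rfl⟩; exact c1 b d))
    (by simpa using hn)⟩

theorem CP.sm (h : CP R A B) (a : e ∈ Sm n A) : e ∈ Sm n R := ⟨h.le a.1, h.br a.1 ▸ a.2⟩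

theorem CP.bl [Finite G] (hn : 1 ≤ n) (h : CP R A B) (b : Bl n R) : Bl n A := by
  refine ⟨fun e u f v => ce_mono h.le (b.c2 e (h.le u) f (h.le v)), fun e u v =>
    h.br u ▸ b.big e (h.le u) fun w => v (ce_mono h.le w), fun r hr => ?_, fun e u f v w => by
      rw [← h.br u.1, ← h.br v.1, b.sep e (h.sm u) f (h.sm v) w]⟩
  have l : closure (Sm n A) ≤ A := (closure_le A).2 fun _ h => h.1
  have : R ≤ closure (Sm n A) ⊔ Ce A := b.gen.trans ((closure_le _).2 fun e he => by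
    obtain ⟨m, u, c, -, v, rfl⟩ := h.dec e he.1
    exact mul_mem (mem_sup_left (subset_closure
      ⟨u, (Set.ncard_le_ncard (h.sub v)).trans he.2⟩)) (mem_sup_right v))
  obtain ⟨k, hk, c, hc, rfl⟩ := Tn.dec (M := closure (Sm n A)) (Q := Ce A)
    (le_normalizer_iff.2 fun x hx y hy => by rwa [← hx y (l hy), mul_inv_cancel_right])
    (this (h.le hr))
  exact mul_mem hk (subset_closure (sm_ce hn (by simpa using A.mul_mem (A.inv_mem (l hk)) hr) hc))

theorem SR.sub [Finite G] (hn : 1 ≤ n) {P : Subgroup G} (s : Se P) (h : SR n (⊤ : Subgroup G))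
    (N : Subgroup G) [N.Normal] : SR n N := by
  obtain ⟨Q, q⟩ := s.sy N
  have l : Rr N ≤ Rr ⊤ := rr_mono le_top
  have cp : CP (Rr ⊤) (Rr N) (Rr ⊤) := ⟨l, le_rfl, fun e he => by
    obtain ⟨m, a, c, b, d, rfl⟩ := ca (s.r3 ⊤) q.two he
    refine ⟨m, q.pq (commutator_mono (s.rr ⊤) le_rfl a), c, b, ce_mono (q.rq.trans
      (commutator_mono l le_rfl)) (op d fun f hf y hy => ?_), rfl⟩
    exact (h.2 y (mem_top y) (pel.of_mem q.two hy) _ (commutator_le_self _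
      (commutator_mem_commutator b hf)) (h.1.c2 c b f hf)).symm⟩
  exact ⟨cp.bl hn h.1, fun y _ b z c d => h.2 y (mem_top y) b z (l c) (cp.ce c d)⟩

theorem CP.c2 [A.Normal] (h : CP R A B) (b : Bl n A) (u : e ∈ R) (v : f ∈ R) : ⁅e, f⁆ ∈ Ce A := by
  obtain ⟨m, a, c, -, d, rfl⟩ := h.dec e u
  obtain ⟨m', a', c', -, d', rfl⟩ := h.dec f v
  rw [commutatorElement_mul_left_eq_conj_mul, cm_r d' a, commutatorElement_mul_right_eq_mul_conj,
    c1 d a', one_mul]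
  have k := Normal.conj_mem (H := Ce A) inferInstance
  exact mul_mem (k _ (k _ (commutator_le_self _ (commutator_mem_commutator d d')) _) _)
    (b.c2 m a m' a')

theorem CP.big [Finite G] (h : CP R A B) (b : Bl n A) (u : e ∈ R) (v : e ∉ Ce A) :
    n ≤ (Br R e).ncard := by
  obtain ⟨m, a, c, -, d, rfl⟩ := h.dec e u
  exact (b.big m a fun w => v (mul_mem w d)).trans (Set.ncard_le_ncard (h.sub d))

theorem CP.fin [Finite G] (h : CP R A B) (b : Bl n A) (u : e ∈ Sm n R) (v : f ∈ Sm n R) {g : G}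
    (a : g ∈ A) (w : Br A g ⊆ Br R f) (t : ⁅e, g⁆ ≠ 1) : Br R e = Br R f := by
  obtain ⟨m, a', c, -, d, rfl⟩ := h.dec e u.1
  rw [cm_l d a] at t
  have k := b.sep m ⟨a', (Set.ncard_le_ncard (h.sub d)).trans u.2⟩ g
    ⟨a, (Set.ncard_le_ncard w).trans v.2⟩ t
  have k2 := b.big g a fun z => t (c1' z a')
  rw [← Set.eq_of_subset_of_ncard_le w (v.2.trans k2), ← k,
    Set.eq_of_subset_of_ncard_le (h.sub d) (u.2.trans (k ▸ k2))]

theorem CP.two [Finite G] [A.Normal] [B.Normal] (h : CP R A B) (k : CP R B A) (a : Bl n A)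
    (b : Bl n B) : Bl n R := by
  have l : R ≤ A ⊔ B := fun e he => by
    obtain ⟨m, u, c, v, -, rfl⟩ := h.dec e he
    exact mul_mem (mem_sup_left u) (mem_sup_right v)
  refine ⟨fun e u f v => ce_mono l (ce_sup (h.c2 a u v) (k.c2 b u v)), fun e u v => ?_,
    l.trans (sup_le (a.gen.trans (closure_mono fun _ x => h.sm x))
      (b.gen.trans (closure_mono fun _ x => k.sm x))), fun e u f v w => ?_⟩
  · by_cases t : e ∈ Ce A
    · exact k.big b u fun z => v (ce_mono l (ce_sup t z))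
    · exact h.big a u t
  · obtain ⟨m, x, c, y, d, rfl⟩ := h.dec f v.1
    by_cases t : ⁅e, m⁆ = 1
    · refine k.fin b u v y ?_ fun z => w (by rw [commutatorElement_mul_right_eq_mul_conj, t, z]; simp)
      rintro _ ⟨g, hg, rfl⟩
      obtain ⟨m', x', c', y', d', rfl⟩ := h.dec g (h.le' hg)
      have r := commutator_le_self _ (commutator_mem_commutator d d')
      refine ⟨c', h.le' y', ?_⟩
      simp only
      rw [commutatorElement_mul_left_eq_conj_mul, commutatorElement_mul_right_eq_mul_conj, c1' d' x,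
        c1 d x', one_mul, mul_one, cj r x, cj r x']
    · exact h.fin a u v x (h.sub d) t

end Pool.Agent.H22.Tn
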