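import Pool.Agent.H22.Tn2

namespace Pool.Agent.H22.Tn

open Subgroup Function Pool.Agent.H22.Syl Pool.Agent.H22.Fit
open scoped commutatorElement

variable {G : Type} [Group G] {n : ℕ} {R A B : Subgroup G} {e f g : G}

theorem cm (a : e ∈ R) (b : f ∈ R) : ⁅e, f⁆ ∈ R :=
  commutator_le_self _ (commutator_mem_commutator a b)

theorem Bl.r (h : Bl n R) (a : e ∈ R) (b : f ∈ R) (c : g ∈ R) : ⁅e, f * g⁆ = ⁅e, f⁆ * ⁅e, g⁆ := by
  rw [commutatorElement_mul_right_eq_mul_conj, mul_assoc, mul_assoc, ← mul_assoc f,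
    cj (h.c2 e a g c) b]

theorem Bl.l (h : Bl n R) (a : e ∈ R) (b : f ∈ R) (c : g ∈ R) : ⁅e * f, g⁆ = ⁅e, g⁆ * ⁅f, g⁆ := by
  rw [commutatorElement_mul_left_eq_conj_mul, cj (h.c2 f b g c) a, h.c2 f b g c _ (cm a c)]

theorem Bl.ri (h : Bl n R) (a : e ∈ R) (b : f ∈ R) : ⁅e, f⁻¹⁆ = ⁅e, f⁆⁻¹ := by
  rw [eq_inv_iff_mul_eq_one, ← h.r a (R.inv_mem b) b]; simp

theorem Bl.li (h : Bl n R) (a : e ∈ R) (b : f ∈ R) : ⁅e⁻¹, f⁆ = ⁅e, f⁆⁻¹ := by
  rw [eq_inv_iff_mul_eq_one, ← h.l (R.inv_mem a) a b]; simp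

def Bl.w (h : Bl n R) (a : e ∈ R) : Subgroup G where
  carrier := Br R e
  one_mem' := ⟨1, R.one_mem, by simp⟩
  mul_mem' := by
    rintro _ _ ⟨f, b, rfl⟩ ⟨g, c, rfl⟩
    exact ⟨f * g, R.mul_mem b c, h.r a b c⟩
  inv_mem' := by
    rintro _ ⟨f, b, rfl⟩
    exact ⟨f⁻¹, R.inv_mem b, h.ri a b⟩

theorem br_cj [h : R.Normal] (b e : G) : Br R (b * e * b⁻¹) = MulAut.conj b '' Br R e := by
  ext x
  constructor
  · rintro ⟨f, a, rfl⟩
    refine ⟨_, ⟨b⁻¹ * f * b⁻¹⁻¹, h.conj_mem f a _, rfl⟩, ?_⟩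
    simp only [MulAut.conj_apply, commutatorElement_def]; group
  · rintro ⟨_, ⟨f, a, rfl⟩, rfl⟩
    exact ⟨_, h.conj_mem f a b, (conjugate_commutatorElement _ _ _).symm⟩

theorem sm_cj [h : R.Normal] (b : G) (a : e ∈ Sm n R) : b * e * b⁻¹ ∈ Sm n R :=
  ⟨h.conj_mem e a.1 b, by
    rw [br_cj, Set.ncard_image_of_injective _ (MulAut.conj b).injective]; exact a.2⟩

theorem Bl.ind (h : Bl n R) {p : G → Prop} (a : ∀ f ∈ Sm n R, p f) (o : p 1)
    (m : ∀ f ∈ R, ∀ g ∈ R, p f → p g → p (f * g)) (i : ∀ f ∈ R, p f → p f⁻¹) (b : f ∈ R) : p f := by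
  have l : closure (Sm n R) ≤ R := (closure_le R).2 fun _ h => h.1
  exact closure_induction (p := fun x _ => p x) a o (fun x y u v => m x (l u) y (l v))
    (fun x u => i x (l u)) (h.gen b)

theorem Bl.ne (h : Bl n R) (a : e ∈ Sm n R) (b : f ∈ Sm n R) (c : Br R e ≠ Br R f) : ⁅e, f⁆ = 1 := by
  by_contra d
  exact c (h.sep e a f b d)

theorem stepA [Finite G] [A.Normal] [B.Normal] (h : Bl n A) (k : Bl n B) (h3 : IsPGroup 3 A) {b : G}
    (u : b ∈ B) (v : pel 3 b) (a : e ∈ Sm n A) : Br A (b * e * b⁻¹) = Br A e := by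
  by_contra ne
  have inj := (MulAut.conj b).injective
  have a1 := sm_cj b a
  have a2 := sm_cj b a1
  have n12 : Br A (b * (b * e * b⁻¹) * b⁻¹) ≠ Br A (b * e * b⁻¹) := fun t => ne (by
    rw [br_cj b (b * e * b⁻¹)] at t
    nth_rw 2 [br_cj b e] at t
    exact Set.image_injective.2 inj t)
  have n02 : Br A (b * (b * e * b⁻¹) * b⁻¹) ≠ Br A e := fun t => ne (by
    rw [show b * (b * e * b⁻¹) * b⁻¹ = b ^ 2 ^ 1 * e * (b ^ 2 ^ 1)⁻¹ by simp [pow_two, mul_assoc],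
      br_cj] at t
    rw [br_cj]
    exact mem_normalizer_iff_conj_image_eq.1 (sq3 v (mem_normalizer_iff_conj_image_eq.2 t)))
  refine ne (Set.eq_of_subset_of_ncard_le ?_ (by
    rw [br_cj, Set.ncard_image_of_injective _ inj]))
  rw [br_cj]
  rintro _ ⟨_, ⟨f, hf, rfl⟩, rfl⟩
  refine h.ind (p := fun f => MulAut.conj b ⁅e, f⁆ ∈ h.w a.1) (fun f hf => ?_) (by simp)
    (fun f x g y s t => by rw [h.r a.1 x y, map_mul]; exact mul_mem s t)
    (fun f x s => by rw [h.ri a.1 x, map_inv]; exact inv_mem s) hf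
  by_cases t : ⁅e, f⁆ = 1
  · simp [t]
  have s := h.sep e a f hf t
  have f1 := sm_cj b hf
  have s1 : Br A (b * e * b⁻¹) = Br A (b * f * b⁻¹) := by rw [br_cj, br_cj, s]
  have cB : ∀ x, ⁅b, x⁆ ∈ B := fun x => commutator_le_left B ⊤ (commutator_mem_commutator u (mem_top x))
  have z := c1 (k.c2 b u _ (cB e)) (cB f)
  rw [show ⁅b, ⁅b, e⁆⁆ = b * (b * e * b⁻¹) * b⁻¹ * (b * e * b⁻¹)⁻¹ * e * (b * e * b⁻¹)⁻¹ by
    simp only [commutatorElement_def]; group, commutatorElement_def b f] at z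
  have p := h.ne a2 f1 (s1 ▸ n12)
  have q := h.ne a2 hf (s ▸ n02)
  have r := h.ne a1 hf (s ▸ ne)
  have w := h.ne a f1 (s1 ▸ Ne.symm ne)
  rw [MulAut.conj_apply, conjugate_commutatorElement]
  have m := pel.of_mem h3 (cm a1.1 f1.1)
  have cc := h.c2 _ a1.1 _ f1.1 _ (cm a.1 hf.1)
  have g1 := A.mul_mem f1.1 (A.inv_mem hf.1)
  have i1 := A.inv_mem a1.1
  rw [h.l (A.mul_mem (A.mul_mem a2.1 i1) a.1) i1 g1, h.l (A.mul_mem a2.1 i1) a.1 g1,
    h.l a2.1 i1 g1, h.li a1.1 g1, h.r a2.1 f1.1 (A.inv_mem hf.1), h.r a1.1 f1.1 (A.inv_mem hf.1),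
    h.r a.1 f1.1 (A.inv_mem hf.1), h.ri a2.1 hf.1, h.ri a1.1 hf.1, h.ri a.1 hf.1, p, q, r, w] at z
  refine sq3 m (j := 1) ?_
  generalize ⁅b * e * b⁻¹, b * f * b⁻¹⁆ = x at *
  have : x ^ 2 ^ 1 = ⁅e, f⁆⁻¹ := by
    generalize ⁅e, f⁆ = y at *
    rw [eq_inv_iff_mul_eq_one, ← inv_eq_one, ← z, pow_one, pow_two, mul_assoc, ← cc]
    group
  exact this ▸ inv_mem (show ⁅e, f⁆ ∈ h.w a.1 from ⟨f, hf.1, rfl⟩)

theorem stepB [Finite G] [A.Normal] [B.Normal] (h : Bl n A) (k : Bl n B) (h3 : IsPGroup 3 A)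
    (k3 : IsPGroup 3 B) {y : G} (u : pel 2 y) (v : ∀ x ∈ A, ⁅x, y⁆ ∈ B)
    (t : ∀ z ∈ B, z ∈ Ce B → z * y = y * z) (a : e ∈ Sm n A) (b : f ∈ Sm n A) :
    y * ⁅e, f⁆ = ⁅e, f⁆ * y := by
  by_contra ne
  have w := cm a.1 b.1
  have s := h.sep e a f b fun z => ne (by simp [z])
  have n0 : ⁅⁅e, f⁆, y⁆ ∉ Ce B := fun z => ne (Fit.cop Nat.prime_three Nat.prime_two (by norm_num) u
    (pel.of_mem k3 (v _ w)) (t _ (v _ w) z).symm)
  have wm : ⁅e, f⁆ ∈ h.w a.1 := ⟨f, b.1, rfl⟩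
  obtain ⟨w', hw, z, hz, d⟩ : ∃ w' ∈ h.w a.1, ∃ z ∈ Ce B, ⁅⁅e, f⁆, y⁆ = w' * z := by
    by_cases c : Br A (y * e * y⁻¹) = Br A e
    · refine ⟨_, ?_, 1, one_mem _, (mul_one _).symm⟩
      rw [show ⁅⁅e, f⁆, y⁆ = ⁅e, f⁆ * (y * ⁅e, f⁆ * y⁻¹)⁻¹ by simp only [commutatorElement_def]; group]
      refine mul_mem wm (inv_mem (c.le ?_))
      rw [br_cj]
      exact ⟨_, wm, rfl⟩
    have a1 := sm_cj y a
    have b1 := sm_cj y b
    have s1 : Br A (y * e * y⁻¹) = Br A (y * f * y⁻¹) := by rw [br_cj, br_cj, s]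
    have z := k.c2 _ (v e a.1) _ (v f b.1)
    have i : ∀ x, ⁅x, y⁆ = x * (y * x * y⁻¹)⁻¹ := fun x => by simp only [commutatorElement_def]; group
    have g1 := A.mul_mem b.1 (A.inv_mem b1.1)
    rw [i e, i f, h.l a.1 (A.inv_mem a1.1) g1, h.li a1.1 g1, h.r a.1 b.1 (A.inv_mem b1.1),
      h.r a1.1 b.1 (A.inv_mem b1.1), h.ri a.1 b1.1, h.ri a1.1 b1.1, h.ne a1 b (s ▸ c),
      h.ne a b1 (s1 ▸ Ne.symm c), ← conjugate_commutatorElement] at z
    refine ⟨_, mul_mem wm wm, _, inv_mem z, ?_⟩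
    have cc := h.c2 e a.1 f b.1 _ (Normal.conj_mem inferInstance _ w y)
    rw [i]
    generalize y * ⁅e, f⁆ * y⁻¹ = x at *
    generalize ⁅e, f⁆ = x' at *
    rw [inv_one, mul_one, one_mul, inv_inv, ← cc]
    group
  have l : Br B ⁅⁅e, f⁆, y⁆ ⊆ Br A e \ {⁅e, f⁆} := by
    rintro _ ⟨g, hg, rfl⟩
    refine ⟨?_, fun c => ne ?_⟩
    · simp only
      rw [d, cm_l hz hg, show ⁅w', g⁆ = w' * (g * w' * g⁻¹)⁻¹ by
        simp only [commutatorElement_def]; group]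
      refine (h.w a.1).mul_mem hw ((h.w a.1).inv_mem ((stepA h k h3 hg (pel.of_mem k3 hg) a).le ?_))
      rw [br_cj]
      exact ⟨_, hw, rfl⟩
    · rw [← show ⁅⁅⁅e, f⁆, y⁆, g⁆ = ⁅e, f⁆ from c]
      exact (t _ (cm (v _ w) hg) (k.c2 _ (v _ w) g hg)).symm
  exact absurd ((k.big _ (v _ w) n0).trans (Set.ncard_le_ncard l))
    (not_le.2 ((Set.ncard_sdiff_singleton_lt_of_mem wm).trans_le a.2))

theorem stepC [Finite G] {P N M Q T : Subgroup G} [N.Normal] [M.Normal] (s : Se P) (h : SR n N)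
    (k : SR n M) (q : Sy P N Q) (t : Sy P M T) : T ≤ Ce (Rr N ⊓ Ce (Rr N)) := fun y hy z hz => by
  have d := zc (s.r3 N) q.two q.rq hz.1 hz.2 fun x hx =>
    (h.2 x (q.le hx) (pel.of_mem q.two hx) z hz.1 hz.2).symm
  refine mem_centralizer_singleton_iff.1 ((commutator_le.2 fun e a f b => ?_ :
    _ ≤ centralizer {y}) d)
  refine h.1.ind (p := fun e => ⁅e, f⁆ ∈ centralizer {y}) (fun e a => ?_) (by simp)
    (fun x u g v i j => h.1.l u v b ▸ mul_mem i j) (fun x u i => h.1.li u b ▸ inv_mem i) a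
  refine h.1.ind (p := fun f => ⁅e, f⁆ ∈ centralizer {y}) (fun f b => ?_) (by simp)
    (fun x u g v i j => h.1.r a.1 u v ▸ mul_mem i j) (fun x u i => h.1.ri a.1 u ▸ inv_mem i) b
  exact mem_centralizer_singleton_iff.2 (stepB h.1 k.1 (s.r3 N) (s.r3 M) (pel.of_mem t.two hy)
    (fun x u => t.pq (commutator_mem_commutator (s.rr N u) hy))
    (k.2 y (t.le hy) (pel.of_mem t.two hy)) a b).symm

theorem stepD [Finite G] {P N M Q T : Subgroup G} [N.Normal] [M.Normal] (s : Se P) (h : SR n N)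
    (k : SR n M) (q : Sy P N Q) (t : Sy P M T) {c : G} (a : c ∈ Rr N) (b : c ∈ Ce T) :
    c ∈ Ce (Rr N ⊓ Rr M) := fun d hd => by
  obtain ⟨m, u, z, v, w, rfl⟩ := ca ((s.r3 N).to_le inf_le_left) t.two hd
  have e1 := op b (R := Rr N) (fun f hf y hy => (stepC s h k q t hy _
    ⟨cm a hf, h.1.c2 c a f hf⟩).symm) m (commutator_mono inf_le_left le_rfl u)
  have e2 := ce_mono t.rq (op w (R := Rr M) fun f hf y hy => (k.2 y (t.le hy) (pel.of_mem t.two hy) _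
    (cm v.2 hf) (k.1.c2 z v.2 f hf)).symm)
  have e3 := commutator_le_right ⊤ _ (commutator_mono le_top (stepC s k h t q) (q.rq a)) z ⟨v.2, e2⟩
  rw [mul_assoc, e3, ← mul_assoc, e1, mul_assoc]

theorem stepE [Finite G] {P N M Q T : Subgroup G} [N.Normal] [M.Normal] (s : Se P) (h : SR n N)
    (k : SR n M) (q : Sy P N Q) (t : Sy P M T) {c : G} (a : c ∈ Rr M) (b : c ∈ Ce Q) :
    c ∈ Ce (Rr N) := by
  have cD : c ∈ Ce (Rr M ⊓ Rr N) := stepD s k h t q a b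
  have cZ := commutator_le_right ⊤ _ (commutator_mono le_top (stepC s h k q t) (t.rq a))
  refine ce_mono q.rq (op b fun f hf y hy => ?_)
  have d : ⁅c, f⁆ ∈ Rr N ⊓ Rr M := commutator_le_inf _ _ (commutator_comm_le _ _
    (commutator_mem_commutator a hf))
  refine (h.2 y (q.le hy) (pel.of_mem q.two hy) _ d.1 fun g hg => ?_).symm
  obtain ⟨m, u, z, v, w, rfl⟩ := ca (s.r3 N) t.two hg
  have mD : m ∈ Rr M ⊓ Rr N := ⟨t.pq (commutator_mono (s.rr N) le_rfl u), commutator_le_left _ _ u⟩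
  have e1 := stepD s h k q t v w _ d
  have e2 : ⁅⁅c, f⁆, m⁆ = 1 := by
    have x2 : c * ⁅f, m⁆ * c⁻¹ = ⁅f, m⁆ := by
      rw [← cZ _ ⟨cm hf mD.2, h.1.c2 f hf m mD.2⟩, mul_inv_cancel_right]
    rw [conjugate_commutatorElement, show c * m * c⁻¹ = m by rw [← cD m mD, mul_inv_cancel_right],
      show c * f * c⁻¹ = ⁅c, f⁆ * f by simp [commutatorElement_def], h.1.l d.1 hf mD.2] at x2
    simpa using x2
  rw [mul_assoc, ← e1, ← mul_assoc, ← commutatorElement_eq_one_iff_mul_comm.1 e2, mul_assoc]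

theorem SR.sup [Finite G] {P N M : Subgroup G} [N.Normal] [M.Normal] (s : Se P) (h : SR n N)
    (k : SR n M) (e : N ⊔ M = ⊤) : SR n (⊤ : Subgroup G) := by
  have := s.n
  obtain ⟨Q, q⟩ := s.sy N
  obtain ⟨T, t⟩ := s.sy M
  have all : ∀ C : Subgroup G, C.Normal → Q ≤ C → T ≤ C → ∀ y, pel 2 y → y ∈ C :=
    fun C _ a b y hy => s.all (e.ge.trans (sup_le (q.cov.trans (sup_le_sup_left a P))
      (t.cov.trans (sup_le_sup_left b P)))) (mem_top y) hy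
  have sj := QuotientGroup.mk'_surjective (Rr N ⊔ Rr M)
  have := s.n.map _ sj
  have l : Rr ⊤ ≤ Rr N ⊔ Rr M := rr_le fun x _ y _ a b => by
    have key : ∀ U : Subgroup G, ⁅P, U⁆ ≤ Rr N ⊔ Rr M →
        U ≤ (Ce (P.map (QuotientGroup.mk' (Rr N ⊔ Rr M)))).comap (QuotientGroup.mk' _) := by
      rintro U hU u hu _ ⟨p, hp, rfl⟩
      rw [← commutatorElement_eq_one_iff_mul_comm, ← map_commutatorElement]
      exact (QuotientGroup.eq_one_iff _).2 (hU (commutator_mem_commutator hp hu))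
    have := all _ inferInstance (key Q (q.pq.trans le_sup_left)) (key T (t.pq.trans le_sup_right))
      y b _ ⟨x, s.mem a, rfl⟩
    rw [← commutatorElement_eq_one_iff_mul_comm, ← map_commutatorElement] at this
    exact (QuotientGroup.eq_one_iff _).1 this
  have key : ∀ {N M Q T : Subgroup G} [N.Normal] [M.Normal], SR n N → SR n M → Sy P N Q → Sy P M T →
      Rr ⊤ ≤ Rr N ⊔ Rr M → CP (Rr ⊤) (Rr N) (Rr M) ∧ Q ≤ Ce (Rr ⊤ ⊓ Ce (Rr ⊤)) := by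
    intro N M Q T _ _ h k q t l
    have d : ∀ e ∈ Rr (⊤ : Subgroup G), ∃ m ∈ Rr N, ∃ c ∈ Rr M, c ∈ Ce Q ∧ e = m * c := fun e he => by
      obtain ⟨x, hx, r, hr, rfl⟩ := mem_sup_of_normal_left.1 (l he)
      obtain ⟨m, a, c, b, u, rfl⟩ := ca (s.r3 M) q.two hr
      exact ⟨_, mul_mem hx (q.pq (commutator_mono (s.rr M) le_rfl a)), c, b, u, (mul_assoc _ _ _).symm⟩
    refine ⟨⟨rr_mono le_top, rr_mono le_top, fun e he => ?_⟩, fun y hy z hz => ?_⟩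
    · obtain ⟨m, a, c, b, u, rfl⟩ := d e he
      exact ⟨m, a, c, b, stepE s h k q t b u, rfl⟩
    · obtain ⟨m, a, c, b, u, rfl⟩ := d z hz.1
      have := h.2 y (q.le hy) (pel.of_mem q.two hy) m a (by
        simpa using mul_mem (ce_mono (rr_mono le_top) hz.2) (inv_mem (stepE s h k q t b u)))
      rw [mul_assoc, ← u y hy, ← mul_assoc, this, mul_assoc]
  obtain ⟨a1, a2⟩ := key h k q t l
  obtain ⟨b1, b2⟩ := key k h t q (sup_comm (Rr N) _ ▸ l)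
  exact ⟨a1.two b1 h.1 k.1, fun y _ hy z u v => all _ inferInstance a2 b2 y hy z ⟨u, v⟩⟩

def St (n : ℕ) : Cls := fun G _ => Finite G ∧ PQ 3 2 G ∧ SR n (⊤ : Subgroup G)

theorem sr_sub {N : Subgroup G} : SR n (⊤ : Subgroup N) ↔ SR n N := by
  rw [← sr_map N.subtype N.subtype_injective, ← MonoidHom.range_eq_map, range_subtype]

theorem pq_sup {N K : Subgroup G} [N.Normal] [K.Normal] (c : PQ 3 2 N) (d : PQ 3 2 K) :
    PQ 3 2 ↥(N ⊔ K) := by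
  have i := (subgroupOfEquivOfLe (le_sup_left : N ≤ N ⊔ K)).symm
  have j := (subgroupOfEquivOfLe (le_sup_right : K ≤ N ⊔ K)).symm
  exact PQ.sup Nat.prime_three Nat.prime_two (by norm_num) inferInstance inferInstance
    (c.surj i.toMonoidHom i.surjective) (d.surj j.toMonoidHom j.surjective)
    (by rw [← subgroupOf_sup le_sup_left le_sup_right, subgroupOf_self])

theorem St.iso {H : Type} [Group H] (e : G ≃* H) (h : St n G) : St n H := by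
  have := h.1
  refine ⟨Finite.of_equiv _ e.toEquiv, h.2.1.surj e.toMonoidHom e.surjective, ?_⟩
  rw [← map_top_of_surjective e.toMonoidHom e.surjective, sr_map _ e.injective]
  exact h.2.2

theorem St.sub (hn : 1 ≤ n) (h : St n G) (N : Subgroup G) [N.Normal] : St n N := by
  obtain ⟨_, ⟨P, a, b, c⟩, d⟩ := h
  exact ⟨inferInstance, PQ.inj ⟨P, a, b, c⟩ _ N.subtype_injective, sr_sub.2 (d.sub hn ⟨a, b, c⟩ N)⟩

theorem St.sup {N K : Subgroup G} [N.Normal] [K.Normal] [Finite ↥(N ⊔ K)] (c : St n N) (d : St n K) :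
    St n ↥(N ⊔ K) := by
  obtain ⟨P, a, b, u⟩ := pq_sup c.2.1 d.2.1
  refine ⟨inferInstance, ⟨P, a, b, u⟩, SR.sup (N := N.subgroupOf _) (M := K.subgroupOf _) ⟨a, b, u⟩
    ?_ ?_ (by rw [← subgroupOf_sup le_sup_left le_sup_right, subgroupOf_self])⟩ <;>
    rw [← sr_map _ (subtype_injective _), subgroupOf_map_subtype]
  · rw [inf_of_le_left le_sup_left]; exact sr_sub.1 c.2.2
  · rw [inf_of_le_left le_sup_right]; exact sr_sub.1 d.2.2

end Pool.Agent.H22.Tn
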