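import Pool.Agent.H22.Tn3

namespace Pool.Agent.H22.Tn

open Subgroup Function Pool.Agent.H22.Syl Pool.Agent.H22.Fit
open scoped commutatorElement

variable {F A : Type} [Field F] [AddCommGroup A]

/-- Triangular matrices with diagonal (s, 1, t), the corner entry being read through l. -/
@[ext] structure Gm (l : F →+ A) where
  s : ℤˣ
  a : F
  c : A
  b : F
  t : ℤˣ

variable {l : F →+ A}

instance : Mul (Gm l) := ⟨fun x y => ⟨x.s * y.s, x.s • y.a + x.a,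
  x.s • y.c + l (x.a * y.b) + y.t • x.c, y.b + y.t • x.b, x.t * y.t⟩⟩
instance : One (Gm l) := ⟨⟨1, 0, 0, 0, 1⟩⟩
instance : Inv (Gm l) := ⟨fun x => ⟨x.s, -(x.s • x.a), x.s • x.t • (l (x.a * x.b) - x.c),
  -(x.t • x.b), x.t⟩⟩

theorem Gm.mul (x y : Gm l) : x * y = ⟨x.s * y.s, x.s • y.a + x.a,
  x.s • y.c + l (x.a * y.b) + y.t • x.c, y.b + y.t • x.b, x.t * y.t⟩ := rfl
theorem Gm.inv (x : Gm l) : x⁻¹ = ⟨x.s, -(x.s • x.a), x.s • x.t • (l (x.a * x.b) - x.c),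
  -(x.t • x.b), x.t⟩ := rfl
theorem Gm.one : (1 : Gm l) = ⟨1, 0, 0, 0, 1⟩ := rfl

instance : Group (Gm l) := Group.ofLeftAxioms
  (fun x y z => Gm.ext (mul_assoc _ _ _)
    (by simp only [Gm.mul, Units.smul_def, Units.val_mul]; module)
    (by simp only [Gm.mul, Units.smul_def, Units.val_mul, add_mul, mul_add, smul_mul_assoc,
      mul_smul_comm, map_add, map_zsmul]; module)
    (by simp only [Gm.mul, Units.smul_def, Units.val_mul]; module) (mul_assoc _ _ _))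
  (fun x => by ext <;> simp [Gm.mul, Gm.one])
  (fun ⟨s, a, c, b, t⟩ => by
    rcases Int.units_eq_one_or s with rfl | rfl <;> rcases Int.units_eq_one_or t with rfl | rfl <;>
      ext <;> simp [Gm.mul, Gm.one, Gm.inv, sub_eq_add_neg])

instance [Finite F] [Finite A] : Finite (Gm l) :=
  Finite.of_injective (fun x : Gm l => (x.s, x.a, x.c, x.b, x.t)) fun x y h => by
    simp only [Prod.mk.injEq] at h
    exact Gm.ext h.1 h.2.1 h.2.2.1 h.2.2.2.1 h.2.2.2.2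

def Gm.st (l : F →+ A) : Gm l →* ℤˣ × ℤˣ := MonoidHom.mk' (fun x => (x.s, x.t)) fun _ _ => rfl

def Hs (l : F →+ A) : Subgroup (Gm l) := (Gm.st l).ker

instance : (Hs l).Normal := (Gm.st l).normal_ker

def Ts (l : F →+ A) : Subgroup (Gm l) :=
  ((MonoidHom.fst _ _).comp (Gm.st l)).eqLocus ((MonoidHom.snd _ _).comp (Gm.st l))

theorem mem_hs {x : Gm l} : x ∈ Hs l ↔ ∃ a c b, x = ⟨1, a, c, b, 1⟩ :=
  ⟨fun h => ⟨x.a, x.c, x.b, Gm.ext (congrArg Prod.fst h) rfl rfl rfl (congrArg Prod.snd h)⟩,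
    by rintro ⟨a, c, b, rfl⟩; rfl⟩

theorem hs_mem (a : F) (c : A) (b : F) : (⟨1, a, c, b, 1⟩ : Gm l) ∈ Hs l := rfl

theorem cm_hs (x y : Gm l) : ⁅x, y⁆ ∈ Hs l := by
  rw [Hs, MonoidHom.mem_ker, map_commutatorElement]
  exact commutatorElement_eq_one_iff_mul_comm.2 (mul_comm _ _)

theorem hs_le : Hs l ≤ Ts l := fun _ h => (congrArg Prod.fst h).trans (congrArg Prod.snd h).symm

instance : (Ts l).Normal := normal_of_comm fun x y => hs_le (cm_hs x y)

theorem cmf (a a' b b' : F) (c c' : A) : ⁅(⟨1, a, c, b, 1⟩ : Gm l), (⟨1, a', c', b', 1⟩ : Gm l)⁆ =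
    ⟨1, 0, l (a * b' - a' * b), 0, 1⟩ := by
  ext <;> simp [commutatorElement_def, Gm.mul, Gm.inv, add_mul, mul_add, mul_comm]
  abel

def zz (l : F →+ A) (c : A) : Gm l := ⟨1, 0, c, 0, 1⟩

theorem zz_ce (c : A) : zz l c ∈ Ce (Hs l) := fun x hx => by
  obtain ⟨a, c, b, rfl⟩ := mem_hs.1 hx
  ext <;> simp [zz, Gm.mul, add_comm]

theorem zz_card : (Set.range (zz l)).ncard = Nat.card A :=
  Set.ncard_range_of_injective fun _ _ h => congrArg Gm.c h

theorem br_le {e : Gm l} (h : e ∈ Hs l) : Br (Hs l) e ⊆ Set.range (zz l) := by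
  obtain ⟨a, c, b, rfl⟩ := mem_hs.1 h
  rintro _ ⟨f, hf, rfl⟩
  obtain ⟨a', c', b', rfl⟩ := mem_hs.1 hf
  exact ⟨_, (cmf _ _ _ _ _ _).symm⟩

theorem br_or (hl : Surjective l) {e : Gm l} (h : e ∈ Hs l) :
    e ∈ Set.range (zz l) ∨ Br (Hs l) e = Set.range (zz l) := by
  refine or_iff_not_imp_left.2 fun n => (br_le h).antisymm ?_
  obtain ⟨a, c, b, rfl⟩ := mem_hs.1 h
  rintro _ ⟨u, rfl⟩
  obtain ⟨u, rfl⟩ := hl u
  by_cases ha : a = 0
  · have hb : b ≠ 0 := fun hb => n ⟨c, by rw [ha, hb]; rfl⟩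
    exact ⟨_, hs_mem (-u / b) 0 0, (cmf _ _ _ _ _ _).trans (by simp [zz, hb])⟩
  · exact ⟨_, hs_mem 0 0 (u / a), (cmf _ _ _ _ _ _).trans (by simp [zz, mul_div_cancel₀ _ ha])⟩

theorem br_eq (hl : Surjective l) {e : Gm l} (h : e ∈ Hs l) (n : e ∉ Ce (Hs l)) :
    Br (Hs l) e = Set.range (zz l) :=
  (br_or hl h).resolve_left fun ⟨c, u⟩ => n (u ▸ zz_ce c)

theorem nce [Nontrivial A] (hl : Surjective l) : (⟨1, 1, 0, 0, 1⟩ : Gm l) ∉ Ce (Hs l) := fun h => by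
  obtain ⟨u, hu⟩ := exists_ne (0 : A)
  obtain ⟨u, rfl⟩ := hl u
  have := c1 h (hs_mem 0 0 u)
  rw [cmf] at this
  exact hu (by simpa [Gm.one] using congrArg Gm.c this)

variable [CharP F 3]

theorem pel_hs (hl : Surjective l) {x : Gm l} (h : x ∈ Hs l) : pel 3 x := by
  obtain ⟨a, c, b, rfl⟩ := mem_hs.1 h
  obtain ⟨c, rfl⟩ := hl c
  have t : (3 : F) = 0 := CharP.cast_eq_zero F 3
  refine ⟨1, ?_⟩
  rw [pow_one, pow_three']
  ext <;> simp only [Gm.mul, Gm.one, one_smul, mul_one, ← map_add]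
  · linear_combination a * t
  · rw [← map_zero l]; congr 1; linear_combination (c + a * b) * t
  · linear_combination b * t

theorem se_hs (hl : Surjective l) : Se (Hs l) :=
  ⟨inferInstance, pgrp fun _ => pel_hs hl, fun g => ⟨1, by
    rw [Hs, MonoidHom.mem_ker, map_pow]
    exact Prod.ext (Int.units_sq _) (Int.units_sq _)⟩⟩

theorem rr_ts (hl : Surjective l) : Rr (Ts l) = Hs l := by
  refine ((se_hs hl).rr _).antisymm fun x hx => ?_
  obtain ⟨a, c, b, rfl⟩ := mem_hs.1 hx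
  have t : (3 : F) = 0 := CharP.cast_eq_zero F 3
  have k : ∀ a b : F, ⁅(⟨1, -a, 0, -b, 1⟩ : Gm l), (⟨-1, 0, 0, 0, -1⟩ : Gm l)⁆ ∈ Rr (Ts l) :=
    fun a b => rr_mem (hs_le (hs_mem _ _ _)) rfl (pel_hs hl (hs_mem _ _ _)) ⟨1, by
      rw [pow_one, pow_two]; ext <;> simp [Gm.mul, Gm.one]⟩
  have k1 : ∀ a : F, (⟨1, a, 0, 0, 1⟩ : Gm l) ∈ Rr (Ts l) := fun a => by
    convert k a 0 using 1
    ext <;> simp [commutatorElement_def, Gm.mul, Gm.inv]
    linear_combination a * t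
  have k2 : ∀ a : F, (⟨1, 0, 0, a, 1⟩ : Gm l) ∈ Rr (Ts l) := fun a => by
    convert k 0 a using 1
    ext <;> simp [commutatorElement_def, Gm.mul, Gm.inv]
    linear_combination a * t
  obtain ⟨u, rfl⟩ := hl c
  convert mul_mem (cm (k1 u) (k2 1)) (mul_mem (k2 b) (k1 a)) using 1
  ext <;> simp [cmf, Gm.mul]

variable [Finite F] [Finite A] [Nontrivial A]

theorem st_ts (hl : Surjective l) : St (Nat.card A) (Ts l) := by
  have s := se_hs hl
  refine ⟨inferInstance, PQ.inj ⟨_, s.n, s.p, s.q⟩ _ (subtype_injective _), sr_sub.2 ?_⟩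
  rw [SR, rr_ts hl]
  refine ⟨⟨fun e a f b => ?_, fun e a b => by rw [br_eq hl a b, zz_card], fun e a => subset_closure
    ⟨a, zz_card (l := l) ▸ Set.ncard_le_ncard (br_le a)⟩, fun e a f b c => by
      rw [br_eq hl a.1 fun u => c (c1 u b.1), br_eq hl b.1 fun u => c (c1' u a.1)]⟩,
    fun y a _ z b c => ?_⟩
  · obtain ⟨c, u⟩ := br_le a ⟨f, b, rfl⟩
    exact (show zz l c = ⁅e, f⁆ from u) ▸ zz_ce c
  · obtain ⟨u, rfl⟩ := (br_or hl b).resolve_right fun u => by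
      have := (sm_ce le_rfl b c).2
      rw [u, zz_card] at this
      exact absurd Finite.one_lt_card (not_lt.2 this)
    have : y.s = y.t := a
    ext <;> simp [zz, Gm.mul, this, add_comm]

theorem st_eq (hl : Surjective l) {m : ℕ} (h : St m (Ts l)) : m = Nat.card A := by
  have k := (sr_sub.1 h.2.2).1
  rw [rr_ts hl] at k
  have := k.big _ (hs_mem _ _ _) (nce hl)
  rw [br_eq hl (hs_mem _ _ _) (nce hl), zz_card] at this
  refine this.antisymm (not_lt.1 fun u => nce hl ((k.gen.trans ((closure_le _).2 fun e he => ?_) :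
    _ ≤ Ce (Hs l)) (hs_mem _ _ _)))
  by_contra v
  exact absurd he.2 (by rwa [br_eq hl he.1 v, zz_card, not_le])

end Pool.Agent.H22.Tn
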