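import Pool.Agent.H22.Tn4

namespace Pool.Agent.H22.Tn

open Subgroup Function Pool.Agent.H22.Syl Pool.Agent.H22.Fit
open scoped commutatorElement

@[ext] structure Dh (V : Type) where
  s : ℤˣ
  v : V

variable {V : Type} [AddCommGroup V]

instance : Mul (Dh V) := ⟨fun x y => ⟨x.s * y.s, x.s • y.v + x.v⟩⟩
instance : One (Dh V) := ⟨⟨1, 0⟩⟩
instance : Inv (Dh V) := ⟨fun x => ⟨x.s, -(x.s • x.v)⟩⟩

theorem Dh.mul (x y : Dh V) : x * y = ⟨x.s * y.s, x.s • y.v + x.v⟩ := rfl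
theorem Dh.inv (x : Dh V) : x⁻¹ = ⟨x.s, -(x.s • x.v)⟩ := rfl
theorem Dh.one : (1 : Dh V) = ⟨1, 0⟩ := rfl

instance : Group (Dh V) := Group.ofLeftAxioms
  (fun x y z => Dh.ext (mul_assoc _ _ _)
    (by simp only [Dh.mul, Units.smul_def, Units.val_mul]; module))
  (fun x => by ext <;> simp [Dh.mul, Dh.one])
  (fun x => by ext <;> simp [Dh.mul, Dh.one, Dh.inv])

instance [Finite V] : Finite (Dh V) :=
  Finite.of_injective (fun x : Dh V => (x.s, x.v)) fun _ _ h =>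
    Dh.ext (congrArg Prod.fst h) (congrArg Prod.snd h)

def Dh.sg : Dh V →* ℤˣ := MonoidHom.mk' Dh.s fun _ _ => rfl

theorem dh_pq : PQ 3 2 (Dh (ZMod 3)) :=
  ⟨Dh.sg.ker, inferInstance, pgrp fun ⟨s, v⟩ h => ⟨1, by
    obtain rfl : s = 1 := h
    rw [pow_one, pow_three']
    ext <;> simp only [Dh.mul, Dh.one, mul_one, one_smul]
    revert v; decide⟩, fun g => ⟨1, by rw [MonoidHom.mem_ker, map_pow]; exact Int.units_sq _⟩⟩

variable {C : Cls}

theorem dh_mem (hC : IsFit C) (h : C (Dh (ZMod 3))) [Module (ZMod 3) V] [Finite V] [Nontrivial V] :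
    C (Dh V) := by
  have e := (Module.finBasis (ZMod 3) V).equivFun
  have := e.symm.toEquiv.nontrivial
  obtain ⟨i⟩ : Nonempty (Fin (Module.finrank (ZMod 3) V)) := ⟨⟨0, Module.finrank_pos⟩⟩
  let φ : Dh V →* (Fin (Module.finrank (ZMod 3) V) → Dh (ZMod 3)) :=
    MonoidHom.mk' (fun x i => ⟨x.s, e x.v i⟩) fun x y => funext fun i =>
      Dh.ext rfl (by simp [Dh.mul, Units.smul_def])
  refine hC.of_range φ (fun x y h => Dh.ext (congrArg (fun u => (u i).s) h)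
    (e.injective (funext fun j => congrArg (fun u => (u j).v) h)))
    (normal_of_comm fun a b => ⟨⟨1, e.symm fun j => (⁅a, b⁆ j).v⟩, funext fun j => Dh.ext ?_
      (congrFun (e.apply_symm_apply _) j)⟩)
    (hC.pi _ h)
  exact ((map_commutatorElement (Dh.sg.comp (Pi.evalMonoidHom _ j)) a b).trans
    (commutatorElement_eq_one_iff_mul_comm.2 (mul_comm _ _))).symm

variable {F : Type} [Field F]

theorem gm_mem (hC : IsFit C) (h : C (Dh (F × F))) [Finite F] : C (Gm (AddMonoidHom.id F)) := by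
  let i : Dh (F × F) →* Gm (AddMonoidHom.id F) := MonoidHom.mk' (fun x => ⟨x.s, x.v.1, x.v.2, 0, 1⟩)
    fun x y => by ext <;> simp [Dh.mul, Gm.mul]
  let j : Dh (F × F) →* Gm (AddMonoidHom.id F) :=
    MonoidHom.mk' (fun x => ⟨1, 0, x.s • x.v.1, x.s • x.v.2, x.s⟩) fun ⟨s, a, b⟩ ⟨t, c, d⟩ => by
      rcases Int.units_eq_one_or s with rfl | rfl <;> rcases Int.units_eq_one_or t with rfl | rfl <;>
        ext <;> simp [Dh.mul, Gm.mul, add_comm]
  have mi : ∀ x, x ∈ i.range ↔ x.b = 0 ∧ x.t = 1 := fun x =>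
    ⟨by rintro ⟨y, rfl⟩; exact ⟨rfl, rfl⟩, fun h => ⟨⟨x.s, x.a, x.c⟩, Gm.ext rfl rfl rfl h.1.symm h.2.symm⟩⟩
  have mj : ∀ x, x ∈ j.range ↔ x.a = 0 ∧ x.s = 1 := fun x =>
    ⟨by rintro ⟨y, rfl⟩; exact ⟨rfl, rfl⟩, fun h => ⟨⟨x.t, x.t • x.c, x.t • x.b⟩,
      Gm.ext h.2.symm h.1.symm (by simp [j, smul_smul]) (by simp [j, smul_smul]) rfl⟩⟩
  refine hC.of_top (eq_top_iff.2 fun x _ => ?_) (hC.n0 _ i.range j.range
    ⟨fun x hx g => (mi _).2 ?_⟩ ⟨fun x hx g => (mj _).2 ?_⟩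
    (hC.range i (fun x y h => Dh.ext (congrArg Gm.s h) (Prod.ext (congrArg Gm.a h) (congrArg Gm.c h))) h)
    (hC.range j ((injective_iff_map_eq_one j).2 fun x h => ?_) h))
  · rw [show x = ⟨x.s, x.a, 0, 0, 1⟩ * ⟨1, 0, x.s • (x.c - x.a * x.b), x.b, x.t⟩ by
      ext <;> simp [Gm.mul, smul_smul]]
    exact mul_mem (mem_sup_left ((mi _).2 ⟨rfl, rfl⟩)) (mem_sup_right ((mj _).2 ⟨rfl, rfl⟩))
  · simp [Gm.mul, Gm.inv, (mi x).1 hx]
  · simp [Gm.mul, Gm.inv, (mj x).1 hx, smul_smul]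
  · have a : x.s = 1 := congrArg Gm.t h
    have b : x.s • x.v.1 = 0 := congrArg Gm.c h
    have c : x.s • x.v.2 = 0 := congrArg Gm.b h
    rw [a, one_smul] at b c
    exact Dh.ext a (Prod.ext b c)

theorem ts_mem (hC : IsFit C) (h : C (Dh (ZMod 3))) (k : ℕ) :
    C (Ts (AddMonoidHom.id (GaloisField 3 k))) :=
  hC.sn _ _ inferInstance (gm_mem hC (dh_mem hC h))

theorem cen_fr {G : Type} [Group G] {z : G} (a : z ∈ center G) (g h : G) (e : z = ⁅g, h⁆) :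
    z ∈ frattini G := by
  refine mem_iInf.2 fun M => mem_iInf.2 fun hM => ?_
  by_contra n
  have t := hM.2 (M ⊔ center G) (left_lt_sup.2 fun u => n (u a))
  obtain ⟨m, b, u, c, rfl⟩ := mem_sup_of_normal_right.1 (t.ge (mem_top g))
  obtain ⟨m', b', u', c', rfl⟩ := mem_sup_of_normal_right.1 (t.ge (mem_top h))
  rw [cm_l (A := ⊤) (center_le_centralizer _ c) (mem_top _),
    cm_r (A := ⊤) (center_le_centralizer _ c') (mem_top _)] at e
  exact n (e ▸ cm b b')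

variable {A : Type} [AddCommGroup A]

def pr (l : F →+ A) : Ts (AddMonoidHom.id F) →* Ts l :=
  MonoidHom.mk' (fun x => ⟨⟨x.1.s, x.1.a, l x.1.c, x.1.b, x.1.t⟩, x.2⟩) fun x y =>
    Subtype.ext (by ext <;> simp [Gm.mul, Units.smul_def, -zsmul_eq_mul])

theorem pr_surj {l : F →+ A} (hl : Surjective l) : Surjective (pr l) := fun x => by
  obtain ⟨c, hc⟩ := hl x.1.c
  exact ⟨⟨⟨x.1.s, x.1.a, c, x.1.b, x.1.t⟩, x.2⟩, Subtype.ext (Gm.ext rfl rfl hc rfl rfl)⟩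

theorem pr_ker (l : F →+ A) : (pr l).ker ≤ center _ ⊓ frattini _ := by
  rintro ⟨⟨s, a, c, b, t⟩, h⟩ hx
  have e := congrArg Subtype.val hx
  obtain rfl : s = 1 := congrArg Gm.s e
  obtain rfl : a = 0 := congrArg Gm.a e
  obtain rfl : b = 0 := congrArg Gm.b e
  obtain rfl : t = 1 := congrArg Gm.t e
  have z : (⟨⟨1, 0, c, 0, 1⟩, h⟩ : Ts (AddMonoidHom.id F)) ∈ center _ :=
    mem_center_iff.2 fun y => Subtype.ext (by
      have : y.1.s = y.1.t := y.2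
      ext <;> simp [Gm.mul, this, add_comm])
  exact ⟨z, cen_fr z ⟨_, hs_le (hs_mem c 0 0)⟩ ⟨_, hs_le (hs_mem 0 0 1)⟩
    (Subtype.ext ((cmf _ _ _ _ _ _).trans (by simp)).symm)⟩

theorem pq_meta {G : Type} [Group G] [Finite G] (h : PQ 3 2 G) :
    ∃ (N : Subgroup G) (_ : N.Normal), Group.IsNilpotent N ∧ Group.IsNilpotent (G ⧸ N) := by
  obtain ⟨P, _, a, b⟩ := h
  have hQ : IsPGroup 2 (G ⧸ P) := fun g => by
    obtain ⟨g, rfl⟩ := QuotientGroup.mk_surjective g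
    exact (b g).imp fun k hk => (QuotientGroup.eq_one_iff _).2 hk
  exact ⟨P, inferInstance, a.isNilpotent, hQ.isNilpotent⟩

end Pool.Agent.H22.Tn
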