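import Pool.Agent.H22.Tn5
import Pool.Agent.H22.Crit

namespace Pool.Agent.H22.Tn

open Subgroup Function Pool.Agent.H22.Syl Pool.Agent.H22.Fit RegularWreathProduct
open scoped commutatorElement

variable {G H : Type} [Group G] [Group H] {n : ℕ}

theorem nil_top [Finite G] (N M : Subgroup G) [N.Normal] [M.Normal] [Group.IsNilpotent N]
    [Group.IsNilpotent M] (e : N ⊔ M = ⊤) : Group.IsNilpotent G := by
  refine (Group.isNilpotent_of_finite_tfae.out 0 3 rfl rfl).2 fun p hp P => ?_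
  obtain ⟨A, _, a1, a2⟩ := Comp.nilO N hp.out
  obtain ⟨B, _, b1, b2⟩ := Comp.nilO M hp.out
  have l : A ⊔ B ≤ P := (a1.to_sup_of_normal_left b1).le_sylow_of_normal P
  have : (P : Subgroup G) = A ⊔ B := le_antisymm (fun x hx => ?_) l
  · rw [this]; infer_instance
  obtain ⟨u, hu, m, hm, rfl⟩ := mem_sup_of_normal_left.1 (e.ge (mem_top x))
  obtain ⟨a, b, c, d⟩ := Nat.exists_eq_pow_mul_and_not_dvd (orderOf_pos m).ne' p hp.out.ne_one
  have h1 : m ^ b ∈ B := b2 _ (M.pow_mem hm b) ⟨a, by rw [← pow_mul, mul_comm, ← d, pow_orderOf_eq_one]⟩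
  obtain ⟨k, hk⟩ := pel.of_mem P.isPGroup' hx
  have h2 : u * m ∈ N ⊔ B := Comp.cop ((hp.out.coprime_iff_not_dvd.2 c).pow_left k) (hk ▸ one_mem _) (by
    rw [← QuotientGroup.eq_one_iff, QuotientGroup.mk_pow, QuotientGroup.mk_mul,
      (QuotientGroup.eq_one_iff u).2 (mem_sup_left hu), one_mul, ← QuotientGroup.mk_pow]
    exact (QuotientGroup.eq_one_iff _).2 (mem_sup_right h1))
  obtain ⟨v, hv, r, hr, t⟩ := mem_sup_of_normal_left.1 h2
  rw [← t] at hx ⊢
  exact mul_mem (mem_sup_left (a2 v hv (pel.of_mem P.isPGroup'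
    ((mul_mem_cancel_right (l (mem_sup_right hr))).1 hx)))) (mem_sup_right hr)

theorem nil_fit : IsFit fun G _ => Finite G ∧ Group.IsNilpotent G := by
  refine ⟨fun _ _ ⟨a, b⟩ => ⟨a, inferInstance⟩, ⟨inferInstance, inferInstance⟩,
    fun _ _ _ _ e ⟨_, _⟩ => ⟨Finite.of_equiv _ e.toEquiv, Group.nilpotent_of_mulEquiv e⟩,
    fun _ _ _ _ ⟨_, _⟩ => ⟨inferInstance, inferInstance⟩, fun _ _ _ N K _ _ ⟨_, _⟩ ⟨_, _⟩ => ?_⟩
  have := Group.nilpotent_of_mulEquiv (subgroupOfEquivOfLe (le_sup_left : N ≤ N ⊔ K)).symm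
  have := Group.nilpotent_of_mulEquiv (subgroupOfEquivOfLe (le_sup_right : K ≤ N ⊔ K)).symm
  exact ⟨inferInstance, nil_top (N.subgroupOf _) (K.subgroupOf _)
    (by rw [← subgroupOf_sup le_sup_left le_sup_right, subgroupOf_self])⟩

theorem st_fit (hn : 1 ≤ n) : IsFit (St n) :=
  ⟨fun _ _ h => have := h.1; ⟨this, h.2.1.solv⟩, ⟨inferInstance, ⟨⊥, inferInstance, IsPGroup.of_bot,
    fun _ => ⟨0, Subsingleton.elim _ _⟩⟩, ⟨fun _ _ _ _ _ _ => rfl, fun _ _ h => (h fun _ _ => rfl).elim,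
      fun _ _ => one_mem _, fun _ _ _ _ h => (h rfl).elim⟩, fun _ _ _ _ _ _ => rfl⟩,
    fun _ _ _ _ e h => h.iso e, fun _ _ N _ h => h.sub hn N, fun _ _ _ _ _ _ _ h k => h.sup k⟩

def XN (C : Cls) : Cls := fun G _ => Finite G ∧ ∃ (B : Type) (_ : Group B) (φ : G →* B),
  Group.IsNilpotent B ∧ C φ.ker

variable {C : Cls}

theorem ker_nil {B : Type} [Group B] [Group.IsNilpotent B] (φ : G →* B) :
    Group.IsNilpotent (G ⧸ φ.ker) :=
  Group.nilpotent_of_mulEquiv (QuotientGroup.quotientKerEquivRange φ).symm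

theorem XN.solv (hC : IsFit C) (h : XN C G) : Group.IsSolvable G := by
  obtain ⟨_, B, _, φ, _, b⟩ := h
  have := (hC.fin _ b).2
  have := ker_nil φ
  exact (Group.isSolvable_iff_subgroup_quotient φ.ker).2 ⟨inferInstance, inferInstance⟩

theorem XN.iso (hC : IsFit C) (e : G ≃* H) (h : XN C G) : XN C H := by
  obtain ⟨_, B, _, φ, a, b⟩ := h
  refine ⟨Finite.of_equiv _ e.toEquiv, B, _, φ.comp e.symm.toMonoidHom, a, ?_⟩
  rw [← MonoidHom.comap_ker, ← map_equiv_eq_comap_symm']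
  exact hC.iso _ _ (φ.ker.equivMapOfInjective _ e.injective) b

theorem XN.fis (hC : IsFit C) (h : XN C G) (U : Subgroup G)
    (k : Group.IsNilpotent (U ⧸ U.normalCore.subgroupOf U)) : XN C U := by
  obtain ⟨_, B, _, φ, a, b⟩ := h
  refine ⟨inferInstance, _, _, (QuotientGroup.mk' (U.normalCore.subgroupOf U)).prod
    (φ.comp U.subtype), inferInstance, ?_⟩
  rw [MonoidHom.ker_prod, QuotientGroup.ker_mk', ← MonoidHom.comap_ker, subgroupOf, ← comap_inf]
  exact hC.iso _ _ (subgroupOfEquivOfLe (inf_le_left.trans U.normalCore_le)).symm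
    (hC.le inf_le_right inferInstance b)

theorem XN.n0 (hC : IsFit C) [Finite G] (S : Set (Subgroup G))
    (h : ∀ K ∈ S, K.IsSubnormal ∧ XN C K) (e : sSup S = ⊤) : XN C G := by
  obtain ⟨R, _, r1, r2⟩ := hC.rad G
  obtain ⟨T, -, t1, t2⟩ := nil_fit.rad (G ⧸ R)
  have sj := QuotientGroup.mk'_surjective R
  have l : sSup S ≤ T.comap (QuotientGroup.mk' R) := sSup_le fun K hK => by
    obtain ⟨s, _, B, _, φ, a, b⟩ := h K hK
    have := ker_nil φ
    have l := r2 _ (IsSubnormal.trans' (Normal.isSubnormal inferInstance) s)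
      (hC.iso _ _ (φ.ker.equivMapOfInjective _ K.subtype_injective) b)
    refine map_le_iff_le_comap.1 (t2 _ (s.map sj) ⟨inferInstance, Group.nilpotent_of_surjective
      (QuotientGroup.lift φ.ker ((QuotientGroup.mk' R).subgroupMap K) fun x hx => Subtype.ext
        ((QuotientGroup.eq_one_iff _).2 (l ⟨x, hx, rfl⟩))) fun y => ?_⟩)
    obtain ⟨x, rfl⟩ := (QuotientGroup.mk' R).subgroupMap_surjective K y
    exact ⟨x, rfl⟩
  refine ⟨inferInstance, _, _, QuotientGroup.mk' R, (nil_fit.of_top (eq_top_iff.2 fun x _ => ?_) t1).2,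
    by rwa [QuotientGroup.ker_mk']⟩
  obtain ⟨x, rfl⟩ := sj x
  exact l (e.ge (mem_top x))

def wmap (f : G →* H) (Q : Type) [Group Q] : G ≀ᵣ Q →* H ≀ᵣ Q :=
  MonoidHom.mk' (fun w => ⟨fun q => f (w.left q), w.right⟩) fun a b => by ext <;> simp

theorem wmap_surj {f : G →* H} (h : Surjective f) (Q : Type) [Group Q] : Surjective (wmap f Q) :=
  fun w => ⟨⟨fun q => surjInv h (w.left q), w.right⟩, by ext <;> simp [wmap, surjInv_eq]⟩

theorem base_inj (Q : Type) [Group Q] : Injective (base G Q) :=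
  fun _ _ h => congrArg RegularWreathProduct.left h

theorem base_range (Q : Type) [Group Q] : (base G Q).range = rightHom.ker :=
  le_antisymm (by rintro _ ⟨x, rfl⟩; rfl) fun w h => ⟨w.left, RegularWreathProduct.ext rfl h.symm⟩

theorem xn_wr (hC : IsFit C) (h : C G) (Q : Type) [Group Q] [Finite Q] [Group.IsNilpotent Q] :
    XN C (G ≀ᵣ Q) :=
  have := (hC.fin _ h).1
  ⟨inferInstance, Q, _, rightHom, ‹_›, base_range (G := G) Q ▸ hC.range _ (base_inj Q) (hC.pi Q h)⟩

theorem nil_cm [Finite G] [Group.IsNilpotent G] {x y : G} (a : pel 2 x) (b : pel 3 y) : ⁅x, y⁆ = 1 := by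
  obtain ⟨A, _, a1, a2⟩ := Comp.nilO (⊤ : Subgroup G) Nat.prime_two
  obtain ⟨B, _, b1, b2⟩ := Comp.nilO (⊤ : Subgroup G) Nat.prime_three
  have := commutator_le_inf A B (commutator_mem_commutator (a2 x trivial a) (b2 y trivial b))
  exact t32 (pel.of_mem b1 this.2) (pel.of_mem a1 this.1)

theorem Bl.two {m : ℕ} {R : Subgroup G} (a : Bl m R) (b : Bl n R) (h : m < n) : R ≤ Ce R :=
  a.gen.trans ((closure_le _).2 fun e he => by
    by_contra v
    exact absurd ((b.big e he.1 v).trans he.2) (not_le.2 h))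

abbrev F9 := GaloisField 3 2
abbrev C3 := Multiplicative (ZMod 3)
noncomputable abbrev T9 := Ts (AddMonoidHom.id F9)

theorem st9 : St 9 T9 := by
  simpa [GaloisField.card 3 2] using st_ts (l := AddMonoidHom.id F9) surjective_id

theorem not_xn : ¬ XN (St 3) (T9 ≀ᵣ C3) := by
  classical
  rintro ⟨-, B, _, φ, _, h⟩
  have := ker_nil φ
  let y : T9 := ⟨⟨-1, 0, 0, 0, -1⟩, rfl⟩
  have y2 : y * y = 1 := Subtype.ext (by ext <;> simp [y, Gm.mul, Gm.one])
  let g : C3 := Multiplicative.ofAdd 1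
  let v : C3 → T9 := Pi.mulSingle 1 y * Pi.mulSingle g y
  have p2 : ∀ i : C3, pel 2 (Pi.mulSingle i y : C3 → T9) := fun i =>
    pel.map ⟨1, by rw [pow_one, pow_two, y2]⟩ (MonoidHom.mulSingle (fun _ : C3 => T9) i)
  have hv : base T9 C3 v = ⁅base T9 C3 (Pi.mulSingle 1 y), inl g⁆ := by
    refine RegularWreathProduct.ext (funext fun q => ?_) (by simp [commutatorElement_def, base])
    by_cases e : q = g <;> simp [commutatorElement_def, base, v, Pi.mulSingle_apply, inv_mul_eq_one, e,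
      inv_eq_of_mul_eq_one_right y2, eq_comm (a := g)]
  let N := φ.ker.comap (base T9 C3)
  have vN : v ∈ N := by
    rw [mem_comap, hv, ← QuotientGroup.eq_one_iff]
    exact (map_commutatorElement (QuotientGroup.mk' φ.ker) _ _).trans (nil_cm (((p2 1).map _).map _)
      ((pel.map ⟨1, by decide⟩ inl).map _))
  have v1 : v 1 = y := by simp [v, Pi.mulSingle_eq_of_ne (show (1 : C3) ≠ g by decide)]
  have v2 : pel 2 v := ⟨1, funext fun q => by
    simp only [v, pow_one, pow_two, Pi.mul_apply, Pi.mulSingle_apply, Pi.one_apply]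
    split_ifs <;> simp [y2]⟩
  have s9 := (st_fit (by norm_num)).pi C3 st9
  have s3 : St 3 N := (st_fit (by norm_num)).iso _ _ (N.equivMapOfInjective _ (base_inj C3)).symm
    ((st_fit (by norm_num)).le (map_comap_le _ _) (by
      rw [map_comap_eq, base_range]; infer_instance) h)
  have ab := (sr_sub.1 s3.2.2).1.two (sr_sub.1 (s9.sub (by norm_num) N).2.2).1 (by norm_num)
  obtain ⟨P, a, b, c⟩ := s9.2.1
  have k : ∀ a b : F9, ⁅⁅(Pi.mulSingle 1 ⟨_, hs_le (hs_mem a 0 b)⟩ : C3 → T9), v⁆, v⁆ ∈ Rr N :=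
    fun a' b' => rr_mem (commutator_le_right ⊤ N (commutator_mem_commutator (mem_top _) vN)) vN
      (pel.of_mem b (commutator_le_left P ⊤ (commutator_mem_commutator (Se.mem ⟨a, b, c⟩
        (pel.map (pel_inj T9.subtype (subtype_injective _) (pel_hs surjective_id (hs_mem _ _ _)))
          (MonoidHom.mulSingle (fun _ : C3 => T9) 1))) (mem_top v)))) v2
  have e := congrArg (fun f : C3 → T9 => (f 1).1.c) (ab (k 1 0) _ (k 0 1))
  simp [commutatorElement_def, v1, y, Gm.mul, Gm.inv] at e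
  have t : (3 : F9) = 0 := CharP.cast_eq_zero F9 3
  exact one_ne_zero (α := F9) (by linear_combination e - t)

end Pool.Agent.H22.Tn
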