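import Pool.Agent.H22.MaxP

namespace Pool.Agent.H22.Tod

open Subgroup MulAction Pool.Agent.H22.Syl
open scoped Pointwise

theorem dvd_ncard {S Ω : Type} [Group S] [MulAction S Ω] [Finite Ω] (d : ℕ) (D : Set Ω)
    (hD : ∀ s : S, ∀ x ∈ D, s • x ∈ D) (h : ∀ x ∈ D, d ∣ (stabilizer S x).index) :
    d ∣ D.ncard := by
  induction hn : D.ncard using Nat.strong_induction_on generalizing D with
  | _ n ih =>
  rcases D.eq_empty_or_nonempty with rfl | ⟨x, hx⟩
  · rw [← hn]; simp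
  have hsub : orbit S x ⊆ D := by
    rintro _ ⟨s, rfl⟩
    exact hD s x hx
  have e := Set.ncard_sdiff_add_ncard_of_subset hsub
  have hpos : 0 < (orbit S x).ncard := (Set.ncard_pos).2 ⟨x, mem_orbit_self x⟩
  rw [← hn, ← e]
  refine dvd_add (ih _ (by omega) (D \ orbit S x)
    (fun s y hy => ⟨hD s y hy.1, fun h' => hy.2 ?_⟩) (fun y hy => h y hy.1) rfl) (by rw [← index_stabilizer]; exact h x hx)
  obtain ⟨t, ht⟩ := h'
  exact ⟨s⁻¹ * t, by simp only at ht ⊢; rw [mul_smul, ht, inv_smul_smul]⟩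

variable {Γ Ω C : Type} [Group Γ] [Finite Γ] [MulAction Γ Ω] [Finite Ω] [MulAction Γ C]

theorem one_mod (c : Ω → Ω → C) (hc : ∀ (g : Γ) a b, a ≠ b → c (g • a) (g • b) = g • c a b)
    (d : ℕ) (S : Subgroup Γ) (hS : ∀ i : C, d ∣ (stabilizer S i).index) (α : Ω)
    (hα : S ≤ stabilizer Γ α) (D : Set Ω) (hD : ∀ s ∈ S, ∀ x ∈ D, s • x ∈ D) (hm : α ∈ D) :
    ∃ m, D.ncard = d * m + 1 := by
  have h1 := dvd_ncard (S := S) d (D \ {α}) (fun s x hx => ⟨hD s s.2 x hx.1, fun h => hx.2 ?_⟩)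
    (fun x hx => (hS (c α x)).trans (index_dvd_of_le fun s hs => ?_))
  · obtain ⟨m, hm'⟩ := h1
    exact ⟨m, by rw [← hm', Set.ncard_sdiff_singleton_add_one hm]⟩
  · have h2 : s.1 • α = α := hα s.2
    have h3 : s.1 • x = s.1 • α := h.trans h2.symm
    exact smul_left_cancel _ h3
  · have h2 : s.1 • α = α := hα s.2
    have h3 : s.1 • x = x := hs
    have := hc s α x (fun e => hx.2 e.symm)
    rw [h2, h3] at this
    exact this.symm

theorem fixed {p : ℕ} [Fact p.Prime] (S : Subgroup Γ) (hS : IsPGroup p S) (D : Set Ω)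
    (hD : ∀ s ∈ S, ∀ x ∈ D, s • x ∈ D) (h : ¬ p ∣ D.ncard) : ∃ α ∈ D, S ≤ stabilizer Γ α := by
  by_contra hn
  push Not at hn
  refine h (dvd_ncard (S := S) p D (fun s x hx => hD s s.2 x hx) fun x hx => ?_)
  obtain ⟨k, hk⟩ := hS.index (stabilizer S x)
  rcases k with _ | k
  · exfalso
    rw [pow_zero, index_eq_one] at hk
    exact hn x hx fun s hs => (hk.ge (mem_top (⟨s, hs⟩ : S)) : (⟨s, hs⟩ : S) ∈ stabilizer S x)
  · rw [hk]; exact dvd_pow_self _ (Nat.succ_ne_zero _)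

theorem step {H : Type} [Group H] {p r : ℕ} [Fact p.Prime] [Fact r.Prime] (φ : Γ →* H)
    {N S R : Subgroup Γ} (hN : N ≤ φ.ker) (hS : IsPGroup p S) (hSN : S ≤ normalizer (N : Set Γ))
    (hR : MaxP r R N) : ∃ S' ≤ (N ⊔ S) ⊓ normalizer (R : Set Γ), IsPGroup p S' ∧
      S'.map φ = S.map φ := by
  have e : ((N ⊔ S) ⊓ normalizer (R : Set Γ)).map φ = S.map φ := by
    refine le_antisymm ((map_mono inf_le_left).trans ?_) ?_
    · rw [Subgroup.map_sup, (Subgroup.map_eq_bot_iff _).2 hN, bot_sup_eq]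
    · rintro _ ⟨s, hs, rfl⟩
      obtain ⟨n, hn, h⟩ := hR.frattini (hSN hs)
      exact ⟨s * n, ⟨mul_mem (mem_sup_right hs) (mem_sup_left hn), h⟩, by
        rw [map_mul, MonoidHom.mem_ker.1 (hN hn), mul_one]⟩
  obtain ⟨S', h1, h2, h3⟩ := lift (r := p) φ _ (e ▸ hS.map φ)
  exact ⟨S', h1, h2, h3.trans e⟩

theorem main [Finite C] [IsPretransitive Γ C] [Nonempty Ω] (c : Ω → Ω → C)
    (hc : ∀ (g : Γ) a b, a ≠ b → c (g • a) (g • b) = g • c a b)
    (hK : ∀ a b : Ω, ∃ g ∈ (toPermHom Γ C).ker, g • a = b) (r : ℕ) [Fact r.Prime] :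
    r ^ (Nat.card Ω).factorization r ≡ 1 [MOD Nat.card C] := by
  refine ((Nat.modEq_iff_dvd' (Nat.one_le_pow _ _ (Fact.out : r.Prime).pos)).2 ?_).symm
  refine (Nat.dvd_iff_prime_pow_dvd_dvd _ _).2 fun p e hp hpe => ?_
  have : Fact p.Prime := ⟨hp⟩
  rcases e with _ | e
  · simp
  generalize hφ : toPermHom Γ C = φ at hK
  have hφ' : ∀ g i, φ g i = g • i := fun g i => by rw [← hφ]; rfl
  generalize hKe : φ.ker = K at hK
  have hKn : K.Normal := hKe ▸ inferInstance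
  have nrm : ∀ (A : Subgroup Γ) (s : Γ), s ∈ normalizer (A : Set Γ) →
      s ∈ normalizer ((K ⊓ A : Subgroup Γ) : Set Γ) := fun A s hs =>
    mem_normalizer_iff.2 fun x => and_congr ⟨fun h => hKn.conj_mem _ h s, fun h => by
      simpa [mul_assoc] using hKn.conj_mem _ h s⁻¹⟩ (mem_normalizer_iff.1 hs x)
  let S0 : Sylow p Γ := default
  have heavy : ∀ S : Subgroup Γ, S.map φ = S0.1.map φ → ∀ i : C,
      p ^ (e + 1) ∣ (stabilizer S i).index := by
    intro S hS i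
    have e1 : orbit S i = orbit S0.1 i := by
      have key : ∀ A B : Subgroup Γ, A.map φ = B.map φ → orbit A i ⊆ orbit B i := by
        rintro A B h _ ⟨a, rfl⟩
        obtain ⟨b, hb, hb'⟩ := h.le ⟨a, a.2, rfl⟩
        exact ⟨⟨b, hb⟩, (hφ' b i).symm.trans (hb' ▸ hφ' a i)⟩
      exact Set.Subset.antisymm (key _ _ hS) (key _ _ hS.symm)
    rw [index_stabilizer, e1, ← index_stabilizer]
    have h1 : (stabilizer S0.1 i).index * S0.1.index = (S0.1 ⊓ stabilizer Γ i).index := by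
      rw [← relIndex_mul_index (inf_le_left : S0.1 ⊓ stabilizer Γ i ≤ _), inf_relIndex_left]
      rfl
    have h2 := index_dvd_of_le (inf_le_right : S0.1 ⊓ stabilizer Γ i ≤ _)
    rw [index_stabilizer_of_transitive, ← h1] at h2
    exact (hp.coprime_pow_of_not_dvd S0.not_dvd_index).symm.dvd_of_dvd_mul_right (hpe.trans h2)
  obtain ⟨α0⟩ := ‹Nonempty Ω›
  have base : ∃ Q : Subgroup Γ, Q ≤ K ∧ IsPGroup r Q ∧ ∃ α : Ω, ∃ S : Subgroup Γ,
      IsPGroup p S ∧ S.map φ = S0.1.map φ ∧ S ≤ normalizer (Q : Set Γ) ∧ S ≤ stabilizer Γ α ∧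
      MaxP r (Q ⊓ stabilizer Γ α) (K ⊓ stabilizer Γ α) := by
    have e1 : (stabilizer Γ α0 ⊓ (S0.1.map φ).comap φ).map φ = S0.1.map φ := by
      refine le_antisymm (map_le_iff_le_comap.2 inf_le_right) ?_
      rintro _ ⟨s, hs, rfl⟩
      obtain ⟨k, hk, hk'⟩ := hK (s • α0) α0
      have hk1 : φ k = 1 := by rwa [← hKe] at hk
      have : φ (k * s) = φ s := by rw [map_mul, hk1, one_mul]
      exact ⟨k * s, ⟨(mul_smul k s α0).trans hk', ⟨s, hs, this.symm⟩⟩, this⟩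
    obtain ⟨S, h1, h2, h3⟩ := lift (r := p) φ _ (e1 ▸ S0.isPGroup'.map φ)
    obtain ⟨Q, hQ, -⟩ := exists_maxP (r := r) (L := K ⊓ stabilizer Γ α0) IsPGroup.of_bot bot_le
    have hS : S ≤ stabilizer Γ α0 := h1.trans inf_le_left
    obtain ⟨S', k1, k2, k3⟩ := step φ (hKe ▸ inf_le_left) h2
      (fun s hs => nrm _ s (le_normalizer (hS hs))) hQ
    refine ⟨Q, hQ.1.trans inf_le_left, hQ.2.1, α0, S', k2, k3.trans (h3.trans e1),
      k1.trans inf_le_right, k1.trans (inf_le_left.trans (sup_le inf_le_right hS)), ?_⟩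
    rwa [inf_eq_left.2 (hQ.1.trans inf_le_right)]
  obtain ⟨Q, ⟨hQK, hQ, α, S, hS, hSm, hSQ, hSα, hM⟩, hmax⟩ :=
    (wellFounded_gt (α := Subgroup Γ)).has_min {Q | Q ≤ K ∧ IsPGroup r Q ∧ ∃ α : Ω,
      ∃ S : Subgroup Γ, IsPGroup p S ∧ S.map φ = S0.1.map φ ∧ S ≤ normalizer (Q : Set Γ) ∧
      S ≤ stabilizer Γ α ∧ MaxP r (Q ⊓ stabilizer Γ α) (K ⊓ stabilizer Γ α)} base
  have orb : ∀ N : Subgroup Γ, S ≤ normalizer (N : Set Γ) → ∀ s ∈ N ⊔ S, ∀ x ∈ orbit N α,
      s • x ∈ orbit N α := by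
    intro N hN s hs
    have : N ⊔ S ≤ stabilizer Γ (orbit N α) := by
      refine sup_le (fun n hn => ?_) fun t ht => ?_
      · exact smul_orbit (⟨n, hn⟩ : N) α
      · have key : ∀ t ∈ S, ∀ x ∈ orbit N α, t • x ∈ orbit N α := by
          rintro t ht _ ⟨n, rfl⟩
          refine ⟨⟨t * n * t⁻¹, (mem_normalizer_iff.1 (hN ht) n).1 n.2⟩, ?_⟩
          have h2 : t⁻¹ • α = α := hSα (S.inv_mem ht)
          change (t * n * t⁻¹) • α = t • (n.1 • α)
          rw [mul_smul, mul_smul, h2]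
        rw [mem_stabilizer_iff]
        ext x
        rw [Set.mem_smul_set_iff_inv_smul_mem]
        exact ⟨fun h => by simpa using key t ht _ h, key _ (S.inv_mem ht) x⟩
    intro x hx
    rw [← mem_stabilizer_iff.1 (this hs)]
    exact Set.smul_mem_smul_set hx
  have hsyl : MaxP r Q K := by
    apply of_normalizer
    generalize hN : K ⊓ normalizer (Q : Set Γ) = N
    have hQN : Q ≤ N := hN ▸ le_inf hQK le_normalizer
    have hSN : S ≤ normalizer (N : Set Γ) := fun s hs => by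
      rw [← hN]
      exact nrm _ s (le_normalizer (hSQ hs))
    obtain ⟨R, hR, hQR⟩ := exists_maxP hQ hQN
    obtain ⟨S', k1, k2, k3⟩ := step φ (hKe ▸ hN ▸ inf_le_left) hS hSN hR
    obtain ⟨m, hm⟩ := one_mod c hc _ S (heavy S hSm) α hSα (orbit N α)
      (fun s hs => orb N hSN s (mem_sup_right hs)) (mem_orbit_self α)
    obtain ⟨β, ⟨n, rfl⟩, hβ⟩ := fixed S' k2 (orbit N α)
      (fun s hs => orb N hSN s (k1 hs).1) (by
        rw [hm, Nat.dvd_add_right ((dvd_pow_self p (Nat.succ_ne_zero e)).mul_right m)]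
        exact hp.one_lt.ne' ∘ Nat.dvd_one.1)
    have hn : n.1 ∈ K ⊓ normalizer (Q : Set Γ) := hN ▸ n.2
    have hRK : R ≤ K := hR.1.trans (hN ▸ inf_le_left)
    have : ¬ Q < R := hmax R ⟨hRK, hR.2.1, n • α, S', k2, k3.trans hSm, k1.trans inf_le_right, hβ,
      inf_le_inf_right _ hRK, hR.2.1.to_inf_left, fun U a b c' x hx => ?_⟩
    · rwa [eq_of_le_of_not_lt hQR this]
    · refine ⟨hQR ?_, (a hx).2⟩
      have st : ∀ y : Γ, n.1 * y * n.1⁻¹ ∈ stabilizer Γ (n • α) ↔ y ∈ stabilizer Γ α := fun y => by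
        change (n.1 * y * n.1⁻¹) • n.1 • α = n.1 • α ↔ y • α = α
        rw [mul_smul, inv_smul_smul, mul_smul, smul_left_cancel_iff]
      have := hM.2.2 (U.comap (MulAut.conj n.1).toMonoidHom) (fun y hy => ?_)
        (b.comap_of_injective _ (MulAut.conj n.1).injective) (fun y hy => ?_)
        (x := n.1⁻¹ * x * n) (by simpa [mul_assoc] using hx)
      · exact (mem_normalizer_iff''.1 hn.2 x).2 this.1
      · have hy' : n.1 * y * n.1⁻¹ ∈ K ⊓ stabilizer Γ (n • α) := a hy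
        refine ⟨?_, (st y).1 hy'.2⟩
        simpa [mul_assoc] using hKn.conj_mem _ hy'.1 n.1⁻¹
      · exact c' ⟨hQR ((mem_normalizer_iff.1 hn.2 y).1 hy.1), (st y).2 hy.2⟩
  obtain ⟨m, hm⟩ := one_mod c hc _ S (heavy S hSm) α hSα (orbit Q α)
    (fun s hs => orb Q hSQ s (mem_sup_right hs)) (mem_orbit_self α)
  obtain ⟨j, hj⟩ := hQ.index (stabilizer Q α)
  have h1 : (stabilizer Γ α).relIndex K = Nat.card Ω := by
    have : IsPretransitive K Ω := ⟨fun a b => by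
      obtain ⟨g, hg, h⟩ := hK a b
      exact ⟨⟨g, hg⟩, h⟩⟩
    exact index_stabilizer_of_transitive K α
  have h2 : r ^ j * Q.relIndex K
      = (Q ⊓ stabilizer Γ α).relIndex (K ⊓ stabilizer Γ α) * Nat.card Ω := by
    rw [← hj, ← h1, ← inf_relIndex_left K (stabilizer Γ α), relIndex_mul_relIndex _ _ _ hM.1 inf_le_left,
      ← relIndex_mul_relIndex _ _ _ inf_le_left hQK, inf_relIndex_left]
    rfl
  have h3 := congrArg (fun n => n.factorization r) h2
  have a1 := hsyl.not_dvd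
  have a2 := hM.not_dvd
  have hr : r.Prime := Fact.out
  have ne_zero_of_not_dvd : ∀ {x : ℕ}, ¬ r ∣ x → x ≠ 0 := fun h e => h (e ▸ dvd_zero _)
  rw [Nat.factorization_mul (pow_ne_zero _ hr.ne_zero) (ne_zero_of_not_dvd a1),
    Nat.factorization_mul (ne_zero_of_not_dvd a2) Nat.card_pos.ne', Finsupp.add_apply,
    Finsupp.add_apply, Nat.factorization_eq_zero_of_not_dvd a1,
    Nat.factorization_eq_zero_of_not_dvd a2, hr.factorization_pow, Finsupp.single_eq_same] at h3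
  rw [show (Nat.card Ω).factorization r = j by omega, ← hj, index_stabilizer, hm]
  simp

end Pool.Agent.H22.Tod
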