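import Mathlib

set_option autoImplicit false

namespace Pool.Agent.H22.TopLat

/-- Pairs of finitely supported integer sequences, written multiplicatively. -/
def G : Type := Multiplicative ((ℕ →₀ ℤ) × (ℕ →₀ ℤ))

noncomputable instance : CommGroup G :=
  inferInstanceAs (CommGroup (Multiplicative ((ℕ →₀ ℤ) × (ℕ →₀ ℤ))))
noncomputable instance : Lattice G := inferInstanceAs (Lattice ((ℕ →₀ ℤ) × (ℕ →₀ ℤ)))

def fst (x : G) : ℕ →₀ ℤ := (Multiplicative.toAdd x).1
def snd (x : G) : ℕ →₀ ℤ := (Multiplicative.toAdd x).2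
def mk (a b : ℕ →₀ ℤ) : G := Multiplicative.ofAdd (a, b)

@[simp] theorem fst_mk (a b : ℕ →₀ ℤ) : fst (mk a b) = a := rfl
@[simp] theorem snd_mk (a b : ℕ →₀ ℤ) : snd (mk a b) = b := rfl
@[simp] theorem fst_mul (x y : G) (n : ℕ) : fst (x * y) n = fst x n + fst y n := rfl
@[simp] theorem snd_mul (x y : G) (n : ℕ) : snd (x * y) n = snd x n + snd y n := rfl
@[simp] theorem fst_inv (x : G) (n : ℕ) : fst x⁻¹ n = - fst x n := rfl
@[simp] theorem snd_inv (x : G) (n : ℕ) : snd x⁻¹ n = - snd x n := rfl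
@[simp] theorem fst_one (n : ℕ) : fst 1 n = 0 := rfl
@[simp] theorem snd_one (n : ℕ) : snd 1 n = 0 := rfl
@[simp] theorem fst_sup (x y : G) (n : ℕ) : fst (x ⊔ y) n = max (fst x n) (fst y n) :=
  Finsupp.sup_apply _ _ _
@[simp] theorem snd_sup (x y : G) (n : ℕ) : snd (x ⊔ y) n = max (snd x n) (snd y n) :=
  Finsupp.sup_apply _ _ _
@[simp] theorem fst_inf (x y : G) (n : ℕ) : fst (x ⊓ y) n = min (fst x n) (fst y n) :=
  Finsupp.inf_apply _ _ _
@[simp] theorem snd_inf (x y : G) (n : ℕ) : snd (x ⊓ y) n = min (snd x n) (snd y n) :=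
  Finsupp.inf_apply _ _ _

theorem le_iff (x y : G) : x ≤ y ↔ (∀ n, fst x n ≤ fst y n) ∧ ∀ n, snd x n ≤ snd y n := Iff.rfl

theorem ext' {x y : G} (h1 : ∀ n, fst x n = fst y n) (h2 : ∀ n, snd x n = snd y n) : x = y :=
  Prod.ext (Finsupp.ext h1) (Finsupp.ext h2)

instance : MulLeftMono G := ⟨fun a b c h => by
  rw [le_iff] at h ⊢
  refine ⟨fun n => ?_, fun n => ?_⟩
  · have := h.1 n; simp only [fst_mul]; omega
  · have := h.2 n; simp only [snd_mul]; omega⟩

instance : MulRightMono G := ⟨fun a b c h => by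
  rw [le_iff] at h ⊢
  refine ⟨fun n => ?_, fun n => ?_⟩
  · have := h.1 n; simp only [Function.swap, fst_mul]; omega
  · have := h.2 n; simp only [Function.swap, snd_mul]; omega⟩

/-- `y` is `N`-close to `x`. -/
def Rel (N : ℕ) (x y : G) : Prop :=
  (∀ n < N, fst y n = fst x n) ∧ ∀ n, fst y n - snd y n = fst x n - snd x n

theorem Rel.refl (N : ℕ) (x : G) : Rel N x x := ⟨fun _ _ => rfl, fun _ => rfl⟩

theorem Rel.trans {N : ℕ} {x y z : G} (h : Rel N x y) (k : Rel N y z) : Rel N x z :=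
  ⟨fun n hn => (k.1 n hn).trans (h.1 n hn), fun n => (k.2 n).trans (h.2 n)⟩

theorem Rel.mono {N M : ℕ} (hNM : N ≤ M) {x y : G} (h : Rel M x y) : Rel N x y :=
  ⟨fun n hn => h.1 n (by omega), h.2⟩

instance : TopologicalSpace G where
  IsOpen S := ∀ x ∈ S, ∃ N, ∀ y, Rel N x y → y ∈ S
  isOpen_univ := fun _ _ => ⟨0, fun _ _ => trivial⟩
  isOpen_inter := fun S T hS hT x hx => by
    obtain ⟨N, hN⟩ := hS x hx.1
    obtain ⟨M, hM⟩ := hT x hx.2
    exact ⟨max N M, fun y hy => ⟨hN y (hy.mono (le_max_left _ _)), hM y (hy.mono (le_max_right _ _))⟩⟩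
  isOpen_sUnion := fun F hF x hx => by
    obtain ⟨S, hS, hxS⟩ := hx
    obtain ⟨N, hN⟩ := hF S hS x hxS
    exact ⟨N, fun y hy => ⟨S, hS, hN y hy⟩⟩

theorem isOpen_iff (S : Set G) : IsOpen S ↔ ∀ x ∈ S, ∃ N, ∀ y, Rel N x y → y ∈ S := Iff.rfl

theorem isOpen_rel (N : ℕ) (x : G) : IsOpen {y | Rel N x y} :=
  fun _ hy => ⟨N, fun _ hz => hy.trans hz⟩

theorem cont2 (f : G × G → G)
    (h : ∀ x y N, ∃ M, ∀ x' y', Rel M x x' → Rel M y y' → Rel N (f (x, y)) (f (x', y'))) :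
    Continuous f := by
  refine ⟨fun S hS => ?_⟩
  rw [isOpen_prod_iff]
  intro x y hxy
  obtain ⟨N, hN⟩ := hS _ hxy
  obtain ⟨M, hM⟩ := h x y N
  refine ⟨_, _, isOpen_rel M x, isOpen_rel M y, Rel.refl _ _, Rel.refl _ _, ?_⟩
  rintro ⟨x', y'⟩ ⟨hx, hy⟩
  exact hN _ (hM x' y' hx hy)

instance : IsTopologicalGroup G where
  continuous_mul := cont2 _ fun x y N => ⟨N, fun x' y' hx hy =>
    ⟨fun n hn => by simp only [fst_mul, hx.1 n hn, hy.1 n hn], fun n => by
      have := hx.2 n; have := hy.2 n; simp only [fst_mul, snd_mul]; omega⟩⟩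
  continuous_inv := ⟨fun S hS x hx => by
    obtain ⟨N, hN⟩ := hS _ hx
    refine ⟨N, fun y hy => hN _ ⟨fun n hn => by simp only [fst_inv, hy.1 n hn], fun n => ?_⟩⟩
    have := hy.2 n; simp only [fst_inv, snd_inv]; omega⟩

theorem bound (x : G) : ∃ M, ∀ n, M ≤ n → fst x n = 0 ∧ snd x n = 0 := by
  obtain ⟨M, hM⟩ := ((fst x).support ∪ (snd x).support).bddAbove
  refine ⟨M + 1, fun n hn => ?_⟩
  have h : n ∉ (fst x).support ∪ (snd x).support := fun hmem => by
    have := hM (Finset.mem_coe.2 hmem); omega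
  simpa using h

theorem cont_op (op : ℤ → ℤ → ℤ) (f : G × G → G) (h0 : op 0 0 = 0)
    (h1 : ∀ x y n, fst (f (x, y)) n = op (fst x n) (fst y n))
    (h2 : ∀ x y n, snd (f (x, y)) n = op (snd x n) (snd y n)) : Continuous f := by
  refine cont2 _ fun x y N => ?_
  obtain ⟨M1, hM1⟩ := bound x
  obtain ⟨M2, hM2⟩ := bound y
  refine ⟨max N (max M1 M2), fun x' y' hx hy => ⟨fun n hn => ?_, fun n => ?_⟩⟩
  · rw [h1, h1, hx.1 n (by omega), hy.1 n (by omega)]
  · rw [h1, h1, h2, h2]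
    by_cases hn : n < max N (max M1 M2)
    · have a1 := hx.1 n hn
      have a2 := hy.1 n hn
      have b1 := hx.2 n
      have b2 := hy.2 n
      have c1 : snd x' n = snd x n := by omega
      have c2 : snd y' n = snd y n := by omega
      rw [a1, a2, c1, c2]
    · obtain ⟨a1, a2⟩ := hM1 n (by omega)
      obtain ⟨a3, a4⟩ := hM2 n (by omega)
      have b1 := hx.2 n
      have b2 := hy.2 n
      have c1 : snd x' n = fst x' n := by omega
      have c2 : snd y' n = fst y' n := by omega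
      rw [a1, a2, a3, a4, c1, c2, h0]; simp

instance : TopologicalLattice G where
  continuous_inf := cont_op min _ (by simp) (fun x y n => fst_inf x y n) (fun x y n => snd_inf x y n)
  continuous_sup := cont_op max _ (by simp) (fun x y n => fst_sup x y n) (fun x y n => snd_sup x y n)

def A : Subgroup G where
  carrier := {x | ∀ n, snd x n = 0}
  mul_mem' := fun {a b} ha hb n => by simp only [snd_mul, ha n, hb n, add_zero]
  one_mem' := fun _ => rfl
  inv_mem' := fun {a} ha n => by simp only [snd_inv, ha n, neg_zero]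

def B : Subgroup G where
  carrier := {x | ∀ n, fst x n = 0}
  mul_mem' := fun {a b} ha hb n => by simp only [fst_mul, ha n, hb n, add_zero]
  one_mem' := fun _ => rfl
  inv_mem' := fun {a} ha n => by simp only [fst_inv, ha n, neg_zero]

theorem mem_A (x : G) : x ∈ A ↔ ∀ n, snd x n = 0 := Iff.rfl
theorem mem_B (x : G) : x ∈ B ↔ ∀ n, fst x n = 0 := Iff.rfl

theorem closed_A : IsClosed (A : Set G) := by
  refine ⟨fun x hx => ?_⟩
  have hx' : ¬ ∀ n, snd x n = 0 := hx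
  push Not at hx'
  obtain ⟨n, hn⟩ := hx'
  refine ⟨n + 1, fun y hy hyA => hn ?_⟩
  have h1 := hy.1 n (by omega)
  have h2 := hy.2 n
  have h3 : snd y n = 0 := hyA n
  omega

theorem closed_B : IsClosed (B : Set G) := by
  refine ⟨fun x hx => ?_⟩
  have hx' : ¬ ∀ n, fst x n = 0 := hx
  push Not at hx'
  obtain ⟨n, hn⟩ := hx'
  refine ⟨n + 1, fun y hy hyB => hn ?_⟩
  have h1 := hy.1 n (by omega)
  have h3 : fst y n = 0 := hyB n
  omega

noncomputable def phi (p : ↥A × ↥B) : G := (p.1 : G) * (p.2 : G)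

theorem fst_phi (p : ↥A × ↥B) (n : ℕ) : fst (phi p) n = fst (p.1 : G) n := by
  have := p.2.2 n
  simp only [phi, fst_mul, this, add_zero]

theorem snd_phi (p : ↥A × ↥B) (n : ℕ) : snd (phi p) n = snd (p.2 : G) n := by
  have := p.1.2 n
  simp only [phi, snd_mul, this, zero_add]

theorem phi_le (p q : ↥A × ↥B) : p ≤ q ↔ phi p ≤ phi q := by
  rw [le_iff]
  simp only [fst_phi, snd_phi]
  constructor
  · rintro ⟨h1, h2⟩
    exact ⟨((le_iff _ _).1 h1).1, ((le_iff _ _).1 h2).2⟩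
  · rintro ⟨h1, h2⟩
    refine ⟨(le_iff _ _).2 ⟨h1, fun n => ?_⟩, (le_iff _ _).2 ⟨fun n => ?_, h2⟩⟩
    · rw [p.1.2 n, q.1.2 n]
    · rw [p.2.2 n, q.2.2 n]

theorem phi_bij : Function.Bijective phi := by
  constructor
  · intro p q h
    exact le_antisymm ((phi_le p q).2 h.le) ((phi_le q p).2 h.ge)
  · intro x
    refine ⟨(⟨mk (fst x) 0, fun _ => rfl⟩, ⟨mk 0 (snd x), fun _ => rfl⟩), ext' (fun n => ?_) (fun n => ?_)⟩
    · rw [fst_phi]; rfl
    · rw [snd_phi]; rfl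

theorem no_homeo : ¬ ∃ e : (↥A × ↥B) ≃ₜ G, ∀ p, e p = phi p := by
  rintro ⟨e, he⟩
  have h1 : IsOpen {p : ↥A × ↥B | Rel 0 1 (p.1 : G)} :=
    (isOpen_rel 0 1).preimage (continuous_subtype_val.comp continuous_fst)
  have h2 := e.isOpenMap _ h1
  obtain ⟨N, hN⟩ := h2 1 ⟨(1, 1), Rel.refl _ _, by rw [he]; simp [phi]⟩
  obtain ⟨p, hp, hpe⟩ := hN (mk (Finsupp.single N 1) (Finsupp.single N 1))
    ⟨fun n hn => by
      have : N ≠ n := by omega
      simp [this], fun n => by simp⟩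
  rw [he] at hpe
  have h3 := fst_phi p N
  rw [hpe] at h3
  have h4 := hp.2 N
  have h5 := p.1.2 N
  simp at h3 h4
  omega

end Pool.Agent.H22.TopLat
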