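import Mathlib

set_option autoImplicit false

namespace H22.Udim
open Filter Topology

theorem mk_one {α : Type} (K : Set (α → ℝ)) (hK : IsCompact K) (hc : Convex ℝ K) (hn : K.Nonempty)
    (T : (α → ℝ) →L[ℝ] (α → ℝ)) (hT : ∀ x ∈ K, T x ∈ K) : ∃ x ∈ K, T x = x := by
  obtain ⟨x, hx⟩ := hn
  have hit : ∀ i : ℕ, (T ^ i) x ∈ K := by
    intro i
    induction i with
    | zero => simpa using hx
    | succ i ih => rw [pow_succ', ContinuousLinearMap.mul_apply]; exact hT _ ih
  let u : ℕ → (α → ℝ) := fun n => ∑ i ∈ Finset.range (n + 1), (1 / ((n : ℝ) + 1)) • (T ^ i) x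
  have hu : ∀ n, u n ∈ K := by
    intro n
    refine hc.sum_mem (fun i _ => by positivity) ?_ (fun i _ => hit i)
    simp only [Finset.sum_const, Finset.card_range, nsmul_eq_mul]
    push_cast
    field_simp
  have hd : ∀ n, T (u n) - u n = (1 / ((n : ℝ) + 1)) • ((T ^ (n + 1)) x - x) := by
    intro n
    simp only [u, map_sum, map_smul]
    rw [← Finset.sum_sub_distrib]
    simp only [← smul_sub]
    rw [← Finset.smul_sum]
    congr 1
    have := Finset.sum_range_sub (fun i => (T ^ i) x) (n + 1)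
    simp only [pow_zero, ContinuousLinearMap.one_apply] at this
    rw [← this]
    refine Finset.sum_congr rfl fun i _ => ?_
    rw [pow_succ', ContinuousLinearMap.mul_apply]
  obtain ⟨y, hy, hlim⟩ := hK.ultrafilter_le_nhds ((hyperfilter ℕ).map u)
    (by
      rw [Ultrafilter.coe_map, le_principal_iff, mem_map]
      exact univ_mem' hu)
  refine ⟨y, hy, ?_⟩
  have h1 : Tendsto u (hyperfilter ℕ) (𝓝 y) := hlim
  have h2 : Tendsto (fun n => T (u n) - u n) (hyperfilter ℕ) (𝓝 (T y - y)) :=
    ((T.continuous.tendsto y).comp h1).sub h1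
  have h3 : Tendsto (fun n => T (u n) - u n) (hyperfilter ℕ) (𝓝 0) := by
    refine Tendsto.mono_left ?_ (Nat.hyperfilter_le_atTop)
    rw [tendsto_pi_nhds]
    intro a
    obtain ⟨C, hC⟩ := (hK.image (continuous_apply a)).isBounded.exists_norm_le
    have hb : ∀ n, ‖(T (u n) - u n) a‖ ≤ (1 / ((n : ℝ) + 1)) * (2 * C) := by
      intro n
      rw [hd]
      simp only [Pi.smul_apply, Pi.sub_apply, smul_eq_mul, norm_mul]
      rw [Real.norm_of_nonneg (by positivity)]
      refine mul_le_mul_of_nonneg_left ?_ (by positivity)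
      have e1 := hC _ ⟨_, hit (n + 1), rfl⟩
      have e2 := hC _ ⟨_, hx, rfl⟩
      have := norm_sub_le ((T ^ (n + 1)) x a) (x a)
      simp only at e1 e2
      linarith
    refine squeeze_zero_norm hb ?_
    simpa using tendsto_one_div_add_atTop_nhds_zero_nat.mul_const (2 * C)
  exact sub_eq_zero.mp (tendsto_nhds_unique h2 h3)

theorem mk_fam {α ι : Type} (K : Set (α → ℝ)) (hK : IsCompact K) (hc : Convex ℝ K)
    (hn : K.Nonempty) (T : ι → (α → ℝ) →L[ℝ] (α → ℝ)) (hT : ∀ i, ∀ x ∈ K, T i x ∈ K)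
    (hcomm : ∀ i j, ∀ x ∈ K, T i (T j x) = T j (T i x)) : ∃ x ∈ K, ∀ i, T i x = x := by
  classical
  have hcl : ∀ i, IsClosed {x | T i x = x} := fun i => isClosed_eq (T i).continuous continuous_id
  have hcv : ∀ i, Convex ℝ {x | T i x = x} := by
    intro i x hx y hy a b _ _ _
    simp only [Set.mem_ofPred_eq] at hx hy ⊢
    rw [map_add, map_smul, map_smul, hx, hy]
  have key : ∀ s : Finset ι, (K ∩ ⋂ i ∈ s, {x | T i x = x}).Nonempty := by
    intro s
    induction s using Finset.induction_on with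
    | empty => simpa using hn
    | insert j s _ ih =>
      obtain ⟨x, hx, hx'⟩ := mk_one (K ∩ ⋂ i ∈ s, {x | T i x = x})
        (hK.inter_right (isClosed_biInter fun i _ => hcl i))
        (hc.inter (convex_iInter₂ fun i _ => hcv i)) ih (T j) (by
          rintro x ⟨h1, h2⟩
          refine ⟨hT j x h1, ?_⟩
          simp only [Set.mem_iInter, Set.mem_ofPred_eq] at h2 ⊢
          intro i hi
          rw [hcomm i j x h1, h2 i hi])
      refine ⟨x, hx.1, ?_⟩
      have h2 := hx.2
      simp only [Set.mem_iInter, Set.mem_ofPred_eq, Finset.mem_insert] at h2 ⊢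
      rintro i (rfl | hi)
      · exact hx'
      · exact h2 i hi
  obtain ⟨x, hx, hx'⟩ := hK.inter_iInter_nonempty (fun i => {x | T i x = x}) hcl key
  exact ⟨x, hx, fun i => Set.mem_iInter.mp hx' i⟩

/-- translation operator on set functions. -/
noncomputable def TT {G : Type} [Group G] (g : G) : (Set G → ℝ) →L[ℝ] (Set G → ℝ) :=
  ContinuousLinearMap.pi fun S => ContinuousLinearMap.proj ((fun x => g * x) '' S)

theorem TT_apply {G : Type} [Group G] (g : G) (m : Set G → ℝ) (S : Set G) :
    TT g m S = m ((fun x => g * x) '' S) := rfl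

theorem TT_mul {G : Type} [Group G] (g h : G) (m : Set G → ℝ) : TT g (TT h m) = TT (h * g) m := by
  funext S
  simp only [TT_apply, Set.image_image, mul_assoc]

theorem amen {G P : Type} [Group G] [CommGroup P] (φ : G →* P)
    (hker : ∀ a b : G, φ a = 1 → φ b = 1 → a * b = b * a) :
    ∃ m : Set G → ℝ, (∀ S, 0 ≤ m S) ∧ m Set.univ = 1 ∧
      (∀ S U, Disjoint S U → m (S ∪ U) = m S + m U) ∧
      ∀ (g : G) (S : Set G), m ((fun x => g * x) '' S) = m S := by
  classical
  let K : Set (Set G → ℝ) := {m | (∀ S, 0 ≤ m S) ∧ m Set.univ = 1 ∧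
      (∀ S U, Disjoint S U → m (S ∪ U) = m S + m U)}
  have hcl : IsClosed K := by
    simp only [K, Set.ofPred_and, Set.ofPred_forall]
    refine (isClosed_iInter fun S => isClosed_le continuous_const (continuous_apply S)).inter
      ((isClosed_eq (continuous_apply _) continuous_const).inter
      (isClosed_iInter fun S => isClosed_iInter fun U => isClosed_iInter fun _ =>
        isClosed_eq (continuous_apply _) ((continuous_apply S).add (continuous_apply U))))
  have hK : IsCompact K := by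
    refine (isCompact_univ_pi fun _ : Set G => (isCompact_Icc : IsCompact (Set.Icc (0 : ℝ) 1))).of_isClosed_subset hcl ?_
    rintro m ⟨h0, h1, h2⟩ S _
    refine ⟨h0 S, ?_⟩
    have := h2 S Sᶜ disjoint_compl_right
    rw [Set.union_compl_self, h1] at this
    linarith [h0 Sᶜ]
  have hc : Convex ℝ K := by
    rintro x ⟨x0, x1, x2⟩ y ⟨y0, y1, y2⟩ a b ha hb hab
    refine ⟨fun S => ?_, ?_, fun S U h => ?_⟩
    · simp only [Pi.add_apply, Pi.smul_apply, smul_eq_mul]
      exact add_nonneg (mul_nonneg ha (x0 S)) (mul_nonneg hb (y0 S))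
    · simp only [Pi.add_apply, Pi.smul_apply, smul_eq_mul, x1, y1]; linarith
    · simp only [Pi.add_apply, Pi.smul_apply, smul_eq_mul, x2 S U h, y2 S U h]; ring
  have hn : K.Nonempty := by
    refine ⟨fun S => if (1 : G) ∈ S then 1 else 0, fun S => ?_, by simp, fun S U h => ?_⟩
    · dsimp only; split_ifs <;> norm_num
    · by_cases h1 : (1 : G) ∈ S
      · have h2 : (1 : G) ∉ U := Set.disjoint_left.mp h h1
        simp [h1, h2]
      · by_cases h2 : (1 : G) ∈ U <;> simp [h1, h2]
  have hT : ∀ g : G, ∀ m ∈ K, TT g m ∈ K := by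
    rintro g m ⟨h0, h1, h2⟩
    refine ⟨fun S => h0 _, ?_, fun S U h => ?_⟩
    · rw [TT_apply, Set.image_univ_of_surjective (mul_left_surjective g), h1]
    · simp only [TT_apply, Set.image_union]
      exact h2 _ _ ((Set.disjoint_image_iff (mul_right_injective g)).mpr h)
  obtain ⟨m0, hm0, hm0'⟩ := mk_fam K hK hc hn (fun a : {a : G // φ a = 1} => TT a.1)
    (fun a => hT a.1) (fun a b x _ => by rw [TT_mul, TT_mul, hker a.1 b.1 a.2 b.2])
  let K1 : Set (Set G → ℝ) := K ∩ ⋂ a : {a : G // φ a = 1}, {m | TT a.1 m = m}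
  have hm1 : ∀ m, m ∈ K1 ↔ m ∈ K ∧ ∀ a : G, φ a = 1 → TT a m = m := by
    intro m
    simp [K1]
  obtain ⟨m, hm, hm'⟩ := mk_fam K1
    (hK.inter_right (isClosed_iInter fun a => isClosed_eq (TT a.1).continuous continuous_id))
    (hc.inter (convex_iInter fun a => by
      intro x hx y hy s t _ _ _
      simp only [Set.mem_ofPred_eq] at hx hy ⊢
      rw [map_add, map_smul, map_smul, hx, hy]))
    ⟨m0, (hm1 m0).mpr ⟨hm0, fun a ha => hm0' ⟨a, ha⟩⟩⟩ (fun g : G => TT g)
    (by
      intro g x hx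
      rw [hm1] at hx ⊢
      refine ⟨hT g x hx.1, fun a ha => ?_⟩
      have e : g * a = (g * a * g⁻¹) * g := by group
      rw [TT_mul, e, ← TT_mul, hx.2 _ (by simp [ha])])
    (by
      intro g h x hx
      rw [hm1] at hx
      have e : h * g = (h * g * (g * h)⁻¹) * (g * h) := by group
      rw [TT_mul, TT_mul, e, ← TT_mul, hx.2 _ (by rw [map_mul, map_inv, map_mul, map_mul, mul_comm (φ h), mul_inv_cancel])])
  obtain ⟨h0, h1, h2⟩ := ((hm1 m).mp hm).1
  exact ⟨m, h0, h1, h2, fun g S => congrFun (hm' g) S⟩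

end H22.Udim
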