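import Pool.Agent.H22.Udim1

set_option autoImplicit false

namespace H22.Udim

theorem vand {C R : Type*} [CommRing C] [Ring R] (ψ : C →+* R) {n : ℕ} (v : Fin n → C)
    (hv : ∀ i j, i ≠ j → ∀ y : R, ψ (v i - v j) * y = 0 → y = 0) (y : Fin n → R)
    (h : ∀ j, ∑ i : Fin n, ψ (v j) ^ (i : ℕ) * y i = 0) (l : Fin n) : y l = 0 := by
  have hreg : ∀ z : R, ψ (Matrix.vandermonde v).det * z = 0 → z = 0 := by
    rw [Matrix.det_vandermonde]
    refine Finset.prod_induction _ (fun c => ∀ z : R, ψ c * z = 0 → z = 0) ?_ (by simp) ?_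
    · intro a b ha hb z hz
      rw [map_mul, mul_assoc] at hz
      exact hb _ (ha _ hz)
    · intro i _
      refine Finset.prod_induction _ (fun c => ∀ z : R, ψ c * z = 0 → z = 0) ?_ (by simp) ?_
      · intro a b ha hb z hz
        rw [map_mul, mul_assoc] at hz
        exact hb _ (ha _ hz)
      · intro j hj
        exact hv j i (ne_of_gt (Finset.mem_Ioi.mp hj))
  apply hreg
  have e : ∑ j, ψ ((Matrix.vandermonde v).adjugate l j) * ∑ i : Fin n, ψ (v j) ^ (i : ℕ) * y i
      = ψ (Matrix.vandermonde v).det * y l := by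
    simp only [Finset.mul_sum]
    rw [Finset.sum_comm]
    have : ∀ i : Fin n, ∑ j, ψ ((Matrix.vandermonde v).adjugate l j) * (ψ (v j) ^ (i : ℕ) * y i)
        = ψ (((Matrix.vandermonde v).adjugate * Matrix.vandermonde v) l i) * y i := by
      intro i
      rw [Matrix.mul_apply, map_sum, Finset.sum_mul]
      refine Finset.sum_congr rfl fun j _ => ?_
      rw [map_mul, Matrix.vandermonde_apply, map_pow, mul_assoc]
    simp only [this, Matrix.adjugate_mul, Matrix.smul_apply, Matrix.one_apply, smul_eq_mul]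
    rw [Finset.sum_eq_single l]
    · simp
    · intro b _ hb
      simp [Ne.symm hb]
    · simp
  rw [← e]
  simp [h]

theorem inv_zero {k G : Type*} [Field k] [Group G] (u : G) (hu : Function.Injective fun n : ℕ => u ^ n)
    (y : MonoidAlgebra k G) (h : MonoidAlgebra.of k G u * y = y) : y = 0 := by
  by_contra hy
  have hy' : y.coeff ≠ 0 := fun e => hy (by ext g; simp [e])
  obtain ⟨g, hg⟩ := Finsupp.support_nonempty_iff.mpr hy'
  have hn : ∀ n : ℕ, y.coeff (u ^ n * g) = y.coeff g := by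
    intro n
    induction n with
    | zero => simp
    | succ n ih =>
      rw [← ih]
      conv_lhs => rw [← h]
      rw [MonoidAlgebra.of_apply, MonoidAlgebra.coeff_single_mul_apply, pow_succ', mul_assoc]
      simp
  refine Set.infinite_of_injective_forall_mem (s := (y.coeff.support : Set G))
    (f := fun n : ℕ => u ^ n * g) (fun a b e => hu (mul_right_cancel e)) (fun n => ?_)
    (Finset.finite_toSet _)
  simp only [Finset.mem_coe, Finsupp.mem_support_iff] at hg ⊢
  rw [hn]; exact hg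

/-- the affine maps `x ↦ z * x + a` of the complex plane, `z` a root of unity of `p`-power order -/
@[ext] structure G (p : ℕ) [Fact p.Prime] where
  a : ℂ
  z : CommGroup.primaryComponent ℂˣ p

variable {p : ℕ} [Fact p.Prime]

noncomputable instance : Group (G p) where
  mul g h := ⟨g.a + (g.z.1 : ℂ) * h.a, g.z * h.z⟩
  one := ⟨0, 1⟩
  inv g := ⟨-(((g.z⁻¹).1 : ℂˣ) : ℂ) * g.a, g.z⁻¹⟩
  mul_assoc g h k := by
    apply G.ext
    · show g.a + (g.z.1 : ℂ) * h.a + ((g.z * h.z).1 : ℂ) * k.a
        = g.a + (g.z.1 : ℂ) * (h.a + (h.z.1 : ℂ) * k.a)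
      simp only [Subgroup.coe_mul, Units.val_mul]; ring
    · exact mul_assoc _ _ _
  one_mul g := by
    apply G.ext
    · show 0 + (((1 : CommGroup.primaryComponent ℂˣ p).1 : ℂˣ) : ℂ) * g.a = g.a
      simp
    · exact one_mul _
  mul_one g := by
    apply G.ext
    · show g.a + (g.z.1 : ℂ) * 0 = g.a
      simp
    · exact mul_one _
  inv_mul_cancel g := by
    apply G.ext
    · show -(((g.z⁻¹).1 : ℂˣ) : ℂ) * g.a + (((g.z⁻¹).1 : ℂˣ) : ℂ) * g.a = 0
      ring
    · exact inv_mul_cancel _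

theorem mul_a (g h : G p) : (g * h).a = g.a + (g.z.1 : ℂ) * h.a := rfl
theorem mul_z (g h : G p) : (g * h).z = g.z * h.z := rfl
theorem one_a : (1 : G p).a = 0 := rfl
theorem one_z : (1 : G p).z = 1 := rfl

noncomputable def φ : G p →* CommGroup.primaryComponent ℂˣ p where
  toFun g := g.z
  map_one' := rfl
  map_mul' _ _ := rfl

noncomputable def tr : Multiplicative ℂ →* G p where
  toFun c := ⟨c.toAdd, 1⟩
  map_one' := rfl
  map_mul' a b := by
    apply G.ext
    · simp [mul_a]
    · simp [mul_z]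

noncomputable def rot : CommGroup.primaryComponent ℂˣ p →* G p where
  toFun z := ⟨0, z⟩
  map_one' := rfl
  map_mul' a b := by
    apply G.ext
    · simp [mul_a]
    · simp [mul_z]

theorem tr_inj : Function.Injective (tr : Multiplicative ℂ →* G p) := fun a b h => by
  have := congrArg G.a h
  exact Multiplicative.toAdd.injective this

theorem eq_tr (g : G p) (h : g.z = 1) : g = tr (Multiplicative.ofAdd g.a) := G.ext rfl h

theorem amenG : ∃ m : Set (G p) → ℝ, (∀ S, 0 ≤ m S) ∧ m Set.univ = 1 ∧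
      (∀ S U, Disjoint S U → m (S ∪ U) = m S + m U) ∧
      ∀ (g : G p) (S : Set (G p)), m ((fun x => g * x) '' S) = m S :=
  amen φ fun a b ha hb => by
    rw [eq_tr a ha, eq_tr b hb, ← map_mul tr, ← map_mul tr, mul_comm]

theorem triv (F : Subgroup (G p)) [Finite F] (h : ¬ p ∣ Nat.card F) : F = ⊥ := by
  rw [Subgroup.eq_bot_iff_forall]
  intro g hg
  have h1 : g ^ Nat.card F = 1 := by
    have := pow_card_eq_one' (G := F) (x := ⟨g, hg⟩)
    exact congrArg Subtype.val this
  have h2 : g.z = 1 := by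
    have e1 : g.z ^ Nat.card F = 1 := by
      have := congrArg φ h1
      rwa [map_pow, map_one] at this
    obtain ⟨n, hn⟩ := (CommGroup.primaryComponent.isPGroup (G := ℂˣ) (p := p)) g.z
    have hc : Nat.Coprime (Nat.card F) (p ^ n) :=
      (((Fact.out : p.Prime).coprime_iff_not_dvd.mpr h).symm).pow_right n
    have := Nat.dvd_gcd (orderOf_dvd_of_pow_eq_one e1) (orderOf_dvd_of_pow_eq_one hn)
    rw [hc, Nat.dvd_one, orderOf_eq_one_iff] at this
    exact this
  rw [eq_tr g h2] at h1 ⊢
  rw [← map_pow, ← map_one tr] at h1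
  have h3 := congrArg Multiplicative.toAdd (tr_inj h1)
  simp only [toAdd_pow, toAdd_ofAdd, toAdd_one, nsmul_eq_mul, mul_eq_zero, Nat.cast_eq_zero] at h3
  rcases h3 with h3 | h3
  · exact absurd h3 Nat.card_pos.ne'
  · rw [h3]; exact map_one _

theorem rot_tr (z : CommGroup.primaryComponent ℂˣ p) (c : ℂ) :
    (rot z : G p) * tr (Multiplicative.ofAdd c) = tr (Multiplicative.ofAdd ((z.1 : ℂ) * c)) * rot z := by
  apply G.ext
  · simp [mul_a, rot, tr]
  · simp [mul_z, rot, tr]

theorem main (k : Type*) [Field k] (n : ℕ) :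
    ∃ I : Fin n → Submodule (MonoidAlgebra k (G p))ᵐᵒᵖ (MonoidAlgebra k (G p)),
      (∀ i, I i ≠ ⊥) ∧ iSupIndep I := by
  classical
  have hp : p.Prime := Fact.out
  have hN : p ^ n ≠ 0 := pow_ne_zero _ hp.ne_zero
  have hnN : n < p ^ n := Nat.lt_pow_self hp.one_lt
  have hζ := Complex.isPrimitiveRoot_exp (p ^ n) hN
  set ζ := Complex.exp (2 * Real.pi * Complex.I / (p ^ n : ℕ)) with hζdef
  have hz0 : ζ ≠ 0 := hζ.ne_zero hN
  let z : CommGroup.primaryComponent ℂˣ p := ⟨Units.mk0 ζ hz0, by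
    rw [CommGroup.mem_primaryComponent]
    exact ⟨n, Units.ext (by simpa using hζ.pow_eq_one)⟩⟩
  have hzp : ∀ j : ℕ, (((z ^ j).1 : ℂˣ) : ℂ) = ζ ^ j := fun j => by simp [z]
  let e : G p →* MonoidAlgebra k (G p) := MonoidAlgebra.of k (G p)
  let f : G p := rot z
  let t : G p := tr (Multiplicative.ofAdd 1)
  let I : Fin n → Submodule (MonoidAlgebra k (G p))ᵐᵒᵖ (MonoidAlgebra k (G p)) := fun i =>
    { carrier := {x | ∃ y, e f * y = y ∧ x = e t ^ (i : ℕ) * y}
      add_mem' := by
        rintro _ _ ⟨y, hy, rfl⟩ ⟨y', hy', rfl⟩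
        exact ⟨y + y', by rw [mul_add, hy, hy'], by rw [mul_add]⟩
      zero_mem' := ⟨0, by simp, by simp⟩
      smul_mem' := by
        rintro c _ ⟨y, hy, rfl⟩
        exact ⟨y * c.unop, by rw [← mul_assoc, hy], by
          rw [MulOpposite.smul_eq_mul_unop, mul_assoc]⟩ }
  have hfN : f ^ (p ^ n) = 1 := by
    rw [← map_pow, ← map_one rot]
    congr 1
    exact Subtype.ext (Units.ext (by rw [hzp]; exact hζ.pow_eq_one))
  have hf1 : ∀ j, j < p ^ n → f ^ j = 1 → j = 0 := by
    intro j hj h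
    rw [← map_pow] at h
    have h2 : z ^ j = 1 := congrArg G.z h
    have h3 : ζ ^ j = 1 := by rw [← hzp, h2]; rfl
    exact Nat.eq_zero_of_dvd_of_lt ((hζ.pow_eq_one_iff_dvd j).mp h3) hj
  let s : MonoidAlgebra k (G p) := ∑ j ∈ Finset.range (p ^ n), e f ^ j
  have hs : e f * s = s := by
    have h1 := Finset.sum_range_succ (fun j => e f ^ j) (p ^ n)
    have h2 := Finset.sum_range_succ' (fun j => e f ^ j) (p ^ n)
    rw [← map_pow, hfN, map_one] at h1
    rw [h1, pow_zero] at h2
    simp only [s, Finset.mul_sum, ← pow_succ']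
    exact (add_right_cancel h2).symm
  have hs0 : s ≠ 0 := by
    intro h
    have h1 : s.coeff 1 = 1 := by
      simp only [s, ← map_pow, e, MonoidAlgebra.of_apply, MonoidAlgebra.coeff_sum,
        Finsupp.finsetSum_apply]
      rw [Finset.sum_eq_single 0]
      · simp
      · intro j hj hj0
        have : f ^ j ≠ 1 := fun h => hj0 (hf1 j (Finset.mem_range.mp hj) h)
        simp [Finsupp.single_apply, this]
      · intro h
        exact absurd (Finset.mem_range.mpr (Nat.pos_of_ne_zero hN)) h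
    rw [h] at h1
    simp at h1
  refine ⟨I, fun i => ?_, ?_⟩
  · rw [Submodule.ne_bot_iff]
    refine ⟨e t ^ (i : ℕ) * s, ⟨s, hs, rfl⟩, fun h => hs0 ?_⟩
    have : e (t ^ (i : ℕ))⁻¹ * (e t ^ (i : ℕ) * s) = s := by
      rw [← map_pow e, ← mul_assoc, ← map_mul e, inv_mul_cancel, map_one, one_mul]
    rw [← this, h, mul_zero]
  · rw [iSupIndep_iff_finsetSum_eq_zero_imp_eq_zero]
    intro S v hv hsum
    have hy : ∀ i, ∃ y, e f * y = y ∧ (if i ∈ S then v i else 0) = e t ^ (i : ℕ) * y := by
      intro i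
      by_cases hi : i ∈ S
      · rw [if_pos hi]; exact hv i hi
      · rw [if_neg hi]; exact ⟨0, by simp, by simp⟩
    choose y hy1 hy2 using hy
    have hsum' : ∑ i : Fin n, e t ^ (i : ℕ) * y i = 0 := by
      simp only [← hy2]
      rw [Finset.sum_ite_mem, Finset.univ_inter, hsum]
    have hyj : ∀ (j : ℕ) i, e f ^ j * y i = y i := by
      intro j i
      induction j with
      | zero => simp
      | succ j ih => rw [pow_succ, mul_assoc, hy1, ih]
    let ψ : MonoidAlgebra k (Multiplicative ℂ) →+* MonoidAlgebra k (G p) :=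
      (MonoidAlgebra.lift k (MonoidAlgebra k (G p)) (Multiplicative ℂ) (e.comp tr)).toRingHom
    have hψ : ∀ c, ψ (MonoidAlgebra.of k _ c) = e (tr c) := fun c => by simp [ψ]
    have hz : ∀ l, y l = 0 := by
      refine vand ψ (fun j : Fin n => MonoidAlgebra.of k _ (Multiplicative.ofAdd (ζ ^ (j : ℕ))))
        ?_ y ?_
      · intro i j hij w hw
        rw [map_sub, hψ, hψ, sub_mul, sub_eq_zero] at hw
        have hne : ζ ^ (i : ℕ) - ζ ^ (j : ℕ) ≠ 0 := by
          rw [sub_ne_zero]
          intro h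
          exact hij (Fin.ext (hζ.pow_inj (i.2.trans hnN) (j.2.trans hnN) h))
        refine inv_zero (tr (Multiplicative.ofAdd (ζ ^ (i : ℕ) - ζ ^ (j : ℕ)))) ?_ w ?_
        · intro a b hab
          simp only [← map_pow] at hab
          have h3 := congrArg Multiplicative.toAdd (tr_inj hab)
          simp only [toAdd_pow, toAdd_ofAdd, nsmul_eq_mul] at h3
          exact_mod_cast mul_right_cancel₀ hne h3
        · have e1 : Multiplicative.ofAdd (ζ ^ (i : ℕ) - ζ ^ (j : ℕ))
              = (Multiplicative.ofAdd (ζ ^ (j : ℕ)))⁻¹ * Multiplicative.ofAdd (ζ ^ (i : ℕ)) := by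
            rw [← ofAdd_neg, ← ofAdd_add]; congr 1; ring
          show e _ * w = w
          rw [e1, map_mul tr, map_mul e, mul_assoc, hw, ← mul_assoc, ← map_mul e, ← map_mul tr,
            inv_mul_cancel, map_one, map_one, one_mul]
      · intro j
        have h1 : e f ^ (j : ℕ) * e t = e (tr (Multiplicative.ofAdd (ζ ^ (j : ℕ)))) * e f ^ (j : ℕ) := by
          rw [← map_pow e, ← map_mul e, ← map_mul e, ← map_pow rot, rot_tr, hzp, mul_one]
        have h2 : ∀ i : ℕ, e f ^ (j : ℕ) * e t ^ i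
            = e (tr (Multiplicative.ofAdd (ζ ^ (j : ℕ)))) ^ i * e f ^ (j : ℕ) :=
          fun i => SemiconjBy.pow_right h1 i
        have h3 := congrArg (fun x => e f ^ (j : ℕ) * x) hsum'
        simp only [Finset.mul_sum, ← mul_assoc, h2, mul_zero] at h3
        simp only [mul_assoc, hyj] at h3
        simpa only [hψ] using h3
    intro i hi
    have := hy2 i
    rw [if_pos hi, hz, mul_zero] at this
    exact this

end H22.Udim
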