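import Mathlib

set_option autoImplicit false

namespace Pool.Agent.H22.UnivRO

abbrev V : Type := ℤ →₀ ℤ

/-- Shift of finitely supported sequences. -/
noncomputable def sh (m : ℤ) : V →+ V := Finsupp.mapDomain.addMonoidHom (fun i => i + m)

theorem sh_single (m i c : ℤ) : sh m (Finsupp.single i c) = Finsupp.single (i + m) c :=
  Finsupp.mapDomain_single

theorem sh_zero (v : V) : sh 0 v = v := by
  have : sh 0 = AddMonoidHom.id V := by
    ext i : 2
    simp [sh_single]
  rw [this]; rfl

theorem sh_add (m n : ℤ) (v : V) : sh (m + n) v = sh m (sh n v) := by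
  have : sh (m + n) = (sh m).comp (sh n) := by
    ext i : 2
    simp [sh_single, add_assoc, add_comm m n]
  rw [this]; rfl

/-- Shift invariant bilinear form attached to a function `χ`. -/
noncomputable def B (χ : ℤ → ℤ) : V →+ V →+ ℤ :=
  Finsupp.liftAddHom fun i => (zmultiplesHom (V →+ ℤ))
    (Finsupp.liftAddHom fun j => (zmultiplesHom ℤ) (χ (j - i)))

theorem B_single (χ : ℤ → ℤ) (i j c d : ℤ) :
    B χ (Finsupp.single i c) (Finsupp.single j d) = c * (d * χ (j - i)) := by
  simp [B]

theorem B_sh (χ : ℤ → ℤ) (m : ℤ) (v w : V) : B χ (sh m v) (sh m w) = B χ v w := by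
  induction v using Finsupp.induction_linear with
  | zero => simp
  | add a b ha hb => simp only [map_add, AddMonoidHom.add_apply, ha, hb]
  | single i c =>
    induction w using Finsupp.induction_linear with
    | zero => simp
    | add a b ha hb => simp only [map_add, ha, hb]
    | single j d => simp [sh_single, B_single]

@[ext] structure Gp (χ : ℤ → ℤ) : Type where
  m : ℤ
  v : V
  s : ℤ

variable {χ : ℤ → ℤ}

noncomputable instance : Mul (Gp χ) :=
  ⟨fun a b => ⟨a.m + b.m, a.v + sh a.m b.v, a.s + b.s + B χ a.v (sh a.m b.v)⟩⟩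
instance : One (Gp χ) := ⟨⟨0, 0, 0⟩⟩
noncomputable instance : Inv (Gp χ) := ⟨fun a => ⟨-a.m, -sh (-a.m) a.v, -a.s + B χ a.v a.v⟩⟩

@[simp] theorem mul_m (a b : Gp χ) : (a * b).m = a.m + b.m := rfl
@[simp] theorem mul_v (a b : Gp χ) : (a * b).v = a.v + sh a.m b.v := rfl
@[simp] theorem mul_s (a b : Gp χ) : (a * b).s = a.s + b.s + B χ a.v (sh a.m b.v) := rfl
@[simp] theorem one_m : (1 : Gp χ).m = 0 := rfl
@[simp] theorem one_v : (1 : Gp χ).v = 0 := rfl
@[simp] theorem one_s : (1 : Gp χ).s = 0 := rfl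
@[simp] theorem inv_m (a : Gp χ) : (a⁻¹).m = -a.m := rfl
@[simp] theorem inv_v (a : Gp χ) : (a⁻¹).v = -sh (-a.m) a.v := rfl
@[simp] theorem inv_s (a : Gp χ) : (a⁻¹).s = -a.s + B χ a.v a.v := rfl

noncomputable instance : Group (Gp χ) := Group.ofLeftAxioms
  (fun a b c => by
    ext1
    · simp [add_assoc]
    · simp [add_assoc, sh_add]
    · simp [sh_add, B_sh]; ring)
  (fun a => by ext1 <;> simp [sh_zero])
  (fun a => by
    ext1
    · simp
    · simp
    · simp [B_sh])

instance : Countable (Gp χ) :=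
  Function.Injective.countable (f := fun a : Gp χ => (a.m, a.v, a.s)) (by
    intro a b h
    simp only [Prod.mk.injEq] at h
    exact Gp.ext h.1 h.2.1 h.2.2)

/-- The positive cone. -/
def Pos (a : Gp χ) : Prop :=
  0 < a.m ∨ (a.m = 0 ∧ (0 < toLex a.v ∨ (a.v = 0 ∧ 0 < a.s)))

theorem Pos.mul {a b : Gp χ} (ha : Pos a) (hb : Pos b) : Pos (a * b) := by
  unfold Pos at *
  simp only [mul_m, mul_v, mul_s]
  rcases ha with ha | ⟨ha, ha'⟩ <;> rcases hb with hb | ⟨hb, hb'⟩
  · left; omega
  · left; omega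
  · left; omega
  · right
    refine ⟨by omega, ?_⟩
    rw [ha, sh_zero]
    rcases ha' with h1 | ⟨h1, h2⟩ <;> rcases hb' with k1 | ⟨k1, k2⟩
    · left; exact add_pos h1 k1
    · left; rw [k1, add_zero]; exact h1
    · left; rw [h1, zero_add]; exact k1
    · right; rw [h1, k1]; simp; omega

theorem not_pos_one : ¬ Pos (1 : Gp χ) := by simp [Pos]

theorem tri (a : Gp χ) : Pos a ∨ a = 1 ∨ Pos a⁻¹ := by
  unfold Pos
  simp only [inv_m, inv_v, inv_s]
  rcases lt_trichotomy 0 a.m with h | h | h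
  · left; left; exact h
  · rcases lt_trichotomy 0 (toLex a.v) with k | k | k
    · left; right; exact ⟨h.symm, Or.inl k⟩
    · have k' : a.v = 0 := (toLex.injective k).symm
      rcases lt_trichotomy 0 a.s with l | l | l
      · left; right; exact ⟨h.symm, Or.inr ⟨k', l⟩⟩
      · right; left; exact Gp.ext h.symm k' l.symm
      · right; right; right
        refine ⟨by omega, Or.inr ?_⟩
        rw [k']; simp; omega
    · right; right; right
      refine ⟨by omega, Or.inl ?_⟩
      rw [← h, neg_zero, sh_zero]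
      exact neg_pos.2 k
  · right; right; left; omega

open Classical in
noncomputable def ord (χ : ℤ → ℤ) : LinearOrder (Gp χ) :=
  @linearOrderOfSTO _ (fun x y => Pos (y * x⁻¹))
    { trichotomous := fun x y h1 h2 => by
        rcases tri (y * x⁻¹) with h | h | h
        · exact absurd h h1
        · exact (mul_inv_eq_one.1 h).symm
        · rw [mul_inv_rev, inv_inv] at h; exact absurd h h2
      irrefl := fun x h => by rw [mul_inv_cancel] at h; exact not_pos_one h
      trans := fun x y z h1 h2 => by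
        have := h2.mul h1
        rwa [mul_assoc, inv_mul_cancel_left] at this } (fun _ _ => Classical.dec _)

theorem ord_right (x y z : Gp χ) (h : (ord χ).le x y) : (ord χ).le (x * z) (y * z) := by
  rcases h with h | h
  · left; rw [h]
  · right
    show Pos (y * z * (x * z)⁻¹)
    rw [mul_inv_rev, mul_assoc, mul_inv_cancel_left]
    exact h

noncomputable def ga (χ : ℤ → ℤ) : Gp χ := ⟨0, Finsupp.single 0 1, 0⟩
def gt (χ : ℤ → ℤ) : Gp χ := ⟨1, 0, 0⟩

theorem gt_pow (n : ℕ) : gt χ ^ n = ⟨n, 0, 0⟩ := by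
  induction n with
  | zero => rfl
  | succ n ih => rw [pow_succ, ih]; ext1 <;> simp [gt]

theorem comm_iff (n : ℕ) :
    Commute (ga χ) (gt χ ^ n * ga χ * (gt χ ^ n)⁻¹) ↔ χ n = χ (-n) := by
  have h : gt χ ^ n * ga χ * (gt χ ^ n)⁻¹ = ⟨0, Finsupp.single (n : ℤ) 1, 0⟩ := by
    rw [gt_pow]; ext1 <;> simp [ga, sh_single]
  rw [h, Commute, SemiconjBy, Gp.ext_iff]
  simp [ga, sh_zero, B_single, add_comm]

theorem main (U : Type*) [Group U] [Countable U] :
    ∃ χ : ℤ → ℤ, ∀ φ : Gp χ →* U, ¬ Function.Injective φ := by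
  classical
  by_contra hcon
  push Not at hcon
  choose φ hφ using hcon
  let ch : Set ℕ → ℤ → ℤ := fun S i => if 0 < i ∧ (i - 1).toNat ∉ S then 1 else 0
  have key : ∀ (S : Set ℕ) (n : ℕ), n ∈ S ↔ Commute (φ (ch S) (ga _))
      (φ (ch S) (gt _) ^ (n + 1) * φ (ch S) (ga _) * (φ (ch S) (gt _) ^ (n + 1))⁻¹) := by
    intro S n
    rw [← map_pow, ← map_inv, ← map_mul, ← map_mul, Commute, SemiconjBy, ← map_mul, ← map_mul,
      (hφ _).eq_iff]
    have := comm_iff (χ := ch S) (n + 1)
    rw [Commute, SemiconjBy] at this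
    rw [this]
    have h1 : ¬ ((0 : ℤ) < -((n + 1 : ℕ) : ℤ)) := by omega
    have h2 : (0 : ℤ) < ((n + 1 : ℕ) : ℤ) := by omega
    have h3 : (((n + 1 : ℕ) : ℤ) - 1).toNat = n := by omega
    simp only [ch, h1, h2, h3, false_and, true_and, if_false]
    by_cases hn : n ∈ S <;> simp [hn]
  have inj : Function.Injective (fun S : Set ℕ => (φ (ch S) (ga _), φ (ch S) (gt _))) := by
    intro S T h
    simp only [Prod.mk.injEq] at h
    ext n
    rw [key S, key T, h.1, h.2]
  have : Countable (Set ℕ) := inj.countable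
  obtain ⟨f, hf⟩ := exists_surjective_nat (Set ℕ)
  exact Function.cantor_surjective f hf

end Pool.Agent.H22.UnivRO
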