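import Mathlib

set_option autoImplicit false

namespace Pool.Agent.H22.WStar

open LaurentPolynomial
open scoped QuadraticAlgebra

section Krivine

variable {A : Type*} [CommRing A] (S : Subsemiring A)

def Tq : Subsemiring A where
  carrier := {f | ∃ N : ℕ, ((N + 1 : ℕ) : A) * f ∈ S}
  zero_mem' := ⟨0, by simp⟩
  one_mem' := ⟨0, by simp⟩
  add_mem' := by
    rintro f g ⟨N, h⟩ ⟨M, h'⟩
    refine ⟨N * M + N + M, ?_⟩
    have := add_mem (mul_mem (natCast_mem S (M + 1)) h) (mul_mem (natCast_mem S (N + 1)) h')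
    refine (congrArg (· ∈ S) ?_).mp this
    push_cast; ring
  mul_mem' := by
    rintro f g ⟨N, h⟩ ⟨M, h'⟩
    refine ⟨N * M + N + M, ?_⟩
    have := mul_mem h h'
    refine (congrArg (· ∈ S) ?_).mp this
    push_cast; ring

variable {S}

theorem Tq.of {f : A} (h : f ∈ S) : f ∈ Tq S := ⟨0, by simpa using h⟩

theorem Tq.div {f : A} (n : ℕ) (hn : 0 < n) (h : (n : A) * f ∈ Tq S) : f ∈ Tq S := by
  obtain ⟨N, h⟩ := h
  obtain ⟨m, rfl⟩ := Nat.exists_eq_add_one_of_ne_zero hn.ne'
  refine ⟨N * m + N + m, (congrArg (· ∈ S) ?_).mp h⟩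
  push_cast; ring

def Pos (S : Subsemiring A) (f : A) : Prop := ∀ L : ℕ, 1 + (L : A) * f ∈ Tq S

theorem Pos.zero : Pos S 0 := fun L => by simp

theorem Pos.add {f g : A} (h : Pos S f) (h' : Pos S g) : Pos S (f + g) := fun L =>
  Tq.div 2 two_pos ((congrArg (· ∈ Tq S) (by push_cast; ring)).mp (add_mem (h (2 * L)) (h' (2 * L))))

theorem Pos.mul {f s : A} (h : Pos S f) (hs : s ∈ S) (hs' : 2 - s ∈ S) : Pos S (s * f) := fun L =>
  Tq.div 2 two_pos ((congrArg (· ∈ Tq S) (by push_cast; ring)).mp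
    (add_mem (mul_mem (Tq.of hs) (h (2 * L))) (Tq.of hs')))

theorem Pos.nat {f : A} (h : Pos S f) (n : ℕ) : Pos S (n * f) := fun L =>
  (congrArg (· ∈ Tq S) (by push_cast; ring)).mp (h (L * n))

theorem bern {s : A} (hs : s ∈ S) (hs' : 2 - s ∈ S) (n : ℕ) : ∀ c : ℤ,
    2 ^ n * (((c : A) + n * (s - 1)) ^ 2 + n * (1 - (s - 1) ^ 2)) ∈ S := by
  induction n with
  | zero =>
    intro c
    have := natCast_mem S (c.natAbs ^ 2)
    rw [← Int.cast_natCast, Nat.cast_pow, Int.natAbs_sq] at this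
    simpa using this
  | succ n ih =>
    intro c
    refine (congrArg (· ∈ S) ?_).mp (add_mem (mul_mem hs (ih (c + 1))) (mul_mem hs' (ih (c - 1))))
    push_cast; ring

theorem pos_sq {s : A} (hs : s ∈ S) (hs' : 2 - s ∈ S) : Pos S ((s - 1) ^ 2) := fun L => by
  refine Tq.div (2 ^ (L + 1) * (L + 1)) (by positivity)
    ((congrArg (· ∈ Tq S) ?_).mp (Tq.of (bern hs hs' (L + 1) 0)))
  push_cast; ring

theorem pos_one_sub {s : A} (hs : s ∈ S) (hs' : ∀ i : ℕ, 2 - s ^ i ∈ S) : Pos S (1 - s) := by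
  have h1 : 2 - s ∈ S := by simpa using hs' 1
  have hD : ∀ i : ℕ, Pos S (s ^ i - 1 - i * (s - 1)) := by
    intro i
    induction i with
    | zero => simpa using Pos.zero
    | succ i ih =>
      refine (congrArg (Pos S) ?_).mp ((ih.mul hs h1).add ((pos_sq hs h1).nat i))
      push_cast; ring
  intro L
  refine Tq.div 2 two_pos ((congrArg (· ∈ Tq S) ?_).mp (add_mem (hD (2 * L) 1) (Tq.of (hs' (2 * L)))))
  push_cast; ring

end Krivine

abbrev L : Type := LaurentPolynomial ℤ

noncomputable def ε : L →+* ℤ := eval₂ (RingHom.id ℤ) 1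

@[simp] theorem ε_T (k : ℤ) : ε (T k) = 1 := by simp [ε, eval₂_T]

theorem C_eq (a : ℤ) : (C a : L) = a := eq_intCast C a

theorem exists_h (k : ℤ) : ∃ h : L, T k - 1 = (T 1 - 1) * h ∧ ε h = k := by
  induction k using Int.induction_on with
  | zero => exact ⟨0, by simp, by simp⟩
  | succ k ih =>
    obtain ⟨h, h1, h2⟩ := ih
    refine ⟨h + T k, ?_, by simp [h2]⟩
    rw [T_add, mul_add, ← h1]; ring
  | pred k ih =>
    obtain ⟨h, h1, h2⟩ := ih
    refine ⟨h - T (-k - 1), ?_, by simp [h2]⟩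
    have : (T (-k) : L) = T (-k - 1) * T 1 := by rw [← T_add]; simp
    rw [mul_sub, ← h1, this]; ring

theorem exists_div (f : L) : ∃ g : L, f = ((ε f : ℤ) : L) + (T 1 - 1) * g := by
  induction f using LaurentPolynomial.induction_on' with
  | add p q hp hq =>
    obtain ⟨g, hg⟩ := hp
    obtain ⟨g', hg'⟩ := hq
    refine ⟨g + g', ?_⟩
    rw [map_add]; push_cast
    linear_combination hg + hg'
  | C_mul_T n a =>
    obtain ⟨h, h1, -⟩ := exists_h n
    refine ⟨a * h, ?_⟩
    rw [C_eq, map_mul, ε_T, map_intCast]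
    simp only [Int.cast_id, mul_one]
    linear_combination (a : L) * h1

theorem krivine (S : Subsemiring L) (h1 : ∀ k : ℤ, T k ∈ S) (h2 : ∀ k : ℤ, 2 - T k ∈ S) {f : L}
    (hf : 0 < ε f) : ∃ N : ℕ, ((N + 1 : ℕ) : L) * f ∈ S := by
  have p1 : Pos S (1 - T 1) := pos_one_sub (h1 1) fun i => by rw [T_pow]; exact h2 _
  have p2 : Pos S (T 1 - 1) := by
    have := (pos_one_sub (h1 (-1)) fun i => by rw [T_pow]; exact h2 _).mul (h1 1) (h2 1)
    rwa [mul_sub, ← T_add, mul_one, add_neg_cancel, T_zero] at this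
  have key : ∀ g : L, Pos S ((T 1 - 1) * g) := by
    intro g
    induction g using LaurentPolynomial.induction_on' with
    | add p q hp hq => rw [mul_add]; exact hp.add hq
    | C_mul_T n a =>
      rw [C_eq]
      obtain ⟨m, rfl | rfl⟩ := a.eq_nat_or_neg
      · refine (congrArg (Pos S) ?_).mp ((p2.mul (h1 n) (h2 n)).nat m)
        push_cast; ring
      · refine (congrArg (Pos S) ?_).mp ((p1.mul (h1 n) (h2 n)).nat m)
        push_cast; ring
  obtain ⟨g, hg⟩ := exists_div f
  obtain ⟨m, hm⟩ := Int.eq_ofNat_of_zero_le (show 0 ≤ ε f - 1 by omega)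
  have : f ∈ Tq S := by
    refine (congrArg (· ∈ Tq S) ?_).mp (add_mem (key g 1) (natCast_mem (Tq S) m))
    have e : ((ε f : ℤ) : L) = m + 1 := by rw [show ε f = m + 1 by omega]; push_cast; rfl
    rw [e] at hg
    push_cast
    linear_combination -hg
  exact this

abbrev V : Type := QuadraticAlgebra L (-T 1) (4 - 2 * T 1)

noncomputable def sU : Vˣ where
  val := ⟨0, 1⟩
  inv := ⟨T (-1) * (4 - 2 * T 1), -T (-1)⟩
  val_inv := by
    have : (T 1 : L) * T (-1) = 1 := by rw [← T_add]; simp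
    refine QuadraticAlgebra.ext ?_ ?_ <;> simp [this]
  inv_val := by
    have : (T (-1) : L) * T 1 = 1 := by rw [← T_add]; simp
    refine QuadraticAlgebra.ext ?_ ?_ <;> simp [mul_assoc, mul_comm (T 1 : L), this]

noncomputable def ρ : L →+* V := eval₂ (Int.castRingHom V) sU

theorem ρ_T : ρ (T 1) = ⟨0, 1⟩ := by rw [ρ, eval₂_T, zpow_one]; rfl

noncomputable def om (a b : L) : L := (ρ a).im * (ρ b).re - (ρ a).re * (ρ b).im

noncomputable def Nm (f : L) : L :=
  (ρ f).re ^ 2 + (4 - 2 * T 1) * (ρ f).re * (ρ f).im + T 1 * (ρ f).im ^ 2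

theorem om_add_left (a b c : L) : om (a + b) c = om a c + om b c := by simp [om]; ring
theorem om_add_right (a b c : L) : om a (b + c) = om a b + om a c := by simp [om]; ring
theorem om_neg_left (a b : L) : om (-a) b = -om a b := by simp [om]; ring
theorem om_neg_right (a b : L) : om a (-b) = -om a b := by simp [om]; ring
theorem om_self (a : L) : om a a = 0 := by simp [om]; ring
theorem om_swap (a b : L) : om a b = -om b a := by simp [om]; ring
@[simp] theorem om_zero_left (a : L) : om 0 a = 0 := by simp [om]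
@[simp] theorem om_zero_right (a : L) : om a 0 = 0 := by simp [om]
theorem om_int_left (c : ℤ) (a b : L) : om (c * a) b = c * om a b := by
  simp [om]; ring
theorem om_int_right (c : ℤ) (a b : L) : om a (c * b) = c * om a b := by
  simp [om]; ring
theorem om_mul (f a b : L) : om (f * a) (f * b) = Nm f * om a b := by
  simp [om, Nm]; ring
theorem om_T : om (T 1) 1 = 1 := by simp [om, ρ_T]

theorem Nm_mul (f g : L) : Nm (f * g) = Nm f * Nm g := by
  simp [Nm]; ring

theorem Nm_T (k : ℤ) : Nm (T k) = T k := by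
  have h1 : Nm (T 1) = T 1 := by simp [Nm, ρ_T]
  induction k using Int.induction_on with
  | zero => simp [Nm]
  | succ k ih => rw [T_add, Nm_mul, ih, h1]
  | pred k ih =>
    have : (T (-k) : L) = T (-k - 1) * T 1 := by rw [← T_add]; simp
    rw [this, Nm_mul, h1] at ih
    exact (isUnit_T 1).mul_right_cancel ih

theorem om_TT (k : ℤ) (a b : L) : om (T k * a) (T k * b) = T k * om a b := by rw [om_mul, Nm_T]

theorem ε_ρ (f : L) : ε (ρ f).re + ε (ρ f).im = ε f := by
  have hm : ∀ f g : L, ε (ρ (f * g)).re + ε (ρ (f * g)).im =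
      (ε (ρ f).re + ε (ρ f).im) * (ε (ρ g).re + ε (ρ g).im) := by
    intro f g
    simp [map_ofNat]; ring
  have h1 : ε (ρ (T 1)).re + ε (ρ (T 1)).im = 1 := by simp [ρ_T]
  have hT : ∀ k : ℤ, ε (ρ (T k)).re + ε (ρ (T k)).im = 1 := by
    intro k
    induction k using Int.induction_on with
    | zero => simp
    | succ k ih => rw [T_add, hm, ih, h1, mul_one]
    | pred k ih =>
      have : (T (-k) : L) = T (-k - 1) * T 1 := by rw [← T_add]; simp
      rwa [this, hm, h1, mul_one] at ih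
  induction f using LaurentPolynomial.induction_on' with
  | add p q hp hq => simp only [map_add, QuadraticAlgebra.re_add, QuadraticAlgebra.im_add]; omega
  | C_mul_T n a => rw [hm, hT, C_eq]; simp

theorem ε_Nm (f : L) : ε (Nm f) = ε f ^ 2 := by
  rw [← ε_ρ f]
  simp [Nm, map_ofNat]; ring

noncomputable def ev : L →+* ℚ := eval₂ (Int.castRingHom ℚ) (Units.mk0 2 two_ne_zero)

theorem ev_T (k : ℤ) : ev (T k) = 2 ^ k := by simp [ev, eval₂_T]

theorem ev_om (a b : L) : ev (om ((T 1 * T 1 + 2) * a) b) = 0 := by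
  simp [om, ρ_T, ev_T, map_ofNat]; ring

end Pool.Agent.H22.WStar
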