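import Pool.Agent.H22.WStar1

set_option autoImplicit false

namespace Pool.Agent.H22.WStar

open LaurentPolynomial

section General

variable {G : Type*} [Group G]

structure WA (P : Set G) : Prop where
  one : (1 : G) ∈ P
  mul : ∀ a ∈ P, ∀ b ∈ P, a * b ∈ P
  anti : ∀ a ∈ P, a⁻¹ ∈ P → a = 1
  conj : ∀ a ∈ P, ∀ x : G, x⁻¹ * a * x ∈ P
  wa : ∀ a ∈ P, ∀ x : G, (x⁻¹ * a * x)⁻¹ * a ^ 2 ∈ P

theorem WA.pow {P : Set G} (h : WA P) {a : G} (ha : a ∈ P) : ∀ n : ℕ, a ^ n ∈ P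
  | 0 => by simpa using h.one
  | n + 1 => by rw [pow_succ]; exact h.mul _ (WA.pow h ha n) _ ha

theorem exists_max {P : Set G} (h : WA P) : ∃ M, P ⊆ M ∧ Maximal (fun Q : Set G => WA Q) M := by
  refine zorn_subset_nonempty {Q : Set G | WA Q} ?_ P h
  intro c hc hch ⟨s0, hs0⟩
  refine ⟨⋃₀ c, ⟨⟨s0, hs0, (hc hs0).one⟩, ?_, ?_, ?_, ?_⟩, fun s hs => Set.subset_sUnion_of_mem hs⟩
  · rintro a ⟨s, hs, ha⟩ b ⟨t, ht, hb⟩
    rcases hch.total hs ht with h | h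
    · exact ⟨t, ht, (hc ht).mul a (h ha) b hb⟩
    · exact ⟨s, hs, (hc hs).mul a ha b (h hb)⟩
  · rintro a ⟨s, hs, ha⟩ ⟨t, ht, hb⟩
    rcases hch.total hs ht with h | h
    · exact (hc ht).anti a (h ha) hb
    · exact (hc hs).anti a ha (h hb)
  · rintro a ⟨s, hs, ha⟩ x
    exact ⟨s, hs, (hc hs).conj a ha x⟩
  · rintro a ⟨s, hs, ha⟩ x
    exact ⟨s, hs, (hc hs).wa a ha x⟩

theorem max_step {M : Set G} (hM : Maximal (fun Q : Set G => WA Q) M) (W : Set G)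
    (h1 : ∀ a ∈ W, ∀ b ∈ W, a * b ∈ W) (h2 : ∀ a ∈ W, ∀ x : G, x⁻¹ * a * x ∈ W)
    (h3 : ∀ a ∈ W, ∀ x y : G, (x⁻¹ * a * x)⁻¹ * (y⁻¹ * a * y) * a ∈ W) :
    W ⊆ M ∨ ∃ a ∈ W, a⁻¹ ∈ M := by
  by_contra hc
  push Not at hc
  have h := hM.prop
  have hmul : ∀ a ∈ {x | ∃ p ∈ M, ∃ w, (w ∈ W ∨ w = 1) ∧ x = p * w},
      ∀ b ∈ {x | ∃ p ∈ M, ∃ w, (w ∈ W ∨ w = 1) ∧ x = p * w},
      ∃ p ∈ M, ∃ w, (w ∈ W ∨ w = 1 ∧ a ∈ M ∧ b ∈ M) ∧ a * b = p * w := by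
    rintro _ ⟨p, hp, w, hw, rfl⟩ _ ⟨p', hp', w', hw', rfl⟩
    refine ⟨p * (w⁻¹⁻¹ * p' * w⁻¹), h.mul _ hp _ (h.conj _ hp' _), w * w', ?_, by group⟩
    rcases hw with hw | rfl <;> rcases hw' with hw' | rfl
    · exact Or.inl (h1 _ hw _ hw')
    · exact Or.inl (by simpa using hw)
    · exact Or.inl (by simpa using hw')
    · exact Or.inr (by simp [hp, hp'])
  have h' : WA {x | ∃ p ∈ M, ∃ w, (w ∈ W ∨ w = 1) ∧ x = p * w} := by
    refine ⟨⟨1, h.one, 1, Or.inr rfl, by simp⟩, fun a ha b hb => ?_, fun a ha hb => ?_, ?_, ?_⟩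
    · obtain ⟨p, hp, w, hw, e⟩ := hmul a ha b hb
      exact ⟨p, hp, w, hw.imp id And.left, e⟩
    · obtain ⟨p, hp, w, hw | hw, e⟩ := hmul a ha _ hb
      · rw [mul_inv_cancel] at e
        exact absurd (eq_inv_of_mul_eq_one_left e.symm ▸ hp) (hc.2 w hw)
      · exact h.anti a hw.2.1 hw.2.2
    · rintro _ ⟨p, hp, w, hw, rfl⟩ x
      exact ⟨_, h.conj p hp x, x⁻¹ * w * x, hw.imp (h2 w · x) (by rintro rfl; simp), by group⟩
    · rintro _ ⟨p, hp, w, hw | rfl, rfl⟩ x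
      · refine ⟨_, h.conj _ (h.wa p hp x) (x⁻¹ * w * x), _, Or.inl (h3 w hw x p), ?_⟩
        rw [pow_two, pow_two]; group
      · exact ⟨_, h.wa p hp x, 1, Or.inr rfl, by simp⟩
  refine hc.1 fun w hw => hM.le_of_ge h' (fun p hp => ⟨p, hp, 1, Or.inr rfl, by simp⟩) ?_
  exact ⟨1, h.one, w, Or.inl hw, by simp⟩

end General

@[ext] structure Gp where
  m : L
  z : L
  k : ℤ

noncomputable instance : Mul Gp :=
  ⟨fun a b => ⟨a.m + T a.k * b.m, a.z + T a.k * b.z + om a.m (T a.k * b.m), a.k + b.k⟩⟩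
noncomputable instance : One Gp := ⟨⟨0, 0, 0⟩⟩
noncomputable instance : Inv Gp := ⟨fun a => ⟨-(T (-a.k) * a.m), -(T (-a.k) * a.z), -a.k⟩⟩

theorem mul_def (a b : Gp) : a * b =
    ⟨a.m + T a.k * b.m, a.z + T a.k * b.z + om a.m (T a.k * b.m), a.k + b.k⟩ := rfl
theorem one_def : (1 : Gp) = ⟨0, 0, 0⟩ := rfl
theorem inv_def (a : Gp) : a⁻¹ = ⟨-(T (-a.k) * a.m), -(T (-a.k) * a.z), -a.k⟩ := rfl

theorem TT (k : ℤ) : (T k : L) * T (-k) = 1 := by rw [← T_add]; simp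

noncomputable instance : Group Gp := Group.ofLeftAxioms
  (fun a b c => by
    simp only [mul_def, T_add, mul_add, om_add_left, om_add_right, mul_assoc, om_TT]
    refine Gp.ext ?_ ?_ ?_ <;> dsimp only <;> ring)
  (fun a => by simp [mul_def, one_def])
  (fun a => by simp [mul_def, one_def, inv_def, om_neg_left, om_self])

theorem conj_N (m z : L) (x : Gp) : x⁻¹ * ⟨m, z, 0⟩ * x =
    ⟨T (-x.k) * m, T (-x.k) * (z + 2 * om m x.m), 0⟩ := by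
  simp only [mul_def, inv_def, add_zero, om_add_left, om_neg_left, om_TT, om_self, om_swap x.m m]
  refine Gp.ext ?_ ?_ ?_ <;> dsimp only <;> ring

theorem mul_N (m z m' z' : L) : (⟨m, z, 0⟩ : Gp) * ⟨m', z', 0⟩ = ⟨m + m', z + z' + om m m', 0⟩ := by
  simp [mul_def]

theorem inv_N (m z : L) : (⟨m, z, 0⟩ : Gp)⁻¹ = ⟨-m, -z, 0⟩ := by simp [inv_def]

theorem pow_N (m z : L) (n : ℕ) : (⟨m, z, 0⟩ : Gp) ^ n = ⟨n * m, n * z, 0⟩ := by
  induction n with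
  | zero => simp [one_def]
  | succ n ih =>
    have := om_int_left n m m
    rw [om_self, Int.cast_natCast, mul_zero] at this
    rw [pow_succ, ih, mul_N, this]
    refine Gp.ext ?_ ?_ rfl <;> push_cast <;> ring

theorem mem_of {P : Set Gp} {m z m' z' : L} (h : (⟨m, z, 0⟩ : Gp) ∈ P) (h1 : m = m') (h2 : z = z') :
    (⟨m', z', 0⟩ : Gp) ∈ P := h1 ▸ h2 ▸ h

noncomputable def I (m : L) : Ideal L := Ideal.span (Set.range (om m))

theorem om_mem (f m x : L) : om (f * m) x ∈ I m := by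
  induction f using LaurentPolynomial.induction_on' with
  | add p q hp hq => rw [add_mul, om_add_left]; exact add_mem hp hq
  | C_mul_T n a =>
    have : x = T n * (T (-n) * x) := by rw [← mul_assoc, TT, one_mul]
    rw [C_eq, mul_assoc, om_int_left, this, om_TT]
    exact Ideal.mul_mem_left _ _ (Ideal.mul_mem_left _ _ (Ideal.subset_span ⟨_, rfl⟩))

theorem Nm_mem (f m : L) {y : L} (hy : y ∈ I m) : Nm f * y ∈ I (f * m) := by
  induction hy using Submodule.span_induction with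
  | mem _ h =>
    obtain ⟨x, rfl⟩ := h
    rw [← om_mul]
    exact Ideal.subset_span ⟨_, rfl⟩
  | zero => simp
  | add _ _ _ _ h h' => rw [mul_add]; exact add_mem h h'
  | smul r _ _ h => rw [smul_eq_mul, mul_left_comm]; exact Ideal.mul_mem_left _ _ h

theorem I_zero {y : L} (hy : y ∈ I 0) : y = 0 := by
  have : I 0 ≤ ⊥ := Ideal.span_le.2 (by rintro _ ⟨x, rfl⟩; simp)
  exact this hy

def Rel (m z f : L) (w : Gp) : Prop := ∃ y ∈ I m, w = ⟨f * m, f * z + y, 0⟩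

theorem Rel.mul {m z f g : L} {v w : Gp} (h : Rel m z f v) (h' : Rel m z g w) :
    Rel m z (f + g) (v * w) := by
  obtain ⟨y, hy, rfl⟩ := h
  obtain ⟨y', hy', rfl⟩ := h'
  refine ⟨_, add_mem (add_mem hy hy') (om_mem f m (g * m)), ?_⟩
  rw [mul_N]
  refine Gp.ext ?_ ?_ rfl <;> dsimp only <;> ring

theorem Rel.inv {m z f : L} {v : Gp} (h : Rel m z f v) : Rel m z (-f) v⁻¹ := by
  obtain ⟨y, hy, rfl⟩ := h
  refine ⟨_, neg_mem hy, ?_⟩
  rw [inv_N]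
  refine Gp.ext ?_ ?_ rfl <;> dsimp only <;> ring

theorem Rel.conj {m z f : L} {v : Gp} (h : Rel m z f v) (x : Gp) :
    Rel m z (T (-x.k) * f) (x⁻¹ * v * x) := by
  obtain ⟨y, hy, rfl⟩ := h
  refine ⟨_, Ideal.mul_mem_left _ (T (-x.k))
    (add_mem hy (Ideal.mul_mem_left _ 2 (om_mem f m x.m))), ?_⟩
  rw [conj_N]
  refine Gp.ext ?_ ?_ rfl <;> dsimp only <;> ring

theorem W_step {M : Set Gp} (hM : Maximal (fun Q : Set Gp => WA Q) M) (m z : L) :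
    (∀ f, 0 < ε f → ∀ y ∈ I m, (⟨f * m, f * z + y, 0⟩ : Gp) ∈ M) ∨
      ∃ f, 0 < ε f ∧ ∃ y ∈ I m, (⟨-f * m, -f * z + y, 0⟩ : Gp) ∈ M := by
  rcases max_step hM {w | ∃ f, 0 < ε f ∧ Rel m z f w} (by
    rintro a ⟨f, hf, h⟩ b ⟨g, hg, h'⟩
    exact ⟨f + g, by rw [map_add]; omega, h.mul h'⟩) (by
    rintro a ⟨f, hf, h⟩ x
    exact ⟨_, by simpa using hf, h.conj x⟩) (by
    rintro a ⟨f, hf, h⟩ x y
    exact ⟨_, by simpa using hf, ((h.conj x).inv.mul (h.conj y)).mul h⟩) with h | ⟨a, ⟨f, hf, h⟩, ha⟩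
  · exact Or.inl fun f hf y hy => h ⟨f, hf, y, hy, rfl⟩
  · obtain ⟨y, hy, e⟩ := h.inv
    exact Or.inr ⟨f, hf, y, hy, e ▸ ha⟩

theorem small {P : Set Gp} (h : WA P) {m z : L} (hb : (⟨m, z, 0⟩ : Gp) ∈ P) {y : L} (hy : y ∈ I m) :
    ∃ j : ℕ, ∀ c : ℤ, (⟨j * m, j * z + 2 * c * y, 0⟩ : Gp) ∈ P := by
  let J : L → Prop := fun y => ∃ j : ℕ, ∀ c : ℤ, (⟨j * m, j * z + 2 * c * y, 0⟩ : Gp) ∈ P
  have hadd : ∀ y y', J y → J y' → J (y + y') := by
    rintro y y' ⟨j, hj⟩ ⟨j', hj'⟩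
    refine ⟨j + j', fun c => ?_⟩
    have h1 := h.mul _ (hj c) _ (hj' c)
    have h2 := om_int_left j m (j' * m)
    have h3 := om_int_right j' m m
    rw [om_self, Int.cast_natCast, mul_zero] at h3
    rw [h3, Int.cast_natCast, mul_zero] at h2
    rw [mul_N, h2] at h1
    refine mem_of h1 ?_ ?_ <;> push_cast <;> ring
  suffices ∀ r, J (r * y) by simpa using this 1
  induction hy using Submodule.span_induction with
  | mem _ hx =>
    obtain ⟨x, rfl⟩ := hx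
    intro r
    induction r using LaurentPolynomial.induction_on' with
    | add p q hp hq => rw [add_mul]; exact hadd _ _ hp hq
    | C_mul_T n a =>
      refine ⟨2, fun c => ?_⟩
      have h1 := h.mul _ (h.conj _ hb ⟨(c * a : ℤ) * x, 0, -n⟩) _ (h.wa _ hb ⟨0, 0, -n⟩)
      have h2 := om_int_right 2 m m
      rw [conj_N, conj_N, pow_N, inv_N, ← mul_assoc, mul_N, mul_N, om_int_right, om_neg_right,
        om_self, add_neg_cancel, om_zero_left] at h1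
      rw [C_eq]
      refine mem_of h1 ?_ ?_ <;> simp <;> ring
  | zero => exact fun r => ⟨0, fun c => by simpa [one_def] using h.one⟩
  | add _ _ _ _ h1 h2 => exact fun r => by rw [mul_add]; exact hadd _ _ (h1 r) (h2 r)
  | smul s _ _ h1 => exact fun r => by rw [smul_eq_mul, ← mul_assoc]; exact h1 _

theorem W_sub {M : Set Gp} (hM : Maximal (fun Q : Set Gp => WA Q) M) {m z : L}
    (hb : (⟨m, z, 0⟩ : Gp) ∈ M) (h0 : m ≠ 0 ∨ z ≠ 0) {f : L} (hf : 0 < ε f) {y : L} (hy : y ∈ I m) :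
    (⟨f * m, f * z + y, 0⟩ : Gp) ∈ M := by
  have h := hM.prop
  refine ((W_step hM m z).resolve_right ?_) f hf y hy
  rintro ⟨f, hf, y, hy, ha⟩
  let Q : L → Prop := fun f => ∃ w ∈ M, Rel m z f w
  have Qadd : ∀ f g, Q f → Q g → Q (f + g) := by
    rintro f g ⟨v, hv, h1⟩ ⟨w, hw, h2⟩
    exact ⟨_, h.mul _ hv _ hw, h1.mul h2⟩
  let S : Subsemiring L :=
    { carrier := {s | ∀ f, Q f → Q (s * f)}
      one_mem' := fun f hf => by rwa [one_mul]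
      mul_mem' := fun h1 h2 f hf => by rw [mul_assoc]; exact h1 _ (h2 _ hf)
      zero_mem' := fun f _ => ⟨1, h.one, 0, zero_mem _, by simp [one_def]⟩
      add_mem' := fun h1 h2 f hf => by rw [add_mul]; exact Qadd _ _ (h1 f hf) (h2 f hf) }
  obtain ⟨N, hN⟩ := krivine S (f := 2 * f - 1) (by
    rintro k g ⟨w, hw, h1⟩
    exact ⟨_, h.conj _ hw ⟨0, 0, -k⟩, by simpa using h1.conj ⟨0, 0, -k⟩⟩) (by
    rintro k g ⟨w, hw, h1⟩
    refine ⟨_, h.wa _ hw ⟨0, 0, -k⟩, ?_⟩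
    rw [pow_two]
    refine (congrArg (Rel m z · _) ?_).mp ((h1.conj ⟨0, 0, -k⟩).inv.mul (h1.mul h1))
    simp; ring) (by simp [map_ofNat]; omega)
  have q1 := hN 1 ⟨_, hb, 0, zero_mem _, by simp⟩
  have q2 := natCast_mem S (2 * (N + 1)) (-f) ⟨_, ha, y, hy, rfl⟩
  obtain ⟨_, hw, y', hy', rfl⟩ := Qadd _ _ q1 q2
  obtain ⟨j, hj⟩ := small h hb hy'
  have h1 := h.mul _ (h.pow hw (2 * (j + 1))) _ (hj (-(j + 1 : ℕ)))
  have h2 : ((⟨m, z, 0⟩ : Gp) ^ (2 * (j + 1) * N + j + 2))⁻¹ ∈ M := by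
    rw [pow_N, inv_N]
    rw [pow_N, mul_N] at h1
    have e : om (((2 * (j + 1) : ℕ) : L) * ((((N + 1 : ℕ) : L) * (2 * f - 1) * 1 +
        ((2 * (N + 1) : ℕ) : L) * -f) * m)) (j * m) = 0 := by
      have h3 := om_int_left (-(2 * (j + 1) * (N + 1))) m (j * m)
      have h4 := om_int_right j m m
      rw [om_self, Int.cast_natCast, mul_zero] at h4
      rw [h4, mul_zero] at h3
      rw [← h3]
      congr 1
      push_cast; ring
    rw [e] at h1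
    refine mem_of h1 ?_ ?_ <;> push_cast <;> ring
  have h3 := h.anti _ (h.pow hb _) h2
  rw [pow_N, one_def, Gp.mk.injEq] at h3
  have h4 : ((2 * (j + 1) * N + j + 2 : ℕ) : L) ≠ 0 := fun e => by
    have := congrArg ε e
    rw [map_natCast, map_zero] at this
    omega
  exact h0.elim (fun h5 => h5 ((mul_eq_zero.1 h3.1).resolve_left h4))
    fun h5 => h5 ((mul_eq_zero.1 h3.2.1).resolve_left h4)

theorem ne_of_ε {f : L} (h : ε f ≠ 0) : f ≠ 0 := fun e => h (by rw [e, map_zero])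

theorem center_contra {M : Set Gp} (hM : Maximal (fun Q : Set Gp => WA Q) M) {u v : L}
    (hu : (⟨0, u, 0⟩ : Gp) ∈ M) (hv : (⟨0, v, 0⟩ : Gp) ∈ M) (h1 : 0 < ε u) (h2 : ε v < 0) :
    False := by
  have a := W_sub hM hu (Or.inr (ne_of_ε h1.ne')) (f := -v) (by simpa using h2) (zero_mem _)
  have b := W_sub hM hv (Or.inr (ne_of_ε h2.ne)) (f := u) h1 (zero_mem _)
  have := hM.prop.anti _ b (by
    rw [inv_N]
    refine mem_of a ?_ ?_ <;> simp [mul_comm])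
  rw [one_def, Gp.mk.injEq, add_zero] at this
  exact mul_ne_zero (ne_of_ε h1.ne') (ne_of_ε h2.ne) this.2.1

theorem total_N {M : Set Gp} (hM : Maximal (fun Q : Set Gp => WA Q) M) (m z : L) :
    (⟨m, z, 0⟩ : Gp) ∈ M ∨ (⟨-m, -z, 0⟩ : Gp) ∈ M := by
  have h := hM.prop
  by_cases h0 : m = 0 ∧ z = 0
  · left; rw [h0.1, h0.2]; exact h.one
  rcases W_step hM m z with h1 | ⟨f, hf, y, hy, ha⟩
  · exact Or.inl (by simpa using h1 1 (by simp) 0 (zero_mem _))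
  rcases W_step hM (-m) (-z) with h1 | ⟨g, hg, y', hy', hb⟩
  · exact Or.inr (by simpa using h1 1 (by simp) 0 (zero_mem _))
  exfalso
  have hy'' : y' ∈ I m := by
    refine (Ideal.span_le.2 ?_ : I (-m) ≤ I m) hy'
    rintro _ ⟨x, rfl⟩
    simpa using om_mem (-1) m x
  have hf0 := ne_of_ε hf.ne'
  have hg0 := ne_of_ε hg.ne'
  have ne : ∀ f y : L, f ≠ 0 → y ∈ I m → f * m ≠ 0 ∨ f * z + y ≠ 0 := fun f y hf hy => by
    by_cases hm : m = 0
    · subst hm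
      rw [I_zero hy, add_zero]
      exact Or.inr (mul_ne_zero hf fun e => h0 ⟨rfl, e⟩)
    · exact Or.inl (mul_ne_zero hf hm)
  rw [neg_mul_neg, neg_mul_neg] at hb
  have b := W_sub hM hb (ne g y' hg0 hy'') hf (zero_mem _)
  have e : om (g * (-f * m)) (f * (g * m)) = 0 := by
    rw [show g * (-f * m) = -(f * (g * m)) by ring, om_neg_left, om_self, neg_zero]
  have key : ∀ y₁ ∈ I (-f * m), (⟨0, g * y + f * y' + y₁, 0⟩ : Gp) ∈ M := fun y₁ h₁ => by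
    have := h.mul _ (W_sub hM ha (ne _ y (neg_ne_zero.2 hf0) hy) hg h₁) _ b
    rw [mul_N, e] at this
    refine mem_of this ?_ ?_ <;> ring
  have hw : g * y + f * y' ∈ I m := add_mem (Ideal.mul_mem_left _ _ hy) (Ideal.mul_mem_left _ _ hy'')
  have hN : 0 < ε (2 * Nm (-f) - 1) := by
    simp only [map_sub, map_mul, map_ofNat, ε_Nm, map_neg, map_one]
    nlinarith
  have w0 : g * y + f * y' = 0 := by
    by_contra hne
    have k1 := key 0 (zero_mem _)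
    rw [add_zero] at k1
    have k2 := W_sub hM k1 (Or.inr hne) hN (zero_mem _)
    have k3 := key _ (Ideal.mul_mem_left _ (-2) (Nm_mem (-f) m hw))
    have := h.anti _ k2 (by
      rw [inv_N]
      refine mem_of k3 ?_ ?_ <;> ring)
    rw [one_def, Gp.mk.injEq, add_zero] at this
    exact mul_ne_zero (ne_of_ε hN.ne') hne this.2.1
  have := h.anti _ b (by
    rw [inv_N]
    refine mem_of (W_sub hM ha (ne _ y (neg_ne_zero.2 hf0) hy) hg (zero_mem _)) ?_ ?_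
    · ring
    · linear_combination w0)
  rw [one_def, Gp.mk.injEq, add_zero] at this
  exact (ne g y' hg0 hy'').elim (fun h5 => mul_ne_zero hf0 h5 this.1)
    fun h5 => mul_ne_zero hf0 h5 this.2.1

theorem level_contra {M : Set Gp} (hM : Maximal (fun Q : Set Gp => WA Q) M) {f g u v : L}
    (ha : (⟨(T 1 - 1) * f, u, 0⟩ : Gp) ∈ M) (hb : (⟨(T 1 - 1) * g, v, 0⟩ : Gp) ∈ M)
    (hf : 0 < ε f) (hg : ε g < 0) : False := by
  have h := hM.prop
  have σ0 : (T 1 - 1 : L) ≠ 0 := fun e => by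
    have := congrArg ev e
    rw [map_sub, ev_T, map_one, map_zero] at this
    norm_num at this
  have b := W_sub hM hb (Or.inl (mul_ne_zero σ0 (ne_of_ε hg.ne))) hf (zero_mem _)
  have e : om (-g * ((T 1 - 1) * f)) (f * ((T 1 - 1) * g)) = 0 := by
    rw [show -g * ((T 1 - 1) * f) = -(f * ((T 1 - 1) * g)) by ring, om_neg_left, om_self, neg_zero]
  have hN : Nm f ∈ I ((T 1 - 1) * f) := by
    refine Ideal.subset_span ⟨f, ?_⟩
    have := om_mul f (T 1 - 1) 1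
    rwa [sub_eq_add_neg, om_add_left, om_neg_left, om_T, om_self, neg_zero, add_zero, mul_one, mul_one,
      mul_comm, ← sub_eq_add_neg] at this
  have key : ∀ c : ℤ, (⟨0, -g * u + f * v + c * Nm f, 0⟩ : Gp) ∈ M := fun c => by
    have := h.mul _ (W_sub hM ha (Or.inl (mul_ne_zero σ0 (ne_of_ε hf.ne'))) (f := -g)
      (by simpa using hg) (Ideal.mul_mem_left _ (c : L) hN)) _ b
    rw [mul_N, e] at this
    refine mem_of this ?_ ?_ <;> ring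
  obtain ⟨r, hr⟩ : ∃ r, r = ε (-g * u + f * v) := ⟨_, rfl⟩
  have h1 : 1 ≤ ε f ^ 2 := by nlinarith
  refine center_contra hM (key (|r| + 1)) (key (-(|r| + 1))) ?_ ?_
  · rw [map_add, ← hr, map_mul, map_intCast, ε_Nm, Int.cast_id]
    nlinarith [neg_abs_le r, abs_nonneg r]
  · rw [map_add, ← hr, map_mul, map_intCast, ε_Nm, Int.cast_id]
    nlinarith [le_abs_self r, abs_nonneg r]

noncomputable def χ : Gp →* Multiplicative (ℤ × ℤ) :=
  MonoidHom.mk' (fun a => Multiplicative.ofAdd (ε a.m, a.k)) fun a b => by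
    rw [← ofAdd_add]
    simp [mul_def]

theorem total {M : Set Gp} (hM : Maximal (fun Q : Set Gp => WA Q) M) (g : Gp) :
    g ∈ M ∨ g⁻¹ ∈ M := by
  have h := hM.prop
  by_cases hk : g.k = 0
  · obtain ⟨m, z, k⟩ := g
    subst hk
    rw [inv_N]
    exact total_N hM m z
  have step : ∀ g : Gp, g ∈ M ∨ ∃ a ∈ M, ∃ n : ℕ, χ a = (χ g ^ (n + 1))⁻¹ := fun g => by
    rcases max_step hM {w | ∃ n : ℕ, χ w = χ g ^ (n + 1)} (by
      rintro a ⟨n, hn⟩ b ⟨n', hn'⟩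
      exact ⟨n + 1 + n', by rw [map_mul, hn, hn', ← pow_add, add_assoc (n + 1)]⟩) (by
      rintro a ⟨n, hn⟩ x
      exact ⟨n, by rw [← hn]; simp⟩) (by
      rintro a ⟨n, hn⟩ x y
      exact ⟨n, by rw [← hn]; simp⟩) with h1 | ⟨a, ⟨n, hn⟩, ha⟩
    · exact Or.inl (h1 ⟨0, by simp⟩)
    · exact Or.inr ⟨_, ha, n, by rw [map_inv, hn]⟩
  refine (step g).imp id ?_
  rintro ⟨a, ha, n, hn⟩
  refine (step g⁻¹).resolve_right ?_
  rintro ⟨b, hb, n', hn'⟩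
  obtain ⟨A, hA⟩ : ∃ A, A = a ^ (n' + 1) := ⟨_, rfl⟩
  obtain ⟨B, hB⟩ : ∃ B, B = b ^ (n + 1) := ⟨_, rfl⟩
  have hAM : A ∈ M := hA ▸ h.pow ha _
  have hBM : B ∈ M := hB ▸ h.pow hb _
  have e1 : χ A = (χ g ^ ((n + 1) * (n' + 1)))⁻¹ := by rw [hA, map_pow, hn, inv_pow, ← pow_mul]
  have e2 : χ B = χ g ^ ((n + 1) * (n' + 1)) := by
    rw [hB, map_pow, hn', map_inv, inv_pow (χ g), inv_inv, ← pow_mul, mul_comm]
  have e3 : χ B = (χ A)⁻¹ := by rw [e1, e2, inv_inv]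
  have e4 : ε B.m = -ε A.m := congrArg (fun x => (Multiplicative.toAdd x).1) e3
  have e5 : B.k = -A.k := congrArg (fun x => (Multiplicative.toAdd x).2) e3
  have e6 : A.k ≠ 0 := by
    have : B.k = ((n + 1) * (n' + 1)) • g.k := congrArg (fun x => (Multiplicative.toAdd x).2) e2
    intro e
    rw [e5, e, neg_zero, nsmul_eq_mul] at this
    exact mul_ne_zero (by positivity) hk this.symm
  obtain ⟨f₀, hf₀⟩ := exists_div (A.m + T A.k * B.m)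
  rw [map_add, map_mul, ε_T, one_mul, e4, add_neg_cancel, Int.cast_zero, zero_add] at hf₀
  obtain ⟨η, hη, hη'⟩ := exists_h A.k
  have key : ∀ c : ℤ, ∃ u, (⟨(T 1 - 1) * (f₀ - (c : L) * η), u, 0⟩ : Gp) ∈ M := fun c => by
    have := h.mul _ hAM _ (h.conj _ hBM ⟨c, 0, 0⟩)
    simp only [mul_def, inv_def, neg_zero, T_zero, zero_add, one_mul, e5, add_zero,
      add_neg_cancel] at this
    refine ⟨_, mem_of this ?_ rfl⟩
    linear_combination hf₀ - (c : L) * hη + (c : L) * TT A.k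
  obtain ⟨u, hu⟩ := key (-((|ε f₀| + 1) * A.k))
  obtain ⟨v, hv⟩ := key ((|ε f₀| + 1) * A.k)
  have h1 : 1 ≤ A.k * A.k := by have := mul_self_pos.2 e6; omega
  refine level_contra hM hu hv ?_ ?_
  · rw [map_sub, map_mul, map_intCast, hη', Int.cast_id]
    nlinarith [neg_abs_le (ε f₀), abs_nonneg (ε f₀)]
  · rw [map_sub, map_mul, map_intCast, hη', Int.cast_id]
    nlinarith [le_abs_self (ε f₀), abs_nonneg (ε f₀)]

theorem wstar (P : Set Gp) (h : WA P) : ∃ Q, P ⊆ Q ∧ WA Q ∧ ∀ a, a ∈ Q ∨ a⁻¹ ∈ Q := by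
  obtain ⟨M, h1, h2⟩ := exists_max h
  exact ⟨M, h1, h2.prop, total h2⟩

def P₀ : Set Gp := {a | a = 1 ∨ ∃ f z, 0 < ev z ∧ a = ⟨(T 1 * T 1 + 2) * f, z, 0⟩}

theorem P₀_mul : ∀ a ∈ P₀, ∀ b ∈ P₀, a * b ∈ P₀ := by
  rintro a (rfl | ⟨f, z, hz, rfl⟩) b hb
  · rwa [one_mul]
  rcases hb with rfl | ⟨f', z', hz', rfl⟩
  · exact Or.inr ⟨f, z, hz, mul_one _⟩
  · refine Or.inr ⟨f + f', _, ?_, by rw [mul_N, mul_add]⟩
    rw [map_add, map_add, ev_om]; linarith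

theorem P₀_anti : ∀ a ∈ P₀, a⁻¹ ∈ P₀ → a = 1 := by
  rintro a (rfl | ⟨f, z, hz, rfl⟩) hb
  · rfl
  rcases hb with h | ⟨f', z', hz', h⟩
  · exact inv_eq_one.1 h
  · rw [inv_N, Gp.mk.injEq] at h
    rw [← h.2.1, map_neg] at hz'
    linarith

theorem P₀_conj : ∀ a ∈ P₀, ∀ x : Gp, x⁻¹ * a * x ∈ P₀ := by
  rintro a (rfl | ⟨f, z, hz, rfl⟩) x
  · exact Or.inl (by simp)
  · refine Or.inr ⟨T (-x.k) * f, _, ?_, by rw [conj_N, mul_left_comm]⟩
    rw [map_mul, map_add, map_mul, ev_om, ev_T, mul_zero, add_zero]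
    positivity

theorem P₀_not (Q : Set Gp) (h0 : P₀ ⊆ Q) (h1 : ∀ a ∈ Q, ∀ b ∈ Q, a * b ∈ Q)
    (h2 : ∀ a ∈ Q, a⁻¹ ∈ Q → a = 1) (h3 : ∀ a ∈ Q, ∀ x : Gp, x⁻¹ * a * x ∈ Q)
    (h4 : ∀ a, a ∈ Q ∨ a⁻¹ ∈ Q) : False := by
  obtain ⟨e, he, ha⟩ : ∃ e : ℤ, e * e = 1 ∧ (⟨e * 1, 0, 0⟩ : Gp) ∈ Q := by
    rcases h4 ⟨1, 0, 0⟩ with h | h
    · exact ⟨1, rfl, by simpa using h⟩
    · exact ⟨-1, rfl, by simpa [inv_N] using h⟩
  have key : ∀ c : ℤ, ∃ z : L, ev z = ev (om ((e : L) * 1 + e * 1) (T 2 * ((e : L) * 1))) - 2 * (e * c) ∧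
      (⟨(T 1 * T 1 + 2) * (e : L), z, 0⟩ : Gp) ∈ Q := fun c => by
    have := h1 _ (h1 _ ha _ (h3 _ ha ⟨(c : L) * T 1, 0, 0⟩)) _ (h3 _ ha ⟨0, 0, -2⟩)
    rw [conj_N, conj_N] at this
    simp only [neg_zero, T_zero, one_mul, neg_neg, mul_N, om_self, om_zero_right, om_int_left,
      om_int_right, om_swap 1 (T 1), om_T] at this
    refine ⟨_, ?_, mem_of this ?_ rfl⟩
    · simp [map_ofNat]; ring
    · rw [← T_add]; norm_num; ring
  obtain ⟨r, hr⟩ : ∃ r, r = ev (om ((e : L) * 1 + e * 1) (T 2 * ((e : L) * 1))) := ⟨_, rfl⟩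
  obtain ⟨n, hn⟩ := exists_nat_gt r
  obtain ⟨z, hz, hQ⟩ := key (e * n)
  have he' : (e : ℚ) * e = 1 := by exact_mod_cast he
  have hz' : ev z < 0 := by
    rw [hz, ← hr]
    push_cast
    rw [← mul_assoc (e : ℚ), he']
    linarith [(Nat.cast_nonneg n : (0 : ℚ) ≤ n)]
  have := h2 _ hQ (h0 (Or.inr ⟨-(e : L), -z, by rw [map_neg]; linarith, by rw [inv_N, mul_neg]⟩))
  rw [one_def, Gp.mk.injEq] at this
  rw [this.2.1, map_zero] at hz'
  exact lt_irrefl _ hz'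

end Pool.Agent.H22.WStar
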