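import Pool.Agent.H22.Crit2

namespace Pool.Agent.H22.Comp

open Function Subgroup
open scoped commutatorElement

variable {G H : Type} [Group G] [Group H] {C J N K : Subgroup G}

structure Sh (C : Subgroup G) : Prop where
  sn : C.IsSubnormal
  ne : C ≠ ⊥
  pf : ⁅C, C⁆ = C
  hd : ∀ L M, C ≤ Nm L → C ≤ Nm M → L ⊔ M = C → L = C ∨ M = C

def Sm (C : Subgroup G) : Prop := ∀ L ≤ C, C ≤ Nm L → L = ⊥ ∨ L = C

def Sc (C : Subgroup G) : Prop := Sh C ∧ Sm C

theorem mk_sc (a : C.IsSubnormal) (b : C ≠ ⊥) (c : ⁅C, C⁆ = C) (d : Sm C) : Sc C :=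
  ⟨⟨a, b, c, fun L M u _ e => (d L (e ▸ le_sup_left) u).symm.imp_right fun x => by
    rwa [x, bot_sup_eq] at e⟩, d⟩

theorem Sh.nab (h : Sh C) : ¬ C ≤ Ce C := fun c =>
  h.ne (h.pf.symm.trans (commutator_eq_bot_iff_le_centralizer.2 c))

theorem nm_inf (a : C ≤ Nm N) : C ≤ Nm (N ⊓ C) := fun _ u =>
  inf_normalizer_le_normalizer_inf ⟨a u, le_normalizer u⟩

theorem cm_inf {L : Subgroup G} (a : C ≤ Nm N) (b : C ≤ L) (h : L ≤ K) (n : (L.subgroupOf K).Normal) {x c : G}
    (u : x ∈ N ⊓ K) (v : c ∈ C) : ⁅x, c⁆ ∈ N ⊓ L :=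
  mem_inf.2 ⟨by simpa only [commutatorElement_def, mul_assoc] using N.mul_mem u.1 (nm1 (a v) (N.inv_mem u.1)),
    L.mul_mem (nm1 (le_normalizer_of_normal_subgroupOf h u.2) (b v)) (L.inv_mem (b v))⟩

theorem k1 (p : ⁅C, C⁆ = C) (n : C ≤ Nm N) (h : K.IsSubnormal) (l : C ≤ K) (e : N ⊓ K ≤ Ce C) :
    N ≤ Ce C := by
  induction h with
  | top => simpa using e
  | step L K a _ b ih =>
    exact ih (l.trans a) (three p ((commutator_le.2 fun x u c v => cm_inf n l a b u v).trans e))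

theorem Sc.dich (h : Sc C) (n : N.IsSubnormal) : C ≤ N ∨ N ≤ Ce C := by
  induction n with
  | top => exact Or.inl le_top
  | step N K a _ b ih =>
    refine ih.elim (fun l => ?_) fun l => Or.inr (a.trans l)
    have m := l.trans (le_normalizer_of_normal_subgroupOf a)
    exact (h.2 _ inf_le_right (nm_inf m)).symm.imp inf_eq_right.1 fun e =>
      k1 h.1.pf m h.1.sn le_rfl (e.le.trans bot_le)

theorem Sc.comm (h : Sc C) (j : Sc J) (e : C ≠ J) : J ≤ Ce C :=
  (h.dich j.1.sn).resolve_left fun l => (j.dich h.1.sn).elim (fun m => e (l.antisymm m)) fun c =>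
    h.1.nab (c.trans (centralizer_le l))

theorem Sh.two (h : Sh C) (M N : Subgroup G) [M.Normal] [N.Normal] (l : C ≤ M ⊔ N) : C ≤ M ∨ C ≤ N := by
  have k : ∀ K : Subgroup G, K.IsSubnormal → C ≤ K → C ≤ M ⊓ K ⊔ N ⊓ K := fun K s => by
    induction s with
    | top => simpa using l
    | step L K a _ b ih =>
      have n : ∀ x ∈ K, x ∈ Nm (M ⊓ L ⊔ N ⊓ L) := fun x u => normalizer_inf_normalizer_le_normalizer_sup _ _
        ⟨inf_normalizer_le_normalizer_inf ⟨le_normalizer_of_normal (mem_top x),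
          le_normalizer_of_normal_subgroupOf a u⟩, inf_normalizer_le_normalizer_inf
          ⟨le_normalizer_of_normal (mem_top x), le_normalizer_of_normal_subgroupOf a u⟩⟩
      exact fun e => h.pf.ge.trans (commutator_le.2 fun x u c v => ((sup_le
        (fun y w => ⟨n y w.2, mem_sup_left (cm_inf le_normalizer_of_normal e a b w v)⟩)
        fun y w => ⟨n y w.2, mem_sup_right (cm_inf le_normalizer_of_normal e a b w v)⟩ :
          M ⊓ K ⊔ N ⊓ K ≤ Cm (M ⊓ L ⊔ N ⊓ L) c) (ih (e.trans a) u)).2)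
  exact (h.hd _ _ (nm_inf le_normalizer_of_normal) (nm_inf le_normalizer_of_normal) (le_antisymm
    (sup_le inf_le_right inf_le_right) (k C h.sn le_rfl))).imp inf_eq_right.1 inf_eq_right.1

theorem Sh.mem (h : Sh C) {S : Set (Subgroup G)} (s : ∀ J ∈ S, J = ⊥ ∨ Sc J) (l : C ≤ sSup S) : C ∈ S := by
  by_contra c
  refine h.nab (l.trans (sSup_le fun J j => (s J j).elim (fun e => e ▸ bot_le) fun k =>
    le_centralizer_iff.1 ((k.dich h.sn).resolve_left fun a => ?_)))
  have b : C ≤ J ⊔ Ce J := l.trans (sSup_le fun I i => (s I i).elim (fun e => e ▸ bot_le) fun u => by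
    by_cases e : J = I
    exacts [e ▸ le_sup_left, le_sup_of_le_right (k.comm u e)])
  have n : C ≤ Nm J := b.trans (sup_le le_normalizer (centralizer_le_normalizer _))
  refine (h.hd J (Ce J ⊓ C) n (nm_inf (n.trans nm_ce)) (le_antisymm (sup_le a inf_le_right)
    fun x u => ?_)).elim (fun e => c (e ▸ j)) fun e => k.1.nab (a.trans (inf_eq_right.1 e))
  obtain ⟨y, v, z, w, rfl⟩ := (coe_mul_of_right_le_normalizer_left J _ (centralizer_le_normalizer _)).le (b u)
  exact mul_mem (mem_sup_left v) (mem_sup_right ⟨w, (mul_mem_cancel_left (a v)).1 u⟩)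

theorem nm_map (f : G →* H) {L : Subgroup G} (a : C ≤ Nm L) : C.map f ≤ Nm (L.map f) :=
  (map_mono a).trans (le_normalizer_map f)

theorem nm_pull (f : G →* H) {L : Subgroup H} (a : C.map f ≤ Nm L) : C ≤ Nm (L.comap f ⊓ C) :=
  nm_inf ((map_le_iff_le_comap.1 a).trans (le_normalizer_comap f))

theorem map_pull (f : G →* H) {L : Subgroup H} (a : L ≤ C.map f) : (L.comap f ⊓ C).map f = L :=
  le_antisymm (map_le_iff_le_comap.2 inf_le_left) fun x u => by
    obtain ⟨y, v, rfl⟩ := a u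
    exact ⟨y, ⟨u, v⟩, rfl⟩

theorem cov {B : Type} [Group B] (f : G →* H) (g : G →* B) {L : Subgroup G} (a : L ≤ C)
    (b : C.map f ≤ L.map f) (c : (C ⊓ f.ker).map g ≤ L.map g) : C.map g = L.map g :=
  le_antisymm (by
    rintro _ ⟨x, u, rfl⟩
    obtain ⟨y, v, e⟩ := b ⟨x, u, rfl⟩
    rw [← mul_inv_cancel_left y x, map_mul]
    exact mul_mem ⟨y, v, rfl⟩ (c ⟨_, ⟨C.mul_mem (C.inv_mem (a v)) u, by simp [e]⟩, rfl⟩)) (map_mono a)

theorem Sh.map (h : Sh C) (f : G →* H) (n : C.map f ≠ ⊥) (s : (C.map f).IsSubnormal) : Sh (C.map f) := by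
  refine ⟨s, n, by rw [← map_commutator, h.pf], fun L M a b e => ?_⟩
  have l := map_pull f (le_sup_left.trans e.le)
  have m := map_pull f (le_sup_right.trans e.le)
  refine (h.hd _ _ (nm_pull f a) (nm_pull f b) ?_).imp (fun c => by rw [← l, c]) fun c => by rw [← m, c]
  simpa using (cov f (.id G) (sup_le inf_le_right inf_le_right) (by rw [Subgroup.map_sup, l, m, e])
    (map_mono fun x u => mem_sup_left ⟨by simp [show f x = 1 from u.2], u.1⟩)).symm

theorem Sc.map (h : Sc C) (f : G →* H) (n : C.map f ≠ ⊥) (s : (C.map f).IsSubnormal) : Sc (C.map f) :=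
  ⟨h.1.map f n s, fun L a b => (h.2 _ inf_le_right (nm_pull f b)).imp
    (fun c => by rw [← map_pull f a, c, Subgroup.map_bot]) fun c => by rw [← map_pull f a, c]⟩

theorem Sm.comap {f : G →* H} (i : Injective f) (h : Sm (C.map f)) : Sm C := fun L a b =>
  (h _ (map_mono a) (nm_map f b)).imp (map_eq_bot_iff_of_injective _ i).1 fun e => map_injective i e

theorem Sh.sub (h : Sh C) (l : C ≤ N) : Sh (C.subgroupOf N) := by
  have i := map_injective (subtype_injective N)
  have e := map_subgroupOf_eq_of_le l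
  exact ⟨h.sn.subgroupOf, fun c => h.ne (by rw [← e, c, Subgroup.map_bot]), i (by rw [map_commutator, e, h.pf]),
    fun L M a b c => (h.hd _ _ (e ▸ nm_map N.subtype a) (e ▸ nm_map N.subtype b) (by
      rw [← Subgroup.map_sup, c, e])).imp (fun c => i (c.trans e.symm)) fun c => i (c.trans e.symm)⟩

theorem Sc.sub (h : Sc C) (l : C ≤ N) : Sc (C.subgroupOf N) :=
  ⟨h.1.sub l, Sm.comap (subtype_injective N) ((map_subgroupOf_eq_of_le l).symm ▸ h.2)⟩

theorem Sh.lift [Finite G] {J : Subgroup H} (h : Sh J) (f : G →* H) (hf : Surjective f) :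
    ∃ C, Sh C ∧ C.map f = J := by
  obtain ⟨C, ⟨a, b⟩, c⟩ := (wellFounded_lt (α := Subgroup G)).has_min {C | C.IsSubnormal ∧ C.map f = J}
    ⟨J.comap f, h.sn.comap f, map_comap_eq_self_of_surjective hf J⟩
  have m : ∀ L ≤ C, C ≤ Nm L → L.map f = J → L = C := fun L u v w => u.eq_or_lt.resolve_right
    (c L ⟨.step L C u a (normal_subgroupOf_of_le_normalizer v), w⟩)
  exact ⟨C, ⟨a, fun e => h.ne (by rw [← b, e, Subgroup.map_bot]), m _ (commutator_le_self C)
    (normalizer_commutator_ge_left C C) (by rw [map_commutator, b, h.pf]), fun L M u v e =>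
      (h.hd _ _ (b ▸ nm_map f u) (b ▸ nm_map f v) (by rw [← Subgroup.map_sup, e, b])).imp
        (m L (e ▸ le_sup_left) u) (m M (e ▸ le_sup_right) v)⟩, b⟩

theorem Sc.inj (h : Sc C) (j : Sc J) (f : G →* H) (n : C.map f ≠ ⊥) (e : C.map f ≤ J.map f) : C = J :=
  not_not.1 fun c => n (by
    rw [← h.1.pf, map_commutator, commutator_eq_bot_iff_le_centralizer]
    refine e.trans ?_
    rintro _ ⟨x, u, rfl⟩
    exact ce_map f (h.comm j c u))

abbrev cj (g : G) (C : Subgroup G) : Subgroup G := C.map (MulAut.conj g).toMonoidHom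

theorem cj_mul (g h : G) (C : Subgroup G) : cj (g * h) C = cj g (cj h C) := by
  simp only [cj, map_map]
  congr 1
  ext
  simp [mul_assoc]

theorem cj_map (f : G →* H) (g : G) (C : Subgroup G) : (cj g C).map f = cj (f g) (C.map f) := by
  simp only [cj, map_map]
  congr 1
  ext
  simp

theorem cj_eq {g : G} : g ∈ Nm C ↔ cj g C = C := mem_normalizer_iff_map_conj_eq

theorem Sh.cj (h : Sh C) (g : G) : Sh (cj g C) :=
  h.map _ (mt (map_eq_bot_iff_of_injective _ (MulAut.conj g).injective).1 h.ne)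
    (h.sn.map (MulAut.conj g).surjective)

theorem Sc.cj (h : Sc C) (g : G) : Sc (cj g C) := h.map _ (h.1.cj g).ne (h.1.cj g).sn

theorem Sc.nm (h : Sc C) (f : G →* H) (n : C.map f ≠ ⊥) : (Nm (C.map f)).comap f = Nm C :=
  le_antisymm (fun g u => cj_eq.2 (h.inj (h.cj g) f n (by rw [cj_map, cj_eq.1 u])).symm)
    (map_le_iff_le_comap.1 (le_normalizer_map f))

theorem Sh.nsol (h : Sh C) (f : G →* H) [Group.IsSolvable H] : C ≤ f.ker := by
  rw [← Subgroup.map_eq_bot_iff]
  by_contra n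
  exact (Group.IsSolvable.commutator_lt_of_ne_bot n).ne (by rw [← map_commutator, h.pf])

end Pool.Agent.H22.Comp
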