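import Pool.Agent.H22.Wie

namespace Pool.Agent.H22.Comp

open Function Subgroup
open scoped commutatorElement

variable {G H : Type} [Group G] [Group H] {C J I N θ : Subgroup G} {m : ℕ}

def Pj (θ C J : Subgroup G) (a : G) : Prop := a ∈ C ∧ ∃ b ∈ J, a * b ∈ θ

def Ty (m : ℕ) (θ C J : Subgroup G) : Prop :=
  (∃ a, Pj θ C J a ∧ a ^ m ∉ θ) ∧ ∀ x ∈ C, (∀ a, Pj θ C J a → ⁅x, a⁆ ∈ θ) → x ^ m ∈ θ

def Lk (θ C J : Subgroup G) : Prop := ∃ a, Pj θ C J a ∧ a ∉ θ

def Adj (θ C J : Subgroup G) : Prop := Ty 1 θ C J ∨ Ty 1 θ J C ∨ (Ty 24 θ C J ∧ Ty 24 θ J C)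

def Rl (θ C J : Subgroup G) : Prop := C = J ∨ (C ≤ θ ∧ J ≤ θ) ∨ Adj θ C J

theorem ty_map (f : G →* H) {τ : Subgroup H} : Ty m τ (C.map f) (J.map f) ↔ Ty m (τ.comap f) C J := by
  have a : ∀ x, Pj (τ.comap f) C J x → Pj τ (C.map f) (J.map f) (f x) := fun x ⟨u, b, v, w⟩ =>
    ⟨⟨x, u, rfl⟩, _, ⟨b, v, rfl⟩, map_mul f x b ▸ w⟩
  have b : ∀ y, Pj τ (C.map f) (J.map f) y → ∃ x, Pj (τ.comap f) C J x ∧ f x = y := by
    rintro _ ⟨⟨x, u, rfl⟩, _, ⟨b, v, rfl⟩, w⟩
    exact ⟨x, ⟨u, b, v, by simpa using w⟩, rfl⟩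
  refine and_congr ⟨fun ⟨y, u, v⟩ => ?_, fun ⟨x, u, v⟩ => ⟨_, a x u, by simpa using v⟩⟩
    ⟨fun h x u v => ?_, ?_⟩
  · obtain ⟨x, w, rfl⟩ := b y u
    exact ⟨x, w, by simpa using v⟩
  · simpa using h _ ⟨x, u, rfl⟩ fun y w => by
      obtain ⟨z, r, rfl⟩ := b y w
      simpa using v z r
  · rintro h _ ⟨x, u, rfl⟩ v
    simpa using h x u fun z w => by simpa using v _ (a z w)

theorem Rl.push (f : G →* H) {τ : Subgroup H} (h : Rl (τ.comap f) C J) : Rl τ (C.map f) (J.map f) :=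
  h.imp (congrArg _) (Or.imp (And.imp map_le_iff_le_comap.2 map_le_iff_le_comap.2) fun h => by
    simpa only [Adj, ty_map] using h)

theorem Rl.pull (f : G →* H) {τ : Subgroup H} (h : Rl τ (C.map f) (J.map f)) (c : Sc C) (j : Sc J) :
    Rl (τ.comap f) C J := by
  rcases h with h | h | h
  · by_cases e : C.map f = ⊥
    · exact Or.inr (Or.inl ⟨map_le_iff_le_comap.1 (e.le.trans bot_le),
        map_le_iff_le_comap.1 ((h ▸ e).le.trans bot_le)⟩)
    · exact Or.inl (c.inj j f e h.le)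
  · exact Or.inr (Or.inl (h.imp map_le_iff_le_comap.1 map_le_iff_le_comap.1))
  · exact Or.inr (Or.inr (by simpa only [Adj, ty_map] using h))

theorem Ty.lk (h : Ty m θ C J) : Lk θ C J := h.1.imp fun _ h => ⟨h.1, mt (pow_mem · m) h.2⟩

theorem Lk.symm (h : Lk θ C J) (c : J ≤ Ce C) : Lk θ J C := by
  obtain ⟨a, ⟨u, b, v, w⟩, x⟩ := h
  exact ⟨b, ⟨v, a, u, c v a u ▸ w⟩, fun y => x ((mul_mem_cancel_right y).1 w)⟩

theorem Adj.symm (h : Adj θ C J) : Adj θ J C := by
  unfold Adj at *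
  tauto

theorem Adj.lk (h : Adj θ C J) (c : J ≤ Ce C) : Lk θ C J :=
  h.elim Ty.lk fun h => h.elim (fun h => h.lk.symm (le_centralizer_iff.1 c)) fun h => h.1.lk

theorem Adj.live (h : Adj θ C J) (c : J ≤ Ce C) : ¬ C ≤ θ := fun l => (h.lk c).elim fun _ u => u.2 (l u.1.1)

theorem Ty.pw (h : Ty m θ C J) (c : Sc C) (j : Sc J) (i : Sc I) (a : C ≠ J) (b : C ≠ I) (e : J ≠ I) {x : G}
    (u : Pj θ C I x) : x ^ m ∈ θ := by
  obtain ⟨u, y, v, w⟩ := u
  refine h.2 x u fun z ⟨p, s, q, r⟩ => ?_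
  have e1 := c.comm j a q x u
  have e2 := c.comm i b v z p
  have e3 := j.comm i e v s q
  have e4 := c.comm j a q _ (C.mul_mem (C.inv_mem u) (C.mul_mem p u))
  convert θ.mul_mem (θ.mul_mem (θ.mul_mem w r) (θ.inv_mem w)) (θ.inv_mem r) using 1
  calc _ = x * (z * s * y) * y⁻¹ * s⁻¹ * x⁻¹ * z⁻¹ := by simp only [commutatorElement_def]; group
    _ = x * (y * (z * s)) * y⁻¹ * (x * s)⁻¹ * z⁻¹ := by rw [mul_assoc z, e3, ← mul_assoc z, e2]; group
    _ = _ := by rw [e1]; group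

theorem nocyc {K L M : Subgroup G} (c : Sc C) (j : Sc J) (k : Sc K) (l : Sc L) (n : Sc M) (a1 : Adj θ J C)
    (a2 : Adj θ J K) (a3 : Adj θ C L) (a4 : Adj θ K M) (e1 : J ≠ C) (e2 : J ≠ K) (e3 : C ≠ K) (e4 : C ≠ L)
    (e5 : J ≠ L) (e6 : K ≠ M) (e7 : J ≠ M) : False := by
  have t : ∀ {C J I : Subgroup G}, Sc C → Sc J → Sc I → C ≠ J → C ≠ I → J ≠ I → Adj θ C I → ¬ Ty 1 θ C J :=
    fun c j i a b e u v => (u.lk (c.comm i b)).elim fun x w => w.2 (by simpa using v.pw c j i a b e w.1)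
  obtain ⟨⟨x, u, v⟩, -⟩ := ((a2.resolve_left (t j k c e2 e1 e3.symm a1)).resolve_left
    (t k j n e2.symm e6 e7 a4)).1
  exact v (((a1.resolve_left (t j c k e1 e2 e3 a2)).resolve_left (t c j l e1.symm e4 e5 a3)).1.pw
    j c k e1 e2 e3 u)

theorem rl_mul (M N : Subgroup G) [M.Normal] (a : ∀ C, Sc C → ∀ y ∈ M, Rl θ C (cj y C))
    (b : ∀ C, Sc C → ∀ y ∈ N, Rl θ C (cj y C)) (c : Sc C) {y z : G} (u : y ∈ M) (v : z ∈ N) :
    Rl θ C (cj (z * y) C) := by
  by_contra h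
  have j := c.cj y
  have k := c.cj (z * y)
  have l := c.cj z
  have r1 := a C c y u
  have r2 := cj_mul z y C ▸ b _ j z v
  have r3 := b C c z v
  have r4 : Rl θ (cj z C) (cj (z * y) C) := by
    simpa only [← cj_mul, inv_mul_cancel_right] using a _ l _ (Normal.conj_mem inferInstance y u z)
  have e1 : C ≠ cj y C := fun e => h (by rwa [← e] at r2)
  have e2 : cj y C ≠ cj (z * y) C := fun e => h (e ▸ r1)
  have e3 : C ≠ cj (z * y) C := fun e => h (Or.inl e)
  have e4 : C ≠ cj z C := fun e => h (by rwa [← e] at r4)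
  have e5 : cj y C ≠ cj z C := fun e => h (by
    rw [cj_mul, e, ← cj_mul]; exact b C c _ (mul_mem v v))
  have e6 : cj z C ≠ cj (z * y) C := fun e => h (e ▸ r3)
  have d : ¬ C ≤ θ := fun d => h (Or.inr (Or.inl ⟨d, ((r2.resolve_left e2).resolve_right fun x =>
    x.live (j.comm k e2) ((r1.resolve_left e1).resolve_right fun x => x.live (c.comm j e1) d).2).2⟩))
  have a1 := ((r1.resolve_left e1).resolve_left fun x => d x.1).symm
  have a3 := (r3.resolve_left e4).resolve_left fun x => d x.1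
  exact nocyc c j k l l a1 ((r2.resolve_left e2).resolve_left fun x => a1.live (j.comm c e1.symm) x.1) a3
    ((r4.resolve_left e6).resolve_left fun x => a3.symm.live (l.comm c e4.symm) x.1).symm
    e1.symm e2 e3 e4 e5 e6.symm e5

def Gz (θ : Subgroup G) : Prop := ∀ C : Subgroup G, Sh C → Sm C ∧ ∀ g, Rl θ C (cj g C)

def Good (θ : Subgroup G) : Prop :=
  ∃ (Q : Type) (_ : Group Q) (f : G →* Q) (τ : Subgroup Q), Surjective f ∧ θ = τ.comap f ∧ Gz τ

theorem Gz.surj [Finite G] {τ : Subgroup H} {f : G →* H} (h : Gz (τ.comap f)) (hf : Surjective f) :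
    Gz τ := fun J j => by
  obtain ⟨C, c, rfl⟩ := j.lift f hf
  refine ⟨(Sc.map ⟨c, (h C c).1⟩ f j.ne j.sn).2, fun g => ?_⟩
  obtain ⟨g, rfl⟩ := hf g
  exact cj_map f g C ▸ ((h C c).2 g).push f

theorem Gz.sub (h : Gz θ) (N : Subgroup G) [n : N.Normal] : Gz (θ.subgroupOf N) := fun C c => by
  have i := subtype_injective N
  have a := h _ (c.map N.subtype (mt (map_eq_bot_iff_of_injective _ i).1 c.ne) (c.sn.trans' n.isSubnormal))
  have s : Sc C := ⟨c, a.1.comap i⟩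
  exact ⟨s.2, fun g => Rl.pull N.subtype (cj_map N.subtype g C ▸ a.2 g) s (s.cj g)⟩

theorem Good.pull {τ : Subgroup H} (h : Good τ) (f : G →* H) (hf : Surjective f) : Good (τ.comap f) := by
  obtain ⟨Q, _, g, σ, a, rfl, b⟩ := h
  exact ⟨Q, _, g.comp f, σ, a.comp hf, rfl, b⟩

theorem Good.push [Finite G] {τ : Subgroup H} {f : G →* H} (h : Good (τ.comap f)) (hf : Surjective f) :
    Good τ := by
  obtain ⟨Q, _, g, σ, a, e, b⟩ := h
  have := Finite.of_surjective g a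
  let π := QuotientGroup.mk' τ.normalCore
  have s : Surjective π := QuotientGroup.mk'_surjective _
  have k : (τ.map π).comap π = τ := comap_map_eq_self ((QuotientGroup.ker_mk' _).le.trans τ.normalCore_le)
  have := Normal.map (inferInstance : g.ker.Normal) f hf
  have l : g.ker ≤ (π.comp f).ker := fun x u => (QuotientGroup.eq_one_iff _).2 ((normal_le_normalCore.2
    (map_le_iff_le_comap.2 (e ▸ ker_le_comap g σ)) : g.ker.map f ≤ _) ⟨x, u, rfl⟩)
  have c := MonoidHom.liftOfRightInverse_comp g _ (rightInverse_surjInv a) ⟨_, l⟩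
  refine ⟨_, _, π, τ.map π, s, k.symm, Gz.surj (f := g.liftOfSurjective a ⟨_, l⟩) ?_
    (Surjective.of_comp (g := g) ?_)⟩
  · rwa [comap_injective a (show ((τ.map π).comap _).comap g = σ.comap g by
      rw [comap_comap, c, ← comap_comap, k, e])]
  · rw [← MonoidHom.coe_comp, c]
    exact s.comp hf

theorem Good.sub (h : Good θ) (N : Subgroup G) [n : N.Normal] : Good (θ.subgroupOf N) := by
  obtain ⟨Q, _, g, σ, a, rfl, b⟩ := h
  have := n.map g a
  exact ⟨_, _, g.subgroupMap N, _, g.subgroupMap_surjective N, rfl, b.sub (N.map g)⟩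

theorem good_sol (f : G →* H) [Group.IsSolvable H] (k : f.ker ≤ θ) : Good θ :=
  ⟨_, _, f.rangeRestrict, θ.map f.rangeRestrict, f.rangeRestrict_surjective,
    (comap_map_eq_self (by simpa using k)).symm, fun C c => absurd (c.nsol (.id _)) (mt le_bot_iff.1 c.ne)⟩

theorem Good.rl (h : Good θ) (c : Sc C) (g : G) : Rl θ C (cj g C) := by
  obtain ⟨Q, _, f, σ, a, rfl, b⟩ := h
  refine Rl.pull f ?_ c (c.cj g)
  rw [cj_map]
  by_cases e : C.map f = ⊥
  · exact Or.inl (by simp [e])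
  · exact (b _ (c.1.map f e (c.1.sn.map a))).2 _

theorem Good.rel [n : N.Normal] (h : Good (θ.subgroupOf N)) (c : Sc C) (y : G) (u : y ∈ N) :
    Rl θ C (cj y C) := by
  rcases c.dich n.isSubnormal with l | l
  · have := (h.rl (c.sub l) ⟨y, u⟩).push N.subtype
    rwa [cj_map, map_subgroupOf_eq_of_le l] at this
  · exact Or.inl (cj_eq.1 (centralizer_le_normalizer _ (l u))).symm

theorem Good.hd (h : Good (θ.subgroupOf N)) (c : Sh C) (l : C ≤ N) {L : Subgroup G} (a : L ≤ C)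
    (b : C ≤ Nm L) (n : L ≠ C) : L ≤ θ := by
  obtain ⟨Q, _, f, σ, hf, e, s⟩ := h
  have c' := c.sub l
  have a' : L.subgroupOf N ≤ C.subgroupOf N := comap_mono a
  have b' : C.subgroupOf N ≤ Nm (L.subgroupOf N) := (comap_mono b).trans (le_normalizer_comap _)
  refine fun x u => (?_ : L.subgroupOf N ≤ θ.subgroupOf N) (x := ⟨x, l (a u)⟩) u
  refine e ▸ ((Subgroup.map_eq_bot_iff _).1 (not_not.1 fun k => ?_)).trans (ker_le_comap f σ)
  have d : (C.subgroupOf N).map f ≠ ⊥ := fun d => k (le_bot_iff.1 (d ▸ map_mono a'))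
  refine (c'.hd _ _ b' (nm_inf (N := f.ker) le_normalizer_of_normal) ?_).elim (fun z => n ?_) fun z =>
    d ((Subgroup.map_eq_bot_iff _).2 (inf_eq_right.1 z))
  · simpa using (cov f (.id N) (sup_le a' inf_le_right) (le_trans (((s _ (c'.map f d (c'.sn.map hf))).1 _
      (map_mono a') (nm_map f b')).resolve_left k).ge (map_mono le_sup_left))
      (map_mono (le_sup_of_le_right (inf_comm _ _).le))).symm
  · rw [← map_subgroupOf_eq_of_le l, ← z, map_subgroupOf_eq_of_le (a.trans l)]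

theorem good_sup [Finite G] (M N : Subgroup G) [m : M.Normal] [n : N.Normal] (e : M ⊔ N = ⊤)
    (a : ∀ g, Good ((θ.comap (MulAut.conj g).toMonoidHom).subgroupOf M))
    (b : ∀ g, Good ((θ.comap (MulAut.conj g).toMonoidHom).subgroupOf N)) : Good θ := by
  let π := QuotientGroup.mk' θ.normalCore
  have s : Surjective π := QuotientGroup.mk'_surjective _
  have k : (θ.map π).comap π = θ := comap_map_eq_self ((QuotientGroup.ker_mk' _).le.trans θ.normalCore_le)
  have := m.map π s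
  have := n.map π s
  have p : ∀ N : Subgroup G, (∀ g, Good ((θ.comap (MulAut.conj g).toMonoidHom).subgroupOf N)) → ∀ g,
      Good (((θ.map π).comap (MulAut.conj (π g)).toMonoidHom).subgroupOf (N.map π)) := fun N a g =>
    Good.push (f := π.subgroupMap N) (by
      convert a g using 1
      ext x
      exact (Iff.of_eq (congrArg (· ∈ θ.map π) (by simp))).trans (SetLike.ext_iff.1 k (g * x * g⁻¹))) (π.subgroupMap_surjective N)
  replace a := p M a
  replace b := p N b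
  have t : M.map π ⊔ N.map π = ⊤ := by rw [← Subgroup.map_sup, e, map_top_of_surjective _ s]
  have sm : ∀ C : Subgroup (G ⧸ θ.normalCore), Sh C → Sm C := fun C c L u v => or_iff_not_imp_right.2
    fun w => eq_bot_iff.2 fun x hx => by
      obtain ⟨x, rfl⟩ := s x
      refine (QuotientGroup.eq_one_iff x).2 fun g => k.le ?_
      simpa using (c.two _ _ (t ▸ le_top)).elim (fun l => (a g).hd c l u v w hx) fun l => (b g).hd c l u v w hx
  refine ⟨_, _, π, θ.map π, s, k.symm, fun C c => ⟨sm C c, fun g => ?_⟩⟩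
  obtain ⟨y, u, z, v, rfl⟩ := mem_sup_of_normal_left.1 (t.ge (mem_top g))
  have o : (θ.map π).comap (MulAut.conj (π 1)).toMonoidHom = θ.map π := by ext; simp
  exact rl_mul (N.map π) (M.map π) (fun C c => (o ▸ b 1).rel c) (fun C c => (o ▸ a 1).rel c) ⟨c, sm C c⟩ v u

end Pool.Agent.H22.Comp
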