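import Pool.Agent.H22.Wie2

namespace Pool.Agent.H22.Comp

open Function Subgroup
open scoped commutatorElement

variable {G H Q : Type} [Group G] [Group H] [Group Q]

def Fw (G : Type) [Group G] : Prop := Finite G ∧ ∀ (Q : Type) [Group Q] (π : G →* Q), Surjective π →
  ∀ T : Subgroup Q, Sc T → Good ((Nm T).comap π)

theorem mk_fw [Finite G] (φ : G →* H) (s : Surjective φ) (h : ∀ (Q : Type) [Group Q] (π : G →* Q),
    Surjective π → φ.ker ≤ π.ker → ∀ T : Subgroup Q, Sc T → Good ((Nm T).comap π)) : Fw H :=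
  ⟨.of_surjective φ s, fun Q _ π a T t => Good.push (h Q (π.comp φ) (a.comp s)
    (fun x u => (congrArg π u).trans (map_one π)) T t) s⟩

theorem Fw.surj (h : Fw G) (φ : G →* H) (s : Surjective φ) : Fw H :=
  have := h.1
  mk_fw φ s fun Q _ π a _ => h.2 Q π a

theorem Fw.red (h : Fw H) (φ : G →* H) (s : Surjective φ) (π : G →* Q) (a : Surjective π) {T : Subgroup Q}
    (t : Sc T) (n : ¬ T ≤ φ.ker.map π) : Good ((Nm T).comap π) := by
  have := Normal.map (inferInstance : φ.ker.Normal) π a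
  let ρ := QuotientGroup.mk' (φ.ker.map π)
  have r : Surjective ρ := QuotientGroup.mk'_surjective _
  have e : T.map ρ ≠ ⊥ := by rwa [Ne, Subgroup.map_eq_bot_iff, QuotientGroup.ker_mk']
  have l : φ.ker ≤ (ρ.comp π).ker := fun x u => (QuotientGroup.eq_one_iff _).2 ⟨x, u, rfl⟩
  have c := MonoidHom.liftOfRightInverse_comp φ _ (rightInverse_surjInv s) ⟨_, l⟩
  have := (h.2 _ (φ.liftOfSurjective s ⟨_, l⟩) (Surjective.of_comp (g := φ) (by
    rw [← MonoidHom.coe_comp, c]; exact r.comp a)) _ (t.map ρ e (t.1.sn.map r))).pull φ s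
  rwa [comap_comap, c, ← comap_comap, t.nm ρ e] at this

theorem Fw.two {A B : Type} [Group A] [Group B] [Finite G] (a : Fw A) (b : Fw B) (f : G →* A) (g : G →* B)
    (hf : Surjective f) (hg : Surjective g) (φ : G →* H) (s : Surjective φ) (k : f.ker ⊓ g.ker ≤ φ.ker) :
    Fw H := mk_fw φ s fun Q _ π p l T t => by
  by_cases u : T ≤ f.ker.map π
  · refine b.red g hg π p t fun v => t.1.ne (eq_bot_iff.2 (t.1.pf.ge.trans ((commutator_mono u v).trans ?_)))
    rw [← map_commutator, le_bot_iff, Subgroup.map_eq_bot_iff]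
    exact (commutator_le_inf _ _).trans (k.trans l)
  · exact a.red f hf π p t u

theorem Fw.sol [Finite G] (h : Fw H) (φ : G →* H) (s : Surjective φ) (N : Subgroup G) [Group.IsSolvable N]
    (k : φ.ker ≤ N) : Fw G := ⟨‹_›, fun Q _ π p T t => h.red φ s π p t fun u => by
  have := Group.isSolvable_of_surjective (π.subgroupMap_surjective N)
  have l := u.trans (map_mono k)
  exact (t.1.sub l).ne (le_bot_iff.1 ((t.1.sub l).nsol (.id _)))⟩

theorem fw_sol [Finite G] [Group.IsSolvable G] : Fw G := ⟨‹_›, fun _ _ π p _ t =>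
  have := Group.isSolvable_of_surjective p
  absurd (le_bot_iff.1 (t.1.nsol (.id _))) t.1.ne⟩

theorem fw_sup [Finite G] (M N : Subgroup G) [m : M.Normal] [n : N.Normal] (a : Fw M) (b : Fw N)
    (e : M ⊔ N = ⊤) : Fw G := ⟨‹_›, fun Q _ π p T t => by
  have k : ∀ N : Subgroup G, N.Normal → Fw N → ∀ g,
      Good ((((Nm T).comap π).comap (MulAut.conj g).toMonoidHom).subgroupOf N) := fun N n b g => by
    have c := t.cj (π g)⁻¹
    have : ((Nm T).comap π).comap (MulAut.conj g).toMonoidHom = (Nm (cj (π g)⁻¹ T)).comap π := by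
      rw [← c.nm (MulAut.conj (π g)).toMonoidHom (c.1.cj _).ne, ← cj, ← cj_mul, mul_inv_cancel,
        cj_eq.1 (one_mem _)]
      ext
      simp
    rw [this]
    rcases c.dich (n.map π p).isSubnormal with l | l
    · have := b.2 _ _ (π.subgroupMap_surjective N) _ (c.sub l)
      rwa [Nm, ← subgroupOf_normalizer_eq l] at this
    · exact good_sol (1 : N →* Unit) fun x _ => centralizer_le_normalizer _ (l ⟨x, x.2, rfl⟩)
  exact good_sup M N e (k M m a) (k N n b)⟩

theorem Fw.sub (h : Fw G) (Y : Subgroup G) [Y.Normal] : Fw Y := by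
  have := h.1
  refine ⟨inferInstance, fun Q _ π p T t => ?_⟩
  obtain ⟨L, ⟨_, l1⟩, l2⟩ := (measure fun L : Subgroup Y => Nat.card L).wf.has_min
    {L | L.Normal ∧ T ≤ L.map π} ⟨⊤, inferInstance, (map_top_of_surjective π p).ge.trans' le_top⟩
  have j : Nat.card (L ⊓ π.ker : Subgroup Y) < Nat.card L := (card_le_of_le inf_le_left).lt_of_ne fun e =>
    t.1.ne (le_bot_iff.1 (l1.trans ((Subgroup.map_eq_bot_iff _).2 (inf_eq_left.1
      (eq_of_le_of_card_ge inf_le_left e.ge))).le))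
  let M := normalClosure (((L ⊓ π.ker).map Y.subtype : Subgroup G) : Set G)
  let φ := QuotientGroup.mk' M
  let ψ := φ.comp Y.subtype
  have k1 : ψ.ker.map π ≤ Ce T := map_le_iff_le_comap.2 fun x u => by
    obtain ⟨y, v, e⟩ := (closure_le (((Ce T).comap π).map Y.subtype)).2 (fun z w => by
      obtain ⟨_, ⟨a, b, rfl⟩, c⟩ := Group.mem_conjugatesOfSet_iff.1 w
      obtain ⟨g, rfl⟩ := isConj_iff.1 c
      have n := Normal.map (inferInstance : (L ⊓ π.ker).Normal) (MulAut.conjNormal g).toMonoidHom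
        (MulEquiv.surjective _)
      exact ⟨MulAut.conjNormal g a, (t.dich (n.map π p).isSubnormal).resolve_left (fun c => l2 _ ⟨n, c⟩
        ((card_map_of_injective (MulEquiv.injective _)).trans_lt j)) ⟨_, ⟨a, b, rfl⟩, rfl⟩, rfl⟩)
      ((QuotientGroup.eq_one_iff (N := M) _).1 u)
    exact Subtype.ext e ▸ v
  let T₀ := T.comap π ⊓ L
  have e : T₀.map π = T := le_antisymm (map_le_iff_le_comap.2 inf_le_left) fun x u => by
    obtain ⟨y, v, rfl⟩ := l1 u
    exact ⟨y, ⟨u, v⟩, rfl⟩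
  have k2 : (T₀ ⊓ π.ker).map ψ = ⊥ := (Subgroup.map_eq_bot_iff _).2 fun x u =>
    (QuotientGroup.eq_one_iff _).2 (subset_normalClosure ⟨x, ⟨u.1.2, u.2⟩, rfl⟩)
  have c : ∀ K ≤ T₀, T ≤ K.map π → T₀.map ψ = K.map ψ := fun K u v => cov π ψ u (e ▸ v) (k2 ▸ bot_le)
  have s : Sc (T₀.map ψ) := mk_sc (by
      rw [← map_map]
      exact (((t.1.sn.comap π).inf (Normal.isSubnormal ‹_›)).trans' (Normal.isSubnormal ‹_›)).map
        (QuotientGroup.mk'_surjective M))
    (fun z => t.1.nab (e.ge.trans ((map_mono ((Subgroup.map_eq_bot_iff _).1 z)).trans k1)))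
    (by rw [← map_commutator, ← c _ (commutator_le_self _) (by rw [map_commutator, e, t.1.pf])])
    fun K u v => (t.2 _ (e ▸ map_mono inf_le_right) (e ▸ nm_map π (nm_pull ψ v))).imp
      (fun z => le_bot_iff.1 (map_pull ψ u ▸ k2 ▸ map_mono (le_inf inf_le_right
        ((Subgroup.map_eq_bot_iff _).1 z)))) fun z => by rw [c _ inf_le_right z.ge, map_pull ψ u]
  convert (h.2 _ φ (QuotientGroup.mk'_surjective M) _ s).sub Y using 1
  refine le_antisymm (fun y u => le_normalizer_map ψ ⟨y, inf_normalizer_le_normalizer_inf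
    ⟨le_normalizer_comap π u, le_normalizer_of_normal (mem_top y)⟩, rfl⟩) fun y u => cj_eq.2 (not_not.1 fun n => ?_)
  have d := t.cj (π y)
  have := Normal.map (inferInstance : ψ.ker.Normal) π p
  have r : cj y T₀ ≤ T₀ ⊔ ψ.ker := by
    rw [← comap_map_eq, ← map_le_iff_le_comap, cj_map]
    exact (cj_eq.1 u).le
  refine d.1.nab (le_trans ?_ (sup_le (d.comm t n) ((d.dich this.isSubnormal).resolve_left fun z =>
    t.1.nab (le_trans (fun x v => ?_) k1))))
  · rw [← e, ← cj_map, ← Subgroup.map_sup]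
    exact map_mono r
  · simpa [mul_assoc] using this.conj_mem' _ (z ⟨x, v, rfl⟩) (π y)

theorem fw_ext [Finite G] {ι : Type} (T : ι → Subgroup G) (t : ∀ i, Sc (T i)) (ρ : G →* H) (r : Surjective ρ)
    (h : Fw H) (k : ρ.ker ≤ ⨆ i, T i) (φ : G →* Q) (s : Surjective φ)
    (g : ∀ i, T i ≤ φ.ker ∨ Good (Nm (T i))) : Fw Q := mk_fw φ s fun Q _ π p l J j => by
  by_cases u : J ≤ ρ.ker.map π
  · obtain ⟨i, rfl⟩ := j.1.mem (S := Set.range fun i => (T i).map π) (by
      rintro _ ⟨i, rfl⟩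
      exact or_iff_not_imp_left.2 fun n => (t i).map π n ((t i).1.sn.map p))
      (u.trans ((map_mono k).trans (Subgroup.map_iSup π T).le))
    rw [(t i).nm π j.1.ne]
    exact (g i).resolve_left fun z => j.1.ne ((Subgroup.map_eq_bot_iff _).2 (z.trans l))
  · exact h.red ρ r π p j u

end Pool.Agent.H22.Comp
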