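import Pool.Agent.H22.Wie3

namespace Pool.Agent.H22.Comp

open Function Subgroup SemidirectProduct
open scoped commutatorElement

variable {S Ω X Q : Type} [Group S] [Group X] [Group Q] [MulAction X Ω]

abbrev Wn (S Ω X : Type) [Group S] [Group X] [MulAction X Ω] := (Ω → S) ⋊[mulAutArrow] X

instance [Finite S] [Finite Ω] [Finite X] : Finite (Wn S Ω X) := .of_equiv _ equivProd.symm

theorem arr (g : X) (f : Ω → S) (ω : Ω) : (mulAutArrow g : MulAut (Ω → S)) f ω = f (g⁻¹ • ω) := rfl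

def Bs (p : Ω → Prop) : Subgroup (Wn S Ω X) where
  carrier := {w | w.right = 1 ∧ ∀ ω, p ω → w.left ω = 1}
  one_mem' := ⟨rfl, fun _ _ => rfl⟩
  mul_mem' := fun {a b} u v => ⟨by simp [u.1, v.1], fun ω h => by simp [u.1, u.2 ω h, v.2 ω h]⟩
  inv_mem' := fun {a} u => ⟨by simp [u.1], fun ω h => by simp [u.1, u.2 ω h]⟩

abbrev Tw (ω : Ω) : Subgroup (Wn S Ω X) := Bs (· ≠ ω)

theorem bs_conj {p q : Ω → Prop} {w : Wn S Ω X} (h : w ∈ Bs p) (g : Wn S Ω X)
    (e : ∀ ω, q ω → p (g.right⁻¹ • ω)) : g * w * g⁻¹ ∈ Bs q :=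
  ⟨by simp [h.1], fun ω u => by
    simp only [mul_left, inv_left, mul_right, h.1, Pi.mul_apply, arr, h.2 _ (e ω u), Pi.inv_apply]
    simp⟩

theorem cj_tw (g : Wn S Ω X) (ω : Ω) : cj g (Tw ω) = Tw (g.right • ω) :=
  le_antisymm (by
    rintro _ ⟨w, u, rfl⟩
    exact bs_conj u g fun _ => mt inv_smul_eq_iff.1) fun w u =>
    ⟨_, bs_conj u g⁻¹ fun _ => by simp, by simp [mul_assoc]⟩

variable [DecidableEq Ω]

def sl (ω : Ω) : S →* Wn S Ω X := inl.comp (MonoidHom.mulSingle (fun _ => S) ω)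

theorem sl_left (ω : Ω) (s : S) : (sl ω s : Wn S Ω X).left = Pi.mulSingle ω s := rfl

theorem mem_tw {ω : Ω} {w : Wn S Ω X} : w ∈ Tw ω ↔ ∃ s, sl ω s = w :=
  ⟨fun h => ⟨w.left ω, SemidirectProduct.ext (funext fun i => by
    by_cases e : i = ω
    · simp [sl_left, e]
    · simp [sl_left, e, h.2 i e]) h.1.symm⟩, by
    rintro ⟨s, rfl⟩
    exact ⟨rfl, fun i e => by simp [sl_left, e]⟩⟩

theorem tw_sc (h : Sc (⊤ : Subgroup S)) (ω : Ω) : Sc (Tw ω : Subgroup (Wn S Ω X)) := by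
  have e : (⊤ : Subgroup S).map (sl ω) = (Tw ω : Subgroup (Wn S Ω X)) := by
    ext
    simp [mem_tw]
  refine e ▸ h.map _ (mt (map_eq_bot_iff_of_injective _ fun a b c =>
    Pi.mulSingle_injective (M := fun _ => S) ω (congrArg left c)).1 h.1.ne) (e ▸ .step _ rightHom.ker (fun _ u => u.1)
      (Normal.isSubnormal inferInstance) (normal_subgroupOf_of_le_normalizer fun g u => cj_eq.2 ?_))
  rw [cj_tw, show g.right = 1 from u, one_smul]

theorem tw_le (h : Sc (⊤ : Subgroup S)) {ω : Ω} {p : Ω → Prop} (l : (Tw ω : Subgroup (Wn S Ω X)) ≤ Bs p) :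
    ¬ p ω := fun e => h.1.ne (eq_bot_iff.2 fun s _ => by
  simpa [sl_left] using (l (mem_tw.2 ⟨s, rfl⟩)).2 ω e)

theorem nm_tw (h : Sc (⊤ : Subgroup S)) (ω : Ω) :
    Nm (Tw ω : Subgroup (Wn S Ω X)) = (MulAction.stabilizer X ω).comap rightHom := by
  ext g
  rw [cj_eq, cj_tw]
  exact ⟨fun e => not_not.1 (tw_le h (p := (· ≠ ω)) e.le), fun e => congrArg Tw e⟩

theorem ker_le [Finite Ω] (U : Subgroup X) : (rightHom.subgroupComap U).ker ≤
    ⨆ ω : Ω, (Tw ω : Subgroup (Wn S Ω X)).subgroupOf (U.comap rightHom) := fun w u => by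
  let ι : (Ω → S) →* U.comap (rightHom : Wn S Ω X →* X) := inl.codRestrict _ fun _ => U.one_mem
  rw [show w = ι w.1.left from Subtype.ext (SemidirectProduct.ext rfl (congrArg Subtype.val u))]
  refine pi_mem_of_mulSingle_mem (H := comap ι _) _ fun i => mem_comap.2 (mem_iSup_of_mem i ?_)
  exact mem_tw.2 ⟨_, rfl⟩

theorem wsub [Finite S] [Finite Ω] [Finite X] (h : Sc (⊤ : Subgroup S)) (U : Subgroup X) (a : Fw U)
    (φ : U.comap (rightHom : Wn S Ω X →* X) →* Q) (s : Surjective φ)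
    (g : ∀ ω, (Tw ω).subgroupOf _ ≤ φ.ker ∨ Good ((MulAction.stabilizer X ω).subgroupOf U)) : Fw Q := by
  have r := rightHom.subgroupComap_surjective_of_surjective U (rightHom_surjective (φ := mulAutArrow (A := Ω)
    (M := S)))
  have l : ∀ ω, (Tw ω : Subgroup (Wn S Ω X)) ≤ U.comap rightHom := fun ω w u => by
    simp [u.1]
  refine fw_ext _ (fun ω => (tw_sc h ω).sub (l ω)) _ r a (ker_le U) φ s fun ω => (g ω).imp_right fun e => ?_
  rw [Nm, ← subgroupOf_normalizer_eq (l ω), ← Nm, nm_tw h]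
  exact e.pull _ r

theorem res_le [Finite S] [Finite Ω] [Finite X] (h : Sc (⊤ : Subgroup S)) (U : Subgroup X) (a : Fw U) (ω : Ω)
    (g : Good ((MulAction.stabilizer X ω).subgroupOf U)) :
    ∃ N : Subgroup (U.comap (rightHom : Wn S Ω X →* X)), ∃ _ : N.Normal, Fw (_ ⧸ N) ∧
      N.map (Subgroup.subtype _) ≤ Bs (· = ω) := by
  refine ⟨((Bs (· = ω)).subgroupOf _).normalCore, inferInstance, wsub h U a _ (QuotientGroup.mk'_surjective _)
    fun i => or_iff_not_imp_left.2 fun n => ?_, map_le_iff_le_comap.2 (normalCore_le _)⟩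
  obtain ⟨u, rfl⟩ : ∃ u : U, u.1 • i = ω := not_not.1 fun c => n fun w v => (QuotientGroup.eq_one_iff _).2
    fun b => bs_conj v b.1 fun j e z => c ⟨⟨_, b.2⟩, (inv_smul_eq_iff.1 (e ▸ z)).symm⟩
  convert g.pull (MulAut.conj u).toMonoidHom (MulEquiv.surjective _) using 1
  ext
  simp [mem_subgroupOf, mul_smul]

theorem res_ge [Finite S] [Finite Ω] [Finite X] (h : Sc (⊤ : Subgroup S)) (ω : Ω)
    (g : ¬ Good (MulAction.stabilizer X ω)) {Y : Subgroup (Wn S Ω X)} (e : Y = ⊤) (f : Y →* Q)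
    (s : Surjective f) (a : Fw Q) : (Tw ω).subgroupOf Y ≤ f.ker := by
  subst e
  have t := (tw_sc (X := X) h ω).sub le_top
  refine (Subgroup.map_eq_bot_iff _).1 (not_not.1 fun n => g (Good.push (f := (rightHom : Wn S Ω X →* X).comp
    (Subgroup.subtype ⊤))
    ?_ (rightHom_surjective.comp topEquiv.surjective)))
  have := (a.2 _ (.id _) surjective_id _ (t.map f n (t.1.sn.map s))).pull f s
  rwa [comap_id, t.nm f n, Nm, ← subgroupOf_normalizer_eq le_top, ← Nm, nm_tw h] at this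

end Pool.Agent.H22.Comp
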