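import Pool.Agent.H22.Wie4

namespace Pool.Agent.H22.Comp

open Function Subgroup SemidirectProduct DihedralGroup
open scoped commutatorElement

variable {S : Type} [Group S] {A B : Subgroup S}

abbrev D8 := DihedralGroup 4

def dac : D8 → ZMod 4 → ZMod 4
  | r i, x => x + i
  | sr i, x => -x - i

instance : MulAction D8 (ZMod 4) where
  smul := dac
  one_smul := by decide
  mul_smul := by decide

def Z2 (k : ZMod 4) : Subgroup D8 where
  carrier := {x | x = 1 ∨ x = sr k}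
  one_mem' := Or.inl rfl
  mul_mem' := by rintro _ _ (rfl | rfl) (rfl | rfl) <;> simp
  inv_mem' := by rintro _ (rfl | rfl) <;> simp

theorem z2_sup : Z2 0 ⊔ Z2 3 = ⊤ := eq_top_iff.2 fun x _ => by
  have a : sr 0 ∈ Z2 0 ⊔ Z2 3 := mem_sup_left (Or.inr rfl)
  have b := mul_mem a (mem_sup_right (Or.inr rfl))
  have : ∀ x : D8, ∃ n : Fin 4, x = (sr 0 * sr 3) ^ n.1 ∨ x = sr 0 * (sr 0 * sr 3) ^ n.1 := by decide
  obtain ⟨n, rfl | rfl⟩ := this x
  exacts [pow_mem b _, mul_mem a (pow_mem b _)]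

theorem chain {G : Type} [Group G] (ρ : G →* D8) (k : ZMod 4) : ∃ n : ℕ, ∃ c : ℕ → Subgroup G,
    c 0 = (Z2 k).comap ρ ∧ c n = ⊤ ∧ ∀ i < n, c i ≤ c (i + 1) ∧ ((c i).subgroupOf (c (i + 1))).Normal := by
  have : (centralizer {sr k} : Subgroup D8).Normal := ⟨fun x u g => by
    rw [mem_centralizer_singleton_iff] at *
    revert k x g
    decide⟩
  refine ⟨2, fun i => (if i = 0 then Z2 k else if i = 1 then centralizer {sr k} else ⊤).comap ρ, rfl, rfl,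
    fun i h => ?_⟩
  refine (fun (h : _ ∧ _ ≤ Nm _) => ⟨comap_mono h.1, normal_subgroupOf_of_le_normalizer
    ((comap_mono h.2).trans (le_normalizer_comap ρ))⟩) ?_
  interval_cases i
  · exact ⟨by rintro _ (rfl | rfl) <;> simp [mem_centralizer_singleton_iff], le_normalizer_iff.2 (by
      rintro x u _ (rfl | rfl)
      exacts [Or.inl (by simp), Or.inr (by rw [mem_centralizer_singleton_iff.1 u, mul_inv_cancel_right])])⟩
  · exact ⟨le_top, le_normalizer_of_normal (H := centralizer {sr k})⟩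

instance : Group.IsSolvable D8 := by
  have := Fact.mk Nat.prime_two
  have := (IsPGroup.of_card (p := 2) (n := 3) (nat_card (n := 4))).isNilpotent
  infer_instance

def Ev (B : Subgroup S) (x y : S) : Prop := x ∈ Nm B ∧ x⁻¹ * y ∈ B

theorem Ev.mul {x y z w : S} (a : Ev B x y) (b : Ev B z w) : Ev B (x * z) (y * w) :=
  ⟨mul_mem a.1 b.1, by
    convert mul_mem (nm1 (inv_mem b.1) a.2) b.2 using 1
    group⟩

theorem Ev.inv {x y : S} (a : Ev B x y) : Ev B x⁻¹ y⁻¹ :=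
  ⟨inv_mem a.1, by
    convert nm1 a.1 (inv_mem a.2) using 1
    group⟩

abbrev Xw (S : Type) [Group S] := Wn S (ZMod 4) D8

def th (A B : Subgroup S) : Subgroup (Xw S) where
  carrier := {w | w.right = 1 ∧ Ev B (w.left 0) (w.left 1) ∧ Ev B (w.left 2) (w.left 3) ∧
    Ev A (w.left 1) (w.left 3)}
  one_mem' := by simp [Ev]
  mul_mem' := fun {a b} u v => by
    simpa [u.1, v.1] using ⟨u.2.1.mul v.2.1, u.2.2.1.mul v.2.2.1, u.2.2.2.mul v.2.2.2⟩
  inv_mem' := fun {a} u => by simpa [u.1] using ⟨u.2.1.inv, u.2.2.1.inv, u.2.2.2.inv⟩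

theorem mem_th {w : Xw S} : w ∈ th A B ↔ w.right = 1 ∧ Ev B (w.left 0) (w.left 1) ∧
    Ev B (w.left 2) (w.left 3) ∧ Ev A (w.left 1) (w.left 3) := Iff.rfl

theorem sl_right (i : ZMod 4) (x : S) : (sl i x : Xw S).right = 1 := rfl

theorem ty_mk {θ : Subgroup (Xw S)} {m : ℕ} {i j : ZMod 4} (a : ∃ x y, sl i x * sl j y ∈ θ ∧ sl i (x ^ m) ∉ θ)
    (b : ∀ x, (∀ a b, sl i a * sl j b ∈ θ → sl i ⁅x, a⁆ ∈ θ) → sl i (x ^ m) ∈ θ) :
    Ty m θ (Tw i) (Tw j) := by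
  obtain ⟨x, y, u, v⟩ := a
  refine ⟨⟨_, ⟨mem_tw.2 ⟨x, rfl⟩, _, mem_tw.2 ⟨y, rfl⟩, u⟩, map_pow (sl i : S →* Xw S) x m ▸ v⟩, fun z w h => ?_⟩
  obtain ⟨z, rfl⟩ := mem_tw.1 w
  exact map_pow (sl i : S →* Xw S) z m ▸ b z fun c d e => map_commutatorElement (sl i : S →* Xw S) z c ▸
    h _ ⟨mem_tw.2 ⟨c, rfl⟩, _, mem_tw.2 ⟨d, rfl⟩, e⟩

structure Dt (A B : Subgroup S) : Prop where
  sc : Sc (⊤ : Subgroup S)
  cm : ∀ a ∈ A, ∀ b ∈ B, a * b = b * a
  dj : ∀ a ∈ A, a ∈ B → a = 1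
  a1 : ∃ a ∈ A, a ≠ 1
  b1 : ∃ b ∈ B, b ^ 24 ≠ 1
  ca : ∀ x : S, (∀ b ∈ B, ⁅x, b⁆ ∈ A) → x ^ 24 = 1
  cb : ∀ x, (∀ a ∈ A, ⁅x, a⁆ ∈ B) → x ∈ B

theorem Dt.rl (h : Dt A B) (k : ZMod 4) (e : k = 0 ∨ k = 3) (i : ZMod 4) :
    Rl (th A B) (Tw i) (Tw ((sr k : D8) • i)) := by
  have n1 : A ≤ Nm B := le_normalizer_iff.2 fun a u b v => by rwa [h.cm a u b v, mul_inv_cancel_right]
  have n2 : B ≤ Nm A := le_normalizer_iff.2 fun b v a u => by rwa [← h.cm a u b v, mul_inv_cancel_right]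
  obtain ⟨a, a1, a2⟩ := h.a1
  obtain ⟨b, b1, b2⟩ := h.b1
  have t1 : ∀ i j : ZMod 4, i = 0 ∧ j = 1 ∨ i = 2 ∧ j = 3 → Ty 1 (th A B) (Tw i) (Tw j) := fun i j e => by
    refine ty_mk ⟨a, a, ?_⟩ fun x u => ?_
    · rcases e with ⟨rfl, rfl⟩ | ⟨rfl, rfl⟩ <;>
        simp +decide [mem_th, sl_left, sl_right, Ev, Pi.mulSingle_apply, a1, n1 a1, le_normalizer a1,
          mt (h.dj a a1) a2]
    · have := h.cb x fun c d => by
        have := u c c
        generalize ⁅x, c⁆ = z at *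
        rcases e with ⟨rfl, rfl⟩ | ⟨rfl, rfl⟩ <;>
          simp +decide [mem_th, sl_left, sl_right, Ev, Pi.mulSingle_apply, d, n1 d, le_normalizer d]
            at this <;> exact this.2
      rcases e with ⟨rfl, rfl⟩ | ⟨rfl, rfl⟩ <;>
        simp +decide [mem_th, sl_left, sl_right, Ev, Pi.mulSingle_apply, this, le_normalizer this]
  have t2 : ∀ i j : ZMod 4, i = 1 ∧ j = 3 ∨ i = 3 ∧ j = 1 → Ty 24 (th A B) (Tw i) (Tw j) := fun i j e => by
    refine ty_mk ⟨b, b, ?_⟩ fun x u => ?_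
    · have := mt (h.dj _ · (pow_mem b1 24)) b2
      generalize b ^ 24 = z at *
      rcases e with ⟨rfl, rfl⟩ | ⟨rfl, rfl⟩ <;>
        simp +decide [mem_th, sl_left, sl_right, Ev, Pi.mulSingle_apply, b1, n2 b1, this]
    · rw [h.ca x fun c d => ?_, map_one]
      · exact one_mem _
      have := u c c
      generalize ⁅x, c⁆ = z at *
      rcases e with ⟨rfl, rfl⟩ | ⟨rfl, rfl⟩ <;>
        simp +decide [mem_th, sl_left, sl_right, Ev, Pi.mulSingle_apply, d, n2 d] at this <;> simp [this]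
  have : ∀ k i : ZMod 4, k = 0 ∨ k = 3 → ∀ j, j = (sr k : D8) • i → i = j ∨ (i = 0 ∧ j = 1 ∨ i = 2 ∧ j = 3) ∨
    (j = 0 ∧ i = 1 ∨ j = 2 ∧ i = 3) ∨ (i = 1 ∧ j = 3 ∨ i = 3 ∧ j = 1) := by decide
  exact (this k i e _ rfl).imp (congrArg _) fun c => Or.inr (c.imp (t1 _ _) (Or.imp (t1 _ _) fun c =>
    ⟨t2 _ _ c, t2 _ _ (by tauto)⟩))

theorem Dt.good (h : Dt A B) (k : ZMod 4) (e : k = 0 ∨ k = 3) :
    Good ((th A B).subgroupOf ((Z2 k).comap rightHom)) := by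
  have l : ∀ i, (Tw i : Subgroup (Xw S)) ≤ (Z2 k).comap rightHom := fun i w u => Or.inl u.1
  refine ⟨_, _, .id _, _, surjective_id, (comap_id _).symm, fun C c => ?_⟩
  obtain ⟨i, rfl⟩ := c.mem (S := Set.range fun i => (Tw i).subgroupOf _) (by
    rintro _ ⟨i, rfl⟩
    exact Or.inr ((tw_sc h.sc i).sub (l i))) ((c.nsol _).trans (ker_le (Z2 k)))
  have s := (tw_sc h.sc i).sub (l i)
  refine ⟨s.2, fun g => Rl.pull (Subgroup.subtype _) ?_ s (s.cj g)⟩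
  rw [cj_map, map_subgroupOf_eq_of_le (l i), cj_tw]
  rcases g.2 with u | u
  · exact Or.inl (congrArg _ ((congrArg (· • i) u).trans (one_smul _ _)).symm)
  · exact (show g.1.right = _ from u).symm ▸ h.rl k e i

theorem Dt.bad (h : Dt A B) : ¬ Good (th A B) := fun g => by
  have := g.rl (tw_sc h.sc 0) (inr (r 2))
  rw [cj_tw, show (inr (r 2) : Xw S).right • (0 : ZMod 4) = 2 from rfl] at this
  have n : (Tw 0 : Subgroup (Xw S)) ≠ Tw 2 := fun e => tw_le h.sc (p := (· ≠ 2)) e.le (by decide)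
  obtain ⟨a, a1, a2⟩ := h.a1
  rcases this with e | e | e
  · exact n e
  · have := e.1 (mem_tw.2 ⟨a, rfl⟩)
    simp +decide [mem_th, sl_left, sl_right, Ev, Pi.mulSingle_apply, mt (h.dj a a1) a2] at this
  · obtain ⟨x, ⟨u, y, v, w⟩, z⟩ := e.lk ((tw_sc h.sc 0).comm (tw_sc h.sc 2) n)
    obtain ⟨x, rfl⟩ := mem_tw.1 u
    obtain ⟨y, rfl⟩ := mem_tw.1 v
    simp +decide [mem_th, sl_left, sl_right, Ev, Pi.mulSingle_apply] at w z
    exact z w.1.1 w.1.2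

def Fx (b : Bool) : Subgroup (alternatingGroup (Fin 9)) where
  carrier := {x | ∀ i, decide (i < 4) = b → x.1 i = i}
  one_mem' := fun _ _ => rfl
  mul_mem' := fun {x y} u v i e => by simp [u i e, v i e]
  inv_mem' := fun {x} u i e => by simpa using Equiv.Perm.inv_eq_iff_eq.2 (u i e).symm

theorem fx_key (b : Bool) (x : alternatingGroup (Fin 9)) (h : ∀ a ∈ Fx (!b), ⁅x, a⁆ ∈ Fx b) : x ∈ Fx b := by
  have k : ∀ (b : Bool) (j k : Fin 9), decide (j < 4) = b → j ≠ k → ∃ p q : Fin 9, j ≠ p ∧ j ≠ q ∧ p ≠ q ∧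
    k ≠ p ∧ k ≠ q ∧ decide (p < 4) = b ∧ decide (q < 4) = b := by decide
  refine inv_mem_iff.1 fun j e => not_not.1 fun n => ?_
  obtain ⟨p, q, h1, h2, h3, h4, h5, h6, h7⟩ := k b j _ e (Ne.symm n)
  have := h ⟨Equiv.swap j p * Equiv.swap j q, by simp [Equiv.Perm.mem_alternatingGroup, h1, h2]⟩
    (fun i c => by
      have : ∀ l : Fin 9, decide (l < 4) = b → i ≠ l := fun l d f => by simp [f, d] at c
      simp [Equiv.swap_apply_of_ne_of_ne, this j e, this p h6, this q h7]) q h7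
  simp [commutatorElement_def, Equiv.swap_apply_of_ne_of_ne, h2.symm, h3.symm] at this n h4 h5
  simp [Equiv.swap_apply_of_ne_of_ne, n, h4, h5, h2] at this

theorem dt : Dt (Fx false) (Fx true) := by
  have := alternatingGroup.isSimpleGroup (α := Fin 9) (by simp)
  refine ⟨mk_sc .top top_ne_bot (commutator_alternatingGroup_eq_top (by simp)) fun L _ u =>
    (normalizer_eq_top_iff.1 (top_le_iff.1 u)).eq_bot_or_eq_top, fun a u b v => Subtype.ext
      (Equiv.Perm.Disjoint.commute fun i => by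
        cases e : decide (i < 4)
        exacts [Or.inl (u i e), Or.inr (v i e)]), fun a u v => Subtype.ext (Equiv.ext fun i => by
        cases e : decide (i < 4)
        exacts [u i e, v i e]),
    ⟨⟨Equiv.swap 0 1 * Equiv.swap 0 2, by simp [Equiv.Perm.mem_alternatingGroup]⟩, by change ∀ i, _; decide, by decide⟩,
    ⟨⟨Equiv.swap 4 5 * Equiv.swap 4 6 * Equiv.swap 4 7 * Equiv.swap 4 8, by
      simp [Equiv.Perm.mem_alternatingGroup]⟩, by change ∀ i, _; decide,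
      fun e => absurd (Fit.pel.eq_one (p := 5) (by norm_num) ⟨1, by decide⟩ e) (by decide)⟩,
    fun x u => ?_, fx_key true⟩
  have u := fx_key false x u
  have v : ∀ i, x.1 i ≠ i → i < 4 := fun i e => not_not.1 fun c => e (u i (decide_eq_false c))
  have w : ∀ i, x.1 i < 4 ↔ i < 4 := fun i => by
    by_cases e : x.1 i = i
    · rw [e]
    · exact iff_of_true (v _ (mt x.1.injective.eq_iff.1 e)) (v i e)
  refine Subtype.ext ?_
  rw [SubgroupClass.coe_pow, ← Equiv.Perm.ofSubtype_subtypePerm w v, ← map_pow, show 24 =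
    Fintype.card (Equiv.Perm {i : Fin 9 // i < 4}) by rw [Fintype.card_perm]; decide, pow_card_eq_one, map_one]
  rfl

theorem wie : ∃ (G : Type) (_ : Group G) (_ : Finite G) (U V Z T : Subgroup G), U ⊔ V = ⊤ ∧ ¬ T ≤ Z ∧
    (∀ K, K = U ∨ K = V → (∃ n : ℕ, ∃ c : ℕ → Subgroup G, c 0 = K ∧ c n = ⊤ ∧
      ∀ i < n, c i ≤ c (i + 1) ∧ ((c i).subgroupOf (c (i + 1))).Normal) ∧
      ∃ N : Subgroup K, ∃ _ : N.Normal, Fw (K ⧸ N) ∧ N.map K.subtype ≤ Z) ∧
    ∀ (Q : Type) [Group Q] (f : (U ⊔ V : Subgroup G) →* Q), Surjective f → Fw Q → T.subgroupOf _ ≤ f.ker := by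
  classical
  let θ := th (Fx false) (Fx true)
  have s := MulAction.stabilizer_quotient θ
  let ρ : Wn (alternatingGroup (Fin 9)) (Xw _ ⧸ θ) (Xw (alternatingGroup (Fin 9))) →* D8 := rightHom.comp rightHom
  have e : (Z2 0).comap ρ ⊔ (Z2 3).comap ρ = ⊤ := by
    rw [comap_sup_eq ρ _ _ (rightHom_surjective.comp rightHom_surjective), z2_sup, comap_top]
  have k : ∀ k, k = 0 ∨ k = 3 → ∃ N : Subgroup ((Z2 k).comap ρ), ∃ _ : N.Normal, Fw (((Z2 k).comap ρ) ⧸ N) ∧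
      N.map ((Z2 k).comap ρ).subtype ≤ Bs (· = QuotientGroup.mk (s := θ) 1) := fun k h =>
    res_le dt.sc ((Z2 k).comap rightHom) (wsub dt.sc (Z2 k) fw_sol (.id _) surjective_id fun _ =>
      Or.inr (good_sol (.id _) (by simp))) _ (s.symm ▸ dt.good k h)
  refine ⟨_, _, inferInstance, _, _, Bs (· = QuotientGroup.mk (s := θ) 1), Tw _, e, fun l => tw_le dt.sc l rfl, ?_,
    fun Q _ => res_ge dt.sc _ (s.symm ▸ dt.bad) e⟩
  rintro _ (rfl | rfl)
  exacts [⟨chain ρ 0, k 0 (Or.inl rfl)⟩, ⟨chain ρ 3, k 3 (Or.inr rfl)⟩]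

end Pool.Agent.H22.Comp
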