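import Mathlib

namespace Pool.Agent.H22.Winf

open MvPolynomial

variable {F : Type} [Field F]

abbrev Der (F : Type) [Field F] := Derivation F (MvPolynomial ℕ F) (MvPolynomial ℕ F)

def W (F : Type) [Field F] : Submodule (MvPolynomial ℕ F) (Der F) where
  carrier := {d | Set.Finite {i : ℕ | d (X i) ≠ 0}}
  add_mem' := fun {d e} hd he => (Set.Finite.union hd he).subset fun i hi => by
    by_contra k
    simp only [Set.mem_union, Set.mem_ofPred_eq, not_or, not_not] at k
    exact hi (by simp [k.1, k.2])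
  zero_mem' := by simp
  smul_mem' := fun c d hd => Set.Finite.subset hd fun i hi k => hi (by simp [k])

theorem pd_mem (k : ℕ) : pderiv k ∈ W F :=
  (Set.finite_singleton k).subset fun _ hi => by_contra fun e => hi (pderiv_X_of_ne e)

theorem br_mem {d e : Der F} (hd : d ∈ W F) (he : e ∈ W F) : ⁅d, e⁆ ∈ W F :=
  (Set.Finite.union hd he).subset fun i hi => by
    by_contra k
    simp only [Set.mem_union, Set.mem_ofPred_eq, not_or, not_not] at k
    exact hi (by simp [Derivation.commutator_apply, k.1, k.2])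

theorem sum_ap {ι : Type} (s : Finset ι) (f : ι → Der F) (x : MvPolynomial ℕ F) :
    (∑ i ∈ s, f i) x = ∑ i ∈ s, f i x := by
  induction s using Finset.cons_induction with
  | empty => simp
  | cons a s _ ih => rw [Finset.sum_cons, Finset.sum_cons, Derivation.add_apply, ih]

theorem l_sub (d e f : Der F) : ⁅d, e - f⁆ = ⁅d, e⁆ - ⁅d, f⁆ := by
  ext1 x; simp [Derivation.commutator_apply]; ring

theorem ng_smul (p : MvPolynomial ℕ F) (d : Der F) : -(p • d) = -p • d := by ext1 x; simp

theorem sb_smul (p q : MvPolynomial ℕ F) (d : Der F) : p • d - q • d = (p - q) • d := by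
  ext1 x; simp [sub_mul]

theorem as_sum {d : Der F} (hd : d ∈ W F) : ∃ s : Finset ℕ, d = ∑ i ∈ s, d (X i) • pderiv i := by
  refine ⟨Set.Finite.toFinset hd, derivation_ext fun j => ?_⟩
  rw [sum_ap, Finset.sum_eq_single j]
  · simp
  · exact fun i _ h => by simp [pderiv_X_of_ne h.symm]
  · exact fun h => by simpa using h

theorem br1 (d e : Der F) (p : MvPolynomial ℕ F) : ⁅d, p • e⁆ = d p • e + p • ⁅d, e⁆ := by
  ext1 x; simp [Derivation.commutator_apply]; ring

theorem br2 (d e : Der F) (p : MvPolynomial ℕ F) : ⁅p • d, e⁆ = p • ⁅d, e⁆ - e p • d := by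
  rw [← lie_skew, br1, ← lie_skew e, smul_neg]; abel

theorem pd_X (k i : ℕ) : pderiv k (X i : MvPolynomial ℕ F) = if k = i then 1 else 0 := by
  split_ifs with h
  · simp [h]
  · exact pderiv_X_of_ne (Ne.symm h)

theorem br_X (k i : ℕ) (d : Der F) : ⁅(pderiv k : Der F), d⁆ (X i) = pderiv k (d (X i)) := by
  rw [Derivation.commutator_apply, pd_X]; split_ifs <;> simp

theorem br_pd (k i : ℕ) : ⁅(pderiv k : Der F), (pderiv i : Der F)⁆ = 0 :=
  derivation_ext fun j => by rw [br_X, pd_X]; split_ifs <;> simp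

theorem canc {p : MvPolynomial ℕ F} {d : Der F} (h : p • d = 0) (hd : d ≠ 0) : p = 0 :=
  by_contra fun k => hd (Derivation.ext fun x =>
    (mul_eq_zero.1 (show p * d x = 0 from congrArg (fun e : Der F => e x) h)).resolve_left k)

def Lt (n : ℕ) (p : MvPolynomial ℕ F) : Prop := ∀ m ∈ p.support, m.degree < n

theorem lt_zero {p : MvPolynomial ℕ F} (h : Lt 0 p) : p = 0 :=
  support_eq_empty.1 (Finset.eq_empty_of_forall_notMem fun m hm => absurd (h m hm) (by simp))

theorem lt_pd {n : ℕ} {p : MvPolynomial ℕ F} (h : Lt (n + 1) p) (k : ℕ) : Lt n (pderiv k p) := by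
  intro m hm
  rw [mem_support_iff, coeff_pderiv] at hm
  simpa using h _ (mem_support_iff.2 (left_ne_zero_of_mul hm))

theorem lt_ex (p : MvPolynomial ℕ F) : ∃ n, ∀ k, n ≤ k → Lt k p :=
  ⟨p.support.sup Finsupp.degree + 1, fun _ hk _ hm => (Finset.le_sup (f := Finsupp.degree) hm).trans_lt hk⟩

theorem lt_W {d : Der F} (hd : d ∈ W F) : ∃ n, ∀ i, Lt n (d (X i)) := by
  choose f hf using fun i => lt_ex (d (X i))
  obtain ⟨n, hn⟩ := (Set.Finite.image f hd).bddAbove
  refine ⟨n, fun i => ?_⟩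
  by_cases h : d (X i) = 0
  · rw [h]; exact fun m hm => by simp at hm
  · exact hf i n (hn ⟨i, h, rfl⟩)

variable [CharZero F]

theorem pd_ne {p : MvPolynomial ℕ F} {n : ℕ} (h : n ∈ p.vars) : pderiv n p ≠ 0 := fun e => by
  obtain ⟨m, h1, h2⟩ := (mem_vars_iff_mem_support n).1 h
  have := congrArg (coeff (m - Finsupp.single n 1)) e
  rw [coeff_pderiv, tsub_add_cancel_of_le (Finsupp.single_le_iff.2
    (Nat.one_le_iff_ne_zero.2 (Finsupp.mem_support_iff.1 h2))), coeff_zero] at this
  exact mul_ne_zero (mem_support_iff.1 h1) (Nat.cast_add_one_ne_zero _) this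

theorem const {p : MvPolynomial ℕ F} (h : ∀ k, pderiv k p = 0) : p = C (p.coeff 0) :=
  vars_eq_empty_iff_eq_C.1 (Finset.eq_empty_of_forall_notMem fun k hk => pd_ne hk (h k))

structure H (θ : Der F → Der F) : Prop where
  mem : ∀ d ∈ W F, θ d ∈ W F
  sur : ∀ e ∈ W F, ∃ d ∈ W F, θ d = e
  inj : ∀ d e, d ∈ W F → e ∈ W F → θ d = θ e → d = e
  add : ∀ d e, d ∈ W F → e ∈ W F → θ (d + e) = θ d + θ e ∧ θ ⁅d, e⁆ = ⁅θ d, θ e⁆
  smul : ∀ (c : F) (d : Der F), d ∈ W F → θ (c • d) = c • θ d

variable {θ : Der F → Der F} (h : H θ)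
include h

theorem H.zero : θ 0 = 0 := by simpa using h.smul 0 0 (zero_mem _)

theorem H.br {d e : Der F} (hd : d ∈ W F) (he : e ∈ W F) : ⁅θ d, θ e⁆ = θ ⁅d, e⁆ :=
  (h.add d e hd he).2.symm

theorem H.sum {ι : Type} (s : Finset ι) (f : ι → Der F) (hf : ∀ i, f i ∈ W F) :
    θ (∑ i ∈ s, f i) = ∑ i ∈ s, θ (f i) := by
  induction s using Finset.cons_induction with
  | empty => simpa using h.zero
  | cons a s _ ih => rw [Finset.sum_cons, Finset.sum_cons, (h.add _ _ (hf a) (sum_mem fun i _ => hf i)).1, ih]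

theorem H.cs (c : F) (k : ℕ) :
    θ ((C c : MvPolynomial ℕ F) • pderiv k) = (C c : MvPolynomial ℕ F) • θ (pderiv k) := by
  have : ∀ d : Der F, (C c : MvPolynomial ℕ F) • d = c • d := fun d => by
    ext1 x; simp [smul_eq_C_mul]
  rw [this, this, h.smul c _ (pd_mem k)]

theorem H.ne (k : ℕ) : θ (pderiv k) ≠ 0 := fun e => by
  simpa using congrArg (fun d : Der F => d (X k)) (h.inj _ _ (pd_mem k) (zero_mem _) (e.trans h.zero.symm))

theorem H.dd (k i : ℕ) : ⁅θ (pderiv k), θ (pderiv i)⁆ = 0 := by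
  rw [h.br (pd_mem k) (pd_mem i), br_pd, h.zero]

theorem H.cen {R : Der F} (hR : R ∈ W F) (c : ∀ k, ⁅θ (pderiv k), R⁆ = 0) :
    ∃ G ∈ W F, θ G = R ∧ ∀ i, G (X i) = C ((G (X i)).coeff 0) := by
  obtain ⟨G, hG, rfl⟩ := h.sur R hR
  refine ⟨G, hG, rfl, fun i => const fun k => ?_⟩
  rw [← br_X, h.inj _ _ (br_mem (pd_mem k) hG) (zero_mem _)
    ((h.br (pd_mem k) hG).symm.trans ((c k).trans h.zero.symm))]
  rfl

theorem H.xd (k a b : ℕ) : ⁅θ (pderiv k), θ ((X a : MvPolynomial ℕ F) • pderiv b)⁆ =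
    if k = a then θ (pderiv b) else 0 := by
  rw [h.br (pd_mem k) ((W F).smul_mem _ (pd_mem b)), br1, br_pd, pd_X]
  split_ifs <;> simp [h.zero]

theorem H.con {p : MvPolynomial ℕ F} (hp : ∀ k, θ (pderiv k) p = 0) : ∃ c, p = C c := by
  have a : ∀ k, ∃ c : F, θ ((X 0 : MvPolynomial ℕ F) • pderiv 0) p • θ (pderiv k) -
      p • (if k = 0 then θ (pderiv 0) else 0) = (C c : MvPolynomial ℕ F) • θ (pderiv 0) := fun k => by
    obtain ⟨G, g1, g2, g3⟩ := h.cen ((W F).smul_mem p (h.mem _ (pd_mem k))) fun j => by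
      rw [br1, hp, h.dd]; simp
    have := h.br ((W F).smul_mem (X 0) (pd_mem 0)) g1
    rw [br2, show ⁅(pderiv 0 : Der F), G⁆ = 0 from derivation_ext fun i => by rw [br_X, g3]; simp,
      smul_zero, zero_sub, ng_smul, g3, ← C_neg, h.cs, g2, br1, ← lie_skew, h.xd, smul_neg,
      ← sub_eq_add_neg] at this
    exact ⟨_, this⟩
  obtain ⟨c, h0⟩ := a 0
  obtain ⟨u, h1⟩ := a 1
  obtain ⟨v, h2⟩ := a 2
  simp only [if_true, one_ne_zero, if_false, smul_zero, sub_zero, OfNat.ofNat_ne_zero] at h0 h1 h2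
  rw [sb_smul, ← sub_eq_zero, sb_smul] at h0
  have h0 := canc h0 (h.ne 0)
  by_cases z : θ ((X 0 : MvPolynomial ℕ F) • pderiv 0) p = 0
  · exact ⟨-c, by rw [C_neg]; linear_combination z - h0⟩
  have : θ ((C v : MvPolynomial ℕ F) • pderiv 1) = θ ((C u : MvPolynomial ℕ F) • pderiv 2) := by
    rw [h.cs, h.cs, ← sub_eq_zero]
    by_contra k
    refine z (canc ?_ k)
    rw [smul_sub, smul_comm, h1, smul_comm (θ _ p) (C u : MvPolynomial ℕ F), h2, smul_comm, sub_self]
  have := congrArg (fun d : Der F => d (X 2)) (h.inj _ _ ((W F).smul_mem _ (pd_mem 1))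
    ((W F).smul_mem _ (pd_mem 2)) this)
  simp only [Derivation.smul_apply, pd_X, OfNat.one_ne_ofNat, if_false, if_true, smul_zero, smul_eq_mul,
    mul_one] at this
  rw [← this, mul_zero, zero_smul] at h1
  exact (z (canc h1 (h.ne 1))).elim

theorem H.lin : ∃ p b, θ (pderiv b) p ≠ 0 ∧ ∀ k j, θ (pderiv j) (θ (pderiv k) p) = 0 := by
  have : ∀ n, ∀ G ∈ W F, (∀ i, Lt n (G (X i))) → ∀ p : MvPolynomial ℕ F, θ G = p • θ (pderiv 0) →
      ∀ b, θ (pderiv b) p ≠ 0 → ∃ p b, θ (pderiv b) p ≠ 0 ∧ ∀ k j, θ (pderiv j) (θ (pderiv k) p) = 0 := by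
    intro n
    induction n with
    | zero =>
      intro G _ l p e b hb
      rw [show G = 0 from derivation_ext fun i => lt_zero (l i), h.zero] at e
      exact (hb (by rw [canc e.symm (h.ne 0), map_zero])).elim
    | succ n ih =>
      intro G hG l p e b hb
      by_contra k
      push Not at k
      obtain ⟨i, j, z⟩ := k p b hb
      obtain ⟨q, c, z1, z2⟩ := ih _ (br_mem (pd_mem i) hG) (fun t => by rw [br_X]; exact lt_pd (l t) i) _
        (by rw [← h.br (pd_mem i) hG, e, br1, h.dd, smul_zero, add_zero]) j z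
      obtain ⟨i, j, z⟩ := k q c z1
      exact z (z2 i j)
  obtain ⟨p, hp⟩ : ∃ p, θ (pderiv 0) p ≠ 0 := by
    by_contra k
    push Not at k
    exact h.ne 0 (Derivation.ext k)
  obtain ⟨G, hG, e⟩ := h.sur _ ((W F).smul_mem p (h.mem _ (pd_mem 0)))
  obtain ⟨n, l⟩ := lt_W hG
  exact this n G hG l p e 0 hp

theorem H.cen2 {y : ℕ → MvPolynomial ℕ F} (hy : ∀ k a, θ (pderiv k) (y a) = if k = a then 1 else 0)
    {R : Der F} (hR : R ∈ W F) (c : ∀ k, ⁅θ (pderiv k), R⁆ = 0) :
    (∀ j, ∃ c, R (y j) = C c) ∧ ((∀ j, R (y j) = 0) → R = 0) := by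
  refine ⟨fun j => h.con fun k => ?_, fun z => ?_⟩
  · have := congrArg (fun d : Der F => d (y j)) (c k)
    simp only [Derivation.commutator_apply, hy] at this
    split_ifs at this <;> simpa using this
  · obtain ⟨G, g1, rfl, g3⟩ := h.cen hR c
    obtain ⟨s, e⟩ := as_sum g1
    have e2 : θ G = ∑ i ∈ s, G (X i) • θ (pderiv i) := by
      rw [congrArg θ e, h.sum _ _ fun i => (W F).smul_mem _ (pd_mem i)]
      exact Finset.sum_congr rfl fun i _ => by rw [g3, h.cs]
    rw [e2]
    refine Finset.sum_eq_zero fun j hj => ?_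
    have := z j
    rw [e2, sum_ap] at this
    simp only [Derivation.smul_apply, hy, smul_eq_mul, mul_ite, mul_one, mul_zero,
      Finset.sum_ite_eq', hj, if_true] at this
    rw [this, zero_smul]

theorem H.ys : ∃ y : ℕ → MvPolynomial ℕ F, (∀ k a, θ (pderiv k) (y a) = if k = a then 1 else 0) ∧
    ∀ a, θ ((X a : MvPolynomial ℕ F) • pderiv a) = y a • θ (pderiv a) := by
  obtain ⟨p, b, hb, hp⟩ := h.lin
  choose c hc using fun k => h.con (hp k)
  have cb : c b ≠ 0 := fun e => hb (by rw [hc, e, C_0])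
  obtain ⟨y, hy⟩ : ∃ y : ℕ → MvPolynomial ℕ F, ∀ k a, θ (pderiv k) (y a) = if k = a then 1 else 0 := by
    refine ⟨fun a => (c b)⁻¹ • θ ((X a : MvPolynomial ℕ F) • pderiv b) p, fun k a => ?_⟩
    have := congrArg (fun d : Der F => d p) (h.xd k a b)
    simp only [Derivation.commutator_apply, hc, derivation_C, sub_zero] at this
    rw [Derivation.map_smul, this]
    split_ifs
    · rw [hc, smul_eq_C_mul, ← C_mul, inv_mul_cancel₀ cb, C_1]
    · simp
  have xm := fun a => (W F).smul_mem (X a) (pd_mem a)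
  have key : ∀ (a : ℕ) (u : F), ∀ k, ⁅θ (pderiv k), θ ((X a : MvPolynomial ℕ F) • pderiv a) -
      (y a + C u) • θ (pderiv a)⁆ = 0 := fun a u k => by
    rw [l_sub, h.xd, br1, h.dd, map_add, hy, derivation_C]
    split_ifs <;> simp
  have mm := fun (a : ℕ) (u : F) => sub_mem (h.mem _ (xm a)) ((W F).smul_mem (y a + C u) (h.mem _ (pd_mem a)))
  choose e he using fun a => (h.cen2 hy (mm a 0) (key a 0)).1
  simp only [C_0, add_zero, Derivation.sub_apply, Derivation.smul_apply, hy, smul_eq_mul, mul_ite, mul_one,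
    mul_zero, sub_eq_iff_eq_add] at he
  refine ⟨fun a => y a + C (e a a), fun k a => by rw [map_add, hy, derivation_C, add_zero], fun a =>
    sub_eq_zero.1 ((h.cen2 hy (mm a _) (key a _)).2 fun j => ?_)⟩
  rw [Derivation.sub_apply, Derivation.smul_apply, hy, he]
  split_ifs with z
  · rw [z]; simp [add_comm]
  · have := congrArg (fun d : Der F => d (y j)) (h.br (xm a) (xm j))
    rw [br1, br2, br_pd, Derivation.smul_apply, pd_X, pd_X, if_neg z, if_neg (Ne.symm z)] at this
    simp only [smul_zero, zero_smul, sub_zero, add_zero, h.zero, Derivation.commutator_apply] at this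
    rw [he j j, he a j, if_pos rfl, if_neg z, map_add, he a j, if_neg z] at this
    simpa using this

theorem H.main : ∃ φ : MvPolynomial ℕ F ≃ₐ[F] MvPolynomial ℕ F,
    (∀ n : ℕ, Set.Finite {i : ℕ | n ∈ (φ (X i)).vars} ∧ Set.Finite {i : ℕ | n ∈ (φ.symm (X i)).vars}) ∧
    ∀ d ∈ W F, ∀ f, θ d f = φ (d (φ.symm f)) := by
  obtain ⟨y, hy, hx⟩ := h.ys
  let φ : MvPolynomial ℕ F →ₐ[F] MvPolynomial ℕ F := aeval y
  have p0 : ∀ i, φ (X i) = y i := aeval_X y
  have p1 : ∀ k p, θ (pderiv k) (φ p) = φ (pderiv k p) := fun k p => by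
    induction p using MvPolynomial.induction_on with
    | C c => simp [φ]
    | add p q u v => simp only [map_add, u, v]
    | mul_X p i u =>
      rw [map_mul, Derivation.leibniz, Derivation.leibniz, u, p0, hy, pd_X]
      split_ifs <;> simp [p0]
  have inj : ∀ n p, Lt n p → φ p = 0 → p = 0 := fun n => by
    induction n with
    | zero => exact fun p l _ => lt_zero l
    | succ n ih =>
      intro p l e
      have := const fun k => ih _ (lt_pd l k) (by rw [← p1, e, map_zero])
      rw [this] at e ⊢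
      simpa [φ] using e
  have M : ∀ n p, Lt n p → ∀ i, θ (p • pderiv i) = φ p • θ (pderiv i) := fun n => by
    induction n with
    | zero => exact fun p l i => by simp [lt_zero l, h.zero]
    | succ n ih =>
      intro p l i
      rw [p.as_sum, Finset.sum_smul, h.sum _ _ fun m => (W F).smul_mem _ (pd_mem i), map_sum,
        Finset.sum_smul]
      refine Finset.sum_congr rfl fun m hm => ?_
      have l2 : Lt (n + 1) (monomial m (coeff m p)) := fun t ht => by
        rw [Finset.mem_singleton.1 (support_monomial_subset ht)]; exact l m hm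
      generalize coeff m p = c at l2
      have qm := (W F).smul_mem (monomial m c) (pd_mem i)
      obtain ⟨c1, c2⟩ := h.cen2 hy (sub_mem (h.mem _ qm)
        ((W F).smul_mem (φ (monomial m c)) (h.mem _ (pd_mem i)))) fun k => by
        rw [l_sub, h.br (pd_mem k) qm, br1, br1, br_pd, h.dd, smul_zero, add_zero, ih _ (lt_pd l2 k), p1]
        simp
      have w : ∀ j, ⁅y j • θ (pderiv j), θ (monomial m c • pderiv i) - φ (monomial m c) • θ (pderiv i)⁆ =
          ((m j : F) - if i = j then 1 else 0) •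
            (θ (monomial m c • pderiv i) - φ (monomial m c) • θ (pderiv i)) := fun j => by
        rw [l_sub, smul_sub, ← h.smul _ _ qm]
        congr 1
        · rw [← hx, h.br ((W F).smul_mem _ (pd_mem j)) qm, br1, br2, br_pd, pd_X, Derivation.smul_apply,
            smul_eq_mul, X_mul_pderiv_monomial]
          congr 1
          rw [smul_assoc]
          split_ifs with z <;> simp [Nat.cast_smul_eq_nsmul, z, sub_eq_add_neg, add_smul]
        · rw [br1, br2, h.dd, hy, Derivation.smul_apply, smul_eq_mul, p1, ← p0, ← map_mul,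
            X_mul_pderiv_monomial, map_nsmul]
          rw [smul_assoc]
          split_ifs with z <;> simp [Nat.cast_smul_eq_nsmul, z, sub_eq_add_neg, add_smul]
      rcases eq_or_ne m 0 with rfl | m0
      · rw [monomial_zero', h.cs]; simp [φ]
      refine sub_eq_zero.1 (c2 fun j => ?_)
      generalize θ (monomial m c • pderiv i) - φ (monomial m c) • θ (pderiv i) = R at c1 w
      obtain ⟨u, hu⟩ := c1 j
      have w2 : ∀ t, ((m t : F) - (if i = t then 1 else 0) + if t = j then 1 else 0) * u = 0 := fun t => by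
        have := congrArg (fun d : Der F => d (y j)) (w t)
        simp only [Derivation.commutator_apply, Derivation.smul_apply, hu, hy, derivation_C] at this
        refine C_injective ℕ F ?_
        rw [add_mul, C_add, C_mul, ← smul_eq_C_mul, ← this]
        split_ifs with z <;> simp [z, hu]
      rw [hu, C_eq_zero]
      by_contra u0
      have w3 := fun t => (mul_eq_zero.1 (w2 t)).resolve_right u0
      by_cases ij : i = j
      · refine m0 (Finsupp.ext fun t => ?_)
        have := w3 t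
        rw [← ij] at this
        simpa [eq_comm (a := t)] using this
      · have := w3 j
        rw [if_neg ij, if_pos rfl, sub_zero] at this
        exact Nat.cast_add_one_ne_zero _ this
  have T : ∀ d ∈ W F, ∀ g, θ d (φ g) = φ (d g) := fun d hd g => by
    obtain ⟨s, e⟩ := as_sum hd
    rw [congrArg θ e, h.sum _ _ fun i => (W F).smul_mem _ (pd_mem i), congrArg (fun d : Der F => d g) e,
      sum_ap, sum_ap, map_sum]
    refine Finset.sum_congr rfl fun i _ => ?_
    obtain ⟨n, l⟩ := lt_ex (d (X i))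
    rw [M n _ (l n le_rfl), Derivation.smul_apply, p1, Derivation.smul_apply, smul_eq_mul, smul_eq_mul,
      map_mul]
  let ψ := AlgEquiv.ofBijective φ ⟨(injective_iff_map_eq_zero φ).2 fun p =>
    (lt_ex p).elim fun n l => inj n p (l n le_rfl), fun p => by
      obtain ⟨G, hG, e⟩ := h.sur _ ((W F).smul_mem p (h.mem _ (pd_mem 0)))
      exact ⟨G (X 0), by rw [← T G hG, e, p0, Derivation.smul_apply, hy]; simp⟩⟩
  have T2 : ∀ d ∈ W F, ∀ f, θ d f = ψ (d (ψ.symm f)) := fun d hd f => by
    conv_lhs => rw [← ψ.apply_symm_apply f]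
    exact T d hd _
  refine ⟨ψ, fun n => ⟨?_, ?_⟩, T2⟩
  · obtain ⟨G, hG, e⟩ := h.sur _ (pd_mem n)
    refine Set.Finite.subset hG fun i hi z => pd_ne hi ?_
    rw [← e, T2 G hG, ψ.symm_apply_apply, z, map_zero]
  · refine Set.Finite.subset (h.mem _ (pd_mem n)) fun i hi z => pd_ne hi (ψ.injective ?_)
    rw [← T2 _ (pd_mem n), z, map_zero]

end Pool.Agent.H22.Winf
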