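import Mathlib

namespace Pool.Agent.H22.Witt1

open MvPolynomial

abbrev R := MvPolynomial (Fin 2) ℂ
abbrev E := Module.End ℂ R
abbrev Q := QuadraticAlgebra R (X 1) 0

noncomputable def s : Q := ⟨X 0, 1⟩
noncomputable def fe (f : Polynomial ℂ) : R := (Polynomial.aeval s f).re
noncomputable def fo (f : Polynomial ℂ) : R := (Polynomial.aeval s f).im

noncomputable def XD (f : Polynomial ℂ) : Derivation ℂ R R :=
  fe f • pderiv 0 + (2 * X 1 * fo f) • pderiv 1

theorem XD_apply (f : Polynomial ℂ) (p : R) :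
    XD f p = fe f * pderiv 0 p + 2 * X 1 * fo f * pderiv 1 p := by
  simp [XD]

theorem XD_X0 (f : Polynomial ℂ) : XD f (X 0) = fe f := by
  simp [XD_apply, pderiv_X]

theorem XD_X1 (f : Polynomial ℂ) : XD f (X 1) = 2 * X 1 * fo f := by
  simp [XD_apply, pderiv_X]

noncomputable def DL (f : Polynomial ℂ) : Q →ₗ[ℂ] Q where
  toFun z := ⟨XD f z.re, XD f z.im + z.im * fo f⟩
  map_add' x y := by
    ext1 <;> simp
    ring
  map_smul' c x := by
    ext1 <;> simp

theorem DL_re (f : Polynomial ℂ) (z : Q) : (DL f z).re = XD f z.re := rfl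
theorem DL_im (f : Polynomial ℂ) (z : Q) : (DL f z).im = XD f z.im + z.im * fo f := rfl

noncomputable def DQ (f : Polynomial ℂ) : Derivation ℂ Q Q :=
  Derivation.mk' (DL f) (by
    intro a b
    ext1
    · simp [DL_re, DL_im, XD_X1]
      ring
    · simp [DL_re, DL_im, XD_X1]
      ring)

theorem DQ_re (f : Polynomial ℂ) (z : Q) : (DQ f z).re = XD f z.re := rfl
theorem DQ_im (f : Polynomial ℂ) (z : Q) : (DQ f z).im = XD f z.im + z.im * fo f := rfl

theorem DQ_s (f : Polynomial ℂ) : DQ f s = Polynomial.aeval s f := by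
  ext1
  · rw [DQ_re]; exact XD_X0 f
  · rw [DQ_im]; simp [s, fo]

theorem DQ_aeval (f g : Polynomial ℂ) :
    DQ f (Polynomial.aeval s g) = Polynomial.aeval s (Polynomial.derivative g * f) := by
  rw [Derivation.map_aeval, DQ_s]; simp

theorem XD_fe (f g : Polynomial ℂ) : XD f (fe g) = fe (Polynomial.derivative g * f) := by
  have := congrArg QuadraticAlgebra.re (DQ_aeval f g)
  rw [DQ_re] at this
  exact this

theorem XD_fo (f g : Polynomial ℂ) :
    XD f (fo g) + fo g * fo f = fo (Polynomial.derivative g * f) := by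
  have := congrArg QuadraticAlgebra.im (DQ_aeval f g)
  rw [DQ_im] at this
  exact this

theorem fe_sub (f g : Polynomial ℂ) : fe (f - g) = fe f - fe g := by simp [fe]
theorem fo_sub (f g : Polynomial ℂ) : fo (f - g) = fo f - fo g := by simp [fo]
theorem fe_add (f g : Polynomial ℂ) : fe (f + g) = fe f + fe g := by simp [fe]
theorem fo_add (f g : Polynomial ℂ) : fo (f + g) = fo f + fo g := by simp [fo]
theorem fe_smul (c : ℂ) (f : Polynomial ℂ) : fe (c • f) = c • fe f := by simp [fe]
theorem fo_smul (c : ℂ) (f : Polynomial ℂ) : fo (c • f) = c • fo f := by simp [fo]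

theorem XD_lie (f g : Polynomial ℂ) :
    ⁅XD f, XD g⁆ = XD (Polynomial.derivative g * f - Polynomial.derivative f * g) := by
  apply MvPolynomial.derivation_ext
  intro i
  fin_cases i
  · show ⁅XD f, XD g⁆ (X 0) = XD _ (X 0)
    rw [Derivation.commutator_apply, XD_X0, XD_X0, XD_X0, XD_fe, XD_fe, fe_sub]
  · show ⁅XD f, XD g⁆ (X 1) = XD _ (X 1)
    rw [Derivation.commutator_apply, XD_X1, XD_X1, XD_X1, fo_sub, ← XD_fo, ← XD_fo]
    have h2 : ∀ h, XD h (2 : R) = 0 := fun h => by
      have : (2 : R) = algebraMap ℂ R 2 := by simp [map_ofNat]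
      rw [this, Derivation.map_algebraMap]
    simp only [Derivation.leibniz, smul_eq_mul, XD_X1, h2]
    ring

theorem XD_add (f g : Polynomial ℂ) : XD (f + g) = XD f + XD g := by
  apply MvPolynomial.derivation_ext
  intro i
  simp only [XD_apply, fe_add, fo_add, Derivation.add_apply]
  ring

theorem XD_smul (c : ℂ) (f : Polynomial ℂ) : XD (c • f) = c • XD f := by
  apply MvPolynomial.derivation_ext
  intro i
  simp [XD_apply, fe_smul, fo_smul]

theorem XD_one (p : R) : XD 1 p = pderiv 0 p := by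
  have h1 : fe 1 = 1 := by rw [fe, map_one]; rfl
  have h2 : fo 1 = 0 := by rw [fo, map_one]; rfl
  simp [XD_apply, h1, h2]

theorem XD_X (p : R) : XD Polynomial.X p = X 0 * pderiv 0 p + 2 * (X 1 * pderiv 1 p) := by
  simp [XD_apply, fe, fo, s]
  ring

theorem XD_X2 (p : R) : XD (Polynomial.X ^ 2) p
    = (X 0 ^ 2 + X 1) * pderiv 0 p + 4 * X 0 * (X 1 * pderiv 1 p) := by
  simp [XD_apply, fe, fo, s, pow_two]
  ring

theorem coeff_X_mul_pderiv (i : Fin 2) (m : Fin 2 →₀ ℕ) (p : R) :
    coeff m (X i * pderiv i p) = (m i : ℂ) * coeff m p := by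
  induction p using MvPolynomial.induction_on' with
  | monomial u a =>
    rw [X_mul_pderiv_monomial]
    classical
    simp only [coeff_smul, coeff_monomial]
    split_ifs with h
    · subst h; simp
    · simp
  | add p q hp hq => simp [mul_add, hp, hq]

theorem vanish (r : R) (j : ℕ) (h0 : pderiv 0 r = 0)
    (h1 : X 0 * pderiv 0 r + 2 * (X 1 * pderiv 1 r) = (2 * j + 1 : R) * r) : r = 0 := by
  ext m
  by_contra hm
  simp only [coeff_zero] at hm
  have e0 := coeff_X_mul_pderiv 0 m r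
  rw [h0] at e0 h1
  have e1 := coeff_X_mul_pderiv 1 m r
  have h2 : (2 : ℂ) • (X 1 * pderiv 1 r) = (2 * j + 1 : ℂ) • r := by
    rw [smul_eq_C_mul, smul_eq_C_mul]
    simp only [map_add, map_mul, map_ofNat, map_natCast, map_one]
    simpa using h1
  have h3 := congrArg (coeff m) h2
  rw [coeff_smul, coeff_smul, e1, smul_eq_mul, smul_eq_mul, ← mul_assoc] at h3
  have h4 := mul_right_cancel₀ hm h3
  have h5 : 2 * m 1 = 2 * j + 1 := by exact_mod_cast h4
  omega

/-- The commutator with multiplication by the second variable. -/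
noncomputable def adw (T : E) : E := LinearMap.mulLeft ℂ (X 1) * T - T * LinearMap.mulLeft ℂ (X 1)

noncomputable def mono (k : ℕ) : Fin 2 →₀ ℕ := Finsupp.single 1 k

theorem key (T : E) (h1 : ∀ p, XD 1 (T p) - T (XD 1 p) = p)
    (h2 : ∀ p, XD Polynomial.X (T p) - T (XD Polynomial.X p) = T p)
    (h3 : ∀ p, XD (Polynomial.X ^ 2) (T p) - T (XD (Polynomial.X ^ 2) p) = T (T p)) (N : ℕ) :
    adw^[N] T ≠ 0 := by
  have hw : ∀ j : ℕ, X 1 * pderiv 1 (X 1 ^ j : R) = (j : R) * X 1 ^ j := by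
    intro j
    rcases j with _ | j
    · simp
    · simp [Derivation.leibniz_pow, pderiv_X]
      ring
  have hw0 : ∀ j : ℕ, pderiv 0 (X 1 ^ j : R) = 0 := by
    intro j
    simp [Derivation.leibniz_pow, pderiv_X]
  have a1 : ∀ j : ℕ, T (X 1 ^ j) = X 0 * X 1 ^ j := by
    intro j
    have b1 := h1 (X 1 ^ j)
    have b2 := h2 (X 1 ^ j)
    rw [XD_one, XD_one, hw0, map_zero, sub_zero] at b1
    rw [XD_X, XD_X, hw0, hw] at b2
    have b3 : T (X 0 * 0 + 2 * ((j : R) * X 1 ^ j)) = 2 * (j : R) * T (X 1 ^ j) := by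
      have : (X 0 * 0 + 2 * ((j : R) * X 1 ^ j) : R) = (2 * j : ℂ) • X 1 ^ j := by
        rw [smul_eq_C_mul]; simp [map_ofNat]; ring
      rw [this, map_smul, smul_eq_C_mul]; simp [map_ofNat]
    rw [b3] at b2
    have := vanish (T (X 1 ^ j) - X 0 * X 1 ^ j) j (by
      rw [map_sub, b1, Derivation.leibniz, hw0]; simp [pderiv_X]) (by
      rw [map_sub, map_sub, Derivation.leibniz, Derivation.leibniz, hw0]
      have := hw j
      generalize pderiv 1 (X 1 ^ j : R) = y at *
      simp only [smul_eq_mul, pderiv_X]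
      simp
      linear_combination b2 - 2 * X 0 * this)
    exact sub_eq_zero.1 this
  have a2 : ∀ j : ℕ, (4 * j + 1 : ℂ) • T (X 0 * X 1 ^ j)
      = (4 * j + 1 : ℂ) • (X 0 ^ 2 * X 1 ^ j) + X 1 ^ (j + 1) := by
    intro j
    have b := h3 (X 1 ^ j)
    rw [a1, XD_X2, XD_X2, hw0, hw] at b
    have b3 : T ((X 0 ^ 2 + X 1) * 0 + 4 * X 0 * ((j : R) * X 1 ^ j))
        = 4 * (j : R) * T (X 0 * X 1 ^ j) := by
      have : ((X 0 ^ 2 + X 1) * 0 + 4 * X 0 * ((j : R) * X 1 ^ j) : R)
          = (4 * j : ℂ) • (X 0 * X 1 ^ j) := by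
        rw [smul_eq_C_mul]; simp [map_ofNat]; ring
      rw [this, map_smul, smul_eq_C_mul]; simp [map_ofNat]
    rw [b3, Derivation.leibniz, Derivation.leibniz, hw0] at b
    have := hw j
    generalize pderiv 1 (X 1 ^ j : R) = y at *
    simp only [smul_eq_mul, pderiv_X] at b
    simp at b
    rw [smul_eq_C_mul, smul_eq_C_mul]
    simp only [map_add, map_mul, map_ofNat, map_natCast, map_one]
    linear_combination -b + 4 * X 0 ^ 2 * this
  have hne : ∀ j : ℕ, (4 * j + 1 : ℂ) ≠ 0 := fun j => by exact_mod_cast Nat.succ_ne_zero (4 * j)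
  have a3 : ∀ j : ℕ, coeff (mono (j + 1)) (T (X 0 * X 1 ^ j)) = 1 / (4 * j + 1 : ℂ) := by
    intro j
    have := congrArg (coeff (mono (j + 1))) (a2 j)
    rw [coeff_add, coeff_smul, coeff_smul, smul_eq_mul, smul_eq_mul] at this
    have c1 : coeff (mono (j + 1)) (X 1 ^ (j + 1) : R) = 1 := by
      simp [mono, coeff_X_pow]
    have c2 : coeff (mono (j + 1)) (X 0 ^ 2 * X 1 ^ j : R) = 0 := by
      rw [pow_two, mul_assoc, coeff_X_mul']
      simp [mono]
    rw [c1, c2] at this
    field_simp [hne j]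
    linear_combination this
  have a4 : ∀ m j : ℕ, coeff (mono (j + m + 1)) (adw^[m] T (X 0 * X 1 ^ j))
      = 4 ^ m * (m.factorial : ℂ) / ∏ i ∈ Finset.range (m + 1), (4 * ((j + i : ℕ) : ℂ) + 1) := by
    intro m
    induction m with
    | zero => intro j; simpa using a3 j
    | succ m ih =>
      intro j
      rw [Function.iterate_succ_apply']
      generalize adw^[m] T = S at *
      have e1 : adw S (X 0 * X 1 ^ j) = X 1 * S (X 0 * X 1 ^ j) - S (X 0 * X 1 ^ (j + 1)) := by
        simp only [adw, LinearMap.sub_apply, Module.End.mul_apply, LinearMap.mulLeft_apply]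
        congr 2
        ring
      have e2 : mono (j + (m + 1) + 1) = Finsupp.single 1 1 + mono (j + m + 1) := by
        simp only [mono]
        rw [← Finsupp.single_add]
        congr 1
        ring
      have e3 : j + (m + 1) + 1 = j + 1 + m + 1 := by ring
      have e4 : coeff (mono (j + (m + 1) + 1)) (X 1 * S (X 0 * X 1 ^ j))
          = coeff (mono (j + m + 1)) (S (X 0 * X 1 ^ j)) := by rw [e2, coeff_X_mul]
      rw [e1, coeff_sub, e4, e3, ih, ih]
      have p1 : ∏ i ∈ Finset.range (m + 1 + 1), (4 * ((j + i : ℕ) : ℂ) + 1)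
          = (∏ i ∈ Finset.range (m + 1), (4 * ((j + i : ℕ) : ℂ) + 1))
            * (4 * ((j + (m + 1) : ℕ) : ℂ) + 1) := Finset.prod_range_succ _ _
      have p2 : ∏ i ∈ Finset.range (m + 1 + 1), (4 * ((j + i : ℕ) : ℂ) + 1)
          = (∏ i ∈ Finset.range (m + 1), (4 * ((j + 1 + i : ℕ) : ℂ) + 1))
            * (4 * ((j + 0 : ℕ) : ℂ) + 1) := by
        rw [Finset.prod_range_succ']
        congr 1
        apply Finset.prod_congr rfl
        intro i _
        congr 3
        ring
      have n1 : (∏ i ∈ Finset.range (m + 1), (4 * ((j + i : ℕ) : ℂ) + 1)) ≠ 0 :=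
        Finset.prod_ne_zero_iff.2 fun i _ => hne _
      have n2 : (∏ i ∈ Finset.range (m + 1), (4 * ((j + 1 + i : ℕ) : ℂ) + 1)) ≠ 0 :=
        Finset.prod_ne_zero_iff.2 fun i _ => hne _
      have n3 : (∏ i ∈ Finset.range (m + 1 + 1), (4 * ((j + i : ℕ) : ℂ) + 1)) ≠ 0 :=
        Finset.prod_ne_zero_iff.2 fun i _ => hne _
      generalize (∏ i ∈ Finset.range (m + 1), (4 * ((j + i : ℕ) : ℂ) + 1)) = A at *
      generalize (∏ i ∈ Finset.range (m + 1), (4 * ((j + 1 + i : ℕ) : ℂ) + 1)) = B at *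
      generalize (∏ i ∈ Finset.range (m + 1 + 1), (4 * ((j + i : ℕ) : ℂ) + 1)) = C at *
      push_cast [Nat.factorial_succ] at *
      field_simp
      linear_combination (m.factorial : ℂ) * 4 ^ m * (B * p1 - A * p2)
  intro h
  have := a4 N 0
  rw [h] at this
  simp only [LinearMap.zero_apply, coeff_zero] at this
  have n1 : (∏ i ∈ Finset.range (N + 1), (4 * ((0 + i : ℕ) : ℂ) + 1)) ≠ 0 :=
    Finset.prod_ne_zero_iff.2 fun i _ => hne _
  have n2 : (4 : ℂ) ^ N * (N.factorial : ℂ) ≠ 0 :=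
    mul_ne_zero (pow_ne_zero _ (by norm_num)) (by exact_mod_cast N.factorial_ne_zero)
  exact div_ne_zero n2 n1 this.symm

theorem adw_add (S T : E) : adw (S + T) = adw S + adw T := by
  simp only [adw]; noncomm_ring

theorem adw_mul (S T : E) : adw (S * T) = adw S * T + S * adw T := by
  simp only [adw, mul_sub, sub_mul, mul_assoc]; abel

theorem adw_zero : adw 0 = 0 := by simp [adw]

theorem iter_add (n : ℕ) (S T : E) : adw^[n] (S + T) = adw^[n] S + adw^[n] T := by
  induction n generalizing S T with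
  | zero => rfl
  | succ n ih => rw [Function.iterate_succ_apply, adw_add, ih]; rfl

theorem iter_zero (n : ℕ) : adw^[n] 0 = 0 := Function.iterate_fixed adw_zero n

theorem iter_mono {a b : ℕ} (h : a ≤ b) {S : E} (hS : adw^[a] S = 0) : adw^[b] S = 0 := by
  obtain ⟨c, rfl⟩ := Nat.exists_eq_add_of_le' h
  rw [Function.iterate_add_apply, hS, iter_zero]

theorem iter_mul (n : ℕ) : ∀ (a b : ℕ) (S T : E), a + b ≤ n → adw^[a] S = 0 → adw^[b] T = 0 →
    adw^[n] (S * T) = 0 := by
  induction n with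
  | zero =>
    intro a b S T h hS hT
    obtain rfl : a = 0 := by omega
    simp only [Function.iterate_zero, id] at hS ⊢
    rw [hS, zero_mul]
  | succ n ih =>
    intro a b S T h hS hT
    rcases a with _ | a
    · simp only [Function.iterate_zero, id] at hS
      rw [hS, zero_mul, iter_zero]
    rcases b with _ | b
    · simp only [Function.iterate_zero, id] at hT
      rw [hT, mul_zero, iter_zero]
    rw [Function.iterate_succ_apply, adw_mul, iter_add,
      ih a (b + 1) _ _ (by omega) hS hT, ih (a + 1) b _ _ (by omega) hS hT, add_zero]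

theorem nilp (T : E) (hT : T ∈ Algebra.adjoin ℂ
    (Set.range (fun i : Fin 2 => (LinearMap.mulLeft ℂ (X i) : E)) ∪
      Set.range (fun i : Fin 2 => ((pderiv i : Derivation ℂ R R) : E)))) :
    ∃ N, adw^[N] T = 0 := by
  induction hT using Algebra.adjoin_induction with
  | mem x hx =>
    rcases hx with ⟨i, rfl⟩ | ⟨i, rfl⟩
    · refine ⟨1, LinearMap.ext fun p => ?_⟩
      simp [adw]
      ring
    · refine ⟨2, LinearMap.ext fun p => ?_⟩
      fin_cases i
      · simp [adw, pderiv_X]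
      · simp [adw, pderiv_X]
  | algebraMap r =>
    refine ⟨1, LinearMap.ext fun p => ?_⟩
    simp [adw, Module.algebraMap_end_apply]
  | add x y _ _ hx hy =>
    obtain ⟨a, ha⟩ := hx
    obtain ⟨b, hb⟩ := hy
    exact ⟨a + b, by rw [iter_add, iter_mono (by omega) ha, iter_mono (by omega) hb, add_zero]⟩
  | mul x y _ _ hx hy =>
    obtain ⟨a, ha⟩ := hx
    obtain ⟨b, hb⟩ := hy
    exact ⟨a + b, iter_mul _ a b _ _ le_rfl ha hb⟩

end Pool.Agent.H22.Witt1
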