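import Mathlib

set_option autoImplicit false

namespace Pool.Agent.H22.YB

/-- The map `r (x, y) = (lam x y, rho y x)`. -/
def rmap {Y : Type} (lam rho : Y → Y → Y) (p : Y × Y) : Y × Y := (lam p.1 p.2, rho p.2 p.1)

/-- `r × id` on triples. -/
def r12 {Y : Type} (r : Y × Y → Y × Y) (p : Y × Y × Y) : Y × Y × Y :=
  ((r (p.1, p.2.1)).1, (r (p.1, p.2.1)).2, p.2.2)

/-- `id × r` on triples. -/
def r23 {Y : Type} (r : Y × Y → Y × Y) (p : Y × Y × Y) : Y × Y × Y := (p.1, r p.2)

/-- A non-degenerate set-theoretic solution of the braid equation. -/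
structure Sol where
  Y : Type
  lam : Y → Y → Y
  rho : Y → Y → Y
  lam_bij : ∀ x, Function.Bijective (lam x)
  rho_bij : ∀ y, Function.Bijective (rho y)
  braid : r12 (rmap lam rho) ∘ r23 (rmap lam rho) ∘ r12 (rmap lam rho) =
    r23 (rmap lam rho) ∘ r12 (rmap lam rho) ∘ r23 (rmap lam rho)

/-- Morphisms of solutions. -/
def IsHom (S T : Sol) (f : S.Y → T.Y) : Prop :=
  Prod.map f f ∘ rmap S.lam S.rho = rmap T.lam T.rho ∘ Prod.map f f

/-- `(F, i)` is a free solution on `X`. -/
def IsFree (X : Type) (F : Sol) (i : X → F.Y) : Prop :=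
  ∀ (Z : Sol) (g : X → Z.Y), ∃! f : F.Y → Z.Y, IsHom F Z f ∧ f ∘ i = g

/-- Defining relators `x y (lam x y * rho y x)⁻¹` of the structure group. -/
def rels (S : Sol) : Set (FreeGroup S.Y) :=
  {w | ∃ x y, w = .of x * .of y * (.of (S.lam x y) * .of (S.rho y x))⁻¹}

/-- The canonical map of a solution into its structure group. -/
def toStr (S : Sol) (x : S.Y) : PresentedGroup (rels S) := PresentedGroup.of x

end Pool.Agent.H22.YB
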