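import Mathlib
import Pool.Agent.H22.YBDefs

set_option autoImplicit false

namespace Pool.Agent.H22.YB

def flipSol : Sol where
  Y := Bool
  lam _ y := y
  rho _ x := !x
  lam_bij := by decide
  rho_bij := by decide
  braid := by funext ⟨a, b, c⟩; rfl

theorem not_inj {X : Type} [Nonempty X] (F : Sol) (i : X → F.Y) (h : IsFree X F i) :
    ¬ Function.Injective (toStr F) := by
  intro hinj
  obtain ⟨f, ⟨hf, -⟩, -⟩ := h flipSol fun _ => true
  let x := i (Classical.arbitrary X)
  obtain ⟨y, hy⟩ := (F.lam_bij x).2 x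
  have h1 : toStr F x * toStr F y = toStr F (F.lam x y) * toStr F (F.rho y x) := by
    have := PresentedGroup.one_of_mem (rels := rels F) ⟨x, y, rfl⟩
    rw [map_mul, map_inv, mul_inv_eq_one, map_mul, map_mul] at this
    exact this
  rw [hy, mul_right_inj] at h1
  have h2 := congrFun hf (x, y)
  have h3 : f (F.lam x y) = f y := congrArg Prod.fst h2
  have h4 : f (F.rho y x) = !(f x) := congrArg Prod.snd h2
  rw [hy] at h3
  rw [← hinj h1, ← h3] at h4
  exact (Bool.eq_not_self (f x)).1 h4 |>.elim

inductive Tm (X : Type) : Type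
  | var : X → Tm X
  | op : Fin 4 → Tm X → Tm X → Tm X

noncomputable def Sol.op (Z : Sol) : Fin 4 → Z.Y → Z.Y → Z.Y
  | 0 => Z.lam
  | 1 => Z.rho
  | 2 => fun x => (Equiv.ofBijective _ (Z.lam_bij x)).symm
  | 3 => fun x => (Equiv.ofBijective _ (Z.rho_bij x)).symm

variable {X : Type}

noncomputable def ev (Z : Sol) (g : X → Z.Y) : Tm X → Z.Y
  | .var x => g x
  | .op k a b => Z.op k (ev Z g a) (ev Z g b)

def sd (X : Type) : Setoid (Tm X) :=
  ⟨fun a b => ∀ Z g, ev Z g a = ev Z g b,
    fun _ _ _ => rfl, fun h Z g => (h Z g).symm, fun h k Z g => (h Z g).trans (k Z g)⟩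

def qop (k : Fin 4) : Quotient (sd X) → Quotient (sd X) → Quotient (sd X) :=
  Quotient.map₂ (Tm.op k) fun _ _ h _ _ h' Z g => by simp only [ev, h Z g, h' Z g]

noncomputable def qev (Z : Sol) (g : X → Z.Y) : Quotient (sd X) → Z.Y :=
  Quotient.lift (ev Z g) fun _ _ h => h Z g

theorem qev_op (Z : Sol) (g : X → Z.Y) (k : Fin 4) (a b : Quotient (sd X)) :
    qev Z g (qop k a b) = Z.op k (qev Z g a) (qev Z g b) := by
  induction a using Quotient.inductionOn
  induction b using Quotient.inductionOn
  rfl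

theorem qext {a b : Quotient (sd X)} (h : ∀ Z g, qev Z g a = qev Z g b) : a = b := by
  induction a using Quotient.inductionOn
  induction b using Quotient.inductionOn
  exact Quotient.sound h

theorem op20 (Z : Sol) (a b : Z.Y) : Z.op 2 a (Z.op 0 a b) = b :=
  (Equiv.ofBijective _ (Z.lam_bij a)).symm_apply_apply b
theorem op02 (Z : Sol) (a b : Z.Y) : Z.op 0 a (Z.op 2 a b) = b :=
  (Equiv.ofBijective _ (Z.lam_bij a)).apply_symm_apply b
theorem op31 (Z : Sol) (a b : Z.Y) : Z.op 3 a (Z.op 1 a b) = b :=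
  (Equiv.ofBijective _ (Z.rho_bij a)).symm_apply_apply b
theorem op13 (Z : Sol) (a b : Z.Y) : Z.op 1 a (Z.op 3 a b) = b :=
  (Equiv.ofBijective _ (Z.rho_bij a)).apply_symm_apply b

def FS (X : Type) : Sol where
  Y := Quotient (sd X)
  lam := qop 0
  rho := qop 1
  lam_bij x := Function.bijective_iff_has_inverse.2 ⟨qop 2 x,
    fun y => qext fun Z g => by rw [qev_op, qev_op, op20],
    fun y => qext fun Z g => by rw [qev_op, qev_op, op02]⟩
  rho_bij x := Function.bijective_iff_has_inverse.2 ⟨qop 3 x,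
    fun y => qext fun Z g => by rw [qev_op, qev_op, op31],
    fun y => qext fun Z g => by rw [qev_op, qev_op, op13]⟩
  braid := by
    funext ⟨a, b, c⟩
    refine Prod.ext (qext fun Z g => ?_) (Prod.ext (qext fun Z g => ?_) (qext fun Z g => ?_))
    all_goals
      have h := congrFun Z.braid (qev Z g a, qev Z g b, qev Z g c)
      simp only [Function.comp, r12, r23, rmap, qev_op, Prod.mk.injEq] at h ⊢
    exacts [h.1, h.2.1, h.2.2]

theorem free (X : Type) : IsFree X (FS X) fun x => Quotient.mk (sd X) (.var x) := by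
  intro Z g
  refine ⟨qev Z g, ⟨?_, rfl⟩, ?_⟩
  · funext ⟨a, b⟩
    exact Prod.ext (qev_op Z g 0 a b) (qev_op Z g 1 b a)
  · rintro f ⟨hf, rfl⟩
    have h0 : ∀ a b, f (qop 0 a b) = Z.op 0 (f a) (f b) := fun a b =>
      congrArg Prod.fst (congrFun hf (a, b))
    have h1 : ∀ a b, f (qop 1 a b) = Z.op 1 (f a) (f b) := fun a b =>
      congrArg Prod.snd (congrFun hf (b, a))
    have hop : ∀ k a b, f (qop k a b) = Z.op k (f a) (f b) := by
      intro k a b
      fin_cases k
      · exact h0 a b
      · exact h1 a b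
      · have e : qop 0 a (qop 2 a b) = b := qext fun Z g => by rw [qev_op, qev_op, op02]
        change f (qop 2 a b) = Z.op 2 (f a) (f b)
        conv_rhs => rw [← e, h0, op20]
      · have e : qop 1 a (qop 3 a b) = b := qext fun Z g => by rw [qev_op, qev_op, op13]
        change f (qop 3 a b) = Z.op 3 (f a) (f b)
        conv_rhs => rw [← e, h1, op31]
    funext a
    induction a using Quotient.inductionOn with
    | h t =>
      induction t with
      | var x => rfl
      | op k a b iha ihb =>
        change f (qop k (Quotient.mk _ a) (Quotient.mk _ b)) =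
          qev Z _ (qop k (Quotient.mk _ a) (Quotient.mk _ b))
        rw [hop, qev_op, iha, ihb]

end Pool.Agent.H22.YB
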