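import Mathlib

set_option autoImplicit false

namespace Pool.Agent.H22.ZeroDiv

open Polynomial Finset

variable (k : Type) [Field k]

abbrev FA : Type := FreeAlgebra k (Fin 4)

abbrev ι (i : Fin 4) : FA k := FreeAlgebra.ι k i

/-- Relations with `x = 0`, `y = 1`, `h = 2`, `a = 3`. -/
noncomputable def rel : Fin 5 → FA k :=
  ![ι k 0 * ι k 1 - 1, ι k 1 * ι k 0 - 1, ι k 0 * ι k 2 - ι k 2 * ι k 0 - ι k 0,
    ι k 3 * ι k 2 - ι k 2 * ι k 3, ι k 0 * ι k 3 * ι k 2 - ι k 3 * ι k 2 * ι k 0]

noncomputable def J : TwoSidedIdeal (FA k) := TwoSidedIdeal.span (Set.range (rel k))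

abbrev R : Type := FA k ⧸ (J k).asIdeal

noncomputable def mk : FA k →ₐ[k] R k := Ideal.Quotient.mkₐ k _

theorem mk_eq_zero (u : FA k) : mk k u = 0 ↔ u ∈ J k := by
  rw [← TwoSidedIdeal.mem_asIdeal]
  exact Ideal.Quotient.eq_zero_iff_mem

theorem mk_rel (i : Fin 5) : mk k (rel k i) = 0 :=
  (mk_eq_zero k _).2 (TwoSidedIdeal.subset_span ⟨i, rfl⟩)

noncomputable def x : R k := mk k (ι k 0)
noncomputable def y : R k := mk k (ι k 1)
noncomputable def h : R k := mk k (ι k 2)
noncomputable def a : R k := mk k (ι k 3)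

theorem xy : x k * y k = 1 := by
  have := mk_rel k 0
  simpa [rel, sub_eq_zero, x, y, a, h] using this
theorem yx : y k * x k = 1 := by
  have := mk_rel k 1
  simpa [rel, sub_eq_zero, x, y, a, h] using this
theorem xh : x k * h k = (h k + 1) * x k := by
  have := mk_rel k 2
  simp only [rel, Matrix.cons_val, map_sub, map_mul] at this
  have h2 : x k * h k - h k * x k - x k = 0 := this
  rw [add_mul, one_mul, ← sub_eq_zero, ← h2]; abel
theorem ah : a k * h k = h k * a k := by
  have := mk_rel k 3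
  simpa [rel, sub_eq_zero, x, y, a, h] using this
theorem xg : x k * (a k * h k) = (a k * h k) * x k := by
  have := mk_rel k 4
  simp only [rel, Matrix.cons_val, map_sub, map_mul] at this
  have h2 : x k * a k * h k - a k * h k * x k = 0 := this
  rw [← mul_assoc]; exact sub_eq_zero.1 h2

noncomputable def xu : (R k)ˣ := ⟨x k, y k, xy k, yx k⟩

noncomputable def xz (j : ℤ) : R k := ((xu k ^ j : (R k)ˣ) : R k)

theorem xz_add (i j : ℤ) : xz k (i + j) = xz k i * xz k j := by
  simp [xz, zpow_add]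
theorem xz_zero : xz k 0 = 1 := by simp [xz]
theorem xz_one : xz k 1 = x k := by simp [xz, xu]
theorem xz_neg_one : xz k (-1) = y k := by simp [xz, xu]

theorem yh : y k * h k = (h k - 1) * y k := by
  have h1 : y k * (x k * h k) * y k = y k * ((h k + 1) * x k) * y k := by rw [xh]
  rw [← mul_assoc, yx, one_mul, mul_assoc, mul_assoc, xy, mul_one, mul_add, mul_one] at h1
  rw [sub_mul, one_mul, h1]; abel

theorem xz_h (j : ℤ) : xz k j * h k = (h k + (j : R k)) * xz k j := by
  induction j using Int.induction_on with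
  | zero => simp [xz_zero]
  | succ n ih =>
    rw [xz_add, xz_one, mul_assoc, xh, ← mul_assoc, mul_add, ih]
    push_cast
    noncomm_ring
  | pred n ih =>
    rw [sub_eq_add_neg, xz_add, xz_neg_one, mul_assoc, yh, ← mul_assoc, mul_sub, ih]
    push_cast
    noncomm_ring

theorem xz_g (j : ℤ) : Commute (xz k j) (a k * h k) :=
  Commute.units_zpow_left (u := xu k) (xg k) j

noncomputable def aj (j : ℤ) : R k := xz k j * a k * xz k (-j)

theorem xz_a (j : ℤ) : xz k j * a k = aj k j * xz k j := by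
  rw [aj, mul_assoc _ (xz k (-j)), ← xz_add, neg_add_cancel, xz_zero, mul_one]

theorem h_aj (j : ℤ) : (h k + (j : R k)) * aj k j = a k * h k := by
  rw [aj, ← mul_assoc, ← mul_assoc, ← xz_h, mul_assoc (xz k j), ← ah, (xz_g k j).eq, mul_assoc,
    ← xz_add, add_neg_cancel, xz_zero, mul_one]

theorem aj_h (j : ℤ) : aj k j * (h k + (j : R k)) = a k * h k := by
  have h1 : xz k (-j) * (h k + (j : R k)) = h k * xz k (-j) := by
    rw [mul_add, xz_h, ← (Int.cast_commute j (xz k (-j))).eq]
    push_cast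
    noncomm_ring
  rw [aj, mul_assoc, h1, ← mul_assoc, mul_assoc (xz k j), (xz_g k j).eq, mul_assoc,
    ← xz_add, add_neg_cancel, xz_zero, mul_one]

theorem comm_h_aj (j : ℤ) : Commute (h k) (aj k j) := by
  have h1 := (h_aj k j).trans (aj_h k j).symm
  rw [add_mul, mul_add, (Int.cast_commute j (aj k j)).eq] at h1
  exact add_right_cancel h1

theorem comm_aeval {A : Type} [Ring A] [Algebra k A] {u v : A} (huv : Commute u v) (f : k[X]) :
    Commute (aeval u f) v := by
  induction f using Polynomial.induction_on' with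
  | add p q hp hq => rw [map_add]; exact hp.add_left hq
  | monomial n c =>
    rw [aeval_monomial]
    exact Commute.mul_left (Algebra.commutes c v) (huv.pow_left n)

section Rep

variable {K : Type} [CommRing K] [Algebra k K] (η α : ℤ → K)

def shift (j : ℤ) : Module.End k (ℤ → K) := LinearMap.funLeft k K (fun i => i + j)

noncomputable def repF : FA k →ₐ[k] Module.End k (ℤ → K) :=
  FreeAlgebra.lift k ![shift k 1, shift k (-1), Algebra.lmul k (ℤ → K) η, Algebra.lmul k (ℤ → K) α]

theorem repF_rel (h1 : ∀ i, η (i + 1) = η i + 1)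
    (h2 : ∀ i, α (i + 1) * η (i + 1) = α i * η i) (i : Fin 5) : repF k η α (rel k i) = 0 := by
  refine LinearMap.ext fun v => funext fun n => ?_
  fin_cases i
  · simp [repF, rel, shift, LinearMap.funLeft]
  · simp [repF, rel, shift, LinearMap.funLeft]
  · simp [repF, rel, shift, LinearMap.funLeft, h1]; ring
  · simp [repF, rel, shift, LinearMap.funLeft]; ring
  · simp [repF, rel, shift, LinearMap.funLeft, ← mul_assoc, h2]

noncomputable def rep (h1 : ∀ i, η (i + 1) = η i + 1)
    (h2 : ∀ i, α (i + 1) * η (i + 1) = α i * η i) : R k →ₐ[k] Module.End k (ℤ → K) :=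
  Ideal.Quotient.liftₐ _ (repF k η α) (by
    intro u hu
    rw [TwoSidedIdeal.mem_asIdeal] at hu
    have : J k ≤ TwoSidedIdeal.ker (repF k η α) := by
      rw [J, TwoSidedIdeal.span_le]
      rintro _ ⟨i, rfl⟩
      exact (TwoSidedIdeal.mem_ker _).2 (repF_rel k η α h1 h2 i)
    exact (TwoSidedIdeal.mem_ker _).1 (this hu))

variable (h1 : ∀ i, η (i + 1) = η i + 1) (h2 : ∀ i, α (i + 1) * η (i + 1) = α i * η i)

theorem rep_mk (u : FA k) : rep k η α h1 h2 (mk k u) = repF k η α u := rfl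

theorem rep_x : rep k η α h1 h2 (x k) = shift k 1 := by rw [x, rep_mk]; simp [repF]
theorem rep_y : rep k η α h1 h2 (y k) = shift k (-1) := by rw [y, rep_mk]; simp [repF]
theorem rep_h : rep k η α h1 h2 (h k) = Algebra.lmul k (ℤ → K) η := by
  rw [h, rep_mk]; simp [repF]
theorem rep_a : rep k η α h1 h2 (a k) = Algebra.lmul k (ℤ → K) α := by
  rw [a, rep_mk]; simp [repF]

theorem rep_xz (j : ℤ) : rep k η α h1 h2 (xz k j) = shift k j := by
  induction j using Int.induction_on with
  | zero =>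
    rw [xz_zero, map_one]
    refine LinearMap.ext fun v => funext fun n => ?_
    simp [shift, LinearMap.funLeft]
  | succ n ih =>
    rw [xz_add, xz_one, map_mul, ih, rep_x]
    refine LinearMap.ext fun v => funext fun n => ?_
    simp [shift, LinearMap.funLeft, add_assoc]
  | pred n ih =>
    rw [sub_eq_add_neg, xz_add, xz_neg_one, map_mul, ih, rep_y]
    refine LinearMap.ext fun v => funext fun n => ?_
    simp [shift, LinearMap.funLeft, add_assoc]

theorem rep_aj (j : ℤ) :
    rep k η α h1 h2 (aj k j) = Algebra.lmul k (ℤ → K) (fun i => α (i + j)) := by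
  rw [aj, map_mul, map_mul, rep_xz, rep_xz, rep_a]
  refine LinearMap.ext fun v => funext fun n => ?_
  simp [shift, LinearMap.funLeft]

end Rep

theorem not_domain (p : ℕ) (hp : 0 < p) [CharP k p] :
    ∃ u v : FA k, u ∉ J k ∧ v ∉ J k ∧ u * v ∈ J k := by
  classical
  have h1 : ∀ i : ℤ, (fun i : ℤ => (i : k)) (i + 1) = (fun i : ℤ => (i : k)) i + 1 := by
    intro i; simp
  have h2 : ∀ i : ℤ, (fun i : ℤ => if i = 0 then (1 : k) else 0) (i + 1) *
      (fun i : ℤ => (i : k)) (i + 1) =
      (fun i : ℤ => if i = 0 then (1 : k) else 0) i * (fun i : ℤ => (i : k)) i := by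
    have : ∀ i : ℤ, (if i = 0 then (1 : k) else 0) * (i : k) = 0 := by
      intro i; by_cases h : i = 0 <;> simp [h]
    intro i
    exact (this _).trans (this _).symm
  have hx : mk k (ι k 0 ^ p) = xz k p := by
    rw [map_pow]; simp [xz, xu, x]
  refine ⟨ι k 0 ^ p * ι k 3 - ι k 3 * ι k 0 ^ p, ι k 2, ?_, ?_, ?_⟩
  · rw [← mk_eq_zero, map_sub, map_mul, map_mul, hx]
    intro h0
    have h3 := congrArg (rep k (fun i : ℤ => (i : k)) (fun i : ℤ => if i = 0 then (1 : k) else 0) h1 h2) h0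
    have h4 : mk k (ι k 3) = a k := rfl
    rw [map_sub, map_mul, map_mul, h4, rep_xz, rep_a, map_zero] at h3
    have h5 := congrFun (LinearMap.congr_fun h3 (fun _ => 1)) 0
    have : p ≠ 0 := hp.ne'
    simp [shift, LinearMap.funLeft, this] at h5
  · rw [← mk_eq_zero]
    intro h0
    have h3 := congrArg (rep k (fun i : ℤ => (i : k)) (fun i : ℤ => if i = 0 then (1 : k) else 0) h1 h2) h0
    have h4 : mk k (ι k 2) = h k := rfl
    rw [h4, rep_h, map_zero] at h3
    have h5 := congrFun (LinearMap.congr_fun h3 (fun _ => 1)) 1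
    simp at h5
  · rw [← mk_eq_zero, map_mul, map_sub, map_mul, map_mul, hx]
    have h4 : mk k (ι k 3) = a k := rfl
    have h5 : mk k (ι k 2) = h k := rfl
    have h6 : (((p : ℤ) : R k)) = 0 := by
      rw [Int.cast_natCast, ← map_natCast (algebraMap k (R k)), CharP.cast_eq_zero, map_zero]
    rw [h4, h5, sub_mul, mul_assoc, mul_assoc, xz_h, h6, add_zero, (xz_g k p).eq, mul_assoc, sub_self]

section Low

variable (N : ℕ)

noncomputable def Q (j : ℤ) : k[X] := ∏ l ∈ (Icc (-(N : ℤ)) N).erase j, (X + C (l : k))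

theorem bezout (p : ℕ) [CharP k p] (hp : 2 * N < p) :
    ∃ β : ℤ → k[X], ∑ j ∈ Icc (-(N : ℤ)) N, β j * Q k N j = 1 := by
  have := (exists_sum_eq_one_iff_pairwise_coprime (t := Icc (-(N : ℤ)) N)
    (s := fun l : ℤ => (X + C (l : k) : k[X])) ⟨0, by simp⟩).2 (by
      rintro ⟨i, hi⟩ ⟨j, hj⟩ hij
      have hne : i ≠ j := fun h => hij (Subtype.ext h)
      have h1 : ((-i : ℤ) : k) - ((-j : ℤ) : k) ≠ 0 := by
        rw [← Int.cast_sub, Ne, CharP.intCast_eq_zero_iff k p]
        intro hd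
        rw [mem_Icc] at hi hj
        have := Int.eq_zero_of_abs_lt_dvd hd (by rw [abs_lt]; constructor <;> omega)
        omega
      have h2 := isCoprime_X_sub_C_of_isUnit_sub h1.isUnit
      simpa [Function.onFun] using h2)
  simpa [Q, sdiff_singleton_eq_erase] using this

theorem Q_aj {i j : ℤ} (hi : i ∈ Icc (-(N : ℤ)) N) (hj : j ∈ Icc (-(N : ℤ)) N) :
    aeval (h k) (Q k N i) * aj k j = aeval (h k) (Q k N j) * aj k i := by
  by_cases hij : i = j
  · rw [hij]
  have e1 : ∀ {i j : ℤ}, j ∈ Icc (-(N : ℤ)) N → i ≠ j → aeval (h k) (Q k N i) * aj k j =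
      aeval (h k) (∏ l ∈ ((Icc (-(N : ℤ)) N).erase i).erase j, (X + C (l : k))) * (a k * h k) := by
    intro i j hj hij
    rw [Q, ← prod_erase_mul _ _ (mem_erase.2 ⟨Ne.symm hij, hj⟩), map_mul, mul_assoc, ← h_aj k j]
    simp
  rw [e1 hj hij, e1 hi (Ne.symm hij), erase_right_comm]

variable (β : ℤ → k[X])

noncomputable def c : R k := ∑ j ∈ Icc (-(N : ℤ)) N, aeval (h k) (β j) * aj k j

theorem comm_h_c : Commute (h k) (c k N β) :=
  Commute.sum_right _ _ _ fun j _ =>
    (comm_aeval k (Commute.refl (h k)) (β j)).symm.mul_right (comm_h_aj k j)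

noncomputable def θ : k[X][X] →+* R k :=
  eval₂RingHom' (aeval (h k) : k[X] →ₐ[k] R k).toRingHom (c k N β)
    (fun f => comm_aeval k (comm_h_c k N β) f)

theorem θ_C (f : k[X]) : θ k N β (C f) = aeval (h k) f := by simp [θ]
theorem θ_X : θ k N β X = c k N β := by simp [θ]

theorem θ_aj (hβ : ∑ j ∈ Icc (-(N : ℤ)) N, β j * Q k N j = 1) {i : ℤ}
    (hi : i ∈ Icc (-(N : ℤ)) N) : θ k N β (C (Q k N i) * X) = aj k i := by
  rw [map_mul, θ_C, θ_X, c, mul_sum]
  have : ∀ j ∈ Icc (-(N : ℤ)) N, aeval (h k) (Q k N i) * (aeval (h k) (β j) * aj k j) =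
      aeval (h k) (β j * Q k N j) * aj k i := by
    intro j hj
    rw [← mul_assoc, ← map_mul, mul_comm (Q k N i), map_mul, mul_assoc, Q_aj k N hi hj, map_mul,
      mul_assoc]
  rw [sum_congr rfl this, ← sum_mul, ← map_sum, hβ, map_one, one_mul]

theorem word_nf (hβ : ∑ j ∈ Icc (-(N : ℤ)) N, β j * Q k N j = 1) (w : List (Fin 4))
    (hw : w.length ≤ N) : ∃ (t : k[X][X]) (j : ℤ), |j| ≤ w.length ∧
      mk k (w.map (FreeAlgebra.ι k)).prod = θ k N β t * xz k j := by
  induction w using List.reverseRecOn with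
  | nil => exact ⟨1, 0, by simp, by simp [xz_zero]⟩
  | append_singleton w i ih =>
    rw [List.length_append, List.length_singleton] at hw ⊢
    obtain ⟨t, j, hj, ht⟩ := ih (by omega)
    rw [List.map_append, List.prod_append, map_mul, ht, List.map_singleton, List.prod_singleton]
    rw [abs_le] at hj
    fin_cases i
    · refine ⟨t, j + 1, by rw [abs_le]; push_cast; omega, ?_⟩
      rw [xz_add, xz_one, mul_assoc]; rfl
    · refine ⟨t, j + -1, by rw [abs_le]; push_cast; omega, ?_⟩
      rw [xz_add, xz_neg_one, mul_assoc]; rfl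
    · refine ⟨t * C (X + C (j : k)), j, by rw [abs_le]; push_cast; omega, ?_⟩
      have : mk k (FreeAlgebra.ι k (2 : Fin 4)) = h k := rfl
      show _ * _ * mk k (FreeAlgebra.ι k (2 : Fin 4)) = _
      rw [this, mul_assoc, xz_h, map_mul, θ_C, mul_assoc]
      simp
    · refine ⟨t * (C (Q k N j) * X), j, by rw [abs_le]; push_cast; omega, ?_⟩
      have : mk k (FreeAlgebra.ι k (3 : Fin 4)) = a k := rfl
      show _ * _ * mk k (FreeAlgebra.ι k (3 : Fin 4)) = _
      rw [this, mul_assoc, xz_a, map_mul, θ_aj k N β hβ (by rw [mem_Icc]; omega), mul_assoc]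

theorem span_nf (hβ : ∑ j ∈ Icc (-(N : ℤ)) N, β j * Q k N j = 1) (u : FA k)
    (hu : u ∈ Submodule.span k {a : FA k | ∃ w : FreeMonoid (Fin 4),
      w.length < N ∧ a = (w.toList.map (FreeAlgebra.ι k)).prod}) :
    ∃ f : ℤ →₀ k[X][X], mk k u = f.sum (fun j t => θ k N β t * xz k j) := by
  induction hu using Submodule.span_induction with
  | mem u hu =>
    obtain ⟨w, hw, rfl⟩ := hu
    obtain ⟨t, j, _, ht⟩ := word_nf k N β hβ w.toList hw.le
    exact ⟨Finsupp.single j t, by rw [ht, Finsupp.sum_single_index (by simp)]⟩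
  | zero => exact ⟨0, by simp⟩
  | add u v _ _ hu hv =>
    obtain ⟨f, hf⟩ := hu
    obtain ⟨g, hg⟩ := hv
    refine ⟨f + g, ?_⟩
    rw [map_add, hf, hg, Finsupp.sum_add_index' (by simp) (by intro j s t; rw [map_add, add_mul])]
  | smul r u _ hu =>
    obtain ⟨f, hf⟩ := hu
    refine ⟨(C (C r) : k[X][X]) • f, ?_⟩
    rw [map_smul, hf, Finsupp.sum_smul_index' (by simp), Finsupp.sum, Finsupp.sum, smul_sum]
    refine sum_congr rfl fun j _ => ?_
    rw [smul_eq_mul, map_mul, θ_C, aeval_C, mul_assoc, Algebra.smul_def]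

abbrev KK : Type := (RatFunc k)[X]

noncomputable def φ (i : ℤ) : k[X] →ₐ[k] RatFunc k := aeval (RatFunc.X + (i : RatFunc k))

theorem φ_inj (i : ℤ) : Function.Injective (φ k i) := by
  have : ∀ f, φ k i f = algebraMap k[X] (RatFunc k) (taylor (i : k) f) := by
    intro f
    rw [taylor_apply, φ, comp_eq_aeval, ← aeval_algebraMap_apply]
    simp
  intro f g hfg
  rw [this, this] at hfg
  exact taylor_injective _ (RatFunc.algebraMap_injective k hfg)

theorem φ_ne (i j : ℤ) : (RatFunc.X + ((i + j : ℤ) : RatFunc k)) ≠ 0 := by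
  intro h0
  have : φ k (i + j) X = φ k (i + j) 0 := by simpa [φ] using h0
  exact X_ne_zero (φ_inj k _ this)

noncomputable def η (i : ℤ) : KK k := C (RatFunc.X + (i : RatFunc k))
noncomputable def α (i : ℤ) : KK k := C (RatFunc.X + (i : RatFunc k))⁻¹ * X

theorem η_succ (i : ℤ) : η k (i + 1) = η k i + 1 := by
  simp [η, add_assoc]

theorem αη (i : ℤ) : α k i * η k i = X := by
  have := φ_ne k i 0
  rw [add_zero] at this
  rw [α, η, mul_right_comm, ← C_mul, inv_mul_cancel₀ this, C_1, one_mul]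

theorem αη_succ (i : ℤ) : α k (i + 1) * η k (i + 1) = α k i * η k i := by rw [αη, αη]

noncomputable def uu (i : ℤ) : RatFunc k :=
  ∑ j ∈ Icc (-(N : ℤ)) N, φ k i (β j) * (RatFunc.X + ((i + j : ℤ) : RatFunc k))⁻¹

theorem uu_ne (hβ : ∑ j ∈ Icc (-(N : ℤ)) N, β j * Q k N j = 1) (i : ℤ) : uu k N β i ≠ 0 := by
  intro h0
  have h1 : uu k N β i * φ k i (∏ l ∈ Icc (-(N : ℤ)) N, (X + C (l : k))) = 1 := by
    rw [uu, sum_mul, ← map_one (φ k i), ← hβ, map_sum]
    refine sum_congr rfl fun j hj => ?_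
    rw [← mul_prod_erase _ _ hj, map_mul, map_mul, Q, mul_assoc, ← mul_assoc _ (φ k i _)]
    have : φ k i (X + C (j : k)) = RatFunc.X + ((i + j : ℤ) : RatFunc k) := by
      simp [φ, add_assoc]
    rw [this, inv_mul_cancel₀ (φ_ne k i j), one_mul]
  rw [h0, zero_mul] at h1
  exact zero_ne_one h1

noncomputable def ev (i : ℤ) : k[X][X] →+* KK k :=
  (compRingHom (C (uu k N β i) * X)).comp (mapRingHom (φ k i).toRingHom)

theorem ev_ne (hβ : ∑ j ∈ Icc (-(N : ℤ)) N, β j * Q k N j = 1) (i : ℤ) (t : k[X][X])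
    (ht : t ≠ 0) : ev k N β i t ≠ 0 := by
  intro h0
  apply ht
  ext1 n
  have h1 := congrArg (fun q => coeff q n) h0
  simp only [ev, RingHom.comp_apply, coe_mapRingHom, coe_compRingHom_apply, comp_C_mul_X_coeff,
    coeff_map, coeff_zero] at h1
  have h2 := (mul_eq_zero.1 h1).resolve_right (pow_ne_zero _ (uu_ne k N β hβ i))
  exact φ_inj k i (h2.trans (map_zero _).symm)

theorem rep_θ (t : k[X][X]) : rep k (η k) (α k) (η_succ k) (αη_succ k) (θ k N β t) =
    Algebra.lmul k (ℤ → KK k) (fun i => ev k N β i t) := by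
  have hA : ∀ f : k[X], rep k (η k) (α k) (η_succ k) (αη_succ k) (aeval (h k) f) =
      Algebra.lmul k (ℤ → KK k) (fun i => C (φ k i f)) := by
    intro f
    rw [← aeval_algHom_apply, rep_h, aeval_algHom_apply]
    congr 1
    funext i
    have h1 := aeval_algHom_apply (Pi.evalAlgHom k (fun _ : ℤ => KK k) i) (η k) f
    have h2 := aeval_algHom_apply (CAlgHom : RatFunc k →ₐ[k] KK k)
      (RatFunc.X + (i : RatFunc k)) f
    exact h1.symm.trans h2
  have key : (rep k (η k) (α k) (η_succ k) (αη_succ k)).toRingHom.comp (θ k N β) =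
      (Algebra.lmul k (ℤ → KK k)).toRingHom.comp (RingHom.pi fun i => ev k N β i) := by
    apply Polynomial.ringHom_ext
    · intro f
      show rep k (η k) (α k) (η_succ k) (αη_succ k) (θ k N β (C f)) =
        Algebra.lmul k (ℤ → KK k) (fun i => ev k N β i (C f))
      rw [θ_C, hA]
      simp [ev]
    · show rep k (η k) (α k) (η_succ k) (αη_succ k) (θ k N β X) =
        Algebra.lmul k (ℤ → KK k) (fun i => ev k N β i X)
      rw [θ_X, c, map_sum]
      simp only [map_mul, hA, rep_aj]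
      simp only [← map_mul, ← map_sum]
      congr 1
      funext i
      simp [ev, uu, α, sum_mul, mul_assoc]
  exact RingHom.congr_fun key t

theorem low_domain (hβ : ∑ j ∈ Icc (-(N : ℤ)) N, β j * Q k N j = 1) (f g : ℤ →₀ k[X][X])
    (hf : f ≠ 0) (hg : g ≠ 0) :
    f.sum (fun j t => θ k N β t * xz k j) * g.sum (fun j t => θ k N β t * xz k j) ≠ 0 := by
  classical
  intro h0
  have act : ∀ (f : ℤ →₀ k[X][X]) (v : ℤ → KK k) (i : ℤ),
      rep k (η k) (α k) (η_succ k) (αη_succ k) (f.sum (fun j t => θ k N β t * xz k j)) v i =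
        ∑ j ∈ f.support, ev k N β i (f j) * v (i + j) := by
    intro f v i
    rw [Finsupp.sum, map_sum]
    simp only [map_mul, rep_θ, rep_xz]
    simp [shift, LinearMap.funLeft, LinearMap.sum_apply, Finset.sum_apply]
  have nf := Finsupp.support_nonempty_iff.2 hf
  have ng := Finsupp.support_nonempty_iff.2 hg
  set j0 := f.support.max' nf with hj0
  set l0 := g.support.max' ng with hl0
  have mf : j0 ∈ f.support := max'_mem _ _
  have mg : l0 ∈ g.support := max'_mem _ _
  have h1 := congrFun (LinearMap.congr_fun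
    (congrArg (rep k (η k) (α k) (η_succ k) (αη_succ k)) h0) (Pi.single (j0 + l0) 1)) 0
  rw [map_mul, map_zero, Module.End.mul_apply, act, sum_eq_single j0] at h1
  · rw [act, sum_eq_single l0] at h1
    · simp only [zero_add, Pi.single_eq_same, mul_one, LinearMap.zero_apply, Pi.zero_apply] at h1
      exact mul_ne_zero (ev_ne k N β hβ _ _ (Finsupp.mem_support_iff.1 mf))
        (ev_ne k N β hβ _ _ (Finsupp.mem_support_iff.1 mg)) h1
    · intro l _ hl
      rw [Pi.single_eq_of_ne (by omega), mul_zero]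
    · intro hl; exact absurd mg hl
  · intro j hj hne
    rw [act, sum_eq_zero, mul_zero]
    intro l hl
    have a1 : j ≤ j0 := le_max' _ _ hj
    have a2 : l ≤ l0 := le_max' _ _ hl
    rw [Pi.single_eq_of_ne (by omega), mul_zero]
  · intro hj; exact absurd mf hj

end Low

theorem no_low (N p : ℕ) [CharP k p] (hp : 2 * N < p) (u v : FA k)
    (hu : u ∈ Submodule.span k {a : FA k | ∃ w : FreeMonoid (Fin 4),
      w.length < N ∧ a = (w.toList.map (FreeAlgebra.ι k)).prod})
    (hv : v ∈ Submodule.span k {a : FA k | ∃ w : FreeMonoid (Fin 4),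
      w.length < N ∧ a = (w.toList.map (FreeAlgebra.ι k)).prod})
    (hu' : u ∉ J k) (hv' : v ∉ J k) : u * v ∉ J k := by
  obtain ⟨β, hβ⟩ := bezout k N p hp
  obtain ⟨f, hf⟩ := span_nf k N β hβ u hu
  obtain ⟨g, hg⟩ := span_nf k N β hβ v hv
  rw [← mk_eq_zero] at hu' hv' ⊢
  rw [map_mul, hf, hg]
  refine low_domain k N β hβ f g ?_ ?_
  · rintro rfl; exact hu' (by simpa using hf)
  · rintro rfl; exact hv' (by simpa using hg)

theorem rel_deg (i : Fin 5) : rel k i ∈ Submodule.span k {a : FA k | ∃ w : FreeMonoid (Fin 4),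
    w.length ≤ 3 ∧ a = (w.toList.map (FreeAlgebra.ι k)).prod} := by
  have hw : ∀ w : List (Fin 4), w.length ≤ 3 → (w.map (FreeAlgebra.ι k)).prod ∈
      Submodule.span k {a : FA k | ∃ w : FreeMonoid (Fin 4),
        w.length ≤ 3 ∧ a = (w.toList.map (FreeAlgebra.ι k)).prod} :=
    fun w hw => Submodule.subset_span ⟨FreeMonoid.ofList w, hw, rfl⟩
  fin_cases i
  · simpa [rel] using Submodule.sub_mem _ (hw [0, 1] (by simp)) (hw [] (by simp))
  · simpa [rel] using Submodule.sub_mem _ (hw [1, 0] (by simp)) (hw [] (by simp))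
  · simpa [rel] using Submodule.sub_mem _
      (Submodule.sub_mem _ (hw [0, 2] (by simp)) (hw [2, 0] (by simp))) (hw [0] (by simp))
  · simpa [rel] using Submodule.sub_mem _ (hw [3, 2] (by simp)) (hw [2, 3] (by simp))
  · simpa [rel, mul_assoc] using
      Submodule.sub_mem _ (hw [0, 3, 2] (by simp)) (hw [3, 2, 0] (by simp))

end Pool.Agent.H22.ZeroDiv
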